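import Pool.Agent.MP_9758ca_gt.HolLib

/-!
PROJECT BALL: statements of the analytic modules.  See /team-store/BALL_BLUEPRINT.md.
-/

open scoped Topology ContDiff ComplexConjugate
open Set Metric Filter Complex MeasureTheory

namespace Pool.Agent.MP_9758ca_gt

noncomputable section

section Inst
variable {S E : Type} [MetricSpace S] [NormedAddCommGroup E] [NormedSpace ℝ E]

instance holNG : NormedAddCommGroup (Hol S E) := Submodule.normedAddCommGroup _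
instance holNS : @NormedSpace ℝ (Hol S E) _ NormedAddCommGroup.toSeminormedAddCommGroup :=
  Submodule.normedSpace _
instance y0NG (χ : ℂ → En0 E) : NormedAddCommGroup (Y0 χ) := Submodule.normedAddCommGroup _
instance y0NS (χ : ℂ → En0 E) :
    @NormedSpace ℝ (Y0 χ) _ NormedAddCommGroup.toSeminormedAddCommGroup :=
  Submodule.normedSpace _
instance x1NG (χ : ℂ → En0 E) : NormedAddCommGroup (X1 χ) := Submodule.normedAddCommGroup _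
instance x1NS (χ : ℂ → En0 E) :
    @NormedSpace ℝ (X1 χ) _ NormedAddCommGroup.toSeminormedAddCommGroup :=
  Submodule.normedSpace _

end Inst

section Extra
variable {V : Type} [NormedAddCommGroup V] [NormedSpace ℝ V]

/-- `C¹` convergence of spheres with `C²` bounds -/
def SConv {ι : Type} (l : Filter ι) (U : ι → C2 → V) (U₀ : C2 → V) : Prop :=
  TendstoUniformlyOn U U₀ l (sphere 0 1) ∧
    TendstoUniformlyOn (fun ν => fderiv ℝ (U ν)) (fderiv ℝ U₀) l (sphere 0 1) ∧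
    ∃ C, ∀ᶠ ν in l, ∀ v ∈ sphere (0 : C2) 1, ‖fderiv ℝ (fderiv ℝ (U ν)) v‖ ≤ C

/-- the perturbed Cauchy-Riemann equation -/
def Eqn (π : V → V) (J : V → En0 V) (b : BB V) (n : QQ V) : Prop :=
  ∀ v : S3, fderiv ℝ (fX b) v (hor v) + J (fX b v) (fderiv ℝ (fX b) v (I • hor v)) =
    fderiv ℝ π (fX b v) ((fY n v).1 + J (fX b v) (fY n v).2)

/-- the zero-order term has the right homogeneity -/
def AHom (k : Fin 3 → ℤ) (A : C2 → En0 C3) : Prop :=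
  LocH A nz ∧ ∀ c : ℂ, c ≠ 0 → ∀ v, v ≠ 0 → ∀ ζ, A (c • v) (rep k c ζ) = repY k c (A v ζ)

/-- the thickened solution set of the main problem -/
def MSol (π : V → V) (M Z D : Set V) (γ : ℝ × ℝ → V) (J : ℝ → V → En0 V)
    (𝒰 : Set (ℝ × ℝ × BB V)) : Set ((ℝ × ℝ × BB V) × QQ V) :=
  {q | q.1 ∈ 𝒰 ∧ (∀ v, v ≠ 0 → fX q.1.2.2 v ∈ M) ∧ Eqn π (J q.1.1) q.1.2.2 q.2 ∧
    fX q.1.2.2 (mk3 0) ∈ Z ∧ fX q.1.2.2 (mk3 1) ∈ D ∧ fX q.1.2.2 (mk3 2) = γ (q.1.1, q.1.2.1)}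

/-- a generic admissible family -/
structure GenFam (π : V → V) (M : Set V) (om : F2 V) (J : ℝ → V → En0 V) (𝒜 : Set (ℝ × V))
    (J' : ℝ → V → En0 V) : Prop where
  sm : ContDiff ℝ 3 fun q : ℝ × V => J' q.1 q.2
  sj : ∀ τ, SJ π M (J' τ)
  adm : ∀ τ ∈ Icc (0 : ℝ) 1, Adm M om J 𝒜 τ (J' τ)
  one : J' 1 = J 1

end Extra

/-! ### Cauchy transform and local estimates -/

def Cau1Stmt : Prop :=
  (∃ C : ℝ, 0 < C ∧ ∀ (F : Type) [NormedAddCommGroup F] [NormedSpace ℂ F] [CompleteSpace F]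
    (g : ℂ → F) (R G : ℝ), 0 < R → AEStronglyMeasurable g volume → (∀ w, ‖g w‖ ≤ G) →
    (∀ w, R < ‖w‖ → g w = 0) →
    (∀ z, Integrable fun w => ((Real.pi : ℂ) * (z - w))⁻¹ • g w) ∧ (∀ z, ‖Tc g z‖ ≤ C * R * G) ∧
    Hld (C * √R * G) (Tc g) univ ∧
    ∀ Ω, IsOpen Ω → (∀ w ∈ Ω, g w = 0) → DifferentiableOn ℂ (Tc g) Ω) ∧
  (∀ β : ℝ, -1 < β → β < 1 → β ≠ 0 → ∃ C : ℝ, 0 < C ∧
    ∀ (F : Type) [NormedAddCommGroup F] [NormedSpace ℂ F] [CompleteSpace F] (g : ℂ → F) (G : ℝ),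
    AEStronglyMeasurable g volume → (∀ w, w ≠ 0 → ‖g w‖ ≤ G * ‖w‖ ^ (-β)) →
    (∀ w, 1 < ‖w‖ → g w = 0) →
    (∀ z, Integrable fun w => ((Real.pi : ℂ) * (z - w))⁻¹ • g w) ∧ ‖Tc g 0‖ ≤ C * G ∧
    ∀ z, ‖z‖ ≤ 1 → ‖Tc g z - Tc g 0‖ ≤ C * G * (‖z‖ + ‖z‖ ^ (1 - β))) ∧
  ∀ (F : Type) [NormedAddCommGroup F] [NormedSpace ℂ F] [CompleteSpace F] (w : ℂ → F) (β G R : ℝ),
    0 ≤ β → β < 1 → ContDiffOn ℝ 1 w {z | z ≠ 0} → (∀ z, R < ‖z‖ → w z = 0) →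
    (∀ z, z ≠ 0 → ‖w z‖ ≤ G * ‖z‖ ^ (-β) ∧ ‖dbar w z‖ ≤ G * ‖z‖ ^ (-β)) →
    ∀ z, z ≠ 0 → w z = Tc (dbar w) z

def Cau2Stmt : Prop :=
  ∃ C : ℝ, 0 < C ∧ ∀ (F : Type) [NormedAddCommGroup F] [NormedSpace ℂ F] [CompleteSpace F]
    (g : ℂ → F) (R G : ℝ), 0 < R → Hld G g univ → (∀ w, R < ‖w‖ → g w = 0) →
    ContDiff ℝ 1 (Tc g) ∧ (∀ z, dbar (Tc g) z = g z) ∧ Hld (C * G) (fderiv ℝ (Tc g)) univ ∧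
    ∀ z, ‖fderiv ℝ (Tc g) z‖ ≤ C * √R * G

def SchlStmt : Prop :=
  ∀ (V : Type) [NormedAddCommGroup V] [NormedSpace ℝ V] [FiniteDimensional ℝ V] (Λ : ℝ),
    ∃ C : ℝ, 0 < C ∧ ∀ (j : ℂ → En0 V) (w g : ℂ → V) (G W H : ℝ),
    (∀ z ∈ ball (0 : ℂ) 1, ‖j z‖ ≤ Λ ∧ ∀ v, j z (j z v) = -v) → Hld Λ j (ball 0 1) →
    (∀ z ∈ ball (0 : ℂ) 1, DifferentiableAt ℝ w z) → Hld H (fderiv ℝ w) (ball 0 1) →
    (∀ z ∈ ball (0 : ℂ) 1, fderiv ℝ w z 1 + j z (fderiv ℝ w z I) = g z) →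
    (∀ z ∈ ball (0 : ℂ) 1, ‖g z‖ ≤ G) → Hld G g (ball 0 1) → (∀ z ∈ ball (0 : ℂ) 1, ‖w z‖ ≤ W) →
    (∀ z ∈ ball (0 : ℂ) (1 / 2), ‖fderiv ℝ w z‖ ≤ C * (G + W)) ∧
    Hld (C * (G + W)) (fderiv ℝ w) (ball 0 (1 / 2))

def RegStmt : Prop :=
  ∀ (V : Type) [NormedAddCommGroup V] [NormedSpace ℝ V] [FiniteDimensional ℝ V] (R Λ L : ℝ),
    ∃ C : ℝ, ∀ (K : Set V) (J : V → En0 V), UB R Λ K J → ∀ u : ℂ → V,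
    (∀ z ∈ ball (0 : ℂ) 1, DifferentiableAt ℝ u z ∧ u z ∈ K ∧ ‖fderiv ℝ u z‖ ≤ L ∧
      fderiv ℝ u z I = J (u z) (fderiv ℝ u z 1)) → Hld L (fderiv ℝ u) (ball 0 1) →
    ContDiffOn ℝ 2 u (ball 0 (1 / 4)) ∧
    ∀ z ∈ ball (0 : ℂ) (1 / 4), ‖fderiv ℝ (fderiv ℝ u) z‖ ≤ C

def ApriStmt : Prop :=
  ∀ (V : Type) [NormedAddCommGroup V] [NormedSpace ℝ V] [FiniteDimensional ℝ V],
  (∀ R Λ L : ℝ, ∃ C : ℝ, 0 < C ∧ ∀ (K : Set V) (J : V → En0 V), UB R Λ K J →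
    ∀ (u : ℂ → V) (z : ℂ) (r : ℝ), 0 < r → HolNear J K u (closedBall z r) →
    (∀ w ∈ closedBall z r, r * ‖fderiv ℝ u w‖ ≤ L) →
    r ^ 2 * ‖fderiv ℝ (fderiv ℝ u) z‖ ≤ C ∧
    ∀ W, (∀ w ∈ closedBall z r, ‖u w - u z‖ ≤ W) → r * ‖fderiv ℝ u z‖ ≤ C * W) ∧
  (∀ (J : V → En0 V) (u : ℂ → V) (Ω : Set ℂ), ContDiff ℝ 2 J → IsOpen Ω →
    (∀ z ∈ Ω, DifferentiableAt ℝ u z ∧ (∀ v, J (u z) (J (u z) v) = -v) ∧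
      fderiv ℝ u z I = J (u z) (fderiv ℝ u z 1)) → LocH (fderiv ℝ u) Ω → IsHol J u Ω) ∧
  ∀ R Λ : ℝ, ∃ hb > (0 : ℝ), ∃ C : ℝ, ∀ (K : Set V) (J : V → En0 V), UB R Λ K J →
    ∀ (u : ℂ → V) (z : ℂ) (r : ℝ), 0 < r → HolNear J K u (closedBall z r) →
    En u (closedBall z r) ≤ hb → r * ‖fderiv ℝ u z‖ ≤ C * En u (closedBall z r) ^ (6⁻¹ : ℝ)

/-! ### areas -/

def StokesStmt : Prop :=
  (∀ (l : F1 C2) (κ : ℝ), ContDiffOn ℝ 1 l nz →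
    (∀ c : ℂ, c ≠ 0 → ∀ v, v ≠ 0 → ∀ w, l (c • v) (c • w) = l v w) →
    (∀ v, v ≠ 0 → l v v = 0 ∧ l v (I • v) = κ) →
    Integrable (fun z : ℂ => dd l (z, 1) (1, 0) (I, 0)) ∧
    ∫ z : ℂ, dd l (z, 1) (1, 0) (I, 0) = 2 * Real.pi * κ) ∧
  (∀ (V E : Type) [NormedAddCommGroup V] [NormedSpace ℝ V] [NormedAddCommGroup E] [NormedSpace ℝ E]
    (β : F2 V) (A B : E → V) (x a b : E) (r : ℝ), ContDiff ℝ 1 β → Anti β →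
    ClosedOn β {A x + r • B x} → ContDiffAt ℝ 2 A x → ContDiffAt ℝ 2 B x →
    HasDerivAt (fun s : ℝ => β (A x + s • B x) (fderiv ℝ A x a + s • fderiv ℝ B x a)
        (fderiv ℝ A x b + s • fderiv ℝ B x b))
      (dd (fun y => (β (A y + r • B y) (B y)).comp (fderiv ℝ A y + r • fderiv ℝ B y)) x a b) r) ∧
  ∀ (V : Type) [NormedAddCommGroup V] [NormedSpace ℝ V] (β : F2 V) (O : Set V) (U U' : C2 → V),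
    ContDiff ℝ 1 β → Anti β → ClosedOn β O → Map2 univ U → Map2 univ U' →
    (∀ v, v ≠ 0 → ∀ r ∈ Icc (0 : ℝ) 1, U v + r • (U' v - U v) ∈ O) → area β U' = area β U

def MobStmt : Prop :=
  ∀ (V : Type) [NormedAddCommGroup V] [NormedSpace ℝ V],
  (∀ U : C2 → V, ContDiffOn ℝ 1 U nz → Inv U →
    (∃ C, ∀ z, ‖fderiv ℝ (aff U) z‖ ≤ C / (1 + ‖z‖ ^ 2)) ∧
    Integrable (fun z => ‖fderiv ℝ (aff U) z‖ ^ 2) ∧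
    (∀ L, MeasurableSet L → En (aff U) L ≤ En (aff U) univ ∧ En (aff' U) L ≤ En (aff U) univ) ∧
    ∀ β : F2 V, ContinuousOn β (im U) → Integrable (dens β (aff U)) ∧
      (Anti β → ∀ R : ℝ, 0 < R → area β U = (∫ z in closedBall 0 R, dens β (aff U) z) +
        ∫ w in closedBall 0 R⁻¹, dens β (aff' U) w)) ∧
  (∀ (u : ℂ → V) (m : ℂ → ℂ) (s : Set ℂ), MeasurableSet s → (∀ z ∈ s, DifferentiableAt ℂ m z) →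
    InjOn m s → (∀ z ∈ s, DifferentiableAt ℝ u (m z)) → En u (m '' s) = En (u ∘ m) s ∧
      ∀ β : F2 V, Anti β → ∫ z in m '' s, dens β u z = ∫ z in s, dens β (u ∘ m) z) ∧
  (∀ (S : Set V) (U : C2 → V) (A : C2 ≃L[ℂ] C2), Map2 S U → Map2 S (U ∘ A) ∧ im (U ∘ A) = im U ∧
    (NonC U → NonC (U ∘ A)) ∧ (∀ v, InjPt U (A v) → InjPt (U ∘ A) v) ∧
    (∀ J, IsSph S J U → IsSph S J (U ∘ A)) ∧
    ∀ β : F2 V, ContinuousOn β (im U) → Anti β → area β (U ∘ A) = area β U) ∧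
  (∀ (M : Set V) (om : F2 V) (J : V → En0 V) (U : C2 → V), Continuous om → Tame M om J →
    IsSph M J U → (∀ z, 0 ≤ dens om (aff U) z) ∧ 0 ≤ area om U ∧ (NonC U → 0 < area om U)) ∧
  (∀ (M K : Set V) (om : F2 V) (R Λ c : ℝ), Continuous om → K ⊆ M → ∃ C, 0 ≤ C ∧
    ∀ J U, EnvJ M K om R Λ c J → IsSph K J U → En (aff U) univ ≤ C * area om U) ∧
  ∀ (S : Set V) (J : V → En0 V) (u u' : ℂ → V) (r : ℝ), 0 < r → (∀ x ∈ S, ∀ v, J x (J x v) = -v) →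
    IsHol J u univ → MapsTo u univ S → IsHol J u' (ball 0 r) → u' 0 ∈ S →
    (∀ w ∈ ball (0 : ℂ) r, w ≠ 0 → u' w = u w⁻¹) →
    ∃ U, IsSph S J U ∧ aff U = u ∧ U (1, 0) = u' 0

def NeckStmt : Prop :=
  ∀ (V : Type) [NormedAddCommGroup V] [NormedSpace ℝ V] [FiniteDimensional ℝ V] (O M K : Set V)
    (om : F2 V) (R Λ c : ℝ), Env0 O M K om → ∃ δ > (0 : ℝ), ∃ γ > (0 : ℝ), ∃ C : ℝ,
    ∀ J, EnvJ M K om R Λ c J → ∀ (u : ℂ → V) (z : ℂ) (a b : ℝ), 0 < a →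
    HolNear J K u (closedBall z b \ ball z a) →
    (∀ w, a ≤ ‖w - z‖ → ‖w - z‖ ≤ b → ‖fderiv ℝ u w‖ * ‖w - z‖ ≤ δ) →
    ∀ w, 2 * a ≤ ‖w - z‖ → ‖w - z‖ ≤ b / 2 →
      ‖fderiv ℝ u w‖ * ‖w - z‖ ≤ C * ((a / ‖w - z‖) ^ γ + (‖w - z‖ / b) ^ γ)

def RemStmt : Prop :=
  ∀ (V : Type) [NormedAddCommGroup V] [NormedSpace ℝ V] [FiniteDimensional ℝ V] (O M K : Set V)
    (om : F2 V) (R Λ c : ℝ), Env0 O M K om → ∃ δ > (0 : ℝ),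
    ∀ J, EnvJ M K om R Λ c J → ∀ (u : ℂ → V) (z : ℂ) (r : ℝ), 0 < r →
    IsHol J u (ball z r \ {z}) → MapsTo u (ball z r \ {z}) K →
    (∀ w ∈ ball z r \ {z}, ‖fderiv ℝ u w‖ * ‖w - z‖ ≤ δ) →
    ∃ x ∈ K, IsHol J (Function.update u z x) (ball z r)

def SmallStmt : Prop :=
  ∀ (V : Type) [NormedAddCommGroup V] [NormedSpace ℝ V] [FiniteDimensional ℝ V] (O M K : Set V)
    (om : F2 V) (R Λ c : ℝ), Env0 O M K om →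
    (∃ hb > (0 : ℝ), Eps1 M K om R Λ c hb ∧ Neck1 M K om R Λ c hb) ∧
    (∀ J, EnvJ M K om R Λ c J → ∀ (u : ℂ → V) (z : ℂ) (r E₀ : ℝ), 0 < r →
      IsHol J u (ball z r \ {z}) → MapsTo u (ball z r \ {z}) K →
      (∀ L, IsCompact L → L ⊆ ball z r \ {z} → En u L ≤ E₀) →
      ∃ x ∈ K, IsHol J (Function.update u z x) (ball z r)) ∧
    ∀ J, EnvJ M K om R Λ c J → ∀ (u : ℂ → V) (E₀ : ℝ), IsHol J u univ → MapsTo u univ K →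
      (∀ L, IsCompact L → En u L ≤ E₀) → ∃ U, IsSph K J U ∧ aff U = u

/-! ### Gromov compactness -/

def LocStmt : Prop :=
  ∀ (V : Type) [NormedAddCommGroup V] [NormedSpace ℝ V] [FiniteDimensional ℝ V],
  (∀ (O M K : Set V) (om : F2 V) (R Λ c hb : ℝ), Env0 O M K om → 0 < hb → Eps1 M K om R Λ c hb →
    ∀ (ι : Type) (𝓤 : Ultrafilter ι) (J : ι → V → En0 V) (J₀ : V → En0 V),
    GFam M K om R Λ c 𝓤 J J₀ → ∀ (u : ι → ℂ → V) (Ω : Set ℂ) (E₀ : ℝ), IsOpen Ω →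
    GSeq K 𝓤 J u Ω E₀ → ∃ (u₀ : ℂ → V) (Zb : Finset ℂ), IsHol J₀ u₀ Ω ∧ MapsTo u₀ Ω K ∧
      (∀ z, z ∈ Zb ↔ z ∈ Ω ∧ ¬ MassLt 𝓤 u z hb) ∧ CConv 𝓤 u u₀ (Ω \ Zb) ∧
      ∀ L, IsCompact L → L ⊆ Ω → En u₀ L ≤ E₀) ∧
  ∀ (K : Set V) (ι : Type) (𝓤 : Ultrafilter ι) (J : ι → V → En0 V) (u : ι → ℂ → V) (u₀ : ℂ → V)
    (Ω : Set ℂ) (E₀ : ℝ) (Zb : Finset ℂ) (β : F2 V) (A : ℂ → ℝ) (L : Set ℂ), IsCompact K →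
    IsOpen Ω → GSeq K 𝓤 J u Ω E₀ → ContDiffOn ℝ 1 u₀ Ω → MapsTo u₀ Ω K → CConv 𝓤 u u₀ (Ω \ Zb) →
    ContinuousOn β K →
    (∀ z ∈ Zb, ∀ η > 0, ∃ ε₀ > 0, ∀ ε, 0 < ε → ε ≤ ε₀ →
      ∀ᶠ ν in (𝓤 : Filter ι), |(∫ w in closedBall z ε, dens β (u ν) w) - A z| ≤ η) →
    IsCompact L → L ⊆ Ω → (Zb : Set ℂ) ⊆ interior L →
    Tendsto (fun ν => ∫ w in L, dens β (u ν) w) 𝓤 (𝓝 ((∫ w in L, dens β u₀ w) + ∑ z ∈ Zb, A z))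

def TreeStmt : Prop :=
  ∀ (V : Type) [NormedAddCommGroup V] [NormedSpace ℝ V] [FiniteDimensional ℝ V] (O M K : Set V)
    (om : F2 V) (R Λ c hb : ℝ), Env0 O M K om → 0 < hb → Eps1 M K om R Λ c hb →
    Neck1 M K om R Λ c hb →
    ∀ (ι : Type) (𝓤 : Ultrafilter ι) (J : ι → V → En0 V) (J₀ : V → En0 V),
    GFam M K om R Λ c 𝓤 J J₀ → ∀ (u : ι → ℂ → V) (Ω : Set ℂ) (E₀ : ℝ) (z : ℂ) (x : V),
    IsOpen Ω → GSeq K 𝓤 J u Ω E₀ → z ∈ Ω → ¬ MassLt 𝓤 u z hb →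
    (∀ η > 0, ∃ ε > 0, ∀ w, w ≠ z → ‖w - z‖ < ε → ∀ᶠ ν in (𝓤 : Filter ι), dist (u ν w) x < η) →
    Tree K 𝓤 J₀ u z x

def TopStmt : Prop :=
  ∀ (V : Type) [NormedAddCommGroup V] [NormedSpace ℝ V] [FiniteDimensional ℝ V] (O M K : Set V)
    (om : F2 V) (R Λ c : ℝ), Env0 O M K om →
    ∀ (ι : Type) (𝓤 : Ultrafilter ι) (J : ι → V → En0 V) (J₀ : V → En0 V),
    GFam M K om R Λ c 𝓤 J J₀ → ∀ (U : ι → C2 → V) (E₀ : ℝ),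
    (∀ᶠ ν in (𝓤 : Filter ι), IsSph K (J ν) (U ν) ∧ En (aff (U ν)) univ ≤ E₀) →
    (∃ U₀, IsSph K J₀ U₀ ∧ SConv 𝓤 U U₀ ∧ ∀ β : F2 V, ContinuousOn β K → Anti β →
      Tendsto (fun ν => area β (U ν)) 𝓤 (𝓝 (area β U₀))) ∨
    (∃ (k : ℕ) (W : Fin k → C2 → V), 2 ≤ k ∧ (∀ i, IsSph K J₀ (W i) ∧ NonC (W i)) ∧
      IsConnected (⋃ i, im (W i)) ∧
      (∀ β : F2 V, ContinuousOn β K → Anti β →
        Tendsto (fun ν => area β (U ν)) 𝓤 (𝓝 (∑ i, area β (W i)))) ∧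
      ∀ v, v ≠ 0 → ∀ y, Tendsto (fun ν => U ν v) 𝓤 (𝓝 y) → y ∈ ⋃ i, im (W i)) ∨
    ∃ p, p ≠ 0 ∧ ∃ x ∈ K, ∀ v, v ≠ 0 → ¬ Par v p → Tendsto (fun ν => U ν v) 𝓤 (𝓝 x)

/-! ### local structure of holomorphic spheres -/

def HwStmt : Prop :=
  ∀ (V : Type) [NormedAddCommGroup V] [NormedSpace ℝ V] [FiniteDimensional ℝ V]
    (j : ℂ → En0 V) (w : ℂ → V) (z₀ : ℂ) (C : ℝ), ContDiffAt ℝ 1 j z₀ → ContDiffAt ℝ 1 w z₀ →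
    (∀ᶠ z in 𝓝 z₀, (∀ v, j z (j z v) = -v) ∧
      ‖fderiv ℝ w z 1 + j z (fderiv ℝ w z I)‖ ≤ C * ‖w z‖) →
    (∀ᶠ z in 𝓝 z₀, w z = 0) ∨ ∀ᶠ z in 𝓝[≠] z₀, w z ≠ 0

def FibStmt : Prop :=
  ∀ (V : Type) [NormedAddCommGroup V] [NormedSpace ℝ V] [FiniteDimensional ℝ V] (J : V → En0 V),
  ContDiff ℝ 2 J →
  (∀ (S : Set V) (U : C2 → V), (∀ x ∈ S, ∀ v, J x (J x v) = -v) → IsSph S J U → NonC U →
    {z | fderiv ℝ (aff U) z = 0}.Finite ∧ ∀ x, {z | aff U z = x}.Finite) ∧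
  ∀ (u v : ℂ → V) (Ω Ω' : Set ℂ) (z₀ w₀ : ℂ), IsOpen Ω → IsOpen Ω' → z₀ ∈ Ω → w₀ ∈ Ω' →
    IsHol J u Ω → IsHol J v Ω' → (∀ z ∈ Ω, ∀ a, J (u z) (J (u z) a) = -a) →
    (∀ w ∈ Ω', ∀ a, J (v w) (J (v w) a) = -a) → fderiv ℝ u z₀ ≠ 0 → u z₀ = v w₀ →
    (∀ N ∈ 𝓝 z₀, ∃ᶠ w in 𝓝[≠] w₀, ∃ z ∈ N, u z = v w) →
    ∃ φ : ℂ → ℂ, AnalyticAt ℂ φ w₀ ∧ φ w₀ = z₀ ∧ ∀ᶠ w in 𝓝 w₀, v w = u (φ w)

def Cover1Stmt : Prop :=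
  ∀ (V : Type) [NormedAddCommGroup V] [NormedSpace ℝ V] [FiniteDimensional ℝ V] (J : V → En0 V)
    (S : Set V) (U : C2 → V), ContDiff ℝ 2 J → (∀ x ∈ S, ∀ v, J x (J x v) = -v) → IsSph S J U →
    NonC U → ∃ (d : ℕ) (B : Finset ℂ) (cl : ℂ → Finset ℂ), 1 ≤ d ∧
    (∀ z, z ∉ B → (∀ b ∈ B, aff U z ≠ aff U b) ∧ aff U z ≠ U (1, 0) ∧ fderiv ℝ (aff U) z ≠ 0) ∧
    (∀ z, z ∉ B → z ∈ cl z ∧ (cl z).card = d ∧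
      ∀ z' ∈ cl z, z' ∉ B ∧ cl z' = cl z ∧ aff U z' = aff U z) ∧
    (∀ z₀, z₀ ∉ B → ∃ φ : Fin d → ℂ → ℂ, (∀ j, AnalyticAt ℂ (φ j) z₀ ∧ deriv (φ j) z₀ ≠ 0) ∧
      ∀ᶠ z in 𝓝 z₀, (Function.Injective fun j => φ j z) ∧ ∀ z', z' ∈ cl z ↔ ∃ j, φ j z = z') ∧
    ∀ z₀, z₀ ∉ B → ∀ᶠ z in 𝓝[≠] z₀, ∀ z', aff U z' = aff U z → z' ∈ cl z

def CoverStmt : Prop :=
  ∀ (V : Type) [NormedAddCommGroup V] [NormedSpace ℝ V] [FiniteDimensional ℝ V] (O M K : Set V)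
    (om : F2 V) (R Λ c : ℝ) (J : V → En0 V) (U : C2 → V), Env0 O M K om → EnvJ M K om R Λ c J →
    IsSph K J U → NonC U → ∃ (U' : C2 → V) (d : ℕ) (Φ : C2 → C2),
    IsSph K J U' ∧ NonC U' ∧ Simple U' ∧ im U' = im U ∧ 1 ≤ d ∧ ContDiff ℝ 2 Φ ∧
    (∀ v, v ≠ 0 → Φ v ≠ 0) ∧ (∀ (a : ℂ) v, Φ (a • v) = a ^ d • Φ v) ∧ ∀ v, v ≠ 0 → U v = U' (Φ v)

def PairStmt : Prop :=
  ∀ (V : Type) [NormedAddCommGroup V] [NormedSpace ℝ V] [FiniteDimensional ℝ V] (J : V → En0 V)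
    (S : Set V), ContDiff ℝ 2 J → (∀ x ∈ S, ∀ v, J x (J x v) = -v) →
    (∀ U, IsSph S J U → IsOpen {v | InjPt U v}) ∧
    ∀ U U', IsSph S J U → NonC U → IsSph S J U' → NonC U' → im U ≠ im U' →
      nz ⊆ closure {v | v ≠ 0 ∧ U v ∉ im U'}

/-! ### Fredholm theory -/

def RieszStmt : Prop :=
  (∀ (X Y : Type) [NormedAddCommGroup X] [NormedSpace ℝ X] [CompleteSpace X] [NormedAddCommGroup Y]
    [NormedSpace ℝ Y] [CompleteSpace Y] (D : X →L[ℝ] Y) (i : ℤ),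
    (Fred D i → FiniteDimensional ℝ D.ker ∧ IsClosed (D.range : Set Y) ∧
      ∃ C : Submodule ℝ Y, FiniteDimensional ℝ C ∧ IsCompl D.range C ∧
        (Module.finrank ℝ D.ker : ℤ) - Module.finrank ℝ C = i) ∧
    (Fred D i → ∀ D' : X →L[ℝ] Y, IsCompactOperator (fun x => D' x - D x) → Fred D' i) ∧
    ∀ (P W : Type) [NormedAddCommGroup P] [NormedSpace ℝ P] [FiniteDimensional ℝ P]
      [NormedAddCommGroup W] [NormedSpace ℝ W] [FiniteDimensional ℝ W],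
      (Fred D i → ∀ T : P × X →L[ℝ] Y × W, (∀ x, (T (0, x)).1 = D x) →
        Fred T (i + Module.finrank ℝ P - Module.finrank ℝ W)) ∧
      ∀ T : X × P →L[ℝ] Y × W, Function.Bijective T → (∀ x, (T (x, 0)).1 = D x) →
        Fred D ((Module.finrank ℝ W : ℤ) - Module.finrank ℝ P)) ∧
  (∀ (N : ℕ) (X Y : Fin N → Type) [∀ n, NormedAddCommGroup (X n)] [∀ n, NormedSpace ℝ (X n)]
    [∀ n, NormedAddCommGroup (Y n)] [∀ n, NormedSpace ℝ (Y n)]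
    (D : ∀ n, X n →L[ℝ] Y n) (i : Fin N → ℤ), (∀ n, Fred (D n) (i n)) →
    ∀ T : (∀ n, X n) →L[ℝ] ∀ n, Y n, (∀ x n, T x n = D n (x n)) → Fred T (∑ n, i n)) ∧
  ∀ (X Y : Type) [NormedAddCommGroup X] [NormedSpace ℝ X] [FiniteDimensional ℝ X]
    [NormedAddCommGroup Y] [NormedSpace ℝ Y] [FiniteDimensional ℝ Y] (D : X →L[ℝ] Y),
    Fred D ((Module.finrank ℝ X : ℤ) - Module.finrank ℝ Y)

def SsStmt : Prop :=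
  (∀ (A X Y : Type) [NormedAddCommGroup A] [NormedSpace ℝ A] [CompleteSpace A]
    [NormedAddCommGroup X] [NormedSpace ℝ X] [CompleteSpace X] [NormedAddCommGroup Y]
    [NormedSpace ℝ Y] [CompleteSpace Y] (𝓕 : A × X → Y) (q : A × X) (i : ℤ), i < 0 →
    ContDiffAt ℝ 1 𝓕 q → 𝓕 q = 0 →
    Fred ((fderiv ℝ 𝓕 q).comp (ContinuousLinearMap.inr ℝ A X)) i →
    Function.Surjective (fderiv ℝ 𝓕 q) →
    ∃ N ∈ 𝓝 q, IsMeagre {a | ∃ x, (a, x) ∈ N ∧ 𝓕 (a, x) = 0}) ∧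
  (∀ (A B : Type) [PseudoMetricSpace A] [PseudoMetricSpace B] (Sol : Set (A × B)),
    TopologicalSpace.IsSeparable Sol → (∀ q ∈ Sol, ∃ N ∈ 𝓝 q, IsMeagre (Prod.fst '' (Sol ∩ N))) →
    IsMeagre (Prod.fst '' Sol)) ∧
  ∀ (A X : Type) [NormedAddCommGroup A] [NormedSpace ℝ A] [FiniteDimensional ℝ A]
    [NormedAddCommGroup X] [NormedSpace ℝ X] [FiniteDimensional ℝ X] (Sol : Set (A × X)),
    (∀ q ∈ Sol, ∃ (Y : Type) (_ : NormedAddCommGroup Y) (_ : NormedSpace ℝ Y)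
      (_ : FiniteDimensional ℝ Y) (𝓕 : A × X → Y), Module.finrank ℝ X < Module.finrank ℝ Y ∧
      ContDiffAt ℝ 1 𝓕 q ∧ (∀ᶠ q' in 𝓝 q, q' ∈ Sol → 𝓕 q' = 0) ∧
      Function.Surjective (fderiv ℝ 𝓕 q)) → IsMeagre (Prod.fst '' Sol)

def CptStmt : Prop :=
  ∀ (E : Type) [NormedAddCommGroup E] [NormedSpace ℝ E] [FiniteDimensional ℝ E],
  (∀ (χ : ℂ → En0 E) (L : X1 χ →L[ℝ] Y0 χ), Rep χ → (∀ ξ v, v ≠ 0 → fY (L ξ) v = fX ξ v) →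
    IsCompactOperator L) ∧
  TopologicalSpace.IsSeparable {b : BB E | ContDiffOn ℝ 2 (fX b) nz} ∧
  ∀ (ι : Type) (l : Filter ι) (b : ι → BB E) (b₀ : BB E), (∀ᶠ ν in l, ContDiffOn ℝ 2 (fX (b ν)) nz) →
    ContDiffOn ℝ 2 (fX b₀) nz → SConv l (fun ν => fX (b ν)) (fX b₀) → Tendsto b l (𝓝 b₀)

def NemStmt : Prop :=
  (∀ (S E G : Type) [MetricSpace S] [CompactSpace S] [NormedAddCommGroup E] [NormedSpace ℝ E]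
    [NormedAddCommGroup G] [NormedSpace ℝ G] (Φ : E → G), ContDiff ℝ 2 Φ →
    ∃ N : Hol S E → Hol S G, ContDiff ℝ 1 N ∧ (∀ f x, hv (N f) x = Φ (hv f x)) ∧
      ∀ f g x, hv (fderiv ℝ N f g) x = fderiv ℝ Φ (hv f x) (hv g x)) ∧
  ∀ (E G : Type) [NormedAddCommGroup E] [NormedSpace ℝ E] [NormedAddCommGroup G] [NormedSpace ℝ G]
    (Φ : E → G), ContDiff ℝ 3 Φ →
    ∃ N : BB E → BB G, ContDiff ℝ 1 N ∧ (∀ b v, v ≠ 0 → fX (N b) v = Φ (fX b v)) ∧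
      ∀ b ξ v, v ≠ 0 → fX (fderiv ℝ N b ξ) v = fderiv ℝ Φ (fX b v) (fX ξ v)

def Std1Stmt : Prop :=
  ∀ k : ℤ, ∃ (n p : ℕ) (γ : Fin n → C2 → ℂ) (q : Fin p → C2) (R : (C2 → ℂ) →ₗ[ℝ] C2 → ℂ)
    (c : (C2 → ℂ) →ₗ[ℝ] Fin n → ℂ) (C : ℝ), (p : ℤ) - n = k + 1 ∧ (-1 ≤ k → n = 0) ∧
    (∀ m, YH (repY1 k) (γ m)) ∧ (∀ j, q j ≠ 0) ∧
    (∀ g, Hom (repY1 k) g → ContinuousOn g nz → YH (rep1 k) (R g) ∧
      ∀ G, (∀ v : S3, ‖g v‖ ≤ G) → (∀ v : S3, ‖R g v‖ ≤ C * G) ∧ ‖c g‖ ≤ C * G) ∧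
    (∀ g, YH (repY1 k) g → XH (rep1 k) (R g) ∧
      ∀ v, v ≠ 0 → db (R g) v + ∑ m, c g m * γ m v = g v) ∧
    (∀ b : Fin p → ℂ, ∃ ζ, XH (rep1 k) ζ ∧ (∀ v, v ≠ 0 → db ζ v = 0) ∧ ∀ j, ζ (q j) = b j) ∧
    ∀ ζ (a : Fin n → ℂ), XH (rep1 k) ζ → (∀ v, v ≠ 0 → db ζ v + ∑ m, a m * γ m v = 0) →
      (∀ j, ζ (q j) = 0) → (∀ v, v ≠ 0 → ζ v = 0) ∧ a = 0

def Std2Stmt : Prop :=
  ∀ (k : Fin 3 → ℤ) (A : C2 → En0 C3) (D : XX k →L[ℝ] YY k), AHom k A →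
    (∀ ξ v, v ≠ 0 → fY (D ξ) v = db (fX ξ) v + A v (fX ξ v)) →
    Fred D (2 * ∑ i, (k i + 1)) ∧
    ∀ (ℓ : YY k →L[ℝ] ℝ) (μ : Fin 3 → C3 →L[ℝ] ℝ),
      (∀ ξ, ℓ (D ξ) + ∑ m, μ m (fX ξ (mk3 m)) = 0) →
      ∃ C, ∀ g G, (∀ v : S3, ‖fY g v‖ ≤ G) → |ℓ g| ≤ C * G

def RungeStmt : Prop :=
  ∀ (k : Fin 3 → ℤ) (A : C2 → En0 C3) (p : C2) (Δ : Set C2) (g : C2 → C3) (b : Fin 3 → C3),
    AHom k A → p ≠ 0 → (∀ m, ¬ Par p (mk3 m)) → IsOpen Δ → (∀ c : ℂ, c ≠ 0 → ∀ v ∈ Δ, c • v ∈ Δ) →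
    p ∈ Δ → YH (repY k) g → ∃ ζ, XH (rep k) ζ ∧ (∀ m, ζ (mk3 m) = b m) ∧
      ∀ v, v ≠ 0 → v ∉ Δ → db ζ v + A v (ζ v) = g v

/-! ### frames and Chern numbers -/

def LineStmt : Prop :=
  ∀ (V : Type) [NormedAddCommGroup V] [NormedSpace ℝ V] [FiniteDimensional ℝ V]
    (P J : C2 → En0 V), ContDiffOn ℝ 2 P nz → ContDiffOn ℝ 2 J nz → Inv P → Inv J →
    (∀ v, v ≠ 0 → (∀ x, J v (J v x) = -x ∧ P v (P v x) = P v x ∧ P v (J v x) = J v (P v x)) ∧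
      Module.finrank ℝ (P v).range = 2) →
    ∃ (k : ℤ) (e : C2 → V), ContDiffOn ℝ 2 e nz ∧ ∀ v, v ≠ 0 → e v ≠ 0 ∧ P v (e v) = e v ∧
      ∀ c : ℂ, c ≠ 0 → e (c • v) = (c ^ k).re • e v + (c ^ k).im • J v (e v)

def BundleStmt : Prop :=
  ∀ (V : Type) [NormedAddCommGroup V] [NormedSpace ℝ V] [FiniteDimensional ℝ V] (O M : Set V)
    (π : V → V) (om h : F2 V) (J : V → En0 V) (U : C2 → V), Amb O π M om h → ContDiff ℝ 2 J →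
    SJ π M J → Map2 M U → ∃ k, Framed M J U k

def FrameStmt : Prop :=
  ∀ (V : Type) [NormedAddCommGroup V] [NormedSpace ℝ V] [FiniteDimensional ℝ V],
  (∀ (M M' : Set V) (J J' : V → En0 V) (U U' : C2 → V) (k : Fin 3 → ℤ), Framed M J U k →
    (∀ v, v ≠ 0 → U' v = U v ∧ tan M' (U v) = tan M (U v) ∧
      ∀ a ∈ tan M (U v), J' (U v) a = J (U v) a) → Framed M' J' U' k) ∧
  (∀ (M : Set V) (J : V → En0 V) (U : C2 → V) (k : Fin 3 → ℤ) (Φ : C2 → C2) (d : ℕ),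
    Framed M J U k → Inv U → ContDiff ℝ 2 Φ → (∀ v, v ≠ 0 → Φ v ≠ 0) →
    (∀ (a : ℂ) v, Φ (a • v) = a ^ d • Φ v) → Framed M J (U ∘ Φ) fun i => d * k i) ∧
  ∀ (O M : Set V) (π : V → V) (om h : F2 V), Amb O π M om h →
    (∀ (J : V → En0 V) (U : C2 → V) (k : Fin 3 → ℤ) (g : C2 → V →L[ℝ] C3), WJ M J → Map2 M U →
      (∀ v, v ≠ 0 → (∀ x ∈ tan M (U v), g v (J (U v) x) = I • g v x ∧ (g v x = 0 → x = 0) ∧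
        ∀ c : ℂ, c ≠ 0 → g (c • v) x = rep k c (g v x))) →
      (∀ v₀, v₀ ≠ 0 → ∃ f : C2 → V →L[ℝ] C3, ContDiffAt ℝ 2 f v₀ ∧
        ∀ᶠ v in 𝓝 v₀, ∀ x ∈ tan M (U v), f v x = g v x) → Framed M J U k) ∧
    (∀ (J : V → En0 V) (U : C2 → V) (k : Fin 3 → ℤ), Map2 M U → Framed M J U k →
      ∃ e f, Frame M J U k e f ∧ ∀ v, v ≠ 0 → ∀ x, f v (fderiv ℝ π (U v) x) = f v x) ∧
    ∀ (A : Type) [NormedAddCommGroup A] [NormedSpace ℝ A] (JJ : A × V → En0 V) (p₀ : A)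
      (U₀ : C2 → V) (k : Fin 3 → ℤ), ContDiff ℝ 2 JJ → (∀ p, WJ M fun x => JJ (p, x)) →
      Map2 M U₀ → Framed M (fun x => JJ (p₀, x)) U₀ k → ∃ δ > 0, ∀ p, dist p p₀ < δ →
      ∀ U, Map2 M U → (∀ v : S3, dist (U v) (U₀ v) < δ) → Framed M (fun x => JJ (p, x)) U k

def ChernStmt : Prop :=
  ∀ (V : Type) [NormedAddCommGroup V] [NormedSpace ℝ V] [FiniteDimensional ℝ V] (O M K : Set V)
    (π : V → V) (om h : F2 V) (J₀ : V → En0 V), Amb O π M om h → IsCompact K → K ⊆ M →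
    ContDiff ℝ 2 J₀ → WJ M J₀ → Tame M om J₀ → ∃ γ : F2 V, ContinuousOn γ K ∧ Anti γ ∧
    ∀ J, ContDiff ℝ 2 J → WJ M J → Tame M om J → ∀ (U : C2 → V) (c : ℤ), Map2 K U →
      Chern M J U c → area γ U = c

/-! ### local models -/

def ChartStmt : Prop :=
  ∀ (V : Type) [NormedAddCommGroup V] [NormedSpace ℝ V] [FiniteDimensional ℝ V] (O M : Set V)
    (π : V → V) (om h : F2 V), Amb O π M om h →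
  (∀ (J : V → En0 V) (U₀ : C2 → V) (k : Fin 3 → ℤ) (e : C2 → C3 →L[ℝ] V) (f : C2 → V →L[ℝ] C3)
    (b₀ : BB V), Map2 M U₀ → Frame M J U₀ k e f → (∀ v, v ≠ 0 → fX b₀ v = U₀ v) →
    ∃ (Ψ : XX k → BB V) (L : BB V →L[ℝ] XX k), ContDiffAt ℝ 1 Ψ 0 ∧ Ψ 0 = b₀ ∧
      (∀ ζ v, v ≠ 0 → fX (fderiv ℝ Ψ 0 ζ) v = e v (fX ζ v)) ∧
      (∀ᶠ ζ in 𝓝 0, L (Ψ ζ - b₀) = ζ ∧ ∀ v, v ≠ 0 → fX (Ψ ζ) v ∈ M) ∧
      ∀ᶠ b in 𝓝 b₀, (∀ v, v ≠ 0 → fX b v ∈ M) → Ψ (L (b - b₀)) = b) ∧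
  ∀ (J : V → En0 V) (b : BB V), ContDiff ℝ 2 J → SJ π M J → (∀ v, v ≠ 0 → fX b v ∈ M) →
    (Eqn π J b 0 ↔ IsSph M J (fX b))

def EqStmt : Prop :=
  ∀ (V : Type) [NormedAddCommGroup V] [NormedSpace ℝ V] [FiniteDimensional ℝ V] (O M : Set V)
    (π : V → V) (om h : F2 V) (A : Type) [NormedAddCommGroup A] [NormedSpace ℝ A]
    (JJ : A × V → En0 V) (p₀ : A) (U₀ : C2 → V) (k : Fin 3 → ℤ) (e : C2 → C3 →L[ℝ] V)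
    (f : C2 → V →L[ℝ] C3) (Ψ : XX k → BB V), Amb O π M om h → ContDiff ℝ 3 JJ →
    (∀ p, SJ π M fun x => JJ (p, x)) → IsSph M (fun x => JJ (p₀, x)) U₀ →
    Frame M (fun x => JJ (p₀, x)) U₀ k e f →
    (∀ v, v ≠ 0 → ∀ x, f v (fderiv ℝ π (U₀ v) x) = f v x) →
    ContDiffAt ℝ 1 Ψ 0 → (∀ v, v ≠ 0 → fX (Ψ 0) v = U₀ v) →
    (∀ ζ v, v ≠ 0 → fX (fderiv ℝ Ψ 0 ζ) v = e v (fX ζ v)) →
    (∀ᶠ ζ in 𝓝 0, ∀ v, v ≠ 0 → fX (Ψ ζ) v ∈ M) →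
    ∃ (𝓕 : (A × XX k) × QQ V → YY k) (B : C2 → En0 C3), ContDiffAt ℝ 1 𝓕 ((p₀, 0), 0) ∧
      (∀ᶠ q in 𝓝 (((p₀, 0), 0) : (A × XX k) × QQ V),
        𝓕 q = 0 ↔ Eqn π (fun x => JJ (q.1.1, x)) (Ψ q.1.2) q.2) ∧ AHom k B ∧
      (∀ p ζ n v, v ≠ 0 → fY (fderiv ℝ 𝓕 ((p₀, 0), 0) ((p, ζ), n)) v =
        db (fX ζ) v + B v (fX ζ v) +
          f v (fderiv ℝ JJ (p₀, U₀ v) (p, 0) (fderiv ℝ U₀ v (I • hor v))) -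
          f v ((fY n v).1 + JJ (p₀, U₀ v) (fY n v).2)) ∧
      ∀ (ζ : XX k) v, v ≠ 0 → db (fX ζ) v + B v (fX ζ v) =
        f v (Lin (fun x => JJ (p₀, x)) U₀ (fun w => e w (fX ζ w)) v (hor v))

/-! ### transversality -/

def PertStmt : Prop :=
  ∀ (V : Type) [NormedAddCommGroup V] [NormedSpace ℝ V] [FiniteDimensional ℝ V] (O M K : Set V)
    (π : V → V) (om h : F2 V) (J : ℝ → V → En0 V) (𝒜 : Set (ℝ × V)), Amb O π M om h →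
    IsCompact K → K ⊆ M → (ContDiff ℝ 3 fun q : ℝ × V => J q.1 q.2) → (∀ τ, SJ π M (J τ)) →
    (∀ τ ∈ Icc (0 : ℝ) 1, Tame M om (J τ)) → IsOpen 𝒜 →
    (∀ q ∈ 𝒜, q.1 ∈ Ioo (0 : ℝ) 1 ∧ (q.2 ∈ M → q.2 ∈ K)) →
    ∃ (A : Type) (_ : NormedAddCommGroup A) (_ : NormedSpace ℝ A) (_ : CompleteSpace A)
      (_ : TopologicalSpace.SeparableSpace A) (JJ : (A × ℝ) × V → En0 V) (r : ℝ),
      Pert π M K om J 𝒜 JJ r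

def SurjStmt : Prop :=
  ∀ (V : Type) [NormedAddCommGroup V] [NormedSpace ℝ V] [FiniteDimensional ℝ V] (O M K : Set V)
    (π : V → V) (om h : F2 V) (J : ℝ → V → En0 V) (𝒜 : Set (ℝ × V)) (A : Type)
    [NormedAddCommGroup A] [NormedSpace ℝ A] (JJ : (A × ℝ) × V → En0 V) (r : ℝ) (a : A) (τ : ℝ)
    (N : ℕ) (U : Fin N → C2 → V) (k : Fin N → Fin 3 → ℤ) (e : Fin N → C2 → C3 →L[ℝ] V)
    (f : Fin N → C2 → V →L[ℝ] C3) (B : Fin N → C2 → En0 C3) (D : ∀ i, XX (k i) →L[ℝ] YY (k i))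
    (E : ∀ i, A →L[ℝ] YY (k i)), Amb O π M om h → K ⊆ M → IsOpen 𝒜 → Pert π M K om J 𝒜 JJ r →
    ‖a‖ < r → τ ∈ Icc (0 : ℝ) 1 → Good 𝒜 τ U →
    (∀ i, IsSph K (fun x => JJ ((a, τ), x)) (U i) ∧
      Frame M (fun x => JJ ((a, τ), x)) (U i) (k i) (e i) (f i) ∧ AHom (k i) (B i) ∧
      (∀ ξ v, v ≠ 0 → fY (D i ξ) v = db (fX ξ) v + B i v (fX ξ v)) ∧
      ∀ b v, v ≠ 0 → fY (E i b) v =
        f i v (fderiv ℝ JJ ((a, τ), U i v) ((b, 0), 0) (fderiv ℝ (U i) v (I • hor v)))) →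
    ∀ (g : ∀ i, YY (k i)) (y : Fin N → Fin 3 → C3), ∃ (b : A) (ζ : ∀ i, XX (k i)),
      ∀ i, D i (ζ i) + E i b = g i ∧ ∀ m, fX (ζ i) (mk3 m) = y i m

def StratStmt : Prop :=
  ∀ (V : Type) [NormedAddCommGroup V] [NormedSpace ℝ V] [FiniteDimensional ℝ V] (O M K : Set V)
    (π : V → V) (om h : F2 V) (J : ℝ → V → En0 V) (𝒜 : Set (ℝ × V)) (A : Type)
    [NormedAddCommGroup A] [NormedSpace ℝ A] [CompleteSpace A] [TopologicalSpace.SeparableSpace A]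
    (JJ : (A × ℝ) × V → En0 V) (r : ℝ) (N : ℕ) (𝒞 : Set ((ℝ × ℝ) × (Fin N → Fin 3 → V))) (d : ℕ)
    (cb : ℤ), Amb O π M om h → K ⊆ M → IsOpen 𝒜 → Pert π M K om J 𝒜 JJ r → Codim M 𝒞 d →
    (∀ c ∈ 𝒞, c.1.1 ∈ Icc (0 : ℝ) 1) → 2 + 6 * (N : ℤ) + 2 * cb < d →
    IsMeagre {a : A | ‖a‖ < r ∧ Strat M K 𝒜 𝒞 cb fun τ x => JJ ((a, τ), x)}

def LabelStmt : Prop :=
  ∀ (V : Type) [NormedAddCommGroup V] [NormedSpace ℝ V] [FiniteDimensional ℝ V],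
  (∃ (L : ℕ → V →L[ℝ] ℂ) (cs : ℕ → ℂ), Slices L cs) ∧
  ∀ (O M Z : Set V) (π : V → V) (om h : F2 V) (gZ : V → V → ℂ × ℝ) (γ : ℝ × ℝ → V)
    (L : ℕ → V →L[ℝ] ℂ) (cs : ℕ → ℂ) (N : ℕ) (lab : Fin N → Fin 3 → Lab N) (b : Bool),
    Amb O π M om h → Cut M Z gZ →
    (∀ q ∈ Ioo (0 : ℝ) 1 ×ˢ Ioo (0 : ℝ) 1, ContDiffAt ℝ 1 γ q) → LabOk lab →
    Codim M (LabSet M Z γ L cs lab b) (labWt lab b)

def MarkStmt : Prop :=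
  ∀ (V : Type) [NormedAddCommGroup V] [NormedSpace ℝ V] [FiniteDimensional ℝ V] (M K Z : Set V)
    (𝒜 : Set (ℝ × V)) (γ : ℝ × ℝ → V) (J : ℝ → V → En0 V) (L : ℕ → V →L[ℝ] ℂ) (cs : ℕ → ℂ),
    K ⊆ M → IsOpen 𝒜 → (∀ τ, ContDiff ℝ 2 (J τ) ∧ ∀ x ∈ M, ∀ v, J τ x (J τ x v) = -v) →
    Slices L cs → PreConf M K 𝒜 Z γ J →
    ∃ (N : ℕ) (lab : Fin N → Fin 3 → Lab N) (b : Bool) (cb : ℤ), LabOk lab ∧
      2 + 6 * (N : ℤ) + 2 * cb < labWt lab b ∧ Strat M K 𝒜 (LabSet M Z γ L cs lab b) cb J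

def CombStmt : Prop :=
  ∀ (V : Type) [NormedAddCommGroup V] [NormedSpace ℝ V] [FiniteDimensional ℝ V] (O M K Z : Set V)
    (π : V → V) (om h : F2 V) (𝒜 : Set (ℝ × V)) (γ : ℝ × ℝ → V) (J : ℝ → V → En0 V),
    Amb O π M om h → IsCompact K → K ⊆ M → (ContDiff ℝ 3 fun q : ℝ × V => J q.1 q.2) →
    (∀ τ, SJ π M (J τ)) → (∀ τ ∈ Icc (0 : ℝ) 1, Tame M om (J τ)) →
    (∀ q ∈ Ioo (0 : ℝ) 1 ×ˢ Ioo (0 : ℝ) 1, γ q ∉ Z) → Nodal M K 𝒜 Z γ J → PreConf M K 𝒜 Z γ J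

def GenStmt : Prop :=
  ∀ (V : Type) [NormedAddCommGroup V] [NormedSpace ℝ V] [FiniteDimensional ℝ V] (O M K Z D : Set V)
    (π : V → V) (om h : F2 V) (J : ℝ → V → En0 V) (𝒜 : Set (ℝ × V)) (gZ : V → V → ℂ × ℝ)
    (gD : V → V → ℂ) (γ : ℝ × ℝ → V) (a₀ : ℝ) (Us : C2 → V) (ρs : ℝ), Amb O π M om h →
    (∀ τ, SJ π M (J τ)) → Hyp M K om h J 𝒜 Z D gZ gD γ a₀ Us ρs →
    ∃ J', GenFam π M om J 𝒜 J' ∧ ¬ Nodal M K 𝒜 Z γ J'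

/-! ### the parity argument -/

def EuStmt : Prop :=
  ∀ (N : ℕ) (g₀ g₁ : (Fin N → ℝ) → Fin N → ℝ) (W : Set (Fin N → ℝ)) (y₀ c : Fin N → ℝ) (r r' : ℝ),
    IsOpen W → closedBall y₀ r ⊆ W → r' < r → ContDiffOn ℝ 1 g₀ W → ContDiffOn ℝ 1 g₁ W →
    (∀ y ∈ closedBall y₀ r, r' < dist y y₀ → g₀ y = g₁ y) →
    (∀ y ∈ closedBall y₀ r, g₀ y = c → (fderiv ℝ g₀ y).det ≠ 0) →
    (∀ y ∈ closedBall y₀ r, g₁ y = c → (fderiv ℝ g₁ y).det ≠ 0) →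
    {y ∈ closedBall y₀ r | g₀ y = c}.Finite ∧ {y ∈ closedBall y₀ r | g₁ y = c}.Finite ∧
    {y ∈ closedBall y₀ r | g₀ y = c}.ncard % 2 = {y ∈ closedBall y₀ r | g₁ y = c}.ncard % 2

def ParityStmt : Prop :=
  ∀ (B : Type) [NormedAddCommGroup B] [NormedSpace ℝ B] (N : ℕ) (T : Set B)
    (F : B →L[ℝ] (Fin N → ℝ)) (y₀ y₁ : Fin N → ℝ) (t₁ : B),
    IsCompact {t ∈ T | F t ∈ segment ℝ y₀ y₁} →
    (∀ t ∈ T, F t ∈ segment ℝ y₀ y₁ → TChart T F y₁ t) → (∀ t ∈ T, F t ≠ y₀) →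
    t₁ ∈ T → F t₁ = y₁ → (∀ t ∈ T, F t = y₁ → t = t₁) → False

def ThickStmt : Prop :=
  ∀ (B Q : Type) [NormedAddCommGroup B] [NormedSpace ℝ B] [NormedAddCommGroup Q] [NormedSpace ℝ Q]
    [CompleteSpace Q] (Sol : Set (B × Q)) (τ : B →L[ℝ] ℝ) (t₁ : B),
    IsCompact {t | (t, 0) ∈ Sol ∧ τ t ∈ Icc (0 : ℝ) 1} →
    (∀ t, (t, 0) ∈ Sol → τ t ∈ Icc (0 : ℝ) 1 → Model Sol τ t) → (∀ t, (t, 0) ∈ Sol → τ t ≠ 0) →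
    (t₁, 0) ∈ Sol → τ t₁ = 1 → (∀ t, (t, 0) ∈ Sol → τ t = 1 → t = t₁) → False

def MainKStmt : Prop :=
  ∀ (V : Type) [NormedAddCommGroup V] [NormedSpace ℝ V] [FiniteDimensional ℝ V] (O M K Z D : Set V)
    (π : V → V) (om h : F2 V) (J : ℝ → V → En0 V) (𝒜 : Set (ℝ × V)) (gZ : V → V → ℂ × ℝ)
    (gD : V → V → ℂ) (γ : ℝ × ℝ → V) (a₀ : ℝ) (Us : C2 → V) (ρs : ℝ) (J' : ℝ → V → En0 V),
    Amb O π M om h → Hyp M K om h J 𝒜 Z D gZ gD γ a₀ Us ρs → GenFam π M om J 𝒜 J' →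
    ¬ Nodal M K 𝒜 Z γ J' → IsCompact (Km M om h Z D a₀ γ J')

def ModelStmt : Prop :=
  ∀ (V : Type) [NormedAddCommGroup V] [NormedSpace ℝ V] [FiniteDimensional ℝ V] (O M K Z D : Set V)
    (π : V → V) (om h : F2 V) (J : ℝ → V → En0 V) (𝒜 : Set (ℝ × V)) (gZ : V → V → ℂ × ℝ)
    (gD : V → V → ℂ) (γ : ℝ × ℝ → V) (a₀ : ℝ) (Us : C2 → V) (ρs : ℝ) (J' : ℝ → V → En0 V)
    (𝒰 : Set (ℝ × ℝ × BB V)), Amb O π M om h → Hyp M K om h J 𝒜 Z D gZ gD γ a₀ Us ρs →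
    GenFam π M om J 𝒜 J' → IsOpen 𝒰 → ∀ t ∈ Km M om h Z D a₀ γ J', t ∈ 𝒰 →
    Model (MSol π M Z D γ J' 𝒰) (ContinuousLinearMap.fst ℝ ℝ (ℝ × BB V)) t

def MainMStmt : Prop :=
  ∀ (V : Type) [NormedAddCommGroup V] [NormedSpace ℝ V] [FiniteDimensional ℝ V] (O M K Z D : Set V)
    (π : V → V) (om h : F2 V) (J : ℝ → V → En0 V) (𝒜 : Set (ℝ × V)) (gZ : V → V → ℂ × ℝ)
    (gD : V → V → ℂ) (γ : ℝ × ℝ → V) (a₀ : ℝ) (Us : C2 → V) (ρs : ℝ) (J' : ℝ → V → En0 V),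
    Amb O π M om h → Hyp M K om h J 𝒜 Z D gZ gD γ a₀ Us ρs → GenFam π M om J 𝒜 J' →
    IsCompact (Km M om h Z D a₀ γ J') → False

def MainSStmt : Prop :=
  ∀ (V : Type) [NormedAddCommGroup V] [NormedSpace ℝ V] [FiniteDimensional ℝ V] (O M K Z D : Set V)
    (π : V → V) (om h : F2 V) (J : ℝ → V → En0 V) (𝒜 : Set (ℝ × V)) (gZ : V → V → ℂ × ℝ)
    (gD : V → V → ℂ) (γ : ℝ × ℝ → V) (a₀ : ℝ) (Us : C2 → V) (ρs : ℝ), Amb O π M om h →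
    (∀ τ, SJ π M (J τ)) → Hyp M K om h J 𝒜 Z D gZ gD γ a₀ Us ρs → False

def MainWStmt : Prop :=
  ∀ (V : Type) [NormedAddCommGroup V] [NormedSpace ℝ V] [FiniteDimensional ℝ V] (O M K Z D : Set V)
    (π : V → V) (om h : F2 V) (J : ℝ → V → En0 V) (𝒜 : Set (ℝ × V)) (gZ : V → V → ℂ × ℝ)
    (gD : V → V → ℂ) (γ : ℝ × ℝ → V) (a₀ : ℝ) (Us : C2 → V) (ρs : ℝ), Amb O π M om h →
    (∀ τ, WJ M (J τ)) → Hyp M K om h J 𝒜 Z D gZ gD γ a₀ Us ρs → False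

theorem mainS_of (h1 : GenStmt) (h2 : MainKStmt) (h3 : MainMStmt) : MainSStmt := by
  intro V _ _ _ O M K Z D π om h J 𝒜 gZ gD γ a₀ Us ρs hA hS hH
  obtain ⟨J', hG, hN⟩ := h1 V O M K Z D π om h J 𝒜 gZ gD γ a₀ Us ρs hA hS hH
  exact h3 V O M K Z D π om h J 𝒜 gZ gD γ a₀ Us ρs J' hA hH hG
    (h2 V O M K Z D π om h J 𝒜 gZ gD γ a₀ Us ρs J' hA hH hG hN)

/-! ### abstract geometry -/

def HolpushStmt : Prop :=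
  ∀ (V : Type) [NormedAddCommGroup V] [NormedSpace ℝ V] (O M : Set V) (π : V → V) (om h : F2 V)
    (J : V → En0 V) (U ξ : C2 → V) (η : V → V →L[ℝ] ℂ) (v w : C2), Amb O π M om h → WJ M J →
    DifferentiableAt ℝ J (U v) → DifferentiableAt ℝ U v → DifferentiableAt ℝ ξ v →
    DifferentiableAt ℝ η (U v) → (∀ᶠ v' in 𝓝 v, U v' ∈ M ∧ ξ v' ∈ tan M (U v')) →
    fderiv ℝ U v (I • w) = J (U v) (fderiv ℝ U v w) →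
    (∀ᶠ x in 𝓝 (U v), x ∈ M → ∀ a ∈ tan M x, η x (J x a) = I * η x a) → Lin J U ξ v w = 0 →
    fderiv ℝ η (U v) (ξ v) (fderiv ℝ U v w) + η (U v) (fderiv ℝ ξ v w) +
      I * (fderiv ℝ η (U v) (ξ v) (fderiv ℝ U v (I • w)) + η (U v) (fderiv ℝ ξ v (I • w))) = 0

def MonoStmt : Prop :=
  ∀ (Ω : Set C2) (G : C2 → C3) (r : ℝ) (v₀ : C2) (f : ℂ → ℝ), IsOpen Ω → Ω ⊆ nz →
    (∀ c : ℂ, c ≠ 0 → ∀ v ∈ Ω, c • v ∈ Ω ∧ G (c • v) = G v) → DifferentiableOn ℂ G Ω → 0 < r →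
    (∀ s, s < r ^ 2 → ∀ v, v ≠ 0 → v ∈ closure {w ∈ Ω | ∑ i, ‖G w i‖ ^ 2 ≤ s} → v ∈ Ω) →
    v₀ ∈ Ω → G v₀ = 0 → (∃ v, v ≠ 0 ∧ (v ∉ Ω ∨ G v ≠ 0)) → Integrable f → (∀ z, 0 ≤ f z) →
    (∀ z, (z, 1) ∈ Ω → ∑ i, ‖deriv (aff G) z i‖ ^ 2 ≤ f z) → Real.pi * r ^ 2 ≤ ∫ z, f z

def TamefamStmt : Prop :=
  ∀ (V : Type) [NormedAddCommGroup V] [NormedSpace ℝ V] [FiniteDimensional ℝ V] (O M : Set V)
    (π : V → V) (om h : F2 V) (J₀ : V → En0 V) (r r₁ : ℝ) (ψ : ℝ × E6 → V), Amb O π M om h →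
    ContDiff ℝ ∞ J₀ → WJ M J₀ → Tame M om J₀ → BallFam M om r ψ → 0 < r₁ → r₁ < r →
    ∃ J, Patch M om J₀ r r₁ ψ J

def BalluseStmt : Prop :=
  ∀ (V : Type) [NormedAddCommGroup V] [NormedSpace ℝ V] [FiniteDimensional ℝ V] (O M : Set V)
    (π : V → V) (om h : F2 V) (J₀ : V → En0 V) (r r₁ : ℝ) (ψ : ℝ × E6 → V) (J : ℝ → V → En0 V)
    (τ : ℝ) (J' : V → En0 V) (U : C2 → V), Amb O π M om h → BallFam M om r ψ → r₁ < r →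
    Patch M om J₀ r r₁ ψ J → Tame M om J' →
    (∀ y ∈ closedBall (0 : E6) r₁, ∀ v ∈ tan M (ψ (τ, y)), J' (ψ (τ, y)) v = J τ (ψ (τ, y)) v) →
    IsSph M J' U → NonC U →
    (∀ v₀ : E6, ‖v₀‖ < r₁ → (∃ v, v ≠ 0 ∧ U v = ψ (τ, v₀)) →
      Real.pi * (r₁ - ‖v₀‖) ^ 2 ≤ area om U) ∧
    ∃ v, v ≠ 0 ∧ ∀ y ∈ closedBall (0 : E6) r₁, ψ (τ, y) ≠ U v

def AmbientStmt : Prop :=
  ∀ (V : Type) [NormedAddCommGroup V] [NormedSpace ℝ V] [FiniteDimensional ℝ V] (A : Atl V)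
    (S : Set V), LocRetr S → A.Pre S →
    (∀ S₀, S₀ ⊆ S → S ⊆ closure S₀ → (∀ x ∈ S₀, A.CompatAt S x) → ∀ x ∈ S, A.CompatAt S x) ∧
    ((∀ x ∈ S, A.CompatAt S x) → ∀ K, IsCompact K → K ⊆ S →
      ∃ (O M : Set V) (π : V → V) (om h : F2 V) (J : V → En0 V), Amb O π M om h ∧ K ⊆ M ∧
        ContDiff ℝ ∞ J ∧ WJ M J ∧ A.Real S M om h J)

open scoped Manifold in
def ManifoldStmt : Prop :=
  ∀ (V : Type) [NormedAddCommGroup V] [NormedSpace ℝ V] [FiniteDimensional ℝ V] (S : Set V)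
    (Ω : V → V → V → ℝ), IsCompact S → IsConnected S → LocRetr S →
    (∀ x ∈ S, Module.finrank ℝ (tan S x) = 6) →
    (∀ x ∈ S, ∃ (N : Set V) (l : F1 V), IsOpen N ∧ x ∈ N ∧ ContDiffOn ℝ ∞ l N ∧
      ∀ y ∈ S ∩ N, ∀ a ∈ tan S y, ∀ b ∈ tan S y, Ω y a b = dd l y a b) →
    (∀ x ∈ S, ∀ a ∈ tan S x, a ≠ 0 → ∃ b ∈ tan S x, Ω x a b ≠ 0) →
    ∃ (M : ClosedMfd 6) (σ : TwoForm M) (ι : M.carrier → V), IsSymplectic σ ∧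
      Function.Injective ι ∧ range ι = S ∧ ContMDiff (𝓡 6) 𝓘(ℝ, V) ∞ ι ∧
      (∀ x (a b : TangentSpace (𝓡 6) x), σ x ![a, b] =
        Ω (ι x) (mfderiv (𝓡 6) 𝓘(ℝ, V) ι x a) (mfderiv (𝓡 6) 𝓘(ℝ, V) ι x b)) ∧
      ∀ (f : E6 → M.carrier) (s : Set E6), ContDiffOn ℝ ∞ (ι ∘ f) s →
        ContMDiffOn (𝓡 6) (𝓡 6) ∞ f s

/-- the final statement -/
def Final : Prop :=
  ∃ (M : ClosedMfd 6) (σ : TwoForm M), IsSymplectic σ ∧ ∃ r : ℝ, 0 < r ∧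
    ∃ ψ₀ ψ₁ : E6 → M.carrier, IsBallEmb σ r ψ₀ ∧ IsBallEmb σ r ψ₁ ∧ ¬ Isotopic σ r ψ₀ ψ₁

def QuotStmt : Prop :=
  ∀ (W : Type) [NormedAddCommGroup W] [NormedSpace ℝ W] [FiniteDimensional ℝ W] (A : Atl (W × ℝ))
    (S : Set (W × ℝ)) (r : ℝ) (ψ₀ ψ₁ : E6 → W × ℝ), LocRetr S → A.Pre S →
    (∀ x ∈ S, A.CompatAt S x) → A.Tame S → (∀ (n : ℤ), ∀ x ∈ S, (x.1, x.2 + 2 * n) ∈ S) →
    (∀ (n : ℤ) i, ∃ j, ∀ x ∈ A.U i, (x.1, x.2 + 2 * n) ∈ A.U j ∧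
      ∀ a b, dd (A.l j) (x.1, x.2 + 2 * n) a b = dd (A.l i) x a b) →
    IsCompact {x ∈ S | |x.2| ≤ 1} → 0 < r → A.Ball S r ψ₀ → A.Ball S r ψ₁ →
    (∀ ψ, ψ = ψ₀ ∨ ψ = ψ₁ → ∀ y ∈ closedBall (0 : E6) r, ∀ y' ∈ closedBall (0 : E6) r, ∀ n : ℤ,
      ψ y' = ((ψ y).1, (ψ y).2 + 2 * n) → y' = y) →
    JoinedIn S (ψ₀ 0) (ψ₁ 0) →
    (∀ n : ℤ, ¬ A.Iso S r ψ₀ fun y => ((ψ₁ y).1, (ψ₁ y).2 + 2 * n)) → Final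

end

end Pool.Agent.MP_9758ca_gt
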