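import Mathlib.Analysis.SpecialFunctions.Complex.LogDeriv
import Mathlib.Analysis.SpecialFunctions.Complex.Circle
import Mathlib.Geometry.Manifold.PartitionOfUnity
import Mathlib.Topology.Homotopy.Lifting
import Pool.Agent.MP_9758ca_gt.SpecA

section

/-!
PROJECT BALL, module QUOT: the quotient by the shift of the height and the lifting of isotopies.
-/

set_option autoImplicit false

open scoped Topology ContDiff Manifold
open Set Metric Filter Complex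

namespace Pool.Agent.MP_9758ca_gt

noncomputable section

namespace QuotP

/-- the covering map of the circle with period two -/
def ex (T : ℝ) : ℂ := exp ((Real.pi * T : ℝ) * I)

theorem norm_ex (T : ℝ) : ‖ex T‖ = 1 := norm_exp_ofReal_mul_I _

theorem ex_add (T T' : ℝ) : ex (T + T') = ex T * ex T' := by
  rw [ex, ex, ex, ← exp_add]
  congr 1
  push_cast
  ring

theorem ex_eq_iff {T T' : ℝ} : ex T' = ex T ↔ ∃ n : ℤ, T' = T + 2 * n := by
  rw [ex, ex, exp_eq_exp_iff_exists_int]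
  refine exists_congr fun n => ⟨fun h => ?_, fun h => ?_⟩
  · have := congrArg Complex.im h
    simp at this
    exact mul_left_cancel₀ Real.pi_ne_zero (by linarith)
  · rw [h]
    push_cast
    ring

theorem ex_zero : ex 0 = 1 := by simp [ex]

theorem contDiff_ex : ContDiff ℝ ∞ ex :=
  (contDiff_exp (𝕜 := ℝ)).comp ((ofRealCLM.contDiff.comp (contDiff_const.mul contDiff_id)).mul
    contDiff_const)

/-- the local inverse near `T` -/
def lg (T : ℝ) (z : ℂ) : ℝ := T + (log (z * ex (-T))).im / Real.pi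

theorem lg_ex {T T' : ℝ} (h : |T' - T| < 1) : lg T (ex T') = T' := by
  have h1 := abs_lt.1 h
  have h2 := Real.pi_pos
  rw [lg, ← ex_add, ex, log_exp (by simp; nlinarith) (by simp; nlinarith)]
  simp only [mul_im, ofReal_re, I_im, ofReal_im, I_re]
  field_simp
  ring

theorem ex_lg (T : ℝ) {z : ℂ} (h : ‖z‖ = 1) : ex (lg T z) = z := by
  have h1 := norm_mul_exp_arg_mul_I (z * ex (-T))
  rw [norm_mul, h, norm_ex, mul_one, ofReal_one, one_mul] at h1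
  rw [lg, ex_add, log_im, ex.eq_1 (_ / _), mul_div_cancel₀ _ Real.pi_ne_zero, h1, mul_left_comm,
    ← ex_add, add_neg_cancel, ex_zero, mul_one]

theorem contDiffAt_lg (T : ℝ) {z : ℂ} (h : z * ex (-T) ∈ slitPlane) : ContDiffAt ℝ ∞ (lg T) z := by
  have h1 : ContDiffAt ℝ ∞ log (z * ex (-T)) := (contDiffAt_log h).restrict_scalars ℝ
  exact contDiffAt_const.add ((imCLM.contDiff.contDiffAt.comp z
    (h1.comp z (contDiffAt_id.mul contDiffAt_const))).div_const _)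

/-- lifting of homotopies -/
theorem lift_ex {A : Type} [TopologicalSpace A] (s : Set A) (c : ℝ × A → ℂ)
    (hc : ContinuousOn c (Icc 0 1 ×ˢ s)) (h1 : ∀ q ∈ Icc (0 : ℝ) 1 ×ˢ s, ‖c q‖ = 1) (f : A → ℝ)
    (hf : ContinuousOn f s) (h0 : ∀ y ∈ s, c (0, y) = ex (f y)) :
    ∃ τ : ℝ × A → ℝ, ContinuousOn τ (Icc 0 1 ×ˢ s) ∧ (∀ q ∈ Icc (0 : ℝ) 1 ×ˢ s, ex (τ q) = c q) ∧
      ∀ y ∈ s, τ (0, y) = f y := by
  classical
  let H : C(unitInterval × s, Circle) :=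
    ⟨fun q => ⟨c (q.1, q.2), mem_sphere_zero_iff_norm.2 (h1 _ ⟨q.1.2, q.2.2⟩)⟩,
      Continuous.subtype_mk (hc.comp_continuous (by fun_prop) fun q => ⟨q.1.2, q.2.2⟩) _⟩
  let F : C(s, ℝ) := ⟨fun y => Real.pi * f y,
    continuous_const.mul (hf.comp_continuous continuous_subtype_val fun y => y.2)⟩
  have H0 : ∀ y, H (0, y) = Circle.exp (F y) := fun y => Circle.ext (by
    rw [Circle.coe_exp]; exact h0 y y.2)
  let L := Circle.isCoveringMap_exp.liftHomotopy H F H0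
  refine ⟨fun q => if h : q ∈ Icc (0 : ℝ) 1 ×ˢ s then L (⟨q.1, h.1⟩, ⟨q.2, h.2⟩) / Real.pi else 0,
    continuousOn_iff_continuous_domRestrict.2 ?_, fun q hq => ?_, fun y hy => ?_⟩
  · have : Continuous fun q : (Icc (0 : ℝ) 1 ×ˢ s : Set (ℝ × A)) =>
        L (⟨q.1.1, q.2.1⟩, ⟨q.1.2, q.2.2⟩) / Real.pi :=
      (L.continuous.comp ((Continuous.subtype_mk (by fun_prop) _).prodMk
        (Continuous.subtype_mk (by fun_prop) _))).div_const _
    exact this.congr fun q => by simp only [domRestrict_apply, dif_pos q.2]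
  · have := congrArg (fun z : Circle => (z : ℂ)) (congrFun
      (Circle.isCoveringMap_exp.liftHomotopy_lifts H F H0) (⟨q.1, hq.1⟩, ⟨q.2, hq.2⟩))
    simp only [dif_pos hq]
    rw [ex, mul_div_cancel₀ _ Real.pi_ne_zero, ← Circle.coe_exp]
    exact this
  · have h2 : ((0 : ℝ), y) ∈ Icc (0 : ℝ) 1 ×ˢ s := ⟨⟨le_rfl, zero_le_one⟩, hy⟩
    simp only [dif_pos h2]
    rw [div_eq_iff Real.pi_ne_zero, mul_comm]
    exact Circle.isCoveringMap_exp.liftHomotopy_zero H F H0 ⟨y, hy⟩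

theorem const_int {A : Type} [TopologicalSpace A] {s : Set A} (hs : IsPreconnected s) {f : A → ℝ}
    (hf : ContinuousOn f s) (h : ∀ y ∈ s, ∃ n : ℤ, f y = n) {a b : A} (ha : a ∈ s) (hb : b ∈ s) :
    f a = f b :=
  hs.constant_of_mapsTo (T := range ((↑) : ℤ → ℝ))
    Int.isClosedEmbedding_coe_real.isEmbedding.isDiscrete_range hf
    (fun y hy => (h y hy).imp fun _ e => e.symm) ha hb

section Comp
variable {V : Type} [NormedAddCommGroup V] [NormedSpace ℝ V]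

theorem comp_open {S : Set V} (h : LocRetr S) {p x : V} (hx : x ∈ connectedComponentIn S p) :
    ∀ᶠ y in 𝓝 x, y ∈ S → y ∈ connectedComponentIn S p := by
  have hxS := connectedComponentIn_subset S p hx
  obtain ⟨N, ρ, h1, h2, h3, h4, h5⟩ := h x hxS
  obtain ⟨ε, hε, h6⟩ := Metric.isOpen_iff.1 h1 x h2
  have h7 := ((convex_ball x ε).isPreconnected.image ρ
    (h3.continuousOn.mono h6)).subset_connectedComponentIn
    ⟨x, mem_ball_self hε, h5 x ⟨hxS, h2⟩⟩ (image_subset_iff.2 fun y hy => h4 (h6 hy))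
  rw [connectedComponentIn_eq hx]
  filter_upwards [ball_mem_nhds x hε] with y hy hyS
  exact h7 ⟨y, hy, h5 y ⟨hyS, h6 hy⟩⟩

omit [NormedSpace ℝ V] in
theorem comp_compact {S : Set V} (h : IsCompact S) {p : V} (hp : p ∈ S) :
    IsCompact (connectedComponentIn S p) := by
  rw [connectedComponentIn_eq_image hp]
  have := isCompact_iff_compactSpace.1 h
  exact isClosed_connectedComponent.isCompact.image continuous_subtype_val

end Comp

variable {W : Type} [NormedAddCommGroup W] [NormedSpace ℝ W]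

/-- the quotient map -/
def th (x : W × ℝ) : W × ℂ := (x.1, ex x.2)

/-- its local inverse -/
def sg (T : ℝ) (y : W × ℂ) : W × ℝ := (y.1, lg T y.2)

/-- the domain of the local inverse -/
def dm (W : Type) (T : ℝ) : Set (W × ℂ) := {y | y.2 * ex (-T) ∈ slitPlane}

theorem contDiff_th : ContDiff ℝ ∞ (th : W × ℝ → W × ℂ) :=
  contDiff_fst.prodMk (contDiff_ex.comp contDiff_snd)

theorem diff_th (x : W × ℝ) : DifferentiableAt ℝ th x :=
  contDiff_th.differentiable (by simp) x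

theorem contDiffAt_sg {T : ℝ} {y : W × ℂ} (h : y ∈ dm W T) : ContDiffAt ℝ ∞ (sg T) y :=
  contDiffAt_fst.prodMk ((contDiffAt_lg T h).comp y contDiffAt_snd)

theorem diff_sg {T : ℝ} {y : W × ℂ} (h : y ∈ dm W T) : DifferentiableAt ℝ (sg T) y :=
  (contDiffAt_sg h).differentiableAt (by simp)

omit [NormedSpace ℝ W] in
theorem isOpen_dm (T : ℝ) : IsOpen (dm W T) :=
  isOpen_slitPlane.preimage (continuous_snd.mul continuous_const)

omit [NormedAddCommGroup W] [NormedSpace ℝ W] in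
theorem th_mem (x : W × ℝ) : th x ∈ dm W x.2 := by
  show ex x.2 * ex (-x.2) ∈ slitPlane
  rw [← ex_add, add_neg_cancel, ex_zero]
  exact one_mem_slitPlane

omit [NormedAddCommGroup W] [NormedSpace ℝ W] in
theorem sg_th {T : ℝ} {x : W × ℝ} (h : |x.2 - T| < 1) : sg T (th x) = x :=
  Prod.ext rfl (lg_ex h)

omit [NormedAddCommGroup W] [NormedSpace ℝ W] in
theorem sg_th_self (x : W × ℝ) : sg x.2 (th x) = x := sg_th (by simp)

omit [NormedAddCommGroup W] [NormedSpace ℝ W] in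
theorem th_sg (T : ℝ) (x : W × ℝ) : th (sg T (th x)) = th x :=
  Prod.ext rfl (ex_lg T (norm_ex _))

omit [NormedAddCommGroup W] [NormedSpace ℝ W] in
theorem th_eq_iff {x x' : W × ℝ} : th x' = th x ↔ ∃ n : ℤ, x' = (x.1, x.2 + 2 * n) := by
  simp only [th, Prod.ext_iff, ex_eq_iff, exists_and_left]

theorem fderiv_th_shift (x : W × ℝ) (n : ℤ) :
    fderiv ℝ th ((x.1, x.2 + 2 * n) : W × ℝ) = fderiv ℝ th x := by
  have e : ((x.1, x.2 + 2 * n) : W × ℝ) = x + ((0 : W), 2 * (n : ℝ)) := by ext <;> simp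
  rw [e, ← fderiv_comp_add_right]
  congr 1
  funext y
  exact th_eq_iff.2 ⟨n, by ext <;> simp⟩

theorem dsg_dth (x v : W × ℝ) : fderiv ℝ (sg x.2) (th x) (fderiv ℝ th x v) = v := by
  have h1 : sg x.2 ∘ th =ᶠ[𝓝 x] id := by
    have : Continuous fun y : W × ℝ => |y.2 - x.2| := by fun_prop
    filter_upwards [this.continuousAt.eventually (gt_mem_nhds (by simp : |x.2 - x.2| < 1))]
      with y hy using sg_th hy
  have h2 := h1.fderiv_eq (𝕜 := ℝ)
  rw [fderiv_comp x (diff_sg (th_mem x)) (diff_th x), fderiv_id] at h2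
  exact congrArg (fun L : W × ℝ →L[ℝ] W × ℝ => L v) h2

section Shift

variable {S : Set (W × ℝ)} (hS : ∀ (n : ℤ), ∀ x ∈ S, (x.1, x.2 + 2 * n) ∈ S)
include hS

omit [NormedAddCommGroup W] [NormedSpace ℝ W] in
theorem mem_of_th {x : W × ℝ} (h : th x ∈ th '' S) : x ∈ S := by
  obtain ⟨x', h1, h2⟩ := h
  obtain ⟨n, rfl⟩ := th_eq_iff.1 h2.symm
  exact hS n x' h1

omit [NormedAddCommGroup W] [NormedSpace ℝ W] in
theorem sg_mem (T : ℝ) {y : W × ℂ} (h : y ∈ th '' S) : sg T y ∈ S ∧ th (sg T y) = y := by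
  obtain ⟨x, h1, rfl⟩ := h
  exact ⟨mem_of_th hS ⟨x, h1, (th_sg T x).symm⟩, th_sg T x⟩

theorem tan_shift {x v : W × ℝ} (n : ℤ) (h : v ∈ tan S x) :
    v ∈ tan S ((x.1, x.2 + 2 * n) : W × ℝ) := by
  have e : ∀ y : W × ℝ, y + ((0 : W), 2 * (n : ℝ)) = (y.1, y.2 + 2 * n) := fun y => by
    ext <;> simp
  have := fderiv_mem_tan_of_tan (g := fun y : W × ℝ => y + (0, 2 * (n : ℝ))) (S' := S)
    (differentiableAt_id.add_const _) (.of_forall fun y hy => by rw [e]; exact hS n y hy) h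
  rwa [fderiv_add_const, fderiv_fun_id, e] at this

theorem dsg_mem {T : ℝ} {y a : W × ℂ} (hy : y ∈ th '' S) (hd : y ∈ dm W T)
    (ha : a ∈ tan (th '' S) y) : fderiv ℝ (sg T) y a ∈ tan S (sg T y) ∧
      fderiv ℝ th (sg T y) (fderiv ℝ (sg T) y a) = a := by
  refine ⟨fderiv_mem_tan_of_tan (diff_sg hd) (.of_forall fun z hz => (sg_mem hS T hz).1) ha, ?_⟩
  have := fderiv_eq_on_tan (g := th ∘ sg T) (g' := id) hy ((diff_th _).comp y (diff_sg hd))
    differentiableAt_id (.of_forall fun z hz => (sg_mem hS T hz).2) ha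
  rwa [fderiv_comp y (diff_th _) (diff_sg hd), fderiv_id] at this

theorem locRetr_th (h : LocRetr S) : LocRetr (th '' S) := by
  rintro _ ⟨x, hx, rfl⟩
  obtain ⟨N, ρ, h1, h2, h3, h4, h5⟩ := h x hx
  have h6 : ContDiffOn ℝ ∞ (sg x.2) (dm W x.2) := fun y hy => (contDiffAt_sg hy).contDiffWithinAt
  refine ⟨dm W x.2 ∩ sg x.2 ⁻¹' N, th ∘ ρ ∘ sg x.2,
    h6.continuousOn.isOpen_inter_preimage (isOpen_dm _) h1,
    ⟨th_mem x, by rwa [mem_preimage, sg_th_self]⟩,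
    contDiff_th.comp_contDiffOn (h3.comp (h6.mono inter_subset_left) fun y hy => hy.2),
    fun y hy => mem_image_of_mem _ (h4 hy.2), fun y hy => ?_⟩
  obtain ⟨a, b⟩ := sg_mem hS x.2 hy.1
  show th (ρ (sg x.2 y)) = y
  rw [h5 _ ⟨a, hy.2.2⟩, b]

theorem compact_th (h : IsCompact {x ∈ S | |x.2| ≤ 1}) : IsCompact (th '' S) := by
  have : th '' S = th '' {x ∈ S | |x.2| ≤ 1} := by
    refine Subset.antisymm ?_ (image_mono fun x hx => hx.1)
    rintro _ ⟨x, hx, rfl⟩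
    refine ⟨_, ⟨hS (-round (x.2 / 2)) x hx, ?_⟩, th_eq_iff.2 ⟨_, rfl⟩⟩
    have := abs_le.1 (abs_sub_round (x.2 / 2))
    push_cast
    exact abs_le.2 ⟨by linarith [this.1], by linarith [this.2]⟩
  rw [this]
  exact h.image contDiff_th.continuous

end Shift

theorem dth_mem {S : Set (W × ℝ)} {x v : W × ℝ} (h : v ∈ tan S x) :
    fderiv ℝ th x v ∈ tan (th '' S) (th x) :=
  fderiv_mem_tan_of_tan (diff_th x) (.of_forall fun _ hy => mem_image_of_mem _ hy) h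

section Form

variable (A : Atl (W × ℝ)) (S : Set (W × ℝ))

open Classical in
/-- the two-form on the quotient -/
def Om (y a b : W × ℂ) : ℝ :=
  if h : ∃ p : (W × ℝ) × A.ι, p.1 ∈ S ∧ th p.1 = y ∧ p.1 ∈ A.U p.2 then
    dd (A.l h.choose.2) h.choose.1 (fderiv ℝ (sg h.choose.1.2) y a) (fderiv ℝ (sg h.choose.1.2) y b)
  else 0

/-- the standing hypotheses -/
structure Hy : Prop where
  pre : A.Pre S
  com : ∀ x ∈ S, A.CompatAt S x
  sh : ∀ (n : ℤ), ∀ x ∈ S, (x.1, x.2 + 2 * n) ∈ S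
  shl : ∀ (n : ℤ) i, ∃ j, ∀ x ∈ A.U i, (x.1, x.2 + 2 * n) ∈ A.U j ∧
    ∀ a b, dd (A.l j) (x.1, x.2 + 2 * n) a b = dd (A.l i) x a b

variable {A S}

theorem Om_th (H : Hy A S) {x v w : W × ℝ} (hx : x ∈ S) {i : A.ι} (hi : x ∈ A.U i)
    (hv : v ∈ tan S x) (hw : w ∈ tan S x) :
    Om A S (th x) (fderiv ℝ th x v) (fderiv ℝ th x w) = dd (A.l i) x v w := by
  have h : ∃ p : (W × ℝ) × A.ι, p.1 ∈ S ∧ th p.1 = th x ∧ p.1 ∈ A.U p.2 := ⟨(x, i), hx, rfl, hi⟩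
  rw [Om, dif_pos h]
  obtain ⟨h1, h2, h3⟩ := h.choose_spec
  generalize h.choose = p at h1 h2 h3
  obtain ⟨x', k⟩ := p
  obtain ⟨n, rfl⟩ : ∃ n : ℤ, x' = (x.1, x.2 + 2 * n) := th_eq_iff.1 h2
  obtain ⟨j, hj⟩ := H.shl n i
  rw [← h2, ← fderiv_th_shift x n, dsg_dth, dsg_dth, ← (hj x hi).2]
  exact (H.com _ h1 k j h3 (hj x hi).1 v (tan_shift H.sh n hv) w (tan_shift H.sh n hw)).2.1

theorem rank_th [FiniteDimensional ℝ W] (H : Hy A S) {y : W × ℂ} (hy : y ∈ th '' S) :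
    Module.finrank ℝ (tan (th '' S) y) = 6 := by
  obtain ⟨x, hx, rfl⟩ := hy
  obtain ⟨i, hi⟩ := H.pre.cov x hx
  let L : tan (th '' S) (th x) →ₗ[ℝ] C3 :=
    ((A.η i x).comp (fderiv ℝ (sg x.2) (th x))).toLinearMap ∘ₗ (tan (th '' S) (th x)).subtype
  have h1 : Function.Injective L := (injective_iff_map_eq_zero L).2 fun a ha => by
    obtain ⟨h2, h3⟩ := dsg_mem H.sh ⟨x, hx, rfl⟩ (th_mem x) a.2
    rw [sg_th_self] at h2
    rw [H.pre.inj i x hx hi _ h2 ha, map_zero] at h3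
    exact Subtype.ext h3.symm
  have h2 : Function.Surjective L := fun w => by
    obtain ⟨v, h3, h4⟩ := H.pre.surj i x hx hi w
    refine ⟨⟨_, dth_mem h3⟩, ?_⟩
    show A.η i x (fderiv ℝ (sg x.2) (th x) (fderiv ℝ th x v)) = w
    rw [dsg_dth, h4]
  rw [(LinearEquiv.ofBijective L ⟨h1, h2⟩).finrank_eq, Module.finrank_pi_fintype]
  simp

theorem prim_th (H : Hy A S) {y : W × ℂ} (hy : y ∈ th '' S) :
    ∃ (N : Set (W × ℂ)) (l : F1 (W × ℂ)), IsOpen N ∧ y ∈ N ∧ ContDiffOn ℝ ∞ l N ∧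
      ∀ z ∈ th '' S ∩ N, ∀ a ∈ tan (th '' S) z, ∀ b ∈ tan (th '' S) z,
        Om A S z a b = dd l z a b := by
  obtain ⟨x, hx, rfl⟩ := hy
  obtain ⟨i, hi⟩ := H.pre.cov x hx
  have h6 : ContinuousOn (sg x.2) (dm W x.2) := fun y hy =>
    (contDiffAt_sg hy).continuousAt.continuousWithinAt
  have hl : ∀ z ∈ A.U i, ContDiffAt ℝ ∞ (A.l i) z := fun z hz =>
    (H.pre.sml i).contDiffAt ((H.pre.op i).mem_nhds hz)
  refine ⟨dm W x.2 ∩ sg x.2 ⁻¹' A.U i, pb (sg x.2) (A.l i),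
    h6.isOpen_inter_preimage (isOpen_dm _) (H.pre.op i),
    ⟨th_mem x, by rwa [mem_preimage, sg_th_self]⟩, fun z hz => ?_, fun z hz a ha b hb => ?_⟩
  · exact (contDiffAt_pb (n := ⊤) (contDiffAt_sg hz.1) (hl _ hz.2)).contDiffWithinAt
  · obtain ⟨h1, h2⟩ := dsg_mem H.sh hz.1 hz.2.1 ha
    obtain ⟨h3, h4⟩ := dsg_mem H.sh hz.1 hz.2.1 hb
    obtain ⟨h5, h7⟩ := sg_mem H.sh x.2 hz.1
    rw [dd_pb ((contDiffAt_sg hz.2.1).of_le (by exact WithTop.coe_le_coe.2 le_top))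
      ((hl _ hz.2.2).differentiableAt (by simp)), ← Om_th H h5 hz.2.2 h1 h3, h2, h4, h7]

theorem nondeg_th (H : Hy A S) (hT : A.Tame S) {y : W × ℂ} (hy : y ∈ th '' S) {a : W × ℂ}
    (ha : a ∈ tan (th '' S) y) (h0 : a ≠ 0) : ∃ b ∈ tan (th '' S) y, Om A S y a b ≠ 0 := by
  obtain ⟨x, hx, rfl⟩ := hy
  obtain ⟨i, hi⟩ := H.pre.cov x hx
  obtain ⟨h2, h3⟩ := dsg_mem H.sh ⟨x, hx, rfl⟩ (th_mem x) ha
  rw [sg_th_self] at h2 h3
  obtain ⟨w, h4, h5⟩ := H.pre.surj i x hx hi (I • A.η i x (fderiv ℝ (sg x.2) (th x) a))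
  refine ⟨_, dth_mem h4, ?_⟩
  rw [← h3, Om_th H hx hi h2 h4]
  exact (hT i x hx hi _ h2 w h4 h5 fun h => h0 (by rw [← h3, h, map_zero])).ne'

theorem uniq {r : ℝ} (hr : 0 < r) : UniqueDiffOn ℝ (closedBall (0 : E6) r) :=
  uniqueDiffOn_convex (convex_closedBall _ _)
    ⟨0, mem_interior_iff_mem_nhds.2 (closedBall_mem_nhds _ hr)⟩

/-- the pull-back of the form of the manifold is the pull-back of the form of the cover -/
theorem pull_eq (H : Hy A S) {M : ClosedMfd 6} {σ : TwoForm M} {ι : M.carrier → W × ℂ}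
    (h1 : ContMDiff (𝓡 6) 𝓘(ℝ, W × ℂ) ∞ ι)
    (h2 : ∀ x (a b : TangentSpace (𝓡 6) x), σ x ![a, b] =
      Om A S (ι x) (mfderiv (𝓡 6) 𝓘(ℝ, W × ℂ) ι x a) (mfderiv (𝓡 6) 𝓘(ℝ, W × ℂ) ι x b))
    {r : ℝ} (hr : 0 < r) {f : E6 → M.carrier} {g : E6 → W × ℝ}
    (hf : ContMDiffOn (𝓡 6) (𝓡 6) ∞ f (closedBall 0 r)) (hg : ContDiffOn ℝ ∞ g (closedBall 0 r))
    (hm : MapsTo g (closedBall 0 r) S) (he : ∀ y ∈ closedBall (0 : E6) r, ι (f y) = th (g y))
    {y : E6} (hy : y ∈ closedBall (0 : E6) r) {i : A.ι} (hi : g y ∈ A.U i) (a b : E6) :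
    σ (f y) ![mfderivWithin (𝓡 6) (𝓡 6) f (closedBall 0 r) y a,
      mfderivWithin (𝓡 6) (𝓡 6) f (closedBall 0 r) y b] =
      dd (A.l i) (g y) (fderivWithin ℝ g (closedBall 0 r) y a)
        (fderivWithin ℝ g (closedBall 0 r) y b) := by
  have hu := uniq hr y hy
  have hd : DifferentiableWithinAt ℝ g (closedBall 0 r) y :=
    (hg y hy).differentiableWithinAt (by simp)
  have h3 := mfderiv_comp_mfderivWithin y (h1.mdifferentiableAt (by simp) (x := f y))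
    ((hf y hy).mdifferentiableWithinAt (by simp)) hu.uniqueMDiffWithinAt
  have h5 : fderivWithin ℝ (ι ∘ f) (closedBall 0 r) y =
      (fderiv ℝ th (g y)).comp (fderivWithin ℝ g (closedBall 0 r) y) :=
    (fderivWithin_congr (f := th ∘ g) he (he y hy)).trans
      (fderiv_comp_fderivWithin y (diff_th _) hd hu)
  rw [mfderivWithin_eq_fderivWithin] at h3
  have h4 : ∀ c : E6, mfderiv (𝓡 6) 𝓘(ℝ, W × ℂ) ι (f y)
      (mfderivWithin (𝓡 6) (𝓡 6) f (closedBall 0 r) y c) =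
      fderiv ℝ th (g y) (fderivWithin ℝ g (closedBall 0 r) y c) := fun c =>
    (congrArg (fun L : E6 →L[ℝ] W × ℂ => L c) (h5.symm.trans h3)).symm
  rw [h2, h4, h4, he y hy]
  exact Om_th H (hm hy) hi (fderivWithin_mem_tan hu hd hm a) (fderivWithin_mem_tan hu hd hm b)

end Form

/-- smooth lift of a smooth homotopy -/
theorem lift_th {s : Set E6} {G : ℝ × E6 → W × ℂ} (hG : ContDiffOn ℝ ∞ G (Icc 0 1 ×ˢ s))
    (h1 : ∀ q ∈ Icc (0 : ℝ) 1 ×ˢ s, ∃ x, th x = G q) {ψ : E6 → W × ℝ} (hψ : ContinuousOn ψ s)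
    (h0 : ∀ y ∈ s, G (0, y) = th (ψ y)) :
    ∃ g : ℝ × E6 → W × ℝ, ContDiffOn ℝ ∞ g (Icc 0 1 ×ˢ s) ∧
      (∀ q ∈ Icc (0 : ℝ) 1 ×ˢ s, th (g q) = G q) ∧ ∀ y ∈ s, g (0, y) = ψ y := by
  obtain ⟨τ, a1, a2, a3⟩ := lift_ex s (fun q => (G q).2) hG.continuousOn.snd
    (fun q hq => by
      obtain ⟨x, hx⟩ := h1 q hq
      rw [← hx]
      exact norm_ex _) (fun y => (ψ y).2) hψ.snd fun y hy => congrArg Prod.snd (h0 y hy)
  have e : ∀ q ∈ Icc (0 : ℝ) 1 ×ˢ s, th ((G q).1, τ q) = G q := fun q hq => Prod.ext rfl (a2 q hq)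
  refine ⟨fun q => ((G q).1, τ q), fun q hq => ?_, e,
    fun y hy => Prod.ext (congrArg (fun z : W × ℂ => z.1) (h0 y hy)) (a3 y hy)⟩
  have b1 : G q ∈ dm W (τ q) := e q hq ▸ th_mem ((G q).1, τ q)
  have b2 : ∀ᶠ q' in 𝓝[Icc (0 : ℝ) 1 ×ˢ s] q, |τ q' - τ q| < 1 :=
    ((a1 q hq).sub_const (τ q)).abs.eventually (gt_mem_nhds (by simp))
  refine ((contDiffAt_sg b1).comp_contDiffWithinAt q (hG q hq)).congr_of_eventuallyEq_of_mem ?_ hq
  filter_upwards [b2, self_mem_nhdsWithin] with q' c1 c2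
  show _ = sg (τ q) (G q')
  rw [← e q' c2, sg_th c1]
  rfl

end QuotP

open QuotP in
theorem quot_of (h1 : ManifoldStmt) : QuotStmt := by
  intro W _ _ _ A S r ψ₀ ψ₁ hR hP hC hT hS hL hK hr b₀ b₁ hI hJ hN
  have H : Hy A S := ⟨hP, hC, hS, hL⟩
  have z0 : (0 : E6) ∈ closedBall (0 : E6) r := mem_closedBall_self hr.le
  have p0 : th (ψ₀ 0) ∈ th '' S := mem_image_of_mem _ (b₀.mem z0)
  set S' := connectedComponentIn (th '' S) (th (ψ₀ 0)) with hS'
  have s1 : S' ⊆ th '' S := connectedComponentIn_subset _ _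
  have s2 : ∀ x ∈ S', ∀ᶠ y in 𝓝 x, y ∈ th '' S → y ∈ S' := fun x hx =>
    comp_open (locRetr_th hS hR) hx
  have s3 : ∀ x ∈ S', tan S' x = tan (th '' S) x := fun x hx =>
    tan_congr ((s2 x hx).mono fun y hy => ⟨fun a => s1 a, hy⟩)
  obtain ⟨M, σ, ι, m1, m2, m3, m4, m5, m6⟩ := h1 (W × ℂ) S' (Om A S)
    (comp_compact (compact_th hS hK) p0) (isConnected_connectedComponentIn_iff.2 p0)
    ((locRetr_th hS hR).mono s1 s2) (fun x hx => by rw [s3 x hx]; exact rank_th H (s1 hx))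
    (fun x hx => by
      obtain ⟨N, l, a1, a2, a3, a4⟩ := prim_th H (s1 hx)
      exact ⟨N, l, a1, a2, a3, fun y hy a ha b hb =>
        a4 y ⟨s1 hy.1, hy.2⟩ a (s3 y hy.1 ▸ ha) b (s3 y hy.1 ▸ hb)⟩)
    fun x hx a ha h0 => by rw [s3 x hx] at ha ⊢; exact nondeg_th H hT (s1 hx) ha h0
  have p1 : th (ψ₁ 0) ∈ S' := by
    have := (hJ.map_continuousOn contDiff_th.continuous.continuousOn)
    obtain ⟨γ, hγ⟩ := this
    exact (isPreconnected_range γ.continuous).subset_connectedComponentIn ⟨0, γ.source⟩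
      (range_subset_iff.2 hγ) ⟨1, γ.target⟩
  have key : ∀ ψ, A.Ball S r ψ → th (ψ 0) ∈ S' → (ψ = ψ₀ ∨ ψ = ψ₁) → ∃ φ : E6 → M.carrier,
      IsBallEmb σ r φ ∧ ∀ y ∈ closedBall (0 : E6) r, ι (φ y) = th (ψ y) := fun ψ b hp hψ => by
    have a1 : th ∘ ψ '' closedBall 0 r ⊆ S' := by
      rw [hS', connectedComponentIn_eq hp]
      exact ((convex_closedBall _ _).isPreconnected.image _
        (contDiff_th.continuous.comp_continuousOn b.sm.continuousOn)).subset_connectedComponentIn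
        ⟨0, z0, rfl⟩ (image_subset_iff.2 fun y hy => mem_image_of_mem _ (b.mem hy))
    have a2 : ∀ y ∈ closedBall (0 : E6) r, ι (Function.invFun ι (th (ψ y))) = th (ψ y) :=
      fun y hy => Function.invFun_eq (by
        show _ ∈ range ι
        rw [m3]
        exact a1 ⟨y, hy, rfl⟩)
    have a3 : ContMDiffOn (𝓡 6) (𝓡 6) ∞ (fun y => Function.invFun ι (th (ψ y))) (closedBall 0 r) :=
      m6 _ _ ((contDiff_th.comp_contDiffOn b.sm).congr a2)
    refine ⟨fun y => Function.invFun ι (th (ψ y)), ⟨a3, fun y hy y' hy' e => ?_,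
      fun y hy v w => ?_⟩, a2⟩
    · obtain ⟨n, hn⟩ := th_eq_iff.1 (((a2 y hy).symm.trans (congrArg ι e)).trans (a2 y' hy'))
      exact hI ψ hψ y' hy' y hy n hn
    · obtain ⟨i, hi⟩ := hP.cov _ (b.mem hy)
      exact (pull_eq H m4 m5 hr a3 b.sm b.mem a2 hy hi v w).trans (b.pull y hy i hi v w)
  obtain ⟨φ₀, c₀, d₀⟩ := key ψ₀ b₀ (mem_connectedComponentIn p0) (Or.inl rfl)
  obtain ⟨φ₁, c₁, d₁⟩ := key ψ₁ b₁ p1 (Or.inr rfl)
  refine ⟨M, σ, m1, r, hr, φ₀, φ₁, c₀, c₁, fun ⟨Ψ, e1, e2, e3, e4⟩ => ?_⟩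
  have e5 : ContDiffOn ℝ ∞ (ι ∘ Ψ) (Icc 0 1 ×ˢ closedBall 0 r) := by
    have a : ContMDiff 𝓘(ℝ, ℝ × E6) (𝓘(ℝ, ℝ).prod (𝓡 6)) ∞ fun q : ℝ × E6 => (q.1, q.2) :=
      contDiff_fst.contMDiff.prodMk contDiff_snd.contMDiff
    exact contMDiffOn_iff_contDiffOn.1
      ((m4.comp_contMDiffOn e1).comp a.contMDiffOn fun q hq => hq)
  have e6 : ∀ q, ι (Ψ q) ∈ th '' S := fun q => s1 (m3 ▸ mem_range_self _)
  obtain ⟨g, g1, g2, g3⟩ := lift_th e5 (fun q _ => (e6 q).imp fun _ a => a.2)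
    b₀.sm.continuousOn fun y hy => by rw [Function.comp_apply, e3 y hy, d₀ y hy]
  have sl : ∀ t ∈ Icc (0 : ℝ) 1, ContDiffOn ℝ ∞ (fun y => g (t, y)) (closedBall 0 r) := fun t ht =>
    g1.comp (contDiff_const.prodMk contDiff_id).contDiffOn fun y hy => ⟨ht, hy⟩
  have o1 : (1 : ℝ) ∈ Icc (0 : ℝ) 1 := ⟨zero_le_one, le_rfl⟩
  have g4 : ∀ y ∈ closedBall (0 : E6) r, ∃ n : ℤ, g (1, y) = ((ψ₁ y).1, (ψ₁ y).2 + 2 * n) :=
    fun y hy => th_eq_iff.1 (by rw [g2 (1, y) ⟨o1, hy⟩, Function.comp_apply, e4 y hy, d₁ y hy])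
  obtain ⟨n, hn⟩ := g4 0 z0
  refine hN n ⟨g, g1, fun t ht => ?_, g3, fun y hy => ?_⟩
  · have a1 : ∀ y ∈ closedBall (0 : E6) r, ι (Ψ (t, y)) = th (g (t, y)) := fun y hy =>
      (g2 (t, y) ⟨ht, hy⟩).symm
    have a2 : MapsTo (fun y => g (t, y)) (closedBall 0 r) S := fun y hy =>
      mem_of_th hS (a1 y hy ▸ e6 _)
    refine ⟨sl t ht, a2, fun y hy y' hy' e => (e2 t ht).inj hy hy' (m2 ?_), fun y hy i hi a b =>
      (pull_eq H m4 m5 hr (e2 t ht).smooth (sl t ht) a2 a1 hy hi a b).symm.trans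
        ((e2 t ht).pull y hy a b)⟩
    exact ((a1 y hy).trans (congrArg th e)).trans (a1 y' hy').symm
  · have a1 := const_int (f := fun y => ((g (1, y)).2 - (ψ₁ y).2) / 2)
      (convex_closedBall (0 : E6) r).isPreconnected
      (((sl 1 o1).continuousOn.snd.sub b₁.sm.continuousOn.snd).div_const 2)
      (fun y hy => (g4 y hy).imp fun m hm => by rw [hm]; ring) hy z0
    obtain ⟨m, hm⟩ := g4 y hy
    rw [hm, hn] at a1
    rw [hm]
    exact Prod.ext rfl (by dsimp only at a1 ⊢; linarith)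

end

end Pool.Agent.MP_9758ca_gt

end

section

/-!
PROJECT BALL, module TAMEFAM: patching a tame almost complex structure with the standard structure
of a family of symplectic balls.

In the coordinates of the ball the given structure is a tame complex structure `K` of `E6`; it is
joined to the standard structure `j` by `(1 - t j K) K (1 - t j K)⁻¹`.
-/

open scoped Topology ContDiff ComplexConjugate
open Set Metric Filter Complex

namespace Pool.Agent.MP_9758ca_gt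

noncomputable section

namespace TamefamP

/-! ### linear algebra in `E6` -/

/-- the standard complex structure as a continuous linear map -/
def jL : En0 E6 := Classical.choose exists_j6L

theorem jL_apply (y : E6) : jL y = j6 y := (Classical.choose_spec exists_j6L).1 y

theorem jL_jL (y : E6) : jL (jL y) = -y := (Classical.choose_spec exists_j6L).2 y

/-- the conjugating operator -/
def TT (K : En0 E6) (t : ℝ) : En0 E6 := 1 - t • (jL * K)

/-- the path from `K` to `j` -/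
def KT (K : En0 E6) (t : ℝ) : En0 E6 := TT K t * K * Ring.inverse (TT K t)

theorem TT_apply (K : En0 E6) (t : ℝ) (u : E6) : TT K t u = u - t • j6 (K u) := by
  simp only [TT, sub_apply, one_apply_eq_self,
    smul_apply, mul_apply_eq_comp, jL_apply]

theorem om0_key (u k : E6) (t : ℝ) :
    om0 (u - t • j6 k) (k + t • j6 u) =
      (1 + t ^ 2) * om0 u k + t * om0 u (j6 u) + t * om0 k (j6 k) := by
  simp [om0, j6]
  ring

theorem om0_zero (b : E6) : om0 0 b = 0 := by simp [om0]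

section Lin
variable {K : En0 E6} {t : ℝ}

theorem TT_K (h2 : ∀ a, K (K a) = -a) (u : E6) : TT K t (K u) = K u + t • j6 u := by
  rw [TT_apply, h2, ← jL_apply, map_neg, jL_apply, smul_neg, sub_neg_eq_add]

theorem q_pos (h2 : ∀ a, K (K a) = -a) (hp : ∀ a, a ≠ 0 → 0 < om0 a (K a)) (ht : 0 ≤ t) {u : E6}
    (hu : u ≠ 0) : 0 < om0 (TT K t u) (TT K t (K u)) := by
  rw [TT_K h2, TT_apply, om0_key, om0_j6, om0_j6]
  have h1 := hp u hu
  have h3 : 0 ≤ t * ‖u‖ ^ 2 := by positivity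
  have h4 : 0 ≤ t * ‖K u‖ ^ 2 := by positivity
  have h5 : 0 < (1 + t ^ 2) * om0 u (K u) := by positivity
  linarith

theorem TT_unit (h2 : ∀ a, K (K a) = -a) (hp : ∀ a, a ≠ 0 → 0 < om0 a (K a)) (ht : 0 ≤ t) :
    IsUnit (TT K t) := by
  have hinj : Function.Injective (TT K t) := by
    rw [injective_iff_map_eq_zero]
    intro u hu
    by_contra h0
    have := q_pos h2 hp ht h0
    rw [hu, om0_zero] at this
    exact lt_irrefl _ this
  rw [ContinuousLinearMap.isUnit_iff_bijective]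
  exact ⟨hinj, (LinearMap.injective_iff_surjective (f := (TT K t : E6 →ₗ[ℝ] E6))).1 hinj⟩

theorem TT_inv (hU : IsUnit (TT K t)) (a : E6) : TT K t (Ring.inverse (TT K t) a) = a := by
  rw [← mul_apply_eq_comp, Ring.mul_inverse_cancel _ hU,
    one_apply_eq_self]

theorem inv_TT (hU : IsUnit (TT K t)) (a : E6) : Ring.inverse (TT K t) (TT K t a) = a := by
  rw [← mul_apply_eq_comp, Ring.inverse_mul_cancel _ hU,
    one_apply_eq_self]

theorem KT_TT (hU : IsUnit (TT K t)) (u : E6) : KT K t (TT K t u) = TT K t (K u) := by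
  rw [KT, mul_apply_eq_comp, mul_apply_eq_comp, inv_TT hU]

theorem exists_TT (hU : IsUnit (TT K t)) (a : E6) : ∃ u, TT K t u = a := ⟨_, TT_inv hU a⟩

theorem KT_sq (h2 : ∀ a, K (K a) = -a) (hU : IsUnit (TT K t)) (a : E6) :
    KT K t (KT K t a) = -a := by
  obtain ⟨u, rfl⟩ := exists_TT hU a
  rw [KT_TT hU, KT_TT hU, h2, map_neg]

theorem KT_pos (h2 : ∀ a, K (K a) = -a) (hp : ∀ a, a ≠ 0 → 0 < om0 a (K a)) (ht : 0 ≤ t) {a : E6}
    (ha : a ≠ 0) : 0 < om0 a (KT K t a) := by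
  have hU := TT_unit h2 hp ht
  obtain ⟨u, rfl⟩ := exists_TT hU a
  rw [KT_TT hU]
  refine q_pos h2 hp ht ?_
  rintro rfl
  exact ha (map_zero _)

theorem KT_zero (K : En0 E6) : KT K 0 = K := by
  simp [KT, TT]

theorem KT_one (h2 : ∀ a, K (K a) = -a) (hU : IsUnit (TT K 1)) (a : E6) : KT K 1 a = j6 a := by
  obtain ⟨u, rfl⟩ := exists_TT hU a
  rw [KT_TT hU, TT_K h2, TT_apply, one_smul, one_smul, ← jL_apply (K u), ← jL_apply (u - _),
    map_sub, jL_jL, jL_apply, sub_neg_eq_add, add_comm]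

theorem KT_common (h2 : ∀ a, K (K a) = -a) (hU : IsUnit (TT K t)) {η : E6 →L[ℝ] ℂ}
    (h1 : ∀ a, η (K a) = I * η a) (hj : ∀ a, η (j6 a) = I * η a) (a : E6) :
    η (KT K t a) = I * η a := by
  obtain ⟨u, rfl⟩ := exists_TT hU a
  rw [KT_TT hU, TT_K h2, TT_apply, map_add, map_sub, map_smul, map_smul, hj, hj, h1,
    Complex.real_smul, Complex.real_smul]
  linear_combination (t : ℂ) * I * η u * Complex.I_mul_I

end Lin

theorem contDiffAt_KT {X : Type} [NormedAddCommGroup X] [NormedSpace ℝ X] {K : X → En0 E6}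
    {t : X → ℝ} {x : X} (hK : ContDiffAt ℝ ∞ K x) (ht : ContDiffAt ℝ ∞ t x)
    (hU : IsUnit (TT (K x) (t x))) : ContDiffAt ℝ ∞ (fun y => KT (K y) (t y)) x := by
  have hT : ContDiffAt ℝ ∞ (fun y => TT (K y) (t y)) x :=
    contDiffAt_const.sub (ht.smul (contDiffAt_const.mul hK))
  obtain ⟨w, hw⟩ := hU
  have hi : ContDiffAt ℝ ∞ (Ring.inverse : En0 E6 → En0 E6) (TT (K x) (t x)) := by
    rw [← hw]; exact contDiffAt_ringInverse ℝ w
  exact (hT.mul hK).mul (ContDiffAt.comp (f := fun y => TT (K y) (t y)) x hi hT)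

/-! ### the frame along the balls -/

variable {V : Type} [NormedAddCommGroup V] [NormedSpace ℝ V]

/-- the differential of the ball embedding -/
def AA (ψ : ℝ × E6 → V) (q : ℝ × E6) : E6 →L[ℝ] V :=
  (fderiv ℝ ψ q).comp (ContinuousLinearMap.inr ℝ ℝ E6)

/-- its left inverse, by symplectic duality -/
def BL (om : F2 V) (ψ : ℝ × E6 → V) (q : ℝ × E6) : V →L[ℝ] E6 :=
  ∑ i : Fin 6, (om (ψ q) (AA ψ q (EuclideanSpace.single i 1))).smulRight
    (j6 (EuclideanSpace.single i 1))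

/-- the pull-back of `J₀` -/
def KK (om : F2 V) (J₀ : V → En0 V) (ψ : ℝ × E6 → V) (q : ℝ × E6) : En0 E6 :=
  (BL om ψ q).comp ((J₀ (ψ q)).comp (AA ψ q))

/-- the correction term -/
def PH (om : F2 V) (J₀ : V → En0 V) (ψ : ℝ × E6 → V) (t : E6 → ℝ) (q : ℝ × E6) : En0 V :=
  (AA ψ q).comp ((KT (KK om J₀ ψ q) (t q.2) - KK om J₀ ψ q).comp (BL om ψ q))

theorem AA_apply (ψ : ℝ × E6 → V) (q : ℝ × E6) (a : E6) : AA ψ q a = fderiv ℝ ψ q (0, a) := rfl

theorem dual_sum (b : E6) :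
    ∑ i : Fin 6, om0 (EuclideanSpace.single i 1) b • j6 (EuclideanSpace.single i 1) = b := by
  ext k
  fin_cases k <;> simp [Fin.sum_univ_six, om0, j6]

theorem PH_zero (om : F2 V) (J₀ : V → En0 V) (ψ : ℝ × E6 → V) {t : E6 → ℝ} {q : ℝ × E6}
    (h : t q.2 = 0) : PH om J₀ ψ t q = 0 := by
  rw [PH, h, KT_zero, sub_self, ContinuousLinearMap.zero_comp, ContinuousLinearMap.comp_zero]

section Fam
variable {O M : Set V} {π : V → V} {om h : F2 V} {J₀ : V → En0 V} {r : ℝ} {ψ : ℝ × E6 → V}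

theorem sm_at (hB : BallFam M om r ψ) {q : ℝ × E6} (hq : q.2 ∈ ball (0 : E6) r) :
    ContDiffAt ℝ ∞ ψ q := by
  refine hB.sm.contDiffAt ?_
  refine mem_of_superset ((isOpen_univ.prod isOpen_ball).mem_nhds ⟨mem_univ _, hq⟩) ?_
  exact prod_mono subset_rfl ball_subset_closedBall

theorem mem_near (hB : BallFam M om r ψ) {q : ℝ × E6} (hq : q.2 ∈ ball (0 : E6) r) :
    ∀ᶠ q' in 𝓝 q, ψ q' ∈ M := by
  have : ∀ᶠ q' : ℝ × E6 in 𝓝 q, q'.2 ∈ ball (0 : E6) r :=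
    continuous_snd.continuousAt.eventually (isOpen_ball.mem_nhds hq)
  exact this.mono fun q' h => hB.mem q'.1 q'.2 (ball_subset_closedBall h)

theorem AA_mem (hB : BallFam M om r ψ) {q : ℝ × E6} (hq : q.2 ∈ ball (0 : E6) r) (a : E6) :
    AA ψ q a ∈ tan M (ψ q) :=
  fderiv_mem_tan ((sm_at hB hq).differentiableAt (by simp)) (mem_near hB hq) _

theorem AA_pull (hB : BallFam M om r ψ) {q : ℝ × E6} (hq : q.2 ∈ ball (0 : E6) r) (a b : E6) :
    om (ψ q) (AA ψ q a) (AA ψ q b) = om0 a b := hB.pull q.1 q.2 hq a b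

theorem BL_AA (hB : BallFam M om r ψ) {q : ℝ × E6} (hq : q.2 ∈ ball (0 : E6) r) (b : E6) :
    BL om ψ q (AA ψ q b) = b := by
  rw [BL, sum_apply]
  simp only [ContinuousLinearMap.smulRight_apply, AA_pull hB hq]
  exact dual_sum b

theorem AA_inj (hB : BallFam M om r ψ) {q : ℝ × E6} (hq : q.2 ∈ ball (0 : E6) r) {a : E6}
    (ha : AA ψ q a = 0) : a = 0 := by
  rw [← BL_AA hB hq a, ha, map_zero]

theorem AA_surj [FiniteDimensional ℝ V] (hA : Amb O π M om h) (hB : BallFam M om r ψ)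
    {q : ℝ × E6} (hq : q.2 ∈ ball (0 : E6) r) {v : V} (hv : v ∈ tan M (ψ q)) :
    ∃ a, AA ψ q a = v := by
  have hle : LinearMap.range (AA ψ q : E6 →ₗ[ℝ] V) ≤ tan M (ψ q) := by
    rintro _ ⟨a, rfl⟩
    exact AA_mem hB hq a
  have hinj : Function.Injective (AA ψ q : E6 →ₗ[ℝ] V) := by
    rw [injective_iff_map_eq_zero]
    exact fun a ha => AA_inj hB hq ha
  have hd : Module.finrank ℝ (LinearMap.range (AA ψ q : E6 →ₗ[ℝ] V)) =
      Module.finrank ℝ (tan M (ψ q)) := by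
    rw [LinearMap.finrank_range_of_inj hinj, hA.dim _ (mem_near hB hq).self_of_nhds]
    simp
  have := Submodule.eq_of_le_of_finrank_eq hle hd
  rw [← this] at hv
  exact hv

theorem AA_KK [FiniteDimensional ℝ V] (hA : Amb O π M om h) (hB : BallFam M om r ψ)
    (hW : WJ M J₀) {q : ℝ × E6} (hq : q.2 ∈ ball (0 : E6) r) (a : E6) :
    AA ψ q (KK om J₀ ψ q a) = J₀ (ψ q) (AA ψ q a) := by
  obtain ⟨b, hb⟩ := AA_surj hA hB hq (hW _ (mem_near hB hq).self_of_nhds _ (AA_mem hB hq a)).1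
  have : KK om J₀ ψ q a = b := by
    rw [KK, ContinuousLinearMap.comp_apply, ContinuousLinearMap.comp_apply, ← hb, BL_AA hB hq]
  rw [this, hb]

theorem KK_sq [FiniteDimensional ℝ V] (hA : Amb O π M om h) (hB : BallFam M om r ψ)
    (hW : WJ M J₀) {q : ℝ × E6} (hq : q.2 ∈ ball (0 : E6) r) (a : E6) :
    KK om J₀ ψ q (KK om J₀ ψ q a) = -a := by
  have h1 := (hW _ (mem_near hB hq).self_of_nhds _ (AA_mem hB hq a)).2
  rw [← AA_KK hA hB hW hq, ← AA_KK hA hB hW hq, ← map_neg] at h1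
  rw [← BL_AA hB hq (KK om J₀ ψ q _), h1, BL_AA hB hq]

theorem KK_pos [FiniteDimensional ℝ V] (hA : Amb O π M om h) (hB : BallFam M om r ψ)
    (hW : WJ M J₀) (hT : Tame M om J₀) {q : ℝ × E6} (hq : q.2 ∈ ball (0 : E6) r) (a : E6)
    (ha : a ≠ 0) : 0 < om0 a (KK om J₀ ψ q a) := by
  rw [← AA_pull hB hq, AA_KK hA hB hW hq]
  exact hT _ (mem_near hB hq).self_of_nhds _ (AA_mem hB hq a) fun h0 => ha (AA_inj hB hq h0)

theorem PH_AA [FiniteDimensional ℝ V] (hA : Amb O π M om h) (hB : BallFam M om r ψ)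
    (hW : WJ M J₀) (t : E6 → ℝ) {q : ℝ × E6} (hq : q.2 ∈ ball (0 : E6) r) (a : E6) :
    J₀ (ψ q) (AA ψ q a) + PH om J₀ ψ t q (AA ψ q a) = AA ψ q (KT (KK om J₀ ψ q) (t q.2) a) := by
  rw [PH, ContinuousLinearMap.comp_apply, ContinuousLinearMap.comp_apply, BL_AA hB hq,
    sub_apply, map_sub, AA_KK hA hB hW hq, add_sub_cancel]

theorem sm_AA (hB : BallFam M om r ψ) {q : ℝ × E6} (hq : q.2 ∈ ball (0 : E6) r) :
    ContDiffAt ℝ ∞ (AA ψ) q :=
  ((sm_at hB hq).fderiv_right (m := ∞) (by simp)).clm_comp contDiffAt_const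

theorem sm_BL (hA : Amb O π M om h) (hB : BallFam M om r ψ) {q : ℝ × E6}
    (hq : q.2 ∈ ball (0 : E6) r) : ContDiffAt ℝ ∞ (BL om ψ) q := by
  refine ContDiffAt.sum fun i _ => ?_
  refine ContDiffAt.smulRight ?_ contDiffAt_const
  have h1 : ContDiffAt ℝ ∞ (fun q' => om (ψ q')) q := hA.smo.contDiffAt.comp q (sm_at hB hq)
  exact h1.clm_apply ((sm_AA hB hq).clm_apply contDiffAt_const)

theorem sm_PH [FiniteDimensional ℝ V] (hA : Amb O π M om h) (hB : BallFam M om r ψ)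
    (hJ : ContDiff ℝ ∞ J₀) (hW : WJ M J₀) (hT : Tame M om J₀) {t : E6 → ℝ}
    (ht : ContDiff ℝ ∞ t) (ht0 : ∀ y, 0 ≤ t y) {q : ℝ × E6} (hq : q.2 ∈ ball (0 : E6) r) :
    ContDiffAt ℝ ∞ (PH om J₀ ψ t) q := by
  have hK : ContDiffAt ℝ ∞ (KK om J₀ ψ) q :=
    (sm_BL hA hB hq).clm_comp ((hJ.contDiffAt.comp q (sm_at hB hq)).clm_comp (sm_AA hB hq))
  have h1 : ContDiffAt ℝ ∞ (fun q' : ℝ × E6 => KT (KK om J₀ ψ q') (t q'.2)) q :=
    contDiffAt_KT hK (ht.contDiffAt.comp q contDiffAt_snd)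
      (TT_unit (KK_sq hA hB hW hq) (KK_pos hA hB hW hT hq) (ht0 _))
  exact (sm_AA hB hq).clm_comp ((h1.sub hK).clm_comp (sm_BL hA hB hq))

/-! ### the inverse of the ball embeddings -/

/-- local smooth inverse -/
theorem loc_inv [FiniteDimensional ℝ V] (hA : Amb O π M om h) (hB : BallFam M om r ψ)
    {p₀ : ℝ × V} (hO : p₀.2 ∈ O) {y₀ : E6} (hy : y₀ ∈ ball (0 : E6) r)
    (he : ψ (p₀.1, y₀) = π p₀.2) : ∃ γ : ℝ × V → E6, ContDiffAt ℝ ∞ γ p₀ ∧
      ∀ᶠ p in 𝓝 p₀, p.2 ∈ O ∧ γ p ∈ ball (0 : E6) r ∧ ψ (p.1, γ p) = π p.2 := by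
  set q₀ : ℝ × E6 := (p₀.1, y₀) with hq₀
  have hq : q₀.2 ∈ ball (0 : E6) r := hy
  have hsm := sm_at hB hq
  obtain ⟨f, -, finj, floc⟩ := hA.coord (mem_near hB hq).self_of_nhds
  obtain ⟨L, -⟩ := exists_czL
  let f' : V →L[ℝ] E6 := (L.symm : C3 →L[ℝ] E6).comp f
  let F : ℝ × E6 → ℝ × E6 := fun q => (q.1, f' (ψ q))
  let F' : (ℝ × E6) →L[ℝ] (ℝ × E6) :=
    (ContinuousLinearMap.fst ℝ ℝ E6).prod (f'.comp (fderiv ℝ ψ q₀))
  have hF : ContDiffAt ℝ ∞ F q₀ := contDiffAt_fst.prodMk (f'.contDiff.contDiffAt.comp q₀ hsm)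
  have hd : HasFDerivAt F F' q₀ :=
    hasFDerivAt_fst.prodMk
      (f'.hasFDerivAt.comp q₀ (hsm.differentiableAt (by simp)).hasFDerivAt)
  have hinj : Function.Injective F' := by
    rw [injective_iff_map_eq_zero]
    rintro ⟨s, a⟩ hsa
    have h1 : s = 0 := congrArg Prod.fst hsa
    subst h1
    have h2 : L.symm (f (AA ψ q₀ a)) = 0 := congrArg Prod.snd hsa
    have h3 : f (AA ψ q₀ a) = 0 := by simpa using h2
    have h4 := AA_inj hB hq (finj _ (AA_mem hB hq a) h3)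
    rw [h4]; rfl
  have hsurj : Function.Surjective F' :=
    (LinearMap.injective_iff_surjective (f := (F' : (ℝ × E6) →ₗ[ℝ] (ℝ × E6)))).1 hinj
  let e : (ℝ × E6) ≃L[ℝ] (ℝ × E6) := ContinuousLinearEquiv.ofBijective F'
    (LinearMap.ker_eq_bot.2 hinj) (LinearMap.range_eq_top.2 hsurj)
  have hd' : HasFDerivAt F (e : (ℝ × E6) →L[ℝ] (ℝ × E6)) q₀ := hd
  have hn : (∞ : WithTop ℕ∞) ≠ 0 := by simp
  set G := hF.localInverse hd' hn with hG
  have hGs : ContDiffAt ℝ ∞ G (F q₀) := hF.to_localInverse hd' hn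
  have hG0 : G (F q₀) = q₀ := hF.localInverse_apply_image hd' hn
  have hGr : ∀ᶠ z in 𝓝 (F q₀), F (G z) = z := (hF.hasStrictFDerivAt' hd' hn).eventually_right_inverse
  let Z : ℝ × V → ℝ × E6 := fun p => (p.1, f' (π p.2))
  have hZ : ContDiffAt ℝ ∞ Z p₀ :=
    contDiffAt_fst.prodMk (f'.contDiff.contDiffAt.comp p₀ (hA.sm.contDiffAt.comp p₀ contDiffAt_snd))
  have hZ0 : Z p₀ = F q₀ := by
    simp only [Z, F, hq₀]
    rw [← he]
  have hGZ : ContDiffAt ℝ ∞ (fun p => G (Z p)) p₀ := by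
    refine ContDiffAt.comp p₀ ?_ hZ
    rw [hZ0]; exact hGs
  have hGZ0 : G (Z p₀) = q₀ := by rw [hZ0, hG0]
  have hGZt : Tendsto (fun p => G (Z p)) (𝓝 p₀) (𝓝 q₀) := by
    have := hGZ.continuousAt.tendsto
    rwa [hGZ0] at this
  refine ⟨fun p => (G (Z p)).2, contDiffAt_snd.comp p₀ hGZ, ?_⟩
  have e1 : ∀ᶠ p : ℝ × V in 𝓝 p₀, p.2 ∈ O :=
    continuous_snd.continuousAt.eventually (hA.op.mem_nhds hO)
  have e2 : ∀ᶠ p in 𝓝 p₀, (G (Z p)).2 ∈ ball (0 : E6) r :=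
    hGZt.eventually (continuous_snd.continuousAt.eventually (isOpen_ball.mem_nhds hq))
  have e3 : ∀ᶠ p in 𝓝 p₀, F (G (Z p)) = Z p := by
    have := hZ.continuousAt.tendsto
    rw [hZ0] at this
    exact this.eventually hGr
  have t1 : Tendsto (fun p => ψ (G (Z p))) (𝓝 p₀) (𝓝 (ψ q₀)) :=
    hsm.continuousAt.tendsto.comp hGZt
  have t2 : Tendsto (fun p : ℝ × V => π p.2) (𝓝 p₀) (𝓝 (ψ q₀)) := by
    rw [he]
    exact (hA.sm.continuous.comp continuous_snd).continuousAt.tendsto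
  have e4 := (t1.prodMk_nhds t2).eventually floc
  filter_upwards [e1, e2, e3, e4] with p h1 h2 h3 h4
  refine ⟨h1, h2, ?_⟩
  have h5 : (G (Z p)).1 = p.1 := congrArg Prod.fst h3
  have h6 : L.symm (f (ψ (G (Z p)))) = L.symm (f (π p.2)) := congrArg Prod.snd h3
  have h7 : (p.1, (G (Z p)).2) = G (Z p) := Prod.ext h5.symm rfl
  rw [h7]
  exact h4 (hB.mem _ _ (ball_subset_closedBall h2)) (hA.maps h1) (L.symm.injective h6)

open Classical in
/-- the global inverse, with the junk value `y₁` -/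
def gg (π : V → V) (r : ℝ) (ψ : ℝ × E6 → V) (y₁ : E6) (p : ℝ × V) : E6 :=
  if hp : ∃ y ∈ ball (0 : E6) r, ψ (p.1, y) = π p.2 then Classical.choose hp else y₁

theorem gg_eq (hB : BallFam M om r ψ) (y₁ : E6) {p : ℝ × V} {y : E6} (hy : y ∈ ball (0 : E6) r)
    (he : ψ (p.1, y) = π p.2) : gg π r ψ y₁ p = y := by
  have hp : ∃ y ∈ ball (0 : E6) r, ψ (p.1, y) = π p.2 := ⟨y, hy, he⟩
  rw [gg, dif_pos hp]
  have hs := Classical.choose_spec hp
  exact hB.inj p.1 (ball_subset_closedBall hs.1) (ball_subset_closedBall hy) (hs.2.trans he.symm)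

omit [NormedAddCommGroup V] [NormedSpace ℝ V] in
theorem gg_cases (y₁ : E6) (p : ℝ × V) :
    gg π r ψ y₁ p = y₁ ∨ ψ (p.1, gg π r ψ y₁ p) = π p.2 := by
  by_cases hp : ∃ y ∈ ball (0 : E6) r, ψ (p.1, y) = π p.2
  · right
    rw [gg, dif_pos hp]
    exact (Classical.choose_spec hp).2
  · left
    rw [gg, dif_neg hp]

theorem sm_gg [FiniteDimensional ℝ V] (hA : Amb O π M om h) (hB : BallFam M om r ψ) (y₁ : E6)
    {p₀ : ℝ × V} (hO : p₀.2 ∈ O) {y₀ : E6} (hy : y₀ ∈ ball (0 : E6) r)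
    (he : ψ (p₀.1, y₀) = π p₀.2) : ContDiffAt ℝ ∞ (gg π r ψ y₁) p₀ := by
  obtain ⟨γ, hγ, hev⟩ := loc_inv hA hB hO hy he
  refine hγ.congr_of_eventuallyEq ?_
  filter_upwards [hev] with p hp
  exact gg_eq hB y₁ hp.2.1 hp.2.2

/-- away from the smaller closed balls the correction vanishes identically -/
theorem PH_gg_zero (hA : Amb O π M om h) (hB : BallFam M om r ψ) {r₃ : ℝ} (hr : r₃ < r)
    {t : E6 → ℝ} (ht : ∀ y, r₃ ≤ ‖y‖ → t y = 0) {y₁ : E6} (hy₁ : r₃ ≤ ‖y₁‖) {p₀ : ℝ × V}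
    (hp : ∀ y ∈ ball (0 : E6) r, ψ (p₀.1, y) ≠ π p₀.2) :
    ∀ᶠ p : ℝ × V in 𝓝 p₀, PH om J₀ ψ t (p.1, gg π r ψ y₁ p) = 0 := by
  have hev : ∀ᶠ p : ℝ × V in 𝓝 p₀, ∀ y ∈ closedBall (0 : E6) r₃, ψ (p.1, y) ≠ π p.2 := by
    refine (isCompact_closedBall (0 : E6) r₃).eventually_forall_of_forall_eventually
      (P := fun (p : ℝ × V) (y : E6) => ψ (p.1, y) ≠ π p.2) fun y hy => ?_
    have hy' : y ∈ ball (0 : E6) r := closedBall_subset_ball hr hy
    have c1 : ContinuousAt (fun z : (ℝ × V) × E6 => ψ (z.1.1, z.2)) (p₀, y) :=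
      ContinuousAt.comp (g := ψ) (f := fun z : (ℝ × V) × E6 => (z.1.1, z.2))
        (sm_at hB (q := (p₀.1, y)) hy').continuousAt (by fun_prop)
    have c2 : ContinuousAt (fun z : (ℝ × V) × E6 => π z.1.2) (p₀, y) :=
      (hA.sm.continuous.comp (continuous_snd.comp continuous_fst)).continuousAt
    have := (c1.sub c2).eventually_ne (y := 0) (sub_ne_zero.2 (hp y hy'))
    exact this.mono fun z hz => sub_ne_zero.1 hz
  filter_upwards [hev] with p hp'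
  refine PH_zero om J₀ ψ (ht _ ?_)
  rcases gg_cases (π := π) (r := r) (ψ := ψ) y₁ p with h1 | h1
  · show r₃ ≤ ‖gg π r ψ y₁ p‖
    rw [h1]; exact hy₁
  · by_contra h2
    exact hp' _ (mem_closedBall_zero_iff.2 (not_le.1 h2).le) h1

/-- a cutoff function that is one on all the balls and vanishes near the complement of `O` -/
theorem exists_cut [FiniteDimensional ℝ V] (hA : Amb O π M om h) (hB : BallFam M om r ψ) :
    ∃ χ : V → ℝ, ContDiff ℝ ∞ χ ∧ (∀ x, x ∉ O → ∀ᶠ x' in 𝓝 x, χ x' = 0) ∧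
      ∀ τ, ∀ y ∈ closedBall (0 : E6) r, χ (ψ (τ, y)) = 1 := by
  have hK : IsCompact (ψ '' (Icc (0 : ℝ) 1 ×ˢ closedBall (0 : E6) r)) :=
    (isCompact_Icc.prod (isCompact_closedBall _ _)).image_of_continuousOn
      (hB.sm.continuousOn.mono (prod_mono (subset_univ _) subset_rfl))
  have hd : Disjoint Oᶜ (ψ '' (Icc (0 : ℝ) 1 ×ˢ closedBall (0 : E6) r)) := by
    rw [disjoint_compl_left_iff_subset]
    rintro _ ⟨q, hq, rfl⟩
    exact hA.sub (hB.mem q.1 q.2 hq.2)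
  obtain ⟨f, h0, h1, -⟩ := exists_contMDiffMap_zero_one_nhds_of_isClosed (n := ⊤)
    (modelWithCornersSelf ℝ V) hA.op.isClosed_compl hK.isClosed hd
  refine ⟨f, f.contMDiff.contDiff, fun x hx => h0.filter_mono (nhds_le_nhdsSet hx), ?_⟩
  intro τ y hy
  obtain ⟨τ', hτ, he⟩ := hB.clamp τ
  rw [he y hy]
  exact h1.self_of_nhdsSet _ ⟨(τ', y), ⟨hτ, hy⟩, rfl⟩

end Fam

end TamefamP

open TamefamP in
theorem tamefam : TamefamStmt := by
  intro V _ _ _ O M π om h J₀ r r₁ ψ hA hJ hW hT hB hr₁ hr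
  let t : ContDiffBump (0 : E6) := ⟨r₁, (r₁ + r) / 2, hr₁, by linarith⟩
  have ht0 : ∀ y, (r₁ + r) / 2 ≤ ‖y‖ → t y = 0 := fun y hy =>
    t.zero_of_le_dist (by rw [dist_zero_right]; exact hy)
  have hr₃ : (r₁ + r) / 2 < r := by linarith
  let y₁ : E6 := EuclideanSpace.single 0 r
  have hy₁ : (r₁ + r) / 2 ≤ ‖y₁‖ := by
    have : ‖y₁‖ = r := by
      simp only [y₁, PiLp.norm_single, Real.norm_eq_abs]
      exact abs_of_pos (by linarith)
    rw [this]; exact hr₃.le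
  obtain ⟨χ, hχ, hχ0, hχ1⟩ := exists_cut hA hB
  let Ψ : ℝ × V → En0 V := fun p => χ p.2 • PH om J₀ ψ t (p.1, gg π r ψ y₁ p)
  have hfix : ∀ τ, ∀ y ∈ ball (0 : E6) r, ψ (τ, y) = π (ψ (τ, y)) := fun τ y hy =>
    (hA.fix _ (hB.mem τ y (ball_subset_closedBall hy))).symm
  have hΨ0 : ∀ p₀ : ℝ × V, (∀ y ∈ ball (0 : E6) r, ψ (p₀.1, y) ≠ π p₀.2) →
      ∀ᶠ p in 𝓝 p₀, Ψ p = 0 := fun p₀ hp =>
    (PH_gg_zero (J₀ := J₀) hA hB hr₃ ht0 hy₁ hp).mono fun p hp => by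
      simp only [Ψ, hp, smul_zero]
  have hΨ : ContDiff ℝ ∞ Ψ := by
    rw [contDiff_iff_contDiffAt]
    intro p₀
    by_cases hO : p₀.2 ∈ O
    · by_cases hp : ∃ y ∈ ball (0 : E6) r, ψ (p₀.1, y) = π p₀.2
      · obtain ⟨y, hy, he⟩ := hp
        have hq : (p₀.1, gg π r ψ y₁ p₀).2 ∈ ball (0 : E6) r := by
          rw [gg_eq hB y₁ hy he]; exact hy
        exact (hχ.contDiffAt.comp p₀ contDiffAt_snd).smul
          (ContDiffAt.comp (f := fun p : ℝ × V => (p.1, gg π r ψ y₁ p)) p₀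
            (sm_PH hA hB hJ hW hT t.contDiff (fun _ => t.nonneg) hq)
            (contDiffAt_fst.prodMk (sm_gg hA hB y₁ hO hy he)))
      · exact contDiffAt_const.congr_of_eventuallyEq
          (hΨ0 p₀ fun y hy he => hp ⟨y, hy, he⟩)
    · refine (contDiffAt_const (c := (0 : En0 V))).congr_of_eventuallyEq ?_
      filter_upwards [continuous_snd.continuousAt.eventually (hχ0 _ hO)] with p hp
      simp only [Ψ, hp, zero_smul]
  have hout : ∀ τ, ∀ x ∈ M, (∀ y ∈ ball (0 : E6) r, ψ (τ, y) ≠ x) →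
      ∀ᶠ x' in 𝓝 x, J₀ x' + Ψ (τ, x') = J₀ x' := by
    intro τ x hx hn
    have h1 := hΨ0 (τ, x) fun y hy => by rw [hA.fix x hx]; exact hn y hy
    have h2 : Tendsto (fun x' : V => (τ, x')) (𝓝 x) (𝓝 (τ, x)) :=
      (Continuous.prodMk_right τ).continuousAt.tendsto
    exact (h2.eventually h1).mono fun x' hx' => by rw [hx', add_zero]
  have hkey : ∀ τ, ∀ y ∈ ball (0 : E6) r, ∀ a,
      (J₀ (ψ (τ, y)) + Ψ (τ, ψ (τ, y))) (AA ψ (τ, y) a) =
        AA ψ (τ, y) (KT (KK om J₀ ψ (τ, y)) (t y) a) := by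
    intro τ y hy a
    have h1 : gg π r ψ y₁ (τ, ψ (τ, y)) = y := gg_eq hB y₁ hy (hfix τ y hy)
    have h2 : Ψ (τ, ψ (τ, y)) = PH om J₀ ψ t (τ, y) := by
      simp only [Ψ, h1, hχ1 τ y (ball_subset_closedBall hy), one_smul]
    rw [h2, add_apply]
    exact PH_AA hA hB hW t (q := (τ, y)) hy a
  have hsq : ∀ τ, ∀ y ∈ ball (0 : E6) r, ∀ a, KK om J₀ ψ (τ, y) (KK om J₀ ψ (τ, y) a) = -a :=
    fun τ y hy => KK_sq hA hB hW (q := (τ, y)) hy
  have hpos : ∀ τ, ∀ y ∈ ball (0 : E6) r, ∀ a, a ≠ 0 → 0 < om0 a (KK om J₀ ψ (τ, y) a) :=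
    fun τ y hy => KK_pos hA hB hW hT (q := (τ, y)) hy
  have hU : ∀ τ, ∀ y ∈ ball (0 : E6) r, IsUnit (TT (KK om J₀ ψ (τ, y)) (t y)) :=
    fun τ y hy => TT_unit (hsq τ y hy) (hpos τ y hy) t.nonneg
  clear_value Ψ
  refine ⟨fun τ x => J₀ x + Ψ (τ, x), ?_, ?_, ?_, hout, ?_, ?_, ?_⟩
  · have h3 : ContDiff ℝ ∞ fun q : ℝ × V => J₀ q.2 + Ψ q := (hJ.comp contDiff_snd).add hΨ
    exact h3.of_le (by norm_cast)
  · intro τ x hx v hv
    by_cases hp : ∃ y ∈ ball (0 : E6) r, ψ (τ, y) = x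
    · obtain ⟨y, hy, rfl⟩ := hp
      obtain ⟨a, rfl⟩ := AA_surj hA hB (q := (τ, y)) hy hv
      refine ⟨?_, ?_⟩
      · rw [hkey τ y hy]; exact AA_mem hB (q := (τ, y)) hy _
      · rw [hkey τ y hy, hkey τ y hy, KT_sq (hsq τ y hy) (hU τ y hy), map_neg]
    · have := (hout τ x hx fun y hy he => hp ⟨y, hy, he⟩).self_of_nhds
      simp only [this]
      exact hW x hx v hv
  · intro τ x hx v hv hv0
    by_cases hp : ∃ y ∈ ball (0 : E6) r, ψ (τ, y) = x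
    · obtain ⟨y, hy, rfl⟩ := hp
      obtain ⟨a, rfl⟩ := AA_surj hA hB (q := (τ, y)) hy hv
      rw [hkey τ y hy, AA_pull hB (q := (τ, y)) hy]
      refine KT_pos (hsq τ y hy) (hpos τ y hy) t.nonneg ?_
      rintro rfl
      exact hv0 (map_zero _)
    · have := (hout τ x hx fun y hy he => hp ⟨y, hy, he⟩).self_of_nhds
      simp only [this]
      exact hT x hx v hv hv0
  · intro τ y hy a
    have hy' : y ∈ ball (0 : E6) r := closedBall_subset_ball hr hy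
    have h1 : t y = 1 := t.one_of_mem_closedBall hy
    have h2 := hU τ y hy'
    have h3 := hkey τ y hy' a
    rw [h1] at h2 h3
    rw [KT_one (hsq τ y hy') h2, AA_apply, AA_apply] at h3
    exact h3
  · intro τ y hy η h1 h2 v hv
    obtain ⟨a, rfl⟩ := AA_surj hA hB (q := (τ, y)) hy hv
    rw [hkey τ y hy]
    refine KT_common (η := η.comp (AA ψ (τ, y))) (hsq τ y hy) (hU τ y hy) (fun b => ?_) h2 a
    rw [ContinuousLinearMap.comp_apply, ContinuousLinearMap.comp_apply,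
      AA_KK hA hB hW (q := (τ, y)) hy]
    exact h1 _ (AA_mem hB (q := (τ, y)) hy b)
  · intro τ
    refine ⟨fun x => gg π r ψ y₁ (τ, x), fun y hy => ⟨?_, gg_eq hB y₁ hy (hfix τ y hy), ?_⟩⟩
    · have hO : ψ (τ, y) ∈ O := hA.sub (hB.mem τ y (ball_subset_closedBall hy))
      exact ((sm_gg hA hB y₁ (p₀ := (τ, ψ (τ, y))) hO hy (hfix τ y hy)).comp (ψ (τ, y))
        (contDiffAt_const.prodMk contDiffAt_id)).of_le (by norm_cast)
    · have hO : ψ (τ, y) ∈ O := hA.sub (hB.mem τ y (ball_subset_closedBall hy))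
      obtain ⟨γ, -, hev⟩ := loc_inv hA hB (p₀ := (τ, ψ (τ, y))) hO hy (hfix τ y hy)
      have h2 : Tendsto (fun x' : V => (τ, x')) (𝓝 (ψ (τ, y))) (𝓝 (τ, ψ (τ, y))) :=
        (Continuous.prodMk_right τ).continuousAt.tendsto
      filter_upwards [h2.eventually hev] with x hx hxM
      exact ⟨_, hx.2.1, hx.2.2.trans (hA.fix x hxM)⟩

end

end Pool.Agent.MP_9758ca_gt

end
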