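import Pool.Agent.MP_9758ca_gt.SpecA

/-!
PROJECT BALL, module EQ: the perturbed Cauchy-Riemann equation in a chart, as a `C¹` map of Banach
spaces, and its derivative at a holomorphic sphere.
-/

open scoped Topology ContDiff ComplexConjugate
open Set Metric Filter Complex

namespace Pool.Agent.MP_9758ca_gt

noncomputable section

namespace EqP

variable {V A : Type} [NormedAddCommGroup V] [NormedSpace ℝ V] [NormedAddCommGroup A]
  [NormedSpace ℝ A]

/-- the space of jets -/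
abbrev EE (A V : Type) [NormedAddCommGroup V] [NormedSpace ℝ V] : Type :=
  (A × V) × (C2 →L[ℝ] V) × (V × V) × (V →L[ℝ] C3) × C2

/-- the equation, with values in `V` -/
def eta (π : V → V) (JJ : A × V → En0 V) (z : EE A V) : V :=
  z.2.1 z.2.2.2.2 + JJ z.1 (z.2.1 (I • z.2.2.2.2)) -
    fderiv ℝ π z.1.2 (z.2.2.1.1 + JJ z.1 z.2.2.1.2)

/-- the complex linear part of the coframe -/
def rr (JJ : A × V → En0 V) (a : A × V) (ff : V →L[ℝ] C3) (y : V) : C3 :=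
  (2⁻¹ : ℝ) • (ff y - I • ff (JJ a y))

/-- the equation, read in the coframe -/
def Phi (π : V → V) (JJ : A × V → En0 V) (z : EE A V) : C3 := rr JJ z.1 z.2.2.2.1 (eta π JJ z)

theorem contDiff_eta {π : V → V} {JJ : A × V → En0 V} (hP : ContDiff ℝ 2 (fderiv ℝ π))
    (hJ : ContDiff ℝ 2 JJ) : ContDiff ℝ 2 (eta π JJ) := by
  have a : ContDiff ℝ 2 fun z : EE A V => JJ z.1 := hJ.comp contDiff_fst
  have d : ContDiff ℝ 2 fun z : EE A V => z.2.1 := by fun_prop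
  have h : ContDiff ℝ 2 fun z : EE A V => z.2.2.2.2 := by fun_prop
  exact ((d.clm_apply h).add (a.clm_apply (d.clm_apply (h.const_smul I)))).sub
    ((hP.comp (by fun_prop)).clm_apply (ContDiff.add (by fun_prop) (a.clm_apply (by fun_prop))))

theorem contDiff_Phi {π : V → V} {JJ : A × V → En0 V} (hP : ContDiff ℝ 2 (fderiv ℝ π))
    (hJ : ContDiff ℝ 2 JJ) : ContDiff ℝ 2 (Phi π JJ) := by
  have a : ContDiff ℝ 2 fun z : EE A V => JJ z.1 := hJ.comp contDiff_fst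
  have f : ContDiff ℝ 2 fun z : EE A V => z.2.2.2.1 := by fun_prop
  have e := contDiff_eta hP hJ
  exact ((f.clm_apply e).sub ((f.clm_apply (a.clm_apply e)).const_smul I)).const_smul _

omit [NormedAddCommGroup A] [NormedSpace ℝ A] in
theorem rr_base {JJ : A × V → En0 V} {a : A × V} {ff : V →L[ℝ] C3}
    (hf : ∀ y, ff (JJ a y) = I • ff y) (y : V) : rr JJ a ff y = ff y := by
  rw [rr, hf, smul_smul, I_mul_I, neg_one_smul, sub_neg_eq_add, ← two_smul ℝ, smul_smul]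
  norm_num

theorem fderiv_Phi {X : Type} [NormedAddCommGroup X] [NormedSpace ℝ X] {π : V → V}
    {JJ : A × V → En0 V} (hP : ContDiff ℝ 2 (fderiv ℝ π)) (hJ : ContDiff ℝ 2 JJ)
    {a : X → A × V} {D : X → C2 →L[ℝ] V} {n : X → V × V} {a' : X →L[ℝ] A × V}
    {D' : X →L[ℝ] C2 →L[ℝ] V} {n' : X →L[ℝ] V × V} {x₀ : X} (ha : HasFDerivAt a a' x₀)
    (hD : HasFDerivAt D D' x₀) (hn : HasFDerivAt n n' x₀) (hn0 : n x₀ = 0) {ff : V →L[ℝ] C3}
    {hh : C2} (h0 : D x₀ hh + JJ (a x₀) (D x₀ (I • hh)) = 0)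
    (hf : ∀ y, ff (JJ (a x₀) y) = I • ff y) (hfP : ∀ y, ff (fderiv ℝ π (a x₀).2 y) = ff y)
    (w : X) : fderiv ℝ (fun x => Phi π JJ (a x, D x, n x, ff, hh)) x₀ w =
      ff (D' w hh + JJ (a x₀) (D' w (I • hh)) + fderiv ℝ JJ (a x₀) (a' w) (D x₀ (I • hh))) -
        ff ((n' w).1 + JJ (a x₀) (n' w).2) := by
  have j := (hJ.differentiable (by norm_num) (a x₀)).hasFDerivAt.comp x₀ ha
  have p := (hP.differentiable (by norm_num) (a x₀).2).hasFDerivAt.comp x₀ ha.snd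
  have e := ((hD.clm_apply (hasFDerivAt_const hh x₀)).add
    (j.clm_apply (hD.clm_apply (hasFDerivAt_const (I • hh) x₀)))).sub
    (p.clm_apply (hn.fst.add (j.clm_apply hn.snd)))
  have e0 : eta π JJ (a x₀, D x₀, n x₀, ff, hh) = 0 := by simp [eta, hn0, h0]
  obtain ⟨η', e1, e2⟩ : ∃ η' : X →L[ℝ] V,
      HasFDerivAt (fun x => eta π JJ (a x, D x, n x, ff, hh)) η' x₀ ∧ η' w =
      D' w hh + JJ (a x₀) (D' w (I • hh)) + fderiv ℝ JJ (a x₀) (a' w) (D x₀ (I • hh)) -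
        fderiv ℝ π (a x₀).2 ((n' w).1 + JJ (a x₀) (n' w).2) :=
    ⟨_, e, by simp [hn0, add_assoc]⟩
  have g := ((ff.hasFDerivAt.comp x₀ e1).sub
    ((ff.hasFDerivAt.comp x₀ (j.clm_apply e1)).const_smul I)).const_smul (2⁻¹ : ℝ)
  have g1 : fderiv ℝ (fun x => Phi π JJ (a x, D x, n x, ff, hh)) x₀ = _ := g.fderiv
  have g2 : fderiv ℝ (fun x => Phi π JJ (a x, D x, n x, ff, hh)) x₀ w =
      rr JJ (a x₀) ff (η' w) := by
    rw [g1]
    simp [rr, e0]
  rw [g2, rr_base hf, e2, map_sub, hfP]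

omit [NormedAddCommGroup A] [NormedSpace ℝ A] in
theorem eta_rot {π : V → V} {JJ : A × V → En0 V} {a : A × V} {D D' : C2 →L[ℝ] V} {n : V × V}
    {ff ff' : V →L[ℝ] C3} {hh hh' : C2} {c : ℂ} (hc : c ≠ 0) (h1 : ∀ y, JJ a (JJ a y) = -y)
    (h2 : ∀ y, fderiv ℝ π a.2 (JJ a y) = JJ a (fderiv ℝ π a.2 y))
    (h3 : ∀ w, D' (c • w) = D w) (h4 : hh' = conj c • hh) :
    eta π JJ (a, D', repQ V c n, ff', hh') = (c / conj c).re • eta π JJ (a, D, n, ff, hh) +
      (c / conj c).im • JJ a (eta π JJ (a, D, n, ff, hh)) := by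
  have k : conj c = c * conj (c / conj c) := by
    rw [map_div₀, conj_conj]; field_simp
  replace h4 : hh' = (c * conj (c / conj c)) • hh := by rw [← k, h4]
  have k1 : D' hh' = (c / conj c).re • D hh - (c / conj c).im • D (I • hh) := by
    rw [h4, mul_smul, h3, Bs.smul_re_im, conj_re, conj_im, map_add, D.map_smul, D.map_smul,
      neg_smul, sub_eq_add_neg]
  have k2 : D' (I • hh') = (c / conj c).re • D (I • hh) + (c / conj c).im • D hh := by
    rw [h4, mul_smul, smul_comm I c, h3, smul_comm I, Bs.smul_re_im, conj_re, conj_im, map_add,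
      D.map_smul, D.map_smul, smul_smul I I, I_mul_I, neg_one_smul, map_neg, smul_neg, neg_smul,
      neg_neg]
  simp only [eta, k1, k2, repQ_apply, map_add, map_sub, map_smul, h1, h2]
  module

omit [NormedAddCommGroup A] [NormedSpace ℝ A] in
theorem rr_rot {JJ : A × V → En0 V} {a : A × V} {ff ff' : V →L[ℝ] C3} {k : Fin 3 → ℤ} {c : ℂ}
    (h1 : ∀ y, JJ a (JJ a y) = -y) (h2 : ∀ y, ff' y = rep k c (ff y)) (y : V) :
    rr JJ a ff' ((c / conj c).re • y + (c / conj c).im • JJ a y) = repY k c (rr JJ a ff y) := by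
  funext i
  simp only [rr, map_add, map_smul, h1, map_neg, h2, repY_apply, Pi.smul_apply, Pi.sub_apply,
    Pi.add_apply, Pi.neg_apply, rep_apply, smul_eq_mul, real_smul]
  generalize c / conj c = l
  conv_rhs => rw [← re_add_im l]
  linear_combination (2⁻¹ : ℝ) * c ^ k i * l.im * ff (JJ a y) i * I_mul_I

/-- the jet of a triple at the point `v` -/
def jet (f : C2 → V →L[ℝ] C3) (p : A) (b : BB V) (n : QQ V) (v : C2) : EE A V :=
  ((p, fX b v), fderiv ℝ (fX b) v, fY n v, f v, hor v)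

theorem hom_Phi {π : V → V} {JJ : A × V → En0 V} {M : Set V} {f : C2 → V →L[ℝ] C3}
    {k : Fin 3 → ℤ} (hS : ∀ p, SJ π M fun x => JJ (p, x))
    (hf : ∀ c : ℂ, c ≠ 0 → ∀ v, v ≠ 0 → ∀ x, f (c • v) x = rep k c (f v x)) (p : A) {b : BB V}
    (hb : ∀ v, v ≠ 0 → fX b v ∈ M) (n : QQ V) :
    Hom (repY k) fun v => Phi π JJ (jet f p b n v) := by
  intro c hc v hv
  have i : Inv (fX b) := inv_iff_hom.2 (fX_hom b)
  have s := hS p _ (hb v hv)
  simp only [Phi, jet, i c hc v hv, fY_hom n c hc v hv]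
  rw [eta_rot (ff := f v) (hh := hor v) (D := fderiv ℝ (fX b) v) hc (fun y => (s y).1)
    (fun y => (s y).2) (i.fderiv_smul hc hv (fX_differentiableAt b hv)) (hor_smul c v)]
  exact rr_rot (fun y => (s y).1) (hf c hc v hv) _

theorem exists_jet {f : C2 → V →L[ℝ] C3} (hf : ContDiffOn ℝ 2 f nz) :
    ∃ G : A × BB V × QQ V → Hol S3 (EE A V), ContDiff ℝ 1 G ∧
      ∀ q (v : S3), hv (G q) v = jet f q.1 q.2.1 q.2.2 v := by
  obtain ⟨c, hc⟩ := exists_hol_of_locH (g := fun v : C2 => (f v, hor v))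
    (locH_of_contDiffAt fun v hv => ((hf.contDiffAt (nz_mem_nhds hv)).of_le (by norm_num)).prodMk
      (contDiff_hor.of_le (by simp)).contDiffAt)
  obtain ⟨L0, h0⟩ := exists_constL (S := S3) (E := A)
  obtain ⟨L1, h1⟩ := exists_prodL (S := S3) (E := A) (F := V)
  obtain ⟨L2, h2⟩ := exists_prodL (S := S3) (E := V × V) (F := (V →L[ℝ] C3) × C2)
  obtain ⟨L3, h3⟩ := exists_prodL (S := S3) (E := C2 →L[ℝ] V) (F := (V × V) × (V →L[ℝ] C3) × C2)
  obtain ⟨L4, h4⟩ := exists_prodL (S := S3) (E := A × V)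
    (F := (C2 →L[ℝ] V) × (V × V) × (V →L[ℝ] C3) × C2)
  have b : ContDiff ℝ 1 fun q : A × BB V × QQ V => q.2.1.1 :=
    (X1 (triv V)).subtypeL.contDiff.comp contDiff_snd.fst
  have n : ContDiff ℝ 1 fun q : A × BB V × QQ V => q.2.2.1 :=
    (Y0 (repQ V)).subtypeL.contDiff.comp contDiff_snd.snd
  refine ⟨fun q => L4 (L1 (L0 q.1, q.2.1.1.1), L3 (q.2.1.1.2, L2 (q.2.2.1, c))),
    L4.contDiff.comp ((L1.contDiff.comp ((L0.contDiff.comp contDiff_fst).prodMk b.fst)).prodMk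
      (L3.contDiff.comp (b.snd.prodMk (L2.contDiff.comp (n.prodMk contDiff_const))))),
    fun q v => ?_⟩
  simp only [h4, h3, h2, h1, h0, hc, jet, fX_val, fX_fderiv, fY_val]

theorem exists_evalD {v : C2} (hv : v ≠ 0) :
    ∃ L : BB V →L[ℝ] C2 →L[ℝ] V, ∀ b, L b = fderiv ℝ (fX b) v := by
  obtain ⟨L, hL⟩ := exists_evalL (S := S3) (E := C2 →L[ℝ] V) (nrm v)
  refine ⟨‖v‖⁻¹ • L.comp ((ContinuousLinearMap.snd ℝ _ _).comp (X1 (triv V)).subtypeL),
    fun b => ?_⟩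
  rw [(fX_hasFDerivAt' b hv).fderiv, ← hL]
  rfl

theorem continuous_hv2 {S E : Type} [MetricSpace S] [NormedAddCommGroup E] [NormedSpace ℝ E] :
    Continuous fun z : Hol S E × S => hv z.1 z.2 := by
  refine continuous_prod_of_continuous_lipschitzWith _ 1 (fun g => continuous_hv g) fun x => ?_
  refine LipschitzWith.of_dist_le_mul fun g g' => ?_
  rw [dist_eq_norm, dist_eq_norm, ← hv_sub, NNReal.coe_one, one_mul]
  exact norm_hv_le _ _

/-- the test map for injectivity -/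
def tt (π : V → V) (JJ : A × V → En0 V) (z : EE A V) : V →L[ℝ] C3 × V :=
  (z.2.2.2.1 - I • z.2.2.2.1.comp (JJ z.1)).prod
    (ContinuousLinearMap.id ℝ V - fderiv ℝ π z.1.2)

omit [NormedSpace ℝ A] in
theorem continuous_tt {π : V → V} {JJ : A × V → En0 V} (hP : Continuous (fderiv ℝ π))
    (hJ : Continuous JJ) : Continuous (tt π JJ) := by
  have f : Continuous fun z : EE A V => z.2.2.2.1 := by fun_prop
  exact (ContinuousLinearMap.prodₗᵢ ℝ).continuous.comp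
    ((f.sub ((f.clm_comp (hJ.comp continuous_fst)).const_smul I)).prodMk
      (continuous_const.sub (hP.comp continuous_fst.snd)))

theorem fderiv_snd {JJ : A × V → En0 V} (hJ : ContDiff ℝ 2 JJ) (p₀ p : A) (x ξ : V) :
    fderiv ℝ JJ (p₀, x) (p, ξ) =
      fderiv ℝ JJ (p₀, x) (p, 0) + fderiv ℝ (fun y => JJ (p₀, y)) x ξ := by
  have h := (hJ.differentiable (by norm_num) (p₀, x)).hasFDerivAt.comp x
    (hasFDerivAt_prodMk_right p₀ x)
  have h' : fderiv ℝ (fun y => JJ (p₀, y)) x = _ := h.fderiv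
  rw [h', ContinuousLinearMap.comp_apply, ← map_add]
  simp

/-- the zero-order term -/
def bb (J : V → En0 V) (U₀ : C2 → V) (e : C2 → C3 →L[ℝ] V) (f : C2 → V →L[ℝ] C3) (v : C2) :
    En0 C3 :=
  (f v).comp (fderiv ℝ e v (hor v) + (J (U₀ v)).comp (fderiv ℝ e v (I • hor v)) +
    ((fderiv ℝ J (U₀ v)).flip (fderiv ℝ U₀ v (I • hor v))).comp (e v))

theorem locH_bb {J : V → En0 V} (hJ : ContDiff ℝ 2 J) {U₀ : C2 → V} (hU : ContDiffOn ℝ 2 U₀ nz)
    {e : C2 → C3 →L[ℝ] V} (he : ContDiffOn ℝ 2 e nz) {f : C2 → V →L[ℝ] C3}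
    (hf : ContDiffOn ℝ 2 f nz) : LocH (bb J U₀ e f) nz := by
  refine locH_of_contDiffAt fun v hv => ContDiffOn.contDiffAt ?_ (nz_mem_nhds hv)
  have h : ContDiffOn ℝ 1 hor nz := (contDiff_hor.of_le (by simp)).contDiffOn
  have u : ContDiffOn ℝ 1 U₀ nz := hU.of_le (by norm_num)
  have de : ContDiffOn ℝ 1 (fderiv ℝ e) nz := he.fderiv_of_isOpen isOpen_nz (by norm_num)
  have du : ContDiffOn ℝ 1 (fderiv ℝ U₀) nz := hU.fderiv_of_isOpen isOpen_nz (by norm_num)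
  have dj : ContDiff ℝ 1 (fderiv ℝ J) := hJ.fderiv_right (by norm_num)
  have fl : ContDiffOn ℝ 1 (fun v => (fderiv ℝ J (U₀ v)).flip) nz :=
    (ContinuousLinearMap.flipₗᵢ ℝ V V V).contDiff.comp_contDiffOn (dj.comp_contDiffOn u)
  exact (hf.of_le (by norm_num)).clm_comp (((de.clm_apply h).add
    (((hJ.of_le (by norm_num)).comp_contDiffOn u).clm_comp (de.clm_apply (h.const_smul I)))).add
    ((fl.clm_apply (du.clm_apply (h.const_smul I))).clm_comp (he.of_le (by norm_num))))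

theorem lin_eq {M : Set V} {J : V → En0 V} {U₀ : C2 → V} {k : Fin 3 → ℤ} {e : C2 → C3 →L[ℝ] V}
    {f : C2 → V →L[ℝ] C3} (hF : Frame M J U₀ k e f) {ζ : C2 → C3} {v : C2} (hv : v ≠ 0)
    (hζ : DifferentiableAt ℝ ζ v) :
    db ζ v + bb J U₀ e f v (ζ v) = f v (Lin J U₀ (fun w => e w (ζ w)) v (hor v)) := by
  have he : DifferentiableAt ℝ e v :=
    (hF.sme.contDiffAt (nz_mem_nhds hv)).differentiableAt (by norm_num)
  have h := (he.hasFDerivAt.clm_apply hζ.hasFDerivAt).fderiv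
  simp only [Lin, h, db, bb, add_apply, ContinuousLinearMap.comp_apply,
    ContinuousLinearMap.flip_apply, map_add, ← hF.eJ v hv, hF.fe v hv]
  abel

end EqP

open EqP in
theorem eq_of (h1 : NemStmt) : EqStmt := by
  intro V _ _ _ O M π om h A _ _ JJ p₀ U₀ k e f Ψ hA hJ3 hS hU hF hfP hΨ hΨ0 hΨ1 hΨM
  have hJ : ContDiff ℝ 2 JJ := hJ3.of_le (by norm_num)
  have hP : ContDiff ℝ 2 (fderiv ℝ π) := hA.smP.of_le two_le_infty
  have hfh : ∀ c : ℂ, c ≠ 0 → ∀ v, v ≠ 0 → ∀ x, f (c • v) x = rep k c (f v x) :=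
    fun c hc v hv x => by
      rw [← hfP _ (smul_ne_zero hc hv), hU.inv c hc v hv,
        hF.hom c hc v hv _ (hA.P_mem' (hU.mem v hv) x), hfP v hv]
  have hfJ : ∀ v, v ≠ 0 → ∀ y, f v (JJ (p₀, U₀ v) y) = I • f v y := fun v hv y => by
    rw [← hfP v hv, (hS p₀ _ (hU.mem v hv) y).2, ← hF.ef v hv _ (hA.P_mem' (hU.mem v hv) y),
      ← hF.eJ v hv, hF.fe v hv, hfP v hv]
  obtain ⟨N, hN, hN1, -⟩ := h1.1 S3 (EE A V) C3 (Phi π JJ) (contDiff_Phi hP hJ)
  obtain ⟨G, hG, hG1⟩ := exists_jet (A := A) hF.smf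
  set q₀ : (A × XX k) × QQ V := ((p₀, 0), 0) with hq₀
  have hZ : ContDiffAt ℝ 1 (fun q : (A × XX k) × QQ V => (q.1.1, Ψ q.1.2, q.2)) q₀ :=
    contDiffAt_fst.fst.prodMk ((ContDiffAt.comp q₀ (g := Ψ) hΨ contDiffAt_fst.snd).prodMk
      contDiffAt_snd)
  have hM : ∀ᶠ q in 𝓝 q₀, ∀ v, v ≠ 0 → fX (Ψ q.1.2) v ∈ M :=
    (continuous_fst.snd.tendsto q₀).eventually hΨM
  have hGZ := hG.contDiffAt.comp q₀ hZ
  have hY : ∀ᶠ q in 𝓝 q₀, N (G (q.1.1, Ψ q.1.2, q.2)) ∈ Y0 (repY k) := hM.mono fun q hq =>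
    mem_Y0 (hom_Phi hS hfh q.1.1 hq q.2) fun v => by rw [hN1, hG1]
  obtain ⟨𝓕, F1, F2, -⟩ := exists_codRestrict (isClosed_Y0 (rep_repY k))
    (hN.contDiffAt.comp q₀ hGZ) hY
  have hval : ∀ᶠ q in 𝓝 q₀, ∀ v, v ≠ 0 →
      fY (𝓕 q) v = Phi π JJ (jet f q.1.1 (Ψ q.1.2) q.2 v) := by
    filter_upwards [hM, hY] with q hq hq' v hv
    refine xt_eq (hom_Phi hS hfh q.1.1 hq q.2) (fun w => ?_) hv
    rw [F2 q hq', Function.comp_apply, Function.comp_apply, hN1, hG1]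
  have hinj : ∀ᶠ q in 𝓝 q₀, ∀ v ∈ (univ : Set S3),
      Function.Injective (tt π JJ (hv (G (q.1.1, Ψ q.1.2, q.2)) v)) := by
    refine isCompact_univ.eventually_forall_of_forall_eventually fun v _ => ?_
    have c : ContinuousAt (fun z : ((A × XX k) × QQ V) × S3 =>
        tt π JJ (hv (G (z.1.1.1, Ψ z.1.1.2, z.1.2)) z.2)) (q₀, v) :=
      (continuous_tt hP.continuous hJ.continuous).continuousAt.comp
        (continuous_hv2.continuousAt.comp
          ((ContinuousAt.comp (x := (q₀, v)) (f := Prod.fst) hGZ.continuousAt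
            continuousAt_fst).prodMk continuousAt_snd))
    refine c.eventually (ContinuousLinearMap.isOpen_injective.mem_nhds ?_)
    have hv := S3_ne v
    simp only [mem_ofPred_eq, hG1]
    rw [injective_iff_map_eq_zero]
    intro y hy
    simp only [tt, jet, hq₀, hΨ0 _ hv, ContinuousLinearMap.prod_apply, Prod.mk_eq_zero,
      sub_apply, smul_apply, ContinuousLinearMap.comp_apply, ContinuousLinearMap.id_apply,
      hfJ _ hv, smul_smul, I_mul_I, neg_one_smul, sub_neg_eq_add, ← two_smul ℝ, smul_eq_zero,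
      OfNat.ofNat_ne_zero, false_or, sub_eq_zero] at hy
    rw [← hF.ef v hv y ((hA.mem_tan_iff (hU.mem v hv) y).2 hy.2.symm), hy.1, map_zero]
  have hder : ∀ p ζ n v, v ≠ 0 → fY (fderiv ℝ 𝓕 q₀ ((p, ζ), n)) v =
      db (fX ζ) v + bb (fun x => JJ (p₀, x)) U₀ e f v (fX ζ v) +
        f v (fderiv ℝ JJ (p₀, U₀ v) (p, 0) (fderiv ℝ U₀ v (I • hor v))) -
        f v ((fY n v).1 + JJ (p₀, U₀ v) (fY n v).2) := by
    intro p ζ n v hv
    obtain ⟨L, hL⟩ := exists_evalY (χ := repY k) v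
    obtain ⟨L1, hL1⟩ := exists_evalX (χ := triv V) v
    obtain ⟨L2, hL2⟩ := exists_evalD (V := V) hv
    obtain ⟨L3, hL3⟩ := exists_evalY (χ := repQ V) v
    have d0 := (L.hasFDerivAt.comp q₀ (F1.differentiableAt one_ne_zero).hasFDerivAt).fderiv
    have d1 : (L ∘ 𝓕) =ᶠ[𝓝 q₀] fun q =>
        Phi π JJ ((q.1.1, L1 (Ψ q.1.2)), L2 (Ψ q.1.2), L3 q.2, f v, hor v) := by
      filter_upwards [hval] with q hq
      rw [Function.comp_apply, hL, hq v hv, hL1, hL2, hL3, jet]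
    have d2 : HasFDerivAt (fun q : (A × XX k) × QQ V => Ψ q.1.2) _ q₀ :=
      HasFDerivAt.comp (g := Ψ) q₀ (hΨ.differentiableAt one_ne_zero).hasFDerivAt
        (hasFDerivAt_fst (𝕜 := ℝ)).snd
    have u0 : L1 (Ψ 0) = U₀ v := by rw [hL1, hΨ0 v hv]
    have u1 : L2 (Ψ 0) = fderiv ℝ U₀ v := by rw [hL2, Bs.fderiv_congr_nz hΨ0 hv]
    have d3 := fderiv_Phi hP hJ ((hasFDerivAt_fst (𝕜 := ℝ) (p := q₀)).fst.prodMk
      (L1.hasFDerivAt.comp q₀ d2)) (L2.hasFDerivAt.comp q₀ d2)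
      (L3.hasFDerivAt.comp q₀ hasFDerivAt_snd) (ff := f v) (hh := hor v) (by simp [hq₀])
      (by
        simp only [hq₀, Function.comp_apply, u0, u1]
        rw [hU.cr v hv, (hS p₀ _ (hU.mem v hv) _).1, add_neg_cancel])
      (by simpa only [hq₀, Function.comp_apply, u0] using hfJ v hv)
      (by simpa only [hq₀, Function.comp_apply, u0] using hfP v hv) ((p, ζ), n)
    rw [← hL, ← ContinuousLinearMap.comp_apply, ← d0, d1.fderiv_eq]
    refine d3.trans ?_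
    rw [lin_eq hF hv (fX_differentiableAt ζ hv)]
    simp only [hq₀, Function.comp_apply, u0, u1, ContinuousLinearMap.comp_apply,
      ContinuousLinearMap.prod_apply, ContinuousLinearMap.coe_fst', ContinuousLinearMap.coe_snd',
      hL1, hL2, hL3, hΨ1 ζ v hv, Bs.fderiv_congr_nz (hΨ1 ζ) hv, Lin]
    rw [fderiv_snd hJ]
    simp only [add_apply, map_add]
    abel
  refine ⟨𝓕, bb (fun x => JJ (p₀, x)) U₀ e f, F1, ?_, ⟨locH_bb (hJ.comp
    (contDiff_const.prodMk contDiff_id)) hU.sm hF.sme hF.smf, fun c hc v hv z => ?_⟩, hder,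
    fun ζ v hv => lin_eq hF hv (fX_differentiableAt ζ hv)⟩
  · filter_upwards [hval, hinj, hM] with q h2 h3 h4
    have k1 : ∀ v : S3, Phi π JJ (jet f q.1.1 (Ψ q.1.2) q.2 v) = 0 ↔
        eta π JJ (jet f q.1.1 (Ψ q.1.2) q.2 v) = 0 := fun v => by
      refine ⟨fun h5 => ?_, fun h5 => by simp [Phi, rr, h5]⟩
      have hv := S3_ne v
      have h6 := h3 v (mem_univ _)
      rw [hG1, injective_iff_map_eq_zero] at h6
      refine h6 _ (Prod.ext ((smul_eq_zero.1 h5).resolve_left (by norm_num)) (sub_eq_zero.2 ?_))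
      have t : ∀ w, fderiv ℝ (fX (Ψ q.1.2)) v w ∈ tan M (fX (Ψ q.1.2) v) :=
        fderiv_mem_tan (fX_differentiableAt _ hv) (mem_of_superset (nz_mem_nhds hv) h4)
      exact ((hA.mem_tan_iff (h4 v hv) _).1 (Submodule.sub_mem _ (Submodule.add_mem _ (t _)
        (hA.wj (hS q.1.1) _ (h4 v hv) _ (t _)).1) (hA.P_mem' (h4 v hv) _))).symm
    refine ⟨fun h5 v => sub_eq_zero.1 ((k1 v).1 ?_), fun h5 => Y_ext fun v => ?_⟩
    · rw [← h2 v (S3_ne v), h5, fY_zero]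
    · rw [h2 v (S3_ne v), fY_zero]
      exact (k1 v).2 (sub_eq_zero.2 (h5 v))
  · obtain ⟨ζ, hζ⟩ := exists_X (xh_of_contDiffOn (χ := rep k) (U := fun w => f w (e v z))
      (fun c hc w hw => hfh c hc w hw _) (hF.smf.clm_apply contDiffOn_const))
    have a := fY_hom (fderiv ℝ 𝓕 q₀ ((0, ζ), 0)) c hc v hv
    have b := ((fX_xh (rep_rep k) ζ).db3).1 c hc v hv
    have z0 : ((0 : A), (0 : V)) = 0 := rfl
    rw [hder 0 ζ 0 _ (smul_ne_zero hc hv), hder 0 ζ 0 v hv, b, fX_hom ζ c hc v hv, hζ v hv,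
      hF.fe v hv] at a
    simpa [z0] using a

end

end Pool.Agent.MP_9758ca_gt
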