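import Mathlib.Analysis.Calculus.DifferentialForm.Basic
import Mathlib.Geometry.Manifold.Instances.Real
import Mathlib.Geometry.Manifold.Sheaf.Basic

/-!
Closed symplectic manifolds and symplectic embeddings of closed balls.
-/

open scoped Manifold ContDiff

namespace Pool.Agent.MP_9758ca_gt

/-- A closed (compact, boundaryless, Hausdorff, connected) smooth manifold of dimension `d`. -/
structure ClosedMfd (d : ℕ) where
  /-- the underlying set of points -/
  carrier : Type
  [top : TopologicalSpace carrier]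
  [atl : ChartedSpace (EuclideanSpace ℝ (Fin d)) carrier]
  [mfd : IsManifold (𝓡 d) ∞ carrier]
  [haus : T2Space carrier]
  [cpt : CompactSpace carrier]
  [conn : ConnectedSpace carrier]

attribute [instance] ClosedMfd.top ClosedMfd.atl ClosedMfd.mfd ClosedMfd.haus ClosedMfd.cpt
  ClosedMfd.conn

/-- Euclidean space of dimension six. -/
abbrev E6 : Type := EuclideanSpace ℝ (Fin 6)

/-- A field of alternating bilinear forms on the tangent spaces. -/
abbrev TwoForm (M : ClosedMfd 6) : Type :=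
  ∀ x : M.carrier, (TangentSpace (𝓡 6) x) [⋀^Fin 2]→L[ℝ] ℝ

/-- The expression of a two-form in the chart at `p` (pull-back by the inverse chart). -/
noncomputable def formInChart {M : ClosedMfd 6} (σ : TwoForm M) (p : M.carrier) (y : E6) :
    E6 [⋀^Fin 2]→L[ℝ] ℝ :=
  (σ ((chartAt E6 p).symm y)).compContinuousLinearMap
    (mfderiv (𝓡 6) (𝓡 6) (chartAt E6 p).symm y)

/-- A symplectic form: smooth and closed in every chart, and nondegenerate. -/
structure IsSymplectic {M : ClosedMfd 6} (σ : TwoForm M) : Prop where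
  smooth : ∀ p, ContDiffOn ℝ ∞ (formInChart σ p) (chartAt E6 p).target
  closed : ∀ p, ∀ y ∈ (chartAt E6 p).target, extDeriv (formInChart σ p) y = 0
  nondeg : ∀ x (v : TangentSpace (𝓡 6) x), (∀ w, σ x ![v, w] = 0) → v = 0

/-- The standard form `∑ dx_j ∧ dy_j` in the coordinates `(x_1, y_1, x_2, y_2, x_3, y_3)`. -/
def om0 (v w : E6) : ℝ :=
  v 0 * w 1 - v 1 * w 0 + (v 2 * w 3 - v 3 * w 2) + (v 4 * w 5 - v 5 * w 4)

/-- `ψ` restricted to the closed ball of radius `r` is a smooth injective map that pulls `σ` back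
to the standard form at every point of the closed ball. -/
structure IsBallEmb {M : ClosedMfd 6} (σ : TwoForm M) (r : ℝ) (ψ : E6 → M.carrier) : Prop where
  smooth : ContMDiffOn (𝓡 6) (𝓡 6) ∞ ψ (Metric.closedBall 0 r)
  inj : Set.InjOn ψ (Metric.closedBall 0 r)
  pull : ∀ y ∈ Metric.closedBall (0 : E6) r, ∀ v w : E6,
    σ (ψ y) ![mfderivWithin (𝓡 6) (𝓡 6) ψ (Metric.closedBall 0 r) y v,
      mfderivWithin (𝓡 6) (𝓡 6) ψ (Metric.closedBall 0 r) y w] = om0 v w

/-- `ψ₀` and `ψ₁` are joined by a smooth family, indexed by `[0,1]`, of symplectic embeddings of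
the closed ball of radius `r`. -/
def Isotopic {M : ClosedMfd 6} (σ : TwoForm M) (r : ℝ) (ψ₀ ψ₁ : E6 → M.carrier) : Prop :=
  ∃ Ψ : ℝ × E6 → M.carrier,
    ContMDiffOn (𝓘(ℝ, ℝ).prod (𝓡 6)) (𝓡 6) ∞ Ψ (Set.Icc 0 1 ×ˢ Metric.closedBall 0 r) ∧
    (∀ t ∈ Set.Icc (0 : ℝ) 1, IsBallEmb σ r fun y => Ψ (t, y)) ∧
    (∀ y ∈ Metric.closedBall (0 : E6) r, Ψ (0, y) = ψ₀ y) ∧
    (∀ y ∈ Metric.closedBall (0 : E6) r, Ψ (1, y) = ψ₁ y)

end Pool.Agent.MP_9758ca_gt
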