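import Mathlib.MeasureTheory.Integral.Bochner.Basic
import Mathlib.MeasureTheory.Measure.Haar.OfBasis
import Mathlib.LinearAlgebra.Complex.FiniteDimensional
import Mathlib.Analysis.CStarAlgebra.Classes
import Mathlib.Analysis.Normed.Lp.lpSpace
import Mathlib.Analysis.Normed.Operator.Compact.Basic
import Pool.Agent.MP_9758ca_gt.Stmt

/-!
PROJECT BALL: definitions for the theory of pseudo-holomorphic spheres in a submanifold `M` of a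
finite-dimensional vector space `V`.  See /team-store/BALL_BLUEPRINT.md.
-/

open scoped Topology ContDiff ComplexConjugate ENNReal
open Set Metric Filter Complex

namespace Pool.Agent.MP_9758ca_gt

noncomputable section

abbrev C2 : Type := ℂ × ℂ
abbrev C3 : Type := Fin 3 → ℂ

/-- nonzero vectors of `ℂ²` -/
def nz : Set C2 := {v | v ≠ 0}

/-- the horizontal vector at `v` -/
def hor (v : C2) : C2 := (-conj v.2, conj v.1)

/-- the marked points `0, 1, ∞` -/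
def mk3 : Fin 3 → C2 := ![(0, 1), (1, 1), (1, 0)]

/-- `v` and `w` define the same point of the projective line -/
def Par (v w : C2) : Prop := ∃ c : ℂ, v = c • w

/-- the complex coordinates of `E6` -/
def cz (y : E6) : C3 := ![⟨y 0, y 1⟩, ⟨y 2, y 3⟩, ⟨y 4, y 5⟩]

/-- the standard complex structure of `E6` -/
def j6 (y : E6) : E6 := !₂[-y 1, y 0, -y 3, y 2, -y 5, y 4]

section Hld
variable {X E : Type} [PseudoMetricSpace X] [NormedAddCommGroup E]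

/-- Hoelder condition with exponent one half -/
def Hld (C : ℝ) (f : X → E) (s : Set X) : Prop :=
  ∀ x ∈ s, ∀ y ∈ s, ‖f x - f y‖ ≤ C * √(dist x y)

/-- locally Hoelder near every point of `s` -/
def LocH (f : X → E) (s : Set X) : Prop := ∀ x ∈ s, ∃ C, ∃ N ∈ 𝓝 x, Hld C f N

end Hld

section Forms

abbrev En0 (V : Type) [NormedAddCommGroup V] [NormedSpace ℝ V] : Type := V →L[ℝ] V
abbrev F1 (V : Type) [NormedAddCommGroup V] [NormedSpace ℝ V] : Type := V → V →L[ℝ] ℝ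
abbrev F2 (V : Type) [NormedAddCommGroup V] [NormedSpace ℝ V] : Type := V → V →L[ℝ] V →L[ℝ] ℝ

variable {V : Type} [NormedAddCommGroup V] [NormedSpace ℝ V]

/-- tangent space of a subset -/
def tan (S : Set V) (x : V) : Submodule ℝ V := Submodule.span ℝ (tangentConeAt ℝ S x)

/-- exterior derivative of a one-form -/
def dd (l : F1 V) (x a b : V) : ℝ := fderiv ℝ l x a b - fderiv ℝ l x b a

/-- pull-back of a one-form -/
def pb {E : Type} [NormedAddCommGroup E] [NormedSpace ℝ E] (g : E → V) (l : F1 V) : F1 E :=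
  fun x => (l (g x)).comp (fderiv ℝ g x)

def Anti (β : F2 V) : Prop := ∀ x a b, β x a b = -β x b a

def ClosedOn (β : F2 V) (O : Set V) : Prop :=
  ∀ x ∈ O, ∀ a b c, fderiv ℝ β x a b c + fderiv ℝ β x b c a + fderiv ℝ β x c a b = 0

/-- density of the pull-back of `β` under `u : ℂ → V` -/
def dens (β : F2 V) (u : ℂ → V) (z : ℂ) : ℝ := β (u z) (fderiv ℝ u z 1) (fderiv ℝ u z I)

/-- energy -/
def En (u : ℂ → V) (A : Set ℂ) : ℝ := ∫ z in A, ‖fderiv ℝ u z‖ ^ 2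

/-- first affine chart -/
def aff {E : Type} (U : C2 → E) (z : ℂ) : E := U (z, 1)

/-- second affine chart -/
def aff' {E : Type} (U : C2 → E) (w : ℂ) : E := U (1, w)

def area (β : F2 V) (U : C2 → V) : ℝ := ∫ z, dens β (aff U) z

def Inv {E : Type} (U : C2 → E) : Prop := ∀ c : ℂ, c ≠ 0 → ∀ v, v ≠ 0 → U (c • v) = U v

def NonC {E : Type} (U : C2 → E) : Prop := ∃ v, v ≠ 0 ∧ ∃ w, w ≠ 0 ∧ U v ≠ U w

def im {E : Type} (U : C2 → E) : Set E := U '' nz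

/-- a `C²` map from the projective line to `S` -/
structure Map2 (S : Set V) (U : C2 → V) : Prop where
  sm : ContDiffOn ℝ 2 U nz
  inv : Inv U
  mem : ∀ v, v ≠ 0 → U v ∈ S

/-- a `J`-holomorphic sphere in `S` -/
structure IsSph (S : Set V) (J : V → En0 V) (U : C2 → V) : Prop extends Map2 S U where
  cr : ∀ v, v ≠ 0 → ∀ w, fderiv ℝ U v (I • w) = J (U v) (fderiv ℝ U v w)

/-- a `J`-holomorphic map on an open set `Ω` -/
structure IsHol (J : V → En0 V) (u : ℂ → V) (Ω : Set ℂ) : Prop where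
  sm : ContDiffOn ℝ 2 u Ω
  cr : ∀ z ∈ Ω, fderiv ℝ u z I = J (u z) (fderiv ℝ u z 1)

/-- injective point -/
def InjPt (U : C2 → V) (v : C2) : Prop :=
  v ≠ 0 ∧ fderiv ℝ U v ≠ 0 ∧ ∀ w, w ≠ 0 → U w = U v → Par w v

/-- injective points are dense -/
def Simple (U : C2 → V) : Prop := nz ⊆ closure {v | InjPt U v}

/-- the linearised Cauchy-Riemann operator -/
def Lin (J : V → En0 V) (U ξ : C2 → V) (v w : C2) : V :=
  fderiv ℝ ξ v w + J (U v) (fderiv ℝ ξ v (I • w)) + fderiv ℝ J (U v) (ξ v) (fderiv ℝ U v (I • w))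

/-! ### the ambient setting -/

/-- `S` is locally a smooth retract -/
def LocRetr (S : Set V) : Prop :=
  ∀ x ∈ S, ∃ (N : Set V) (ρ : V → V), IsOpen N ∧ x ∈ N ∧ ContDiffOn ℝ ∞ ρ N ∧ MapsTo ρ N S ∧
    ∀ y ∈ S ∩ N, ρ y = y

/-- `M` is the image of a retraction `π` of the open set `O`; `om`, `h` are closed on `O` -/
structure Amb (O : Set V) (π : V → V) (M : Set V) (om h : F2 V) : Prop where
  op : IsOpen O
  sm : ContDiff ℝ ∞ π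
  sub : M ⊆ O
  maps : MapsTo π O M
  fix : ∀ x ∈ M, π x = x
  dim : ∀ x ∈ M, Module.finrank ℝ (tan M x) = 6
  smo : ContDiff ℝ ∞ om
  ano : Anti om
  clo : ClosedOn om O
  smh : ContDiff ℝ ∞ h
  anh : Anti h
  clh : ClosedOn h O

/-- almost complex structure on the tangent spaces of `M` -/
def WJ (M : Set V) (J : V → En0 V) : Prop :=
  ∀ x ∈ M, ∀ v ∈ tan M x, J x v ∈ tan M x ∧ J x (J x v) = -v

/-- complex structure on all of `V` along `M`, commuting with the projection -/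
def SJ (π : V → V) (M : Set V) (J : V → En0 V) : Prop :=
  ∀ x ∈ M, ∀ v, J x (J x v) = -v ∧ fderiv ℝ π x (J x v) = J x (fderiv ℝ π x v)

def Tame (M : Set V) (om : F2 V) (J : V → En0 V) : Prop :=
  ∀ x ∈ M, ∀ v ∈ tan M x, v ≠ 0 → 0 < om x v (J x v)

/-- uniform `C²` bounds -/
structure UB (R Λ : ℝ) (K : Set V) (J : V → En0 V) : Prop where
  sm : ContDiff ℝ 2 J
  bd : ∀ x ∈ closedBall (0 : V) R, ‖J x‖ ≤ Λ ∧ ‖fderiv ℝ J x‖ ≤ Λ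
  lip : ∀ x ∈ closedBall (0 : V) R, ∀ y ∈ closedBall (0 : V) R,
    ‖J x - J y‖ ≤ Λ * ‖x - y‖ ∧ ‖fderiv ℝ J x - fderiv ℝ J y‖ ≤ Λ * ‖x - y‖
  sub : K ⊆ closedBall 0 R
  sq : ∀ x ∈ K, ∀ v, J x (J x v) = -v

structure Env0 (O M K : Set V) (om : F2 V) : Prop where
  op : IsOpen O
  cpt : IsCompact K
  subM : K ⊆ M
  subO : K ⊆ O
  sm : ContDiff ℝ 1 om
  an : Anti om
  cl : ClosedOn om O

structure EnvJ (M K : Set V) (om : F2 V) (R Λ c : ℝ) (J : V → En0 V) : Prop where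
  ub : UB R Λ K J
  pos : 0 < c
  tm : ∀ x ∈ K, ∀ v ∈ tan M x, c * ‖v‖ ^ 2 ≤ om x v (J x v)

/-- `Z ∩ M` is cut out near each of its points `x` by the submersion `g x` -/
def Cut {W : Type} [NormedAddCommGroup W] [NormedSpace ℝ W] (M Z : Set V) (g : V → V → W) : Prop :=
  ∀ x ∈ Z, x ∈ M → ContDiffAt ℝ 1 (g x) x ∧ (∀ᶠ y in 𝓝 x, y ∈ M → (y ∈ Z ↔ g x y = 0)) ∧
    ∀ w, ∃ v ∈ tan M x, fderiv ℝ (g x) x v = w

end Forms

/-! ### Cauchy transform and homogeneous functions -/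

section Cx
variable {F : Type} [NormedAddCommGroup F] [NormedSpace ℂ F]

/-- Cauchy transform -/
def Tc (g : ℂ → F) (z : ℂ) : F := ∫ w, ((Real.pi : ℂ) * (z - w))⁻¹ • g w

/-- `∂/∂z̄` -/
def dbar (w : ℂ → F) (z : ℂ) : F := (2⁻¹ : ℂ) • (fderiv ℝ w z 1 + I • fderiv ℝ w z I)

/-- the antilinear part of the derivative in the horizontal direction -/
def db (ζ : C2 → F) (v : C2) : F := fderiv ℝ ζ v (hor v) + I • fderiv ℝ ζ v (I • hor v)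

end Cx

section Hom
variable {E : Type} [NormedAddCommGroup E] [NormedSpace ℝ E]

def Hom (χ : ℂ → En0 E) (F : C2 → E) : Prop := ∀ c : ℂ, c ≠ 0 → ∀ v, v ≠ 0 → F (c • v) = χ c (F v)

def Rep (χ : ℂ → En0 E) : Prop := ContDiffOn ℝ 1 χ {c | c ≠ 0} ∧ χ 1 = ContinuousLinearMap.id ℝ E

/-- homogeneous and locally Hoelder -/
def YH (χ : ℂ → En0 E) (g : C2 → E) : Prop := Hom χ g ∧ LocH g nz

/-- homogeneous with locally Hoelder derivative -/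
def XH (χ : ℂ → En0 E) (ζ : C2 → E) : Prop :=
  Hom χ ζ ∧ (∀ v, v ≠ 0 → DifferentiableAt ℝ ζ v) ∧ LocH (fderiv ℝ ζ) nz

def triv (E : Type) [NormedAddCommGroup E] [NormedSpace ℝ E] : ℂ → En0 E :=
  fun _ => ContinuousLinearMap.id ℝ E

/-- multiplication by a complex number as a real-linear map -/
def mulC (c : ℂ) : En0 ℂ := (ContinuousLinearMap.mul ℝ ℂ) c

def rep1 (k : ℤ) (c : ℂ) : En0 ℂ := mulC (c ^ k)

def repY1 (k : ℤ) (c : ℂ) : En0 ℂ := mulC (c ^ k * (c / conj c))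

def rep (k : Fin 3 → ℤ) (c : ℂ) : En0 C3 :=
  ContinuousLinearMap.pi fun i => (rep1 (k i) c).comp (ContinuousLinearMap.proj i)

def repY (k : Fin 3 → ℤ) (c : ℂ) : En0 C3 :=
  ContinuousLinearMap.pi fun i => (repY1 (k i) c).comp (ContinuousLinearMap.proj i)

/-- rotation of pairs `(n₁, n₂) = n₁ + i n₂` by `c / conj c` -/
def repQ (E : Type) [NormedAddCommGroup E] [NormedSpace ℝ E] (c : ℂ) : En0 (E × E) :=
  ((c / conj c).re • ContinuousLinearMap.fst ℝ E E -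
      (c / conj c).im • ContinuousLinearMap.snd ℝ E E).prod
    ((c / conj c).im • ContinuousLinearMap.fst ℝ E E +
      (c / conj c).re • ContinuousLinearMap.snd ℝ E E)

end Hom

/-! ### Hoelder spaces -/

section Hol

abbrev S3 : Type := sphere (0 : C2) 1

/-- pairs (values, Hoelder quotients) -/
def HolSub (S E : Type) [MetricSpace S] [NormedAddCommGroup E] [NormedSpace ℝ E] :
    Submodule ℝ (lp (fun _ : S ⊕ S × S => E) ∞) where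
  carrier := {p | ∀ x y, √(dist x y) • p (Sum.inr (x, y)) = p (Sum.inl x) - p (Sum.inl y) ∧
    (x = y → p (Sum.inr (x, y)) = 0)}
  add_mem' := by
    intro p q hp hq x y
    refine ⟨?_, fun h => ?_⟩
    · simp only [lp.coeFn_add, Pi.add_apply, smul_add, (hp x y).1, (hq x y).1]; abel
    · simp only [lp.coeFn_add, Pi.add_apply, (hp x y).2 h, (hq x y).2 h, add_zero]
  zero_mem' := by intro x y; simp
  smul_mem' := by
    intro c p hp x y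
    refine ⟨?_, fun h => ?_⟩
    · simp only [lp.coeFn_smul, Pi.smul_apply, smul_comm _ c, (hp x y).1, smul_sub]
    · simp only [lp.coeFn_smul, Pi.smul_apply, (hp x y).2 h, smul_zero]

/-- the Banach space of bounded Hoelder functions `S → E` -/
abbrev Hol (S E : Type) [MetricSpace S] [NormedAddCommGroup E] [NormedSpace ℝ E] : Type :=
  HolSub S E

variable {S E : Type} [MetricSpace S] [NormedAddCommGroup E] [NormedSpace ℝ E]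

/-- value of a Hoelder function -/
def hv (f : Hol S E) (x : S) : E := f.1 (Sum.inl x)

/-- homogeneous extension of a function on the sphere -/
def xt (χ : ℂ → En0 E) (g : S3 → E) (v : C2) : E :=
  haveI := Classical.dec (v = 0)
  if h : v = 0 then 0 else
    χ (‖v‖ : ℂ) (g ⟨‖v‖⁻¹ • v, by
      simp [norm_smul, inv_mul_cancel₀ (norm_ne_zero_iff.2 h)]⟩)

/-- homogeneous Hoelder functions -/
def Y0 (χ : ℂ → En0 E) : Submodule ℝ (Hol S3 E) where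
  carrier := {g | ∃ F, Hom χ F ∧ ∀ v : S3, F v = hv g v}
  add_mem' := by
    rintro p q ⟨F, hF, hp⟩ ⟨G, hG, hq⟩
    refine ⟨F + G, fun c hc v hv => by simp [hF c hc v hv, hG c hc v hv], fun v => ?_⟩
    simp only [Pi.add_apply, hp, hq, hv, Submodule.coe_add, lp.coeFn_add]
  zero_mem' := ⟨0, fun c _ v _ => by simp, fun v => by simp [hv]⟩
  smul_mem' := by
    rintro c p ⟨F, hF, hp⟩
    refine ⟨c • F, fun d hd v hv => by simp [hF d hd v hv], fun v => ?_⟩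
    simp only [Pi.smul_apply, hp, hv, Submodule.coe_smul, lp.coeFn_smul]

/-- homogeneous functions with Hoelder derivative -/
def X1 (χ : ℂ → En0 E) : Submodule ℝ (Hol S3 E × Hol S3 (C2 →L[ℝ] E)) where
  carrier := {p | ∃ F, Hom χ F ∧ ∀ v : S3, F v = hv p.1 v ∧ HasFDerivAt F (hv p.2 v) (v : C2)}
  add_mem' := by
    rintro p q ⟨F, hF, hp⟩ ⟨G, hG, hq⟩
    refine ⟨F + G, fun c hc v hv => by simp [hF c hc v hv, hG c hc v hv], fun v => ⟨?_, ?_⟩⟩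
    · simp only [Pi.add_apply, (hp v).1, (hq v).1, hv, Prod.fst_add, Submodule.coe_add,
        lp.coeFn_add]
    · have := (hp v).2.add (hq v).2
      simpa only [hv, Prod.snd_add, Submodule.coe_add, lp.coeFn_add, Pi.add_apply] using this
  zero_mem' := ⟨0, fun c _ v _ => by simp, fun v => ⟨by simp [hv], by
    have : hv (0 : Hol S3 E × Hol S3 (C2 →L[ℝ] E)).2 v = 0 := by simp [hv]
    rw [this]; exact hasFDerivAt_const (𝕜 := ℝ) (0 : E) (v : C2)⟩⟩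
  smul_mem' := by
    rintro c p ⟨F, hF, hp⟩
    refine ⟨c • F, fun d hd v hv => by simp [hF d hd v hv], fun v => ⟨?_, ?_⟩⟩
    · simp only [Pi.smul_apply, (hp v).1, hv, Prod.smul_fst, Submodule.coe_smul, lp.coeFn_smul]
    · have := (hp v).2.const_smul c
      simpa only [hv, Prod.smul_snd, Submodule.coe_smul, lp.coeFn_smul, Pi.smul_apply] using this

/-- the homogeneous function of an element of `Y0` -/
def fY {χ : ℂ → En0 E} (g : Y0 χ) : C2 → E := xt χ (hv g.1)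

/-- the homogeneous function of an element of `X1` -/
def fX {χ : ℂ → En0 E} (ξ : X1 χ) : C2 → E := xt χ (hv ξ.1.1)

abbrev BB (V : Type) [NormedAddCommGroup V] [NormedSpace ℝ V] : Type := X1 (triv V)
abbrev QQ (V : Type) [NormedAddCommGroup V] [NormedSpace ℝ V] : Type := Y0 (repQ V)
abbrev XX (k : Fin 3 → ℤ) : Type := X1 (rep k)
abbrev YY (k : Fin 3 → ℤ) : Type := Y0 (repY k)

end Hol

/-- Fredholm of index `i`: a compact perturbation of a stabilised isomorphism -/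
def Fred {X Y : Type} [NormedAddCommGroup X] [NormedSpace ℝ X] [NormedAddCommGroup Y]
    [NormedSpace ℝ Y] (D : X →L[ℝ] Y) (i : ℤ) : Prop :=
  ∃ (a b : ℕ) (Φ : (X × (Fin b → ℝ)) ≃L[ℝ] (Y × (Fin a → ℝ))),
    i = (a : ℤ) - b ∧ IsCompactOperator fun x => D x - (Φ (x, 0)).1

section Frames
variable {V : Type} [NormedAddCommGroup V] [NormedSpace ℝ V]

/-- complex frame `e` and coframe `f` of `U^* TM`, homogeneous of degrees `k` -/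
structure Frame (M : Set V) (J : V → En0 V) (U : C2 → V) (k : Fin 3 → ℤ)
    (e : C2 → C3 →L[ℝ] V) (f : C2 → V →L[ℝ] C3) : Prop where
  sme : ContDiffOn ℝ 2 e nz
  smf : ContDiffOn ℝ 2 f nz
  mem : ∀ v, v ≠ 0 → ∀ ζ, e v ζ ∈ tan M (U v)
  fe : ∀ v, v ≠ 0 → ∀ ζ, f v (e v ζ) = ζ
  ef : ∀ v, v ≠ 0 → ∀ x ∈ tan M (U v), e v (f v x) = x
  eJ : ∀ v, v ≠ 0 → ∀ ζ, e v (I • ζ) = J (U v) (e v ζ)
  hom : ∀ c : ℂ, c ≠ 0 → ∀ v, v ≠ 0 → ∀ x ∈ tan M (U v), f (c • v) x = rep k c (f v x)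

def Framed (M : Set V) (J : V → En0 V) (U : C2 → V) (k : Fin 3 → ℤ) : Prop :=
  ∃ e f, Frame M J U k e f

/-- Chern number -/
def Chern (M : Set V) (J : V → En0 V) (U : C2 → V) (c : ℤ) : Prop :=
  ∃ k, Framed M J U k ∧ ∑ i, k i = c

/-! ### Gromov compactness along an ultrafilter -/

/-- holomorphic near the set `L`, with values in `K` -/
def HolNear (J : V → En0 V) (K : Set V) (u : ℂ → V) (L : Set ℂ) : Prop :=
  ∃ N, IsOpen N ∧ L ⊆ N ∧ IsHol J u N ∧ MapsTo u N K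

structure GFam {ι : Type} (M K : Set V) (om : F2 V) (R Λ c : ℝ) (𝓤 : Ultrafilter ι)
    (J : ι → V → En0 V) (J₀ : V → En0 V) : Prop where
  env : ∀ ν, EnvJ M K om R Λ c (J ν)
  env₀ : EnvJ M K om R Λ c J₀
  lim : TendstoUniformlyOn J J₀ 𝓤 K

def GSeq {ι : Type} (K : Set V) (𝓤 : Ultrafilter ι) (J : ι → V → En0 V) (u : ι → ℂ → V)
    (Ω : Set ℂ) (E₀ : ℝ) : Prop :=
  ∀ L, IsCompact L → L ⊆ Ω → ∀ᶠ ν in (𝓤 : Filter ι), HolNear (J ν) K (u ν) L ∧ En (u ν) L ≤ E₀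

def MassLt {ι : Type} (𝓤 : Ultrafilter ι) (u : ι → ℂ → V) (z : ℂ) (m : ℝ) : Prop :=
  ∃ ε₀ > 0, ∀ ε, 0 < ε → ε ≤ ε₀ → ∀ᶠ ν in (𝓤 : Filter ι), En (u ν) (closedBall z ε) < m

/-- `C¹` convergence with `C²` bounds on compact subsets of `Ω` -/
def CConv {ι : Type} (𝓤 : Ultrafilter ι) (u : ι → ℂ → V) (u₀ : ℂ → V) (Ω : Set ℂ) : Prop :=
  ∀ L, IsCompact L → L ⊆ Ω → TendstoUniformlyOn u u₀ 𝓤 L ∧
    TendstoUniformlyOn (fun ν => fderiv ℝ (u ν)) (fderiv ℝ u₀) 𝓤 L ∧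
    ∃ C, ∀ᶠ ν in (𝓤 : Filter ι), ∀ z ∈ L, ‖fderiv ℝ (fderiv ℝ (u ν)) z‖ ≤ C

/-- the bubble tree at `z`, attached at `x` -/
def Tree {ι : Type} (K : Set V) (𝓤 : Ultrafilter ι) (J₀ : V → En0 V) (u : ι → ℂ → V) (z : ℂ)
    (x : V) : Prop :=
  ∃ (k : ℕ) (W : Fin k → C2 → V), (∀ i, IsSph K J₀ (W i) ∧ NonC (W i)) ∧
    IsConnected (⋃ i, im (W i)) ∧ x ∈ (⋃ i, im (W i)) ∧
    (∀ β : F2 V, ContinuousOn β K → Anti β → ∀ η > 0, ∃ ε₀ > 0, ∀ ε, 0 < ε → ε ≤ ε₀ →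
      ∀ᶠ ν in (𝓤 : Filter ι), |(∫ w in closedBall z ε, dens β (u ν) w) - ∑ i, area β (W i)| ≤ η) ∧
    ∀ (ζ : ι → ℂ) (y : V), Tendsto ζ 𝓤 (𝓝 z) → Tendsto (fun ν => u ν (ζ ν)) 𝓤 (𝓝 y) →
      y ∈ ⋃ i, im (W i)

/-- epsilon regularity at the level `hb` -/
def Eps1 (M K : Set V) (om : F2 V) (R Λ c hb : ℝ) : Prop :=
  ∃ C, ∀ J, EnvJ M K om R Λ c J → ∀ (u : ℂ → V) (z : ℂ) (r : ℝ), 0 < r →
    HolNear J K u (closedBall z r) → En u (closedBall z r) ≤ hb →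
    r * ‖fderiv ℝ u z‖ ≤ C * En u (closedBall z r) ^ (6⁻¹ : ℝ)

/-- neck estimate at the level `hb` -/
def Neck1 (M K : Set V) (om : F2 V) (R Λ c hb : ℝ) : Prop :=
  ∃ γ > (0 : ℝ), ∃ C, ∀ J, EnvJ M K om R Λ c J → ∀ (u : ℂ → V) (z : ℂ) (a b : ℝ), 0 < a →
    HolNear J K u (closedBall z b \ ball z a) → En u (closedBall z b \ ball z a) ≤ hb →
    ∀ w, 4 * a ≤ ‖w - z‖ → ‖w - z‖ ≤ b / 4 →
      ‖fderiv ℝ u w‖ * ‖w - z‖ ≤ C * ((a / ‖w - z‖) ^ γ + (‖w - z‖ / b) ^ γ)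

/-! ### the counting problem -/

/-- connected configuration of nonconstant spheres meeting `Z` and passing through `p` -/
structure Conf (M : Set V) (om h : F2 V) (Z : Set V) (a₀ : ℝ) (J : V → En0 V) (p : V) (k : ℕ)
    (U : Fin k → C2 → V) : Prop where
  sph : ∀ i, IsSph M J (U i) ∧ NonC (U i)
  conn : IsConnected (⋃ i, im (U i))
  hitZ : ∃ i v, v ≠ 0 ∧ U i v ∈ Z
  hitp : ∃ i v, v ≠ 0 ∧ U i v = p
  aro : ∑ i, area om (U i) = a₀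
  arh : ∑ i, area h (U i) = 1

/-- solution of the main problem -/
structure MainSol (M : Set V) (om h : F2 V) (Z D : Set V) (a₀ : ℝ) (J : V → En0 V) (p : V)
    (U : C2 → V) : Prop where
  sph : IsSph M J U
  mZ : U (mk3 0) ∈ Z
  mD : U (mk3 1) ∈ D
  mp : U (mk3 2) = p
  aro : area om U = a₀
  arh : area h U = 1

/-- `J'` is a tame perturbation of `J τ` supported in the slice of `𝒜` -/
structure Adm (M : Set V) (om : F2 V) (J : ℝ → V → En0 V) (𝒜 : Set (ℝ × V)) (τ : ℝ)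
    (J' : V → En0 V) : Prop where
  wj : WJ M J'
  tame : Tame M om J'
  eq : ∀ x ∈ M, (τ, x) ∉ 𝒜 → ∀ v ∈ tan M x, J' x v = J τ x v

/-- regularity of the solution `U` for the path direction `t` -/
def Reg (M : Set V) (J : V → En0 V) (U : C2 → V) (gZ : V → V → ℂ × ℝ) (gD : V → V → ℂ) (t : V) :
    Prop :=
  ∀ (ξ : C2 → V) (s : ℝ), ContDiffOn ℝ 1 ξ nz → Inv ξ → (∀ v, v ≠ 0 → ξ v ∈ tan M (U v)) →
    (∀ v, v ≠ 0 → ∀ w, Lin J U ξ v w = 0) →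
    fderiv ℝ (gZ (U (mk3 0))) (U (mk3 0)) (ξ (mk3 0)) = 0 →
    fderiv ℝ (gD (U (mk3 1))) (U (mk3 1)) (ξ (mk3 1)) = 0 →
    ξ (mk3 2) = s • t → (∀ v, v ≠ 0 → ξ v = 0) ∧ s = 0

/-- the hypotheses of the analytic main theorem -/
structure Hyp (M K : Set V) (om h : F2 V) (J : ℝ → V → En0 V) (𝒜 : Set (ℝ × V)) (Z D : Set V)
    (gZ : V → V → ℂ × ℝ) (gD : V → V → ℂ) (γ : ℝ × ℝ → V) (a₀ : ℝ) (Us : C2 → V) (ρs : ℝ) :
    Prop where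
  smJ : ContDiff ℝ 3 fun q : ℝ × V => J q.1 q.2
  tame : ∀ τ ∈ Icc (0 : ℝ) 1, Tame M om (J τ)
  cpt : IsCompact K
  sub : K ⊆ M
  op : IsOpen 𝒜
  inA : ∀ q ∈ 𝒜, q.1 ∈ Ioo (0 : ℝ) 1 ∧ (q.2 ∈ M → q.2 ∈ K)
  clZ : IsClosed Z
  clD : IsClosed D
  cutZ : Cut M Z gZ
  cutD : Cut M D gD
  disj : ∀ x ∈ M, x ∈ Z → x ∉ D
  path : ∀ q ∈ Icc (0 : ℝ) 1 ×ˢ Icc (0 : ℝ) 1,
    ContDiffAt ℝ 1 γ q ∧ (∀ᶠ q' in 𝓝 q, γ q' ∈ M) ∧ γ q ∉ Z ∧ γ q ∉ D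
  conf : ∀ τ ∈ Icc (0 : ℝ) 1, ∀ ρ ∈ Icc (0 : ℝ) 1, ∀ J', Adm M om J 𝒜 τ J' →
    ∀ k U, Conf M om h Z a₀ J' (γ (τ, ρ)) k U →
      (∀ i, im (U i) ⊆ K) ∧ ρ ∈ Ioo (0 : ℝ) 1 ∧ τ ≠ 0 ∧ (τ = 1 → k = 1) ∧
      (τ < 1 → ∀ i, ∃ v, v ≠ 0 ∧ (τ, U i v) ∈ 𝒜)
  uniq : ∀ ρ ∈ Icc (0 : ℝ) 1, ∀ U, MainSol M om h Z D a₀ (J 1) (γ (1, ρ)) U →
    ρ = ρs ∧ ∀ v, v ≠ 0 → U v = Us v
  rho : ρs ∈ Icc (0 : ℝ) 1
  sol : MainSol M om h Z D a₀ (J 1) (γ (1, ρs)) Us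
  chern : Chern M (J 1) Us 2
  reg : Reg M (J 1) Us gZ gD (fderiv ℝ γ (1, ρs) (0, 1))

/-- nodal configuration of total Chern number two -/
def Nodal (M K : Set V) (𝒜 : Set (ℝ × V)) (Z : Set V) (γ : ℝ × ℝ → V) (J : ℝ → V → En0 V) :
    Prop :=
  ∃ τ ∈ Ioo (0 : ℝ) 1, ∃ ρ ∈ Ioo (0 : ℝ) 1, ∃ (k : ℕ) (U : Fin k → C2 → V) (c : Fin k → ℤ),
    2 ≤ k ∧ (∀ i, IsSph K (J τ) (U i) ∧ NonC (U i) ∧ Chern M (J τ) (U i) (c i) ∧
      ∃ v, v ≠ 0 ∧ (τ, U i v) ∈ 𝒜) ∧ ∑ i, c i = 2 ∧ IsConnected (⋃ i, im (U i)) ∧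
    (∃ i v, v ≠ 0 ∧ U i v ∈ Z) ∧ ∃ i v, v ≠ 0 ∧ U i v = γ (τ, ρ)

/-- the compact moduli space -/
def Km (M : Set V) (om h : F2 V) (Z D : Set V) (a₀ : ℝ) (γ : ℝ × ℝ → V) (J : ℝ → V → En0 V) :
    Set (ℝ × ℝ × BB V) :=
  {t | t.1 ∈ Icc (0 : ℝ) 1 ∧ t.2.1 ∈ Icc (0 : ℝ) 1 ∧
    MainSol M om h Z D a₀ (J t.1) (γ (t.1, t.2.1)) (fX t.2.2) ∧ Chern M (J t.1) (fX t.2.2) 2}

/-- a family of perturbations with parameter `a ∈ A`, `‖a‖ < r` -/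
structure Pert {A : Type} [NormedAddCommGroup A] [NormedSpace ℝ A] (π : V → V) (M K : Set V)
    (om : F2 V) (J : ℝ → V → En0 V) (𝒜 : Set (ℝ × V)) (JJ : (A × ℝ) × V → En0 V) (r : ℝ) :
    Prop where
  pos : 0 < r
  sm : ContDiff ℝ 3 JJ
  sj : ∀ p, SJ π M fun x => JJ (p, x)
  out : ∀ a τ x, (τ, x) ∉ 𝒜 → JJ ((a, τ), x) = J τ x
  tame : ∀ a, ‖a‖ < r → ∀ τ ∈ Icc (0 : ℝ) 1, Tame M om fun x => JJ ((a, τ), x)
  dense : ∀ a, ‖a‖ < r → ∀ (τ : ℝ) (G : V → En0 V), Continuous G → HasCompactSupport G →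
    (∀ x ∈ tsupport G, (τ, x) ∈ 𝒜) → ∀ ε > 0, ∃ b : A, ∀ x ∈ K, ∀ v ∈ tan M x,
      ‖fderiv ℝ JJ ((a, τ), x) ((b, 0), 0) v -
        (fderiv ℝ π x (G x (JJ ((a, τ), x) v)) - JJ ((a, τ), x) (fderiv ℝ π x (G x v)))‖ ≤ ε * ‖v‖

/-- the constraint set `𝒞` has codimension at least `d` -/
def Codim {N : ℕ} (M : Set V) (𝒞 : Set ((ℝ × ℝ) × (Fin N → Fin 3 → V))) (d : ℕ) : Prop :=
  ∀ c ∈ 𝒞, ∃ (W : Type) (_ : NormedAddCommGroup W) (_ : NormedSpace ℝ W)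
    (_ : FiniteDimensional ℝ W) (G : (ℝ × ℝ) × (Fin N → Fin 3 → V) → W),
    Module.finrank ℝ W = d ∧ ContDiffAt ℝ 1 G c ∧ (∀ᶠ c' in 𝓝 c, c' ∈ 𝒞 → G c' = 0) ∧
    ∀ w, ∃ (s : ℝ) (x : Fin N → Fin 3 → V), (∀ i j, x i j ∈ tan M (c.2 i j)) ∧
      fderiv ℝ G c ((0, s), x) = w

/-- every sphere has an unmarked injective point in `𝒜` off the other spheres -/
def Good {N : ℕ} (𝒜 : Set (ℝ × V)) (τ : ℝ) (U : Fin N → C2 → V) : Prop :=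
  ∀ i, ∃ v, InjPt (U i) v ∧ (τ, U i v) ∈ 𝒜 ∧ (∀ j, j ≠ i → U i v ∉ im (U j)) ∧
    ∀ m, ¬ Par v (mk3 m)

/-- a stratum for the family `J` -/
def Strat {N : ℕ} (M K : Set V) (𝒜 : Set (ℝ × V)) (𝒞 : Set ((ℝ × ℝ) × (Fin N → Fin 3 → V)))
    (cb : ℤ) (J : ℝ → V → En0 V) : Prop :=
  ∃ (τ ρ : ℝ) (U : Fin N → C2 → V) (c : Fin N → ℤ),
    (∀ i, IsSph K (J τ) (U i) ∧ Chern M (J τ) (U i) (c i)) ∧ ∑ i, c i ≤ cb ∧ Good 𝒜 τ U ∧
    ((τ, ρ), fun i j => U i (mk3 j)) ∈ 𝒞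

end Frames

/-- labels of marked points -/
inductive Lab (N : ℕ) : Type
  | free : Lab N
  | sl : ℕ → Lab N
  | gam : Lab N
  | zed : Lab N
  | eq : Fin N → Fin 3 → Lab N

def Lab.wt {N : ℕ} : Lab N → ℕ
  | .free => 0
  | .sl _ => 2
  | .gam => 6
  | .zed => 3
  | .eq _ _ => 6

def Lab.IsSl {N : ℕ} : Lab N → Prop
  | .sl _ => True
  | _ => False

/-- targets of pointers are not pointers and not slices -/
def LabOk {N : ℕ} (lab : Fin N → Fin 3 → Lab N) : Prop :=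
  ∀ i j i' j', lab i j = .eq i' j' → lab i' j' = .free ∨ lab i' j' = .gam ∨ lab i' j' = .zed

def labWt {N : ℕ} (lab : Fin N → Fin 3 → Lab N) (b : Bool) : ℕ :=
  ∑ i, ∑ j, (lab i j).wt + if b then 1 else 0

section Labels
variable {V : Type} [NormedAddCommGroup V] [NormedSpace ℝ V]

/-- the condition attached to a label at the point `y` -/
def LabCond {N : ℕ} (M Z : Set V) (p : V) (L : ℕ → V →L[ℝ] ℂ) (cs : ℕ → ℂ)
    (x : Fin N → Fin 3 → V) (y : V) : Lab N → Prop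
  | .free => True
  | .sl n => L n y = cs n ∧ ∀ w, ∃ v ∈ tan M y, L n v = w
  | .gam => y = p
  | .zed => y ∈ Z
  | .eq i j => y = x i j

def LabSet {N : ℕ} (M Z : Set V) (γ : ℝ × ℝ → V) (L : ℕ → V →L[ℝ] ℂ) (cs : ℕ → ℂ)
    (lab : Fin N → Fin 3 → Lab N) (b : Bool) : Set ((ℝ × ℝ) × (Fin N → Fin 3 → V)) :=
  {c | c.1 ∈ Ioo (0 : ℝ) 1 ×ˢ Ioo (0 : ℝ) 1 ∧ (b = true → c.1.2 = 2⁻¹) ∧
    ∀ i j, c.2 i j ∈ M ∧ LabCond M Z (γ c.1) L cs c.2 (c.2 i j) (lab i j)}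

/-- slices are available near every immersed point -/
def Slices (L : ℕ → V →L[ℝ] ℂ) (cs : ℕ → ℂ) : Prop :=
  ∀ (u : ℂ → V) (z₀ : ℂ), ContDiffAt ℝ 1 u z₀ → Function.Injective (fderiv ℝ u z₀) →
    ∀ N ∈ 𝓝 z₀, ∃ z ∈ N, ∃ n, L n (u z) = cs n ∧ ∀ w, ∃ a, L n (fderiv ℝ u z a) = w

/-- a typed configuration of simple spheres before the slices are chosen -/
def PreConf (M K : Set V) (𝒜 : Set (ℝ × V)) (Z : Set V) (γ : ℝ × ℝ → V) (J : ℝ → V → En0 V) :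
    Prop :=
  ∃ (N : ℕ) (lab : Fin N → Fin 3 → Lab N) (b : Bool) (τ ρ : ℝ) (U : Fin N → C2 → V)
    (c : Fin N → ℤ) (p : Fin N → Fin 3 → C2),
    LabOk lab ∧ 2 + 6 * (N : ℤ) + 2 * ∑ i, c i < labWt lab b ∧
    τ ∈ Ioo (0 : ℝ) 1 ∧ ρ ∈ Ioo (0 : ℝ) 1 ∧ (b = true → ρ = 2⁻¹) ∧
    (∀ i, IsSph K (J τ) (U i) ∧ NonC (U i) ∧ Simple (U i) ∧ Chern M (J τ) (U i) (c i) ∧
      ∃ v, v ≠ 0 ∧ (τ, U i v) ∈ 𝒜) ∧
    (∀ i j, i ≠ j → im (U i) ≠ im (U j)) ∧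
    (∀ i j, ¬ (lab i j).IsSl → p i j ≠ 0 ∧
      LabCond M Z (γ (τ, ρ)) (fun _ => 0) (fun _ => 0) (fun i j => U i (p i j)) (U i (p i j))
        (lab i j)) ∧
    ∀ i j j', j ≠ j' → ¬ (lab i j).IsSl → ¬ (lab i j').IsSl → ¬ Par (p i j) (p i j')

end Labels

/-! ### abstract finite-dimensional reduction -/

section Model
variable {B Q : Type} [NormedAddCommGroup B] [NormedSpace ℝ B] [NormedAddCommGroup Q]
  [NormedSpace ℝ Q]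

/-- local model of the solution set `Sol` at `(t, 0)`; regular if `τ t = 1` -/
def Model (Sol : Set (B × Q)) (τ : B →L[ℝ] ℝ) (t : B) : Prop :=
  ∃ (X Y : Type) (_ : NormedAddCommGroup X) (_ : NormedSpace ℝ X) (_ : CompleteSpace X)
    (_ : NormedAddCommGroup Y) (_ : NormedSpace ℝ Y) (_ : CompleteSpace Y)
    (Ψ : X → B) (L : B →L[ℝ] X) (𝓕 : X × Q → Y),
    ContDiffAt ℝ 1 Ψ 0 ∧ Ψ 0 = t ∧ (∀ᶠ x in 𝓝 0, L (Ψ x - t) = x) ∧ ContDiffAt ℝ 1 𝓕 0 ∧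
    (∀ᶠ q in 𝓝 ((t, 0) : B × Q),
      q ∈ Sol ↔ (Ψ (L (q.1 - t)) = q.1 ∧ 𝓕 (L (q.1 - t), q.2) = 0)) ∧
    Fred ((fderiv ℝ 𝓕 0).comp (ContinuousLinearMap.inl ℝ X Q)) 1 ∧
    Function.Surjective (fderiv ℝ 𝓕 0) ∧
    (τ t = 1 → ∀ x, fderiv ℝ 𝓕 0 (x, 0) = 0 → τ (fderiv ℝ Ψ 0 x) = 0 → x = 0)

/-- chart of `T` at `t`; `F` is a local diffeomorphism there if `F t = y₁` -/
def TChart {N : ℕ} (T : Set B) (F : B →L[ℝ] (Fin N → ℝ)) (y₁ : Fin N → ℝ) (t : B) : Prop :=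
  ∃ (φ : (Fin N → ℝ) → B) (ℓ : B → Fin N → ℝ) (W : Set (Fin N → ℝ)) (U : Set B),
    IsOpen W ∧ IsOpen U ∧ t ∈ U ∧ ContDiffOn ℝ 1 φ W ∧ ContDiff ℝ 1 ℓ ∧
    (∀ y ∈ W, φ y ∈ T ∩ U ∧ ℓ (φ y) = y) ∧ (∀ b ∈ T ∩ U, ℓ b ∈ W ∧ φ (ℓ b) = b) ∧
    (F t = y₁ → Function.Injective (F.comp (fderiv ℝ φ (ℓ t))))

end Model

/-! ### atlases of coframes and primitives -/

/-- local complex coframes `η`, local primitives `l` (of `om`) and `m` (of `h`) -/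
structure Atl (V : Type) [NormedAddCommGroup V] [NormedSpace ℝ V] where
  ι : Type
  U : ι → Set V
  η : ι → V → V →L[ℝ] C3
  l : ι → F1 V
  m : ι → F1 V

section Atl
variable {V : Type} [NormedAddCommGroup V] [NormedSpace ℝ V]

structure Atl.Pre (A : Atl V) (S : Set V) : Prop where
  op : ∀ i, IsOpen (A.U i)
  cov : ∀ x ∈ S, ∃ i, x ∈ A.U i
  smη : ∀ i, ContDiffOn ℝ ∞ (A.η i) (A.U i)
  sml : ∀ i, ContDiffOn ℝ ∞ (A.l i) (A.U i)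
  smm : ∀ i, ContDiffOn ℝ ∞ (A.m i) (A.U i)
  surj : ∀ i, ∀ x ∈ S, x ∈ A.U i → ∀ w, ∃ v ∈ tan S x, A.η i x v = w
  inj : ∀ i, ∀ x ∈ S, x ∈ A.U i → ∀ v ∈ tan S x, A.η i x v = 0 → v = 0

def Atl.CompatAt (A : Atl V) (S : Set V) (x : V) : Prop :=
  ∀ i j, x ∈ A.U i → x ∈ A.U j → ∀ a ∈ tan S x, ∀ b ∈ tan S x,
    (A.η i x b = I • A.η i x a → A.η j x b = I • A.η j x a) ∧
    dd (A.l i) x a b = dd (A.l j) x a b ∧ dd (A.m i) x a b = dd (A.m j) x a b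

def Atl.Tame (A : Atl V) (S : Set V) : Prop :=
  ∀ i, ∀ x ∈ S, x ∈ A.U i → ∀ a ∈ tan S x, ∀ b ∈ tan S x, A.η i x b = I • A.η i x a → a ≠ 0 →
    0 < dd (A.l i) x a b

/-- `M` is open in `S`, and `om`, `h`, `J` are the structures described by the atlas -/
structure Atl.Real (A : Atl V) (S M : Set V) (om h : F2 V) (J : V → En0 V) : Prop where
  sub : M ⊆ S
  rel : ∀ x ∈ M, ∀ᶠ y in 𝓝 x, y ∈ S → y ∈ M
  form : ∀ i, ∀ x ∈ M, x ∈ A.U i → ∀ a ∈ tan S x, ∀ b ∈ tan S x,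
    om x a b = dd (A.l i) x a b ∧ h x a b = dd (A.m i) x a b
  cx : ∀ i, ∀ x ∈ M, x ∈ A.U i → ∀ a ∈ tan S x,
    J x a ∈ tan S x ∧ A.η i x (J x a) = I • A.η i x a

/-- symplectic embedding of the closed ball into `S` -/
structure Atl.Ball (A : Atl V) (S : Set V) (r : ℝ) (ψ : E6 → V) : Prop where
  sm : ContDiffOn ℝ ∞ ψ (closedBall 0 r)
  mem : MapsTo ψ (closedBall 0 r) S
  inj : InjOn ψ (closedBall 0 r)
  pull : ∀ y ∈ closedBall (0 : E6) r, ∀ i, ψ y ∈ A.U i → ∀ a b,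
    dd (A.l i) (ψ y) (fderivWithin ℝ ψ (closedBall 0 r) y a)
      (fderivWithin ℝ ψ (closedBall 0 r) y b) = om0 a b

/-- smooth family of symplectic embeddings from `ψ₀` to `ψ₁` -/
def Atl.Iso (A : Atl V) (S : Set V) (r : ℝ) (ψ₀ ψ₁ : E6 → V) : Prop :=
  ∃ Ψ : ℝ × E6 → V, ContDiffOn ℝ ∞ Ψ (Icc 0 1 ×ˢ closedBall 0 r) ∧
    (∀ t ∈ Icc (0 : ℝ) 1, A.Ball S r fun y => Ψ (t, y)) ∧
    (∀ y ∈ closedBall (0 : E6) r, Ψ (0, y) = ψ₀ y) ∧ ∀ y ∈ closedBall (0 : E6) r, Ψ (1, y) = ψ₁ y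

/-- a family of symplectic balls in `M` indexed by the whole line -/
structure BallFam (M : Set V) (om : F2 V) (r : ℝ) (ψ : ℝ × E6 → V) : Prop where
  sm : ContDiffOn ℝ ∞ ψ (univ ×ˢ closedBall 0 r)
  mem : ∀ τ, ∀ y ∈ closedBall (0 : E6) r, ψ (τ, y) ∈ M
  inj : ∀ τ, InjOn (fun y => ψ (τ, y)) (closedBall 0 r)
  pull : ∀ τ, ∀ y ∈ ball (0 : E6) r, ∀ a b,
    om (ψ (τ, y)) (fderiv ℝ ψ (τ, y) (0, a)) (fderiv ℝ ψ (τ, y) (0, b)) = om0 a b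
  clamp : ∀ τ, ∃ τ' ∈ Icc (0 : ℝ) 1, ∀ y ∈ closedBall (0 : E6) r, ψ (τ, y) = ψ (τ', y)

/-- the family `J` is `J₀` patched with the standard structure of the balls -/
structure Patch (M : Set V) (om : F2 V) (J₀ : V → En0 V) (r r₁ : ℝ) (ψ : ℝ × E6 → V)
    (J : ℝ → V → En0 V) : Prop where
  sm : ContDiff ℝ 3 fun q : ℝ × V => J q.1 q.2
  wj : ∀ τ, WJ M (J τ)
  tame : ∀ τ, Tame M om (J τ)
  out : ∀ τ, ∀ x ∈ M, (∀ y ∈ ball (0 : E6) r, ψ (τ, y) ≠ x) → ∀ᶠ x' in 𝓝 x, J τ x' = J₀ x'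
  inn : ∀ τ, ∀ y ∈ closedBall (0 : E6) r₁, ∀ a,
    J τ (ψ (τ, y)) (fderiv ℝ ψ (τ, y) (0, a)) = fderiv ℝ ψ (τ, y) (0, j6 a)
  common : ∀ τ, ∀ y ∈ ball (0 : E6) r, ∀ η : V →L[ℝ] ℂ,
    (∀ v ∈ tan M (ψ (τ, y)), η (J₀ (ψ (τ, y)) v) = I * η v) →
    (∀ a, η (fderiv ℝ ψ (τ, y) (0, j6 a)) = I * η (fderiv ℝ ψ (τ, y) (0, a))) →
    ∀ v ∈ tan M (ψ (τ, y)), η (J τ (ψ (τ, y)) v) = I * η v
  inv : ∀ τ, ∃ g : V → E6, ∀ y ∈ ball (0 : E6) r, ContDiffAt ℝ 2 g (ψ (τ, y)) ∧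
    g (ψ (τ, y)) = y ∧ ∀ᶠ x in 𝓝 (ψ (τ, y)), x ∈ M → ∃ y' ∈ ball (0 : E6) r, ψ (τ, y') = x

end Atl

end

end Pool.Agent.MP_9758ca_gt
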