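import Mathlib.LinearAlgebra.FreeModule.PID
import Mathlib.RingTheory.Flat.FaithfullyFlat.Algebra
import Mathlib.Tactic.Monotonicity.Lemmas
import Mathlib.FieldTheory.Perfect
import Mathlib.RingTheory.Flat.TorsionFree
import Mathlib.Algebra.Module.StablyFree.Basic
import Mathlib.Algebra.Order.Star.Real
import Mathlib.Analysis.Calculus.Deriv.Inv
import Mathlib.Analysis.Calculus.InverseFunctionTheorem.ContDiff
import Mathlib.RingTheory.SimpleRing.Principal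
import Mathlib.Order.CompletePartialOrder
import Pool.Agent.MP_9758ca_gt.Defs

/-!
PROJECT BALL, library Tan: tangent spaces, retractions, one-forms.
-/

open scoped Topology ContDiff ComplexConjugate
open Set Metric Filter Complex

namespace Pool.Agent.MP_9758ca_gt

variable {V E : Type} [NormedAddCommGroup V] [NormedSpace ℝ V] [NormedAddCommGroup E]
  [NormedSpace ℝ E]

theorem two_le_infty : (2 : WithTop ℕ∞) ≤ ∞ := by
  exact WithTop.coe_le_coe.2 (le_top : (2 : ℕ∞) ≤ ⊤)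

/-! ### tangent spaces -/

theorem tan_mono {S S' : Set V} {x : V} (h : ∀ᶠ y in 𝓝 x, y ∈ S → y ∈ S') :
    tan S x ≤ tan S' x :=
  Submodule.span_mono (tangentConeAt_mono_nhds
    (nhdsWithin_le_iff.2 (eventually_nhdsWithin_iff.2 h)))

theorem tan_congr {S S' : Set V} {x : V} (h : ∀ᶠ y in 𝓝 x, y ∈ S ↔ y ∈ S') :
    tan S x = tan S' x :=
  le_antisymm (tan_mono (h.mono fun _ hy => hy.1)) (tan_mono (h.mono fun _ hy => hy.2))

theorem tan_univ (x : V) : tan (univ : Set V) x = ⊤ := by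
  simp [tan, tangentConeAt_univ]

theorem tan_map {s : Set E} {S : Set V} {g : E → V} {g' : E →L[ℝ] V} {y : E}
    (hg : HasFDerivWithinAt g g' s y) (h : ∀ᶠ y' in 𝓝 y, y' ∈ s → g y' ∈ S) {w : E}
    (hw : w ∈ tan s y) : g' w ∈ tan S (g y) := by
  have e : tan s y ≤ tan (s ∩ g ⁻¹' S) y := tan_mono (h.mono fun _ hy hs => ⟨hs, hy hs⟩)
  have h1 : tan (s ∩ g ⁻¹' S) y ≤ (tan S (g y)).comap g'.toLinearMap := by
    refine Submodule.span_le.2 fun u hu => ?_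
    have := (hg.mono (inter_subset_left (t := g ⁻¹' S))).mapsTo_tangent_cone hu
    refine Submodule.subset_span (tangentConeAt_mono ?_ this)
    rintro _ ⟨z, hz, rfl⟩
    exact hz.2
  exact h1 (e hw)

theorem fderiv_mem_tan {S : Set V} {g : E → V} {y : E} (hg : DifferentiableAt ℝ g y)
    (h : ∀ᶠ y' in 𝓝 y, g y' ∈ S) (w : E) : fderiv ℝ g y w ∈ tan S (g y) :=
  tan_map (s := univ) hg.hasFDerivAt.hasFDerivWithinAt (h.mono fun _ hy _ => hy)
    (by rw [tan_univ]; trivial)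

theorem fderiv_mem_tan_of_tan {S : Set E} {S' : Set V} {g : E → V} {y : E}
    (hg : DifferentiableAt ℝ g y) (h : ∀ᶠ y' in 𝓝 y, y' ∈ S → g y' ∈ S') {w : E}
    (hw : w ∈ tan S y) : fderiv ℝ g y w ∈ tan S' (g y) :=
  tan_map hg.hasFDerivAt.hasFDerivWithinAt h hw

theorem tan_eq_top [FiniteDimensional ℝ E] {s : Set E} {y : E} (hs : UniqueDiffWithinAt ℝ s y) :
    tan s y = ⊤ := by
  have h1 : IsClosed (tan s y : Set E) := Submodule.closed_of_finiteDimensional _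
  have h2 : Dense (tan s y : Set E) := hs.1
  have h3 := h2.closure_eq
  rw [h1.closure_eq] at h3
  exact Submodule.eq_top_iff'.2 fun x => by
    have : x ∈ (tan s y : Set E) := by rw [h3]; trivial
    exact this

theorem fderivWithin_mem_tan [FiniteDimensional ℝ E] {s : Set E} {S : Set V} {g : E → V} {y : E}
    (hs : UniqueDiffWithinAt ℝ s y) (hg : DifferentiableWithinAt ℝ g s y) (h : MapsTo g s S)
    (w : E) : fderivWithin ℝ g s y w ∈ tan S (g y) :=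
  tan_map hg.hasFDerivWithinAt (Eventually.of_forall fun _ hy => h hy)
    (by rw [tan_eq_top hs]; trivial)

theorem fderiv_eq_on_tan {S : Set V} {g g' : V → E} {x : V} (hx : x ∈ S)
    (hg : DifferentiableAt ℝ g x) (hg' : DifferentiableAt ℝ g' x)
    (h : ∀ᶠ y in 𝓝 x, y ∈ S → g y = g' y) {v : V} (hv : v ∈ tan S x) :
    fderiv ℝ g x v = fderiv ℝ g' x v := by
  have h1 : HasFDerivWithinAt g (fderiv ℝ g' x) S x :=
    hg'.hasFDerivAt.hasFDerivWithinAt.congr_of_eventuallyEq (eventually_nhdsWithin_iff.2 h)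
      (h.self_of_nhds hx)
  have h2 := hg.hasFDerivAt.hasFDerivWithinAt.unique_on h1
  exact LinearMap.eqOn_span' (f := (fderiv ℝ g x).toLinearMap) (g := (fderiv ℝ g' x).toLinearMap)
    h2 hv

theorem mem_tan_iff_retr {S : Set V} {ρ : V → V} {x : V} (hx : x ∈ S)
    (hρ : DifferentiableAt ℝ ρ x) (h1 : ∀ᶠ y in 𝓝 x, ρ y ∈ S) (h2 : ∀ᶠ y in 𝓝 x, y ∈ S → ρ y = y)
    (v : V) : v ∈ tan S x ↔ fderiv ℝ ρ x v = v := by
  constructor
  · intro hv
    have := fderiv_eq_on_tan (g' := id) hx hρ differentiableAt_id h2 hv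
    simpa using this
  · intro hv
    have := fderiv_mem_tan hρ h1 v
    rwa [hv, h2.self_of_nhds hx] at this

theorem LocRetr.mono {S S' : Set V} (h : LocRetr S) (hs : S' ⊆ S)
    (hr : ∀ x ∈ S', ∀ᶠ y in 𝓝 x, y ∈ S → y ∈ S') : LocRetr S' := by
  intro x hx
  obtain ⟨N, ρ, hN, hxN, hρ, hm, hf⟩ := h x (hs hx)
  obtain ⟨W, hW, hWo, hxW⟩ := _root_.eventually_nhds_iff.1 (hr x hx)
  refine ⟨N ∩ ρ ⁻¹' W, ρ, hρ.continuousOn.isOpen_inter_preimage hN hWo, ⟨hxN, ?_⟩,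
    hρ.mono inter_subset_left, fun y hy => hW _ hy.2 (hm hy.1),
    fun y hy => hf y ⟨hs hy.1, hy.2.1⟩⟩
  show ρ x ∈ W
  rwa [hf x ⟨hs hx, hxN⟩]

theorem LocRetr.closure_ne {S : Set V} (h : LocRetr S) {x : V} (hx : x ∈ S) {g : V → E}
    (hg : DifferentiableAt ℝ g x) {v : V} (hv : v ∈ tan S x) (hne : fderiv ℝ g x v ≠ 0) :
    x ∈ closure {y | y ∈ S ∧ g y ≠ 0} := by
  have _ := h
  by_contra hc
  apply hne
  have h1 : ∀ᶠ y in 𝓝 x, y ∈ S → g y = (fun _ => (0 : E)) y := by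
    have := isClosed_closure.isOpen_compl.mem_nhds hc
    filter_upwards [this] with y hy hS
    by_contra h0
    exact hy (subset_closure ⟨hS, h0⟩)
  have := fderiv_eq_on_tan hx hg (differentiableAt_const _) h1 hv
  simpa using this

/-- local retraction onto the zero set of a submersion -/
theorem zero_retr [FiniteDimensional ℝ E] {E' : Type}
    [NormedAddCommGroup E'] [NormedSpace ℝ E'] [FiniteDimensional ℝ E'] {G : E → E'} {W : Set E}
    {q₀ : E} (hW : IsOpen W) (hq : q₀ ∈ W) (hG : ContDiffOn ℝ ∞ G W) (h0 : G q₀ = 0)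
    (hs : Function.Surjective (fderiv ℝ G q₀)) :
    ∃ (W' : Set E) (σ : E → E), IsOpen W' ∧ q₀ ∈ W' ∧ ContDiffOn ℝ ∞ σ W' ∧
      (∀ q ∈ W', σ q ∈ W ∧ G (σ q) = 0) ∧ (∀ q ∈ W', G q = 0 → σ q = q) ∧
      ∀ q, fderiv ℝ G q₀ q = 0 → fderiv ℝ σ q₀ q = q := by
  have : CompleteSpace E := FiniteDimensional.complete ℝ E
  set A := fderiv ℝ G q₀ with hA
  obtain ⟨R₀, hR₀⟩ := (A : E →ₗ[ℝ] E').exists_rightInverse_of_surjective
    (LinearMap.range_eq_top.2 hs)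
  let R : E' →L[ℝ] E := LinearMap.toContinuousLinearMap R₀
  have hR : ∀ y, A (R y) = y := fun y => LinearMap.congr_fun hR₀ y
  let L : E → E := fun q => q - R (A (q - q₀))
  let Φ : E → E := fun q => L q + R (G q)
  have hL : ContDiff ℝ ∞ L := by
    simp only [L]; fun_prop
  have hΦ : ContDiffOn ℝ ∞ Φ W := hL.contDiffOn.add (R.contDiff.comp_contDiffOn hG)
  have hΦa : ∀ q ∈ W, ContDiffAt ℝ ∞ Φ q := fun q hq => hΦ.contDiffAt (hW.mem_nhds hq)
  have hLd : HasFDerivAt L (ContinuousLinearMap.id ℝ E - R.comp A) q₀ := by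
    have h1 : HasFDerivAt (fun q => q - q₀) (ContinuousLinearMap.id ℝ E) q₀ :=
      (hasFDerivAt_id q₀).sub_const q₀
    exact (hasFDerivAt_id q₀).sub ((R.comp A).hasFDerivAt.comp q₀ h1)
  have hGd : HasFDerivAt G A q₀ :=
    ((hG.contDiffAt (hW.mem_nhds hq)).differentiableAt (by simp)).hasFDerivAt
  have hΦd : HasFDerivAt Φ ((ContinuousLinearEquiv.refl ℝ E : E ≃L[ℝ] E) : E →L[ℝ] E) q₀ := by
    refine (hLd.add (R.hasFDerivAt.comp q₀ hGd)).congr_fderiv ?_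
    simp
  have hL0 : L q₀ = q₀ := by simp [L]
  have hΦ0 : Φ q₀ = q₀ := by simp [Φ, hL0, h0]
  let e := (hΦa q₀ hq).toOpenPartialHomeomorph Φ hΦd (by simp)
  have he : (e : E → E) = Φ := rfl
  have hsrc : q₀ ∈ e.source := (hΦa q₀ hq).mem_toOpenPartialHomeomorph_source hΦd (by simp)
  have hcont : ContinuousOn (fderiv ℝ Φ) W := hΦ.continuousOn_fderiv_of_isOpen hW (by simp)
  let W₁ : Set E := W ∩ fderiv ℝ Φ ⁻¹' range ((↑) : (E ≃L[ℝ] E) → E →L[ℝ] E)
  have hW₁ : IsOpen W₁ := hcont.isOpen_inter_preimage hW ContinuousLinearEquiv.isOpen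
  have hq₁ : q₀ ∈ W₁ := ⟨hq, _, hΦd.fderiv.symm⟩
  let T : Set E := e.target ∩ e.symm ⁻¹' W₁
  have hT : IsOpen T := e.continuousOn_symm.isOpen_inter_preimage e.open_target hW₁
  have hsy0 : e.symm q₀ = q₀ := by
    have := e.left_inv hsrc
    rwa [he, hΦ0] at this
  have hqT : q₀ ∈ T := by
    refine ⟨?_, ?_⟩
    · have := e.map_source hsrc
      rwa [he, hΦ0] at this
    · show e.symm q₀ ∈ W₁
      rwa [hsy0]
  have hsm : ∀ z ∈ T, ContDiffAt ℝ ∞ e.symm z := by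
    rintro z ⟨hz, hz1, f, hf⟩
    refine e.contDiffAt_symm (f₀' := f) hz ?_ (hΦa _ hz1)
    rw [hf]
    exact ((hΦa _ hz1).differentiableAt (by simp)).hasFDerivAt
  have hAL : ∀ q, A (L q - q₀) = 0 := fun q => by
    have : L q - q₀ = (q - q₀) - R (A (q - q₀)) := by simp only [L]; abel
    rw [this, map_sub, hR, sub_self]
  refine ⟨e.source ∩ L ⁻¹' T, fun q => e.symm (L q),
    e.open_source.inter (hT.preimage hL.continuous), ⟨hsrc, by simpa [hL0] using hqT⟩,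
    fun q hq' => ((hsm _ hq'.2).comp q hL.contDiffAt).contDiffWithinAt, fun q hq' => ⟨hq'.2.2.1, ?_⟩,
    fun q hq' hG0 => ?_, fun q hq' => ?_⟩
  · have h1 : Φ (e.symm (L q)) = L q := e.right_inv hq'.2.1
    have h2 : A (Φ (e.symm (L q)) - q₀) = G (e.symm (L q)) := by
      have : Φ (e.symm (L q)) - q₀ = (L (e.symm (L q)) - q₀) + R (G (e.symm (L q))) := by
        simp only [Φ]; abel
      rw [this, map_add, hAL, hR, zero_add]
    rw [← h2, h1, hAL]
  · have h1 : Φ q = L q := by simp [Φ, hG0]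
    show e.symm (L q) = q
    rw [← h1]
    exact e.left_inv hq'.1
  · have h1 : HasFDerivAt e.symm
        (((ContinuousLinearEquiv.refl ℝ E).symm : E ≃L[ℝ] E) : E →L[ℝ] E) (L q₀) := by
      rw [hL0]
      refine e.hasFDerivAt_symm hqT.1 ?_
      rw [hsy0]
      exact hΦd
    have h2 := (h1.comp q₀ hLd).fderiv
    have h3 : fderiv ℝ (fun q => e.symm (L q)) q₀ = _ := h2
    rw [h3]
    simp [hq']

/-- a set parametrised by the zero set of a submersion is locally a retract -/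
theorem sub_retr [FiniteDimensional ℝ V] [FiniteDimensional ℝ E] {E' : Type}
    [NormedAddCommGroup E'] [NormedSpace ℝ E'] [FiniteDimensional ℝ E'] {S : Set V} {x₀ : V}
    {χ : E → V} {r : V → E} {G : E → E'} {N : Set V} {W : Set E} (hN : IsOpen N) (hW : IsOpen W)
    (hx : x₀ ∈ S) (hxN : x₀ ∈ N) (hxW : r x₀ ∈ W) (hχ : ContDiffOn ℝ ∞ χ W)
    (hG : ContDiffOn ℝ ∞ G W) (hr : ContDiffOn ℝ ∞ r N)
    (hs : Function.Surjective (fderiv ℝ G (r x₀))) (h1 : ∀ q ∈ W, G q = 0 → χ q ∈ S)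
    (h2 : ∀ x ∈ S ∩ N, G (r x) = 0 ∧ χ (r x) = x) :
    (∃ (N' : Set V) (ρ : V → V), IsOpen N' ∧ x₀ ∈ N' ∧ ContDiffOn ℝ ∞ ρ N' ∧ MapsTo ρ N' S ∧
      ∀ y ∈ S ∩ N', ρ y = y) ∧
    ∀ v, v ∈ tan S x₀ ↔ ∃ q, fderiv ℝ G (r x₀) q = 0 ∧ fderiv ℝ χ (r x₀) q = v := by
  obtain ⟨h0, h0'⟩ := h2 x₀ ⟨hx, hxN⟩
  obtain ⟨W', σ, hW', hq, hσ, hm, hf, hd⟩ := zero_retr hW hxW hG h0 hs
  have hχσ : ContDiffOn ℝ ∞ (fun q => χ (σ q)) W' := hχ.comp hσ fun q hq => (hm q hq).1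
  have rd : DifferentiableAt ℝ r x₀ := (hr.contDiffAt (hN.mem_nhds hxN)).differentiableAt (by simp)
  have Gd : DifferentiableAt ℝ G (r x₀) :=
    (hG.contDiffAt (hW.mem_nhds hxW)).differentiableAt (by simp)
  have χd : DifferentiableAt ℝ χ (r x₀) :=
    (hχ.contDiffAt (hW.mem_nhds hxW)).differentiableAt (by simp)
  have σd : DifferentiableAt ℝ σ (r x₀) :=
    (hσ.contDiffAt (hW'.mem_nhds hq)).differentiableAt (by simp)
  refine ⟨⟨N ∩ r ⁻¹' W', fun y => χ (σ (r y)), hr.continuousOn.isOpen_inter_preimage hN hW',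
    ⟨hxN, hq⟩, hχσ.comp (hr.mono inter_subset_left) fun y hy => hy.2,
    fun y hy => h1 _ (hm _ hy.2).1 (hm _ hy.2).2, fun y hy => ?_⟩, fun v => ⟨fun hv => ?_, ?_⟩⟩
  · obtain ⟨a, b⟩ := h2 y ⟨hy.1, hy.2.1⟩
    show χ (σ (r y)) = y
    rw [hf _ hy.2.2 a, b]
  · refine ⟨fderiv ℝ r x₀ v, ?_, ?_⟩
    · have := fderiv_eq_on_tan (g := G ∘ r) (g' := fun _ => 0) hx (Gd.comp x₀ rd)
        (differentiableAt_const _)
        (by filter_upwards [hN.mem_nhds hxN] with y hy hS using (h2 y ⟨hS, hy⟩).1) hv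
      rw [fderiv_comp x₀ Gd rd] at this
      simpa using this
    · have := fderiv_eq_on_tan (g := χ ∘ r) (g' := id) hx (χd.comp x₀ rd)
        differentiableAt_id
        (by filter_upwards [hN.mem_nhds hxN] with y hy hS using (h2 y ⟨hS, hy⟩).2) hv
      rw [fderiv_comp x₀ χd rd] at this
      simpa using this
  · rintro ⟨q, hq0, rfl⟩
    have hσ0 : σ (r x₀) = r x₀ := hf _ hq h0
    have χd' : DifferentiableAt ℝ χ (σ (r x₀)) := by rwa [hσ0]
    have := fderiv_mem_tan (S := S) (g := χ ∘ σ) (χd'.comp _ σd)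
      (by filter_upwards [hW'.mem_nhds hq] with y hy using h1 _ (hm _ hy).1 (hm _ hy).2) q
    rw [fderiv_comp _ χd' σd] at this
    simpa [hσ0, hd q hq0, h0'] using this

section Amb
variable {O M : Set V} {π : V → V} {om h : F2 V}

theorem Amb.diff (hA : Amb O π M om h) (x : V) : DifferentiableAt ℝ π x :=
  hA.sm.differentiable (by simp) x

theorem Amb.mem_tan_iff (hA : Amb O π M om h) {x : V} (hx : x ∈ M) (v : V) :
    v ∈ tan M x ↔ fderiv ℝ π x v = v :=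
  mem_tan_iff_retr hx (hA.diff x)
    (by filter_upwards [hA.op.mem_nhds (hA.sub hx)] with y hy using hA.maps hy)
    (Eventually.of_forall hA.fix) v

theorem Amb.P_mem (hA : Amb O π M om h) {y : V} (hy : y ∈ O) (w : V) :
    fderiv ℝ π y w ∈ tan M (π y) :=
  fderiv_mem_tan (hA.diff y) (by filter_upwards [hA.op.mem_nhds hy] with z hz using hA.maps hz) w

theorem Amb.P_mem' (hA : Amb O π M om h) {x : V} (hx : x ∈ M) (w : V) :
    fderiv ℝ π x w ∈ tan M x := by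
  have := hA.P_mem (hA.sub hx) w
  rwa [hA.fix x hx] at this

theorem Amb.PP (hA : Amb O π M om h) {x : V} (hx : x ∈ M) (w : V) :
    fderiv ℝ π x (fderiv ℝ π x w) = fderiv ℝ π x w :=
  (hA.mem_tan_iff hx _).1 (hA.P_mem' hx w)

theorem Amb.locRetr (hA : Amb O π M om h) : LocRetr M := fun _ hx =>
  ⟨O, π, hA.op, hA.sub hx, hA.sm.contDiffOn, hA.maps, fun y hy => hA.fix y hy.1⟩

theorem Amb.wj (hA : Amb O π M om h) {J : V → En0 V} (hJ : SJ π M J) : WJ M J := by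
  intro x hx v hv
  refine ⟨(hA.mem_tan_iff hx _).2 ?_, (hJ x hx v).1⟩
  rw [(hJ x hx v).2, (hA.mem_tan_iff hx v).1 hv]

theorem Amb.env0 (hA : Amb O π M om h) {K : Set V} (hK : IsCompact K) (hKM : K ⊆ M) :
    Env0 O M K om :=
  ⟨hA.op, hK, hKM, hKM.trans hA.sub, hA.smo.of_le (by simp), hA.ano, hA.clo⟩

theorem Amb.smP (hA : Amb O π M om h) : ContDiff ℝ ∞ (fderiv ℝ π) :=
  hA.sm.fderiv_right (by simp)

/-- derivative of a tangent vector field along a map into `M` -/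
theorem Amb.deriv_tan (hA : Amb O π M om h) {U ξ : E → V} {v : E} (hU : DifferentiableAt ℝ U v)
    (hξ : DifferentiableAt ℝ ξ v) (hm : ∀ᶠ v' in 𝓝 v, U v' ∈ M ∧ ξ v' ∈ tan M (U v')) (w : E) :
    fderiv ℝ ξ v w = fderiv ℝ π (U v) (fderiv ℝ ξ v w) +
      fderiv ℝ (fderiv ℝ π) (U v) (ξ v) (fderiv ℝ U v w) := by
  have h1 : ξ =ᶠ[𝓝 v] fun v' => fderiv ℝ π (U v') (ξ v') :=
    hm.mono fun v' hv' => ((hA.mem_tan_iff hv'.1 _).1 hv'.2).symm
  have h2 : HasFDerivAt (fderiv ℝ π) (fderiv ℝ (fderiv ℝ π) (U v)) (U v) :=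
    (hA.smP.differentiable (by simp) _).hasFDerivAt
  have h3 := ((h2.comp v hU.hasFDerivAt).clm_apply hξ.hasFDerivAt).fderiv
  have h4 : IsSymmSndFDerivAt ℝ π (U v) :=
    hA.sm.contDiffAt.isSymmSndFDerivAt (by simpa using two_le_infty)
  have h5 : fderiv ℝ ξ v = _ := h1.fderiv_eq.trans h3
  rw [h4.eq (ξ v)]
  conv_lhs => rw [h5]
  simp

theorem Amb.inj_near [FiniteDimensional ℝ V] (hA : Amb O π M om h) {K : Set V} (hK : IsCompact K)
    (hKM : K ⊆ M) : ∃ δ > 0, ∀ x₀ ∈ K, ∀ x ∈ M, ∀ y ∈ M, dist x x₀ < δ → dist y x₀ < δ →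
      fderiv ℝ π x₀ (x - y) = 0 → x = y := by
  have _ := hKM
  have h1 := hK.uniformContinuousAt_of_continuousAt (fderiv ℝ π)
    (fun a _ => hA.smP.continuous.continuousAt) (Metric.dist_mem_uniformity (ε := 1 / 2) (by norm_num))
  obtain ⟨δ, hδ, h2⟩ := Metric.mem_uniformity_dist.1 h1
  refine ⟨δ, hδ, fun x₀ hx₀ x hx y hy hxd hyd h0 => ?_⟩
  have h3 := (convex_ball x₀ δ).norm_image_sub_le_of_norm_fderiv_le' (𝕜 := ℝ) (f := π)
    (C := 1 / 2) (φ := fderiv ℝ π x₀) (fun z _ => hA.diff z) (fun z hz => ?_)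
    (mem_ball.2 hyd) (mem_ball.2 hxd)
  · rw [h0, hA.fix x hx, hA.fix y hy, sub_zero] at h3
    have : ‖x - y‖ = 0 := by linarith [norm_nonneg (x - y)]
    exact sub_eq_zero.1 (norm_eq_zero.1 this)
  · have : dist x₀ z < δ := by rw [dist_comm]; exact hz
    have h4 : dist (fderiv ℝ π x₀) (fderiv ℝ π z) < 1 / 2 := h2 this hx₀
    rw [dist_comm, dist_eq_norm] at h4
    exact h4.le

theorem Amb.coord [FiniteDimensional ℝ V] (hA : Amb O π M om h) {x₀ : V} (hx : x₀ ∈ M) :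
    ∃ f : V →L[ℝ] C3, (∀ w, ∃ v ∈ tan M x₀, f v = w) ∧ (∀ v ∈ tan M x₀, f v = 0 → v = 0) ∧
      ∀ᶠ q : V × V in 𝓝 (x₀, x₀), q.1 ∈ M → q.2 ∈ M → f q.1 = f q.2 → q.1 = q.2 := by
  have hd : Module.finrank ℝ (tan M x₀) = Module.finrank ℝ C3 := by
    rw [hA.dim x₀ hx, Module.finrank_pi_fintype]
    simp
  let e := ContinuousLinearEquiv.ofFinrankEq hd
  let P : V →L[ℝ] tan M x₀ := (fderiv ℝ π x₀).codRestrict _ (hA.P_mem' hx)
  have hP : ∀ v (hv : v ∈ tan M x₀), P v = ⟨v, hv⟩ := fun v hv =>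
    Subtype.ext ((hA.mem_tan_iff hx v).1 hv)
  refine ⟨(e : tan M x₀ →L[ℝ] C3).comp P, fun w => ⟨e.symm w, (e.symm w).2, ?_⟩,
    fun v hv h0 => ?_, ?_⟩
  · simp [hP _ (e.symm w).2]
  · have h1 : e (P v) = 0 := h0
    rw [hP v hv, e.map_eq_zero_iff] at h1
    exact congrArg Subtype.val h1
  · obtain ⟨δ, hδ, h1⟩ := hA.inj_near (isCompact_singleton (x := x₀)) (singleton_subset_iff.2 hx)
    filter_upwards [ball_mem_nhds (x₀, x₀) hδ] with q hq h2 h3 h4
    rw [← ball_prod_same] at hq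
    refine h1 x₀ rfl _ h2 _ h3 hq.1 hq.2 ?_
    have h5 : e (P q.1) = e (P q.2) := h4
    have h6 : P (q.1 - q.2) = 0 := by rw [map_sub, e.injective h5, sub_self]
    exact congrArg Subtype.val h6

omit [NormedSpace ℝ E] in
theorem cpt_bound {X : Type} [TopologicalSpace X] {s : Set X} (hs : IsCompact s) {f : X → E}
    (hf : Continuous f) : ∃ C, ∀ x ∈ s, ‖f x‖ ≤ C :=
  hs.exists_bound_of_continuousOn hf.continuousOn

theorem fam_bounds [FiniteDimensional ℝ V] {J : ℝ → V → E}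
    (hJ : ContDiff ℝ 2 fun q : ℝ × V => J q.1 q.2) (R : ℝ) : ∃ Λ, ∀ τ ∈ Icc (0 : ℝ) 1,
      (∀ x ∈ closedBall (0 : V) R, ‖J τ x‖ ≤ Λ ∧ ‖fderiv ℝ (J τ) x‖ ≤ Λ) ∧
      ∀ x ∈ closedBall (0 : V) R, ∀ y ∈ closedBall (0 : V) R,
        ‖J τ x - J τ y‖ ≤ Λ * ‖x - y‖ ∧ ‖fderiv ℝ (J τ) x - fderiv ℝ (J τ) y‖ ≤ Λ * ‖x - y‖ := by
  have h1 : ContDiff ℝ 1 fun q : ℝ × V => fderiv ℝ (J q.1) q.2 :=
    ContDiff.fderiv (f := fun (q : ℝ × V) (x : V) => J q.1 x) (g := Prod.snd) (m := 2)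
      (hJ.comp (f := fun p : (ℝ × V) × V => (p.1.1, p.2)) (by fun_prop)) contDiff_snd
      (by norm_num)
  have h2 : ContDiff ℝ 0 fun q : ℝ × V => fderiv ℝ (fderiv ℝ (J q.1)) q.2 :=
    ContDiff.fderiv (f := fun (q : ℝ × V) (x : V) => fderiv ℝ (J q.1) x) (g := Prod.snd) (m := 1)
      (h1.comp (f := fun p : (ℝ × V) × V => (p.1.1, p.2)) (by fun_prop)) contDiff_snd
      (by norm_num)
  have hc : IsCompact (Icc (0 : ℝ) 1 ×ˢ closedBall (0 : V) R) :=
    isCompact_Icc.prod (isCompact_closedBall _ _)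
  obtain ⟨a, ha⟩ := cpt_bound hc hJ.continuous
  obtain ⟨b, hb⟩ := cpt_bound hc h1.continuous
  obtain ⟨c, hc'⟩ := cpt_bound hc h2.continuous
  refine ⟨max a (max b c), fun τ hτ => ?_⟩
  have hs : ContDiff ℝ 2 (J τ) := hJ.comp (f := fun x : V => (τ, x)) (by fun_prop)
  have hs' : ContDiff ℝ 1 (fderiv ℝ (J τ)) := hs.fderiv_right (by norm_num)
  have b1 : ∀ x ∈ closedBall (0 : V) R, ‖fderiv ℝ (J τ) x‖ ≤ max a (max b c) := fun x hx =>
    (hb (τ, x) ⟨hτ, hx⟩).trans ((le_max_left _ _).trans (le_max_right _ _))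
  have b2 : ∀ x ∈ closedBall (0 : V) R, ‖fderiv ℝ (fderiv ℝ (J τ)) x‖ ≤ max a (max b c) :=
    fun x hx => (hc' (τ, x) ⟨hτ, hx⟩).trans ((le_max_right _ _).trans (le_max_right _ _))
  refine ⟨fun x hx => ⟨(ha (τ, x) ⟨hτ, hx⟩).trans (le_max_left _ _), b1 x hx⟩,
    fun x hx y hy => ⟨?_, ?_⟩⟩
  · exact (convex_closedBall (0 : V) R).norm_image_sub_le_of_norm_fderiv_le (𝕜 := ℝ)
      (fun z _ => hs.differentiable (by norm_num) z) b1 hy hx
  · exact (convex_closedBall (0 : V) R).norm_image_sub_le_of_norm_fderiv_le (𝕜 := ℝ)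
      (fun z _ => hs'.differentiable (by norm_num) z) b2 hy hx

/-- uniform bounds and uniform tameness for a compact family -/
theorem Amb.unif [FiniteDimensional ℝ V] (hA : Amb O π M om h) {K : Set V} (hK : IsCompact K)
    (hKM : K ⊆ M) {J : ℝ → V → En0 V} (hJ : ContDiff ℝ 3 fun q : ℝ × V => J q.1 q.2)
    (hS : ∀ τ, SJ π M (J τ)) (hT : ∀ τ ∈ Icc (0 : ℝ) 1, Tame M om (J τ)) :
    (∃ R Λ c, ∀ τ ∈ Icc (0 : ℝ) 1, EnvJ M K om R Λ c (J τ)) ∧
    ∀ {ι : Type} (l : Filter ι) (τ : ι → ℝ) (τ₀ : ℝ), Tendsto τ l (𝓝 τ₀) →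
      TendstoUniformlyOn (fun ν => J (τ ν)) (J τ₀) l K := by
  have hJ2 : ContDiff ℝ 2 fun q : ℝ × V => J q.1 q.2 := hJ.of_le (by norm_num)
  constructor
  · obtain ⟨R, hR⟩ := hK.isBounded.subset_closedBall (0 : V)
    obtain ⟨Λ, hΛ⟩ := fam_bounds hJ2 R
    have hc : IsCompact (((Icc (0 : ℝ) 1 ×ˢ K) ×ˢ sphere (0 : V) 1) ∩
        {p : (ℝ × V) × V | fderiv ℝ π p.1.2 p.2 = p.2}) := by
      refine ((isCompact_Icc.prod hK).prod (isCompact_sphere _ _)).inter_right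
        (isClosed_eq ?_ continuous_snd)
      exact (hA.smP.continuous.comp (continuous_snd.comp continuous_fst)).clm_apply continuous_snd
    have hf : Continuous fun p : (ℝ × V) × V => om p.1.2 p.2 (J p.1.1 p.1.2 p.2) :=
      ((hA.smo.continuous.comp (continuous_snd.comp continuous_fst)).clm_apply
        continuous_snd).clm_apply ((hJ.continuous.comp continuous_fst).clm_apply continuous_snd)
    obtain ⟨c, hc0, hc1⟩ := hc.exists_forall_le' hf.continuousOn (a := 0) (by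
      rintro ⟨⟨τ, x⟩, v⟩ ⟨⟨⟨h1, h2⟩, h3⟩, h4⟩
      refine hT τ h1 x (hKM h2) v ((hA.mem_tan_iff (hKM h2) v).2 h4) ?_
      rintro rfl
      simp at h3)
    refine ⟨R, Λ, c, fun τ hτ => ⟨⟨hJ2.comp (f := fun x : V => (τ, x)) (by fun_prop),
      (hΛ τ hτ).1, (hΛ τ hτ).2, hR, fun x hx v => (hS τ x (hKM hx) v).1⟩, hc0, fun x hx v hv => ?_⟩⟩
    rcases eq_or_ne v 0 with rfl | h0
    · simp
    have hn : 0 < ‖v‖ := norm_pos_iff.2 h0
    have h1 := hc1 ((τ, x), ‖v‖⁻¹ • v) ⟨⟨⟨hτ, hx⟩, by simp [norm_smul, hn.ne']⟩,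
      (hA.mem_tan_iff (hKM hx) _).1 (Submodule.smul_mem _ _ hv)⟩
    simp only [map_smul, smul_apply, smul_eq_mul] at h1
    have h2 := mul_le_mul_of_nonneg_right h1 (sq_nonneg ‖v‖)
    refine h2.trans (le_of_eq ?_)
    field_simp
  · intro ι l τ τ₀ hτ
    have : CompactSpace K := isCompact_iff_compactSpace.1 hK
    have h1 := Continuous.tendstoUniformly (fun (t : ℝ) (x : K) => J t x)
      (hJ.continuous.comp (f := fun p : ℝ × K => (p.1, (p.2 : V))) (by fun_prop)) τ₀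
    rw [tendstoUniformlyOn_iff_tendstoUniformly_comp_coe]
    exact fun u hu => hτ.eventually (h1 u hu)

end Amb

theorem exists_UB [FiniteDimensional ℝ V] {K : Set V} (hK : IsCompact K) {J : V → En0 V}
    (hJ : ContDiff ℝ 2 J) (hsq : ∀ x ∈ K, ∀ v, J x (J x v) = -v) : ∃ R Λ, UB R Λ K J := by
  obtain ⟨R, hR⟩ := hK.isBounded.subset_closedBall (0 : V)
  obtain ⟨Λ, hΛ⟩ := fam_bounds (J := fun _ => J) (hJ.comp contDiff_snd) R
  have := hΛ 0 (by simp)
  exact ⟨R, Λ, hJ, this.1, this.2, hR, hsq⟩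

/-! ### one-forms -/

theorem dd_anti (l : F1 V) (x a b : V) : dd l x a b = -dd l x b a := by
  simp [dd]

theorem dd_congr {l l' : F1 V} {x : V} (h : ∀ᶠ y in 𝓝 x, l y = l' y) (a b : V) :
    dd l x a b = dd l' x a b := by
  have : fderiv ℝ l x = fderiv ℝ l' x := Filter.EventuallyEq.fderiv_eq h
  simp [dd, this]

theorem dd_add {l l' : F1 V} {x : V} (hl : DifferentiableAt ℝ l x) (hl' : DifferentiableAt ℝ l' x)
    (a b : V) : dd (fun y => l y + l' y) x a b = dd l x a b + dd l' x a b := by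
  simp only [dd, fderiv_fun_add hl hl', add_apply]
  ring

theorem dd_smul {φ : V → ℝ} {l : F1 V} {x : V} (hφ : DifferentiableAt ℝ φ x)
    (hl : DifferentiableAt ℝ l x) (a b : V) : dd (fun y => φ y • l y) x a b =
      φ x * dd l x a b + (fderiv ℝ φ x a * l x b - fderiv ℝ φ x b * l x a) := by
  simp only [dd, fderiv_fun_smul hφ hl, add_apply,
    smul_apply, ContinuousLinearMap.smulRight_apply, smul_eq_mul]
  ring

theorem dd_fderiv {φ : V → ℝ} {x : V} (hφ : ContDiffAt ℝ 2 φ x) (a b : V) :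
    dd (fderiv ℝ φ) x a b = 0 := by
  have h4 : IsSymmSndFDerivAt ℝ φ x := hφ.isSymmSndFDerivAt (by simp)
  simp [dd, h4.eq a b]

theorem dd_pb {g : E → V} {l : F1 V} {x : E} (hg : ContDiffAt ℝ 2 g x)
    (hl : DifferentiableAt ℝ l (g x)) (a b : E) :
    dd (pb g l) x a b = dd l (g x) (fderiv ℝ g x a) (fderiv ℝ g x b) := by
  have h4 : IsSymmSndFDerivAt ℝ g x := hg.isSymmSndFDerivAt (by simp)
  have h1 : DifferentiableAt ℝ g x := hg.differentiableAt (by norm_num)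
  have h2 : DifferentiableAt ℝ (fderiv ℝ g) x :=
    (hg.fderiv_right (m := 1) (by norm_num)).differentiableAt (by norm_num)
  have h3 : fderiv ℝ (pb g l) x = _ :=
    ((hl.hasFDerivAt.comp x h1.hasFDerivAt).clm_comp h2.hasFDerivAt).fderiv
  simp only [dd, h3]
  simp [h4.eq a b]

theorem contDiffAt_pb {g : E → V} {l : F1 V} {x : E} {n : ℕ∞} (hg : ContDiffAt ℝ (n + 1) g x)
    (hl : ContDiffAt ℝ n l (g x)) : ContDiffAt ℝ n (pb g l) x :=
  (hl.comp x (hg.of_le le_self_add)).clm_comp (hg.fderiv_right le_rfl)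

/-- the form `Im (dg / g)` is closed -/
theorem dd_dlog {g : V → ℂ} {x : V} (hg : ContDiffAt ℝ 2 g x) (h0 : g x ≠ 0) (a b : V) :
    dd (fun y => imCLM.comp ((mulC (g y)⁻¹).comp (fderiv ℝ g y))) x a b = 0 := by
  let T : ℂ →L[ℝ] ℂ →L[ℝ] ℝ :=
    ((ContinuousLinearMap.compL ℝ ℂ ℂ ℝ) imCLM).comp (ContinuousLinearMap.mul ℝ ℂ)
  have h1 : HasFDerivAt (fun z : ℂ => z⁻¹) _ (g x) :=
    ((hasDerivAt_inv h0).hasFDerivAt.restrictScalars ℝ)
  have h2 : HasFDerivAt (fun z : ℂ => T z⁻¹) _ (g x) := T.hasFDerivAt.comp (g x) h1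
  have h3 := dd_pb (l := fun z : ℂ => T z⁻¹) hg h2.differentiableAt a b
  have h4 : (fun y => imCLM.comp ((mulC (g y)⁻¹).comp (fderiv ℝ g y))) =
      pb g fun z : ℂ => T z⁻¹ := rfl
  rw [h4, h3, dd, h2.fderiv]
  simp only [T, ContinuousLinearMap.comp_apply, ContinuousLinearMap.compL_apply,
    ContinuousLinearMap.mul_apply', imCLM_apply, ContinuousLinearMap.coe_restrictScalars',
    ContinuousLinearMap.toSpanSingleton_apply, smul_eq_mul]
  rw [sub_eq_zero]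
  congr 1
  ring

/-- forms that agree on tangent vectors have the same derivative on tangent vectors -/
theorem LocRetr.dd_eq {S : Set V} (h : LocRetr S) {x : V} (hx : x ∈ S) {l l' : F1 V}
    (hl : DifferentiableAt ℝ l x) (hl' : DifferentiableAt ℝ l' x)
    (he : ∀ᶠ y in 𝓝 x, y ∈ S → ∀ a ∈ tan S y, l y a = l' y a) {a b : V} (ha : a ∈ tan S x)
    (hb : b ∈ tan S x) : dd l x a b = dd l' x a b := by
  obtain ⟨N, ρ, hN, hxN, hρ, hm, hf⟩ := h x hx
  have hx0 : ρ x = x := hf x ⟨hx, hxN⟩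
  have hN' := hN.mem_nhds hxN
  have hd : ∀ y ∈ N, DifferentiableAt ℝ ρ y := fun y hy =>
    (hρ.contDiffAt (hN.mem_nhds hy)).differentiableAt (by simp)
  have h2 : ContDiffAt ℝ 2 ρ x :=
    (hρ.contDiffAt hN').of_le two_le_infty
  have hP : ∀ v ∈ tan S x, fderiv ℝ ρ x v = v := fun v hv =>
    (mem_tan_iff_retr hx (hd x hxN) (by filter_upwards [hN'] with y hy using hm hy)
      (by filter_upwards [hN'] with y hy hS using hf y ⟨hS, hy⟩) v).1 hv
  have ht : Tendsto ρ (𝓝 x) (𝓝 x) := by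
    have := (hd x hxN).continuousAt.tendsto
    rwa [hx0] at this
  have h3 : ∀ᶠ y in 𝓝 x, pb ρ l y = pb ρ l' y := by
    filter_upwards [hN', ht.eventually he] with y hy h4
    ext w
    exact h4 (hm hy) _ (fderiv_mem_tan (hd y hy)
      (by filter_upwards [hN.mem_nhds hy] with z hz using hm hz) w)
  have h5 := dd_congr h3 a b
  rwa [dd_pb h2 (by rwa [hx0]), dd_pb h2 (by rwa [hx0]), hx0, hP a ha, hP b hb] at h5

/-- the cyclic identity for `dd l` -/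
theorem dd_closed {l : F1 V} {x : V} (hl : ContDiffAt ℝ 2 l x) (a b c : V) :
    fderiv ℝ (fun y => dd l y b c) x a + fderiv ℝ (fun y => dd l y c a) x b +
      fderiv ℝ (fun y => dd l y a b) x c = 0 := by
  have h4 : IsSymmSndFDerivAt ℝ l x := hl.isSymmSndFDerivAt (by simp)
  have h2 : DifferentiableAt ℝ (fderiv ℝ l) x :=
    (hl.fderiv_right (m := 1) (by norm_num)).differentiableAt (by norm_num)
  have key : ∀ u v w : V, fderiv ℝ (fun y => dd l y v w) x u =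
      fderiv ℝ (fderiv ℝ l) x u v w - fderiv ℝ (fderiv ℝ l) x u w v := by
    intro u v w
    have h5 : ∀ v w : V, HasFDerivAt (fun y => fderiv ℝ l y v w) _ x := fun v w =>
      (h2.hasFDerivAt.clm_apply (hasFDerivAt_const v x)).clm_apply (hasFDerivAt_const w x)
    have h6 : fderiv ℝ (fun y => dd l y v w) x = _ := ((h5 v w).sub (h5 w v)).fderiv
    rw [h6]
    simp
  rw [key, key, key, h4.eq b a, h4.eq c a, h4.eq c b]
  ring

end Pool.Agent.MP_9758ca_gt
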