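import Mathlib.Algebra.Module.Torsion.Prod
import Mathlib.Algebra.Lie.OfAssociative
import Mathlib.Algebra.Order.Archimedean.Real.Hom
import Mathlib.Analysis.Complex.Polynomial.Basic
import Mathlib.RingTheory.Finiteness.ModuleFinitePresentation
import Mathlib.Analysis.Normed.Module.Connected
import Mathlib.Analysis.Calculus.ContDiff.FiniteDimension
import Mathlib.Analysis.Complex.Conformal
import Mathlib.RingTheory.PiTensorProduct
import Mathlib.RingTheory.TotallySplit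
import Mathlib.RingTheory.Etale.Weakly
import Pool.Agent.MP_9758ca_gt.Tan

/-!
PROJECT BALL, library Basic: homogeneous functions and Hoelder conditions.
-/

set_option linter.unusedSectionVars false

open scoped Topology ContDiff ComplexConjugate
open Set Metric Filter Complex

namespace Pool.Agent.MP_9758ca_gt

variable {V E : Type} [NormedAddCommGroup V] [NormedSpace ℝ V] [NormedAddCommGroup E]
  [NormedSpace ℝ E]

namespace Bs
end Bs
open Bs

/-! ### the punctured plane `nz` -/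

theorem isOpen_nz : IsOpen nz := isOpen_ne
theorem nz_mem_nhds {v : C2} (hv : v ≠ 0) : nz ∈ 𝓝 v := isOpen_nz.mem_nhds hv

theorem isConnected_nz : IsConnected nz := by
  have h : 1 < Module.rank ℝ C2 := by
    rw [← Module.finrank_eq_rank, Module.finrank_prod, Complex.finrank_real_complex]
    norm_num
  exact isConnected_compl_singleton_of_one_lt_rank h 0

theorem S3_ne (v : S3) : (v : C2) ≠ 0 := ne_zero_of_mem_unit_sphere v

theorem exists_S3 {v : C2} (hv : v ≠ 0) : ∃ w : S3, v = (‖v‖ : ℂ) • (w : C2) := by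
  have h : ‖v‖ ≠ 0 := norm_ne_zero_iff.2 hv
  have h' : (‖v‖ : ℂ) ≠ 0 := by exact_mod_cast h
  refine ⟨⟨(‖v‖ : ℂ)⁻¹ • v, by simp [norm_smul, inv_mul_cancel₀ h]⟩, ?_⟩
  simp only [smul_smul, mul_inv_cancel₀ h', one_smul]

theorem mk3_norm (m : Fin 3) : ‖mk3 m‖ = 1 := by
  fin_cases m <;> simp [mk3, Prod.norm_def]

theorem mk3_ne (m : Fin 3) : mk3 m ≠ 0 := by
  intro h
  have := mk3_norm m
  rw [h, norm_zero] at this
  exact zero_ne_one this

theorem Par.refl (v : C2) : Par v v := ⟨1, (one_smul _ _).symm⟩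

theorem Par.symm {v w : C2} (hv : v ≠ 0) (h : Par v w) : Par w v := by
  obtain ⟨c, rfl⟩ := h
  have hc : c ≠ 0 := by rintro rfl; exact hv (zero_smul _ _)
  exact ⟨c⁻¹, by rw [smul_smul, inv_mul_cancel₀ hc, one_smul]⟩

theorem Par.trans {u v w : C2} (h : Par u v) (h' : Par v w) : Par u w := by
  obtain ⟨c, rfl⟩ := h
  obtain ⟨d, rfl⟩ := h'
  exact ⟨c * d, smul_smul _ _ _⟩

theorem par_iff {v w : C2} (hw : w ≠ 0) : Par v w ↔ v.1 * w.2 = v.2 * w.1 := by
  constructor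
  · rintro ⟨c, rfl⟩
    simp only [Prod.smul_fst, Prod.smul_snd, smul_eq_mul]; ring
  · intro h
    by_cases h1 : w.1 = 0
    · have h2 : w.2 ≠ 0 := fun h2 => hw (Prod.ext h1 h2)
      refine ⟨v.2 / w.2, Prod.ext ?_ ?_⟩
      · rw [h1, mul_zero] at h
        simp [h1, (mul_eq_zero.1 h).resolve_right h2]
      · simp [div_mul_cancel₀ _ h2]
    · refine ⟨v.1 / w.1, Prod.ext ?_ ?_⟩
      · simp [div_mul_cancel₀ _ h1]
      · simp only [Prod.smul_snd, smul_eq_mul]
        field_simp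
        linear_combination -h

theorem mk3_par {m m' : Fin 3} (h : Par (mk3 m) (mk3 m')) : m = m' := by
  rw [par_iff (mk3_ne m')] at h
  fin_cases m <;> fin_cases m' <;> simp [mk3] at h ⊢

theorem hor_smul (c : ℂ) (v : C2) : hor (c • v) = conj c • hor v := by
  simp [hor]

theorem Bs.contDiff_conj : ContDiff ℝ ∞ fun z : ℂ => conj z := conjCLE.contDiff

theorem contDiff_hor : ContDiff ℝ ∞ hor :=
  (contDiff_conj.comp contDiff_snd).neg.prodMk (contDiff_conj.comp contDiff_fst)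

theorem Bs.nsq_ne {v : C2} (hv : v ≠ 0) : v.1 * conj v.1 + v.2 * conj v.2 ≠ 0 := by
  rw [mul_conj, mul_conj]
  intro h
  have h' : normSq v.1 + normSq v.2 = 0 := by exact_mod_cast h
  have h1 := normSq_nonneg v.1
  have h2 := normSq_nonneg v.2
  exact hv (Prod.ext (normSq_eq_zero.1 (by linarith)) (normSq_eq_zero.1 (by linarith)))

theorem hor_decomp {v : C2} (hv : v ≠ 0) (w : C2) : ∃ a b : ℂ, w = a • v + b • hor v := by
  have h := mul_inv_cancel₀ (nsq_ne hv)
  refine ⟨(w.1 * conj v.1 + w.2 * conj v.2) * (v.1 * conj v.1 + v.2 * conj v.2)⁻¹,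
    (w.2 * v.1 - w.1 * v.2) * (v.1 * conj v.1 + v.2 * conj v.2)⁻¹, Prod.ext ?_ ?_⟩
  · simp only [hor, Prod.fst_add, Prod.smul_fst, smul_eq_mul]
    linear_combination (-w.1) * h
  · simp only [hor, Prod.snd_add, Prod.smul_snd, smul_eq_mul]
    linear_combination (-w.2) * h

theorem dense_not_par {p : C2} (hp : p ≠ 0) : nz ⊆ closure {v | v ≠ 0 ∧ ¬ Par v p} := by
  intro v hv
  by_cases h : Par v p
  · have ht : Tendsto (fun t : ℂ => v + t • hor p) (𝓝[≠] 0) (𝓝 v) := by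
      have : Continuous fun t : ℂ => v + t • hor p := by fun_prop
      simpa using (this.tendsto 0).mono_left nhdsWithin_le_nhds
    refine mem_closure_of_tendsto ht ?_
    filter_upwards [self_mem_nhdsWithin] with t ht
    have hn : ¬ Par (v + t • hor p) p := by
      rw [par_iff hp] at h ⊢
      intro h'
      simp only [hor, Prod.fst_add, Prod.smul_fst, smul_eq_mul, Prod.snd_add, Prod.smul_snd] at h'
      have : t * (p.1 * conj p.1 + p.2 * conj p.2) = 0 := by linear_combination h - h'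
      exact (mul_ne_zero ht (nsq_ne hp)) this
    exact ⟨fun h0 => hn ⟨0, by rw [h0, zero_smul]⟩, hn⟩
  · exact subset_closure ⟨hv, h⟩

theorem isOpen_not_par {p : C2} (hp : p ≠ 0) : IsOpen {v : C2 | ¬ Par v p} := by
  simp only [par_iff hp]
  exact isOpen_ne_fun (by fun_prop) (by fun_prop)

theorem Inv.par {X : Type} {U : C2 → X} (h : Inv U) {v w : C2} (hv : v ≠ 0) (hp : Par v w) :
    U v = U w := by
  obtain ⟨c, rfl⟩ := hp
  exact h c (by rintro rfl; exact hv (zero_smul _ _)) w (by rintro rfl; exact hv (smul_zero _))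

theorem Bs.aff_ne (z : ℂ) : ((z, 1) : C2) ≠ 0 := fun h => one_ne_zero (congrArg Prod.snd h)
theorem Bs.aff_ne' (z : ℂ) : ((1, z) : C2) ≠ 0 := fun h => one_ne_zero (congrArg Prod.fst h)

theorem Inv.im_eq {X : Type} {U : C2 → X} (h : Inv U) :
    im U = range (fun v : S3 => U v) ∧ im U = insert (U (1, 0)) (range (aff U)) := by
  constructor
  · apply Subset.antisymm
    · rintro _ ⟨v, hv, rfl⟩
      obtain ⟨w, hw⟩ := exists_S3 hv
      exact ⟨w, (h.par hv ⟨_, hw⟩).symm⟩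
    · rintro _ ⟨w, rfl⟩
      exact ⟨w, S3_ne w, rfl⟩
  · apply Subset.antisymm
    · rintro _ ⟨v, hv, rfl⟩
      by_cases h2 : v.2 = 0
      · exact Or.inl (h.par hv ((par_iff (aff_ne' 0)).2 (by simp [h2])))
      · exact Or.inr ⟨v.1 / v.2,
          (h.par hv ((par_iff (aff_ne _)).2 (by simp only; field_simp))).symm⟩
    · rintro _ (rfl | ⟨z, rfl⟩)
      · exact ⟨_, aff_ne' 0, rfl⟩
      · exact ⟨_, aff_ne z, rfl⟩

theorem Inv.isCompact_im {X : Type} [TopologicalSpace X] {U : C2 → X} (h : Inv U)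
    (hc : ContinuousOn U nz) : IsCompact (im U) ∧ IsConnected (im U) := by
  refine ⟨?_, isConnected_nz.image U hc⟩
  rw [h.im_eq.1]
  exact isCompact_range (hc.comp_continuous continuous_subtype_val S3_ne)

/-- multiplication by a complex scalar on `ℂ²` -/
noncomputable def Bs.smulL (c : ℂ) : C2 →L[ℝ] C2 :=
  (c • ContinuousLinearMap.id ℂ C2).restrictScalars ℝ

theorem Bs.smulL_apply (c : ℂ) (v : C2) : smulL c v = c • v := rfl

theorem Hom.fderiv_smul {χ : ℂ → En0 V} {F : C2 → V} (h : Hom χ F) {c : ℂ} (hc : c ≠ 0) {v : C2}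
    (hv : v ≠ 0) (hd : DifferentiableAt ℝ F v) :
    DifferentiableAt ℝ F (c • v) ∧ ∀ w, fderiv ℝ F (c • v) (c • w) = χ c (fderiv ℝ F v w) := by
  have hcv : c • v ≠ 0 := smul_ne_zero hc hv
  have e : ∀ w : C2, smulL c⁻¹ (c • w) = w := fun w => by
    rw [smulL_apply, smul_smul, inv_mul_cancel₀ hc, one_smul]
  have h1 : HasFDerivAt F (fderiv ℝ F v) (smulL c⁻¹ (c • v)) := by rw [e]; exact hd.hasFDerivAt
  have h2 := (χ c).hasFDerivAt.comp (c • v) (h1.comp (c • v) (smulL c⁻¹).hasFDerivAt)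
  have h3 : F =ᶠ[𝓝 (c • v)] (χ c) ∘ F ∘ (smulL c⁻¹) := by
    filter_upwards [nz_mem_nhds hcv] with y hy
    have := h c hc (c⁻¹ • y) (smul_ne_zero (inv_ne_zero hc) hy)
    rw [smul_smul, mul_inv_cancel₀ hc, one_smul] at this
    exact this
  have h4 := h2.congr_of_eventuallyEq h3
  refine ⟨h4.differentiableAt, fun w => ?_⟩
  rw [h4.fderiv]
  simp only [ContinuousLinearMap.comp_apply, e]

theorem inv_iff_hom {U : C2 → V} : Inv U ↔ Hom (triv V) U := Iff.rfl

theorem Inv.fderiv_smul {U : C2 → V} (h : Inv U) {c : ℂ} (hc : c ≠ 0) {v : C2} (hv : v ≠ 0)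
    (hd : DifferentiableAt ℝ U v) (w : C2) : fderiv ℝ U (c • v) (c • w) = fderiv ℝ U v w :=
  ((inv_iff_hom.1 h).fderiv_smul hc hv hd).2 w

theorem Bs.hasDerivAt_line {U : C2 → V} {v : C2} (hd : DifferentiableAt ℝ U v) (c : ℂ) :
    HasDerivAt (fun t : ℝ => U ((1 + t * c) • v)) (fderiv ℝ U v (c • v)) 0 := by
  have h1 : HasDerivAt (fun t : ℝ => (1 + t * c : ℂ)) c 0 := by
    simpa using ((Complex.ofRealCLM.hasDerivAt (x := (0 : ℝ))).mul_const c).const_add 1
  have h2 := h1.smul_const v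
  have h3 : HasFDerivAt U (fderiv ℝ U v) ((1 + ((0 : ℝ) : ℂ) * c) • v) := by
    simpa using hd.hasFDerivAt
  exact h3.comp_hasDerivAt (0 : ℝ) h2

theorem Bs.line_ne (c : ℂ) : ∀ᶠ t : ℝ in 𝓝 0, (1 + t * c : ℂ) ≠ 0 := by
  have : ContinuousAt (fun t : ℝ => (1 + t * c : ℂ)) 0 := by fun_prop
  exact this.eventually_ne (by simp)

theorem Inv.fderiv_self {U : C2 → V} (h : Inv U) {v : C2} (hv : v ≠ 0)
    (hd : DifferentiableAt ℝ U v) (c : ℂ) : fderiv ℝ U v (c • v) = 0 := by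
  refine (hasDerivAt_line hd c).unique ((hasDerivAt_const (0 : ℝ) (U v)).congr_of_eventuallyEq ?_)
  filter_upwards [line_ne c] with t ht using h _ ht v hv

theorem mulC_apply (c z : ℂ) : mulC c z = c * z := rfl
theorem rep1_apply (k : ℤ) (c z : ℂ) : rep1 k c z = c ^ k * z := rfl
theorem repY1_apply (k : ℤ) (c z : ℂ) : repY1 k c z = c ^ k * (c / conj c) * z := rfl
theorem rep_apply (k : Fin 3 → ℤ) (c : ℂ) (ζ : C3) (i : Fin 3) : rep k c ζ i = c ^ k i * ζ i :=
  rfl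
theorem repY_apply (k : Fin 3 → ℤ) (c : ℂ) (ζ : C3) (i : Fin 3) :
    repY k c ζ i = c ^ k i * (c / conj c) * ζ i := rfl
theorem repQ_apply (c : ℂ) (n : V × V) : repQ V c n =
    ((c / conj c).re • n.1 - (c / conj c).im • n.2,
      (c / conj c).im • n.1 + (c / conj c).re • n.2) := rfl

/-- Euler identity -/
theorem Hom.euler1 {k : ℤ} {ζ : C2 → ℂ} (h : Hom (rep1 k) ζ) {v : C2} (hv : v ≠ 0)
    (hd : DifferentiableAt ℝ ζ v) (c : ℂ) : fderiv ℝ ζ v (c • v) = k * c * ζ v := by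
  have h1 : HasDerivAt (fun s : ℂ => (1 + s * c) ^ k * ζ v) (k * c * ζ v) ((0 : ℝ) : ℂ) := by
    have a : HasDerivAt (fun s : ℂ => 1 + s * c) c ((0 : ℝ) : ℂ) := by
      simpa using ((hasDerivAt_id ((0 : ℝ) : ℂ)).mul_const c).const_add 1
    have b := HasDerivAt.comp ((0 : ℝ) : ℂ) (h := fun s : ℂ => 1 + s * c)
      (hasDerivAt_zpow k (1 + ((0 : ℝ) : ℂ) * c) (Or.inl (by simp))) a
    simpa using b.mul_const (ζ v)
  refine (hasDerivAt_line hd c).unique (h1.comp_ofReal.congr_of_eventuallyEq ?_)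
  filter_upwards [line_ne c] with t ht using h _ ht v hv

theorem Bs.hom_comp3 {k : Fin 3 → ℤ} {ζ : C2 → C3} (h : Hom (rep k) ζ) (i : Fin 3) :
    Hom (rep1 (k i)) fun v => ζ v i := fun c hc v hv => by
  simp only [h c hc v hv, rep_apply, rep1_apply]

theorem Bs.fderiv_comp3 {ζ : C2 → C3} {v : C2} (hd : DifferentiableAt ℝ ζ v) (w : C2) (i : Fin 3) :
    fderiv ℝ ζ v w i = fderiv ℝ (fun v => ζ v i) v w := by
  rw [fderiv_apply hd]; rfl

theorem Hom.euler {k : Fin 3 → ℤ} {ζ : C2 → C3} (h : Hom (rep k) ζ) {v : C2} (hv : v ≠ 0)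
    (hd : DifferentiableAt ℝ ζ v) (c : ℂ) (i : Fin 3) :
    fderiv ℝ ζ v (c • v) i = k i * c * ζ v i := by
  rw [fderiv_comp3 hd]
  exact (hom_comp3 h i).euler1 hv (differentiableAt_pi.1 hd i) c

theorem Bs.contDiffOn_zp (k : ℤ) : ContDiffOn ℝ 1 (fun c : ℂ => c ^ k) {c | c ≠ 0} := by
  have : DifferentiableOn ℂ (fun c : ℂ => c ^ k) {c | c ≠ 0} := fun c hc =>
    (differentiableAt_zpow.2 (Or.inl hc)).differentiableWithinAt
  exact (this.contDiffOn isOpen_ne).restrict_scalars ℝ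

theorem Bs.contDiffOn_rot : ContDiffOn ℝ 1 (fun c : ℂ => c / conj c) {c | c ≠ 0} :=
  contDiffOn_id.mul ((contDiff_conj.of_le (m := 1) (by simp)).contDiffOn.inv
    fun c hc => by simpa using hc)

theorem rep_triv : Rep (triv V) := ⟨contDiffOn_const, rfl⟩

theorem rep_rep1 (k : ℤ) : Rep (rep1 k) :=
  ⟨(ContinuousLinearMap.mul ℝ ℂ).contDiff.comp_contDiffOn (contDiffOn_zp k), by
    refine ContinuousLinearMap.ext fun y => ?_
    simp [rep1_apply]⟩

theorem rep_repY1 (k : ℤ) : Rep (repY1 k) :=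
  ⟨(ContinuousLinearMap.mul ℝ ℂ).contDiff.comp_contDiffOn ((contDiffOn_zp k).mul contDiffOn_rot), by
    refine ContinuousLinearMap.ext fun y => ?_
    simp [repY1_apply]⟩

theorem rep_rep (k : Fin 3 → ℤ) : Rep (rep k) := by
  refine ⟨contDiffOn_clm_apply.2 fun y => contDiffOn_pi.2 fun i => ?_, ?_⟩
  · exact (contDiffOn_zp (k i)).mul contDiffOn_const
  · refine ContinuousLinearMap.ext fun y => funext fun i => ?_
    simp [rep_apply]

theorem rep_repY (k : Fin 3 → ℤ) : Rep (repY k) := by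
  refine ⟨contDiffOn_clm_apply.2 fun y => contDiffOn_pi.2 fun i => ?_, ?_⟩
  · exact ((contDiffOn_zp (k i)).mul contDiffOn_rot).mul contDiffOn_const
  · refine ContinuousLinearMap.ext fun y => funext fun i => ?_
    simp [repY_apply]

theorem rep_repQ : Rep (repQ V) := by
  have hr : ContDiffOn ℝ 1 (fun c : ℂ => (c / conj c).re) {c | c ≠ 0} :=
    reCLM.contDiff.comp_contDiffOn contDiffOn_rot
  have hi : ContDiffOn ℝ 1 (fun c : ℂ => (c / conj c).im) {c | c ≠ 0} :=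
    imCLM.contDiff.comp_contDiffOn contDiffOn_rot
  refine ⟨?_, ?_⟩
  · have e : repQ V = fun c : ℂ => (c / conj c).re • ContinuousLinearMap.id ℝ (V × V) +
        (c / conj c).im • (-ContinuousLinearMap.snd ℝ V V).prod (ContinuousLinearMap.fst ℝ V V) := by
      funext c
      refine ContinuousLinearMap.ext fun y => ?_
      rw [repQ_apply]
      ext <;> simp [sub_eq_add_neg, add_comm]
    rw [e]
    exact (hr.smul contDiffOn_const).add (hi.smul contDiffOn_const)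
  · refine ContinuousLinearMap.ext fun y => ?_
    simp [repQ_apply]

/-! ### Hoelder conditions -/

section Hld
variable {X : Type} [PseudoMetricSpace X] {G : Type} [NormedAddCommGroup G] [NormedSpace ℝ G]

theorem Hld.mono {C C' : ℝ} {f : X → E} {s t : Set X} (h : Hld C f s) (hC : C ≤ C') (ht : t ⊆ s) :
    Hld C' f t := fun x hx y hy =>
  (h x (ht hx) y (ht hy)).trans (mul_le_mul_of_nonneg_right hC (Real.sqrt_nonneg _))

theorem Hld.continuousOn {C : ℝ} {f : X → E} {s : Set X} (h : Hld C f s) : ContinuousOn f s := by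
  intro x hx
  refine tendsto_iff_norm_sub_tendsto_zero.2 (squeeze_zero' (g := fun y => C * √(dist y x))
    (Eventually.of_forall fun _ => norm_nonneg _) ?_ ?_)
  · filter_upwards [self_mem_nhdsWithin] with y hy using h y hy x hx
  · have : Continuous fun y => C * √(dist y x) := by fun_prop
    simpa using (this.tendsto x).mono_left nhdsWithin_le_nhds

theorem hld_of_lip {C D : ℝ} {f : X → E} {s : Set X} (hC : 0 ≤ C) (hD : 0 ≤ D)
    (h : ∀ x ∈ s, ∀ y ∈ s, ‖f x - f y‖ ≤ C * dist x y) (hd : ∀ x ∈ s, ∀ y ∈ s, dist x y ≤ D) :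
    Hld (C * √D) f s := by
  intro x hx y hy
  refine (h x hx y hy).trans ?_
  rw [mul_assoc]
  refine mul_le_mul_of_nonneg_left ?_ hC
  have _ := hD
  calc dist x y = √(dist x y) * √(dist x y) := (Real.mul_self_sqrt dist_nonneg).symm
    _ ≤ √D * √(dist x y) :=
      mul_le_mul_of_nonneg_right (Real.sqrt_le_sqrt (hd x hx y hy)) (Real.sqrt_nonneg _)

theorem LocH.mono {f : X → E} {s t : Set X} (h : LocH f s) (ht : t ⊆ s) : LocH f t :=
  fun x hx => h x (ht hx)

theorem LocH.continuousAt {f : X → E} {s : Set X} (h : LocH f s) {x : X} (hx : x ∈ s) :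
    ContinuousAt f x := by
  obtain ⟨C, N, hN, hC⟩ := h x hx
  exact hC.continuousOn.continuousAt hN

theorem LocH.congr {f g : X → E} {s : Set X} (h : LocH f s)
    (he : ∀ x ∈ s, ∀ᶠ y in 𝓝 x, g y = f y) : LocH g s := by
  intro x hx
  obtain ⟨C, N, hN, hC⟩ := h x hx
  refine ⟨C, N ∩ {y | g y = f y}, inter_mem hN (he x hx), fun y hy z hz => ?_⟩
  rw [hy.2, hz.2]
  exact hC y hy.1 z hz.1

theorem LocH.hld {f : X → E} {s K : Set X} (h : LocH f s) (hK : IsCompact K) (hs : K ⊆ s) :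
    ∃ C, 0 ≤ C ∧ (∀ x ∈ K, ‖f x‖ ≤ C) ∧ Hld C f K := by
  have hc : ContinuousOn f K := fun x hx => (h.continuousAt (hs hx)).continuousWithinAt
  obtain ⟨B, hB⟩ := hK.exists_bound_of_continuousOn hc
  choose! C N hN hC using h
  obtain ⟨t, htK, ht⟩ := hK.elim_nhds_subcover (fun x => interior (N x))
    fun x hx => interior_mem_nhds.2 (hN x (hs hx))
  obtain ⟨δ, hδ, hl⟩ := lebesgue_number_lemma_of_metric (c := fun i : t => interior (N i)) hK
    (fun _ => isOpen_interior) (by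
      intro x hx
      obtain ⟨i, hi, hxi⟩ := mem_iUnion₂.1 (ht hx)
      exact mem_iUnion.2 ⟨⟨i, hi⟩, hxi⟩)
  have hsq : 0 < √δ := Real.sqrt_pos.2 hδ
  have h1 : 0 ≤ ∑ i ∈ t, |C i| := Finset.sum_nonneg fun _ _ => abs_nonneg _
  have h2 : 0 ≤ 2 * |B| / √δ := by positivity
  have h3 := abs_nonneg B
  refine ⟨∑ i ∈ t, |C i| + 2 * |B| / √δ + |B|, by positivity, fun x hx => ?_, fun x hx y hy => ?_⟩
  · linarith [hB x hx, le_abs_self B]
  · rcases lt_or_ge (dist y x) δ with hd | hd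
    · obtain ⟨i, hi⟩ := hl x hx
      have := hC i (hs (htK i i.2)) x (interior_subset (hi (mem_ball_self hδ))) y
        (interior_subset (hi hd))
      refine this.trans (mul_le_mul_of_nonneg_right ?_ (Real.sqrt_nonneg _))
      have := Finset.single_le_sum (f := fun i => |C i|) (fun _ _ => abs_nonneg _) i.2
      linarith [le_abs_self (C i)]
    · rw [dist_comm] at hd
      calc ‖f x - f y‖ ≤ 2 * |B| := by
            linarith [norm_sub_le (f x) (f y), hB x hx, hB y hy, le_abs_self B]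
        _ = 2 * |B| / √δ * √δ := by field_simp
        _ ≤ (∑ i ∈ t, |C i| + 2 * |B| / √δ + |B|) * √(dist x y) :=
          mul_le_mul (by linarith) (Real.sqrt_le_sqrt hd) hsq.le (by positivity)

theorem Bs.lip_of_contDiffAt {f : V → E} {x : V} (h : ContDiffAt ℝ 1 f x) :
    ∃ C, 0 ≤ C ∧ ∃ N ∈ 𝓝 x, ∀ y ∈ N, ∀ z ∈ N, dist (f y) (f z) ≤ C * dist y z := by
  obtain ⟨K, t, ht, hK⟩ := h.exists_lipschitzOnWith
  exact ⟨K, K.2, t, ht, fun y hy z hz => hK.dist_le_mul y hy z hz⟩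

theorem locH_of_contDiffAt {f : V → E} {s : Set V} (h : ∀ x ∈ s, ContDiffAt ℝ 1 f x) :
    LocH f s := by
  intro x hx
  obtain ⟨C, hC, N, hN, hl⟩ := lip_of_contDiffAt (h x hx)
  refine ⟨C * √2, N ∩ ball x 1, inter_mem hN (ball_mem_nhds x one_pos),
    hld_of_lip hC zero_le_two (fun y hy z hz => ?_) fun y hy z hz => ?_⟩
  · rw [← dist_eq_norm]; exact hl y hy.1 z hz.1
  · linarith [dist_triangle_right y z x, mem_ball.1 hy.2, mem_ball.1 hz.2]

theorem LocH.add {f g : X → E} {s : Set X} (hf : LocH f s) (hg : LocH g s) :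
    LocH (fun x => f x + g x) s := by
  intro x hx
  obtain ⟨C, N, hN, hC⟩ := hf x hx
  obtain ⟨D, N', hN', hD⟩ := hg x hx
  refine ⟨C + D, N ∩ N', inter_mem hN hN', fun y hy z hz => ?_⟩
  rw [add_sub_add_comm, add_mul]
  exact (norm_add_le _ _).trans (add_le_add (hC y hy.1 z hz.1) (hD y hy.2 z hz.2))

theorem LocH.prod {f : X → E} {g : X → G} {s : Set X} (hf : LocH f s) (hg : LocH g s) :
    LocH (fun x => (f x, g x)) s := by
  intro x hx
  obtain ⟨C, N, hN, hC⟩ := hf x hx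
  obtain ⟨D, N', hN', hD⟩ := hg x hx
  refine ⟨max C D, N ∩ N', inter_mem hN hN', fun y hy z hz => ?_⟩
  rw [Prod.mk_sub_mk, Prod.norm_def]
  exact max_le (hC.mono (le_max_left _ _) Subset.rfl y hy.1 z hz.1)
    (hD.mono (le_max_right _ _) Subset.rfl y hy.2 z hz.2)

theorem LocH.pi {n : ℕ} {f : X → Fin n → E} {s : Set X} (hf : ∀ i, LocH (fun x => f x i) s) :
    LocH f s := by
  intro x hx
  choose C N hN hC using fun i => hf i x hx
  have h0 : 0 ≤ ∑ i, |C i| := Finset.sum_nonneg fun _ _ => abs_nonneg _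
  refine ⟨∑ i, |C i|, ⋂ i, N i, iInter_mem.2 hN, fun y hy z hz => ?_⟩
  refine (pi_norm_le_iff_of_nonneg (by positivity)).2 fun i => ?_
  exact (hC i).mono ((le_abs_self _).trans (Finset.single_le_sum (f := fun i => |C i|)
    (fun _ _ => abs_nonneg _) (Finset.mem_univ i))) (iInter_subset _ i) y hy z hz

/-- post-composition with a `C¹` map (covers linear maps, products, evaluation of operators) -/
theorem LocH.post {f : X → E} {Φ : E → G} {s : Set X} (hf : LocH f s)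
    (hΦ : ∀ x ∈ s, ContDiffAt ℝ 1 Φ (f x)) : LocH (fun x => Φ (f x)) s := by
  intro x hx
  obtain ⟨C, N, hN, hC⟩ := hf x hx
  obtain ⟨D, hD, N', hN', hl⟩ := lip_of_contDiffAt (hΦ x hx)
  refine ⟨D * C, N ∩ f ⁻¹' N', inter_mem hN (hf.continuousAt hx hN'), fun y hy z hz => ?_⟩
  rw [← dist_eq_norm, mul_assoc]
  refine (hl _ hy.2 _ hz.2).trans (mul_le_mul_of_nonneg_left ?_ hD)
  rw [dist_eq_norm]
  exact hC y hy.1 z hz.1

theorem LocH.clm_apply {f : X → E →L[ℝ] G} {g : X → E} {s : Set X} (hf : LocH f s)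
    (hg : LocH g s) : LocH (fun x => f x (g x)) s :=
  (hf.prod hg).post (Φ := fun p : (E →L[ℝ] G) × E => p.1 p.2)
    fun _ _ => (contDiff_fst.clm_apply contDiff_snd).contDiffAt

/-- pre-composition with a locally Lipschitz map -/
theorem LocH.pre_lip {Y : Type} [PseudoMetricSpace Y] {f : X → E} {φ : Y → X} {s : Set X}
    {t : Set Y} (hf : LocH f s) (hφ : ∀ x ∈ t, φ x ∈ s ∧ ∃ C, ∃ N ∈ 𝓝 x, ∀ y ∈ N, ∀ z ∈ N,
      dist (φ y) (φ z) ≤ C * dist y z) : LocH (fun x => f (φ x)) t := by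
  intro x hx
  obtain ⟨hs, C, N, hN, hl⟩ := hφ x hx
  obtain ⟨D, N', hN', hD⟩ := hf _ hs
  have hc : ContinuousAt φ x := by
    refine tendsto_iff_dist_tendsto_zero.2 (squeeze_zero' (g := fun y => C * dist y x)
      (Eventually.of_forall fun _ => dist_nonneg) ?_ ?_)
    · filter_upwards [hN] with y hy using hl y hy x (mem_of_mem_nhds hN)
    · have : Continuous fun y => C * dist y x := by fun_prop
      simpa using this.tendsto x
  refine ⟨|D| * √|C|, N ∩ φ ⁻¹' N', inter_mem hN (hc hN'), fun y hy z hz => ?_⟩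
  refine (hD.mono (le_abs_self D) Subset.rfl _ hy.2 _ hz.2).trans ?_
  rw [mul_assoc, ← Real.sqrt_mul (abs_nonneg C)]
  exact mul_le_mul_of_nonneg_left (Real.sqrt_le_sqrt ((hl y hy.1 z hz.1).trans
    (mul_le_mul_of_nonneg_right (le_abs_self C) dist_nonneg))) (abs_nonneg D)

/-- pre-composition with a `C¹` map -/
theorem LocH.pre {f : V → E} {φ : G → V} {s : Set V} {t : Set G} (hf : LocH f s)
    (hφ : ∀ x ∈ t, ContDiffAt ℝ 1 φ x ∧ φ x ∈ s) : LocH (fun x => f (φ x)) t :=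
  hf.pre_lip fun x hx => ⟨(hφ x hx).2, by
    obtain ⟨C, _, h⟩ := lip_of_contDiffAt (hφ x hx).1
    exact ⟨C, h⟩⟩

end Hld

theorem xh_of_contDiffOn {χ : ℂ → En0 V} {U : C2 → V} (h : Hom χ U) (hs : ContDiffOn ℝ 2 U nz) :
    XH χ U := by
  refine ⟨h, fun v hv => (hs.contDiffAt (nz_mem_nhds hv)).differentiableAt two_ne_zero,
    locH_of_contDiffAt fun v hv => ?_⟩
  exact (hs.contDiffAt (nz_mem_nhds hv)).fderiv_right (m := 1) le_rfl

theorem XH.contDiffOn {χ : ℂ → En0 V} {U : C2 → V} (h : XH χ U) : ContDiffOn ℝ 1 U nz := by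
  refine (contDiffOn_succ_iff_fderiv_of_isOpen (n := 0) isOpen_nz).2
    ⟨fun v hv => (h.2.1 v hv).differentiableWithinAt, by simp, ?_⟩
  exact contDiffOn_zero.2 fun v hv => (h.2.2.continuousAt hv).continuousWithinAt

theorem XH.yh {χ : ℂ → En0 V} {U : C2 → V} (h : XH χ U) : YH χ U :=
  ⟨h.1, locH_of_contDiffAt fun _ hv => h.contDiffOn.contDiffAt (nz_mem_nhds hv)⟩

/-! ### affine charts and the operators `dbar`, `db` -/

theorem fderiv_aff {U : C2 → V} {z : ℂ} (hd : DifferentiableAt ℝ U (z, 1)) (a : ℂ) :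
    fderiv ℝ (aff U) z a = fderiv ℝ U (z, 1) (a, 0) := by
  have h := hd.hasFDerivAt.comp z (hasFDerivAt_prodMk_left (𝕜 := ℝ) z (1 : ℂ))
  exact congrArg (fun L : ℂ →L[ℝ] V => L a) h.fderiv

theorem fderiv_aff' {U : C2 → V} {z : ℂ} (hd : DifferentiableAt ℝ U (1, z)) (a : ℂ) :
    fderiv ℝ (aff' U) z a = fderiv ℝ U (1, z) (0, a) := by
  have h := hd.hasFDerivAt.comp z (hasFDerivAt_prodMk_right (𝕜 := ℝ) (1 : ℂ) z)
  exact congrArg (fun L : ℂ →L[ℝ] V => L a) h.fderiv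

theorem Bs.smul_re_im {F : Type} [NormedAddCommGroup F] [NormedSpace ℂ F] (c : ℂ) (u : F) :
    c • u = c.re • u + c.im • (I • u) := by
  conv_lhs => rw [← re_add_im c]
  rw [add_smul, mul_smul, Complex.coe_smul, Complex.coe_smul]

section Cx
variable {F : Type} [NormedAddCommGroup F] [NormedSpace ℂ F]

theorem Bs.map_smul_of_I {L : C2 →L[ℝ] F} {u : C2} (h : L (I • u) = I • L u) (c : ℂ) :
    L (c • u) = c • L u := by
  rw [smul_re_im c u, smul_re_im c (L u), map_add, map_smul, map_smul, h]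

/-- the antilinear part is antilinear -/
theorem Bs.anti_smul (L : C2 →L[ℝ] F) (u : C2) (c : ℂ) :
    L (c • u) + I • L (I • c • u) = conj c • (L u + I • L (I • u)) := by
  have e : I • c • u = c.re • (I • u) - c.im • u := by
    rw [smul_comm, smul_re_im c, smul_smul I I, I_mul_I, neg_one_smul, smul_neg, sub_eq_add_neg]
  have e1 : L (c • u) = c.re • L u + c.im • L (I • u) := by
    rw [smul_re_im c u, map_add, map_smul, map_smul]
  have e2 : L (I • c • u) = c.re • L (I • u) - c.im • L u := by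
    rw [e, map_sub, L.map_smul, L.map_smul]
  have e3 : conj c = (c.re : ℂ) - c.im * I := by apply Complex.ext <;> simp
  rw [e1, e2, e3, ← Complex.coe_smul, ← Complex.coe_smul, ← Complex.coe_smul, ← Complex.coe_smul]
  have e4 : (c.im : ℂ) • L (I • u) = -(I * I * c.im) • L (I • u) := by rw [I_mul_I]; simp
  rw [e4]
  module

theorem Bs.eq_I_of_add {a b : F} (h : a + I • b = 0) : b = I • a := by
  rw [eq_neg_of_add_eq_zero_left h, smul_neg, smul_smul, I_mul_I, neg_smul, one_smul, neg_neg]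

theorem differentiableAt_of_dbar {w : ℂ → F} {z : ℂ} (hd : DifferentiableAt ℝ w z)
    (h : dbar w z = 0) : DifferentiableAt ℂ w z :=
  differentiableAt_complex_iff_differentiableAt_real.2
    ⟨hd, eq_I_of_add ((smul_eq_zero.1 h).resolve_left (by norm_num))⟩

theorem dbar_of_differentiableAt {w : ℂ → F} {z : ℂ} (hd : DifferentiableAt ℂ w z) :
    dbar w z = 0 := by
  rw [dbar, (differentiableAt_complex_iff_differentiableAt_real.1 hd).2, smul_smul I I, I_mul_I,
    neg_one_smul, add_neg_cancel, smul_zero]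

theorem differentiableAt_of_db {ζ : C2 → F} {v : C2} (hv : v ≠ 0) (hd : DifferentiableAt ℝ ζ v)
    (h : db ζ v = 0) (he : fderiv ℝ ζ v (I • v) = I • fderiv ℝ ζ v v) :
    DifferentiableAt ℂ ζ v := by
  have h1 := map_smul_of_I he
  have h2 := map_smul_of_I (eq_I_of_add h)
  have h3 : ∀ (c : ℂ) (w : C2), fderiv ℝ ζ v (c • w) = c • fderiv ℝ ζ v w := by
    intro c w
    obtain ⟨a, b, rfl⟩ := hor_decomp hv w
    simp only [smul_add, smul_smul, map_add, h1, h2]
  exact (differentiableAt_iff_restrictScalars ℝ hd).2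
    ⟨⟨⟨(fderiv ℝ ζ v).toAddHom, h3⟩, (fderiv ℝ ζ v).cont⟩, rfl⟩

theorem db_of_differentiableAt {ζ : C2 → F} {v : C2} (hd : DifferentiableAt ℂ ζ v) :
    db ζ v = 0 := by
  rw [db, hd.fderiv_restrictScalars ℝ]
  simp only [ContinuousLinearMap.coe_restrictScalars', map_smul, smul_smul, I_mul_I, neg_one_smul,
    add_neg_cancel]

theorem Bs.anti_add {L : C2 →L[ℝ] F} {v : C2} (he : L (I • v) = I • L v) (a : ℂ) (r : ℝ) (u : C2) :
    L (a • v + (r : ℂ) • u) + I • L (I • (a • v + (r : ℂ) • u)) =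
      (r : ℂ) • (L u + I • L (I • u)) := by
  have h := anti_smul L u r
  rw [conj_ofReal] at h
  rw [← h, smul_add, map_add, map_add, smul_smul I a, map_smul_of_I he, map_smul_of_I he, smul_add,
    smul_smul, ← mul_assoc, I_mul_I]
  module

/-- `db` in the two affine charts -/
theorem db_aff {ζ : C2 → F} {z : ℂ} (hd : DifferentiableAt ℝ ζ (z, 1))
    (he : fderiv ℝ ζ (z, 1) (I • (z, 1)) = I • fderiv ℝ ζ (z, 1) (z, 1)) :
    db ζ (z, 1) = (-2 * (1 + ‖z‖ ^ 2) : ℂ) • dbar (aff ζ) z := by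
  have e : hor (z, 1) = conj z • ((z, 1) : C2) + ((-(1 + ‖z‖ ^ 2) : ℝ) : ℂ) • ((1, 0) : C2) := by
    ext
    · simp [hor, conj_mul']
    · simp [hor]
  have e2 : I • ((1, 0) : C2) = (I, 0) := by simp
  rw [db, e, anti_add he, dbar, fderiv_aff hd, fderiv_aff hd, smul_smul, e2]
  congr 1
  push_cast
  ring

theorem db_aff' {ζ : C2 → F} {z : ℂ} (hd : DifferentiableAt ℝ ζ (1, z))
    (he : fderiv ℝ ζ (1, z) (I • (1, z)) = I • fderiv ℝ ζ (1, z) (1, z)) :
    db ζ (1, z) = (2 * (1 + ‖z‖ ^ 2) : ℂ) • dbar (aff' ζ) z := by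
  have e : hor (1, z) = (-conj z) • ((1, z) : C2) + ((1 + ‖z‖ ^ 2 : ℝ) : ℂ) • ((0, 1) : C2) := by
    ext
    · simp [hor]
    · simp [hor, conj_mul']
  have e2 : I • ((0, 1) : C2) = (0, I) := by simp
  rw [db, e, anti_add he, dbar, fderiv_aff' hd, fderiv_aff' hd, smul_smul, e2]
  congr 1
  push_cast
  ring

theorem Bs.locH_db {ζ : C2 → F} (h : LocH (fderiv ℝ ζ) nz) : LocH (db ζ) nz := by
  have h1 : LocH hor nz := locH_of_contDiffAt fun _ _ => (contDiff_hor.of_le (by simp)).contDiffAt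
  have h2 : LocH (fun v => I • hor v) nz := h1.post (Φ := fun w : C2 => I • w)
    fun _ _ => contDiffAt_id.const_smul I
  exact (h.clm_apply h1).add ((h.clm_apply h2).post (Φ := fun w : F => I • w)
    fun _ _ => contDiffAt_id.const_smul I)

/-- behaviour of `db` under scaling -/
theorem Bs.db_smul {ζ : C2 → F} {c : ℂ} (hc : c ≠ 0) {v : C2} (A : F → F)
    (hA : ∀ a b, A a + I • A b = A (a + I • b))
    (h : ∀ w, fderiv ℝ ζ (c • v) (c • w) = A (fderiv ℝ ζ v w)) :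
    db ζ (c • v) = A ((c / conj c) • db ζ v) := by
  have e : hor (c • v) = c • (conj c / c) • hor v := by
    rw [hor_smul, smul_smul, mul_div_cancel₀ _ hc]
  rw [db, e, smul_comm I c, h, h, hA, anti_smul, map_div₀, conj_conj, db]

end Cx

theorem XH.db1 {k : ℤ} {ζ : C2 → ℂ} (h : XH (rep1 k) ζ) : YH (repY1 k) (db ζ) := by
  refine ⟨fun c hc v hv => ?_, locH_db h.2.2⟩
  rw [db_smul hc (rep1 k c) (fun a b => by simp only [rep1_apply, smul_eq_mul]; ring)
    (h.1.fderiv_smul hc hv (h.2.1 v hv)).2, rep1_apply, repY1_apply, smul_eq_mul, mul_assoc]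

theorem XH.db3 {k : Fin 3 → ℤ} {ζ : C2 → C3} (h : XH (rep k) ζ) : YH (repY k) (db ζ) := by
  refine ⟨fun c hc v hv => ?_, locH_db h.2.2⟩
  rw [db_smul hc (rep k c) (fun a b => funext fun i => by
      simp only [rep_apply, smul_eq_mul, Pi.add_apply, Pi.smul_apply]; ring)
    (h.1.fderiv_smul hc hv (h.2.1 v hv)).2]
  funext i
  rw [rep_apply, repY_apply, Pi.smul_apply, smul_eq_mul, mul_assoc]

theorem Bs.map2_diff {S : Set V} {U : C2 → V} (h : Map2 S U) {v : C2} (hv : v ≠ 0) :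
    DifferentiableAt ℝ U v := (h.sm.contDiffAt (nz_mem_nhds hv)).differentiableAt two_ne_zero

theorem Bs.map2_mem_tan {S : Set V} {U : C2 → V} (h : Map2 S U) {v : C2} (hv : v ≠ 0) (w : C2) :
    fderiv ℝ U v w ∈ tan S (U v) :=
  fderiv_mem_tan (map2_diff h hv) (mem_of_superset (nz_mem_nhds hv) h.mem) w

theorem IsSph.hol {S : Set V} {J : V → En0 V} {U : C2 → V} (h : IsSph S J U) :
    IsHol J (aff U) univ ∧ IsHol J (aff' U) univ := by
  refine ⟨⟨h.sm.comp (contDiff_id.prodMk contDiff_const).contDiffOn fun z _ => aff_ne z,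
    fun z _ => ?_⟩, ⟨h.sm.comp (contDiff_const.prodMk contDiff_id).contDiffOn fun z _ => aff_ne' z,
    fun z _ => ?_⟩⟩
  · rw [fderiv_aff (map2_diff h.1 (aff_ne z)), fderiv_aff (map2_diff h.1 (aff_ne z))]
    simpa [aff] using h.cr _ (aff_ne z) (1, 0)
  · rw [fderiv_aff' (map2_diff h.1 (aff_ne' z)), fderiv_aff' (map2_diff h.1 (aff_ne' z))]
    simpa [aff'] using h.cr _ (aff_ne' z) (0, 1)

theorem Bs.fderiv_congr_nz {U U' : C2 → V} (he : ∀ v, v ≠ 0 → U' v = U v) {v : C2} (hv : v ≠ 0) :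
    fderiv ℝ U' v = fderiv ℝ U v :=
  EventuallyEq.fderiv_eq (mem_of_superset (nz_mem_nhds hv) he)

theorem IsSph.congr {S S' : Set V} {J J' : V → En0 V} {U U' : C2 → V} (h : IsSph S J U)
    (he : ∀ v, v ≠ 0 → U' v = U v) (hS : ∀ v, v ≠ 0 → U v ∈ S')
    (hJ : ∀ v, v ≠ 0 → ∀ a ∈ tan S (U v), J' (U v) a = J (U v) a) : IsSph S' J' U' := by
  refine ⟨⟨h.sm.congr he, fun c hc v hv => ?_, fun v hv => ?_⟩, fun v hv w => ?_⟩
  · rw [he _ (smul_ne_zero hc hv), he v hv, h.inv c hc v hv]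
  · rw [he v hv]; exact hS v hv
  · rw [fderiv_congr_nz he hv, he v hv, hJ v hv _ (map2_mem_tan h.1 hv w), h.cr v hv]

theorem area_congr {β β' : F2 V} {S : Set V} {U U' : C2 → V} (h : Map2 S U)
    (he : ∀ v, v ≠ 0 → U' v = U v)
    (hβ : ∀ v, v ≠ 0 → ∀ a ∈ tan S (U v), ∀ b ∈ tan S (U v), β' (U v) a b = β (U v) a b) :
    area β' U' = area β U := by
  have e : aff U' = aff U := funext fun z => he _ (aff_ne z)
  unfold area
  rw [e]
  congr 1
  funext z
  unfold dens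
  rw [fderiv_aff (map2_diff h (aff_ne z)), fderiv_aff (map2_diff h (aff_ne z))]
  exact hβ _ (aff_ne z) _ (map2_mem_tan h (aff_ne z) _) _ (map2_mem_tan h (aff_ne z) _)

theorem Bs.map_re_im (A : ℂ →L[ℝ] V) (a : ℂ) : A a = a.re • A 1 + a.im • A I := by
  rw [← map_smul, ← map_smul, ← map_add]
  congr 1
  simp

theorem IsHol.apply {J : V → En0 V} {u : ℂ → V} {Ω : Set ℂ} (h : IsHol J u Ω) {z : ℂ} (hz : z ∈ Ω)
    (hsq : ∀ v, J (u z) (J (u z) v) = -v) (a : ℂ) :
    fderiv ℝ u z (I * a) = J (u z) (fderiv ℝ u z a) := by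
  rw [map_re_im _ (I * a), map_re_im _ a, h.cr z hz, map_add, map_smul, map_smul, hsq, I_mul_re,
    I_mul_im, neg_smul, smul_neg, add_comm]

theorem IsHol.comp {J : V → En0 V} {u : ℂ → V} {Ω Ω' : Set ℂ} (h : IsHol J u Ω) (hΩ : IsOpen Ω)
    (hΩ' : IsOpen Ω') (hsq : ∀ z ∈ Ω, ∀ v, J (u z) (J (u z) v) = -v) {m : ℂ → ℂ}
    (hm : DifferentiableOn ℂ m Ω') (hmaps : MapsTo m Ω' Ω) : IsHol J (u ∘ m) Ω' := by
  refine ⟨h.sm.comp ((hm.contDiffOn hΩ').restrict_scalars ℝ) hmaps, fun z hz => ?_⟩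
  have h1 : DifferentiableAt ℂ m z := hm.differentiableAt (hΩ'.mem_nhds hz)
  have h2 : DifferentiableAt ℝ u (m z) :=
    (h.sm.contDiffAt (hΩ.mem_nhds (hmaps hz))).differentiableAt two_ne_zero
  rw [fderiv_comp z h2 (h1.restrictScalars ℝ), ContinuousLinearMap.comp_apply,
    ContinuousLinearMap.comp_apply, (differentiableAt_complex_iff_differentiableAt_real.1 h1).2]
  exact h.apply (hmaps hz) (hsq _ (hmaps hz)) _

theorem norm_fderiv_le_two (A : ℂ →L[ℝ] V) : ‖A‖ ≤ ‖A 1‖ + ‖A I‖ := by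
  refine A.opNorm_le_bound (by positivity) fun a => ?_
  rw [map_re_im, add_mul]
  refine (norm_add_le _ _).trans (add_le_add ?_ ?_) <;> rw [norm_smul, mul_comm]
  · exact mul_le_mul_of_nonneg_left (abs_re_le_norm a) (norm_nonneg _)
  · exact mul_le_mul_of_nonneg_left (abs_im_le_norm a) (norm_nonneg _)

/-! ### the standard structure of `E6` -/

theorem cz_j6 (y : E6) : cz (j6 y) = I • cz y := by
  funext i
  fin_cases i <;> apply Complex.ext <;> simp [cz, j6]

theorem Bs.norm_sq_E6 (y : E6) :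
    ‖y‖ ^ 2 = y 0 ^ 2 + y 1 ^ 2 + y 2 ^ 2 + y 3 ^ 2 + y 4 ^ 2 + y 5 ^ 2 := by
  rw [EuclideanSpace.real_norm_sq_eq, Fin.sum_univ_six]

theorem norm_sq_cz (y : E6) : ‖y‖ ^ 2 = ∑ i, ‖cz y i‖ ^ 2 := by
  rw [norm_sq_E6, Fin.sum_univ_three]
  simp only [Complex.sq_norm, normSq_apply]
  simp [cz]
  ring

theorem om0_j6 (y : E6) : om0 y (j6 y) = ‖y‖ ^ 2 := by
  rw [norm_sq_E6]
  simp [om0, j6]
  ring

theorem exists_j6L : ∃ L : E6 →L[ℝ] E6, (∀ y, L y = j6 y) ∧ ∀ y, L (L y) = -y := by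
  refine ⟨LinearMap.toContinuousLinearMap ⟨⟨j6, fun x y => ?_⟩, fun c x => ?_⟩, fun _ => rfl,
    fun y => ?_⟩
  · ext i; fin_cases i <;> simp [j6, add_comm]
  · ext i; fin_cases i <;> simp [j6]
  · change j6 (j6 y) = -y
    ext i; fin_cases i <;> simp [j6]

theorem exists_czL : ∃ L : E6 ≃L[ℝ] C3, ∀ y, L y = cz y := by
  refine ⟨LinearEquiv.toContinuousLinearEquiv
    { toFun := cz
      map_add' := fun x y => ?_
      map_smul' := fun c x => ?_
      invFun := fun ζ => !₂[(ζ 0).re, (ζ 0).im, (ζ 1).re, (ζ 1).im, (ζ 2).re, (ζ 2).im]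
      left_inv := fun y => ?_
      right_inv := fun ζ => ?_ }, fun _ => rfl⟩
  · funext i; fin_cases i <;> apply Complex.ext <;> simp [cz]
  · funext i; fin_cases i <;> apply Complex.ext <;> simp [cz]
  · ext i; fin_cases i <;> simp [cz]
  · funext i; fin_cases i <;> simp [cz]

end Pool.Agent.MP_9758ca_gt
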