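import Mathlib.MeasureTheory.Integral.IntervalIntegral.Basic
import Mathlib.Analysis.SpecialFunctions.SmoothTransition
import Pool.Agent.MP_9758ca_gt.Defs

/-!
PROJECT BALL: the explicit example, a blow-up of `CP² × S¹ × ℝ` along the tori `V_j`.
See /team-store/BALL_BLUEPRINT.md.
-/

open scoped Topology ContDiff ComplexConjugate
open Set Metric Filter Complex

namespace Pool.Agent.MP_9758ca_gt

noncomputable section

abbrev C4 : Type := Fin 4 → ℂ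
abbrev M3 : Type := Fin 3 → Fin 3 → ℂ
abbrev M4 : Type := Fin 4 → Fin 4 → ℂ
abbrev W0 : Type := M3 × ℂ × M4
/-- points `((P, a, R), T)` -/
abbrev VV : Type := W0 × ℝ

def nsq {m : ℕ} (n : Fin m → ℂ) : ℝ := ∑ i, ‖n i‖ ^ 2

/-- Hermitian product, conjugate-linear in the first slot -/
def her {m : ℕ} (n a : Fin m → ℂ) : ℂ := ∑ i, conj (n i) * a i

/-- orthogonal projector on the line of `n` -/
def prj {m : ℕ} (n : Fin m → ℂ) : Fin m → Fin m → ℂ := fun i j => n i * conj (n j) / (nsq n : ℂ)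

/-- the connection form `Im ⟨n, dn⟩ / (2π |n|²)` -/
def th {m : ℕ} (n : Fin m → ℂ) : (Fin m → ℂ) →L[ℝ] ℝ :=
  (2 * Real.pi * nsq n)⁻¹ •
    ∑ i, imCLM.comp ((mulC (conj (n i))).comp (ContinuousLinearMap.proj i))

def cub (n : C3) : ℂ := n 0 * n 1 * n 2 - (n 0 ^ 3 + n 1 ^ 3 + n 2 ^ 3) / 400

/-- the affine cubic -/
def cuf (x y : ℂ) : ℂ := x * y - (1 + x ^ 3 + y ^ 3) / 400

/-- one for `t ≤ a`, zero for `t ≥ b` -/
def stp (a b t : ℝ) : ℝ := 1 - Real.smoothTransition ((t - a) / (b - a))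

def rho (t : ℝ) : ℝ := stp (1 / 1600) (1 / 100) t
def chi (t : ℝ) : ℝ := stp (1 / 4) 1 t
def cut (t : ℝ) : ℝ := stp (1 / 200000000) (1 / 100000000) t
def kap (t : ℝ) : ℝ := stp (1 / 400) (1 / 100) (t ^ 2)
def bb (b₀ t : ℝ) : ℝ := 4 - (4 - b₀) * stp (1 / 100) (1 / 25) (t ^ 2)
def BI (b₀ t : ℝ) : ℝ := ∫ s in (0 : ℝ)..t, bb b₀ s

def r0 (n : C3) : ℝ := ‖n 0‖ ^ 2 / ‖n 2‖ ^ 2
def r1 (n : C3) : ℝ := ‖n 1‖ ^ 2 / ‖n 2‖ ^ 2

/-- the function whose graph over the cubic is the centre of the blow-up -/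
def aa (n : C3) : ℂ := 1 + (chi (r0 n) : ℂ) * (exp (2 * Real.pi * I * rho (r1 n)) - 1)

/-- the twisting one-form -/
def al (n : C3) : C3 →L[ℝ] ℝ := (chi (r0 n) * deriv rho (r1 n)) • fderiv ℝ r1 n

def Xi (j : ℤ) (n : C3) (a : ℂ) (T : ℝ) : ℂ :=
  a * conj (aa n) * (Real.exp (-(2 * Real.pi * (T - j))) : ℂ) - 1

def nu (n : C3) (p q : ℂ) : C4 := ![p * conj (n 0) ^ 3, p * conj (n 1) ^ 3, p * conj (n 2) ^ 3, q]

def NN (j : ℤ) (n : C3) (a : ℂ) (T : ℝ) : C4 := nu n (cub n / (nsq n : ℂ) ^ 3) (Xi j n a T)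

def pt (n : C3) (a : ℂ) (T : ℝ) (R : M4) : VV := ((prj n, a, R), T)

def RR (j : ℤ) (n : C3) (a : ℂ) (T : ℝ) : M4 := cut (nsq (NN j n a T)) • prj (NN j n a T)

/-- the point over `(n, a, T)` away from the centres -/
def lift (n : C3) (a : ℂ) (T : ℝ) : VV := pt n a T (RR (round T) n a T)

/-- the exceptional divisors -/
def EE : Set VV :=
  {x | ∃ (n : C3) (a : ℂ) (j : ℤ) (p q : ℂ), n ≠ 0 ∧ ‖a‖ = 1 ∧ NN j n a j = 0 ∧ (p ≠ 0 ∨ q ≠ 0) ∧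
    x = pt n a j (prj (nu n p q))}

/-- the complement of the exceptional divisors -/
def SO : Set VV :=
  {x | ∃ (n : C3) (a : ℂ) (T : ℝ), n ≠ 0 ∧ ‖a‖ = 1 ∧ NN (round T) n a T ≠ 0 ∧ x = lift n a T}

/-- the infinite cyclic cover of the example -/
def SS : Set VV := SO ∪ EE

/-- the part of the `j`-th exceptional divisor over the positive oval -/
def ZZ (j : ℤ) : Set VV :=
  {x | ∃ (s t : ℝ) (a : ℂ) (p q : ℂ), 0 ≤ s ∧ 0 ≤ t ∧ ‖a‖ = 1 ∧ NN j ![s, t, 1] a j = 0 ∧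
    (p ≠ 0 ∨ q ≠ 0) ∧ x = pt ![s, t, 1] a j (prj (nu ![s, t, 1] p q))}

/-- the preimage of the line `n₀ + n₁ + n₂ = 0` -/
def DD : Set VV := {x | ∑ i, ∑ k, x.1.1 i k = 0}

/-! ### functions on the ambient space -/

/-- column `k` of `P` -/
def colL (k : Fin 3) : VV →L[ℝ] C3 :=
  ContinuousLinearMap.pi fun i => (ContinuousLinearMap.proj k).comp
    ((ContinuousLinearMap.proj i).comp
      ((ContinuousLinearMap.fst ℝ M3 (ℂ × M4)).comp (ContinuousLinearMap.fst ℝ W0 ℝ)))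

/-- column `k` of `R` -/
def colR (k : Fin 4) : VV →L[ℝ] C4 :=
  ContinuousLinearMap.pi fun i => (ContinuousLinearMap.proj k).comp
    ((ContinuousLinearMap.proj i).comp ((ContinuousLinearMap.snd ℝ ℂ M4).comp
      ((ContinuousLinearMap.snd ℝ M3 (ℂ × M4)).comp (ContinuousLinearMap.fst ℝ W0 ℝ))))

/-- the coordinate `a` -/
def aL : VV →L[ℝ] ℂ :=
  (ContinuousLinearMap.fst ℝ ℂ M4).comp
    ((ContinuousLinearMap.snd ℝ M3 (ℂ × M4)).comp (ContinuousLinearMap.fst ℝ W0 ℝ))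

/-- the coordinate `T` -/
def tL : VV →L[ℝ] ℝ := ContinuousLinearMap.snd ℝ W0 ℝ

def xk (k : Fin 3) (x : VV) : ℂ := x.1.1 (k.succAbove 0) k / x.1.1 k k
def yk (k : Fin 3) (x : VV) : ℂ := x.1.1 (k.succAbove 1) k / x.1.1 k k
def fk (k : Fin 3) (x : VV) : ℂ := cuf (xk k x) (yk k x)
def XiA (k : Fin 3) (j : ℤ) (x : VV) : ℂ := Xi j (colL k x) (aL x) x.2
def NA (k : Fin 3) (j : ℤ) (x : VV) : C4 := NN j (colL k x) (aL x) x.2
def mu1 (k : Fin 3) (x : VV) : ℂ :=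
  x.1.1 k k ^ 3 * x.1.2.2 3 k.castSucc / x.1.2.2 k.castSucc k.castSucc
def mu2 (k : Fin 3) (x : VV) : ℂ := x.1.2.2 k.castSucc 3 / (x.1.2.2 3 3 * x.1.1 k k ^ 3)

/-- the form `ds = Im (da / a) / 2π` -/
def ds (x : VV) : VV →L[ℝ] ℝ := (2 * Real.pi)⁻¹ • imCLM.comp ((mulC (aL x)⁻¹).comp aL)

/-- the form `dw = ds + i dT` -/
def dw (x : VV) : VV →L[ℝ] ℂ := ofRealCLM.comp (ds x) + (mulC I).comp (ofRealCLM.comp tL)

/-- the form `dw - κ α` -/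
def et (k : Fin 3) (j : ℤ) (x : VV) : VV →L[ℝ] ℂ :=
  dw x - kap (x.2 - j) • ofRealCLM.comp ((al (colL k x)).comp (colL k))

/-- atlas index: type (0 = O, 1 = I, 2 = IIx, 3 = IIy), affine chart, wall -/
abbrev Idx : Type := Fin 4 × Fin 3 × ℤ

def dom (i : Idx) : Set VV :=
  {x | x.1.1 i.2.1 i.2.1 ≠ 0 ∧ aL x ≠ 0 ∧ |x.2 - i.2.2| < 3 / 4 ∧
    ![NA i.2.1 i.2.2 x ≠ 0,
      nsq (NA i.2.1 i.2.2 x) < 1 / 200000000 ∧ x.1.2.2 i.2.1.castSucc i.2.1.castSucc ≠ 0,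
      nsq (NA i.2.1 i.2.2 x) < 1 / 200000000 ∧ x.1.2.2 3 3 ≠ 0 ∧
        yk i.2.1 x ≠ 3 * xk i.2.1 x ^ 2 / 400,
      nsq (NA i.2.1 i.2.2 x) < 1 / 200000000 ∧ x.1.2.2 3 3 ≠ 0 ∧
        xk i.2.1 x ≠ 3 * yk i.2.1 x ^ 2 / 400] i.1}

def cof (i : Idx) (x : VV) : VV →L[ℝ] C3 :=
  ContinuousLinearMap.pi
    (![![fderiv ℝ (xk i.2.1) x, fderiv ℝ (yk i.2.1) x, et i.2.1 i.2.2 x],
      ![fderiv ℝ (xk i.2.1) x, fderiv ℝ (yk i.2.1) x, fderiv ℝ (mu1 i.2.1) x],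
      ![fderiv ℝ (yk i.2.1) x, fderiv ℝ (XiA i.2.1 i.2.2) x, fderiv ℝ (mu2 i.2.1) x],
      ![fderiv ℝ (xk i.2.1) x, fderiv ℝ (XiA i.2.1 i.2.2) x, fderiv ℝ (mu2 i.2.1) x]] i.1)

/-- primitive of the Fubini-Study form -/
def lamH (i : Idx) : F1 VV := fun x => (th (colL i.2.1 x)).comp (colL i.2.1)

/-- primitive of `b(T) ds ∧ dT` -/
def lamB (b₀ : ℝ) (i : Idx) : F1 VV := fun x => -(BI b₀ (x.2 - i.2.2) • ds x)

/-- primitive of the form dual to minus the exceptional divisor -/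
def lamS (i : Idx) : F1 VV := fun x =>
  ![cut (nsq (NA i.2.1 i.2.2 x)) • pb (NA i.2.1 i.2.2) th x,
    (th (colR i.2.1.castSucc x)).comp (colR i.2.1.castSucc),
    (th (colR 3 x)).comp (colR 3), (th (colR 3 x)).comp (colR 3)] i.1

/-- the atlas; the second form is `h` if `t` is true and the exceptional form otherwise -/
def atl (b₀ ε : ℝ) (t : Bool) : Atl VV where
  ι := Idx
  U := dom
  η := cof
  l := fun i x => lamH i x + lamB b₀ i x + ε • lamS i x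
  m := fun i => if t then lamH i else lamS i

/-- the three base forms are complex linear on the pair `(a, b)`, read as `b = J a` -/
def BaseRel (x a b : VV) : Prop :=
  ∀ (k : Fin 3) (j : ℤ), x.1.1 k k ≠ 0 → |x.2 - j| < 3 / 4 →
    fderiv ℝ (xk k) x b = I * fderiv ℝ (xk k) x a ∧ fderiv ℝ (yk k) x b = I * fderiv ℝ (yk k) x a ∧
    et k j x b = I * et k j x a

open Classical in
/-- local equations of `ZZ j` -/
def gZ (j : ℤ) (x₀ x : VV) : ℂ × ℝ :=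
  (if x₀.1.2.2 2 2 ≠ 0 then fk 2 x else XiA 2 j x,
    if yk 2 x₀ ≠ 3 * xk 2 x₀ ^ 2 / 400 then (yk 2 x).im else (xk 2 x).im)

open Classical in
/-- local equation of `DD` -/
def gD (x₀ x : VV) : ℂ :=
  if x₀.1.1 2 2 ≠ 0 then ∑ i, x.1.1 i 2 else if x₀.1.1 1 1 ≠ 0 then ∑ i, x.1.1 i 1
  else ∑ i, x.1.1 i 0

open Classical in
/-- local equation of `EE` -/
def gE (x₀ x : VV) : ℂ :=
  if h : ∃ k : Fin 3, x₀.1.2.2 k.castSucc k.castSucc ≠ 0 then fk h.choose x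
  else if h' : ∃ k : Fin 3, x₀.1.1 k k ≠ 0 then XiA h'.choose (round x₀.2) x else 0

/-- the vertical line through the centres of the balls -/
def vert (T : ℝ) : VV := pt ![1, 0, 0] (-1) T 0

/-- the ball in the chamber `l < T < l + 1` -/
def ball0 (l : ℤ) (y : E6) : VV :=
  pt ![(√(1 - Real.pi * (y 0 ^ 2 + y 1 ^ 2 + y 2 ^ 2 + y 3 ^ 2)) : ℝ),
      (√Real.pi : ℝ) * cz y 0, (√Real.pi : ℝ) * cz y 1]
    (-exp (Real.pi * I * y 4)) (l + 2⁻¹ + y 5 / 2) 0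

/-- the value of `y` on the explicit line -/
def ys : ℝ := √(17 / 3200)

/-- the lift of the explicit line through the point `(xs, ys)` of the oval -/
def nl (xs : ℝ) (v : C2) : C3 := ![-(1 + xs + ys) * v.1 + xs * v.2, ys * v.2, v.2]

open Classical in
/-- the explicit sphere -/
def Us (j : ℤ) (xs : ℝ) (v : C2) : VV :=
  pt (nl xs v) (-1) j (if v.1 = 0 then prj (nu (nl xs v) 1 0) else RR j (nl xs v) (-1) j)

/-- `xs` is the small root -/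
def Root (xs : ℝ) : Prop := 0 < xs ∧ xs < 1 / 2 ∧ cuf xs ys = 0

end

end Pool.Agent.MP_9758ca_gt
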