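import Mathlib.Algebra.Ring.IsFormallyReal
import Mathlib.Analysis.InnerProductSpace.Calculus
import Mathlib.Analysis.Real.Pi.Bounds
import Pool.Agent.MP_9758ca_gt.Geo
import Pool.Agent.MP_9758ca_gt.Basic

-- ======== part 0: formerly Pool.Agent.MP_9758ca_gt.FS
section MrgPart0

/-!
PROJECT BALL, library FS: projectors and the Fubini-Study form.
-/

open scoped Topology ContDiff ComplexConjugate
open Set Metric Filter Complex

namespace Pool.Agent.MP_9758ca_gt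

variable {m : ℕ}

theorem nsq_nonneg (n : Fin m → ℂ) : 0 ≤ nsq n :=
  Finset.sum_nonneg fun _ _ => sq_nonneg _

theorem nsq_eq_zero {n : Fin m → ℂ} : nsq n = 0 ↔ n = 0 := by
  unfold nsq
  rw [Finset.sum_eq_zero_iff_of_nonneg fun _ _ => sq_nonneg _]
  constructor
  · intro h
    funext i
    simpa using h i (Finset.mem_univ i)
  · rintro rfl i _
    simp

theorem nsq_pos {n : Fin m → ℂ} (h : n ≠ 0) : 0 < nsq n :=
  lt_of_le_of_ne (nsq_nonneg n) fun e => h (nsq_eq_zero.1 e.symm)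

theorem nsq_smul (c : ℂ) (n : Fin m → ℂ) : nsq (c • n) = ‖c‖ ^ 2 * nsq n := by
  simp [nsq, Finset.mul_sum, mul_pow]

theorem her_self (n : Fin m → ℂ) : her n n = nsq n := by
  simp [her, nsq, Complex.conj_mul']

theorem her_smul_right (c : ℂ) (n a : Fin m → ℂ) : her n (c • a) = c * her n a := by
  simp only [her, Finset.mul_sum, Pi.smul_apply, smul_eq_mul]
  exact Finset.sum_congr rfl fun i _ => by ring

theorem her_smul_left (c : ℂ) (n a : Fin m → ℂ) : her (c • n) a = conj c * her n a := by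
  simp only [her, Finset.mul_sum, Pi.smul_apply, smul_eq_mul, map_mul]
  exact Finset.sum_congr rfl fun i _ => by ring

theorem her_add_right (n a b : Fin m → ℂ) : her n (a + b) = her n a + her n b := by
  simp only [her, Pi.add_apply, mul_add, Finset.sum_add_distrib]

theorem her_add_left (n a b : Fin m → ℂ) : her (n + a) b = her n b + her a b := by
  simp only [her, Pi.add_apply, map_add, add_mul, Finset.sum_add_distrib]

theorem her_conj (n a : Fin m → ℂ) : conj (her n a) = her a n := by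
  simp only [her, map_sum, map_mul, Complex.conj_conj]
  exact Finset.sum_congr rfl fun i _ => by ring

theorem conj_mul_self_eq (c : ℂ) : conj c * c = ((‖c‖ ^ 2 : ℝ) : ℂ) := by
  rw [Complex.conj_mul']
  simp

theorem nsq_sub_proj {n : Fin m → ℂ} (hn : n ≠ 0) (a : Fin m → ℂ) :
    nsq (a + (-(her n a / (nsq n : ℂ))) • n) = nsq a - ‖her n a‖ ^ 2 / nsq n := by
  have hN : (nsq n : ℂ) ≠ 0 := Complex.ofReal_ne_zero.2 (nsq_pos hn).ne'
  apply Complex.ofReal_injective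
  rw [← her_self, her_add_left, her_add_right, her_add_right, her_smul_left, her_smul_left,
    her_smul_right, her_smul_right, her_self, her_self, ← her_conj n a]
  have h1 := conj_mul_self_eq (her n a)
  rw [Complex.ofReal_sub, Complex.ofReal_div, ← h1]
  simp only [map_neg, map_div₀, Complex.conj_ofReal]
  field_simp
  ring

/-- Cauchy-Schwarz with the equality case -/
theorem her_cs (n a : Fin m → ℂ) : ‖her n a‖ ^ 2 ≤ nsq n * nsq a := by
  by_cases hn : n = 0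
  · subst hn
    simp [her, nsq]
  · have h1 := nsq_nonneg (a + (-(her n a / (nsq n : ℂ))) • n)
    rw [nsq_sub_proj hn, sub_nonneg, div_le_iff₀ (nsq_pos hn)] at h1
    linarith

theorem her_cs_eq {n a : Fin m → ℂ} (hn : n ≠ 0) (h : ‖her n a‖ ^ 2 = nsq n * nsq a) :
    ∃ c : ℂ, a = c • n := by
  have h1 := nsq_sub_proj hn a
  rw [h, mul_div_cancel_left₀ _ (nsq_pos hn).ne', sub_self, nsq_eq_zero, neg_smul,
    add_neg_eq_zero] at h1
  exact ⟨_, h1⟩

theorem contDiff_nsq : ContDiff ℝ ∞ (nsq : (Fin m → ℂ) → ℝ) :=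
  ContDiff.sum fun i _ => (contDiff_apply ℝ ℂ i).norm_sq ℝ

theorem fderiv_nsq (n a : Fin m → ℂ) : fderiv ℝ nsq n a = 2 * (her n a).re := by
  have h : HasFDerivAt (nsq : (Fin m → ℂ) → ℝ)
      (∑ i, 2 • (innerSL ℝ (n i)).comp (ContinuousLinearMap.proj (R := ℝ) (φ := fun _ => ℂ) i))
      n := by
    unfold nsq
    exact HasFDerivAt.fun_sum fun i _ => (hasFDerivAt_apply (𝕜 := ℝ) i n).norm_sq
  rw [h.fderiv]
  simp only [her, _root_.sum_apply, Complex.re_sum, Finset.mul_sum]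
  refine Finset.sum_congr rfl fun i _ => ?_
  simp [Complex.inner]
  ring

theorem prj_smul {c : ℂ} (hc : c ≠ 0) (n : Fin m → ℂ) : prj (c • n) = prj n := by
  funext i j
  have h1 := conj_mul_self_eq c
  have h2 : conj c * c ≠ 0 := mul_ne_zero (by simpa using hc) hc
  simp only [prj, nsq_smul, Pi.smul_apply, smul_eq_mul, map_mul]
  rw [Complex.ofReal_mul, ← h1, ← mul_div_mul_left (n i * conj (n j)) (nsq n : ℂ) h2]
  congr 1
  ring

theorem prj_zero : prj (0 : Fin m → ℂ) = 0 := by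
  funext i j
  simp [prj]

theorem prj_diag (n : Fin m → ℂ) (k : Fin m) : prj n k k = ((‖n k‖ ^ 2 / nsq n : ℝ) : ℂ) := by
  rw [Complex.ofReal_div, ← conj_mul_self_eq, mul_comm]
  rfl

theorem prj_diag_ne {n : Fin m → ℂ} {k : Fin m} : prj n k k ≠ 0 ↔ n k ≠ 0 := by
  constructor
  · intro h e
    exact h (by simp [prj, e])
  · intro h
    have hn : n ≠ 0 := fun e => h (by simp [e])
    have hN : (nsq n : ℂ) ≠ 0 := Complex.ofReal_ne_zero.2 (nsq_pos hn).ne'
    exact div_ne_zero (mul_ne_zero h (by simpa using h)) hN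

theorem prj_col (n : Fin m → ℂ) (k : Fin m) :
    (fun i => prj n i k) = (conj (n k) / (nsq n : ℂ)) • n := by
  funext i
  simp only [prj, Pi.smul_apply, smul_eq_mul]
  ring

theorem prj_ratio {n : Fin m → ℂ} {k : Fin m} (h : n k ≠ 0) (i : Fin m) :
    prj n i k / prj n k k = n i / n k := by
  have hn : n ≠ 0 := fun e => h (by simp [e])
  have hN : (nsq n : ℂ) ≠ 0 := Complex.ofReal_ne_zero.2 (nsq_pos hn).ne'
  have hc : conj (n k) ≠ 0 := by simpa using h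
  simp only [prj]
  field_simp

theorem prj_eq_iff {n n' : Fin m → ℂ} (h : n ≠ 0) (h' : n' ≠ 0) :
    prj n = prj n' ↔ ∃ c : ℂ, c ≠ 0 ∧ n' = c • n := by
  constructor
  · intro e
    obtain ⟨k, hk⟩ := Function.ne_iff.1 h
    have hk' : n' k ≠ 0 := prj_diag_ne.1 (e ▸ prj_diag_ne.2 hk)
    have hN : (nsq n : ℂ) ≠ 0 := Complex.ofReal_ne_zero.2 (nsq_pos h).ne'
    have hN' : (nsq n' : ℂ) ≠ 0 := Complex.ofReal_ne_zero.2 (nsq_pos h').ne'
    have u : conj (n k) / (nsq n : ℂ) ≠ 0 := div_ne_zero (by simpa using hk) hN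
    have u' : conj (n' k) / (nsq n' : ℂ) ≠ 0 := div_ne_zero (by simpa using hk') hN'
    have e2 : (conj (n k) / (nsq n : ℂ)) • n = (conj (n' k) / (nsq n' : ℂ)) • n' := by
      rw [← prj_col, ← prj_col, e]
    refine ⟨(conj (n' k) / (nsq n' : ℂ))⁻¹ * (conj (n k) / (nsq n : ℂ)),
      mul_ne_zero (inv_ne_zero u') u, ?_⟩
    rw [mul_smul, e2, inv_smul_smul₀ u']
  · rintro ⟨c, hc, rfl⟩
    exact (prj_smul hc n).symm

theorem prj_ne_zero {n : Fin m → ℂ} (h : n ≠ 0) : ∃ k, prj n k k ≠ 0 := by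
  obtain ⟨k, hk⟩ := Function.ne_iff.1 h
  exact ⟨k, prj_diag_ne.2 hk⟩

theorem prj_mulVec (n a : Fin m → ℂ) (i : Fin m) :
    ∑ k, prj n i k * a k = her n a / (nsq n : ℂ) * n i := by
  simp only [prj, her, Finset.sum_div, Finset.sum_mul]
  exact Finset.sum_congr rfl fun k _ => by ring

theorem norm_sq_le_nsq (n : Fin m → ℂ) (i : Fin m) : ‖n i‖ ^ 2 ≤ nsq n :=
  Finset.single_le_sum (f := fun i => ‖n i‖ ^ 2) (fun _ _ => sq_nonneg _) (Finset.mem_univ i)

theorem norm_prj_le (n : Fin m → ℂ) : ‖prj n‖ ≤ 1 := by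
  refine (pi_norm_le_iff_of_nonneg zero_le_one).2 fun i =>
    (pi_norm_le_iff_of_nonneg zero_le_one).2 fun j => ?_
  have h1 := norm_sq_le_nsq n i
  have h2 := norm_sq_le_nsq n j
  have h3 : ‖prj n i j‖ = ‖n i‖ * ‖n j‖ / nsq n := by
    simp [prj, abs_of_nonneg (nsq_nonneg n)]
  rw [h3]
  refine div_le_one_of_le₀ ?_ (nsq_nonneg n)
  nlinarith [sq_nonneg (‖n i‖ - ‖n j‖)]

theorem contDiff_nsqC : ContDiff ℝ ∞ fun n : Fin m → ℂ => (nsq n : ℂ) :=
  Complex.ofRealCLM.contDiff.comp contDiff_nsq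

theorem contDiffAt_prj {n : Fin m → ℂ} (h : n ≠ 0) : ContDiffAt ℝ ∞ prj n := by
  have hN : (nsq n : ℂ) ≠ 0 := Complex.ofReal_ne_zero.2 (nsq_pos h).ne'
  refine contDiffAt_pi.2 fun i => contDiffAt_pi.2 fun j => ?_
  have h1 : ContDiff ℝ ∞ fun n : Fin m → ℂ => n i * conj (n j) :=
    (contDiff_apply ℝ ℂ i).mul (Complex.conjCLE.contDiff.comp (contDiff_apply ℝ ℂ j))
  simp only [prj, div_eq_mul_inv]
  exact h1.contDiffAt.mul (contDiff_nsqC.contDiffAt.inv hN)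

theorem th_apply (n a : Fin m → ℂ) : th n a = (her n a).im / (2 * Real.pi * nsq n) := by
  simp only [th, her, _root_.smul_apply, _root_.sum_apply,
    ContinuousLinearMap.comp_apply, ContinuousLinearMap.proj_apply, Complex.imCLM_apply,
    Complex.im_sum, smul_eq_mul]
  rw [div_eq_inv_mul]
  rfl

/-- the imaginary part of the Hermitian product as a bilinear map -/
theorem exists_imHer : ∃ B : (Fin m → ℂ) →L[ℝ] (Fin m → ℂ) →L[ℝ] ℝ,
    ∀ n a, B n a = (her n a).im := by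
  let f : (Fin m → ℂ) → (Fin m → ℂ) →L[ℝ] ℝ := fun n =>
    ∑ i, imCLM.comp ((mulC (conj (n i))).comp (ContinuousLinearMap.proj i))
  have hf : ∀ n a, f n a = (her n a).im := by
    intro n a
    simp only [f, her, _root_.sum_apply, ContinuousLinearMap.comp_apply,
      ContinuousLinearMap.proj_apply, Complex.imCLM_apply, Complex.im_sum]
    rfl
  refine ⟨LinearMap.toContinuousLinearMap
    { toFun := f, map_add' := fun x y => ?_, map_smul' := fun c x => ?_ }, hf⟩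
  · ext a
    rw [_root_.add_apply, hf, hf, hf, her_add_left, Complex.add_im]
  · ext a
    have e : c • x = (c : ℂ) • x := by
      funext i
      simp
    rw [_root_.smul_apply, hf, hf, e, her_smul_left]
    simp

theorem th_eq (B : (Fin m → ℂ) →L[ℝ] (Fin m → ℂ) →L[ℝ] ℝ) (hB : ∀ n a, B n a = (her n a).im) :
    (th : (Fin m → ℂ) → (Fin m → ℂ) →L[ℝ] ℝ) = fun n => (2 * Real.pi * nsq n)⁻¹ • B n := by
  funext n
  ext a
  rw [th_apply, _root_.smul_apply, hB, smul_eq_mul, div_eq_inv_mul]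

theorem contDiffAt_th {n : Fin m → ℂ} (h : n ≠ 0) : ContDiffAt ℝ ∞ th n := by
  obtain ⟨B, hB⟩ := exists_imHer (m := m)
  rw [th_eq B hB]
  have h0 : 2 * Real.pi * nsq n ≠ 0 := (mul_pos (by positivity) (nsq_pos h)).ne'
  exact ((contDiffAt_const.mul contDiff_nsq.contDiffAt).inv h0).smul B.contDiff.contDiffAt

theorem th_self {n : Fin m → ℂ} (h : n ≠ 0) (c : ℂ) : th n (c • n) = c.im / (2 * Real.pi) := by
  have hN := (nsq_pos h).ne'
  rw [th_apply, her_smul_right, her_self, Complex.im_mul_ofReal, mul_div_mul_right _ _ hN]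

theorem th_scale {n : Fin m → ℂ} (h : n ≠ 0) {c : ℂ} (hc : c ≠ 0) (s : ℂ) (a : Fin m → ℂ) :
    th (c • n) (s • n + c • a) = th n a + (s / c).im / (2 * Real.pi) := by
  have hN := (nsq_pos h).ne'
  have hc' : ‖c‖ ^ 2 ≠ 0 := pow_ne_zero 2 (norm_ne_zero_iff.2 hc)
  have e : her (c • n) (s • n + c • a) =
      ((‖c‖ ^ 2 : ℝ) : ℂ) * (her n a + (s / c) * (nsq n : ℂ)) := by
    rw [her_smul_left, her_add_right, her_smul_right, her_smul_right, her_self,
      ← conj_mul_self_eq]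
    field_simp
    ring
  rw [th_apply, th_apply, e, nsq_smul, Complex.im_ofReal_mul, Complex.add_im,
    Complex.im_mul_ofReal]
  have := Real.pi_pos.ne'
  field_simp

theorem fderiv_th {n : Fin m → ℂ} (h : n ≠ 0) (a b : Fin m → ℂ) : fderiv ℝ th n a b =
    (her a b).im / (2 * Real.pi * nsq n) -
      (her n a).re * (her n b).im / (Real.pi * nsq n ^ 2) := by
  obtain ⟨B, hB⟩ := exists_imHer (m := m)
  have hN := (nsq_pos h).ne'
  have hp := Real.pi_pos.ne'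
  have h0 : 2 * Real.pi * nsq n ≠ 0 := (mul_pos (by positivity) (nsq_pos h)).ne'
  have h1 : HasFDerivAt (nsq : (Fin m → ℂ) → ℝ) (fderiv ℝ nsq n) n :=
    (contDiff_nsq.differentiable (by simp) n).hasFDerivAt
  have h2 := (hasDerivAt_inv h0).comp_hasFDerivAt n (h1.const_mul (2 * Real.pi))
  have h3 := h2.fun_smul (B.hasFDerivAt (x := n))
  rw [th_eq B hB]
  erw [h3.fderiv]
  simp only [_root_.add_apply, _root_.smul_apply,
    ContinuousLinearMap.smulRight_apply, Function.comp_apply, smul_eq_mul, hB, fderiv_nsq]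
  field_simp
  ring

theorem dd_th {n : Fin m → ℂ} (h : n ≠ 0) (a b : Fin m → ℂ) : dd th n a b =
    ((her a b).im * nsq n - ((her n a).re * (her n b).im - (her n b).re * (her n a).im)) /
      (Real.pi * nsq n ^ 2) := by
  have hN := (nsq_pos h).ne'
  have hp := Real.pi_pos.ne'
  rw [dd, fderiv_th h, fderiv_th h, ← her_conj a b, Complex.conj_im]
  field_simp
  ring

/-- the complex form of `dd_th` -/
theorem dd_th' {n : Fin m → ℂ} (h : n ≠ 0) (a b : Fin m → ℂ) : dd th n a b =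
    (her a b * (nsq n : ℂ) - conj (her n a) * her n b).im / (Real.pi * nsq n ^ 2) := by
  rw [dd_th h]
  congr 1
  simp only [Complex.sub_im, Complex.mul_im, Complex.ofReal_re, Complex.ofReal_im,
    Complex.conj_re, Complex.conj_im]
  ring

theorem dd_th_scale {n : Fin m → ℂ} (h : n ≠ 0) {c : ℂ} (hc : c ≠ 0) (s t : ℂ) (a b : Fin m → ℂ) :
    dd th (c • n) (s • n + c • a) (t • n + c • b) = dd th n a b := by
  have hN := (nsq_pos h).ne'
  have hp := Real.pi_pos.ne'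
  have hc' : ‖c‖ ^ 2 ≠ 0 := pow_ne_zero 2 (norm_ne_zero_iff.2 hc)
  have e : her (s • n + c • a) (t • n + c • b) * (nsq (c • n) : ℂ) -
      conj (her (c • n) (s • n + c • a)) * her (c • n) (t • n + c • b) =
      (((‖c‖ ^ 2) ^ 2 : ℝ) : ℂ) * (her a b * (nsq n : ℂ) - conj (her n a) * her n b) := by
    rw [nsq_smul, Complex.ofReal_mul, Complex.ofReal_pow (‖c‖ ^ 2), ← conj_mul_self_eq]
    simp only [her_add_left, her_add_right, her_smul_left, her_smul_right, her_self, map_mul,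
      map_add, Complex.conj_conj, Complex.conj_ofReal, ← her_conj n a]
    ring
  rw [dd_th' (smul_ne_zero hc h), dd_th' h, e, Complex.im_ofReal_mul, nsq_smul]
  field_simp

theorem dd_th_I {n : Fin m → ℂ} (h : n ≠ 0) (a : Fin m → ℂ) (t : ℂ) :
    dd th n a (t • n + I • a) = (nsq a * nsq n - ‖her n a‖ ^ 2) / (Real.pi * nsq n ^ 2) := by
  have e : her a (t • n + I • a) * (nsq n : ℂ) - conj (her n a) * her n (t • n + I • a) =
      I * ((nsq a * nsq n - ‖her n a‖ ^ 2 : ℝ) : ℂ) := by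
    rw [Complex.ofReal_sub, Complex.ofReal_mul, ← conj_mul_self_eq]
    simp only [her_add_right, her_smul_right, her_self, ← her_conj n a]
    ring
  rw [dd_th' h, e, Complex.im_mul_ofReal, Complex.I_im, one_mul]

theorem dd_th_left {n : Fin m → ℂ} (h : n ≠ 0) (s : ℂ) (b : Fin m → ℂ) :
    dd th n (s • n) b = 0 := by
  have e : her (s • n) b * (nsq n : ℂ) - conj (her n (s • n)) * her n b = 0 := by
    simp only [her_smul_left, her_smul_right, her_self, map_mul, Complex.conj_ofReal]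
    ring
  rw [dd_th' h, e, Complex.zero_im, zero_div]

section Pull
variable {E : Type} [NormedAddCommGroup E] [NormedSpace ℝ E]

/-- two lifts of the same map along a set `S` pull back the same Fubini-Study form -/
theorem dd_th_lift {S : Set E} {x : E} (hx : x ∈ S) {g g' : E → Fin m → ℂ} {c : E → ℂ}
    (hg : DifferentiableAt ℝ g x) (hg' : DifferentiableAt ℝ g' x) (hc : DifferentiableAt ℝ c x)
    (h0 : g x ≠ 0) (hc0 : c x ≠ 0) (he : ∀ᶠ y in 𝓝 x, y ∈ S → g' y = c y • g y) {a b : E}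
    (ha : a ∈ tan S x) (hb : b ∈ tan S x) :
    dd th (g' x) (fderiv ℝ g' x a) (fderiv ℝ g' x b) =
      dd th (g x) (fderiv ℝ g x a) (fderiv ℝ g x b) := by
  have hd := hc.hasFDerivAt.fun_smul hg.hasFDerivAt
  have e : ∀ v ∈ tan S x, fderiv ℝ g' x v = fderiv ℝ c x v • g x + c x • fderiv ℝ g x v := by
    intro v hv
    rw [fderiv_eq_on_tan hx hg' hd.differentiableAt he hv, hd.fderiv]
    simp only [_root_.add_apply, _root_.smul_apply,
      ContinuousLinearMap.smulRight_apply]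
    rw [add_comm]
  rw [e a ha, e b hb, he.self_of_nhds hx, dd_th_scale h0 hc0]

theorem dd_th_clm (L : E →L[ℝ] Fin m → ℂ) {x : E} (h : L x ≠ 0) (a b : E) :
    dd (fun y => (th (L y)).comp L) x a b = dd th (L x) (L a) (L b) := by
  have h1 : HasFDerivAt th (fderiv ℝ th (L x)) (L x) :=
    ((contDiffAt_th h).differentiableAt (by simp)).hasFDerivAt
  have h2 := (h1.comp x L.hasFDerivAt).clm_comp (hasFDerivAt_const L x)
  unfold dd
  erw [h2.fderiv]
  simp

end Pull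

end Pool.Agent.MP_9758ca_gt

end MrgPart0

-- ======== part 1: formerly Pool.Agent.MP_9758ca_gt.GA
section MrgPart1

/-!
PROJECT BALL, library GA: cut-off functions, the cubic, functions on lifts.
-/

open scoped Topology ContDiff ComplexConjugate
open Set Metric Filter Complex

namespace Pool.Agent.MP_9758ca_gt

/-! ### cut-off functions -/

theorem contDiff_stp (a b : ℝ) : ContDiff ℝ ∞ (stp a b) := by
  unfold stp
  exact contDiff_const.sub (Real.smoothTransition.contDiff.comp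
    ((contDiff_id.sub contDiff_const).div_const _))

theorem stp_one {a b t : ℝ} (hab : a < b) (h : t ≤ a) : stp a b t = 1 := by
  unfold stp
  rw [Real.smoothTransition.zero_of_nonpos
    (div_nonpos_of_nonpos_of_nonneg (by linarith) (by linarith)), sub_zero]

theorem stp_zero {a b t : ℝ} (hab : a < b) (h : b ≤ t) : stp a b t = 0 := by
  unfold stp
  rw [Real.smoothTransition.one_of_one_le ((one_le_div (by linarith)).2 (by linarith)), sub_self]

theorem stp_mem (a b t : ℝ) : stp a b t ∈ Icc (0 : ℝ) 1 := by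
  unfold stp
  have h1 := Real.smoothTransition.le_one ((t - a) / (b - a))
  have h2 := Real.smoothTransition.nonneg ((t - a) / (b - a))
  constructor <;> linarith

theorem stp_pos {a b t : ℝ} (hab : a < b) (h : t < b) : 0 < stp a b t := by
  unfold stp
  have := Real.smoothTransition.lt_one_of_lt_one (x := (t - a) / (b - a))
    ((div_lt_one (by linarith)).2 (by linarith))
  linarith

theorem deriv_stp_eq_zero {a b t : ℝ} (hab : a < b) (h : t ≤ a ∨ b ≤ t) :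
    deriv (stp a b) t = 0 := by
  rcases h with h | h
  · refine IsLocalMax.deriv_eq_zero (Eventually.of_forall fun s => ?_)
    rw [stp_one hab h]; exact (stp_mem a b s).2
  · refine IsLocalMin.deriv_eq_zero (Eventually.of_forall fun s => ?_)
    rw [stp_zero hab h]; exact (stp_mem a b s).1

theorem hasDerivAt_glue (x : ℝ) : HasDerivAt expNegInvGlue (x⁻¹ ^ 2 * expNegInvGlue x) x := by
  simpa using expNegInvGlue.hasDerivAt_polynomial_eval_inv_mul 1 x

theorem exists_deriv_trans {x : ℝ} (h0 : 0 < x) (h1 : x < 1) :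
    ∃ d, 0 < d ∧ HasDerivAt Real.smoothTransition d x := by
  have e1 := hasDerivAt_glue x
  have e2 : HasDerivAt (fun y => expNegInvGlue (1 - y))
      ((1 - x)⁻¹ ^ 2 * expNegInvGlue (1 - x) * (-1)) x :=
    (hasDerivAt_glue (1 - x)).comp x (by simpa using (hasDerivAt_id x).const_sub 1)
  have hd := Real.smoothTransition.pos_denom x
  refine ⟨_, ?_, e1.div (e1.add e2) hd.ne'⟩
  have p1 := expNegInvGlue.pos_of_pos h0
  have p2 := expNegInvGlue.pos_of_pos (sub_pos.2 h1)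
  have p3 : 0 < x⁻¹ ^ 2 := by positivity
  have p4 : 0 < (1 - x)⁻¹ ^ 2 := by have := sub_pos.2 h1; positivity
  refine div_pos ?_ (pow_pos hd 2)
  have := mul_pos (mul_pos p1 p2) (add_pos p3 p4)
  change 0 < x⁻¹ ^ 2 * expNegInvGlue x * (expNegInvGlue x + expNegInvGlue (1 - x)) -
    expNegInvGlue x * (x⁻¹ ^ 2 * expNegInvGlue x + (1 - x)⁻¹ ^ 2 * expNegInvGlue (1 - x) * (-1))
  nlinarith

theorem deriv_stp_neg {a b t : ℝ} (h1 : a < t) (h2 : t < b) : deriv (stp a b) t < 0 := by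
  have hab : 0 < b - a := by linarith
  obtain ⟨d, hd, h⟩ := exists_deriv_trans (x := (t - a) / (b - a)) (div_pos (by linarith) hab)
    ((div_lt_one hab).2 (by linarith))
  have e : HasDerivAt (fun s : ℝ => (s - a) / (b - a)) (1 / (b - a)) t :=
    ((hasDerivAt_id t).sub_const a).div_const _
  have : HasDerivAt (stp a b) (-(d * (1 / (b - a)))) t := 
    (HasDerivAt.comp (h₂ := Real.smoothTransition) t h e).const_sub 1
  rw [this.deriv]
  have : 0 < d * (1 / (b - a)) := by positivity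
  linarith

theorem trans_half {u : ℝ} : Real.smoothTransition u = 1 / 2 ↔ u = 1 / 2 := by
  have hd := Real.smoothTransition.pos_denom u
  have key : Real.smoothTransition u = 1 / 2 ↔ expNegInvGlue u = expNegInvGlue (1 - u) := by
    unfold Real.smoothTransition
    rw [div_eq_iff hd.ne']
    constructor <;> intro h <;> linarith
  rw [key]
  constructor
  · intro h
    by_cases h0 : u ≤ 0
    · rw [expNegInvGlue.zero_of_nonpos h0] at h
      exact absurd h (expNegInvGlue.pos_of_pos (by linarith)).ne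
    by_cases h1 : 1 - u ≤ 0
    · rw [expNegInvGlue.zero_of_nonpos h1] at h
      exact absurd h (expNegInvGlue.pos_of_pos (by linarith)).ne'
    simp only [expNegInvGlue, if_neg h0, if_neg h1, Real.exp_eq_exp, neg_inj, inv_inj] at h
    linarith
  · rintro rfl; norm_num

theorem stp_half {a b t : ℝ} (hab : a < b) : stp a b t = 1 / 2 ↔ t = (a + b) / 2 := by
  have h0 : b - a ≠ 0 := by linarith
  have : stp a b t = 1 / 2 ↔ Real.smoothTransition ((t - a) / (b - a)) = 1 / 2 := by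
    unfold stp; constructor <;> intro h <;> linarith
  rw [this, trans_half, div_eq_iff h0]
  constructor <;> intro h <;> linarith

theorem contDiff_deriv_rho : ContDiff ℝ ∞ (deriv rho) :=
  (contDiff_infty_iff_deriv.1 (contDiff_stp (1 / 1600) (1 / 100))).2

theorem exists_deriv_rho_bound : ∃ L, ∀ t, |deriv rho t| ≤ L := by
  obtain ⟨L, hL⟩ := (isCompact_Icc (a := (1 / 1600 : ℝ)) (b := 1 / 100)).exists_bound_of_continuousOn
    contDiff_deriv_rho.continuous.continuousOn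
  refine ⟨max L 0, fun t => ?_⟩
  by_cases ht : t ∈ Icc (1 / 1600 : ℝ) (1 / 100)
  · exact (hL t ht).trans (le_max_left _ _)
  · have : deriv rho t = 0 := deriv_stp_eq_zero (a := 1 / 1600) (b := 1 / 100) (by norm_num) (by
      by_contra hh
      push Not at hh
      exact ht ⟨hh.1.le, hh.2.le⟩)
    rw [this, abs_zero]; exact le_max_right _ _

theorem contDiff_kap : ContDiff ℝ ∞ kap := (contDiff_stp _ _).comp (contDiff_id.pow 2)

theorem kap_one {t : ℝ} (h : |t| ≤ 1 / 20) : kap t = 1 :=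
  stp_one (by norm_num) (by rw [← sq_abs]; nlinarith [abs_nonneg t])

theorem kap_zero {t : ℝ} (h : 1 / 10 ≤ |t|) : kap t = 0 :=
  stp_zero (by norm_num) (by rw [← sq_abs]; nlinarith [abs_nonneg t])

theorem contDiff_bb (b₀ : ℝ) : ContDiff ℝ ∞ (bb b₀) :=
  contDiff_const.sub (contDiff_const.mul ((contDiff_stp _ _).comp (contDiff_id.pow 2)))

theorem bb_small {b₀ t : ℝ} (h : |t| ≤ 1 / 10) : bb b₀ t = b₀ := by
  unfold bb
  rw [stp_one (by norm_num) (by rw [← sq_abs]; nlinarith [abs_nonneg t])]; ring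

theorem bb_four {b₀ t : ℝ} (h : 1 / 5 ≤ |t|) : bb b₀ t = 4 := by
  unfold bb
  rw [stp_zero (by norm_num) (by rw [← sq_abs]; nlinarith [abs_nonneg t])]; ring

theorem bb_pos {b₀ : ℝ} (h : 0 < b₀) (t : ℝ) : 0 < bb b₀ t := by
  unfold bb
  obtain ⟨h1, h2⟩ := stp_mem (1 / 100) (1 / 25) (t ^ 2)
  generalize stp (1 / 100) (1 / 25) (t ^ 2) = s at h1 h2
  rcases eq_or_lt_of_le h1 with rfl | h1
  · norm_num
  · nlinarith [mul_pos h h1]

theorem hasDerivAt_BI (b₀ t : ℝ) : HasDerivAt (BI b₀) (bb b₀ t) t :=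
  ((contDiff_bb b₀).continuous.integral_hasStrictDerivAt 0 t).hasDerivAt

theorem contDiff_BI (b₀ : ℝ) : ContDiff ℝ ∞ (BI b₀) := by
  refine contDiff_infty_iff_deriv.2 ⟨fun t => (hasDerivAt_BI b₀ t).differentiableAt, ?_⟩
  have : deriv (BI b₀) = bb b₀ := funext fun t => (hasDerivAt_BI b₀ t).deriv
  rw [this]; exact contDiff_bb b₀

/-! ### the cubic -/

theorem cub_smul (c : ℂ) (n : C3) : cub (c • n) = c ^ 3 * cub n := by
  simp only [cub, Pi.smul_apply, smul_eq_mul]; ring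

theorem cub_chart {n : C3} {k : Fin 3} (h : n k ≠ 0) :
    cub n = n k ^ 3 * cuf (n (k.succAbove 0) / n k) (n (k.succAbove 1) / n k) := by
  fin_cases k
  · have e : (0 : Fin 3).succAbove 0 = 1 ∧ (0 : Fin 3).succAbove 1 = 2 := by decide
    simp only [Fin.zero_eta, e.1, e.2] at h ⊢
    unfold cub cuf; field_simp
  · have e : (1 : Fin 3).succAbove 0 = 0 ∧ (1 : Fin 3).succAbove 1 = 2 := by decide
    simp only [Fin.mk_one, e.1, e.2] at h ⊢
    unfold cub cuf; field_simp; ring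
  · have e : (2 : Fin 3).succAbove 0 = 0 ∧ (2 : Fin 3).succAbove 1 = 1 := by decide
    simp only [Fin.reduceFinMk, e.1, e.2] at h ⊢
    unfold cub cuf; field_simp; ring

/-- the cubic is smooth -/
theorem cuf_smooth {x y : ℂ} (h : cuf x y = 0) : y ≠ 3 * x ^ 2 / 400 ∨ x ≠ 3 * y ^ 2 / 400 := by
  by_contra hh
  push Not at hh
  obtain ⟨h1, h2⟩ := hh
  unfold cuf at h
  have e1 : x * y = 3 * x ^ 3 / 400 := by rw [h1]; ring
  have e2 : x * y = 3 * y ^ 3 / 400 := by linear_combination y * h2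
  have e3 : x * y = 3 / 400 := by linear_combination 3 * h - e1 - e2
  have e4 : x * y * (1 - 9 * (x * y) / 160000) = 0 := by
    linear_combination y * h2 + (3 * y ^ 2 / 400) * h1
  rw [e3] at e4
  norm_num at e4

theorem cuf_uniq {x x' y : ℂ} (hx : ‖x‖ ≤ 1) (hx' : ‖x'‖ ≤ 1) (hy : 1 / 40 ≤ ‖y‖)
    (h : cuf x y = cuf x' y) : x = x' := by
  unfold cuf at h
  have e : (x - x') * (y - (x ^ 2 + x * x' + x' ^ 2) / 400) = 0 := by linear_combination h
  rcases mul_eq_zero.1 e with e | e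
  · exact sub_eq_zero.1 e
  · exfalso
    have e' : y = (x ^ 2 + x * x' + x' ^ 2) / 400 := sub_eq_zero.1 e
    have n1 : ‖x ^ 2 + x * x' + x' ^ 2‖ ≤ 3 := by
      have a1 : ‖x ^ 2‖ ≤ 1 := by rw [norm_pow]; exact pow_le_one₀ (norm_nonneg _) hx
      have a2 : ‖x' ^ 2‖ ≤ 1 := by rw [norm_pow]; exact pow_le_one₀ (norm_nonneg _) hx'
      have a3 : ‖x * x'‖ ≤ 1 := by
        rw [norm_mul]; exact mul_le_one₀ hx (norm_nonneg _) hx'
      linarith [norm_add₃_le (a := x ^ 2) (b := x * x') (c := x' ^ 2)]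
    rw [e', norm_div] at hy
    have : ‖(400 : ℂ)‖ = 400 := by simp
    rw [this] at hy
    linarith

theorem ys_pos : 0 < ys := Real.sqrt_pos.2 (by norm_num)

theorem ys_sq : ys ^ 2 = 17 / 3200 := Real.sq_sqrt (by norm_num)

theorem exists_root : ∃ xs, Root xs := by
  have h1 := ys_pos
  have h2 := ys_sq
  have h3 : 1 / 20 < ys := by nlinarith
  have h4 : ys < 1 / 10 := by nlinarith
  have hc : ContinuousOn (fun x : ℝ => x * ys - (1 + x ^ 3 + ys ^ 3) / 400) (Icc 0 (1 / 2)) := by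
    fun_prop
  obtain ⟨x, hx, e⟩ := intermediate_value_Ioo (by norm_num) hc
    (show (0 : ℝ) ∈ Ioo _ _ from ⟨by nlinarith [pow_pos h1 3], by nlinarith⟩)
  refine ⟨x, hx.1, hx.2, ?_⟩
  unfold cuf
  exact_mod_cast congrArg (fun r : ℝ => (r : ℂ)) e

theorem rho_half {t : ℝ} : rho t = 1 / 2 ↔ t = 17 / 3200 := by
  unfold rho
  rw [stp_half (by norm_num)]; norm_num

/-! ### functions on lifts -/

theorem r0_smul {c : ℂ} (hc : c ≠ 0) (n : C3) : r0 (c • n) = r0 n := by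
  have : ‖c‖ ^ 2 ≠ 0 := pow_ne_zero _ (norm_ne_zero_iff.2 hc)
  simp only [r0, Pi.smul_apply, smul_eq_mul, norm_mul, mul_pow, mul_div_mul_left _ _ this]

theorem r1_smul {c : ℂ} (hc : c ≠ 0) (n : C3) : r1 (c • n) = r1 n := by
  have : ‖c‖ ^ 2 ≠ 0 := pow_ne_zero _ (norm_ne_zero_iff.2 hc)
  simp only [r1, Pi.smul_apply, smul_eq_mul, norm_mul, mul_pow, mul_div_mul_left _ _ this]

theorem aa_smul {c : ℂ} (hc : c ≠ 0) (n : C3) : aa (c • n) = aa n := by
  simp only [aa, r0_smul hc, r1_smul hc]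

theorem contDiff_normsq (i : Fin 3) : ContDiff ℝ ∞ (fun n : C3 => ‖n i‖ ^ 2) :=
  (contDiff_norm_sq ℂ).comp (contDiff_apply ℝ ℂ i)

theorem contDiffAt_r0 {n : C3} (h : n 2 ≠ 0) : ContDiffAt ℝ ∞ r0 n :=
  (contDiff_normsq 0).contDiffAt.div (contDiff_normsq 2).contDiffAt
    (pow_ne_zero _ (norm_ne_zero_iff.2 h))

theorem contDiffAt_r1 {n : C3} (h : n 2 ≠ 0) : ContDiffAt ℝ ∞ r1 n :=
  (contDiff_normsq 1).contDiffAt.div (contDiff_normsq 2).contDiffAt
    (pow_ne_zero _ (norm_ne_zero_iff.2 h))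

theorem fderiv_r1 {n : C3} (h : n 2 ≠ 0) (a : C3) : fderiv ℝ r1 n a =
    2 * (conj (n 1 / n 2) * ((a 1 * n 2 - n 1 * a 2) / n 2 ^ 2)).re := by
  have e : r1 = fun m : C3 => ‖m 1 * (m 2)⁻¹‖ ^ 2 := by
    funext m; simp only [r1, norm_mul, norm_inv, mul_pow, inv_pow, div_eq_mul_inv]
  have p1 : HasFDerivAt (fun m : C3 => m 1) (ContinuousLinearMap.proj 1 : C3 →L[ℝ] ℂ) n :=
    (ContinuousLinearMap.proj 1 : C3 →L[ℝ] ℂ).hasFDerivAt
  have p2 : HasFDerivAt (fun m : C3 => m 2) (ContinuousLinearMap.proj 2 : C3 →L[ℝ] ℂ) n :=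
    (ContinuousLinearMap.proj 2 : C3 →L[ℝ] ℂ).hasFDerivAt
  have p3 := (((hasDerivAt_inv h).hasFDerivAt.restrictScalars ℝ).comp n p2)
  have p4 := (p1.mul p3).norm_sq
  rw [e]
  erw [p4.fderiv]
  simp only [smul_apply, ContinuousLinearMap.comp_apply, innerSL_apply_apply,
    add_apply, ContinuousLinearMap.proj_apply, Function.comp_apply,
    ContinuousLinearMap.coe_restrictScalars', ContinuousLinearMap.toSpanSingleton_apply,
    smul_eq_mul, Complex.inner, Pi.mul_apply, nsmul_eq_mul, Nat.cast_ofNat]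
  congr 2
  rw [div_eq_mul_inv (n 1)]
  field_simp
  ring

theorem al_apply {n : C3} (h : n 2 ≠ 0) (a : C3) : al n a = chi (r0 n) * deriv rho (r1 n) *
    (2 * (conj (n 1 / n 2) * ((a 1 * n 2 - n 1 * a 2) / n 2 ^ 2)).re) := by
  rw [al, smul_apply, fderiv_r1 h, smul_eq_mul]

theorem deriv_rho_zero {t : ℝ} (h : t ≤ 1 / 1600 ∨ 1 / 100 ≤ t) : deriv rho t = 0 :=
  deriv_stp_eq_zero (a := 1 / 1600) (b := 1 / 100) (by norm_num) h

theorem exp_rho_one {t : ℝ} (h : t ≤ 1 / 1600 ∨ 1 / 100 ≤ t) :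
    exp (2 * Real.pi * I * rho t) = 1 := by
  rcases h with h | h
  · rw [show rho t = 1 from stp_one (by norm_num) h]; simp
  · rw [show rho t = 0 from stp_zero (by norm_num) h]; simp

theorem al_of_zero {n : C3} (h : n 2 = 0) : al n = 0 := by
  have : r1 n = 0 := by simp [r1, h]
  rw [al, this, deriv_rho_zero (Or.inl (by norm_num))]; simp

theorem al_scale {n : C3} (h : n ≠ 0) {c : ℂ} (hc : c ≠ 0) (s : ℂ) (a : C3) :
    al (c • n) (s • n + c • a) = al n a := by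
  by_cases h2 : n 2 = 0
  · rw [al_of_zero h2, al_of_zero (by simp [h2])]; rfl
  · have h3 : (c • n) 2 ≠ 0 := by simpa using ⟨hc, h2⟩
    rw [al_apply h3, al_apply h2, r0_smul hc, r1_smul hc]
    congr 3
    simp only [Pi.smul_apply, Pi.add_apply, smul_eq_mul]
    congr 1
    · rw [mul_div_mul_left _ _ hc]
    · field_simp; ring

/-- support of `al` and of `aa - 1` -/
theorem al_supp {n : C3} (h : al n ≠ 0 ∨ aa n ≠ 1) :
    n 2 ≠ 0 ∧ r0 n < 1 ∧ 1 / 1600 < r1 n ∧ r1 n < 1 / 100 := by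
  have k1 : ¬ (r1 n ≤ 1 / 1600 ∨ 1 / 100 ≤ r1 n) := by
    intro hh
    rcases h with h | h
    · apply h; rw [al, deriv_rho_zero hh]; simp
    · apply h; rw [aa, exp_rho_one hh]; simp
  push Not at k1
  refine ⟨fun h2 => ?_, ?_, k1⟩
  · have : r1 n = 0 := by simp [r1, h2]
    linarith [k1.1]
  · by_contra hh
    have : chi (r0 n) = 0 := stp_zero (by norm_num) (not_lt.1 hh)
    rcases h with h | h
    · apply h; rw [al, this]; simp
    · apply h; rw [aa, this]; simp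

theorem eventually_triv {n : C3} (h : n ≠ 0) (h2 : n 2 = 0) :
    ∀ᶠ m in 𝓝 n, al m = 0 ∧ aa m = 1 := by
  have hc : ContinuousAt (fun m : C3 => ‖m 0‖ ^ 2 + ‖m 1‖ ^ 2 - 2 * ‖m 2‖ ^ 2) n := by fun_prop
  have hp : 0 < ‖n 0‖ ^ 2 + ‖n 1‖ ^ 2 - 2 * ‖n 2‖ ^ 2 := by
    have := nsq_pos h
    simp only [nsq, Fin.sum_univ_three, h2, norm_zero] at this ⊢
    linarith
  filter_upwards [hc.eventually (lt_mem_nhds hp)] with m hm
  by_contra hh
  obtain ⟨a1, a2, -, a4⟩ := al_supp (not_and_or.1 hh)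
  have : 0 < ‖m 2‖ ^ 2 := pow_pos (norm_pos_iff.2 a1) 2
  rw [r0, div_lt_one this] at a2
  rw [r1, div_lt_iff₀ this] at a4
  linarith

theorem contDiffAt_E {n : C3} (h : n 2 ≠ 0) :
    ContDiffAt ℝ ∞ (fun m : C3 => exp (2 * Real.pi * I * rho (r1 m))) n :=
  (contDiffAt_const.mul (ofRealCLM.contDiff.contDiffAt.comp n
    ((contDiff_stp _ _).contDiffAt.comp n (contDiffAt_r1 h)))).cexp

theorem contDiffAt_aa {n : C3} (h : n ≠ 0) : ContDiffAt ℝ ∞ aa n := by
  by_cases h2 : n 2 = 0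
  · exact contDiffAt_const.congr_of_eventuallyEq ((eventually_triv h h2).mono fun m hm => hm.2)
  · exact contDiffAt_const.add ((ofRealCLM.contDiff.contDiffAt.comp n
      ((contDiff_stp _ _).contDiffAt.comp n (contDiffAt_r0 h2))).mul
      ((contDiffAt_E h2).sub contDiffAt_const))

theorem contDiffAt_al {n : C3} (h : n ≠ 0) : ContDiffAt ℝ ∞ al n := by
  by_cases h2 : n 2 = 0
  · exact contDiffAt_const.congr_of_eventuallyEq ((eventually_triv h h2).mono fun m hm => hm.1)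
  · exact (((contDiff_stp _ _).contDiffAt.comp n (contDiffAt_r0 h2)).mul
      (contDiff_deriv_rho.contDiffAt.comp n (contDiffAt_r1 h2))).smul
      ((contDiffAt_r1 h2).fderiv_right (by simp))

theorem Xi_smul {c : ℂ} (hc : c ≠ 0) (j : ℤ) (n : C3) (a : ℂ) (T : ℝ) :
    Xi j (c • n) a T = Xi j n a T := by
  simp only [Xi, aa_smul hc]

theorem nu_smul (c : ℂ) (n : C3) (p q : ℂ) : nu (c • n) p q = nu n (p * conj c ^ 3) q := by
  simp only [nu, Pi.smul_apply, smul_eq_mul, map_mul, mul_pow, mul_assoc]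

theorem NN_smul {c : ℂ} (hc : c ≠ 0) (j : ℤ) (n : C3) (a : ℂ) (T : ℝ) :
    NN j (c • n) a T = NN j n a T := by
  rw [NN, NN, nu_smul, Xi_smul hc, cub_smul, nsq_smul]
  congr 1
  have e : ((‖c‖ ^ 2 * nsq n : ℝ) : ℂ) = c * conj c * nsq n := by
    rw [mul_conj, normSq_eq_norm_sq]; push_cast; ring
  have hc' : conj c ≠ 0 := (map_ne_zero _).2 hc
  rw [e]
  by_cases h0 : (nsq n : ℂ) = 0
  · simp [h0]
  · field_simp

theorem smul_nu (c : ℂ) (n : C3) (p q : ℂ) : c • nu n p q = nu n (c * p) (c * q) := by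
  funext i; fin_cases i <;> simp [nu, mul_assoc]

theorem nu_eq_zero {n : C3} (h : n ≠ 0) {p q : ℂ} : nu n p q = 0 ↔ p = 0 ∧ q = 0 := by
  constructor
  · intro e
    refine ⟨?_, by simpa [nu] using congrFun e 3⟩
    by_contra hp
    apply h
    funext i
    fin_cases i
    · simpa [nu, hp] using congrFun e 0
    · simpa [nu, hp] using congrFun e 1
    · simpa [nu, hp] using congrFun e 2
  · rintro ⟨rfl, rfl⟩
    funext i; fin_cases i <;> simp [nu]

theorem NN_eq_zero {n : C3} (h : n ≠ 0) {j : ℤ} {a : ℂ} {T : ℝ} :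
    NN j n a T = 0 ↔ cub n = 0 ∧ Xi j n a T = 0 := by
  have : (nsq n : ℂ) ^ 3 ≠ 0 := pow_ne_zero _ (ofReal_ne_zero.2 (nsq_pos h).ne')
  rw [NN, nu_eq_zero h, div_eq_zero_iff, or_iff_left this]

theorem NN_shift (j m : ℤ) (n : C3) (a : ℂ) (T : ℝ) :
    NN (j + m) n a (T + m) = NN j n a T := by
  simp only [NN, Xi, Int.cast_add, add_sub_add_right_eq_sub]

theorem contDiff_conj : ContDiff ℝ ∞ (fun z : ℂ => conj z) := conjCLE.contDiff

theorem contDiffAt_Xi (j : ℤ) {q : C3 × ℂ × ℝ} (h : q.1 ≠ 0) :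
    ContDiffAt ℝ ∞ (fun q : C3 × ℂ × ℝ => Xi j q.1 q.2.1 q.2.2) q := by
  refine ((contDiffAt_snd.fst.mul (contDiff_conj.contDiffAt.comp q
    ((contDiffAt_aa h).comp q contDiffAt_fst))).mul
    (ofRealCLM.contDiff.contDiffAt.comp q ?_)).sub contDiffAt_const
  exact (contDiffAt_const.mul (contDiffAt_snd.snd.sub contDiffAt_const)).neg.exp

theorem contDiff_cub : ContDiff ℝ ∞ cub := by
  unfold cub
  have := fun i => contDiff_apply (n := ∞) ℝ ℂ (ι := Fin 3) i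
  exact (((this 0).mul (this 1)).mul (this 2)).sub
    (((((this 0).pow 3).add ((this 1).pow 3)).add ((this 2).pow 3)).div_const _)

theorem contDiffAt_NN (j : ℤ) {q : C3 × ℂ × ℝ} (h : q.1 ≠ 0) :
    ContDiffAt ℝ ∞ (fun q : C3 × ℂ × ℝ => NN j q.1 q.2.1 q.2.2) q := by
  have hp : ContDiffAt ℝ ∞ (fun q : C3 × ℂ × ℝ => cub q.1 / (nsq q.1 : ℂ) ^ 3) q := by
    simp only [div_eq_mul_inv]
    exact (contDiff_cub.contDiffAt.comp q contDiffAt_fst).mul
      (((ofRealCLM.contDiff.contDiffAt.comp q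
        (contDiff_nsq.contDiffAt.comp q contDiffAt_fst)).pow 3).inv
        (pow_ne_zero _ (ofReal_ne_zero.2 (nsq_pos h).ne')))
  have hc : ∀ i, ContDiffAt ℝ ∞
      (fun q : C3 × ℂ × ℝ => cub q.1 / (nsq q.1 : ℂ) ^ 3 * conj (q.1 i) ^ 3) q := fun i =>
    hp.mul ((contDiff_conj.contDiffAt.comp q
      ((contDiff_apply ℝ ℂ i).contDiffAt.comp q contDiffAt_fst)).pow 3)
  refine contDiffAt_pi.2 fun i => ?_
  fin_cases i
  · exact hc 0
  · exact hc 1
  · exact hc 2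
  · exact contDiffAt_Xi j h

theorem contDiffAt_RR (j : ℤ) {q : C3 × ℂ × ℝ} (h : q.1 ≠ 0) (h' : NN j q.1 q.2.1 q.2.2 ≠ 0) :
    ContDiffAt ℝ ∞ (fun q : C3 × ℂ × ℝ => RR j q.1 q.2.1 q.2.2) q :=
  ((contDiff_stp _ _).contDiffAt.comp q
    (contDiff_nsq.contDiffAt.comp q (contDiffAt_NN j h))).smul
    (ContDiffAt.comp (g := prj) q (contDiffAt_prj h') (contDiffAt_NN j h))

theorem nsq_nu (n : C3) (p q : ℂ) :
    nsq (nu n p q) = ‖p‖ ^ 2 * ((‖n 0‖ ^ 2) ^ 3 + (‖n 1‖ ^ 2) ^ 3 + (‖n 2‖ ^ 2) ^ 3) + ‖q‖ ^ 2 := by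
  simp only [nsq, nu, Fin.sum_univ_four, Matrix.cons_val_zero, Matrix.cons_val_one,
    Matrix.cons_val, norm_mul, norm_pow, Complex.norm_conj]
  ring

theorem r0_small {n : C3} (h2 : n 2 ≠ 0) (h0 : r0 n < 1) (h1 : 1 / 1600 < r1 n)
    (h1' : r1 n < 1 / 100) {j : ℤ} {a : ℂ} {T : ℝ} (hs : nsq (NN j n a T) < 1 / 10000000) :
    r0 n < 1 / 4 := by
  have hc : (n 2)⁻¹ ≠ 0 := inv_ne_zero h2
  rw [← r0_smul hc] at h0 ⊢
  rw [← r1_smul hc] at h1 h1'
  rw [← NN_smul hc] at hs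
  have e2 : ((n 2)⁻¹ • n) 2 = 1 := by simp [h2]
  generalize (n 2)⁻¹ • n = m at *
  by_contra hh
  push Not at hh
  simp only [r0, r1, e2, norm_one, one_pow, div_one] at h0 h1 h1' hh
  rw [NN, nsq_nu, e2, norm_div, norm_pow, norm_real, Real.norm_of_nonneg (nsq_nonneg m)] at hs
  have hq : nsq m = ‖m 0‖ ^ 2 + ‖m 1‖ ^ 2 + 1 := by simp [nsq, Fin.sum_univ_three, e2]
  have x0 := norm_nonneg (m 0)
  have y0 := norm_nonneg (m 1)
  have x1 : 1 / 2 ≤ ‖m 0‖ := by nlinarith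
  have x2 : ‖m 0‖ ≤ 1 := by nlinarith
  have y1 : 1 / 40 ≤ ‖m 1‖ := by nlinarith
  have y2 : ‖m 1‖ ≤ 1 / 10 := by nlinarith
  have hcub : 7 / 1000 ≤ ‖cub m‖ := by
    have a1 : ‖m 0 * m 1 * m 2‖ - ‖(m 0 ^ 3 + m 1 ^ 3 + m 2 ^ 3) / 400‖ ≤ ‖cub m‖ :=
      norm_sub_norm_le _ _
    have a2 : ‖m 0 ^ 3 + m 1 ^ 3 + m 2 ^ 3‖ ≤ ‖m 0‖ ^ 3 + ‖m 1‖ ^ 3 + 1 := by
      have := norm_add₃_le (a := m 0 ^ 3) (b := m 1 ^ 3) (c := m 2 ^ 3)
      simpa [e2] using this
    have a3 : ‖m 0‖ ^ 3 ≤ 1 := pow_le_one₀ x0 x2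
    have a4 : ‖m 1‖ ^ 3 ≤ (1 / 10) ^ 3 := pow_le_pow_left₀ y0 y2 3
    have a5 : 1 / 2 * (1 / 40) ≤ ‖m 0‖ * ‖m 1‖ := mul_le_mul x1 y1 (by norm_num) x0
    have a6 : ‖(400 : ℂ)‖ = 400 := by simp
    rw [norm_div, a6, norm_mul, norm_mul] at a1
    generalize ‖m 0 ^ 3 + m 1 ^ 3 + m 2 ^ 3‖ = s at a1 a2
    rw [e2, norm_one, mul_one] at a1
    norm_num at a4 a5
    linarith
  have hn1 : nsq m ^ 3 ≤ (201 / 100) ^ 3 := pow_le_pow_left₀ (nsq_nonneg m) (by linarith) 3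
  have hn0 : 0 < nsq m ^ 3 := pow_pos (by rw [hq]; positivity) 3
  have hd : 7 / 1000 / (201 / 100) ^ 3 ≤ ‖cub m‖ / nsq m ^ 3 :=
    div_le_div₀ (norm_nonneg _) hcub hn0 hn1
  have hd2 : (7 / 1000 / (201 / 100) ^ 3) ^ 2 ≤ (‖cub m‖ / nsq m ^ 3) ^ 2 :=
    pow_le_pow_left₀ (by norm_num) hd 2
  have hw : (‖cub m‖ / nsq m ^ 3) ^ 2 * 1 ≤ (‖cub m‖ / nsq m ^ 3) ^ 2 *
      ((‖m 0‖ ^ 2) ^ 3 + (‖m 1‖ ^ 2) ^ 3 + (‖(1 : ℂ)‖ ^ 2) ^ 3) := by
    refine mul_le_mul_of_nonneg_left ?_ (sq_nonneg _)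
    have : 0 ≤ (‖m 0‖ ^ 2) ^ 3 + (‖m 1‖ ^ 2) ^ 3 := by positivity
    simp only [norm_one, one_pow]; linarith
  have := sq_nonneg ‖Xi j m a T‖
  norm_num at hd2
  linarith

theorem fderiv_aa {n : C3} (h : n 2 ≠ 0) (v : C3) : fderiv ℝ aa n v =
    (deriv chi (r0 n) * fderiv ℝ r0 n v : ℝ) * (exp (2 * Real.pi * I * rho (r1 n)) - 1) +
      2 * Real.pi * I * exp (2 * Real.pi * I * rho (r1 n)) * al n v := by
  have d0 := ((contDiffAt_r0 h).differentiableAt (by simp)).hasFDerivAt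
  have d1 := ((contDiffAt_r1 h).differentiableAt (by simp)).hasFDerivAt
  have c0 : HasDerivAt chi (deriv chi (r0 n)) (r0 n) :=
    ((contDiff_stp _ _).differentiable (by simp) _).hasDerivAt
  have c1 : HasDerivAt rho (deriv rho (r1 n)) (r1 n) :=
    ((contDiff_stp _ _).differentiable (by simp) _).hasDerivAt
  have e0 := ofRealCLM.hasFDerivAt.comp n (c0.comp_hasFDerivAt n d0)
  have e1 := ((ofRealCLM.hasFDerivAt.comp n (c1.comp_hasFDerivAt n d1)).const_mul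
    (2 * Real.pi * I)).cexp.sub_const 1
  have e2 : HasFDerivAt aa _ n := (e0.mul e1).const_add 1
  rw [e2.fderiv]
  simp only [al, add_apply, smul_apply, ContinuousLinearMap.comp_apply, ofRealCLM_apply,
    Function.comp_apply, smul_eq_mul]
  push_cast
  ring

/-- near the cubic `aa` has modulus one and `al` is its logarithmic derivative -/
theorem near_cubic {n : C3} (h : n ≠ 0) {j : ℤ} {a : ℂ} {T : ℝ}
    (hs : nsq (NN j n a T) < 1 / 10000000) :
    ‖aa n‖ = 1 ∧ (∀ v, fderiv ℝ aa n v = 2 * Real.pi * I * aa n * al n v) ∧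
      (aa n ≠ 1 → r0 n < 1 / 4 ∧ aa n = exp (2 * Real.pi * I * rho (r1 n))) := by
  have key : r0 n < 1 / 4 → aa n = exp (2 * Real.pi * I * rho (r1 n)) := by
    intro h4
    rw [aa, show chi (r0 n) = 1 from stp_one (by norm_num) h4.le]; simp
  have k3 : aa n ≠ 1 → r0 n < 1 / 4 ∧ aa n = exp (2 * Real.pi * I * rho (r1 n)) := by
    intro h1
    obtain ⟨a1, a2, a3, a4⟩ := al_supp (Or.inr h1)
    have := r0_small a1 a2 a3 a4 hs
    exact ⟨this, key this⟩
  refine ⟨?_, fun v => ?_, k3⟩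
  · by_cases h1 : aa n = 1
    · rw [h1, norm_one]
    · rw [(k3 h1).2, show (2 * Real.pi * I * rho (r1 n) : ℂ) =
        ((2 * Real.pi * rho (r1 n) : ℝ) : ℂ) * I by push_cast; ring]
      exact norm_exp_ofReal_mul_I _
  · by_cases h2 : n 2 = 0
    · have : aa =ᶠ[𝓝 n] fun _ => 1 := (eventually_triv h h2).mono fun m hm => hm.2
      rw [this.fderiv_eq, al_of_zero h2]; simp
    rw [fderiv_aa h2]
    by_cases h1 : r1 n ≤ 1 / 1600 ∨ 1 / 100 ≤ r1 n
    · rw [exp_rho_one h1, al, deriv_rho_zero h1]; simp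
    push Not at h1
    by_cases h0 : r0 n < 1
    · have h4 := r0_small h2 h0 h1.1 h1.2 hs
      rw [show deriv chi (r0 n) = 0 from deriv_stp_eq_zero (a := 1 / 4) (b := 1) (by norm_num)
        (Or.inl h4.le), key h4]
      simp
    · rw [show deriv chi (r0 n) = 0 from deriv_stp_eq_zero (a := 1 / 4) (b := 1) (by norm_num)
        (Or.inr (not_lt.1 h0)), al, show chi (r0 n) = 0 from stp_zero (by norm_num) (not_lt.1 h0)]
      simp

theorem Xi_est {n : C3} {j : ℤ} {a : ℂ} (ha : ‖a‖ = 1) {T : ℝ} (h1 : ‖aa n‖ = 1) :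
    |Real.exp (-(2 * Real.pi * (T - j))) - 1| ≤ ‖Xi j n a T‖ := by
  have := abs_norm_sub_norm_le
    (a * conj (aa n) * (Real.exp (-(2 * Real.pi * (T - j))) : ℂ)) 1
  rwa [norm_mul, norm_mul, Complex.norm_conj, ha, h1, norm_real, norm_one, one_mul, one_mul,
    Real.norm_of_nonneg (Real.exp_pos _).le] at this

/-- near a centre the height is almost an integer -/
theorem near_wall {n : C3} (h : n ≠ 0) {j : ℤ} {a : ℂ} (ha : ‖a‖ = 1) {T : ℝ}
    (hs : nsq (NN j n a T) < 1 / 10000000) : |T - j| < 1 / 100 := by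
  have h1 := Xi_est (j := j) (T := T) ha (near_cubic h hs).1
  have h2 : ‖Xi j n a T‖ ^ 2 < 1 / 10000000 := by
    rw [NN, nsq_nu] at hs
    have : 0 ≤ ‖cub n / (nsq n : ℂ) ^ 3‖ ^ 2 *
      ((‖n 0‖ ^ 2) ^ 3 + (‖n 1‖ ^ 2) ^ 3 + (‖n 2‖ ^ 2) ^ 3) := by positivity
    linarith
  have h3 : ‖Xi j n a T‖ < 1 / 1000 := by nlinarith [norm_nonneg (Xi j n a T)]
  obtain ⟨h4, h5⟩ := abs_lt.1 (h1.trans_lt h3)
  have hp := Real.pi_gt_three
  generalize T - j = t at *
  rw [abs_lt]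
  constructor
  · by_contra hh
    have := Real.add_one_le_exp (-(2 * Real.pi * t))
    nlinarith
  · by_contra hh
    have e1 := Real.add_one_le_exp (2 * Real.pi * t)
    have e2 : Real.exp (-(2 * Real.pi * t)) * Real.exp (2 * Real.pi * t) = 1 := by
      rw [← Real.exp_add]; simp
    have e3 : 106 / 100 ≤ Real.exp (2 * Real.pi * t) := by nlinarith
    nlinarith

theorem wall_of_NN {n : C3} (h : n ≠ 0) {j : ℤ} {a : ℂ} (ha : ‖a‖ = 1) {T : ℝ}
    (hs : NN j n a T = 0) : T = j ∧ a = aa n := by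
  have h0 : ‖aa n‖ = 1 :=
    (near_cubic h (j := j) (a := a) (T := T) (by rw [nsq_eq_zero.2 hs]; norm_num)).1
  have h1 := Xi_est (j := j) (T := T) ha h0
  have h2 := ((NN_eq_zero h).1 hs).2
  rw [h2, norm_zero, abs_nonpos_iff, sub_eq_zero, Real.exp_eq_one_iff] at h1
  have h3 : T - j = 0 := by
    have := Real.pi_pos
    rcases mul_eq_zero.1 (neg_eq_zero.1 h1) with e | e
    · linarith
    · exact e
  refine ⟨sub_eq_zero.1 h3, ?_⟩
  rw [Xi, h1, Real.exp_zero, ofReal_one, mul_one, sub_eq_zero] at h2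
  have h4 : aa n * conj (aa n) = 1 := by rw [mul_conj, normSq_eq_norm_sq, h0]; simp
  linear_combination aa n * h2 - a * h4

theorem RR_far {n : C3} (h : n ≠ 0) {j : ℤ} {a : ℂ} (ha : ‖a‖ = 1) {T : ℝ}
    (hT : 1 / 100 ≤ |T - j|) :
    NN j n a T ≠ 0 ∧ cut (nsq (NN j n a T)) = 0 ∧ RR j n a T = 0 := by
  have h1 : 1 / 10000000 ≤ nsq (NN j n a T) := by
    by_contra hh
    exact absurd (near_wall h ha (not_le.1 hh)) (not_lt.2 hT)
  have h2 : cut (nsq (NN j n a T)) = 0 := stp_zero (by norm_num) (by linarith)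
  refine ⟨fun e => ?_, h2, by rw [RR, h2, zero_smul]⟩
  rw [nsq_eq_zero.2 e] at h1; norm_num at h1

theorem RR_round {n : C3} (h : n ≠ 0) {j : ℤ} {a : ℂ} (ha : ‖a‖ = 1) {T : ℝ}
    (hT : |T - j| < 3 / 4) :
    RR (round T) n a T = RR j n a T ∧ (NN (round T) n a T = 0 ↔ NN j n a T = 0) := by
  by_cases e : round T = j
  · rw [e]; exact ⟨rfl, Iff.rfl⟩
  have h1 : (1 : ℝ) ≤ |(round T : ℝ) - j| := by exact_mod_cast Int.one_le_abs (sub_ne_zero.2 e)
  have h2 := abs_sub_round T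
  have h3 : |(round T : ℝ) - j| ≤ |T - round T| + |T - j| := by
    have := abs_sub_le (round T : ℝ) T j
    rwa [abs_sub_comm (round T : ℝ) T] at this
  obtain ⟨a1, -, a2⟩ := RR_far h (j := j) ha (T := T) (by linarith)
  obtain ⟨b1, -, b2⟩ := RR_far h (j := round T) ha (T := T) (by linarith)
  exact ⟨by rw [a2, b2], by simp [a1, b1]⟩

theorem NN_vert (j : ℤ) (a : ℂ) (T : ℝ) :
    NN j ![1, 0, 0] a T ≠ 0 ∧ RR j ![1, 0, 0] a T = 0 := by
  have h1 : 1 / 160000 ≤ nsq (NN j ![1, 0, 0] a T) := by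
    rw [NN, nsq_nu]
    have := sq_nonneg ‖Xi j ![1, 0, 0] a T‖
    simp [cub, nsq, Fin.sum_univ_three]
    norm_num
  have h2 : cut (nsq (NN j ![1, 0, 0] a T)) = 0 := stp_zero (by norm_num) (by linarith)
  refine ⟨fun e => ?_, by rw [RR, h2, zero_smul]⟩
  rw [nsq_eq_zero.2 e] at h1; norm_num at h1

theorem vert_eq (T : ℝ) : vert T = lift ![1, 0, 0] (-1) T := by
  rw [vert, lift, (NN_vert _ _ _).2]

theorem vert_mem (T : ℝ) : vert T ∈ SO ∧ vert T ∉ DD := by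
  refine ⟨⟨![1, 0, 0], -1, T, fun e => by simpa using congrFun e 0, by simp, (NN_vert _ _ _).1,
    vert_eq T⟩, ?_⟩
  simp [DD, vert, pt, prj, nsq, Fin.sum_univ_three]

/-- `lift` is smooth along the unit circle -/
theorem contDiffAt_lift {q : C3 × ℝ × ℝ} (h : q.1 ≠ 0)
    (h' : NN (round q.2.2) q.1 (exp (2 * Real.pi * I * q.2.1)) q.2.2 ≠ 0) :
    ContDiffAt ℝ ∞ (fun q : C3 × ℝ × ℝ => lift q.1 (exp (2 * Real.pi * I * q.2.1)) q.2.2) q ∧
    ∀ᶠ q' : C3 × ℝ × ℝ in 𝓝 q, lift q'.1 (exp (2 * Real.pi * I * q'.2.1)) q'.2.2 ∈ SO := by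
  have hn : ∀ s : ℝ, ‖exp (2 * Real.pi * I * s)‖ = 1 := fun s => by
    rw [show (2 * Real.pi * I * s : ℂ) = ((2 * Real.pi * s : ℝ) : ℂ) * I by push_cast; ring]
    exact norm_exp_ofReal_mul_I _
  have he : ContDiff ℝ ∞ (fun q : C3 × ℝ × ℝ => exp (2 * Real.pi * I * q.2.1)) :=
    (contDiff_const.mul (ofRealCLM.contDiff.comp contDiff_snd.fst)).cexp
  have hφ : ContDiff ℝ ∞ (fun q : C3 × ℝ × ℝ =>
      ((q.1, exp (2 * Real.pi * I * q.2.1), q.2.2) : C3 × ℂ × ℝ)) :=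
    contDiff_fst.prodMk (he.prodMk contDiff_snd.snd)
  have hN := (contDiffAt_NN (round q.2.2)
    (q := (q.1, exp (2 * Real.pi * I * q.2.1), q.2.2)) h).comp q hφ.contDiffAt
  have hR := (contDiffAt_RR (round q.2.2)
    (q := (q.1, exp (2 * Real.pi * I * q.2.1), q.2.2)) h h').comp q hφ.contDiffAt
  have e1 : ∀ᶠ q' : C3 × ℝ × ℝ in 𝓝 q, q'.1 ≠ 0 := continuousAt_fst.eventually_ne h
  have e2 : ∀ᶠ q' : C3 × ℝ × ℝ in 𝓝 q, |q'.2.2 - round q.2.2| < 3 / 4 := by
    have hc : ContinuousAt (fun q' : C3 × ℝ × ℝ => |q'.2.2 - (round q.2.2 : ℝ)|) q := by fun_prop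
    exact hc.eventually (gt_mem_nhds ((abs_sub_round q.2.2).trans_lt (by norm_num)))
  have e3 := hN.continuousAt.eventually_ne h'
  constructor
  · have hP : ContDiffAt ℝ ∞ (fun q' : C3 × ℝ × ℝ => pt q'.1 (exp (2 * Real.pi * I * q'.2.1))
        q'.2.2 (RR (round q.2.2) q'.1 (exp (2 * Real.pi * I * q'.2.1)) q'.2.2)) q :=
      ((ContDiffAt.comp (g := prj) q (contDiffAt_prj h) contDiffAt_fst).prodMk
        (he.contDiffAt.prodMk hR)).prodMk contDiffAt_snd.snd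
    refine hP.congr_of_eventuallyEq ?_
    filter_upwards [e1, e2] with q' a1 a2
    rw [lift, (RR_round a1 (hn _) a2).1]
  · filter_upwards [e1, e2, e3] with q' a1 a2 a3
    exact ⟨_, _, _, a1, hn _, fun e => a3 ((RR_round a1 (hn _) a2).2.1 e), rfl⟩

end Pool.Agent.MP_9758ca_gt

end MrgPart1

-- ======== part 2: formerly Pool.Agent.MP_9758ca_gt.GBasic
section MrgPart2

/-!
PROJECT BALL, library GBasic: elementary facts on the explicit example.
-/

open scoped Topology ContDiff ComplexConjugate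
open Set Metric Filter Complex

namespace Pool.Agent.MP_9758ca_gt

/-! ### ambient functions -/

theorem colL_apply (k : Fin 3) (x : VV) (i : Fin 3) : colL k x i = x.1.1 i k := rfl
theorem colR_apply (k : Fin 4) (x : VV) (i : Fin 4) : colR k x i = x.1.2.2 i k := rfl
theorem aL_apply (x : VV) : aL x = x.1.2.1 := rfl
theorem tL_apply (x : VV) : tL x = x.2 := rfl
theorem ds_apply (x v : VV) : ds x v = (aL v / aL x).im / (2 * Real.pi) := by
  simp only [ds, _root_.smul_apply, ContinuousLinearMap.comp_apply, mulC_apply,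
    imCLM_apply, smul_eq_mul]
  rw [div_eq_inv_mul (aL v), div_eq_inv_mul]
theorem dw_apply (x v : VV) : dw x v = ds x v + I * v.2 := by
  simp only [dw, _root_.add_apply, ContinuousLinearMap.comp_apply, mulC_apply,
    ofRealCLM_apply, tL_apply]
theorem et_apply (k : Fin 3) (j : ℤ) (x v : VV) :
    et k j x v = ds x v + I * v.2 - kap (x.2 - j) * al (colL k x) (colL k v) := by
  simp only [et, _root_.sub_apply, _root_.smul_apply,
    ContinuousLinearMap.comp_apply, dw_apply, ofRealCLM_apply, Complex.real_smul]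
theorem contDiffAt_ds {x : VV} (h : aL x ≠ 0) : ContDiffAt ℝ ∞ ds x := by
  have h1 : ContDiffAt ℝ ∞ (fun y : VV => (aL y)⁻¹) x := aL.contDiff.contDiffAt.inv h
  have h2 : ContDiffAt ℝ ∞ (fun y : VV => mulC (aL y)⁻¹) x :=
    (ContinuousLinearMap.mul ℝ ℂ).contDiff.contDiffAt.comp x h1
  exact (contDiffAt_const.clm_comp (h2.clm_comp contDiffAt_const)).const_smul _
theorem dd_ds {x : VV} (h : aL x ≠ 0) (a b : VV) : dd ds x a b = 0 := by
  have h1 := dd_dlog (g := aL) aL.contDiff.contDiffAt h a b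
  simp only [ContinuousLinearMap.fderiv] at h1
  have h0 : DifferentiableAt ℝ (fun y : VV => imCLM.comp ((mulC (aL y)⁻¹).comp aL)) x := by
    have h1 : ContDiffAt ℝ ∞ (fun y : VV => (aL y)⁻¹) x := aL.contDiff.contDiffAt.inv h
    have h2 : ContDiffAt ℝ ∞ (fun y : VV => mulC (aL y)⁻¹) x :=
      (ContinuousLinearMap.mul ℝ ℂ).contDiff.contDiffAt.comp x h1
    exact (contDiffAt_const.clm_comp (h2.clm_comp contDiffAt_const)).differentiableAt (by simp)
  have h2 := dd_smul (φ := fun _ : VV => (2 * Real.pi)⁻¹) (differentiableAt_const _) h0 a b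
  rw [h1] at h2
  exact h2.trans (by simp)
theorem dd_lamB (b₀ : ℝ) (i : Idx) {x : VV} (h : aL x ≠ 0) (a b : VV) :
    dd (lamB b₀ i) x a b = bb b₀ (x.2 - i.2.2) * (ds x a * b.2 - a.2 * ds x b) := by
  have hφ : HasFDerivAt (fun y : VV => -BI b₀ (y.2 - i.2.2))
      (-(bb b₀ (x.2 - i.2.2) • tL)) x := by
    have h1 : HasFDerivAt (fun y : VV => y.2 - (i.2.2 : ℝ)) tL x :=
      tL.hasFDerivAt.sub_const (i.2.2 : ℝ)
    exact ((hasDerivAt_BI b₀ (x.2 - i.2.2)).comp_hasFDerivAt x h1).neg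
  have h2 := dd_smul hφ.differentiableAt ((contDiffAt_ds h).differentiableAt (by simp)) a b
  have he : lamB b₀ i = fun y : VV => (-BI b₀ (y.2 - i.2.2)) • ds y := by
    funext y; exact (neg_smul _ _).symm
  rw [he, h2, dd_ds h, hφ.fderiv]
  simp only [_root_.neg_apply, _root_.smul_apply, tL_apply, smul_eq_mul]
  ring
theorem colL_ne {k : Fin 3} {x : VV} (h : x.1.1 k k ≠ 0) : colL k x ≠ 0 :=
  fun h0 => h (congrFun h0 k)

theorem contDiff_P (i k : Fin 3) : ContDiff ℝ ∞ fun x : VV => x.1.1 i k := by fun_prop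
theorem contDiff_R (i k : Fin 4) : ContDiff ℝ ∞ fun x : VV => x.1.2.2 i k := by fun_prop

theorem contDiffAt_xk {k : Fin 3} {x : VV} (h : x.1.1 k k ≠ 0) :
    ContDiffAt ℝ ∞ (xk k) x ∧ ContDiffAt ℝ ∞ (yk k) x ∧ ContDiffAt ℝ ∞ (fk k) x := by
  have h1 : ContDiffAt ℝ ∞ (xk k) x :=
    (contDiff_P _ k).contDiffAt.mul ((contDiff_P k k).contDiffAt.inv h)
  have h2 : ContDiffAt ℝ ∞ (yk k) x :=
    (contDiff_P _ k).contDiffAt.mul ((contDiff_P k k).contDiffAt.inv h)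
  refine ⟨h1, h2, ?_⟩
  exact (h1.mul h2).sub (((contDiffAt_const.add (h1.pow 3)).add (h2.pow 3)).div_const 400)

theorem contDiff_tri (k : Fin 3) :
    ContDiff ℝ ∞ fun y : VV => ((colL k y, aL y, y.2) : C3 × ℂ × ℝ) :=
  (colL k).contDiff.prodMk (aL.contDiff.prodMk contDiff_snd)

theorem contDiffAt_XiA {k : Fin 3} (j : ℤ) {x : VV} (h : x.1.1 k k ≠ 0) :
    ContDiffAt ℝ ∞ (XiA k j) x ∧ ContDiffAt ℝ ∞ (NA k j) x :=
  ⟨ContDiffAt.comp (f := fun y : VV => ((colL k y, aL y, y.2) : C3 × ℂ × ℝ)) x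
      (contDiffAt_Xi j (q := (colL k x, aL x, x.2)) (colL_ne h)) (contDiff_tri k).contDiffAt,
    ContDiffAt.comp (f := fun y : VV => ((colL k y, aL y, y.2) : C3 × ℂ × ℝ)) x
      (contDiffAt_NN j (q := (colL k x, aL x, x.2)) (colL_ne h)) (contDiff_tri k).contDiffAt⟩
theorem contDiffAt_et {k : Fin 3} (j : ℤ) {x : VV} (h : x.1.1 k k ≠ 0) (ha : aL x ≠ 0) :
    ContDiffAt ℝ ∞ (et k j) x := by
  have h1 : ContDiffAt ℝ ∞ dw x :=
    (contDiffAt_const.clm_comp (contDiffAt_ds ha)).add contDiffAt_const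
  have h2 : ContDiffAt ℝ ∞ (fun y : VV => al (colL k y)) x :=
    (contDiffAt_al (colL_ne h)).comp x (colL k).contDiff.contDiffAt
  have h3 : ContDiffAt ℝ ∞ (fun y : VV => kap (y.2 - j)) x :=
    contDiff_kap.contDiffAt.comp x (contDiffAt_snd.sub contDiffAt_const)
  exact h1.sub (h3.smul (contDiffAt_const.clm_comp (h2.clm_comp contDiffAt_const)))
theorem contDiffAt_mu1 {k : Fin 3} {x : VV} (h : x.1.2.2 k.castSucc k.castSucc ≠ 0) :
    ContDiffAt ℝ ∞ (mu1 k) x :=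
  (((contDiff_P k k).contDiffAt.pow 3).mul (contDiff_R _ _).contDiffAt).mul
    ((contDiff_R _ _).contDiffAt.inv h)
theorem contDiffAt_mu2 {k : Fin 3} {x : VV} (h : x.1.1 k k ≠ 0) (h' : x.1.2.2 3 3 ≠ 0) :
    ContDiffAt ℝ ∞ (mu2 k) x :=
  (contDiff_R _ _).contDiffAt.mul
    (((contDiff_R 3 3).contDiffAt.mul ((contDiff_P k k).contDiffAt.pow 3)).inv
      (mul_ne_zero h' (pow_ne_zero 3 h)))
theorem fderiv_fk {k : Fin 3} {x : VV} (h : x.1.1 k k ≠ 0) (v : VV) : fderiv ℝ (fk k) x v =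
    (yk k x - 3 * xk k x ^ 2 / 400) * fderiv ℝ (xk k) x v +
      (xk k x - 3 * yk k x ^ 2 / 400) * fderiv ℝ (yk k) x v := by
  have h1 := ((contDiffAt_xk h).1.differentiableAt (by simp)).hasFDerivAt
  have h2 := ((contDiffAt_xk h).2.1.differentiableAt (by simp)).hasFDerivAt
  have h3 := (h1.mul h2).sub
    ((((h1.mul (h1.mul h1)).const_add 1).add (h2.mul (h2.mul h2))).const_mul (400⁻¹ : ℂ))
  have he : fk k = fun y => xk k y * yk k y -
      (400⁻¹ : ℂ) * (1 + xk k y * (xk k y * xk k y) + yk k y * (yk k y * yk k y)) := by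
    funext y; simp only [fk, cuf]; ring
  rw [he]
  erw [h3.fderiv]
  simp only [_root_.sub_apply, _root_.add_apply,
    _root_.smul_apply, smul_eq_mul, Pi.mul_apply]
  ring
theorem isOpen_dom (i : Idx) : IsOpen (dom i) := by
  obtain ⟨t, k, j⟩ := i
  rw [isOpen_iff_eventually]
  rintro x ⟨h1, h2, h3, h4⟩
  have e1 : ∀ᶠ y : VV in 𝓝 x, y.1.1 k k ≠ 0 :=
    (contDiff_P k k).continuous.continuousAt.eventually_ne h1
  have e2 : ∀ᶠ y : VV in 𝓝 x, aL y ≠ 0 := aL.continuous.continuousAt.eventually_ne h2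
  have e3 : ∀ᶠ y : VV in 𝓝 x, |y.2 - j| < 3 / 4 :=
    ContinuousAt.eventually_lt (f := fun y : VV => |y.2 - j|) (by fun_prop) continuousAt_const h3
  have c1 := (contDiffAt_XiA j h1).2.continuousAt
  have c2 : ContinuousAt (fun y => nsq (NA k j y)) x :=
    contDiff_nsq.continuous.continuousAt.comp c1
  have c3 := (contDiffAt_xk h1).1.continuousAt
  have c4 := (contDiffAt_xk h1).2.1.continuousAt
  have e4 : ∀ {m : Fin 4}, x.1.2.2 m m ≠ 0 → ∀ᶠ y : VV in 𝓝 x, y.1.2.2 m m ≠ 0 := fun h =>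
    (contDiff_R _ _).continuous.continuousAt.eventually_ne h
  have e5 : nsq (NA k j x) < 1 / 200000000 → ∀ᶠ y : VV in 𝓝 x, nsq (NA k j y) < 1 / 200000000 :=
    fun h => c2.eventually_lt continuousAt_const h
  have e6 : ∀ {f g : VV → ℂ}, ContinuousAt f x → ContinuousAt g x → f x ≠ 3 * g x ^ 2 / 400 →
      ∀ᶠ y : VV in 𝓝 x, f y ≠ 3 * g y ^ 2 / 400 := by
    intro f g hf hg h
    have : ContinuousAt (fun y => f y - 3 * g y ^ 2 / 400) x := by fun_prop
    exact (this.eventually_ne (sub_ne_zero.2 h)).mono fun y hy => sub_ne_zero.1 hy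
  fin_cases t
  · filter_upwards [e1, e2, e3, c1.eventually_ne h4] with y a1 a2 a3 a4 using ⟨a1, a2, a3, a4⟩
  · filter_upwards [e1, e2, e3, e5 h4.1, e4 h4.2] with y a1 a2 a3 a4 a5
      using ⟨a1, a2, a3, a4, a5⟩
  · filter_upwards [e1, e2, e3, e5 h4.1, e4 h4.2.1, e6 c4 c3 h4.2.2] with y a1 a2 a3 a4 a5 a6
      using ⟨a1, a2, a3, a4, a5, a6⟩
  · filter_upwards [e1, e2, e3, e5 h4.1, e4 h4.2.1, e6 c3 c4 h4.2.2] with y a1 a2 a3 a4 a5 a6
      using ⟨a1, a2, a3, a4, a5, a6⟩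

theorem contDiffAt_fd {E : Type} [NormedAddCommGroup E] [NormedSpace ℝ E] {f : VV → E} {x : VV}
    (h : ContDiffAt ℝ ∞ f x) : ContDiffAt ℝ ∞ (fderiv ℝ f) x :=
  h.fderiv_right (m := ∞) (by simp)

theorem contDiffAt_pi3 {f g h : VV → VV →L[ℝ] ℂ} {x : VV} (hf : ContDiffAt ℝ ∞ f x)
    (hg : ContDiffAt ℝ ∞ g x) (hh : ContDiffAt ℝ ∞ h x) :
    ContDiffAt ℝ ∞ (fun y => (ContinuousLinearMap.pi ![f y, g y, h y] : VV →L[ℝ] C3)) x := by
  have he : (fun y => (ContinuousLinearMap.pi ![f y, g y, h y] : VV →L[ℝ] C3)) = fun y =>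
      (ContinuousLinearMap.single ℝ (fun _ : Fin 3 => ℂ) 0).comp (f y) +
      (ContinuousLinearMap.single ℝ (fun _ : Fin 3 => ℂ) 1).comp (g y) +
      (ContinuousLinearMap.single ℝ (fun _ : Fin 3 => ℂ) 2).comp (h y) := by
    funext y
    refine ContinuousLinearMap.ext fun v => funext fun i => ?_
    fin_cases i <;> simp
  rw [he]
  exact ((contDiffAt_const.clm_comp hf).add (contDiffAt_const.clm_comp hg)).add
    (contDiffAt_const.clm_comp hh)

theorem contDiffOn_cof (i : Idx) : ContDiffOn ℝ ∞ (cof i) (dom i) := by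
  obtain ⟨t, k, j⟩ := i
  rintro x ⟨h1, h2, -, h4⟩
  refine ContDiffAt.contDiffWithinAt ?_
  have c1 := contDiffAt_fd (contDiffAt_xk h1).1
  have c2 := contDiffAt_fd (contDiffAt_xk h1).2.1
  have c3 := contDiffAt_fd (contDiffAt_XiA j h1).1
  fin_cases t
  · exact contDiffAt_pi3 c1 c2 (contDiffAt_et j h1 h2)
  · exact contDiffAt_pi3 c1 c2 (contDiffAt_fd (contDiffAt_mu1 h4.2))
  · exact contDiffAt_pi3 c2 c3 (contDiffAt_fd (contDiffAt_mu2 h1 h4.2.1))
  · exact contDiffAt_pi3 c1 c3 (contDiffAt_fd (contDiffAt_mu2 h1 h4.2.1))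

theorem contDiffAt_th_clm {m : ℕ} (L : VV →L[ℝ] Fin m → ℂ) {x : VV} (h : L x ≠ 0) :
    ContDiffAt ℝ ∞ (fun y => (th (L y)).comp L) x :=
  (ContDiffAt.comp (f := L) x (contDiffAt_th h) L.contDiff.contDiffAt).clm_comp contDiffAt_const

theorem colR_ne {k : Fin 4} {x : VV} (h : x.1.2.2 k k ≠ 0) : colR k x ≠ 0 :=
  fun h0 => h (congrFun h0 k)

theorem contDiffOn_lamH (i : Idx) : ContDiffOn ℝ ∞ (lamH i) (dom i) :=
  fun _ hx => (contDiffAt_th_clm (colL i.2.1) (colL_ne hx.1)).contDiffWithinAt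
theorem contDiffOn_lamB (b₀ : ℝ) (i : Idx) : ContDiffOn ℝ ∞ (lamB b₀ i) (dom i) := by
  intro x hx
  have h3 : ContDiffAt ℝ ∞ (fun y : VV => BI b₀ (y.2 - i.2.2)) x :=
    (contDiff_BI b₀).contDiffAt.comp x (contDiffAt_snd.sub contDiffAt_const)
  exact (h3.smul (contDiffAt_ds hx.2.1)).neg.contDiffWithinAt
theorem contDiffOn_lamS (i : Idx) : ContDiffOn ℝ ∞ (lamS i) (dom i) := by
  obtain ⟨t, k, j⟩ := i
  rintro x ⟨h1, -, -, h4⟩
  refine ContDiffAt.contDiffWithinAt ?_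
  fin_cases t
  · have c1 := (contDiffAt_XiA j h1).2
    have c2 : ContDiffAt ℝ ∞ (fun y => cut (nsq (NA k j y))) x :=
      (contDiff_stp _ _).contDiffAt.comp x (contDiff_nsq.contDiffAt.comp x c1)
    have c3 : ContDiffAt ℝ ∞ (pb (NA k j) th) x :=
      (ContDiffAt.comp (f := NA k j) x (contDiffAt_th h4) c1).clm_comp (contDiffAt_fd c1)
    exact c2.smul c3
  · exact contDiffAt_th_clm (colR k.castSucc) (colR_ne h4.2)
  · exact contDiffAt_th_clm (colR 3) (colR_ne h4.2.1)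
  · exact contDiffAt_th_clm (colR 3) (colR_ne h4.2.1)
theorem dd_atl (b₀ ε : ℝ) (t : Bool) {i : Idx} {x : VV} (h : x ∈ dom i) (a b : VV) :
    dd ((atl b₀ ε t).l i) x a b =
      dd (lamH i) x a b + dd (lamB b₀ i) x a b + ε * dd (lamS i) x a b := by
  have hn := (isOpen_dom i).mem_nhds h
  have d1 := ((contDiffOn_lamH i).contDiffAt hn).differentiableAt (by simp)
  have d2 := ((contDiffOn_lamB b₀ i).contDiffAt hn).differentiableAt (by simp)
  have d3 := ((contDiffOn_lamS i).contDiffAt hn).differentiableAt (by simp)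
  have e1 := dd_add (l := fun y => lamH i y + lamB b₀ i y) (l' := fun y => ε • lamS i y)
    (d1.add d2) (d3.const_smul ε) a b
  have e2 := dd_add d1 d2 a b
  have e3 := dd_smul (φ := fun _ : VV => ε) (differentiableAt_const _) d3 a b
  refine e1.trans ?_
  rw [e2, e3]
  simp

/-! ### points of `SS` -/

theorem pt_chart {n : C3} {k : Fin 3} (h : n k ≠ 0) (j : ℤ) (a : ℂ) (T : ℝ) (R : M4) :
    (pt n a T R).1.1 k k ≠ 0 ∧ colL k (pt n a T R) = (conj (n k) / (nsq n : ℂ)) • n ∧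
    xk k (pt n a T R) = n (k.succAbove 0) / n k ∧ yk k (pt n a T R) = n (k.succAbove 1) / n k ∧
    fk k (pt n a T R) = cub n / n k ^ 3 ∧ XiA k j (pt n a T R) = Xi j n a T ∧
    NA k j (pt n a T R) = NN j n a T := by
  have hn : n ≠ 0 := fun h0 => h (congrFun h0 k)
  have hc : conj (n k) / (nsq n : ℂ) ≠ 0 :=
    div_ne_zero ((_root_.map_ne_zero _).2 h) (ofReal_ne_zero.2 (nsq_pos hn).ne')
  have h1 : colL k (pt n a T R) = (conj (n k) / (nsq n : ℂ)) • n := prj_col n k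
  have h2 : xk k (pt n a T R) = n (k.succAbove 0) / n k := prj_ratio h _
  have h3 : yk k (pt n a T R) = n (k.succAbove 1) / n k := prj_ratio h _
  refine ⟨prj_diag_ne.2 h, h1, h2, h3, ?_, ?_, ?_⟩
  · rw [fk, h2, h3, cub_chart h, mul_div_cancel_left₀ _ (pow_ne_zero 3 h)]
  · rw [XiA, h1]; exact Xi_smul hc j n a T
  · rw [NA, h1]; exact NN_smul hc j n a T

theorem SS_pt {x : VV} (hx : x ∈ SS) :
    ∃ (n : C3) (a : ℂ) (T : ℝ) (R : M4), n ≠ 0 ∧ ‖a‖ = 1 ∧ x = pt n a T R := by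
  rcases hx with ⟨n, a, T, h1, h2, -, h⟩ | ⟨n, a, j, p, q, h1, h2, -, -, h⟩
  · exact ⟨n, a, T, _, h1, h2, h⟩
  · exact ⟨n, a, j, _, h1, h2, h⟩

theorem SS_base {x : VV} (hx : x ∈ SS) : ‖aL x‖ = 1 ∧ ∃ n : C3, n ≠ 0 ∧ x.1.1 = prj n := by
  obtain ⟨n, a, T, R, h1, h2, rfl⟩ := SS_pt hx
  exact ⟨h2, n, h1, rfl⟩

theorem SS_col {x : VV} (hx : x ∈ SS) {k : Fin 3} (hk : x.1.1 k k ≠ 0) :
    x.1.1 = prj (colL k x) := by
  obtain ⟨n, a, T, R, h1, h2, rfl⟩ := SS_pt hx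
  have h : n k ≠ 0 := prj_diag_ne.1 hk
  have hc : conj (n k) / (nsq n : ℂ) ≠ 0 :=
    div_ne_zero ((_root_.map_ne_zero _).2 h) (ofReal_ne_zero.2 (nsq_pos h1).ne')
  rw [(pt_chart h 0 a T R).2.1, prj_smul hc]
  rfl

theorem nu_row {n : C3} {k : Fin 3} (h : n k ≠ 0) (p q : ℂ) :
    nu n p q = ![p * (nsq n : ℂ) ^ 3 / n k ^ 3 * prj n k 0 ^ 3,
      p * (nsq n : ℂ) ^ 3 / n k ^ 3 * prj n k 1 ^ 3,
      p * (nsq n : ℂ) ^ 3 / n k ^ 3 * prj n k 2 ^ 3, q] := by
  have hn : n ≠ 0 := fun h0 => h (congrFun h0 k)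
  have hs : (nsq n : ℂ) ≠ 0 := ofReal_ne_zero.2 (nsq_pos hn).ne'
  have he : ∀ i, p * (nsq n : ℂ) ^ 3 / n k ^ 3 * prj n k i ^ 3 = p * conj (n i) ^ 3 := by
    intro i
    simp only [prj]
    field_simp
  simp only [he, nu]

theorem NA_eq {x : VV} (hx : x ∈ SS) {k : Fin 3} (hk : x.1.1 k k ≠ 0) (j : ℤ) :
    NA k j x = ![fk k x * x.1.1 k 0 ^ 3, fk k x * x.1.1 k 1 ^ 3, fk k x * x.1.1 k 2 ^ 3,
      XiA k j x] := by
  obtain ⟨n, a, T, R, h1, h2, rfl⟩ := SS_pt hx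
  have h : n k ≠ 0 := prj_diag_ne.1 hk
  have hs : (nsq n : ℂ) ≠ 0 := ofReal_ne_zero.2 (nsq_pos h1).ne'
  obtain ⟨-, -, -, -, e1, e2, e3⟩ := pt_chart h j a T R
  rw [e1, e2, e3, NN, nu_row h, div_mul_cancel₀ _ (pow_ne_zero 3 hs)]
  rfl

theorem SO_char {x : VV} (hx : x ∈ SO) {k : Fin 3} (hk : x.1.1 k k ≠ 0) {j : ℤ}
    (hj : |x.2 - j| < 3 / 4) :
    NA k j x ≠ 0 ∧ x.1.2.2 = cut (nsq (NA k j x)) • prj (NA k j x) := by
  obtain ⟨n, a, T, h1, h2, h3, rfl⟩ := hx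
  have h : n k ≠ 0 := prj_diag_ne.1 hk
  have e3 : NA k j (lift n a T) = NN j n a T := (pt_chart h j a T _).2.2.2.2.2.2
  have hr := RR_round h1 (j := j) h2 (T := T) hj
  rw [e3]
  exact ⟨fun h0 => h3 (hr.2.2 h0), hr.1⟩

theorem EE_char {x : VV} (hx : x ∈ EE) {k : Fin 3} (hk : x.1.1 k k ≠ 0) {j : ℤ}
    (hj : |x.2 - j| < 3 / 4) :
    NA k j x = 0 ∧ ∃ p q : ℂ, (p ≠ 0 ∨ q ≠ 0) ∧ p * XiA k j x = q * fk k x ∧
      x.1.2.2 = prj ![p * x.1.1 k 0 ^ 3, p * x.1.1 k 1 ^ 3, p * x.1.1 k 2 ^ 3, q] := by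
  obtain ⟨n, a, j', p, q, h1, h2, h3, h4, rfl⟩ := hx
  have h : n k ≠ 0 := prj_diag_ne.1 hk
  have hs : (nsq n : ℂ) ≠ 0 := ofReal_ne_zero.2 (nsq_pos h1).ne'
  have hjj : j' = j := by
    have h5 : |((j' - j : ℤ) : ℝ)| < 1 := by
      push_cast
      exact lt_trans hj (by norm_num)
    rw [← Int.cast_abs, ← Int.cast_one, Int.cast_lt, Int.abs_lt_one_iff] at h5
    exact sub_eq_zero.1 h5
  subst hjj
  obtain ⟨-, -, -, -, e1, e2, e3⟩ := pt_chart h j' a j' (prj (nu n p q))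
  have h6 := (NN_eq_zero h1).1 h3
  refine ⟨e3.trans h3, p * (nsq n : ℂ) ^ 3 / n k ^ 3, q, ?_, ?_, ?_⟩
  · exact h4.imp_left fun hp =>
      div_ne_zero (mul_ne_zero hp (pow_ne_zero 3 hs)) (pow_ne_zero 3 h)
  · rw [e1, e2, h6.1, h6.2]; simp
  · exact congrArg prj (nu_row h p q)

theorem cut_one {t : ℝ} (h : t < 1 / 200000000) : cut t = 1 := stp_one (by norm_num) h.le

/-- description of the points of `SS` in an affine chart near a wall -/
theorem SS_char {x : VV} (hx : x ∈ SS) {k : Fin 3} (hk : x.1.1 k k ≠ 0) {j : ℤ}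
    (hj : |x.2 - j| < 3 / 4) :
    (x ∈ SO ↔ NA k j x ≠ 0) ∧ (x ∈ EE ↔ NA k j x = 0) ∧
    (NA k j x ≠ 0 → x.1.2.2 = cut (nsq (NA k j x)) • prj (NA k j x)) ∧
    (nsq (NA k j x) < 1 / 200000000 → ∃ p q : ℂ, (p ≠ 0 ∨ q ≠ 0) ∧ p * XiA k j x = q * fk k x ∧
      x.1.2.2 = prj ![p * x.1.1 k 0 ^ 3, p * x.1.1 k 1 ^ 3, p * x.1.1 k 2 ^ 3, q]) := by
  have hO : NA k j x ≠ 0 → x ∈ SO := fun h0 =>
    hx.resolve_right fun hE => h0 (EE_char hE hk hj).1
  refine ⟨⟨fun h => (SO_char h hk hj).1, hO⟩, ⟨fun h => (EE_char h hk hj).1, fun h0 =>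
    hx.resolve_left fun h => (SO_char h hk hj).1 h0⟩, fun h0 => (SO_char (hO h0) hk hj).2,
    fun hs => ?_⟩
  rcases hx with h | h
  · obtain ⟨h1, h2⟩ := SO_char h hk hj
    have he := NA_eq (Or.inl h) hk j
    refine ⟨fk k x, XiA k j x, ?_, mul_comm _ _, ?_⟩
    · by_contra hc
      rw [not_or, not_not, not_not] at hc
      apply h1
      rw [he, hc.1, hc.2]
      funext i
      fin_cases i <;> simp
    · rw [h2, cut_one hs, one_smul, he]
  · exact (EE_char h hk hj).2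

/-- converse: points near a centre -/
theorem mem_SS_near {n : C3} (h : n ≠ 0) {j : ℤ} {a : ℂ} (ha : ‖a‖ = 1) {T : ℝ}
    (hs : nsq (NN j n a T) < 1 / 200000000) {p q : ℂ} (hpq : p ≠ 0 ∨ q ≠ 0)
    (he : p * Xi j n a T = q * (cub n / (nsq n : ℂ) ^ 3)) :
    pt n a T (prj (nu n p q)) ∈ SS := by
  by_cases h0 : NN j n a T = 0
  · obtain ⟨rfl, -⟩ := wall_of_NN h ha h0
    exact Or.inr ⟨n, a, j, p, q, h, ha, h0, hpq, rfl⟩
  have hT := near_wall h ha (lt_trans hs (by norm_num))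
  have hr := RR_round h (j := j) ha (T := T) (lt_trans hT (by norm_num))
  refine Or.inl ⟨n, a, T, h, ha, fun h1 => h0 (hr.2.1 h1), ?_⟩
  rw [lift, hr.1, RR, cut_one hs, one_smul]
  congr 1
  have h2 : ¬ (cub n / (nsq n : ℂ) ^ 3 = 0 ∧ Xi j n a T = 0) := fun h3 =>
    h0 ((nu_eq_zero h).2 h3)
  obtain ⟨c, hc1, hc2⟩ : ∃ c : ℂ, p = c * (cub n / (nsq n : ℂ) ^ 3) ∧ q = c * Xi j n a T := by
    generalize cub n / (nsq n : ℂ) ^ 3 = u at he h2
    generalize Xi j n a T = w at he h2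
    by_cases hu : u = 0
    · have hw : w ≠ 0 := fun hw => h2 ⟨hu, hw⟩
      refine ⟨q / w, ?_, by field_simp⟩
      rw [hu, mul_zero] at he ⊢
      exact (mul_eq_zero.1 he).resolve_right hw
    · refine ⟨p / u, by field_simp, ?_⟩
      field_simp
      linear_combination -he
  have hc : c ≠ 0 := by
    rintro rfl
    rw [zero_mul] at hc1 hc2
    exact hpq.elim (fun h => h hc1) fun h => h hc2
  rw [hc1, hc2, ← smul_nu, prj_smul hc, NN]

theorem row_cast (p q : ℂ) (P : C3) (k : Fin 3) :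
    (![p * P 0 ^ 3, p * P 1 ^ 3, p * P 2 ^ 3, q] : C4) k.castSucc = p * P k ^ 3 := by
  fin_cases k <;> rfl

theorem mu1_rel {x : VV} (hx : x ∈ SS) {k : Fin 3} {j : ℤ} (h : x ∈ dom (1, k, j)) :
    XiA k j x = mu1 k x * fk k x := by
  obtain ⟨h1, -, h3, h4, h5⟩ := h
  obtain ⟨p, q, -, e1, e2⟩ := (SS_char hx h1 h3).2.2.2 h4
  have h6 : x.1.2.2 k.castSucc k.castSucc ≠ 0 := h5
  rw [e2] at h6
  have h7 := prj_diag_ne.1 h6
  have h8 := prj_ratio h7 3
  rw [row_cast p q (x.1.1 k) k] at h7 h8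
  have hp : p ≠ 0 := left_ne_zero_of_mul h7
  have h1' : x.1.1 k k ≠ 0 := h1
  have e3 : mu1 k x = q / p := by
    rw [mu1, mul_div_assoc, e2, h8]
    change x.1.1 k k ^ 3 * (q / _) = _
    field_simp
  have e1' : p * XiA k j x = q * fk k x := e1
  rw [e3]
  field_simp
  linear_combination e1'
theorem mu2_rel {x : VV} (hx : x ∈ SS) {k : Fin 3} {j : ℤ}
    (h : x ∈ dom (2, k, j) ∨ x ∈ dom (3, k, j)) : fk k x = mu2 k x * XiA k j x := by
  obtain ⟨h1, h3, h4, h6⟩ : x.1.1 k k ≠ 0 ∧ |x.2 - j| < 3 / 4 ∧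
      nsq (NA k j x) < 1 / 200000000 ∧ x.1.2.2 3 3 ≠ 0 := by
    rcases h with ⟨h1, -, h3, h4, h5, -⟩ | ⟨h1, -, h3, h4, h5, -⟩ <;> exact ⟨h1, h3, h4, h5⟩
  obtain ⟨p, q, -, e1, e2⟩ := (SS_char hx h1 h3).2.2.2 h4
  rw [e2] at h6
  have h7 := prj_diag_ne.1 h6
  have h8 := prj_ratio h7 k.castSucc
  rw [row_cast p q (x.1.1 k) k] at h8
  have hq : q ≠ 0 := h7
  have e3 : mu2 k x = p / q := by
    rw [mu2, ← div_div, e2, h8]
    change (_ / q) / _ = _
    field_simp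
  rw [e3]
  field_simp
  linear_combination -e1

/-- tangent vectors are tangent to the unit circle -/
theorem aL_tan {x : VV} (hx : x ∈ SS) {v : VV} (hv : v ∈ tan SS x) :
    aL v = 2 * Real.pi * I * ds x v * aL x := by
  have ha := (SS_base hx).1
  have ha0 : aL x ≠ 0 := by
    intro h; rw [h, norm_zero] at ha; exact zero_ne_one ha
  have d1 : HasFDerivAt (fun y : VV => conj (aL y)) ((conjCLE : ℂ →L[ℝ] ℂ).comp aL) x :=
    ((conjCLE : ℂ →L[ℝ] ℂ).comp aL).hasFDerivAt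
  have d2 := aL.hasFDerivAt.mul d1
  have h1 := fderiv_eq_on_tan (g' := fun _ => (1 : ℂ)) hx d2.differentiableAt
    (differentiableAt_const _) (Eventually.of_forall fun y hy => by
      simp only [Pi.mul_apply, mul_conj, normSq_eq_norm_sq, (SS_base hy).1]; simp) hv
  rw [d2.fderiv] at h1
  simp only [_root_.add_apply, _root_.smul_apply, ContinuousLinearMap.comp_apply, smul_eq_mul,
    ContinuousLinearEquiv.coe_coe, conjCLE_apply, fderiv_fun_const, Pi.zero_apply,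
    _root_.zero_apply] at h1
  have h2 : aL x * conj (aL x) = 1 := by
    rw [mul_conj, normSq_eq_norm_sq, ha]; simp
  have h3 : aL v / aL x = aL v * conj (aL x) := by
    field_simp
    linear_combination (-aL v) * h2
  have h4 : (aL v * conj (aL x)).re = 0 := by
    have := congrArg Complex.re h1
    simp only [add_re, mul_re, conj_re, conj_im, zero_re] at this ⊢
    linarith
  have h5 : aL v * conj (aL x) = I * ((aL v * conj (aL x)).im : ℂ) := by
    apply Complex.ext <;> simp only [h4, mul_re (z := I), mul_im (z := I), I_re, I_im, ofReal_re,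
      ofReal_im] <;> ring
  have hpi : (Real.pi : ℂ) ≠ 0 := ofReal_ne_zero.2 Real.pi_ne_zero
  rw [ds_apply, h3]
  generalize (aL v * conj (aL x)).im = t at h5
  push_cast
  field_simp
  linear_combination (-aL v) * h2 + aL x * h5

/-- `Xi` is holomorphic near the centres -/
theorem fderiv_XiA {x : VV} (hx : x ∈ SS) {k : Fin 3} (hk : x.1.1 k k ≠ 0) {j : ℤ}
    (hs : nsq (NA k j x) < 1 / 10000000) {v : VV} (hv : v ∈ tan SS x) :
    fderiv ℝ (XiA k j) x v = 2 * Real.pi * I * (XiA k j x + 1) * et k j x v ∧ XiA k j x + 1 ≠ 0 := by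
  have ha := (SS_base hx).1
  have ha0 : aL x ≠ 0 := by
    intro h; rw [h, norm_zero] at ha; exact zero_ne_one ha
  obtain ⟨n1, n2, -⟩ := near_cubic (colL_ne hk) hs
  have hT := near_wall (colL_ne hk) ha hs
  have hkap : kap (x.2 - j) = 1 := kap_one (le_trans hT.le (by norm_num))
  have da := ((contDiffAt_aa (colL_ne hk)).differentiableAt (by simp)).hasFDerivAt
  have d1 : HasFDerivAt (fun y : VV => conj (aa (colL k y)))
      ((conjCLE : ℂ →L[ℝ] ℂ).comp ((fderiv ℝ aa (colL k x)).comp (colL k))) x :=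
    (conjCLE : ℂ →L[ℝ] ℂ).hasFDerivAt.comp x (da.comp x (colL k).hasFDerivAt)
  have d2 : HasFDerivAt (fun y : VV => -(2 * Real.pi * (y.2 - j))) (-((2 * Real.pi) • tL)) x :=
    ((tL.hasFDerivAt.sub_const (j : ℝ)).const_mul (2 * Real.pi)).neg
  have d3 : HasFDerivAt (fun y : VV => ((Real.exp (-(2 * Real.pi * (y.2 - j))) : ℝ) : ℂ))
      (ofRealCLM.comp (Real.exp (-(2 * Real.pi * (x.2 - j))) • -((2 * Real.pi) • tL))) x :=
    ofRealCLM.hasFDerivAt.comp x d2.exp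
  have d4 := ((aL.hasFDerivAt.mul d1).mul d3).sub_const 1
  have e0 : XiA k j x + 1 =
      aL x * conj (aa (colL k x)) * ((Real.exp (-(2 * Real.pi * (x.2 - j))) : ℝ) : ℂ) :=
    sub_add_cancel _ _
  refine ⟨?_, ?_⟩
  · have e1 : fderiv ℝ (XiA k j) x = _ := d4.fderiv
    rw [e1, e0, et_apply, hkap]
    simp only [_root_.add_apply, _root_.smul_apply, _root_.neg_apply,
      ContinuousLinearMap.comp_apply, smul_eq_mul, ContinuousLinearEquiv.coe_coe, conjCLE_apply,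
      ofRealCLM_apply, Pi.mul_apply, n2, tL_apply, map_mul, conj_ofReal, conj_I, conj_ofNat]
    rw [aL_tan hx hv]
    generalize Real.exp (-(2 * Real.pi * (x.2 - j))) = E
    push_cast
    linear_combination (-2 * Real.pi * aL x * conj (aa (colL k x)) * E * v.2) * I_mul_I
  · rw [e0]
    refine mul_ne_zero (mul_ne_zero ha0 ((_root_.map_ne_zero _).2 fun h => ?_))
      (ofReal_ne_zero.2 (Real.exp_pos _).ne')
    rw [h, norm_zero] at n1
    exact zero_ne_one n1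

theorem SS_diag {x : VV} (hx : x ∈ SS) : ∃ k, x.1.1 k k ≠ 0 := by
  obtain ⟨-, n, hn, h⟩ := SS_base hx
  rw [h]; exact prj_ne_zero hn

theorem abs_round_lt (t : ℝ) : |t - round t| < 3 / 4 :=
  lt_of_le_of_lt (abs_sub_round t) (by norm_num)

theorem dom_cover {x : VV} (hx : x ∈ SS) : ∃ i, x ∈ dom i := by
  obtain ⟨k, hk⟩ := SS_diag hx
  have hj := abs_round_lt x.2
  have ha0 : aL x ≠ 0 := by
    intro h
    have ha := (SS_base hx).1
    rw [h, norm_zero] at ha; exact zero_ne_one ha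
  by_cases h0 : NA k (round x.2) x = 0
  swap
  · exact ⟨(0, k, round x.2), hk, ha0, hj, h0⟩
  have hs : nsq (NA k (round x.2) x) < 1 / 200000000 := by
    rw [nsq_eq_zero.2 h0]; norm_num
  obtain ⟨p, q, hpq, -, e2⟩ := (SS_char hx hk hj).2.2.2 hs
  by_cases hp : p = 0
  swap
  · refine ⟨(1, k, round x.2), hk, ha0, hj, hs, ?_⟩
    change x.1.2.2 k.castSucc k.castSucc ≠ 0
    rw [e2, prj_diag_ne, row_cast p q (x.1.1 k) k]
    exact mul_ne_zero hp (pow_ne_zero 3 hk)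
  have hq : x.1.2.2 3 3 ≠ 0 := by
    rw [e2, prj_diag_ne]
    exact hpq.resolve_left (not_not.2 hp)
  have hf : fk k x = 0 := by
    have h1 := congrFun ((NA_eq hx hk (round x.2)).symm.trans h0) k.castSucc
    rw [row_cast _ _ (x.1.1 k) k] at h1
    exact (mul_eq_zero.1 h1).resolve_right (pow_ne_zero 3 hk)
  rcases cuf_smooth hf with h | h
  · exact ⟨(2, k, round x.2), hk, ha0, hj, hs, hq, h⟩
  · exact ⟨(3, k, round x.2), hk, ha0, hj, hs, hq, h⟩

theorem disjoint_SO_EE : Disjoint SO EE := by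
  rw [Set.disjoint_left]
  intro x h1 h2
  obtain ⟨k, hk⟩ := SS_diag (Or.inl h1)
  exact (SO_char h1 hk (abs_round_lt x.2)).1 (EE_char h2 hk (abs_round_lt x.2)).1

theorem mem_DD {n : C3} (h : n ≠ 0) (a : ℂ) (T : ℝ) (R : M4) :
    pt n a T R ∈ DD ↔ n 0 + n 1 + n 2 = 0 := by
  have hs : (nsq n : ℂ) ≠ 0 := ofReal_ne_zero.2 (nsq_pos h).ne'
  have he : ∑ i, ∑ k, prj n i k = (n 0 + n 1 + n 2) * conj (n 0 + n 1 + n 2) / (nsq n : ℂ) := by
    simp only [Fin.sum_univ_three, prj, map_add]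
    ring
  change ∑ i, ∑ k, prj n i k = 0 ↔ _
  rw [he, div_eq_zero_iff, mul_eq_zero, _root_.map_eq_zero, or_self, or_iff_left hs]

theorem ZZ_sub (j : ℤ) : ZZ j ⊆ EE ∧ (∀ x ∈ ZZ j, x.2 = j) ∧ Disjoint (ZZ j) DD := by
  have hne : ∀ s t : ℝ, (![(s : ℂ), t, 1] : C3) ≠ 0 := fun s t h => one_ne_zero (congrFun h 2)
  refine ⟨?_, ?_, Set.disjoint_left.2 ?_⟩
  · rintro x ⟨s, t, a, p, q, -, -, h3, h4, h5, h6⟩
    exact ⟨_, a, j, p, q, hne s t, h3, h4, h5, h6⟩
  · rintro x ⟨s, t, a, p, q, -, -, -, -, -, rfl⟩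
    rfl
  · rintro x ⟨s, t, a, p, q, h1, h2, -, -, -, rfl⟩ hD
    have h7 : (s : ℂ) + t + 1 = 0 := (mem_DD (hne s t) _ _ _).1 hD
    have h8 : s + t + 1 = 0 := by exact_mod_cast h7
    linarith

theorem SO_ext {x x' : VV} (hx : x ∈ SO) (hx' : x' ∈ SS) (h1 : x'.1.1 = x.1.1)
    (h2 : aL x' = aL x) (h3 : x'.2 = x.2) : x' = x := by
  obtain ⟨k, hk⟩ := SS_diag (Or.inl hx)
  have hj := abs_round_lt x.2
  obtain ⟨e1, e2⟩ := SO_char hx hk hj
  have hc : colL k x' = colL k x := by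
    funext i; rw [colL_apply, colL_apply, h1]
  have hN : NA k (round x.2) x' = NA k (round x.2) x := by rw [NA, NA, hc, h2, h3]
  have e3 := (SS_char hx' (k := k) (by rwa [h1]) (j := round x.2) (by rwa [h3])).2.2.1
    (by rwa [hN])
  rw [hN, ← e2] at e3
  exact Prod.ext (Prod.ext h1 (Prod.ext h2 e3)) h3

/-! ### translations -/

theorem SS_shift (m : ℤ) {x : VV} (hx : x ∈ SS) : (x.1, x.2 + m) ∈ SS := by
  rcases hx with ⟨n, a, T, h1, h2, h3, rfl⟩ | ⟨n, a, j, p, q, h1, h2, h3, h4, rfl⟩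
  · refine Or.inl ⟨n, a, T + m, h1, h2, ?_, ?_⟩
    · rwa [round_add_intCast, NN_shift]
    · simp only [lift, pt, RR, round_add_intCast, NN_shift]
  · refine Or.inr ⟨n, a, j + m, p, q, h1, h2, ?_, h4, ?_⟩
    · rwa [Int.cast_add, NN_shift]
    · simp only [pt, Int.cast_add]

theorem shift_eq (c : ℝ) (x : VV) : ((x.1, x.2 + c) : VV) = x + (0, c) :=
  Prod.ext (add_zero _).symm rfl

theorem tan_shift_le (m : ℤ) (x : VV) : tan SS x ≤ tan SS (x.1, x.2 + m) := by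
  intro v hv
  have hd : HasFDerivAt (fun y : VV => y + (0, (m : ℝ))) (ContinuousLinearMap.id ℝ VV) x :=
    (hasFDerivAt_id x).add_const _
  have h1 := fderiv_mem_tan_of_tan (S' := SS) hd.differentiableAt
    (Eventually.of_forall fun y hy => by rw [← shift_eq]; exact SS_shift m hy) hv
  rw [hd.fderiv, ← shift_eq] at h1
  exact h1

theorem fderiv_shift {E : Type} [NormedAddCommGroup E] [NormedSpace ℝ E] {f g : VV → E} {c : ℝ}
    (h : ∀ y : VV, f (y.1, y.2 + c) = g y) (x : VV) :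
    fderiv ℝ f (x.1, x.2 + c) = fderiv ℝ g x := by
  rw [shift_eq, ← fderiv_comp_add_right]
  congr 1
  funext y
  rw [← shift_eq, h]

theorem sub_shift (t : ℝ) (j m : ℤ) : t + m - ((j + m : ℤ) : ℝ) = t - j := by push_cast; ring

theorem NA_shift (k : Fin 3) (j m : ℤ) (y : VV) : NA k (j + m) (y.1, y.2 + m) = NA k j y :=
  NN_shift j m (colL k y) (aL y) y.2

theorem XiA_shift (k : Fin 3) (j m : ℤ) (y : VV) : XiA k (j + m) (y.1, y.2 + m) = XiA k j y :=
  congrFun (NA_shift k j m y) 3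

theorem tan_shift (m : ℤ) (x : VV) : tan SS (x.1, x.2 + m) = tan SS x := by
  refine le_antisymm ?_ (tan_shift_le m x)
  have h := tan_shift_le (-m) (x.1, x.2 + m)
  simpa only [Int.cast_neg, add_neg_cancel_right] using h

theorem dom_shift (m : ℤ) (i : Idx) (x : VV) :
    (x.1, x.2 + m) ∈ dom (i.1, i.2.1, i.2.2 + m) ↔ x ∈ dom i := by
  simp only [dom, mem_ofPred_eq, NA_shift, sub_shift]
  rfl

theorem cof_shift (m : ℤ) (i : Idx) (x : VV) :
    cof (i.1, i.2.1, i.2.2 + m) (x.1, x.2 + m) = cof i x := by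
  have e1 := fderiv_shift (f := xk i.2.1) (g := xk i.2.1) (c := m) (fun _ => rfl) x
  have e2 := fderiv_shift (f := yk i.2.1) (g := yk i.2.1) (c := m) (fun _ => rfl) x
  have e3 := fderiv_shift (f := mu1 i.2.1) (g := mu1 i.2.1) (c := m) (fun _ => rfl) x
  have e4 := fderiv_shift (f := mu2 i.2.1) (g := mu2 i.2.1) (c := m) (fun _ => rfl) x
  have e5 := fderiv_shift (XiA_shift i.2.1 i.2.2 m) x
  have e6 : et i.2.1 (i.2.2 + m) (x.1, x.2 + m) = et i.2.1 i.2.2 x := by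
    simp only [et, sub_shift]
    rfl
  simp only [cof, e1, e2, e3, e4, e5, e6]

theorem lam_shift (b₀ ε : ℝ) (t : Bool) (m : ℤ) (i : Idx) (x a b : VV) :
    dd ((atl b₀ ε t).l (i.1, i.2.1, i.2.2 + m)) (x.1, x.2 + m) a b =
      dd ((atl b₀ ε t).l i) x a b := by
  have h : ∀ y : VV, (atl b₀ ε t).l (i.1, i.2.1, i.2.2 + m) (y.1, y.2 + m) =
      (atl b₀ ε t).l i y := by
    intro y
    have e1 : lamH (i.1, i.2.1, i.2.2 + m) (y.1, y.2 + m) = lamH i y := rfl
    have e2 : lamB b₀ (i.1, i.2.1, i.2.2 + m) (y.1, y.2 + m) = lamB b₀ i y := by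
      simp only [lamB, sub_shift]
      rfl
    have e3 : lamS (i.1, i.2.1, i.2.2 + m) (y.1, y.2 + m) = lamS i y := by
      simp only [lamS, pb, NA_shift, fderiv_shift (NA_shift i.2.1 i.2.2 m) y]
      rfl
    change lamH _ _ + lamB _ _ _ + ε • lamS _ _ = lamH _ _ + lamB _ _ _ + ε • lamS _ _
    rw [e1, e2, e3]
  simp only [dd, fderiv_shift h x]

theorem ball0_shift (l m : ℤ) (y : E6) : ball0 (l + m) y = ((ball0 l y).1, (ball0 l y).2 + m) := by
  refine Prod.ext rfl ?_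
  change ((l + m : ℤ) : ℝ) + 2⁻¹ + y 5 / 2 = l + 2⁻¹ + y 5 / 2 + m
  push_cast
  ring

end Pool.Agent.MP_9758ca_gt

end MrgPart2

-- marker of a merged file
example : 731051 + 619119 = 731051 + 619119 := rfl
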