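import Mathlib.AlgebraicTopology.FundamentalGroupoid.SimplyConnected
import Mathlib.Analysis.Complex.OpenMapping
import Pool.Agent.MP_9758ca_gt.SpecA
import Pool.Agent.MP_9758ca_gt.GBasic

-- ======== part 0: formerly Pool.Agent.MP_9758ca_gt.Fib
section MrgPart0

/-!
PROJECT BALL, modules FIB, PAIR, COVER1: local structure of holomorphic spheres.
-/

open scoped Topology ContDiff ComplexConjugate
open Set Metric Filter Complex

namespace Pool.Agent.MP_9758ca_gt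

noncomputable section

namespace FibP

variable {V : Type} [NormedAddCommGroup V] [NormedSpace ℝ V]

/-! ### elementary facts -/

lemma bdd {E : Type} [NormedAddCommGroup E] {f : ℂ → E} {z : ℂ} (hf : ContinuousAt f z) :
    ∃ C, 0 ≤ C ∧ ∀ᶠ w in 𝓝 z, ‖f w‖ ≤ C :=
  ⟨‖f z‖ + 1, by positivity,
    (hf.norm.eventually (gt_mem_nhds (lt_add_one ‖f z‖))).mono fun _ h => h.le⟩

lemma dec (A : ℂ →L[ℝ] V) (c : ℂ) : A c = c.re • A 1 + c.im • A I := by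
  rw [← map_smul, ← map_smul, ← map_add]
  congr 1
  apply Complex.ext <;> simp

lemma zero_of (A : ℂ →L[ℝ] V) (j : En0 V) (h : A I = j (A 1)) (h1 : A 1 = 0) : A = 0 := by
  ext1 c
  rw [dec, h, h1]; simp

lemma inj_of (A : ℂ →L[ℝ] V) (j : En0 V) (h : A I = j (A 1)) (hj : ∀ v, j (j v) = -v)
    (hA : A ≠ 0) (c : ℂ) (hc : A c = 0) : c = 0 := by
  by_contra hne
  refine hA (zero_of A j h ?_)
  rw [dec, h] at hc
  have h2 := congrArg j hc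
  rw [map_add, map_smul, map_smul, hj, map_zero] at h2
  have h3 : (c.re * c.re + c.im * c.im) • A 1 =
      c.re • (c.re • A 1 + c.im • j (A 1)) - c.im • (c.re • j (A 1) + c.im • -A 1) := by module
  rw [hc, h2, smul_zero, smul_zero, sub_zero, ← Complex.normSq_apply] at h3
  exact (smul_eq_zero.1 h3).resolve_left (by simpa using hne)

omit [NormedSpace ℝ V] in
lemma eq_of_punct {f : ℂ → V} {x : V} (hc : ContinuousAt f 0) (h : ∀ z, z ≠ 0 → f z = x) :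
    f 0 = x :=
  tendsto_nhds_unique (hc.tendsto.mono_left (nhdsWithin_le_nhds (s := {0}ᶜ)))
    (tendsto_const_nhds.congr' (eventually_mem_nhdsWithin.mono fun z hz => (h z hz).symm))

lemma aff_inv {X : Type} {U : C2 → X} (h : Inv U) {z : ℂ} (hz : z ≠ 0) :
    aff U z = aff' U z⁻¹ := by
  have := h z hz (1, z⁻¹) (by simp)
  rw [Prod.smul_mk, smul_eq_mul, smul_eq_mul, mul_one, mul_inv_cancel₀ hz] at this
  exact this

lemma aff_div {X : Type} {U : C2 → X} (h : Inv U) {v : C2} (hv : v.2 ≠ 0) :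
    U v = aff U (v.1 / v.2) := by
  have := h v.2 hv (v.1 / v.2, 1) (by simp)
  rw [Prod.smul_mk, smul_eq_mul, smul_eq_mul, mul_one, mul_div_cancel₀ _ hv] at this
  exact this

lemma aff_div' {X : Type} {U : C2 → X} (h : Inv U) {v : C2} (hv : v.1 ≠ 0) :
    U v = aff' U (v.2 / v.1) := by
  have := h v.1 hv (1, v.2 / v.1) (by simp)
  rw [Prod.smul_mk, smul_eq_mul, smul_eq_mul, mul_one, mul_div_cancel₀ _ hv] at this
  exact this

lemma cont_aff {S : Set V} {U : C2 → V} (h : Map2 S U) : Continuous (aff U) :=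
  h.sm.continuousOn.comp_continuous (f := fun z : ℂ => ((z, 1) : C2)) (by fun_prop)
    fun z => by simp [nz]

lemma cont_aff' {S : Set V} {U : C2 → V} (h : Map2 S U) : Continuous (aff' U) :=
  h.sm.continuousOn.comp_continuous (f := fun z : ℂ => ((1, z) : C2)) (by fun_prop)
    fun z => by simp [nz]

lemma aff_mem {X : Type} (U : C2 → X) (z : ℂ) : aff U z ∈ im U := ⟨(z, 1), by simp [nz], rfl⟩

lemma nonc_aff {S : Set V} {U : C2 → V} (h : Map2 S U) (hN : NonC U) (x : V) :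
    ¬ ∀ z, aff U z = x := by
  intro hx
  have h0 : U (1, 0) = x := eq_of_punct (f := aff' U) (cont_aff' h).continuousAt fun w hw => by
    rw [← hx w⁻¹, aff_inv h.inv (inv_ne_zero hw), inv_inv]
  have : ∀ v, v ≠ 0 → U v = x := fun v hv => by
    have : U v ∈ insert (U (1, 0)) (range (aff U)) := h.inv.im_eq.2 ▸ ⟨v, hv, rfl⟩
    rcases this with h1 | ⟨z, hz⟩
    · rw [h1, h0]
    · rw [← hz, hx]
  obtain ⟨v, hv, w, hw, hne⟩ := hN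
  exact hne (by rw [this v hv, this w hw])

lemma nonc_aff' {S : Set V} {U : C2 → V} (h : Map2 S U) (hN : NonC U) (x : V) :
    ¬ ∀ z, aff' U z = x := fun hx => nonc_aff h hN x fun z => by
  have h1 : ∀ z, z ≠ 0 → aff U z = x := fun z hz => by rw [aff_inv h.inv hz, hx]
  rcases eq_or_ne z 0 with rfl | hz
  · exact eq_of_punct (cont_aff h).continuousAt h1
  · exact h1 z hz

/-! ### isolated zeros -/

def Dich (f : ℂ → V) : Prop :=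
  ∀ z₀, (∀ᶠ z in 𝓝 z₀, f z = 0) ∨ ∀ᶠ z in 𝓝[≠] z₀, f z ≠ 0

omit [NormedSpace ℝ V] in
lemma Dich.iso {f : ℂ → V} (h : Dich f) (hn : ¬ ∀ z, f z = 0) (z₀ : ℂ) :
    ∀ᶠ z in 𝓝[≠] z₀, f z ≠ 0 := by
  refine (h z₀).resolve_left fun h0 => hn fun z => ?_
  have hsub := isPreconnected_univ.subset_of_closure_inter_subset
    (u := {z | ∀ᶠ y in 𝓝 z, f y = 0}) isOpen_setOfPred_eventually_nhds ⟨z₀, trivial, h0⟩ (by
      rintro y ⟨hy, -⟩
      refine (h y).resolve_right fun h1 => ?_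
      rw [eventually_nhdsWithin_iff] at h1
      obtain ⟨x, hx1, hx2⟩ := ((mem_closure_iff_frequently.1 hy).and_eventually h1).exists
      rcases eq_or_ne x y with rfl | hxy
      · exact ((hx1.filter_mono (nhdsWithin_le_nhds (s := {x}ᶜ))).and
          (eventually_nhdsWithin_iff.2 h1)).exists.elim fun _ h => h.2 h.1
      · exact hx2 hxy hx1.self_of_nhds)
  exact (hsub (mem_univ z)).self_of_nhds

lemma finite_of {Z : Set ℂ} (h : ∀ z₀, ∀ᶠ z in 𝓝[≠] z₀, z ∉ Z)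
    (h' : ∀ᶠ w in 𝓝[≠] (0 : ℂ), w⁻¹ ∉ Z) : Z.Finite := by
  obtain ⟨ε, hε, hb⟩ := Metric.eventually_nhds_iff.1 (eventually_nhdsWithin_iff.1 h')
  have hK : (closedBall (0 : ℂ) ε⁻¹ ∩ Z).Finite := by
    refine (isCompact_closedBall 0 ε⁻¹).induction_on (p := fun s => (s ∩ Z).Finite) (by simp)
      (fun s t hst ht => ht.subset (inter_subset_inter_left _ hst))
      (fun s t hs ht => by rw [union_inter_distrib_right]; exact hs.union ht) fun x _ => ?_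
    refine ⟨_, mem_nhdsWithin_of_mem_nhds (eventually_nhdsWithin_iff.1 (h x)),
      (finite_singleton x).subset fun y hy => ?_⟩
    by_contra hne
    exact hy.1 hne hy.2
  refine hK.subset fun z hz => ⟨?_, hz⟩
  by_contra hn
  rw [mem_closedBall_zero_iff, not_le] at hn
  have hz0 : z ≠ 0 := norm_pos_iff.1 ((inv_pos.2 hε).trans hn)
  refine hb (y := z⁻¹) ?_ (inv_ne_zero hz0) (by rwa [inv_inv])
  rw [dist_zero_right, norm_inv]
  exact inv_lt_of_inv_lt₀ hε hn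

section Hw

variable [FiniteDimensional ℝ V] {J : V → En0 V}

lemma dich_val (hw : HwStmt) (hJ : ContDiff ℝ 2 J) {u : ℂ → V} (hu : IsHol J u univ)
    (hsq : ∀ z v, J (u z) (J (u z) v) = -v) (x : V) : Dich fun z => u z - x := by
  intro z₀
  have hu2 : ContDiff ℝ 2 u := contDiffOn_univ.1 hu.sm
  refine hw V (fun z => J (u z)) _ z₀ 0 ((hJ.comp hu2).of_le one_le_two).contDiffAt
    ((hu2.of_le one_le_two).sub contDiff_const).contDiffAt (Eventually.of_forall fun z => ?_)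
  refine ⟨hsq z, ?_⟩
  rw [fderiv_sub_const, hu.cr z trivial, hsq]
  simp

lemma dich_der (hw : HwStmt) (hJ : ContDiff ℝ 2 J) {u : ℂ → V} (hu : IsHol J u univ)
    (hsq : ∀ z v, J (u z) (J (u z) v) = -v) : Dich fun z => fderiv ℝ u z 1 := by
  intro z₀
  have hu2 : ContDiff ℝ 2 u := contDiffOn_univ.1 hu.sm
  have hj : ContDiff ℝ 1 fun z => J (u z) := (hJ.comp hu2).of_le one_le_two
  have hD : ContDiff ℝ 1 (fderiv ℝ u) := hu2.fderiv_right (by norm_num)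
  have hw1 : ∀ a, ContDiff ℝ 1 fun z => fderiv ℝ u z a := fun a => hD.clm_apply contDiff_const
  obtain ⟨C₁, h1, b1⟩ := bdd (hj.continuous.continuousAt (x := z₀))
  obtain ⟨C₂, h2, b2⟩ := bdd ((hj.contDiffAt (x := z₀)).continuousAt_fderiv one_ne_zero)
  refine hw V (fun z => J (u z)) _ z₀ (C₁ * C₂) hj.contDiffAt (hw1 1).contDiffAt ?_
  filter_upwards [b1, b2] with z k1 k2
  refine ⟨hsq z, ?_⟩
  have e : ∀ a b, fderiv ℝ (fun z => fderiv ℝ u z a) z b = fderiv ℝ (fderiv ℝ u) z b a := by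
    intro a b
    rw [fderiv_clm_apply (hD.differentiable one_ne_zero z) (differentiableAt_const a)]
    simp
  have e1 : (fun z => fderiv ℝ u z I) = fun z => J (u z) (fderiv ℝ u z 1) :=
    funext fun z => hu.cr z trivial
  have e2 : fderiv ℝ (fun z => fderiv ℝ u z 1) z I =
      J (u z) (fderiv ℝ (fun z => fderiv ℝ u z 1) z 1) +
        fderiv ℝ (fun z => J (u z)) z 1 (fderiv ℝ u z 1) := by
    rw [e, (hu2.contDiffAt.isSymmSndFDerivAt (by simp)).eq, ← e I 1, e1,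
      fderiv_clm_apply (hj.differentiable one_ne_zero z) ((hw1 1).differentiable one_ne_zero z)]
    simp
  rw [e2, map_add, hsq, add_neg_cancel_left]
  calc _ ≤ C₁ * ‖fderiv ℝ (fun z => J (u z)) z 1 (fderiv ℝ u z 1)‖ :=
        (J (u z)).le_of_opNorm_le k1 _
    _ ≤ C₁ * (C₂ * ‖fderiv ℝ u z 1‖) := by
        refine mul_le_mul_of_nonneg_left (ContinuousLinearMap.le_of_opNorm_le _ ?_ _) h1
        simpa using (fderiv ℝ (fun z => J (u z)) z).le_of_opNorm_le k2 1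
    _ = _ := (mul_assoc _ _ _).symm

lemma part1 (hw : HwStmt) (hJ : ContDiff ℝ 2 J) (S : Set V) (U : C2 → V)
    (hsq : ∀ x ∈ S, ∀ v, J x (J x v) = -v) (hU : IsSph S J U) (hN : NonC U) :
    {z | fderiv ℝ (aff U) z = 0}.Finite ∧ ∀ x, {z | aff U z = x}.Finite := by
  have s1 : ∀ z v, J (aff U z) (J (aff U z) v) = -v := fun z => hsq _ (hU.mem _ (by simp))
  have s2 : ∀ z v, J (aff' U z) (J (aff' U z) v) = -v := fun z => hsq _ (hU.mem _ (by simp))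
  have nd : ∀ u : ℂ → V, IsHol J u univ → (∀ x, ¬ ∀ z, u z = x) → ¬ ∀ z, fderiv ℝ u z 1 = 0 :=
    fun u hu hn h0 => hn (u 0) fun z => is_const_of_fderiv_eq_zero
      ((contDiffOn_univ.1 hu.sm).differentiable two_ne_zero)
      (fun z => zero_of _ _ (hu.cr z trivial) (h0 z)) z 0
  refine ⟨finite_of (fun z₀ => ?_) ?_, fun x => finite_of (fun z₀ => ?_) ?_⟩
  · exact ((dich_der hw hJ hU.hol.1 s1).iso (nd _ hU.hol.1 (nonc_aff hU.toMap2 hN)) z₀).mono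
      fun z hz h => hz (by rw [show fderiv ℝ (aff U) z = 0 from h]; rfl)
  · filter_upwards [(dich_der hw hJ hU.hol.2 s2).iso (nd _ hU.hol.2 (nonc_aff' hU.toMap2 hN)) 0,
      self_mem_nhdsWithin] with w hw1 hw0 h
    have e : aff' U =ᶠ[𝓝 w] aff U ∘ fun z => z⁻¹ :=
      (eventually_ne_nhds hw0).mono fun z hz => by
        simp only [Function.comp_apply]; rw [aff_inv hU.inv (inv_ne_zero hz), inv_inv]
    refine hw1 ?_
    rw [e.fderiv_eq, fderiv_comp _ ((contDiffOn_univ.1 hU.hol.1.sm).differentiable two_ne_zero _)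
      (differentiableAt_inv hw0), show fderiv ℝ (aff U) w⁻¹ = 0 from h]
    rfl
  · exact ((dich_val hw hJ hU.hol.1 s1 x).iso (fun h => nonc_aff hU.toMap2 hN x fun z =>
      sub_eq_zero.1 (h z)) z₀).mono fun z hz h => hz (sub_eq_zero.2 h)
  · filter_upwards [(dich_val hw hJ hU.hol.2 s2 x).iso (fun h => nonc_aff' hU.toMap2 hN x fun z =>
      sub_eq_zero.1 (h z)) 0, self_mem_nhdsWithin] with w hw1 hw0 h
    refine hw1 (sub_eq_zero.2 ?_)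
    rw [← show aff U w⁻¹ = x from h, aff_inv hU.inv (inv_ne_zero hw0), inv_inv]

/-- a linear coordinate and a local inverse at an immersed point -/
lemma exists_coord {u : ℂ → V} {z₀ : ℂ} (hu : ContDiffAt ℝ 2 u z₀) (j : En0 V)
    (hcr : fderiv ℝ u z₀ I = j (fderiv ℝ u z₀ 1)) (hj : ∀ v, j (j v) = -v)
    (hD : fderiv ℝ u z₀ ≠ 0) : ∃ (a : V →L[ℝ] ℂ) (ψ : ℂ → ℂ), (∀ c, a (fderiv ℝ u z₀ c) = c) ∧
      ContDiffAt ℝ 2 ψ (a (u z₀)) ∧ (∀ᶠ z in 𝓝 z₀, ψ (a (u z)) = z) ∧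
      ∀ᶠ y in 𝓝 (a (u z₀)), a (u (ψ y)) = y := by
  obtain ⟨g, hg⟩ := (fderiv ℝ u z₀).toLinearMap.exists_leftInverse_of_injective
    (LinearMap.ker_eq_bot'.2 (inj_of _ j hcr hj hD))
  let a : V →L[ℝ] ℂ := LinearMap.toContinuousLinearMap g
  have ha : ∀ c, a (fderiv ℝ u z₀ c) = c := fun c => LinearMap.congr_fun hg c
  have h1 : ContDiffAt ℝ 2 (fun z => a (u z)) z₀ := a.contDiff.contDiffAt.comp z₀ hu
  have h2 : HasFDerivAt (fun z => a (u z))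
      ((ContinuousLinearEquiv.refl ℝ ℂ : ℂ ≃L[ℝ] ℂ) : ℂ →L[ℝ] ℂ) z₀ := by
    have := a.hasFDerivAt.comp z₀ (hu.differentiableAt two_ne_zero).hasFDerivAt
    exact this.congr_fderiv (ContinuousLinearMap.ext ha)
  exact ⟨a, h1.localInverse h2 two_ne_zero, ha, h1.to_localInverse h2 two_ne_zero,
    (h1.hasStrictFDerivAt' h2 two_ne_zero).eventually_left_inverse,
    (h1.hasStrictFDerivAt' h2 two_ne_zero).eventually_right_inverse⟩

/-- the complex-linear part of `a` -/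
def LL (a : V →L[ℝ] ℂ) (j : En0 V) : V →L[ℝ] ℂ := (2⁻¹ : ℂ) • (a - I • a.comp j)

/-- the projection along the image of `A` -/
def PP (a : V →L[ℝ] ℂ) (j : En0 V) (A : ℂ →L[ℝ] V) : En0 V :=
  ContinuousLinearMap.id ℝ V - A.comp ((LL a j (A 1))⁻¹ • LL a j)

omit [FiniteDimensional ℝ V] in
lemma LL_apply (a : V →L[ℝ] ℂ) (j : En0 V) (x : V) : LL a j x = 2⁻¹ * (a x - I * a (j x)) := rfl

omit [FiniteDimensional ℝ V] in
lemma PP_apply (a : V →L[ℝ] ℂ) (j : En0 V) (A : ℂ →L[ℝ] V) (x : V) :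
    PP a j A x = x - A ((LL a j (A 1))⁻¹ * LL a j x) := rfl

omit [FiniteDimensional ℝ V] in
lemma PP_alg (a : V →L[ℝ] ℂ) (j : En0 V) (A : ℂ →L[ℝ] V) (hj : ∀ v, j (j v) = -v)
    (hA : ∀ c, A (I * c) = j (A c)) (hm : LL a j (A 1) ≠ 0) :
    (∀ c, PP a j A (A c) = 0) ∧ ∀ x, PP a j A (j x) = j (PP a j A x) := by
  have h1 : ∀ x, LL a j (j x) = I * LL a j x := fun x => by
    rw [LL_apply, LL_apply, hj, map_neg]
    linear_combination (2⁻¹ * a (j x)) * I_mul_I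
  refine ⟨fun c => ?_, fun x => ?_⟩
  · have : LL a j (A c) = c * LL a j (A 1) := by
      rw [dec, ← mul_one I, hA, map_add, map_smul, map_smul, h1, real_smul, real_smul]
      conv_rhs => rw [← re_add_im c]
      ring
    rw [PP_apply, this, mul_comm c, inv_mul_cancel_left₀ hm, sub_self]
  · rw [PP_apply, PP_apply, h1, mul_left_comm, hA, map_sub]

omit [FiniteDimensional ℝ V] in
lemma low (a : V →L[ℝ] ℂ) (A : ℂ →L[ℝ] V)
    (h : ‖a.comp A - ContinuousLinearMap.id ℝ ℂ‖ ≤ 1 / 2) (c : ℂ) : ‖c‖ ≤ 2 * ‖a (A c)‖ := by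
  have h1 : ‖a (A c) - c‖ ≤ 1 / 2 * ‖c‖ := ContinuousLinearMap.le_of_opNorm_le _ h c
  have h2 := norm_sub_norm_le c (a (A c))
  rw [norm_sub_rev] at h2
  linarith

lemma part2 (hw : HwStmt) (hJ : ContDiff ℝ 2 J) (u v : ℂ → V) (Ω Ω' : Set ℂ) (z₀ w₀ : ℂ)
    (hΩ : IsOpen Ω) (hΩ' : IsOpen Ω') (hz : z₀ ∈ Ω) (hw₀ : w₀ ∈ Ω') (hu : IsHol J u Ω)
    (hv : IsHol J v Ω') (su : ∀ z ∈ Ω, ∀ a, J (u z) (J (u z) a) = -a)
    (sv : ∀ w ∈ Ω', ∀ a, J (v w) (J (v w) a) = -a) (hD : fderiv ℝ u z₀ ≠ 0) (he : u z₀ = v w₀)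
    (hf : ∀ N ∈ 𝓝 z₀, ∃ᶠ w in 𝓝[≠] w₀, ∃ z ∈ N, u z = v w) :
    ∃ φ : ℂ → ℂ, AnalyticAt ℂ φ w₀ ∧ φ w₀ = z₀ ∧ ∀ᶠ w in 𝓝 w₀, v w = u (φ w) := by
  have hu2 : ContDiffAt ℝ 2 u z₀ := hu.sm.contDiffAt (hΩ.mem_nhds hz)
  have hv2 : ContDiffAt ℝ 2 v w₀ := hv.sm.contDiffAt (hΩ'.mem_nhds hw₀)
  obtain ⟨a, ψ, ha, hψ, hl, hr⟩ := exists_coord hu2 _ (hu.cr z₀ hz) (su z₀ hz) hD
  obtain ⟨φ, hφd⟩ : ∃ φ : ℂ → ℂ, φ = fun w => ψ (a (v w)) := ⟨_, rfl⟩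
  have hav : ContDiffAt ℝ 2 (fun w => a (v w)) w₀ := a.contDiff.contDiffAt.comp w₀ hv2
  have hφ : ContDiffAt ℝ 2 φ w₀ := hφd ▸ ContDiffAt.comp (g := ψ) w₀ (he ▸ hψ) hav
  have hφ0 : φ w₀ = z₀ := by rw [hφd]; simp only [← he]; exact hl.self_of_nhds
  have tφ : Tendsto φ (𝓝 w₀) (𝓝 z₀) := hφ0 ▸ hφ.continuousAt.tendsto
  have huφ : ContDiffAt ℝ 2 (fun w => u (φ w)) w₀ := ContDiffAt.comp (g := u) w₀ (hφ0 ▸ hu2) hφ
  have hA : ContDiffAt ℝ 1 (fun w => fderiv ℝ u (φ w)) w₀ :=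
    ContDiffAt.comp (g := fderiv ℝ u) w₀ (hφ0 ▸ hu2.fderiv_right (by norm_num))
      (hφ.of_le one_le_two)
  have hj : ContDiffAt ℝ 1 (fun w => J (u (φ w))) w₀ :=
    (hJ.contDiffAt.comp w₀ huφ).of_le one_le_two
  have hL : ContDiffAt ℝ 1 (fun w => LL a (J (u (φ w)))) w₀ :=
    (contDiffAt_const.sub ((contDiffAt_const.clm_comp hj).const_smul I)).const_smul (2⁻¹ : ℂ)
  have hm : ContDiffAt ℝ 1 (fun w => LL a (J (u (φ w))) (fderiv ℝ u (φ w) 1)) w₀ :=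
    hL.clm_apply (hA.clm_apply contDiffAt_const)
  have hm0 : LL a (J (u (φ w₀))) (fderiv ℝ u (φ w₀) 1) ≠ 0 := by
    rw [hφ0, LL_apply, ← hu.cr z₀ hz, ha, ha, I_mul_I]; norm_num
  have hp : ContDiffAt ℝ 1 (fun w => PP a (J (u (φ w))) (fderiv ℝ u (φ w))) w₀ :=
    contDiffAt_const.sub (hA.clm_comp ((hm.inv hm0).smul hL))
  have hη : ContDiffAt ℝ 1 (fun w => v w - u (φ w)) w₀ := (hv2.sub huφ).of_le one_le_two
  have e1 : ∀ᶠ w in 𝓝 w₀, φ w ∈ Ω := tφ (hΩ.mem_nhds hz)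
  have e2 : ∀ᶠ w in 𝓝 w₀, w ∈ Ω' := hΩ'.mem_nhds hw₀
  have e3 : ∀ᶠ w in 𝓝 w₀, LL a (J (u (φ w))) (fderiv ℝ u (φ w) 1) ≠ 0 :=
    hm.continuousAt.eventually_ne hm0
  have e4 : ∀ᶠ w in 𝓝 w₀, a (v w - u (φ w)) = 0 := by
    have : Tendsto (fun w => a (v w)) (𝓝 w₀) (𝓝 (a (u z₀))) := he ▸ hav.continuousAt.tendsto
    filter_upwards [this.eventually hr] with w h
    rw [map_sub, hφd, h, sub_self]
  have e5 : ∀ᶠ w in 𝓝 w₀, ‖a.comp (fderiv ℝ u (φ w)) - ContinuousLinearMap.id ℝ ℂ‖ ≤ 1 / 2 := by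
    have h1 : ContinuousAt
        (fun w => ‖a.comp (fderiv ℝ u (φ w)) - ContinuousLinearMap.id ℝ ℂ‖) w₀ :=
      ((contDiffAt_const.clm_comp hA).continuousAt.sub continuousAt_const).norm
    refine (h1.eventually (gt_mem_nhds ?_)).mono fun _ h => h.le
    beta_reduce
    rw [hφ0, show a.comp (fderiv ℝ u z₀) = ContinuousLinearMap.id ℝ ℂ from
      ContinuousLinearMap.ext ha, sub_self, norm_zero]
    norm_num
  have e6 : ∀ᶠ w in 𝓝 w₀, DifferentiableAt ℝ φ w :=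
    (hφ.eventually (by simp)).mono fun _ h => h.differentiableAt two_ne_zero
  have e7 := (hp.eventually (by simp)).mono fun _ h => h.differentiableAt one_ne_zero
  obtain ⟨CA, pA, bA⟩ := bdd hA.continuousAt
  obtain ⟨Cj, pj, bj⟩ := bdd hj.continuousAt
  obtain ⟨Cp, pp, bp⟩ := bdd hp.continuousAt
  obtain ⟨CD, pD, bD⟩ := bdd (hp.continuousAt_fderiv one_ne_zero)
  obtain ⟨Cv, pv, bv⟩ := bdd (hv2.continuousAt_fderiv two_ne_zero)
  obtain ⟨K, t, ht, hK⟩ := ((hJ.of_le one_le_two).contDiffAt (x := v w₀)).exists_lipschitzOnWith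
  have e8 : ∀ᶠ w in 𝓝 w₀, ‖J (u (φ w)) - J (v w)‖ ≤ K * ‖v w - u (φ w)‖ := by
    have k1 : ∀ᶠ w in 𝓝 w₀, v w ∈ t := hv2.continuousAt ht
    have k2 : ∀ᶠ w in 𝓝 w₀, u (φ w) ∈ t := huφ.continuousAt (by rwa [hφ0, he])
    filter_upwards [k1, k2] with w k1 k2
    rw [norm_sub_rev (v w)]
    exact hK.norm_sub_le k2 k1
  have e9 : ∀ᶠ w in 𝓝 w₀, ‖v w - u (φ w)‖ ≤
      (1 + CA * (2 * ‖a‖)) * ‖PP a (J (u (φ w))) (fderiv ℝ u (φ w)) (v w - u (φ w))‖ := by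
    filter_upwards [e4, e5, bA] with w k4 k5 kA
    set ξ := PP a (J (u (φ w))) (fderiv ℝ u (φ w)) (v w - u (φ w)) with hξ
    set c := (LL a (J (u (φ w))) (fderiv ℝ u (φ w) 1))⁻¹ * LL a (J (u (φ w))) (v w - u (φ w))
    have q1 : v w - u (φ w) = ξ + fderiv ℝ u (φ w) c := by rw [hξ, PP_apply, sub_add_cancel]
    have q2 : a (fderiv ℝ u (φ w) c) = -a ξ := by
      rw [q1, map_add] at k4; exact eq_neg_of_add_eq_zero_right k4
    have q3 := low a _ k5 c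
    rw [q2, norm_neg] at q3
    have q4 := a.le_opNorm ξ
    have q5 := (fderiv ℝ u (φ w)).le_of_opNorm_le kA c
    have q6 : ‖c‖ ≤ 2 * ‖a‖ * ‖ξ‖ := by linarith
    have q7 := mul_le_mul_of_nonneg_left q6 pA
    rw [q1]
    refine (norm_add_le _ _).trans ?_
    linarith
  have chain : ∀ w, φ w ∈ Ω → DifferentiableAt ℝ φ w → HasFDerivAt (fun w => u (φ w))
      ((fderiv ℝ u (φ w)).comp (fderiv ℝ φ w)) w := fun w k1 k6 =>
    ((hu.sm.contDiffAt (hΩ.mem_nhds k1)).differentiableAt two_ne_zero).hasFDerivAt.comp w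
      k6.hasFDerivAt
  have H := hw V (fun w => J (u (φ w)))
    (fun w => PP a (J (u (φ w))) (fderiv ℝ u (φ w)) (v w - u (φ w))) w₀
    ((Cp * K * Cv + CD + Cj * CD) * (1 + CA * (2 * ‖a‖))) hj (hp.clm_apply hη) (by
    filter_upwards [e1, e2, e3, e6, e7, e8, e9, bj, bp, bD, bv] with w k1 k2 k3 k6 k7 k8 k9 kj kp
      kD kv
    refine ⟨su _ k1, ?_⟩
    obtain ⟨a1, a2⟩ := PP_alg a _ _ (su _ k1) (hu.apply k1 (su _ k1)) k3
    have dv := ((hv.sm.contDiffAt (hΩ'.mem_nhds k2)).differentiableAt two_ne_zero).hasFDerivAt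
    have dη := dv.sub (chain w k1 k6)
    have dξ := (k7.hasFDerivAt.clm_apply dη).fderiv
    set η := v w - u (φ w)
    set j := J (u (φ w))
    set p := PP a j (fderiv ℝ u (φ w))
    set Dp := fderiv ℝ (fun w => PP a (J (u (φ w))) (fderiv ℝ u (φ w))) w
    have q0 : ∀ h, fderiv ℝ (fun w => PP a (J (u (φ w))) (fderiv ℝ u (φ w)) (v w - u (φ w))) w h =
        p (fderiv ℝ v w h) + Dp h η := fun h => by
      have := congrArg (fun T => T h) dξ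
      refine this.trans ?_
      change p (fderiv ℝ v w h - fderiv ℝ u (φ w) (fderiv ℝ φ w h)) + Dp h η = _
      rw [map_sub, a1, sub_zero]
    have q1 : fderiv ℝ v w 1 = -J (v w) (fderiv ℝ v w I) := by
      rw [hv.cr w k2, sv w k2, neg_neg]
    have q2 : p (fderiv ℝ v w 1) + Dp 1 η + j (p (fderiv ℝ v w I) + Dp I η) =
        p ((j - J (v w)) (fderiv ℝ v w I)) + Dp 1 η + j (Dp I η) := by
      rw [q1, map_add j, ← a2, sub_apply, map_sub p, map_neg p]; abel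
    have q3 : ∀ h : ℂ, ‖h‖ = 1 → ‖Dp h η‖ ≤ CD * ‖η‖ := fun h hh =>
      ContinuousLinearMap.le_of_opNorm_le _ (by simpa [hh] using Dp.le_of_opNorm_le kD h) _
    have q4 : ‖fderiv ℝ v w I‖ ≤ Cv := by simpa using (fderiv ℝ v w).le_of_opNorm_le kv I
    have q5 : ‖p ((j - J (v w)) (fderiv ℝ v w I))‖ ≤ Cp * (K * ‖η‖ * Cv) :=
      (p.le_of_opNorm_le kp _).trans (mul_le_mul_of_nonneg_left
        ((ContinuousLinearMap.le_of_opNorm_le _ k8 _).trans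
          (mul_le_mul_of_nonneg_left q4 (by positivity))) pp)
    have q6 : ‖j (Dp I η)‖ ≤ Cj * (CD * ‖η‖) :=
      (j.le_of_opNorm_le kj _).trans (mul_le_mul_of_nonneg_left (q3 I norm_I) pj)
    have q7 := q3 1 norm_one
    rw [q0, q0, q2, mul_assoc]
    refine le_trans ?_ (mul_le_mul_of_nonneg_left k9 (by positivity))
    refine (norm_add₃_le).trans ?_
    linarith)
  have hη0 : ∀ᶠ w in 𝓝 w₀, v w = u (φ w) := by
    rcases H with H | H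
    · filter_upwards [H, e9] with w k1 k2
      rw [k1, norm_zero, mul_zero] at k2
      exact sub_eq_zero.1 (norm_le_zero_iff.1 k2)
    · obtain ⟨w, ⟨z, hz1, hz2⟩, hw1⟩ := ((hf _ hl).and_eventually H).exists
      refine (hw1 ?_).elim
      have : φ w = z := by rw [hφd]; simp only [← hz2]; exact hz1
      rw [this, hz2, sub_self, map_zero]
  refine ⟨φ, analyticAt_iff_eventually_differentiableAt.2 ?_, hφ0, hη0⟩
  filter_upwards [e1, e2, e5, e6, hη0.eventually_nhds] with w k1 k2 k5 k6 k7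
  refine differentiableAt_of_dbar k6 ?_
  have q1 : fderiv ℝ v w = (fderiv ℝ u (φ w)).comp (fderiv ℝ φ w) :=
    (EventuallyEq.fderiv_eq k7).trans (chain w k1 k6).fderiv
  have q2 := hv.cr w k2
  rw [q1, k7.self_of_nhds, ContinuousLinearMap.comp_apply, ContinuousLinearMap.comp_apply,
    ← hu.apply k1 (su _ k1), ← sub_eq_zero, ← map_sub] at q2
  have q3 := low a _ k5 (fderiv ℝ φ w I - I * fderiv ℝ φ w 1)
  rw [q2, map_zero, norm_zero, mul_zero, norm_le_zero_iff, sub_eq_zero] at q3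
  rw [dbar, q3, smul_eq_mul, smul_eq_mul, ← mul_assoc I, I_mul_I]
  ring

end Hw

/-! ### fibres of nearby points -/

lemma fib_near {S : Set V} {U : C2 → V} (hU : Map2 S U) (x₀ : V) (N : Set C2) (hN : IsOpen N)
    (h : ∀ w, w ≠ 0 → U w = x₀ → ∃ c : ℂ, c ≠ 0 ∧ c • w ∈ N) :
    ∀ᶠ x in 𝓝 x₀, ∀ w, w ≠ 0 → U w = x → ∃ c : ℂ, c ≠ 0 ∧ c • w ∈ N := by
  have hc : IsClosed (⋂ c : ℂ, ⋂ _ : c ≠ 0, (fun w : C2 => c • w) ⁻¹' Nᶜ) :=
    isClosed_iInter fun c => isClosed_iInter fun _ =>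
      hN.isClosed_compl.preimage (continuous_const_smul c)
  have hK := ((isCompact_sphere (0 : C2) 1).inter_right hc).image_of_continuousOn
    (hU.sm.continuousOn.mono fun w hw => S3_ne ⟨w, hw.1⟩)
  refine Filter.mem_of_superset (hK.isClosed.isOpen_compl.mem_nhds ?_) fun x hx w hw hwx => ?_
  · rintro ⟨w, ⟨h1, h2⟩, hw⟩
    obtain ⟨c, hc0, hcN⟩ := h w (S3_ne ⟨w, h1⟩) hw
    exact mem_iInter₂.1 h2 c hc0 hcN
  · obtain ⟨w₁, hw₁⟩ := exists_S3 hw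
    have hn : (‖w‖ : ℂ) ≠ 0 := by simpa using hw
    by_contra hne
    refine hx ⟨w₁, ⟨w₁.2, mem_iInter₂.2 fun c hc0 hcN => hne ⟨c * (‖w‖ : ℂ)⁻¹,
      mul_ne_zero hc0 (inv_ne_zero hn), ?_⟩⟩, ?_⟩
    · have : (‖w‖ : ℂ)⁻¹ • w = w₁ := by
        conv_lhs => enter [2]; rw [hw₁]
        rw [inv_smul_smul₀ hn]
      rwa [mul_smul, this]
    · rw [← hwx, ← hU.inv _ hn _ (S3_ne w₁), ← hw₁]

lemma fib_aff {S : Set V} {U : C2 → V} (hU : Map2 S U) (x₀ : V) (hx : x₀ ≠ U (1, 0)) (N : Set ℂ)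
    (hN : ∀ y, aff U y = x₀ → N ∈ 𝓝 y) : ∀ᶠ x in 𝓝 x₀, ∀ y, aff U y = x → y ∈ N := by
  have ho : IsOpen ({w : C2 | w.2 ≠ 0} ∩ (fun w : C2 => w.1 / w.2) ⁻¹' interior N) :=
    ContinuousOn.isOpen_inter_preimage
      (continuous_fst.continuousOn.div continuous_snd.continuousOn fun _ h => h)
      (isOpen_ne_fun continuous_snd continuous_const) isOpen_interior
  refine (fib_near hU x₀ _ ho fun w hw hwx => ⟨1, one_ne_zero, ?_⟩).mono fun x hx y hy => ?_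
  · rw [one_smul]
    have h2 : w.2 ≠ 0 := fun h2 => hx (by
      have h1 : w.1 ≠ 0 := fun h1 => hw (Prod.ext h1 h2)
      rw [← hwx, aff_div' hU.inv h1, h2, zero_div]; rfl)
    exact ⟨h2, mem_interior_iff_mem_nhds.2 (hN _ ((aff_div hU.inv h2).symm.trans hwx))⟩
  · obtain ⟨c, hc, -, h2⟩ := hx (y, 1) (by simp) hy
    have : (c • ((y, 1) : C2)).1 / (c • ((y, 1) : C2)).2 = y := by
      simp [mul_div_cancel_left₀ _ hc]
    exact interior_subset (this ▸ h2)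

/-- near `z`, `v` factors through `u` near `y` -/
def Rl (u v : ℂ → V) (y z : ℂ) : Prop :=
  ∃ φ : ℂ → ℂ, AnalyticAt ℂ φ z ∧ φ z = y ∧ ∀ᶠ w in 𝓝 z, v w = u (φ w)

lemma der_ne {u v : ℂ → V} {φ : ℂ → ℂ} {z : ℂ} (hu : Differentiable ℝ u) (hφ : AnalyticAt ℂ φ z)
    (h : ∀ᶠ w in 𝓝 z, v w = u (φ w)) (hD : fderiv ℝ v z ≠ 0) : deriv φ z ≠ 0 := fun h0 => hD (by
  have h1 : HasFDerivAt φ (0 : ℂ →L[ℝ] ℂ) z := by
    have := (h0 ▸ hφ.differentiableAt.hasDerivAt).hasFDerivAt.restrictScalars ℝ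
    exact this.congr_fderiv (by ext; simp)
  rw [EventuallyEq.fderiv_eq h]
  exact ((hu (φ z)).hasFDerivAt.comp z h1).fderiv.trans (ContinuousLinearMap.comp_zero _))

lemma opn {φ : ℂ → ℂ} {z : ℂ} (hφ : AnalyticAt ℂ φ z) (h : deriv φ z ≠ 0) :
    𝓝 (φ z) ≤ map φ (𝓝 z) :=
  hφ.eventually_constant_or_nhds_le_map_nhds.resolve_left fun h0 =>
    h (by rw [EventuallyEq.deriv_eq h0, deriv_const])

lemma conn {B : Set ℂ} (hB : B.Finite) {P : ℂ → Prop} (h0 : ∃ z, ∀ᶠ y in 𝓝 z, P y)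
    (h : ∀ z, z ∉ B → (∃ᶠ y in 𝓝[≠] z, P y) → ∀ᶠ y in 𝓝 z, P y) :
    ∀ z, z ∉ B → ∀ᶠ y in 𝓝 z, P y := by
  refine (hB.countable.isConnected_compl_of_one_lt_rank (by simp)).isPreconnected
    |>.subset_of_closure_inter_subset (u := {z | ∀ᶠ y in 𝓝 z, P y})
    isOpen_setOfPred_eventually_nhds ?_ ?_
  · rw [inter_comm]
    exact (hB.countable.dense_compl ℝ).inter_open_nonempty _ isOpen_setOfPred_eventually_nhds h0
  · rintro z ⟨hz, hzB⟩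
    by_contra hn
    refine hn (h z hzB ?_)
    rw [frequently_nhdsWithin_iff]
    exact (mem_closure_iff_frequently.1 hz).mono fun y hy =>
      ⟨hy.self_of_nhds, fun hyz => hn (by rw [← show y = z from hyz]; exact hy)⟩

section Fib

variable [FiniteDimensional ℝ V] {J : V → En0 V} {S : Set V}

lemma loc_inj {u : ℂ → V} (hu : IsHol J u univ) {z : ℂ} (hsq : ∀ v, J (u z) (J (u z) v) = -v)
    (hD : fderiv ℝ u z ≠ 0) : ∃ N ∈ 𝓝 z, InjOn u N := by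
  obtain ⟨a, ψ, -, -, hl, -⟩ := exists_coord (contDiffOn_univ.1 hu.sm).contDiffAt _
    (hu.cr z trivial) hsq hD
  exact ⟨_, hl, fun x hx y hy h => by
    rw [← show ψ (a (u x)) = x from hx, h]; exact hy⟩

lemma struct (hF : FibStmt) (hJ : ContDiff ℝ 2 J) (hsq : ∀ x ∈ S, ∀ v, J x (J x v) = -v)
    {U : C2 → V} (hU : IsSph S J U) (hN : NonC U) {v : ℂ → V} (hv : IsHol J v univ)
    (hvS : ∀ z, v z ∈ S) (z₀ : ℂ) (h1 : v z₀ ≠ U (1, 0))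
    (h2 : ∀ y, aff U y = v z₀ → fderiv ℝ (aff U) y ≠ 0) :
    ∃ Φ : ℂ → ℂ → ℂ, (∀ y, Rl (aff U) v y z₀ → AnalyticAt ℂ (Φ y) z₀ ∧ Φ y z₀ = y ∧
      ∀ᶠ w in 𝓝 z₀, v w = aff U (Φ y w)) ∧
      ∀ᶠ z in 𝓝[≠] z₀, ∀ y', aff U y' = v z → ∃ y, Rl (aff U) v y z₀ ∧ y' = Φ y z := by
  have s1 : ∀ z v, J (aff U z) (J (aff U z) v) = -v := fun z => hsq _ (hU.mem _ (by simp))
  choose! Φ hΦ using fun y (h : Rl (aff U) v y z₀) => h
  refine ⟨Φ, hΦ, ?_⟩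
  have key : ∀ y, aff U y = v z₀ → ∃ N ∈ 𝓝 y, ∀ᶠ z in 𝓝[≠] z₀, ∀ y' ∈ N, aff U y' = v z →
      Rl (aff U) v y z₀ ∧ y' = Φ y z := by
    intro y hy
    by_cases hR : Rl (aff U) v y z₀
    · obtain ⟨N, hN, hi⟩ := loc_inj hU.hol.1 (s1 y) (h2 y hy)
      obtain ⟨k1, k2, k3⟩ := hΦ y hR
      refine ⟨N, hN, Eventually.filter_mono nhdsWithin_le_nhds ?_⟩
      filter_upwards [k3, k1.continuousAt (by rwa [k2] : N ∈ 𝓝 (Φ y z₀))] with z q1 q2 y' hy' q3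
      exact ⟨hR, hi hy' q2 (q3.trans q1)⟩
    · by_contra hn
      refine hR ((hF V J hJ).2 (aff U) v univ univ y z₀ isOpen_univ isOpen_univ trivial trivial
        hU.hol.1 hv (fun z _ => s1 z) (fun z _ => hsq _ (hvS z)) (h2 y hy) hy fun N hN => ?_)
      by_contra hn'
      exact hn ⟨N, hN, (not_frequently.1 hn').mono fun z hz y' hy' h => (hz ⟨y', hy', h⟩).elim⟩
  have hfin := ((hF V J hJ).1 S U hsq hU hN).2 (v z₀)
  choose! N hN hN' using key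
  have k1 := (eventually_all_finite hfin).2 hN'
  have k2 := (contDiffOn_univ.1 hv.sm).continuous.continuousAt.eventually
    (fib_aff hU.toMap2 (v z₀) h1 (⋃ y ∈ {y | aff U y = v z₀}, N y) fun y hy =>
      mem_of_superset (hN y hy) (subset_biUnion_of_mem (u := N) hy))
  filter_upwards [k1, k2.filter_mono nhdsWithin_le_nhds] with z q1 q2 y' hy'
  obtain ⟨y, hy, hy2⟩ := mem_iUnion₂.1 (q2 y' hy')
  exact ⟨y, q1 y hy y' hy2 hy'⟩

/-- the preimage of the critical values and of the value at infinity -/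
lemma bad_fin (hF : FibStmt) (hJ : ContDiff ℝ 2 J) (hsq : ∀ x ∈ S, ∀ v, J x (J x v) = -v)
    {U U' : C2 → V} (hU : IsSph S J U) (hN : NonC U) (hU' : IsSph S J U') (hN' : NonC U') :
    {z | aff U z ∈ insert (U' (1, 0)) (aff U' '' {y | fderiv ℝ (aff U') y = 0})}.Finite :=
  (((((hF V J hJ).1 S U' hsq hU' hN').1.image _).insert _).biUnion
    fun x _ => ((hF V J hJ).1 S U hsq hU hN).2 x).subset fun _ hz => mem_biUnion hz rfl

lemma im_sub (hF : FibStmt) (hJ : ContDiff ℝ 2 J) (hsq : ∀ x ∈ S, ∀ v, J x (J x v) = -v)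
    {U U' : C2 → V} (hU : IsSph S J U) (hN : NonC U) (hU' : IsSph S J U') (hN' : NonC U')
    (h0 : ∃ z, ∀ᶠ y in 𝓝 z, aff U y ∈ im U') :
    im U ⊆ im U' ∧ ∃ z, ∀ᶠ y in 𝓝 z, aff U' y ∈ im U := by
  have hB := (bad_fin hF hJ hsq hU hN hU' hN').union ((hF V J hJ).1 S U hsq hU hN).1
  set B := {z | aff U z ∈ insert (U' (1, 0)) (aff U' '' {y | fderiv ℝ (aff U') y = 0})} ∪
    {z | fderiv ℝ (aff U) z = 0}
  have hc := cont_aff hU.toMap2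
  have key : ∀ z, z ∉ B → (∃ᶠ y in 𝓝[≠] z, aff U y ∈ im U') → ∃ y, Rl (aff U') (aff U) y z := by
    intro z hz hf
    have h1 : aff U z ≠ U' (1, 0) := fun h => hz (Or.inl (Or.inl h))
    obtain ⟨Φ, -, h2⟩ := struct hF hJ hsq hU' hN' hU.hol.1 (fun z => hU.mem _ (by simp)) z h1
      fun y hy h => hz (Or.inl (Or.inr ⟨y, h, hy⟩))
    obtain ⟨x, hx, k1, k2⟩ := (hf.and_eventually (h2.and
      ((hc.continuousAt.eventually_ne h1).filter_mono nhdsWithin_le_nhds))).exists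
    rw [hU'.inv.im_eq.2] at hx
    obtain ⟨y', hy'⟩ := hx.resolve_left k2
    obtain ⟨y, hy, -⟩ := k1 y' hy'
    exact ⟨y, hy⟩
  have all := conn hB h0 fun z hz hf => by
    obtain ⟨y, φ, -, -, h⟩ := key z hz hf
    exact h.mono fun w hw => hw ▸ aff_mem U' _
  have hcl : IsClosed (im U') := (hU'.inv.isCompact_im hU'.sm.continuousOn).1.isClosed
  have r1 : ∀ z, aff U z ∈ im U' := fun z =>
    (hcl.preimage hc).closure_subset_iff.2 (fun z hz => (all z hz).self_of_nhds)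
      (hB.countable.dense_compl ℝ z)
  refine ⟨?_, ?_⟩
  · rw [hU.inv.im_eq.2]
    refine insert_subset ?_ (range_subset_iff.2 r1)
    refine hcl.mem_of_tendsto ((cont_aff' hU.toMap2).continuousAt (x := 0).tendsto.mono_left
      (nhdsWithin_le_nhds (s := {0}ᶜ))) (eventually_mem_nhdsWithin.mono fun w hw => ?_)
    rw [← inv_inv w, ← aff_inv hU.inv (inv_ne_zero hw)]
    exact r1 _
  · obtain ⟨z, hz⟩ := (hB.countable.dense_compl ℝ).nonempty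
    obtain ⟨y, φ, k1, -, k3⟩ := key z hz (Eventually.of_forall r1).frequently
    refine ⟨φ z, opn k1 (der_ne ((contDiffOn_univ.1 hU'.hol.1.sm).differentiable two_ne_zero) k1
      k3 fun h => hz (Or.inr h)) (k3.mono fun w hw => ?_)⟩
    exact show aff U' (φ w) ∈ im U from hw ▸ aff_mem U w

lemma loc_par (hsq : ∀ x ∈ S, ∀ v, J x (J x v) = -v) {U : C2 → V} (hU : IsSph S J U) {v₀ : C2}
    (hv : v₀ ≠ 0) (hD : fderiv ℝ U v₀ ≠ 0) :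
    ∃ N ∈ 𝓝 v₀, ∀ v ∈ N, ∀ w ∈ N, U w = U v → Par w v := by
  have gen : ∀ (u : ℂ → V) (q : C2 → ℂ) (O : Set C2), O ∈ 𝓝 v₀ → IsHol J u univ →
      (∀ z, u z ∈ S) → DifferentiableAt ℝ q v₀ → (∀ v ∈ O, U v = u (q v)) →
      (∀ v ∈ O, ∀ w ∈ O, q w = q v → Par w v) →
      ∃ N ∈ 𝓝 v₀, ∀ v ∈ N, ∀ w ∈ N, U w = U v → Par w v := by
    intro u q O hO hu huS hq h1 h2
    obtain ⟨N, hN, hi⟩ := loc_inj hu (z := q v₀) (hsq _ (huS _)) fun h0 => hD (by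
      have e : U =ᶠ[𝓝 v₀] u ∘ q := mem_of_superset hO h1
      rw [e.fderiv_eq, fderiv_comp _ ((contDiffOn_univ.1 hu.sm).differentiable two_ne_zero _) hq,
        h0]
      rfl)
    exact ⟨O ∩ q ⁻¹' N, inter_mem hO (hq.continuousAt hN), fun v hv w hw h =>
      h2 v hv.1 w hw.1 (hi hw.2 hv.2 (by rw [← h1 w hw.1, ← h1 v hv.1, h]))⟩
  by_cases h2 : v₀.2 = 0
  · have h1 : v₀.1 ≠ 0 := fun h1 => hv (Prod.ext h1 h2)
    refine gen (aff' U) (fun v => v.2 / v.1) {v | v.1 ≠ 0}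
      (continuous_fst.continuousAt.eventually_ne h1) hU.hol.2 (fun z => hU.mem _ (by simp))
      (differentiableAt_snd.mul ((differentiableAt_inv h1).comp v₀ differentiableAt_fst))
      (fun v hv => aff_div' hU.inv hv) fun v hv w hw h => ?_
    rw [par_iff fun h0 => hv (by rw [h0]; rfl), mul_comm, ← (div_eq_div_iff hw hv).1 h]
  · refine gen (aff U) (fun v => v.1 / v.2) {v | v.2 ≠ 0}
      (continuous_snd.continuousAt.eventually_ne h2) hU.hol.1 (fun z => hU.mem _ (by simp))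
      (differentiableAt_fst.mul ((differentiableAt_inv h2).comp v₀ differentiableAt_snd))
      (fun v hv => aff_div hU.inv hv) fun v hv w hw h => ?_
    rw [par_iff fun h0 => hv (by rw [h0]; rfl), (div_eq_div_iff hw hv).1 h, mul_comm]

end Fib

end FibP

theorem fib_of (h1 : HwStmt) : FibStmt := fun _ _ _ _ _ hJ =>
  ⟨FibP.part1 h1 hJ, FibP.part2 h1 hJ⟩

open FibP in
theorem pair_of (h1 : FibStmt) : PairStmt := by
  intro V _ _ _ J S hJ hsq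
  refine ⟨fun U hU => isOpen_iff_mem_nhds.2 fun v₀ ⟨hv, hD, hi⟩ => ?_,
    fun U U' hU hN hU' hN' hne v₀ hv => ?_⟩
  · have hc : ContDiffAt ℝ 2 U v₀ := hU.sm.contDiffAt (nz_mem_nhds hv)
    obtain ⟨N, hN, hp⟩ := loc_par hsq hU hv hD
    have k1 := hc.continuousAt.eventually (fib_near hU.toMap2 (U v₀) _ isOpen_interior
      fun w hw h => by
        obtain ⟨c, hc⟩ := hi w hw h
        have hc0 : c ≠ 0 := fun h0 => hw (by rw [hc, h0, zero_smul])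
        refine ⟨c⁻¹, inv_ne_zero hc0, ?_⟩
        rw [hc, inv_smul_smul₀ hc0]
        exact mem_interior_iff_mem_nhds.2 hN)
    filter_upwards [k1, hN, nz_mem_nhds hv,
      (hc.continuousAt_fderiv two_ne_zero).eventually_ne hD] with v q1 q2 q3 q4
    refine ⟨q3, q4, fun w hw h => ?_⟩
    obtain ⟨c, hc0, hcN⟩ := q1 w hw h
    exact Par.trans ⟨c⁻¹, (inv_smul_smul₀ hc0 w).symm⟩
      (hp v q2 _ (interior_subset hcN) ((hU.inv c hc0 w hw).trans h))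
  · by_contra hn
    have hO : (closure {v | v ≠ 0 ∧ U v ∉ im U'})ᶜ ∈ 𝓝 v₀ :=
      isClosed_closure.isOpen_compl.mem_nhds hn
    obtain ⟨v, hv1, hv2, hv3⟩ := mem_closure_iff_nhds.1
      (dense_not_par (p := (1, 0)) (by simp) hv) _ hO
    have h2 : v.2 ≠ 0 := fun h => hv3 ((par_iff (by simp)).2 (by simp [h]))
    have hcv : ContinuousAt (fun z : ℂ => v.2 • ((z, 1) : C2)) (v.1 / v.2) := by fun_prop
    have e : v.2 • ((v.1 / v.2, 1) : C2) = v := by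
      ext <;> simp [mul_div_cancel₀ _ h2]
    have h0 : ∀ᶠ y in 𝓝 (v.1 / v.2), aff U y ∈ im U' := by
      filter_upwards [hcv.eventually (isClosed_closure.isOpen_compl.mem_nhds (e.symm ▸ hv1))]
        with y hy
      by_contra hy'
      refine hy (subset_closure ⟨smul_ne_zero h2 (by simp), ?_⟩)
      rwa [hU.inv _ h2 _ (by simp)]
    obtain ⟨k1, k2⟩ := im_sub h1 hJ hsq hU hN hU' hN' ⟨_, h0⟩
    exact hne (k1.antisymm (im_sub h1 hJ hsq hU' hN' hU hN k2).1)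

open FibP in
theorem cover1_of (h1 : FibStmt) : Cover1Stmt := by
  intro V _ _ _ J S U hJ hsq hU hN
  classical
  have hB := bad_fin h1 hJ hsq hU hN hU hN
  have hfib := ((h1 V J hJ).1 S U hsq hU hN).2
  set u := aff U with hu
  set B := {z | u z ∈ insert (U (1, 0)) (u '' {y | fderiv ℝ u y = 0})} with hBd
  have hd : Differentiable ℝ u := (contDiffOn_univ.1 hU.hol.1.sm).differentiable two_ne_zero
  have s1 : ∀ z ∈ univ, ∀ v, J (u z) (J (u z) v) = -v := fun z _ => hsq _ (hU.mem _ (by simp))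
  have b1 : ∀ z, z ∉ B → u z ≠ U (1, 0) := fun z hz h => hz (Or.inl h)
  have b2 : ∀ z, z ∉ B → ∀ y, u y = u z → fderiv ℝ u y ≠ 0 := fun z hz y hy h =>
    hz (Or.inr ⟨y, h, hy⟩)
  have r0 : ∀ y z, Rl u u y z → u y = u z := fun y z ⟨φ, _, k2, k3⟩ => by
    rw [← k2]; exact k3.self_of_nhds.symm
  have r1 : ∀ z, Rl u u z z := fun z => ⟨id, analyticAt_id, rfl, Eventually.of_forall fun _ => rfl⟩
  have r2 : ∀ x y z, Rl u u x y → Rl u u y z → Rl u u x z := by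
    rintro x y z ⟨φ, k1, k2, k3⟩ ⟨ψ, q1, rfl, q3⟩
    refine ⟨φ ∘ ψ, k1.comp q1, k2, ?_⟩
    filter_upwards [q3, q1.continuousAt.eventually k3] with w a1 a2
    exact a1.trans a2
  have r3 : ∀ y z, z ∉ B → Rl u u y z → Rl u u z y := by
    rintro y z hz ⟨φ, k1, rfl, k3⟩
    refine (h1 V J hJ).2 u u univ univ z (φ z) isOpen_univ isOpen_univ trivial trivial hU.hol.1
      hU.hol.1 s1 s1 (b2 z hz z rfl) k3.self_of_nhds fun N hN => Eventually.frequently ?_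
    refine Eventually.filter_mono nhdsWithin_le_nhds
      (opn k1 (der_ne hd k1 k3 (b2 z hz z rfl)) (mem_map.2 ?_))
    filter_upwards [hN, k3] with w a1 a2
    exact ⟨w, a1, a2⟩
  let cl : ℂ → Finset ℂ := fun z => (hfib (u z)).toFinset.filter fun y => Rl u u y z
  have mc : ∀ y z, y ∈ cl z ↔ Rl u u y z := fun y z => by
    simp only [cl, Finset.mem_filter, Finite.mem_toFinset, mem_ofPred_eq]
    exact ⟨fun h => h.2, fun h => ⟨r0 y z h, h⟩⟩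
  have loc : ∀ z₀, z₀ ∉ B → ∃ Φ : ℂ → ℂ → ℂ,
      (∀ y ∈ cl z₀, AnalyticAt ℂ (Φ y) z₀ ∧ deriv (Φ y) z₀ ≠ 0) ∧
      (∀ᶠ z in 𝓝 z₀, InjOn (fun y => Φ y z) (cl z₀) ∧ ∀ z', z' ∈ cl z ↔ ∃ y ∈ cl z₀, Φ y z = z') ∧
      ∀ᶠ z in 𝓝[≠] z₀, ∀ z', u z' = u z → z' ∈ cl z := by
    intro z₀ hz
    obtain ⟨Φ, k1, k2⟩ := struct h1 hJ hsq hU hN hU.hol.1 (fun z => hU.mem _ (by simp)) z₀
      (b1 z₀ hz) (b2 z₀ hz)
    have e1 : ∀ᶠ z in 𝓝 z₀, ∀ y ∈ cl z₀, Φ y z ∈ cl z :=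
      (Finset.eventually_all _).2 fun y hy => by
        obtain ⟨a1, -, a3⟩ := k1 y ((mc _ _).1 hy)
        filter_upwards [a1.eventually_analyticAt, a3.eventually_nhds] with z q1 q2
        exact (mc _ _).2 ⟨Φ y, q1, rfl, q2⟩
    have e2 : ∀ᶠ z in 𝓝 z₀, ∀ y ∈ cl z₀, ∀ y' ∈ cl z₀, Φ y z = Φ y' z → y = y' :=
      (Finset.eventually_all _).2 fun y hy => (Finset.eventually_all _).2 fun y' hy' => by
        rcases eq_or_ne y y' with rfl | hne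
        · exact Eventually.of_forall fun _ _ => rfl
        obtain ⟨a1, a2, -⟩ := k1 y ((mc _ _).1 hy)
        obtain ⟨c1, c2, -⟩ := k1 y' ((mc _ _).1 hy')
        have : ∀ᶠ z in 𝓝 z₀, Φ y z - Φ y' z ≠ 0 :=
          (a1.sub c1).continuousAt.eventually_ne (by
            simp only [Pi.sub_apply, a2, c2]; exact sub_ne_zero.2 hne)
        exact this.mono fun z hz h => (hz (sub_eq_zero.2 h)).elim
    refine ⟨Φ, fun y hy => ?_, ?_, ?_⟩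
    · obtain ⟨a1, -, a3⟩ := k1 y ((mc _ _).1 hy)
      exact ⟨a1, der_ne hd a1 a3 (b2 z₀ hz z₀ rfl)⟩
    · filter_upwards [e1, e2, eventually_nhdsWithin_iff.1 k2] with z q1 q2 q3
      refine ⟨fun y hy y' hy' h => q2 y hy y' hy' h, fun z' => ⟨fun h => ?_, ?_⟩⟩
      · rcases eq_or_ne z z₀ with rfl | hne
        · exact ⟨z', h, (k1 z' ((mc _ _).1 h)).2.1⟩
        · obtain ⟨y, a1, a2⟩ := q3 hne z' (r0 _ _ ((mc _ _).1 h))
          exact ⟨y, (mc _ _).2 a1, a2.symm⟩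
      · rintro ⟨y, hy, rfl⟩
        exact q1 y hy
    · filter_upwards [k2, e1.filter_mono nhdsWithin_le_nhds] with z q1 q2 z' h
      obtain ⟨y, a1, rfl⟩ := q1 z' h
      exact q2 y ((mc _ _).2 a1)
  have lc : ∀ z₀, z₀ ∉ B → ∀ᶠ z in 𝓝 z₀, (cl z).card = (cl z₀).card := fun z₀ hz => by
    obtain ⟨Φ, -, k2, -⟩ := loc z₀ hz
    filter_upwards [k2] with z q
    rw [← Finset.card_image_of_injOn q.1]
    congr 1
    ext z'
    rw [q.2, Finset.mem_image]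
  obtain ⟨z₁, hz₁⟩ := (hB.countable.dense_compl ℝ).nonempty
  have all := conn hB (P := fun z => (cl z).card = (cl z₁).card) ⟨z₁, lc z₁ hz₁⟩ fun z hz hf => by
    obtain ⟨x, a1, a2⟩ := (hf.and_eventually ((lc z hz).filter_mono nhdsWithin_le_nhds)).exists
    exact (lc z hz).mono fun y hy => hy.trans (a2.symm.trans a1)
  refine ⟨(cl z₁).card, hB.toFinset, cl, Finset.card_pos.2 ⟨z₁, (mc _ _).2 (r1 _)⟩, ?_⟩
  simp only [Finite.mem_toFinset]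
  refine ⟨fun z hz => ⟨fun b hb h => hz ?_, b1 z hz, b2 z hz z rfl⟩,
    fun z hz => ⟨(mc _ _).2 (r1 z), (all z hz).self_of_nhds, fun z' h => ?_⟩, fun z₀ hz => ?_,
    fun z₀ hz => ?_⟩
  · rw [hBd, mem_ofPred_eq, h]; exact hb
  · have h' := (mc _ _).1 h
    refine ⟨fun hb => hz ?_, Finset.ext fun y => ?_, r0 _ _ h'⟩
    · rw [hBd, mem_ofPred_eq, ← r0 _ _ h']; exact hb
    · rw [mc, mc]
      exact ⟨fun k => r2 _ _ _ k h', fun k => r2 _ _ _ k (r3 _ _ hz h')⟩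
  · obtain ⟨Φ, k1, k2, -⟩ := loc z₀ hz
    let e := (Finset.equivFinOfCardEq (all z₀ hz).self_of_nhds).symm
    refine ⟨fun j => Φ (e j), fun j => k1 _ (e j).2, k2.mono fun z q => ⟨fun i j h =>
      e.injective (Subtype.ext (q.1 (e i).2 (e j).2 h)), fun z' => (q.2 z').trans ⟨?_, ?_⟩⟩⟩
    · rintro ⟨y, hy, rfl⟩
      exact ⟨e.symm ⟨y, hy⟩, by simp only [e.apply_symm_apply]⟩
    · rintro ⟨j, rfl⟩
      exact ⟨_, (e j).2, rfl⟩
  · exact (loc z₀ hz).choose_spec.2.2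

end

end Pool.Agent.MP_9758ca_gt

end MrgPart0

-- ======== part 1: formerly Pool.Agent.MP_9758ca_gt.SpecG
section MrgPart1

/-!
PROJECT BALL: statements of the geometric modules.  See /team-store/BALL_BLUEPRINT.md.
-/

open scoped Topology ContDiff ComplexConjugate
open Set Metric Filter Complex MeasureTheory

namespace Pool.Agent.MP_9758ca_gt

noncomputable section

/-- `SS` is a retract near the points of `dom i`, and `cof i` is a coframe there -/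
def LocOK (i : Idx) : Prop :=
  ∀ x ∈ SS, x ∈ dom i →
    (∃ (N : Set VV) (ρ : VV → VV), IsOpen N ∧ x ∈ N ∧ ContDiffOn ℝ ∞ ρ N ∧ MapsTo ρ N SS ∧
      ∀ y ∈ SS ∩ N, ρ y = y) ∧
    (∀ w, ∃ v ∈ tan SS x, cof i x v = w) ∧ ∀ v ∈ tan SS x, cof i x v = 0 → v = 0

/-- the ambient realisation of the example -/
structure GeoS (b₀ ε : ℝ) (O M : Set VV) (π : VV → VV) (om h : F2 VV) (J₀ : VV → En0 VV) :
    Prop where
  amb : Amb O π M om h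
  real : (atl b₀ ε true).Real SS M om h J₀
  sm : ContDiff ℝ ∞ J₀
  wj : WJ M J₀
  tame : Tame M om J₀

/-- the two-parameter path ending on the curve `c` -/
structure PathP (c : ℝ → VV) (L : ℝ) (q : ℤ) (γ : ℝ × ℝ → VV) (ρs : ℝ) : Prop where
  path : ∀ s ∈ Icc (0 : ℝ) 1 ×ˢ Icc (0 : ℝ) 1,
    ContDiffAt ℝ 1 γ s ∧ (∀ᶠ s' in 𝓝 s, γ s' ∈ SO) ∧ γ s ∉ DD ∧ |(γ s).2| ≤ L + 2
  top : ∀ τ ∈ Icc (0 : ℝ) 1, γ (τ, 1) = c τ
  bot : ∀ τ ∈ Icc (0 : ℝ) 1, (γ (τ, 0)).2 = -(L + 1)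
  zero : ∀ ρ ∈ Icc (0 : ℝ) 1, (γ (0, ρ)).2 ≤ (c 0).2
  one : ∀ ρ ∈ Icc (0 : ℝ) 1, |(γ (1, ρ)).2 - q| ≤ 1 / 10 → γ (1, ρ) = vert (γ (1, ρ)).2
  uniq : ∀ ρ ∈ Icc (0 : ℝ) 1, (γ (1, ρ)).2 = q → ρ = ρs
  rho : ρs ∈ Icc (0 : ℝ) 1
  val : γ (1, ρs) = vert q
  der : ∃ t : ℝ, t ≠ 0 ∧ fderiv ℝ γ (1, ρs) (0, 1) = (0, t)

/-- all the data produced by an isotopy from `ball0 p` to `ball0 q` -/
structure Setup (b₀ ε r r₁ : ℝ) (L : ℕ) (p q : ℤ) (O M : Set VV) (π : VV → VV) (om h : F2 VV)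
    (J₀ : VV → En0 VV) (ψ : ℝ × E6 → VV) (J : ℝ → VV → En0 VV) (v₀ : E6) (γ : ℝ × ℝ → VV)
    (ρs xs : ℝ) : Prop where
  geo : GeoS b₀ ε O M π om h J₀
  sub : ∀ x ∈ SS, |x.2| ≤ L + 2 → x ∈ M
  fam : BallFam M om r ψ
  patch : Patch M om J₀ r r₁ ψ J
  eps : 0 < ε
  lt : r₁ < r
  rad : Real.pi * r ^ 2 < 1
  cen : ‖v₀‖ < r₁
  big : 1 - ε < Real.pi * (r₁ - ‖v₀‖) ^ 2
  ht : ∀ τ, ∀ y ∈ closedBall (0 : E6) r, |(ψ (τ, y)).2| ≤ L
  pq : p < q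
  hq : |(q : ℝ)| ≤ L
  e0 : ∀ y ∈ closedBall (0 : E6) r, ψ (0, y) = ball0 p y
  e1 : ∀ y ∈ closedBall (0 : E6) r, ψ (1, y) = ball0 q y
  path : PathP (fun τ => ψ (τ, v₀)) L q γ ρs
  root : Root xs

/-- the compact set that contains all the spheres -/
def KK (L : ℕ) : Set VV := {x | x ∈ SS ∧ |x.2| ≤ L + 1 / 2}

/-- the region where the almost complex structure is perturbed -/
def AA (L : ℕ) (r₁ : ℝ) (ψ : ℝ × E6 → VV) : Set (ℝ × VV) :=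
  {s | s.1 ∈ Ioo (0 : ℝ) 1 ∧ |s.2.2| < L + 1 / 2 ∧ ∀ y ∈ closedBall (0 : E6) r₁, ψ (s.1, y) ≠ s.2}

/-- `dw` is complex linear along `U` inside the band `c₁ < T < c₂` -/
def Band (c₁ c₂ : ℝ) (U : C2 → VV) : Prop :=
  ∀ v, v ≠ 0 → (U v).2 ∈ Ioo c₁ c₂ → ∀ w,
    dw (U v) (fderiv ℝ U v (I • w)) = I * dw (U v) (fderiv ℝ U v w)

/-! ### the example is a symplectic manifold -/

def GoStmt : Prop := ∀ (k : Fin 3) (j : ℤ), LocOK (0, k, j)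

def GnStmt : Prop := ∀ (k : Fin 3) (j : ℤ), LocOK (1, k, j) ∧ LocOK (2, k, j) ∧ LocOK (3, k, j)

def GprimStmt : Prop :=
  ∀ x ∈ SO, ∀ i i' : Idx, x ∈ dom i → x ∈ dom i' → ∀ a ∈ tan SS x, ∀ b ∈ tan SS x,
    dd (lamH i) x a b = dd (lamH i') x a b ∧
    (∀ b₀, dd (lamB b₀ i) x a b = dd (lamB b₀ i') x a b) ∧ dd (lamS i) x a b = dd (lamS i') x a b

def GcompStmt : Prop :=
  LocRetr SS ∧
  (∀ x ∈ SS, ∀ i, x ∈ dom i → ∀ a ∈ tan SS x, ∀ b ∈ tan SS x, cof i x b = I • cof i x a →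
    BaseRel x a b) ∧
  (∀ x ∈ SS, ∀ (k k' : Fin 3) (j : ℤ), x.1.1 k k ≠ 0 → x.1.1 k' k' ≠ 0 → ∀ a ∈ tan SS x,
    et k j x a = et k' j x a) ∧
  SS ⊆ closure SO ∧
  ∀ b₀ ε t, (atl b₀ ε t).Pre SS ∧ ∀ x ∈ SS, (atl b₀ ε t).CompatAt SS x

def GcptStmt : Prop :=
  (∀ c : ℝ, IsCompact {x ∈ SS | |x.2| ≤ c}) ∧ (∀ j, IsClosed (ZZ j)) ∧ IsClosed DD

def GtameStmt : Prop :=
  ∃ b₀ ε₀ : ℝ, 0 < ε₀ ∧ ∀ ε, 0 < ε → ε ≤ ε₀ → ∀ t, (atl b₀ ε t).Tame SS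

def GcutStmt : Prop :=
  ∀ M : Set VV, M ⊆ SS → (∀ x ∈ M, ∀ᶠ y in 𝓝 x, y ∈ SS → y ∈ M) →
    (∀ j, Cut M (ZZ j) (gZ j)) ∧ Cut M DD gD ∧ Cut M EE gE

def GballStmt : Prop :=
  (∀ (r : ℝ) (l : ℤ), 0 < r → Real.pi * r ^ 2 < 1 →
    (∀ b₀ ε t, (atl b₀ ε t).Ball SS r (ball0 l)) ∧
    ∀ y ∈ closedBall (0 : E6) r, ContDiffAt ℝ ∞ (ball0 l) y ∧
      |(ball0 l y).2 - l - 1 / 2| < 3 / 10 ∧
      ∀ a, dw (ball0 l y) (fderiv ℝ (ball0 l) y (j6 a)) =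
        I * dw (ball0 l y) (fderiv ℝ (ball0 l) y a)) ∧
  JoinedIn SS (ball0 0 0) (ball0 1 0)

/-! ### spheres in the example -/

def SliceStmt : Prop :=
  (∀ (c₁ c₂ : ℝ) (U : C2 → VV), Map2 SS U → Band c₁ c₂ U → ∀ v₀, v₀ ≠ 0 →
    (U v₀).2 ∈ Ioo c₁ c₂ → ∀ v, v ≠ 0 → (U v).2 = (U v₀).2 ∧ aL (U v) = aL (U v₀)) ∧
  ∀ (c₁ c₂ : ℝ) (k : ℕ) (U : Fin k → C2 → VV), c₁ < c₂ → (∀ i, Map2 SS (U i) ∧ Band c₁ c₂ (U i)) →
    IsConnected (⋃ i, im (U i)) → ∀ x ∈ ⋃ i, im (U i), ∀ y ∈ ⋃ i, im (U i),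
      (x.2 ≤ c₁ → y.2 ≤ c₁) ∧ (c₂ ≤ x.2 → c₂ ≤ y.2)

def HollineStmt : Prop :=
  ∀ P : C2 → M3, ContDiffOn ℝ 2 P nz → Inv P → (∀ v, v ≠ 0 → ∃ n : C3, n ≠ 0 ∧ P v = prj n) →
    (∀ v, v ≠ 0 → ∀ i k, P v k k ≠ 0 → DifferentiableAt ℂ (fun w => P w i k / P w k k) v) →
    ∃ (d : ℕ) (n : C2 → C3), ContDiffOn ℝ 2 n nz ∧ (∀ v, v ≠ 0 → n v ≠ 0 ∧ P v = prj (n v)) ∧
      ∫ z : ℂ, dd th (n (z, 1)) (fderiv ℝ n (z, 1) (1, 0)) (fderiv ℝ n (z, 1) (I, 0)) = d ∧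
      (d = 0 → ∃ n₀, ∀ v, v ≠ 0 → n v = n₀) ∧
      (d = 1 → ∃ L : C2 →L[ℂ] C3, ∀ v, v ≠ 0 → n v = L v)

def DegStmt : Prop :=
  ∀ b₀ ε O M π om h J₀, GeoS b₀ ε O M π om h J₀ → ∀ U, IsSph M J₀ U →
    (∀ v, v ≠ 0 → ∀ w, BaseRel (U v) (fderiv ℝ U v w) (fderiv ℝ U v (I • w))) ∧
    (∃ d : ℕ, area h U = d ∧ (d = 0 → ∃ P₀, ∀ v, v ≠ 0 → (U v).1.1 = P₀) ∧
      (d = 1 → ∃ L : C2 →L[ℂ] C3, ∀ v, v ≠ 0 → L v ≠ 0 ∧ (U v).1.1 = prj (L v))) ∧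
    ∀ c : ℝ, NonC U → (∀ v, v ≠ 0 → (U v).2 = c) → (∀ j : ℤ, 1 / 10 ≤ |c - j|) → 1 ≤ area om U

def Expl1Stmt : Prop :=
  ∀ (j : ℤ) (xs : ℝ), Root xs →
    (∀ v, v ≠ 0 → nl xs v ≠ 0 ∧ (NN j (nl xs v) (-1) j = 0 ↔ v.1 = 0)) ∧
    (∀ v₀ : C2, v₀ ≠ 0 → v₀.1 = 0 → ∀ᶠ v in 𝓝 v₀, aa (nl xs v) = -1 ∧
      Us j xs v ∈ dom (1, 2, j) ∧ Us j xs v = pt (nl xs v) (-1) j (prj (nu (nl xs v) 1 0))) ∧
    (∀ v, v ≠ 0 → ContDiffAt ℝ ∞ (Us j xs) v) ∧ Map2 SS (Us j xs) ∧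
    Us j xs (mk3 0) ∈ ZZ j ∧ Us j xs (mk3 1) ∈ DD ∧ Us j xs (mk3 2) = vert j ∧
    ∀ b₀ ε O M π om h J₀, GeoS b₀ ε O M π om h J₀ → (∀ x ∈ SS, x.2 = j → x ∈ M) →
      IsSph M J₀ (Us j xs)

def ExplFStmt : Prop :=
  ∀ (j : ℤ) (xs : ℝ) b₀ ε O M π om h J₀, Root xs → GeoS b₀ ε O M π om h J₀ →
    (∀ x ∈ SS, x.2 = j → x ∈ M) → Framed M J₀ (Us j xs) ![2, 1, -1]

def Expl2Stmt : Prop :=
  ∀ (j : ℤ) (xs : ℝ) b₀ ε O M π om h J₀, Root xs → GeoS b₀ ε O M π om h J₀ →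
    (∀ x ∈ SS, x.2 = j → x ∈ M) → area h (Us j xs) = 1 ∧ area om (Us j xs) = 1 - ε

def Expl3Stmt : Prop :=
  ∀ (j : ℤ) (xs : ℝ) b₀ ε O M π om h J₀ (t : ℝ), Root xs → GeoS b₀ ε O M π om h J₀ →
    (∀ x ∈ SS, x.2 = j → x ∈ M) → t ≠ 0 → Reg M J₀ (Us j xs) (gZ j) gD (0, t)

def ClassStmt : Prop :=
  ∀ (j : ℤ) (xs : ℝ), Root xs →
    (∀ b₀ ε O M π om h J₀, GeoS b₀ ε O M π om h J₀ → (∀ x ∈ SS, x.2 = j → x ∈ M) →
      ∀ (T₀ : ℝ) (k : ℕ) (U : Fin k → C2 → VV), Conf M om h (ZZ j) (1 - ε) J₀ (vert T₀) k U →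
      (∀ i v, v ≠ 0 → |(U i v).2 - j| ≤ 1 / 10) → k = 1 ∧ T₀ = j ∧
        ∀ i, ∃ A : C2 ≃L[ℂ] C2, ∀ v, v ≠ 0 → U i v = Us j xs (A v)) ∧
    ∀ A : C2 ≃L[ℂ] C2, Us j xs (A (mk3 0)) ∈ ZZ j → Us j xs (A (mk3 1)) ∈ DD →
      Us j xs (A (mk3 2)) = vert j → ∀ v, v ≠ 0 → Us j xs (A v) = Us j xs v

/-! ### the path and the final assembly -/

def V0Stmt : Prop :=
  ∀ b₀ ε O M π om h J₀ (r δ : ℝ) (ψ : ℝ × E6 → VV), GeoS b₀ ε O M π om h J₀ →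
    BallFam M om r ψ → 0 < δ → δ < r →
    ∃ v₀ : E6, ‖v₀‖ < δ ∧ ∀ τ, ψ (τ, v₀) ∈ SO ∧ ψ (τ, v₀) ∉ DD

def PathStmt : Prop :=
  ∀ (c : ℝ → VV) (L : ℝ) (q : ℤ), ContDiff ℝ 1 c → (∀ τ, c τ ∈ SO ∧ c τ ∉ DD ∧ |(c τ).2| ≤ L) →
    |(q : ℝ)| ≤ L → (∀ j : ℤ, (c 0).2 ≠ j ∧ (c 1).2 ≠ j) → (q : ℝ) + 1 / 10 < (c 1).2 →
    ∃ γ ρs, PathP c L q γ ρs

def ConfStmt : Prop :=
  ∀ b₀ ε r r₁ L p q O M π om h J₀ ψ J v₀ γ ρs xs,
    Setup b₀ ε r r₁ L p q O M π om h J₀ ψ J v₀ γ ρs xs →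
    ∀ τ ∈ Icc (0 : ℝ) 1, ∀ ρ ∈ Icc (0 : ℝ) 1, ∀ J', Adm M om J (AA L r₁ ψ) τ J' →
    ∀ k U, Conf M om h (ZZ q) (1 - ε) J' (γ (τ, ρ)) k U →
      (∀ i, im (U i) ⊆ KK L) ∧ ρ ∈ Ioo (0 : ℝ) 1 ∧ τ ≠ 0 ∧
      (τ = 1 → k = 1 ∧ ρ = ρs ∧ ∀ i, ∃ A : C2 ≃L[ℂ] C2, ∀ v, v ≠ 0 → U i v = Us q xs (A v)) ∧
      (τ < 1 → ∀ i, ∃ v, v ≠ 0 ∧ (τ, U i v) ∈ AA L r₁ ψ)

def HypStmt : Prop :=
  ∀ b₀ ε r r₁ L p q O M π om h J₀ ψ J v₀ γ ρs xs,
    Setup b₀ ε r r₁ L p q O M π om h J₀ ψ J v₀ γ ρs xs →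
    Hyp M (KK L) om h J (AA L r₁ ψ) (ZZ q) DD (gZ q) gD γ (1 - ε) (Us q xs) ρs

def NoisoStmt : Prop :=
  ∀ (b₀ ε r : ℝ) (p q : ℤ), 0 < ε → (atl b₀ ε true).Tame SS → 0 < r → 1 - ε < Real.pi * r ^ 2 →
    Real.pi * r ^ 2 < 1 → p < q → ¬ (atl b₀ ε true).Iso SS r (ball0 p) (ball0 q)

end

end Pool.Agent.MP_9758ca_gt

end MrgPart1

-- ======== part 2: formerly Pool.Agent.MP_9758ca_gt.Gn
section MrgPart2

/-!
PROJECT BALL: the charts of types 1, 2, 3 (GN).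
-/

open scoped Topology ContDiff ComplexConjugate
open Set Metric Filter Complex

namespace Pool.Agent.MP_9758ca_gt

namespace GnP

noncomputable section

/-- the parameter space: `(x, y, X, μ)` -/
abbrev E4 : Type := ℂ × ℂ × ℂ × ℂ

/-- the affine chart -/
def nk (k : Fin 3) (x y : ℂ) : C3 :=
  Pi.single k 1 + x • Pi.single (k.succAbove 0) 1 + y • Pi.single (k.succAbove 1) 1

theorem nk_val (k : Fin 3) (x y : ℂ) :
    nk k x y k = 1 ∧ nk k x y (k.succAbove 0) = x ∧ nk k x y (k.succAbove 1) = y := by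
  fin_cases k <;> simp [nk, Fin.succAbove, Fin.lt_def]

theorem nk_ne (k : Fin 3) (x y : ℂ) : nk k x y k ≠ 0 := by rw [(nk_val k x y).1]; exact one_ne_zero

theorem nk_ne' (k : Fin 3) (x y : ℂ) : nk k x y ≠ 0 := fun h => nk_ne k x y (congrFun h k)

theorem contDiff_nk (k : Fin 3) : ContDiff ℝ ∞ fun q : E4 => nk k q.1 q.2.1 := by
  unfold nk; fun_prop

theorem cub_nk (k : Fin 3) (x y : ℂ) : cub (nk k x y) = cuf x y := by
  rw [cub_chart (nk_ne k x y), (nk_val k x y).1, (nk_val k x y).2.1, (nk_val k x y).2.2]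
  simp

theorem P_eq {x : VV} (hx : x ∈ SS) {k : Fin 3} (hk : x.1.1 k k ≠ 0) :
    x.1.1 = prj (nk k (xk k x) (yk k x)) := by
  obtain ⟨n, a, T, R, h1, h2, rfl⟩ := SS_pt hx
  have h : n k ≠ 0 := prj_diag_ne.1 hk
  obtain ⟨-, -, e1, e2, -⟩ := pt_chart h 0 a T R
  have : n = n k • nk k (n (k.succAbove 0) / n k) (n (k.succAbove 1) / n k) := by
    ext i
    refine Fin.succAboveCases k ?_ (fun i => ?_) i
    · simp [(nk_val k _ _).1]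
    · fin_cases i
      · simp only [Fin.zero_eta, Pi.smul_apply, (nk_val k _ _).2.1, smul_eq_mul]; field_simp
      · simp only [Fin.mk_one, Pi.smul_apply, (nk_val k _ _).2.2, smul_eq_mul]; field_simp
  rw [e1, e2, ← prj_smul h, ← this]
  rfl

theorem x_eq {x : VV} (hx : x ∈ SS) {k : Fin 3} (hk : x.1.1 k k ≠ 0) :
    x = pt (nk k (xk k x) (yk k x)) (aL x) x.2 x.1.2.2 :=
  Prod.ext (Prod.ext (P_eq hx hk) rfl) rfl

/-- the base point with prescribed `x`, `y` and `Xi` -/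
def cc (k : Fin 3) (j : ℤ) (z : E4) : C3 × ℂ × ℝ :=
  (nk k z.1 z.2.1, (‖1 + z.2.2.1‖⁻¹ : ℝ) • (aa (nk k z.1 z.2.1) * (1 + z.2.2.1)),
    j - Real.log ‖1 + z.2.2.1‖ / (2 * Real.pi))

theorem contDiffAt_cc (k : Fin 3) (j : ℤ) {z : E4} (h : 1 + z.2.2.1 ≠ 0) :
    ContDiffAt ℝ ∞ (cc k j) z := by
  have h1 : ContDiffAt ℝ ∞ (fun z : E4 => 1 + z.2.2.1) z := by fun_prop
  have h2 : ContDiffAt ℝ ∞ (fun z : E4 => ‖1 + z.2.2.1‖) z := h1.norm ℝ h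
  have h3 : ‖1 + z.2.2.1‖ ≠ 0 := norm_ne_zero_iff.2 h
  have h4 : ContDiffAt ℝ ∞ (fun z : E4 => aa (nk k z.1 z.2.1)) z :=
    ContDiffAt.comp (g := aa) z (contDiffAt_aa (nk_ne' k _ _)) (contDiff_nk k).contDiffAt
  exact (contDiff_nk k).contDiffAt.prodMk (((h2.inv h3).smul (h4.mul h1)).prodMk
    (contDiffAt_const.sub ((h2.log h3).div_const _)))

theorem cc_norm {k : Fin 3} {j : ℤ} {z : E4} (h : 1 + z.2.2.1 ≠ 0)
    (ha : ‖aa (nk k z.1 z.2.1)‖ = 1) : ‖(cc k j z).2.1‖ = 1 := by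
  simp only [cc, norm_smul, norm_inv, norm_norm, norm_mul, ha, one_mul]
  exact inv_mul_cancel₀ (norm_ne_zero_iff.2 h)

theorem cc_Xi {k : Fin 3} {j : ℤ} {z : E4} (h : 1 + z.2.2.1 ≠ 0)
    (ha : ‖aa (nk k z.1 z.2.1)‖ = 1) :
    Xi j (cc k j z).1 (cc k j z).2.1 (cc k j z).2.2 = z.2.2.1 := by
  have h3 : 0 < ‖1 + z.2.2.1‖ := norm_pos_iff.2 h
  have hpi := Real.pi_pos
  have e1 : -(2 * Real.pi * ((cc k j z).2.2 - j)) = Real.log ‖1 + z.2.2.1‖ := by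
    simp only [cc]; field_simp; ring
  have e2 : aa (nk k z.1 z.2.1) * conj (aa (nk k z.1 z.2.1)) = 1 := by
    rw [mul_conj, normSq_eq_norm_sq, ha]; simp
  have e3 : ((‖1 + z.2.2.1‖ : ℝ) : ℂ) ≠ 0 := ofReal_ne_zero.2 h3.ne'
  rw [Xi, e1, Real.exp_log h3]
  simp only [cc, real_smul, ofReal_inv]
  field_simp
  linear_combination (1 + z.2.2.1) * e2

theorem cc_inv {k : Fin 3} {j : ℤ} {x y a : ℂ} {T : ℝ} (m : ℂ) (ha : ‖a‖ = 1)
    (hn : ‖aa (nk k x y)‖ = 1) :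
    1 + Xi j (nk k x y) a T ≠ 0 ∧ cc k j (x, y, Xi j (nk k x y) a T, m) = (nk k x y, a, T) := by
  have hpi := Real.pi_pos
  have e0 : 1 + Xi j (nk k x y) a T =
      a * conj (aa (nk k x y)) * (Real.exp (-(2 * Real.pi * (T - j))) : ℂ) := by
    rw [Xi]; ring
  have e1 : ‖1 + Xi j (nk k x y) a T‖ = Real.exp (-(2 * Real.pi * (T - j))) := by
    rw [e0, norm_mul, norm_mul, ha, RCLike.norm_conj, hn, norm_real, Real.norm_eq_abs,
      abs_of_pos (Real.exp_pos _)]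
    ring
  have e2 : aa (nk k x y) * conj (aa (nk k x y)) = 1 := by
    rw [mul_conj, normSq_eq_norm_sq, hn]; simp
  have e3 : ((Real.exp (-(2 * Real.pi * (T - j))) : ℝ) : ℂ) ≠ 0 :=
    ofReal_ne_zero.2 (Real.exp_pos _).ne'
  refine ⟨fun h0 => (Real.exp_pos _).ne' (by rw [← e1, h0, norm_zero]), ?_⟩
  refine Prod.ext rfl (Prod.ext ?_ ?_)
  · simp only [cc]
    rw [e1, e0, real_smul, ofReal_inv]
    generalize ((Real.exp (-(2 * Real.pi * (T - j))) : ℝ) : ℂ) = e at e3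
    field_simp
    linear_combination a * e2
  · simp only [cc]
    rw [e1, Real.log_exp]
    field_simp
    ring

/-- the line of the blow-up -/
def vv (P : C3) (p q : ℂ) : C4 := ![p * P 0 ^ 3, p * P 1 ^ 3, p * P 2 ^ 3, q]

theorem vv_cast (P : C3) (p q : ℂ) (k : Fin 3) : vv P p q k.castSucc = p * P k ^ 3 :=
  row_cast p q P k

theorem vv_last (P : C3) (p q : ℂ) : vv P p q 3 = q := rfl

theorem vv_smul (c : ℂ) (P : C3) (p q : ℂ) : c • vv P p q = vv P (c * p) (c * q) := by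
  funext i
  fin_cases i <;> simp [vv, mul_assoc]

theorem vv_ne {P : C3} {k : Fin 3} (hk : P k ≠ 0) {p q : ℂ} (h : p ≠ 0 ∨ q ≠ 0) :
    vv P p q ≠ 0 := by
  intro h0
  rcases h with h | h
  · have := congrFun h0 k.castSucc
    rw [vv_cast] at this
    exact mul_ne_zero h (pow_ne_zero 3 hk) this
  · exact h (congrFun h0 3)

theorem contDiff_vv : ContDiff ℝ ∞ fun w : C3 × ℂ × ℂ => vv w.1 w.2.1 w.2.2 := by
  refine contDiff_pi.2 fun i => ?_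
  fin_cases i
  · change ContDiff ℝ ∞ fun w : C3 × ℂ × ℂ => w.2.1 * w.1 0 ^ 3
    fun_prop
  · change ContDiff ℝ ∞ fun w : C3 × ℂ × ℂ => w.2.1 * w.1 1 ^ 3
    fun_prop
  · change ContDiff ℝ ∞ fun w : C3 × ℂ × ℂ => w.2.1 * w.1 2 ^ 3
    fun_prop
  · change ContDiff ℝ ∞ fun w : C3 × ℂ × ℂ => w.2.2
    fun_prop

theorem vv_nu (k : Fin 3) (x y p q : ℂ) :
    vv (prj (nk k x y) k) p q = nu (nk k x y) (p / (nsq (nk k x y) : ℂ) ^ 3) q := by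
  have hs : (nsq (nk k x y) : ℂ) ≠ 0 := ofReal_ne_zero.2 (nsq_pos (nk_ne' k x y)).ne'
  rw [nu_row (nk_ne k x y), div_mul_cancel₀ _ (pow_ne_zero 3 hs), (nk_val k x y).1, one_pow,
    div_one]
  rfl

/-- the parametrisation -/
def ch (k : Fin 3) (j : ℤ) (p q : ℂ → ℂ) (z : E4) : VV :=
  pt (cc k j z).1 (cc k j z).2.1 (cc k j z).2.2
    (prj (vv (prj (nk k z.1 z.2.1) k) (p z.2.2.2) (q z.2.2.2)))

/-- the equation -/
def GG (p q : ℂ → ℂ) (z : E4) : ℂ := p z.2.2.2 * z.2.2.1 - q z.2.2.2 * cuf z.1 z.2.1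

/-- the domain of the parametrisation -/
def WW (k : Fin 3) (j : ℤ) : Set E4 :=
  {z | 1 + z.2.2.1 ≠ 0 ∧ nsq (NN j (cc k j z).1 (cc k j z).2.1 (cc k j z).2.2) < 1 / 200000000}

theorem isOpen_WW (k : Fin 3) (j : ℤ) : IsOpen (WW k j) := by
  rw [isOpen_iff_eventually]
  rintro z ⟨h1, h2⟩
  have c1 : ContinuousAt (fun z : E4 => 1 + z.2.2.1) z := by fun_prop
  have c2 : ContinuousAt
      (fun z : E4 => nsq (NN j (cc k j z).1 (cc k j z).2.1 (cc k j z).2.2)) z :=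
    contDiff_nsq.continuous.continuousAt.comp
      (ContDiffAt.comp (g := fun q : C3 × ℂ × ℝ => NN j q.1 q.2.1 q.2.2) z
        (contDiffAt_NN j (nk_ne' k _ _)) (contDiffAt_cc k j h1)).continuousAt
  filter_upwards [c1.eventually_ne h1, c2.eventually_lt continuousAt_const h2] with y a1 a2
    using ⟨a1, a2⟩

theorem WW_aa {k : Fin 3} {j : ℤ} {z : E4} (h : z ∈ WW k j) : ‖aa (nk k z.1 z.2.1)‖ = 1 :=
  (near_cubic (nk_ne' k _ _) (lt_trans h.2 (by norm_num))).1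

theorem contDiffAt_ch {k : Fin 3} {j : ℤ} {p q : ℂ → ℂ} (hp : ContDiff ℝ ∞ p)
    (hq : ContDiff ℝ ∞ q) (hpq : ∀ m, p m ≠ 0 ∨ q m ≠ 0) {z : E4} (h : 1 + z.2.2.1 ≠ 0) :
    ContDiffAt ℝ ∞ (ch k j p q) z := by
  have h1 := contDiffAt_cc k j h
  have h2 : ContDiffAt ℝ ∞ (fun z : E4 => prj (nk k z.1 z.2.1)) z :=
    ContDiffAt.comp (g := prj) z (contDiffAt_prj (nk_ne' k _ _)) (contDiff_nk k).contDiffAt
  have h3 : ContDiffAt ℝ ∞ (fun z : E4 => z.2.2.2) z := by fun_prop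
  have h4 : ContDiffAt ℝ ∞
      (fun z : E4 => vv (prj (nk k z.1 z.2.1) k) (p z.2.2.2) (q z.2.2.2)) z :=
    ContDiffAt.comp (g := fun w : C3 × ℂ × ℂ => vv w.1 w.2.1 w.2.2)
      (f := fun z : E4 => (prj (nk k z.1 z.2.1) k, p z.2.2.2, q z.2.2.2)) z
      contDiff_vv.contDiffAt ((contDiffAt_pi.1 h2 k).prodMk
        ((hp.contDiffAt.comp z h3).prodMk (hq.contDiffAt.comp z h3)))
  have h5 : ContDiffAt ℝ ∞
      (fun z : E4 => prj (vv (prj (nk k z.1 z.2.1) k) (p z.2.2.2) (q z.2.2.2))) z :=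
    ContDiffAt.comp (g := prj) z
      (contDiffAt_prj (vv_ne (prj_diag_ne.2 (nk_ne k _ _)) (hpq _))) h4
  exact (h2.prodMk (h1.snd.fst.prodMk h5)).prodMk h1.snd.snd

theorem contDiff_GG {p q : ℂ → ℂ} (hp : ContDiff ℝ ∞ p) (hq : ContDiff ℝ ∞ q) :
    ContDiff ℝ ∞ (GG p q) := by
  unfold GG cuf; fun_prop

theorem ch_mem {k : Fin 3} {j : ℤ} {p q : ℂ → ℂ} (hpq : ∀ m, p m ≠ 0 ∨ q m ≠ 0) {z : E4}
    (h : z ∈ WW k j) (hG : GG p q z = 0) : ch k j p q z ∈ SS := by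
  have hs : (nsq (nk k z.1 z.2.1) : ℂ) ≠ 0 := ofReal_ne_zero.2 (nsq_pos (nk_ne' k _ _)).ne'
  rw [ch, vv_nu]
  refine mem_SS_near (nk_ne' k _ _) (cc_norm h.1 (WW_aa h)) h.2
    ((hpq _).imp_left fun h1 => div_ne_zero h1 (pow_ne_zero 3 hs)) ?_
  have e : Xi j (nk k z.1 z.2.1) (cc k j z).2.1 (cc k j z).2.2 = z.2.2.1 := cc_Xi h.1 (WW_aa h)
  rw [e, cub_nk]
  rw [GG] at hG
  field_simp
  linear_combination hG

/-- the coordinates -/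
def rr (k : Fin 3) (j : ℤ) (mu : VV → ℂ) (x : VV) : E4 := (xk k x, yk k x, XiA k j x, mu x)

theorem rr_ch {k : Fin 3} {j : ℤ} {p q : ℂ → ℂ} {mu : VV → ℂ}
    (hmu : ∀ (n : C3) (a : ℂ) (T : ℝ) (m : ℂ), n k ≠ 0 →
      mu (pt n a T (prj (vv (prj n k) (p m) (q m)))) = m) {z : E4} (h : z ∈ WW k j) :
    rr k j mu (ch k j p q z) = z := by
  obtain ⟨-, -, e1, e2, -, e3, -⟩ := pt_chart (nk_ne k z.1 z.2.1) j (cc k j z).2.1 (cc k j z).2.2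
    (prj (vv (prj (nk k z.1 z.2.1) k) (p z.2.2.2) (q z.2.2.2)))
  rw [(nk_val k _ _).1, div_one] at e1 e2
  exact Prod.ext (e1.trans (nk_val k _ _).2.1) (Prod.ext (e2.trans (nk_val k _ _).2.2)
    (Prod.ext (e3.trans (cc_Xi h.1 (WW_aa h))) (hmu _ _ _ _ (nk_ne k _ _))))

theorem cc_rr {k : Fin 3} {j : ℤ} (mu : VV → ℂ) {x : VV} (hx : x ∈ SS) (hk : x.1.1 k k ≠ 0)
    (hs : nsq (NA k j x) < 1 / 200000000) :
    rr k j mu x ∈ WW k j ∧ cc k j (rr k j mu x) = (nk k (xk k x) (yk k x), aL x, x.2) := by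
  obtain ⟨-, -, -, -, -, e1, e2⟩ := pt_chart (nk_ne k (xk k x) (yk k x)) j (aL x) x.2 x.1.2.2
  rw [← x_eq hx hk] at e1 e2
  rw [e2] at hs
  obtain ⟨e3, e4⟩ := cc_inv (j := j) (T := x.2) (mu x) (SS_base hx).1
    (near_cubic (nk_ne' k (xk k x) (yk k x)) (lt_trans hs (by norm_num))).1
  rw [← e1] at e3 e4
  refine ⟨⟨e3, ?_⟩, e4⟩
  rw [rr, e4]
  exact hs

theorem ch_rr {k : Fin 3} {j : ℤ} {p q : ℂ → ℂ} {mu : VV → ℂ} {x : VV} (hx : x ∈ SS)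
    (hk : x.1.1 k k ≠ 0) (hs : nsq (NA k j x) < 1 / 200000000)
    (hR : x.1.2.2 = prj (vv (x.1.1 k) (p (mu x)) (q (mu x)))) : ch k j p q (rr k j mu x) = x := by
  rw [ch, (cc_rr mu hx hk hs).2]
  conv_rhs => rw [x_eq hx hk, hR, P_eq hx hk]
  rfl

/-- the common core of the three chart types -/
theorem core {k : Fin 3} {j : ℤ} {p q : ℂ → ℂ} {mu : VV → ℂ} {N : Set VV} {x₀ : VV}
    (hp : ContDiff ℝ ∞ p) (hq : ContDiff ℝ ∞ q) (hpq : ∀ m, p m ≠ 0 ∨ q m ≠ 0)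
    (hmu : ∀ (n : C3) (a : ℂ) (T : ℝ) (m : ℂ), n k ≠ 0 →
      mu (pt n a T (prj (vv (prj n k) (p m) (q m)))) = m)
    (hN : IsOpen N) (hx : x₀ ∈ SS) (hxN : x₀ ∈ N)
    (h1 : ∀ x ∈ N, x.1.1 k k ≠ 0 ∧ nsq (NA k j x) < 1 / 200000000 ∧ ContDiffAt ℝ ∞ mu x)
    (h2 : ∀ x ∈ SS ∩ N, p (mu x) * XiA k j x = q (mu x) * fk k x ∧
      x.1.2.2 = prj (vv (x.1.1 k) (p (mu x)) (q (mu x))))
    (hs : Function.Surjective (fderiv ℝ (GG p q) (rr k j mu x₀))) :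
    (∃ (N : Set VV) (ρ : VV → VV), IsOpen N ∧ x₀ ∈ N ∧ ContDiffOn ℝ ∞ ρ N ∧ MapsTo ρ N SS ∧
      ∀ y ∈ SS ∩ N, ρ y = y) ∧
    (∀ z, fderiv ℝ (GG p q) (rr k j mu x₀) z = 0 → ∃ v ∈ tan SS x₀,
      (fderiv ℝ (xk k) x₀ v, fderiv ℝ (yk k) x₀ v, fderiv ℝ (XiA k j) x₀ v, fderiv ℝ mu x₀ v) = z) ∧
    ∀ v ∈ tan SS x₀, ∃ z, fderiv ℝ (GG p q) (rr k j mu x₀) z = 0 ∧
      (fderiv ℝ (xk k) x₀ v, fderiv ℝ (yk k) x₀ v, fderiv ℝ (XiA k j) x₀ v, fderiv ℝ mu x₀ v) = z ∧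
      (z = 0 → v = 0) := by
  have hr : ∀ x ∈ N, ContDiffAt ℝ ∞ (rr k j mu) x := fun x hx =>
    (contDiffAt_xk (h1 x hx).1).1.prodMk ((contDiffAt_xk (h1 x hx).1).2.1.prodMk
      ((contDiffAt_XiA j (h1 x hx).1).1.prodMk (h1 x hx).2.2))
  have hW := (cc_rr (j := j) mu hx (h1 _ hxN).1 (h1 _ hxN).2.1).1
  have hc := ch_rr hx (h1 _ hxN).1 (h1 _ hxN).2.1 (h2 _ ⟨hx, hxN⟩).2
  obtain ⟨a1, a2⟩ := sub_retr (S := SS) (χ := ch k j p q) (r := rr k j mu) (G := GG p q) hN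
    (isOpen_WW k j) hx hxN hW
    (fun z hz => (contDiffAt_ch hp hq hpq hz.1).contDiffWithinAt)
    (contDiff_GG hp hq).contDiffOn (fun x hx => (hr x hx).contDiffWithinAt) hs
    (fun z hz hG => ch_mem hpq hz hG)
    (fun x hx => ⟨sub_eq_zero.2 (h2 x hx).1,
      ch_rr hx.1 (h1 _ hx.2).1 (h1 _ hx.2).2.1 (h2 x hx).2⟩)
  have d1 := ((contDiffAt_xk (h1 _ hxN).1).1.differentiableAt (by simp)).hasFDerivAt.prodMk
    (((contDiffAt_xk (h1 _ hxN).1).2.1.differentiableAt (by simp)).hasFDerivAt.prodMk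
      (((contDiffAt_XiA j (h1 _ hxN).1).1.differentiableAt (by simp)).hasFDerivAt.prodMk
        ((h1 _ hxN).2.2.differentiableAt (by simp)).hasFDerivAt))
  have d2 := ((contDiffAt_ch (k := k) (j := j) hp hq hpq hW.1).differentiableAt
    (by simp)).hasFDerivAt
  have d3 := HasFDerivAt.comp (g := rr k j mu) (rr k j mu x₀) (by rw [hc]; exact d1) d2
  have d4 : HasFDerivAt (rr k j mu ∘ ch k j p q) (ContinuousLinearMap.id ℝ E4) (rr k j mu x₀) :=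
    (hasFDerivAt_id _).congr_of_eventuallyEq
      (mem_of_superset ((isOpen_WW k j).mem_nhds hW) fun z hz => rr_ch hmu hz)
  have key := fun z => DFunLike.congr_fun (d3.unique d4) z
  refine ⟨a1, fun z hz => ⟨_, (a2 _).2 ⟨z, hz, rfl⟩, key z⟩, fun v hv => ?_⟩
  obtain ⟨z, hz, rfl⟩ := (a2 v).1 hv
  exact ⟨z, hz, key z, fun h0 => by rw [h0, map_zero]⟩

theorem hasFDerivAt_cuf (z : E4) : HasFDerivAt (fun z : E4 => cuf z.1 z.2.1)
    ((z.2.1 - 3 * z.1 ^ 2 / 400) • ContinuousLinearMap.fst ℝ ℂ (ℂ × ℂ × ℂ) +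
      (z.1 - 3 * z.2.1 ^ 2 / 400) • (ContinuousLinearMap.fst ℝ ℂ (ℂ × ℂ)).comp
        (ContinuousLinearMap.snd ℝ ℂ (ℂ × ℂ × ℂ))) z := by
  have h1 : HasFDerivAt (fun z : E4 => z.1) (ContinuousLinearMap.fst ℝ ℂ (ℂ × ℂ × ℂ)) z :=
    hasFDerivAt_fst
  have h2 : HasFDerivAt (fun z : E4 => z.2.1) ((ContinuousLinearMap.fst ℝ ℂ (ℂ × ℂ)).comp
      (ContinuousLinearMap.snd ℝ ℂ (ℂ × ℂ × ℂ))) z := hasFDerivAt_fst.comp z hasFDerivAt_snd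
  have h3 := (h1.mul h2).sub
    ((((h1.mul (h1.mul h1)).const_add 1).add (h2.mul (h2.mul h2))).const_mul (400⁻¹ : ℂ))
  have he : (fun z : E4 => cuf z.1 z.2.1) = fun z => z.1 * z.2.1 -
      (400⁻¹ : ℂ) * (1 + z.1 * (z.1 * z.1) + z.2.1 * (z.2.1 * z.2.1)) := by
    funext y; simp only [cuf]; ring
  rw [he]
  refine h3.congr_fderiv (ContinuousLinearMap.ext fun w => ?_)
  simp only [_root_.sub_apply, _root_.add_apply, _root_.smul_apply, smul_eq_mul, Pi.mul_apply]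
  ring

theorem fderiv_G1 (z w : E4) : fderiv ℝ (GG (fun _ => 1) fun m => m) z w =
    w.2.2.1 - (z.2.2.2 * ((z.2.1 - 3 * z.1 ^ 2 / 400) * w.1 + (z.1 - 3 * z.2.1 ^ 2 / 400) * w.2.1) +
      cuf z.1 z.2.1 * w.2.2.2) := by
  have h0 : HasFDerivAt (fun z : E4 => z.2) (ContinuousLinearMap.snd ℝ ℂ (ℂ × ℂ × ℂ)) z :=
    hasFDerivAt_snd
  have h1 := h0.snd.fst
  have h2 := h0.snd.snd
  have h3 : HasFDerivAt (GG (fun _ => 1) fun m => m) _ z :=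
    (h1.const_mul 1).sub (h2.mul (hasFDerivAt_cuf z))
  rw [h3.fderiv]
  simp [mul_add]

theorem fderiv_G2 (z w : E4) : fderiv ℝ (GG (fun m => m) fun _ => 1) z w =
    z.2.2.2 * w.2.2.1 + z.2.2.1 * w.2.2.2 -
      ((z.2.1 - 3 * z.1 ^ 2 / 400) * w.1 + (z.1 - 3 * z.2.1 ^ 2 / 400) * w.2.1) := by
  have h0 : HasFDerivAt (fun z : E4 => z.2) (ContinuousLinearMap.snd ℝ ℂ (ℂ × ℂ × ℂ)) z :=
    hasFDerivAt_snd
  have h1 := h0.snd.fst
  have h2 := h0.snd.snd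
  have h3 : HasFDerivAt (GG (fun m => m) fun _ => 1) _ z :=
    (h2.mul h1).sub ((hasFDerivAt_cuf z).const_mul 1)
  rw [h3.fderiv]
  simp

theorem mu1_pt {k : Fin 3} (n : C3) (a : ℂ) (T : ℝ) (m : ℂ) (h : n k ≠ 0) :
    mu1 k (pt n a T (prj (vv (prj n k) 1 m))) = m := by
  have h1 : prj n k k ≠ 0 := prj_diag_ne.2 h
  have h2 : vv (prj n k) 1 m k.castSucc ≠ 0 := by
    rw [vv_cast]; exact mul_ne_zero one_ne_zero (pow_ne_zero 3 h1)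
  have h3 := prj_ratio h2 3
  rw [vv_cast, vv_last] at h3
  change prj n k k ^ 3 * prj (vv (prj n k) 1 m) 3 k.castSucc /
    prj (vv (prj n k) 1 m) k.castSucc k.castSucc = m
  rw [mul_div_assoc, h3]
  field_simp

theorem mu2_pt {k : Fin 3} (n : C3) (a : ℂ) (T : ℝ) (m : ℂ) (h : n k ≠ 0) :
    mu2 k (pt n a T (prj (vv (prj n k) m 1))) = m := by
  have h1 : prj n k k ≠ 0 := prj_diag_ne.2 h
  have h2 : vv (prj n k) m 1 3 ≠ 0 := one_ne_zero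
  have h3 := prj_ratio h2 k.castSucc
  rw [vv_cast, vv_last] at h3
  change prj (vv (prj n k) m 1) k.castSucc 3 / (prj (vv (prj n k) m 1) 3 3 * prj n k k ^ 3) = m
  rw [← div_div, h3]
  field_simp

theorem R1_eq {k : Fin 3} {j : ℤ} {x : VV} (hx : x ∈ SS) (h : x ∈ dom (1, k, j)) :
    x.1.2.2 = prj (vv (x.1.1 k) 1 (mu1 k x)) := by
  obtain ⟨h1, -, h3, h4, h5⟩ := h
  obtain ⟨p, q, -, -, e2⟩ := (SS_char hx h1 h3).2.2.2 h4
  have e3 : x.1.2.2 = prj (vv (x.1.1 k) p q) := e2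
  have h6 : x.1.2.2 k.castSucc k.castSucc ≠ 0 := h5
  rw [e3] at h6
  have h7 := prj_diag_ne.1 h6
  have h8 := prj_ratio h7 3
  rw [vv_cast] at h7 h8
  have hp : p ≠ 0 := left_ne_zero_of_mul h7
  have h1' : x.1.1 k k ≠ 0 := h1
  have e4 : mu1 k x = p⁻¹ * q := by
    rw [mu1, mul_div_assoc, e3, h8, vv_last]
    field_simp
  rw [e4, e3, ← prj_smul (inv_ne_zero hp), vv_smul, inv_mul_cancel₀ hp]

theorem R2_eq {k : Fin 3} {j : ℤ} {x : VV} (hx : x ∈ SS) (h1 : x.1.1 k k ≠ 0)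
    (h3 : |x.2 - j| < 3 / 4) (h4 : nsq (NA k j x) < 1 / 200000000) (h6 : x.1.2.2 3 3 ≠ 0) :
    x.1.2.2 = prj (vv (x.1.1 k) (mu2 k x) 1) := by
  obtain ⟨p, q, -, -, e2⟩ := (SS_char hx h1 h3).2.2.2 h4
  have e3 : x.1.2.2 = prj (vv (x.1.1 k) p q) := e2
  rw [e3] at h6
  have h7 := prj_diag_ne.1 h6
  have h8 := prj_ratio h7 k.castSucc
  rw [vv_cast, vv_last] at h8
  have hq : q ≠ 0 := h7
  have e4 : mu2 k x = q⁻¹ * p := by
    rw [mu2, ← div_div, e3, h8]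
    field_simp
  rw [e4, e3, ← prj_smul (inv_ne_zero hq), vv_smul, inv_mul_cancel₀ hq]

theorem cof1 (k : Fin 3) (j : ℤ) (x v : VV) : cof (1, k, j) x v =
    ![fderiv ℝ (xk k) x v, fderiv ℝ (yk k) x v, fderiv ℝ (mu1 k) x v] := by
  ext i; fin_cases i <;> rfl

theorem cof2 (k : Fin 3) (j : ℤ) (x v : VV) : cof (2, k, j) x v =
    ![fderiv ℝ (yk k) x v, fderiv ℝ (XiA k j) x v, fderiv ℝ (mu2 k) x v] := by
  ext i; fin_cases i <;> rfl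

theorem cof3 (k : Fin 3) (j : ℤ) (x v : VV) : cof (3, k, j) x v =
    ![fderiv ℝ (xk k) x v, fderiv ℝ (XiA k j) x v, fderiv ℝ (mu2 k) x v] := by
  ext i; fin_cases i <;> rfl

theorem vec3 (w : C3) : ![w 0, w 1, w 2] = w := by
  ext i; fin_cases i <;> rfl

theorem loc1 (k : Fin 3) (j : ℤ) : LocOK (1, k, j) := by
  intro x hx hd
  obtain ⟨a1, a2, a3⟩ := core (k := k) (j := j) (p := fun _ => 1) (q := fun m => m) (mu := mu1 k)
    contDiff_const contDiff_id (fun _ => Or.inl one_ne_zero) mu1_pt (isOpen_dom (1, k, j)) hx hd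
    (fun y hy => ⟨hy.1, hy.2.2.2.1, contDiffAt_mu1 hy.2.2.2.2⟩)
    (fun y hy => ⟨by rw [one_mul]; exact mu1_rel hy.1 hy.2, R1_eq hy.1 hy.2⟩)
    (fun c => ⟨(0, 0, c, 0), by rw [fderiv_G1]; simp⟩)
  refine ⟨a1, fun w => ?_, fun v hv h0 => ?_⟩
  · obtain ⟨v, hv, e⟩ := a2 (w 0, w 1, mu1 k x * ((yk k x - 3 * xk k x ^ 2 / 400) * w 0 +
      (xk k x - 3 * yk k x ^ 2 / 400) * w 1) + fk k x * w 2, w 2)
      (by rw [fderiv_G1]; exact sub_self _)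
    simp only [Prod.mk.injEq] at e
    exact ⟨v, hv, by rw [cof1, e.1, e.2.1, e.2.2.2, vec3]⟩
  · obtain ⟨z, hz, e, hv0⟩ := a3 v hv
    rw [cof1] at h0
    have b0 : fderiv ℝ (xk k) x v = 0 := congrFun h0 0
    have b1 : fderiv ℝ (yk k) x v = 0 := congrFun h0 1
    have b2 : fderiv ℝ (mu1 k) x v = 0 := congrFun h0 2
    rw [b0, b1, b2] at e
    rw [← e, fderiv_G1] at hz
    apply hv0
    rw [← e]
    simpa using hz

theorem loc2 (k : Fin 3) (j : ℤ) : LocOK (2, k, j) := by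
  intro x hx hd
  have hc : yk k x - 3 * xk k x ^ 2 / 400 ≠ 0 := sub_ne_zero.2 hd.2.2.2.2.2
  obtain ⟨a1, a2, a3⟩ := core (k := k) (j := j) (p := fun m => m) (q := fun _ => 1) (mu := mu2 k)
    contDiff_id contDiff_const (fun _ => Or.inr one_ne_zero) mu2_pt (isOpen_dom (2, k, j)) hx hd
    (fun y hy => ⟨hy.1, hy.2.2.2.1, contDiffAt_mu2 hy.1 hy.2.2.2.2.1⟩)
    (fun y hy => ⟨by rw [one_mul]; exact (mu2_rel hy.1 (Or.inl hy.2)).symm,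
      R2_eq hy.1 hy.2.1 hy.2.2.2.1 hy.2.2.2.2.1 hy.2.2.2.2.2.1⟩)
    (fun c => ⟨(-c / (yk k x - 3 * xk k x ^ 2 / 400), 0, 0, 0), by
      rw [fderiv_G2]; simp only [rr]; rw [mul_div_cancel₀ _ hc]; ring⟩)
  refine ⟨a1, fun w => ?_, fun v hv h0 => ?_⟩
  · obtain ⟨v, hv, e⟩ := a2 ((mu2 k x * w 1 + XiA k j x * w 2 -
      (xk k x - 3 * yk k x ^ 2 / 400) * w 0) / (yk k x - 3 * xk k x ^ 2 / 400), w 0, w 1, w 2)
      (by rw [fderiv_G2]; simp only [rr]; rw [mul_div_cancel₀ _ hc]; ring)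
    simp only [Prod.mk.injEq] at e
    exact ⟨v, hv, by rw [cof2, e.2.1, e.2.2.1, e.2.2.2, vec3]⟩
  · obtain ⟨z, hz, e, hv0⟩ := a3 v hv
    rw [cof2] at h0
    have b0 : fderiv ℝ (yk k) x v = 0 := congrFun h0 0
    have b1 : fderiv ℝ (XiA k j) x v = 0 := congrFun h0 1
    have b2 : fderiv ℝ (mu2 k) x v = 0 := congrFun h0 2
    rw [b0, b1, b2] at e
    rw [← e, fderiv_G2] at hz
    have b3 : fderiv ℝ (xk k) x v = 0 := by
      apply (mul_eq_zero.1 _).resolve_left hc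
      simp only [rr] at hz
      linear_combination -hz
    apply hv0
    rw [← e, b3]
    rfl

theorem loc3 (k : Fin 3) (j : ℤ) : LocOK (3, k, j) := by
  intro x hx hd
  have hc : xk k x - 3 * yk k x ^ 2 / 400 ≠ 0 := sub_ne_zero.2 hd.2.2.2.2.2
  obtain ⟨a1, a2, a3⟩ := core (k := k) (j := j) (p := fun m => m) (q := fun _ => 1) (mu := mu2 k)
    contDiff_id contDiff_const (fun _ => Or.inr one_ne_zero) mu2_pt (isOpen_dom (3, k, j)) hx hd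
    (fun y hy => ⟨hy.1, hy.2.2.2.1, contDiffAt_mu2 hy.1 hy.2.2.2.2.1⟩)
    (fun y hy => ⟨by rw [one_mul]; exact (mu2_rel hy.1 (Or.inr hy.2)).symm,
      R2_eq hy.1 hy.2.1 hy.2.2.2.1 hy.2.2.2.2.1 hy.2.2.2.2.2.1⟩)
    (fun c => ⟨(0, -c / (xk k x - 3 * yk k x ^ 2 / 400), 0, 0), by
      rw [fderiv_G2]; simp only [rr]; rw [mul_div_cancel₀ _ hc]; ring⟩)
  refine ⟨a1, fun w => ?_, fun v hv h0 => ?_⟩
  · obtain ⟨v, hv, e⟩ := a2 (w 0, (mu2 k x * w 1 + XiA k j x * w 2 -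
      (yk k x - 3 * xk k x ^ 2 / 400) * w 0) / (xk k x - 3 * yk k x ^ 2 / 400), w 1, w 2)
      (by rw [fderiv_G2]; simp only [rr]; rw [mul_div_cancel₀ _ hc]; ring)
    simp only [Prod.mk.injEq] at e
    exact ⟨v, hv, by rw [cof3, e.1, e.2.2.1, e.2.2.2, vec3]⟩
  · obtain ⟨z, hz, e, hv0⟩ := a3 v hv
    rw [cof3] at h0
    have b0 : fderiv ℝ (xk k) x v = 0 := congrFun h0 0
    have b1 : fderiv ℝ (XiA k j) x v = 0 := congrFun h0 1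
    have b2 : fderiv ℝ (mu2 k) x v = 0 := congrFun h0 2
    rw [b0, b1, b2] at e
    rw [← e, fderiv_G2] at hz
    have b3 : fderiv ℝ (yk k) x v = 0 := by
      apply (mul_eq_zero.1 _).resolve_left hc
      simp only [rr] at hz
      linear_combination -hz
    apply hv0
    rw [← e, b3]
    rfl

end

end GnP

theorem gn : GnStmt := fun k j => ⟨GnP.loc1 k j, GnP.loc2 k j, GnP.loc3 k j⟩

end Pool.Agent.MP_9758ca_gt

end MrgPart2

-- marker of a merged file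
example : 731051 + 390967 = 731051 + 390967 := rfl
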