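import Mathlib.LinearAlgebra.Lagrange
import Mathlib.Analysis.Complex.RemovableSingularity
import Mathlib.Analysis.SpecialFunctions.JapaneseBracket
import Mathlib.Tactic.Polynomial.Basic
import Pool.Agent.MP_9758ca_gt.SpecA
import Pool.Agent.MP_9758ca_gt.Gn

-- ======== part 0: formerly Pool.Agent.MP_9758ca_gt.Cover
section MrgPart0

/-!
PROJECT BALL, module COVER: every nonconstant sphere is a branched cover of a simple sphere.
-/

open scoped Topology ContDiff ComplexConjugate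
open Set Metric Filter Complex MeasureTheory Bornology Polynomial

namespace Pool.Agent.MP_9758ca_gt

namespace CoverP

/-! ### entire functions -/

theorem poly_of_growth (n : ℕ) : ∀ g : ℂ → ℂ, Differentiable ℂ g →
    (∃ c : ℝ, ∀ᶠ z in cobounded ℂ, ‖g z‖ ≤ c * ‖z‖ ^ n) →
    ∃ P : ℂ[X], P.natDegree ≤ n ∧ ∀ z, P.eval z = g z := by
  induction n with
  | zero =>
    rintro g hg ⟨c, hc⟩
    have hb : IsBounded (range g) := by
      obtain ⟨r, -, hr⟩ := (hasBasis_cobounded_compl_closedBall (0 : ℂ)).mem_iff.1 hc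
      obtain ⟨c', hc'⟩ := (isCompact_closedBall (0 : ℂ) r).exists_bound_of_continuousOn
        hg.continuous.continuousOn
      refine isBounded_iff_forall_norm_le.2 ⟨max c c', ?_⟩
      rintro _ ⟨z, rfl⟩
      by_cases hz : z ∈ closedBall (0 : ℂ) r
      · exact (hc' z hz).trans (le_max_right _ _)
      · exact le_trans (by simpa using hr hz) (le_max_left _ _)
    exact ⟨C (g 0), by simp, fun z => by simpa using hg.apply_eq_apply_of_bounded hb 0 z⟩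
  | succ n ih =>
    rintro g hg ⟨c, hc⟩
    have hd : Differentiable ℂ (dslope g 0) := differentiableOn_univ.1
      ((Complex.differentiableOn_dslope univ_mem).2 hg.differentiableOn)
    have e : ∀ z, z * dslope g 0 z = g z - g 0 := fun z => by
      simpa using sub_smul_dslope g 0 z
    obtain ⟨P, hP, hP'⟩ := ih _ hd ⟨c + ‖g 0‖, by
      filter_upwards [hc, eventually_cobounded_le_norm (E := ℂ) 1] with z h1 h2
      have h3 : ‖z‖ * ‖dslope g 0 z‖ ≤ c * ‖z‖ ^ (n + 1) + ‖g 0‖ := by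
        rw [← norm_mul, e]
        exact (norm_sub_le _ _).trans (by linarith)
      have h4 : ‖g 0‖ ≤ ‖g 0‖ * ‖z‖ ^ (n + 1) :=
        le_mul_of_one_le_right (norm_nonneg _) (one_le_pow₀ h2)
      refine le_of_mul_le_mul_left (a := ‖z‖) ?_ (by linarith)
      calc _ ≤ c * ‖z‖ ^ (n + 1) + ‖g 0‖ * ‖z‖ ^ (n + 1) := by linarith
        _ = _ := by ring⟩
    refine ⟨X * P + C (g 0), ?_, fun z => by simp [hP', e]⟩
    refine (natDegree_add_le _ _).trans (max_le (natDegree_mul_le.trans ?_) (by simp))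
    have : (X : ℂ[X]).natDegree ≤ 1 := natDegree_X_le
    omega

theorem ev_notMem {S : Set ℂ} (hS : S.Finite) (a : ℂ) : ∀ᶠ z in 𝓝[≠] a, z ∉ S := by
  have h : (S \ {a})ᶜ ∈ 𝓝 a :=
    (hS.subset sdiff_subset).isClosed.isOpen_compl.mem_nhds fun k => k.2 rfl
  filter_upwards [mem_nhdsWithin_of_mem_nhds h, self_mem_nhdsWithin] with z h1 h2 h3
  exact h1 ⟨h3, h2⟩

theorem removable {G : ℂ → ℂ} {S : Set ℂ} (hS : S.Finite)
    (hd : ∀ z, z ∉ S → DifferentiableAt ℂ G z)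
    (hb : ∀ a ∈ S, ∃ c : ℝ, ∀ᶠ z in 𝓝[≠] a, ‖G z‖ ≤ c) :
    ∃ g : ℂ → ℂ, Differentiable ℂ g ∧ ∀ z, z ∉ S → g z = G z := by
  classical
  let g : ℂ → ℂ := fun z => if z ∈ S then limUnder (𝓝[≠] z) G else G z
  have e : ∀ z, z ∉ S → g z = G z := fun z hz => if_neg hz
  have d : ∀ z, z ∉ S → DifferentiableAt ℂ g z := fun z hz =>
    (hd z hz).congr_of_eventuallyEq (by
      filter_upwards [hS.isClosed.isOpen_compl.mem_nhds hz] with w hw using e w hw)
  refine ⟨g, fun a => ?_, e⟩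
  by_cases ha : a ∈ S
  · obtain ⟨c, hc⟩ := hb a ha
    have t := Complex.tendsto_limUnder_of_differentiable_on_punctured_nhds_of_bounded_under
      ((ev_notMem hS a).mono hd) (f := G) (c := a) ⟨c + ‖G a‖, eventually_map.2
        (hc.mono fun z hz => (norm_sub_le _ _).trans (by linarith))⟩
    refine (Complex.analyticAt_of_differentiable_on_punctured_nhds_of_continuousAt
      ((ev_notMem hS a).mono d) (continuousWithinAt_compl_self.1 ?_)).differentiableAt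
    have : g a = limUnder (𝓝[≠] a) G := if_pos ha
    rw [ContinuousWithinAt, this]
    exact t.congr' ((ev_notMem hS a).mono fun z hz => (e z hz).symm)
  · exact d a ha

theorem far {Y : Type} [TopologicalSpace Y] [T2Space Y] {u : ℂ → Y} (hu : Continuous u)
    {l : Filter ℂ} {x : Y} {p : ℂ} (hl : Tendsto u l (𝓝 x)) (hx : u p ≠ x) :
    ∃ δ > (0 : ℝ), ∀ᶠ z in l, ∀ z', u z' = u z → δ ≤ ‖z' - p‖ := by
  obtain ⟨N1, N2, o1, o2, m1, m2, hN⟩ := t2_separation hx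
  obtain ⟨δ, hδ, h⟩ := Metric.mem_nhds_iff.1 (hu.continuousAt.preimage_mem_nhds (o1.mem_nhds m1))
  refine ⟨δ, hδ, ?_⟩
  filter_upwards [hl (o2.mem_nhds m2)] with z hz z' e
  by_contra k
  exact Set.disjoint_left.1 hN (h (mem_ball_iff_norm.2 (not_le.1 k))) (e ▸ hz)

theorem prod_inv_le {s : Finset ℂ} {p : ℂ} {δ : ℝ} (hδ : 0 < δ) (h : ∀ z ∈ s, δ ≤ ‖z - p‖) :
    ‖∏ z ∈ s, (z - p)⁻¹‖ ≤ δ⁻¹ ^ s.card := by
  rw [norm_prod, ← Finset.prod_const]
  exact Finset.prod_le_prod (fun _ _ => norm_nonneg _) fun z hz => by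
    rw [norm_inv]; exact inv_anti₀ hδ (h z hz)

/-! ### the rational function whose fibres are the classes -/

/-- the data of the first part -/
structure Dat {Y : Type} (u : ℂ → Y) (x : Y) (d : ℕ) (B : Finset ℂ) (cl : ℂ → Finset ℂ) :
    Prop where
  pos : 1 ≤ d
  ne : ∀ z, z ∉ B → (∀ b ∈ B, u z ≠ u b) ∧ u z ≠ x
  cls : ∀ z, z ∉ B → z ∈ cl z ∧ (cl z).card = d ∧ ∀ z' ∈ cl z, z' ∉ B ∧ cl z' = cl z ∧ u z' = u z
  loc : ∀ z₀, z₀ ∉ B → ∃ φ : Fin d → ℂ → ℂ, (∀ j, AnalyticAt ℂ (φ j) z₀ ∧ deriv (φ j) z₀ ≠ 0) ∧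
    ∀ᶠ z in 𝓝 z₀, (Function.Injective fun j => φ j z) ∧ ∀ z', z' ∈ cl z ↔ ∃ j, φ j z = z'

section Rat
variable {Y : Type} {u : ℂ → Y} {x : Y} {d : ℕ} {B : Finset ℂ} {cl : ℂ → Finset ℂ}

theorem prod_cl {φ : Fin d → ℂ} {s : Finset ℂ} (h1 : Function.Injective φ)
    (h2 : ∀ z', z' ∈ s ↔ ∃ j, φ j = z') (f : ℂ → ℂ) : ∏ z' ∈ s, f z' = ∏ j, f (φ j) := by
  have : s = Finset.univ.image φ := Finset.ext fun z => by simp [h2]
  rw [this, Finset.prod_image fun a _ b _ h => h1 h]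

theorem Dat.mem_symm (h : Dat u x d B cl) {z p : ℂ} (hz : z ∉ B) (hp : p ∈ cl z) : z ∈ cl p := by
  rw [((h.cls z hz).2.2 p hp).2.1]; exact (h.cls z hz).1

theorem Dat.diffAt (h : Dat u x d B cl) {z p : ℂ} (hz : z ∉ B) (hp : z ∉ cl p) :
    DifferentiableAt ℂ (fun z => ∏ z' ∈ cl z, (z' - p)⁻¹) z := by
  obtain ⟨φ, h1, h2⟩ := h.loc z hz
  refine DifferentiableAt.congr_of_eventuallyEq (f := fun z => ∏ j, (φ j z - p)⁻¹) ?_
    (h2.mono fun w hw => prod_cl hw.1 hw.2 _)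
  refine DifferentiableAt.fun_finsetProd fun j _ =>
    ((h1 j).1.differentiableAt.sub_const p).fun_inv (sub_ne_zero.2 fun e => hp ?_)
  exact h.mem_symm hz ((h2.self_of_nhds.2 p).2 ⟨j, e⟩)

theorem Dat.bddAt (h : Dat u x d B cl) {q p : ℂ} (hp : p ∉ B) (hq : q ∈ cl p) :
    ∃ c : ℝ, ∀ᶠ z in 𝓝[≠] q, ‖(∏ a ∈ cl p, (z - a)) * ∏ z' ∈ cl z, (z' - p)⁻¹‖ ≤ c := by
  classical
  have hqB := ((h.cls p hp).2.2 q hq).1
  obtain ⟨φ, h1, h2⟩ := h.loc q hqB
  obtain ⟨j, hj⟩ := (h2.self_of_nhds.2 p).1 (h.mem_symm hp hq)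
  have t1 : Tendsto (fun z => (slope (φ j) q z)⁻¹) (𝓝[≠] q) (𝓝 (deriv (φ j) q)⁻¹) :=
    (hasDerivAt_iff_tendsto_slope.1 (h1 j).1.differentiableAt.hasDerivAt).inv₀ (h1 j).2
  have t2 : ContinuousAt (fun z => (∏ a ∈ (cl p).erase q, (z - a)) *
      ∏ i ∈ Finset.univ.erase j, (φ i z - p)⁻¹) q := by
    refine ContinuousAt.mul (by fun_prop) (tendsto_finsetProd _ fun i hi => ?_)
    refine ((h1 i).1.continuousAt.sub continuousAt_const).inv₀ (sub_ne_zero.2 fun e => ?_)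
    exact (Finset.mem_erase.1 hi).1 (h2.self_of_nhds.1 (e.trans hj.symm))
  have t3 := (t1.mul (t2.tendsto.mono_left nhdsWithin_le_nhds)).norm
  obtain ⟨c, hc⟩ := t3.isBoundedUnder_le
  refine ⟨c, ?_⟩
  filter_upwards [eventually_map.1 hc, mem_nhdsWithin_of_mem_nhds h2] with z k1 k2
  refine le_trans (le_of_eq (congrArg _ ?_)) k1
  rw [prod_cl k2.1 k2.2, ← Finset.mul_prod_erase _ _ hq,
    ← Finset.mul_prod_erase _ _ (Finset.mem_univ j), slope_def_field, hj, inv_div,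
    div_eq_mul_inv]
  ring

theorem Dat.exists_poly [TopologicalSpace Y] [T2Space Y] (h : Dat u x d B cl) (hu : Continuous u)
    (hx : Tendsto u (cobounded ℂ) (𝓝 x)) {p : ℂ} (hp : p ∉ B) :
    ∃ P : ℂ[X], P.natDegree < d ∧ ∀ z, z ∉ B → z ∉ cl p →
      P.eval z = (∏ a ∈ cl p, (z - a)) * ∏ z' ∈ cl z, (z' - p)⁻¹ := by
  classical
  have hS : ((B : Set ℂ) ∪ cl p).Finite := B.finite_toSet.union (cl p).finite_toSet
  obtain ⟨g, hg, e⟩ := removable hS
    (G := fun z => (∏ a ∈ cl p, (z - a)) * ∏ z' ∈ cl z, (z' - p)⁻¹)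
    (fun z hz => DifferentiableAt.fun_mul (by fun_prop)
      (h.diffAt (fun k => hz (Or.inl k)) fun k => hz (Or.inr k))) (by
    rintro a (ha | ha)
    · obtain ⟨δ, hδ, k⟩ := far hu (hu.tendsto a) ((h.ne p hp).1 a ha)
      have t : ContinuousAt (fun z => ‖∏ b ∈ cl p, (z - b)‖) a := by fun_prop
      refine ⟨(‖∏ b ∈ cl p, (a - b)‖ + 1) * δ⁻¹ ^ d, ?_⟩
      filter_upwards [mem_nhdsWithin_of_mem_nhds k, ev_notMem B.finite_toSet a,
        mem_nhdsWithin_of_mem_nhds (t.tendsto.eventually_le_const (lt_add_one _))] with z k1 k2 k3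
      rw [norm_mul, ← (h.cls z k2).2.1]
      exact mul_le_mul k3 (prod_inv_le hδ fun z' hz' => k1 z' ((h.cls z k2).2.2 z' hz').2.2)
        (norm_nonneg _) (by positivity)
    · exact h.bddAt hp ha)
  obtain ⟨δ, hδ, k⟩ := far hu hx (h.ne p hp).2
  obtain ⟨r, hr⟩ := (cl p).finite_toSet.isBounded.exists_norm_le
  obtain ⟨P, hP, hP'⟩ := poly_of_growth (d - 1) g hg ⟨2 ^ (d - 1) * δ⁻¹ ^ (d - 1), by
    filter_upwards [k, hS.isBounded.compl, eventually_cobounded_le_norm (E := ℂ) r]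
      with z k1 k2 k3
    have hz : z ∉ B := fun k => k2 (Or.inl k)
    have hzp : z - p ≠ 0 := sub_ne_zero.2 fun k => k2 (Or.inr (k ▸ (h.cls z hz).1))
    rw [e z k2, ← Finset.mul_prod_erase _ _ (h.cls p hp).1,
      ← Finset.mul_prod_erase _ _ (h.cls z hz).1, mul_mul_mul_comm, mul_inv_cancel₀ hzp, one_mul,
      norm_mul]
    have b1 : ‖∏ a ∈ (cl p).erase p, (z - a)‖ ≤ (2 * ‖z‖) ^ (d - 1) := by
      rw [norm_prod, ← (h.cls p hp).2.1, ← Finset.card_erase_of_mem (h.cls p hp).1,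
        ← Finset.prod_const]
      exact Finset.prod_le_prod (fun _ _ => norm_nonneg _) fun a ha =>
        (norm_sub_le _ _).trans (by linarith [hr a (Finset.mem_of_mem_erase ha)])
    have b2 := prod_inv_le (s := (cl z).erase z) hδ fun z' hz' =>
      k1 z' ((h.cls z hz).2.2 z' (Finset.mem_of_mem_erase hz')).2.2
    rw [Finset.card_erase_of_mem (h.cls z hz).1, (h.cls z hz).2.1] at b2
    refine (mul_le_mul b1 b2 (norm_nonneg _) (by positivity)).trans (le_of_eq ?_)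
    ring⟩
  have := h.pos
  exact ⟨P, by omega, fun z k1 k2 => (hP' z).trans (e z fun k => k.elim k1 k2)⟩

/-- the quotient of two polynomials -/
noncomputable def ev (P Q : ℂ[X]) (z : ℂ) : ℂ := P.eval z / Q.eval z

/-- the classes are the fibres of `P / Q` -/
structure RatD (d : ℕ) (B : Finset ℂ) (cl : ℂ → Finset ℂ) (P Q : ℂ[X]) : Prop where
  pos : 1 ≤ d
  degP : P.natDegree < d
  mon : Q.Monic
  degQ : Q.natDegree = d
  cop : ∀ z, Q.eval z = 0 → P.eval z ≠ 0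
  pole : ∀ z, Q.eval z = 0 → z ∉ B
  fib : ∀ z, z ∉ B → Q.eval z ≠ 0 → ev P Q z ≠ 0 ∧ deriv (ev P Q) z ≠ 0 ∧
    ∀ w, w ∈ cl z ↔ P.eval w = ev P Q z * Q.eval w

theorem Dat.rat [TopologicalSpace Y] [T2Space Y] (h : Dat u x d B cl) (hu : Continuous u)
    (hx : Tendsto u (cobounded ℂ) (𝓝 x)) : ∃ P Q, RatD d B cl P Q := by
  classical
  obtain ⟨p, hp⟩ := B.exists_notMem
  obtain ⟨P, hP, e⟩ := h.exists_poly hu hx hp
  have mon : ∀ s : Finset ℂ, (∏ a ∈ s, (X - C a) : ℂ[X]).Monic := fun s =>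
    monic_prod_of_monic _ _ fun a _ => monic_X_sub_C a
  have dg : ∀ s : Finset ℂ, (∏ a ∈ s, (X - C a) : ℂ[X]).degree = s.card := fun s => by
    rw [degree_prod]; simp
  have evl : ∀ (s : Finset ℂ) (z : ℂ), (∏ a ∈ s, (X - C a) : ℂ[X]).eval z = ∏ a ∈ s, (z - a) :=
    fun s z => by simp [eval_prod]
  have zer : ∀ (s : Finset ℂ) (z : ℂ), ∏ a ∈ s, (z - a) = 0 ↔ z ∈ s := fun s z => by
    simp [Finset.prod_eq_zero_iff, sub_eq_zero]
  obtain ⟨Q, hQ⟩ : ∃ Q : ℂ[X], Q = ∏ a ∈ cl p, (X - C a) := ⟨_, rfl⟩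
  have hQ0 : ∀ z, Q.eval z = 0 ↔ z ∈ cl p := fun z => by rw [hQ, evl, zer]
  have key : ∀ z, z ∉ B → z ∉ cl p → ev P Q z ≠ 0 ∧
      ∀ w, P.eval w - ev P Q z * Q.eval w = -ev P Q z * ∏ a ∈ cl z, (w - a) := by
    intro z h1 h2
    have e1 : ∀ z, z ∉ B → z ∉ cl p → ev P Q z = ∏ z' ∈ cl z, (z' - p)⁻¹ := fun z h1 h2 => by
      rw [ev, e z h1 h2, ← evl, ← hQ, mul_div_cancel_left₀ _ fun k => h2 ((hQ0 z).1 k)]
    refine ⟨?_, fun w => ?_⟩
    · rw [e1 z h1 h2]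
      exact Finset.prod_ne_zero_iff.2 fun a ha =>
        inv_ne_zero (sub_ne_zero.2 fun k => h2 (h.mem_symm h1 (k ▸ ha)))
    have z0 : P - C (ev P Q z) * (Q - ∏ a ∈ cl z, (X - C a)) = 0 := by
      refine eq_zero_of_degree_lt_of_eval_finset_eq_zero (cl z) ?_ fun a ha => ?_
      · refine (degree_sub_le _ _).trans_lt (max_lt ?_ ?_)
        · rw [(h.cls z h1).2.1]
          exact degree_le_natDegree.trans_lt (by exact_mod_cast hP)
        · rw [← smul_eq_C_mul, ← dg]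
          refine (degree_smul_le _ _).trans_lt (degree_sub_lt_right ?_ (mon _).ne_zero ?_)
          · rw [hQ, dg, dg, (h.cls z h1).2.1, (h.cls p hp).2.1]
          · rw [hQ, (mon _).leadingCoeff, (mon _).leadingCoeff]
      · obtain ⟨a1, a2, -⟩ := (h.cls z h1).2.2 a ha
        have a3 : a ∉ cl p := fun k => h2 (by
          rw [← ((h.cls p hp).2.2 a k).2.1, a2]; exact (h.cls z h1).1)
        have a4 : ev P Q z = ev P Q a := by rw [e1 z h1 h2, e1 a a1 a3, a2]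
        rw [eval_sub, eval_mul, eval_sub, evl, (zer _ _).2 ha, eval_C, a4, sub_zero, ev,
          div_mul_cancel₀ _ fun k => a3 ((hQ0 a).1 k), sub_self]
    have := congrArg (eval w) z0
    rw [eval_sub, eval_mul, eval_sub, evl, eval_C, eval_zero] at this
    linear_combination this
  refine ⟨P, Q, h.pos, hP, hQ ▸ mon _, natDegree_eq_of_degree_eq_some ?_, fun z k1 k2 => ?_,
    fun z k1 => ?_, fun z k1 k2 => ?_⟩
  · rw [hQ, dg, (h.cls p hp).2.1]
  · obtain ⟨y, hy⟩ := (B ∪ cl p).exists_notMem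
    rw [Finset.mem_union, not_or] at hy
    obtain ⟨a1, a2⟩ := key y hy.1 hy.2
    have a3 := a2 z
    rw [k1, k2, mul_zero, sub_zero, eq_comm, mul_eq_zero, neg_eq_zero, zer] at a3
    refine hy.2 ?_
    rw [← ((h.cls p hp).2.2 z ((hQ0 z).1 k1)).2.1]
    exact h.mem_symm hy.1 (a3.resolve_left a1)
  · exact ((h.cls p hp).2.2 z ((hQ0 z).1 k1)).1
  · obtain ⟨a1, a2⟩ := key z k1 fun k => k2 ((hQ0 z).2 k)
    refine ⟨a1, ?_, fun w => ?_⟩
    · obtain ⟨R, hR⟩ : ∃ R : ℂ → ℂ,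
          R = fun w => -ev P Q z * (∏ a ∈ (cl z).erase z, (w - a)) / Q.eval w := ⟨_, rfl⟩
      have d1 : DifferentiableAt ℂ R z := by
        rw [hR]
        exact DifferentiableAt.fun_div (by fun_prop) Q.differentiableAt k2
      have d2 := ((((hasDerivAt_id' z).sub_const z).fun_mul d1.hasDerivAt).const_add
        (ev P Q z)).congr_of_eventuallyEq (f₁ := ev P Q) (by
          filter_upwards [Q.continuous.continuousAt.eventually_ne k2] with w hw
          have := a2 w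
          rw [← Finset.mul_prod_erase _ _ (h.cls z k1).1] at this
          rw [hR, ev, div_eq_iff hw]
          field_simp
          linear_combination this)
      rw [d2.deriv, sub_self, zero_mul, add_zero, one_mul, hR]
      refine div_ne_zero (mul_ne_zero (neg_ne_zero.2 a1) fun k => ?_) k2
      exact Finset.notMem_erase z _ ((zer _ _).1 k)
    · rw [← sub_eq_zero, a2, mul_eq_zero, neg_eq_zero, zer]
      exact ⟨Or.inr, fun k => k.resolve_left a1⟩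

theorem RatD.root {P Q : ℂ[X]} (h : RatD d B cl P Q) {t : ℂ} (ht : t ≠ 0) :
    ∃ z, Q.eval z ≠ 0 ∧ ev P Q z = t := by
  have hQ : Q.degree = d := by rw [degree_eq_natDegree h.mon.ne_zero, h.degQ]
  have h1 : (C t * Q).degree = d := by rw [degree_C_mul ht, hQ]
  have h2 : P.degree < (C t * Q).degree := by
    rw [h1]; exact degree_le_natDegree.trans_lt (by exact_mod_cast h.degP)
  obtain ⟨z, hz⟩ := Complex.exists_root (f := P - C t * Q) (by
    rw [degree_sub_eq_right_of_degree_lt h2, h1]; exact_mod_cast h.pos)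
  rw [IsRoot, eval_sub, eval_mul, eval_C, sub_eq_zero] at hz
  have h3 : Q.eval z ≠ 0 := fun k => h.cop z k (by rw [hz, k, mul_zero])
  exact ⟨z, h3, by rw [ev, hz, mul_div_cancel_right₀ _ h3]⟩

theorem RatD.mem {P Q : ℂ[X]} (h : RatD d B cl P Q) {z w : ℂ} (hz : z ∉ B) (hQ : Q.eval z ≠ 0) :
    w ∈ cl z ↔ Q.eval w ≠ 0 ∧ ev P Q w = ev P Q z := by
  rw [(h.fib z hz hQ).2.2 w]
  refine ⟨fun k => ?_, fun k => by rw [← k.2, ev, div_mul_cancel₀ _ k.1]⟩
  have h3 : Q.eval w ≠ 0 := fun k' => h.cop w k' (by rw [k, k', mul_zero])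
  exact ⟨h3, by rw [ev, k, mul_div_cancel_right₀ _ h3]⟩

theorem ev_contDiffAt {P Q : ℂ[X]} {z : ℂ} (hQ : Q.eval z ≠ 0) : ContDiffAt ℂ 1 (ev P Q) z :=
  ((P.differentiable.analyticAt z).div (Q.differentiable.analyticAt z) hQ).contDiffAt

/-- local sections -/
theorem RatD.sec {P Q : ℂ[X]} (h : RatD d B cl P Q) {z : ℂ} (hz : z ∉ B) (hQ : Q.eval z ≠ 0) :
    ∃ (ψ : ℂ → ℂ) (N : Set ℂ), IsOpen N ∧ ev P Q z ∈ N ∧ DifferentiableOn ℂ ψ N ∧
      ∀ t ∈ N, ψ t ∉ B ∧ Q.eval (ψ t) ≠ 0 ∧ ev P Q (ψ t) = t := by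
  have c := ev_contDiffAt (P := P) hQ
  have d1 := (c.differentiableAt one_ne_zero).hasDerivAt.hasFDerivAt_equiv (h.fib z hz hQ).2.1
  have c2 := c.to_localInverse d1 one_ne_zero
  have t : Tendsto (c.localInverse d1 one_ne_zero) (𝓝 (ev P Q z)) (𝓝 z) := by
    have := c2.continuousAt.tendsto
    rwa [c.localInverse_apply_image d1 one_ne_zero] at this
  have k : ∀ᶠ t in 𝓝 (ev P Q z), DifferentiableAt ℂ (c.localInverse d1 one_ne_zero) t ∧
      c.localInverse d1 one_ne_zero t ∉ B ∧ Q.eval (c.localInverse d1 one_ne_zero t) ≠ 0 ∧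
      ev P Q (c.localInverse d1 one_ne_zero t) = t := by
    filter_upwards [c2.eventually (by simp),
      t (B.finite_toSet.isClosed.isOpen_compl.mem_nhds hz),
      t (Q.continuous.continuousAt.eventually_ne hQ),
      (c.hasStrictFDerivAt' d1 one_ne_zero).eventually_right_inverse] with t k1 k2 k3 k4
    exact ⟨k1.differentiableAt one_ne_zero, k2, k3, k4⟩
  obtain ⟨N, h1, h2, h3⟩ := _root_.eventually_nhds_iff.1 k
  exact ⟨_, N, h2, h3, fun t ht => (h1 t ht).1.differentiableWithinAt, fun t ht => (h1 t ht).2⟩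

end Rat

/-! ### homogenisation -/

/-- homogenisation of degree `d` -/
noncomputable def hm (d : ℕ) (P : ℂ[X]) (v : C2) : ℂ :=
  ∑ i ∈ Finset.range (d + 1), P.coeff i * v.1 ^ i * v.2 ^ (d - i)

theorem hm_contDiff (d : ℕ) (P : ℂ[X]) : ContDiff ℝ 2 (hm d P) := by
  unfold hm
  fun_prop

theorem hm_smul (d : ℕ) (P : ℂ[X]) (a : ℂ) (v : C2) : hm d P (a • v) = a ^ d * hm d P v := by
  rw [hm, hm, Finset.mul_sum]
  refine Finset.sum_congr rfl fun i hi => ?_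
  obtain ⟨k, rfl⟩ := Nat.exists_eq_add_of_le (Nat.lt_succ_iff.1 (Finset.mem_range.1 hi))
  simp only [Prod.smul_fst, Prod.smul_snd, smul_eq_mul, Nat.add_sub_cancel_left]
  ring

theorem hm_aff {d : ℕ} {P : ℂ[X]} (h : P.natDegree ≤ d) (z : ℂ) : hm d P (z, 1) = P.eval z := by
  rw [hm, eval_eq_sum_range' (Nat.lt_succ_of_le h)]
  simp

theorem hm_inf (d : ℕ) (P : ℂ[X]) : hm d P (1, 0) = P.coeff d := by
  rw [hm, Finset.sum_range_succ, Finset.sum_eq_zero fun i hi => by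
    simp [Nat.sub_ne_zero_of_lt (Finset.mem_range.1 hi)]]
  simp

theorem cases_nz {v : C2} (hv : v ≠ 0) :
    ∃ c : ℂ, c ≠ 0 ∧ (v = c • ((1, 0) : C2) ∨ ∃ z : ℂ, v = c • ((z, 1) : C2)) := by
  by_cases h : v.2 = 0
  · exact ⟨v.1, fun k => hv (Prod.ext k h), Or.inl (Prod.ext (by simp) (by simp [h]))⟩
  · exact ⟨v.2, h, Or.inr ⟨v.1 / v.2, Prod.ext (by simp [mul_div_cancel₀ _ h]) (by simp)⟩⟩

theorem dense_cone {T : Set ℂ} (hT : Dense T) :
    Dense {v : C2 | ∃ c : ℂ, c ≠ 0 ∧ ∃ t ∈ T, v = c • ((t, 1) : C2)} := by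
  have hc : Continuous fun q : ℂ × ℂ => q.2 • ((q.1, 1) : C2) := by fun_prop
  have hr : DenseRange fun q : ℂ × ℂ => q.2 • ((q.1, 1) : C2) :=
    (dense_univ.prod (dense_compl_singleton (0 : ℂ))).mono fun v hv =>
      ⟨(v.1 / v.2, v.2), Prod.ext (by simp [mul_div_cancel₀ _ hv.2]) (by simp)⟩
  refine (hr.dense_image hc (hT.prod (dense_compl_singleton (0 : ℂ)))).mono ?_
  rintro _ ⟨q, hq, rfl⟩
  exact ⟨q.2, hq.2, q.1, hq.1, rfl⟩

variable {V : Type} [NormedAddCommGroup V] [NormedSpace ℝ V]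

theorem aff_ne (z : ℂ) : ((z, 1) : C2) ≠ 0 := fun h => one_ne_zero (congrArg Prod.snd h)

theorem inf_ne : ((1, 0) : C2) ≠ 0 := fun h => one_ne_zero (congrArg Prod.fst h)

theorem tendsto_inf {Y : Type} [TopologicalSpace Y] {U : C2 → Y} (hc : ContinuousOn U nz) (hi : Inv U) :
    Tendsto (aff U) (cobounded ℂ) (𝓝 (U (1, 0))) := by
  have t : Tendsto (fun z : ℂ => ((1, z⁻¹) : C2)) (cobounded ℂ) (𝓝 (1, 0)) :=
    tendsto_const_nhds.prodMk_nhds tendsto_inv₀_cobounded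
  refine ((hc.continuousAt (nz_mem_nhds inf_ne)).tendsto.comp t).congr' ?_
  filter_upwards [eventually_ne_cobounded (0 : ℂ)] with z hz
  have := hi z⁻¹ (inv_ne_zero hz) (z, 1) (aff_ne z)
  simpa [inv_mul_cancel₀ hz, aff] using this

theorem InjPt.smul {U : C2 → V} (hs : ContDiffOn ℝ 2 U nz) (hi : Inv U) {v : C2} (h : InjPt U v)
    {c : ℂ} (hc : c ≠ 0) : InjPt U (c • v) := by
  refine ⟨smul_ne_zero hc h.1, fun k => h.2.1 ?_, fun w hw e => ?_⟩
  · refine ContinuousLinearMap.ext fun w => ?_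
    rw [← hi.fderiv_smul hc h.1
      ((hs.contDiffAt (nz_mem_nhds h.1)).differentiableAt two_ne_zero) w, k]
    rfl
  · exact (h.2.2 w hw (e.trans (hi c hc v h.1))).trans ⟨c⁻¹, (inv_smul_smul₀ hc v).symm⟩

/-! ### holomorphic maps off a finite set -/

theorem isHol_of_local {J : V → En0 V} {u : ℂ → V} {Ω : Set ℂ}
    (h : ∀ z ∈ Ω, ∃ (w : ℂ → V) (N : Set ℂ), IsOpen N ∧ z ∈ N ∧ IsHol J w N ∧ EqOn u w N) :
    IsHol J u Ω := by
  refine ⟨fun z hz => ?_, fun z hz => ?_⟩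
  all_goals
    obtain ⟨w, N, h1, h2, h3, h4⟩ := h z hz
    have e : u =ᶠ[𝓝 z] w := h4.eventuallyEq_of_mem (h1.mem_nhds h2)
  · exact ((h3.sm.contDiffAt (h1.mem_nhds h2)).congr_of_eventuallyEq e).contDiffWithinAt
  · rw [e.fderiv_eq, h4 h2]; exact h3.cr z h2

theorem cont_en {u : ℂ → V} {Ω : Set ℂ} (hΩ : IsOpen Ω) (h : ContDiffOn ℝ 2 u Ω) :
    ContinuousOn (fun z => ‖fderiv ℝ u z‖ ^ 2) Ω :=
  (h.continuousOn_fderiv_of_isOpen hΩ one_le_two).norm.pow 2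

theorem En_congr {u w : ℂ → V} {Ω L : Set ℂ} (hΩ : IsOpen Ω) (h : EqOn u w Ω)
    (hL : MeasurableSet L) (hs : L ⊆ Ω) : En u L = En w L :=
  setIntegral_congr_fun hL fun z hz => by
    have e : u =ᶠ[𝓝 z] w := h.eventuallyEq_of_mem (hΩ.mem_nhds (hs hz))
    simp only [e.fderiv_eq]

/-- the energy of a map defined through local sections of `e` -/
theorem En_sec (h3 : MobStmt) {u w : ℂ → V} {e : ℂ → ℂ} {Ω : Set ℂ} (hΩ : IsOpen Ω)
    (hw : ContDiffOn ℝ 2 w Ω) (he : Measurable e) (hu : Differentiable ℝ u)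
    (hi : Integrable fun z => ‖fderiv ℝ u z‖ ^ 2)
    (h : ∀ t ∈ Ω, ∃ (ψ : ℂ → ℂ) (N : Set ℂ), IsOpen N ∧ t ∈ N ∧ DifferentiableOn ℂ ψ N ∧
      EqOn w (u ∘ ψ) N ∧ ∀ s ∈ N, e (ψ s) = s) {L : Set ℂ} (hL : IsCompact L) (hs : L ⊆ Ω) :
    En w L ≤ En u univ := by
  have iw : IntegrableOn (fun z => ‖fderiv ℝ w z‖ ^ 2) L :=
    ((cont_en hΩ hw).mono hs).integrableOn_compact hL
  have mono : ∀ {s t : Set ℂ}, s ⊆ t → En u s ≤ En u t := fun hst =>
    setIntegral_mono_set hi.integrableOn (Eventually.of_forall fun z => by positivity)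
      hst.eventuallyLE
  have key : ∃ t, MeasurableSet t ∧ L ⊆ t ∧
      ∀ L', MeasurableSet L' → L' ⊆ t → L' ⊆ L → En w L' ≤ En u (e ⁻¹' L') := by
    refine hL.induction_on (p := fun s => ∃ t, MeasurableSet t ∧ s ⊆ t ∧
      ∀ L', MeasurableSet L' → L' ⊆ t → L' ⊆ L → En w L' ≤ En u (e ⁻¹' L')) ?_ ?_ ?_ ?_
    · exact ⟨∅, MeasurableSet.empty, Subset.rfl, fun L' _ k _ => by
        rw [subset_empty_iff.1 k]; simp [En]⟩
    · rintro s s' hss ⟨t, k1, k2, k3⟩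
      exact ⟨t, k1, hss.trans k2, k3⟩
    · rintro s s' ⟨t, k1, k2, k3⟩ ⟨t', k1', k2', k3'⟩
      refine ⟨t ∪ t', k1.union k1', union_subset_union k2 k2', fun L' m a b => ?_⟩
      have e1 := integral_inter_add_sdiff k1 (iw.mono_set b)
      have e2 := integral_inter_add_sdiff (he k1) (hi.integrableOn (s := e ⁻¹' L'))
      have b1 := k3 _ (m.inter k1) inter_subset_right (inter_subset_left.trans b)
      have b2 := k3' _ (m.diff k1) (fun z hz => (a hz.1).resolve_left hz.2)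
        (sdiff_subset.trans b)
      rw [preimage_inter] at b1
      rw [preimage_sdiff] at b2
      unfold En at *
      linarith
    · intro t ht
      obtain ⟨ψ, N, k1, k2, k3, k4, k5⟩ := h t (hs ht)
      refine ⟨N, mem_nhdsWithin_of_mem_nhds (k1.mem_nhds k2), N, k1.measurableSet, Subset.rfl,
        fun L' m a _ => ?_⟩
      rw [En_congr k1 k4 m a, ← ((h3 V).2.1 u ψ L' m
        (fun z hz => k3.differentiableAt (k1.mem_nhds (a hz)))
        (fun y hy z hz e' => by rw [← k5 y (a hy), e', k5 z (a hz)]) fun z _ => hu _).1]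
      refine mono ?_
      rintro _ ⟨z, hz, rfl⟩
      rwa [mem_preimage, k5 z (a hz)]
  obtain ⟨t, -, k2, k3⟩ := key
  exact (k3 L hL.measurableSet k2 Subset.rfl).trans (mono (subset_univ _))

/-- removal of finitely many singularities and of the point at infinity -/
theorem remove [FiniteDimensional ℝ V] (h2 : SmallStmt) {O M K : Set V} {om : F2 V} {R Λ c E : ℝ}
    {J : V → En0 V} (h0 : Env0 O M K om) (hJ : EnvJ M K om R Λ c J) {A : Set ℂ} (hA : A.Finite)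
    {w : ℂ → V} (hw : IsHol J w Aᶜ) (hK : MapsTo w Aᶜ K)
    (hE : ∀ L, IsCompact L → L ⊆ Aᶜ → En w L ≤ E) :
    ∃ U, IsSph K J U ∧ ∀ t, t ∉ A → U (t, 1) = w t := by
  classical
  have hAo := hA.isClosed.isOpen_compl
  have : ∀ a : ℂ, ∃ r > (0 : ℝ), ∃ x ∈ K, ball a r \ {a} ⊆ Aᶜ ∧
      IsHol J (Function.update w a x) (ball a r) := fun a => by
    obtain ⟨r, hr, k⟩ := Metric.mem_nhdsWithin_iff.1 (ev_notMem hA a)
    have k' : ball a r \ {a} ⊆ Aᶜ := k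
    obtain ⟨x, hx, k2⟩ := (h2 V O M K om R Λ c h0).2.1 J hJ w a r E hr
      ⟨hw.sm.mono k', fun z hz => hw.cr z (k' hz)⟩ (hK.mono_left k')
      fun L a b => hE L a (b.trans k')
    exact ⟨r, hr, x, hx, k', k2⟩
  choose r hr x hx k1 k2 using this
  let w' : ℂ → V := fun z => if z ∈ A then x z else w z
  have e : EqOn w' w Aᶜ := fun z hz => if_neg hz
  have hol : IsHol J w' univ := isHol_of_local fun z _ => by
    by_cases hz : z ∈ A
    · refine ⟨_, _, isOpen_ball, mem_ball_self (hr z), k2 z, fun y hy => ?_⟩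
      by_cases hy' : y = z
      · rw [hy', Function.update_self]; exact if_pos hz
      · rw [Function.update_of_ne hy']; exact e (k1 z ⟨hy, hy'⟩)
    · exact ⟨w, _, hAo, hz, hw, e⟩
  obtain ⟨U, u1, u2⟩ := (h2 V O M K om R Λ c h0).2.2 J hJ w' E hol (fun z _ => by
      by_cases hz : z ∈ A
      · have : w' z = x z := if_pos hz
        exact this ▸ hx z
      · exact e hz ▸ hK hz) fun L hL => by
    have iw : IntegrableOn (fun z => ‖fderiv ℝ w' z‖ ^ 2) L :=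
      ((cont_en isOpen_univ hol.sm).mono (subset_univ _)).integrableOn_compact hL
    have c1 : ∀ n : ℕ, IsCompact (L \ thickening (1 / ((n : ℝ) + 1)) A) := fun n =>
      hL.diff isOpen_thickening
    have c2 : ∀ n : ℕ, L \ thickening (1 / ((n : ℝ) + 1)) A ⊆ Aᶜ := fun n z hz k =>
      hz.2 (self_subset_thickening Nat.one_div_pos_of_nat A k)
    have c3 : ⋃ n : ℕ, L \ thickening (1 / ((n : ℝ) + 1)) A = L \ A := by
      refine Subset.antisymm (iUnion_subset fun n z hz => ⟨hz.1, c2 n hz⟩) fun z hz => ?_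
      obtain ⟨ε, hε, k⟩ := Metric.isOpen_iff.1 hAo z hz.2
      obtain ⟨n, hn⟩ := exists_nat_one_div_lt hε
      refine mem_iUnion.2 ⟨n, hz.1, fun k' => ?_⟩
      obtain ⟨a, ha, k''⟩ := mem_thickening_iff.1 k'
      exact k (mem_ball'.2 (k''.trans hn)) ha
    have t := tendsto_setIntegral_of_monotone (fun n => (c1 n).measurableSet)
      (fun n m hnm => sdiff_subset_sdiff_right (thickening_mono (Nat.one_div_le_one_div hnm) A))
      (iw.mono_set (iUnion_subset fun n => sdiff_subset))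
    rw [c3, setIntegral_congr_set (sdiff_ae_eq_self.2 (measure_mono_null inter_subset_right
      (hA.measure_zero _)))] at t
    exact le_of_tendsto' t fun n =>
      (En_congr hAo e (c1 n).measurableSet (c2 n)).trans_le (hE _ (c1 n) (c2 n))
  exact ⟨U, u1, fun t ht => (congrFun u2 t).trans (e ht)⟩

/-- the quotient sphere -/
theorem quot [FiniteDimensional ℝ V] (h2 : SmallStmt) (h3 : MobStmt) {O M K : Set V} {om : F2 V}
    {R Λ c : ℝ} {J : V → En0 V} {U : C2 → V} (h0 : Env0 O M K om) (hJ : EnvJ M K om R Λ c J)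
    (hU : IsSph K J U) {d : ℕ} {B : Finset ℂ} {cl : ℂ → Finset ℂ} {P Q : ℂ[X]}
    (hD : Dat (aff U) (U (1, 0)) d B cl) (h : RatD d B cl P Q) :
    ∃ (U' : C2 → V) (A : Set ℂ), IsSph K J U' ∧ A.Finite ∧
      (∀ z, z ∉ B → Q.eval z ≠ 0 → U' (ev P Q z, 1) = U (z, 1)) ∧
      ∀ t, t ∉ A → ∃ z, z ∉ B ∧ Q.eval z ≠ 0 ∧ ev P Q z = t := by
  have hA : (insert 0 (ev P Q '' B)).Finite := (B.finite_toSet.image _).insert 0
  have r1 : ∀ t, t ∉ insert 0 (ev P Q '' B) → ∃ z, z ∉ B ∧ Q.eval z ≠ 0 ∧ ev P Q z = t := by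
    intro t ht
    obtain ⟨z, k1, k2⟩ := h.root (t := t) fun k => ht (Or.inl k)
    exact ⟨z, fun k => ht (Or.inr ⟨z, k, k2⟩), k1, k2⟩
  have r2 : ∀ z, z ∉ B → Q.eval z ≠ 0 → ev P Q z ∉ insert 0 (ev P Q '' B) := by
    rintro z k1 k2 (k | ⟨b, hb, k⟩)
    · exact (h.fib z k1 k2).1 k
    · have : Q.eval b ≠ 0 := fun k' => h.pole b k' hb
      exact ((hD.cls z k1).2.2 b ((h.mem k1 k2).2 ⟨this, k⟩)).1 hb
  choose! s s1 s2 s3 using r1
  have e1 : ∀ z, z ∉ B → Q.eval z ≠ 0 → aff U (s (ev P Q z)) = aff U z := fun z k1 k2 =>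
    ((hD.cls z k1).2.2 _ ((h.mem k1 k2).2 ⟨s2 _ (r2 z k1 k2), s3 _ (r2 z k1 k2)⟩)).2.2
  have loc : ∀ t ∈ (insert 0 (ev P Q '' B))ᶜ, ∃ (ψ : ℂ → ℂ) (N : Set ℂ), IsOpen N ∧ t ∈ N ∧
      DifferentiableOn ℂ ψ N ∧ EqOn (aff U ∘ s) (aff U ∘ ψ) N ∧ ∀ y ∈ N, ev P Q (ψ y) = y := by
    intro t ht
    obtain ⟨ψ, N, k1, k2, k3, k4⟩ := h.sec (s1 t ht) (s2 t ht)
    refine ⟨ψ, N, k1, s3 t ht ▸ k2, k3, fun y hy => ?_, fun y hy => (k4 y hy).2.2⟩
    have := e1 _ (k4 y hy).1 (k4 y hy).2.1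
    rwa [(k4 y hy).2.2] at this
  have hK : ∀ z, aff U z ∈ K := fun z => hU.mem _ (aff_ne z)
  have hol : IsHol J (aff U ∘ s) (insert 0 (ev P Q '' B))ᶜ := isHol_of_local fun t ht => by
    obtain ⟨ψ, N, k1, k2, k3, k4, -⟩ := loc t ht
    exact ⟨_, N, k1, k2, hU.hol.1.comp isOpen_univ k1 (fun z _ => hJ.ub.sq _ (hK z)) k3
      (mapsTo_univ _ _), k4⟩
  obtain ⟨U', u1, u2⟩ := remove h2 h0 hJ hA hol (fun z _ => hK _) fun L k1 k2 =>
    En_sec h3 hA.isClosed.isOpen_compl hol.sm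
      (P.continuous.measurable.div Q.continuous.measurable)
      ((contDiffOn_univ.1 hU.hol.1.sm).differentiable two_ne_zero)
      ((h3 V).1 U (hU.sm.of_le one_le_two) hU.inv).2.1 loc k1 k2
  exact ⟨U', _, u1, hA, fun z k1 k2 => (u2 _ (r2 z k1 k2)).trans (e1 z k1 k2),
    fun t ht => ⟨s t, s1 t ht, s2 t ht, s3 t ht⟩⟩

end CoverP

open CoverP

theorem cover_of (h1 : Cover1Stmt) (h2 : SmallStmt) (h3 : MobStmt) : CoverStmt := by
  intro V _ _ _ O M K om R Λ c J U h0 hJ hU hN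
  obtain ⟨d, B, cl, hd, c1, c2, c3, c4⟩ := h1 V J K U hJ.ub.sm hJ.ub.sq hU hN
  have hD : Dat (aff U) (U (1, 0)) d B cl :=
    ⟨hd, fun z hz => ⟨(c1 z hz).1, (c1 z hz).2.1⟩, c2, c3⟩
  have su := contDiffOn_univ.1 hU.hol.1.sm
  obtain ⟨P, Q, h⟩ := hD.rat su.continuous (tendsto_inf hU.sm.continuousOn hU.inv)
  obtain ⟨U', A, hU', hA, e1, e2⟩ := quot h2 h3 h0 hJ hU hD h
  obtain ⟨Φ, hΦ⟩ : ∃ Φ : C2 → C2, Φ = fun v => (hm d P v, hm d Q v) := ⟨_, rfl⟩
  have p0 : ContDiff ℝ 2 Φ := hΦ ▸ (hm_contDiff d P).prodMk (hm_contDiff d Q)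
  have p1 : ∀ (a : ℂ) v, Φ (a • v) = a ^ d • Φ v := fun a v => by simp [hΦ, hm_smul]
  have p2 : ∀ z, Φ (z, 1) = (P.eval z, Q.eval z) := fun z => by
    simp only [hΦ, hm_aff h.degP.le, hm_aff h.degQ.le]
  have p3 : Φ (1, 0) = (0, 1) := by
    simp only [hΦ, hm_inf, coeff_eq_zero_of_natDegree_lt h.degP]
    rw [← h.degQ, h.mon.coeff_natDegree]
  have p4 : ∀ z, Q.eval z ≠ 0 → Φ (z, 1) = Q.eval z • (ev P Q z, 1) := fun z hz => by
    rw [p2]; exact Prod.ext (by simp [ev, mul_div_cancel₀ _ hz]) (by simp)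
  have p5 : ∀ v, v ≠ 0 → Φ v ≠ 0 := fun v hv => by
    obtain ⟨a, ha, rfl | ⟨z, rfl⟩⟩ := cases_nz hv
    · rw [p1, p3]; exact smul_ne_zero (pow_ne_zero _ ha) (aff_ne 0)
    · rw [p1, p2]
      exact smul_ne_zero (pow_ne_zero _ ha) fun k =>
        h.cop z (congrArg Prod.snd k) (congrArg Prod.fst k)
  have hS : ((B : Set ℂ) ∪ {z | Q.eval z = 0}).Finite :=
    B.finite_toSet.union (Q.finite_setOfPred_isRoot h.mon.ne_zero)
  have p6 : ∀ v, v ≠ 0 → U v = U' (Φ v) := fun v hv => by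
    have cU : ContinuousAt U v := hU.sm.continuousOn.continuousAt (nz_mem_nhds hv)
    have cU' : ContinuousAt (fun v => U' (Φ v)) v :=
      (hU'.sm.continuousOn.continuousAt (nz_mem_nhds (p5 v hv))).comp p0.continuous.continuousAt
    refine tendsto_nhds_unique_of_frequently_eq cU cU' ((mem_closure_iff_frequently.1
      (dense_cone (hS.countable.dense_compl ℂ) v)).mono ?_)
    rintro _ ⟨a, ha, z, hz, rfl⟩
    have k2 : Q.eval z ≠ 0 := fun k => hz (Or.inr k)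
    rw [hU.inv a ha _ (aff_ne z), p1, p4 z k2, smul_smul,
      hU'.inv _ (mul_ne_zero (pow_ne_zero _ ha) k2) _ (aff_ne _), e1 z (fun k => hz (Or.inl k)) k2]
  have p7 : ∀ w, w ≠ 0 → Par w (Φ (1, 0)) ∨ ∃ z, Par w (Φ (z, 1)) := fun w hw => by
    obtain ⟨a, ha, rfl | ⟨t, rfl⟩⟩ := cases_nz hw
    · obtain ⟨z, hz⟩ := Complex.exists_root (f := Q) (by
        rw [degree_eq_natDegree h.mon.ne_zero, h.degQ]; exact_mod_cast hd)
      refine Or.inr ⟨z, a / P.eval z, ?_⟩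
      rw [p2, hz.eq_zero]
      exact Prod.ext (by simp [div_mul_cancel₀ _ (h.cop z hz)]) (by simp)
    · by_cases ht : t = 0
      · exact Or.inl ⟨a, by rw [p3, ht]⟩
      · obtain ⟨z, k1, k2⟩ := h.root ht
        exact Or.inr ⟨z, a / Q.eval z, by rw [p4 z k1, k2, smul_smul, div_mul_cancel₀ _ k1]⟩
  have inj : ∀ z, z ∉ B → Q.eval z ≠ 0 → (∀ z', aff U z' = aff U z → z' ∈ cl z) →
      InjPt U' (ev P Q z, 1) := fun z k1 k2 k3 => by
    refine ⟨aff_ne _, fun k => (c1 z k1).2.2 ?_, fun w hw e => ?_⟩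
    · have d1 : DifferentiableAt ℝ U' (ev P Q z, 1) :=
        (hU'.sm.contDiffAt (nz_mem_nhds (aff_ne _))).differentiableAt two_ne_zero
      have d2 : fderiv ℝ (aff U') (ev P Q z) = 0 :=
        ContinuousLinearMap.ext fun a => by rw [fderiv_aff d1, k]; rfl
      have d3 : aff U =ᶠ[𝓝 z] aff U' ∘ ev P Q := by
        filter_upwards [B.finite_toSet.isClosed.isOpen_compl.mem_nhds k1,
          Q.continuous.continuousAt.eventually_ne k2] with y a b using (e1 y a b).symm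
      rw [d3.fderiv_eq, fderiv_comp z
        ((contDiffOn_univ.1 hU'.hol.1.sm).differentiable two_ne_zero _)
        (((ev_contDiffAt k2).differentiableAt one_ne_zero).restrictScalars ℝ), d2]
      rfl
    · rw [e1 z k1 k2] at e
      rcases p7 w hw with k | ⟨y, k⟩
      · rw [hU'.inv.par hw k, ← p6 _ inf_ne] at e
        exact absurd e.symm (c1 z k1).2.1
      · rw [hU'.inv.par hw k, ← p6 _ (aff_ne y)] at e
        obtain ⟨a, b⟩ := (h.mem k1 k2).1 (k3 y e)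
        exact k.trans ⟨Q.eval y, by rw [p4 y a, b]⟩
  have den : Dense {t : ℂ | InjPt U' (t, 1)} := by
    refine dense_closure.1 ((hA.countable.dense_compl ℂ).mono fun t ht => ?_)
    obtain ⟨z, k1, k2, rfl⟩ := e2 t ht
    refine mem_closure_of_tendsto
      ((ev_contDiffAt k2).continuousAt.tendsto.mono_left (nhdsWithin_le_nhds (s := {z}ᶜ))) ?_
    filter_upwards [c4 z k1, ev_notMem hS z] with y a b
    exact inj y (fun k => b (Or.inl k)) (fun k => b (Or.inr k)) a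
  refine ⟨U', d, Φ, hU', ?_, fun v _ => closure_mono ?_ (dense_cone den v), ?_, hd, p0, p5, p1, p6⟩
  · obtain ⟨v, hv, w, hw, k⟩ := hN
    exact ⟨Φ v, p5 v hv, Φ w, p5 w hw, by rwa [← p6 v hv, ← p6 w hw]⟩
  · rintro _ ⟨a, ha, t, ht, rfl⟩
    exact InjPt.smul hU'.sm hU'.inv ht ha
  · refine Subset.antisymm ?_ ?_
    · rintro _ ⟨w, hw, rfl⟩
      rcases p7 w hw with k | ⟨y, k⟩
      · exact ⟨_, inf_ne, by rw [hU'.inv.par hw k, ← p6 _ inf_ne]⟩
      · exact ⟨_, aff_ne y, by rw [hU'.inv.par hw k, ← p6 _ (aff_ne y)]⟩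
    · rintro _ ⟨v, hv, rfl⟩
      exact ⟨Φ v, p5 v hv, (p6 v hv).symm⟩

end Pool.Agent.MP_9758ca_gt

end MrgPart0

-- ======== part 1: formerly Pool.Agent.MP_9758ca_gt.Mono
section MrgPart1

/-!
PROJECT BALL, module MONO: monotonicity formula for holomorphic curves through the centre of a ball.
-/

open scoped Topology ContDiff ComplexConjugate
open Set Metric Filter Complex MeasureTheory

namespace Pool.Agent.MP_9758ca_gt

namespace MonoP

/-! ### the cut-off function -/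

theorem glue {f g f' g' : ℝ → ℝ} {a : ℝ} (hf : ∀ x, x ≤ a → HasDerivAt f (f' x) x)
    (hg : ∀ x, a ≤ x → HasDerivAt g (g' x) x) (h0 : f a = g a) (h1 : f' a = g' a) (x : ℝ) :
    HasDerivAt (fun u => if u ≤ a then f u else g u) (if x ≤ a then f' x else g' x) x := by
  rcases lt_trichotomy x a with h | h | h
  · rw [if_pos h.le]
    refine (hf x h.le).congr_of_eventuallyEq ?_
    filter_upwards [Iio_mem_nhds h] with u hu
    rw [if_pos (le_of_lt hu)]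
  · subst h
    rw [if_pos le_rfl]
    have h2 : HasDerivWithinAt (fun u => if u ≤ x then f u else g u) (f' x) (Iic x) x :=
      (hf x le_rfl).hasDerivWithinAt.congr (fun u hu => if_pos hu) (if_pos le_rfl)
    have h3 : HasDerivWithinAt (fun u => if u ≤ x then f u else g u) (f' x) (Ici x) x := by
      rw [h1]
      refine (hg x le_rfl).hasDerivWithinAt.congr (fun u hu => ?_) (by rw [if_pos le_rfl, h0])
      by_cases h : u ≤ x
      · have : u = x := le_antisymm h hu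
        rw [if_pos h, this, h0]
      · rw [if_neg h]
    have := h2.union h3
    rwa [Iic_union_Ici, hasDerivWithinAt_univ] at this
  · rw [if_neg (not_le.2 h)]
    refine (hg x h.le).congr_of_eventuallyEq ?_
    filter_upwards [Ioi_mem_nhds h] with u hu
    rw [if_neg (not_le.2 hu)]

theorem exists_A {s c : ℝ} (hs : 0 < s) (hc : 1 < c * s) :
    ∃ A A' A'' : ℝ → ℝ, ContDiff ℝ 2 A ∧ (∀ t, HasDerivAt A (A' t) t) ∧
      (∀ t, HasDerivAt A' (A'' t) t) ∧ (∀ t, s ≤ t → A t = -Real.log t) ∧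
      (∀ t, 0 < t → A'' t ≤ (t ^ 2)⁻¹ ∧ -c ≤ t * A'' t + A' t) ∧
      ∀ t, s < t → t * A'' t + A' t = 0 := by
  obtain ⟨k, hk⟩ := exists_nat_one_div_lt (sub_pos.2 hc)
  set m : ℝ := (k : ℝ) + 1 with hm
  have hm0 : 0 < m := by positivity
  have hs0 := hs.ne'
  set P0 : ℝ → ℝ := fun t => -(1 + 1 / m) * (t / s) + (t / s) ^ (k + 2) / (m * (m + 1)) +
    ((1 + 1 / m) - 1 / (m * (m + 1)) - Real.log s) with hP0
  set P1 : ℝ → ℝ := fun t => (-(1 + 1 / m) + (t / s) ^ (k + 1) / m) / s with hP1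
  set P2 : ℝ → ℝ := fun t => (t / s) ^ k / s ^ 2 with hP2
  have hu : ∀ t : ℝ, HasDerivAt (fun t : ℝ => t / s) (1 / s) t := fun t =>
    (hasDerivAt_id t).div_const s
  have d0 : ∀ t, HasDerivAt P0 (P1 t) t := fun t => by
    refine ((((hu t).const_mul _).add (((hu t).pow (k + 2)).div_const _)).add_const _).congr_deriv ?_
    simp only [hP1, hm]
    push_cast
    field_simp
    ring
  have d1 : ∀ t, HasDerivAt P1 (P2 t) t := fun t => by
    refine (((((hu t).pow (k + 1)).div_const m).const_add _).div_const s).congr_deriv ?_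
    simp only [hP2, hm]
    push_cast
    field_simp
  have e0 : ∀ t, s ≤ t → HasDerivAt (fun t => -Real.log t) (-t⁻¹) t := fun t ht =>
    (Real.hasDerivAt_log (hs.trans_le ht).ne').neg
  have e1 : ∀ t, s ≤ t → HasDerivAt (fun t : ℝ => -t⁻¹) ((t ^ 2)⁻¹) t := fun t ht =>
    (hasDerivAt_inv (hs.trans_le ht).ne').neg.congr_deriv (neg_neg _)
  have v0 : P0 s = -Real.log s := by
    simp only [hP0, div_self hs0, one_pow]; ring
  have v1 : P1 s = -s⁻¹ := by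
    simp only [hP1, div_self hs0, one_pow]; field_simp; ring
  have v2 : P2 s = (s ^ 2)⁻¹ := by
    simp only [hP2, div_self hs0, one_pow, one_div]
  have g0 := glue (a := s) (fun t _ => d0 t) e0 v0 v1
  have g1 := glue (a := s) (fun t _ => d1 t) e1 v1 v2
  have hcont : Continuous fun t : ℝ => if t ≤ s then P2 t else (t ^ 2)⁻¹ := by
    refine continuous_if_le continuous_id continuous_const (by fun_prop) ?_ ?_
    · exact ContinuousOn.inv₀ (by fun_prop) fun t ht => pow_ne_zero 2 (hs.trans_le ht).ne'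
    · rintro t rfl; exact v2
  refine ⟨_, _, _, ?_, g0, g1, fun t ht => ?_, fun t ht => ?_, fun t ht => ?_⟩
  · rw [show (2 : WithTop ℕ∞) = 1 + 1 from rfl, contDiff_succ_iff_deriv,
      funext fun t => (g0 t).deriv, contDiff_one_iff_deriv, funext fun t => (g1 t).deriv]
    exact ⟨fun t => (g0 t).differentiableAt, by simp, fun t => (g1 t).differentiableAt, hcont⟩
  · rcases ht.eq_or_lt with h | h
    · rw [← h, if_pos le_rfl, v0]
    · rw [if_neg (not_le.2 h)]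
  · by_cases h : t ≤ s
    · simp only [if_pos h, hP1, hP2]
      have h1 : t / s ≤ 1 := (div_le_one hs).2 h
      have h2 : 0 ≤ t / s := by positivity
      have h3 : (t / s) ^ k ≤ 1 := pow_le_one₀ h2 h1
      constructor
      · rw [← one_div]
        exact div_le_div₀ zero_le_one h3 (by positivity) (by gcongr)
      · have h4 : 0 ≤ t * ((t / s) ^ k / s ^ 2) := by positivity
        have h5 : 0 ≤ (t / s) ^ (k + 1) / m := by positivity
        have h6 : -c ≤ (-(1 + 1 / m) + (t / s) ^ (k + 1) / m) / s := by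
          rw [le_div_iff₀ hs]; linarith
        linarith
    · simp only [if_neg h]
      refine ⟨le_rfl, ?_⟩
      have : t * (t ^ 2)⁻¹ + -t⁻¹ = 0 := by field_simp; ring
      rw [this]
      have : 0 < c := by
        by_contra hn
        nlinarith [not_lt.1 hn]
      linarith
  · simp only [if_neg (not_le.2 ht)]
    have := (hs.trans ht).ne'
    field_simp
    ring

/-! ### the Laplacian -/

/-- the Laplacian of a function on the plane -/
noncomputable def lap (u : ℂ → ℝ) (z : ℂ) : ℝ :=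
  fderiv ℝ (fun y => fderiv ℝ u y 1) z 1 + fderiv ℝ (fun y => fderiv ℝ u y I) z I

/-- the real-linear form `a ↦ re (c a)` -/
noncomputable def rm (c : ℂ) : ℂ →L[ℝ] ℝ := reCLM.comp (mulC c)

theorem rm_apply (c a : ℂ) : rm c a = (c * a).re := by simp [rm, mulC_apply]

theorem lap_eq {u : ℂ → ℝ} {σ : ℂ → ℂ} {z : ℂ} {σ' : ℂ →L[ℝ] ℂ}
    (h : ∀ᶠ y in 𝓝 z, HasFDerivAt u (rm (σ y)) y) (hσ : HasFDerivAt σ σ' z) :
    lap u z = (σ' 1).re + (σ' I * I).re := by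
  have key : ∀ a, fderiv ℝ (fun y => fderiv ℝ u y a) z a = (σ' a * a).re := by
    intro a
    have h1 := reCLM.hasFDerivAt.comp z (hσ.mul_const a)
    have h2 : (fun y => fderiv ℝ u y a) =ᶠ[𝓝 z] (reCLM ∘ fun y => σ y * a) := by
      filter_upwards [h] with y hy
      simp [hy.fderiv, rm_apply]
    rw [h2.fderiv_eq, h1.fderiv]
    simp [mul_comm]
  rw [lap, key, key, mul_one]

theorem hasFDerivAt_nsq {F : ℂ → ℂ} {F' y : ℂ} (h : HasDerivAt F F' y) :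
    HasFDerivAt (fun y => ‖F y‖ ^ 2) (rm (2 * (conj (F y) * F'))) y := by
  refine h.complexToReal_fderiv.norm_sq.congr_fderiv ?_
  ext a
  all_goals simp [rm_apply, Complex.inner]
  all_goals ring

theorem lap_loc {ι : Type} [Fintype ι] {F : ι → ℂ → ℂ} {b : ℂ → ℂ} {z : ℂ}
    (hF : ∀ i, AnalyticAt ℂ (F i) z) (hb : AnalyticAt ℂ b z) (hb0 : b z ≠ 0) {Ψ φ : ℝ → ℝ} {φ' : ℝ}
    (hΨ : ∀ᶠ t in 𝓝 (∑ i, ‖F i z‖ ^ 2), HasDerivAt Ψ (φ t) t)
    (hφ : HasDerivAt φ φ' (∑ i, ‖F i z‖ ^ 2)) {u : ℂ → ℝ}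
    (hu : u =ᶠ[𝓝 z] fun y => Ψ (∑ i, ‖F i y‖ ^ 2) - Real.log (‖b y‖ ^ 2)) :
    lap u z = 4 * (φ' * ‖∑ i, conj (F i z) * deriv (F i) z‖ ^ 2 +
      φ (∑ i, ‖F i z‖ ^ 2) * ∑ i, ‖deriv (F i) z‖ ^ 2) := by
  set T : ℂ → ℝ := fun y => ∑ i, ‖F i y‖ ^ 2 with hT
  set S : ℂ → ℂ := fun y => ∑ i, conj (F i y) * deriv (F i) y with hS
  have hTd : ∀ᶠ y in 𝓝 z, HasFDerivAt T (rm (2 * S y)) y := by
    filter_upwards [eventually_all.2 fun i => (hF i).eventually_analyticAt] with y hy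
    refine (HasFDerivAt.fun_sum fun i _ =>
      hasFDerivAt_nsq (hy i).differentiableAt.hasDerivAt).congr_fderiv ?_
    ext a
    all_goals simp only [_root_.sum_apply, rm_apply, hS, Finset.mul_sum,
      Finset.sum_mul, re_sum]
  have hT0 := hTd.self_of_nhds
  have h1 : ∀ᶠ y in 𝓝 z, HasFDerivAt u
      (rm ((φ (T y) : ℂ) * (2 * S y) - 2 * (deriv b y / b y))) y := by
    filter_upwards [hTd, hT0.continuousAt.eventually hΨ, hb.eventually_analyticAt,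
      hb.continuousAt.eventually_ne hb0, hu.eventually_nhds] with y y1 y2 y3 y4 y5
    have y6 : ‖b y‖ ^ 2 ≠ 0 := pow_ne_zero 2 (norm_ne_zero_iff.2 y4)
    have y7 := (y2.comp_hasFDerivAt y y1).sub
      ((hasFDerivAt_nsq y3.differentiableAt.hasDerivAt).log y6)
    refine (y7.congr_of_eventuallyEq y5).congr_fderiv ?_
    have y8 : ((‖b y‖ ^ 2)⁻¹ : ℝ) * (2 * (conj (b y) * deriv b y)) = 2 * (deriv b y / b y) := by
      have : conj (b y) ≠ 0 := (map_ne_zero _).2 y4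
      push_cast
      rw [← Complex.mul_conj']
      field_simp
    refine ContinuousLinearMap.ext fun a => ?_
    simp only [_root_.sub_apply, _root_.smul_apply, rm_apply,
      smul_eq_mul, sub_mul, sub_re, ← y8, mul_assoc, re_ofReal_mul]
  obtain ⟨S', hS', hS''⟩ : ∃ S' : ℂ →L[ℝ] ℂ, HasFDerivAt S S' z ∧ ∀ a, S' a =
      (∑ i, ‖deriv (F i) z‖ ^ 2 : ℝ) * conj a +
        (∑ i, conj (F i z) * deriv (deriv (F i)) z) * a := by
    refine ⟨_, HasFDerivAt.fun_sum fun i _ =>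
      ((conjCLE : ℂ →L[ℝ] ℂ).hasFDerivAt.comp z
        (hF i).differentiableAt.hasDerivAt.complexToReal_fderiv).mul
        (hF i).deriv.differentiableAt.hasDerivAt.complexToReal_fderiv, fun a => ?_⟩
    simp only [_root_.sum_apply, ofReal_sum, Finset.sum_mul, ← Finset.sum_add_distrib]
    refine Finset.sum_congr rfl fun i _ => ?_
    simp [← Complex.mul_conj']
    ring
  have h2 := (hb.deriv.div hb hb0).differentiableAt.hasDerivAt.complexToReal_fderiv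
  have h3 := (((ofRealCLM.hasFDerivAt.comp z (hφ.comp_hasFDerivAt z hT0)).mul
    (hS'.const_mul 2)).sub (h2.const_mul 2))
  change lap u z = 4 * (φ' * ‖S z‖ ^ 2 + φ (T z) * _)
  rw [lap_eq h1 h3, Complex.sq_norm, normSq_apply]
  simp [hS'', rm_apply, -ofReal_sum, -ofReal_pow]
  ring

theorem lap_ge {ι : Type} [Fintype ι] {F : ι → ℂ → ℂ} {b : ℂ → ℂ} {z : ℂ}
    (hF : ∀ i, AnalyticAt ℂ (F i) z) (hb : AnalyticAt ℂ b z) (hb0 : b z ≠ 0)
    {A A' A'' : ℝ → ℝ} (hA : ∀ t, HasDerivAt A (A' t) t) (hA' : ∀ t, HasDerivAt A' (A'' t) t)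
    {T : ℝ} (hT : T = ∑ i, ‖F i z‖ ^ 2) (hT0 : 0 < T) (hA'' : A'' T ≤ (T ^ 2)⁻¹) {u : ℂ → ℝ}
    (hu : u =ᶠ[𝓝 z] fun y => (Real.log (∑ i, ‖F i y‖ ^ 2) + A (∑ i, ‖F i y‖ ^ 2)) -
      Real.log (‖b y‖ ^ 2)) :
    4 * ((T * A'' T + A' T) * ∑ i, ‖deriv (F i) z‖ ^ 2) ≤ lap u z := by
  have h1 := lap_loc hF hb hb0 (Ψ := fun t => Real.log t + A t) (φ := fun t => t⁻¹ + A' t)
    (φ' := -(T ^ 2)⁻¹ + A'' T) (u := u) ?_ ?_ hu
  · rw [h1, ← hT]
    have h2 : ‖∑ i, conj (F i z) * deriv (F i) z‖ ^ 2 ≤ T * ∑ i, ‖deriv (F i) z‖ ^ 2 := by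
      rw [hT]
      refine le_trans ?_ (Finset.sum_mul_sq_le_sq_mul_sq _ _ _)
      gcongr
      refine (norm_sum_le _ _).trans (le_of_eq ?_)
      simp
    have h3 : T * (T ^ 2)⁻¹ = T⁻¹ := by field_simp
    have h4 := mul_le_mul_of_nonpos_left h2 (show -(T ^ 2)⁻¹ + A'' T ≤ 0 by linarith)
    rw [← h3]
    nlinarith
  · rw [← hT]
    filter_upwards [lt_mem_nhds hT0] with t ht
    exact (Real.hasDerivAt_log ht.ne').add (hA t)
  · rw [← hT]
    exact (hasDerivAt_inv hT0.ne').add (hA' T)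

theorem lap_zero {b : ℂ → ℂ} {z : ℂ} (hb : AnalyticAt ℂ b z) (hb0 : b z ≠ 0) {u : ℂ → ℝ}
    (hu : u =ᶠ[𝓝 z] fun y => -Real.log (‖b y‖ ^ 2)) : lap u z = 0 := by
  have h1 := lap_loc (ι := Empty) (F := fun _ _ => 0) (fun _ => analyticAt_const) hb hb0
    (Ψ := fun _ => 0) (φ := fun _ => 0) (φ' := 0) (u := u)
    (Eventually.of_forall fun t => hasDerivAt_const t 0) (hasDerivAt_const _ _)
    (by simpa using hu)
  simpa using h1

/-! ### Stokes formula for potentials -/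

theorem fderiv_app {l : F1 C2} {x : C2} (hl : DifferentiableAt ℝ l x) (a b : C2) :
    fderiv ℝ l x a b = fderiv ℝ (fun y => l y b) x a := by
  rw [fderiv_clm_apply hl (differentiableAt_const b)]
  simp

theorem stokes_pot (h1 : StokesStmt) {Φ : C2 → ℝ} (hΦ : ContDiffOn ℝ 2 Φ nz)
    (hom : ∀ c : ℂ, c ≠ 0 → ∀ v, v ≠ 0 → Φ (c • v) = Φ v - Real.log (‖c‖ ^ 2)) :
    Integrable (lap (aff Φ)) ∧ ∫ z, lap (aff Φ) z = -(4 * Real.pi) := by
  have hd : ∀ v, v ≠ 0 → DifferentiableAt ℝ Φ v := fun v hv =>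
    (hΦ.contDiffAt (nz_mem_nhds hv)).differentiableAt (by norm_num)
  have hD : ContDiffOn ℝ 1 (fderiv ℝ Φ) nz := hΦ.fderiv_of_isOpen isOpen_nz (by norm_num)
  have hinv : ∀ c : ℂ, c ≠ 0 → ∀ v, v ≠ 0 → ∀ w,
      fderiv ℝ Φ (c • v) (c • w) = fderiv ℝ Φ v w := by
    intro c hc v hv w
    have e1 := (hd _ (smul_ne_zero hc hv)).hasFDerivAt.comp v
      ((hasFDerivAt_id (𝕜 := ℝ) v).const_smul c)
    have e2 := (hd v hv).hasFDerivAt.sub_const (Real.log (‖c‖ ^ 2))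
    have e3 := e2.unique (e1.congr_of_eventuallyEq (by
      filter_upwards [nz_mem_nhds hv] with y hy
      exact (hom c hc y hy).symm))
    rw [e3]
    simp
  have heul : ∀ v, v ≠ 0 → ∀ a : ℂ, fderiv ℝ Φ v (a • v) = -(2 * a.re) := by
    intro v hv a
    have e0 : HasFDerivAt (fun c : ℂ => c • v) ((1 : ℂ →L[ℝ] ℂ).smulRight v) 1 :=
      (hasFDerivAt_id (𝕜 := ℝ) (1 : ℂ)).smul_const v
    have e1 := HasFDerivAt.comp (1 : ℂ) (g := Φ) (by
      simpa only [one_smul] using (hd v hv).hasFDerivAt) e0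
    have e2 := ((hasFDerivAt_nsq (hasDerivAt_id (1 : ℂ))).log (by simp)).const_sub (Φ v)
    have e3 := e1.unique (e2.congr_of_eventuallyEq (by
      filter_upwards [isOpen_ne.mem_nhds (one_ne_zero (α := ℂ))] with c hc
      exact hom c hc v hv))
    have e4 := DFunLike.congr_fun e3 a
    simpa [rm_apply] using e4
  set J : C2 →L[ℝ] C2 := I • ContinuousLinearMap.id ℝ C2 with hJ
  set l : F1 C2 := fun v => -((fderiv ℝ Φ v).comp J) with hl
  have hla : ∀ v w, l v w = -fderiv ℝ Φ v (I • w) := fun v w => by simp [hl, hJ]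
  have hl1 : ContDiffOn ℝ 1 l nz := (hD.clm_comp contDiffOn_const).neg
  obtain ⟨i1, i2⟩ := h1.1 l (-2) hl1 (fun c hc v hv w => by
    rw [hla, hla, smul_comm, hinv c hc v hv]) (fun v hv => by
    rw [hla, hla, smul_smul, heul v hv, heul v hv]; simp)
  have key : (fun z : ℂ => dd l (z, 1) (1, 0) (I, 0)) = lap (aff Φ) := by
    funext z
    have hz : ∀ y : ℂ, ((y, 1) : C2) ≠ 0 := fun y => by simp
    have e1 : DifferentiableAt ℝ l (z, 1) :=
      (hl1.contDiffAt (nz_mem_nhds (hz z))).differentiableAt one_ne_zero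
    have e2 : DifferentiableAt ℝ (fderiv ℝ Φ) (z, 1) :=
      (hD.contDiffAt (nz_mem_nhds (hz z))).differentiableAt one_ne_zero
    have e3 : ∀ a : ℂ, fderiv ℝ (fun y => fderiv ℝ (aff Φ) y a) z a =
        fderiv ℝ (fun y => fderiv ℝ Φ y (a, 0)) (z, 1) (a, 0) := by
      intro a
      rw [← fderiv_aff (e2.clm_apply (differentiableAt_const _))]
      congr 2
      funext y
      exact fderiv_aff (hd _ (hz y)) a
    have e4 : (fun y => l y (I, 0)) = fun y => fderiv ℝ Φ y (1, 0) := by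
      funext y
      rw [hla, ← map_neg]
      simp
    have e5 : (fun y => l y (1, 0)) = fun y => -fderiv ℝ Φ y (I, 0) := by
      funext y
      rw [hla]
      simp
    rw [dd, fderiv_app e1, fderiv_app e1, lap, e3, e3, e4, e5, fderiv_fun_neg]
    simp
  rw [key] at i1
  refine ⟨i1, ?_⟩
  rw [← key, i2]
  ring

/-! ### a line outside the domain -/

theorem exists_out {Ω : Set C2} {G : C2 → C3} {v₀ : C2}
    (hinv : ∀ c : ℂ, c ≠ 0 → ∀ v ∈ Ω, c • v ∈ Ω ∧ G (c • v) = G v) (hG : DifferentiableOn ℂ G Ω)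
    (hnz : Ω ⊆ nz) (hv₀ : v₀ ∈ Ω) (h0 : G v₀ = 0) (hne : ∃ v, v ≠ 0 ∧ (v ∉ Ω ∨ G v ≠ 0)) :
    ∃ p, p ≠ 0 ∧ p ∉ Ω := by
  by_contra hn
  push Not at hn
  obtain ⟨v, hv, hv'⟩ := hne
  have hv1 : G v ≠ 0 := hv'.resolve_left (not_not.2 (hn v hv))
  have hI : Inv G := fun c hc w hw => (hinv c hc w (hn w hw)).2
  have hG' : DifferentiableOn ℂ G nz := hG.mono fun w hw => hn w hw
  have hK := (hI.isCompact_im hG'.continuousOn).1.isBounded
  have hl : ∀ t : ℂ, v₀ + t • (v - v₀) ≠ 0 := by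
    intro t ht
    have ht0 : t ≠ 0 := by
      rintro rfl
      exact hnz hv₀ (by simpa using ht)
    have : v = ((t - 1) / t) • v₀ := by
      have h2 : t • v = (t - 1) • v₀ := by
        rw [smul_sub] at ht
        rw [sub_smul, one_smul]
        linear_combination (exp := 1) ht
      rw [div_eq_inv_mul, mul_smul, ← h2, inv_smul_smul₀ ht0]
    exact hv1 ((hI.par hv ⟨_, this⟩).trans h0)
  have hd : Differentiable ℂ fun t : ℂ => G (v₀ + t • (v - v₀)) := fun t =>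
    (hG'.differentiableAt (nz_mem_nhds (hl t))).comp t (by fun_prop)
  have := hd.apply_eq_apply_of_bounded (hK.subset (by
    rintro _ ⟨t, rfl⟩
    exact ⟨_, hl t, rfl⟩)) 1 0
  exact hv1 (by simpa [h0] using this)

/-! ### coordinates -/

/-- determinant -/
def dt (v w : C2) : ℂ := v.1 * w.2 - v.2 * w.1

theorem dt_smul_left (c : ℂ) (v w : C2) : dt (c • v) w = c * dt v w := by
  simp [dt]; ring

theorem dt_smul_right (c : ℂ) (v w : C2) : dt v (c • w) = c * dt v w := by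
  simp [dt]; ring

theorem dt_dec (v₀ p v : C2) : dt v₀ p • v = dt v p • v₀ + dt v₀ v • p := by
  ext <;> simp [dt] <;> ring

theorem dt_ne {Ω : Set C2} (hnz : Ω ⊆ nz) (hinv : ∀ c : ℂ, c ≠ 0 → ∀ v ∈ Ω, c • v ∈ Ω) {x y : C2}
    (hx : x ∈ Ω) (hy : y ≠ 0) (hy' : y ∉ Ω) : dt x y ≠ 0 := by
  intro h
  obtain ⟨c, hc⟩ := (par_iff hy).2 (sub_eq_zero.1 h)
  have hc0 : c ≠ 0 := by
    rintro rfl
    exact hnz hx (by simpa using hc)
  have := hinv c⁻¹ (inv_ne_zero hc0) x hx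
  rw [hc, inv_smul_smul₀ hc0] at this
  exact hy' this

theorem exists_h {Ω : Set C2} {G : C2 → C3} {v₀ p : C2} (hΩ : IsOpen Ω) (hnz : Ω ⊆ nz)
    (hinv : ∀ c : ℂ, c ≠ 0 → ∀ v ∈ Ω, c • v ∈ Ω ∧ G (c • v) = G v) (hG : DifferentiableOn ℂ G Ω)
    (hv₀ : v₀ ∈ Ω) (h0 : G v₀ = 0) (hp : p ≠ 0) (hp' : p ∉ Ω) :
    ∃ h : ℂ → C3, ∀ v ∈ Ω, AnalyticAt ℂ h (dt v₀ v / dt v p) ∧
      G v = (dt v₀ v / dt v p) • h (dt v₀ v / dt v p) := by
  have hW : IsOpen {w : ℂ | v₀ + w • p ∈ Ω} := hΩ.preimage (by fun_prop)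
  have hg : DifferentiableOn ℂ (fun w : ℂ => G (v₀ + w • p)) {w : ℂ | v₀ + w • p ∈ Ω} :=
    hG.comp (by fun_prop) fun w hw => hw
  have hh := (differentiableOn_dslope (c := 0) (hW.mem_nhds (by simpa using hv₀))).2 hg
  refine ⟨dslope (fun w : ℂ => G (v₀ + w • p)) 0, fun v hv => ?_⟩
  have ha := dt_ne hnz (fun c hc v hv => (hinv c hc v hv).1) hv hp hp'
  have hD := dt_ne hnz (fun c hc v hv => (hinv c hc v hv).1) hv₀ hp hp'
  have e : v₀ + (dt v₀ v / dt v p) • p = (dt v₀ p / dt v p) • v := by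
    rw [div_eq_inv_mul, div_eq_inv_mul, mul_smul, mul_smul, dt_dec v₀ p v, smul_add,
      inv_smul_smul₀ ha]
  obtain ⟨h1, h2⟩ := hinv _ (div_ne_zero hD ha) v hv
  rw [← e] at h1 h2
  refine ⟨hh.analyticAt (hW.mem_nhds h1), ?_⟩
  have := sub_smul_dslope (fun w : ℂ => G (v₀ + w • p)) 0 (dt v₀ v / dt v p)
  simp only [sub_zero, zero_smul, add_zero, h0, h2] at this
  exact this.symm

theorem exists_bound {Ω : Set C2} {G : C2 → C3} {v₀ p : C2} {s : ℝ} (hnz : Ω ⊆ nz)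
    (hinv : ∀ c : ℂ, c ≠ 0 → ∀ v ∈ Ω, c • v ∈ Ω ∧ G (c • v) = G v) (hv₀ : v₀ ∈ Ω) (hp : p ≠ 0)
    (hp' : p ∉ Ω) (hcl : p ∉ closure {w ∈ Ω | ∑ i, ‖G w i‖ ^ 2 ≤ s}) :
    ∃ C : ℝ, 0 ≤ C ∧ ∀ z : ℂ, (z, 1) ∈ Ω → ∑ i, ‖G (z, 1) i‖ ^ 2 ≤ s →
      ‖dt v₀ p / dt (z, 1) p ^ 2‖ ^ 2 ≤ C * (1 + ‖z‖) ^ (-4 : ℝ) := by
  have hD := dt_ne hnz (fun c hc v hv => (hinv c hc v hv).1) hv₀ hp hp'
  rw [Metric.mem_closure_iff] at hcl
  push Not at hcl
  obtain ⟨ρ, hρ, hρ'⟩ := hcl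
  have hD' := norm_pos_iff.2 hD
  set B : ℝ := (‖v₀‖ + ‖v₀‖ / ρ * ‖p‖) / ‖dt v₀ p‖ with hB
  have key : ∀ v ∈ Ω, ∑ i, ‖G v i‖ ^ 2 ≤ s → ‖v‖ ≤ B * ‖dt v p‖ := by
    intro v hv hs
    have h1 : ‖dt v₀ v‖ ≤ ‖dt v p‖ * (‖v₀‖ / ρ) := by
      by_cases hb : dt v₀ v = 0
      · rw [hb, norm_zero]; positivity
      obtain ⟨h2, h3⟩ := hinv _ (div_ne_zero hD hb) v hv
      have h4 := hρ' _ ⟨h2, by rw [h3]; exact hs⟩
      have e : (dt v₀ p / dt v₀ v) • v = (dt v p / dt v₀ v) • v₀ + p := by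
        rw [div_eq_inv_mul, div_eq_inv_mul, mul_smul, mul_smul, dt_dec v₀ p v, smul_add,
          inv_smul_smul₀ hb]
      rw [e, dist_comm, dist_eq_norm, add_sub_cancel_right, norm_smul, norm_div,
        div_mul_eq_mul_div, le_div_iff₀ (norm_pos_iff.2 hb)] at h4
      rw [← mul_div_assoc, le_div_iff₀ hρ]
      linarith
    have h5 : ‖dt v₀ p‖ * ‖v‖ ≤ ‖dt v p‖ * ‖v₀‖ + ‖dt v₀ v‖ * ‖p‖ := by
      rw [← norm_smul, dt_dec v₀ p v, ← norm_smul, ← norm_smul]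
      exact norm_add_le _ _
    rw [hB, div_mul_eq_mul_div, le_div_iff₀ hD']
    nlinarith [mul_le_mul_of_nonneg_right h1 (norm_nonneg p)]
  refine ⟨‖dt v₀ p‖ ^ 2 * (2 * B) ^ 4, by positivity, fun z hz hs => ?_⟩
  have ha := norm_pos_iff.2 (dt_ne hnz (fun c hc v hv => (hinv c hc v hv).1) hz hp hp')
  have h1 : 1 + ‖z‖ ≤ 2 * B * ‖dt (z, 1) p‖ := by
    have h2 := key _ hz hs
    have h3 : ‖z‖ ≤ ‖((z, 1) : C2)‖ := norm_fst_le ((z, 1) : C2)
    have h4 : 1 ≤ ‖((z, 1) : C2)‖ := by simp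
    linarith
  have h5 : 0 < 1 + ‖z‖ := by positivity
  have h6 : (1 + ‖z‖) ^ 4 ≤ (2 * B * ‖dt (z, 1) p‖) ^ 4 := by gcongr
  rw [Real.rpow_neg h5.le, show (4 : ℝ) = (4 : ℕ) by norm_num, Real.rpow_natCast, norm_div,
    norm_pow, div_pow, ← div_eq_mul_inv, div_le_div_iff₀ (by positivity) (by positivity)]
  nlinarith [mul_le_mul_of_nonneg_left h6 (sq_nonneg ‖dt v₀ p‖)]

/-! ### the potential -/

theorem exists_pot {Ω : Set C2} {G : C2 → C3} {v₀ p : C2} {s η : ℝ} {A : ℝ → ℝ} (hΩ : IsOpen Ω)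
    (hnz : Ω ⊆ nz) (hinv : ∀ c : ℂ, c ≠ 0 → ∀ v ∈ Ω, c • v ∈ Ω ∧ G (c • v) = G v)
    (hG : DifferentiableOn ℂ G Ω) (hv₀ : v₀ ∈ Ω) (h0 : G v₀ = 0) (hp : p ≠ 0) (hp' : p ∉ Ω)
    (hη : η ≠ 0) (hA : ContDiff ℝ 2 A) (hAs : ∀ t, s ≤ t → A t = -Real.log t)
    (hcl : ∀ v, v ≠ 0 → v ∈ closure {w ∈ Ω | ∑ i, ‖G w i‖ ^ 2 ≤ s} → v ∈ Ω) :
    ∃ Φ : C2 → ℝ, ContDiffOn ℝ 2 Φ nz ∧
      (∀ c : ℂ, c ≠ 0 → ∀ v, v ≠ 0 → Φ (c • v) = Φ v - Real.log (‖c‖ ^ 2)) ∧
      (∀ v ∈ Ω, dt v₀ v ≠ 0 → ∀ T, T = ‖η * (dt v₀ v / dt v p)‖ ^ 2 + ∑ i, ‖G v i‖ ^ 2 →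
        Φ v = (Real.log T + A T) - Real.log (‖dt v₀ v‖ ^ 2)) ∧
      ∀ v, v ≠ 0 → v ∉ Ω → ∀ᶠ w in 𝓝 v, Φ w = -Real.log (‖dt v₀ w‖ ^ 2) := by
  classical
  obtain ⟨h, hh⟩ := exists_h hΩ hnz hinv hG hv₀ h0 hp hp'
  have hi : ∀ c : ℂ, c ≠ 0 → ∀ v ∈ Ω, c • v ∈ Ω := fun c hc v hv => (hinv c hc v hv).1
  set N : ℂ → ℝ := fun w => η ^ 2 + ∑ i, ‖h w i‖ ^ 2 with hN
  have hN0 : ∀ w, 0 < N w := fun w => by positivity
  set Φ₁ : C2 → ℝ := fun v => Real.log (N (dt v₀ v / dt v p)) +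
    A (‖dt v₀ v / dt v p‖ ^ 2 * N (dt v₀ v / dt v p)) - Real.log (‖dt v p‖ ^ 2) with hΦ₁
  set Φ : C2 → ℝ := fun v => if v ∈ Ω then Φ₁ v else -Real.log (‖dt v₀ v‖ ^ 2) with hΦ
  have hlog : ∀ c x : ℂ, c ≠ 0 → x ≠ 0 →
      Real.log (‖c * x‖ ^ 2) = Real.log (‖c‖ ^ 2) + Real.log (‖x‖ ^ 2) := fun c x hc hx => by
    rw [norm_mul, mul_pow, Real.log_mul (by simpa using hc) (by simpa using hx)]
  have hT : ∀ v ∈ Ω, ‖η * (dt v₀ v / dt v p)‖ ^ 2 + ∑ i, ‖G v i‖ ^ 2 =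
      ‖dt v₀ v / dt v p‖ ^ 2 * N (dt v₀ v / dt v p) := fun v hv => by
    rw [(hh v hv).2]
    simp only [hN, Pi.smul_apply, smul_eq_mul, norm_mul, mul_pow, mul_add, Finset.mul_sum,
      norm_real, Real.norm_eq_abs, sq_abs]
    ring
  have h3 : ∀ v ∈ Ω, dt v₀ v ≠ 0 → ∀ T, T = ‖η * (dt v₀ v / dt v p)‖ ^ 2 + ∑ i, ‖G v i‖ ^ 2 →
      Φ v = (Real.log T + A T) - Real.log (‖dt v₀ v‖ ^ 2) := by
    intro v hv hb T hT'
    have ha := dt_ne hnz hi hv hp hp'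
    have hz := div_ne_zero hb ha
    have e := hlog _ _ hz ha
    rw [div_mul_cancel₀ _ ha] at e
    rw [hT', hT v hv, Real.log_mul (by simpa using hz) (hN0 _).ne', e]
    simp only [hΦ, if_pos hv, hΦ₁]
    ring
  have h4 : ∀ v, v ≠ 0 → v ∉ Ω → ∀ᶠ w in 𝓝 v, Φ w = -Real.log (‖dt v₀ w‖ ^ 2) := by
    intro v hv hv'
    have e1 : ∀ᶠ w in 𝓝 v, w ∉ closure {w ∈ Ω | ∑ i, ‖G w i‖ ^ 2 ≤ s} :=
      isClosed_closure.isOpen_compl.mem_nhds fun hc => hv' (hcl v hv hc)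
    have e2 : ∀ᶠ w in 𝓝 v, dt v₀ w ≠ 0 :=
      (by unfold dt; fun_prop : ContinuousAt (dt v₀) v).eventually_ne (dt_ne hnz hi hv₀ hv hv')
    filter_upwards [e1, e2] with w w1 w2
    by_cases hw : w ∈ Ω
    · have w3 : s < ∑ i, ‖G w i‖ ^ 2 := not_le.1 fun hc => w1 (subset_closure ⟨hw, hc⟩)
      rw [h3 w hw w2 _ rfl, hAs _ (by nlinarith [sq_nonneg ‖η * (dt v₀ w / dt w p)‖])]
      ring
    · simp only [hΦ, if_neg hw]
  refine ⟨Φ, fun v hv => ContDiffAt.contDiffWithinAt ?_, fun c hc v hv => ?_, h3, h4⟩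
  · have c1 : ContDiffAt ℝ 2 (fun w => dt v₀ w) v := by unfold dt; fun_prop
    have c2 : ContDiffAt ℝ 2 (fun w => dt w p) v := by unfold dt; fun_prop
    by_cases hv' : v ∈ Ω
    · have ha := dt_ne hnz hi hv' hp hp'
      have c3 : ContDiffAt ℝ 2 (fun w => dt v₀ w / dt w p) v := by
        simp only [div_eq_mul_inv]
        exact c1.mul (c2.inv ha)
      have c4 : ContDiffAt ℝ 2 (fun w => h (dt v₀ w / dt w p)) v :=
        ((hh v hv').1.contDiffAt.restrict_scalars ℝ).comp v c3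
      have c5 : ContDiffAt ℝ 2 (fun w => N (dt v₀ w / dt w p)) v :=
        contDiffAt_const.add (ContDiffAt.sum fun i _ => (contDiffAt_pi.1 c4 i).norm_sq ℝ)
      have c6 : ContDiffAt ℝ 2 Φ₁ v := ((c5.log (hN0 _).ne').add
        (hA.contDiffAt.comp v ((c3.norm_sq ℝ).mul c5))).sub
        ((c2.norm_sq ℝ).log (by simpa using ha))
      refine c6.congr_of_eventuallyEq ?_
      filter_upwards [hΩ.mem_nhds hv'] with w hw
      simp only [hΦ, if_pos hw]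
    · exact ((c1.norm_sq ℝ).log (by simpa using dt_ne hnz hi hv₀ hv hv')).neg.congr_of_eventuallyEq
        (h4 v hv hv')
  · by_cases hv' : v ∈ Ω
    · simp only [hΦ, if_pos hv', if_pos (hi c hc v hv'), hΦ₁, dt_smul_left, dt_smul_right,
        mul_div_mul_left _ _ hc, hlog _ _ hc (dt_ne hnz hi hv' hp hp')]
      ring
    · have hcv : c • v ∉ Ω := fun hn => hv' (by
        simpa only [inv_smul_smul₀ hc] using hi _ (inv_ne_zero hc) _ hn)
      simp only [hΦ, if_neg hv', if_neg hcv, dt_smul_right,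
        hlog _ _ hc (dt_ne hnz hi hv₀ hv hv')]
      ring

theorem step (h1 : StokesStmt) {Ω : Set C2} {G : C2 → C3} {v₀ p : C2} {s c : ℝ} {f : ℂ → ℝ}
    (hΩ : IsOpen Ω) (hnz : Ω ⊆ nz)
    (hinv : ∀ c : ℂ, c ≠ 0 → ∀ v ∈ Ω, c • v ∈ Ω ∧ G (c • v) = G v)
    (hG : DifferentiableOn ℂ G Ω) (hv₀ : v₀ ∈ Ω) (h0 : G v₀ = 0) (hp : p ≠ 0) (hp' : p ∉ Ω)
    (hs : 0 < s) (hc : 1 < c * s)
    (hcl : ∀ v, v ≠ 0 → v ∈ closure {w ∈ Ω | ∑ i, ‖G w i‖ ^ 2 ≤ s} → v ∈ Ω) (hf : Integrable f)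
    (hf0 : ∀ z, 0 ≤ f z) (hfE : ∀ z, (z, 1) ∈ Ω → ∑ i, ‖deriv (aff G) z i‖ ^ 2 ≤ f z) :
    Real.pi ≤ c * ∫ z, f z := by
  obtain ⟨A, A', A'', hA, dA, dA', hAs, hA1, hA2⟩ := exists_A hs hc
  obtain ⟨C, hC0, hC⟩ := exists_bound hnz hinv hv₀ hp hp' fun h => hp' (hcl p hp h)
  have hi : ∀ c : ℂ, c ≠ 0 → ∀ v ∈ Ω, c • v ∈ Ω := fun c hc v hv => (hinv c hc v hv).1
  have hc0 : 0 < c := by
    by_contra hn
    nlinarith [not_lt.1 hn]
  set g : ℂ → ℝ := fun z => C * (1 + ‖z‖) ^ (-4 : ℝ) with hg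
  have hgi : Integrable g :=
    (integrable_one_add_norm (E := ℂ) (r := 4) (by simp; norm_num)).const_mul C
  have hg0 : ∀ z, 0 ≤ g z := fun z => by positivity
  have hW : IsOpen {z : ℂ | (z, (1 : ℂ)) ∈ Ω} := hΩ.preimage (by fun_prop)
  have hGa : DifferentiableOn ℂ (aff G) {z : ℂ | (z, (1 : ℂ)) ∈ Ω} :=
    hG.comp (f := fun z : ℂ => (z, (1 : ℂ))) (by fun_prop) fun w hw => hw
  have main : ∀ η : ℝ, η ≠ 0 → Real.pi ≤ c * ((∫ z, f z) + η ^ 2 * ∫ z, g z) := by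
    intro η hη
    obtain ⟨Φ, p1, p2, p3, p4⟩ := exists_pot hΩ hnz hinv hG hv₀ h0 hp hp' hη hA hAs hcl
    obtain ⟨i1, i2⟩ := stokes_pot h1 p1 p2
    have pt : ∀ z, dt v₀ (z, 1) ≠ 0 → -(4 * c) * (f z + η ^ 2 * g z) ≤ lap (aff Φ) z := by
      intro z hb
      have hpos : 0 ≤ f z + η ^ 2 * g z := add_nonneg (hf0 z) (mul_nonneg (sq_nonneg η) (hg0 z))
      have hba : AnalyticAt ℂ (fun y : ℂ => dt v₀ (y, 1)) z := by unfold dt; fun_prop
      have hcz : Tendsto (fun y : ℂ => ((y, 1) : C2)) (𝓝 z) (𝓝 (z, 1)) :=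
        (by fun_prop : Continuous fun y : ℂ => ((y, 1) : C2)).tendsto z
      by_cases hz : (z, 1) ∈ Ω
      swap
      · rw [lap_zero (u := aff Φ) hba hb (hcz.eventually (p4 _ (by simp) hz))]
        nlinarith
      have ha := dt_ne hnz hi hz hp hp'
      have hGz : AnalyticAt ℂ (aff G) z := hGa.analyticAt (hW.mem_nhds hz)
      set F : Option (Fin 3) → ℂ → ℂ := fun o y =>
        o.elim (η * (dt v₀ (y, 1) / dt (y, 1) p)) fun i => G (y, 1) i with hF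
      have hd0 : HasDerivAt (F none) (-(η * (dt v₀ p / dt (z, 1) p ^ 2))) z := by
        have e1 : HasDerivAt (fun y : ℂ => dt v₀ (y, 1)) (-v₀.2) z := by
          simpa [dt] using ((hasDerivAt_id z).const_mul v₀.2).const_sub v₀.1
        have e2 : HasDerivAt (fun y : ℂ => dt (y, 1) p) p.2 z := by
          simpa [dt] using ((hasDerivAt_id z).mul_const p.2).sub_const p.1
        refine ((e1.div e2 ha).const_mul (η : ℂ)).congr_deriv ?_
        rw [← mul_neg, ← neg_div]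
        congr 2
        simp only [dt]
        ring
      have hFa : ∀ o, AnalyticAt ℂ (F o) z := by
        rintro (_ | i)
        · exact analyticAt_const.mul (hba.div (by unfold dt; fun_prop) ha)
        · exact analyticAt_pi_iff.1 hGz i
      have hT0 : 0 < ∑ o, ‖F o z‖ ^ 2 := by
        rw [Fintype.sum_option]
        have : F none z ≠ 0 := mul_ne_zero (ofReal_ne_zero.2 hη) (div_ne_zero hb ha)
        positivity
      have hE : ∑ o, ‖deriv (F o) z‖ ^ 2 =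
          η ^ 2 * ‖dt v₀ p / dt (z, 1) p ^ 2‖ ^ 2 + ∑ i, ‖deriv (aff G) z i‖ ^ 2 := by
        rw [Fintype.sum_option, hd0.deriv, norm_neg, norm_mul, mul_pow, norm_real,
          Real.norm_eq_abs, sq_abs]
        congr 1
        refine Finset.sum_congr rfl fun i _ => ?_
        rw [(hasDerivAt_pi.1 hGz.differentiableAt.hasDerivAt i).deriv.symm]
        rfl
      have hl := lap_ge hFa hba hb dA dA' rfl hT0 (hA1 _ hT0).1 (u := aff Φ) (by
        filter_upwards [hW.mem_nhds hz, hba.continuousAt.eventually_ne hb] with y y1 y2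
        exact p3 _ y1 y2 _ (Fintype.sum_option _))
      refine le_trans ?_ hl
      by_cases ht : ∑ i, ‖G (z, 1) i‖ ^ 2 ≤ s
      · have e1 : ∑ o, ‖deriv (F o) z‖ ^ 2 ≤ f z + η ^ 2 * g z := by
          rw [hE]
          have := mul_le_mul_of_nonneg_left (hC z hz ht) (sq_nonneg η)
          linarith [hfE z hz]
        have e2 : 0 ≤ ∑ o, ‖deriv (F o) z‖ ^ 2 := by positivity
        nlinarith [mul_le_mul_of_nonneg_right (hA1 _ hT0).2 e2,
          mul_le_mul_of_nonneg_left e1 hc0.le]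
      · have e1 : s < ∑ o, ‖F o z‖ ^ 2 := by
          rw [Fintype.sum_option]
          exact (not_le.1 ht).trans_le (le_add_of_nonneg_left (sq_nonneg _))
        rw [hA2 _ e1]
        nlinarith
    have hae : ∀ᵐ z : ℂ, dt v₀ (z, 1) ≠ 0 := by
      filter_upwards [compl_mem_ae_iff.2 (measure_singleton (v₀.1 / v₀.2))] with z hz hz'
      simp only [dt, mul_one, sub_eq_zero] at hz'
      by_cases h2 : v₀.2 = 0
      · exact hnz hv₀ (Prod.ext (by simpa [h2] using hz') h2)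
      · exact hz (by simp [hz', h2])
    have := integral_mono_ae ((hf.add (hgi.const_mul (η ^ 2))).const_mul (-(4 * c))) i1
      (hae.mono pt)
    rw [i2, integral_const_mul, integral_add' hf (hgi.const_mul _), integral_const_mul] at this
    linarith
  have hlim : Tendsto (fun η : ℝ => c * ((∫ z, f z) + η ^ 2 * ∫ z, g z)) (𝓝[≠] 0)
      (𝓝 (c * ((∫ z, f z) + 0 ^ 2 * ∫ z, g z))) :=
    tendsto_nhdsWithin_of_tendsto_nhds (Continuous.tendsto (by fun_prop) 0)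
  simpa using ge_of_tendsto hlim (eventually_nhdsWithin_of_forall main)

end MonoP

theorem mono_of (h1 : StokesStmt) : MonoStmt := by
  intro Ω G r v₀ f hΩ hnz hinv hG hr hcl hv₀ h0 hne hf hf0 hfE
  obtain ⟨p, hp, hp'⟩ := MonoP.exists_out hinv hG hnz hv₀ h0 hne
  by_contra hn
  have hI : 0 ≤ ∫ z, f z := integral_nonneg hf0
  have h2 : (∫ z, f z) / Real.pi < r ^ 2 := by
    rw [div_lt_iff₀ Real.pi_pos, mul_comm]
    exact not_le.1 hn
  obtain ⟨s', h3, h4⟩ := exists_between h2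
  obtain ⟨s, h5, h6⟩ := exists_between h4
  have h7 : 0 < s' := (div_nonneg hI Real.pi_pos.le).trans_lt h3
  have h8 := MonoP.step h1 (c := s'⁻¹) hΩ hnz hinv hG hv₀ h0 hp hp' (h7.trans h5)
    (by rwa [← div_eq_inv_mul, one_lt_div h7]) (hcl s h6) hf hf0 hfE
  rw [← div_eq_inv_mul, le_div_iff₀ h7] at h8
  rw [div_lt_iff₀ Real.pi_pos] at h3
  linarith

end Pool.Agent.MP_9758ca_gt

end MrgPart1

-- ======== part 2: formerly Pool.Agent.MP_9758ca_gt.Gtame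
section MrgPart2

/-!
PROJECT BALL, module GTAME: the form of the example tames the almost complex structure.
-/

open scoped Topology ContDiff ComplexConjugate
open Set Metric Filter Complex

namespace Pool.Agent.MP_9758ca_gt

namespace GtameP

/-- the Fubini-Study density -/
noncomputable def fs {m : ℕ} (n a : Fin m → ℂ) : ℝ :=
  (nsq a * nsq n - ‖her n a‖ ^ 2) / (Real.pi * nsq n ^ 2)

theorem fs_nonneg {m : ℕ} (n a : Fin m → ℂ) : 0 ≤ fs n a := by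
  have h := her_cs n a
  exact div_nonneg (by linarith) (by positivity)

theorem fs_zero {m : ℕ} {n a : Fin m → ℂ} (hn : n ≠ 0) (h : fs n a ≤ 0) : ∃ c : ℂ, a = c • n := by
  have h1 := her_cs n a
  have h2 : 0 < Real.pi * nsq n ^ 2 := by have := nsq_pos hn; positivity
  have h3 : nsq a * nsq n - ‖her n a‖ ^ 2 ≤ 0 := by
    have := (div_le_iff₀ h2).1 h
    linarith
  exact her_cs_eq hn (by linarith)

theorem lagr (n a : C3) : ‖a 1 * n 2 - n 1 * a 2‖ ^ 2 ≤ nsq a * nsq n - ‖her n a‖ ^ 2 := by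
  have h : nsq a * nsq n - ‖her n a‖ ^ 2 = ‖a 0 * n 1 - n 0 * a 1‖ ^ 2 +
      ‖a 0 * n 2 - n 0 * a 2‖ ^ 2 + ‖a 1 * n 2 - n 1 * a 2‖ ^ 2 := by
    simp only [nsq, her, Fin.sum_univ_three, Complex.sq_norm, normSq_apply, add_re, add_im,
      mul_re, mul_im, sub_re, sub_im, conj_re, conj_im]
    ring
  rw [h]
  have h1 := sq_nonneg ‖a 0 * n 1 - n 0 * a 1‖
  have h2 := sq_nonneg ‖a 0 * n 2 - n 0 * a 2‖
  linarith

/-- the twisting form is controlled by the Fubini-Study form -/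
theorem al_bound {L : ℝ} (hL : ∀ t, |deriv rho t| ≤ L) (n a : C3) (t : ℂ) :
    al n a ^ 2 + al n (t • n + I • a) ^ 2 ≤ L ^ 2 * fs n a := by
  by_cases h0 : al n = 0
  · rw [h0]
    have := mul_nonneg (sq_nonneg L) (fs_nonneg n a)
    simpa using this
  obtain ⟨h2, hr0, -, hr1⟩ := al_supp (Or.inl h0)
  have hp : 0 < ‖n 2‖ ^ 2 := pow_pos (norm_pos_iff.2 h2) 2
  set W : ℂ := (a 1 * n 2 - n 1 * a 2) / n 2 ^ 2 with hW
  set z : ℂ := conj (n 1 / n 2) * W with hz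
  have e1 : al n a = chi (r0 n) * deriv rho (r1 n) * (2 * z.re) := al_apply h2 a
  have e2 : al n (t • n + I • a) = chi (r0 n) * deriv rho (r1 n) * (2 * (I * z).re) := by
    rw [al_apply h2]
    congr 3
    simp only [hz, hW, Pi.add_apply, Pi.smul_apply, smul_eq_mul]
    ring
  have e3 : z.re ^ 2 + (I * z).re ^ 2 = r1 n * ‖W‖ ^ 2 := by
    have e4 : ‖z‖ ^ 2 = r1 n * ‖W‖ ^ 2 := by
      rw [hz, norm_mul, Complex.norm_conj, norm_div, mul_pow, div_pow, r1]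
    rw [← e4, Complex.sq_norm, normSq_apply]
    simp only [mul_re, I_re, I_im]
    ring
  have hc : chi (r0 n) ^ 2 ≤ 1 := by
    have h := stp_mem (1 / 4) 1 (r0 n)
    exact pow_le_one₀ h.1 h.2
  have hd : deriv rho (r1 n) ^ 2 ≤ L ^ 2 := sq_le_sq' (abs_le.1 (hL _)).1 (abs_le.1 (hL _)).2
  have hr : 0 ≤ r1 n := div_nonneg (sq_nonneg _) (sq_nonneg _)
  have hw : ‖W‖ ^ 2 * (‖n 2‖ ^ 2) ^ 2 ≤ nsq a * nsq n - ‖her n a‖ ^ 2 := by
    refine le_trans (le_of_eq ?_) (lagr n a)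
    rw [hW, norm_div, norm_pow, div_pow, div_mul_cancel₀ _ (by positivity)]
  have hn : nsq n ≤ 201 / 100 * ‖n 2‖ ^ 2 := by
    have a0 : ‖n 0‖ ^ 2 ≤ ‖n 2‖ ^ 2 := by
      have := (div_lt_iff₀ hp).1 hr0
      linarith
    have a1 : ‖n 1‖ ^ 2 ≤ 1 / 100 * ‖n 2‖ ^ 2 := ((div_lt_iff₀ hp).1 hr1).le
    simp only [nsq, Fin.sum_univ_three]
    linarith
  have hn0 : 0 < nsq n := nsq_pos fun h => h2 (congrFun h 2)
  have hfs : ‖W‖ ^ 2 / 25 ≤ fs n a := by
    rw [fs, le_div_iff₀ (by positivity)]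
    refine le_trans ?_ hw
    have b1 : nsq n ^ 2 ≤ (201 / 100 * ‖n 2‖ ^ 2) ^ 2 := pow_le_pow_left₀ hn0.le hn 2
    have b2 : Real.pi * nsq n ^ 2 ≤ 4 * (201 / 100 * ‖n 2‖ ^ 2) ^ 2 :=
      mul_le_mul Real.pi_le_four b1 (sq_nonneg _) (by norm_num)
    have b3 : 0 ≤ ‖W‖ ^ 2 := sq_nonneg _
    have b4 : 0 ≤ (‖n 2‖ ^ 2) ^ 2 := sq_nonneg _
    nlinarith [mul_le_mul_of_nonneg_left b2 b3, mul_nonneg b3 b4]
  have e5 : al n a ^ 2 + al n (t • n + I • a) ^ 2 =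
      4 * (chi (r0 n) ^ 2 * deriv rho (r1 n) ^ 2) * (r1 n * ‖W‖ ^ 2) := by
    rw [e1, e2, ← e3]; ring
  have b5 : chi (r0 n) ^ 2 * deriv rho (r1 n) ^ 2 ≤ 1 * L ^ 2 :=
    mul_le_mul hc hd (sq_nonneg _) zero_le_one
  have b6 : r1 n * ‖W‖ ^ 2 ≤ 1 / 100 * ‖W‖ ^ 2 :=
    mul_le_mul_of_nonneg_right hr1.le (sq_nonneg _)
  have b7 : 4 * (chi (r0 n) ^ 2 * deriv rho (r1 n) ^ 2) * (r1 n * ‖W‖ ^ 2) ≤
      4 * (1 * L ^ 2) * (1 / 100 * ‖W‖ ^ 2) :=
    mul_le_mul (by linarith) b6 (by positivity) (by positivity)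
  have b8 := mul_le_mul_of_nonneg_left hfs (sq_nonneg L)
  rw [e5]
  linarith

/-- derivative of an affine coordinate -/
theorem fderiv_ratio {k : Fin 3} {x : VV} (h : x.1.1 k k ≠ 0) (i : Fin 3) (v : VV) :
    fderiv ℝ (fun y : VV => y.1.1 i k / y.1.1 k k) x v =
      (v.1.1 i k * x.1.1 k k - x.1.1 i k * v.1.1 k k) / x.1.1 k k ^ 2 := by
  have p : ∀ l, HasFDerivAt (fun y : VV => y.1.1 l k)
      ((ContinuousLinearMap.proj l : C3 →L[ℝ] ℂ).comp (colL k)) x := fun l =>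
    ((ContinuousLinearMap.proj l : C3 →L[ℝ] ℂ).comp (colL k)).hasFDerivAt
  have p3 := ((hasDerivAt_inv h).hasFDerivAt.restrictScalars ℝ).comp x (p k)
  have p4 := (p i).mul p3
  have he : (fun y : VV => y.1.1 i k / y.1.1 k k) = fun y : VV => y.1.1 i k * (y.1.1 k k)⁻¹ := by
    funext y; rw [div_eq_mul_inv]
  rw [he]
  erw [p4.fderiv]
  simp [colL_apply]
  field_simp
  ring

/-- the base relation in homogeneous coordinates -/
theorem col_rel {k : Fin 3} {x a b : VV} (h : x.1.1 k k ≠ 0)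
    (h1 : fderiv ℝ (xk k) x b = I * fderiv ℝ (xk k) x a)
    (h2 : fderiv ℝ (yk k) x b = I * fderiv ℝ (yk k) x a) :
    ∃ t : ℂ, colL k b = t • colL k x + I • colL k a := by
  refine ⟨(b.1.1 k k - I * a.1.1 k k) / x.1.1 k k, funext fun i => ?_⟩
  have key : ∀ l : Fin 3, fderiv ℝ (fun y : VV => y.1.1 l k / y.1.1 k k) x b =
      I * fderiv ℝ (fun y : VV => y.1.1 l k / y.1.1 k k) x a →
      b.1.1 l k = (b.1.1 k k - I * a.1.1 k k) / x.1.1 k k * x.1.1 l k + I * a.1.1 l k := by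
    intro l hl
    rw [fderiv_ratio h, fderiv_ratio h] at hl
    field_simp at hl ⊢
    linear_combination hl
  simp only [Pi.add_apply, Pi.smul_apply, smul_eq_mul, colL_apply]
  rcases Fin.eq_self_or_eq_succAbove k i with rfl | ⟨l, rfl⟩
  · field_simp
    ring
  · fin_cases l
    · exact key _ h1
    · exact key _ h2

theorem ratio_zero {k : Fin 3} {x a : VV} (h : x.1.1 k k ≠ 0) {c : ℂ}
    (hc : colL k a = c • colL k x) : fderiv ℝ (xk k) x a = 0 ∧ fderiv ℝ (yk k) x a = 0 := by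
  have key : ∀ l : Fin 3, fderiv ℝ (fun y : VV => y.1.1 l k / y.1.1 k k) x a = 0 := by
    intro l
    have e1 : a.1.1 l k = c * x.1.1 l k := congrFun hc l
    have e2 : a.1.1 k k = c * x.1.1 k k := congrFun hc k
    rw [fderiv_ratio h, e1, e2]
    ring
  exact ⟨key _, key _⟩

theorem fderiv_prj_self {m : ℕ} {n : Fin m → ℂ} (h : n ≠ 0) (c : ℂ) :
    fderiv ℝ prj n (c • n) = 0 := by
  have h1 : HasDerivAt (fun s : ℝ => n + s • (c • n)) (c • n) 0 := by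
    simpa using ((hasDerivAt_id (0 : ℝ)).smul_const (c • n)).const_add n
  have h2 : HasFDerivAt prj (fderiv ℝ prj n) (n + (0 : ℝ) • (c • n)) := by
    simpa using ((contDiffAt_prj h).differentiableAt (by simp)).hasFDerivAt
  have h3 := h2.comp_hasDerivAt (0 : ℝ) h1
  have h4 : ∀ᶠ s : ℝ in 𝓝 0, (1 + s * c : ℂ) ≠ 0 :=
    ContinuousAt.eventually_ne (by fun_prop) (by simp)
  have h5 : (fun _ : ℝ => prj n) =ᶠ[𝓝 0] (prj ∘ fun s : ℝ => n + s • (c • n)) := by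
    filter_upwards [h4] with s hs
    have e : n + s • (c • n) = (1 + s * c : ℂ) • n := by
      funext i
      simp only [Pi.add_apply, Pi.smul_apply, smul_eq_mul, Complex.real_smul]
      ring
    simp only [Function.comp_apply, e, prj_smul hs]
  exact (h3.congr_of_eventuallyEq h5).unique (hasDerivAt_const _ _)

/-- a tangent vector that is vertical for the projection to the plane -/
theorem P_zero {k : Fin 3} {x a : VV} (hx : x ∈ SS) (h : x.1.1 k k ≠ 0) (ha : a ∈ tan SS x) {c : ℂ}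
    (hc : colL k a = c • colL k x) : a.1.1 = 0 := by
  let Lp : VV →L[ℝ] M3 := (ContinuousLinearMap.fst ℝ M3 (ℂ × M4)).comp
    (ContinuousLinearMap.fst ℝ W0 ℝ)
  have h1 : DifferentiableAt ℝ prj (colL k x) :=
    (contDiffAt_prj (colL_ne h)).differentiableAt (by simp)
  have h2 := h1.hasFDerivAt.comp x (colL k).hasFDerivAt
  have e1 : ∀ᶠ y : VV in 𝓝 x, y.1.1 k k ≠ 0 :=
    (contDiff_P k k).continuous.continuousAt.eventually_ne h
  have h3 := fderiv_eq_on_tan hx Lp.differentiableAt h2.differentiableAt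
    (e1.mono fun y hy hS => SS_col hS hy) ha
  rw [Lp.fderiv, h2.fderiv] at h3
  have h4 : a.1.1 = fderiv ℝ prj (colL k x) (colL k a) := h3
  rw [h4, hc, fderiv_prj_self (colL_ne h)]

/-- the base part is nonnegative, with a description of its kernel -/
theorem base {L : ℝ} (hL : ∀ t, |deriv rho t| ≤ L) {i : Idx} {x a b : VV} (h : x ∈ dom i)
    (hr : BaseRel x a b) :
    0 ≤ dd (lamH i) x a b + dd (lamB (1 / (L ^ 2 + 1)) i) x a b ∧
    (dd (lamH i) x a b + dd (lamB (1 / (L ^ 2 + 1)) i) x a b ≤ 0 →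
      et i.2.1 i.2.2 x a = 0 ∧ (∃ c : ℂ, colL i.2.1 a = c • colL i.2.1 x) ∧
        ∃ c : ℂ, colL i.2.1 b = c • colL i.2.1 x) := by
  obtain ⟨ty, k, j⟩ := i
  obtain ⟨h1, h2, h3, -⟩ := h
  obtain ⟨r1, r2, r3⟩ := hr k j h1 h3
  obtain ⟨t, ht⟩ := col_rel h1 r1 r2
  have hn := colL_ne h1
  set b₀ : ℝ := 1 / (L ^ 2 + 1) with hb₀
  have hb0 : 0 < b₀ := by positivity
  have hb1 : b₀ * L ^ 2 ≤ 1 := by
    rw [hb₀, one_div, inv_mul_le_iff₀ (by positivity)]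
    linarith
  have e1 : dd (lamH (ty, k, j)) x a b = fs (colL k x) (colL k a) := by
    refine (dd_th_clm (colL k) hn a b).trans ?_
    rw [ht, dd_th_I hn]
    rfl
  have e2 := dd_lamB b₀ (ty, k, j) h2 a b
  have hA := al_bound hL (colL k x) (colL k a) t
  rw [← ht] at hA
  rw [et_apply, et_apply] at r3
  have r4 := congrArg Complex.re r3
  have r5 := congrArg Complex.im r3
  simp only [sub_re, add_re, mul_re, sub_im, add_im, mul_im, ofReal_re, ofReal_im, I_re, I_im,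
    mul_zero, zero_mul, one_mul, sub_zero, add_zero, zero_add, zero_sub] at r4 r5
  set A := al (colL k x) (colL k a) with hAd
  set B := al (colL k x) (colL k b)
  set κ := kap (x.2 - j) with hκ
  set β := bb b₀ (x.2 - j) with hβ
  set F := fs (colL k x) (colL k a) with hF
  set s := ds x a
  have hF0 : 0 ≤ F := fs_nonneg _ _
  have hβ0 : 0 < β := bb_pos hb0 _
  have e3 : dd (lamB b₀ (ty, k, j)) x a b =
      β * (s ^ 2 + a.2 ^ 2 - κ * A * s - κ * B * a.2) := by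
    have e4 : ds x b = κ * B - a.2 := by linarith
    rw [e2, e4, r5]
    ring
  have hk : β * (κ ^ 2 * (A ^ 2 + B ^ 2)) ≤ F := by
    by_cases h0 : 1 / 10 ≤ |x.2 - j|
    · rw [hκ, kap_zero h0]
      simpa using hF0
    · have hκ1 : κ ^ 2 ≤ 1 := by
        have h := stp_mem (1 / 400) (1 / 100) ((x.2 - j) ^ 2)
        exact pow_le_one₀ h.1 h.2
      rw [hβ, bb_small (not_le.1 h0).le]
      have c1 : κ ^ 2 * (A ^ 2 + B ^ 2) ≤ 1 * (L ^ 2 * F) :=
        mul_le_mul hκ1 hA (by positivity) zero_le_one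
      have c2 := mul_le_mul_of_nonneg_left c1 hb0.le
      have c3 := mul_le_mul_of_nonneg_right hb1 hF0
      linarith
  have low : F / 2 + β / 2 * (s ^ 2 + a.2 ^ 2) ≤
      dd (lamH (ty, k, j)) x a b + dd (lamB b₀ (ty, k, j)) x a b := by
    rw [e1, e3]
    have c1 := mul_nonneg hβ0.le (sq_nonneg (s - κ * A))
    have c2 := mul_nonneg hβ0.le (sq_nonneg (a.2 - κ * B))
    have c3 : β * (s ^ 2 + a.2 ^ 2 - κ * A * s - κ * B * a.2) = β / 2 * (s ^ 2 + a.2 ^ 2) +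
        (β * (s - κ * A) ^ 2 + β * (a.2 - κ * B) ^ 2 - β * (κ ^ 2 * (A ^ 2 + B ^ 2))) / 2 := by
      ring
    linarith
  have c4 : 0 ≤ β / 2 * (s ^ 2 + a.2 ^ 2) := by positivity
  refine ⟨by linarith, fun h0 => ?_⟩
  obtain ⟨c, hc⟩ := fs_zero hn (show F ≤ 0 by linarith)
  have c5 : s ^ 2 + a.2 ^ 2 ≤ 0 := by
    by_contra hh
    have := mul_pos (half_pos hβ0) (not_le.1 hh)
    linarith
  have hs : s = 0 := pow_eq_zero_iff two_ne_zero |>.1
    (le_antisymm (by linarith [sq_nonneg a.2]) (sq_nonneg s))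
  have hT : a.2 = 0 := pow_eq_zero_iff two_ne_zero |>.1
    (le_antisymm (by linarith [sq_nonneg s]) (sq_nonneg a.2))
  have hA0 : A = 0 := by
    have := al_scale hn one_ne_zero c 0
    rw [one_smul, smul_zero, add_zero, map_zero, ← hc] at this
    exact this
  refine ⟨?_, ⟨c, hc⟩, t + I * c, ?_⟩
  · rw [et_apply]
    change ((s : ℝ) : ℂ) + I * (a.2 : ℝ) - κ * A = 0
    rw [hs, hT, hA0]
    simp
  · change colL k b = _
    rw [ht, hc, add_smul, smul_smul]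

/-- positivity of a pulled back Fubini-Study form -/
theorem pos_of_lift {x a b : VV} (hx : x ∈ SS) (ha : a ∈ tan SS x) (hb : b ∈ tan SS x)
    (Lr : VV →L[ℝ] C4) {g : VV → C4} {c : VV → ℂ} (hg : DifferentiableAt ℝ g x)
    (hc : DifferentiableAt ℝ c x) (h0 : g x ≠ 0) (hc0 : c x ≠ 0) (hL : Lr x ≠ 0)
    (he : ∀ᶠ y in 𝓝 x, y ∈ SS → Lr y = c y • g y) (hab : fderiv ℝ g x b = I • fderiv ℝ g x a)
    (hne : ∀ s : ℂ, fderiv ℝ g x a ≠ s • g x) :
    0 < dd (fun y => (th (Lr y)).comp Lr) x a b := by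
  have h1 := dd_th_lift hx hg Lr.differentiableAt hc h0 hc0 he ha hb
  have h2 := dd_th_I h0 (fderiv ℝ g x a) 0
  rw [zero_smul, zero_add, ← hab] at h2
  rw [Lr.fderiv] at h1
  rw [dd_th_clm Lr hL, h1, h2]
  by_contra hh
  obtain ⟨s, hs⟩ := fs_zero h0 (not_lt.1 hh)
  exact hne s hs

/-- the cubes of a row -/
def G0 (k : Fin 3) (P : M3) : C4 := ![P k 0 ^ 3, P k 1 ^ 3, P k 2 ^ 3, 0]

def e3 : C4 := ![0, 0, 0, 1]

theorem G0_cast (k : Fin 3) (P : M3) : G0 k P k.castSucc = P k k ^ 3 := by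
  fin_cases k <;> rfl

theorem e3_cast (k : Fin 3) : e3 k.castSucc = 0 := by
  fin_cases k <;> rfl

theorem row_eq (p q : ℂ) (k : Fin 3) (P : M3) :
    (![p * P k 0 ^ 3, p * P k 1 ^ 3, p * P k 2 ^ 3, q] : C4) = p • G0 k P + q • e3 := by
  funext i
  fin_cases i <;> simp [G0, e3]

theorem diff_G0 (k : Fin 3) : Differentiable ℝ (G0 k) := by
  refine differentiable_pi.2 fun i => ?_
  fin_cases i
  · change Differentiable ℝ fun P : M3 => P k 0 ^ 3
    fun_prop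
  · change Differentiable ℝ fun P : M3 => P k 1 ^ 3
    fun_prop
  · change Differentiable ℝ fun P : M3 => P k 2 ^ 3
    fun_prop
  · change Differentiable ℝ fun _ : M3 => (0 : ℂ)
    fun_prop

theorem hasF_G0 (k : Fin 3) (x : VV) : ∃ D : VV →L[ℝ] C4,
    HasFDerivAt (fun y : VV => G0 k y.1.1) D x ∧ ∀ v : VV, v.1.1 = 0 → D v = 0 := by
  let Lp : VV →L[ℝ] M3 := (ContinuousLinearMap.fst ℝ M3 (ℂ × M4)).comp
    (ContinuousLinearMap.fst ℝ W0 ℝ)
  have h1 := (diff_G0 k (Lp x)).hasFDerivAt.comp x Lp.hasFDerivAt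
  refine ⟨_, h1, fun v hv => ?_⟩
  change fderiv ℝ (G0 k) x.1.1 v.1.1 = 0
  rw [hv, map_zero]

theorem col_one {x : VV} (hx : x ∈ SS) {k : Fin 3} {j : ℤ} (h : x ∈ dom (1, k, j)) :
    colR k.castSucc x = (x.1.2.2 k.castSucc k.castSucc / x.1.1 k k ^ 3) •
      (G0 k x.1.1 + mu1 k x • e3) := by
  obtain ⟨h1, -, h3, h4, h5⟩ := h
  obtain ⟨p, q, -, -, e2⟩ := (SS_char hx h1 h3).2.2.2 h4
  have h6 : x.1.2.2 k.castSucc k.castSucc ≠ 0 := h5
  have h1' : x.1.1 k k ≠ 0 := h1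
  have h7 : (p • G0 k x.1.1 + q • e3) k.castSucc ≠ 0 := by
    rw [e2, row_eq] at h6
    exact prj_diag_ne.1 h6
  have h8 : ∀ i, x.1.2.2 i k.castSucc / x.1.2.2 k.castSucc k.castSucc =
      (p * G0 k x.1.1 i + q * e3 i) / (p * x.1.1 k k ^ 3) := by
    intro i
    rw [e2, row_eq, prj_ratio h7 i]
    simp only [Pi.add_apply, Pi.smul_apply, smul_eq_mul, G0_cast, e3_cast, mul_zero, add_zero]
  have hp : p ≠ 0 := by
    simp only [Pi.add_apply, Pi.smul_apply, smul_eq_mul, G0_cast, e3_cast, mul_zero,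
      add_zero] at h7
    exact left_ne_zero_of_mul h7
  have e4 : mu1 k x = q / p := by
    rw [mu1, mul_div_assoc, h8]
    change x.1.1 k k ^ 3 * ((p * 0 + q * 1) / _) = _
    field_simp
    ring
  funext i
  have h9 := h8 i
  simp only [Pi.add_apply, Pi.smul_apply, smul_eq_mul, colR_apply, e4]
  field_simp at h9 ⊢
  linear_combination h9

theorem col_two {x : VV} (hx : x ∈ SS) {k : Fin 3} {j : ℤ} (h1 : x.1.1 k k ≠ 0)
    (h3 : |x.2 - j| < 3 / 4) (h4 : nsq (NA k j x) < 1 / 200000000) (h6 : x.1.2.2 3 3 ≠ 0) :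
    colR 3 x = x.1.2.2 3 3 • (mu2 k x • G0 k x.1.1 + e3) := by
  obtain ⟨p, q, -, -, e2⟩ := (SS_char hx h1 h3).2.2.2 h4
  have h7 : (p • G0 k x.1.1 + q • e3) 3 ≠ 0 := by
    rw [e2, row_eq] at h6
    exact prj_diag_ne.1 h6
  have h5 : (p • G0 k x.1.1 + q • e3) 3 = q := by
    change p * 0 + q * 1 = q
    ring
  have h8 : ∀ i, x.1.2.2 i 3 / x.1.2.2 3 3 = (p * G0 k x.1.1 i + q * e3 i) / q := by
    intro i
    rw [e2, row_eq, prj_ratio h7 i, h5]
    rfl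
  rw [h5] at h7
  have e4 : mu2 k x = p / q := by
    rw [mu2, ← div_div, h8, G0_cast, e3_cast]
    field_simp
    ring
  funext i
  have h9 := h8 i
  simp only [Pi.add_apply, Pi.smul_apply, smul_eq_mul, colR_apply, e4]
  field_simp at h9 ⊢
  linear_combination h9

theorem exc_one {x a b : VV} (hx : x ∈ SS) {k : Fin 3} {j : ℤ} (h : x ∈ dom (1, k, j))
    (ha : a ∈ tan SS x) (hb : b ∈ tan SS x) (pa : a.1.1 = 0) (pb : b.1.1 = 0)
    (hm : fderiv ℝ (mu1 k) x b = I * fderiv ℝ (mu1 k) x a) (hne : fderiv ℝ (mu1 k) x a ≠ 0) :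
    0 < dd (lamS (1, k, j)) x a b := by
  have h1 : x.1.1 k k ≠ 0 := h.1
  have h6 : x.1.2.2 k.castSucc k.castSucc ≠ 0 := h.2.2.2.2
  obtain ⟨D, hD, hD0⟩ := hasF_G0 k x
  have hμ := ((contDiffAt_mu1 h6).differentiableAt (by simp)).hasFDerivAt
  have hg := hD.add (hμ.smul_const e3)
  have hv : ∀ v : VV, v.1.1 = 0 → fderiv ℝ ((fun y : VV => G0 k y.1.1) + fun y => mu1 k y • e3) x v =
      fderiv ℝ (mu1 k) x v • e3 := by
    intro v hv
    rw [hg.fderiv, _root_.add_apply, hD0 v hv, zero_add]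
    rfl
  have hc : DifferentiableAt ℝ (fun y : VV => y.1.2.2 k.castSucc k.castSucc / y.1.1 k k ^ 3) x :=
    (((contDiff_R _ _).contDiffAt.mul (((contDiff_P k k).contDiffAt.pow 3).inv
      (pow_ne_zero 3 h1))).differentiableAt (by simp))
  have hk : ((fun y : VV => G0 k y.1.1) + fun y => mu1 k y • e3) x k.castSucc = x.1.1 k k ^ 3 := by
    simp only [Pi.add_apply, Pi.smul_apply, smul_eq_mul, G0_cast, e3_cast, mul_zero, add_zero]
  refine pos_of_lift hx ha hb (colR k.castSucc) hg.differentiableAt hc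
    (fun h0 => pow_ne_zero 3 h1 (hk.symm.trans (congrFun h0 _)))
    (div_ne_zero h6 (pow_ne_zero 3 h1)) (colR_ne h6) ?_ ?_ fun s hs => ?_
  · filter_upwards [(isOpen_dom (1, k, j)).mem_nhds h] with y hy hS using col_one hS hy
  · rw [hv a pa, hv b pb, hm, smul_smul]
  · rw [hv a pa] at hs
    have e1 := congrFun hs k.castSucc
    rw [Pi.smul_apply, Pi.smul_apply, hk, e3_cast, smul_zero, smul_eq_mul] at e1
    have e2 : s = 0 := (mul_eq_zero.1 e1.symm).resolve_right (pow_ne_zero 3 h1)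
    have e4 := congrFun hs 3
    rw [e2, zero_smul] at e4
    exact hne (by simpa [e3] using e4)

theorem exc_two {x a b : VV} (hx : x ∈ SS) {k : Fin 3} {j : ℤ}
    (h : ∀ᶠ y : VV in 𝓝 x, y.1.1 k k ≠ 0 ∧ |y.2 - j| < 3 / 4 ∧ nsq (NA k j y) < 1 / 200000000 ∧
      y.1.2.2 3 3 ≠ 0)
    (ha : a ∈ tan SS x) (hb : b ∈ tan SS x) (pa : a.1.1 = 0) (pb : b.1.1 = 0)
    (hm : fderiv ℝ (mu2 k) x b = I * fderiv ℝ (mu2 k) x a) (hne : fderiv ℝ (mu2 k) x a ≠ 0) :
    0 < dd (fun y => (th (colR 3 y)).comp (colR 3)) x a b := by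
  obtain ⟨h1, -, -, h6⟩ := h.self_of_nhds
  obtain ⟨D, hD, hD0⟩ := hasF_G0 k x
  have hμ := ((contDiffAt_mu2 h1 h6).differentiableAt (by simp)).hasFDerivAt
  have hg := (hμ.smul hD).add_const e3
  have hv : ∀ v : VV, v.1.1 = 0 →
      fderiv ℝ (fun y => (mu2 k • fun y : VV => G0 k y.1.1) y + e3) x v =
      fderiv ℝ (mu2 k) x v • G0 k x.1.1 := by
    intro v hv
    rw [hg.fderiv, _root_.add_apply, _root_.smul_apply, hD0 v hv,
      smul_zero, zero_add]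
    rfl
  have hk : ((mu2 k • fun y : VV => G0 k y.1.1) x + e3) 3 = 1 := by
    change mu2 k x * 0 + 1 = 1
    ring
  refine pos_of_lift hx ha hb (colR 3) hg.differentiableAt
    ((contDiff_R 3 3).differentiable (by simp) x)
    (fun h0 => one_ne_zero (hk.symm.trans (congrFun h0 _))) h6 (colR_ne h6) ?_ ?_ fun s hs => ?_
  · filter_upwards [h] with y hy hS using col_two hS hy.1 hy.2.1 hy.2.2.1 hy.2.2.2
  · rw [hv a pa, hv b pb, hm, smul_smul]
  · rw [hv a pa] at hs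
    have e1 := congrFun hs 3
    rw [Pi.smul_apply, Pi.smul_apply, hk, smul_eq_mul, smul_eq_mul, mul_one] at e1
    have e2 : s = 0 := by
      rw [← e1]
      exact mul_zero _
    have e4 := congrFun hs k.castSucc
    rw [e2, zero_smul, Pi.smul_apply, G0_cast, smul_eq_mul] at e4
    exact mul_ne_zero hne (pow_ne_zero 3 h1) e4

theorem pi3_zero {f g h : VV →L[ℝ] ℂ} {a : VV} (h1 : f a = 0) (h2 : g a = 0) (h3 : h a = 0) :
    (ContinuousLinearMap.pi ![f, g, h] : VV →L[ℝ] C3) a = 0 := by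
  funext i
  fin_cases i
  exacts [h1, h2, h3]

/-- the exceptional form is positive where the base part vanishes -/
theorem exc {i : Idx} {x a b : VV} (hx : x ∈ SS) (h : x ∈ dom i) (ha : a ∈ tan SS x)
    (hb : b ∈ tan SS x) (hab : cof i x b = I • cof i x a) (hne : cof i x a ≠ 0)
    (h0 : et i.2.1 i.2.2 x a = 0) {c c' : ℂ} (hc : colL i.2.1 a = c • colL i.2.1 x)
    (hc' : colL i.2.1 b = c' • colL i.2.1 x) : 0 < dd (lamS i) x a b := by
  obtain ⟨ty, k, j⟩ := i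
  have h1 : x.1.1 k k ≠ 0 := h.1
  have pa := P_zero hx h1 ha hc
  have pb := P_zero hx h1 hb hc'
  obtain ⟨z1, z2⟩ := ratio_zero h1 hc
  have z3 : nsq (NA k j x) < 1 / 200000000 → fderiv ℝ (XiA k j) x a = 0 := fun hs => by
    rw [(fderiv_XiA hx h1 (hs.trans (by norm_num)) ha).1, h0, mul_zero]
  have h2 := congrFun hab 2
  have hn := (isOpen_dom _).mem_nhds h
  fin_cases ty
  · exact absurd (pi3_zero z1 z2 h0) hne
  · exact exc_one hx h ha hb pa pb h2 fun z => hne (pi3_zero z1 z2 z)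
  · refine exc_two hx (j := j) ?_ ha hb pa pb h2 fun z => hne (pi3_zero z2 (z3 h.2.2.2.1) z)
    filter_upwards [hn] with y hy using ⟨hy.1, hy.2.2.1, hy.2.2.2.1, hy.2.2.2.2.1⟩
  · refine exc_two hx (j := j) ?_ ha hb pa pb h2 fun z => hne (pi3_zero z1 (z3 h.2.2.2.1) z)
    filter_upwards [hn] with y hy using ⟨hy.1, hy.2.2.1, hy.2.2.2.1, hy.2.2.2.2.1⟩

/-- the compactness argument -/
theorem small {X : Type} [TopologicalSpace X] {K : Set X} (hK : IsCompact K) {f g : X → ℝ}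
    (hf : Continuous f) (hg : Continuous g) (h0 : ∀ x ∈ K, 0 ≤ f x)
    (h1 : ∀ x ∈ K, f x ≤ 0 → 0 < g x) :
    ∃ ε₀ : ℝ, 0 < ε₀ ∧ ∀ ε, 0 < ε → ε ≤ ε₀ → ∀ x ∈ K, 0 < f x + ε * g x := by
  have hK' : IsCompact (K ∩ {x | g x ≤ 0}) := hK.inter_right (isClosed_le hg continuous_const)
  obtain ⟨m, hm, hm'⟩ := hK'.exists_forall_le' (a := 0) hf.continuousOn
    fun x hx => lt_of_not_ge fun hh => absurd (h1 x hx.1 hh) (not_lt.2 hx.2)
  obtain ⟨C, hC⟩ := hK.exists_bound_of_continuousOn hg.continuousOn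
  refine ⟨m / (2 * (|C| + 1)), by positivity, fun ε hε hε' x hx => ?_⟩
  by_cases hx' : g x ≤ 0
  · have c1 := hm' x ⟨hx, hx'⟩
    have c2 : -|C| ≤ g x := by
      have := (abs_le.1 ((Real.norm_eq_abs _).symm.trans_le (hC x hx))).1
      linarith [le_abs_self C]
    have c3 : ε * (2 * (|C| + 1)) ≤ m := (le_div_iff₀ (by positivity)).1 hε'
    have c4 := mul_le_mul_of_nonneg_left c2 hε.le
    have c5 := mul_nonneg hε.le (abs_nonneg C)
    linarith
  · have c1 := h0 x hx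
    have c2 := mul_pos hε (not_le.1 hx')
    linarith

end GtameP

open GtameP in
theorem gtame_of (h1 : GcompStmt) (h2 : GcptStmt) (h3 : AmbientStmt) : GtameStmt := by
  obtain ⟨L, hL⟩ := exists_deriv_rho_bound
  obtain ⟨hret, hbase, -, -, hpre⟩ := h1
  set b₀ : ℝ := 1 / (L ^ 2 + 1) with hb₀
  obtain ⟨O, M, π, om, h, J, hA, hKM, hJ, -, hR⟩ :=
    (h3 VV (atl b₀ 0 false) SS hret (hpre b₀ 0 false).1).2 (hpre b₀ 0 false).2 _ (h2.1 1)
      fun x hx => hx.1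
  have hinj := (hpre b₀ 0 false).1.inj
  have htan : ∀ x ∈ M, tan M x = tan SS x := fun x hx =>
    tan_congr ((hR.rel x hx).mono fun y hy => ⟨fun hy' => hR.sub hy', hy⟩)
  have hform : ∀ i, ∀ x ∈ M, x ∈ dom i → ∀ a ∈ tan SS x,
      om x a (J x a) = dd (lamH i) x a (J x a) + dd (lamB b₀ i) x a (J x a) ∧
      h x a (J x a) = dd (lamS i) x a (J x a) := by
    intro i x hx hi a ha
    obtain ⟨e1, e2⟩ := hR.form i x hx hi a ha _ (hR.cx i x hx hi a ha).1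
    refine ⟨?_, e2⟩
    rw [e1, dd_atl b₀ 0 false hi, zero_mul, add_zero]
  have hcl : IsClosed {q : VV × VV | fderiv ℝ π q.1 q.2 = q.2} :=
    isClosed_eq ((((hA.sm.continuous_fderiv (by simp)).comp continuous_fst)).clm_apply
      continuous_snd) continuous_snd
  have hK := ((h2.1 1).prod (isCompact_sphere (0 : VV) 1)).inter_right hcl
  have cJ : Continuous fun q : VV × VV => J q.1 q.2 :=
    (hJ.continuous.comp continuous_fst).clm_apply continuous_snd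
  have cf : Continuous fun q : VV × VV => om q.1 q.2 (J q.1 q.2) :=
    ((hA.smo.continuous.comp continuous_fst).clm_apply continuous_snd).clm_apply cJ
  have cg : Continuous fun q : VV × VV => h q.1 q.2 (J q.1 q.2) :=
    ((hA.smh.continuous.comp continuous_fst).clm_apply continuous_snd).clm_apply cJ
  have hpt : ∀ q ∈ ({x ∈ SS | |x.2| ≤ 1} ×ˢ sphere (0 : VV) 1) ∩
      {q : VV × VV | fderiv ℝ π q.1 q.2 = q.2}, 0 ≤ om q.1 q.2 (J q.1 q.2) ∧
      (om q.1 q.2 (J q.1 q.2) ≤ 0 → 0 < h q.1 q.2 (J q.1 q.2)) := by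
    rintro ⟨x, a⟩ ⟨⟨hx, ha1⟩, ha2⟩
    have hM := hKM hx
    have ha : a ∈ tan SS x := htan x hM ▸ (hA.mem_tan_iff hM a).2 ha2
    obtain ⟨i, hi⟩ := dom_cover hx.1
    obtain ⟨hb, hab⟩ := hR.cx i x hM hi a ha
    obtain ⟨e1, e2⟩ := hform i x hM hi a ha
    obtain ⟨p1, p2⟩ := base hL hi (hbase x hx.1 i hi a ha _ hb hab)
    refine ⟨e1 ▸ p1, fun h0 => ?_⟩
    obtain ⟨z, ⟨c, hc⟩, c', hc'⟩ := p2 (e1 ▸ h0)
    have hne : cof i x a ≠ 0 := fun hz => by
      have := hinj i x hx.1 hi a ha hz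
      simp [this] at ha1
    exact e2 ▸ exc hx.1 hi ha hb hab hne z hc hc'
  obtain ⟨ε₀, hε₀, hε⟩ := small hK cf cg (fun q hq => (hpt q hq).1) fun q hq => (hpt q hq).2
  have main : ∀ ε, 0 < ε → ε ≤ ε₀ → ∀ t i, ∀ x ∈ SS, |x.2| ≤ 1 → x ∈ dom i → ∀ a ∈ tan SS x,
      ∀ b ∈ tan SS x, cof i x b = I • cof i x a → a ≠ 0 → 0 < dd ((atl b₀ ε t).l i) x a b := by
    intro ε e0 e1 t i x hx hT hi a ha b hb hab hne
    have hM : x ∈ M := hKM ⟨hx, hT⟩
    obtain ⟨hb', hab'⟩ := hR.cx i x hM hi a ha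
    have hbJ : b = J x a := by
      refine sub_eq_zero.1 (hinj i x hx hi _ (sub_mem hb hb') ?_)
      change cof i x (b - J x a) = 0
      rw [map_sub, hab]
      exact sub_eq_zero.2 hab'.symm
    obtain ⟨f1, f2⟩ := hform i x hM hi a ha
    rw [dd_atl b₀ ε t hi, hbJ, ← f1, ← f2]
    have hn : 0 < ‖a‖ := norm_pos_iff.2 hne
    have hu : ‖a‖⁻¹ • a ∈ tan M x := (htan x hM).symm ▸ Submodule.smul_mem _ _ ha
    have := hε ε e0 e1 (x, ‖a‖⁻¹ • a) ⟨⟨⟨hx, hT⟩, by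
      rw [mem_sphere_zero_iff_norm, norm_smul, norm_inv, norm_norm, inv_mul_cancel₀ hn.ne']⟩,
      (hA.mem_tan_iff hM _).1 hu⟩
    simp only [map_smul, _root_.smul_apply, smul_eq_mul] at this
    have e : om x a (J x a) + ε * h x a (J x a) = ‖a‖ ^ 2 *
        (‖a‖⁻¹ * (‖a‖⁻¹ * om x a (J x a)) + ε * (‖a‖⁻¹ * (‖a‖⁻¹ * h x a (J x a)))) := by
      field_simp
    rw [e]
    positivity
  refine ⟨b₀, ε₀, hε₀, fun ε e0 e1 t i x hx hi a ha b hb hab hne => ?_⟩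
  have hT : |x.2 + ((-round x.2 : ℤ) : ℝ)| ≤ 1 := by
    have := abs_sub_round x.2
    rw [Int.cast_neg, ← sub_eq_add_neg]
    linarith
  rw [← lam_shift b₀ ε t (-round x.2) i x a b]
  refine main ε e0 e1 t _ _ (SS_shift _ hx) hT ((dom_shift _ i x).2 hi) a ?_ b ?_ ?_ hne
  · rwa [tan_shift]
  · rwa [tan_shift]
  · rw [cof_shift]
    exact hab

end Pool.Agent.MP_9758ca_gt

end MrgPart2

-- marker of a merged file
example : 731051 + 775690 = 731051 + 775690 := rfl
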