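import Pool.Agent.MP_9758ca_gt.SpecA

/-!
PROJECT BALL, module MODEL: the local model of the thickened solution set.
-/

open scoped Topology ContDiff ComplexConjugate
open Set Metric Filter Complex

namespace Pool.Agent.MP_9758ca_gt

namespace ModelP

section Abs
variable {X Y B Q W : Type} [NormedAddCommGroup X] [NormedSpace ℝ X] [CompleteSpace X]
  [NormedAddCommGroup Y] [NormedSpace ℝ Y] [CompleteSpace Y] [NormedAddCommGroup B]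
  [NormedSpace ℝ B] [NormedAddCommGroup Q] [NormedSpace ℝ Q] [NormedAddCommGroup W]
  [NormedSpace ℝ W] [FiniteDimensional ℝ W]

/-- the abstract form of the model -/
theorem abs_model (h5 : RieszStmt) {Sol : Set ((ℝ × ℝ × B) × Q)} {τ ρ : ℝ} {b₀ : B} {Ψ : X → B}
    {L : B →L[ℝ] X} {F : (ℝ × X) × Q → Y} {c : ℝ × ℝ × B → W} {D : X →L[ℝ] Y} {i : ℤ}
    (hΨ : ContDiffAt ℝ 1 Ψ 0) (hΨ0 : Ψ 0 = b₀) (hL : ∀ᶠ ζ in 𝓝 0, L (Ψ ζ - b₀) = ζ)
    (hF : ContDiffAt ℝ 1 F ((τ, 0), 0)) (hc : ContDiffAt ℝ 1 c (τ, ρ, b₀))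
    (hS : ∀ᶠ q in 𝓝 (((τ, ρ, b₀), 0) : (ℝ × ℝ × B) × Q), q ∈ Sol ↔
      (Ψ (L (q.1.2.2 - b₀)) = q.1.2.2 ∧ F ((q.1.1, L (q.1.2.2 - b₀)), q.2) = 0 ∧ c q.1 = 0))
    (hD : ∀ ζ, D ζ = fderiv ℝ F ((τ, 0), 0) ((0, ζ), 0)) (hFr : Fred D i)
    (hi : i + 2 - Module.finrank ℝ W = 1)
    (hon : ∀ y w, ∃ ζ n, fderiv ℝ F ((τ, 0), 0) ((0, ζ), n) = y ∧
      fderiv ℝ c (τ, ρ, b₀) (0, 0, fderiv ℝ Ψ 0 ζ) = w)
    (hreg : τ = 1 → ∀ s ζ, D ζ = 0 → fderiv ℝ c (τ, ρ, b₀) (0, s, fderiv ℝ Ψ 0 ζ) = 0 →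
      s = 0 ∧ ζ = 0) :
    Model Sol (ContinuousLinearMap.fst ℝ ℝ (ℝ × B)) (τ, ρ, b₀) := by
  have : CompleteSpace W := FiniteDimensional.complete ℝ W
  let Ψ' : (ℝ × ℝ) × X → ℝ × ℝ × B := fun x => (τ + x.1.1, ρ + x.1.2, Ψ x.2)
  let L' : (ℝ × ℝ × B) →L[ℝ] (ℝ × ℝ) × X :=
    ((ContinuousLinearMap.fst ℝ ℝ (ℝ × B)).prod
      ((ContinuousLinearMap.fst ℝ ℝ B).comp (ContinuousLinearMap.snd ℝ ℝ (ℝ × B)))).prod
      (L.comp ((ContinuousLinearMap.snd ℝ ℝ B).comp (ContinuousLinearMap.snd ℝ ℝ (ℝ × B))))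
  have hL' : ∀ a, L' a = ((a.1, a.2.1), L a.2.2) := fun a => rfl
  let A : ((ℝ × ℝ) × X) × Q →L[ℝ] (ℝ × X) × Q :=
    ((((ContinuousLinearMap.fst ℝ ℝ ℝ).comp (ContinuousLinearMap.fst ℝ (ℝ × ℝ) X)).prod
      (ContinuousLinearMap.snd ℝ (ℝ × ℝ) X)).prodMap (ContinuousLinearMap.id ℝ Q))
  have hA : ∀ a, A a = ((a.1.1.1, a.1.2), a.2) := fun a => rfl
  let F' : ((ℝ × ℝ) × X) × Q → Y × W := fun a => (F (((τ, 0), 0) + A a), c (Ψ' a.1))
  have hΨ'0 : Ψ' 0 = (τ, ρ, b₀) := by simp [Ψ', hΨ0]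
  have hΨs : ContDiffAt ℝ 1 (fun x : (ℝ × ℝ) × X => Ψ x.2) 0 :=
    ContDiffAt.comp (g := Ψ) (f := Prod.snd) _ hΨ contDiffAt_snd
  have hΨ' : ContDiffAt ℝ 1 Ψ' 0 :=
    (contDiffAt_const.add contDiffAt_fst.fst).prodMk
      ((contDiffAt_const.add contDiffAt_fst.snd).prodMk hΨs)
  have hdΨ : HasFDerivAt Ψ' (((ContinuousLinearMap.fst ℝ ℝ ℝ).comp
      (ContinuousLinearMap.fst ℝ (ℝ × ℝ) X)).prod (((ContinuousLinearMap.snd ℝ ℝ ℝ).comp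
      (ContinuousLinearMap.fst ℝ (ℝ × ℝ) X)).prod ((fderiv ℝ Ψ 0).comp
      (ContinuousLinearMap.snd ℝ (ℝ × ℝ) X)))) 0 := by
    refine HasFDerivAt.prodMk ?_ (HasFDerivAt.prodMk ?_ ?_)
    · exact (hasFDerivAt_fst.comp _ hasFDerivAt_fst).const_add τ
    · exact (hasFDerivAt_snd.comp _ hasFDerivAt_fst).const_add ρ
    · exact HasFDerivAt.comp (g := Ψ) (f := Prod.snd) (0 : (ℝ × ℝ) × X)
        (hΨ.differentiableAt one_ne_zero).hasFDerivAt hasFDerivAt_snd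
  have hdΨ' : ∀ x, fderiv ℝ Ψ' 0 x = (x.1.1, x.1.2, fderiv ℝ Ψ 0 x.2) := by
    intro x; rw [hdΨ.fderiv]; rfl
  have h00 : (((τ, 0), 0) : (ℝ × X) × Q) + A 0 = ((τ, 0), 0) := by rw [map_zero, add_zero]
  have hF1 : ContDiffAt ℝ 1 (fun a => F (((τ, 0), 0) + A a)) 0 := by
    refine ContDiffAt.comp (g := F) (f := fun a => ((τ, 0), 0) + A a) _ ?_
      (contDiffAt_const.add A.contDiff.contDiffAt)
    rw [h00]; exact hF
  have hc1 : ContDiffAt ℝ 1 (fun a : ((ℝ × ℝ) × X) × Q => c (Ψ' a.1)) 0 := by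
    refine ContDiffAt.comp (g := c) (f := fun a : ((ℝ × ℝ) × X) × Q => Ψ' a.1) _ ?_
      (ContDiffAt.comp (g := Ψ') (f := Prod.fst) _ hΨ' contDiffAt_fst)
    rw [show Ψ' (0 : ((ℝ × ℝ) × X) × Q).1 = (τ, ρ, b₀) from hΨ'0]; exact hc
  have hdF : HasFDerivAt F' (((fderiv ℝ F ((τ, 0), 0)).comp A).prod
      ((fderiv ℝ c (τ, ρ, b₀)).comp ((fderiv ℝ Ψ' 0).comp
        (ContinuousLinearMap.fst ℝ ((ℝ × ℝ) × X) Q)))) 0 := by
    refine HasFDerivAt.prodMk ?_ ?_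
    · refine HasFDerivAt.comp (g := F) (f := fun a => ((τ, 0), 0) + A a) _ ?_
        (A.hasFDerivAt.const_add _)
      rw [h00]; exact (hF.differentiableAt one_ne_zero).hasFDerivAt
    · refine HasFDerivAt.comp (g := c) (f := fun a : ((ℝ × ℝ) × X) × Q => Ψ' a.1) _ ?_
        (HasFDerivAt.comp (g := Ψ') (f := Prod.fst) (0 : ((ℝ × ℝ) × X) × Q)
          (hΨ'.differentiableAt one_ne_zero).hasFDerivAt hasFDerivAt_fst)
      rw [show Ψ' (0 : ((ℝ × ℝ) × X) × Q).1 = (τ, ρ, b₀) from hΨ'0]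
      exact (hc.differentiableAt one_ne_zero).hasFDerivAt
  have hdF' : ∀ a, fderiv ℝ F' 0 a = (fderiv ℝ F ((τ, 0), 0) ((a.1.1.1, a.1.2), a.2),
      fderiv ℝ c (τ, ρ, b₀) (a.1.1.1, a.1.1.2, fderiv ℝ Ψ 0 a.1.2)) := by
    intro a
    rw [hdF.fderiv, ← hdΨ']; rfl
  refine ⟨(ℝ × ℝ) × X, Y × W, inferInstance, inferInstance, inferInstance, inferInstance,
    inferInstance, inferInstance, Ψ', L', F', hΨ', hΨ'0, ?_, hF1.prodMk hc1, ?_, ?_, ?_, ?_⟩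
  · have h2 : Tendsto (fun x : (ℝ × ℝ) × X => x.2) (𝓝 0) (𝓝 0) := continuous_snd.tendsto 0
    filter_upwards [h2.eventually hL] with x hx
    rw [hL']
    refine Prod.ext (Prod.ext ?_ ?_) hx
    · show τ + x.1.1 - τ = x.1.1
      ring
    · show ρ + x.1.2 - ρ = x.1.2
      ring
  · filter_upwards [hS] with q hq
    have e1 : Ψ' (L' (q.1 - (τ, ρ, b₀))) = (q.1.1, q.1.2.1, Ψ (L (q.1.2.2 - b₀))) := by
      refine Prod.ext ?_ (Prod.ext ?_ rfl)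
      · show τ + (q.1.1 - τ) = q.1.1
        ring
      · show ρ + (q.1.2.1 - ρ) = q.1.2.1
        ring
    have e2 : (((τ, 0), 0) : (ℝ × X) × Q) + A (L' (q.1 - (τ, ρ, b₀)), q.2) =
        ((q.1.1, L (q.1.2.2 - b₀)), q.2) := by
      refine Prod.ext (Prod.ext ?_ ?_) ?_
      · show τ + (q.1.1 - τ) = q.1.1
        ring
      · exact zero_add _
      · exact zero_add _
    have e3 : F' (L' (q.1 - (τ, ρ, b₀)), q.2) =
        (F ((q.1.1, L (q.1.2.2 - b₀)), q.2), c (q.1.1, q.1.2.1, Ψ (L (q.1.2.2 - b₀)))) := by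
      show (F (_ + A _), c (Ψ' (L' _))) = _
      rw [e1, e2]
    rw [hq, e1, e3, Prod.mk_eq_zero]
    constructor
    · rintro ⟨a1, a2, a3⟩
      rw [a1]; exact ⟨rfl, a2, a3⟩
    · rintro ⟨a1, a2, a3⟩
      have a4 : Ψ (L (q.1.2.2 - b₀)) = q.1.2.2 := congrArg (fun z => z.2.2) a1
      rw [a1] at a3
      exact ⟨a4, a2, a3⟩
  · have h := ((h5.1 X Y D i).2.2 (ℝ × ℝ) W).1 hFr
      ((fderiv ℝ F' 0).comp (ContinuousLinearMap.inl ℝ ((ℝ × ℝ) × X) Q)) (fun x => by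
        rw [hD, ContinuousLinearMap.comp_apply, hdF']; rfl)
    have h2 : Module.finrank ℝ (ℝ × ℝ) = 2 := by simp
    rw [h2] at h
    rw [← hi]; exact h
  · rintro ⟨y, w⟩
    obtain ⟨ζ, n, a1, a2⟩ := hon y w
    refine ⟨(((0, 0), ζ), n), ?_⟩
    rw [hdF']; exact Prod.ext a1 a2
  · rintro h1 ⟨⟨s, s'⟩, ζ⟩ a1 a2
    rw [hdΨ'] at a2
    have hs : s = 0 := a2
    subst hs
    rw [hdF', Prod.mk_eq_zero] at a1
    obtain ⟨b1, b2⟩ := hreg h1 s' ζ ((hD ζ).trans a1.1) a1.2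
    rw [b1, b2]; rfl

end Abs

section Lin
variable {V : Type} [NormedAddCommGroup V] [NormedSpace ℝ V] {O M : Set V} {π : V → V}
  {om h : F2 V} {J : V → En0 V}

/-- derivative of `J ∘ J = -1` along `M` -/
theorem dJ_anti (hS : SJ π M J) {x : V} (hx : x ∈ M) (hJ : DifferentiableAt ℝ J x) {ξ : V}
    (hξ : ξ ∈ tan M x) (b : V) :
    fderiv ℝ J x ξ (J x b) = -J x (fderiv ℝ J x ξ b) := by
  have h1 : HasFDerivAt (fun y => J y b) ((fderiv ℝ J x).flip b) x := by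
    simpa using hJ.hasFDerivAt.clm_apply (hasFDerivAt_const b x)
  have h2 := hJ.hasFDerivAt.clm_apply h1
  have h3 := fderiv_eq_on_tan (g := fun y => J y (J y b)) (g' := fun _ => -b) hx
    h2.differentiableAt (differentiableAt_const _)
    (Eventually.of_forall fun y hy => (hS y hy b).1) hξ
  rw [h2.fderiv] at h3
  simp only [add_apply, ContinuousLinearMap.comp_apply,
    ContinuousLinearMap.flip_apply, fderiv_fun_const, Pi.zero_apply,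
    zero_apply] at h3
  exact eq_neg_of_add_eq_zero_right h3

/-- derivative of `P J = J P` along `M` -/
theorem dJ_comm (hA : Amb O π M om h) (hS : SJ π M J) {x : V} (hx : x ∈ M)
    (hJ : DifferentiableAt ℝ J x) {ξ : V} (hξ : ξ ∈ tan M x) (a : V) :
    fderiv ℝ π x (fderiv ℝ J x ξ a) + fderiv ℝ (fderiv ℝ π) x ξ (J x a) =
      J x (fderiv ℝ (fderiv ℝ π) x ξ a) + fderiv ℝ J x ξ (fderiv ℝ π x a) := by
  have hP : DifferentiableAt ℝ (fderiv ℝ π) x :=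
    ((hA.sm.fderiv_right (m := 1) (by norm_cast)).differentiable one_ne_zero) x
  have h1 : HasFDerivAt (fun y => J y a) ((fderiv ℝ J x).flip a) x := by
    simpa using hJ.hasFDerivAt.clm_apply (hasFDerivAt_const a x)
  have h1' : HasFDerivAt (fun y => fderiv ℝ π y a) ((fderiv ℝ (fderiv ℝ π) x).flip a) x := by
    simpa using hP.hasFDerivAt.clm_apply (hasFDerivAt_const a x)
  have h2 := hP.hasFDerivAt.clm_apply h1
  have h2' := hJ.hasFDerivAt.clm_apply h1'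
  have h3 := fderiv_eq_on_tan (g := fun y => fderiv ℝ π y (J y a))
    (g' := fun y => J y (fderiv ℝ π y a)) hx h2.differentiableAt h2'.differentiableAt
    (Eventually.of_forall fun y hy => (hS y hy a).2) hξ
  rw [h2.fderiv, h2'.fderiv] at h3
  simpa only [add_apply, ContinuousLinearMap.comp_apply,
    ContinuousLinearMap.flip_apply] using h3

variable {U ξ : C2 → V}

theorem lin_tan (hA : Amb O π M om h) (hS : SJ π M J) (hU : IsSph M J U) {v : C2} (hv : v ≠ 0)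
    (hJ : DifferentiableAt ℝ J (U v)) (hξ : DifferentiableAt ℝ ξ v)
    (ht : ∀ v, v ≠ 0 → ξ v ∈ tan M (U v)) (w : C2) : Lin J U ξ v w ∈ tan M (U v) := by
  have hx := hU.mem v hv
  have hd : DifferentiableAt ℝ U v :=
    (hU.sm.contDiffAt (nz_mem_nhds hv)).differentiableAt (by norm_num)
  have hm : ∀ᶠ v' in 𝓝 v, U v' ∈ M ∧ ξ v' ∈ tan M (U v') := by
    filter_upwards [nz_mem_nhds hv] with v' hv' using ⟨hU.mem v' hv', ht v' hv'⟩
  have h1 := hA.deriv_tan hd hξ hm w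
  have h2 := hA.deriv_tan hd hξ hm (I • w)
  have ha : fderiv ℝ π (U v) (fderiv ℝ U v (I • w)) = fderiv ℝ U v (I • w) :=
    (hA.mem_tan_iff hx _).1 (fderiv_mem_tan hd (hm.mono fun _ h => h.1) _)
  have h3 := dJ_comm hA hS hx hJ (ht v hv) (fderiv ℝ U v (I • w))
  have h4 : J (U v) (fderiv ℝ U v (I • w)) = -fderiv ℝ U v w := by
    rw [hU.cr v hv w, (hS _ hx _).1]
  rw [ha, h4, map_neg] at h3
  rw [hA.mem_tan_iff hx, Lin, map_add, map_add, (hS _ hx _).2]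
  have h5 := congrArg (J (U v)) h2
  rw [map_add] at h5
  rw [h5]
  conv_rhs => rw [h1]
  rw [← sub_eq_add_neg, sub_eq_iff_eq_add] at h3
  rw [h3]
  abel

theorem lin_add (v w w' : C2) : Lin J U ξ v (w + w') = Lin J U ξ v w + Lin J U ξ v w' := by
  simp only [Lin, smul_add, map_add]; abel

theorem lin_smul (v w : C2) (r : ℝ) : Lin J U ξ v (r • w) = r • Lin J U ξ v w := by
  simp only [Lin, smul_comm I r w, map_smul, smul_add]

theorem lin_I (hS : SJ π M J) (hU : IsSph M J U) {v : C2} (hv : v ≠ 0)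
    (hJ : DifferentiableAt ℝ J (U v)) (ht : ξ v ∈ tan M (U v)) (w : C2) :
    Lin J U ξ v (I • w) = -J (U v) (Lin J U ξ v w) := by
  have hx := hU.mem v hv
  have h1 : I • I • w = -w := by rw [smul_smul, I_mul_I, neg_one_smul]
  rw [Lin, Lin, h1, map_neg, map_neg, map_neg, map_neg, hU.cr v hv w,
    dJ_anti hS hx hJ ht, map_add, map_add, map_neg, (hS _ hx _).1, (hS _ hx _).1]
  abel

/-- the linearised operator vanishes if it vanishes on the horizontal vector -/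
theorem lin_zero (hS : SJ π M J) (hU : IsSph M J U) {v : C2} (hv : v ≠ 0)
    (hJ : DifferentiableAt ℝ J (U v)) (hξ : DifferentiableAt ℝ ξ v) (hi : Inv ξ)
    (ht : ξ v ∈ tan M (U v)) (h0 : Lin J U ξ v (hor v) = 0) (w : C2) : Lin J U ξ v w = 0 := by
  have hd : DifferentiableAt ℝ U v :=
    (hU.sm.contDiffAt (nz_mem_nhds hv)).differentiableAt (by norm_num)
  obtain ⟨a, b, rfl⟩ := hor_decomp hv w
  have h1 : Lin J U ξ v (a • v) = 0 := by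
    rw [Lin, smul_smul, hi.fderiv_self hv hξ, hi.fderiv_self hv hξ, hU.inv.fderiv_self hv hd]
    simp
  have h2 : b • hor v = b.re • hor v + b.im • I • hor v := by
    conv_lhs => rw [← re_add_im b]
    rw [add_smul, mul_smul, coe_smul, coe_smul]
  rw [lin_add, h1, h2, lin_add, lin_smul, lin_smul, lin_I hS hU hv hJ ht, h0]
  simp

theorem reg_congr {U' : C2 → V} {gZ : V → V → ℂ × ℝ} {gD : V → V → ℂ} {t : V}
    (hR : Reg M J U gZ gD t) (he : ∀ v, v ≠ 0 → U' v = U v) : Reg M J U' gZ gD t := by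
  intro ξ s h1 h2 h3 h4 h5 h6 h7
  refine hR ξ s h1 h2 (fun v hv => he v hv ▸ h3 v hv) (fun v hv w => ?_)
    (he _ (mk3_ne 0) ▸ h5) (he _ (mk3_ne 1) ▸ h6) h7
  have h8 : U' =ᶠ[𝓝 v] U := by filter_upwards [nz_mem_nhds hv] with v' hv' using he v' hv'
  have h9 := h4 v hv w
  rwa [Lin, h8.fderiv_eq, he v hv] at h9

end Lin

section Fr
variable {V : Type} [NormedAddCommGroup V] [NormedSpace ℝ V] {M : Set V} {π : V → V}
  {J : V → En0 V} {U : C2 → V} {k : Fin 3 → ℤ} {e : C2 → C3 →L[ℝ] V} {f : C2 → V →L[ℝ] C3}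

theorem e_hom (hF : Frame M J U k e f) (hi : Inv U) {c : ℂ} (hc : c ≠ 0) {v : C2} (hv : v ≠ 0)
    (z : C3) : e (c • v) (rep k c z) = e v z := by
  have h1 := hF.hom c hc v hv _ (hF.mem v hv z)
  rw [hF.fe v hv] at h1
  rw [← h1]
  refine hF.ef _ (smul_ne_zero hc hv) _ ?_
  rw [hi c hc v hv]; exact hF.mem v hv z

theorem e_smul (hF : Frame M J U k e f) {v : C2} (hv : v ≠ 0) (a : ℂ) (z : C3) :
    e v (a • z) = a.re • e v z + a.im • J (U v) (e v z) := by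
  have h2 : a • z = a.re • z + a.im • I • z := by
    conv_lhs => rw [← re_add_im a]
    rw [add_smul, mul_smul, coe_smul, coe_smul]
  rw [h2, map_add, map_smul, map_smul, hF.eJ v hv]

/-- every form is the image of a perturbation term -/
theorem exists_n (hF : Frame M J U k e f) (hU : Map2 M U) (hS : SJ π M J) (hJ : ContDiff ℝ 1 J)
    (g : YY k) : ∃ n : QQ V, ∀ v, v ≠ 0 → f v ((fY n v).1 + J (U v) (fY n v).2) = fY g v := by
  let m : C2 → C3 →L[ℝ] V × V := fun v =>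
    (ContinuousLinearMap.inl ℝ V V).comp ((2⁻¹ : ℝ) • e v) +
      (ContinuousLinearMap.inr ℝ V V).comp (-(2⁻¹ : ℝ) • (J (U v)).comp (e v))
  have hm : ∀ v a, m v a = ((2⁻¹ : ℝ) • e v a, -(2⁻¹ : ℝ) • J (U v) (e v a)) := fun _ _ =>
    Prod.ext (add_zero _) (zero_add _)
  have hl : LocH m nz := by
    refine locH_of_contDiffAt fun v hv => ?_
    have h1 : ContDiffAt ℝ 1 e v := (hF.sme.contDiffAt (nz_mem_nhds hv)).of_le (by norm_num)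
    have h2 : ContDiffAt ℝ 1 U v := (hU.sm.contDiffAt (nz_mem_nhds hv)).of_le (by norm_num)
    have h3 : ContDiffAt ℝ 1 (fun v => (J (U v)).comp (e v)) v :=
      (hJ.contDiffAt.comp v h2).clm_comp h1
    have h4 : ContDiffAt ℝ 1 (fun v => (ContinuousLinearMap.inl ℝ V V).comp ((2⁻¹ : ℝ) • e v) +
        (ContinuousLinearMap.inr ℝ V V).comp (-(2⁻¹ : ℝ) • (J (U v)).comp (e v))) v :=
      (contDiffAt_const.clm_comp (h1.const_smul (2⁻¹ : ℝ))).add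
        (contDiffAt_const.clm_comp (h3.const_smul (-(2⁻¹ : ℝ))))
    exact h4
  obtain ⟨L, hL⟩ := exists_multY (χ' := repQ V) (rep_repY k) hl (by
    intro c hc v hv a
    have h1 : repY k c a = rep k c ((c / conj c) • a) := by
      funext i; rw [repY_apply, rep_apply, Pi.smul_apply, smul_eq_mul, mul_assoc]
    rw [hm, hm, repQ_apply, h1, e_hom hF hU.inv hc hv, e_smul hF hv, hU.inv c hc v hv, map_add,
      map_smul, map_smul, (hS _ (hU.mem v hv) _).1]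
    refine Prod.ext ?_ ?_
    · show _ = _
      simp only
      module
    · show _ = _
      simp only
      module)
  refine ⟨L g, fun v hv => ?_⟩
  rw [hL g v hv, hm]
  simp only
  rw [map_smul, (hS _ (hU.mem v hv) _).1, ← hF.fe v hv (fY g v)]
  congr 1
  rw [hF.fe v hv]
  module

/-- sections with prescribed values at the three marks -/
theorem exists_vals (h6 : RungeStmt) {B : C2 → En0 C3} (hB : AHom k B) (b : Fin 3 → C3) :
    ∃ ζ : XX k, ∀ m, fX ζ (mk3 m) = b m := by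
  have hp : ((2, 1) : C2) ≠ 0 := fun h => by simpa using congrArg Prod.snd h
  obtain ⟨ζ, h1, h2, -⟩ := h6 k B (2, 1) univ (fY (0 : YY k)) b hB hp (fun m => by
    rw [par_iff (mk3_ne m)]
    fin_cases m <;> simp [mk3]) isOpen_univ (fun _ _ _ _ => mem_univ _) (mem_univ _)
    (fY_yh (rep_repY k) _)
  obtain ⟨ξ, hξ⟩ := exists_X h1
  exact ⟨ξ, fun m => (hξ _ (mk3_ne m)).trans (h2 m)⟩

end Fr

section Con
variable {V B : Type} [NormedAddCommGroup V] [NormedSpace ℝ V] [NormedAddCommGroup B]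
  [NormedSpace ℝ B]

/-- the map that collects the three point constraints -/
theorem exists_con (e0 e1 e2 : B →L[ℝ] V) {g0 : V → ℂ × ℝ} {g1 : V → ℂ} (f : V →L[ℝ] C3)
    {γ : ℝ × ℝ → V} {τ ρ : ℝ} {b₀ : B} {y0 y1 : V} (hy0 : e0 b₀ = y0) (hy1 : e1 b₀ = y1)
    (h0 : ContDiffAt ℝ 1 g0 y0) (h1 : ContDiffAt ℝ 1 g1 y1) (hγ : ContDiffAt ℝ 1 γ (τ, ρ)) :
    ∃ c : ℝ × ℝ × B → (ℂ × ℝ) × ℂ × C3, ContDiffAt ℝ 1 c (τ, ρ, b₀) ∧
      (∀ q, c q = (g0 (e0 q.2.2), g1 (e1 q.2.2), f (e2 q.2.2) - f (γ (q.1, q.2.1)))) ∧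
      ∀ s β v0 v1 v2, e0 β = v0 → e1 β = v1 → e2 β = v2 →
        fderiv ℝ c (τ, ρ, b₀) (0, s, β) = (fderiv ℝ g0 y0 v0, fderiv ℝ g1 y1 v1,
          f (v2 - fderiv ℝ γ (τ, ρ) (0, s))) := by
  subst hy0 hy1
  let p : (ℝ × ℝ × B) →L[ℝ] B :=
    (ContinuousLinearMap.snd ℝ ℝ B).comp (ContinuousLinearMap.snd ℝ ℝ (ℝ × B))
  let r : (ℝ × ℝ × B) →L[ℝ] ℝ × ℝ := (ContinuousLinearMap.fst ℝ ℝ (ℝ × B)).prod
    ((ContinuousLinearMap.fst ℝ ℝ B).comp (ContinuousLinearMap.snd ℝ ℝ (ℝ × B)))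
  refine ⟨fun q => (g0 ((e0.comp p) q), g1 ((e1.comp p) q), (f.comp (e2.comp p)) q - f (γ (r q))),
    ?_, fun q => rfl, ?_⟩
  · have a0 := ContDiffAt.comp (g := g0) (f := e0.comp p) (τ, ρ, b₀) h0
      (e0.comp p).contDiff.contDiffAt
    have a1 := ContDiffAt.comp (g := g1) (f := e1.comp p) (τ, ρ, b₀) h1
      (e1.comp p).contDiff.contDiffAt
    have a2 := ContDiffAt.comp (g := γ) (f := r) (τ, ρ, b₀) hγ r.contDiff.contDiffAt
    exact a0.prodMk (a1.prodMk ((f.comp (e2.comp p)).contDiff.contDiffAt.sub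
      (f.contDiff.contDiffAt.comp _ a2)))
  · rintro s β _ _ _ rfl rfl rfl
    have a0 := HasFDerivAt.comp (g := g0) (τ, ρ, b₀)
      (h0.differentiableAt one_ne_zero).hasFDerivAt (e0.comp p).hasFDerivAt
    have a1 := HasFDerivAt.comp (g := g1) (τ, ρ, b₀)
      (h1.differentiableAt one_ne_zero).hasFDerivAt (e1.comp p).hasFDerivAt
    have a2 := HasFDerivAt.comp (g := γ) (τ, ρ, b₀)
      (hγ.differentiableAt one_ne_zero).hasFDerivAt r.hasFDerivAt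
    have a3 := (f.comp (e2.comp p)).hasFDerivAt.sub (f.hasFDerivAt.comp (τ, ρ, b₀) a2)
    have a4 := (a0.prodMk (a1.prodMk a3)).fderiv
    rw [map_sub]
    exact congrArg (fun T => T (0, s, β)) a4

theorem rank_W : Module.finrank ℝ ((ℂ × ℝ) × ℂ × C3) = 11 := by
  simp [Module.finrank_prod, Module.finrank_pi_fintype]

theorem trip_zero {A₁ A₂ A₃ : Type} [Zero A₁] [Zero A₂] [Zero A₃] {a : A₁} {b : A₂} {c : A₃} :
    ((a, b, c) : A₁ × A₂ × A₃) = 0 ↔ a = 0 ∧ b = 0 ∧ c = 0 := by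
  rw [Prod.mk_eq_zero, Prod.mk_eq_zero]

end Con

section Rg
variable {V : Type} [NormedAddCommGroup V] [NormedSpace ℝ V] {O M : Set V} {π : V → V}
  {om h : F2 V} {J : V → En0 V} {U : C2 → V} {k : Fin 3 → ℤ} {e : C2 → C3 →L[ℝ] V}
  {f : C2 → V →L[ℝ] C3}

/-- regularity in terms of the frame -/
theorem reg_use (hA : Amb O π M om h) (hS : SJ π M J) (hs : IsSph M J U) (hJ : ContDiff ℝ 1 J)
    (hF : Frame M J U k e f) {gZ : V → V → ℂ × ℝ} {gD : V → V → ℂ} {t : V}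
    (hR : Reg M J U gZ gD t) {ζ : C2 → C3} (hζ : XH (rep k) ζ) {s : ℝ}
    (h0 : ∀ v, v ≠ 0 → f v (Lin J U (fun w => e w (ζ w)) v (hor v)) = 0)
    (a2 : fderiv ℝ (gZ (U (mk3 0))) (U (mk3 0)) (e (mk3 0) (ζ (mk3 0))) = 0)
    (a3 : fderiv ℝ (gD (U (mk3 1))) (U (mk3 1)) (e (mk3 1) (ζ (mk3 1))) = 0)
    (a4 : e (mk3 2) (ζ (mk3 2)) = s • t) : s = 0 ∧ ∀ v, v ≠ 0 → ζ v = 0 := by
  have c1 : ContDiffOn ℝ 1 (fun w => e w (ζ w)) nz :=
    (hF.sme.of_le (by norm_num)).clm_apply hζ.contDiffOn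
  have c2 : Inv fun w => e w (ζ w) := fun a ha v hv => by
    show e (a • v) (ζ (a • v)) = e v (ζ v)
    rw [hζ.1 a ha v hv, e_hom hF hs.inv ha hv]
  have c3 : ∀ v, v ≠ 0 → e v (ζ v) ∈ tan M (U v) := fun v hv => hF.mem v hv _
  have c4 : ∀ v, v ≠ 0 → ∀ w, Lin J U (fun w => e w (ζ w)) v w = 0 := by
    intro v hv
    have d1 := hJ.differentiable one_ne_zero (U v)
    have d2 := (c1.contDiffAt (nz_mem_nhds hv)).differentiableAt one_ne_zero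
    refine lin_zero hS hs hv d1 d2 c2 (c3 v hv) ?_
    rw [← hF.ef v hv _ (lin_tan hA hS hs hv d1 d2 c3 (hor v)), h0 v hv, map_zero]
  obtain ⟨r1, r2⟩ := hR _ s c1 c2 c3 c4 a2 a3 a4
  refine ⟨r2, fun v hv => ?_⟩
  rw [← hF.fe v hv (ζ v)]
  exact (congrArg (f v) (r1 v hv)).trans (map_zero _)

end Rg

end ModelP

open ModelP in
theorem model_of (h1 : FrameStmt) (h2 : ChartStmt) (h3 : EqStmt) (h4 : Std2Stmt)
    (h5 : RieszStmt) (h6 : RungeStmt) : ModelStmt := by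
  intro V _ _ _ O M K Z D π om h J 𝒜 gZ gD γ a₀ Us ρs J' 𝒰 hA hH hG h𝒰
  rintro ⟨τ, ρ, b₀⟩ ⟨hτ, hρ, hsol, k, hfr, hk⟩ ht
  simp only at hτ hρ hsol hfr
  have hs := hsol.sph
  have hm := hs.toMap2
  have hJ3 : ContDiff ℝ 3 (J' τ) := hG.sm.comp (contDiff_const.prodMk contDiff_id)
  have hJ1 : ContDiff ℝ 1 (J' τ) := hJ3.of_le (by norm_num)
  obtain ⟨e, f, hF, hfP⟩ := ((h1 V).2.2 O M π om h hA).2.1 (J' τ) (fX b₀) k hm hfr
  obtain ⟨Ψ, L, hΨ, hΨ0, hdΨ, hLΨ, hΨL⟩ :=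
    (h2 V O M π om h hA).1 (J' τ) (fX b₀) k e f b₀ hm hF fun _ _ => rfl
  obtain ⟨F, B, hFd, hFe, hB, hdF, hlin⟩ := h3 V O M π om h ℝ (fun q => J' q.1 q.2) τ (fX b₀) k e
    f Ψ hA hG.sm hG.sj hs hF hfP hΨ (fun v _ => by rw [hΨ0]) hdΨ (hLΨ.mono fun _ h => h.2)
  obtain ⟨e0, he0⟩ := exists_evalX (χ := triv V) (mk3 0)
  obtain ⟨e1, he1⟩ := exists_evalX (χ := triv V) (mk3 1)
  obtain ⟨e2, he2⟩ := exists_evalX (χ := triv V) (mk3 2)
  obtain ⟨cZ1, cZ2, cZ3⟩ := hH.cutZ _ hsol.mZ (hm.mem _ (mk3_ne 0))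
  obtain ⟨cD1, cD2, cD3⟩ := hH.cutD _ hsol.mD (hm.mem _ (mk3_ne 1))
  obtain ⟨f₀, cP1, cP2, cP3⟩ := hA.coord (hm.mem _ (mk3_ne 2))
  obtain ⟨hγ, hγM, -, -⟩ := hH.path (τ, ρ) ⟨hτ, hρ⟩
  obtain ⟨c, hc, hcv, hdc⟩ := exists_con e0 e1 e2 f₀ (he0 b₀) (he1 b₀) cZ1 cD1 hγ
  let D₀ : XX k →L[ℝ] YY k := (fderiv ℝ F ((τ, 0), 0)).comp
    ((ContinuousLinearMap.inl ℝ (ℝ × XX k) (QQ V)).comp (ContinuousLinearMap.inr ℝ ℝ (XX k)))
  have hD₀ : ∀ ζ, D₀ ζ = fderiv ℝ F ((τ, 0), 0) ((0, ζ), 0) := fun _ => rfl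
  have hz : (((0 : ℝ), (0 : V)) : ℝ × V) = 0 := rfl
  have hdF0 : ∀ ζ n v, v ≠ 0 → fY (fderiv ℝ F ((τ, 0), 0) ((0, ζ), n)) v =
      db (fX ζ) v + B v (fX ζ v) - f v ((fY n v).1 + J' τ (fX b₀ v) (fY n v).2) := by
    intro ζ n v hv
    rw [hdF 0 ζ n v hv, hz, map_zero, zero_apply, map_zero, add_zero]
  have hD₁ : ∀ ζ v, v ≠ 0 → fY (D₀ ζ) v = db (fX ζ) v + B v (fX ζ v) := by
    intro ζ v hv
    rw [hD₀, hdF0 ζ 0 v hv, fY_zero, Prod.fst_zero, Prod.snd_zero, map_zero, add_zero, map_zero,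
      sub_zero]
  have hFr := (h4 k B D₀ hB hD₁).1
  have hdc' : ∀ s ζ, fderiv ℝ c (τ, ρ, b₀) (0, s, fderiv ℝ Ψ 0 ζ) =
      (fderiv ℝ (gZ (fX b₀ (mk3 0))) (fX b₀ (mk3 0)) (e (mk3 0) (fX ζ (mk3 0))),
        fderiv ℝ (gD (fX b₀ (mk3 1))) (fX b₀ (mk3 1)) (e (mk3 1) (fX ζ (mk3 1))),
        f₀ (e (mk3 2) (fX ζ (mk3 2)) - fderiv ℝ γ (τ, ρ) (0, s))) := by
    intro s ζ
    exact hdc s _ _ _ _ ((he0 _).trans (hdΨ ζ _ (mk3_ne 0))) ((he1 _).trans (hdΨ ζ _ (mk3_ne 1)))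
      ((he2 _).trans (hdΨ ζ _ (mk3_ne 2)))
  clear hdc hdF
  refine abs_model h5 hΨ hΨ0 (hLΨ.mono fun _ h => h.1) hFd hc ?_ hD₀ hFr ?_ ?_ ?_
  · have t0 : Tendsto (fun q : (ℝ × ℝ × BB V) × QQ V => q.1.2.2) (𝓝 ((τ, ρ, b₀), 0)) (𝓝 b₀) :=
      continuous_fst.snd.snd.tendsto _
    have t1 : Tendsto (fun q : (ℝ × ℝ × BB V) × QQ V => L (q.1.2.2 - b₀)) (𝓝 ((τ, ρ, b₀), 0))
        (𝓝 0) := by
      have := (L.continuous.tendsto (b₀ - b₀)).comp (t0.sub_const b₀)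
      rwa [sub_self, map_zero] at this
    have t2 : Tendsto (fun q : (ℝ × ℝ × BB V) × QQ V => ((q.1.1, L (q.1.2.2 - b₀)), q.2))
        (𝓝 ((τ, ρ, b₀), 0)) (𝓝 ((τ, 0), 0)) :=
      ((continuous_fst.fst.tendsto _).prodMk_nhds t1).prodMk_nhds (continuous_snd.tendsto _)
    have t3 : Tendsto (fun q : (ℝ × ℝ × BB V) × QQ V => (q.1.1, q.1.2.1)) (𝓝 ((τ, ρ, b₀), 0))
        (𝓝 (τ, ρ)) :=
      (continuous_fst.fst.tendsto _).prodMk_nhds (continuous_fst.snd.fst.tendsto _)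
    have tv : ∀ (ev : BB V →L[ℝ] V) (v : C2), (∀ ξ, ev ξ = fX ξ v) →
        Tendsto (fun q : (ℝ × ℝ × BB V) × QQ V => fX q.1.2.2 v) (𝓝 ((τ, ρ, b₀), 0))
          (𝓝 (fX b₀ v)) := by
      intro ev v hev
      have := (ev.continuous.tendsto b₀).comp t0
      rw [hev] at this
      exact this.congr fun q => hev _
    have t4 : Tendsto (fun q : (ℝ × ℝ × BB V) × QQ V => (fX q.1.2.2 (mk3 2), γ (q.1.1, q.1.2.1)))
        (𝓝 ((τ, ρ, b₀), 0)) (𝓝 (fX b₀ (mk3 2), fX b₀ (mk3 2))) := by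
      refine (tv e2 _ he2).prodMk_nhds ?_
      rw [hsol.mp]
      exact hγ.continuousAt.tendsto.comp t3
    have t5 : ∀ᶠ q : (ℝ × ℝ × BB V) × QQ V in 𝓝 ((τ, ρ, b₀), 0), q.1 ∈ 𝒰 :=
      (continuous_fst.tendsto _).eventually (h𝒰.mem_nhds ht)
    filter_upwards [t5, t0.eventually hΨL, t1.eventually hLΨ, t2.eventually hFe,
      (tv e0 _ he0).eventually cZ2, (tv e1 _ he1).eventually cD2, t4.eventually cP3,
      t3.eventually hγM] with q q1 q2 q3 q4 q5 q6 q7 q8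
    rw [hcv, trip_zero, he0, he1, he2, sub_eq_zero, q4]
    constructor
    · rintro ⟨-, a1, a2, a3, a4, a5⟩
      have a6 := q2 a1
      refine ⟨a6, ?_, (q5 (a1 _ (mk3_ne 0))).1 a3, (q6 (a1 _ (mk3_ne 1))).1 a4, congrArg f₀ a5⟩
      rw [a6]; exact a2
    · rintro ⟨a1, a2, a3, a4, a5⟩
      have a6 := q3.2
      rw [a1] at a2 a6
      exact ⟨q1, a6, a2, (q5 (a6 _ (mk3_ne 0))).2 a3, (q6 (a6 _ (mk3_ne 1))).2 a4,
        q7 (a6 _ (mk3_ne 2)) q8 a5⟩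
  · rw [rank_W, Finset.sum_add_distrib, hk]
    simp
  · rintro y ⟨wZ, wD, wP⟩
    obtain ⟨v0, m0, r0⟩ := cZ3 wZ
    obtain ⟨v1, m1, r1⟩ := cD3 wD
    obtain ⟨v2, m2, r2⟩ := cP1 wP
    obtain ⟨ζ, hζ⟩ := exists_vals h6 hB ![f (mk3 0) v0, f (mk3 1) v1, f (mk3 2) v2]
    obtain ⟨n, hn⟩ := exists_n hF hm (hG.sj τ) hJ1 (D₀ ζ - y)
    refine ⟨ζ, n, Y_ext fun v => ?_, ?_⟩
    · rw [hdF0 ζ n v (S3_ne v), hn v (S3_ne v), fY_sub, hD₁ ζ v (S3_ne v), sub_sub_cancel]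
    · have hz2 : (((0 : ℝ), (0 : ℝ)) : ℝ × ℝ) = 0 := rfl
      have b0 : e (mk3 0) (fX ζ (mk3 0)) = v0 := by rw [hζ]; exact hF.ef _ (mk3_ne 0) _ m0
      have b1 : e (mk3 1) (fX ζ (mk3 1)) = v1 := by rw [hζ]; exact hF.ef _ (mk3_ne 1) _ m1
      have b2 : e (mk3 2) (fX ζ (mk3 2)) = v2 := by rw [hζ]; exact hF.ef _ (mk3_ne 2) _ m2
      rw [hdc', b0, b1, b2, hz2, map_zero, sub_zero, r0, r1, r2]
  · rintro rfl s ζ a1 a2
    have hsol' := hsol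
    rw [hG.one] at hsol'
    obtain ⟨rfl, hUs⟩ := hH.uniq ρ hρ _ hsol'
    have hR := reg_congr hH.reg hUs
    rw [← hG.one] at hR
    rw [hdc', trip_zero] at a2
    obtain ⟨a2, a3, a4⟩ := a2
    have c5 : e (mk3 2) (fX ζ (mk3 2)) = s • fderiv ℝ γ (1, ρ) (0, 1) := by
      have d1 : fderiv ℝ γ (1, ρ) (0, s) ∈ tan M (fX b₀ (mk3 2)) := by
        rw [hsol.mp]; exact fderiv_mem_tan (hγ.differentiableAt one_ne_zero) hγM _
      rw [← map_smul, Prod.smul_mk, smul_zero, smul_eq_mul, mul_one, ← sub_eq_zero]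
      exact cP2 _ (Submodule.sub_mem _ (hF.mem _ (mk3_ne 2) _) d1) a4
    obtain ⟨r1, r2⟩ := reg_use hA (hG.sj 1) hs hJ1 hF hR (fX_xh (rep_rep k) ζ) (fun v hv => by
      have d3 := (hlin ζ v hv).symm.trans (hD₁ ζ v hv).symm
      rw [a1, fY_zero] at d3
      exact d3) a2 a3 c5
    exact ⟨r1, X_ext fun v => (r2 v (S3_ne v)).trans (fX_zero _).symm⟩

end Pool.Agent.MP_9758ca_gt
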