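import Mathlib.Algebra.Ring.IsFormallyReal
import Mathlib.Combinatorics.SimpleGraph.Basic
import Mathlib.RingTheory.RegularLocalRing.Defs
import Pool.Agent.MP_9758ca_gt.SpecA

section

/-!
PROJECT BALL: the moduli space is compact when there is no nodal configuration.
-/

open scoped Topology ContDiff ComplexConjugate
open Set Metric Filter Complex

namespace Pool.Agent.MP_9758ca_gt

noncomputable section

namespace MainKP

variable {V : Type} [NormedAddCommGroup V] [NormedSpace ℝ V]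

theorem sph_mono {S S' : Set V} {J : V → En0 V} {U : C2 → V} (h : IsSph S J U)
    (hS : ∀ v, v ≠ 0 → U v ∈ S') : IsSph S' J U :=
  h.congr (fun _ _ => rfl) hS fun _ _ _ _ => rfl

theorem conf_one {M Z D : Set V} {om h : F2 V} {a₀ : ℝ} {J : V → En0 V} {p : V} {U : C2 → V}
    (hU : MainSol M om h Z D a₀ J p U) (hp : p ∉ Z) : Conf M om h Z a₀ J p 1 fun _ => U where
  sph _ := ⟨hU.sph, mk3 0, mk3_ne 0, mk3 2, mk3_ne 2, fun he => hp (by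
    rw [← hU.mp, ← he]; exact hU.mZ)⟩
  conn := by
    rw [iUnion_const]
    exact (hU.sph.inv.isCompact_im hU.sph.sm.continuousOn).2
  hitZ := ⟨0, mk3 0, mk3_ne 0, hU.mZ⟩
  hitp := ⟨0, mk3 2, mk3_ne 2, hU.mp⟩
  aro := by simpa using hU.aro
  arh := by simpa using hU.arh

theorem sconv_congr {ι : Type} {l : Filter ι} {U : ι → C2 → V} {U₀ U₁ : C2 → V}
    (h : SConv l U U₀) (he : ∀ v, v ≠ 0 → U₁ v = U₀ v) : SConv l U U₁ := by
  have hne : ∀ v ∈ sphere (0 : C2) 1, v ≠ 0 := fun v hv => S3_ne ⟨v, hv⟩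
  refine ⟨h.1.congr_right fun v hv => (he v (hne v hv)).symm,
    h.2.1.congr_right fun v hv => (Filter.EventuallyEq.fderiv_eq ?_).symm, h.2.2⟩
  filter_upwards [nz_mem_nhds (hne v hv)] with w hw using he w hw

theorem mk3_mem (m : Fin 3) : mk3 m ∈ sphere (0 : C2) 1 := by
  rw [mem_sphere_zero_iff_norm]; exact mk3_norm m

theorem lim_const {ι : Type} {l : Filter ι} [l.NeBot] {f : ι → ℝ} {a b : ℝ}
    (h : Tendsto f l (𝓝 a)) (hb : ∀ᶠ ν in l, f ν = b) : a = b :=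
  tendsto_nhds_unique h (tendsto_const_nhds.congr' (hb.mono fun _ h => h.symm))

theorem two_marks {p : C2} {m m' : Fin 3} (h : m ≠ m') : ¬ Par (mk3 m) p ∨ ¬ Par (mk3 m') p := by
  by_contra hc
  rw [not_or, not_not, not_not] at hc
  exact h (mk3_par (hc.1.trans (hc.2.symm (mk3_ne m'))))

end MainKP

open MainKP

theorem mainK_of (h1 : TopStmt) (h2 : BundleStmt) (h3 : ChernStmt) (h4 : MobStmt) (h5 : CptStmt) :
    MainKStmt := by
  intro V _ _ _ O M K Z D π om h J 𝒜 gZ gD γ a₀ Us ρs J' hA hH hG hN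
  rw [isCompact_iff_ultrafilter_le_nhds]
  intro 𝓤 h𝓤
  have hK : ∀ᶠ ν in (𝓤 : Filter (ℝ × ℝ × BB V)), ν ∈ Km M om h Z D a₀ γ J' := le_principal_iff.1 h𝓤
  obtain ⟨τ₀, hτ₀, hτ⟩ := (isCompact_Icc (a := (0 : ℝ)) (b := 1)).ultrafilter_le_nhds
    (𝓤.map fun ν => ν.1) (le_principal_iff.2 (hK.mono fun ν hν => hν.1))
  obtain ⟨ρ₀, hρ₀, hρ⟩ := (isCompact_Icc (a := (0 : ℝ)) (b := 1)).ultrafilter_le_nhds
    (𝓤.map fun ν => ν.2.1) (le_principal_iff.2 (hK.mono fun ν hν => hν.2.1))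
  have hτ' : Tendsto (fun ν : ℝ × ℝ × BB V => ν.1) 𝓤 (𝓝 τ₀) := hτ
  have hρ' : Tendsto (fun ν : ℝ × ℝ × BB V => ν.2.1) 𝓤 (𝓝 ρ₀) := hρ
  obtain ⟨⟨R, Λ, c, henv⟩, hlim⟩ := hA.unif hH.cpt hH.sub hG.sm hG.sj fun τ hτ => (hG.adm τ hτ).tame
  let τc : ℝ × ℝ × BB V → ℝ := fun ν => projIcc (0 : ℝ) 1 zero_le_one ν.1
  have hτc : ∀ ν ∈ Km M om h Z D a₀ γ J', τc ν = ν.1 := fun ν hν =>
    congrArg Subtype.val (projIcc_of_mem zero_le_one hν.1)
  have hF : GFam M K om R Λ c 𝓤 (fun ν => J' (τc ν)) (J' τ₀) :=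
    ⟨fun ν => henv _ (projIcc (0 : ℝ) 1 zero_le_one ν.1).2, henv _ hτ₀,
      hlim _ τc τ₀ (hτ'.congr' (hK.mono fun ν hν => (hτc ν hν).symm))⟩
  have hsm : ∀ τ, ContDiff ℝ 2 (J' τ) := fun τ =>
    (hG.sm.comp (contDiff_const.prodMk contDiff_id)).of_le (by norm_num)
  have hinK : ∀ ν ∈ Km M om h Z D a₀ γ J', IsSph K (J' ν.1) (fX ν.2.2) := fun ν hν =>
    sph_mono hν.2.2.1.sph fun v hv => (hH.conf _ hν.1 _ hν.2.1 _ (hG.adm _ hν.1) 1 _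
      (conf_one hν.2.2.1 (hH.path (ν.1, ν.2.1) ⟨hν.1, hν.2.1⟩).2.2.1)).1 0 ⟨v, hv, rfl⟩
  obtain ⟨C, -, hC⟩ := (h4 V).2.2.2.2.1 M K om R Λ c hA.smo.continuous hH.sub
  obtain ⟨β, hβ1, hβ2, hβ⟩ := h3 V O M K π om h (J' τ₀) hA hH.cpt hH.sub (hsm τ₀)
    (hG.adm τ₀ hτ₀).wj (hG.adm τ₀ hτ₀).tame
  have eo : ∀ᶠ ν in (𝓤 : Filter (ℝ × ℝ × BB V)), area om (fX ν.2.2) = a₀ :=
    hK.mono fun ν hν => hν.2.2.1.aro
  have eh : ∀ᶠ ν in (𝓤 : Filter (ℝ × ℝ × BB V)), area h (fX ν.2.2) = 1 :=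
    hK.mono fun ν hν => hν.2.2.1.arh
  have eβ : ∀ᶠ ν in (𝓤 : Filter (ℝ × ℝ × BB V)), area β (fX ν.2.2) = 2 := hK.mono fun ν hν => by
    have := hβ _ (hsm ν.1) (hG.adm _ hν.1).wj (hG.adm _ hν.1).tame _ 2 (hinK ν hν).toMap2 hν.2.2.2
    exact_mod_cast this
  have hch : ∀ W : C2 → V, IsSph K (J' τ₀) W →
      ∃ n : ℤ, Chern M (J' τ₀) W n ∧ area β W = n := fun W hW => by
    obtain ⟨k, hk⟩ := h2 V O M π om h (J' τ₀) W hA (hsm τ₀) (hG.sj τ₀)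
      ⟨hW.sm, hW.inv, fun v hv => hH.sub (hW.mem v hv)⟩
    exact ⟨_, ⟨k, hk, rfl⟩, hβ _ (hsm τ₀) (hG.adm τ₀ hτ₀).wj (hG.adm τ₀ hτ₀).tame W _ hW.toMap2
      ⟨k, hk, rfl⟩⟩
  obtain ⟨hγ1, -, hγZ, hγD⟩ := hH.path (τ₀, ρ₀) ⟨hτ₀, hρ₀⟩
  have mZ : ∀ y, Tendsto (fun ν : ℝ × ℝ × BB V => fX ν.2.2 (mk3 0)) 𝓤 (𝓝 y) → y ∈ Z := fun y hy =>
    hH.clZ.mem_of_tendsto hy (hK.mono fun ν hν => hν.2.2.1.mZ)
  have mD : ∀ y, Tendsto (fun ν : ℝ × ℝ × BB V => fX ν.2.2 (mk3 1)) 𝓤 (𝓝 y) → y ∈ D := fun y hy =>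
    hH.clD.mem_of_tendsto hy (hK.mono fun ν hν => hν.2.2.1.mD)
  have mp : Tendsto (fun ν : ℝ × ℝ × BB V => fX ν.2.2 (mk3 2)) 𝓤 (𝓝 (γ (τ₀, ρ₀))) :=
    (hγ1.continuousAt.tendsto.comp (hτ'.prodMk_nhds hρ')).congr'
      (hK.mono fun ν hν => hν.2.2.1.mp.symm)
  have co : ContinuousOn om K := hA.smo.continuous.continuousOn
  have ch : ContinuousOn h K := hA.smh.continuous.continuousOn
  rcases h1 V O M K om R Λ c (hA.env0 hH.cpt hH.sub) _ 𝓤 _ _ hF (fun ν => fX ν.2.2) (C * a₀)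
      (hK.mono fun ν hν => by
        rw [hτc ν hν]
        refine ⟨hinK ν hν, ?_⟩
        rw [← hν.2.2.1.aro]
        exact hC _ _ (henv _ hν.1) (hinK ν hν)) with
    ⟨U₀, hU₀, hcv, har⟩ | ⟨k, W, hk, hW, hcon, har, hcap⟩ | ⟨p, -, x, hx, hp⟩
  · obtain ⟨b₀, hb₀⟩ := exists_X (xh_of_contDiffOn (inv_iff_hom.1 hU₀.inv) hU₀.sm)
    have hs : IsSph K (J' τ₀) (fX b₀) :=
      hU₀.congr hb₀ hU₀.mem fun _ _ _ _ => rfl
    have hcv' := sconv_congr hcv hb₀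
    have ha : ∀ β' : F2 V, area β' (fX b₀) = area β' U₀ := fun β' =>
      area_congr hU₀.toMap2 hb₀ fun _ _ _ _ _ _ => rfl
    have hpt : ∀ m, Tendsto (fun ν : ℝ × ℝ × BB V => fX ν.2.2 (mk3 m)) 𝓤 (𝓝 (fX b₀ (mk3 m))) :=
      fun m => hcv'.1.tendsto_at (mk3_mem m)
    obtain ⟨n, hn, hn'⟩ := hch _ hs
    have hn2 : n = 2 := by
      rw [ha, lim_const (har β hβ1 hβ2) eβ] at hn'
      exact_mod_cast hn'.symm
    refine ⟨(τ₀, ρ₀, b₀), ⟨hτ₀, hρ₀, ⟨sph_mono hs fun v hv => hH.sub (hs.mem v hv), mZ _ (hpt 0),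
      mD _ (hpt 1), tendsto_nhds_unique (hpt 2) mp, ?_, ?_⟩, hn2 ▸ hn⟩, ?_⟩
    · exact (ha om).trans (lim_const (har om co hA.ano) eo)
    · exact (ha h).trans (lim_const (har h ch hA.anh) eh)
    · have hb := (h5 V).2.2 _ 𝓤 (fun ν : ℝ × ℝ × BB V => ν.2.2) b₀
        (hK.mono fun ν hν => (hinK ν hν).sm) hs.sm hcv'
      exact hτ'.prodMk_nhds (hρ'.prodMk_nhds hb)
  · exfalso
    obtain ⟨y, -, hy⟩ := hH.cpt.ultrafilter_le_nhds (𝓤.map fun ν => fX ν.2.2 (mk3 0))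
      (le_principal_iff.2 (hK.mono fun ν hν => (hinK ν hν).mem _ (mk3_ne 0)))
    have hZ : ∃ i v, v ≠ 0 ∧ W i v ∈ Z := by
      obtain ⟨i, v, hv, he⟩ := mem_iUnion.1 (hcap _ (mk3_ne 0) y hy)
      exact ⟨i, v, hv, he ▸ mZ y hy⟩
    have hp : ∃ i v, v ≠ 0 ∧ W i v = γ (τ₀, ρ₀) := by
      obtain ⟨i, v, hv, he⟩ := mem_iUnion.1 (hcap _ (mk3_ne 2) _ mp)
      exact ⟨i, v, hv, he⟩
    obtain ⟨-, g1, g2, g3, g4⟩ := hH.conf τ₀ hτ₀ ρ₀ hρ₀ _ (hG.adm τ₀ hτ₀) k W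
      ⟨fun i => ⟨sph_mono (hW i).1 fun v hv => hH.sub ((hW i).1.mem v hv), (hW i).2⟩, hcon, hZ, hp,
        lim_const (har om co hA.ano) eo, lim_const (har h ch hA.anh) eh⟩
    have hlt : τ₀ < 1 := lt_of_le_of_ne hτ₀.2 fun he => by have := g3 he; omega
    choose n hn hn' using fun i => hch (W i) (hW i).1
    refine hN ⟨τ₀, ⟨lt_of_le_of_ne hτ₀.1 g2.symm, hlt⟩, ρ₀, g1, k, W, n, hk,
      fun i => ⟨(hW i).1, (hW i).2, hn i, g4 hlt i⟩, ?_, hcon, hZ, hp⟩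
    have := lim_const (har β hβ1 hβ2) eβ
    simp only [hn'] at this
    exact_mod_cast this
  · exfalso
    have a0 : ¬ Par (mk3 0) p → x ∈ Z := fun hq => mZ x (hp _ (mk3_ne 0) hq)
    have a1 : ¬ Par (mk3 1) p → x ∈ D := fun hq => mD x (hp _ (mk3_ne 1) hq)
    have a2 : ¬ Par (mk3 2) p → x = γ (τ₀, ρ₀) := fun hq =>
      tendsto_nhds_unique (hp _ (mk3_ne 2) hq) mp
    by_cases q0 : Par (mk3 0) p
    · exact hγD (a2 ((two_marks (by decide)).resolve_left (not_not.2 q0)) ▸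
        a1 ((two_marks (by decide)).resolve_left (not_not.2 q0)))
    · rcases two_marks (p := p) (show (1 : Fin 3) ≠ 2 by decide) with q | q
      · exact hH.disj x (hH.sub hx) (a0 q0) (a1 q)
      · exact hγZ (a2 q ▸ a0 q0)

end

end Pool.Agent.MP_9758ca_gt

end

section

/-!
PROJECT BALL, module MAINM: the parity argument for the compact moduli space.
-/

open scoped Topology ContDiff ComplexConjugate
open Set Metric Filter Complex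

namespace Pool.Agent.MP_9758ca_gt

namespace MainMP

variable {V : Type} [NormedAddCommGroup V] [NormedSpace ℝ V]

theorem inv_fX (b : BB V) : Inv (fX b) := inv_iff_hom.2 (fX_hom b)

/-- values of nearby maps are uniformly close -/
theorem dist_fX_le (b b' : BB V) {v : C2} (hv : v ≠ 0) : ‖fX b' v - fX b v‖ ≤ ‖b' - b‖ := by
  obtain ⟨w, hw⟩ := exists_S3 hv
  have hn : (‖v‖ : ℂ) ≠ 0 := by exact_mod_cast norm_ne_zero_iff.2 hv
  rw [← fX_sub, hw, inv_fX (b' - b) _ hn _ (S3_ne w)]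
  exact (norm_fX_le (b' - b) w).1

theorem map2_univ {S : Set V} {U : C2 → V} (h : Map2 S U) : Map2 univ U :=
  ⟨h.sm, h.inv, fun _ _ => mem_univ _⟩

/-- a solution of the main problem is a configuration with one component -/
theorem conf_of_sol {M Z D : Set V} {om h : F2 V} {a₀ : ℝ} {J : V → En0 V} {p : V} {U : C2 → V}
    (hs : MainSol M om h Z D a₀ J p U) (hp : p ∉ Z) : Conf M om h Z a₀ J p 1 fun _ => U where
  sph _ := ⟨hs.sph, mk3 0, mk3_ne 0, mk3 2, mk3_ne 2, fun e => hp (by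
    rw [← hs.mp, ← e]; exact hs.mZ)⟩
  conn := by
    rw [iUnion_const]
    exact (hs.sph.inv.isCompact_im hs.sph.sm.continuousOn).2
  hitZ := ⟨0, mk3 0, mk3_ne 0, hs.mZ⟩
  hitp := ⟨0, mk3 2, mk3_ne 2, hs.mp⟩
  aro := by simpa using hs.aro
  arh := by simpa using hs.arh

/-- areas are locally constant -/
theorem area_near (h5 : StokesStmt) {O : Set V} (hO : IsOpen O) {U : C2 → V} (hU : Map2 O U) :
    ∃ δ > 0, ∀ β : F2 V, ContDiff ℝ 1 β → Anti β → ClosedOn β O → ∀ U', Map2 univ U' →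
      (∀ v, v ≠ 0 → ‖U' v - U v‖ < δ) → area β U' = area β U := by
  have hc := (hU.inv.isCompact_im hU.sm.continuousOn).1
  have hs : im U ⊆ O := by
    rintro _ ⟨v, hv, rfl⟩
    exact hU.mem v hv
  obtain ⟨δ, hδ, hsub⟩ := hc.exists_thickening_subset_open hO hs
  refine ⟨δ, hδ, fun β b1 b2 b3 U' hU' hd =>
    h5.2.2 V β O U U' b1 b2 b3 (map2_univ hU) hU' fun v hv r hr => hsub ?_⟩
  refine mem_thickening_iff.2 ⟨U v, ⟨v, hv, rfl⟩, ?_⟩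
  rw [dist_eq_norm, add_sub_cancel_left, norm_smul, Real.norm_eq_abs, abs_of_nonneg hr.1]
  exact lt_of_le_of_lt (mul_le_of_le_one_left (norm_nonneg _) hr.2) (hd v hv)

variable [FiniteDimensional ℝ V] {O M K Z D : Set V} {π : V → V} {om h : F2 V}
  {J : ℝ → V → En0 V} {𝒜 : Set (ℝ × V)} {gZ : V → V → ℂ × ℝ} {gD : V → V → ℂ} {γ : ℝ × ℝ → V}
  {a₀ : ℝ} {Us : C2 → V} {ρs : ℝ} {J' : ℝ → V → En0 V}

omit [FiniteDimensional ℝ V] in
theorem km_param (hH : Hyp M K om h J 𝒜 Z D gZ gD γ a₀ Us ρs) (hG : GenFam π M om J 𝒜 J')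
    {t : ℝ × ℝ × BB V} (ht : t ∈ Km M om h Z D a₀ γ J') : t.2.1 ∈ Ioo (0 : ℝ) 1 ∧ t.1 ≠ 0 := by
  obtain ⟨h1, h2, h3, -⟩ := ht
  have := hH.conf t.1 h1 t.2.1 h2 (J' t.1) (hG.adm _ h1) 1 _
    (conf_of_sol h3 (hH.path (t.1, t.2.1) ⟨h1, h2⟩).2.2.1)
  exact ⟨this.2.1, this.2.2.1⟩

/-- the numerical invariants -/
def Nice (M : Set V) (om h : F2 V) (a₀ : ℝ) (J' : ℝ → V → En0 V) (τ ρ : ℝ) (U : C2 → V) : Prop :=
  ρ ∈ Icc (0 : ℝ) 1 ∧ (Map2 M U → area om U = a₀ ∧ area h U = 1 ∧ Chern M (J' τ) U 2)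

theorem nice_near (h4 : FrameStmt) (h5 : StokesStmt) (hA : Amb O π M om h)
    (hG : GenFam π M om J 𝒜 J') {τ ρ : ℝ} {U : C2 → V} (hρ : ρ ∈ Ioo (0 : ℝ) 1) (hU : Map2 M U)
    (a1 : area om U = a₀) (a2 : area h U = 1) (a3 : Chern M (J' τ) U 2) :
    ∃ δ > 0, ∀ τ' ρ' U', dist τ' τ < δ → dist ρ' ρ < δ → (∀ v, v ≠ 0 → ‖U' v - U v‖ < δ) →
      Nice M om h a₀ J' τ' ρ' U' := by
  obtain ⟨k, hk, hs⟩ := a3
  obtain ⟨δ₁, p1, q1⟩ := area_near h5 hA.op (U := U) ⟨hU.sm, hU.inv, fun v hv => hA.sub (hU.mem v hv)⟩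
  obtain ⟨δ₂, p2, q2⟩ := ((h4 V).2.2 O M π om h hA).2.2 ℝ (fun q : ℝ × V => J' q.1 q.2) τ U k
    (hG.sm.of_le (by norm_num)) (fun p => hA.wj (hG.sj p)) hU hk
  obtain ⟨δ₃, p3, q3⟩ := Metric.isOpen_iff.1 isOpen_Ioo ρ hρ
  refine ⟨min δ₁ (min δ₂ δ₃), lt_min p1 (lt_min p2 p3), fun τ' ρ' U' d1 d2 d3 =>
    ⟨Ioo_subset_Icc_self (q3 (lt_of_lt_of_le d2 ((min_le_right _ _).trans (min_le_right _ _)))),
      fun hU' => ?_⟩⟩
  have e1 : ∀ v, v ≠ 0 → ‖U' v - U v‖ < δ₁ := fun v hv => lt_of_lt_of_le (d3 v hv) (min_le_left _ _)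
  refine ⟨(q1 om (hA.smo.of_le (by norm_num)) hA.ano hA.clo U' (map2_univ hU') e1).trans a1,
    (q1 h (hA.smh.of_le (by norm_num)) hA.anh hA.clh U' (map2_univ hU') e1).trans a2, k,
    q2 τ' (lt_of_lt_of_le d1 ((min_le_right _ _).trans (min_le_left _ _))) U' hU' fun v => ?_, hs⟩
  rw [dist_eq_norm]
  exact lt_of_lt_of_le (d3 v (S3_ne v)) ((min_le_right _ _).trans (min_le_left _ _))

theorem km_interior (h4 : FrameStmt) (h5 : StokesStmt) (hA : Amb O π M om h)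
    (hH : Hyp M K om h J 𝒜 Z D gZ gD γ a₀ Us ρs) (hG : GenFam π M om J 𝒜 J')
    {t : ℝ × ℝ × BB V} (ht : t ∈ Km M om h Z D a₀ γ J') :
    t ∈ interior {s : ℝ × ℝ × BB V | Nice M om h a₀ J' s.1 s.2.1 (fX s.2.2)} := by
  obtain ⟨δ, hδ, hn⟩ := nice_near h4 h5 hA hG (km_param hH hG ht).1 ht.2.2.1.sph.toMap2
    ht.2.2.1.aro ht.2.2.1.arh ht.2.2.2
  refine mem_interior_iff_mem_nhds.2 (Metric.mem_nhds_iff.2 ⟨δ, hδ, fun s hs => ?_⟩)
  have hs' : dist s t < δ := hs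
  rw [Prod.dist_eq, Prod.dist_eq, max_lt_iff, max_lt_iff] at hs'
  refine hn _ _ _ hs'.1 hs'.2.1 fun v hv => lt_of_le_of_lt (dist_fX_le _ _ hv) ?_
  rw [← dist_eq_norm]
  exact hs'.2.2

omit [FiniteDimensional ℝ V] in
theorem sm_slice (hG : GenFam π M om J 𝒜 J') (τ : ℝ) : ContDiff ℝ 2 (J' τ) :=
  (hG.sm.of_le (by norm_num)).comp (contDiff_const.prodMk contDiff_id)

theorem sol_iff (h3 : ChartStmt) (h4 : FrameStmt) (h5 : StokesStmt) (hA : Amb O π M om h)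
    (hH : Hyp M K om h J 𝒜 Z D gZ gD γ a₀ Us ρs) (hG : GenFam π M om J 𝒜 J')
    (t : ℝ × ℝ × BB V) :
    ((t, (0 : QQ V)) ∈ MSol π M Z D γ J'
      (interior {s : ℝ × ℝ × BB V | Nice M om h a₀ J' s.1 s.2.1 (fX s.2.2)}) ∧
        t.1 ∈ Icc (0 : ℝ) 1) ↔ t ∈ Km M om h Z D a₀ γ J' := by
  have hc := (h3 V O M π om h hA).2 (J' t.1) t.2.2 (sm_slice hG _) (hG.sj _)
  constructor
  · rintro ⟨⟨m1, m2, m3, m4, m5, m6⟩, hτ⟩
    have hs := (hc m2).1 m3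
    obtain ⟨n1, n2⟩ := interior_subset m1
    obtain ⟨n3, n4, n5⟩ := n2 hs.toMap2
    exact ⟨hτ, n1, ⟨hs, m4, m5, m6, n3, n4⟩, n5⟩
  · intro ht
    have hm := ht.2.2.1.sph.mem
    exact ⟨⟨km_interior h4 h5 hA hH hG ht, hm, (hc hm).2 ht.2.2.1.sph, ht.2.2.1.mZ, ht.2.2.1.mD,
      ht.2.2.1.mp⟩, ht.1⟩

/-- the explicit solution -/
theorem exists_base (h4 : FrameStmt) (hH : Hyp M K om h J 𝒜 Z D gZ gD γ a₀ Us ρs)
    (hG : GenFam π M om J 𝒜 J') : ∃ b : BB V, (∀ v, v ≠ 0 → fX b v = Us v) ∧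
      ((1 : ℝ), ρs, b) ∈ Km M om h Z D a₀ γ J' := by
  have hs := hH.sol
  obtain ⟨b, hb⟩ := exists_X (xh_of_contDiffOn (inv_iff_hom.1 hs.sph.inv) hs.sph.sm)
  refine ⟨b, hb, ⟨zero_le_one, le_rfl⟩, hH.rho, ?_, ?_⟩
  · change MainSol M om h Z D a₀ (J' 1) (γ (1, ρs)) (fX b)
    rw [hG.one]
    refine ⟨hs.sph.congr hb hs.sph.mem fun _ _ _ _ => rfl, ?_, ?_, ?_, ?_, ?_⟩
    · rw [hb _ (mk3_ne 0)]; exact hs.mZ
    · rw [hb _ (mk3_ne 1)]; exact hs.mD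
    · rw [hb _ (mk3_ne 2)]; exact hs.mp
    · rw [area_congr hs.sph.toMap2 hb fun _ _ _ _ _ _ => rfl]; exact hs.aro
    · rw [area_congr hs.sph.toMap2 hb fun _ _ _ _ _ _ => rfl]; exact hs.arh
  · change Chern M (J' 1) (fX b) 2
    rw [hG.one]
    obtain ⟨k, hk, e⟩ := hH.chern
    exact ⟨k, (h4 V).1 M M _ _ Us _ k hk fun v hv => ⟨hb v hv, rfl, fun _ _ => rfl⟩, e⟩

end MainMP

open MainMP in
theorem mainM_of (h1 : ThickStmt) (h2 : ModelStmt) (h3 : ChartStmt) (h4 : FrameStmt)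
    (h5 : StokesStmt) : MainMStmt := by
  intro V _ _ _ O M K Z D π om h J 𝒜 gZ gD γ a₀ Us ρs J' hA hH hG hK
  have : CompleteSpace V := FiniteDimensional.complete ℝ V
  have key := sol_iff h3 h4 h5 hA hH hG
  obtain ⟨b, hb, hb'⟩ := exists_base h4 hH hG
  refine h1 (ℝ × ℝ × BB V) (QQ V) (MSol π M Z D γ J'
    (interior {s : ℝ × ℝ × BB V | Nice M om h a₀ J' s.1 s.2.1 (fX s.2.2)}))
    (ContinuousLinearMap.fst ℝ ℝ (ℝ × BB V)) ((1 : ℝ), ρs, b) ?_ ?_ ?_ ((key _).2 hb').1 rfl ?_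
  · have e := Set.ext key
    exact e ▸ hK
  · intro t m1 m2
    exact h2 V O M K Z D π om h J 𝒜 gZ gD γ a₀ Us ρs J' _ hA hH hG isOpen_interior t
      ((key t).1 ⟨m1, m2⟩) m1.1
  · intro t m1 m2
    have m3 : t.1 = 0 := m2
    exact (km_param hH hG ((key t).1 ⟨m1, by rw [m3]; exact ⟨le_rfl, zero_le_one⟩⟩)).2 m3
  · intro t m1 m2
    have m3 : t.1 = 1 := m2
    obtain ⟨-, k2, k3, -⟩ := (key t).1 ⟨m1, by rw [m3]; exact ⟨zero_le_one, le_rfl⟩⟩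
    rw [m3, hG.one] at k3
    obtain ⟨u1, u2⟩ := hH.uniq _ k2 _ k3
    refine Prod.ext m3 (Prod.ext u1 (X_ext fun v => ?_))
    rw [u2 _ (S3_ne v), hb _ (S3_ne v)]

end Pool.Agent.MP_9758ca_gt

end

section

/-!
PROJECT BALL, module Balluse: spheres through the standard ball have large area.
-/

open scoped Topology ContDiff ComplexConjugate
open Set Metric Filter Complex MeasureTheory

namespace Pool.Agent.MP_9758ca_gt

namespace BalluseP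

variable {V : Type} [NormedAddCommGroup V] [NormedSpace ℝ V]

/-- the data used near a point of the sphere in the ball -/
structure Dat (M : Set V) (om : F2 V) (r r₁ : ℝ) (ψ : ℝ × E6 → V) (τ : ℝ) (J' : V → En0 V)
    (U : C2 → V) (g : V → E6) : Prop where
  fam : BallFam M om r ψ
  lt : r₁ < r
  sph : IsSph M J' U
  inn : ∀ y ∈ closedBall (0 : E6) r₁, ∀ a, fderiv ℝ ψ (τ, y) (0, a) ∈ tan M (ψ (τ, y)) →
    J' (ψ (τ, y)) (fderiv ℝ ψ (τ, y) (0, a)) = fderiv ℝ ψ (τ, y) (0, j6 a)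
  inv : ∀ y ∈ ball (0 : E6) r, ContDiffAt ℝ 2 g (ψ (τ, y)) ∧
    g (ψ (τ, y)) = y ∧ ∀ᶠ x in 𝓝 (ψ (τ, y)), x ∈ M → ∃ y' ∈ ball (0 : E6) r, ψ (τ, y') = x

variable {M : Set V} {om : F2 V} {r r₁ : ℝ} {ψ : ℝ × E6 → V} {τ : ℝ} {J' : V → En0 V}
  {U : C2 → V} {g : V → E6}

lemma Dat.dU (D : Dat M om r r₁ ψ τ J' U g) {v : C2} (hv : v ≠ 0) : DifferentiableAt ℝ U v :=
  (D.sph.sm.contDiffAt (nz_mem_nhds hv)).differentiableAt two_ne_zero

lemma Dat.loc (D : Dat M om r r₁ ψ τ J' U g) {v : C2} (hv : v ≠ 0) {y : E6}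
    (hy : y ∈ closedBall (0 : E6) r₁) (he : ψ (τ, y) = U v) :
    g (U v) = y ∧ DifferentiableAt ℝ (g ∘ U) v ∧ (∀ᶠ w in 𝓝 v, ψ (τ, g (U w)) = U w) ∧
      (∀ a, fderiv ℝ U v a = fderiv ℝ ψ (τ, y) (0, fderiv ℝ (g ∘ U) v a)) ∧
      ∀ a, fderiv ℝ (g ∘ U) v (I • a) = j6 (fderiv ℝ (g ∘ U) v a) := by
  have hyr : y ∈ ball (0 : E6) r := closedBall_subset_ball D.lt hy
  obtain ⟨h1, h2, h3⟩ := D.inv y hyr
  rw [he] at h1 h2 h3
  have hd := D.dU hv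
  have d1 : DifferentiableAt ℝ (g ∘ U) v := (h1.differentiableAt two_ne_zero).comp v hd
  have ev : ∀ᶠ w in 𝓝 v, ψ (τ, g (U w)) = U w := by
    filter_upwards [hd.continuousAt.eventually h3, nz_mem_nhds hv] with w hw hw0
    obtain ⟨y', hy', e⟩ := hw (D.sph.mem w hw0)
    rw [← e, (D.inv y' hy').2.1]
  have d2 : DifferentiableAt ℝ ψ (τ, y) :=
    (D.fam.sm.contDiffAt (prod_mem_nhds univ_mem
      (mem_of_superset (isOpen_ball.mem_nhds hyr) ball_subset_closedBall))).differentiableAt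
      (by simp)
  have e1 : ∀ a, fderiv ℝ U v a = fderiv ℝ ψ (τ, y) (0, fderiv ℝ (g ∘ U) v a) := by
    intro a
    have b1 : HasFDerivAt (fun w => (τ, (g ∘ U) w))
        ((0 : C2 →L[ℝ] ℝ).prod (fderiv ℝ (g ∘ U) v)) v :=
      (hasFDerivAt_const τ v).prodMk d1.hasFDerivAt
    have b2 : HasFDerivAt ψ (fderiv ℝ ψ (τ, y)) (τ, (g ∘ U) v) := by
      rw [Function.comp_apply, h2]
      exact d2.hasFDerivAt
    have b3 := ((b2.comp v b1).congr_of_eventuallyEq (f₁ := U)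
      (ev.mono fun w hw => hw.symm)).fderiv
    rw [b3]
    rfl
  refine ⟨h2, d1, ev, e1, fun a => ?_⟩
  have t1 : fderiv ℝ U v a ∈ tan M (U v) :=
    fderiv_mem_tan hd (mem_of_superset (nz_mem_nhds hv) fun w hw => D.sph.mem w hw) a
  have e2 := D.sph.cr v hv a
  rw [e1 a, ← he] at t1
  rw [e1 a, e1 (I • a), ← he, D.inn y hy _ t1] at e2
  set d := fderiv ℝ (g ∘ U) v (I • a) - j6 (fderiv ℝ (g ∘ U) v a) with hd'
  have e3 : fderiv ℝ ψ (τ, y) (0, d) = 0 := by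
    rw [← sub_eq_zero, ← map_sub] at e2
    simpa [hd'] using e2
  have e4 := D.fam.pull τ y hyr d (j6 d)
  rw [e3, om0_j6, map_zero] at e4
  have e5 : ‖d‖ ^ 2 = 0 := e4.symm
  exact sub_eq_zero.1 (norm_eq_zero.1 (pow_eq_zero_iff two_ne_zero |>.1 e5))

lemma Dat.hol (D : Dat M om r r₁ ψ τ J' U g) {L : E6 ≃L[ℝ] C3} (hL : ∀ y, L y = cz y) (b : C3)
    {v : C2} (hv : v ≠ 0) {y : E6} (hy : y ∈ closedBall (0 : E6) r₁) (he : ψ (τ, y) = U v) :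
    DifferentiableAt ℂ (fun w => L (g (U w)) - b) v ∧
      ∀ a, fderiv ℝ (fun w => L (g (U w)) - b) v a = cz (fderiv ℝ (g ∘ U) v a) := by
  obtain ⟨-, d1, -, -, h5⟩ := D.loc hv hy he
  have b1 : HasFDerivAt (fun w => L (g (U w)) - b)
      ((L : E6 →L[ℝ] C3).comp (fderiv ℝ (g ∘ U) v)) v :=
    ((L : E6 →L[ℝ] C3).hasFDerivAt.comp v d1.hasFDerivAt).sub_const b
  have e : ∀ a, fderiv ℝ (fun w => L (g (U w)) - b) v a = cz (fderiv ℝ (g ∘ U) v a) := fun a => by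
    rw [b1.fderiv, ← hL]
    rfl
  refine ⟨differentiableAt_of_db hv b1.differentiableAt ?_ ?_, e⟩
  · rw [db, e, e, h5, cz_j6, smul_smul, I_mul_I, neg_one_smul, add_neg_cancel]
  · rw [e, e, h5, cz_j6]

lemma ne1 (z : ℂ) : ((z, 1) : C2) ≠ 0 := fun h => one_ne_zero (congrArg Prod.snd h)

lemma diff_aff {G : C2 → C3} {z : ℂ} (h : DifferentiableAt ℂ G (z, 1)) :
    DifferentiableAt ℂ (aff G) z :=
  h.comp z (f := fun z : ℂ => ((z, 1) : C2)) (differentiableAt_id.prodMk (differentiableAt_const _))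

lemma Dat.dens_eq (D : Dat M om r r₁ ψ τ J' U g) {L : E6 ≃L[ℝ] C3} (hL : ∀ y, L y = cz y)
    (b : C3) {z : ℂ} {y : E6} (hy : y ∈ closedBall (0 : E6) r₁) (he : ψ (τ, y) = U (z, 1)) :
    ∑ i, ‖deriv (aff fun w => L (g (U w)) - b) z i‖ ^ 2 = dens om (aff U) z := by
  obtain ⟨-, -, -, h4, h5⟩ := D.loc (ne1 z) hy he
  obtain ⟨k1, k2⟩ := D.hol hL b (ne1 z) hy he
  have e1 : deriv (aff fun w => L (g (U w)) - b) z = cz (fderiv ℝ (g ∘ U) (z, 1) (1, 0)) := by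
    rw [← k2, ← fderiv_aff (k1.restrictScalars ℝ), (diff_aff k1).fderiv_restrictScalars ℝ]
    rfl
  have e2 : ((I, 0) : C2) = I • ((1, 0) : C2) := by simp
  rw [e1, ← norm_sq_cz, dens, fderiv_aff (D.dU (ne1 z)), fderiv_aff (D.dU (ne1 z)), e2, h4, h4, h5,
    aff, ← he, D.fam.pull τ y (closedBall_subset_ball D.lt hy), om0_j6]

theorem Dat.mono (D : Dat M om r r₁ ψ τ J' U g) (h1 : MonoStmt) (hN : NonC U)
    (hi : Integrable (dens om (aff U))) (h0 : ∀ z, 0 ≤ dens om (aff U) z) {v₀ : E6}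
    (hv₀ : ‖v₀‖ < r₁) {v₁ : C2} (hv₁ : v₁ ≠ 0) (he₁ : U v₁ = ψ (τ, v₀)) :
    Real.pi * (r₁ - ‖v₀‖) ^ 2 ≤ area om U := by
  obtain ⟨L, hL⟩ := exists_czL
  have hρ : 0 < r₁ - ‖v₀‖ := sub_pos.2 hv₀
  have hsub : ball v₀ (r₁ - ‖v₀‖) ⊆ closedBall (0 : E6) r₁ := fun y hy => by
    rw [mem_ball_iff_norm] at hy
    rw [mem_closedBall_zero_iff]
    linarith [norm_sub_norm_le y v₀]
  refine h1 {v | v ≠ 0 ∧ ∃ y ∈ ball v₀ (r₁ - ‖v₀‖), ψ (τ, y) = U v}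
    (fun w => L (g (U w)) - L v₀) _ v₁ _ ?_ (fun v hv => hv.1) ?_ ?_ hρ ?_
    ⟨hv₁, v₀, mem_ball_self hρ, he₁.symm⟩ ?_ ?_ hi h0 ?_
  · refine isOpen_iff_mem_nhds.2 ?_
    rintro v ⟨hv, y, hy, he⟩
    obtain ⟨k1, k2, k3, -⟩ := D.loc hv (hsub hy) he
    have k4 : ball v₀ (r₁ - ‖v₀‖) ∈ 𝓝 ((g ∘ U) v) := by
      rw [Function.comp_apply, k1]
      exact isOpen_ball.mem_nhds hy
    filter_upwards [k3, nz_mem_nhds hv, k2.continuousAt.preimage_mem_nhds k4] with w a1 a2 a3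
    exact ⟨a2, _, a3, a1⟩
  · rintro c hc v ⟨hv, y, hy, he⟩
    have e := D.sph.inv c hc v hv
    exact ⟨⟨smul_ne_zero hc hv, y, hy, he.trans e.symm⟩, by rw [e]⟩
  · rintro v ⟨hv, y, hy, he⟩
    exact (D.hol hL _ hv (hsub hy) he).1.differentiableWithinAt
  · intro s hs v hv hc
    have hs' : closedBall v₀ √s ⊆ ball v₀ (r₁ - ‖v₀‖) :=
      closedBall_subset_ball ((Real.sqrt_lt' hρ).2 hs)
    have hK : IsCompact ((fun y => ψ (τ, y)) '' closedBall v₀ √s) := by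
      refine (isCompact_closedBall _ _).image_of_continuousOn ?_
      refine D.fam.sm.continuousOn.comp (f := fun y : E6 => (τ, y)) (by fun_prop) fun y hy => ?_
      exact ⟨mem_univ _, closedBall_subset_closedBall D.lt.le (hsub (hs' hy))⟩
    have k1 := closure_minimal (t := (fun y => ψ (τ, y)) '' closedBall v₀ √s) ?_ hK.isClosed
      (mem_closure_image (D.dU hv).continuousAt hc)
    · obtain ⟨y, hy, he⟩ := k1
      exact ⟨hv, y, hs' hy, he⟩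
    · rintro _ ⟨w, ⟨⟨hw, y, hy, he⟩, hw2⟩, rfl⟩
      refine ⟨y, ?_, he⟩
      rw [(D.loc hw (hsub hy) he).1, ← map_sub, hL, ← norm_sq_cz] at hw2
      exact mem_closedBall_iff_norm.2 (Real.le_sqrt_of_sq_le hw2)
  · rw [(D.loc hv₁ (mem_closedBall_zero_iff.2 hv₀.le) he₁.symm).1, sub_self]
  · by_contra hc
    push Not at hc
    have ha : ∀ v, v ≠ 0 → U v = ψ (τ, v₀) := fun v hv => by
      obtain ⟨⟨-, y, hy, he⟩, k2⟩ := hc v hv
      rw [(D.loc hv (hsub hy) he).1, sub_eq_zero] at k2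
      rw [← he, L.injective k2]
    obtain ⟨v, hv, w, hw, hne⟩ := hN
    exact hne (by rw [ha v hv, ha w hw])
  · rintro z ⟨-, y, hy, he⟩
    exact (D.dens_eq hL _ (hsub hy) he).le

theorem Dat.out (D : Dat M om r r₁ ψ τ J' U g) (hp : 0 < area om U) :
    ∃ v, v ≠ 0 ∧ ∀ y ∈ closedBall (0 : E6) r₁, ψ (τ, y) ≠ U v := by
  obtain ⟨L, hL⟩ := exists_czL
  by_contra hc
  push Not at hc
  choose y hy he using fun z : ℂ => hc (z, 1) (ne1 z)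
  have d1 : Differentiable ℂ (aff fun w => L (g (U w)) - 0) := fun z =>
    diff_aff (D.hol hL 0 (ne1 z) (hy z) (he z)).1
  have e1 : ∀ z, (aff fun w => L (g (U w)) - 0) z = L (y z) := fun z => by
    rw [aff, (D.loc (ne1 z) (hy z) (he z)).1, sub_zero]
  have b1 : Bornology.IsBounded (range (aff fun w => L (g (U w)) - 0)) := by
    refine ((isCompact_closedBall (0 : E6) r₁).image L.continuous).isBounded.subset ?_
    rintro _ ⟨z, rfl⟩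
    exact ⟨y z, hy z, (e1 z).symm⟩
  have e2 : aff U = fun _ => ψ (τ, y 0) := funext fun z => by
    have := d1.apply_eq_apply_of_bounded b1 z 0
    rw [e1, e1] at this
    rw [aff, ← he, L.injective this]
  rw [area, e2] at hp
  simp [dens] at hp

end BalluseP

theorem balluse_of (h1 : MonoStmt) (h2 : MobStmt) : BalluseStmt := by
  intro V _ _ _ O M π om h J₀ r r₁ ψ J τ J' U hA hB hr hP hT hJ hU hN
  obtain ⟨g, hg⟩ := hP.inv τ
  have D : BalluseP.Dat M om r r₁ ψ τ J' U g :=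
    ⟨hB, hr, hU, fun y hy a ha => by rw [hJ y hy _ ha, hP.inn τ y hy], hg⟩
  obtain ⟨m1, -, -, m4, -⟩ := h2 V
  obtain ⟨k1, -, k3⟩ := m4 M om J' U hA.smo.continuous hT hU
  refine ⟨fun v₀ hv₀ ⟨v₁, hv₁, he⟩ => D.mono h1 hN ?_ k1 hv₀ hv₁ he, D.out (k3 hN)⟩
  exact ((m1 U (hU.sm.of_le one_le_two) hU.inv).2.2.2 om hA.smo.continuous.continuousOn).1

end Pool.Agent.MP_9758ca_gt

end

section

/-!
PROJECT BALL, module CPT: compactness of the inclusion `C^{1,1/2} → C^{0,1/2}`, separability of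
the `C²` maps and convergence in `C^{1,1/2}` from `C¹` convergence with `C²` bounds.
-/

open scoped Topology ContDiff ComplexConjugate
open Set Metric Filter Complex

namespace Pool.Agent.MP_9758ca_gt

noncomputable section

namespace CptP

section Abs
variable {S F : Type} [MetricSpace S] [NormedAddCommGroup F] [NormedSpace ℝ F]

/-- bounded Lipschitz functions with constant `C` -/
def LipB (S F : Type) [MetricSpace S] [NormedAddCommGroup F] [NormedSpace ℝ F] (C : ℝ) :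
    Set (Hol S F) :=
  {f | (∀ x, ‖hv f x‖ ≤ C) ∧ ∀ x y, ‖hv f x - hv f y‖ ≤ C * dist x y}

theorem small (K : ℝ) {ε : ℝ} (hε : 0 < ε) :
    ∃ δ > 0, ∀ d, 0 ≤ d → d ≤ δ → d + √(2 * d * K) < ε := by
  have hc : Continuous fun d : ℝ => d + √(2 * d * K) := by fun_prop
  have h0 : (fun d : ℝ => d + √(2 * d * K)) 0 < ε := by simpa using hε
  have h1 := hc.continuousAt.eventually_lt continuousAt_const h0
  obtain ⟨δ, hδ, h2⟩ := Metric.eventually_nhds_iff.1 h1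
  refine ⟨δ / 2, by positivity, fun d hd hd' => h2 ?_⟩
  rw [Real.dist_eq, sub_zero, abs_of_nonneg hd]
  linarith

theorem sub_le {f g : Hol S F} {C δ : ℝ} (hC : 0 ≤ C) (hδ : 0 ≤ δ) (hf : f ∈ LipB S F C)
    (hg : g ∈ LipB S F C) (h : ∀ x, ‖hv f x - hv g x‖ ≤ δ) :
    ‖f - g‖ ≤ δ + √(2 * δ * (2 * C)) := by
  refine hol_norm_le_interp hδ (by positivity) (fun x => by rw [hv_sub]; exact h x) fun x y => ?_
  rw [hv_sub, hv_sub]
  have e : hv f x - hv g x - (hv f y - hv g y) = (hv f x - hv f y) - (hv g x - hv g y) := by abel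
  rw [e]
  have h1 := hf.2 x y
  have h2 := hg.2 x y
  have h3 := norm_sub_le (hv f x - hv f y) (hv g x - hv g y)
  linarith

theorem tb [CompactSpace S] [FiniteDimensional ℝ F] {C : ℝ} (hC : 0 ≤ C) :
    TotallyBounded (LipB S F C) := by
  refine Metric.totallyBounded_of_finite_discretization fun ε hε => ?_
  obtain ⟨δ, hδ, hs⟩ := small (2 * C) hε
  have hη : 0 < δ / (2 + 2 * C) := by positivity
  obtain ⟨t, -, ht, htc⟩ := finite_cover_balls_of_compact (isCompact_univ (X := S)) hη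
  obtain ⟨u, -, hu, huc⟩ := finite_cover_balls_of_compact (isCompact_closedBall (0 : F) C) hη
  have hch : ∀ (f : LipB S F C) (x : t), ∃ y : u, ‖hv f.1 x - y‖ < δ / (2 + 2 * C) := by
    intro f x
    have h1 : hv f.1 x ∈ closedBall (0 : F) C := mem_closedBall_zero_iff.2 (f.2.1 x)
    obtain ⟨y, hy, h2⟩ := mem_iUnion₂.1 (huc h1)
    exact ⟨⟨y, hy⟩, by rwa [mem_ball, dist_eq_norm] at h2⟩
  choose Φ hΦ using hch
  have := ht.fintype
  have := hu.fintype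
  classical
  refine ⟨t → u, inferInstance, Φ, fun f g hfg => ?_⟩
  rw [dist_eq_norm]
  refine lt_of_le_of_lt (sub_le hC hδ.le f.2 g.2 fun x => ?_) (hs δ hδ.le le_rfl)
  obtain ⟨y, hy, h2⟩ := mem_iUnion₂.1 (htc (mem_univ x))
  rw [mem_ball] at h2
  have h3 := hΦ f ⟨y, hy⟩
  have h4 := hΦ g ⟨y, hy⟩
  rw [hfg] at h3
  have h5 := f.2.2 x y
  have h6 := g.2.2 x y
  have e : hv f.1 x - hv g.1 x = (hv f.1 x - hv f.1 y) + (hv f.1 y - Φ g ⟨y, hy⟩) -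
      ((hv g.1 x - hv g.1 y) + (hv g.1 y - Φ g ⟨y, hy⟩)) := by abel
  rw [e]
  have h7 := norm_sub_le ((hv f.1 x - hv f.1 y) + (hv f.1 y - Φ g ⟨y, hy⟩))
    ((hv g.1 x - hv g.1 y) + (hv g.1 y - Φ g ⟨y, hy⟩))
  have h8 := norm_add_le (hv f.1 x - hv f.1 y) (hv f.1 y - Φ g ⟨y, hy⟩)
  have h9 := norm_add_le (hv g.1 x - hv g.1 y) (hv g.1 y - Φ g ⟨y, hy⟩)
  have h10 : C * dist x y ≤ C * (δ / (2 + 2 * C)) := mul_le_mul_of_nonneg_left h2.le hC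
  have h11 : (2 + 2 * C) * (δ / (2 + 2 * C)) = δ := mul_div_cancel₀ _ (by positivity)
  change ‖hv f.1 y - _‖ < _ at h3
  change ‖hv g.1 y - _‖ < _ at h4
  linarith

theorem tb_prod {A B : Type} [PseudoMetricSpace A] [PseudoMetricSpace B] {s : Set A} {t : Set B}
    (hs : TotallyBounded s) (ht : TotallyBounded t) : TotallyBounded (s ×ˢ t) := by
  refine Metric.totallyBounded_iff.2 fun ε hε => ?_
  obtain ⟨u, hu, h1⟩ := Metric.totallyBounded_iff.1 hs ε hε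
  obtain ⟨w, hw, h2⟩ := Metric.totallyBounded_iff.1 ht ε hε
  refine ⟨u ×ˢ w, hu.prod hw, fun p hp => ?_⟩
  obtain ⟨a, ha, h3⟩ := mem_iUnion₂.1 (h1 hp.1)
  obtain ⟨b, hb, h4⟩ := mem_iUnion₂.1 (h2 hp.2)
  refine mem_iUnion₂.2 ⟨(a, b), ⟨ha, hb⟩, ?_⟩
  rw [← ball_prod_same]
  exact ⟨h3, h4⟩

end Abs

variable {E : Type} [NormedAddCommGroup E] [NormedSpace ℝ E]

/-- multiplication by `c` on `ℂ²` as a real-linear function of `c` -/
def sm : ℂ →L[ℝ] C2 →L[ℝ] C2 := ContinuousLinearMap.lsmul ℝ ℂ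

theorem sm_apply (c : ℂ) (v : C2) : sm c v = c • v := rfl

/-- the representation by which derivatives of invariant maps transform -/
def repD (E : Type) [NormedAddCommGroup E] [NormedSpace ℝ E] (c : ℂ) : En0 (C2 →L[ℝ] E) :=
  (ContinuousLinearMap.compL ℝ C2 C2 E).flip (sm c⁻¹)

theorem repD_apply (c : ℂ) (A : C2 →L[ℝ] E) (v : C2) : repD E c A v = A (c⁻¹ • v) := rfl

theorem rep_repD : Rep (repD E) := by
  refine ⟨?_, ?_⟩
  · have h1 : ContDiffOn ℝ 1 (fun c : ℂ => c⁻¹) {c | c ≠ 0} :=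
      (contDiffOn_inv ℂ).restrict_scalars ℝ
    exact (ContinuousLinearMap.contDiff (F := En0 (C2 →L[ℝ] E))
      ((ContinuousLinearMap.compL ℝ C2 C2 E).flip.comp sm)).comp_contDiffOn h1
  · refine ContinuousLinearMap.ext fun A => ContinuousLinearMap.ext fun v => ?_
    rw [repD_apply, inv_one, one_smul]
    rfl

theorem hom_fderiv (b : BB E) : Hom (repD E) (fderiv ℝ (fX b)) := by
  intro c hc v hv
  refine ContinuousLinearMap.ext fun w => ?_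
  rw [repD_apply]
  have h := (inv_iff_hom.2 (fX_hom b)).fderiv_smul hc hv (fX_differentiableAt b hv) (c⁻¹ • w)
  rwa [smul_inv_smul₀ hc] at h

theorem diff2 {U : C2 → E} (h : ContDiffOn ℝ 2 U nz) {v : C2} (hv : v ≠ 0) :
    ContDiffAt ℝ 1 (fderiv ℝ U) v :=
  (h.contDiffAt (nz_mem_nhds hv)).fderiv_right (m := 1) (by norm_num)

/-- `C²` bounds on the sphere give Lipschitz bounds of both components -/
theorem lip2 : ∃ K : ℝ, 1 ≤ K ∧ ∀ (b : BB E) (n : ℝ), 0 ≤ n → ContDiffOn ℝ 2 (fX b) nz →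
    (∀ v : S3, ‖fX b v‖ ≤ n ∧ ‖fderiv ℝ (fX b) v‖ ≤ n ∧ ‖fderiv ℝ (fderiv ℝ (fX b)) v‖ ≤ n) →
    b.1.1 ∈ LipB S3 E (K * n) ∧ b.1.2 ∈ LipB S3 (C2 →L[ℝ] E) (K * n) := by
  obtain ⟨C₁, hC₁, h₁⟩ := lip_S3 (rep_triv (V := E))
  obtain ⟨C₂, hC₂, h₂⟩ := lip_S3 (rep_repD (E := E))
  refine ⟨1 + C₁ + C₂, by linarith, fun b n hn hb hv => ⟨⟨fun v => ?_, fun v w => ?_⟩,
    fun v => ?_, fun v w => ?_⟩⟩
  · rw [← fX_val]
    nlinarith [(hv v).1, mul_nonneg hC₁ hn, mul_nonneg hC₂ hn]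
  · rw [← fX_val, ← fX_val]
    refine (h₁ (fX b) n (fX_hom b) (fun v hv => fX_differentiableAt b hv)
      (fun v => ⟨(hv v).1, (hv v).2.1⟩) v w).trans
      (mul_le_mul_of_nonneg_right ?_ dist_nonneg)
    nlinarith [mul_nonneg hC₂ hn]
  · rw [← fX_fderiv]
    nlinarith [(hv v).2.1, mul_nonneg hC₁ hn, mul_nonneg hC₂ hn]
  · rw [← fX_fderiv, ← fX_fderiv]
    refine (h₂ (fderiv ℝ (fX b)) n (hom_fderiv b)
      (fun v hv => (diff2 hb hv).differentiableAt one_ne_zero) (fun v => (hv v).2) v w).trans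
      (mul_le_mul_of_nonneg_right ?_ dist_nonneg)
    nlinarith [mul_nonneg hC₁ hn]

theorem bound2 {U : C2 → E} (h : ContDiffOn ℝ 2 U nz) : ∃ n : ℕ, ∀ v : S3,
    ‖U v‖ ≤ n ∧ ‖fderiv ℝ U v‖ ≤ n ∧ ‖fderiv ℝ (fderiv ℝ U) v‖ ≤ n := by
  have hs : sphere (0 : C2) 1 ⊆ nz := fun v hv => S3_ne ⟨v, hv⟩
  have hK : IsCompact (sphere (0 : C2) 1) := isCompact_sphere _ _
  obtain ⟨a, ha⟩ := hK.exists_bound_of_continuousOn (h.continuousOn.mono hs)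
  obtain ⟨b, hb⟩ := hK.exists_bound_of_continuousOn (f := fderiv ℝ U)
    fun v hv => (diff2 h (hs hv)).continuousAt.continuousWithinAt
  obtain ⟨c, hc⟩ := hK.exists_bound_of_continuousOn (f := fderiv ℝ (fderiv ℝ U))
    fun v hv => ((diff2 h (hs hv)).fderiv_right (m := 0)
      (by norm_num)).continuousAt.continuousWithinAt
  obtain ⟨n, hn⟩ := exists_nat_ge (max a (max b c))
  simp only [max_le_iff] at hn
  exact ⟨n, fun v => ⟨(ha v v.2).trans hn.1, (hb v v.2).trans hn.2.1, (hc v v.2).trans hn.2.2⟩⟩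

theorem part1 [FiniteDimensional ℝ E] (χ : ℂ → En0 E) (L : X1 χ →L[ℝ] Y0 χ) (hχ : Rep χ)
    (hL : ∀ ξ v, v ≠ 0 → fY (L ξ) v = fX ξ v) : IsCompactOperator L := by
  have : CompleteSpace E := FiniteDimensional.complete ℝ E
  have : CompleteSpace (Y0 χ) := (isClosed_Y0 hχ).completeSpace_coe
  obtain ⟨C, hC, h⟩ := lip_S3 hχ
  have h1 : TotallyBounded ((fun g : Y0 χ => g.1) ⁻¹' LipB S3 E (1 + C)) :=
    totallyBounded_preimage isUniformEmbedding_subtype_val.isUniformInducing (tb (by linarith))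
  refine ⟨_, h1.closure.isCompact_of_isClosed isClosed_closure,
    mem_of_superset (closedBall_mem_nhds 0 one_pos) fun ξ hξ => subset_closure ?_⟩
  rw [mem_closedBall_zero_iff] at hξ
  have e : ∀ v : S3, hv (L ξ).1 v = fX ξ v := fun v => by rw [← fY_val, hL ξ v (S3_ne v)]
  refine ⟨fun v => ?_, fun v w => ?_⟩
  · rw [e]
    linarith [(norm_fX_le ξ v).1]
  · rw [e, e]
    refine (h (fX ξ) 1 (fX_hom ξ) (fun v hv => fX_differentiableAt ξ hv)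
      (fun v => ⟨(norm_fX_le ξ v).1.trans hξ, (norm_fX_le ξ v).2.trans hξ⟩) v w).trans
      (mul_le_mul_of_nonneg_right (by linarith) dist_nonneg)

theorem part2 [FiniteDimensional ℝ E] :
    TopologicalSpace.IsSeparable {b : BB E | ContDiffOn ℝ 2 (fX b) nz} := by
  obtain ⟨K, hK, h⟩ := lip2 (E := E)
  have h1 : ∀ n : ℕ, TotallyBounded ((fun b : BB E => b.1) ⁻¹'
      (LipB S3 E (K * n) ×ˢ LipB S3 (C2 →L[ℝ] E) (K * n))) := fun n =>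
    totallyBounded_preimage isUniformEmbedding_subtype_val.isUniformInducing
      (tb_prod (tb (by positivity)) (tb (by positivity)))
  refine (TopologicalSpace.IsSeparable.iUnion fun n => (h1 n).isSeparable).mono fun b hb => ?_
  obtain ⟨n, hn⟩ := bound2 hb
  exact mem_iUnion.2 ⟨n, h b n (Nat.cast_nonneg n) hb hn⟩

theorem norm_bb (b : BB E) : ‖b‖ = max ‖b.1.1‖ ‖b.1.2‖ := rfl

theorem part3 {ι : Type} (l : Filter ι) (b : ι → BB E) (b₀ : BB E)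
    (hb : ∀ᶠ ν in l, ContDiffOn ℝ 2 (fX (b ν)) nz) (hb₀ : ContDiffOn ℝ 2 (fX b₀) nz)
    (hc : SConv l (fun ν => fX (b ν)) (fX b₀)) : Tendsto b l (𝓝 b₀) := by
  obtain ⟨K, hK, h⟩ := lip2 (E := E)
  obtain ⟨n, hn⟩ := bound2 hb₀
  obtain ⟨h0, h1, C, h2⟩ := hc
  have hm : (0 : ℝ) ≤ n + 1 + |C| := by positivity
  have hKm : 0 ≤ K * (n + 1 + |C|) := by positivity
  have hl₀ := h b₀ _ hm hb₀ fun v =>
    ⟨by linarith [(hn v).1, abs_nonneg C], by linarith [(hn v).2.1, abs_nonneg C],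
      by linarith [(hn v).2.2, abs_nonneg C]⟩
  refine Metric.tendsto_nhds.2 fun ε hε => ?_
  obtain ⟨δ, hδ, hs⟩ := small (2 * (K * (n + 1 + |C|))) hε
  have hδ' : 0 < min δ 1 := lt_min hδ one_pos
  filter_upwards [hb, h2, Metric.tendstoUniformlyOn_iff.1 h0 _ hδ',
    Metric.tendstoUniformlyOn_iff.1 h1 _ hδ'] with ν e1 e2 e3 e4
  have e5 : ∀ v : S3, ‖fX (b ν) v - fX b₀ v‖ ≤ min δ 1 := fun v => by
    have := e3 v v.2
    rw [dist_comm, dist_eq_norm] at this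
    exact this.le
  have e6 : ∀ v : S3, ‖fderiv ℝ (fX (b ν)) v - fderiv ℝ (fX b₀) v‖ ≤ min δ 1 := fun v => by
    have := e4 v v.2
    rw [dist_comm, dist_eq_norm] at this
    exact this.le
  have hl := h (b ν) _ hm e1 fun v => by
    refine ⟨?_, ?_, ?_⟩
    · linarith [norm_le_insert' (fX (b ν) v) (fX b₀ v), e5 v, (hn v).1, min_le_right δ 1,
        abs_nonneg C]
    · linarith [norm_le_insert' (fderiv ℝ (fX (b ν)) v) (fderiv ℝ (fX b₀) v), e6 v, (hn v).2.1,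
        min_le_right δ 1, abs_nonneg C]
    · linarith [e2 v v.2, le_abs_self C, Nat.cast_nonneg (α := ℝ) n]
  have hlt := hs _ hδ'.le (min_le_left δ 1)
  have k1 := sub_le hKm hδ'.le hl.1 hl₀.1 fun v => by
    rw [← fX_val, ← fX_val]; exact e5 v
  have k2 := sub_le hKm hδ'.le hl.2 hl₀.2 fun v => by
    rw [← fX_fderiv, ← fX_fderiv]; exact e6 v
  rw [dist_eq_norm, norm_bb]
  exact max_lt (k1.trans_lt hlt) (k2.trans_lt hlt)

end CptP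

theorem cpt : CptStmt := fun _ _ _ _ =>
  ⟨CptP.part1, CptP.part2, fun _ l b b₀ => CptP.part3 l b b₀⟩

end

end Pool.Agent.MP_9758ca_gt

end
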