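import Mathlib.Data.Int.Star
import Mathlib.Analysis.InnerProductSpace.EuclideanDist
import Mathlib.Combinatorics.SimpleGraph.Basic
import Mathlib.Topology.Baire.LocallyCompactRegular
import Mathlib.Topology.UniformSpace.Uniformizable
import Pool.Agent.MP_9758ca_gt.SpecA

section

/-!
PROJECT BALL, row BUNDLE: the pull-back of the tangent bundle to a sphere has a homogeneous frame.
-/

open scoped Topology ContDiff ComplexConjugate
open Set Metric Filter Complex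

namespace Pool.Agent.MP_9758ca_gt

namespace BundleP

noncomputable section

variable {V : Type} [NormedAddCommGroup V] [NormedSpace ℝ V]

/-- the complex line through `s` -/
def ln (j : En0 V) (s : V) : ℂ →L[ℝ] V := reCLM.smulRight s + imCLM.smulRight (j s)

theorem ln_apply (j : En0 V) (s : V) (z : ℂ) : ln j s z = z.re • s + z.im • j s := rfl

/-- the averaged form -/
def G (B : V →L[ℝ] V →L[ℝ] ℝ) (j : En0 V) (x : V) : V →L[ℝ] ℝ := B x + (B (j x)).comp j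

theorem G_apply (B : V →L[ℝ] V →L[ℝ] ℝ) (j : En0 V) (x y : V) :
    G B j x y = B x y + B (j x) (j y) := rfl

/-- the coefficient of the orthogonal projection on the line through `s` -/
def cf (B : V →L[ℝ] V →L[ℝ] ℝ) (j P : En0 V) (s : V) : V →L[ℝ] ℂ :=
  (G B j s s)⁻¹ • (ofRealCLM.comp ((G B j s).comp P) +
    (mulC I).comp (ofRealCLM.comp ((G B j (j s)).comp P)))

theorem cf_apply (B : V →L[ℝ] V →L[ℝ] ℝ) (j P : En0 V) (s x : V) : cf B j P s x =
    (G B j s s)⁻¹ • ((G B j s (P x) : ℂ) + I * (G B j (j s) (P x) : ℂ)) := rfl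

/-- positive definite symmetric form -/
def Pos (B : V →L[ℝ] V →L[ℝ] ℝ) : Prop := (∀ x y, B x y = B y x) ∧ ∀ x, x ≠ 0 → 0 < B x x

theorem exists_pos [FiniteDimensional ℝ V] : ∃ B : V →L[ℝ] V →L[ℝ] ℝ, Pos B := by
  let T := (toEuclidean (E := V)).toContinuousLinearMap
  refine ⟨(innerSL ℝ).bilinearComp T T, fun x y => real_inner_comm (T y) (T x), fun x hx => ?_⟩
  exact real_inner_self_pos.2 fun h => hx ((toEuclidean (E := V)).map_eq_zero_iff.1 h)

/-- a projection commuting with a complex structure -/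
def Alg (j P : En0 V) : Prop := ∀ x, j (j x) = -x ∧ P (P x) = P x ∧ P (j x) = j (P x)

/-- a line split off the range of `P` -/
structure Sp (j P : En0 V) (c : V →L[ℝ] ℂ) (l : ℂ →L[ℝ] V) : Prop where
  cl : ∀ z, c (l z) = z
  cP : ∀ x, c (P x) = c x
  Pl : ∀ z, P (l z) = l z
  cj : ∀ x, c (j x) = I * c x
  lj : ∀ z, l (I * z) = j (l z)

section Point
variable {B : V →L[ℝ] V →L[ℝ] ℝ} {j P : En0 V} {s : V}

theorem G_j (hj : ∀ x, j (j x) = -x) (x y : V) : G B j x (j y) = -G B j (j x) y := by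
  simp only [G_apply, hj, map_neg, _root_.neg_apply]
  ring

theorem G_pos (hB : Pos B) (hs : s ≠ 0) : 0 < G B j s s := by
  rw [G_apply]
  refine add_pos_of_pos_of_nonneg (hB.2 s hs) ?_
  by_cases h : j s = 0
  · rw [h, map_zero]
  · exact (hB.2 _ h).le

theorem G_js (hB : Pos B) (hj : ∀ x, j (j x) = -x) : G B j (j s) s = 0 := by
  simp only [G_apply, hj, map_neg, _root_.neg_apply, hB.1 s (j s)]
  ring

theorem G_jj (hj : ∀ x, j (j x) = -x) (x y : V) : G B j (j x) (j y) = G B j x y := by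
  simp only [G_apply, hj, map_neg, _root_.neg_apply]
  ring

theorem ln_I (hj : ∀ x, j (j x) = -x) (z : ℂ) : ln j s (I * z) = j (ln j s z) := by
  simp only [ln_apply, map_add, map_smul, hj, mul_re, mul_im, I_re, I_im]
  module

theorem sp_cf (hB : Pos B) (h : Alg j P) (hs : s ≠ 0) (hP : P s = s) :
    Sp j P (cf B j P s) (ln j s) := by
  have hj := fun x => (h x).1
  have Pl : ∀ z, P (ln j s z) = ln j s z := fun z => by
    simp only [ln_apply, map_add, map_smul, (h s).2.2, hP]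
  refine ⟨fun z => ?_, fun x => by rw [cf_apply, cf_apply, (h x).2.1], Pl, fun x => ?_, ln_I hj⟩
  · have h0 : (G B j s s : ℂ) ≠ 0 := ofReal_ne_zero.2 (G_pos hB hs).ne'
    rw [cf_apply, Pl, ln_apply]
    simp only [map_add, map_smul, G_jj hj, G_j hj s s, G_js hB hj, smul_eq_mul, real_smul]
    push_cast
    field_simp
    conv_rhs => rw [← re_add_im z]
    ring
  · rw [cf_apply, cf_apply, (h x).2.2, G_jj hj, G_j hj s, mul_smul_comm]
    congr 1
    push_cast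
    linear_combination (-(G B j (j s) (P x) : ℂ)) * I_mul_I

theorem cf_ln (hB : Pos B) (hj : ∀ x, j (j x) = -x) (hs : s ≠ 0) {w : ℂ} (hw : w ≠ 0) (x : V) :
    cf B j P (ln j s w) x = w⁻¹ * cf B j P s x := by
  have h0 : (G B j s s : ℂ) ≠ 0 := ofReal_ne_zero.2 (G_pos hB hs).ne'
  have lin : ∀ z y, G B j (ln j s z) y = z.re * G B j s y + z.im * G B j (j s) y := fun z y => by
    simp only [G_apply, ln_apply, map_add, map_smul, _root_.add_apply,
      _root_.smul_apply, smul_eq_mul]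
    ring
  have h1 : G B j (ln j s w) (ln j s w) = normSq w * G B j s s := by
    rw [lin, ln_apply, normSq_apply]
    simp only [map_add, map_smul, G_jj hj, G_j hj s s, G_js hB hj, smul_eq_mul]
    ring
  have h2 : (normSq w : ℂ) ≠ 0 := ofReal_ne_zero.2 (normSq_pos.2 hw).ne'
  rw [cf_apply, cf_apply, h1, ← ln_I hj, lin, lin, inv_def, real_smul, real_smul]
  have h3 : conj w = w.re - w.im * I := by
    apply Complex.ext <;> simp
  rw [h3]
  simp only [mul_re, mul_im, I_re, I_im]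
  push_cast
  field_simp
  linear_combination (w.im * (G B j (j s) (P x) : ℂ)) * I_mul_I

theorem ln_ln (hj : ∀ x, j (j x) = -x) (w z : ℂ) : ln j (ln j s w) z = ln j s (z * w) := by
  simp only [ln_apply, map_add, map_smul, hj, mul_re, mul_im]
  module

variable {c : V →L[ℝ] ℂ} {l : ℂ →L[ℝ] V}

theorem Sp.c0 (h : Sp j P c l) (x : V) : c ((P - l.comp c) x) = 0 := by
  change c (P x - l (c x)) = 0
  rw [map_sub, h.cP, h.cl, sub_self]

theorem Sp.l0 (h : Sp j P c l) (z : ℂ) : (P - l.comp c) (l z) = 0 := by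
  change P (l z) - l (c (l z)) = 0
  rw [h.Pl, h.cl, sub_self]

theorem Sp.right (h : Sp j P c l) (ha : Alg j P) (x : V) :
    (P - l.comp c) (P x) = (P - l.comp c) x := by
  change P (P x) - l (c (P x)) = P x - l (c x)
  rw [(ha x).2.1, h.cP]

theorem Sp.left (h : Sp j P c l) (ha : Alg j P) (x : V) :
    P ((P - l.comp c) x) = (P - l.comp c) x := by
  change P (P x - l (c x)) = P x - l (c x)
  rw [map_sub, (ha x).2.1, h.Pl]

theorem Sp.alg (h : Sp j P c l) (ha : Alg j P) : Alg j (P - l.comp c) := fun x => by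
  refine ⟨(ha x).1, ?_, ?_⟩
  · change P ((P - l.comp c) x) - l (c ((P - l.comp c) x)) = _
    rw [h.left ha, h.c0, map_zero, sub_zero]
  · change P (j x) - l (c (j x)) = j (P x - l (c x))
    rw [(ha x).2.2, h.cj, h.lj, map_sub]

theorem Alg.trace [FiniteDimensional ℝ V] (h : Alg j P) :
    LinearMap.trace ℝ V P = Module.finrank ℝ P.range :=
  (LinearMap.IsIdempotentElem.isProj_range (P : V →ₗ[ℝ] V)
    (LinearMap.ext fun x => (h x).2.1)).trace

theorem Sp.rank [FiniteDimensional ℝ V] (h : Sp j P c l) (ha : Alg j P) :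
    Module.finrank ℝ (P - l.comp c).range + 2 = Module.finrank ℝ P.range := by
  have h1 : (c : V →ₗ[ℝ] ℂ) ∘ₗ (l : ℂ →ₗ[ℝ] V) = LinearMap.id := LinearMap.ext h.cl
  have h2 := (h.alg ha).trace
  have h3 := LinearMap.trace_comp_comm' (c : V →ₗ[ℝ] ℂ) (l : ℂ →ₗ[ℝ] V)
  rw [h1, LinearMap.trace_id, finrank_real_complex] at h3
  have h4 : LinearMap.trace ℝ V (P - l.comp c : En0 V) = LinearMap.trace ℝ V P - (2 : ℕ) := by
    rw [← h3, ← map_sub]
    rfl
  rw [h2, ha.trace] at h4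
  exact_mod_cast eq_sub_iff_add_eq.1 h4

end Point

/-- a `C²` family of projections of rank `n` -/
structure Pr (n : ℕ) (j P : C2 → En0 V) : Prop where
  smP : ContDiffOn ℝ 2 P nz
  smj : ContDiffOn ℝ 2 j nz
  invP : Inv P
  invj : Inv j
  alg : ∀ v, v ≠ 0 → Alg (j v) (P v) ∧ Module.finrank ℝ (P v).range = n

/-- a nowhere vanishing homogeneous section -/
def Sec (j P : C2 → En0 V) (k : ℤ) (e : C2 → V) : Prop :=
  ContDiffOn ℝ 2 e nz ∧ ∀ v, v ≠ 0 → e v ≠ 0 ∧ P v (e v) = e v ∧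
    ∀ c : ℂ, c ≠ 0 → e (c • v) = (c ^ k).re • e v + (c ^ k).im • j v (e v)

/-- a line bundle split off the range of `P` -/
structure St (j P : C2 → En0 V) (k : ℤ) (c : C2 → V →L[ℝ] ℂ) (l : C2 → ℂ →L[ℝ] V) : Prop where
  smc : ContDiffOn ℝ 2 c nz
  sml : ContDiffOn ℝ 2 l nz
  sp : ∀ v, v ≠ 0 → Sp (j v) (P v) (c v) (l v)
  hom : ∀ a : ℂ, a ≠ 0 → ∀ v, v ≠ 0 → ∀ x, c (a • v) x = a ^ k * c v x

variable [FiniteDimensional ℝ V] {n : ℕ} {j P : C2 → En0 V}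

theorem step (h : Pr (n + 2) j P) {k : ℤ} {e : C2 → V} (he : Sec j P k e) :
    ∃ c l, St j P (-k) c l ∧ Pr n j fun v => P v - (l v).comp (c v) := by
  obtain ⟨B, hB⟩ := exists_pos (V := V)
  have sG : ∀ {x y : C2 → V}, ContDiffOn ℝ 2 x nz → ContDiffOn ℝ 2 y nz →
      ContDiffOn ℝ 2 (fun v => G B (j v) (x v) (y v)) nz := fun hx hy =>
    ((B.contDiff.comp_contDiffOn hx).clm_apply hy).add
      ((B.contDiff.comp_contDiffOn (h.smj.clm_apply hx)).clm_apply (h.smj.clm_apply hy))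
  have sc : ContDiffOn ℝ 2 (fun v => cf B (j v) (P v) (e v)) nz := by
    refine contDiffOn_clm_apply.2 fun x => ?_
    have h1 : ContDiffOn ℝ 2 (fun v => P v x) nz := h.smP.clm_apply contDiffOn_const
    exact ((sG he.1 he.1).inv fun v hv => (G_pos hB (he.2 v hv).1).ne').smul
      ((ofRealCLM.contDiff.comp_contDiffOn (sG he.1 h1)).add (contDiffOn_const.mul
        (ofRealCLM.contDiff.comp_contDiffOn (sG (h.smj.clm_apply he.1) h1))))
  have sl : ContDiffOn ℝ 2 (fun v => ln (j v) (e v)) nz :=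
    contDiffOn_clm_apply.2 fun z => (he.1.const_smul z.re).add
      ((h.smj.clm_apply he.1).const_smul z.im)
  have sp := fun v hv => sp_cf hB (h.alg v hv).1 (he.2 v hv).1 (he.2 v hv).2.1
  have hm : ∀ a : ℂ, a ≠ 0 → ∀ v, v ≠ 0 → ∀ x, cf B (j (a • v)) (P (a • v)) (e (a • v)) x =
      a ^ (-k) * cf B (j v) (P v) (e v) x := fun a ha v hv x => by
    rw [h.invj a ha v hv, h.invP a ha v hv, (he.2 v hv).2.2 a ha, ← ln_apply,
      cf_ln hB (fun x => ((h.alg v hv).1 x).1) (he.2 v hv).1 (zpow_ne_zero k ha), zpow_neg]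
  refine ⟨_, _, ⟨sc, sl, sp, hm⟩, h.smP.sub (sl.clm_comp sc), h.smj, fun a ha v hv => ?_, h.invj,
    fun v hv => ⟨(sp v hv).alg (h.alg v hv).1, ?_⟩⟩
  · ext x
    change P (a • v) x - ln (j (a • v)) (e (a • v)) (cf B _ _ _ x) = P v x - ln _ _ (cf B _ _ _ x)
    rw [hm a ha v hv, h.invj a ha v hv, h.invP a ha v hv, (he.2 v hv).2.2 a ha, ← ln_apply,
      ln_ln fun x => ((h.alg v hv).1 x).1, zpow_neg, mul_right_comm,
      inv_mul_cancel₀ (zpow_ne_zero k ha), one_mul]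
  · have := (sp v hv).rank (h.alg v hv).1
    rw [(h.alg v hv).2] at this
    exact Nat.add_right_cancel this

theorem meagre (h2 : SsStmt) (p : ℂ → En0 V) (hp : ContDiff ℝ 1 p)
    (hr : ∀ z, 2 < Module.finrank ℝ (p z).range) : IsMeagre {a : V | ∃ z, p z a = 0} := by
  refine IsMeagre.mono (s := Prod.fst '' {q : V × ℂ | p q.2 q.1 = 0})
    (fun a ⟨z, hz⟩ => ⟨(a, z), hz, rfl⟩) (h2.2.2 V ℂ _ fun q _ => ?_)
  obtain ⟨f, hf⟩ : ∃ f : V →ₗ[ℝ] (p q.2).range, ∀ x : (p q.2).range, f x = x :=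
    ⟨_, Submodule.projectionOnto_apply_left (Submodule.exists_isCompl _).choose_spec⟩
  let F := LinearMap.toContinuousLinearMap f
  have hs : ContDiff ℝ 1 fun q' : V × ℂ => F (p q'.2 q'.1) :=
    F.contDiff.comp ((hp.comp contDiff_snd).clm_apply contDiff_fst)
  refine ⟨(p q.2).range, inferInstance, inferInstance, inferInstance, fun q' => F (p q'.2 q'.1),
    by rw [finrank_real_complex]; exact hr _, hs.contDiffAt,
    Eventually.of_forall fun q' h => (congrArg F h).trans (map_zero F), ?_⟩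
  rintro ⟨_, b, rfl⟩
  refine ⟨(b, 0), ?_⟩
  have h1 := HasFDerivAt.comp (f := fun a => (a, q.2)) q.1
    (hs.differentiable one_ne_zero q).hasFDerivAt (hasFDerivAt_prodMk_left q.1 q.2)
  have h3 : HasFDerivAt (fun a => F (p q.2 a)) (F.comp (p q.2)) q.1 := (F.comp (p q.2)).hasFDerivAt
  exact (DFunLike.congr_fun (h1.unique h3) b).trans (hf ⟨_, b, rfl⟩)

theorem gen_sec (h2 : SsStmt) (h : Pr n j P) (hn : 2 < n) : ∃ e, Sec j P 0 e := by
  have h1 : ∀ z : ℂ, ((z, 1) : C2) ≠ 0 := fun z h => one_ne_zero (congrArg Prod.snd h)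
  have h1' : ((1, 0) : C2) ≠ 0 := fun h => one_ne_zero (congrArg Prod.fst h)
  have m1 := meagre h2 (aff P) ((h.smP.comp_contDiff (contDiff_id.prodMk contDiff_const) h1).of_le
    one_le_two) fun z => hn.trans_eq (h.alg _ (h1 z)).2.symm
  have m2 := meagre h2 (fun _ => P (1, 0)) contDiff_const fun _ => hn.trans_eq (h.alg _ h1').2.symm
  obtain ⟨a, ha⟩ := (dense_of_mem_residual (m1.union m2)).nonempty
  refine ⟨fun v => P v a, h.smP.clm_apply contDiffOn_const, fun v hv => ⟨fun h0 => ha ?_,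
    ((h.alg v hv).1 a).2.1, fun c hc => by simp [h.invP c hc v hv]⟩⟩
  have : P v ∈ insert (P (1, 0)) (range (aff P)) := h.invP.im_eq.2 ▸ mem_image_of_mem P hv
  rcases this with h3 | ⟨z, h3⟩
  · exact Or.inr ⟨0, h3 ▸ h0⟩
  · exact Or.inl ⟨z, h3 ▸ h0⟩

end

end BundleP

open BundleP in
theorem bundle_of (h1 : LineStmt) (h2 : SsStmt) : BundleStmt := by
  intro V _ _ _ O M π om h J U hA hJ hS hU
  have hP : ContDiff ℝ 2 (fderiv ℝ π) := hA.sm.fderiv_right (WithTop.coe_le_coe.2 (le_top : (3 : ℕ∞) ≤ ⊤))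
  have p0 : Pr (4 + 2) (fun v => J (U v)) fun v => fderiv ℝ π (U v) := by
    refine ⟨hP.comp_contDiffOn hU.sm, hJ.comp_contDiffOn hU.sm,
      fun c hc v hv => congrArg _ (hU.inv c hc v hv), fun c hc v hv => congrArg _ (hU.inv c hc v hv),
      fun v hv => ⟨fun x => ⟨(hS _ (hU.mem v hv) x).1, hA.PP (hU.mem v hv) x,
        (hS _ (hU.mem v hv) x).2⟩, ?_⟩⟩
    rw [show (fderiv ℝ π (U v)).range = tan M (U v) from ?_]
    · exact hA.dim _ (hU.mem v hv)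
    · ext x
      exact ⟨fun ⟨y, hy⟩ => hy ▸ hA.P_mem' (hU.mem v hv) y,
        fun hx => ⟨x, (hA.mem_tan_iff (hU.mem v hv) x).1 hx⟩⟩
  obtain ⟨e1, he1⟩ := gen_sec h2 p0 (by norm_num)
  obtain ⟨c1, l1, s1, p1⟩ := step p0 he1
  obtain ⟨e2, he2⟩ := gen_sec h2 p1 (by norm_num)
  obtain ⟨c2, l2, s2, p2⟩ := step (n := 2) p1 he2
  obtain ⟨k, e3, he3⟩ := h1 V _ _ p2.smP p2.smj p2.invP p2.invj p2.alg
  obtain ⟨c3, l3, s3, p3⟩ := step (n := 0) p2 he3
  let e : C2 → C3 →L[ℝ] V := fun v => (l1 v).comp (ContinuousLinearMap.proj 0) +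
    (l2 v).comp (ContinuousLinearMap.proj 1) + (l3 v).comp (ContinuousLinearMap.proj 2)
  have ee : ∀ v ζ, e v ζ = l1 v (ζ 0) + l2 v (ζ 1) + l3 v (ζ 2) := fun _ _ => rfl
  let f : C2 → V →L[ℝ] C3 := fun v => ContinuousLinearMap.pi ![c1 v, c2 v, c3 v]
  have ff : ∀ v x, f v x = ![c1 v x, c2 v x, c3 v x] := fun v x => by
    ext i
    fin_cases i <;> rfl
  refine ⟨![-0, -0, -k], e, f, ?_, ?_, fun v hv ζ => ?_, fun v hv ζ => ?_, fun v hv x hx => ?_,
    fun v hv ζ => ?_, fun a ha v hv x _ => ?_⟩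
  · exact ((s1.sml.clm_comp contDiffOn_const).add (s2.sml.clm_comp contDiffOn_const)).add
      (s3.sml.clm_comp contDiffOn_const)
  · refine contDiffOn_clm_apply.2 fun x => contDiffOn_pi.2 fun i => ?_
    fin_cases i
    exacts [s1.smc.clm_apply contDiffOn_const, s2.smc.clm_apply contDiffOn_const,
      s3.smc.clm_apply contDiffOn_const]
  · have a0 := (p0.alg v hv).1
    have a1 := (p1.alg v hv).1
    rw [hA.mem_tan_iff (hU.mem v hv), ee, map_add, map_add, (s1.sp v hv).Pl, ← (s2.sp v hv).Pl,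
      (s1.sp v hv).left a0, ← (s3.sp v hv).Pl, ← (s2.sp v hv).left a1, (s1.sp v hv).left a0]
  · have a1 := (p1.alg v hv).1
    have t1 := s1.sp v hv
    have t2 := s2.sp v hv
    have t3 := s3.sp v hv
    have u12 : c1 v (l2 v (ζ 1)) = 0 := by rw [← t2.Pl, t1.c0]
    have u13 : c1 v (l3 v (ζ 2)) = 0 := by rw [← t3.Pl, ← t2.left a1, t1.c0]
    have u23 : c2 v (l3 v (ζ 2)) = 0 := by rw [← t3.Pl, t2.c0]
    have u21 : c2 v (l1 v (ζ 0)) = 0 := by rw [← t2.cP, t1.l0, map_zero]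
    have u31 : c3 v (l1 v (ζ 0)) = 0 := by rw [← t3.cP, ← t2.right a1, t1.l0, map_zero, map_zero]
    have u32 : c3 v (l2 v (ζ 1)) = 0 := by rw [← t3.cP, t2.l0, map_zero]
    rw [ff, ee]
    simp only [map_add, u12, u13, u23, u21, u31, u32, t1.cl, t2.cl, t3.cl, add_zero, zero_add]
    ext i
    fin_cases i <;> rfl
  · have h0 := DFunLike.congr_fun (LinearMap.range_eq_bot.1
      (Submodule.finrank_eq_zero.1 (p3.alg v hv).2)) x
    change fderiv ℝ π (U v) x - l1 v (c1 v x) - l2 v (c2 v x) - l3 v (c3 v x) = 0 at h0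
    rw [(hA.mem_tan_iff (hU.mem v hv) x).1 hx, sub_sub, sub_sub, sub_eq_zero, ← add_assoc] at h0
    rw [ff]
    exact h0.symm
  · rw [ee, ee, map_add, map_add, ← (s1.sp v hv).lj, ← (s2.sp v hv).lj, ← (s3.sp v hv).lj]
    rfl
  · ext i
    rw [rep_apply]
    fin_cases i
    exacts [s1.hom a ha v hv x, s2.hom a ha v hv x, s3.hom a ha v hv x]

end Pool.Agent.MP_9758ca_gt

end

section

/-!
PROJECT BALL, module COMB: a nodal configuration contains a typed configuration of simple spheres.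
-/

open scoped Topology ContDiff ComplexConjugate
open Set Metric Filter Complex

namespace Pool.Agent.MP_9758ca_gt

namespace CombP

variable {V : Type} [NormedAddCommGroup V] [NormedSpace ℝ V]

/-- a simple sphere of Chern number `c` that meets `𝒜` -/
def Sp (M K : Set V) (𝒜 : Set (ℝ × V)) (J : ℝ → V → En0 V) (τ : ℝ) (W : C2 → V) (c : ℤ) : Prop :=
  IsSph K (J τ) W ∧ NonC W ∧ Simple W ∧ Chern M (J τ) W c ∧ ∃ v, v ≠ 0 ∧ (τ, W v) ∈ 𝒜

/-- the condition attached to a label, in terms of the image points -/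
def LC {N : ℕ} (Z : Set V) (p : V) (y : Fin N → Fin 3 → V) (x : V) : Lab N → Prop
  | .free => True
  | .sl _ => True
  | .gam => x = p
  | .zed => x ∈ Z
  | .eq i j => x = y i j

variable {M K Z : Set V} {𝒜 : Set (ℝ × V)} {γ : ℝ × ℝ → V} {J : ℝ → V → En0 V} {τ ρ : ℝ}

theorem build (hτ : τ ∈ Ioo (0 : ℝ) 1) (hρ : ρ ∈ Ioo (0 : ℝ) 1) (N : ℕ)
    (lab : Fin N → Fin 3 → Lab N) (b : Bool) (W : Fin N → C2 → V) (c : Fin N → ℤ)
    (y : Fin N → Fin 3 → V) (hb : b = true → ρ = 2⁻¹) (hok : LabOk lab)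
    (hw : 2 + 6 * (N : ℤ) + 2 * ∑ i, c i < labWt lab b) (hW : ∀ i, Sp M K 𝒜 J τ (W i) (c i))
    (hne : ∀ i j, i ≠ j → im (W i) ≠ im (W j))
    (hy : ∀ i j, (lab i j).IsSl ∨ (y i j ∈ im (W i) ∧ LC Z (γ (τ, ρ)) y (y i j) (lab i j)))
    (hd : ∀ i j j', j ≠ j' → (lab i j).IsSl ∨ (lab i j').IsSl ∨ y i j ≠ y i j') :
    PreConf M K 𝒜 Z γ J := by
  have hp : ∀ i j, ∃ v : C2, ¬ (lab i j).IsSl → v ≠ 0 ∧ W i v = y i j := by
    intro i j
    rcases hy i j with h | ⟨⟨v, hv, h⟩, -⟩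
    · exact ⟨0, fun h' => absurd h h'⟩
    · exact ⟨v, fun _ => ⟨hv, h⟩⟩
  choose p hp using hp
  refine ⟨N, lab, b, τ, ρ, W, c, p, hok, hw, hτ, hρ, hb, hW, hne, fun i j h => ⟨(hp i j h).1, ?_⟩,
    fun i j j' hj h h' hpar => ?_⟩
  · have h1 := ((hy i j).resolve_left h).2
    rw [(hp i j h).2]
    cases hl : lab i j with
    | free => trivial
    | sl n => exact absurd (hl ▸ trivial) h
    | gam => rw [hl] at h1; exact h1
    | zed => rw [hl] at h1; exact h1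
    | eq i' j' =>
      rw [hl] at h1
      have h2 : ¬ (lab i' j').IsSl := by
        rcases hok i j i' j' hl with h2 | h2 | h2 <;> rw [h2] <;> exact id
      exact h1.trans (hp i' j' h2).2.symm
  · have h1 := ((hd i j j' hj).resolve_left h).resolve_left h'
    refine h1 ?_
    rw [← (hp i j h).2, ← (hp i j' h').2]
    exact (hW i).1.inv.par (hp i j h).1 hpar

theorem one_neg (hτ : τ ∈ Ioo (0 : ℝ) 1) {W : C2 → V} {c : ℤ} (hW : Sp M K 𝒜 J τ W c)
    (hc : c ≤ -1) : PreConf M K 𝒜 Z γ J := by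
  refine build (ρ := 2⁻¹) hτ ⟨by norm_num, by norm_num⟩ 1 ![![.sl 0, .sl 0, .sl 0]] true ![W] ![c]
    (fun _ _ => 0) (fun _ => rfl) ?_ ?_ ?_ ?_ ?_ ?_
  · simp [LabOk, Fin.forall_fin_succ]
  · simp [labWt, Lab.wt, Fin.sum_univ_succ]; omega
  · simpa using hW
  · simp [Fin.forall_fin_succ]
  · simp [Fin.forall_fin_succ, Lab.IsSl]
  · simp [Fin.forall_fin_succ, Lab.IsSl]

theorem one_both (hτ : τ ∈ Ioo (0 : ℝ) 1) (hρ : ρ ∈ Ioo (0 : ℝ) 1) (hZ : γ (τ, ρ) ∉ Z)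
    {W : C2 → V} {c : ℤ} (hW : Sp M K 𝒜 J τ W c) (hc : c ≤ 1) (hp : γ (τ, ρ) ∈ im W) {z : V}
    (hz : z ∈ Z) (hz' : z ∈ im W) : PreConf M K 𝒜 Z γ J := by
  have h1 : γ (τ, ρ) ≠ z := fun h => hZ (h ▸ hz)
  refine build hτ hρ 1 ![![.gam, .zed, .sl 0]] false ![W] ![c] ![![γ (τ, ρ), z, 0]]
    (fun h => absurd h (by simp)) ?_ ?_ ?_ ?_ ?_ ?_
  · simp [LabOk, Fin.forall_fin_succ]
  · simp [labWt, Lab.wt, Fin.sum_univ_succ]; omega
  · simpa using hW
  · simp [Fin.forall_fin_succ]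
  · simp [Fin.forall_fin_succ, Lab.IsSl, LC, hp, hz, hz']
  · simp [Fin.forall_fin_succ, Lab.IsSl, h1, h1.symm]

theorem build2 (hτ : τ ∈ Ioo (0 : ℝ) 1) (hρ : ρ ∈ Ioo (0 : ℝ) 1) {A B : C2 → V} {a b : ℤ}
    (hA : Sp M K 𝒜 J τ A a) (hB : Sp M K 𝒜 J τ B b) (hc : a + b ≤ 2) (hne : im A ≠ im B)
    (lab : Fin 2 → Fin 3 → Lab 2) (y : Fin 2 → Fin 3 → V) (hok : LabOk lab)
    (hw : 19 ≤ labWt lab false)
    (hy : ∀ i j, (lab i j).IsSl ∨
      (y i j ∈ im (![A, B] i) ∧ LC Z (γ (τ, ρ)) y (y i j) (lab i j)))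
    (hd : ∀ i j j', j ≠ j' → (lab i j).IsSl ∨ (lab i j').IsSl ∨ y i j ≠ y i j') :
    PreConf M K 𝒜 Z γ J := by
  refine build hτ hρ 2 lab false ![A, B] ![a, b] y (fun h => absurd h (by simp)) hok ?_ ?_ ?_ hy hd
  · simp only [Fin.sum_univ_two, Matrix.cons_val_zero, Matrix.cons_val_one]; omega
  · simp [Fin.forall_fin_succ, hA, hB]
  · simp [Fin.forall_fin_succ, hne, hne.symm]

theorem two (hτ : τ ∈ Ioo (0 : ℝ) 1) (hρ : ρ ∈ Ioo (0 : ℝ) 1) (hZ : γ (τ, ρ) ∉ Z)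
    {A B : C2 → V} {a b : ℤ} (hA : Sp M K 𝒜 J τ A a) (hB : Sp M K 𝒜 J τ B b) (hc : a + b ≤ 2)
    (hne : im A ≠ im B) (hp : γ (τ, ρ) ∈ im A) {n z : V} (hn : n ∈ im A) (hn' : n ∈ im B)
    (hz : z ∈ Z) (hz' : z ∈ im A ∨ z ∈ im B) : PreConf M K 𝒜 Z γ J := by
  have h1 : γ (τ, ρ) ≠ z := fun h => hZ (h ▸ hz)
  by_cases hzA : z ∈ im A
  · by_cases h2 : n = γ (τ, ρ)
    · subst h2
      refine build2 hτ hρ hA hB hc hne ![![.gam, .zed, .sl 0], ![.gam, .sl 0, .sl 0]]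
        ![![γ (τ, ρ), z, 0], ![γ (τ, ρ), 0, 0]] ?_ ?_ ?_ ?_
      · simp [LabOk, Fin.forall_fin_succ]
      · simp [labWt, Lab.wt, Fin.sum_univ_succ]
      · simp [Fin.forall_fin_succ, Lab.IsSl, LC, hp, hz, hzA, hn']
      · simp [Fin.forall_fin_succ, Lab.IsSl, h1, h1.symm]
    by_cases h3 : n = z
    · subst h3
      refine build2 hτ hρ hA hB hc hne ![![.gam, .zed, .sl 0], ![.eq 0 1, .sl 0, .sl 0]]
        ![![γ (τ, ρ), n, 0], ![n, 0, 0]] ?_ ?_ ?_ ?_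
      · simp [LabOk, Fin.forall_fin_succ]
      · simp [labWt, Lab.wt, Fin.sum_univ_succ]
      · simp [Fin.forall_fin_succ, Lab.IsSl, LC, hp, hz, hzA, hn']
      · simp [Fin.forall_fin_succ, Lab.IsSl, h1, h1.symm]
    · refine build2 hτ hρ hA hB hc hne ![![.gam, .zed, .free], ![.eq 0 2, .sl 0, .sl 0]]
        ![![γ (τ, ρ), z, n], ![n, 0, 0]] ?_ ?_ ?_ ?_
      · simp [LabOk, Fin.forall_fin_succ]
      · simp [labWt, Lab.wt, Fin.sum_univ_succ]
      · simp [Fin.forall_fin_succ, Lab.IsSl, LC, hp, hz, hzA, hn, hn']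
      · simp [Fin.forall_fin_succ, Lab.IsSl, h1, h1.symm, h2, Ne.symm h2, h3, Ne.symm h3]
  · have hzB := hz'.resolve_left hzA
    have h3 : n ≠ z := fun h => hzA (h ▸ hn)
    by_cases h2 : n = γ (τ, ρ)
    · subst h2
      refine build2 hτ hρ hA hB hc hne ![![.gam, .sl 0, .sl 0], ![.zed, .gam, .sl 0]]
        ![![γ (τ, ρ), 0, 0], ![z, γ (τ, ρ), 0]] ?_ ?_ ?_ ?_
      · simp [LabOk, Fin.forall_fin_succ]
      · simp [labWt, Lab.wt, Fin.sum_univ_succ]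
      · simp [Fin.forall_fin_succ, Lab.IsSl, LC, hp, hz, hzB, hn']
      · simp [Fin.forall_fin_succ, Lab.IsSl, h1, h1.symm]
    · refine build2 hτ hρ hA hB hc hne ![![.gam, .free, .sl 0], ![.zed, .eq 0 1, .sl 0]]
        ![![γ (τ, ρ), n, 0], ![z, n, 0]] ?_ ?_ ?_ ?_
      · simp [LabOk, Fin.forall_fin_succ]
      · simp [labWt, Lab.wt, Fin.sum_univ_succ]
      · simp [Fin.forall_fin_succ, Lab.IsSl, LC, hp, hz, hzB, hn, hn']
      · simp [Fin.forall_fin_succ, Lab.IsSl, h2, Ne.symm h2, h3, h3.symm]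

theorem build3 (hτ : τ ∈ Ioo (0 : ℝ) 1) (hρ : ρ ∈ Ioo (0 : ℝ) 1) {A B C : C2 → V} {a b c : ℤ}
    (hA : Sp M K 𝒜 J τ A a) (hB : Sp M K 𝒜 J τ B b) (hC : Sp M K 𝒜 J τ C c)
    (hc : a + b + c ≤ 2) (h1 : im A ≠ im B) (h2 : im A ≠ im C) (h3 : im B ≠ im C)
    (lab : Fin 3 → Fin 3 → Lab 3) (y : Fin 3 → Fin 3 → V) (hok : LabOk lab)
    (hw : 25 ≤ labWt lab false)
    (hy : ∀ i j, (lab i j).IsSl ∨
      (y i j ∈ im (![A, B, C] i) ∧ LC Z (γ (τ, ρ)) y (y i j) (lab i j)))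
    (hd : ∀ i j j', j ≠ j' → (lab i j).IsSl ∨ (lab i j').IsSl ∨ y i j ≠ y i j') :
    PreConf M K 𝒜 Z γ J := by
  refine build hτ hρ 3 lab false ![A, B, C] ![a, b, c] y (fun h => absurd h (by simp)) hok ?_ ?_ ?_
    hy hd
  · simp only [Fin.sum_univ_three, Matrix.cons_val_zero, Matrix.cons_val_one, Matrix.cons_val]
    omega
  · simp [Fin.forall_fin_succ, hA, hB, hC]
  · simp [Fin.forall_fin_succ, h1, h1.symm, h2, h2.symm, h3, h3.symm]

theorem three (hτ : τ ∈ Ioo (0 : ℝ) 1) (hρ : ρ ∈ Ioo (0 : ℝ) 1) {A B C : C2 → V} {a b c : ℤ}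
    (hA : Sp M K 𝒜 J τ A a) (hB : Sp M K 𝒜 J τ B b) (hC : Sp M K 𝒜 J τ C c)
    (hc : a + b + c ≤ 2) (h1 : im A ≠ im B) (h2 : im A ≠ im C) (h3 : im B ≠ im C)
    (hp : γ (τ, ρ) ∈ im A) {n m : V} (hn : n ∈ im A) (hn' : n ∈ im B)
    (hm : m ∈ im A ∨ m ∈ im B) (hm' : m ∈ im C) : PreConf M K 𝒜 Z γ J := by
  by_cases hmA : m ∈ im A
  · by_cases e1 : n = γ (τ, ρ) <;> by_cases e2 : m = γ (τ, ρ)
    · subst e1 e2
      refine build3 hτ hρ hA hB hC hc h1 h2 h3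
        ![![.gam, .sl 0, .sl 0], ![.gam, .sl 0, .sl 0], ![.gam, .sl 0, .sl 0]]
        (fun _ _ => γ (τ, ρ)) ?_ ?_ ?_ ?_
      · simp [LabOk, Fin.forall_fin_succ]
      · simp [labWt, Lab.wt, Fin.sum_univ_succ]
      · simp [Fin.forall_fin_succ, Lab.IsSl, LC, hp, hn', hm']
      · simp [Fin.forall_fin_succ, Lab.IsSl]
    · subst e1
      refine build3 hτ hρ hA hB hC hc h1 h2 h3
        ![![.gam, .free, .sl 0], ![.gam, .sl 0, .sl 0], ![.eq 0 1, .sl 0, .sl 0]]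
        ![![γ (τ, ρ), m, 0], ![γ (τ, ρ), 0, 0], ![m, 0, 0]] ?_ ?_ ?_ ?_
      · simp [LabOk, Fin.forall_fin_succ]
      · simp [labWt, Lab.wt, Fin.sum_univ_succ]
      · simp [Fin.forall_fin_succ, Lab.IsSl, LC, hp, hn', hm', hmA]
      · simp [Fin.forall_fin_succ, Lab.IsSl, e2, Ne.symm e2]
    · subst e2
      refine build3 hτ hρ hA hB hC hc h1 h2 h3
        ![![.gam, .free, .sl 0], ![.eq 0 1, .sl 0, .sl 0], ![.gam, .sl 0, .sl 0]]
        ![![γ (τ, ρ), n, 0], ![n, 0, 0], ![γ (τ, ρ), 0, 0]] ?_ ?_ ?_ ?_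
      · simp [LabOk, Fin.forall_fin_succ]
      · simp [labWt, Lab.wt, Fin.sum_univ_succ]
      · simp [Fin.forall_fin_succ, Lab.IsSl, LC, hp, hn, hn', hm']
      · simp [Fin.forall_fin_succ, Lab.IsSl, e1, Ne.symm e1]
    · by_cases e3 : m = n
      · subst e3
        refine build3 hτ hρ hA hB hC hc h1 h2 h3
          ![![.gam, .free, .sl 0], ![.eq 0 1, .sl 0, .sl 0], ![.eq 0 1, .sl 0, .sl 0]]
          ![![γ (τ, ρ), m, 0], ![m, 0, 0], ![m, 0, 0]] ?_ ?_ ?_ ?_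
        · simp [LabOk, Fin.forall_fin_succ]
        · simp [labWt, Lab.wt, Fin.sum_univ_succ]
        · simp [Fin.forall_fin_succ, Lab.IsSl, LC, hp, hn, hn', hm']
        · simp [Fin.forall_fin_succ, Lab.IsSl, e1, Ne.symm e1]
      · refine build3 hτ hρ hA hB hC hc h1 h2 h3
          ![![.gam, .free, .free], ![.eq 0 1, .sl 0, .sl 0], ![.eq 0 2, .sl 0, .sl 0]]
          ![![γ (τ, ρ), n, m], ![n, 0, 0], ![m, 0, 0]] ?_ ?_ ?_ ?_
        · simp [LabOk, Fin.forall_fin_succ]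
        · simp [labWt, Lab.wt, Fin.sum_univ_succ]
        · simp [Fin.forall_fin_succ, Lab.IsSl, LC, hp, hn, hn', hm', hmA]
        · simp [Fin.forall_fin_succ, Lab.IsSl, e1, Ne.symm e1, e2, Ne.symm e2, e3, Ne.symm e3]
  · have hmB := hm.resolve_left hmA
    have e3 : m ≠ n := fun h => hmA (h ▸ hn)
    by_cases e1 : n = γ (τ, ρ)
    · subst e1
      refine build3 hτ hρ hA hB hC hc h1 h2 h3
        ![![.gam, .sl 0, .sl 0], ![.gam, .free, .sl 0], ![.eq 1 1, .sl 0, .sl 0]]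
        ![![γ (τ, ρ), 0, 0], ![γ (τ, ρ), m, 0], ![m, 0, 0]] ?_ ?_ ?_ ?_
      · simp [LabOk, Fin.forall_fin_succ]
      · simp [labWt, Lab.wt, Fin.sum_univ_succ]
      · simp [Fin.forall_fin_succ, Lab.IsSl, LC, hp, hn', hm', hmB]
      · simp [Fin.forall_fin_succ, Lab.IsSl, e3, e3.symm]
    · refine build3 hτ hρ hA hB hC hc h1 h2 h3
        ![![.gam, .free, .sl 0], ![.eq 0 1, .free, .sl 0], ![.eq 1 1, .sl 0, .sl 0]]
        ![![γ (τ, ρ), n, 0], ![n, m, 0], ![m, 0, 0]] ?_ ?_ ?_ ?_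
      · simp [LabOk, Fin.forall_fin_succ]
      · simp [labWt, Lab.wt, Fin.sum_univ_succ]
      · simp [Fin.forall_fin_succ, Lab.IsSl, LC, hp, hn, hn', hm', hmB]
      · simp [Fin.forall_fin_succ, Lab.IsSl, e1, Ne.symm e1, e3, e3.symm]

/-- a connected finite union of closed sets cannot be split -/
theorem link {X : Type} [TopologicalSpace X] {k : ℕ} {S : Fin k → Set X}
    (hc : IsConnected (⋃ i, S i)) (hS : ∀ i, IsClosed (S i)) (hn : ∀ i, (S i).Nonempty)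
    (P : Fin k → Prop) {a b : Fin k} (ha : P a) (hb : ¬ P b) :
    ∃ i j x, P i ∧ ¬ P j ∧ x ∈ S i ∧ x ∈ S j := by
  have h1 : IsClosed (⋃ i ∈ {i | P i}, S i) := (Set.toFinite _).isClosed_biUnion fun i _ => hS i
  have h2 : IsClosed (⋃ i ∈ {i | ¬ P i}, S i) := (Set.toFinite _).isClosed_biUnion fun i _ => hS i
  obtain ⟨x, -, h3, h4⟩ := isPreconnected_closed_iff.1 hc.isPreconnected _ _ h1 h2
    (by
      intro x hx
      obtain ⟨i, hi⟩ := mem_iUnion.1 hx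
      by_cases h : P i
      · exact Or.inl (mem_biUnion (s := {i | P i}) h hi)
      · exact Or.inr (mem_biUnion (s := {i | ¬ P i}) h hi))
    (by
      obtain ⟨x, hx⟩ := hn a
      exact ⟨x, mem_iUnion.2 ⟨a, hx⟩, mem_biUnion (s := {i | P i}) ha hx⟩)
    (by
      obtain ⟨x, hx⟩ := hn b
      exact ⟨x, mem_iUnion.2 ⟨b, hx⟩, mem_biUnion (s := {i | ¬ P i}) hb hx⟩)
  obtain ⟨i, hi, h5⟩ := mem_iUnion₂.1 h3
  obtain ⟨j, hj, h6⟩ := mem_iUnion₂.1 h4
  exact ⟨i, j, x, hi, hj, h5, h6⟩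

/-- the combinatorial part -/
theorem main (hτ : τ ∈ Ioo (0 : ℝ) 1) (hρ : ρ ∈ Ioo (0 : ℝ) 1) (hZ : γ (τ, ρ) ∉ Z) {k : ℕ}
    (hk : 2 ≤ k) {W : Fin k → C2 → V} {c : Fin k → ℤ} {d : Fin k → ℕ}
    (hW : ∀ i, Sp M K 𝒜 J τ (W i) (c i)) (hd : ∀ i, 1 ≤ d i) (hs : ∑ i, (d i : ℤ) * c i = 2)
    (hc : IsConnected (⋃ i, im (W i))) {a e : Fin k} {z : V} (hz : z ∈ Z) (he : z ∈ im (W e))
    (ha : γ (τ, ρ) ∈ im (W a)) : PreConf M K 𝒜 Z γ J := by
  by_cases hneg : ∃ i, c i ≤ -1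
  · obtain ⟨i, hi⟩ := hneg
    exact one_neg hτ (hW i) hi
  have h0 : ∀ i, 0 ≤ c i := fun i => by
    by_contra h
    exact hneg ⟨i, by omega⟩
  have hsum : ∀ s : Finset (Fin k), ∑ i ∈ s, c i ≤ 2 := fun s => by
    rw [← hs]
    refine (Finset.sum_le_sum_of_subset_of_nonneg (Finset.subset_univ s) fun i _ _ => h0 i).trans
      (Finset.sum_le_sum fun i _ => ?_)
    exact le_mul_of_one_le_left (h0 i) (by exact_mod_cast hd i)
  have hcl : ∀ i, IsClosed (im (W i)) := fun i =>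
    ((hW i).1.inv.isCompact_im (hW i).1.sm.continuousOn).1.isClosed
  have hn : ∀ i, (im (W i)).Nonempty := fun i => ⟨_, mk3 0, mk3_ne 0, rfl⟩
  by_cases hall : ∀ i, im (W i) = im (W a)
  · have h1 := hsum {⟨0, by omega⟩, ⟨1, by omega⟩}
    rw [Finset.sum_pair (by simp)] at h1
    obtain ⟨i, hi⟩ : ∃ i, c i ≤ 1 := by
      by_contra h
      push Not at h
      have := h ⟨0, by omega⟩
      have := h ⟨1, by omega⟩
      omega
    exact one_both hτ hρ hZ (hW i) hi (hall i ▸ ha) hz (by rw [hall i, ← hall e]; exact he)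
  push Not at hall
  obtain ⟨b₀, hb₀⟩ := hall
  obtain ⟨a', b, n, h1, h2, h3, h4⟩ := link hc hcl hn (fun i => im (W i) = im (W a)) rfl hb₀
  rw [h1] at h3
  have hab : a ≠ b := fun h => h2 (h ▸ rfl)
  by_cases hz' : z ∈ im (W a) ∨ z ∈ im (W b)
  · have h5 := hsum {a, b}
    rw [Finset.sum_pair hab] at h5
    exact two hτ hρ hZ (hW a) (hW b) h5 (Ne.symm h2) ha h3 h4 hz hz'
  obtain ⟨a'', f, m, k1, k2, k3, k4⟩ := link hc hcl hn
    (fun i => im (W i) = im (W a) ∨ im (W i) = im (W b)) (a := a) (b := e) (Or.inl rfl)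
    (fun h => hz' (h.imp (fun h : im (W e) = im (W a) => by rw [← h]; exact he)
      fun h : im (W e) = im (W b) => by rw [← h]; exact he))
  rw [not_or] at k2
  have haf : a ≠ f := fun h => k2.1 (h ▸ rfl)
  have hbf : b ≠ f := fun h => k2.2 (h ▸ rfl)
  have h5 := hsum {a, b, f}
  rw [Finset.sum_insert (by simp [hab, haf]), Finset.sum_pair hbf, ← add_assoc] at h5
  exact three hτ hρ (hW a) (hW b) (hW f) h5 (Ne.symm h2) (Ne.symm k2.1) (Ne.symm k2.2) ha h3 h4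
    (k1.imp (fun h : im (W a'') = im (W a) => by rw [← h]; exact k3)
      fun h : im (W a'') = im (W b) => by rw [← h]; exact k3) k4

end CombP

open CombP in
theorem comb_of (h1 : CoverStmt) (h2 : BundleStmt) (h3 : ChernStmt) (h4 : FrameStmt) :
    CombStmt := by
  intro V _ _ _ O M K Z π om h 𝒜 γ J hA hK hKM hJ hS hT hγ hN
  obtain ⟨τ, hτ, ρ, hρ, k, U, c, hk, hU, hs, hc, ⟨e, v, hv, he⟩, ⟨a, w, hw, ha⟩⟩ := hN
  have hτ' : τ ∈ Icc (0 : ℝ) 1 := Ioo_subset_Icc_self hτ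
  obtain ⟨R, Λ, c₀, hE⟩ := (hA.unif hK hKM hJ hS hT).1
  have hJ2 : ContDiff ℝ 2 (J τ) :=
    (hJ.of_le (by norm_num)).comp (contDiff_const.prodMk contDiff_id)
  have hWJ := hA.wj (hS τ)
  obtain ⟨β, -, -, hβ⟩ := h3 V O M K π om h (J τ) hA hK hKM hJ2 hWJ (hT τ hτ')
  have key : ∀ i, ∃ (W : C2 → V) (c' : ℤ) (d : ℕ), Sp M K 𝒜 J τ W c' ∧ im W = im (U i) ∧
      1 ≤ d ∧ c i = d * c' := by
    intro i
    obtain ⟨k1, k2, k3, u, hu, k4⟩ := hU i
    obtain ⟨W, d, Φ, w1, w2, w3, w4, w5, w6, w7, w8, w9⟩ :=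
      h1 V O M K om R Λ c₀ (J τ) (U i) (hA.env0 hK hKM) (hE τ hτ') k1 k2
    obtain ⟨l, hl⟩ := h2 V O M π om h (J τ) W hA hJ2 (hS τ)
      ⟨w1.sm, w1.inv, fun v hv => hKM (w1.mem v hv)⟩
    have f1 := (h4 V).2.1 M (J τ) W l Φ d hl w1.inv w6 w7 w8
    have f2 := (h4 V).1 M M (J τ) (J τ) (W ∘ Φ) (U i) _ f1
      fun v hv => ⟨w9 v hv, rfl, fun _ _ => rfl⟩
    have a1 := hβ (J τ) hJ2 hWJ (hT τ hτ') (U i) _ k1.toMap2 k3
    have a2 := hβ (J τ) hJ2 hWJ (hT τ hτ') (U i) _ k1.toMap2 ⟨_, f2, rfl⟩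
    refine ⟨W, ∑ j, l j, d, ⟨w1, w2, w3, ⟨l, hl, rfl⟩, Φ u, w7 u hu, w9 u hu ▸ k4⟩, w4, w5, ?_⟩
    rw [Finset.mul_sum]
    exact_mod_cast a1.symm.trans a2
  choose W c' d k1 k2 k3 k4 using key
  refine main hτ hρ (hγ (τ, ρ) ⟨hτ, hρ⟩) hk k1 k3 ?_ ?_ (a := a) (e := e) he ?_ ?_
  · rw [← hs]; exact Finset.sum_congr rfl fun i _ => (k4 i).symm
  · simpa only [k2] using hc
  · rw [k2]; exact ⟨v, hv, rfl⟩
  · rw [k2]; exact ⟨w, hw, ha⟩

end Pool.Agent.MP_9758ca_gt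

end

section

/-!
PROJECT BALL, module DOUBLE: doubling the ambient vector space extends an almost complex structure
of the tangent spaces to a complex structure of the whole space.
-/

set_option autoImplicit false
set_option maxSynthPendingDepth 3

open scoped Topology ContDiff
open Set Metric Filter Complex

namespace Pool.Agent.MP_9758ca_gt

noncomputable section

namespace DoubleP

open ContinuousLinearMap (fst snd inl inr)

variable {V : Type} [NormedAddCommGroup V] [NormedSpace ℝ V]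

/-- the copy of a set in the first factor -/
def s2 (M : Set V) : Set (V × V) := {x | x.1 ∈ M ∧ x.2 = 0}

def pi2 (π : V → V) (x : V × V) : V × V := (π x.1, 0)

/-- pull-back of bilinear forms by the first projection -/
def B2 (V : Type) [NormedAddCommGroup V] [NormedSpace ℝ V] :
    (V →L[ℝ] V →L[ℝ] ℝ) →L[ℝ] ((V × V) →L[ℝ] (V × V) →L[ℝ] ℝ) :=
  (ContinuousLinearMap.precomp _ (fst ℝ V V)).comp
    (ContinuousLinearMap.postcomp V (ContinuousLinearMap.precomp ℝ (fst ℝ V V)))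

theorem B2_apply (β : V →L[ℝ] V →L[ℝ] ℝ) (a b : V × V) : B2 V β a b = β a.1 b.1 := rfl

def f2 (β : F2 V) : F2 (V × V) := fun x => B2 V (β x.1)

theorem f2_apply (β : F2 V) (x a b : V × V) : f2 β x a b = β x.1 a.1 b.1 := rfl

/-- the doubled structure -/
def J2 (π : V → V) (J : V → En0 V) (x : V × V) : En0 (V × V) :=
  (inl ℝ V V).comp (((J x.1).comp (fderiv ℝ π x.1)).comp (fst ℝ V V) -
      (ContinuousLinearMap.id ℝ V - fderiv ℝ π x.1).comp (snd ℝ V V)) +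
    (inr ℝ V V).comp (((J x.1).comp (fderiv ℝ π x.1)).comp (snd ℝ V V) +
      (ContinuousLinearMap.id ℝ V - fderiv ℝ π x.1).comp (fst ℝ V V))

theorem J2_apply (π : V → V) (J : V → En0 V) (x v : V × V) : J2 π J x v =
    (J x.1 (fderiv ℝ π x.1 v.1) - (v.2 - fderiv ℝ π x.1 v.2),
      J x.1 (fderiv ℝ π x.1 v.2) + (v.1 - fderiv ℝ π x.1 v.1)) := by
  simp [J2]

theorem contDiff_J2 {X : Type} [NormedAddCommGroup X] [NormedSpace ℝ X] {π : V → V}
    (hπ : ContDiff ℝ ∞ π) {J : X → V → En0 V} (hJ : ContDiff ℝ 3 fun q : X × V => J q.1 q.2) :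
    ContDiff ℝ 3 fun q : X × (V × V) => J2 π (J q.1) q.2 := by
  have h1 : ContDiff ℝ 3 fun q : X × (V × V) => J q.1 q.2.1 :=
    hJ.comp (contDiff_fst.prodMk contDiff_snd.fst)
  have h2 : ContDiff ℝ 3 fun q : X × (V × V) => fderiv ℝ π q.2.1 :=
    (hπ.fderiv_right (m := 3) (WithTop.coe_le_coe.2 le_top)).comp contDiff_snd.fst
  exact (contDiff_const.clm_comp (((h1.clm_comp h2).clm_comp contDiff_const).sub
    ((contDiff_const.sub h2).clm_comp contDiff_const))).add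
    (contDiff_const.clm_comp (((h1.clm_comp h2).clm_comp contDiff_const).add
      ((contDiff_const.sub h2).clm_comp contDiff_const)))

theorem mem_tan2 {M : Set V} {x : V × V} (hx : x ∈ s2 M) {v : V × V} :
    v ∈ tan (s2 M) x ↔ v.1 ∈ tan M x.1 ∧ v.2 = 0 := by
  constructor
  · intro h
    have h1 := fderiv_mem_tan_of_tan (g := fst ℝ V V) (S' := M) (fst ℝ V V).differentiableAt
      (.of_forall fun y hy => hy.1) h
    have h2 := fderiv_eq_on_tan (g := snd ℝ V V) (g' := fun _ => 0) hx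
      (snd ℝ V V).differentiableAt (differentiableAt_const _) (.of_forall fun y hy => hy.2) h
    rw [ContinuousLinearMap.fderiv] at h1 h2
    exact ⟨h1, by simpa using h2⟩
  · rintro ⟨h1, h2⟩
    have h3 := fderiv_mem_tan_of_tan (g := inl ℝ V V) (S' := s2 M) (inl ℝ V V).differentiableAt
      (.of_forall fun y hy => ⟨hy, rfl⟩) h1
    rw [ContinuousLinearMap.fderiv] at h3
    have e1 : inl ℝ V V v.1 = v := Prod.ext rfl h2.symm
    have e2 : inl ℝ V V x.1 = x := Prod.ext rfl hx.2.symm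
    rwa [e1, e2] at h3

theorem inl_tan {M : Set V} {x v : V} (hx : x ∈ M) (hv : v ∈ tan M x) :
    ((v, 0) : V × V) ∈ tan (s2 M) (x, 0) := (mem_tan2 (x := (x, 0)) ⟨hx, rfl⟩).2 ⟨hv, rfl⟩

theorem fderiv_f2 {β : F2 V} (hβ : ContDiff ℝ ∞ β) (x a b c : V × V) :
    fderiv ℝ (f2 β) x a b c = fderiv ℝ β x.1 a.1 b.1 c.1 := by
  have h := ((B2 V).hasFDerivAt.comp x (((hβ.differentiable (by simp)) x.1).hasFDerivAt.comp x
    (fst ℝ V V).hasFDerivAt)).fderiv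
  exact congrArg (fun L : (V × V) →L[ℝ] (V × V) →L[ℝ] (V × V) →L[ℝ] ℝ => L a b c) h

theorem fderiv_pi2 {π : V → V} (hπ : ContDiff ℝ ∞ π) (x v : V × V) :
    fderiv ℝ (pi2 π) x v = (fderiv ℝ π x.1 v.1, 0) := by
  have h := ((inl ℝ V V).hasFDerivAt.comp x (((hπ.differentiable (by simp)) x.1).hasFDerivAt.comp x
    (fst ℝ V V).hasFDerivAt)).fderiv
  exact congrArg (fun L : (V × V) →L[ℝ] (V × V) => L v) h

theorem fderiv_fst {E : Type} [NormedAddCommGroup E] [NormedSpace ℝ E] {U : E → V × V} {v : E}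
    (h : DifferentiableAt ℝ U v) (w : E) :
    fderiv ℝ (fun v => (U v).1) v w = (fderiv ℝ U v w).1 :=
  congrArg (fun L : E →L[ℝ] V => L w) h.hasFDerivAt.fst.fderiv

theorem fderiv_inl {E : Type} [NormedAddCommGroup E] [NormedSpace ℝ E] {U : E → V} {v : E}
    (h : DifferentiableAt ℝ U v) (w : E) :
    fderiv ℝ (fun v => ((U v, 0) : V × V)) v w = (fderiv ℝ U v w, 0) :=
  congrArg (fun L : E →L[ℝ] V × V => L w) ((inl ℝ V V).hasFDerivAt.comp v h.hasFDerivAt).fderiv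

theorem fderiv_pre {W : Type} [NormedAddCommGroup W] [NormedSpace ℝ W] {g : V → W} {x : V × V}
    (h : DifferentiableAt ℝ g x.1) (v : V × V) :
    fderiv ℝ (fun y : V × V => g y.1) x v = fderiv ℝ g x.1 v.1 :=
  congrArg (fun L : (V × V) →L[ℝ] W => L v) (h.hasFDerivAt.comp x (fst ℝ V V).hasFDerivAt).fderiv

variable {O M : Set V} {π : V → V} {om h : F2 V}

theorem amb2 (hA : Amb O π M om h) : Amb (O ×ˢ univ) (pi2 π) (s2 M) (f2 om) (f2 h) where
  op := hA.op.prod isOpen_univ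
  sm := (hA.sm.comp contDiff_fst).prodMk contDiff_const
  sub x hx := ⟨hA.sub hx.1, trivial⟩
  maps x hx := ⟨hA.maps hx.1, rfl⟩
  fix x hx := Prod.ext (hA.fix _ hx.1) hx.2.symm
  dim x hx := by
    have : tan (s2 M) x = (tan M x.1).map (LinearMap.inl ℝ V V) := by
      ext v
      rw [mem_tan2 hx, Submodule.mem_map]
      exact ⟨fun a => ⟨v.1, a.1, Prod.ext rfl a.2.symm⟩, by rintro ⟨a, b, rfl⟩; exact ⟨b, rfl⟩⟩
    rw [this, ← (Submodule.equivMapOfInjective _ LinearMap.inl_injective _).finrank_eq]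
    exact hA.dim _ hx.1
  smo := (B2 V).contDiff.comp (hA.smo.comp contDiff_fst)
  ano x a b := hA.ano x.1 a.1 b.1
  clo x hx a b c := by
    rw [fderiv_f2 hA.smo, fderiv_f2 hA.smo, fderiv_f2 hA.smo]
    exact hA.clo _ hx.1 _ _ _
  smh := (B2 V).contDiff.comp (hA.smh.comp contDiff_fst)
  anh x a b := hA.anh x.1 a.1 b.1
  clh x hx a b c := by
    rw [fderiv_f2 hA.smh, fderiv_f2 hA.smh, fderiv_f2 hA.smh]
    exact hA.clh _ hx.1 _ _ _

theorem sj2 (hA : Amb O π M om h) {J : V → En0 V} (hJ : WJ M J) :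
    SJ (pi2 π) (s2 M) (J2 π J) := by
  intro x hx v
  have h1 := fun w => hA.PP hx.1 w
  have h2 := fun w => (hA.mem_tan_iff hx.1 _).1 (hJ _ hx.1 _ (hA.P_mem' hx.1 w)).1
  have h3 := fun w => (hJ _ hx.1 _ (hA.P_mem' hx.1 w)).2
  constructor
  · simp only [J2_apply, map_sub, map_add, h1, h2, h3, sub_self, sub_zero, add_zero]
    exact Prod.ext (by simp only [Prod.fst_neg]; abel) (by simp only [Prod.snd_neg]; abel)
  · simp only [J2_apply, fderiv_pi2 hA.sm, map_sub, h1, h2, sub_self, map_zero, sub_zero, add_zero]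

theorem J2_tan (hA : Amb O π M om h) (J : V → En0 V) {x v : V × V} (hx : x ∈ s2 M)
    (hv : v ∈ tan (s2 M) x) : J2 π J x v = (J x.1 v.1, 0) := by
  obtain ⟨h1, h2⟩ := (mem_tan2 hx).1 hv
  rw [J2_apply, h2, (hA.mem_tan_iff hx.1 _).1 h1]
  simp

theorem diffAt {E : Type} [NormedAddCommGroup E] [NormedSpace ℝ E] {U : C2 → E} {n : WithTop ℕ∞}
    (h : ContDiffOn ℝ n U nz) (hn : n ≠ 0) {v : C2} (hv : v ≠ 0) : DifferentiableAt ℝ U v :=
  (h.contDiffAt (nz_mem_nhds hv)).differentiableAt hn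

theorem d_tan {E : Type} [NormedAddCommGroup E] [NormedSpace ℝ E] {S : Set E} {U : C2 → E}
    (h : Map2 S U) {v : C2} (hv : v ≠ 0) (w : C2) : fderiv ℝ U v w ∈ tan S (U v) :=
  fderiv_mem_tan (diffAt h.sm two_ne_zero hv)
    (mem_of_superset (nz_mem_nhds hv) fun v' a => h.mem v' a) w

theorem sph_down {J' : V × V → En0 (V × V)} {J : V → En0 V} {U : C2 → V × V}
    (hU : IsSph (s2 M) J' U) (hJ : ∀ x ∈ M, ∀ a ∈ tan M x, J x a = (J' (x, 0) (a, 0)).1) :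
    IsSph M J fun v => (U v).1 where
  sm := hU.sm.fst
  inv c hc v hv := congrArg Prod.fst (hU.inv c hc v hv)
  mem v hv := (hU.mem v hv).1
  cr v hv w := by
    have h1 := diffAt hU.sm two_ne_zero hv
    obtain ⟨h2, h3⟩ := (mem_tan2 (hU.mem v hv)).1 (d_tan hU.toMap2 hv w)
    have e1 : (((U v).1, 0) : V × V) = U v := Prod.ext rfl (hU.mem v hv).2.symm
    have e2 : (((fderiv ℝ U v w).1, 0) : V × V) = fderiv ℝ U v w := Prod.ext rfl h3.symm
    rw [fderiv_fst h1, fderiv_fst h1, hU.cr v hv, hJ _ (hU.mem v hv).1 _ h2, e1, e2]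

theorem sph_up (hA : Amb O π M om h) {J : V → En0 V} {U : C2 → V} (hU : IsSph M J U) :
    IsSph (s2 M) (J2 π J) fun v => (U v, 0) where
  sm := hU.sm.prodMk contDiffOn_const
  inv c hc v hv := Prod.ext (hU.inv c hc v hv) rfl
  mem v hv := ⟨hU.mem v hv, rfl⟩
  cr v hv w := by
    have h1 := diffAt hU.sm two_ne_zero hv
    rw [fderiv_inl h1, fderiv_inl h1, hU.cr v hv,
      J2_tan hA J ⟨hU.mem v hv, rfl⟩ (inl_tan (hU.mem v hv) (d_tan hU.toMap2 hv w))]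

theorem area_down (β : F2 V) {U : C2 → V × V} (hU : ContDiffOn ℝ 2 U nz) :
    area β (fun v => (U v).1) = area (f2 β) U := by
  unfold area
  refine congrArg _ (funext fun z => ?_)
  have h1 : DifferentiableAt ℝ (aff U) z :=
    (diffAt hU two_ne_zero (v := (z, 1)) (by simp)).comp z (by fun_prop)
  have h2 := fderiv_fst h1
  unfold dens
  rw [f2_apply, ← h2, ← h2]
  rfl

theorem cut2 {W : Type} [NormedAddCommGroup W] [NormedSpace ℝ W] {Z : Set V} {g : V → V → W}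
    (hc : Cut M Z g) : Cut (s2 M) (Prod.fst ⁻¹' Z) fun x y => g x.1 y.1 := by
  intro x h1 h2
  obtain ⟨a, b, c⟩ := hc x.1 h1 h2.1
  refine ⟨a.comp x contDiffAt_fst, (continuous_fst.continuousAt.eventually b).mono
    fun y hy k => hy k.1, fun w => ?_⟩
  obtain ⟨v, d, e⟩ := c w
  exact ⟨(v, 0), (mem_tan2 h2).2 ⟨d, rfl⟩,
    (fderiv_pre (a.differentiableAt one_ne_zero) _).trans e⟩

/-- compression of a structure on the doubled space -/
def dn (J' : V × V → En0 (V × V)) (x : V) : En0 V := (fst ℝ V V).comp ((J' (x, 0)).comp (inl ℝ V V))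

theorem adm_down (hA : Amb O π M om h) {J : ℝ → V → En0 V} {𝒜 : Set (ℝ × V)} {τ : ℝ}
    {J' : V × V → En0 (V × V)}
    (H : Adm (s2 M) (f2 om) (fun τ => J2 π (J τ)) {q | (q.1, q.2.1) ∈ 𝒜} τ J') :
    Adm M om J 𝒜 τ (dn J') where
  wj x hx v hv := by
    obtain ⟨a, b⟩ := H.wj (x, 0) ⟨hx, rfl⟩ _ (inl_tan hx hv)
    obtain ⟨c, d⟩ := (mem_tan2 (x := (x, 0)) ⟨hx, rfl⟩).1 a
    refine ⟨c, ?_⟩
    have e : (((J' (x, 0) (v, 0)).1, 0) : V × V) = J' (x, 0) (v, 0) := Prod.ext rfl d.symm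
    show (J' (x, 0) ((J' (x, 0) (v, 0)).1, 0)).1 = -v
    rw [e, b]
    rfl
  tame x hx v hv h0 := H.tame (x, 0) ⟨hx, rfl⟩ _ (inl_tan hx hv) fun a => h0 (congrArg Prod.fst a)
  eq x hx a v hv := congrArg Prod.fst
    ((H.eq (x, 0) ⟨hx, rfl⟩ a _ (inl_tan hx hv)).trans (J2_tan hA _ ⟨hx, rfl⟩ (inl_tan hx hv)))

theorem conf_down {Z : Set V} {a₀ : ℝ} {J' : V × V → En0 (V × V)} {p : V} {k : ℕ}
    {U : Fin k → C2 → V × V}
    (H : Conf (s2 M) (f2 om) (f2 h) (Prod.fst ⁻¹' Z) a₀ J' (p, 0) k U) :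
    Conf M om h Z a₀ (dn J') p k fun i v => (U i v).1 where
  sph i := by
    obtain ⟨a, v, hv, w, hw, b⟩ := H.sph i
    exact ⟨sph_down a fun _ _ _ _ => rfl, v, hv, w, hw, fun c =>
      b (Prod.ext c ((a.mem v hv).2.trans (a.mem w hw).2.symm))⟩
  conn := by
    have := H.conn.image Prod.fst continuous_fst.continuousOn
    simp only [image_iUnion, im, image_image] at this
    exact this
  hitZ := H.hitZ
  hitp := let ⟨i, v, a, b⟩ := H.hitp; ⟨i, v, a, congrArg Prod.fst b⟩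
  aro := by rw [← H.aro]; exact Finset.sum_congr rfl fun i _ => area_down om (H.sph i).1.sm
  arh := by rw [← H.arh]; exact Finset.sum_congr rfl fun i _ => area_down h (H.sph i).1.sm

theorem framed_up (hA : Amb O π M om h) {J : V → En0 V} {U : C2 → V} (hU : ∀ v, v ≠ 0 → U v ∈ M)
    {k : Fin 3 → ℤ} (H : Framed M J U k) : Framed (s2 M) (J2 π J) (fun v => (U v, 0)) k := by
  obtain ⟨e, f, H⟩ := H
  exact ⟨fun v => (inl ℝ V V).comp (e v), fun v => (f v).comp (fst ℝ V V),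
    contDiffOn_const.clm_comp H.sme, H.smf.clm_comp contDiffOn_const,
    fun v hv ζ => inl_tan (hU v hv) (H.mem v hv ζ), H.fe,
    fun v hv x hx => by
      obtain ⟨a, b⟩ := (mem_tan2 (x := (U v, 0)) ⟨hU v hv, rfl⟩).1 hx
      exact Prod.ext (H.ef v hv _ a) b.symm,
    fun v hv ζ => (Prod.ext (H.eJ v hv ζ) rfl : (e v (I • ζ), (0 : V)) = (_, 0)).trans
      (J2_tan hA J (x := (U v, 0)) ⟨hU v hv, rfl⟩ (inl_tan (hU v hv) (H.mem v hv ζ))).symm,
    fun c hc v hv x hx => H.hom c hc v hv _ ((mem_tan2 (x := (U v, 0)) ⟨hU v hv, rfl⟩).1 hx).1⟩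

theorem dJ2 (hA : Amb O π M om h) {J : V → En0 V} (hJ : ContDiff ℝ 3 J) (x a : V × V) (b : V) :
    (fderiv ℝ (J2 π J) x a (b, 0)).1 =
      fderiv ℝ J x.1 a.1 (fderiv ℝ π x.1 b) + J x.1 (fderiv ℝ (fderiv ℝ π) x.1 a.1 b) := by
  have h0 : DifferentiableAt ℝ (J2 π J) x :=
    (((contDiff_J2 (X := ℝ) hA.sm (J := fun _ => J) (hJ.comp contDiff_snd)).comp
      ((contDiff_const (c := (0 : ℝ))).prodMk contDiff_id)).differentiable (by simp)) x
  have h1 := (h0.hasFDerivAt.clm_apply (hasFDerivAt_const ((b, 0) : V × V) x)).fst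
  have h2 := ((hJ.differentiable (by simp)) x.1).hasFDerivAt
  have h3 := (((hA.sm.fderiv_right (m := 1) (WithTop.coe_le_coe.2 le_top)).differentiable
    one_ne_zero) x.1).hasFDerivAt
  have h4 := (h2.clm_apply (h3.clm_apply (hasFDerivAt_const b x.1))).comp x (fst ℝ V V).hasFDerivAt
  have e : (fun y : V × V => (J2 π J y (b, 0)).1) = (fun y => J y (fderiv ℝ π y b)) ∘ fst ℝ V V := by
    funext y
    simp [J2_apply]
  rw [e] at h1
  have h5 := congrArg (fun L : (V × V) →L[ℝ] V => L a) (h1.unique h4)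
  simpa [add_comm] using h5

theorem reg_up (hA : Amb O π M om h) {J : V → En0 V} (hJ : ContDiff ℝ 3 J) {U : C2 → V}
    (hU : Map2 M U) {gZ : V → V → ℂ × ℝ} {gD : V → V → ℂ} {t : V}
    (hZ : DifferentiableAt ℝ (gZ (U (mk3 0))) (U (mk3 0)))
    (hD : DifferentiableAt ℝ (gD (U (mk3 1))) (U (mk3 1))) (H : Reg M J U gZ gD t) :
    Reg (s2 M) (J2 π J) (fun v => (U v, 0)) (fun x y => gZ x.1 y.1) (fun x y => gD x.1 y.1)
      (t, 0) := by
  intro ξ s h1 h2 h3 h4 h5 h6 h7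
  have h8 := fun v hv => (mem_tan2 (x := (U v, 0)) ⟨hU.mem v hv, rfl⟩).1 (h3 v hv)
  refine (H (fun v => (ξ v).1) s h1.fst (fun c hc v hv => congrArg Prod.fst (h2 c hc v hv))
    (fun v hv => (h8 v hv).1) (fun v hv w => ?_) ((fderiv_pre (x := (_, 0)) hZ _).symm.trans h5)
    ((fderiv_pre (x := (_, 0)) hD _).symm.trans h6) (congrArg Prod.fst h7)).imp_left
    fun a v hv => Prod.ext (a v hv) (h8 v hv).2
  have d1 := diffAt h1 one_ne_zero hv
  have d2 := diffAt hU.sm two_ne_zero hv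
  have d3 : ∀ w, (fderiv ℝ ξ v w).2 = 0 := fun w => by
    have e : (fun v => (ξ v).2) =ᶠ[𝓝 v] fun _ => 0 :=
      mem_of_superset (nz_mem_nhds hv) fun v' c => (h8 v' c).2
    have := congrArg (fun L : C2 →L[ℝ] V => L w)
      (d1.hasFDerivAt.snd.fderiv.symm.trans (e.fderiv_eq (𝕜 := ℝ)))
    simpa using this
  have d4 := hA.deriv_tan d2 d1.fst (mem_of_superset (nz_mem_nhds hv) fun v' c =>
    ⟨hU.mem v' c, (h8 v' c).1⟩) (I • w)
  have d5 := congrArg Prod.fst (h4 v hv w)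
  unfold Lin at d5 ⊢
  rw [Prod.fst_add, Prod.fst_add, fderiv_inl d2, dJ2 hA hJ, J2_apply, d3,
    (hA.mem_tan_iff (hU.mem v hv) _).1 (d_tan hU hv _), ← fderiv_fst d1, ← fderiv_fst d1] at d5
  rw [d4, map_add]
  simp only [map_zero, sub_zero, Prod.fst_zero] at d5
  rw [← d5]
  abel

end DoubleP

open DoubleP in
theorem double_of (h1 : MainSStmt) : MainWStmt := by
  intro V _ _ _ O M K Z D π om h J 𝒜 gZ gD γ a₀ Us ρs hA hW H
  have hJ : ContDiff ℝ 3 (J 1) := H.smJ.comp ((contDiff_const (c := (1 : ℝ))).prodMk contDiff_id)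
  refine h1 (V × V) (O ×ˢ univ) (s2 M) (s2 K) (Prod.fst ⁻¹' Z) (Prod.fst ⁻¹' D) (pi2 π) (f2 om)
    (f2 h) (fun τ => J2 π (J τ)) {q | (q.1, q.2.1) ∈ 𝒜} (fun x y => gZ x.1 y.1)
    (fun x y => gD x.1 y.1) (fun q => (γ q, 0)) a₀ (fun v => (Us v, 0)) ρs (amb2 hA)
    (fun τ => sj2 hA (hW τ))
    { smJ := contDiff_J2 hA.sm H.smJ
      tame := fun τ hτ x hx v hv h0 => ?_
      cpt := H.cpt.prod isCompact_singleton
      sub := fun x hx => ⟨H.sub hx.1, hx.2⟩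
      op := H.op.preimage (by fun_prop)
      inA := fun q hq => ⟨(H.inA _ hq).1, fun a => ⟨(H.inA _ hq).2 a.1, a.2⟩⟩
      clZ := H.clZ.preimage continuous_fst
      clD := H.clD.preimage continuous_fst
      cutZ := cut2 H.cutZ
      cutD := cut2 H.cutD
      disj := fun x hx => H.disj _ hx.1
      path := fun q hq => ?_
      conf := fun τ hτ ρ hρ J' hJ' k U hU => ?_
      uniq := fun ρ hρ U hU => ?_
      rho := H.rho
      sol := ⟨sph_up hA H.sol.sph, H.sol.mZ, H.sol.mD, Prod.ext H.sol.mp rfl,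
        (area_down om (sph_up hA H.sol.sph).sm).symm.trans H.sol.aro,
        (area_down h (sph_up hA H.sol.sph).sm).symm.trans H.sol.arh⟩
      chern := H.chern.imp fun k a => ⟨framed_up hA H.sol.sph.mem a.1, a.2⟩
      reg := ?_ }
  · obtain ⟨a, b⟩ := (mem_tan2 hx).1 hv
    rw [J2_tan hA _ hx hv]
    exact H.tame τ hτ _ hx.1 _ a fun c => h0 (Prod.ext c b)
  · obtain ⟨a, b, c, d⟩ := H.path q hq
    exact ⟨a.prodMk contDiffAt_const, b.mono fun _ e => ⟨e, rfl⟩, c, d⟩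
  · obtain ⟨a, b⟩ := H.conf τ hτ ρ hρ _ (adm_down hA hJ') k _ (conf_down hU)
    refine ⟨fun i => ?_, b⟩
    rintro _ ⟨v, hv, rfl⟩
    exact ⟨a i ⟨v, hv, rfl⟩, ((hU.sph i).1.mem v hv).2⟩
  · obtain ⟨a, b⟩ := H.uniq ρ hρ (fun v => (U v).1) ⟨sph_down hU.sph fun x hx c hc =>
      (congrArg Prod.fst (J2_tan hA _ (x := (x, 0)) ⟨hx, rfl⟩ (inl_tan hx hc))).symm, hU.mZ, hU.mD,
      congrArg Prod.fst hU.mp, (area_down om hU.sph.sm).trans hU.aro,
      (area_down h hU.sph.sm).trans hU.arh⟩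
    exact ⟨a, fun v hv => Prod.ext (b v hv) (hU.sph.mem v hv).2⟩
  · rw [fderiv_inl ((H.path (1, ρs) ⟨⟨zero_le_one, le_rfl⟩, H.rho⟩).1.differentiableAt one_ne_zero)]
    exact reg_up hA hJ H.sol.sph.toMap2
      ((H.cutZ _ H.sol.mZ (H.sol.sph.mem _ (mk3_ne 0))).1.differentiableAt one_ne_zero)
      ((H.cutD _ H.sol.mD (H.sol.sph.mem _ (mk3_ne 1))).1.differentiableAt one_ne_zero) H.reg

end

end Pool.Agent.MP_9758ca_gt

end
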