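import Mathlib.Analysis.Complex.Tietze
import Mathlib.Geometry.Manifold.SmoothApprox
import Mathlib.RingTheory.RegularLocalRing.Defs
import Mathlib.Topology.ContinuousMap.SecondCountableSpace
import Mathlib.Topology.UniformSpace.Uniformizable
import Pool.Agent.MP_9758ca_gt.SpecA

section

/-!
PROJECT BALL, module PERT: a separable Banach space of perturbations of `J`.
-/

open scoped Topology ContDiff BoundedContinuousFunction
open Set Metric Filter TopologicalSpace

set_option maxSynthPendingDepth 3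

namespace Pool.Agent.MP_9758ca_gt

noncomputable section

namespace PertP

/-- A separable Banach space with a biorthogonal sequence. -/
theorem exists_space : ∃ (A : Type) (_ : NormedAddCommGroup A) (_ : NormedSpace ℝ A)
    (_ : CompleteSpace A) (_ : SeparableSpace A) (ev : ℕ → A →L[ℝ] ℝ) (e : ℕ → A),
    ∀ n m, ev n (e m) = if n = m then 1 else 0 := by
  let e0 : ℕ → ℕ →ᵇ ℝ := fun m => BoundedContinuousFunction.ofNormedAddCommGroupDiscrete
    (fun n => if n = m then 1 else 0) 1 fun n => by split_ifs <;> simp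
  let S : Submodule ℝ (ℕ →ᵇ ℝ) := (Submodule.span ℝ (range e0)).topologicalClosure
  have hc : IsClosed (S : Set (ℕ →ᵇ ℝ)) := Submodule.isClosed_topologicalClosure _
  have hs : IsSeparable (S : Set (ℕ →ᵇ ℝ)) :=
    ((countable_range e0).isSeparable.span (R := ℝ)).closure
  exact ⟨S, inferInstance, inferInstance, hc.completeSpace_coe, hs.separableSpace,
    fun n => (BoundedContinuousFunction.evalCLM ℝ n).comp S.subtypeL,
    fun m => ⟨e0 m, Submodule.le_topologicalClosure _ (Submodule.subset_span ⟨m, rfl⟩)⟩,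
    fun n m => rfl⟩

section Family

variable {X E : Type} [NormedAddCommGroup X] [NormedSpace ℝ X] [FiniteDimensional ℝ X]
  [NormedAddCommGroup E] [NormedSpace ℝ E] [FiniteDimensional ℝ E]

/-- Countably many smooth maps that approximate all continuous ones on `Q`. -/
theorem exists_seq (𝒜 : Set X) {Q : Set X} (hQ : IsCompact Q) : ∃ Y : ℕ → X → E,
    (∀ n, ContDiff ℝ 3 (Y n) ∧ HasCompactSupport (Y n) ∧ ∀ q, q ∉ 𝒜 → Y n q = 0) ∧
    ∀ H : X → E, Continuous H → HasCompactSupport H → (∀ q, q ∉ 𝒜 → H q = 0) →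
      ∀ ε > 0, ∃ n, ∀ q ∈ Q, ‖Y n q - H q‖ ≤ ε := by
  have : CompactSpace Q := isCompact_iff_compactSpace.1 hQ
  have : ProperSpace E := FiniteDimensional.proper ℝ E
  have : ProperSpace X := FiniteDimensional.proper ℝ X
  let T : Set C(Q, E) := {c | ∃ H : X → E, (ContDiff ℝ 3 H ∧ HasCompactSupport H ∧
    ∀ q, q ∉ 𝒜 → H q = 0) ∧ ∀ q : Q, c q = H q}
  have : Nonempty T := ⟨⟨0, fun _ => 0, ⟨contDiff_const, HasCompactSupport.zero,
    fun _ _ => rfl⟩, fun _ => rfl⟩⟩
  obtain ⟨u, hu⟩ := exists_dense_seq T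
  choose Y hY hY' using fun n => (u n).2
  refine ⟨Y, hY, fun H hH hc h0 ε hε => ?_⟩
  obtain ⟨g, g1, g2, g3⟩ := hH.exists_contDiff_approx 3 (ε := fun _ => ε / 2) continuous_const
    fun _ => by positivity
  have hg : (⟨fun q : Q => g q, g1.continuous.comp continuous_subtype_val⟩ : C(Q, E)) ∈ T :=
    ⟨g, ⟨g1, hc.mono g3, fun q hq => by
      by_contra h; exact g3 h (h0 q hq)⟩, fun _ => rfl⟩
  obtain ⟨n, hn⟩ := hu.exists_dist_lt ⟨_, hg⟩ (half_pos hε)
  refine ⟨n, fun q hq => ?_⟩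
  have h1 := (ContinuousMap.dist_apply_le_dist (⟨q, hq⟩ : Q)).trans_lt hn
  rw [hY' n ⟨q, hq⟩] at h1
  have h2 := g2 q
  have h3 := dist_triangle_left (Y n q) (H q) (g q)
  rw [← dist_eq_norm]
  change dist (g q) (Y n q) < ε / 2 at h1
  linarith

omit [FiniteDimensional ℝ X] [FiniteDimensional ℝ E] in
theorem exists_scale {f : X → E} (hf : ContDiff ℝ 3 f) (hc : HasCompactSupport f) {δ : ℝ}
    (hδ : 0 < δ) : ∃ c : ℝ, 0 < c ∧ ∀ k : ℕ, k ≤ 3 → ∀ q, ‖iteratedFDeriv ℝ k (c • f) q‖ ≤ δ := by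
  have h : ∀ k : Fin 4, ∃ C, ∀ q, ‖iteratedFDeriv ℝ k f q‖ ≤ C := fun k =>
    (hf.continuous_iteratedFDeriv (by
      exact_mod_cast Nat.lt_succ_iff.1 k.2)).bounded_above_of_compact_support
      (hc.iteratedFDeriv k)
  choose C hC using h
  have h0 : ∀ k, 0 ≤ C k := fun k => (norm_nonneg _).trans (hC k 0)
  have h1 : 0 < 1 + ∑ k, C k := by
    have := Finset.sum_nonneg fun k (_ : k ∈ Finset.univ) => h0 k
    linarith
  refine ⟨δ / (1 + ∑ k, C k), by positivity, fun k hk q => ?_⟩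
  rw [iteratedFDeriv_const_smul_apply (hf.contDiffAt.of_le (by exact_mod_cast hk)), norm_smul,
    Real.norm_of_nonneg (by positivity), div_mul_eq_mul_div, div_le_iff₀ h1]
  refine mul_le_mul_of_nonneg_left ?_ hδ.le
  have h2 := hC ⟨k, by omega⟩ q
  have h3 := Finset.single_le_sum (f := C) (fun k _ => h0 k) (Finset.mem_univ ⟨k, by omega⟩)
  linarith

/-- The universal family. -/
theorem exists_family (𝒜 : Set X) {Q : Set X} (hQ : IsCompact Q) :
    ∃ (A : Type) (_ : NormedAddCommGroup A) (_ : NormedSpace ℝ A) (_ : CompleteSpace A)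
      (_ : SeparableSpace A) (Y : X → A →L[ℝ] E), ContDiff ℝ 3 Y ∧ (∀ q, q ∉ 𝒜 → Y q = 0) ∧
      ∀ H : X → E, Continuous H → HasCompactSupport H → (∀ q, q ∉ 𝒜 → H q = 0) →
        ∀ ε > 0, ∃ b, ∀ q ∈ Q, ‖Y q b - H q‖ ≤ ε := by
  obtain ⟨A, i1, i2, i3, i4, ev, e, hev⟩ := exists_space
  obtain ⟨Y, hY, hd⟩ := exists_seq (E := E) 𝒜 hQ
  let f : ℕ → X → A →L[ℝ] E := fun n q => ContinuousLinearMap.smulRightL ℝ A E (ev n) (Y n q)
  have f1 : ∀ n, ContDiff ℝ 3 (f n) := fun n =>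
    (ContinuousLinearMap.smulRightL ℝ A E (ev n)).contDiff.comp (hY n).1
  have f2 : ∀ n, HasCompactSupport (f n) := fun n =>
    (hY n).2.1.comp_left (g := ContinuousLinearMap.smulRightL ℝ A E (ev n)) (map_zero _)
  choose c hc hb using fun n => exists_scale (f1 n) (f2 n) (δ := (1 / 2) ^ n) (by positivity)
  have hs : ∀ q, Summable fun n => (c n • f n) q := fun q =>
    Summable.of_norm_bounded summable_geometric_two fun n => by
      have := hb n 0 (by norm_num) q
      rwa [norm_iteratedFDeriv_zero] at this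
  refine ⟨A, i1, i2, i3, i4, fun q => ∑' n, (c n • f n) q, ?_, fun q hq => ?_,
    fun H h1 h2 h3 ε hε => ?_⟩
  · exact contDiff_tsum (N := 3) (v := fun _ n => (1 / 2) ^ n)
      (fun n => (f1 n).const_smul (c n)) (fun _ _ => summable_geometric_two)
      fun k n q hk => hb n k (by exact_mod_cast hk) q
  · have : ∀ n, (c n • f n) q = 0 := fun n => by
      simp only [f, Pi.smul_apply, (hY n).2.2 q hq, map_zero, smul_zero]
    simp only [this, tsum_zero]
  · obtain ⟨m, hm⟩ := hd H h1 h2 h3 ε hε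
    refine ⟨(c m)⁻¹ • e m, fun q hq => ?_⟩
    have h4 := (ContinuousLinearMap.apply ℝ E ((c m)⁻¹ • e m)).map_tsum (hs q)
    rw [ContinuousLinearMap.apply_apply] at h4
    have h5 : ∀ n, ContinuousLinearMap.apply ℝ E ((c m)⁻¹ • e m) ((c n • f n) q) =
        if n = m then Y m q else 0 := fun n => by
      have : ContinuousLinearMap.apply ℝ E ((c m)⁻¹ • e m) ((c n • f n) q) =
          c n • ev n ((c m)⁻¹ • e m) • Y n q := rfl
      rw [this, map_smul, hev, smul_eq_mul]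
      split_ifs with h
      · subst h
        rw [mul_one, smul_smul, mul_inv_cancel₀ (hc n).ne', one_smul]
      · simp
    simp only [h4, h5, tsum_ite_eq]
    exact hm q hq

end Family

section Ring

variable {R : Type} [NormedRing R] [NormedAlgebra ℝ R] [FiniteDimensional ℝ R]

/-- A smooth globally invertible version of `S ↦ 1 + S`. -/
theorem exists_theta : ∃ Θ Ξ : R → R, ContDiff ℝ 3 Θ ∧ ContDiff ℝ 3 Ξ ∧
    (∀ S, Θ S * Ξ S = 1 ∧ Ξ S * Θ S = 1) ∧ (∀ S, ‖S‖ < 4⁻¹ → Θ S = 1 + S) ∧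
    ∀ S P, P * S = S * P → P * Θ S = Θ S * P ∧ P * Ξ S = Ξ S * P := by
  have : CompleteSpace R := FiniteDimensional.complete ℝ R
  let β : ContDiffBump (0 : R) := ⟨4⁻¹, 2⁻¹, by norm_num, by norm_num⟩
  have hn : ∀ S, ‖-(β S • S)‖ < 1 := fun S => by
    rw [norm_neg, norm_smul, Real.norm_of_nonneg β.nonneg]
    by_cases h : ‖S‖ < 2⁻¹
    · have := mul_le_mul_of_nonneg_right (β.le_one (x := S)) (norm_nonneg S)
      linarith
    · rw [β.zero_of_le_dist (by simpa [β] using not_lt.1 h)]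
      simp
  have hu : ∀ S, IsUnit (1 + β S • S) := fun S => by
    have := (Units.oneSub _ (hn S)).isUnit
    rwa [Units.val_oneSub, sub_neg_eq_add] at this
  have hΘ : ContDiff ℝ 3 fun S : R => 1 + β S • S := contDiff_const.add (β.contDiff.smul contDiff_id)
  refine ⟨fun S => 1 + β S • S, fun S => Ring.inverse (1 + β S • S), hΘ, ?_,
    fun S => ⟨Ring.mul_inverse_cancel _ (hu S), Ring.inverse_mul_cancel _ (hu S)⟩,
    fun S hS => ?_, fun S P h => ?_⟩
  · refine contDiff_iff_contDiffAt.2 fun S => ?_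
    obtain ⟨u, hu'⟩ := hu S
    have := contDiffAt_ringInverse ℝ (n := 3) u
    rw [hu'] at this
    exact this.comp S hΘ.contDiffAt
  · change 1 + β S • S = 1 + S
    rw [β.one_of_mem_closedBall (by simpa [β] using hS.le), one_smul]
  · have h1 : P * (1 + β S • S) = (1 + β S • S) * P := by
      rw [mul_add, add_mul, mul_one, one_mul, mul_smul_comm, smul_mul_assoc, h]
    refine ⟨h1, ?_⟩
    have h2 := Ring.mul_inverse_cancel _ (hu S)
    have h3 := Ring.inverse_mul_cancel _ (hu S)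
    calc P * Ring.inverse (1 + β S • S)
        = Ring.inverse (1 + β S • S) * ((1 + β S • S) * P) * Ring.inverse (1 + β S • S) := by
          rw [← mul_assoc, h3, one_mul]
      _ = _ := by rw [← h1, mul_assoc, mul_assoc, h2, mul_one]

omit [FiniteDimensional ℝ R] in
/-- The derivative of the conjugated structure. -/
theorem deriv_conj {Z : ℝ → R} {Z' S B J W : R} (hZ : HasDerivAt Z Z' 0)
    (h : ∀ᶠ t in 𝓝 (0 : ℝ), Z t * (1 + (S + t • B)) = (1 + (S + t • B)) * J)
    (hW : (1 + S) * W = 1) (hW' : W * (1 + S) = 1) :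
    Z' = B * W * Z 0 - Z 0 * (B * W) := by
  have hU : HasDerivAt (fun t : ℝ => 1 + (S + t • B)) B 0 := by
    simpa using (((hasDerivAt_id (0 : ℝ)).smul_const B).const_add S).const_add 1
  have h1 := hZ.mul hU
  have h2 := (hU.mul_const J).congr_of_eventuallyEq h
  have h3 := h1.unique h2
  have h4 := h.self_of_nhds
  simp only [zero_smul, add_zero] at h3 h4
  have h5 : J = W * Z 0 * (1 + S) := by rw [mul_assoc, h4, ← mul_assoc, hW', one_mul]
  calc Z' = Z' * (1 + S) * W := by rw [mul_assoc, hW, mul_one]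
    _ = (B * J - Z 0 * B) * W := by rw [← h3, add_sub_cancel_right]
    _ = _ := by
      rw [h5, sub_mul, mul_assoc B, mul_assoc _ (1 + S), hW, mul_one]
      simp only [mul_assoc]

omit [NormedAlgebra ℝ R] [FiniteDimensional ℝ R] in
theorem err_eq {P Yb W G U Z : R} (hP : P * P = P) (hW : P * W = W * P) (hZ : P * Z = Z * P)
    (hU : U * W = 1) :
    (P * Yb * P * W * Z - Z * (P * Yb * P * W) - (P * G * Z - Z * (P * G))) * P =
      (P * (Yb - G * U) * W * Z - Z * (P * (Yb - G * U) * W)) * P := by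
  have h1 : P * (W * (Z * P)) = W * (Z * P) := by
    rw [← mul_assoc, hW, mul_assoc, ← mul_assoc P, hZ, mul_assoc, hP]
  have h2 : P * (W * P) = W * P := by rw [← mul_assoc, hW, mul_assoc, hP]
  have h3 : ∀ x, U * (W * x) = x := fun x => by rw [← mul_assoc, hU, one_mul]
  simp only [mul_sub, sub_mul, mul_assoc, h1, h2, h3]
  abel

end Ring

end PertP

open PertP

theorem pert : PertStmt := by
  intro V _ _ _ O M K π om h J 𝒜 hA hK hKM hJ hS hT hop hin
  have hQ : IsCompact (Icc (0 : ℝ) 1 ×ˢ K) := isCompact_Icc.prod hK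
  obtain ⟨A, i1, i2, i3, i4, Y, hY, hY0, hYd⟩ := exists_family (E := En0 V) 𝒜 hQ
  obtain ⟨Θ, Ξ, hΘ, hΞ, hinv, hone, hcomm⟩ := exists_theta (R := En0 V)
  obtain ⟨⟨R, Λ, c, henv⟩, -⟩ := hA.unif hK hKM hJ hS hT
  have hc : 0 < c := (henv 0 ⟨le_rfl, zero_le_one⟩).pos
  have hP : ContDiff ℝ 3 (fderiv ℝ π) := (hA.sm.fderiv_right (m := ∞) le_rfl).of_le
    (WithTop.coe_le_coe.2 (le_top : (3 : ℕ∞) ≤ ⊤))
  obtain ⟨S, hSd⟩ : ∃ S : (A × ℝ) × V → En0 V,
      ∀ p, S p = fderiv ℝ π p.2 * Y (p.1.2, p.2) p.1.1 * fderiv ℝ π p.2 := ⟨_, fun _ => rfl⟩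
  have hq : ContDiff ℝ 3 fun p : (A × ℝ) × V => (p.1.2, p.2) :=
    (contDiff_snd.comp contDiff_fst).prodMk contDiff_snd
  have hSs : ContDiff ℝ 3 S := by
    rw [show S = _ from funext hSd]
    exact ((hP.comp contDiff_snd).mul
      ((hY.comp hq).clm_apply (contDiff_fst.comp contDiff_fst))).mul (hP.comp contDiff_snd)
  obtain ⟨JJ, hJJ⟩ : ∃ JJ : (A × ℝ) × V → En0 V,
      ∀ p, JJ p = Θ (S p) * J p.1.2 p.2 * Ξ (S p) := ⟨_, fun _ => rfl⟩
  have hJs : ContDiff ℝ 3 JJ := by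
    rw [show JJ = _ from funext hJJ]
    exact ((hΘ.comp hSs).mul (hJ.comp hq)).mul (hΞ.comp hSs)
  have hΘ0 : Θ 0 = 1 := by rw [hone 0 (by simp), add_zero]
  have hΞ0 : Ξ 0 = 1 := by have := (hinv 0).1; rwa [hΘ0, one_mul] at this
  have hzero : ∀ p, S p = 0 → JJ p = J p.1.2 p.2 := fun p hp => by
    rw [hJJ, hp, hΘ0, hΞ0, one_mul, mul_one]
  have hPP : ∀ x ∈ M, fderiv ℝ π x * fderiv ℝ π x = fderiv ℝ π x := fun x hx =>
    ContinuousLinearMap.ext fun v => hA.PP hx v
  have hPS : ∀ p : (A × ℝ) × V, p.2 ∈ M → fderiv ℝ π p.2 * S p = S p * fderiv ℝ π p.2 :=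
    fun p hp => by
      rw [hSd, ← mul_assoc, ← mul_assoc, hPP _ hp, mul_assoc _ (fderiv ℝ π p.2), hPP _ hp]
  have hPJ : ∀ p : (A × ℝ) × V, p.2 ∈ M → fderiv ℝ π p.2 * JJ p = JJ p * fderiv ℝ π p.2 :=
    fun p hp => by
      have h1 : fderiv ℝ π p.2 * J p.1.2 p.2 = J p.1.2 p.2 * fderiv ℝ π p.2 :=
        ContinuousLinearMap.ext fun v => (hS p.1.2 p.2 hp v).2
      obtain ⟨h2, h3⟩ := hcomm _ _ (hPS p hp)
      rw [hJJ, ← mul_assoc, ← mul_assoc, h2, mul_assoc (Θ _), h1, ← mul_assoc, mul_assoc _ _ (Ξ _),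
        h3, ← mul_assoc]
  have hsmall : ∀ᶠ a in 𝓝 (0 : A), ∀ q ∈ Icc (0 : ℝ) 1 ×ˢ K, ‖S ((a, q.1), q.2)‖ < 4⁻¹ ∧
      ‖om q.2‖ * ‖JJ ((a, q.1), q.2) - J q.1 q.2‖ < c := by
    refine hQ.eventually_forall_of_forall_eventually fun q _ => ?_
    have h1 : Continuous fun z : A × (ℝ × V) => ((z.1, z.2.1), z.2.2) := by fun_prop
    have h2 : S (((0 : A), q.1), q.2) = 0 := by rw [hSd]; simp
    refine Filter.Eventually.and ?_ ?_
    · refine (isOpen_lt (hSs.continuous.comp h1).norm continuous_const).mem_nhds ?_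
      change ‖S (((0 : A), q.1), q.2)‖ < 4⁻¹
      rw [h2]; simp
    · have h3 : Continuous fun x => ‖om x‖ := 
        (continuous_norm (E := V →L[ℝ] V →L[ℝ] ℝ)).comp hA.smo.continuous
      refine (isOpen_lt ((h3.comp continuous_snd.snd).mul
        ((hJs.continuous.comp h1).sub (hJ.continuous.comp continuous_snd)).norm)
        continuous_const).mem_nhds ?_
      change ‖om q.2‖ * ‖JJ (((0 : A), q.1), q.2) - J q.1 q.2‖ < c
      rw [hzero _ h2]; simpa using hc
  obtain ⟨r, hr, hr'⟩ := Metric.eventually_nhds_iff.1 hsmall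
  have hout : ∀ a τ x, (τ, x) ∉ 𝒜 → JJ ((a, τ), x) = J τ x := fun a τ x hx =>
    hzero _ (by rw [hSd, hY0 _ hx]; simp)
  refine ⟨A, i1, i2, i3, i4, JJ, r, hr, hJs, fun p x hx v => ⟨?_, ?_⟩, hout,
    fun a ha τ hτ x hx v hv hv0 => ?_, fun a ha τ G hG hGc hGA ε hε => ?_⟩
  · have h1 : J p.2 x * J p.2 x = -1 := ContinuousLinearMap.ext fun v => (hS p.2 x hx v).1
    have h2 : JJ (p, x) * JJ (p, x) = -1 := by
      rw [hJJ, mul_assoc, ← mul_assoc (Ξ _), ← mul_assoc (Ξ _), (hinv _).2, one_mul,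
        ← mul_assoc, mul_assoc (Θ _), h1, mul_neg, mul_one, neg_mul, (hinv _).1]
    exact congrArg (fun T : En0 V => T v) h2
  · exact congrArg (fun T : En0 V => T v) (hPJ (p, x) hx)
  · by_cases hxA : (τ, x) ∈ 𝒜
    swap
    · simp only [hout a τ x hxA]
      exact hT τ hτ x hx v hv hv0
    have hxK := (hin _ hxA).2 hx
    have h1 := (henv τ hτ).tm x hxK v hv
    have h2 := (hr' (by simpa using ha) (τ, x) ⟨hτ, hxK⟩).2
    have h3 : om x v (JJ ((a, τ), x) v) =
        om x v (J τ x v) + om x v ((JJ ((a, τ), x) - J τ x) v) := by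
      rw [← map_add]; congr 1; simp
    have h4 := (om x).le_opNorm₂ v ((JJ ((a, τ), x) - J τ x) v)
    have h5 := (JJ ((a, τ), x) - J τ x).le_opNorm v
    have h6 : 0 < ‖v‖ ^ 2 := by positivity
    have h7 : ‖om x‖ * ‖v‖ * ‖(JJ ((a, τ), x) - J τ x) v‖ ≤
        ‖om x‖ * ‖JJ ((a, τ), x) - J τ x‖ * ‖v‖ ^ 2 :=
      (mul_le_mul_of_nonneg_left h5 (by positivity)).trans (le_of_eq (by ring))
    have h8 := mul_lt_mul_of_pos_right h2 h6
    have h9 := neg_abs_le (om x v ((JJ ((a, τ), x) - J τ x) v))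
    rw [Real.norm_eq_abs] at h4
    simp only [h3]
    linarith
  by_cases hτ : τ ∈ Icc (0 : ℝ) 1
  swap
  · have hG0 : ∀ x, G x = 0 := fun x => by
      by_contra h0
      exact hτ (Ioo_subset_Icc_self (hin _ (hGA x (subset_tsupport G h0))).1)
    refine ⟨0, fun x _ v _ => ?_⟩
    have : (((0 : A), (0 : ℝ)), (0 : V)) = 0 := rfl
    simp only [this, hG0, map_zero, _root_.zero_apply, sub_zero, norm_zero]
    positivity
  have h1 : Continuous fun x : V => ((a, τ), x) := by fun_prop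
  obtain ⟨C, hC⟩ := hK.exists_bound_of_continuousOn (f := fun x =>
    ‖fderiv ℝ π x‖ * ‖Ξ (S ((a, τ), x))‖ * ‖JJ ((a, τ), x)‖)
    ((hP.continuous.norm.mul (hΞ.continuous.comp (hSs.continuous.comp h1)).norm).mul
      (hJs.continuous.comp h1).norm).continuousOn
  obtain ⟨χ, χ1, χ0, χc, -⟩ := exists_continuous_one_zero_of_isCompact
    (s := {τ} ×ˢ tsupport G) (t := 𝒜ᶜ) (isCompact_singleton.prod hGc) hop.isClosed_compl
    (disjoint_compl_right_iff_subset.2 (by rintro ⟨t, x⟩ ⟨rfl, hx⟩; exact hGA x hx))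
  have hδ : 0 < ε / (2 * (|C| + 1)) := by positivity
  obtain ⟨b, hb⟩ := hYd (fun q => χ q • (G q.2 * (1 + S ((a, τ), q.2))))
    (χ.continuous.smul ((hG.comp continuous_snd).mul
      (continuous_const.add (hSs.continuous.comp (h1.comp continuous_snd)))))
    χc.smul_right (fun q hq => by rw [χ0 hq]; simp) _ hδ
  refine ⟨b, fun x hx v hv => ?_⟩
  have hxM := hKM hx
  have h2 := (hr' (by simpa using ha) (τ, x) ⟨hτ, hx⟩).1
  have h3 := hb (τ, x) ⟨hτ, hx⟩
  have h4 : χ (τ, x) • (G x * (1 + S ((a, τ), x))) = G x * (1 + S ((a, τ), x)) := by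
    by_cases hxG : x ∈ tsupport G
    · rw [χ1 (x := (τ, x)) ⟨rfl, hxG⟩]; simp
    · rw [image_eq_zero_of_notMem_tsupport hxG]; simp
  simp only [h4] at h3
  have hl : HasDerivAt (fun t : ℝ => ((a, τ), x) + t • ((b, (0 : ℝ)), (0 : V)))
      ((b, (0 : ℝ)), (0 : V)) 0 := by
    simpa using ((hasDerivAt_id (0 : ℝ)).smul_const ((b, (0 : ℝ)), (0 : V))).const_add ((a, τ), x)
  have hZ : HasDerivAt (fun t : ℝ => JJ (((a, τ), x) + t • ((b, (0 : ℝ)), (0 : V))))
      (fderiv ℝ JJ ((a, τ), x) ((b, 0), 0)) 0 :=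
    (hJs.differentiable (by norm_num) _).hasFDerivAt.comp_hasDerivAt_of_eq 0 hl (by simp)
  have hSt : ∀ t : ℝ, S (((a, τ), x) + t • ((b, (0 : ℝ)), (0 : V))) =
      S ((a, τ), x) + t • (fderiv ℝ π x * Y (τ, x) b * fderiv ℝ π x) := fun t => by
    rw [hSd, hSd]
    simp only [Prod.fst_add, Prod.snd_add, Prod.smul_fst, Prod.smul_snd, smul_zero, add_zero,
      map_add, map_smul, mul_add, add_mul, mul_smul_comm, smul_mul_assoc]
  have hev : ∀ᶠ t : ℝ in 𝓝 0,
      ‖S ((a, τ), x) + t • (fderiv ℝ π x * Y (τ, x) b * fderiv ℝ π x)‖ < 4⁻¹ :=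
    (isOpen_lt (by fun_prop) continuous_const).mem_nhds (by simpa using h2)
  have hW := hinv (S ((a, τ), x))
  rw [hone _ h2] at hW
  have hd := deriv_conj (J := J τ x) hZ (hev.mono fun t ht => by
    rw [hJJ, hSt, ← hone _ ht, mul_assoc, (hinv _).2, mul_one]
    simp only [Prod.fst_add, Prod.snd_add, Prod.smul_fst, Prod.smul_snd, smul_zero, add_zero])
    hW.1 hW.2
  simp only [zero_smul, add_zero] at hd
  have he := congrArg (fun T : En0 V => T v) (err_eq (Yb := Y (τ, x) b) (G := G x) (hPP x hxM)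
    (hcomm _ _ (hPS ((a, τ), x) hxM)).2 (hPJ ((a, τ), x) hxM) hW.1)
  have hv' : fderiv ℝ π x v = v := (hA.mem_tan_iff hxM v).1 hv
  rw [← hd] at he
  have hv2 : ∀ T : En0 V, (T * fderiv ℝ π x) v = T v := fun T => congrArg T hv'
  simp only [hv2] at he
  have hC' := (le_abs_self _).trans ((hC x hx).trans (le_abs_self C))
  generalize Y (τ, x) b - G x * (1 + S ((a, τ), x)) = D at he h3
  generalize Ξ (S ((a, τ), x)) = W at he hC'
  generalize JJ ((a, τ), x) = Z at he hC' ⊢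
  have h5 : ‖fderiv ℝ π x * D * W‖ ≤ ‖fderiv ℝ π x‖ * ‖D‖ * ‖W‖ :=
    (norm_mul_le _ _).trans (mul_le_mul_of_nonneg_right (norm_mul_le _ _) (norm_nonneg _))
  have h6 : ‖fderiv ℝ π x * D * W * Z - Z * (fderiv ℝ π x * D * W)‖ ≤
      2 * (‖fderiv ℝ π x * D * W‖ * ‖Z‖) := by
    refine (norm_sub_le _ _).trans ?_
    have := norm_mul_le (fderiv ℝ π x * D * W) Z
    have := norm_mul_le Z (fderiv ℝ π x * D * W)
    linarith
  have h7 : 2 * (‖fderiv ℝ π x * D * W‖ * ‖Z‖) ≤ ε :=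
    calc 2 * (‖fderiv ℝ π x * D * W‖ * ‖Z‖) ≤ 2 * (‖fderiv ℝ π x‖ * ‖D‖ * ‖W‖ * ‖Z‖) := by gcongr
      _ = 2 * (‖fderiv ℝ π x‖ * ‖W‖ * ‖Z‖) * ‖D‖ := by ring
      _ ≤ 2 * (|C| + 1) * (ε / (2 * (|C| + 1))) := by gcongr; linarith
      _ = ε := by field_simp
  refine le_of_eq_of_le (congrArg norm he) ?_
  exact (ContinuousLinearMap.le_opNorm _ v).trans
    (mul_le_mul_of_nonneg_right (h6.trans h7) (norm_nonneg v))

end

end Pool.Agent.MP_9758ca_gt

end

section

/-!
PROJECT BALL: the universal linearised operator with point evaluations is onto.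
-/

open scoped Topology ContDiff ComplexConjugate
open Set Metric Filter Complex

namespace Pool.Agent.MP_9758ca_gt

namespace SurjP

/-! ### duality -/

theorem cont_of_ker {Z : Type} [NormedAddCommGroup Z] [NormedSpace ℝ Z] {R C : Submodule ℝ Z}
    (hR : IsClosed (R : Set Z)) [FiniteDimensional ℝ C] (h : IsCompl R C) (φ : Z →ₗ[ℝ] ℝ)
    (hφ : R ≤ LinearMap.ker φ) : Continuous φ := by
  have := hR
  have : FiniteDimensional ℝ (Z ⧸ R) :=
    (Submodule.quotientEquivOfIsCompl R C h).symm.finiteDimensional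
  have h1 := LinearMap.continuous_of_finiteDimensional (R.liftQ φ hφ)
  exact h1.comp continuous_quotient_mk'

theorem onto {N : ℕ} {A : Type} [NormedAddCommGroup A] [NormedSpace ℝ A] {X Z : Fin N → Type}
    [∀ i, NormedAddCommGroup (X i)] [∀ i, NormedSpace ℝ (X i)] [∀ i, NormedAddCommGroup (Z i)]
    [∀ i, NormedSpace ℝ (Z i)] (T : ∀ i, X i →L[ℝ] Z i) (S : ∀ i, A →L[ℝ] Z i)
    (hT : ∀ i, IsClosed ((T i).range : Set (Z i)) ∧
      ∃ C : Submodule ℝ (Z i), FiniteDimensional ℝ C ∧ IsCompl (T i).range C)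
    (h : ∀ φ : ∀ i, Z i →L[ℝ] ℝ, (∀ i x, φ i (T i x) = 0) → (∀ b, ∑ i, φ i (S i b) = 0) →
      ∀ i z, φ i z = 0) (z : ∀ i, Z i) : ∃ (b : A) (x : ∀ i, X i), ∀ i, T i (x i) + S i b = z i := by
  classical
  let Φ : (A × ∀ i, X i) →ₗ[ℝ] ∀ i, Z i :=
    { toFun := fun q i => T i (q.2 i) + S i q.1
      map_add' := fun p q => by
        funext i
        simp only [Prod.fst_add, Prod.snd_add, Pi.add_apply, map_add]
        abel
      map_smul' := fun c q => by
        funext i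
        simp only [Prod.smul_fst, Prod.smul_snd, Pi.smul_apply, map_smul, RingHom.id_apply,
          smul_add] }
  have top : LinearMap.range Φ = ⊤ := by
    by_contra hne
    obtain ⟨ψ, h0, hk⟩ := (LinearMap.range Φ).exists_le_ker_of_lt_top (lt_top_iff_ne_top.2 hne)
    have hz : ∀ q, ψ (Φ q) = 0 := fun q => hk ⟨q, rfl⟩
    have k1 : ∀ i x, ψ (Pi.single i (T i x)) = 0 := fun i x => by
      rw [← hz (0, Pi.single i x)]
      congr 1
      funext j
      by_cases hj : j = i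
      · subst hj; simp [Φ]
      · simp [Φ, hj]
    have hc : ∀ i, Continuous (ψ ∘ₗ LinearMap.single ℝ Z i) := fun i => by
      obtain ⟨a, C, b, c⟩ := hT i
      refine cont_of_ker a c _ ?_
      rintro _ ⟨x, rfl⟩
      exact k1 i x
    have hs : ∀ w : ∀ i, Z i, ψ w = ∑ i, ψ (Pi.single i (w i)) := fun w => by
      rw [← map_sum, Finset.univ_sum_single]
    have := h (fun i => ⟨ψ ∘ₗ LinearMap.single ℝ Z i, hc i⟩) k1 fun b => by
      rw [← hz (b, 0), hs]
      refine Finset.sum_congr rfl fun i _ => ?_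
      simp [Φ]
    refine h0 (LinearMap.ext fun w => ?_)
    rw [hs]
    exact Finset.sum_eq_zero fun i _ => this i (w i)
  obtain ⟨q, hq⟩ := LinearMap.range_eq_top.1 top z
  exact ⟨q.1, q.2, fun i => congrFun hq i⟩

/-! ### descent and extension -/

theorem descend {S V E : Type} [TopologicalSpace S] [CompactSpace S] [NormedAddCommGroup V]
    [NormedSpace ℝ V] [FiniteDimensional ℝ V] [NormedAddCommGroup E] [NormedSpace ℝ E]
    [FiniteDimensional ℝ E] {q : S → V} (hq : Continuous q) {F : S → E} (hF : Continuous F)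
    (h : ∀ s s', q s = q s' → F s = F s') {L Ω : Set V} (hL : IsCompact L) (hΩ : IsOpen Ω)
    (hLΩ : L ⊆ Ω) (h0 : ∀ s, q s ∉ L → F s = 0) :
    ∃ G : V → E, Continuous G ∧ HasCompactSupport G ∧ tsupport G ⊆ Ω ∧ ∀ s, G (q s) = F s := by
  have : TietzeExtension.{0, 0} E := TietzeExtension.of_tvs ℝ
  have : ProperSpace V := FiniteDimensional.proper_real V
  let F' : range q → E := fun x => F x.2.choose
  have e : ∀ s, F' (rangeFactorization q s) = F s := fun s =>
    h _ _ (rangeFactorization q s).2.choose_spec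
  have hq' : Continuous (rangeFactorization q) := hq.rangeFactorization
  have hQ : Topology.IsQuotientMap (rangeFactorization q) :=
    hq'.isClosedMap.isQuotientMap hq' rangeFactorization_surjective
  have hF' : Continuous F' := hQ.continuous_iff.2 (by
    rw [show F' ∘ rangeFactorization q = F from funext e]; exact hF)
  obtain ⟨G₀, hG⟩ := ContinuousMap.exists_restrict_eq (isCompact_range hq).isClosed ⟨F', hF'⟩
  obtain ⟨φ, p1, p2, p3, -⟩ := exists_continuousMap_one_of_isCompact_subset_isOpen hL hΩ hLΩ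
  have hs : tsupport (fun x => φ x • G₀ x) ⊆ tsupport φ := tsupport_smul_subset_left _ _
  refine ⟨fun x => φ x • G₀ x, φ.continuous.smul G₀.continuous,
    p2.of_isClosed_subset (isClosed_tsupport _) hs, hs.trans p3, fun s => ?_⟩
  have e2 : G₀ (q s) = F s := by
    rw [← e s]
    exact DFunLike.congr_fun hG (rangeFactorization q s)
  change φ (q s) • G₀ (q s) = F s
  by_cases k : q s ∈ L
  · rw [e2, p1 k, Pi.one_apply, one_smul]
  · rw [e2, h0 s k, smul_zero]

/-! ### the pointwise formula -/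

variable {V : Type} [NormedAddCommGroup V] [NormedSpace ℝ V]

noncomputable def gam (w : V →L[ℝ] V →L[ℝ] ℝ) (J : En0 V) (y t : V) : En0 V :=
  (2 * w y (J y))⁻¹ • (ContinuousLinearMap.smulRightL ℝ V V (w y) t -
    ContinuousLinearMap.smulRightL ℝ V V (w (J y)) (J t))

theorem gam_apply (w : V →L[ℝ] V →L[ℝ] ℝ) (J : En0 V) (y t x : V) :
    gam w J y t x = (2 * w y (J y))⁻¹ • (w y x • t - w (J y) x • J t) := by
  simp [gam]

theorem gam_zero (w : V →L[ℝ] V →L[ℝ] ℝ) (J : En0 V) (y : V) : gam w J y 0 = 0 := by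
  ext x
  simp [gam_apply]

theorem gam_spec {w : V →L[ℝ] V →L[ℝ] ℝ} (hw : ∀ a b, w a b = -w b a) (J : En0 V) {y : V} (t : V)
    (hd : w y (J y) ≠ 0) :
    gam w J y t (J y) = (2⁻¹ : ℝ) • t ∧ gam w J y t y = (2⁻¹ : ℝ) • J t := by
  have z : ∀ a, w a a = 0 := fun a => by linarith [hw a a]
  constructor
  · rw [gam_apply, z, zero_smul, sub_zero, smul_smul]
    congr 1
    field_simp
  · rw [gam_apply, z, zero_smul, zero_sub, hw (J y) y, neg_smul, neg_neg, smul_smul]
    congr 1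
    field_simp

theorem rot_d {w : V →L[ℝ] V →L[ℝ] ℝ} (hw : ∀ a b, w a b = -w b a) {J : En0 V}
    (hJ : ∀ a, J (J a) = -a) {p q : ℝ} (h : p ^ 2 + q ^ 2 = 1) (y : V) :
    w (p • y + q • J y) (J (p • y + q • J y)) = w y (J y) := by
  have z : ∀ a, w a a = 0 := fun a => by linarith [hw a a]
  simp only [map_add, map_smul, hJ, add_apply, smul_apply,
    map_neg, z, hw (J y) y, smul_eq_mul]
  linear_combination (w y (J y)) * h

theorem gam_rot {w : V →L[ℝ] V →L[ℝ] ℝ} (hw : ∀ a b, w a b = -w b a) {J : En0 V}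
    (hJ : ∀ a, J (J a) = -a) {p q : ℝ} (h : p ^ 2 + q ^ 2 = 1) (y t : V) :
    gam w J (p • y + q • J y) (p • t - q • J t) = gam w J y t := by
  ext x
  rw [gam_apply, gam_apply, rot_d hw hJ h]
  congr 1
  simp only [map_add, map_sub, map_smul, hJ, add_apply,
    smul_apply, map_neg, neg_apply, smul_eq_mul]
  linear_combination (norm := module) (w y x * h) • t - (w (J y) x * h) • J t

theorem gam_cont {X : Type} [TopologicalSpace X] {w : X → V →L[ℝ] V →L[ℝ] ℝ} {J : X → En0 V}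
    {y t : X → V} {x : X} (hw : ContinuousAt w x) (hJ : ContinuousAt J x) (hy : ContinuousAt y x)
    (ht : ContinuousAt t x) (hd : w x (y x) (J x (y x)) ≠ 0) :
    ContinuousAt (fun x => gam (w x) (J x) (y x) (t x)) x := by
  have a := hw.clm_apply hy
  have b := hJ.clm_apply hy
  have c := (ContinuousLinearMap.smulRightL ℝ V V).continuous
  exact ((continuousAt_const.mul (a.clm_apply b)).inv₀ (mul_ne_zero two_ne_zero hd)).smul
    (((c.continuousAt.comp a).clm_apply ht).sub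
      ((c.continuousAt.comp (hw.clm_apply b)).clm_apply (hJ.clm_apply ht)))

/-! ### one sphere -/

variable {M K : Set V} {J : V → En0 V} {U : C2 → V} {om : F2 V} {k : Fin 3 → ℤ}
  {e : C2 → C3 →L[ℝ] V} {f : C2 → V →L[ℝ] C3}

noncomputable def yv (U : C2 → V) (v : C2) : V := fderiv ℝ U v (I • hor v)

theorem split_smul {F : Type} [AddCommGroup F] [Module ℂ F] (s : ℂ) (w : F) :
    s • w = s.re • w + s.im • I • w := by
  rw [← Complex.coe_smul, ← Complex.coe_smul, smul_smul, ← add_smul, re_add_im]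

theorem diff (h : IsSph K J U) {v : C2} (hv : v ≠ 0) : DifferentiableAt ℝ U v :=
  (h.sm.contDiffAt (nz_mem_nhds hv)).differentiableAt (by simp)

theorem d_smul (h : IsSph K J U) {v : C2} (hv : v ≠ 0) (s : ℂ) (w : C2) :
    fderiv ℝ U v (s • w) = s.re • fderiv ℝ U v w + s.im • J (U v) (fderiv ℝ U v w) := by
  rw [split_smul s w, map_add, map_smul, map_smul, h.cr v hv]

theorem yv_smul (h : IsSph K J U) {v : C2} (hv : v ≠ 0) {c : ℂ} (hc : c ≠ 0) :
    yv U (c • v) = (conj c / c).re • yv U v + (conj c / c).im • J (U v) (yv U v) := by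
  have e1 : I • hor (c • v) = c • (conj c / c) • I • hor v := by
    rw [hor_smul, smul_smul, smul_smul, smul_smul]
    congr 1
    field_simp
  rw [yv, e1, h.inv.fderiv_smul hc hv (diff h hv), d_smul h hv]
  rfl

theorem yv_mem (hK : K ⊆ M) (h : IsSph K J U) {v : C2} (hv : v ≠ 0) : yv U v ∈ tan M (U v) :=
  fderiv_mem_tan (diff h hv) (mem_of_superset (nz_mem_nhds hv) fun w hw => hK (h.mem w hw)) _

theorem yv_ne (h : IsSph K J U) (hsq : ∀ x ∈ K, ∀ a, J x (J x a) = -a) {v : C2}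
    (hv : InjPt U v) : yv U v ≠ 0 := fun h0 => by
  have h1 : fderiv ℝ U v (hor v) = 0 := by
    have := hsq _ (h.mem v hv.1) (fderiv ℝ U v (hor v))
    rw [← h.cr v hv.1, show fderiv ℝ U v (I • hor v) = 0 from h0, map_zero] at this
    exact neg_eq_zero.1 this.symm
  refine hv.2.1 (ContinuousLinearMap.ext fun w => ?_)
  obtain ⟨a, b, rfl⟩ := hor_decomp hv.1 w
  rw [map_add, h.inv.fderiv_self hv.1 (diff h hv.1), d_smul h hv.1, h1]
  simp

theorem yv_cont (h : IsSph K J U) {v : C2} (hv : v ≠ 0) : ContinuousAt (yv U) v :=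
  ((h.sm.continuousOn_fderiv_of_isOpen isOpen_nz (by norm_num)).continuousAt
    (nz_mem_nhds hv)).clm_apply (contDiff_hor.continuous.const_smul I).continuousAt

theorem unit_sq {c : ℂ} (hc : c ≠ 0) : (conj c / c).re ^ 2 + (conj c / c).im ^ 2 = 1 := by
  have : normSq (conj c / c) = 1 := by
    rw [map_div₀, normSq_conj, div_self (normSq_pos.2 hc).ne']
  rw [← this, normSq_apply]
  ring

theorem e_smul (h : Inv U) (hF : Frame M J U k e f) {v : C2} (hv : v ≠ 0) {c : ℂ} (hc : c ≠ 0)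
    (ζ : C3) : e (c • v) (repY k c ζ) =
      (conj c / c).re • e v ζ - (conj c / c).im • J (U v) (e v ζ) := by
  have hv' : c • v ≠ 0 := smul_ne_zero hc hv
  have e1 : repY k c ζ = rep k c ((c / conj c) • ζ) := by
    funext i
    rw [repY_apply, rep_apply, Pi.smul_apply, smul_eq_mul, mul_assoc]
  have e2 : ∀ η, e (c • v) (rep k c η) = e v η := fun η => by
    have m := hF.mem v hv η
    have := hF.hom c hc v hv _ m
    rw [hF.fe v hv] at this
    rw [← this, hF.ef _ hv' _ (by rw [h c hc v hv]; exact m)]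
  have e3 : c / conj c = conj (conj c / c) := by simp
  rw [e1, e2, split_smul, map_add, map_smul, map_smul, hF.eJ v hv, e3, conj_re, conj_im, neg_smul,
    sub_eq_add_neg]

/-- the field of endomorphisms along the sphere -/
noncomputable def Gm (om : F2 V) (J : V → En0 V) (U : C2 → V) (e : C2 → C3 →L[ℝ] V) (g : C2 → C3)
    (v : C2) : En0 V := gam (om (U v)) (J (U v)) (yv U v) (e v (g v))

theorem Gm_par (han : Anti om) (h : IsSph K J U) (hsq : ∀ x ∈ K, ∀ a, J x (J x a) = -a)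
    (hF : Frame M J U k e f) {g : C2 → C3} (hg : Hom (repY k) g) {v w : C2} (hv : v ≠ 0)
    (hp : Par v w) : Gm om J U e g v = Gm om J U e g w ∧
      om (U v) (yv U v) (J (U v) (yv U v)) = om (U w) (yv U w) (J (U w) (yv U w)) := by
  obtain ⟨c, rfl⟩ := hp
  have hc : c ≠ 0 := left_ne_zero_of_smul hv
  have hw : w ≠ 0 := right_ne_zero_of_smul hv
  rw [Gm, Gm, h.inv c hc w hw, yv_smul h hw hc, hg c hc w hw, e_smul h.inv hF hw hc]
  exact ⟨gam_rot (han _) (hsq _ (h.mem w hw)) (unit_sq hc) _ _,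
    rot_d (han _) (hsq _ (h.mem w hw)) (unit_sq hc) _⟩

theorem exists_G [FiniteDimensional ℝ V] {N : ℕ} {U : Fin N → C2 → V} (i : Fin N) {Ω : Set V}
    (hΩ : IsOpen Ω) (hom : Continuous om) (han : Anti om) (hJ : Continuous J) (hK : K ⊆ M)
    (hsq : ∀ x ∈ K, ∀ a, J x (J x a) = -a) (ht : Tame M om J) (hU : ∀ j, IsSph K J (U j))
    (hF : Frame M J (U i) k e f) {B : Set C2} (hB : IsCompact B)
    (hb : ∀ w ∈ B, InjPt (U i) w ∧ U i w ∈ Ω ∧ ∀ j, j ≠ i → U i w ∉ im (U j)) {g : C2 → C3}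
    (hg : YH (repY k) g) (h0 : ∀ v, v ≠ 0 → U i v ∉ U i '' B → g v = 0) :
    ∃ G : V → En0 V, Continuous G ∧ HasCompactSupport G ∧ tsupport G ⊆ Ω ∧
      (∀ j, j ≠ i → ∀ v : S3, G (U j v) = 0) ∧ ∀ v : S3,
        G (U i v) (J (U i v) (yv (U i) v)) = (2⁻¹ : ℝ) • e v (g v) ∧
        G (U i v) (yv (U i) v) = (2⁻¹ : ℝ) • J (U i v) (e v (g v)) := by
  classical
  have cU : ∀ j v, v ≠ 0 → ContinuousAt (U j) v := fun j v hv => (diff (hU j) hv).continuousAt
  have hL : IsCompact (U i '' B) :=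
    hB.image_of_continuousOn fun w hw => (cU i w (hb w hw).1.1).continuousWithinAt
  have z : ∀ v, v ≠ 0 → U i v ∉ U i '' B → Gm om J (U i) e g v = 0 := fun v hv k => by
    rw [Gm, h0 v hv k, map_zero, gam_zero]
  have d : ∀ v, v ≠ 0 → U i v ∈ U i '' B →
      om (U i v) (yv (U i) v) (J (U i v) (yv (U i) v)) ≠ 0 := by
    rintro v hv ⟨w, hw, k⟩
    have a := (hb w hw).1
    rw [(Gm_par han (hU i) hsq hF hg.1 hv (a.2.2 v hv k.symm)).2]
    exact (ht _ (hK ((hU i).mem w a.1)) _ (yv_mem hK (hU i) a.1) (yv_ne (hU i) hsq a)).ne'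
  have cG : ∀ v, v ≠ 0 → ContinuousAt (Gm om J (U i) e g) v := fun v hv => by
    by_cases k : U i v ∈ U i '' B
    · exact gam_cont (hom.continuousAt.comp (cU i v hv)) (hJ.continuousAt.comp (cU i v hv))
        (yv_cont (hU i) hv) ((hF.sme.continuousOn.continuousAt (nz_mem_nhds hv)).clm_apply
          (hg.2.continuousAt hv)) (d v hv k)
    · refine (continuousAt_const (y := (0 : En0 V))).congr ?_
      filter_upwards [nz_mem_nhds hv, cU i v hv (hL.isClosed.isOpen_compl.mem_nhds k)] with w a b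
      exact (z w a b).symm
  let q : (Σ _ : Fin N, S3) → V := fun s => U s.1 s.2
  let F : (Σ _ : Fin N, S3) → En0 V := fun s => if s.1 = i then Gm om J (U i) e g s.2 else 0
  have hq : Continuous q := continuous_sigma fun j => continuous_iff_continuousAt.2 fun v =>
    (cU j v (S3_ne v)).comp continuous_subtype_val.continuousAt
  have hFc : Continuous F := continuous_sigma fun j => by
    by_cases hj : j = i
    · simp only [F, if_pos hj]
      exact continuous_iff_continuousAt.2 fun v =>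
        (cG v (S3_ne v)).comp continuous_subtype_val.continuousAt
    · simp only [F, if_neg hj]
      exact continuous_const
  have F0 : ∀ s, q s ∉ U i '' B → F s = 0 := by
    rintro ⟨j, v⟩ k
    by_cases hj : j = i
    · subst hj
      simp only [F, if_true]
      exact z v (S3_ne v) k
    · simp only [F, if_neg hj]
  have F1 : ∀ s, ∀ w ∈ B, U i w = q s → F s = Gm om J (U i) e g w := by
    rintro ⟨j, v⟩ w hw k
    obtain rfl : j = i := by_contra fun hj => (hb w hw).2.2 j hj ⟨v, S3_ne v, k.symm⟩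
    simp only [F, if_true]
    exact (Gm_par han (hU j) hsq hF hg.1 (S3_ne v) ((hb w hw).1.2.2 v (S3_ne v) k.symm)).1
  obtain ⟨G, g1, g2, g3, g4⟩ := descend hq hFc (fun s s' k => by
    by_cases m : q s ∈ U i '' B
    · obtain ⟨w, hw, m⟩ := m
      rw [F1 s w hw m, F1 s' w hw (m.trans k)]
    · rw [F0 s m, F0 s' (k ▸ m)]) hL hΩ (by rintro _ ⟨w, hw, rfl⟩; exact (hb w hw).2.1) F0
  refine ⟨G, g1, g2, g3, fun j hj v => (g4 ⟨j, v⟩).trans (if_neg hj), fun v => ?_⟩
  rw [show G (U i v) = Gm om J (U i) e g v from (g4 ⟨i, v⟩).trans (if_pos rfl)]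
  by_cases k : U i v ∈ U i '' B
  · exact gam_spec (han _) _ _ (d v (S3_ne v) k)
  · rw [z v (S3_ne v) k, h0 v (S3_ne v) k]
    simp

theorem exists_bd (h : IsSph K J U) (hf : ContDiffOn ℝ 2 f nz) :
    ∃ C : ℝ, ∀ v : S3, ‖f v‖ * ‖yv U v‖ ≤ C := by
  have hc : Continuous fun v : S3 => ‖f v‖ * ‖yv U v‖ := continuous_iff_continuousAt.2 fun v =>
    (((hf.continuousOn.continuousAt (nz_mem_nhds (S3_ne v))).comp
      continuous_subtype_val.continuousAt).norm).mul
      ((yv_cont h (S3_ne v)).comp continuous_subtype_val.continuousAt).norm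
  obtain ⟨C, hC⟩ := (isCompact_range hc).bddAbove
  exact ⟨C, fun v => hC ⟨v, rfl⟩⟩

theorem small {N : ℕ} {A : Type} {Y : Fin N → Type} [∀ j, NormedAddCommGroup (Y j)]
    [∀ j, NormedSpace ℝ (Y j)] (l : ∀ j, Y j →L[ℝ] ℝ) (E : ∀ j, A → Y j) (i : Fin N) (g : Y i)
    (c : Fin N → ℝ) (h0 : ∀ b, ∑ j, l j (E j b) = 0)
    (h : ∀ ε > (0 : ℝ), ∃ b, |l i (E i b - g)| ≤ c i * ε ∧ ∀ j, j ≠ i → |l j (E j b)| ≤ c j * ε) :
    l i g = 0 := by
  have key : ∀ ε > (0 : ℝ), |l i g| ≤ (∑ j, c j) * ε := fun ε hε => by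
    obtain ⟨b, h1, h2⟩ := h ε hε
    have e := h0 b
    rw [← Finset.add_sum_erase _ _ (Finset.mem_univ i)] at e
    rw [← Finset.add_sum_erase _ _ (Finset.mem_univ i), add_mul, Finset.sum_mul,
      show l i g = -(l i (E i b - g) + ∑ j ∈ Finset.univ.erase i, l j (E j b)) by
        rw [map_sub]; linarith, abs_neg]
    exact (abs_add_le _ _).trans (add_le_add h1 ((Finset.abs_sum_le_sum_abs _ _).trans
      (Finset.sum_le_sum fun j hj => h2 j (Finset.mem_erase.1 hj).1)))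
  have t : Tendsto (fun ε : ℝ => (∑ j, c j) * ε) (𝓝[>] 0) (𝓝 ((∑ j, c j) * 0)) :=
    ((continuous_const.mul continuous_id).tendsto 0).mono_left nhdsWithin_le_nhds
  rw [mul_zero] at t
  exact abs_nonpos_iff.1 (ge_of_tendsto t (mem_of_superset self_mem_nhdsWithin key))

theorem split_fun {Y : Type} [NormedAddCommGroup Y] [NormedSpace ℝ Y]
    (φ : Y × (Fin 3 → C3) →L[ℝ] ℝ) : ∃ (l : Y →L[ℝ] ℝ) (μ : Fin 3 → C3 →L[ℝ] ℝ),
      ∀ g y, φ (g, y) = l g + ∑ m, μ m (y m) := by
  refine ⟨φ.comp (ContinuousLinearMap.inl ℝ _ _), fun m => (φ.comp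
    (ContinuousLinearMap.inr ℝ _ _)).comp (ContinuousLinearMap.single ℝ (fun _ => C3) m),
    fun g y => ?_⟩
  simp only [ContinuousLinearMap.comp_apply, ContinuousLinearMap.single_apply]
  rw [← map_sum, ← map_sum, Finset.univ_sum_single, ← map_add]
  simp

theorem exists_ev (k : Fin 3 → ℤ) :
    ∃ L : XX k →L[ℝ] Fin 3 → C3, ∀ ξ m, L ξ m = fX ξ (mk3 m) := by
  choose L hL using fun m => exists_evalX (χ := rep k) (mk3 m)
  exact ⟨ContinuousLinearMap.pi L, fun ξ m => hL m ξ⟩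

theorem fred_ev (h3 : RieszStmt) {X Y W : Type} [NormedAddCommGroup X] [NormedSpace ℝ X]
    [CompleteSpace X] [NormedAddCommGroup Y] [NormedSpace ℝ Y] [CompleteSpace Y]
    [NormedAddCommGroup W] [NormedSpace ℝ W] [FiniteDimensional ℝ W] {D : X →L[ℝ] Y} {n : ℤ}
    (hD : Fred D n) (L : X →L[ℝ] W) : IsClosed ((D.prod L).range : Set (Y × W)) ∧
      ∃ C : Submodule ℝ (Y × W), FiniteDimensional ℝ C ∧ IsCompl (D.prod L).range C := by
  have : CompleteSpace W := FiniteDimensional.complete ℝ W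
  have h := ((h3.1 X Y D n).2.2 (Fin 0 → ℝ) W).1 hD
    ((D.prod L).comp (ContinuousLinearMap.snd ℝ _ _)) fun _ => rfl
  obtain ⟨-, a, C, b, c, -⟩ := (h3.1 _ _ _ _).1 h
  have e : ((D.prod L).comp (ContinuousLinearMap.snd ℝ (Fin 0 → ℝ) X)).range = (D.prod L).range :=
    le_antisymm (by rintro _ ⟨x, rfl⟩; exact ⟨x.2, rfl⟩) (by rintro _ ⟨x, rfl⟩; exact ⟨(0, x), rfl⟩)
  rw [e] at a c
  exact ⟨a, C, b, c⟩

/-- a compact neighbourhood of good points -/
theorem exists_ball {N : ℕ} {U : Fin N → C2 → V} (i : Fin N) {Ω : Set V} (hΩ : IsOpen Ω)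
    (hU : ∀ j, IsSph K J (U j)) (ho : IsOpen {v | InjPt (U i) v}) {p : C2} (hp : InjPt (U i) p)
    (h1 : U i p ∈ Ω) (h2 : ∀ j, j ≠ i → U i p ∉ im (U j)) : ∃ δ > 0, ∀ w ∈ closedBall p δ,
      InjPt (U i) w ∧ U i w ∈ Ω ∧ ∀ j, j ≠ i → U i w ∉ im (U j) := by
  have c := (diff (hU i) hp.1).continuousAt
  refine Metric.nhds_basis_closedBall.eventually_iff.1 (Eventually.and (ho.mem_nhds hp)
    (Eventually.and (c (hΩ.mem_nhds h1)) (eventually_all.2 fun j => ?_)))
  by_cases hj : j = i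
  · exact Eventually.of_forall fun _ k => absurd hj k
  · exact mem_of_superset (c (((hU j).inv.isCompact_im
      (hU j).sm.continuousOn).1.isClosed.isOpen_compl.mem_nhds (h2 j hj))) fun _ k _ => k

end SurjP

open SurjP in
theorem surj_of (h1 : Std2Stmt) (h2 : RungeStmt) (h3 : RieszStmt) (h4 : PairStmt) : SurjStmt := by
  intro V _ _ _ O M K π om h J 𝒜 A _ _ JJ r a τ N U k e f B D E hA hK h𝒜 hP ha hτ hG H g y
  choose L hL using fun i => exists_ev (k i)
  have hU := fun i => (H i).1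
  have hJ : ContDiff ℝ 2 fun x => JJ ((a, τ), x) :=
    (hP.sm.of_le (by norm_num)).comp (contDiff_const.prodMk contDiff_id)
  have hsq : ∀ x ∈ K, ∀ v, JJ ((a, τ), x) (JJ ((a, τ), x) v) = -v := fun x hx v =>
    (hP.sj (a, τ) x (hK hx) v).1
  have hΩ : IsOpen {x | (τ, x) ∈ 𝒜} := h𝒜.preimage (continuous_const.prodMk continuous_id)
  have hS := fun i => h1 (k i) (B i) (D i) (H i).2.2.1 (H i).2.2.2.1
  obtain ⟨b, ζ, hb⟩ := onto (fun i => (D i).prod (L i)) (fun i => (E i).prod 0)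
    (fun i => fred_ev h3 (hS i).1 (L i)) (fun φ p1 p2 i z => by
      choose l μ hφ using fun j => split_fun (φ j)
      have q1 : ∀ j ξ, l j (D j ξ) + ∑ m, μ j m (fX ξ (mk3 m)) = 0 := fun j ξ => by
        have := (hφ j (D j ξ) (L j ξ)).symm.trans (p1 j ξ)
        simpa only [hL] using this
      have q2 : ∀ b, ∑ j, l j (E j b) = 0 := fun b => by
        rw [← p2 b]
        refine Finset.sum_congr rfl fun j _ => ?_
        have := hφ j (E j b) 0
        simp only [Pi.zero_apply, map_zero, Finset.sum_const_zero, add_zero] at this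
        exact this.symm
      choose C hC using fun j => (hS j).2 (l j) (μ j) (q1 j)
      choose C' hC' using fun j => exists_bd (hU j) (H j).2.1.smf
      obtain ⟨p, a1, a2, a3, a4⟩ := hG i
      obtain ⟨δ, hδ, hB⟩ := exists_ball i hΩ hU ((h4 V _ K hJ hsq).1 _ (hU i)) a1 a2 a3
      have kill : ∀ g : YY (k i), (∀ v, v ≠ 0 → U i v ∉ U i '' closedBall p δ → fY g v = 0) →
          l i g = 0 := fun g hg => by
        obtain ⟨G, g1, g2, g3, g4, g5⟩ := exists_G i hΩ hA.smo.continuous hA.ano hJ.continuous hK hsq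
          (hP.tame a ha τ hτ) hU (H i).2.1 (isCompact_closedBall p δ) hB (fY_yh (rep_repY _) g) hg
        refine small l (fun j b => E j b) i g (fun j => C j * C' j) q2 fun ε hε => ?_
        obtain ⟨b, hb⟩ := hP.dense a ha τ G g1 g2 g3 ε hε
        have est : ∀ j (v : S3) (t : V), fderiv ℝ π (U j v) (G (U j v) (JJ ((a, τ), U j v)
            (yv (U j) v))) - JJ ((a, τ), U j v) (fderiv ℝ π (U j v) (G (U j v) (yv (U j) v))) = t →
            ‖fY (E j b) v - f j v t‖ ≤ C' j * ε := fun j v t ht => by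
          have := hb _ ((hU j).mem v (S3_ne v)) _ (yv_mem hK (hU j) (S3_ne v))
          rw [ht] at this
          rw [(H j).2.2.2.2 b v (S3_ne v), ← map_sub]
          refine ((f j v).le_opNorm _).trans ((mul_le_mul_of_nonneg_left this
            (norm_nonneg _)).trans ?_)
          rw [mul_left_comm, mul_comm]
          exact mul_le_mul_of_nonneg_right (hC' j v) hε.le
        refine ⟨b, ?_, fun j hj => ?_⟩
        · rw [mul_assoc]
          refine hC i _ _ fun v => ?_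
          have m := hK ((hU i).mem v (S3_ne v))
          have t := (hA.mem_tan_iff m _).1 ((H i).2.1.mem v (S3_ne v) (fY g v))
          have := est i v (e i v (fY g v)) (by
            rw [(g5 v).1, (g5 v).2, map_smul, map_smul, map_smul, (hP.sj (a, τ) _ m _).2, t,
              (hP.sj (a, τ) _ m _).1]
            module)
          rwa [(H i).2.1.fe v (S3_ne v), ← fY_sub] at this
        · rw [mul_assoc]
          refine hC j _ _ fun v => ?_
          have := est j v 0 (by rw [g4 j hj v]; simp)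
          rwa [map_zero, sub_zero] at this
      obtain ⟨ζ, z1, z2, z3⟩ := h2 (k i) (B i) p {v | ∃ c : ℂ, c ≠ 0 ∧ c • v ∈ ball p δ} (fY z.1) z.2
        (H i).2.2.1 a1.1 a4 (by
          rw [ofPred_exists]
          refine isOpen_iUnion fun c => ?_
          rw [ofPred_and]
          exact isOpen_const.inter (isOpen_ball.preimage (continuous_const_smul c)))
        (by
          rintro c hc v ⟨c', hc', k⟩
          exact ⟨c' * c⁻¹, mul_ne_zero hc' (inv_ne_zero hc), by
            rwa [smul_smul, mul_assoc, inv_mul_cancel₀ hc, mul_one]⟩)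
        ⟨1, one_ne_zero, by rw [one_smul]; exact mem_ball_self hδ⟩ (fY_yh (rep_repY _) z.1)
      obtain ⟨ξ, hξ⟩ := exists_X z1
      have := kill (D i ξ - z.1) fun v hv k' => by
        have e1 : fderiv ℝ (fX ξ) v = fderiv ℝ ζ v :=
          Filter.EventuallyEq.fderiv_eq (mem_of_superset (nz_mem_nhds hv) hξ)
        rw [fY_sub, (H i).2.2.2.1 ξ v hv, hξ v hv, show db (fX ξ) v = db ζ v by
          unfold db; rw [e1], z3 v hv, sub_self]
        rintro ⟨c, hc, m⟩
        exact k' ⟨_, ball_subset_closedBall m, (hU i).inv c hc v hv⟩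
      rw [map_sub, sub_eq_zero] at this
      rw [show z = (z.1, z.2) from rfl, hφ, ← this, ← q1 i ξ]
      congr 1
      exact Finset.sum_congr rfl fun m _ => by rw [hξ _ (mk3_ne m), z2]) fun i => (g i, y i)
  refine ⟨b, ζ, fun i => ⟨congrArg Prod.fst (hb i), fun m => ?_⟩⟩
  have := congrFun (congrArg Prod.snd (hb i)) m
  rw [← hL]
  simpa using this

end Pool.Agent.MP_9758ca_gt

end
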