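import Mathlib.Geometry.Manifold.PartitionOfUnity
import Pool.Agent.MP_9758ca_gt.SpecA

section

/-!
PROJECT BALL, module AMBIENT: from an atlas of coframes and primitives to the ambient setting.
-/

open scoped Topology ContDiff ComplexConjugate
open Set Metric Filter Complex

namespace Pool.Agent.MP_9758ca_gt

noncomputable section

namespace AmbientP

variable {V G : Type} [NormedAddCommGroup V] [NormedSpace ℝ V] [NormedAddCommGroup G]
  [NormedSpace ℝ G]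

/-! ### cut-off functions and gluing -/

open scoped Manifold in
theorem cutoff [FiniteDimensional ℝ V] {K O : Set V} (hK : IsClosed K) (hO : IsOpen O)
    (h : K ⊆ O) : ∃ χ : V → ℝ, ContDiff ℝ ∞ χ ∧ (∀ x ∉ O, ∀ᶠ y in 𝓝 x, χ y = 0) ∧
      ∀ x ∈ K, ∀ᶠ y in 𝓝 x, χ y = 1 := by
  obtain ⟨f, h0, h1, -⟩ := exists_contMDiffMap_zero_one_nhds_of_isClosed 𝓘(ℝ, V) (n := ⊤)
    hO.isClosed_compl hK (disjoint_compl_left_iff_subset.2 h)
  exact ⟨f, f.contMDiff.contDiff, fun x hx => eventually_nhdsSet_iff_forall.1 h0 x hx,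
    fun x hx => eventually_nhdsSet_iff_forall.1 h1 x hx⟩

theorem smul_smooth {χ : V → ℝ} {O : Set V} (hχ : ContDiff ℝ ∞ χ)
    (h0 : ∀ x ∉ O, ∀ᶠ y in 𝓝 x, χ y = 0) {F : V → G} (hF : ∀ x ∈ O, ContDiffAt ℝ ∞ F x) :
    ContDiff ℝ ∞ fun y => χ y • F y := by
  refine contDiff_iff_contDiffAt.2 fun x => ?_
  by_cases hx : x ∈ O
  · exact hχ.contDiffAt.smul (hF x hx)
  · refine (contDiffAt_const (c := (0 : G))).congr_of_eventuallyEq ?_
    filter_upwards [h0 x hx] with y hy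
    rw [hy, zero_smul]

omit [NormedSpace ℝ V] [NormedSpace ℝ G] in
theorem glue {O : Set V} (hO : IsOpen O) {R : V → G → Prop}
    (hu : ∀ x ∈ O, ∀ u v, R x u → R x v → u = v) (he : ∀ x ∈ O, ∃ u, R x u) :
    ∃ F : V → G, (∀ x ∈ O, R x (F x)) ∧
      ∀ x ∈ O, ∀ f : V → G, (∀ᶠ y in 𝓝 x, R y (f y)) → F =ᶠ[𝓝 x] f := by
  choose! F hF using he
  refine ⟨F, hF, fun x hx f hf => ?_⟩
  filter_upwards [hf, hO.mem_nhds hx] with y h1 h2 using hu y h2 _ _ (hF y h2) h1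

omit [NormedSpace ℝ V] [NormedSpace ℝ G] in
theorem eq_of_closure {S : Set V} {x : V} (hx : x ∈ closure S) {f g : V → G}
    (hf : ContinuousAt f x) (hg : ContinuousAt g x) (h : ∀ᶠ y in 𝓝 x, y ∈ S → f y = g y) :
    f x = g x :=
  tendsto_nhds_unique_of_frequently_eq hf hg
    (((mem_closure_iff_frequently.1 hx).and_eventually h).mono fun _ hy => hy.2 hy.1)

theorem top_succ : (∞ : WithTop ℕ∞) + 1 ≤ ∞ := le_of_eq rfl

theorem two_le : (2 : WithTop ℕ∞) ≤ ∞ := WithTop.coe_le_coe.2 (le_top (a := (2 : ℕ∞)))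

theorem diffAt {f : V → G} {x : V} (h : ContDiffAt ℝ ∞ f x) : DifferentiableAt ℝ f x :=
  h.differentiableAt (by simp)

/-! ### local frames -/

/-- smooth local projections onto the tangent spaces -/
theorem exists_proj {S : Set V} (hS : LocRetr S) {x : V} (hx : x ∈ S) :
    ∃ P : V → En0 V, ∀ᶠ y in 𝓝 x, ContDiffAt ℝ ∞ P y ∧
      (y ∈ S → (∀ a, P y a ∈ tan S y) ∧ ∀ a ∈ tan S y, P y a = a) := by
  obtain ⟨N, ρ, hN, hxN, hρ, hm, hf⟩ := hS x hx
  refine ⟨fderiv ℝ ρ, ?_⟩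
  filter_upwards [hN.mem_nhds hxN] with y hy
  have h1 := hρ.contDiffAt (hN.mem_nhds hy)
  have h2 : ∀ᶠ z in 𝓝 y, ρ z ∈ S := by
    filter_upwards [hN.mem_nhds hy] with z hz using hm hz
  refine ⟨h1.fderiv_right top_succ, fun hyS => ⟨fun a => ?_, fun a ha => ?_⟩⟩
  · have := fderiv_mem_tan (diffAt h1) h2 a
    rwa [hf y ⟨hyS, hy⟩] at this
  · refine (mem_tan_iff_retr hyS (diffAt h1) h2 ?_ a).1 ha
    filter_upwards [hN.mem_nhds hy] with z hz hzS using hf z ⟨hzS, hz⟩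

theorem exists_rinv [FiniteDimensional ℝ V] (T : Submodule ℝ V) (η : V →L[ℝ] C3)
    (h : ∀ w, ∃ v ∈ T, η v = w) : ∃ e : C3 →L[ℝ] V, ∀ w, e w ∈ T ∧ η (e w) = w := by
  obtain ⟨g, hg⟩ := (η.toLinearMap.domRestrict T).exists_rightInverse_of_surjective
    (LinearMap.range_eq_top.2 fun w => by
      obtain ⟨v, hv, e⟩ := h w
      exact ⟨⟨v, hv⟩, e⟩)
  exact ⟨LinearMap.toContinuousLinearMap (T.subtype.comp g), fun w =>
    ⟨(g w).2, DFunLike.congr_fun hg w⟩⟩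

theorem finrank_six [FiniteDimensional ℝ V] (T : Submodule ℝ V) (η : V →L[ℝ] C3)
    (h : ∀ w, ∃ v ∈ T, η v = w) (h' : ∀ v ∈ T, η v = 0 → v = 0) : Module.finrank ℝ T = 6 := by
  have hb : Function.Bijective (η.toLinearMap.domRestrict T) := by
    refine ⟨(injective_iff_map_eq_zero _).2 fun v hv => Subtype.ext (h' v v.2 hv), fun w => ?_⟩
    obtain ⟨v, hv, e⟩ := h w
    exact ⟨⟨v, hv⟩, e⟩
  rw [(LinearEquiv.ofBijective _ hb).finrank_eq]
  simp [Module.finrank_pi_fintype]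

/-- a smooth local frame dual to the coframe -/
theorem exists_frame [FiniteDimensional ℝ V] {A : Atl V} {S : Set V} (hS : LocRetr S)
    (hA : A.Pre S) {x : V} (hx : x ∈ S) {i : A.ι} (hi : x ∈ A.U i) :
    ∃ E : V → C3 →L[ℝ] V, ∀ᶠ y in 𝓝 x, ContDiffAt ℝ ∞ E y ∧
      (y ∈ S → ∀ w, E y w ∈ tan S y ∧ A.η i y (E y w) = w) := by
  obtain ⟨P, hP⟩ := exists_proj hS hx
  obtain ⟨e, he⟩ := exists_rinv (tan S x) (A.η i x) (hA.surj i x hx hi)
  let T : V → C3 →L[ℝ] C3 := fun y => (A.η i y).comp ((P y).comp e)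
  have hT : ∀ᶠ y in 𝓝 x, ContDiffAt ℝ ∞ T y := by
    filter_upwards [hP, (hA.op i).mem_nhds hi] with y h1 h2
    exact ((hA.smη i).contDiffAt ((hA.op i).mem_nhds h2)).clm_comp
      (h1.1.clm_comp contDiffAt_const)
  have hTx : T x = (ContinuousLinearEquiv.refl ℝ C3 : C3 →L[ℝ] C3) := by
    refine ContinuousLinearMap.ext fun w => ?_
    change A.η i x (P x (e w)) = w
    rw [(hP.self_of_nhds.2 hx).2 _ (he w).1, (he w).2]
  have hI : ∀ᶠ y in 𝓝 x, T y ∈ range ((↑) : (C3 ≃L[ℝ] C3) → C3 →L[ℝ] C3) :=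
    hT.self_of_nhds.continuousAt.eventually
      (ContinuousLinearEquiv.isOpen.mem_nhds ⟨_, hTx.symm⟩)
  refine ⟨fun y => ((P y).comp e).comp (T y).inverse, ?_⟩
  filter_upwards [hP, hT, hI] with y h1 h2 ⟨L, hL⟩
  refine ⟨(h1.1.clm_comp contDiffAt_const).clm_comp
    (ContDiffAt.comp y (g := ContinuousLinearMap.inverse) (hL ▸ contDiffAt_map_inverse L) h2),
    fun hy w => ⟨(h1.2 hy).1 _, ?_⟩⟩
  change T y ((T y).inverse w) = w
  rw [← hL, ContinuousLinearMap.inverse_equiv]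
  exact L.apply_symm_apply w

/-- multiplication by `I` -/
def mI : C3 →L[ℝ] C3 := (I • ContinuousLinearMap.id ℂ C3).restrictScalars ℝ

theorem mI_apply (w : C3) : mI w = I • w := rfl

/-! ### compatibility passes to the closure -/

theorem dd_cont {l : F1 V} {x : V} (hl : ContDiffAt ℝ ∞ l x) {a b : V → V}
    (ha : ContinuousAt a x) (hb : ContinuousAt b x) :
    ContinuousAt (fun y => dd l y (a y) (b y)) x := by
  have h := (hl.fderiv_right top_succ).continuousAt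
  exact ((h.clm_apply ha).clm_apply hb).sub ((h.clm_apply hb).clm_apply ha)

theorem compat_closure [FiniteDimensional ℝ V] {A : Atl V} {S S₀ : Set V} (hS : LocRetr S)
    (hA : A.Pre S) (h0 : S₀ ⊆ S) (h1 : S ⊆ closure S₀) (hc : ∀ x ∈ S₀, A.CompatAt S x) {x : V}
    (hx : x ∈ S) : A.CompatAt S x := by
  intro i j hi hj a ha b hb
  obtain ⟨P, hP⟩ := exists_proj hS hx
  obtain ⟨E, hE⟩ := exists_frame hS hA hx hi
  have hU : ∀ᶠ y in 𝓝 x, y ∈ A.U i ∧ y ∈ A.U j :=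
    Eventually.and ((hA.op i).mem_nhds hi) ((hA.op j).mem_nhds hj)
  have cP : ∀ v, ContinuousAt (fun y => P y v) x := fun v =>
    hP.self_of_nhds.1.continuousAt.clm_apply continuousAt_const
  have eP := (hP.self_of_nhds.2 hx).2
  have forms : ∀ l : A.ι → F1 V, (∀ k, ContDiffOn ℝ ∞ (l k) (A.U k)) →
      (∀ y ∈ S₀, y ∈ A.U i → y ∈ A.U j → ∀ u ∈ tan S y, ∀ v ∈ tan S y,
        dd (l i) y u v = dd (l j) y u v) → dd (l i) x a b = dd (l j) x a b := fun l hl h => by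
    have := eq_of_closure (h1 hx)
      (dd_cont ((hl i).contDiffAt ((hA.op i).mem_nhds hi)) (cP a) (cP b))
      (dd_cont ((hl j).contDiffAt ((hA.op j).mem_nhds hj)) (cP a) (cP b)) (by
        filter_upwards [hP, hU] with y e1 e2 hy
        exact h y hy e2.1 e2.2 _ ((e1.2 (h0 hy)).1 a) _ ((e1.2 (h0 hy)).1 b))
    rwa [eP a ha, eP b hb] at this
  refine ⟨fun hab => ?_, forms A.l hA.sml fun y hy e1 e2 u hu v hv =>
    (hc y hy i j e1 e2 u hu v hv).2.1, forms A.m hA.smm fun y hy e1 e2 u hu v hv =>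
    (hc y hy i j e1 e2 u hu v hv).2.2⟩
  have ci := ((hA.smη i).contDiffAt ((hA.op i).mem_nhds hi)).continuousAt
  have cj := ((hA.smη j).contDiffAt ((hA.op j).mem_nhds hj)).continuousAt
  have := eq_of_closure (h1 hx) (f := fun y => A.η j y (E y (I • A.η i y (P y a))))
    (g := fun y => I • A.η j y (P y a))
    (cj.clm_apply (hE.self_of_nhds.1.continuousAt.clm_apply
      ((ci.clm_apply (cP a)).const_smul I))) ((cj.clm_apply (cP a)).const_smul I) (by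
      filter_upwards [hP, hU, hE] with y e1 e2 e3 hy
      exact (hc y hy i j e2.1 e2.2 _ ((e1.2 (h0 hy)).1 a) _ (e3.2 (h0 hy) _).1).1
        (e3.2 (h0 hy) _).2)
  simp only [eP a ha] at this
  obtain ⟨m1, m2⟩ := hE.self_of_nhds.2 hx (I • A.η i x a)
  have e : E x (I • A.η i x a) = b := sub_eq_zero.1
    (hA.inj i x hx hi _ (sub_mem m1 hb) (by rw [map_sub, m2, hab, sub_self]))
  rwa [e] at this

/-! ### the global retraction -/

theorem exists_retr [FiniteDimensional ℝ V] {S K : Set V} (hS : LocRetr S) (hK : IsCompact K)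
    (hKS : K ⊆ S) : ∃ π : V → V, ContDiff ℝ ∞ π ∧ (∀ x ∈ S, π x = x) ∧
      ∀ x ∈ K, ∀ᶠ y in 𝓝 x, π y ∈ S := by
  suffices h : ∃ π : V → V, ContDiff ℝ ∞ π ∧ (∀ x ∈ S, π x = x) ∧
      ∀ x ∈ K, x ∈ S → ∀ᶠ y in 𝓝 x, π y ∈ S by
    obtain ⟨π, h1, h2, h3⟩ := h
    exact ⟨π, h1, h2, fun x hx => h3 x hx (hKS hx)⟩
  refine hK.induction_on (p := fun t => ∃ π : V → V, ContDiff ℝ ∞ π ∧ (∀ x ∈ S, π x = x) ∧
    ∀ x ∈ t, x ∈ S → ∀ᶠ y in 𝓝 x, π y ∈ S) ⟨id, contDiff_id, fun _ _ => rfl, by simp⟩ ?_ ?_ ?_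
  · rintro s t hst ⟨π, h1, h2, h3⟩
    exact ⟨π, h1, h2, fun x hx => h3 x (hst hx)⟩
  · rintro s t ⟨π, h1, h2, h3⟩ ⟨π', h1', h2', h3'⟩
    refine ⟨π' ∘ π, h1'.comp h1, fun x hx => by rw [Function.comp_apply, h2 x hx, h2' x hx], ?_⟩
    rintro x (hx | hx) hxS
    · filter_upwards [h3 x hx hxS] with y hy
      rwa [Function.comp_apply, h2' _ hy]
    · have : Tendsto π (𝓝 x) (𝓝 x) := by
        have := h1.continuous.tendsto x
        rwa [h2 x hxS] at this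
      exact this.eventually (h3' x hx hxS)
  · intro x hx
    obtain ⟨N, ρ, hN, hxN, hρ, hm, hf⟩ := hS x (hKS hx)
    obtain ⟨χ, c1, c2, c3⟩ := cutoff (isClosed_singleton (x := x)) hN (singleton_subset_iff.2 hxN)
    have hev : ∀ᶠ y in 𝓝 x, χ y = 1 ∧ y ∈ N := (c3 x rfl).and (hN.mem_nhds hxN)
    refine ⟨{z | ∀ᶠ y in 𝓝 z, χ y = 1 ∧ y ∈ N}, mem_nhdsWithin_of_mem_nhds hev.eventually_nhds,
      fun y => y + χ y • (ρ y - y), contDiff_id.add (smul_smooth c1 c2 fun y hy =>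
        (hρ.contDiffAt (hN.mem_nhds hy)).sub contDiffAt_id), fun y hy => ?_, fun z hz _ => ?_⟩
    · by_cases hyN : y ∈ N
      · simp [hf y ⟨hy, hyN⟩]
      · simp [(c2 y hyN).self_of_nhds]
    · filter_upwards [hz] with y hy
      simpa [hy.1] using hm hy.2

/-! ### the two-forms -/

/-- the exterior derivative as a bilinear map -/
def bil (l : F1 V) : F2 V := fun x => fderiv ℝ l x - (fderiv ℝ l x).flip

theorem bil_apply (l : F1 V) (x a b : V) : bil l x a b = dd l x a b := rfl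

theorem bil_smooth {l : F1 V} {x : V} (hl : ContDiffAt ℝ ∞ l x) : ContDiffAt ℝ ∞ (bil l) x := by
  have h := hl.fderiv_right top_succ
  let L : (V →L[ℝ] V →L[ℝ] ℝ) →L[ℝ] (V →L[ℝ] V →L[ℝ] ℝ) :=
    (ContinuousLinearMap.flipₗᵢ ℝ V V ℝ).toContinuousLinearEquiv.toContinuousLinearMap
  have h1 := ContinuousLinearMap.contDiff (𝕜 := ℝ) (n := ∞) (E := V →L[ℝ] V →L[ℝ] ℝ)
    (F := V →L[ℝ] V →L[ℝ] ℝ) L
  have h2 := h1.contDiffAt.comp x h
  exact h.sub h2

theorem fderiv_apply₂ {β : F2 V} {x : V} (h : DifferentiableAt ℝ β x) (a b c : V) :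
    fderiv ℝ β x a b c = fderiv ℝ (fun y => β y b c) x a := by
  have h1 := (h.hasFDerivAt.clm_apply (hasFDerivAt_const b x)).clm_apply (hasFDerivAt_const c x)
  rw [h1.fderiv]
  simp

theorem bil_closed {l : F1 V} {x : V} (hl : ContDiffAt ℝ ∞ l x) (a b c : V) :
    fderiv ℝ (bil l) x a b c + fderiv ℝ (bil l) x b c a + fderiv ℝ (bil l) x c a b = 0 := by
  have h := diffAt (bil_smooth hl)
  rw [fderiv_apply₂ h, fderiv_apply₂ h, fderiv_apply₂ h]
  exact dd_closed (hl.of_le two_le) a b c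

section

variable {S O₀ O₁ : Set V} {π : V → V} {χ : V → ℝ}

theorem exists_form {ι : Type} {U : ι → Set V} (hU : ∀ i, IsOpen (U i))
    (hcov : ∀ x ∈ S, ∃ i, x ∈ U i) {l : ι → F1 V} (hl : ∀ i, ContDiffOn ℝ ∞ (l i) (U i))
    (hc : ∀ x ∈ S, ∀ i j, x ∈ U i → x ∈ U j → ∀ a ∈ tan S x, ∀ b ∈ tan S x,
      dd (l i) x a b = dd (l j) x a b)
    (hπ : ContDiff ℝ ∞ π) (hO : IsOpen O₀) (hm : ∀ x ∈ O₀, π x ∈ S) (hχ : ContDiff ℝ ∞ χ)
    (h0 : ∀ x ∉ O₀, ∀ᶠ y in 𝓝 x, χ y = 0) (h1 : ∀ x ∈ O₁, x ∈ O₀ ∧ ∀ᶠ y in 𝓝 x, χ y = 1) :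
    ∃ om : F2 V, ContDiff ℝ ∞ om ∧ Anti om ∧ ClosedOn om O₁ ∧ ∀ x ∈ O₁, ∀ i, π x ∈ U i →
      ∀ a b, om x a b = dd (l i) (π x) (fderiv ℝ π x a) (fderiv ℝ π x b) := by
  let R : V → (V →L[ℝ] V →L[ℝ] ℝ) → Prop := fun x β => ∀ i, π x ∈ U i →
    ∀ a b, β a b = dd (l i) (π x) (fderiv ℝ π x a) (fderiv ℝ π x b)
  have hloc : ∀ x ∈ O₀, ∃ l' : F1 V, ContDiffAt ℝ ∞ l' x ∧ ∀ᶠ y in 𝓝 x, R y (bil l' y) := by
    intro x hx
    obtain ⟨i, hi⟩ := hcov _ (hm x hx)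
    refine ⟨pb π (l i), contDiffAt_pb (n := ⊤) (hπ.contDiffAt.of_le top_succ)
      ((hl i).contDiffAt ((hU i).mem_nhds hi)), ?_⟩
    filter_upwards [hO.mem_nhds hx, hπ.continuous.continuousAt.eventually ((hU i).mem_nhds hi)]
      with y e1 e2 j hj a b
    have ht : ∀ v, fderiv ℝ π y v ∈ tan S (π y) := fderiv_mem_tan (diffAt hπ.contDiffAt)
      (by filter_upwards [hO.mem_nhds e1] with z hz using hm z hz)
    rw [bil_apply, dd_pb (hπ.contDiffAt.of_le two_le)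
      (diffAt ((hl i).contDiffAt ((hU i).mem_nhds e2)))]
    exact hc _ (hm y e1) i j e2 hj _ (ht a) _ (ht b)
  obtain ⟨F, hF, hF'⟩ := glue hO (R := R) (fun x hx u v hu hv => by
      obtain ⟨i, hi⟩ := hcov _ (hm x hx)
      exact ContinuousLinearMap.ext fun a => ContinuousLinearMap.ext fun b =>
        (hu i hi a b).trans (hv i hi a b).symm)
    fun x hx => by
      obtain ⟨l', -, h⟩ := hloc x hx
      exact ⟨_, h.self_of_nhds⟩
  refine ⟨fun y => χ y • F y, smul_smooth hχ h0 fun x hx => ?_, fun x a b => ?_,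
    fun x hx a b c => ?_, fun x hx i hi a b => ?_⟩
  · obtain ⟨l', e1, e2⟩ := hloc x hx
    exact (bil_smooth e1).congr_of_eventuallyEq (hF' x hx _ e2)
  · change χ x * F x a b = -(χ x * F x b a)
    by_cases hx : x ∈ O₀
    · obtain ⟨i, hi⟩ := hcov _ (hm x hx)
      rw [hF x hx i hi, hF x hx i hi, dd_anti, mul_neg]
    · rw [(h0 x hx).self_of_nhds, zero_mul, zero_mul, neg_zero]
  · obtain ⟨l', e1, e2⟩ := hloc x (h1 x hx).1
    have : (fun y => χ y • F y) =ᶠ[𝓝 x] bil l' := by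
      filter_upwards [hF' x (h1 x hx).1 _ e2, (h1 x hx).2] with y e3 e4
      rw [e4, one_smul, e3]
    rw [this.fderiv_eq]
    exact bil_closed e1 a b c
  · change χ x * F x a b = _
    rw [(h1 x hx).2.self_of_nhds, one_mul, hF x (h1 x hx).1 i hi]

/-! ### the almost complex structure -/

theorem exists_cx [FiniteDimensional ℝ V] {A : Atl V} (hS : LocRetr S) (hA : A.Pre S)
    (hc : ∀ x ∈ S, A.CompatAt S x) (hπ : ContDiff ℝ ∞ π) (hO : IsOpen O₀)
    (hm : ∀ x ∈ O₀, π x ∈ S) (hχ : ContDiff ℝ ∞ χ) (h0 : ∀ x ∉ O₀, ∀ᶠ y in 𝓝 x, χ y = 0)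
    (h1 : ∀ x ∈ O₁, x ∈ O₀ ∧ ∀ᶠ y in 𝓝 x, χ y = 1) :
    ∃ J : V → En0 V, ContDiff ℝ ∞ J ∧ ∀ x ∈ O₁, ∀ a, J x a ∈ tan S (π x) ∧
      ∀ i, π x ∈ A.U i → A.η i (π x) (J x a) = I • A.η i (π x) (fderiv ℝ π x a) := by
  let R : V → En0 V → Prop := fun x L => ∀ a, L a ∈ tan S (π x) ∧
    ∀ i, π x ∈ A.U i → A.η i (π x) (L a) = I • A.η i (π x) (fderiv ℝ π x a)
  have hloc : ∀ x ∈ O₀, ∃ f : V → En0 V, ContDiffAt ℝ ∞ f x ∧ ∀ᶠ y in 𝓝 x, R y (f y) := by
    intro x hx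
    obtain ⟨i, hi⟩ := hA.cov _ (hm x hx)
    obtain ⟨E, hE⟩ := exists_frame hS hA (hm x hx) hi
    refine ⟨fun y => (E (π y)).comp (mI.comp ((A.η i (π y)).comp (fderiv ℝ π y))),
      (hE.self_of_nhds.1.comp x hπ.contDiffAt).clm_comp (contDiffAt_const.clm_comp
        ((((hA.smη i).contDiffAt ((hA.op i).mem_nhds hi)).comp x hπ.contDiffAt).clm_comp
          (hπ.contDiffAt.fderiv_right top_succ))), ?_⟩
    filter_upwards [hO.mem_nhds hx, hπ.continuous.continuousAt.eventually ((hA.op i).mem_nhds hi),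
      hπ.continuous.continuousAt.eventually hE] with y e1 e2 e3 a
    have ht : fderiv ℝ π y a ∈ tan S (π y) := fderiv_mem_tan (diffAt hπ.contDiffAt)
      (by filter_upwards [hO.mem_nhds e1] with z hz using hm z hz) a
    obtain ⟨m1, m2⟩ := e3.2 (hm y e1) (I • A.η i (π y) (fderiv ℝ π y a))
    exact ⟨m1, fun j hj => (hc _ (hm y e1) i j e2 hj _ ht _ m1).1 m2⟩
  obtain ⟨F, hF, hF'⟩ := glue hO (R := R) (fun x hx u v hu hv => by
      obtain ⟨i, hi⟩ := hA.cov _ (hm x hx)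
      refine ContinuousLinearMap.ext fun a => sub_eq_zero.1
        (hA.inj i _ (hm x hx) hi _ (sub_mem (hu a).1 (hv a).1) ?_)
      rw [map_sub, (hu a).2 i hi, (hv a).2 i hi, sub_self])
    fun x hx => by
      obtain ⟨f, -, h⟩ := hloc x hx
      exact ⟨_, h.self_of_nhds⟩
  refine ⟨fun y => χ y • F y, smul_smooth hχ h0 fun x hx => ?_, fun x hx => ?_⟩
  · obtain ⟨f, e1, e2⟩ := hloc x hx
    exact e1.congr_of_eventuallyEq (hF' x hx _ e2)
  · simp only [(h1 x hx).2.self_of_nhds, one_smul]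
    exact hF x (h1 x hx).1

end

end AmbientP

open AmbientP in
theorem ambient : AmbientStmt := by
  intro V _ _ _ A S hS hA
  refine ⟨fun S₀ h0 h1 hc x hx => compat_closure hS hA h0 h1 hc hx, fun hc K hK hKS => ?_⟩
  obtain ⟨π, hπ, hfix, hnear⟩ := exists_retr hS hK hKS
  let O₀ : Set V := {x | ∀ᶠ y in 𝓝 x, π y ∈ S}
  have hO₀ : IsOpen O₀ := isOpen_setOfPred_eventually_nhds
  have hm : ∀ x ∈ O₀, π x ∈ S := fun x hx =>
    Eventually.self_of_nhds (p := fun y => π y ∈ S) hx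
  obtain ⟨χ, hχ, h0, hχ1⟩ := cutoff hK.isClosed hO₀ hnear
  let O₁ : Set V := O₀ ∩ {x | ∀ᶠ y in 𝓝 x, χ y = 1}
  have hO₁ : IsOpen O₁ := hO₀.inter isOpen_setOfPred_eventually_nhds
  have h1 : ∀ x ∈ O₁, x ∈ O₀ ∧ ∀ᶠ y in 𝓝 x, χ y = 1 := fun x hx => hx
  obtain ⟨om, o1, o2, o3, o4⟩ := exists_form hA.op hA.cov hA.sml
    (fun x hx i j hi hj a ha b hb => (hc x hx i j hi hj a ha b hb).2.1) hπ hO₀ hm hχ h0 h1
  obtain ⟨h, p1, p2, p3, p4⟩ := exists_form hA.op hA.cov hA.smm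
    (fun x hx i j hi hj a ha b hb => (hc x hx i j hi hj a ha b hb).2.2) hπ hO₀ hm hχ h0 h1
  obtain ⟨J, j1, j2⟩ := exists_cx hS hA hc hπ hO₀ hm hχ h0 h1
  have hrel : ∀ x ∈ S ∩ O₁, ∀ᶠ y in 𝓝 x, y ∈ S → y ∈ S ∩ O₁ := fun x hx => by
    filter_upwards [hO₁.mem_nhds hx.2] with y e1 e2 using ⟨e2, e1⟩
  have htan : ∀ x ∈ S ∩ O₁, tan (S ∩ O₁) x = tan S x := fun x hx =>
    tan_congr ((hrel x hx).mono fun y hy => ⟨fun e => e.1, hy⟩)
  have hP : ∀ x ∈ S ∩ O₁, ∀ a ∈ tan S x, fderiv ℝ π x a = a := fun x hx a ha =>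
    (mem_tan_iff_retr hx.1 (diffAt hπ.contDiffAt) hx.2.1 (Eventually.of_forall hfix) a).1 ha
  have hcx : ∀ x ∈ S ∩ O₁, ∀ a ∈ tan S x, J x a ∈ tan S x ∧
      ∀ i, x ∈ A.U i → A.η i x (J x a) = I • A.η i x a := fun x hx a ha => by
    have := j2 x hx.2 a
    rwa [hfix x hx.1, hP x hx a ha] at this
  refine ⟨O₁ ∩ π ⁻¹' O₁, S ∩ O₁, π, om, h, J,
    { op := hO₁.inter (hO₁.preimage hπ.continuous)
      sm := hπ
      sub := fun x hx => ⟨hx.2, by rw [mem_preimage, hfix x hx.1]; exact hx.2⟩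
      maps := fun x hx => ⟨hm x hx.1.1, hx.2⟩
      fix := fun x hx => hfix x hx.1
      dim := fun x hx => ?_
      smo := o1
      ano := o2
      clo := fun x hx => o3 x hx.1
      smh := p1
      anh := p2
      clh := fun x hx => p3 x hx.1 },
    fun x hx => ⟨hKS hx, hnear x hx, hχ1 x hx⟩, j1, fun x hx v hv => ?_,
    { sub := inter_subset_left
      rel := hrel
      form := fun i x hx hi a ha b hb => ?_
      cx := fun i x hx hi a ha => ⟨(hcx x hx a ha).1, (hcx x hx a ha).2 i hi⟩ }⟩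
  · obtain ⟨i, hi⟩ := hA.cov x hx.1
    rw [htan x hx]
    exact finrank_six _ _ (hA.surj i x hx.1 hi) (hA.inj i x hx.1 hi)
  · rw [htan x hx] at hv ⊢
    obtain ⟨i, hi⟩ := hA.cov x hx.1
    obtain ⟨a1, a2⟩ := hcx x hx v hv
    obtain ⟨b1, b2⟩ := hcx x hx _ a1
    refine ⟨a1, eq_neg_of_add_eq_zero_left (hA.inj i x hx.1 hi _ (add_mem b1 hv) ?_)⟩
    rw [map_add, b2 i hi, a2 i hi, smul_smul, I_mul_I, neg_one_smul, neg_add_cancel]
  · have e1 := o4 x hx.2 i (by rwa [hfix x hx.1]) a b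
    have e2 := p4 x hx.2 i (by rwa [hfix x hx.1]) a b
    rw [hfix x hx.1, hP x hx a ha, hP x hx b hb] at e1 e2
    exact ⟨e1, e2⟩

end

end Pool.Agent.MP_9758ca_gt

end

section

/-!
PROJECT BALL, module MANIFOLD: a compact connected local retract of dimension six with a locally
exact nondegenerate two-form is a closed symplectic manifold.
-/

open scoped Topology ContDiff Manifold
open Set Metric Filter

namespace Pool.Agent.MP_9758ca_gt

noncomputable section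

namespace ManifoldP

section Local
variable {V : Type} [NormedAddCommGroup V] [NormedSpace ℝ V]

/-- a local parametrisation of `S` near `x` whose inverse is the restriction of a linear map -/
structure Loc (S : Set V) (x : V) where
  f : V →L[ℝ] E6
  p : E6 → V
  N : Set V
  W : Set E6
  opN : IsOpen N
  opW : IsOpen W
  mem : x ∈ N
  sm : ContDiffOn ℝ ∞ p W
  right : ∀ w ∈ W, p w ∈ S ∩ N ∧ f (p w) = w
  left : ∀ y ∈ S ∩ N, f y ∈ W ∧ p (f y) = y

/-- the derivative of a retraction is injective on nearby differences of points of `S` -/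
theorem inj_ball {S N : Set V} {ρ : V → V} {x : V} (hN : IsOpen N) (hx : x ∈ N)
    (hρ : ContDiffOn ℝ ∞ ρ N) (hf : ∀ y ∈ S ∩ N, ρ y = y) :
    ∃ δ > 0, ball x δ ⊆ N ∧ ∀ y ∈ S ∩ ball x δ, ∀ z ∈ S ∩ ball x δ,
      fderiv ℝ ρ x (y - z) = 0 → y = z := by
  have hc : ContinuousOn (fderiv ℝ ρ) N := hρ.continuousOn_fderiv_of_isOpen hN (by simp)
  have h1 : ∀ᶠ y in 𝓝 x, y ∈ N ∧ dist (fderiv ℝ ρ y) (fderiv ℝ ρ x) < 1 / 2 :=
    (hN.eventually_mem hx).and
      (Metric.tendsto_nhds.1 (hc.continuousAt (hN.mem_nhds hx)) _ (by norm_num))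
  obtain ⟨δ, hδ, h2⟩ := Metric.eventually_nhds_iff_ball.1 h1
  refine ⟨δ, hδ, fun y hy => (h2 y hy).1, fun y hy z hz h0 => ?_⟩
  have h3 := (convex_ball x δ).norm_image_sub_le_of_norm_fderiv_le' (𝕜 := ℝ) (f := ρ)
    (C := 1 / 2) (φ := fderiv ℝ ρ x)
    (fun w hw => (hρ.contDiffAt (hN.mem_nhds (h2 w hw).1)).differentiableAt (by simp))
    (fun w hw => by
      have h4 := (h2 w hw).2
      rw [dist_eq_norm] at h4
      exact h4.le) hz.2 hy.2
  rw [h0, hf y ⟨hy.1, (h2 y hy.2).1⟩, hf z ⟨hz.1, (h2 z hz.2).1⟩, sub_zero] at h3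
  have : ‖y - z‖ = 0 := by linarith [norm_nonneg (y - z)]
  exact sub_eq_zero.1 (norm_eq_zero.1 this)

/-- smooth local inverse of a map with derivative the identity -/
theorem loc_inv {g : E6 → E6} {U : Set E6} (hU : IsOpen U) (h0 : (0 : E6) ∈ U)
    (hg : ContDiffOn ℝ ∞ g U) (hd : HasFDerivAt g (ContinuousLinearMap.id ℝ E6) 0) :
    ∃ (T : Set E6) (s : E6 → E6), IsOpen T ∧ g 0 ∈ T ∧ s (g 0) = 0 ∧ ContDiffOn ℝ ∞ s T ∧
      ∀ w ∈ T, s w ∈ U ∧ g (s w) = w := by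
  have hga : ∀ q ∈ U, ContDiffAt ℝ ∞ g q := fun q hq => hg.contDiffAt (hU.mem_nhds hq)
  have hd' : HasFDerivAt g ((ContinuousLinearEquiv.refl ℝ E6 : E6 ≃L[ℝ] E6) : E6 →L[ℝ] E6) 0 := hd
  let e := (hga 0 h0).toOpenPartialHomeomorph g hd' (by simp)
  have he : (e : E6 → E6) = g := rfl
  have hsrc : (0 : E6) ∈ e.source := (hga 0 h0).mem_toOpenPartialHomeomorph_source hd' (by simp)
  have hcont : ContinuousOn (fderiv ℝ g) U := hg.continuousOn_fderiv_of_isOpen hU (by simp)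
  let U₁ : Set E6 := U ∩ fderiv ℝ g ⁻¹' range ((↑) : (E6 ≃L[ℝ] E6) → E6 →L[ℝ] E6)
  have hU₁ : IsOpen U₁ := hcont.isOpen_inter_preimage hU ContinuousLinearEquiv.isOpen
  have hq₁ : (0 : E6) ∈ U₁ := ⟨h0, _, hd'.fderiv.symm⟩
  have hsy0 : e.symm (g 0) = 0 := e.left_inv hsrc
  refine ⟨e.target ∩ e.symm ⁻¹' U₁, e.symm,
    e.continuousOn_symm.isOpen_inter_preimage e.open_target hU₁, ⟨e.map_source hsrc, ?_⟩, hsy0,
    ?_, fun w hw => ⟨hw.2.1, e.right_inv hw.1⟩⟩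
  · show e.symm (g 0) ∈ U₁
    rwa [hsy0]
  · rintro z ⟨hz, hz1, f, hf⟩
    refine (e.contDiffAt_symm (f₀' := f) hz ?_ (hga _ hz1)).contDiffWithinAt
    rw [hf]
    exact ((hga _ hz1).differentiableAt (by simp)).hasFDerivAt

theorem exists_loc [FiniteDimensional ℝ V] {S : Set V} (hS : LocRetr S) {x : V} (hx : x ∈ S)
    (hd : Module.finrank ℝ (tan S x) = 6) : Nonempty (Loc S x) := by
  obtain ⟨N, ρ, hN, hxN, hρ, hm, hf⟩ := hS x hx
  have hρx : ρ x = x := hf x ⟨hx, hxN⟩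
  have hρd : DifferentiableAt ℝ ρ x := (hρ.contDiffAt (hN.mem_nhds hxN)).differentiableAt (by simp)
  have h1 : ∀ᶠ y in 𝓝 x, ρ y ∈ S := by
    filter_upwards [hN.mem_nhds hxN] with y hy using hm hy
  have h2 : ∀ᶠ y in 𝓝 x, y ∈ S → ρ y = y := by
    filter_upwards [hN.mem_nhds hxN] with y hy hyS using hf y ⟨hyS, hy⟩
  have hT := mem_tan_iff_retr hx hρd h1 h2
  have hPm : ∀ w, fderiv ℝ ρ x w ∈ tan S x := fun w => by
    have := fderiv_mem_tan hρd h1 w
    rwa [hρx] at this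
  have hd' : Module.finrank ℝ (tan S x) = Module.finrank ℝ E6 := by
    rw [hd]; simp
  let e := ContinuousLinearEquiv.ofFinrankEq hd'
  let P : V →L[ℝ] tan S x := (fderiv ℝ ρ x).codRestrict _ hPm
  have hP : ∀ v (hv : v ∈ tan S x), P v = ⟨v, hv⟩ := fun v hv => Subtype.ext ((hT v).1 hv)
  let f : V →L[ℝ] E6 := (e : tan S x →L[ℝ] E6).comp P
  let ε : E6 →L[ℝ] V := (tan S x).subtypeL.comp (e.symm : E6 →L[ℝ] tan S x)
  have hεm : ∀ w, ε w ∈ tan S x := fun w => (e.symm w).2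
  have hfε : ∀ w, f (ε w) = w := fun w => by
    show e (P (ε w)) = w
    rw [hP _ (hεm w)]
    exact e.apply_symm_apply w
  let a : E6 → V := fun w => x + ε w
  have ha : ContDiff ℝ ∞ a := contDiff_const.add ε.contDiff
  have ha0 : a 0 = x := by simp [a]
  have had : HasFDerivAt a ε 0 := ε.hasFDerivAt.const_add x
  have hU : IsOpen (a ⁻¹' N) := hN.preimage ha.continuous
  have hρa : ContDiffOn ℝ ∞ (fun w => ρ (a w)) (a ⁻¹' N) :=
    hρ.comp ha.contDiffOn fun w hw => hw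
  have hgd : HasFDerivAt (fun w => f (ρ (a w))) (ContinuousLinearMap.id ℝ E6) 0 := by
    have h3 : HasFDerivAt ρ (fderiv ℝ ρ x) (a 0) := by rw [ha0]; exact hρd.hasFDerivAt
    refine (f.hasFDerivAt.comp 0 (h3.comp 0 had)).congr_fderiv ?_
    ext1 w
    show f (fderiv ℝ ρ x (ε w)) = w
    rw [(hT _).1 (hεm w), hfε]
  obtain ⟨T, s, hTo, hT0, hs0, hs, hT1⟩ := loc_inv (g := fun w => f (ρ (a w))) hU
    (by show a 0 ∈ N; rwa [ha0]) (f.contDiff.comp_contDiffOn hρa) hgd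
  simp only [ha0, hρx] at hT0 hs0
  obtain ⟨δ, hδ, hb, hinj⟩ := inj_ball hN hxN hρ hf
  let p : E6 → V := fun w => ρ (a (s w))
  have hp : ContDiffOn ℝ ∞ p T := hρa.comp hs fun w hw => (hT1 w hw).1
  have hW : IsOpen (T ∩ p ⁻¹' ball x δ) :=
    hp.continuousOn.isOpen_inter_preimage hTo isOpen_ball
  have hpS : ∀ w ∈ T, p w ∈ S := fun w hw => hm (hT1 w hw).1
  have hfp : ∀ w ∈ T, f (p w) = w := fun w hw => (hT1 w hw).2
  refine ⟨⟨f, p, ball x δ ∩ f ⁻¹' (T ∩ p ⁻¹' ball x δ), T ∩ p ⁻¹' ball x δ,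
    isOpen_ball.inter (hW.preimage f.continuous), hW, ⟨mem_ball_self hδ, hT0, ?_⟩,
    hp.mono inter_subset_left, fun w hw => ⟨⟨hpS w hw.1, hw.2, ?_⟩, hfp w hw.1⟩,
    fun y hy => ⟨hy.2.2, ?_⟩⟩⟩
  · show ρ (a (s (f x))) ∈ ball x δ
    rw [hs0, ha0, hρx]
    exact mem_ball_self hδ
  · show f (p w) ∈ T ∩ p ⁻¹' ball x δ
    rwa [hfp w hw.1]
  · refine hinj _ ⟨hpS _ hy.2.2.1, hy.2.2.2⟩ _ ⟨hy.1, hy.2.1⟩ ?_
    have h5 : e (P (p (f y))) = e (P y) := hfp _ hy.2.2.1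
    have h6 : P (p (f y) - y) = 0 := by rw [map_sub, e.injective h5, sub_self]
    exact congrArg Subtype.val h6

open Classical in
/-- the inverse chart -/
def Loc.inv {S : Set V} {x : S} (L : Loc S x) (w : E6) : S :=
  if h : L.p w ∈ S then ⟨L.p w, h⟩ else x

theorem Loc.inv_val {S : Set V} {x : S} (L : Loc S x) {w : E6} (hw : w ∈ L.W) :
    (L.inv w : V) = L.p w := by
  simp only [Loc.inv, dif_pos (L.right w hw).1.1]

/-- the chart of `S` -/
def Loc.chart {S : Set V} {x : S} (L : Loc S x) : OpenPartialHomeomorph S E6 where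
  toFun y := L.f y
  invFun := L.inv
  source := Subtype.val ⁻¹' L.N
  target := L.W
  map_source' y hy := (L.left y ⟨y.2, hy⟩).1
  map_target' w hw := by
    show (L.inv w : V) ∈ L.N
    rw [L.inv_val hw]
    exact (L.right w hw).1.2
  left_inv' y hy := Subtype.ext (by
    rw [L.inv_val (L.left y ⟨y.2, hy⟩).1]
    exact (L.left y ⟨y.2, hy⟩).2)
  right_inv' w hw := by
    show L.f (L.inv w : V) = w
    rw [L.inv_val hw]
    exact (L.right w hw).2
  open_source := L.opN.preimage continuous_subtype_val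
  open_target := L.opW
  continuousOn_toFun := (L.f.continuous.comp continuous_subtype_val).continuousOn
  continuousOn_invFun := by
    refine Topology.IsInducing.subtypeVal.continuousOn_iff.2 ?_
    exact L.sm.continuousOn.congr fun w hw => L.inv_val hw

/-- the atlas of `S` -/
@[reducible] def cs {S : Set V} (L : ∀ x : S, Loc S x) : ChartedSpace E6 S where
  atlas := range fun x => (L x).chart
  chartAt x := (L x).chart
  mem_chart_source x := (L x).mem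
  chart_mem_atlas x := ⟨x, rfl⟩

theorem cs_mfd {S : Set V} (L : ∀ x : S, Loc S x) :
    @IsManifold ℝ _ E6 _ _ E6 _ (𝓡 6) ∞ S _ (cs L) := by
  let _ := cs L
  refine isManifold_of_contDiffOn (𝓡 6) ∞ S ?_
  rintro _ _ ⟨x, rfl⟩ ⟨y, rfl⟩
  simp only [mfld_simps]
  have h1 : ContDiffOn ℝ ∞ (fun w => (L y).f ((L x).p w)) (L x).W :=
    (L y).f.contDiff.comp_contDiffOn (L x).sm
  refine (h1.mono inter_subset_left).congr fun w hw => ?_
  show (L y).f ((L x).inv w : V) = _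
  rw [(L x).inv_val hw.1]

/-- the closed manifold -/
def mfd {S : Set V} (hc : IsCompact S) (hn : IsConnected S) (L : ∀ x : S, Loc S x) :
    ClosedMfd 6 :=
  @ClosedMfd.mk 6 S _ (cs L) (cs_mfd L) _ (isCompact_iff_compactSpace.1 hc)
    (isConnected_iff_connectedSpace.1 hn)

/-- embedding in `V` whose charts are restrictions of linear maps -/
structure Emb (M : ClosedMfd 6) (ι : M.carrier → V) : Prop where
  ind : Topology.IsInducing ι
  inj : Function.Injective ι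
  sm : ∀ x : M.carrier, ContDiffOn ℝ ∞ (ι ∘ (chartAt E6 x).symm) (chartAt E6 x).target
  lin : ∀ x : M.carrier, ∃ f : V →L[ℝ] E6, ∀ y, chartAt E6 x y = f (ι y)

theorem exists_emb [FiniteDimensional ℝ V] {S : Set V} (hc : IsCompact S) (hn : IsConnected S)
    (hS : LocRetr S) (hd : ∀ x ∈ S, Module.finrank ℝ (tan S x) = 6) :
    ∃ (M : ClosedMfd 6) (ι : M.carrier → V), Emb M ι ∧ range ι = S := by
  have L : ∀ x : S, Loc S x := fun x => (exists_loc hS x.2 (hd x x.2)).some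
  refine ⟨mfd hc hn L, Subtype.val, ⟨Topology.IsInducing.subtypeVal, Subtype.val_injective,
    fun x => ?_, fun x => ⟨(L x).f, fun y => rfl⟩⟩, Subtype.range_coe⟩
  exact (L x).sm.congr fun w hw => (L x).inv_val hw

end Local

section Forms
variable {E : Type} [NormedAddCommGroup E] [NormedSpace ℝ E]

/-- a one-form as a field of alternating maps -/
def one (l : F1 E) (y : E) : E [⋀^Fin 1]→L[ℝ] ℝ :=
  ContinuousAlternatingMap.ofSubsingletonLIE (𝕜 := ℝ) (E := E) (F := ℝ) (0 : Fin 1) (l y)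

theorem one_contDiffAt {l : F1 E} {y : E} (hl : ContDiffAt ℝ ∞ l y) :
    ContDiffAt ℝ ∞ (one l) y :=
  (ContinuousAlternatingMap.ofSubsingletonLIE (𝕜 := ℝ) (E := E) (F := ℝ)
    (0 : Fin 1)).toContinuousLinearEquiv.contDiff.contDiffAt.comp y hl

theorem one_apply (l : F1 E) (y : E) (v : Fin 1 → E) : one l y v = l y (v 0) := rfl

theorem extDeriv_one {l : F1 E} {y : E} (hl : ContDiffAt ℝ ∞ l y) (a b : E) :
    extDeriv (one l) y ![a, b] = dd l y a b := by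
  have hd : DifferentiableAt ℝ l y := hl.differentiableAt (by simp)
  rw [extDeriv_apply ((one_contDiffAt hl).differentiableAt (by simp)), Fin.sum_univ_two]
  have h : ∀ c d : E, fderiv ℝ (fun z => l z d) y c = fderiv ℝ l y c d := fun c d => by
    rw [fderiv_clm_apply hd (differentiableAt_const d)]
    simp
  simp only [one_apply, dd, ← h]
  simp [Fin.removeNth, sub_eq_add_neg]

theorem extDeriv_contDiffAt {w : E → E [⋀^Fin 1]→L[ℝ] ℝ} {y : E} (hw : ContDiffAt ℝ ∞ w y) :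
    ContDiffAt ℝ ∞ (extDeriv w) y := by
  have h : extDeriv w =
      ContinuousAlternatingMap.alternatizeUncurryFinCLM (n := 1) ℝ E ℝ ∘ fderiv ℝ w := by
    funext z
    simp only [Function.comp_apply, ContinuousAlternatingMap.alternatizeUncurryFinCLM_apply,
      extDeriv]
  rw [h]
  exact (ContinuousAlternatingMap.alternatizeUncurryFinCLM (n := 1) ℝ E ℝ).contDiff.contDiffAt.comp
    y (hw.fderiv_right (m := ∞) (by simp))

theorem alt_ext {A B : E [⋀^Fin 2]→L[ℝ] ℝ} (h : ∀ a b, A ![a, b] = B ![a, b]) : A = B := by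
  ext v
  have : v = ![v 0, v 1] := by
    ext i
    fin_cases i <;> rfl
  rw [this]
  exact h _ _

end Forms

section Main
variable {V : Type} [NormedAddCommGroup V] [NormedSpace ℝ V] {M : ClosedMfd 6}
  {ι : M.carrier → V}

/-- the parametrisation attached to the chart at `x` -/
def par (ι : M.carrier → V) (x : M.carrier) : E6 → V := ι ∘ (chartAt E6 x).symm

theorem Emb.par_at (h : Emb M ι) (x : M.carrier) {w : E6} (hw : w ∈ (chartAt E6 x).target) :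
    ContDiffAt ℝ ∞ (par ι x) w :=
  (h.sm x).contDiffAt ((chartAt E6 x).open_target.mem_nhds hw)

omit [NormedAddCommGroup V] [NormedSpace ℝ V] in
theorem par_self (x : M.carrier) : par ι x (chartAt E6 x x) = ι x := by
  simp [par]

theorem Emb.contMDiff (h : Emb M ι) : ContMDiff (𝓡 6) 𝓘(ℝ, V) ∞ ι := by
  intro x
  rw [contMDiffAt_iff]
  refine ⟨h.ind.continuous.continuousAt, ?_⟩
  simp only [mfld_simps]
  exact (h.par_at x (mem_chart_target E6 x)).contDiffWithinAt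

theorem Emb.mfderiv_eq (h : Emb M ι) (x : M.carrier) :
    mfderiv (𝓡 6) 𝓘(ℝ, V) ι x = fderiv ℝ (par ι x) (chartAt E6 x x) := by
  have h1 : MDifferentiableAt (𝓡 6) 𝓘(ℝ, V) ι x := (h.contMDiff x).mdifferentiableAt (by simp)
  rw [h1.mfderiv]
  simp only [writtenInExtChartAt, mfld_simps, fderivWithin_univ]
  rfl

theorem Emb.comp_symm (h : Emb M ι) (q : M.carrier) {y : E6} (hy : y ∈ (chartAt E6 q).target)
    (a : E6) :
    mfderiv (𝓡 6) 𝓘(ℝ, V) ι ((chartAt E6 q).symm y)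
      (mfderiv (𝓡 6) (𝓡 6) (chartAt E6 q).symm y a) = fderiv ℝ (par ι q) y a := by
  have h1 : MDifferentiableAt (𝓡 6) 𝓘(ℝ, V) ι ((chartAt E6 q).symm y) :=
    (h.contMDiff _).mdifferentiableAt (by simp)
  have h2 : MDifferentiableAt (𝓡 6) (𝓡 6) (chartAt E6 q).symm y :=
    mdifferentiableAt_atlas_symm (chart_mem_atlas E6 q) hy
  have h3 := mfderiv_comp y h1 h2
  rw [mfderiv_eq_fderiv] at h3
  exact (DFunLike.congr_fun h3 a).symm

theorem par_tan {q : M.carrier} {y : E6} (hd : DifferentiableAt ℝ (par ι q) y) (a : E6) :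
    fderiv ℝ (par ι q) y a ∈ tan (range ι) (par ι q y) :=
  fderiv_mem_tan (S := range ι) hd
    (Eventually.of_forall fun w => ⟨(chartAt E6 q).symm w, rfl⟩) a

/-- near a point of a chart the pull-back of `Ω` is the derivative of a smooth one-form -/
theorem Emb.local_form (h : Emb M ι) {Ω : V → V → V → ℝ}
    (hl : ∀ x ∈ range ι, ∃ (N : Set V) (l : F1 V), IsOpen N ∧ x ∈ N ∧ ContDiffOn ℝ ∞ l N ∧
      ∀ y ∈ range ι ∩ N, ∀ a ∈ tan (range ι) y, ∀ b ∈ tan (range ι) y, Ω y a b = dd l y a b)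
    (q : M.carrier) {y : E6} (hy : y ∈ (chartAt E6 q).target) :
    ∃ w : E6 → E6 [⋀^Fin 1]→L[ℝ] ℝ, ContDiffAt ℝ ∞ w y ∧ ∀ᶠ z in 𝓝 y, ∀ a b,
      extDeriv w z ![a, b] =
        Ω (par ι q z) (fderiv ℝ (par ι q) z a) (fderiv ℝ (par ι q) z b) := by
  obtain ⟨N, l, hN, hyN, hsm, he⟩ := hl (par ι q y) (mem_range_self _)
  have key : ∀ z ∈ (chartAt E6 q).target, par ι q z ∈ N → ContDiffAt ℝ ∞ (pb (par ι q) l) z :=
    fun z hz hzN => contDiffAt_pb (n := ⊤) (h.par_at q hz) (hsm.contDiffAt (hN.mem_nhds hzN))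
  refine ⟨one (pb (par ι q) l), one_contDiffAt (key y hy hyN), ?_⟩
  filter_upwards [(chartAt E6 q).open_target.mem_nhds hy,
    (h.par_at q hy).continuousAt.preimage_mem_nhds (hN.mem_nhds hyN)] with z hz hzN a b
  have hd : DifferentiableAt ℝ (par ι q) z := (h.par_at q hz).differentiableAt (by simp)
  rw [extDeriv_one (key z hz hzN), dd_pb ((h.par_at q hz).of_le two_le_infty)
    ((hsm.contDiffAt (hN.mem_nhds hzN)).differentiableAt (by simp)),
    he (par ι q z) ⟨mem_range_self _, hzN⟩ _ (par_tan hd a) _ (par_tan hd b)]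

theorem Emb.nondeg (h : Emb M ι) {Ω : V → V → V → ℝ}
    (hn : ∀ x ∈ range ι, ∀ a ∈ tan (range ι) x, a ≠ 0 → ∃ b ∈ tan (range ι) x, Ω x a b ≠ 0)
    (x : M.carrier) (v : E6)
    (hv : ∀ w : E6, Ω (ι x) (fderiv ℝ (par ι x) (chartAt E6 x x) v)
      (fderiv ℝ (par ι x) (chartAt E6 x x) w) = 0) : v = 0 := by
  obtain ⟨f, hf⟩ := h.lin x
  have hx := mem_chart_target E6 x
  have hd : DifferentiableAt ℝ (par ι x) (chartAt E6 x x) :=
    (h.par_at x hx).differentiableAt (by simp)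
  have h1 : ∀ u, f (fderiv ℝ (par ι x) (chartAt E6 x x) u) = u := fun u => by
    have e1 : (fun w => f (par ι x w)) =ᶠ[𝓝 (chartAt E6 x x)] id := by
      filter_upwards [(chartAt E6 x).open_target.mem_nhds hx] with w hw
      exact (hf _).symm.trans ((chartAt E6 x).right_inv hw)
    have e2 := (f.hasFDerivAt.comp _ hd.hasFDerivAt).fderiv
    have e3 := e1.fderiv_eq (𝕜 := ℝ)
    rw [fderiv_id] at e3
    exact DFunLike.congr_fun (e2.symm.trans e3) u
  have h2 : ∀ b ∈ tan (range ι) (ι x), fderiv ℝ (par ι x) (chartAt E6 x x) (f b) = b := by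
    intro b hb
    obtain ⟨N, hN, hNe⟩ := h.ind.isOpen_iff.1 (chartAt E6 x).open_source
    have hxN : ι x ∈ N := by
      have : x ∈ ι ⁻¹' N := by rw [hNe]; exact mem_chart_source E6 x
      exact this
    have hd' : HasFDerivAt (par ι x) (fderiv ℝ (par ι x) (chartAt E6 x x)) (f (ι x)) := by
      rw [← hf]; exact hd.hasFDerivAt
    have e2 := hd'.comp (ι x) f.hasFDerivAt
    have e1 := fderiv_eq_on_tan (S := range ι) (g := par ι x ∘ f) (g' := id) (mem_range_self x)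
      e2.differentiableAt differentiableAt_id (by
        filter_upwards [hN.mem_nhds hxN]
        rintro _ hy ⟨z, rfl⟩
        have hz : z ∈ (chartAt E6 x).source := by rw [← hNe]; exact hy
        show ι ((chartAt E6 x).symm (f (ι z))) = ι z
        rw [← hf, (chartAt E6 x).left_inv hz]) hb
    rw [e2.fderiv, fderiv_id] at e1
    exact e1
  have h3 : fderiv ℝ (par ι x) (chartAt E6 x x) v = 0 := by
    by_contra h0
    have hm := par_tan hd v
    rw [par_self] at hm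
    obtain ⟨b, hb, hb0⟩ := hn _ (mem_range_self x) _ hm h0
    apply hb0
    rw [← h2 b hb]
    exact hv _
  rw [← h1 v, h3, map_zero]

theorem Emb.smooth_of (h : Emb M ι) (g : E6 → M.carrier) (s : Set E6)
    (hg : ContDiffOn ℝ ∞ (ι ∘ g) s) : ContMDiffOn (𝓡 6) (𝓡 6) ∞ g s := by
  intro y hy
  rw [contMDiffWithinAt_iff]
  refine ⟨h.ind.continuousOn_iff.2 hg.continuousOn y hy, ?_⟩
  obtain ⟨f, hf⟩ := h.lin (g y)
  simp only [mfld_simps]
  have : (chartAt E6 (g y)) ∘ g = f ∘ (ι ∘ g) := funext fun z => hf _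
  rw [this]
  exact f.contDiff.contDiffAt.comp_contDiffWithinAt y (hg y hy)

theorem Emb.form (h : Emb M ι) {Ω : V → V → V → ℝ}
    (hl : ∀ x ∈ range ι, ∃ (N : Set V) (l : F1 V), IsOpen N ∧ x ∈ N ∧ ContDiffOn ℝ ∞ l N ∧
      ∀ y ∈ range ι ∩ N, ∀ a ∈ tan (range ι) y, ∀ b ∈ tan (range ι) y, Ω y a b = dd l y a b)
    (hn : ∀ x ∈ range ι, ∀ a ∈ tan (range ι) x, a ≠ 0 → ∃ b ∈ tan (range ι) x, Ω x a b ≠ 0) :
    ∃ σ : TwoForm M, IsSymplectic σ ∧ ∀ x (a b : TangentSpace (𝓡 6) x), σ x ![a, b] =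
      Ω (ι x) (mfderiv (𝓡 6) 𝓘(ℝ, V) ι x a) (mfderiv (𝓡 6) 𝓘(ℝ, V) ι x b) := by
  have h0 : ∀ x : M.carrier, ∃ A : E6 [⋀^Fin 2]→L[ℝ] ℝ, ∀ a b : E6, A ![a, b] =
      Ω (ι x) (fderiv ℝ (par ι x) (chartAt E6 x x) a) (fderiv ℝ (par ι x) (chartAt E6 x x) b) := by
    intro x
    obtain ⟨w, -, hw⟩ := h.local_form hl x (mem_chart_target E6 x)
    refine ⟨extDeriv w (chartAt E6 x x), fun a b => ?_⟩
    rw [hw.self_of_nhds a b, par_self]
  choose A hA using h0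
  let σ : TwoForm M := A
  have hσ : ∀ x (a b : TangentSpace (𝓡 6) x), σ x ![a, b] =
      Ω (ι x) (mfderiv (𝓡 6) 𝓘(ℝ, V) ι x a) (mfderiv (𝓡 6) 𝓘(ℝ, V) ι x b) := fun x a b => by
    rw [h.mfderiv_eq x]
    exact hA x a b
  have hc : ∀ q, ∀ y ∈ (chartAt E6 q).target, ∀ a b, formInChart σ q y ![a, b] =
      Ω (par ι q y) (fderiv ℝ (par ι q) y a) (fderiv ℝ (par ι q) y b) := by
    intro q y hy a b
    rw [← h.comp_symm q hy a, ← h.comp_symm q hy b]
    refine Eq.trans ?_ (hσ _ _ _)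
    show σ _ (mfderiv (𝓡 6) (𝓡 6) (chartAt E6 q).symm y ∘ ![a, b]) = _
    congr 1
    funext i
    fin_cases i <;> rfl
  have hloc : ∀ q, ∀ y ∈ (chartAt E6 q).target, ∃ w : E6 → E6 [⋀^Fin 1]→L[ℝ] ℝ,
      ContDiffAt ℝ ∞ w y ∧ formInChart σ q =ᶠ[𝓝 y] extDeriv w := by
    intro q y hy
    obtain ⟨w, hw, hw'⟩ := h.local_form hl q hy
    refine ⟨w, hw, ?_⟩
    filter_upwards [hw', (chartAt E6 q).open_target.mem_nhds hy] with z hz hz'
    exact alt_ext fun a b => (hc q z hz' a b).trans (hz a b).symm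
  refine ⟨σ, ⟨fun q y hy => ?_, fun q y hy => ?_, fun x v hv => ?_⟩, hσ⟩
  · obtain ⟨w, hw, he⟩ := hloc q y hy
    exact ((extDeriv_contDiffAt hw).congr_of_eventuallyEq he).contDiffWithinAt
  · obtain ⟨w, hw, he⟩ := hloc q y hy
    rw [he.extDeriv_eq]
    exact extDeriv_extDeriv_apply hw (by simpa using two_le_infty)
  · exact h.nondeg hn x v fun w => (hA x v w).symm.trans (hv w)

end Main

end ManifoldP

open ManifoldP in
theorem manifold : ManifoldStmt := by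
  intro V _ _ _ S Ω hc hn hS hd hl hnd
  obtain ⟨M, ι, h, rfl⟩ := exists_emb hc hn hS hd
  obtain ⟨σ, hσ, he⟩ := h.form hl hnd
  exact ⟨M, σ, ι, hσ, h.inj, rfl, h.contMDiff, he, h.smooth_of⟩

end

end Pool.Agent.MP_9758ca_gt

end
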