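import Mathlib.Analysis.InnerProductSpace.Calculus
import Mathlib.Analysis.Calculus.ParametricIntegral
import Mathlib.Analysis.Calculus.LineDeriv.IntegrationByParts
import Mathlib.RingTheory.Complex
import Mathlib.Analysis.SpecialFunctions.Gaussian.FourierTransform
import Mathlib.Topology.Separation.CompletelyRegular
import Pool.Agent.MP_9758ca_gt.SpecA

section

/-!
PROJECT BALL, module Mob: energy and area of spheres, change of variables, Moebius invariance.
-/

open scoped Topology ContDiff ComplexConjugate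
open Set Metric Filter Complex MeasureTheory

namespace Pool.Agent.MP_9758ca_gt

namespace MobP

variable {V : Type} [NormedAddCommGroup V] [NormedSpace ℝ V]

/-! ### multiplication by a complex number -/

lemma det_mulC (c : ℂ) : (mulC c).det = ‖c‖ ^ 2 := by
  rw [← Complex.normSq_eq_norm_sq, ← Algebra.norm_complex_apply, Algebra.norm_apply]
  rfl

lemma norm_comp_le (A : ℂ →L[ℝ] V) (c : ℂ) : ‖A.comp (mulC c)‖ ≤ ‖A‖ * ‖c‖ := by
  refine ContinuousLinearMap.opNorm_le_bound _ (by positivity) fun z => ?_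
  rw [ContinuousLinearMap.comp_apply, mulC_apply, mul_assoc, ← norm_mul]
  exact A.le_opNorm _

lemma norm_comp (A : ℂ →L[ℝ] V) (c : ℂ) : ‖A.comp (mulC c)‖ = ‖A‖ * ‖c‖ := by
  refine le_antisymm (norm_comp_le A c) ?_
  by_cases hc : c = 0
  · simp [hc]
  have h1 : (A.comp (mulC c)).comp (mulC c⁻¹) = A := by
    ext z
    simp [mulC_apply, hc]
  have h2 := norm_comp_le (A.comp (mulC c)) c⁻¹
  rw [h1, norm_inv, ← div_eq_mul_inv, le_div_iff₀ (norm_pos_iff.2 hc)] at h2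
  exact h2

lemma anti_rot (B : V →L[ℝ] V →L[ℝ] ℝ) (hB : ∀ a b, B a b = -B b a) (A : ℂ →L[ℝ] V) (c : ℂ) :
    B (A (c * 1)) (A (c * I)) = ‖c‖ ^ 2 * B (A 1) (A I) := by
  have e1 : c * 1 = c.re • (1 : ℂ) + c.im • I := by
    apply Complex.ext <;> simp
  have e2 : c * I = (-c.im) • (1 : ℂ) + c.re • I := by
    apply Complex.ext <;> simp
  have h1 : B (A 1) (A 1) = 0 := by linarith [hB (A 1) (A 1)]
  have h2 : B (A I) (A I) = 0 := by linarith [hB (A I) (A I)]
  rw [e1, e2, ← Complex.normSq_eq_norm_sq, Complex.normSq_apply]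
  simp only [map_add, map_smul, add_apply, smul_apply,
    smul_eq_mul, h1, h2, hB (A I) (A 1)]
  ring

lemma hasF {m : ℂ → ℂ} {z c : ℂ} (h : HasDerivAt m c z) : HasFDerivAt m (mulC c) z := by
  refine (h.hasFDerivAt.restrictScalars ℝ).congr_fderiv ?_
  ext
  simp [mulC_apply, mul_comm]

lemma fderiv_comp_hol {u : ℂ → V} {m : ℂ → ℂ} {z c : ℂ} (h : HasDerivAt m c z)
    (hu : DifferentiableAt ℝ u (m z)) :
    fderiv ℝ (u ∘ m) z = (fderiv ℝ u (m z)).comp (mulC c) :=
  (hu.hasFDerivAt.comp z (hasF h)).fderiv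

/-- change of variables -/
theorem cov (u : ℂ → V) (m : ℂ → ℂ) (s : Set ℂ) (hs : MeasurableSet s)
    (hm : ∀ z ∈ s, DifferentiableAt ℂ m z) (hi : InjOn m s)
    (hu : ∀ z ∈ s, DifferentiableAt ℝ u (m z)) : En u (m '' s) = En (u ∘ m) s ∧
      ∀ β : F2 V, Anti β → ∫ z in m '' s, dens β u z = ∫ z in s, dens β (u ∘ m) z := by
  have key := fun g : ℂ → ℝ => integral_image_eq_integral_abs_det_fderiv_smul volume hs
    (fun z hz => (hasF (hm z hz).hasDerivAt).hasFDerivWithinAt) hi g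
  refine ⟨?_, fun β hβ => ?_⟩
  · rw [En, key]
    refine setIntegral_congr_fun hs fun z hz => ?_
    beta_reduce
    rw [fderiv_comp_hol (hm z hz).hasDerivAt (hu z hz), norm_comp, det_mulC,
      abs_of_nonneg (by positivity), smul_eq_mul]
    ring
  · rw [key]
    refine setIntegral_congr_fun hs fun z hz => ?_
    beta_reduce
    rw [dens, dens, fderiv_comp_hol (hm z hz).hasDerivAt (hu z hz), det_mulC,
      abs_of_nonneg (by positivity), smul_eq_mul, ContinuousLinearMap.comp_apply,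
      ContinuousLinearMap.comp_apply, mulC_apply, mulC_apply, anti_rot _ (hβ _)]
    rfl

lemma dens_congr {β : F2 V} {u u' : ℂ → V} {z : ℂ} (h : u =ᶠ[𝓝 z] u') :
    dens β u z = dens β u' z := by
  rw [dens, dens, h.fderiv_eq, h.eq_of_nhds]

lemma int_conull {s : Set ℂ} (hs : sᶜ.Subsingleton) (g : ℂ → ℝ) :
    ∫ z in s, g z = ∫ z, g z := by
  refine setIntegral_eq_integral_of_ae_compl_eq_zero ?_
  have : ∀ᵐ z : ℂ, z ∉ sᶜ := measure_eq_zero_iff_ae_notMem.1 (hs.measure_zero _)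
  filter_upwards [this] with z hz hz'
  exact absurd hz' hz

/-! ### the two charts -/

lemma ne1 (z : ℂ) : ((z, 1) : C2) ≠ 0 := fun h => one_ne_zero (congrArg Prod.snd h)

lemma ne2 (z : ℂ) : ((1, z) : C2) ≠ 0 := fun h => one_ne_zero (congrArg Prod.fst h)

lemma cd_aff {n : WithTop ℕ∞} {U : C2 → V} (h : ContDiffOn ℝ n U nz) : ContDiff ℝ n (aff U) :=
  contDiff_iff_contDiffAt.2 fun z =>
    (h.contDiffAt (nz_mem_nhds (ne1 z))).comp z (f := fun z : ℂ => ((z, 1) : C2)) (by fun_prop)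

lemma cd_aff' {n : WithTop ℕ∞} {U : C2 → V} (h : ContDiffOn ℝ n U nz) : ContDiff ℝ n (aff' U) :=
  contDiff_iff_contDiffAt.2 fun z =>
    (h.contDiffAt (nz_mem_nhds (ne2 z))).comp z (f := fun z : ℂ => ((1, z) : C2)) (by fun_prop)

lemma aff_inv {X : Type} {U : C2 → X} (h : Inv U) {z : ℂ} (hz : z ≠ 0) :
    aff' U z⁻¹ = aff U z := by
  rw [aff, aff', ← h z hz _ (ne2 z⁻¹)]
  simp [hz]

lemma aff_ev {X : Type} {U : C2 → X} (h : Inv U) {z : ℂ} (hz : z ≠ 0) :
    aff' U ∘ (fun w => w⁻¹) =ᶠ[𝓝 z] aff U := by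
  filter_upwards [isOpen_ne.mem_nhds hz] with w hw
  exact aff_inv h hw

/-- decay of the derivative of a map with a second chart -/
lemma decay {u u' : ℂ → V} (hu : ContDiff ℝ 1 u) (hu' : ContDiff ℝ 1 u')
    (h : ∀ z, z ≠ 0 → u' ∘ (fun w => w⁻¹) =ᶠ[𝓝 z] u) :
    ∃ C, ∀ z, ‖fderiv ℝ u z‖ ≤ C / (1 + ‖z‖ ^ 2) := by
  obtain ⟨C1, h1⟩ := (isCompact_closedBall (0 : ℂ) 1).exists_bound_of_continuousOn
    (hu.continuous_fderiv one_ne_zero).continuousOn
  obtain ⟨C2, h2⟩ := (isCompact_closedBall (0 : ℂ) 1).exists_bound_of_continuousOn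
    (hu'.continuous_fderiv one_ne_zero).continuousOn
  have p1 : 0 ≤ C1 := (norm_nonneg _).trans (h1 0 (by simp))
  have p2 : 0 ≤ C2 := (norm_nonneg _).trans (h2 0 (by simp))
  refine ⟨2 * (C1 + C2), fun z => ?_⟩
  rw [le_div_iff₀ (by positivity)]
  have hn := norm_nonneg z
  by_cases hz : ‖z‖ ≤ 1
  · have a1 := h1 z (by simpa using hz)
    have a2 : 1 + ‖z‖ ^ 2 ≤ 2 := by nlinarith
    calc _ ≤ C1 * 2 := mul_le_mul a1 a2 (by positivity) p1
      _ ≤ _ := by linarith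
  · have hz1 : 1 < ‖z‖ := not_le.1 hz
    have hz0 : z ≠ 0 := norm_pos_iff.1 (by linarith)
    have a1 := h2 z⁻¹ (by simpa using inv_le_one_of_one_le₀ hz1.le)
    rw [← (h z hz0).fderiv_eq, fderiv_comp_hol (hasDerivAt_inv hz0)
      (hu'.differentiable one_ne_zero _), norm_comp, norm_neg, norm_inv, norm_pow]
    have a2 : (‖z‖ ^ 2)⁻¹ * (1 + ‖z‖ ^ 2) ≤ 2 := by
      rw [inv_mul_le_iff₀ (by positivity)]
      nlinarith
    rw [mul_assoc]
    calc _ ≤ C2 * 2 := mul_le_mul a1 a2 (by positivity) p2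
      _ ≤ _ := by linarith

lemma int_sq {u : ℂ → V} (hu : ContDiff ℝ 1 u) {C : ℝ}
    (h : ∀ z, ‖fderiv ℝ u z‖ ≤ C / (1 + ‖z‖ ^ 2)) :
    Integrable fun z => ‖fderiv ℝ u z‖ ^ 2 := by
  have h4 : Integrable fun z : ℂ => ((1 : ℝ) + ‖z‖ ^ 2) ^ (-(4 : ℝ) / 2) :=
    integrable_rpow_neg_one_add_norm_sq (by rw [Complex.finrank_real_complex]; norm_num)
  refine (h4.const_mul (C ^ 2)).mono'
    ((hu.continuous_fderiv one_ne_zero).norm.pow 2).aestronglyMeasurable
    (Eventually.of_forall fun z => ?_)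
  rw [Real.norm_eq_abs, abs_of_nonneg (by positivity), show -(4 : ℝ) / 2 = -((2 : ℕ) : ℝ) by norm_num,
    Real.rpow_neg (by positivity), Real.rpow_natCast, ← div_eq_mul_inv, ← div_pow]
  exact pow_le_pow_left₀ (norm_nonneg _) (h z) 2

lemma cont_dens {β : F2 V} {u : ℂ → V} {S : Set V} (hu : ContDiff ℝ 1 u) (hβ : ContinuousOn β S)
    (hS : ∀ z, u z ∈ S) : Continuous (dens β u) := by
  have h1 : Continuous fun z => β (u z) := hβ.comp_continuous hu.continuous hS
  have h2 := hu.continuous_fderiv one_ne_zero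
  exact (h1.clm_apply (h2.clm_apply continuous_const)).clm_apply (h2.clm_apply continuous_const)

lemma int_dens {β : F2 V} {u : ℂ → V} {S : Set V} (hu : ContDiff ℝ 1 u) (hβ : ContinuousOn β S)
    (hc : IsCompact S) (hS : ∀ z, u z ∈ S) (hi : Integrable fun z => ‖fderiv ℝ u z‖ ^ 2) :
    Integrable (dens β u) := by
  obtain ⟨B, hB⟩ := hc.exists_bound_of_continuousOn (E := V →L[ℝ] V →L[ℝ] ℝ) hβ
  refine (hi.const_mul B).mono' (cont_dens hu hβ hS).aestronglyMeasurable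
    (Eventually.of_forall fun z => ?_)
  have a1 : ‖fderiv ℝ u z 1‖ ≤ ‖fderiv ℝ u z‖ := by simpa using (fderiv ℝ u z).le_opNorm 1
  have a2 : ‖fderiv ℝ u z I‖ ≤ ‖fderiv ℝ u z‖ := by simpa using (fderiv ℝ u z).le_opNorm I
  have hB0 : 0 ≤ B := (norm_nonneg _).trans (hB _ (hS z))
  refine ((β (u z)).le_opNorm₂ _ _).trans ?_
  rw [sq, ← mul_assoc]
  exact mul_le_mul (mul_le_mul (hB _ (hS z)) a1 (norm_nonneg _) hB0) a2 (norm_nonneg _)
    (by positivity)

lemma inv_inj (s : Set ℂ) : InjOn (fun w : ℂ => w⁻¹) s := fun _ _ _ _ h => inv_injective h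

theorem part1 (U : C2 → V) (hU : ContDiffOn ℝ 1 U nz) (hI : Inv U) :
    (∃ C, ∀ z, ‖fderiv ℝ (aff U) z‖ ≤ C / (1 + ‖z‖ ^ 2)) ∧
    Integrable (fun z => ‖fderiv ℝ (aff U) z‖ ^ 2) ∧
    (∀ L, MeasurableSet L → En (aff U) L ≤ En (aff U) univ ∧ En (aff' U) L ≤ En (aff U) univ) ∧
    ∀ β : F2 V, ContinuousOn β (im U) → Integrable (dens β (aff U)) ∧
      (Anti β → ∀ R : ℝ, 0 < R → area β U = (∫ z in closedBall 0 R, dens β (aff U) z) +
        ∫ w in closedBall 0 R⁻¹, dens β (aff' U) w) := by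
  have h1 := cd_aff hU
  have h2 := cd_aff' hU
  obtain ⟨C, hC⟩ := decay h1 h2 fun z hz => aff_ev hI hz
  obtain ⟨C', hC'⟩ := decay h2 h1 fun z hz => by
    filter_upwards [isOpen_ne.mem_nhds hz] with w hw
    rw [Function.comp_apply, ← aff_inv hI (inv_ne_zero hw), inv_inv]
  have i1 := int_sq h1 hC
  have i2 := int_sq h2 hC'
  have hcov := fun (s : Set ℂ) (hs : MeasurableSet s) (h0 : ∀ z ∈ s, z ≠ 0) =>
    cov (aff' U) (fun w => w⁻¹) s hs (fun z hz => differentiableAt_inv (h0 z hz)) (inv_inj s)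
      fun z _ => h2.differentiable one_ne_zero _
  refine ⟨⟨C, hC⟩, i1, fun L _ => ⟨?_, ?_⟩, fun β hβ => ?_⟩
  · rw [En, En, setIntegral_univ]
    exact setIntegral_le_integral i1 (Eventually.of_forall fun z => by positivity)
  · refine (setIntegral_le_integral i2 (Eventually.of_forall fun z => by positivity)).trans
      (le_of_eq ?_)
    have hs : ({0}ᶜ : Set ℂ)ᶜ.Subsingleton := by simp
    have e1 : (fun w : ℂ => w⁻¹) '' {0}ᶜ = {0}ᶜ := by
      ext w
      constructor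
      · rintro ⟨z, hz, rfl⟩
        exact inv_ne_zero hz
      · exact fun hw => ⟨w⁻¹, inv_ne_zero hw, inv_inv w⟩
    have e2 := (hcov {0}ᶜ (measurableSet_singleton 0).compl fun z hz => hz).1
    rw [e1, En, int_conull hs] at e2
    rw [e2, En, En, setIntegral_univ, ← int_conull hs fun z => ‖fderiv ℝ (aff U) z‖ ^ 2]
    refine setIntegral_congr_fun (measurableSet_singleton 0).compl fun z hz => ?_
    beta_reduce
    rw [(aff_ev hI hz).fderiv_eq]
  · have i3 : Integrable (dens β (aff U)) :=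
      int_dens h1 hβ (hI.isCompact_im hU.continuousOn).1 (fun z => ⟨_, ne1 z, rfl⟩) i1
    refine ⟨i3, fun hA R hR => ?_⟩
    rw [area, ← integral_add_compl (measurableSet_closedBall (x := 0) (ε := R)) i3]
    congr 1
    have h0 : ∀ z ∈ (closedBall (0 : ℂ) R)ᶜ, z ≠ 0 := fun z hz h => hz (by simp [h, hR.le])
    have e2 := (hcov _ measurableSet_closedBall.compl h0).2 β hA
    rw [setIntegral_congr_fun measurableSet_closedBall.compl fun z hz =>
      dens_congr (aff_ev hI (h0 z hz))] at e2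
    rw [← e2]
    refine setIntegral_congr_set ?_
    have n1 : ∀ᵐ w : ℂ, w ∉ sphere (0 : ℂ) R⁻¹ :=
      measure_eq_zero_iff_ae_notMem.1 (Measure.addHaar_sphere _ _ _)
    have n2 : ∀ᵐ w : ℂ, w ∉ ({0} : Set ℂ) :=
      measure_eq_zero_iff_ae_notMem.1 (measure_singleton _)
    filter_upwards [n1, n2] with w hw1 hw2
    have hw0 : 0 < ‖w‖ := norm_pos_iff.2 hw2
    refine propext ⟨?_, fun hw => ?_⟩
    · rintro ⟨z, hz, rfl⟩
      have : R < ‖z‖ := by simpa using hz
      refine mem_closedBall_zero_iff.2 ?_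
      rw [norm_inv]
      exact inv_anti₀ hR this.le
    · refine ⟨w⁻¹, fun h => ?_, inv_inv w⟩
      have a1 : ‖w‖ < R⁻¹ := lt_of_le_of_ne (mem_closedBall_zero_iff.1 hw)
        fun h => hw1 (mem_sphere_zero_iff_norm.2 h)
      have a2 := mem_closedBall_zero_iff.1 h
      rw [norm_inv] at a2
      exact absurd ((lt_inv_comm₀ hw0 hR).1 a1) (not_lt.2 a2)

/-! ### linear changes of coordinates -/

/-- the domain of the Moebius map of `A` -/
def dom (A : C2 ≃L[ℂ] C2) : Set ℂ := {z | (A (z, 1)).2 ≠ 0}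

/-- the Moebius map of `A` -/
noncomputable def mo (A : C2 ≃L[ℂ] C2) (z : ℂ) : ℂ := (A (z, 1)).1 / (A (z, 1)).2

lemma diff_A (A : C2 ≃L[ℂ] C2) : Differentiable ℂ fun z : ℂ => A (z, 1) :=
  A.differentiable.comp (differentiable_id.prodMk (differentiable_const _))

lemma open_dom (A : C2 ≃L[ℂ] C2) : IsOpen (dom A) :=
  isOpen_ne_fun (diff_A A).continuous.snd continuous_const

lemma sub_dom (A : C2 ≃L[ℂ] C2) : (dom A)ᶜ.Subsingleton := by
  intro z hz z' hz'
  have h1 : (A (z, 1)).2 = 0 := not_not.1 hz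
  have h2 : (A (z', 1)).2 = 0 := not_not.1 hz'
  by_contra hne
  have hd : z - z' ≠ 0 := sub_ne_zero.2 hne
  obtain ⟨v, hv⟩ := A.surjective (0, 1)
  have e : v = ((v.1 - v.2 * z') / (z - z')) • ((z, 1) : C2) +
      (v.2 - (v.1 - v.2 * z') / (z - z')) • ((z', 1) : C2) := by
    refine Prod.ext ?_ ?_
    · simp only [Prod.fst_add, Prod.smul_fst, smul_eq_mul]
      field_simp
      ring
    · simp
  rw [e, map_add, map_smul, map_smul] at hv
  have := congrArg Prod.snd hv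
  simp [h1, h2] at this

lemma A_eq (A : C2 ≃L[ℂ] C2) {z : ℂ} (hz : z ∈ dom A) :
    A (z, 1) = (A (z, 1)).2 • ((mo A z, 1) : C2) := by
  have hz' : (A (z, 1)).2 ≠ 0 := hz
  refine Prod.ext ?_ (by simp)
  simp only [Prod.smul_fst, smul_eq_mul, mo]
  field_simp

lemma mo_symm (A : C2 ≃L[ℂ] C2) {z : ℂ} (hz : z ∈ dom A) :
    mo A z ∈ dom A.symm ∧ mo A.symm (mo A z) = z := by
  have hz' : (A (z, 1)).2 ≠ 0 := hz
  have e : A.symm (mo A z, 1) = (A (z, 1)).2⁻¹ • ((z, 1) : C2) := by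
    rw [A.symm_apply_eq, map_smul, eq_inv_smul_iff₀ hz', ← A_eq A hz]
  refine ⟨?_, ?_⟩
  · change (A.symm (mo A z, 1)).2 ≠ 0
    simpa [e] using hz'
  · rw [mo, e]
    simp only [Prod.smul_fst, Prod.smul_snd, smul_eq_mul]
    field_simp

lemma A_ne (A : C2 ≃L[ℂ] C2) {v : C2} (hv : v ≠ 0) : A v ≠ 0 := fun h =>
  hv (A.injective (h.trans (map_zero A).symm))

lemma fderiv_A (A : C2 ≃L[ℂ] C2) {U : C2 → V} {v : C2} (hd : DifferentiableAt ℝ U (A v))
    (w : C2) : fderiv ℝ (U ∘ A) v w = fderiv ℝ U (A v) (A w) := by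
  rw [(hd.hasFDerivAt.comp v ((A : C2 →L[ℂ] C2).hasFDerivAt.restrictScalars ℝ)).fderiv]
  rfl

theorem part3 (S : Set V) (U : C2 → V) (A : C2 ≃L[ℂ] C2) (h : Map2 S U) :
    Map2 S (U ∘ A) ∧ im (U ∘ A) = im U ∧
    (NonC U → NonC (U ∘ A)) ∧ (∀ v, InjPt U (A v) → InjPt (U ∘ A) v) ∧
    (∀ J, IsSph S J U → IsSph S J (U ∘ A)) ∧
    ∀ β : F2 V, ContinuousOn β (im U) → Anti β → area β (U ∘ A) = area β U := by
  have hd : ∀ v, v ≠ 0 → DifferentiableAt ℝ U v := fun v hv =>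
    (h.sm.contDiffAt (nz_mem_nhds hv)).differentiableAt two_ne_zero
  have hm : Map2 S (U ∘ A) := by
    refine ⟨h.sm.comp ((A : C2 →L[ℂ] C2).restrictScalars ℝ).contDiff.contDiffOn
      fun v hv => A_ne A hv, fun c hc v hv => ?_, fun v hv => h.mem _ (A_ne A hv)⟩
    rw [Function.comp_apply, map_smul, h.inv c hc _ (A_ne A hv)]
    rfl
  refine ⟨hm, ?_, ?_, fun v hv => ?_, fun J hJ => ⟨hm, fun v hv w => ?_⟩, fun β _ hA => ?_⟩
  · ext x
    constructor
    · rintro ⟨v, hv, rfl⟩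
      exact ⟨A v, A_ne A hv, rfl⟩
    · rintro ⟨v, hv, rfl⟩
      exact ⟨A.symm v, A_ne A.symm hv, by simp⟩
  · rintro ⟨v, hv, w, hw, hne⟩
    exact ⟨A.symm v, A_ne A.symm hv, A.symm w, A_ne A.symm hw, by simpa using hne⟩
  · obtain ⟨h1, h2, h3⟩ := hv
    refine ⟨fun h0 => h1 (by rw [h0, map_zero]), fun h0 => h2 ?_, fun w hw he => ?_⟩
    · refine ContinuousLinearMap.ext fun w => ?_
      have := fderiv_A A (hd _ h1) (A.symm w)
      rw [h0, A.apply_symm_apply] at this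
      exact this.symm
    · obtain ⟨c, hc⟩ := h3 (A w) (A_ne A hw) he
      exact ⟨c, A.injective (by rw [map_smul, hc])⟩
  · rw [fderiv_A A (hd _ (A_ne A hv)), fderiv_A A (hd _ (A_ne A hv)), map_smul,
      hJ.cr _ (A_ne A hv)]
    rfl
  · have e1 : mo A '' dom A = dom A.symm := by
      refine Subset.antisymm ?_ fun w hw => ?_
      · rintro _ ⟨z, hz, rfl⟩
        exact (mo_symm A hz).1
      · exact ⟨_, (mo_symm A.symm hw).1, (mo_symm A.symm hw).2⟩
    have e2 := (cov (aff U) (mo A) (dom A) (open_dom A).measurableSet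
      (fun z hz => ((diff_A A) z).fst.div ((diff_A A) z).snd hz)
      (fun z hz z' hz' he => by rw [← (mo_symm A hz).2, he, (mo_symm A hz').2])
      fun z _ => (cd_aff h.sm).differentiable two_ne_zero _).2 β hA
    rw [e1, int_conull (sub_dom _)] at e2
    rw [area, area, e2, ← int_conull (sub_dom A)]
    refine setIntegral_congr_fun (open_dom A).measurableSet fun z hz => dens_congr ?_
    filter_upwards [(open_dom A).mem_nhds hz] with w hw
    rw [aff, Function.comp_apply, A_eq A hw, h.inv _ hw _ (ne1 _)]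
    rfl

/-! ### positivity of the area -/

lemma mem_tan {S M : Set V} {U : C2 → V} (h : Map2 S U) (hS : S ⊆ M) (z a : ℂ) :
    fderiv ℝ (aff U) z a ∈ tan M (aff U z) :=
  fderiv_mem_tan ((cd_aff h.sm).differentiable two_ne_zero z)
    (Eventually.of_forall fun w => hS (h.mem _ (ne1 w))) a

theorem part4 (M : Set V) (om : F2 V) (J : V → En0 V) (U : C2 → V) (hom : Continuous om)
    (hT : Tame M om J) (h : IsSph M J U) :
    (∀ z, 0 ≤ dens om (aff U) z) ∧ 0 ≤ area om U ∧ (NonC U → 0 < area om U) := by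
  have hcr := fun z => h.hol.1.cr z (mem_univ z)
  have hpos : ∀ z, fderiv ℝ (aff U) z 1 ≠ 0 → 0 < dens om (aff U) z := fun z hz => by
    rw [dens, hcr]
    exact hT _ (h.mem _ (ne1 z)) _ (mem_tan h.toMap2 Subset.rfl z 1) hz
  have h0 : ∀ z, 0 ≤ dens om (aff U) z := fun z => by
    by_cases hz : fderiv ℝ (aff U) z 1 = 0
    · simp [dens, hz]
    · exact (hpos z hz).le
  refine ⟨h0, integral_nonneg h0, fun hN => ?_⟩
  have h1 : ContDiffOn ℝ 1 U nz := h.sm.of_le one_le_two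
  by_cases hz : ∃ z, fderiv ℝ (aff U) z 1 ≠ 0
  · obtain ⟨z, hz⟩ := hz
    exact integral_pos_of_integrable_nonneg_nonzero
      (cont_dens (cd_aff h1) hom.continuousOn fun _ => mem_univ _)
      ((part1 U h1 h.inv).2.2.2 om hom.continuousOn).1 h0 (hpos z hz).ne'
  · exfalso
    push Not at hz
    have hc : ∀ z, aff U z = aff U 0 := fun z =>
      is_const_of_fderiv_eq_zero ((cd_aff h1).differentiable one_ne_zero) (fun w => by
        refine norm_le_zero_iff.1 ((norm_fderiv_le_two _).trans ?_)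
        simp [hcr, hz]) z 0
    have hi : U (1, 0) = aff U 0 := by
      have c1 : Tendsto (aff' U) (𝓝[≠] 0) (𝓝 (U (1, 0))) :=
        ((cd_aff' h1).continuous.tendsto 0).mono_left nhdsWithin_le_nhds
      refine tendsto_nhds_unique c1 (tendsto_const_nhds.congr' ?_)
      filter_upwards [self_mem_nhdsWithin] with w hw
      rw [← hc w⁻¹, ← aff_inv h.inv (inv_ne_zero hw), inv_inv]
    have ha : ∀ v, v ≠ 0 → U v = aff U 0 := fun v hv => by
      have : U v ∈ im U := ⟨v, hv, rfl⟩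
      rw [h.inv.im_eq.2] at this
      rcases this with h2 | ⟨z, h2⟩
      · rw [h2, hi]
      · rw [← h2, hc]
    obtain ⟨v, hv, w, hw, hne⟩ := hN
    exact hne (by rw [ha v hv, ha w hw])

theorem part5 (M K : Set V) (om : F2 V) (R Λ c : ℝ) (hom : Continuous om) (hK : K ⊆ M) :
    ∃ C, 0 ≤ C ∧ ∀ J U, EnvJ M K om R Λ c J → IsSph K J U →
      En (aff U) univ ≤ C * area om U := by
  refine ⟨(1 + Λ) ^ 2 / |c|, by positivity, fun J U hE h => ?_⟩
  have h1 := part1 U (h.sm.of_le one_le_two) h.inv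
  rw [En, setIntegral_univ, area, ← integral_const_mul]
  refine integral_mono h1.2.1 ((h1.2.2.2 om hom.continuousOn).1.const_mul _) fun z => ?_
  have hcr := h.hol.1.cr z (mem_univ z)
  have hz : aff U z ∈ K := h.mem _ (ne1 z)
  have a1 := hE.tm _ hz _ (mem_tan h.toMap2 hK z 1)
  have a2 := (hE.ub.bd _ (hE.ub.sub hz)).1
  have a3 : ‖fderiv ℝ (aff U) z‖ ≤ (1 + Λ) * ‖fderiv ℝ (aff U) z 1‖ := by
    refine (norm_fderiv_le_two _).trans ?_
    rw [hcr, add_mul, one_mul]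
    exact add_le_add le_rfl (((J _).le_opNorm _).trans
      (mul_le_mul_of_nonneg_right a2 (norm_nonneg _)))
  have hc := hE.pos
  beta_reduce
  rw [dens, hcr, abs_of_pos hc, div_mul_eq_mul_div, le_div_iff₀ hc]
  have a4 := pow_le_pow_left₀ (norm_nonneg _) a3 2
  have a5 := mul_le_mul_of_nonneg_left a1 (sq_nonneg (1 + Λ))
  have a6 := mul_le_mul_of_nonneg_right a4 hc.le
  rw [mul_pow] at a6
  linarith

/-! ### gluing two charts -/

lemma glue_at {J : V → En0 V} {u : ℂ → V} {Ω : Set ℂ} (hu : IsHol J u Ω) (hΩ : IsOpen Ω)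
    {φ : C2 → ℂ} {v : C2} (hφ : ContDiffAt ℂ 2 φ v) (hv : φ v ∈ Ω)
    (hsq : ∀ a, J (u (φ v)) (J (u (φ v)) a) = -a) {U : C2 → V} (he : U =ᶠ[𝓝 v] u ∘ φ) :
    ContDiffAt ℝ 2 U v ∧ ∀ w, fderiv ℝ U v (I • w) = J (U v) (fderiv ℝ U v w) := by
  have h1 : ContDiffAt ℝ 2 u (φ v) := hu.sm.contDiffAt (hΩ.mem_nhds hv)
  refine ⟨(h1.comp v (hφ.restrict_scalars ℝ)).congr_of_eventuallyEq he, fun w => ?_⟩
  have h2 := (h1.differentiableAt two_ne_zero).hasFDerivAt.comp v
    ((hφ.differentiableAt two_ne_zero).hasFDerivAt.restrictScalars ℝ)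
  rw [he.fderiv_eq, he.eq_of_nhds, h2.fderiv]
  simp only [ContinuousLinearMap.comp_apply, ContinuousLinearMap.coe_restrictScalars', map_smul,
    smul_eq_mul, Function.comp_apply]
  exact hu.apply hv hsq _

theorem part6 (S : Set V) (J : V → En0 V) (u u' : ℂ → V) (r : ℝ) (hr : 0 < r)
    (hsq : ∀ x ∈ S, ∀ v, J x (J x v) = -v) (hu : IsHol J u univ) (hS : MapsTo u univ S)
    (hu' : IsHol J u' (ball 0 r)) (h0 : u' 0 ∈ S)
    (he : ∀ w ∈ ball (0 : ℂ) r, w ≠ 0 → u' w = u w⁻¹) :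
    ∃ U, IsSph S J U ∧ aff U = u ∧ U (1, 0) = u' 0 := by
  classical
  let U : C2 → V := fun v => if v.2 = 0 then u' 0 else u (v.1 / v.2)
  have key : ∀ v : C2, v ≠ 0 →
      ContDiffAt ℝ 2 U v ∧ ∀ w, fderiv ℝ U v (I • w) = J (U v) (fderiv ℝ U v w) := by
    intro v hv
    by_cases h2 : v.2 = 0
    · have h1 : v.1 ≠ 0 := fun h1 => hv (Prod.ext h1 h2)
      have hφ : ContDiffAt ℂ 2 (fun w : C2 => w.2 / w.1) v :=
        contDiffAt_snd.div contDiffAt_fst h1
      have e0 : v.2 / v.1 = 0 := by rw [h2, zero_div]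
      refine glue_at hu' isOpen_ball hφ (by rw [e0]; exact mem_ball_self hr)
        (by rw [e0]; exact hsq _ h0) ?_
      filter_upwards [hφ.continuousAt.preimage_mem_nhds
        (isOpen_ball.mem_nhds (show v.2 / v.1 ∈ ball (0 : ℂ) r by rw [e0]; exact mem_ball_self hr)),
        continuous_fst.continuousAt.preimage_mem_nhds (isOpen_ne.mem_nhds h1)] with w hw1 hw2
      by_cases h3 : w.2 = 0
      · simp [U, h3]
      · simp only [U, if_neg h3, Function.comp_apply]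
        rw [he _ hw1 (div_ne_zero h3 hw2), inv_div]
    · refine glue_at hu isOpen_univ (φ := fun w : C2 => w.1 / w.2)
        (contDiffAt_fst.div contDiffAt_snd h2) (mem_univ _) (hsq _ (hS (mem_univ _))) ?_
      filter_upwards [continuous_snd.continuousAt.preimage_mem_nhds (isOpen_ne.mem_nhds h2)]
        with w hw
      exact if_neg hw
  refine ⟨U, ⟨⟨fun v hv => (key v hv).1.contDiffWithinAt, fun c hc v _ => ?_, fun v _ => ?_⟩,
    fun v hv => (key v hv).2⟩, funext fun z => ?_, if_pos rfl⟩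
  · by_cases h2 : v.2 = 0
    · simp [U, h2]
    · simp only [U, Prod.smul_fst, Prod.smul_snd, smul_eq_mul, if_neg h2,
        if_neg (mul_ne_zero hc h2), mul_div_mul_left _ _ hc]
  · simp only [U]
    split_ifs
    · exact h0
    · exact hS (mem_univ _)
  · simp [aff, U]

end MobP

theorem mob : MobStmt := fun _ _ _ =>
  ⟨MobP.part1, MobP.cov, MobP.part3, MobP.part4, MobP.part5, MobP.part6⟩

end Pool.Agent.MP_9758ca_gt

end

section

/-!
PROJECT BALL, module STOKES: Stokes formula on the projective line and homotopy invariance of areas.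
-/

set_option maxSynthPendingDepth 3

open scoped Topology ContDiff ComplexConjugate
open Set Metric Filter Complex MeasureTheory

namespace Pool.Agent.MP_9758ca_gt

namespace StokesP

theorem gauss {b : ℝ} (hb : 0 < b) : ∫ z : ℂ, Real.exp (-b * ‖z‖ ^ 2) = Real.pi / b := by
  rw [GaussianFourier.integral_rexp_neg_mul_sq_norm hb]
  simp

theorem gauss_int {b : ℝ} (hb : 0 < b) : Integrable fun z : ℂ => Real.exp (-b * ‖z‖ ^ 2) :=
  Integrable.of_integral_ne_zero (by rw [gauss hb]; exact (div_pos Real.pi_pos hb).ne')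

theorem gauss_mul {b C : ℝ} (hb : 0 < b) {f : ℂ → ℝ} (hf : Continuous f) (h : ∀ z, |f z| ≤ C) :
    Integrable fun z : ℂ => Real.exp (-b * ‖z‖ ^ 2) * f z :=
  (gauss_int hb).mul_bdd hf.aestronglyMeasurable (Eventually.of_forall h)

/-- Integration by parts against a Gaussian. -/
theorem parts {b C : ℝ} (hb : 0 < b) {P : ℂ → ℝ} {P' : ℂ → ℂ →L[ℝ] ℝ}
    (hP : ∀ z, HasFDerivAt P (P' z) z) (hc : Continuous P') (v : ℂ) (h0 : ∀ z, |P z| ≤ C)
    (h1 : ∀ z, |inner ℝ z v * P z| ≤ C) (h2 : ∀ z, |P' z v| ≤ C) :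
    ∫ z, Real.exp (-b * ‖z‖ ^ 2) * P' z v =
      2 * b * ∫ z, Real.exp (-b * ‖z‖ ^ 2) * (inner ℝ z v * P z) := by
  have hPc : Continuous P := continuous_iff_continuousAt.2 fun z => (hP z).continuousAt
  have hg := fun z : ℂ => (((hasStrictFDerivAt_norm_sq z).hasFDerivAt).const_mul (-b)).exp
  have e : ∀ z : ℂ, (Real.exp (-b * ‖z‖ ^ 2) • (-b) • 2 • innerSL ℝ z) v * P z =
      -(2 * b) * (Real.exp (-b * ‖z‖ ^ 2) * (inner ℝ z v * P z)) := fun z => by
    simp only [smul_apply, innerSL_apply_apply, smul_eq_mul, nsmul_eq_mul,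
      Nat.cast_ofNat]
    ring
  have h := integral_bilinear_hasFDerivAt_right_eq_neg_left_of_integrable (μ := volume) (v := v)
    (B := ContinuousLinearMap.mul ℝ ℝ) (f := fun z : ℂ => Real.exp (-b * ‖z‖ ^ 2)) (g := P)
    (g' := P') ?_ (gauss_mul hb (by fun_prop) h2) (gauss_mul hb hPc h0) (fun z _ => hg z)
    fun z _ => hP z
  · simp only [ContinuousLinearMap.mul_apply', e] at h
    rw [h, integral_const_mul]
    ring
  · simp only [ContinuousLinearMap.mul_apply', e]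
    exact (gauss_mul hb (by fun_prop) h1).const_mul _

/-- Stokes formula on the plane for the form `Q dx + P dy`. -/
theorem plane {P Q : ℂ → ℝ} {P' Q' : ℂ → ℂ →L[ℝ] ℝ} {κ C : ℝ}
    (hP : ∀ z, HasFDerivAt P (P' z) z) (hQ : ∀ z, HasFDerivAt Q (Q' z) z) (cP : Continuous P')
    (cQ : Continuous Q') (h0 : ∀ z, |P z| ≤ C ∧ |Q z| ≤ C)
    (h1 : ∀ z, ‖z‖ * |P z| ≤ C ∧ ‖z‖ * |Q z| ≤ C) (h2 : ∀ z, |P' z 1| ≤ C ∧ |Q' z I| ≤ C)
    (hi : Integrable fun z => P' z 1 - Q' z I)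
    (h3 : ∀ z, ‖z‖ * |z.re * P z - z.im * Q z - κ| ≤ C) :
    ∫ z, (P' z 1 - Q' z I) = 2 * Real.pi * κ := by
  have hPc : Continuous P := continuous_iff_continuousAt.2 fun z => (hP z).continuousAt
  have hQc : Continuous Q := continuous_iff_continuousAt.2 fun z => (hQ z).continuousAt
  have i1 : ∀ z : ℂ, inner ℝ z (1 : ℂ) = z.re := fun z => by simp
  have i2 : ∀ z : ℂ, inner ℝ z I = z.im := fun z => by simp
  have b1 : ∀ z : ℂ, |z.re * P z| ≤ C := fun z => by
    rw [abs_mul]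
    exact (mul_le_mul_of_nonneg_right (abs_re_le_norm z) (abs_nonneg _)).trans (h1 z).1
  have b2 : ∀ z : ℂ, |z.im * Q z| ≤ C := fun z => by
    rw [abs_mul]
    exact (mul_le_mul_of_nonneg_right (abs_im_le_norm z) (abs_nonneg _)).trans (h1 z).2
  set f : ℂ → ℝ := fun z => z.re * P z - z.im * Q z with hf
  have hfc : Continuous f := by fun_prop
  have b3 : ∀ z, |f z| ≤ C + C := fun z => (abs_sub _ _).trans (add_le_add (b1 z) (b2 z))
  have key : ∀ R : ℝ, 0 < R → ∫ z, Real.exp (-(R⁻¹ ^ 2) * ‖z‖ ^ 2) * (P' z 1 - Q' z I) =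
      2 * ∫ u : ℂ, Real.exp (-1 * ‖u‖ ^ 2) * f (R • u) := by
    intro R hR
    have hb : 0 < R⁻¹ ^ 2 := by positivity
    have e1 := parts hb hP cP 1 (fun z => (h0 z).1) (fun z => by rw [i1]; exact b1 z)
      fun z => (h2 z).1
    have e2 := parts hb hQ cQ I (fun z => (h0 z).2) (fun z => by rw [i2]; exact b2 z)
      fun z => (h2 z).2
    simp only [i1, i2] at e1 e2
    simp only [mul_sub]
    rw [integral_sub (gauss_mul hb (by fun_prop) fun z => (h2 z).1)
      (gauss_mul hb (by fun_prop) fun z => (h2 z).2), e1, e2, ← mul_sub,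
      ← integral_sub (gauss_mul hb (by fun_prop) b1) (gauss_mul hb (by fun_prop) b2)]
    have e3 := Measure.integral_comp_inv_smul_of_nonneg volume
      (fun u : ℂ => Real.exp (-1 * ‖u‖ ^ 2) * f (R • u)) hR.le
    simp only [smul_inv_smul₀ hR.ne', norm_smul, mul_pow, norm_inv, Real.norm_eq_abs,
      abs_of_pos hR, finrank_real_complex, smul_eq_mul] at e3
    have e4 : ∀ z : ℂ, Real.exp (-(R⁻¹ ^ 2) * ‖z‖ ^ 2) * (z.re * P z) -
        Real.exp (-(R⁻¹ ^ 2) * ‖z‖ ^ 2) * (z.im * Q z) =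
          Real.exp (-1 * (R⁻¹ ^ 2 * ‖z‖ ^ 2)) * f z := fun z => by
      rw [← mul_sub, neg_one_mul, neg_mul]
    simp only [e4, e3]
    field_simp
  have hR : Tendsto (fun n : ℕ => (n : ℝ) + 1) atTop atTop :=
    tendsto_natCast_atTop_atTop.atTop_add tendsto_const_nhds
  have l1 : Tendsto (fun n : ℕ => ∫ z, Real.exp (-(((n : ℝ) + 1)⁻¹ ^ 2) * ‖z‖ ^ 2) *
      (P' z 1 - Q' z I)) atTop (𝓝 (∫ z, (P' z 1 - Q' z I))) := by
    refine tendsto_integral_of_dominated_convergence _ (fun n => Continuous.aestronglyMeasurable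
      (by fun_prop)) hi.norm (fun n => Eventually.of_forall fun z => ?_)
      (Eventually.of_forall fun z => ?_)
    · rw [norm_mul]
      refine mul_le_of_le_one_left (norm_nonneg _) ?_
      rw [Real.norm_of_nonneg (Real.exp_pos _).le, Real.exp_le_one_iff, neg_mul, neg_nonpos]
      positivity
    · have := ((((hR.inv_tendsto_atTop.pow 2).neg.mul_const (‖z‖ ^ 2)).rexp).mul_const
        (P' z 1 - Q' z I))
      simpa using this
  have l2 : Tendsto (fun n : ℕ => ∫ u : ℂ, Real.exp (-1 * ‖u‖ ^ 2) * f (((n : ℝ) + 1) • u)) atTop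
      (𝓝 (∫ u : ℂ, Real.exp (-1 * ‖u‖ ^ 2) * κ)) := by
    refine tendsto_integral_of_dominated_convergence _ (fun n => Continuous.aestronglyMeasurable
      (by fun_prop)) ((gauss_int one_pos).mul_const (C + C))
      (fun n => Eventually.of_forall fun z => ?_) ?_
    · rw [norm_mul, Real.norm_of_nonneg (Real.exp_pos _).le]
      exact mul_le_mul_of_nonneg_left (b3 _) (Real.exp_pos _).le
    · filter_upwards [(Set.countable_singleton (0 : ℂ)).ae_notMem volume] with z hz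
      have hz' : 0 < ‖z‖ := norm_pos_iff.2 hz
      refine Tendsto.const_mul _ (tendsto_iff_norm_sub_tendsto_zero.2 (squeeze_zero
        (fun _ => norm_nonneg _) (fun n => ?_)
        ((hR.atTop_mul_const hz').const_div_atTop C)))
      have h := h3 (((n : ℝ) + 1) • z)
      rw [norm_smul, Real.norm_of_nonneg (by positivity)] at h
      rw [le_div_iff₀' (by positivity)]
      exact h
  rw [integral_mul_const, gauss one_pos] at l2
  have := tendsto_nhds_unique l1 ((l2.const_mul 2).congr fun n => (key _ (by positivity)).symm)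
  rw [this]
  ring

section Form

variable {l : F1 C2} {κ : ℝ}

theorem dscale (hl : ContDiffOn ℝ 1 l nz)
    (hi : ∀ c : ℂ, c ≠ 0 → ∀ v, v ≠ 0 → ∀ w, l (c • v) (c • w) = l v w) {c : ℂ} (hc : c ≠ 0)
    {v : C2} (hv : v ≠ 0) (a w : C2) :
    fderiv ℝ l (c • v) (c • a) (c • w) = fderiv ℝ l v a w := by
  have d : ∀ y : C2, y ≠ 0 → HasFDerivAt l (fderiv ℝ l y) y := fun y hy =>
    ((hl.contDiffAt (nz_mem_nhds hy)).differentiableAt one_ne_zero).hasFDerivAt
  have h1 := ((d _ (smul_ne_zero hc hv)).comp v ((hasFDerivAt_id v).const_smul c)).clm_apply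
    (hasFDerivAt_const (c • w) v)
  have h2 := (d v hv).clm_apply (hasFDerivAt_const w v)
  have h3 := h1.unique (h2.congr_of_eventuallyEq (by
    filter_upwards [nz_mem_nhds hv] with y hy using hi c hc y hy w))
  simpa using congrArg (fun L => L a) h3

theorem bounds (hl : ContDiffOn ℝ 1 l nz)
    (hi : ∀ c : ℂ, c ≠ 0 → ∀ v, v ≠ 0 → ∀ w, l (c • v) (c • w) = l v w) :
    ∃ C, 0 ≤ C ∧ ∀ v, v ≠ 0 → ∀ a w, ‖v‖ * |l v w| ≤ C * ‖w‖ ∧
      ‖v‖ ^ 2 * |fderiv ℝ l v a w| ≤ C * ‖a‖ * ‖w‖ := by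
  have hs : sphere (0 : C2) 1 ⊆ nz := fun v hv => S3_ne ⟨v, hv⟩
  obtain ⟨C₁, h1⟩ := (isCompact_sphere (0 : C2) 1).exists_bound_of_continuousOn
    (hl.continuousOn.mono hs)
  obtain ⟨C₂, h2⟩ := (isCompact_sphere (0 : C2) 1).exists_bound_of_continuousOn
    ((hl.continuousOn_fderiv_of_isOpen isOpen_nz le_rfl).mono hs)
  refine ⟨|C₁| + |C₂|, by positivity, fun v hv a w => ?_⟩
  obtain ⟨u, hu⟩ := exists_S3 hv
  have hn : 0 < ‖v‖ := norm_pos_iff.2 hv
  have hc : (‖v‖ : ℂ) ≠ 0 := ofReal_ne_zero.2 hn.ne'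
  have e : ∀ y : C2, (‖v‖ : ℂ) • y = ‖v‖ • y := fun y => coe_smul _ _
  constructor
  · have h := hi _ hc _ (S3_ne u) w
    rw [← hu, e, map_smul, smul_eq_mul] at h
    rw [← abs_of_pos hn, ← abs_mul, h]
    refine ((l u).le_opNorm w).trans (mul_le_mul_of_nonneg_right ?_ (norm_nonneg _))
    linarith [h1 u u.2, le_abs_self C₁, abs_nonneg C₂]
  · have h := dscale hl hi hc (S3_ne u) a w
    rw [← hu, e, e, map_smul, map_smul, smul_apply, smul_smul, smul_eq_mul,
      ← sq] at h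
    rw [← abs_of_pos (pow_pos hn 2), ← abs_mul, h]
    refine ((fderiv ℝ l u).le_opNorm₂ a w).trans (mul_le_mul_of_nonneg_right
      (mul_le_mul_of_nonneg_right ?_ (norm_nonneg _)) (norm_nonneg _))
    linarith [h2 u u.2, le_abs_self C₂, abs_nonneg C₁]

theorem self_smul (hk : ∀ v, v ≠ 0 → l v v = 0 ∧ l v (I • v) = κ) {v : C2} (hv : v ≠ 0) (c : ℂ) :
    l v (c • v) = c.im * κ := by
  have e : c • v = c.re • v + c.im • (I • v) := by
    rw [← coe_smul, ← coe_smul, smul_smul, ← add_smul, re_add_im]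
  rw [e, map_add, map_smul, map_smul, (hk v hv).1, (hk v hv).2, smul_zero, zero_add, smul_eq_mul]

theorem dd_vert (hl : ContDiffOn ℝ 1 l nz)
    (hi : ∀ c : ℂ, c ≠ 0 → ∀ v, v ≠ 0 → ∀ w, l (c • v) (c • w) = l v w)
    (hk : ∀ v, v ≠ 0 → l v v = 0 ∧ l v (I • v) = κ) {v : C2} (hv : v ≠ 0) (c : ℂ) (b : C2) :
    dd l v (c • v) b = 0 := by
  have d : HasFDerivAt l (fderiv ℝ l v) v :=
    ((hl.contDiffAt (nz_mem_nhds hv)).differentiableAt one_ne_zero).hasFDerivAt
  have h1 := (d.clm_apply ((hasFDerivAt_id v).const_smul c)).unique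
    ((hasFDerivAt_const (c.im * κ) v).congr_of_eventuallyEq (by
      filter_upwards [nz_mem_nhds hv] with y hy using self_smul hk hy c))
  have h1' := congrArg (fun L => L b) h1
  have p : ∀ y : C2, HasDerivAt (fun t : ℝ => y + t • (c • y)) (c • y) 0 := fun y => by
    simpa using ((hasDerivAt_id (0 : ℝ)).smul_const (c • y)).const_add y
  have h2 := ((d.comp_hasDerivAt_of_eq (0 : ℝ) (p v) (by simp)).clm_apply (p b)).unique
    ((hasDerivAt_const (0 : ℝ) (l v b)).congr_of_eventuallyEq (by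
      have : ∀ᶠ t : ℝ in 𝓝 0, (1 + t * c : ℂ) ≠ 0 :=
        (by fun_prop : Continuous fun t : ℝ => (1 + t * c : ℂ)).continuousAt.eventually_ne
          (by simp)
      filter_upwards [this] with t ht
      have e : ∀ y : C2, y + t • (c • y) = (1 + t * c : ℂ) • y := fun y => by
        rw [add_smul, one_smul, mul_smul, coe_smul]
      simp only [Function.comp, e]
      exact hi _ ht v hv b))
  simp at h1' h2
  unfold dd
  linarith

theorem part1 (hl : ContDiffOn ℝ 1 l nz)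
    (hi : ∀ c : ℂ, c ≠ 0 → ∀ v, v ≠ 0 → ∀ w, l (c • v) (c • w) = l v w)
    (hk : ∀ v, v ≠ 0 → l v v = 0 ∧ l v (I • v) = κ) :
    Integrable (fun z : ℂ => dd l (z, 1) (1, 0) (I, 0)) ∧
    ∫ z : ℂ, dd l (z, 1) (1, 0) (I, 0) = 2 * Real.pi * κ := by
  obtain ⟨C, hC, hb⟩ := bounds hl hi
  have hne : ∀ z : ℂ, ((z, 1) : C2) ≠ 0 := fun z h => one_ne_zero (congrArg Prod.snd h)
  have n1 : ∀ z : ℂ, 1 ≤ ‖((z, 1) : C2)‖ := fun z => by simp
  have n2 : ∀ z : ℂ, ‖z‖ ≤ ‖((z, 1) : C2)‖ := fun z => by simp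
  have cD : Continuous fun z : ℂ => fderiv ℝ l (z, 1) :=
    (hl.continuousOn_fderiv_of_isOpen isOpen_nz le_rfl).comp_continuous (by fun_prop) hne
  let D : C2 → ℂ → ℂ →L[ℝ] ℝ := fun w z =>
    ((fderiv ℝ l (z, 1)).flip w).comp (ContinuousLinearMap.inl ℝ ℂ ℂ)
  have hD : ∀ w z, HasFDerivAt (fun z : ℂ => l (z, 1) w) (D w z) z := fun w z => by
    have d : HasFDerivAt l (fderiv ℝ l (z, 1)) (z, 1) :=
      ((hl.contDiffAt (nz_mem_nhds (hne z))).differentiableAt one_ne_zero).hasFDerivAt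
    refine ((d.comp z (hasFDerivAt_prodMk_left z 1)).clm_apply (hasFDerivAt_const w z)).congr_fderiv
      ?_
    ext1
    simp [D]
  have cD' : ∀ w, Continuous (D w) := fun w =>
    continuous_clm_apply.2 fun a => (cD.clm_apply continuous_const).clm_apply continuous_const
  have b0 : ∀ (z : ℂ) (w : C2), ‖w‖ = 1 → ‖((z, 1) : C2)‖ * |l (z, 1) w| ≤ C := fun z w hw => by
    simpa [hw] using (hb _ (hne z) 0 w).1
  have b1 : ∀ (z : ℂ) (w : C2), ‖w‖ = 1 → |l (z, 1) w| ≤ C := fun z w hw =>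
    (le_mul_of_one_le_left (abs_nonneg _) (n1 z)).trans (b0 z w hw)
  have b2 : ∀ (z : ℂ) (w : C2), ‖w‖ = 1 → ‖z‖ * |l (z, 1) w| ≤ C := fun z w hw =>
    (mul_le_mul_of_nonneg_right (n2 z) (abs_nonneg _)).trans (b0 z w hw)
  have b3 : ∀ (z : ℂ) (a w : C2), ‖a‖ = 1 → ‖w‖ = 1 → |fderiv ℝ l (z, 1) a w| ≤ C :=
    fun z a w ha hw => by
      have := (hb _ (hne z) a w).2
      rw [ha, hw, mul_one, mul_one] at this
      exact (le_mul_of_one_le_left (abs_nonneg _) (one_le_pow₀ (n1 z))).trans this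
  have b4 : ∀ (z : ℂ) (a w : C2), ‖w‖ = 1 →
      ‖((z, 1) : C2)‖ ^ 2 * |dd l (z, 1) a w| ≤ 2 * C * ‖a‖ := fun z a w hw => by
    have h1 := (hb _ (hne z) a w).2
    have h2 := (hb _ (hne z) w a).2
    rw [hw, mul_one] at h1 h2
    have := mul_le_mul_of_nonneg_left
      (abs_sub (fderiv ℝ l (z, 1) a w) (fderiv ℝ l (z, 1) w a)) (sq_nonneg ‖((z, 1) : C2)‖)
    unfold dd
    linarith
  have hint : Integrable fun z : ℂ => dd l (z, 1) (1, 0) (I, 0) := by
    refine ((integrable_one_add_norm (E := ℂ) (μ := volume) (r := 3) (by simp; norm_num)).const_mul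
      (16 * C)).mono' (Continuous.aestronglyMeasurable ?_) (Eventually.of_forall fun z => ?_)
    · unfold dd
      fun_prop
    have h3 : ‖((z, 1) : C2)‖ ^ 3 * |dd l (z, 1) (1, 0) (I, 0)| ≤ 2 * C := by
      rcases le_total ‖z‖ 1 with h | h
      · have h4 := b4 z (1, 0) (I, 0) (by simp)
        have : ‖((z, 1) : C2)‖ = 1 := by simp [h]
        simpa [this] using h4
      · have hz : z ≠ 0 := norm_pos_iff.1 (by linarith)
        have h4 := b4 z (0, -z⁻¹) (I, 0) (by simp)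
        have h5 := dd_vert hl hi hk (hne z) z⁻¹ (I, 0)
        have e : ((1, 0) : C2) = z⁻¹ • ((z, 1) : C2) + (0, -z⁻¹) := by simp [hz]
        have e2 : dd l (z, 1) (1, 0) (I, 0) = dd l (z, 1) (0, -z⁻¹) (I, 0) := by
          unfold dd at h5 ⊢
          rw [e, map_add, map_add, add_apply]
          linarith
        have e3 : ‖((z, 1) : C2)‖ = ‖z‖ := by simp [h]
        have e4 : ‖((0, -z⁻¹) : C2)‖ = ‖z‖⁻¹ := by simp
        rw [e3, e4, ← div_eq_mul_inv, le_div_iff₀ (by linarith)] at h4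
        rw [e2, e3]
        linarith
    have h6 : (1 + ‖z‖) ^ 3 ≤ (2 * ‖((z, 1) : C2)‖) ^ 3 :=
      pow_le_pow_left₀ (by positivity) (by linarith [n1 z, n2 z]) 3
    rw [Real.rpow_neg (by positivity), ← div_eq_mul_inv, le_div_iff₀ (by positivity),
      Real.rpow_ofNat, Real.norm_eq_abs]
    nlinarith [mul_le_mul_of_nonneg_right h6 (abs_nonneg (dd l (z, 1) (1, 0) (I, 0)))]
  refine ⟨hint, plane (C := C) (hD (I, 0)) (hD (1, 0)) (cD' _) (cD' _)
    (fun z => ⟨b1 z _ (by simp), b1 z _ (by simp)⟩) (fun z => ⟨b2 z _ (by simp), b2 z _ (by simp)⟩)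
    (fun z => ⟨b3 z (1, 0) (I, 0) (by simp) (by simp), b3 z (I, 0) (1, 0) (by simp) (by simp)⟩)
    hint fun z => ?_⟩
  have e : I • ((z, 1) : C2) = z.re • ((I, 0) : C2) - z.im • ((1, 0) : C2) + (0, I) := by
    refine Prod.ext (Complex.ext ?_ ?_) ?_ <;> simp
  have h := (hk _ (hne z)).2
  rw [e, map_add, map_sub, map_smul, map_smul, smul_eq_mul, smul_eq_mul] at h
  rw [← h, sub_add_cancel_left, abs_neg]
  exact b2 z _ (by simp)

end Form

section Homotopy

variable {V : Type} [NormedAddCommGroup V] [NormedSpace ℝ V] {β : V → V →L[ℝ] V →L[ℝ] ℝ}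

/-- The derivative in `s` of `β (p + s q) (a + s a') (b + s b')`. -/
noncomputable def hh (β : F2 V) (p q a a' b b' : V) (r : ℝ) : ℝ :=
  fderiv ℝ β (p + r • q) q (a + r • a') (b + r • b') + β (p + r • q) a' (b + r • b') +
    β (p + r • q) (a + r • a') b'

theorem hasDerivAt_hh (hβ : ContDiff ℝ 1 β) (p q a a' b b' : V) (r : ℝ) :
    HasDerivAt (fun s : ℝ => β (p + s • q) (a + s • a') (b + s • b')) (hh β p q a a' b b' r) r := by
  have L : ∀ x y : V, HasDerivAt (fun s : ℝ => x + s • y) y r := fun x y => by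
    simpa using ((hasDerivAt_id r).smul_const y).const_add x
  have d := (hβ.differentiable one_ne_zero (p + r • q)).hasFDerivAt
  have h0 : HasDerivAt (fun s : ℝ => β (p + s • q)) (fderiv ℝ β (p + r • q) q) r :=
    d.comp_hasDerivAt r (L p q)
  have h1 : HasDerivAt (fun s : ℝ => β (p + s • q) (a + s • a'))
      (fderiv ℝ β (p + r • q) q (a + r • a') + β (p + r • q) a') r := h0.clm_apply (L a a')
  exact (h1.clm_apply (L b b')).congr_deriv (by rw [add_apply, hh])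

theorem anti_fderiv (hβ : ContDiff ℝ 1 β) (ha : Anti β) (x a u v : V) :
    fderiv ℝ β x a u v = -fderiv ℝ β x a v u := by
  have d := (hβ.differentiable one_ne_zero x).hasFDerivAt
  have h : ∀ u v : V, HasFDerivAt (fun y => β y u v) _ x := fun u v =>
    (d.clm_apply (hasFDerivAt_const u x)).clm_apply (hasFDerivAt_const v x)
  have e : (fun y => β y u v) = fun y => -β y v u := funext fun y => ha y u v
  have := (h u v).unique ((h v u).neg.congr_of_eventuallyEq (Eventually.of_forall (congrFun e)))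
  simpa using congrArg (fun L => L a) this

theorem dd_hh {E : Type} [NormedAddCommGroup E] [NormedSpace ℝ E] {A B : E → V} {x : E} (a b : E)
    {r : ℝ} (hβ : ContDiff ℝ 1 β) (ha : Anti β) (hc : ClosedOn β {A x + r • B x})
    (hA : ContDiffAt ℝ 2 A x) (hB : ContDiffAt ℝ 2 B x) :
    dd (fun y => (β (A y + r • B y) (B y)).comp (fderiv ℝ A y + r • fderiv ℝ B y)) x a b =
      hh β (A x) (B x) (fderiv ℝ A x a) (fderiv ℝ B x a) (fderiv ℝ A x b) (fderiv ℝ B x b) r := by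
  have dA := (hA.differentiableAt (by simp)).hasFDerivAt
  have dB := (hB.differentiableAt (by simp)).hasFDerivAt
  have dA' := ((hA.fderiv_right (m := 1) le_rfl).differentiableAt one_ne_zero).hasFDerivAt
  have dB' := ((hB.fderiv_right (m := 1) le_rfl).differentiableAt one_ne_zero).hasFDerivAt
  have d := (hβ.differentiable one_ne_zero (A x + r • B x)).hasFDerivAt
  have h := (((d.comp x (dA.add (dB.const_smul r))).clm_apply dB).clm_comp
    (dA'.add (dB'.const_smul r))).fderiv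
  have sA := (hA.isSymmSndFDerivAt (by simp)).eq a b
  have sB := (hB.isSymmSndFDerivAt (by simp)).eq a b
  have h1 := hc _ rfl (B x) (fderiv ℝ A x a + r • fderiv ℝ B x a)
    (fderiv ℝ A x b + r • fderiv ℝ B x b)
  have h2 := anti_fderiv hβ ha (A x + r • B x) (fderiv ℝ A x a + r • fderiv ℝ B x a) (B x)
    (fderiv ℝ A x b + r • fderiv ℝ B x b)
  have h3 := ha (A x + r • B x) (fderiv ℝ B x b) (fderiv ℝ A x a + r • fderiv ℝ B x a)
  unfold dd hh
  erw [h]
  simp only [add_apply, smul_apply, ContinuousLinearMap.comp_apply, ContinuousLinearMap.flip_apply,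
    ContinuousLinearMap.compL_apply, Function.comp, Pi.add_apply, Pi.smul_apply, sA, sB]
  linarith

theorem bil_le {f : V →L[ℝ] V →L[ℝ] ℝ} {M m : ℝ} {a b : V} (hf : ‖f‖ ≤ M) (ha : ‖a‖ ≤ m)
    (hb : ‖b‖ ≤ m) : |f a b| ≤ M * m ^ 2 := by
  have hm := (norm_nonneg _).trans ha
  have hM := (norm_nonneg _).trans hf
  refine (f.le_opNorm₂ a b).trans ?_
  rw [sq, ← mul_assoc]
  gcongr

theorem part3 (hM : MobStmt) {O : Set V} {U U' : C2 → V} (hβ : ContDiff ℝ 1 β) (ha : Anti β)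
    (hc : ClosedOn β O) (hU : Map2 univ U) (hU' : Map2 univ U')
    (hO : ∀ v, v ≠ 0 → ∀ r ∈ Icc (0 : ℝ) 1, U v + r • (U' v - U v) ∈ O) :
    area β U' = area β U := by
  set W : C2 → V := fun v => U' v - U v with hW
  have hWs : ContDiffOn ℝ 2 W nz := hU'.sm.sub hU.sm
  have hWi : Inv W := fun c h v hv => by simp only [hW, hU.inv c h v hv, hU'.inv c h v hv]
  have hne : ∀ z : ℂ, ((z, 1) : C2) ≠ 0 := fun z h => one_ne_zero (congrArg Prod.snd h)
  have dif : ∀ {F : C2 → V}, ContDiffOn ℝ 2 F nz → ∀ v, v ≠ 0 → DifferentiableAt ℝ F v :=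
    fun h v hv => (h.contDiffAt (nz_mem_nhds hv)).differentiableAt (by simp)
  have c0 : ∀ {F : C2 → V}, ContDiffOn ℝ 2 F nz → Continuous fun z : ℂ => F (z, 1) := fun h =>
    h.continuousOn.comp_continuous (by fun_prop) hne
  have c1 : ∀ {F : C2 → V}, ContDiffOn ℝ 2 F nz → Continuous fun z : ℂ => fderiv ℝ F (z, 1) :=
    fun h => (h.continuousOn_fderiv_of_isOpen isOpen_nz (by simp)).comp_continuous (by fun_prop) hne
  have cU := c0 hU.sm
  have cW := c0 hWs
  have cU' := c1 hU.sm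
  have cW' := c1 hWs
  have cβ := hβ.continuous
  have cβ' := hβ.continuous_fderiv one_ne_zero
  have kU := (hU.inv.isCompact_im hU.sm.continuousOn).1
  have kW := (hWi.isCompact_im hWs.continuousOn).1
  have kK := (((isCompact_Icc (a := (-1 : ℝ)) (b := 2)).prod (kU.prod kW)).image
    (f := fun q : ℝ × V × V => q.2.1 + q.1 • q.2.2) (by fun_prop))
  obtain ⟨M₁, h1⟩ := kK.exists_bound_of_continuousOn cβ.continuousOn
  obtain ⟨M₂, h2⟩ := kK.exists_bound_of_continuousOn cβ'.continuousOn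
  obtain ⟨M₃, h3⟩ := kW.exists_bound_of_continuousOn continuousOn_id
  have mem : ∀ (z : ℂ), ∀ s ∈ Icc (-1 : ℝ) 2, U (z, 1) + s • W (z, 1) ∈
      (fun q : ℝ × V × V => q.2.1 + q.1 • q.2.2) '' (Icc (-1 : ℝ) 2 ×ˢ im U ×ˢ im W) :=
    fun z s hs => ⟨(s, U (z, 1), W (z, 1)), ⟨hs, ⟨_, hne z, rfl⟩, ⟨_, hne z, rfl⟩⟩, rfl⟩
  set m : ℂ → ℝ := fun z => ‖fderiv ℝ (aff U) z‖ + 2 * ‖fderiv ℝ (aff W) z‖ with hm
  have im2 : Integrable fun z => m z ^ 2 := by
    have i1 := ((hM V).1 U (hU.sm.of_le (by simp)) hU.inv).2.1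
    have i2 := ((hM V).1 W (hWs.of_le (by simp)) hWi).2.1
    have q1 : ContDiff ℝ 2 (aff U) := contDiff_iff_contDiffAt.2 fun z =>
      (hU.sm.contDiffAt (nz_mem_nhds (hne z))).comp z (by fun_prop)
    have q2 : ContDiff ℝ 2 (aff W) := contDiff_iff_contDiffAt.2 fun z =>
      (hWs.contDiffAt (nz_mem_nhds (hne z))).comp z (by fun_prop)
    have q3 := q1.continuous_fderiv (by simp)
    have q4 := q2.continuous_fderiv (by simp)
    refine ((i1.const_mul 2).add (i2.const_mul 8)).mono'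
      (Continuous.aestronglyMeasurable (by fun_prop)) (Eventually.of_forall fun z => ?_)
    rw [Real.norm_of_nonneg (sq_nonneg _)]
    simp only [hm, Pi.add_apply]
    nlinarith [sq_nonneg (‖fderiv ℝ (aff U) z‖ - 2 * ‖fderiv ℝ (aff W) z‖)]
  have n1 : ∀ {F : C2 → V}, ContDiffOn ℝ 2 F nz → ∀ (z a : ℂ), ‖a‖ = 1 →
      ‖fderiv ℝ F (z, 1) (a, 0)‖ ≤ ‖fderiv ℝ (aff F) z‖ := fun h z a ha => by
    rw [← fderiv_aff (dif h _ (hne z))]
    simpa [ha] using (fderiv ℝ (aff _) z).le_opNorm a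
  have n2 : ∀ (z a : ℂ), ‖a‖ = 1 → ‖fderiv ℝ W (z, 1) (a, 0)‖ ≤ m z := fun z a ha => by
    have := n1 hWs z a ha
    simp only [hm]
    linarith [norm_nonneg (fderiv ℝ (aff U) z), norm_nonneg (fderiv ℝ (aff W) z)]
  have n3 : ∀ (z a : ℂ), ‖a‖ = 1 → ∀ s ∈ Icc (-1 : ℝ) 2,
      ‖fderiv ℝ U (z, 1) (a, 0) + s • fderiv ℝ W (z, 1) (a, 0)‖ ≤ m z := fun z a ha s hs => by
    refine (norm_add_le _ _).trans (add_le_add (n1 hU.sm z a ha) ?_)
    rw [norm_smul]
    exact mul_le_mul (abs_le.2 ⟨by linarith [hs.1], hs.2⟩) (n1 hWs z a ha) (norm_nonneg _)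
      zero_le_two
  let g : ℝ → ℂ → ℝ := fun s z => β (U (z, 1) + s • W (z, 1))
    (fderiv ℝ U (z, 1) (1, 0) + s • fderiv ℝ W (z, 1) (1, 0))
    (fderiv ℝ U (z, 1) (I, 0) + s • fderiv ℝ W (z, 1) (I, 0))
  let g' : ℝ → ℂ → ℝ := fun s z => hh β (U (z, 1)) (W (z, 1)) (fderiv ℝ U (z, 1) (1, 0))
    (fderiv ℝ W (z, 1) (1, 0)) (fderiv ℝ U (z, 1) (I, 0)) (fderiv ℝ W (z, 1) (I, 0)) s
  have cp : ∀ s : ℝ, Continuous fun z : ℂ => U (z, 1) + s • W (z, 1) := fun s =>
    cU.add (cW.const_smul s)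
  have cb : ∀ a : C2, Continuous fun z : ℂ => fderiv ℝ W (z, 1) a := fun a =>
    cW'.clm_apply continuous_const
  have ca : ∀ (s : ℝ) (a : C2), Continuous fun z : ℂ =>
      fderiv ℝ U (z, 1) a + s • fderiv ℝ W (z, 1) a := fun s a =>
    (cU'.clm_apply continuous_const).add ((cb a).const_smul s)
  have gc : ∀ s, Continuous (g s) := fun s =>
    ((cβ.comp (cp s)).clm_apply (ca s _)).clm_apply (ca s _)
  have gc' : ∀ s, Continuous (g' s) := fun s =>
    (((((cβ'.comp (cp s)).clm_apply cW).clm_apply (ca s _)).clm_apply (ca s _)).add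
      (((cβ.comp (cp s)).clm_apply (cb _)).clm_apply (ca s _))).add
      (((cβ.comp (cp s)).clm_apply (ca s _)).clm_apply (cb _))
  have der : ∀ r ∈ Icc (0 : ℝ) 1, HasDerivAt (fun s => ∫ z, g s z) 0 r := by
    intro r hr
    have hr' : r ∈ Icc (-1 : ℝ) 2 := ⟨by linarith [hr.1], by linarith [hr.2]⟩
    have h := (hasDerivAt_integral_of_dominated_loc_of_deriv_le (μ := volume) (F := g) (F' := g')
      (s := Icc (-1 : ℝ) 2) (bound := fun z => (M₂ * M₃ + M₁ + M₁) * m z ^ 2)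
      (Icc_mem_nhds (by linarith [hr.1]) (by linarith [hr.2]))
      (Eventually.of_forall fun s => (gc s).aestronglyMeasurable)
      ((im2.const_mul M₁).mono' (gc r).aestronglyMeasurable (Eventually.of_forall fun z =>
        bil_le (h1 _ (mem z r hr')) (n3 z 1 (by simp) r hr') (n3 z I (by simp) r hr')))
      (gc' r).aestronglyMeasurable (Eventually.of_forall fun z s hs => ?_) (im2.const_mul _)
      (Eventually.of_forall fun z s _ => hasDerivAt_hh hβ _ _ _ _ _ _ s)).2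
    · have p := (part1 (κ := 0) (l := fun y =>
        (β (U y + r • W y) (W y)).comp (fderiv ℝ U y + r • fderiv ℝ W y)) ?_ ?_ ?_).2
      · rw [mul_zero] at p
        rw [← p]
        refine h.congr_deriv (integral_congr_ae (Eventually.of_forall fun z => (dd_hh _ _ hβ ha
          (fun x hx => hc x (hx ▸ hO _ (hne z) r hr)) (hU.sm.contDiffAt (nz_mem_nhds (hne z)))
          (hWs.contDiffAt (nz_mem_nhds (hne z)))).symm))
      · have a1 : ContDiffOn ℝ 1 U nz := hU.sm.of_le (by simp)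
        have a2 : ContDiffOn ℝ 1 W nz := hWs.of_le (by simp)
        exact ((hβ.comp_contDiffOn (a1.add (a2.const_smul r))).clm_apply a2).clm_comp
          ((hU.sm.fderiv_of_isOpen isOpen_nz le_rfl).add
            ((hWs.fderiv_of_isOpen isOpen_nz le_rfl).const_smul r))
      · intro c h v hv w
        simp only [ContinuousLinearMap.comp_apply, add_apply, smul_apply, hU.inv c h v hv,
          hWi c h v hv, hU.inv.fderiv_smul h hv (dif hU.sm v hv),
          hWi.fderiv_smul h hv (dif hWs v hv)]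
      · intro v hv
        have a1 := hU.inv.fderiv_self hv (dif hU.sm v hv)
        have a2 := hWi.fderiv_self hv (dif hWs v hv)
        have a3 := a1 1
        have a4 := a2 1
        rw [one_smul] at a3 a4
        simp only [ContinuousLinearMap.comp_apply, add_apply, smul_apply, a1, a2, a3, a4,
          smul_zero, add_zero, map_zero, and_self]
    · have a1 : ‖fderiv ℝ β (U (z, 1) + s • W (z, 1)) (W (z, 1))‖ ≤ M₂ * M₃ :=
        ((fderiv ℝ β _).le_opNorm _).trans (mul_le_mul (h2 _ (mem z s hs))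
          (h3 _ ⟨_, hne z, rfl⟩) (norm_nonneg _) ((norm_nonneg _).trans (h2 _ (mem z s hs))))
      have a2 := bil_le a1 (n3 z 1 (by simp) s hs) (n3 z I (by simp) s hs)
      have a3 := bil_le (h1 _ (mem z s hs)) (n2 z 1 (by simp)) (n3 z I (by simp) s hs)
      have a4 := bil_le (h1 _ (mem z s hs)) (n3 z 1 (by simp) s hs) (n2 z I (by simp))
      refine (abs_add_three _ _ _).trans ?_
      linarith
  have fin := constant_of_has_deriv_right_zero (f := fun s => ∫ z, g s z) (a := 0) (b := 1)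
    (fun r hr => (der r hr).continuousAt.continuousWithinAt)
    (fun r hr => (der r (Ico_subset_Icc_self hr)).hasDerivWithinAt) 1 (right_mem_Icc.2 zero_le_one)
  have e0 : area β U = ∫ z, g 0 z := integral_congr_ae (Eventually.of_forall fun z => by
    simp only [g, dens, zero_smul, add_zero, fderiv_aff (dif hU.sm _ (hne z))]
    rfl)
  have e1 : area β U' = ∫ z, g 1 z := integral_congr_ae (Eventually.of_forall fun z => by
    have : fderiv ℝ W (z, 1) = fderiv ℝ U' (z, 1) - fderiv ℝ U (z, 1) :=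
      fderiv_sub (dif hU'.sm _ (hne z)) (dif hU.sm _ (hne z))
    have e : U (z, 1) + W (z, 1) = U' (z, 1) := add_sub_cancel _ _
    simp only [g, dens, one_smul, fderiv_aff (dif hU'.sm _ (hne z)), this, sub_apply, e,
      add_sub_cancel]
    rfl)
  rw [e0, e1]
  exact fin

end Homotopy

end StokesP

open StokesP in
theorem stokes_of (h1 : MobStmt) : StokesStmt :=
  ⟨fun _ _ hl hi hk => part1 hl hi hk,
    fun _ _ _ _ _ _ _ _ _ _ a b r hβ ha hc hA hB => by
      rw [dd_hh a b hβ ha hc hA hB]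
      exact hasDerivAt_hh hβ _ _ _ _ _ _ r,
    fun _ _ _ _ _ _ _ hβ ha hc hU hU' hO => part3 h1 hβ ha hc hU hU' hO⟩

end Pool.Agent.MP_9758ca_gt

end
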