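import Mathlib.Algebra.Ring.IsFormallyReal
import Mathlib.Analysis.Complex.Convex
import Mathlib.Geometry.Manifold.PartitionOfUnity
import Mathlib.Analysis.Complex.BranchLogRoot
import Mathlib.Analysis.Real.Pi.Bounds
import Pool.Agent.MP_9758ca_gt.SpecA

section

/-!
PROJECT BALL, module CHERN: the Chern number of a sphere is the area of a fixed two-form.
-/

open scoped Topology ContDiff ComplexConjugate Manifold
open Set Metric Filter Complex MeasureTheory

namespace Pool.Agent.MP_9758ca_gt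

noncomputable section

namespace ChernP

/-! ### linear algebra -/

/-- determinant of three vectors -/
def d3 (m : Fin 3 → C3) : ℂ := (Matrix.of m).det

theorem d3_comp (A : C3 →ₗ[ℂ] C3) (m : Fin 3 → C3) :
    d3 (fun a => A (m a)) = LinearMap.det A * d3 m := by
  have := (Pi.basisFun ℂ (Fin 3)).det_comp A m
  rwa [Pi.basisFun_det_apply, Pi.basisFun_det_apply] at this

theorem d3_rep (k : Fin 3 → ℤ) {c : ℂ} (hc : c ≠ 0) (m : Fin 3 → C3) :
    d3 (fun a => rep k c (m a)) = c ^ (∑ i, k i) * d3 m := by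
  have := Matrix.det_mul_row (fun i => c ^ k i) (Matrix.of m)
  rw [Fin.prod_univ_three, ← zpow_add₀ hc, ← zpow_add₀ hc, ← Fin.sum_univ_three] at this
  rw [d3, d3, ← this]
  congr 1

theorem d3_span {m : Fin 3 → C3} (h : d3 m ≠ 0) : Submodule.span ℂ (range m) = ⊤ := by
  refine ((Pi.basisFun ℂ (Fin 3)).is_basis_iff_det.2 ?_).2
  rw [Pi.basisFun_det_apply]
  exact h.isUnit

theorem contDiffAt_d3 {X : Type} [NormedAddCommGroup X] [NormedSpace ℝ X] {m : X → Fin 3 → C3}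
    {x : X} (h : ∀ a, ContDiffAt ℝ 2 (fun y => m y a) x) :
    ContDiffAt ℝ 2 (fun y => d3 (m y)) x := by
  have h' : ∀ a b, ContDiffAt ℝ 2 (fun y => m y a b) x := fun a b => contDiffAt_pi.1 (h a) b
  simp only [d3, Matrix.det_fin_three, Matrix.of_apply]
  exact ((((((h' _ _).mul (h' _ _)).mul (h' _ _)).sub
    (((h' _ _).mul (h' _ _)).mul (h' _ _))).sub (((h' _ _).mul (h' _ _)).mul (h' _ _))).add
    (((h' _ _).mul (h' _ _)).mul (h' _ _))).add (((h' _ _).mul (h' _ _)).mul (h' _ _)) |>.sub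
    (((h' _ _).mul (h' _ _)).mul (h' _ _))

section la
variable {V : Type} [NormedAddCommGroup V] [NormedSpace ℝ V] [FiniteDimensional ℝ V]
  {T : Submodule ℝ V} {j : En0 V}

theorem fin6 : Module.finrank ℝ C3 = 6 := by
  rw [Module.finrank_pi_fintype]; simp

omit [FiniteDimensional ℝ V] in
theorem cplx {F : V →L[ℝ] C3} (hF : ∀ y ∈ T, F (j y) = I • F y) (c : ℂ) {y : V} (hy : y ∈ T) :
    F (c.re • y + c.im • j y) = c • F y := by
  rw [map_add, map_smul, map_smul, hF y hy]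
  conv_rhs => rw [← re_add_im c, add_smul, mul_smul]
  simp

theorem la1 (hT : Module.finrank ℝ T = 6) (hj : ∀ y ∈ T, j y ∈ T) {g F : V →L[ℝ] C3}
    (hg : ∀ y ∈ T, g (j y) = I • g y) (hF : ∀ y ∈ T, F (j y) = I • F y)
    (hi : ∀ y ∈ T, g y = 0 → y = 0) : ∃ A : ℂ, ∀ w : Fin 3 → V, (∀ a, w a ∈ T) →
      d3 (fun a => F (w a)) = A * d3 fun a => g (w a) := by
  let g' : T →ₗ[ℝ] C3 := g.toLinearMap.domRestrict T
  have h1 : Function.Injective g' := (injective_iff_map_eq_zero g').2 fun y hy =>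
    Subtype.ext (hi y y.2 hy)
  let e : T ≃ₗ[ℝ] C3 := LinearEquiv.ofBijective g'
    ⟨h1, (LinearMap.injective_iff_surjective_of_finrank_eq_finrank (hT.trans fin6.symm)).1 h1⟩
  have he : ∀ y (hy : y ∈ T), ((e.symm (g y) : T) : V) = y := fun y hy =>
    congrArg Subtype.val (e.symm_apply_apply ⟨y, hy⟩)
  let A : C3 →ₗ[ℂ] C3 :=
    { toFun := fun ζ => F (e.symm ζ : T)
      map_add' := fun a b => by rw [map_add, Submodule.coe_add, map_add]
      map_smul' := fun c ζ => by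
        obtain ⟨y, rfl⟩ := e.surjective ζ
        change F (e.symm (c • g y) : T) = c • F (e.symm (g y) : T)
        rw [← cplx hg c y.2, he _ y.2, he _ (T.add_mem (T.smul_mem _ y.2)
          (T.smul_mem _ (hj _ y.2))), cplx hF c y.2] }
  refine ⟨LinearMap.det A, fun w hw => ?_⟩
  rw [← d3_comp]
  congr 1
  funext a
  exact (congrArg F (he _ (hw a))).symm

theorem la2 (hT : Module.finrank ℝ T = 6) (hj : ∀ y ∈ T, j y ∈ T) {F : V →L[ℝ] C3}
    (hF : ∀ y ∈ T, F (j y) = I • F y) {w : Fin 3 → V} (hw : ∀ a, w a ∈ T)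
    (hd : d3 (fun a => F (w a)) ≠ 0) : ∀ y ∈ T, F y = 0 → y = 0 := by
  let F' : T →ₗ[ℝ] C3 := F.toLinearMap.domRestrict T
  let S : Submodule ℂ C3 :=
    { carrier := range F'
      add_mem' := by
        rintro _ _ ⟨a, rfl⟩ ⟨b, rfl⟩
        exact ⟨a + b, map_add _ _ _⟩
      zero_mem' := ⟨0, map_zero _⟩
      smul_mem' := by
        rintro c _ ⟨y, rfl⟩
        exact ⟨⟨_, T.add_mem (T.smul_mem c.re y.2) (T.smul_mem c.im (hj _ y.2))⟩,
          cplx hF c y.2⟩ }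
  have h1 : Function.Surjective F' := fun ζ => by
    have : Submodule.span ℂ (range fun a => F (w a)) ≤ S := by
      rw [Submodule.span_le]
      rintro _ ⟨a, rfl⟩
      exact ⟨⟨w a, hw a⟩, rfl⟩
    rw [d3_span hd] at this
    exact this Submodule.mem_top
  have h2 := (LinearMap.injective_iff_surjective_of_finrank_eq_finrank
    (hT.trans fin6.symm)).2 h1
  intro y hy h0
  exact congrArg Subtype.val ((injective_iff_map_eq_zero F').1 h2 ⟨y, hy⟩ h0)

theorem la3 (hT : Module.finrank ℝ T = 6) (hj : ∀ y ∈ T, j y ∈ T ∧ j (j y) = -y) :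
    ∃ (f : V →L[ℝ] C3) (w : Fin 3 → V), (∀ a, w a ∈ T) ∧
      d3 (fun a => f (w a) - I • f (j (w a))) ≠ 0 := by
  let j' : Module.End ℝ T := j.toLinearMap.restrict fun y hy => (hj y hy).1
  have hj' : j' * j' = -1 := LinearMap.ext fun y => Subtype.ext (hj y y.2).2
  let φ := liftAux j' hj'
  let _ : Module ℂ T := Module.compHom T φ.toRingHom
  have hs : ∀ (c : ℂ) (y : T), c • y = φ c y := fun _ _ => rfl
  have : IsScalarTower ℝ ℂ T := ⟨fun r c y => by rw [hs, hs, map_smul]; rfl⟩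
  have : Module.Finite ℂ T := Module.Finite.of_restrictScalars_finite ℝ ℂ T
  have h3 : Module.finrank ℂ T = 3 := by
    have := Module.finrank_mul_finrank ℝ ℂ T
    rw [finrank_real_complex, hT] at this
    omega
  let b := Module.finBasisOfFinrankEq ℂ T h3
  obtain ⟨f, hf⟩ := LinearMap.exists_extend (b.equivFun.toLinearMap.restrictScalars ℝ)
  have hf' : ∀ y : T, f y = b.equivFun y := fun y => LinearMap.congr_fun hf y
  refine ⟨f.toContinuousLinearMap, fun a => b a, fun a => (b a).2, ?_⟩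
  have h4 : ∀ a, f (b a) - I • f (j (b a)) = (2 : ℂ) • Pi.single a (1 : ℂ) := by
    intro a
    have h5 : j (b a) = ((I • b a : T) : V) := by rw [hs, liftAux_apply_I]; rfl
    have h6 : b.equivFun (b a) = Pi.single a 1 := by
      funext i
      rw [b.equivFun_self, Pi.single_apply]
      simp only [eq_comm]
    rw [h5, hf', hf', map_smul, smul_smul, I_mul_I, h6, neg_smul, one_smul, sub_neg_eq_add,
      two_smul]
  simp only [LinearMap.coe_toContinuousLinearMap', h4]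
  simp [d3, Matrix.det_fin_three]

end la

/-! ### logarithmic derivatives -/

section dl
variable {X Y : Type} [NormedAddCommGroup X] [NormedSpace ℝ X] [NormedAddCommGroup Y]
  [NormedSpace ℝ Y]

/-- the form `Im (dg / g)` -/
def dl (g : X → ℂ) : F1 X := fun y => imCLM.comp ((mulC (g y)⁻¹).comp (fderiv ℝ g y))

theorem dl_apply (g : X → ℂ) (y a : X) : dl g y a = ((g y)⁻¹ * fderiv ℝ g y a).im := rfl

theorem dl_mul {g h : X → ℂ} {y : X} (hg : DifferentiableAt ℝ g y) (hh : DifferentiableAt ℝ h y)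
    (g0 : g y ≠ 0) (h0 : h y ≠ 0) (a : X) :
    dl (fun x => g x * h x) y a = dl g y a + dl h y a := by
  rw [dl_apply, dl_apply, dl_apply, fderiv_fun_mul hg hh, ← add_im]
  congr 1
  simp only [add_apply, smul_apply, smul_eq_mul]
  field_simp
  ring

theorem dl_congr {g h : X → ℂ} {y : X} (e : g =ᶠ[𝓝 y] h) (a : X) : dl g y a = dl h y a := by
  rw [dl_apply, dl_apply, e.fderiv_eq, e.eq_of_nhds]

theorem dl_comp {h : Y → ℂ} {U : X → Y} {y : X} (hh : DifferentiableAt ℝ h (U y))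
    (hU : DifferentiableAt ℝ U y) (a : X) :
    dl (fun x => h (U x)) y a = dl h (U y) (fderiv ℝ U y a) := by
  rw [dl_apply, dl_apply, fderiv_fun_comp y hh hU]; rfl

theorem contDiffAt_dl {g : X → ℂ} {y : X} (hg : ContDiffAt ℝ 2 g y) (g0 : g y ≠ 0) :
    ContDiffAt ℝ 1 (dl g) y := by
  have h1 : ContDiffAt ℝ 1 (fun x => (g x)⁻¹) y := (hg.of_le (by norm_num)).inv g0
  have h2 : ContDiffAt ℝ 1 (fun x => mulC (g x)⁻¹) y :=
    (ContinuousLinearMap.mul ℝ ℂ).contDiff.contDiffAt.comp y h1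
  exact contDiffAt_const.clm_comp (h2.clm_comp (hg.fderiv_right (by norm_num)))

theorem dd_sum {ι : Type} [Fintype ι] {l : ι → F1 X} {x : X}
    (h : ∀ i, DifferentiableAt ℝ (l i) x) (a b : X) :
    dd (fun y => ∑ i, l i y) x a b = ∑ i, dd (l i) x a b := by
  simp only [dd]
  rw [fderiv_fun_sum fun i _ => h i]
  simp [Finset.sum_sub_distrib]

/-- wedge product of two covectors -/
def wg (a b : X →L[ℝ] ℝ) : X →L[ℝ] X →L[ℝ] ℝ := a.smulRight b - b.smulRight a

theorem wg_apply (a b : X →L[ℝ] ℝ) (u w : X) : wg a b u w = a u * b w - b u * a w := by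
  simp [wg]

theorem continuousAt_wg {a b : X → X →L[ℝ] ℝ} {x : X} (ha : ContinuousAt a x)
    (hb : ContinuousAt b x) : ContinuousAt (fun y => wg (a y) (b y)) x := by
  have h := (isBoundedBilinearMap_smulRight (𝕜 := ℝ) (E := X) (F := X →L[ℝ] ℝ)).continuous
  exact (h.continuousAt.comp (ha.prodMk hb)).sub (h.continuousAt.comp (hb.prodMk ha))

end dl

/-! ### the two-form -/

section form
variable {V : Type} [NormedAddCommGroup V] [NormedSpace ℝ V] {ι : Type} [Fintype ι]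

/-- the curvature form of a cocycle -/
def gam (φ : ι → V → ℝ) (D : ι → ι → V → ℂ) : F2 V := fun x =>
  ∑ i, ∑ j, φ j x • wg (fderiv ℝ (φ i) x) (dl (D j i) x - dl (D j j) x)

theorem gam_apply (φ : ι → V → ℝ) (D : ι → ι → V → ℂ) (x a b : V) : gam φ D x a b =
    ∑ i, ∑ j, φ j x * (fderiv ℝ (φ i) x a * (dl (D j i) x b - dl (D j j) x b) -
      (dl (D j i) x a - dl (D j j) x a) * fderiv ℝ (φ i) x b) := by
  simp [gam, wg_apply]

omit [NormedSpace ℝ V] in
theorem contAt_sum {W : Type} [NormedAddCommGroup W] {f : ι → V → W} {x : V}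
    (h : ∀ i, ContinuousAt (f i) x) : ContinuousAt (fun y => ∑ i, f i y) x :=
  tendsto_finsetSum _ fun i _ => h i

theorem gam_cont {K : Set V} {φ : ι → V → ℝ} {D : ι → ι → V → ℂ} (hφ : ∀ i, ContDiff ℝ 2 (φ i))
    (hD : ∀ j i, ContDiff ℝ 2 (D j i)) (hs : ∀ i, ∀ x ∈ tsupport (φ i), D i i x ≠ 0)
    (hK : ∀ x ∈ K, ∀ i j, D i i x ≠ 0 → D j j x ≠ 0 → D j i x ≠ 0) :
    ContinuousOn (gam φ D) K := by
  intro x hx
  refine ContinuousAt.continuousWithinAt ?_
  refine contAt_sum (W := V →L[ℝ] V →L[ℝ] ℝ) fun i => contAt_sum (W := V →L[ℝ] V →L[ℝ] ℝ) fun j => ?_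
  by_cases hi : x ∈ tsupport (φ i)
  · by_cases hj : x ∈ tsupport (φ j)
    · refine (hφ j).continuous.continuousAt.smul (continuousAt_wg
        ((hφ i).continuous_fderiv (by norm_num)).continuousAt (ContinuousAt.sub ?_ ?_))
      · exact (contDiffAt_dl (hD j i).contDiffAt
          (hK x hx i j (hs i x hi) (hs j x hj))).continuousAt
      · exact (contDiffAt_dl (hD j j).contDiffAt (hs j x hj)).continuousAt
    · refine continuousAt_const.congr (f := fun _ => 0) ?_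
      filter_upwards [notMem_tsupport_iff_eventuallyEq.1 hj] with y hy
      ext u w
      simp [hy]
  · refine continuousAt_const.congr (f := fun _ => 0) ?_
    filter_upwards [(notMem_tsupport_iff_eventuallyEq.1 hi).eventuallyEq_nhds] with y hy
    have : fderiv ℝ (φ i) y = 0 := by rw [hy.fderiv_eq]; exact fderiv_const_apply (0 : ℝ)
    ext u w
    simp [wg_apply, this]

theorem area_gam (h1 : StokesStmt) {φ : ι → V → ℝ} {D : ι → ι → V → ℂ}
    (hφ : ∀ i, ContDiff ℝ 2 (φ i)) (hD : ∀ j i, ContDiff ℝ 2 (D j i))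
    (hs : ∀ i, ∀ x ∈ tsupport (φ i), D i i x ≠ 0) {U : C2 → V} (hU : ContDiffOn ℝ 2 U nz)
    (hI : Inv U) (h0 : ∀ v, v ≠ 0 → ∑ i, φ i (U v) = 1)
    (hK : ∀ v, v ≠ 0 → ∀ i j, D i i (U v) ≠ 0 → D j j (U v) ≠ 0 → D j i (U v) ≠ 0)
    {G : ι → C2 → ℂ} {c : ℤ} (hG : ∀ i, ContDiffOn ℝ 2 (G i) nz) (hH : ∀ i, Hom (rep1 c) (G i))
    (hG0 : ∀ v, v ≠ 0 → ∀ i, D i i (U v) ≠ 0 → G i v ≠ 0)
    (hr : ∀ v, v ≠ 0 → ∀ i j, G i v * D j j (U v) = G j v * D j i (U v)) :
    area (gam φ D) U = 2 * Real.pi * c := by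
  have hU' : ∀ v, v ≠ 0 → ContDiffAt ℝ 2 U v := fun v hv => hU.contDiffAt (nz_mem_nhds hv)
  have hG' : ∀ i v, v ≠ 0 → ContDiffAt ℝ 2 (G i) v := fun i v hv =>
    (hG i).contDiffAt (nz_mem_nhds hv)
  have hUd : ∀ v, v ≠ 0 → DifferentiableAt ℝ U v := fun v hv =>
    (hU' v hv).differentiableAt (by norm_num)
  have hGd : ∀ i v, v ≠ 0 → DifferentiableAt ℝ (G i) v := fun i v hv =>
    (hG' i v hv).differentiableAt (by norm_num)
  have hφU : ∀ i v, v ≠ 0 → ContDiffAt ℝ 2 (fun v => φ i (U v)) v := fun i v hv =>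
    (hφ i).contDiffAt.comp v (hU' v hv)
  have hφd : ∀ i v, v ≠ 0 → ∀ a, fderiv ℝ (fun v => φ i (U v)) v a =
      fderiv ℝ (φ i) (U v) (fderiv ℝ U v a) := fun i v hv a => by
    rw [fderiv_fun_comp v ((hφ i).differentiable (by norm_num) _) (hUd v hv)]; rfl
  have hz : ∀ i v, v ≠ 0 → U v ∉ tsupport (φ i) → fderiv ℝ (φ i) (U v) = 0 ∧
      (fun v => φ i (U v) • dl (G i) v) =ᶠ[𝓝 v] fun _ => 0 := by
    intro i v hv hi
    have h2 := notMem_tsupport_iff_eventuallyEq.1 hi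
    refine ⟨by rw [h2.fderiv_eq]; exact fderiv_const_apply (0 : ℝ), ?_⟩
    filter_upwards [(hU' v hv).continuousAt.eventually h2] with y hy
    rw [hy, Pi.zero_apply, zero_smul]
  have ht : ∀ i v, v ≠ 0 → ContDiffAt ℝ 1 (fun v => φ i (U v) • dl (G i) v) v := by
    intro i v hv
    by_cases hi : U v ∈ tsupport (φ i)
    · exact ((hφU i v hv).of_le (by norm_num)).smul
        (contDiffAt_dl (hG' i v hv) (hG0 v hv i (hs i _ hi)))
    · exact contDiffAt_const.congr_of_eventuallyEq (hz i v hv hi).2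
  have hdd : ∀ i v, v ≠ 0 → ∀ a b, dd (fun v => φ i (U v) • dl (G i) v) v a b =
      fderiv ℝ (φ i) (U v) (fderiv ℝ U v a) * dl (G i) v b -
        fderiv ℝ (φ i) (U v) (fderiv ℝ U v b) * dl (G i) v a := by
    intro i v hv a b
    by_cases hi : U v ∈ tsupport (φ i)
    · have g0 := hG0 v hv i (hs i _ hi)
      rw [dd_smul ((hφU i v hv).differentiableAt (by norm_num))
        ((contDiffAt_dl (hG' i v hv) g0).differentiableAt (by norm_num)), hφd i v hv, hφd i v hv]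
      have : dd (dl (G i)) v a b = 0 := dd_dlog (hG' i v hv) g0 a b
      rw [this, mul_zero, zero_add]
    · rw [dd_congr (hz i v hv hi).2, (hz i v hv hi).1]
      simp [dd]
  have hrel : ∀ v, v ≠ 0 → ∀ i j, U v ∈ tsupport (φ i) → U v ∈ tsupport (φ j) → ∀ a,
      dl (D j i) (U v) (fderiv ℝ U v a) - dl (D j j) (U v) (fderiv ℝ U v a) =
        dl (G i) v a - dl (G j) v a := by
    intro v hv i j hi hj a
    have di := hs i _ hi
    have dj := hs j _ hj
    have hDd : ∀ j i, DifferentiableAt ℝ (D j i) (U v) := fun j i =>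
      (hD j i).differentiable (by norm_num) _
    have h2 : (fun v => G i v * D j j (U v)) =ᶠ[𝓝 v] fun v => G j v * D j i (U v) := by
      filter_upwards [nz_mem_nhds hv] with y hy using hr y hy i j
    have h3 := dl_congr h2 a
    rw [dl_mul (h := fun v => D j j (U v)) (hGd i v hv) ((hDd j j).comp v (hUd v hv))
      (hG0 v hv i di) dj, dl_mul (h := fun v => D j i (U v)) (hGd j v hv)
      ((hDd j i).comp v (hUd v hv)) (hG0 v hv j dj) (hK v hv i j di dj),
      dl_comp (hDd j j) (hUd v hv), dl_comp (hDd j i) (hUd v hv)] at h3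
    linarith
  have hsum : ∀ v, v ≠ 0 → ∀ a, ∑ i, fderiv ℝ (φ i) (U v) (fderiv ℝ U v a) = 0 := by
    intro v hv a
    have h2 : (fun v => ∑ i, φ i (U v)) =ᶠ[𝓝 v] fun _ => 1 := by
      filter_upwards [nz_mem_nhds hv] with y hy using h0 y hy
    have h3 := h2.fderiv_eq (𝕜 := ℝ)
    rw [fderiv_fun_sum fun i _ => (hφU i v hv).differentiableAt (by norm_num),
      fderiv_const_apply] at h3
    have h4 := congrArg (fun L => L a) h3
    simpa [hφd _ v hv] using h4
  have hmain : ∀ v, v ≠ 0 → ∀ a b, dd (fun v => ∑ i, φ i (U v) • dl (G i) v) v a b =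
      gam φ D (U v) (fderiv ℝ U v a) (fderiv ℝ U v b) := by
    intro v hv a b
    rw [dd_sum (l := fun i v => φ i (U v) • dl (G i) v)
      fun i => (ht i v hv).differentiableAt (by norm_num), gam_apply]
    simp only [hdd _ v hv]
    have h2 : ∀ i j, φ j (U v) * (fderiv ℝ (φ i) (U v) (fderiv ℝ U v a) *
        (dl (D j i) (U v) (fderiv ℝ U v b) - dl (D j j) (U v) (fderiv ℝ U v b)) -
        (dl (D j i) (U v) (fderiv ℝ U v a) - dl (D j j) (U v) (fderiv ℝ U v a)) *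
          fderiv ℝ (φ i) (U v) (fderiv ℝ U v b)) =
        φ j (U v) * (fderiv ℝ (φ i) (U v) (fderiv ℝ U v a) * dl (G i) v b -
          fderiv ℝ (φ i) (U v) (fderiv ℝ U v b) * dl (G i) v a) -
        fderiv ℝ (φ i) (U v) (fderiv ℝ U v a) * (φ j (U v) * dl (G j) v b) +
        fderiv ℝ (φ i) (U v) (fderiv ℝ U v b) * (φ j (U v) * dl (G j) v a) := by
      intro i j
      by_cases hi : U v ∈ tsupport (φ i)
      · by_cases hj : U v ∈ tsupport (φ j)
        · rw [hrel v hv i j hi hj, hrel v hv i j hi hj]; ring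
        · rw [image_eq_zero_of_notMem_tsupport hj]; ring
      · rw [(hz i v hv hi).1]; simp
    simp only [h2, Finset.sum_add_distrib, Finset.sum_sub_distrib, ← Finset.sum_mul,
      ← Finset.mul_sum, h0 v hv, hsum v hv]
    ring
  obtain ⟨-, h5⟩ := h1.1 (fun v => ∑ i, φ i (U v) • dl (G i) v) c
    (fun v hv => (ContDiffAt.sum fun i _ => ht i v hv).contDiffWithinAt)
    (fun a ha v hv w => by
      simp only [sum_apply, smul_apply, hI a ha v hv]
      refine Finset.sum_congr rfl fun i _ => ?_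
      rw [dl_apply, dl_apply, ((hH i).fderiv_smul ha hv (hGd i v hv)).2, hH i a ha v hv,
        rep1_apply, rep1_apply, mul_inv, mul_mul_mul_comm, inv_mul_cancel₀ (zpow_ne_zero _ ha),
        one_mul])
    (fun v hv => by
      simp only [sum_apply, smul_apply]
      have h6 : ∀ i (a : ℂ), φ i (U v) • dl (G i) v (a • v) = φ i (U v) * (c * a.im) := by
        intro i a
        by_cases hi : U v ∈ tsupport (φ i)
        · rw [dl_apply, (hH i).euler1 hv (hGd i v hv), mul_comm (G i v)⁻¹,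
            mul_inv_cancel_right₀ (hG0 v hv i (hs i _ hi))]
          simp
        · simp [image_eq_zero_of_notMem_tsupport hi]
      constructor
      · have := fun i => h6 i 1
        simp only [one_smul] at this
        simp only [this]
        simp
      · simp only [h6]
        simp [← Finset.sum_mul, h0 v hv])
  rw [← h5, area]
  congr 1
  funext z
  have hv : ((z, 1) : C2) ≠ 0 := by simp
  rw [hmain _ hv, dens, fderiv_aff (hUd _ hv), fderiv_aff (hUd _ hv)]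
  rfl

end form

end ChernP

open ChernP in
theorem chern_of (h1 : StokesStmt) (_h2 : FrameStmt) : ChernStmt := by
  intro V _ _ _ O M K π om h J₀ hA hK hKM hJ₀ hW₀ hT₀
  choose f w hw hd using fun x : K => la3 (hA.dim x (hKM x.2)) (hW₀ x (hKM x.2))
  let F : K → V → V →L[ℝ] C3 := fun p x => f p - I • (f p).comp (J₀ x)
  let D₀ : K → K → V → ℂ := fun p q x => d3 fun a => F p x (fderiv ℝ π x (w q a))
  have hP : ContDiff ℝ 2 (fderiv ℝ π) := hA.sm.fderiv_right (by norm_cast)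
  have hD₀ : ∀ p q, ContDiff ℝ 2 (D₀ p q) := fun p q => contDiff_iff_contDiffAt.2 fun x =>
    contDiffAt_d3 fun a => ((contDiff_const.sub (ContDiff.const_smul I
      (contDiff_const.clm_comp hJ₀))).clm_apply (hP.clm_apply contDiff_const)).contDiffAt
  have hF : ∀ p, ∀ x ∈ M, ∀ y ∈ tan M x, F p x (J₀ x y) = I • F p x y := by
    intro p x hx y hy
    simp only [F, sub_apply, smul_apply,
      ContinuousLinearMap.comp_apply, (hW₀ x hx y hy).2, map_neg, smul_sub, smul_smul, I_mul_I]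
    simp [add_comm]
  have hop : ∀ p, IsOpen {x | D₀ p p x ≠ 0} := fun p =>
    isOpen_ne_fun (hD₀ p p).continuous continuous_const
  obtain ⟨t, ht⟩ := hK.elim_finite_subcover _ hop fun x hx => mem_iUnion.2 ⟨⟨x, hx⟩, by
    have := hd ⟨x, hx⟩
    simp only [D₀, mem_ofPred_eq, (hA.mem_tan_iff (hKM hx) _).1 (hw ⟨x, hx⟩ _)]
    exact this⟩
  obtain ⟨ρ, hρ⟩ := SmoothPartitionOfUnity.exists_isSubordinate 𝓘(ℝ, V) hK.isClosed
    (fun i : t => {x | D₀ i i x ≠ 0}) (fun i => hop i) fun x hx => by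
      obtain ⟨i, hi, h⟩ := mem_iUnion₂.1 (ht hx)
      exact mem_iUnion.2 ⟨⟨i, hi⟩, h⟩
  have hφ : ∀ i, ContDiff ℝ 2 (ρ i) := fun i =>
    (contMDiff_iff_contDiff.1 (ρ i).contMDiff).of_le (by norm_cast)
  have hJT : ∀ x ∈ M, ∀ y ∈ tan M x, J₀ x y ∈ tan M x := fun x hx y hy => (hW₀ x hx y hy).1
  have hne : ∀ x ∈ K, ∀ i j : t, D₀ i i x ≠ 0 → D₀ j j x ≠ 0 → D₀ j i x ≠ 0 := by
    intro x hx i j hi hj
    have hx' := hKM hx
    obtain ⟨A, hA'⟩ := la1 (hA.dim x hx') (hJT x hx') (hF i x hx') (hF j x hx')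
      (la2 (hA.dim x hx') (hJT x hx') (hF i x hx') (fun a => hA.P_mem' hx' _) hi)
    have e1 : D₀ j i x = A * D₀ i i x := hA' _ fun a => hA.P_mem' hx' _
    have e2 : D₀ j j x = A * D₀ i j x := hA' _ fun a => hA.P_mem' hx' _
    rw [e1]
    exact mul_ne_zero (left_ne_zero_of_mul (e2 ▸ hj)) hi
  refine ⟨fun x => (2 * Real.pi)⁻¹ • gam (fun i => ρ i) (fun j i : t => D₀ j i) x,
    (gam_cont hφ (fun j i => hD₀ j i) (fun i x hx => hρ i hx) hne).const_smul (2 * Real.pi)⁻¹,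
    fun x a b => ?_, ?_⟩
  · simp only [smul_apply, gam_apply, smul_eq_mul, ← mul_neg,
      ← Finset.sum_neg_distrib]
    congr 1
    refine Finset.sum_congr rfl fun i _ => Finset.sum_congr rfl fun j _ => ?_
    ring
  rintro J hJ hW hT U _ hU ⟨k, ⟨e, g, hg⟩, rfl⟩
  have hUM : ∀ v, v ≠ 0 → U v ∈ M := fun v hv => hKM (hU.mem v hv)
  let g' : C2 → V →L[ℝ] C3 := fun v =>
    (g v).comp (ContinuousLinearMap.id ℝ V - (J (U v)).comp (J₀ (U v)))
  have hg' : ∀ v y, g' v y = g v (y - J (U v) (J₀ (U v) y)) := fun _ _ => rfl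
  have hgJ : ∀ v, v ≠ 0 → ∀ y ∈ tan M (U v), g v (J (U v) y) = I • g v y := by
    intro v hv y hy
    conv_lhs => rw [← hg.ef v hv y hy, ← hg.eJ v hv, hg.fe v hv]
  have hmem : ∀ v, v ≠ 0 → ∀ y ∈ tan M (U v), y - J (U v) (J₀ (U v) y) ∈ tan M (U v) :=
    fun v hv y hy => sub_mem hy (hW _ (hUM v hv) _ (hJT _ (hUM v hv) y hy)).1
  have hlin : ∀ v, v ≠ 0 → ∀ y ∈ tan M (U v), g' v (J₀ (U v) y) = I • g' v y := by
    intro v hv y hy
    rw [hg', hg', ← hgJ v hv _ (hmem v hv y hy), (hW₀ _ (hUM v hv) y hy).2, map_sub (J (U v)),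
      (hW _ (hUM v hv) _ (hJT _ (hUM v hv) y hy)).2, map_neg]
    congr 1
    abel
  have hinj : ∀ v, v ≠ 0 → ∀ y ∈ tan M (U v), g' v y = 0 → y = 0 := by
    intro v hv y hy h0
    by_contra hne
    have h3 := hg.ef v hv _ (hmem v hv y hy)
    rw [← hg', h0, map_zero, eq_comm, sub_eq_zero] at h3
    have h4 : J (U v) y = -J₀ (U v) y := by
      conv_lhs => rw [h3]
      exact (hW _ (hUM v hv) _ (hJT _ (hUM v hv) y hy)).2
    have h5 := hT _ (hUM v hv) y hy hne
    have h6 := hT₀ _ (hUM v hv) y hy hne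
    rw [h4, map_neg] at h5
    linarith
  have hla : ∀ v, v ≠ 0 → ∀ j : t, ∃ A : ℂ, ∀ i : t,
      D₀ j i (U v) = A * d3 fun a => g' v (fderiv ℝ π (U v) (w i a)) := by
    intro v hv j
    obtain ⟨A, hA'⟩ := la1 (hA.dim _ (hUM v hv)) (hJT _ (hUM v hv)) (hlin v hv)
      (hF j _ (hUM v hv)) (hinj v hv)
    exact ⟨A, fun i => hA' _ fun a => hA.P_mem' (hUM v hv) _⟩
  have key := area_gam h1 hφ (fun j i : t => hD₀ j i) (fun i x hx => hρ i hx) hU.sm hU.inv
    (fun v hv => by rw [← ρ.sum_eq_one (hU.mem v hv), finsum_eq_sum_of_fintype])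
    (fun v hv => hne _ (hU.mem v hv))
    (G := fun i v => d3 fun a => g' v (fderiv ℝ π (U v) (w i a))) (c := ∑ i, k i)
    (fun i v hv => by
      have h3 : ContDiffAt ℝ 2 U v := hU.sm.contDiffAt (nz_mem_nhds hv)
      refine (contDiffAt_d3 fun a => ContDiffAt.clm_apply (ContDiffAt.clm_comp
        (hg.smf.contDiffAt (nz_mem_nhds hv)) (contDiffAt_const.sub (ContDiffAt.clm_comp
          (hJ.contDiffAt.comp v h3) (hJ₀.contDiffAt.comp v h3))))
        ((hP.contDiffAt.comp v h3).clm_apply contDiffAt_const)).contDiffWithinAt)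
    (fun i c hc v hv => by
      rw [rep1_apply, ← d3_rep k hc]
      refine congrArg d3 (funext fun a => ?_)
      rw [hg', hg', hU.inv c hc v hv]
      exact hg.hom c hc v hv _ (hmem v hv _ (hA.P_mem' (hUM v hv) _)))
    (fun v hv i hi => by
      obtain ⟨A, hA'⟩ := hla v hv i
      exact right_ne_zero_of_mul (hA' i ▸ hi))
    (fun v hv i j => by
      obtain ⟨A, hA'⟩ := hla v hv j
      rw [hA', hA']; ring)
  have h7 : area (fun x => (2 * Real.pi)⁻¹ • gam (fun i => ρ i) (fun j i : t => D₀ j i) x) U =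
      (2 * Real.pi)⁻¹ * area (gam (fun i => ρ i) fun j i : t => D₀ j i) U := by
    rw [area, area, ← integral_const_mul]
    rfl
  rw [h7, key, inv_mul_cancel_left₀ (by positivity)]

end

end Pool.Agent.MP_9758ca_gt

end

section

/-!
PROJECT BALL: a complex line bundle over the projective line is `O(k)`.
-/

open scoped Topology ContDiff ComplexConjugate RealInnerProductSpace
open Set Metric Filter Complex

namespace Pool.Agent.MP_9758ca_gt

noncomputable section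

namespace LineP

variable {V : Type} [NormedAddCommGroup V] [NormedSpace ℝ V]

/-! ### multiplication by complex numbers -/

/-- `c` acts on `x` through the complex structure `J` -/
def cs (J : En0 V) (c : ℂ) (x : V) : V := c.re • x + c.im • J x

theorem cs_one (J : En0 V) (x : V) : cs J 1 x = x := by simp [cs]

theorem cs_mul {J : En0 V} (hJ : ∀ x, J (J x) = -x) (c d : ℂ) (x : V) :
    cs J (c * d) x = cs J c (cs J d x) := by
  simp only [cs, mul_re, mul_im, map_add, map_smul, hJ]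
  module

theorem cs_ne {J : En0 V} (hJ : ∀ x, J (J x) = -x) {c : ℂ} (hc : c ≠ 0) {x : V} (hx : x ≠ 0) :
    cs J c x ≠ 0 := fun h => hx (by
  rw [← cs_one J x, ← inv_mul_cancel₀ hc, cs_mul hJ, h]; simp [cs])

theorem cs_fix {P J : En0 V} (hP : ∀ x, P (J x) = J (P x)) (c : ℂ) {x : V} (hx : P x = x) :
    P (cs J c x) = cs J c x := by
  simp only [cs, map_add, map_smul, hP, hx]

theorem cs_sm {X : Type} [NormedAddCommGroup X] [NormedSpace ℝ X] {J : X → En0 V} {c : X → ℂ}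
    {x : X → V} {v : X} (hJ : ContDiffAt ℝ 2 J v) (hc : ContDiffAt ℝ 2 c v)
    (hx : ContDiffAt ℝ 2 x v) : ContDiffAt ℝ 2 (fun w => cs (J w) (c w) (x w)) v :=
  ((reCLM.contDiff.contDiffAt.comp v hc).smul hx).add
    ((imCLM.contDiff.contDiffAt.comp v hc).smul (hJ.clm_apply hx))

/-- the real-linear map `c ↦ c · y` -/
def csL (J : En0 V) (y : V) : ℂ →ₗ[ℝ] V where
  toFun c := cs J c y
  map_add' a b := by simp only [cs, add_re, add_im]; module
  map_smul' r a := by simp only [cs, real_smul, mul_re, mul_im, ofReal_re, ofReal_im,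
    RingHom.id_apply]; module

variable [FiniteDimensional ℝ V]

theorem exists_cs {P J : En0 V} (hJ : ∀ x, J (J x) = -x) (hP : ∀ x, P (J x) = J (P x))
    (hr : Module.finrank ℝ P.range = 2) {y x : V} (hy : y ≠ 0) (hPy : P y = y) (hx : P x = x) :
    ∃ c, x = cs J c y := by
  have hinj : Function.Injective (csL J y) := by
    rw [injective_iff_map_eq_zero]
    intro c hc
    by_contra h
    exact cs_ne hJ h hy hc
  have hle : (csL J y).range ≤ P.range := by
    rintro _ ⟨c, rfl⟩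
    exact ⟨cs J c y, cs_fix hP c hPy⟩
  have heq : (csL J y).range = P.range := Submodule.eq_of_le_of_finrank_eq hle (by
    rw [hr, LinearMap.finrank_range_of_inj hinj, Complex.finrank_real_complex])
  have : x ∈ (csL J y).range := heq ▸ ⟨x, hx⟩
  obtain ⟨c, hc⟩ := this
  exact ⟨c, hc.symm⟩

/-- a `J`-invariant inner product -/
def hm (J : En0 V) (x y : V) : ℝ :=
  ⟪toEuclidean x, toEuclidean y⟫ + ⟪toEuclidean (J x), toEuclidean (J y)⟫

theorem hm_pos (J : En0 V) {y : V} (hy : y ≠ 0) : 0 < hm J y y := by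
  have h1 : 0 < ⟪toEuclidean y, toEuclidean y⟫ :=
    real_inner_self_pos.2 fun h => hy (toEuclidean.map_eq_zero_iff.1 h)
  exact add_pos_of_pos_of_nonneg h1 real_inner_self_nonneg

theorem hm_sm {X : Type} [NormedAddCommGroup X] [NormedSpace ℝ X] {J : X → En0 V} {x y : X → V}
    {v : X} (hJ : ContDiffAt ℝ 2 J v) (hx : ContDiffAt ℝ 2 x v) (hy : ContDiffAt ℝ 2 y v) :
    ContDiffAt ℝ 2 (fun w => hm (J w) (x w) (y w)) v := by
  have hT : ∀ {u : X → V}, ContDiffAt ℝ 2 u v → ContDiffAt ℝ 2 (fun w => toEuclidean (u w)) v :=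
    fun hu => (toEuclidean (E := V)).contDiff.contDiffAt.comp v hu
  exact ((hT hx).inner ℝ (hT hy)).add ((hT (hJ.clm_apply hx)).inner ℝ (hT (hJ.clm_apply hy)))

/-- the coefficient of `x` with respect to `y` -/
def coef (J : En0 V) (y x : V) : ℂ :=
  ((hm J y x / hm J y y : ℝ) : ℂ) + ((hm J (J y) x / hm J y y : ℝ) : ℂ) * I

theorem coef_cs {J : En0 V} (hJ : ∀ x, J (J x) = -x) {y : V} (hy : y ≠ 0) (c : ℂ) :
    coef J y (cs J c y) = c := by
  have h0 := (hm_pos J hy).ne'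
  have h1 : hm J y (cs J c y) = c.re * hm J y y := by
    simp only [hm, cs, map_add, map_smul, hJ, map_neg, inner_add_right, inner_smul_right,
      inner_neg_right]
    rw [real_inner_comm (toEuclidean (J y)) (toEuclidean y)]; ring
  have h2 : hm J (J y) (cs J c y) = c.im * hm J y y := by
    simp only [hm, cs, map_add, map_smul, hJ, map_neg, inner_add_right, inner_smul_right,
      inner_neg_right, inner_neg_left]
    rw [real_inner_comm (toEuclidean (J y)) (toEuclidean y)]; ring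
  rw [coef, h1, h2, mul_div_cancel_right₀ _ h0, mul_div_cancel_right₀ _ h0, re_add_im]

theorem coef_sm {X : Type} [NormedAddCommGroup X] [NormedSpace ℝ X] {J : X → En0 V} {x y : X → V}
    {v : X} (hJ : ContDiffAt ℝ 2 J v) (hx : ContDiffAt ℝ 2 x v) (hy : ContDiffAt ℝ 2 y v)
    (h0 : y v ≠ 0) : ContDiffAt ℝ 2 (fun w => coef (J w) (y w) (x w)) v := by
  have hd := hm_sm hJ hy hy
  have hp := (hm_pos (J v) h0).ne'
  exact (ofRealCLM.contDiff.contDiffAt.comp v ((hm_sm hJ hy hx).div hd hp)).add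
    ((ofRealCLM.contDiff.contDiffAt.comp v
      ((hm_sm hJ (hJ.clm_apply hy) hx).div hd hp)).mul contDiffAt_const)

/-! ### a nowhere vanishing section over a disc -/

omit [FiniteDimensional ℝ V] in
/-- successive projections along the ray from `0` to `z` -/
def ray (Q : ℂ → En0 V) (N : ℕ) (x : V) : ℕ → ℂ → V
  | 0 => fun _ => x
  | j + 1 => fun z => Q ((((j + 1 : ℕ) : ℂ) / N) * z) (ray Q N x j z)

omit [FiniteDimensional ℝ V] in
theorem ray_sm {Q : ℂ → En0 V} (hQ : ContDiff ℝ 2 Q) (N : ℕ) (x : V) :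
    ∀ j, ContDiff ℝ 2 (ray Q N x j)
  | 0 => contDiff_const
  | j + 1 => (hQ.comp (contDiff_const.mul contDiff_id)).clm_apply (ray_sm hQ N x j)

omit [FiniteDimensional ℝ V] in
theorem section_disc {Q : ℂ → En0 V} (hQ : ContDiff ℝ 2 Q) (hQQ : ∀ z x, Q z (Q z x) = Q z x)
    {x : V} (hx : x ≠ 0) (hx' : Q 0 x = x) :
    ∃ e : ℂ → V, ContDiff ℝ 2 e ∧ ∀ z, ‖z‖ < 2 → e z ≠ 0 ∧ Q z (e z) = e z := by
  have hu := (isCompact_closedBall (0 : ℂ) 2).uniformContinuousOn_of_continuous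
    hQ.continuous.continuousOn
  obtain ⟨δ, hδ, hδ'⟩ := Metric.uniformContinuousOn_iff.1 hu 1 one_pos
  obtain ⟨N, hN⟩ := exists_nat_gt (2 / δ)
  have hN0 : (0 : ℝ) < N := lt_trans (by positivity) hN
  have hNc : (N : ℂ) ≠ 0 := by exact_mod_cast hN0.ne'
  have key : ∀ z, ‖z‖ < 2 → ∀ j, j ≤ N →
      ray Q N x j z ≠ 0 ∧ Q (((j : ℂ) / N) * z) (ray Q N x j z) = ray Q N x j z := by
    intro z hz j
    have hmem : ∀ i : ℕ, i ≤ N → ((i : ℂ) / N) * z ∈ closedBall (0 : ℂ) 2 := fun i hi => by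
      rw [mem_closedBall_zero_iff, norm_mul, norm_div, Complex.norm_natCast, Complex.norm_natCast]
      have : (i : ℝ) / N ≤ 1 := (div_le_one hN0).2 (by exact_mod_cast hi)
      have h0 : (0 : ℝ) ≤ i / N := by positivity
      nlinarith [norm_nonneg z]
    induction j with
    | zero => intro _; exact ⟨hx, by simpa [ray] using hx'⟩
    | succ j ih =>
      intro hj
      obtain ⟨h1, h2⟩ := ih (by omega)
      refine ⟨fun h3 => ?_, hQQ _ _⟩
      have h4 := hδ' _ (hmem j (by omega)) _ (hmem (j + 1) hj) (by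
        rw [dist_eq_norm, show (j : ℂ) / N * z - ((j + 1 : ℕ) : ℂ) / N * z = -(z / N) by
          push_cast; field_simp; ring, norm_neg, norm_div, Complex.norm_natCast, div_lt_iff₀ hN0]
        rw [div_lt_iff₀ hδ] at hN
        linarith)
      rw [dist_eq_norm] at h4
      have h5 := (Q ((j : ℂ) / N * z) - Q (((j + 1 : ℕ) : ℂ) / N * z)).le_opNorm (ray Q N x j z)
      have h6 : Q (((j + 1 : ℕ) : ℂ) / N * z) (ray Q N x j z) = 0 := h3
      rw [sub_apply, h2, h6, sub_zero] at h5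
      have h7 := norm_pos_iff.2 h1
      nlinarith
  refine ⟨ray Q N x N, ray_sm hQ N x N, fun z hz => ?_⟩
  have := key z hz N le_rfl
  rwa [div_self hNc, one_mul] at this

/-! ### logarithms -/

theorem log_sm {X : Type} [NormedAddCommGroup X] [NormedSpace ℝ X] {η G : X → ℂ} {v : X}
    (hη : ContinuousAt η v) (hG : ContDiffAt ℝ 2 G v) (he : ∀ᶠ w in 𝓝 v, exp (η w) = G w) :
    ContDiffAt ℝ 2 η v := by
  have h0 : exp (η v) = G v := he.self_of_nhds
  have h1 : ContDiffAt ℝ 2 (fun w => η v + log (G w * exp (-η v))) v := by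
    refine contDiffAt_const.add (ContDiffAt.comp v (g := log) ?_ (hG.mul contDiffAt_const))
    rw [← h0, ← exp_add, add_neg_cancel, exp_zero]
    exact (Complex.contDiffAt_log one_mem_slitPlane).restrict_scalars ℝ
  refine h1.congr_of_eventuallyEq ?_
  have h2 : ∀ᶠ w in 𝓝 v, dist (η w) (η v) < 1 := Metric.tendsto_nhds.1 hη 1 one_pos
  filter_upwards [he, h2] with w h3 h4
  rw [dist_eq_norm] at h4
  have h5 := abs_lt.1 ((abs_im_le_norm _).trans_lt h4)
  rw [← h3, ← exp_add, ← sub_eq_add_neg, log_exp (by linarith [Real.pi_gt_three, h5.1])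
    (by linarith [Real.pi_gt_three, h5.2])]
  ring

/-- the annulus -/
def An : Set ℂ := {z | 2⁻¹ < ‖z‖ ∧ ‖z‖ < 2}

theorem isOpen_An : IsOpen An :=
  (isOpen_lt continuous_const continuous_norm).inter (isOpen_lt continuous_norm continuous_const)

theorem An_ne {z : ℂ} (h : z ∈ An) : z ≠ 0 := norm_pos_iff.1 (lt_trans (by norm_num) h.1)

/-- the strip -/
def St : Set ℂ := {ζ | -Real.log 2 < ζ.re ∧ ζ.re < Real.log 2}

theorem isOpen_St : IsOpen St :=
  (isOpen_lt continuous_const continuous_re).inter (isOpen_lt continuous_re continuous_const)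

theorem convex_St : Convex ℝ St := (convex_halfSpace_re_gt _).inter (convex_halfSpace_re_lt _)

theorem zero_St : (0 : ℂ) ∈ St := by
  have := Real.log_pos (show (1 : ℝ) < 2 by norm_num)
  exact ⟨by simpa using this, by simpa using this⟩

theorem exp_An {ζ : ℂ} : exp ζ ∈ An ↔ ζ ∈ St := by
  unfold An St
  simp only [mem_ofPred_eq, norm_exp]
  rw [← Real.log_inv, Real.log_lt_iff_lt_exp (by norm_num), Real.lt_log_iff_exp_lt (by norm_num)]

theorem degree {g : ℂ → ℂ} (hg : ∀ z ∈ An, ContDiffAt ℝ 2 g z ∧ g z ≠ 0) :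
    ∃ (m : ℤ) (η : ℂ → ℂ), ∀ z ∈ An, ContDiffAt ℝ 2 η z ∧ g z = z ^ m * exp (η z) := by
  have hsc : IsSimplyConnected St := by
    have := convex_St.contractibleSpace ⟨0, zero_St⟩
    exact SimplyConnectedSpace.ofContractible _
  obtain ⟨f, hf, hfe⟩ := exists_continuousOn_eqOn_exp_comp (g := fun ζ => g (exp ζ)) hsc isOpen_St
    (fun ζ hζ => ((hg _ (exp_An.2 hζ)).1.continuousAt.comp
      continuous_exp.continuousAt).continuousWithinAt)
    (by rintro ⟨ζ, hζ, h⟩; exact (hg _ (exp_An.2 hζ)).2 h)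
  have hfe' : ∀ ζ ∈ St, exp (f ζ) = g (exp ζ) := fun ζ hζ => hfe hζ
  have hsh : ∀ (n : ℤ), ∀ ζ ∈ St, ζ + n * (2 * Real.pi * I) ∈ St := fun n ζ hζ => by
    have : (ζ + n * (2 * Real.pi * I)).re = ζ.re := by simp
    unfold St
    rw [mem_ofPred_eq, this]; exact hζ
  have hs1 : ∀ ζ ∈ St, ζ + 2 * Real.pi * I ∈ St := fun ζ hζ => by simpa using hsh 1 ζ hζ
  have hφ : ∀ ζ ∈ St, exp (f (ζ + 2 * Real.pi * I) - f ζ) = 1 := fun ζ hζ => by
    rw [exp_sub, hfe' _ (hs1 ζ hζ), hfe' _ hζ, exp_periodic ζ, div_self (hg _ (exp_An.2 hζ)).2]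
  obtain ⟨m, hm⟩ := exp_eq_one_iff.1 (hφ 0 zero_St)
  have hc : ∀ ζ ∈ St, f (ζ + 2 * Real.pi * I) - f ζ = m * (2 * Real.pi * I) := fun ζ hζ => by
    rw [← hm]
    exact isCoveringMap_exp.constOn_of_comp (g := fun ζ => f (ζ + 2 * Real.pi * I) - f ζ)
      convex_St.isPreconnected
      ((hf.comp (continuous_add_const _).continuousOn hs1).sub hf)
      (fun a ha a' ha' => Subtype.ext ((hφ a ha).trans (hφ a' ha').symm)) hζ zero_St
  let H : ℂ → ℂ := fun ζ => f ζ - m * ζ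
  have hH1 : ∀ ζ ∈ St, H (ζ + 2 * Real.pi * I) = H ζ := fun ζ hζ => by
    have := hc ζ hζ
    simp only [H]
    linear_combination this
  have hHn : ∀ ζ ∈ St, ∀ n : ℤ, H (ζ + n * (2 * Real.pi * I)) = H ζ := fun ζ hζ n => by
    induction n using Int.induction_on with
    | zero => simp
    | succ n ih =>
      rw [← ih, ← hH1 _ (hsh n ζ hζ)]
      congr 1; push_cast; ring
    | pred n ih =>
      rw [← ih, ← hH1 _ (hsh _ ζ hζ)]
      congr 1; push_cast; ring
  have hlog : ∀ z ∈ An, log z ∈ St := fun z hz => exp_An.1 (by rwa [exp_log (An_ne hz)])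
  have hexp : ∀ z ∈ An, exp (H (log z)) = g z * (z ^ m)⁻¹ := fun z hz => by
    simp only [H]
    rw [exp_sub, hfe' _ (hlog z hz), exp_int_mul, exp_log (An_ne hz), div_eq_mul_inv]
  refine ⟨m, fun z => H (log z), fun z hz => ⟨?_, ?_⟩⟩
  · have hz0 := An_ne hz
    have hA := isOpen_An.mem_nhds hz
    refine log_sm (G := fun w => g w * (w ^ m)⁻¹) ?_ ((hg z hz).1.mul ?_)
      (by filter_upwards [hA] with w hw using hexp w hw)
    · have h1 : ContinuousAt (fun w => log z + log (w / z)) z :=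
        continuousAt_const.add (ContinuousAt.clog (continuousAt_id.div_const z)
          (by simp [div_self hz0]))
      have h2 : ContinuousAt H (log z + log (z / z)) := by
        rw [div_self hz0, log_one, add_zero]
        exact (hf.continuousAt (isOpen_St.mem_nhds (hlog z hz))).sub
          (continuousAt_const.mul continuousAt_id)
      refine (ContinuousAt.comp (f := fun w => log z + log (w / z)) h2 h1).congr ?_
      filter_upwards [hA] with w hw
      have h3 : exp (log z + log (w / z)) = exp (log w) := by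
        rw [exp_add, exp_log hz0, exp_log (div_ne_zero (An_ne hw) hz0), exp_log (An_ne hw)]
        field_simp
      obtain ⟨n, hn⟩ := exp_eq_exp_iff_exists_int.1 h3
      show H (log z + log (w / z)) = H (log w)
      rw [hn, hHn _ (hlog w hw)]
    · exact (((analyticAt_id (𝕜 := ℂ)).zpow hz0).inv
        (zpow_ne_zero m hz0)).contDiffAt.restrict_scalars ℝ
  · rw [hexp z hz]
    field_simp [zpow_ne_zero m (An_ne hz)]

/-! ### the cutoff -/

/-- an invariant cutoff function -/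
def chi (v : C2) : ℝ := Real.smoothTransition (3 * (‖v.1‖ ^ 2 / (‖v.1‖ ^ 2 + ‖v.2‖ ^ 2)) - 1)

theorem sq_pos {v : C2} (hv : v ≠ 0) : 0 < ‖v.1‖ ^ 2 + ‖v.2‖ ^ 2 := by
  by_contra h
  have h1 : ‖v.1‖ ^ 2 = 0 := by nlinarith [sq_nonneg ‖v.1‖, sq_nonneg ‖v.2‖]
  have h2 : ‖v.2‖ ^ 2 = 0 := by nlinarith [sq_nonneg ‖v.1‖, sq_nonneg ‖v.2‖]
  exact hv (Prod.ext (by simpa using h1) (by simpa using h2))

theorem chi_sm {v : C2} (hv : v ≠ 0) : ContDiffAt ℝ 2 (fun w => (chi w : ℂ)) v := by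
  have h1 : ContDiffAt ℝ 2 (fun w : C2 => ‖w.1‖ ^ 2) v := contDiffAt_fst.norm_sq ℝ
  have h2 : ContDiffAt ℝ 2 (fun w : C2 => ‖w.2‖ ^ 2) v := contDiffAt_snd.norm_sq ℝ
  exact ofRealCLM.contDiff.contDiffAt.comp v (Real.smoothTransition.contDiffAt.comp v
    ((contDiffAt_const.mul (h1.div (h1.add h2) (sq_pos hv).ne')).sub contDiffAt_const))

theorem chi_smul {c : ℂ} (hc : c ≠ 0) {v : C2} (hv : v ≠ 0) : chi (c • v) = chi v := by
  have h1 := (sq_pos hv).ne'
  have h2 : ‖c‖ ≠ 0 := norm_ne_zero_iff.2 hc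
  simp only [chi, Prod.smul_fst, Prod.smul_snd, norm_smul, mul_pow, ← mul_add]
  rw [mul_div_mul_left _ _ (pow_ne_zero 2 h2)]

theorem chi_zero {v : C2} (h : 2 * ‖v.1‖ ^ 2 < ‖v.2‖ ^ 2) : chi v = 0 := by
  refine Real.smoothTransition.zero_of_nonpos ?_
  have : ‖v.1‖ ^ 2 / (‖v.1‖ ^ 2 + ‖v.2‖ ^ 2) ≤ 1 / 3 := by
    rw [div_le_div_iff₀ (by nlinarith [sq_nonneg ‖v.1‖]) (by norm_num)]; linarith
  linarith

theorem chi_one {v : C2} (h : 2 * ‖v.2‖ ^ 2 < ‖v.1‖ ^ 2) : chi v = 1 := by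
  refine Real.smoothTransition.one_of_one_le ?_
  have : 2 / 3 ≤ ‖v.1‖ ^ 2 / (‖v.1‖ ^ 2 + ‖v.2‖ ^ 2) := by
    rw [div_le_div_iff₀ (by norm_num) (by nlinarith [sq_nonneg ‖v.2‖])]; linarith
  linarith

theorem exp_sm {κ θ : C2 → ℂ} {v : C2} (hκ : ContDiffAt ℝ 2 κ v)
    (h : (∀ᶠ w in 𝓝 v, κ w = 0) ∨ ContDiffAt ℝ 2 θ v) :
    ContDiffAt ℝ 2 (fun w => exp (κ w * θ w)) v := by
  rcases h with h | h
  · refine (contDiffAt_const (c := (1 : ℂ))).congr_of_eventuallyEq ?_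
    filter_upwards [h] with w hw
    rw [hw, zero_mul, exp_zero]
  · exact (hκ.mul h).cexp

theorem div_sm {a b : C2 → ℂ} {v : C2} (ha : ContDiffAt ℝ 2 a v) (hb : ContDiffAt ℝ 2 b v)
    (h : b v ≠ 0) : ContDiffAt ℝ 2 (fun w => a w / b w) v := by
  simp only [div_eq_mul_inv]
  exact ha.mul (hb.inv h)

theorem zpow_sm {a : C2 → ℂ} {v : C2} (ha : ContDiffAt ℝ 2 a v) (h : a v ≠ 0) (m : ℤ) :
    ContDiffAt ℝ 2 (fun w => a w ^ m) v :=
  ContDiffAt.comp v (g := fun z : ℂ => z ^ m)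
    (((analyticAt_id (𝕜 := ℂ)).zpow h).contDiffAt.restrict_scalars ℝ) ha

theorem nz_of_lt {a b : ℂ} (h : ‖a‖ < 2 * ‖b‖) : b ≠ 0 :=
  norm_pos_iff.1 (by linarith [norm_nonneg a])

theorem div_lt {a b : ℂ} (h : ‖a‖ < 2 * ‖b‖) : ‖a / b‖ < 2 := by
  rw [norm_div, div_lt_iff₀ (norm_pos_iff.2 (nz_of_lt h))]; exact h

theorem div_An {a b : ℂ} (h : ‖a‖ < 2 * ‖b‖) (h' : ‖b‖ < 2 * ‖a‖) : a / b ∈ An := by
  refine ⟨?_, div_lt h⟩
  rw [norm_div, lt_div_iff₀ (norm_pos_iff.2 (nz_of_lt h))]; linarith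

theorem inv1 {E : Type} {U : C2 → E} (h : Inv U) {v : C2} (hv : v.2 ≠ 0) :
    U (v.1 / v.2, 1) = U v := by
  rw [← h v.2⁻¹ (inv_ne_zero hv) v fun h0 => hv (by rw [h0]; rfl)]
  congr 1
  exact Prod.ext (by simp [div_eq_inv_mul]) (by simp [hv])

theorem inv2 {E : Type} {U : C2 → E} (h : Inv U) {v : C2} (hv : v.1 ≠ 0) :
    U (1, v.2 / v.1) = U v := by
  rw [← h v.1⁻¹ (inv_ne_zero hv) v fun h0 => hv (by rw [h0]; rfl)]
  congr 1
  exact Prod.ext (by simp [hv]) (by simp [div_eq_inv_mul])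

theorem ne1 (z : ℂ) : ((z, 1) : C2) ≠ 0 := fun h => one_ne_zero (congrArg Prod.snd h)

theorem ne2 (z : ℂ) : ((1, z) : C2) ≠ 0 := fun h => one_ne_zero (congrArg Prod.fst h)

omit [FiniteDimensional ℝ V] in
theorem exists_fix {P : En0 V} (hP : ∀ x, P (P x) = P x) (hr : Module.finrank ℝ P.range = 2) :
    ∃ x, x ≠ 0 ∧ P x = x := by
  by_contra h
  have : P.range = ⊥ := by
    rw [Submodule.eq_bot_iff]
    rintro _ ⟨x, rfl⟩
    by_contra h'
    exact h ⟨P x, h', hP x⟩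
  rw [this, finrank_bot] at hr
  omega

end LineP

open LineP

theorem line : LineStmt := by
  intro V _ _ _ P J hP hJ iP iJ h
  have hPa : ∀ v, v ≠ 0 → ContDiffAt ℝ 2 P v := fun v hv => hP.contDiffAt (nz_mem_nhds hv)
  have hJa : ∀ v, v ≠ 0 → ContDiffAt ℝ 2 J v := fun v hv => hJ.contDiffAt (nz_mem_nhds hv)
  have hJJ : ∀ v, v ≠ 0 → ∀ x, J v (J v x) = -x := fun v hv x => ((h v hv).1 x).1
  have hPP : ∀ v, v ≠ 0 → ∀ x, P v (P v x) = P v x := fun v hv x => ((h v hv).1 x).2.1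
  have hPJ : ∀ v, v ≠ 0 → ∀ x, P v (J v x) = J v (P v x) := fun v hv x => ((h v hv).1 x).2.2
  obtain ⟨x₁, hx₁, hx₁'⟩ := exists_fix (hPP _ (ne1 0)) (h _ (ne1 0)).2
  obtain ⟨x₂, hx₂, hx₂'⟩ := exists_fix (hPP _ (ne2 0)) (h _ (ne2 0)).2
  obtain ⟨e₁, he₁, he₁'⟩ := section_disc (Q := fun z => P (z, 1))
    (contDiff_iff_contDiffAt.2 fun z => (hPa _ (ne1 z)).comp z (contDiffAt_id.prodMk contDiffAt_const))
    (fun z => hPP _ (ne1 z)) hx₁ hx₁'
  obtain ⟨e₂, he₂, he₂'⟩ := section_disc (Q := fun z => P (1, z))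
    (contDiff_iff_contDiffAt.2 fun z => (hPa _ (ne2 z)).comp z (contDiffAt_const.prodMk contDiffAt_id))
    (fun z => hPP _ (ne2 z)) hx₂ hx₂'
  have f₁ : ∀ v : C2, ‖v.1‖ < 2 * ‖v.2‖ → e₁ (v.1 / v.2) ≠ 0 ∧
      P v (e₁ (v.1 / v.2)) = e₁ (v.1 / v.2) := fun v hv => by
    have := he₁' _ (div_lt hv)
    rwa [inv1 iP (nz_of_lt hv)] at this
  have f₂ : ∀ v : C2, ‖v.2‖ < 2 * ‖v.1‖ → e₂ (v.2 / v.1) ≠ 0 ∧
      P v (e₂ (v.2 / v.1)) = e₂ (v.2 / v.1) := fun v hv => by
    have := he₂' _ (div_lt hv)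
    rwa [inv2 iP (nz_of_lt hv)] at this
  -- the transition function
  have hg0 : ∀ z ∈ An, e₂ (1 / z) ≠ 0 ∧
      e₁ z = cs (J (z, 1)) (coef (J (z, 1)) (e₂ (1 / z)) (e₁ z)) (e₂ (1 / z)) := fun z hz => by
    obtain ⟨a1, a2⟩ := f₂ (z, 1) (by have := hz.1; simp only [norm_one]; linarith)
    obtain ⟨c, hc⟩ := exists_cs (hJJ _ (ne1 z)) (hPJ _ (ne1 z)) (h _ (ne1 z)).2 a1 a2
      (he₁' z hz.2).2
    refine ⟨a1, ?_⟩
    rw [hc, coef_cs (hJJ _ (ne1 z)) a1]
  obtain ⟨m, η, hη⟩ := degree (g := fun z => coef (J (z, 1)) (e₂ (1 / z)) (e₁ z)) fun z hz => by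
    refine ⟨coef_sm ((hJa _ (ne1 z)).comp z (contDiffAt_id.prodMk contDiffAt_const))
      he₁.contDiffAt (he₂.contDiffAt.comp z ?_) (hg0 z hz).1, fun h0 => (he₁' z hz.2).1 ?_⟩
    · exact ((contDiffAt_id (𝕜 := ℝ)).inv (An_ne hz)).congr_of_eventuallyEq
        (Eventually.of_forall fun w => one_div w)
    · rw [(hg0 z hz).2, h0]; simp [cs]
  let F₁ : C2 → V := fun v =>
    cs (J v) (v.2 ^ m * exp (-(chi v : ℂ) * η (v.1 / v.2))) (e₁ (v.1 / v.2))
  let F₂ : C2 → V := fun v =>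
    cs (J v) (v.1 ^ m * exp ((1 - (chi v : ℂ)) * η (v.1 / v.2))) (e₂ (v.2 / v.1))
  have hF : ∀ v : C2, ‖v.1‖ < 2 * ‖v.2‖ → ‖v.2‖ < 2 * ‖v.1‖ → F₁ v = F₂ v := fun v h1 h2 => by
    have hz := div_An h1 h2
    have n2 := nz_of_lt h1
    have hv : v ≠ 0 := fun h0 => n2 (by rw [h0]; rfl)
    have a1 := (hg0 _ hz).2
    have a2 := (hη _ hz).2
    rw [a2, inv1 iJ n2, one_div_div] at a1
    simp only [F₁, F₂]
    rw [a1, ← cs_mul (hJJ v hv)]
    congr 1
    rw [div_zpow, sub_mul, one_mul, neg_mul, exp_sub, exp_neg]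
    field_simp [zpow_ne_zero m n2]
  have hηs : ∀ v : C2, ‖v.1‖ < 2 * ‖v.2‖ → ‖v.2‖ < 2 * ‖v.1‖ →
      ContDiffAt ℝ 2 (fun w : C2 => η (w.1 / w.2)) v := fun v h1 h2 =>
    ContDiffAt.comp v (g := η) (hη _ (div_An h1 h2)).1
      (div_sm contDiffAt_fst contDiffAt_snd (nz_of_lt h1))
  have hlt : ∀ (a b : C2 → ℝ) (v : C2), Continuous a → Continuous b → a v < b v →
      ∀ᶠ w in 𝓝 v, a w < b w := fun a b v ha hb hv => (isOpen_lt ha hb).mem_nhds hv
  have s₁ : ∀ v : C2, ‖v.1‖ < 2 * ‖v.2‖ → ContDiffAt ℝ 2 F₁ v := fun v h1 => by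
    have n2 := nz_of_lt h1
    have hv : v ≠ 0 := fun h0 => n2 (by rw [h0]; rfl)
    refine cs_sm (hJa v hv) ((zpow_sm contDiffAt_snd n2 m).mul (exp_sm (chi_sm hv).neg ?_))
      (he₁.contDiffAt.comp v (div_sm contDiffAt_fst contDiffAt_snd n2))
    by_cases h2 : ‖v.2‖ < 2 * ‖v.1‖
    · exact Or.inr (hηs v h1 h2)
    · left
      filter_upwards [hlt (fun w => 2 * ‖w.1‖ ^ 2) (fun w => ‖w.2‖ ^ 2) v (by fun_prop) (by fun_prop)
        (by nlinarith [norm_nonneg v.1, norm_pos_iff.2 n2])] with w hw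
      rw [chi_zero hw]; simp
  have s₂ : ∀ v : C2, ‖v.2‖ < 2 * ‖v.1‖ → ContDiffAt ℝ 2 F₂ v := fun v h2 => by
    have n1 := nz_of_lt h2
    have hv : v ≠ 0 := fun h0 => n1 (by rw [h0]; rfl)
    refine cs_sm (hJa v hv) ((zpow_sm contDiffAt_fst n1 m).mul
      (exp_sm (contDiffAt_const.sub (chi_sm hv)) ?_))
      (he₂.contDiffAt.comp v (div_sm contDiffAt_snd contDiffAt_fst n1))
    by_cases h1 : ‖v.1‖ < 2 * ‖v.2‖
    · exact Or.inr (hηs v h1 h2)
    · left
      filter_upwards [hlt (fun w => 2 * ‖w.2‖ ^ 2) (fun w => ‖w.1‖ ^ 2) v (by fun_prop) (by fun_prop)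
        (by nlinarith [norm_nonneg v.2, norm_pos_iff.2 n1])] with w hw
      rw [chi_one hw]; simp
  have hcov : ∀ v : C2, v ≠ 0 → ¬ ‖v.1‖ < 2 * ‖v.2‖ → ‖v.2‖ < 2 * ‖v.1‖ := fun v hv h1 => by
    by_contra h2
    have a1 : ‖v.1‖ = 0 := by linarith [norm_nonneg v.1, norm_nonneg v.2]
    have a2 : ‖v.2‖ = 0 := by linarith [norm_nonneg v.1, norm_nonneg v.2]
    exact hv (Prod.ext (norm_eq_zero.1 a1) (norm_eq_zero.1 a2))
  classical
  refine ⟨m, fun v => if ‖v.1‖ < 2 * ‖v.2‖ then F₁ v else F₂ v, fun v hv => ?_, fun v hv => ?_⟩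
  · refine ContDiffAt.contDiffWithinAt ?_
    by_cases h1 : ‖v.1‖ < 2 * ‖v.2‖
    · refine (s₁ v h1).congr_of_eventuallyEq ?_
      filter_upwards [hlt (fun w => ‖w.1‖) (fun w => 2 * ‖w.2‖) v (by fun_prop) (by fun_prop) h1]
        with w hw using if_pos hw
    · have h2 := hcov v hv h1
      refine (s₂ v h2).congr_of_eventuallyEq ?_
      filter_upwards [hlt (fun w => ‖w.2‖) (fun w => 2 * ‖w.1‖) v (by fun_prop) (by fun_prop) h2]
        with w hw
      split_ifs with h3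
      · exact hF w h3 hw
      · rfl
  · have hiff : ∀ c : ℂ, c ≠ 0 →
        (‖(c • v).1‖ < 2 * ‖(c • v).2‖ ↔ ‖v.1‖ < 2 * ‖v.2‖) := fun c hc => by
      rw [Prod.smul_fst, Prod.smul_snd, norm_smul, norm_smul, mul_left_comm]
      exact mul_lt_mul_iff_right₀ (norm_pos_iff.2 hc)
    have d1 : ∀ c : ℂ, c ≠ 0 → (c • v).1 / (c • v).2 = v.1 / v.2 := fun c hc =>
      mul_div_mul_left _ _ hc
    have d2 : ∀ c : ℂ, c ≠ 0 → (c • v).2 / (c • v).1 = v.2 / v.1 := fun c hc =>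
      mul_div_mul_left _ _ hc
    by_cases h1 : ‖v.1‖ < 2 * ‖v.2‖
    · simp only [if_pos h1]
      refine ⟨cs_ne (hJJ v hv) (mul_ne_zero (zpow_ne_zero m (nz_of_lt h1)) (exp_ne_zero _))
        (f₁ v h1).1, cs_fix (hPJ v hv) _ (f₁ v h1).2, fun c hc => ?_⟩
      rw [if_pos ((hiff c hc).2 h1)]
      show F₁ (c • v) = cs (J v) (c ^ m) (F₁ v)
      simp only [F₁]
      rw [d1 c hc, chi_smul hc hv, iJ c hc v hv, ← cs_mul (hJJ v hv), Prod.smul_snd, smul_eq_mul,
        mul_zpow, mul_assoc]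
    · have h2 := hcov v hv h1
      simp only [if_neg h1]
      refine ⟨cs_ne (hJJ v hv) (mul_ne_zero (zpow_ne_zero m (nz_of_lt h2)) (exp_ne_zero _))
        (f₂ v h2).1, cs_fix (hPJ v hv) _ (f₂ v h2).2, fun c hc => ?_⟩
      rw [if_neg fun h3 => h1 ((hiff c hc).1 h3)]
      show F₂ (c • v) = cs (J v) (c ^ m) (F₂ v)
      simp only [F₂]
      rw [d1 c hc, d2 c hc, chi_smul hc hv, iJ c hc v hv, ← cs_mul (hJJ v hv), Prod.smul_fst,
        smul_eq_mul, mul_zpow, mul_assoc]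

end

end Pool.Agent.MP_9758ca_gt

end
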