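import Mathlib.Algebra.Ring.IsFormallyReal
import Mathlib.Analysis.LocallyConvex.HahnBanach
import Mathlib.Analysis.InnerProductSpace.Calculus
import Mathlib.Analysis.SpecialFunctions.SmoothTransition
import Mathlib.Analysis.Complex.RemovableSingularity
import Mathlib.Combinatorics.SimpleGraph.Basic
import Mathlib.Analysis.Normed.Operator.Compact.FredholmAlternative
import Mathlib.Analysis.Normed.Operator.Compact.FiniteDimension
import Mathlib.Topology.MetricSpace.HausdorffDimension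
import Mathlib.Topology.MetricSpace.Sequences
import Mathlib.Analysis.Real.Pi.Bounds
import Mathlib.Topology.UniformSpace.Uniformizable
import Pool.Agent.MP_9758ca_gt.SpecA

-- ======== part 0: formerly Pool.Agent.MP_9758ca_gt.PD
section MrgPart0

section

/-!
PROJECT BALL, module STD1, first file: functions with Hoelder derivative, calculus of `db`,
Liouville lemmas and the homogeneous Cauchy kernel.
-/

open scoped Topology ContDiff ComplexConjugate
open Set Metric Filter Complex MeasureTheory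

namespace Pool.Agent.MP_9758ca_gt

noncomputable section

namespace Std1

section CH
variable {V E G : Type} [NormedAddCommGroup V] [NormedSpace ℝ V] [NormedAddCommGroup E]
  [NormedSpace ℝ E] [NormedAddCommGroup G] [NormedSpace ℝ G]

theorem locH_iff {X : Type} [PseudoMetricSpace X] {f : X → E} {s : Set X} :
    LocH f s ↔ ∀ x ∈ s, LocH f {x} :=
  ⟨fun h _ hx => h.mono (singleton_subset_iff.2 hx), fun h x hx => h x hx x rfl⟩

theorem locH_one {f : V → E} {x : V} (h : ContDiffAt ℝ 1 f x) : LocH f {x} :=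
  locH_of_contDiffAt fun y hy => by rw [mem_singleton_iff.1 hy]; exact h

theorem locH_congr {X : Type} [PseudoMetricSpace X] {f g : X → E} {x : X} (h : LocH f {x})
    (he : g =ᶠ[𝓝 x] f) : LocH g {x} :=
  h.congr fun y hy => by rw [mem_singleton_iff.1 hy]; exact he

theorem locH_comp {f : V → E} {φ : G → V} {x : G} (hf : LocH f {φ x}) (hφ : ContDiffAt ℝ 1 φ x) :
    LocH (fun y => f (φ y)) {x} :=
  hf.pre fun y hy => by rw [mem_singleton_iff.1 hy]; exact ⟨hφ, rfl⟩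

theorem locH_mul {X : Type} [PseudoMetricSpace X] {f g : X → ℂ} {s : Set X} (hf : LocH f s)
    (hg : LocH g s) : LocH (fun y => f y * g y) s :=
  (hf.prod hg).post (Φ := fun q : ℂ × ℂ => q.1 * q.2) fun _ _ => by fun_prop

/-- differentiable near `v` with Hoelder derivative -/
def CH (F : V → E) (v : V) : Prop :=
  (∀ᶠ w in 𝓝 v, DifferentiableAt ℝ F w) ∧ LocH (fderiv ℝ F) {v}

theorem CH.of_contDiffAt {F : V → E} {v : V} (h : ContDiffAt ℝ 2 F v) : CH F v :=
  ⟨(h.eventually (by simp)).mono fun _ hw => hw.differentiableAt (by simp),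
    locH_one (h.fderiv_right (by norm_num))⟩

theorem CH.congr {F F' : V → E} {v : V} (h : CH F v) (he : F' =ᶠ[𝓝 v] F) : CH F' v :=
  ⟨(h.1.and he.eventuallyEq_nhds).mono fun _ hw => hw.1.congr_of_eventuallyEq hw.2,
    locH_congr h.2 he.fderiv⟩

theorem CH.contDiffAt {F : V → E} {v : V} (h : CH F v) : ContDiffAt ℝ 1 F v := by
  obtain ⟨C, N, hN, hC⟩ := h.2 v rfl
  rw [contDiffAt_one_iff]
  exact ⟨fderiv ℝ F, N ∩ {w | DifferentiableAt ℝ F w}, inter_mem hN h.1,
    hC.continuousOn.mono inter_subset_left, fun w hw => hw.2.hasFDerivAt⟩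

theorem CH.comp {F : V → E} {Φ : E → G} {v : V} (hΦ : CH Φ (F v)) (hF : CH F v) :
    CH (fun w => Φ (F w)) v := by
  have hc : ContinuousAt F v := hF.contDiffAt.continuousAt
  have h1 : ∀ᶠ w in 𝓝 v, DifferentiableAt ℝ Φ (F w) := hc.eventually hΦ.1
  refine ⟨(h1.and hF.1).mono fun w hw => hw.1.comp w hw.2, ?_⟩
  have h2 : LocH (fun w => fderiv ℝ Φ (F w)) {v} := locH_comp hΦ.2 hF.contDiffAt
  have h3 := (h2.prod hF.2).post
    (Φ := fun q : (E →L[ℝ] G) × (V →L[ℝ] E) => q.1.comp q.2) fun _ _ =>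
      contDiffAt_fst.clm_comp contDiffAt_snd
  refine locH_congr h3 ((h1.and hF.1).mono fun w hw => ?_)
  exact fderiv_fun_comp w hw.1 hw.2

theorem CH.prod {F : V → E} {F' : V → G} {v : V} (h : CH F v) (h' : CH F' v) :
    CH (fun w => (F w, F' w)) v := by
  refine ⟨(h.1.and h'.1).mono fun w hw => hw.1.prodMk hw.2, ?_⟩
  have h3 := (h.2.prod h'.2).post
    (Φ := fun q : (V →L[ℝ] E) × (V →L[ℝ] G) => ContinuousLinearMap.prodL ℝ q) fun _ _ =>
      (ContinuousLinearMap.prodL ℝ (𝕜 := ℝ) (E := V) (F := E) (G := G)).contDiff.contDiffAt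
  refine locH_congr h3 ((h.1.and h'.1).mono fun w hw => ?_)
  exact hw.1.fderiv_prodMk hw.2

theorem CH.mul {F F' : V → ℂ} {v : V} (h : CH F v) (h' : CH F' v) : CH (fun w => F w * F' w) v :=
  CH.comp (Φ := fun q : ℂ × ℂ => q.1 * q.2) (F := fun w => (F w, F' w))
    (CH.of_contDiffAt (by fun_prop)) (h.prod h')

theorem CH.add {F F' : V → E} {v : V} (h : CH F v) (h' : CH F' v) : CH (fun w => F w + F' w) v :=
  CH.comp (Φ := fun q : E × E => q.1 + q.2) (F := fun w => (F w, F' w))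
    (CH.of_contDiffAt (by fun_prop)) (h.prod h')

theorem CH.sub {F F' : V → E} {v : V} (h : CH F v) (h' : CH F' v) : CH (fun w => F w - F' w) v :=
  CH.comp (Φ := fun q : E × E => q.1 - q.2) (F := fun w => (F w, F' w))
    (CH.of_contDiffAt (by fun_prop)) (h.prod h')

theorem xh_iff {χ : ℂ → En0 E} {F : C2 → E} : XH χ F ↔ Hom χ F ∧ ∀ v, v ≠ 0 → CH F v := by
  refine ⟨fun h => ⟨h.1, fun v hv => ⟨?_, h.2.2.mono (singleton_subset_iff.2 hv)⟩⟩,
    fun h => ⟨h.1, fun v hv => (h.2 v hv).1.self_of_nhds, locH_iff.2 fun v hv => (h.2 v hv).2⟩⟩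
  filter_upwards [nz_mem_nhds hv] with w hw using h.2.1 w hw

omit [NormedSpace ℝ V] in
/-- a locally Hoelder function with bounded support is Hoelder -/
theorem hld_of_locH {f : V → E} [ProperSpace V] {R : ℝ} (h : LocH f univ)
    (h0 : ∀ w, R < ‖w‖ → f w = 0) : ∃ C, Hld C f univ := by
  obtain ⟨C, hC0, hb, hC⟩ := h.hld (isCompact_closedBall (0 : V) (R + 1)) (subset_univ _)
  have key : ∀ x y : V, R + 1 < ‖y‖ → ‖f x - f y‖ ≤ C * √(dist x y) := by
    intro x y hy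
    rw [h0 y (by linarith), sub_zero]
    by_cases hx : R < ‖x‖
    · rw [h0 x hx, norm_zero]; positivity
    · have h1 : 1 ≤ dist x y := by
        have := norm_sub_norm_le y x
        rw [dist_comm, dist_eq_norm]; linarith [not_lt.1 hx]
      have h2 : 1 ≤ √(dist x y) := Real.one_le_sqrt.2 h1
      have h3 := hb x (by rw [mem_closedBall_zero_iff]; linarith [not_lt.1 hx])
      nlinarith
  refine ⟨C, fun x _ y _ => ?_⟩
  by_cases hy : R + 1 < ‖y‖
  · exact key x y hy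
  by_cases hx : R + 1 < ‖x‖
  · rw [norm_sub_rev, dist_comm]; exact key y x hx
  exact hC x (mem_closedBall_zero_iff.2 (not_lt.1 hx)) y (mem_closedBall_zero_iff.2 (not_lt.1 hy))

end CH

/-! ### calculus of `db` -/

theorem db_congr {F F' : C2 → ℂ} {v : C2} (h : F =ᶠ[𝓝 v] F') : db F v = db F' v := by
  simp only [db, h.fderiv_eq]

theorem db_zero_of {F : C2 → ℂ} {v : C2} {a : ℂ} (h : ∀ᶠ w in 𝓝 v, F w = a) : db F v = 0 := by
  rw [db_congr (F' := fun _ => a) h]
  exact db_of_differentiableAt (differentiableAt_const a)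

theorem db_add {F F' : C2 → ℂ} {v : C2} (h : DifferentiableAt ℝ F v)
    (h' : DifferentiableAt ℝ F' v) : db (fun w => F w + F' w) v = db F v + db F' v := by
  simp only [db, fderiv_fun_add h h', add_apply, smul_add]
  abel

theorem db_sub {F F' : C2 → ℂ} {v : C2} (h : DifferentiableAt ℝ F v)
    (h' : DifferentiableAt ℝ F' v) : db (fun w => F w - F' w) v = db F v - db F' v := by
  simp only [db, fderiv_fun_sub h h', sub_apply, smul_sub]
  abel

theorem db_mul {F H : C2 → ℂ} {v : C2} (h : DifferentiableAt ℝ F v)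
    (h' : DifferentiableAt ℂ H v) : db (fun w => F w * H w) v = db F v * H v := by
  have h0 := db_of_differentiableAt h'
  simp only [db, fderiv_fun_mul h (h'.restrictScalars ℝ), add_apply,
    smul_apply, smul_eq_mul] at h0 ⊢
  linear_combination F v * h0

theorem db_sum {n : ℕ} {F : Fin n → C2 → ℂ} {v : C2} (a : Fin n → ℂ)
    (h : ∀ m, DifferentiableAt ℝ (F m) v) :
    db (fun w => ∑ m, a m * F m w) v = ∑ m, a m * db (F m) v := by
  simp only [db]
  rw [fderiv_fun_sum fun m _ => (h m).const_mul (a m)]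
  simp only [fderiv_const_mul (h _), sum_apply, smul_apply,
    smul_eq_mul, Finset.mul_sum, ← Finset.sum_add_distrib]
  exact Finset.sum_congr rfl fun m _ => by ring

theorem swap_ne {v : C2} (hv : v ≠ 0) : v.swap ≠ 0 := fun h => hv (by
  have := congrArg Prod.swap h
  simpa using this)

theorem contDiff_swap : ContDiff ℝ ∞ (Prod.swap : C2 → C2) := contDiff_snd.prodMk contDiff_fst

theorem db_swap {F : C2 → ℂ} {v : C2} (h : DifferentiableAt ℝ F v.swap) :
    db (fun w => F w.swap) v = -db F v.swap := by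
  have h1 : HasFDerivAt (Prod.swap : C2 → C2)
      ((ContinuousLinearMap.snd ℝ ℂ ℂ).prod (ContinuousLinearMap.fst ℝ ℂ ℂ)) v :=
    hasFDerivAt_snd.prodMk hasFDerivAt_fst
  have h2 := (h.hasFDerivAt.comp v h1).fderiv
  have e1 : ((ContinuousLinearMap.snd ℝ ℂ ℂ).prod (ContinuousLinearMap.fst ℝ ℂ ℂ)) (hor v) =
      -hor v.swap := by ext <;> simp [hor]
  have e2 : ((ContinuousLinearMap.snd ℝ ℂ ℂ).prod (ContinuousLinearMap.fst ℝ ℂ ℂ)) (I • hor v) =
      -(I • hor v.swap) := by ext <;> simp [hor]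
  have h3 : fderiv ℝ (fun w => F w.swap) v = _ := h2
  simp only [db, h3, ContinuousLinearMap.comp_apply, e1, e2, map_neg, smul_neg]
  abel

theorem hom_swap {χ : ℂ → En0 ℂ} {F : C2 → ℂ} (h : Hom χ F) : Hom χ fun w => F w.swap :=
  fun c hc v hv => h c hc v.swap (swap_ne hv)

theorem yh_swap {χ : ℂ → En0 ℂ} {F : C2 → ℂ} (h : YH χ F) : YH χ fun w => F w.swap :=
  ⟨hom_swap h.1, h.2.pre fun _ hv =>
    ⟨(contDiff_swap.of_le (by simp)).contDiffAt, swap_ne hv⟩⟩

theorem xh_swap {χ : ℂ → En0 ℂ} {F : C2 → ℂ} (h : XH χ F) : XH χ fun w => F w.swap :=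
  xh_iff.2 ⟨hom_swap h.1, fun _ hv => ((xh_iff.1 h).2 _ (swap_ne hv)).comp
    (CH.of_contDiffAt (contDiffAt_snd.prodMk contDiffAt_fst))⟩

theorem smul_chart {v : C2} (hv : v.2 ≠ 0) : v = v.2 • ((v.1 / v.2, 1) : C2) := by
  ext
  · simp only [Prod.smul_fst, smul_eq_mul]; field_simp
  · simp

theorem smul_chart' {v : C2} (hv : v.1 ≠ 0) : v = v.1 • ((1, v.2 / v.1) : C2) := by
  ext
  · simp
  · simp only [Prod.smul_snd, smul_eq_mul]; field_simp

theorem fst_ne {v : C2} (hv : v ≠ 0) (h2 : v.2 = 0) : v.1 ≠ 0 := fun h1 => hv (Prod.ext h1 h2)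

theorem chart_ne (z : ℂ) : ((z, 1) : C2) ≠ 0 := fun h => one_ne_zero (congrArg Prod.snd h)

theorem chart_ne' (z : ℂ) : ((1, z) : C2) ≠ 0 := fun h => one_ne_zero (congrArg Prod.fst h)

theorem hom_zero {χ : ℂ → En0 ℂ} {F : C2 → ℂ} (h : Hom χ F) (h1 : ∀ z, F (z, 1) = 0)
    (h2 : F (1, 0) = 0) {v : C2} (hv : v ≠ 0) : F v = 0 := by
  by_cases h0 : v.2 = 0
  · rw [smul_chart' (fst_ne hv h0), h _ (fst_ne hv h0) _ (chart_ne' _), h0, zero_div, h2, map_zero]
  · rw [smul_chart h0, h _ h0 _ (chart_ne _), h1, map_zero]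

theorem euler_I {k : ℤ} {ζ : C2 → ℂ} (h : Hom (rep1 k) ζ) {v : C2} (hv : v ≠ 0)
    (hd : DifferentiableAt ℝ ζ v) : fderiv ℝ ζ v (I • v) = I • fderiv ℝ ζ v v := by
  have h1 := h.euler1 hv hd 1
  rw [one_smul] at h1
  rw [h.euler1 hv hd I, h1, smul_eq_mul]
  ring

/-! ### Liouville lemmas -/

theorem liou (s : Finset ℂ) : ∀ F : ℂ → ℂ, Differentiable ℂ F → (∀ a ∈ s, F a = 0) →
    Tendsto (fun z => F z * (z ^ s.card)⁻¹) (cocompact ℂ) (𝓝 0) → ∀ z, F z = 0 := by
  classical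
  induction s using Finset.induction_on with
  | empty =>
    intro F hF _ h z
    exact hF.apply_eq_of_tendsto_cocompact z (by simpa using h)
  | insert a s ha ih =>
    intro F hF h0 h z
    have hG : Differentiable ℂ (dslope F a) := by
      rw [← differentiableOn_univ, Complex.differentiableOn_dslope univ_mem]
      exact hF.differentiableOn
    have hFa : F a = 0 := h0 a (Finset.mem_insert_self _ _)
    have e : ∀ z, F z = (z - a) * dslope F a z := fun z => by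
      have := sub_smul_dslope F a z
      rw [hFa, sub_zero, smul_eq_mul] at this
      exact this.symm
    have hinv : Tendsto (fun z : ℂ => (z - a)⁻¹) (cocompact ℂ) (𝓝 0) := by
      rw [← Metric.cobounded_eq_cocompact]
      exact tendsto_inv₀_cobounded.comp (tendsto_sub_const_cobounded a)
    have hne : ∀ b : ℂ, ∀ᶠ z in cocompact ℂ, z ≠ b := fun b =>
      (isCompact_singleton (x := b)).compl_mem_cocompact
    suffices hz : dslope F a z = 0 by rw [e z, hz, mul_zero]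
    refine ih _ hG (fun b hb => ?_) ?_ z
    · have hb0 := e b
      rw [h0 b (Finset.mem_insert_of_mem hb)] at hb0
      exact (mul_eq_zero.1 hb0.symm).resolve_left (sub_ne_zero.2 fun h => ha (h ▸ hb))
    · have h2 := h.mul ((hinv.const_mul a).const_add 1)
      rw [zero_mul] at h2
      refine h2.congr' ?_
      filter_upwards [hne a, hne 0] with z hza hz0
      have := sub_ne_zero.2 hza
      rw [e z, Finset.card_insert_of_notMem ha]
      field_simp
      ring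

theorem coef_zero (n : ℕ) : ∀ (a : Fin n → ℂ) (h : ℂ → ℂ), ContinuousAt h 0 →
    (∀ᶠ t in 𝓝[≠] (0 : ℂ), ∑ m, a m * t ^ (m : ℕ) = t ^ n * h t) → a = 0 := by
  induction n with
  | zero => intro a _ _ _; exact Subsingleton.elim _ _
  | succ n ih =>
    intro a h hc he
    have h1 : Tendsto (fun t : ℂ => ∑ m, a m * t ^ (m : ℕ)) (𝓝[≠] 0) (𝓝 (a 0)) := by
      have : ContinuousAt (fun t : ℂ => ∑ m, a m * t ^ (m : ℕ)) 0 := by fun_prop
      have h2 := this.tendsto.mono_left (nhdsWithin_le_nhds (s := {0}ᶜ))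
      simpa [Fin.sum_univ_succ] using h2
    have h2 : Tendsto (fun t : ℂ => t ^ (n + 1) * h t) (𝓝[≠] 0) (𝓝 0) := by
      have : ContinuousAt (fun t : ℂ => t ^ (n + 1) * h t) 0 := by fun_prop
      have h2 := this.tendsto.mono_left (nhdsWithin_le_nhds (s := {0}ᶜ))
      simpa using h2
    have h0 : a 0 = 0 := tendsto_nhds_unique (h1.congr' he) h2
    have h3 := ih (fun m => a m.succ) h hc (by
      filter_upwards [he, self_mem_nhdsWithin] with t ht ht0
      rw [Fin.sum_univ_succ, h0, zero_mul, zero_add] at ht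
      refine mul_left_cancel₀ ht0 ?_
      rw [Finset.mul_sum, ← mul_assoc, ← pow_succ', ← ht]
      exact Finset.sum_congr rfl fun m _ => by rw [Fin.val_succ]; ring)
    funext m
    refine Fin.cases h0 (fun m => congrFun h3 m) m

theorem exists_lin {X Y : Type} [AddCommGroup X] [Module ℝ X] [AddCommGroup Y] [Module ℝ Y]
    (S : Submodule ℝ X) (f : X → Y) (ha : ∀ x ∈ S, ∀ y ∈ S, f (x + y) = f x + f y)
    (hs : ∀ (r : ℝ), ∀ x ∈ S, f (r • x) = r • f x) : ∃ L : X →ₗ[ℝ] Y, ∀ x ∈ S, L x = f x := by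
  let T : S →ₗ[ℝ] Y :=
    { toFun := fun x => f x
      map_add' := fun x y => ha x x.2 y y.2
      map_smul' := fun r x => hs r x x.2 }
  obtain ⟨L, hL⟩ := T.exists_extend
  exact ⟨L, fun x hx => LinearMap.congr_fun hL ⟨x, hx⟩⟩

end Std1

end

end Pool.Agent.MP_9758ca_gt

end

section

/-!
PROJECT BALL, module STD1, second file: the homogeneous Cauchy kernel and the cut-off function.
-/

open scoped Topology ContDiff ComplexConjugate
open Set Metric Filter Complex MeasureTheory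

namespace Pool.Agent.MP_9758ca_gt

noncomputable section

namespace Std1

/-- continuous and supported in the disc of radius two -/
def Cs (φ : ℂ → ℂ) : Prop := Continuous φ ∧ ∀ w, 2 < ‖w‖ → φ w = 0

/-- the Cauchy transform as a section of degree `-1` -/
def KK (φ : ℂ → ℂ) (v : C2) : ℂ := ∫ w, ((Real.pi : ℂ) * (v.1 - w * v.2))⁻¹ * φ w

/-- the mean -/
def mu (φ : ℂ → ℂ) : ℂ := ∫ w, (Real.pi : ℂ)⁻¹ * φ w

theorem Cs.hcs {φ : ℂ → ℂ} (h : Cs φ) : HasCompactSupport φ :=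
  HasCompactSupport.intro (isCompact_closedBall (0 : ℂ) 2) fun w hw =>
    h.2 w (by simpa using hw)

theorem Cs.bdd {φ : ℂ → ℂ} (h : Cs φ) : ∃ G, ∀ w, ‖φ w‖ ≤ G :=
  h.1.bounded_above_of_compact_support h.hcs

theorem Cs.int {φ : ℂ → ℂ} (h : Cs φ) : Integrable φ := h.1.integrable_of_hasCompactSupport h.hcs

theorem Cs.id_mul {φ : ℂ → ℂ} (h : Cs φ) : Cs fun w => w * φ w :=
  ⟨continuous_id.mul h.1, fun w hw => by simp only [h.2 w hw, mul_zero]⟩

theorem norm_int_le {f : ℂ → ℂ} {B : ℝ} (hB : ∀ w, ‖w‖ ≤ 2 → ‖f w‖ ≤ B)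
    (h0 : ∀ w, 2 < ‖w‖ → f w = 0) :
    ‖∫ w, f w‖ ≤ B * (volume : Measure ℂ).real (closedBall 0 2) := by
  rw [← setIntegral_eq_integral_of_forall_compl_eq_zero (s := closedBall 0 2)
    fun w hw => h0 w (by simpa using hw)]
  exact norm_setIntegral_le_of_norm_le_const measure_closedBall_lt_top
    fun w hw => hB w (mem_closedBall_zero_iff.1 hw)

theorem KK_smul (φ : ℂ → ℂ) (c : ℂ) (v : C2) : KK φ (c • v) = c⁻¹ * KK φ v := by
  rw [KK, KK, ← integral_const_mul]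
  congr 1
  funext w
  have : (Real.pi : ℂ) * ((c • v).1 - w * (c • v).2) = c * (Real.pi * (v.1 - w * v.2)) := by
    simp only [Prod.smul_fst, Prod.smul_snd, smul_eq_mul]; ring
  rw [this, mul_inv, mul_assoc]

theorem KK_hom (φ : ℂ → ℂ) : Hom (rep1 (-1)) (KK φ) := fun c _ v _ => by
  rw [KK_smul, rep1_apply, zpow_neg_one]

theorem KK_aff (φ : ℂ → ℂ) : aff (KK φ) = Tc φ := by
  funext z
  simp only [aff, KK, Tc, mul_one, smul_eq_mul]

theorem KK_chart (φ : ℂ → ℂ) {v : C2} (hv : v.2 ≠ 0) : KK φ v = (v.2)⁻¹ * Tc φ (v.1 / v.2) := by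
  conv_lhs => rw [smul_chart hv, KK_smul]
  rw [← KK_aff]; rfl

theorem KK_chart' (φ : ℂ → ℂ) {v : C2} (hv : v.1 ≠ 0) :
    KK φ v = (v.1)⁻¹ * KK φ (1, v.2 / v.1) := by
  conv_lhs => rw [smul_chart' hv, KK_smul]

theorem KK_int (h1 : Cau1Stmt) {φ : ℂ → ℂ} (h : Cs φ) (v : C2) :
    Integrable fun w => ((Real.pi : ℂ) * (v.1 - w * v.2))⁻¹ * φ w := by
  by_cases hv : v.2 = 0
  · simp only [hv, mul_zero, sub_zero]
    exact h.int.const_mul _
  · obtain ⟨C, -, hC⟩ := h1.1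
    obtain ⟨G, hG⟩ := h.bdd
    have := ((hC ℂ φ 2 G two_pos h.1.aestronglyMeasurable hG h.2).1 (v.1 / v.2)).const_mul (v.2)⁻¹
    refine this.congr (Eventually.of_forall fun w => ?_)
    have e : (Real.pi : ℂ) * (v.1 - w * v.2) = v.2 * (Real.pi * (v.1 / v.2 - w)) := by
      field_simp
    simp only [e, mul_inv, smul_eq_mul, mul_assoc]

theorem KK_add (h1 : Cau1Stmt) {φ ψ : ℂ → ℂ} (h : Cs φ) (h' : Cs ψ) (v : C2) :
    KK (fun w => φ w + ψ w) v = KK φ v + KK ψ v := by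
  rw [KK, KK, KK, ← integral_add (KK_int h1 h v) (KK_int h1 h' v)]
  simp only [mul_add]

theorem KK_mul (a : ℂ) (φ : ℂ → ℂ) (v : C2) : KK (fun w => a * φ w) v = a * KK φ v := by
  rw [KK, KK, ← integral_const_mul]
  simp only [mul_left_comm a]

theorem mu_add {φ ψ : ℂ → ℂ} (h : Cs φ) (h' : Cs ψ) :
    mu (fun w => φ w + ψ w) = mu φ + mu ψ := by
  rw [mu, mu, mu, ← integral_add (h.int.const_mul _) (h'.int.const_mul _)]
  simp only [mul_add]

theorem mu_mul (a : ℂ) (φ : ℂ → ℂ) : mu (fun w => a * φ w) = a * mu φ := by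
  rw [mu, mu, ← integral_const_mul]
  simp only [mul_left_comm a]

theorem KK_step (h1 : Cau1Stmt) {φ : ℂ → ℂ} (h : Cs φ) {v : C2} (hv : v.1 ≠ 0) :
    v.1 * KK φ v = mu φ + v.2 * KK (fun w => w * φ w) v := by
  rw [KK, KK, mu, ← integral_const_mul, ← integral_const_mul,
    ← integral_add (h.int.const_mul _) ((KK_int h1 h.id_mul v).const_mul _)]
  have hae : ∀ᵐ w : ℂ, w ≠ v.1 / v.2 := by
    simpa only [mem_singleton_iff] using
      (measure_eq_zero_iff_ae_notMem.1 (measure_singleton (μ := volume) (v.1 / v.2)))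
  refine integral_congr_ae (hae.mono fun w hw => ?_)
  have hpi : (Real.pi : ℂ) ≠ 0 := by exact_mod_cast Real.pi_ne_zero
  have hne : v.1 - w * v.2 ≠ 0 := by
    intro h0
    have h2 : v.2 ≠ 0 := fun h2 => hv (by simpa [h2] using h0)
    exact hw (by rw [eq_div_iff h2]; linear_combination -h0)
  simp only []
  field_simp
  ring

theorem ker_bound {v : C2} (h1 : ‖v.1‖ = 1) (h2 : ‖v.2‖ ≤ 4⁻¹) {w : ℂ} (hw : ‖w‖ ≤ 2) :
    ‖((Real.pi : ℂ) * (v.1 - w * v.2))⁻¹‖ ≤ 2 := by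
  have h3 : ‖w * v.2‖ ≤ 2⁻¹ := by
    rw [norm_mul]; nlinarith [norm_nonneg w, norm_nonneg v.2]
  have h4 := norm_sub_norm_le v.1 (w * v.2)
  rw [norm_inv, norm_mul, norm_real, Real.norm_of_nonneg Real.pi_pos.le]
  refine inv_le_of_inv_le₀ two_pos ?_
  nlinarith [Real.pi_gt_three]

theorem KK_far (h1 : Cau1Stmt) {φ : ℂ → ℂ} (h : Cs φ) :
    DifferentiableOn ℂ (fun t => KK φ (1, t)) (ball 0 4⁻¹) := by
  obtain ⟨C, -, hC⟩ := h1.1
  obtain ⟨G, hG⟩ := h.bdd
  have hT := (hC ℂ φ 2 G two_pos h.1.aestronglyMeasurable hG h.2).2.2.2 {z | 2 < ‖z‖}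
    (isOpen_lt continuous_const continuous_norm) h.2
  refine (differentiableOn_compl_singleton_and_continuousAt_iff
    (ball_mem_nhds (0 : ℂ) (by norm_num))).1 ⟨?_, ?_⟩
  · have h3 : DifferentiableOn ℂ (fun t : ℂ => t⁻¹ * Tc φ (1 / t)) (ball 0 4⁻¹ \ {0}) := by
      refine (differentiableOn_inv.mono fun t ht => ht.2).mul (hT.comp
        ((differentiableOn_const 1).div differentiableOn_id fun t ht => ht.2) fun t ht => ?_)
      have h4 : ‖t‖ < 4⁻¹ := mem_ball_zero_iff.1 ht.1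
      have h5 : 0 < ‖t‖ := norm_pos_iff.2 ht.2
      show 2 < ‖1 / t‖
      rw [norm_div, norm_one, lt_div_iff₀ h5]
      linarith
    exact h3.congr fun t ht => KK_chart φ (v := (1, t)) ht.2
  · refine continuousAt_of_dominated (bound := fun w => 2 * ‖φ w‖)
      (Eventually.of_forall fun t => (KK_int h1 h (1, t)).aestronglyMeasurable) ?_
      (h.int.norm.const_mul 2) (Eventually.of_forall fun w => ?_)
    · filter_upwards [closedBall_mem_nhds (0 : ℂ) (by norm_num : (0 : ℝ) < 4⁻¹)] with t ht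
      refine Eventually.of_forall fun w => ?_
      by_cases hw : 2 < ‖w‖
      · simp [h.2 w hw]
      · rw [norm_mul]
        exact mul_le_mul_of_nonneg_right (ker_bound (v := (1, t)) norm_one
          (mem_closedBall_zero_iff.1 ht) (not_lt.1 hw)) (norm_nonneg _)
    · refine ContinuousAt.mul (ContinuousAt.inv₀ (by fun_prop) ?_) continuousAt_const
      simp

theorem ev_fst {v : C2} (hv : v.1 ≠ 0) : ∀ᶠ w : C2 in 𝓝 v, w.1 ≠ 0 :=
  continuous_fst.continuousAt.eventually_ne hv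

theorem ev_snd {v : C2} (hv : v.2 ≠ 0) : ∀ᶠ w : C2 in 𝓝 v, w.2 ≠ 0 :=
  continuous_snd.continuousAt.eventually_ne hv

theorem KK_inf (h1 : Cau1Stmt) {φ : ℂ → ℂ} (h : Cs φ) {v : C2} (hv : v.1 ≠ 0) (h2 : v.2 = 0) :
    ContDiffAt ℂ 2 (KK φ) v := by
  have h3 : ContDiffAt ℂ 2 (fun t => KK φ (1, t)) (v.2 / v.1) := by
    rw [h2, zero_div]
    exact ((KK_far h1 h).analyticAt (ball_mem_nhds _ (by norm_num))).contDiffAt
  have h4 : ContDiffAt ℂ 2 (fun w : C2 => (w.1)⁻¹ * KK φ (1, w.2 / w.1)) v :=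
    (contDiffAt_fst.inv hv).mul
      (h3.comp v (f := fun w : C2 => w.2 / w.1) (contDiffAt_snd.div contDiffAt_fst hv))
  exact h4.congr_of_eventuallyEq ((ev_fst hv).mono fun w hw => KK_chart' φ hw)

theorem cd_div {v : C2} (hv : v.2 ≠ 0) : ContDiffAt ℝ 2 (fun w : C2 => w.1 / w.2) v :=
  (contDiffAt_fst.div contDiffAt_snd hv : ContDiffAt ℂ 2 _ v).restrict_scalars ℝ

theorem KK_locH (h1 : Cau1Stmt) {φ : ℂ → ℂ} (h : Cs φ) : LocH (KK φ) nz := by
  refine locH_iff.2 fun v hv => ?_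
  by_cases h2 : v.2 = 0
  · exact locH_one (((KK_inf h1 h (fst_ne hv h2) h2).restrict_scalars ℝ).of_le (by norm_num))
  · obtain ⟨C, -, hC⟩ := h1.1
    obtain ⟨G, hG⟩ := h.bdd
    have hT : LocH (Tc φ) {v.1 / v.2} := fun z _ =>
      ⟨_, univ, univ_mem, (hC ℂ φ 2 G two_pos h.1.aestronglyMeasurable hG h.2).2.2.1⟩
    refine locH_congr (locH_mul (locH_one (contDiffAt_snd.inv h2))
      (locH_comp (φ := fun w : C2 => w.1 / w.2) hT ((cd_div h2).of_le (by norm_num))))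
      ((ev_snd h2).mono fun w hw => KK_chart φ hw)

theorem KK_xh (h1 : Cau1Stmt) (h2 : Cau2Stmt) {φ : ℂ → ℂ} (h : Cs φ) (hH : LocH φ univ) :
    XH (rep1 (-1)) (KK φ) ∧ ∀ z, db (KK φ) (z, 1) = -2 * (1 + ‖z‖ ^ 2) * φ z := by
  obtain ⟨C, -, hC⟩ := h2
  obtain ⟨G, hG⟩ := hld_of_locH hH h.2
  obtain ⟨hd, hdb, hh, -⟩ := hC ℂ φ 2 G two_pos hG h.2
  have hx : XH (rep1 (-1)) (KK φ) := by
    refine xh_iff.2 ⟨KK_hom φ, fun v hv => ?_⟩
    by_cases h2 : v.2 = 0
    · exact CH.of_contDiffAt ((KK_inf h1 h (fst_ne hv h2) h2).restrict_scalars ℝ)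
    · have hT : CH (Tc φ) (v.1 / v.2) :=
        ⟨Eventually.of_forall fun z => hd.differentiable (by simp) z,
          fun z _ => ⟨_, univ, univ_mem, hh⟩⟩
      exact ((CH.of_contDiffAt (contDiffAt_snd.inv h2)).mul
        (hT.comp (F := fun w : C2 => w.1 / w.2) (CH.of_contDiffAt (cd_div h2)))).congr
        ((ev_snd h2).mono fun w hw => KK_chart φ hw)
  refine ⟨hx, fun z => ?_⟩
  have h3 := hx.2.1 _ (chart_ne z)
  rw [db_aff h3 (euler_I hx.1 (chart_ne z) h3), KK_aff, hdb, smul_eq_mul]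

theorem S3_cases (v : S3) : ‖(v : C2).1‖ ≤ 1 ∧ ‖(v : C2).2‖ ≤ 1 ∧
    (‖(v : C2).2‖ < 1 → ‖(v : C2).1‖ = 1) := by
  have h : max ‖(v : C2).1‖ ‖(v : C2).2‖ = 1 := by
    rw [← Prod.norm_def]; exact mem_sphere_zero_iff_norm.1 v.2
  refine ⟨(le_max_left _ _).trans h.le, (le_max_right _ _).trans h.le, fun h2 => ?_⟩
  rcases max_choice ‖(v : C2).1‖ ‖(v : C2).2‖ with h3 | h3
  · rw [← h3, h]
  · rw [h3] at h; exact absurd h h2.ne

theorem KK_bound (h1 : Cau1Stmt) : ∃ C, 0 ≤ C ∧ ∀ (φ : ℂ → ℂ) (G : ℝ), Cs φ → (∀ w, ‖φ w‖ ≤ G) →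
    (∀ v : S3, ‖KK φ v‖ ≤ C * G) ∧ ‖mu φ‖ ≤ C * G := by
  obtain ⟨C, hC0, hC⟩ := h1.1
  set m := (volume : Measure ℂ).real (closedBall 0 2)
  have hm : 0 ≤ m := measureReal_nonneg
  refine ⟨8 * C + 2 * m, by positivity, fun φ G h hG => ⟨fun v => ?_, ?_⟩⟩
  · have hG0 : 0 ≤ G := (norm_nonneg _).trans (hG 0)
    by_cases h2 : ‖(v : C2).2‖ ≤ 4⁻¹
    · have h3 := (S3_cases v).2.2 (by linarith)
      have h4 : ‖KK φ v‖ ≤ 2 * G * m := norm_int_le (fun w hw => by
        rw [norm_mul]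
        exact mul_le_mul (ker_bound h3 h2 hw) (hG w) (norm_nonneg _) two_pos.le)
        fun w hw => by rw [h.2 w hw, mul_zero]
      nlinarith [mul_nonneg hC0.le hG0]
    · have h3 : 4⁻¹ < ‖(v : C2).2‖ := not_le.1 h2
      have h4 : (v : C2).2 ≠ 0 := norm_pos_iff.1 (by linarith)
      have h5 := (hC ℂ φ 2 G two_pos h.1.aestronglyMeasurable hG h.2).2.1 ((v : C2).1 / (v : C2).2)
      have h6 : ‖((v : C2).2)⁻¹‖ ≤ 4 := by
        rw [norm_inv]; exact inv_le_of_inv_le₀ (by norm_num) h3.le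
      rw [KK_chart φ h4, norm_mul]
      have h7 := mul_le_mul h6 h5 (norm_nonneg _) (by norm_num)
      nlinarith [mul_nonneg hm hG0]
  · have hG0 : 0 ≤ G := (norm_nonneg _).trans (hG 0)
    have h4 : ‖mu φ‖ ≤ 2 * G * m := norm_int_le (fun w hw => by
      rw [norm_mul]
      refine mul_le_mul ?_ (hG w) (norm_nonneg _) two_pos.le
      simpa using ker_bound (v := (1, 0)) norm_one (by simp) hw)
      fun w hw => by rw [h.2 w hw, mul_zero]
    nlinarith [mul_nonneg hC0.le hG0]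

/-! ### the cut-off function -/

def bt (v : C2) : ℂ :=
  (Real.smoothTransition (3 * (‖v.1‖ ^ 2 / (‖v.1‖ ^ 2 + ‖v.2‖ ^ 2)) - 1) : ℝ)

theorem nsq_pos {v : C2} (hv : v ≠ 0) : 0 < ‖v.1‖ ^ 2 + ‖v.2‖ ^ 2 := by
  by_cases h2 : v.2 = 0
  · have := norm_pos_iff.2 (fst_ne hv h2)
    positivity
  · have := norm_pos_iff.2 h2
    positivity

theorem bt_smul {c : ℂ} (hc : c ≠ 0) (v : C2) : bt (c • v) = bt v := by
  have h : ‖c‖ ^ 2 ≠ 0 := pow_ne_zero _ (norm_ne_zero_iff.2 hc)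
  simp only [bt, Prod.smul_fst, Prod.smul_snd, norm_smul, mul_pow, ← mul_add, mul_div_mul_left _ _ h]

theorem bt_cd {v : C2} (hv : v ≠ 0) : ContDiffAt ℝ 2 bt v := by
  have h1 : ContDiffAt ℝ 2 (fun w : C2 => ‖w.1‖ ^ 2) v := contDiffAt_fst.norm_sq ℂ
  have h2 : ContDiffAt ℝ 2 (fun w : C2 => ‖w.2‖ ^ 2) v := contDiffAt_snd.norm_sq ℂ
  exact ofRealCLM.contDiff.contDiffAt.comp v (Real.smoothTransition.contDiffAt.comp v
    ((contDiffAt_const.mul (h1.div (h1.add h2) (nsq_pos hv).ne')).sub contDiffAt_const))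

theorem bt_xh : XH (rep1 0) bt :=
  xh_iff.2 ⟨fun c hc v _ => by rw [bt_smul hc, rep1_apply, zpow_zero, one_mul],
    fun _ hv => CH.of_contDiffAt (bt_cd hv)⟩

theorem bt_zero {v : C2} (hv : v ≠ 0) (h : 2 * ‖v.1‖ ^ 2 ≤ ‖v.2‖ ^ 2) : bt v = 0 := by
  rw [bt, Real.smoothTransition.zero_of_nonpos, ofReal_zero]
  rw [sub_nonpos, ← mul_div_assoc, div_le_one (nsq_pos hv)]
  linarith

theorem bt_swap {v : C2} (hv : v ≠ 0) : bt v.swap = 1 - bt v := by
  have h := (nsq_pos hv).ne'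
  have e : 3 * (‖v.2‖ ^ 2 / (‖v.2‖ ^ 2 + ‖v.1‖ ^ 2)) - 1 =
      1 - (3 * (‖v.1‖ ^ 2 / (‖v.1‖ ^ 2 + ‖v.2‖ ^ 2)) - 1) := by
    rw [add_comm (‖v.2‖ ^ 2)]
    field_simp
    ring
  have h2 : ∀ x : ℝ, Real.smoothTransition (1 - x) = 1 - Real.smoothTransition x := fun x => by
    have := (Real.smoothTransition.pos_denom x).ne'
    simp only [Real.smoothTransition, sub_sub_cancel, add_comm (expNegInvGlue (1 - x))]
    field_simp
    ring
  simp only [bt, Prod.fst_swap, Prod.snd_swap, e, h2, ofReal_sub, ofReal_one]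

theorem bt_one {v : C2} (hv : v ≠ 0) (h : 2 * ‖v.2‖ ^ 2 ≤ ‖v.1‖ ^ 2) : bt v = 1 := by
  have h1 := bt_swap hv
  rw [bt_zero (swap_ne hv) h] at h1
  linear_combination h1

theorem bt_ev_zero {v : C2} (hv : v ≠ 0) (h : v.1 = 0) : ∀ᶠ w in 𝓝 v, bt w = 0 := by
  have h2 : 0 < ‖v.2‖ := norm_pos_iff.2 fun h2 => hv (Prod.ext h h2)
  have h3 : ∀ᶠ w : C2 in 𝓝 v, 2 * ‖w.1‖ ^ 2 < ‖w.2‖ ^ 2 :=
    ContinuousAt.eventually_lt (by fun_prop) (by fun_prop) (by rw [h]; simpa using pow_pos h2 2)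
  filter_upwards [h3, nz_mem_nhds hv] with w hw hw0 using bt_zero hw0 hw.le

theorem bt_ev_one {v : C2} (hv : v ≠ 0) (h : v.2 = 0) : ∀ᶠ w in 𝓝 v, bt w = 1 := by
  have h2 : 0 < ‖v.1‖ := norm_pos_iff.2 (fst_ne hv h)
  have h3 : ∀ᶠ w : C2 in 𝓝 v, 2 * ‖w.2‖ ^ 2 < ‖w.1‖ ^ 2 :=
    ContinuousAt.eventually_lt (by fun_prop) (by fun_prop) (by rw [h]; simpa using pow_pos h2 2)
  filter_upwards [h3, nz_mem_nhds hv] with w hw hw0 using bt_one hw0 hw.le

theorem bt_far {z : ℂ} (h : 2 < ‖z‖) : bt (z, 1) = 1 :=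
  bt_one (chart_ne z) (by simp only [norm_one]; nlinarith)

theorem norm_bt (v : C2) : ‖bt v‖ ≤ 1 ∧ ‖1 - bt v‖ ≤ 1 := by
  have h1 := Real.smoothTransition.nonneg (3 * (‖v.1‖ ^ 2 / (‖v.1‖ ^ 2 + ‖v.2‖ ^ 2)) - 1)
  have h2 := Real.smoothTransition.le_one (3 * (‖v.1‖ ^ 2 / (‖v.1‖ ^ 2 + ‖v.2‖ ^ 2)) - 1)
  rw [bt, ← ofReal_one, ← ofReal_sub, norm_real, norm_real, Real.norm_of_nonneg h1,
    Real.norm_of_nonneg (by linarith)]
  exact ⟨h2, by linarith⟩

end Std1

end

end Pool.Agent.MP_9758ca_gt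

end

section

/-!
PROJECT BALL, module STD1: the standard Cauchy-Riemann operator on sections of degree `k`.
-/

open scoped Topology ContDiff ComplexConjugate
open Set Metric Filter Complex MeasureTheory

namespace Pool.Agent.MP_9758ca_gt

noncomputable section

namespace Std1

/-- Laurent monomials -/
def mo (a b : ℤ) (v : C2) : ℂ := v.2 ^ a * v.1 ^ b

theorem mo_smul (a b : ℤ) {c : ℂ} (hc : c ≠ 0) (v : C2) :
    mo a b (c • v) = c ^ (a + b) * mo a b v := by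
  simp only [mo, Prod.smul_fst, Prod.smul_snd, smul_eq_mul, mul_zpow, zpow_add₀ hc]
  ring

theorem mo_an {a b : ℤ} {v : C2} (h2 : v.2 ≠ 0 ∨ 0 ≤ a) (h1 : v.1 ≠ 0 ∨ 0 ≤ b) :
    ContDiffAt ℂ 2 (mo a b) v := by
  have e2 : AnalyticAt ℂ (fun w : C2 => w.2 ^ a) v :=
    h2.elim (fun h => analyticAt_snd.zpow h) fun h => analyticAt_snd.zpow_nonneg h
  have e1 : AnalyticAt ℂ (fun w : C2 => w.1 ^ b) v :=
    h1.elim (fun h => analyticAt_fst.zpow h) fun h => analyticAt_fst.zpow_nonneg h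
  exact (e2.mul e1).contDiffAt

theorem mo_add (a a' b : ℤ) {v : C2} (h : v.2 ≠ 0) : mo (a + a') b v = mo a 0 v * mo a' b v := by
  simp only [mo, zpow_add₀ h, zpow_zero]
  ring

theorem cut0 {a b : ℤ} {v : C2} (hv : v ≠ 0) (h2 : v.2 ≠ 0 ∨ 0 ≤ a) :
    ContDiffAt ℝ 2 (fun w => bt w * mo a b w) v := by
  by_cases h1 : v.1 = 0
  · exact (contDiffAt_const (c := (0 : ℂ))).congr_of_eventuallyEq
      ((bt_ev_zero hv h1).mono fun w hw => by simp only [hw, zero_mul])
  · exact (bt_cd hv).mul ((mo_an h2 (Or.inl h1)).restrict_scalars ℝ)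

theorem cut1 {a : ℤ} {v : C2} (hv : v ≠ 0) :
    ContDiffAt ℝ 2 (fun w => (1 - bt w) * mo a 0 w) v := by
  by_cases h2 : v.2 = 0
  · exact (contDiffAt_const (c := (0 : ℂ))).congr_of_eventuallyEq
      ((bt_ev_one hv h2).mono fun w hw => by simp only [hw, sub_self, zero_mul])
  · exact (contDiffAt_const.sub (bt_cd hv)).mul
      ((mo_an (Or.inl h2) (Or.inr le_rfl)).restrict_scalars ℝ)

theorem db_cut {a b : ℤ} {v : C2} (h2 : v.2 ≠ 0) :
    db (fun w => bt w * mo a b w) v = db bt v * mo a b v := by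
  have hv : v ≠ 0 := fun h => h2 (by rw [h]; rfl)
  by_cases h1 : v.1 = 0
  · rw [db_zero_of (bt_ev_zero hv h1), zero_mul]
    exact db_zero_of (a := 0) ((bt_ev_zero hv h1).mono fun w hw => by simp only [hw, zero_mul])
  · exact db_mul (bt_xh.2.1 v hv) ((mo_an (Or.inl h2) (Or.inl h1)).differentiableAt (by simp))

def eta (k : ℤ) (m : ℕ) (v : C2) : ℂ := bt v * mo (k + 1 + m) (-m - 1) v

def gam (k : ℤ) (m : ℕ) (v : C2) : ℂ := db bt v * mo (k + 1 + m) (-m - 1) v

theorem gam_yh (k : ℤ) (m : ℕ) : YH (repY1 k) (gam k m) := by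
  refine ⟨fun c hc v hv => ?_, locH_iff.2 fun v hv => ?_⟩
  · have e : k + 1 + m + (-m - 1) = k := by ring
    rw [gam, gam, bt_xh.db1.1 c hc v hv, mo_smul _ _ hc, repY1_apply, repY1_apply, e, zpow_zero]
    ring
  · by_cases h : v.1 = 0 ∨ v.2 = 0
    · have h0 : ∀ᶠ w in 𝓝 v, db bt w = 0 := h.elim
        (fun h => (bt_ev_zero hv h).eventually_nhds.mono fun w hw => db_zero_of hw)
        fun h => (bt_ev_one hv h).eventually_nhds.mono fun w hw => db_zero_of hw
      exact locH_congr (locH_one (contDiffAt_const (c := (0 : ℂ))))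
        (h0.mono fun w hw => by simp only [gam, hw, zero_mul])
    · rw [not_or] at h
      exact locH_mul (bt_xh.db1.2.mono (singleton_subset_iff.2 hv)) (locH_one
        (((mo_an (Or.inl h.2) (Or.inl h.1)).restrict_scalars ℝ).of_le (by norm_num)))

theorem gam_swap {k : ℤ} {n : ℕ} (hn : k + 1 + n = 0) (m : Fin n) {v : C2} (hv : v ≠ 0) :
    gam k m v.swap = gam k m.rev v := by
  have h1 := db_swap (bt_xh.2.1 _ (swap_ne hv))
  have h2 : db (fun w => bt w.swap) v = db (fun w => 1 - bt w) v :=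
    db_congr (Filter.mem_of_superset (nz_mem_nhds hv) fun w hw => bt_swap hw)
  rw [h2, db_sub (differentiableAt_const _) (bt_xh.2.1 v hv),
    db_zero_of (a := 1) (Eventually.of_forall fun _ => rfl), zero_sub, neg_inj] at h1
  have h3 : ((m.rev : ℕ) : ℤ) = n - 1 - m := by
    have := m.2
    rw [Fin.val_rev]; omega
  have e1 : k + 1 + (n - 1 - m : ℤ) = -m - 1 := by omega
  have e2 : -(n - 1 - m : ℤ) - 1 = k + 1 + m := by omega
  rw [gam, gam, ← h1, h3, e1, e2, mo, mo, Prod.fst_swap, Prod.snd_swap, mul_comm (v.1 ^ _)]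

/-- the part of `g` away from `(1, 0)` in the affine chart, times `w ^ l` -/
def ph (g : C2 → ℂ) (l : ℕ) (w : ℂ) : ℂ :=
  w ^ l * ((1 - bt (w, 1)) * (-2 * (1 + ‖w‖ ^ 2) : ℂ)⁻¹) * g (w, 1)

theorem den_ne (w : ℂ) : (-2 * (1 + ‖w‖ ^ 2) : ℂ) ≠ 0 := by
  have : (-2 * (1 + ‖w‖ ^ 2) : ℝ) ≠ 0 := by
    have := sq_nonneg ‖w‖
    nlinarith
  exact_mod_cast this

theorem coef_cd (l : ℕ) (z : ℂ) : ContDiffAt ℝ 1
    (fun w : ℂ => w ^ l * ((1 - bt (w, 1)) * (-2 * (1 + ‖w‖ ^ 2) : ℂ)⁻¹)) z := by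
  have h1 : ContDiffAt ℝ 1 (fun w : ℂ => bt (w, 1)) z :=
    ((bt_cd (chart_ne z)).of_le (by norm_num)).comp z (f := fun w : ℂ => ((w, 1) : C2))
      (by fun_prop)
  have h2 : ContDiffAt ℝ 1 (fun w : ℂ => ((‖w‖ : ℂ)) ^ 2) z := by
    have := ofRealCLM.contDiff.contDiffAt.comp z
      (contDiffAt_id.norm_sq ℂ : ContDiffAt ℝ 1 (fun w : ℂ => ‖w‖ ^ 2) z)
    refine this.congr_of_eventuallyEq (Eventually.of_forall fun w => ?_)
    simp
  exact (contDiffAt_id.pow l).mul ((contDiffAt_const.sub h1).mul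
    ((contDiffAt_const.mul (contDiffAt_const.add h2)).inv (den_ne z)))

theorem ph_cs {g : C2 → ℂ} (hg : ContinuousOn g nz) (l : ℕ) : Cs (ph g l) := by
  refine ⟨(continuous_iff_continuousAt.2 fun z => (coef_cd l z).continuousAt).mul
    (hg.comp_continuous (by fun_prop) fun w => chart_ne w), fun w hw => ?_⟩
  simp only [ph, bt_far hw, sub_self, zero_mul, mul_zero]

theorem ph_locH {g : C2 → ℂ} (hg : LocH g nz) (l : ℕ) : LocH (ph g l) univ :=
  locH_mul (locH_of_contDiffAt fun z _ => coef_cd l z)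
    (hg.pre (φ := fun w : ℂ => ((w, 1) : C2)) fun w _ => ⟨by fun_prop, chart_ne w⟩)

theorem ph_succ (g : C2 → ℂ) (l : ℕ) : ph g (l + 1) = fun w => w * ph g l w := by
  funext w; simp only [ph]; ring

theorem ph_add (g g' : C2 → ℂ) (l : ℕ) : ph (g + g') l = fun w => ph g l w + ph g' l w := by
  funext w; simp only [ph, Pi.add_apply]; ring

theorem ph_smul (r : ℝ) (g : C2 → ℂ) (l : ℕ) : ph (r • g) l = fun w => r * ph g l w := by
  funext w; simp only [ph, Pi.smul_apply, real_smul]; ring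

theorem ph_bound {k : ℤ} {g : C2 → ℂ} (hg : Hom (repY1 k) g) {G : ℝ} (hG : ∀ v : S3, ‖g v‖ ≤ G)
    {l n : ℕ} (hl : l ≤ n) (w : ℂ) : ‖ph g l w‖ ≤ 2 ^ n * (1 + 2 ^ k) * G := by
  have hG0 : 0 ≤ G := (norm_nonneg _).trans (hG ⟨mk3 0, by simp [mk3_norm]⟩)
  by_cases hw : 2 < ‖w‖
  · simp only [ph, bt_far hw, sub_self, zero_mul, mul_zero, norm_zero]
    positivity
  have hw2 := not_lt.1 hw
  obtain ⟨s, hs⟩ := exists_S3 (chart_ne w)
  set r := ‖((w, 1) : C2)‖ with hr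
  have hr1 : 1 ≤ r := by rw [hr, Prod.norm_def]; simp
  have hr2 : r ≤ 2 := by rw [hr, Prod.norm_def]; simp [hw2]
  have hr0 : (r : ℂ) ≠ 0 := by exact_mod_cast (by linarith : r ≠ 0)
  have h1 : r ^ k ≤ 1 + 2 ^ k := by
    rcases le_total 0 k with h | h
    · linarith [zpow_le_zpow_left₀ h (by linarith : 0 ≤ r) hr2]
    · linarith [zpow_le_one_of_nonpos₀ hr1 h, zpow_pos (two_pos (α := ℝ)) k]
  have h2 : ‖g (w, 1)‖ ≤ (1 + 2 ^ k) * G := by
    rw [hs, hg _ hr0 _ (S3_ne s), repY1_apply, conj_ofReal, div_self hr0, mul_one, norm_mul,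
      norm_zpow, norm_real, Real.norm_of_nonneg (by linarith)]
    exact mul_le_mul h1 (hG s) (norm_nonneg _) (by positivity)
  have h3 : ‖w ^ l‖ ≤ 2 ^ n := by
    rw [norm_pow]
    exact (pow_le_pow_left₀ (norm_nonneg _) hw2 l).trans (pow_le_pow_right₀ one_le_two hl)
  have h4 : ‖(-2 * (1 + ‖w‖ ^ 2) : ℂ)⁻¹‖ ≤ 1 := by
    have e : (-2 * (1 + ‖w‖ ^ 2) : ℂ) = ((-(2 * (1 + ‖w‖ ^ 2)) : ℝ) : ℂ) := by push_cast; ring
    rw [norm_inv, e, norm_real, norm_neg, Real.norm_of_nonneg (by positivity)]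
    exact inv_le_one_of_one_le₀ (by nlinarith [sq_nonneg ‖w‖])
  have h5 := mul_le_one₀ (norm_bt (w, 1)).2 (norm_nonneg _) h4
  rw [ph, norm_mul, norm_mul, norm_mul, mul_assoc (2 ^ n)]
  refine mul_le_mul ?_ h2 (norm_nonneg _) (by positivity)
  exact (mul_le_of_le_one_right (norm_nonneg _) h5).trans h3

theorem KK_exp (h1 : Cau1Stmt) {g : C2 → ℂ} (hg : ContinuousOn g nz) {v : C2} (hv : v.1 ≠ 0)
    (n : ℕ) : KK (ph g 0) v =
      ∑ m : Fin n, mu (ph g m) * mo m (-m - 1) v + mo n (-n) v * KK (ph g n) v := by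
  induction n with
  | zero => simp [mo]
  | succ n ih =>
    have h2 := KK_step h1 (ph_cs hg n) hv
    rw [← ph_succ] at h2
    have e1 : (-(n : ℤ) - 1) = -((n + 1 : ℕ) : ℤ) := by push_cast; ring
    rw [ih, Fin.sum_univ_castSucc, add_assoc]
    simp only [Fin.val_castSucc, Fin.val_last, e1, mo, zpow_neg, zpow_natCast]
    congr 1
    have h3 : KK (ph g n) v = (v.1)⁻¹ * (mu (ph g n) + v.2 * KK (ph g (n + 1)) v) := by
      rw [← h2, inv_mul_cancel_left₀ hv]
    rw [h3, pow_succ, pow_succ, mul_inv]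
    ring

/-- the solution operator for the part of `g` away from `(1, 0)` -/
def R1 (k : ℤ) (n : ℕ) (g : C2 → ℂ) (v : C2) : ℂ :=
  (1 - bt v) * mo (k + 1) 0 v * KK (ph g 0) v + bt v * mo (k + 1 + n) (-n) v * KK (ph g n) v

theorem R1_hom (k : ℤ) (n : ℕ) (g : C2 → ℂ) : Hom (rep1 k) (R1 k n g) := fun c hc v _ => by
  have e : k + 1 + n + -n = k + 1 := by ring
  simp only [R1, bt_smul hc, mo_smul _ _ hc, KK_smul, rep1_apply, e, add_zero, zpow_add_one₀ hc]
  field_simp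

theorem R1_chart (h1 : Cau1Stmt) (k : ℤ) (n : ℕ) {g : C2 → ℂ} (hg : ContinuousOn g nz) {v : C2}
    (h2 : v.2 ≠ 0) : R1 k n g v =
      KK (ph g 0) v * mo (k + 1) 0 v - ∑ m : Fin n, mu (ph g m) * eta k m v := by
  have hv : v ≠ 0 := fun h => h2 (by rw [h]; rfl)
  by_cases h0 : v.1 = 0
  · simp only [R1, eta, (bt_ev_zero hv h0).self_of_nhds, zero_mul, sub_zero,
      Finset.sum_const_zero, add_zero, one_mul, mul_comm]
  · have e : ∑ m : Fin n, mu (ph g m) * eta k m v =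
        bt v * mo (k + 1) 0 v * ∑ m : Fin n, mu (ph g m) * mo m (-m - 1) v := by
      rw [Finset.mul_sum]
      exact Finset.sum_congr rfl fun m _ => by rw [eta, mo_add (k + 1) _ _ h2]; ring
    rw [e, R1, mo_add (k + 1) _ _ h2]
    linear_combination (-bt v * mo (k + 1) 0 v) * KK_exp h1 hg h0 n

theorem R1_yh (h1 : Cau1Stmt) {k : ℤ} {n : ℕ} (hn : 0 ≤ k + 1 + n) {g : C2 → ℂ}
    (hg : ContinuousOn g nz) : YH (rep1 k) (R1 k n g) :=
  ⟨R1_hom k n g, (locH_mul (locH_of_contDiffAt fun _ hv => (cut1 hv).of_le (by norm_num))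
    (KK_locH h1 (ph_cs hg 0))).add (locH_mul (locH_of_contDiffAt fun _ hv =>
      (cut0 hv (Or.inr hn)).of_le (by norm_num)) (KK_locH h1 (ph_cs hg n)))⟩

theorem R1_solve (h1 : Cau1Stmt) (h2 : Cau2Stmt) {k : ℤ} {n : ℕ} (hn : 0 ≤ k + 1 + n)
    {g : C2 → ℂ} (hg : YH (repY1 k) g) : XH (rep1 k) (R1 k n g) ∧ ∀ v, v ≠ 0 →
      db (R1 k n g) v + ∑ m : Fin n, mu (ph g m) * gam k m v = (1 - bt v) * g v := by
  have hc : ContinuousOn g nz := fun v hv => (hg.2.continuousAt hv).continuousWithinAt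
  have hK := fun l => KK_xh h1 h2 (ph_cs hc l) (ph_locH hg.2 l)
  refine ⟨xh_iff.2 ⟨R1_hom k n g, fun v hv =>
    ((CH.of_contDiffAt (cut1 hv)).mul ((xh_iff.1 (hK 0).1).2 v hv)).add
      ((CH.of_contDiffAt (cut0 hv (Or.inr hn))).mul ((xh_iff.1 (hK n).1).2 v hv))⟩,
    fun v hv => ?_⟩
  by_cases h0 : v.2 = 0
  · have h3 : R1 k n g =ᶠ[𝓝 v] fun w => mo (k + 1 + n) (-n) w * KK (ph g n) w :=
      (bt_ev_one hv h0).mono fun w hw => by
        simp only [R1, hw, sub_self, zero_mul, zero_add, one_mul]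
    have h4 := (mo_an (b := -n) (Or.inr hn) (Or.inl (fst_ne hv h0))).mul
      (KK_inf h1 (ph_cs hc n) (fst_ne hv h0) h0)
    rw [db_congr h3, db_of_differentiableAt (h4.differentiableAt (by simp))]
    simp only [gam, db_zero_of (bt_ev_one hv h0), (bt_ev_one hv h0).self_of_nhds, zero_mul,
      mul_zero, Finset.sum_const_zero, add_zero, sub_self]
  · have hm := (mo_an (a := k + 1) (Or.inl h0) (Or.inr le_rfl)).differentiableAt (by simp)
    have he : ∀ m : Fin n, DifferentiableAt ℝ (eta k m) v := fun m =>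
      (cut0 hv (Or.inl h0)).differentiableAt (by simp)
    have hd := (hK 0).1.2.1 v hv
    rw [db_congr ((ev_snd h0).mono fun w hw => R1_chart h1 k n hc hw),
      db_sub (hd.fun_mul (hm.restrictScalars ℝ))
        (DifferentiableAt.fun_sum fun m _ => (he m).const_mul _),
      db_mul hd hm, db_sum _ he]
    have e : ∀ m : Fin n, db (eta k m) v = gam k m v := fun m => db_cut h0
    have e1 := (hK 0).1.db1.1 _ h0 _ (chart_ne (v.1 / v.2))
    have e2 := hg.1 _ h0 _ (chart_ne (v.1 / v.2))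
    have e3 := bt_smul h0 (v.1 / v.2, 1)
    rw [← smul_chart h0] at e1 e2 e3
    have e4 := den_ne (v.1 / v.2)
    simp only [e, sub_add_cancel]
    rw [e1, e2, e3, repY1_apply, repY1_apply, (hK 0).2, ph, mo, zpow_add_one₀ h0, zpow_neg_one,
      ← mul_assoc (-2 * _), mul_left_comm (-2 * _), mul_left_comm (-2 * _), mul_inv_cancel₀ e4]
    field_simp

theorem R1_bound (h1 : Cau1Stmt) {k : ℤ} {n : ℕ} (hn : 0 ≤ k + 1 + n) : ∃ C, 0 ≤ C ∧
    ∀ g, Hom (repY1 k) g → ContinuousOn g nz → ∀ G, (∀ v : S3, ‖g v‖ ≤ G) →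
      (∀ v : S3, ‖R1 k n g v‖ ≤ C * G) ∧ ∀ m : Fin n, ‖mu (ph g m)‖ ≤ C * G := by
  obtain ⟨C, hC0, hC⟩ := KK_bound h1
  have hs : ∀ v ∈ sphere (0 : C2) 1, v ≠ 0 := fun v hv => S3_ne ⟨v, hv⟩
  obtain ⟨A, hA⟩ := (isCompact_sphere (0 : C2) 1).exists_bound_of_continuousOn
    fun v hv => (cut1 (a := k + 1) (hs v hv)).continuousAt.continuousWithinAt
  obtain ⟨B, hB⟩ := (isCompact_sphere (0 : C2) 1).exists_bound_of_continuousOn
    fun v hv => (cut0 (b := -n) (hs v hv) (Or.inr hn)).continuousAt.continuousWithinAt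
  have hA0 : 0 ≤ A := (norm_nonneg _).trans (hA (mk3 0) (by simp [mk3_norm]))
  have hB0 : 0 ≤ B := (norm_nonneg _).trans (hB (mk3 0) (by simp [mk3_norm]))
  refine ⟨(A + B + 1) * (C * (2 ^ n * (1 + 2 ^ k))), by positivity, fun g hg hc G hG => ?_⟩
  have hG0 : 0 ≤ G := (norm_nonneg _).trans (hG ⟨mk3 0, by simp [mk3_norm]⟩)
  have h2 := fun l (hl : l ≤ n) => hC _ _ (ph_cs hc l) (ph_bound hg hG hl)
  set D := C * (2 ^ n * (1 + 2 ^ k) * G) with hD
  have hD0 : 0 ≤ D := by positivity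
  have e : (A + B + 1) * (C * (2 ^ n * (1 + 2 ^ k))) * G = (A + B + 1) * D := by rw [hD]; ring
  rw [e]
  refine ⟨fun v => ?_, fun m => ((h2 m m.2.le).2).trans (by nlinarith)⟩
  refine (norm_add_le _ _).trans ?_
  rw [norm_mul _ (KK _ _), norm_mul _ (KK _ _)]
  have h3 := mul_le_mul (hA v v.2) ((h2 0 (Nat.zero_le n)).1 v) (norm_nonneg _) hA0
  have h4 := mul_le_mul (hB v v.2) ((h2 n le_rfl).1 v) (norm_nonneg _) hB0
  linarith

theorem interp {k : ℤ} {n p : ℕ} (hn : k + 1 + n = p) (hpn : p = 0 ∨ n = 0) (b : Fin p → ℂ) :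
    ∃ ζ, XH (rep1 k) ζ ∧ (∀ v, v ≠ 0 → db ζ v = 0) ∧ ∀ j : Fin p, ζ (((j : ℕ) : ℂ), 1) = b j := by
  let ζ : C2 → ℂ := fun v => ∑ j, b j * ∏ i ∈ Finset.univ.erase j,
    ((v.1 - ((i : ℕ) : ℂ) * v.2) * (((j : ℕ) : ℂ) - ((i : ℕ) : ℂ))⁻¹)
  have hζ : ContDiff ℂ 2 ζ := ContDiff.sum fun j _ => contDiff_const.mul
    (contDiff_prod fun i _ => by fun_prop)
  refine ⟨ζ, xh_of_contDiffOn (fun c hc v _ => ?_) (hζ.restrict_scalars ℝ).contDiffOn,
    fun v _ => db_of_differentiableAt (hζ.differentiable (by simp) v), fun j => ?_⟩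
  · rw [rep1_apply, Finset.mul_sum]
    refine Finset.sum_congr rfl fun j _ => ?_
    have hj := j.2
    have e : k = ((Finset.univ.erase j).card : ℕ) := by
      rw [Finset.card_erase_of_mem (Finset.mem_univ j), Finset.card_univ, Fintype.card_fin]
      omega
    rw [e, zpow_natCast, mul_left_comm, ← Finset.prod_const, ← Finset.prod_mul_distrib]
    congr 1
    refine Finset.prod_congr rfl fun i _ => ?_
    simp only [Prod.smul_fst, Prod.smul_snd, smul_eq_mul]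
    ring
  · simp only [ζ, mul_one]
    rw [Finset.sum_eq_single j (fun i _ hi => by
        rw [Finset.prod_eq_zero (Finset.mem_erase.2 ⟨hi.symm, Finset.mem_univ j⟩) (by simp),
          mul_zero]) fun h => absurd (Finset.mem_univ j) h,
      Finset.prod_eq_one fun i hi => mul_inv_cancel₀ (sub_ne_zero.2 fun h =>
        (Finset.mem_erase.1 hi).1 (Fin.ext (Nat.cast_injective h)).symm), mul_one]

theorem uniq {k : ℤ} {n p : ℕ} (hn : k + 1 + n = p) (hpn : p = 0 ∨ n = 0) (ζ : C2 → ℂ)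
    (a : Fin n → ℂ) (hζ : XH (rep1 k) ζ) (h0 : ∀ v, v ≠ 0 → db ζ v + ∑ m, a m * gam k m v = 0)
    (hq : ∀ j : Fin p, ζ (((j : ℕ) : ℂ), 1) = 0) : (∀ v, v ≠ 0 → ζ v = 0) ∧ a = 0 := by
  let Z : C2 → ℂ := fun v => ζ v + ∑ m, a m * eta k m v
  have hZ : Hom (rep1 k) Z := fun c hc v hv => by
    have e : ∀ m : ℕ, k + 1 + m + (-m - 1) = k := fun m => by ring
    simp only [Z, eta, hζ.1 c hc v hv, bt_smul hc, mo_smul _ _ hc, rep1_apply, e, mul_add,
      Finset.mul_sum]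
    congr 1
    exact Finset.sum_congr rfl fun m _ => by ring
  have hF : Differentiable ℂ (aff Z) := fun z => by
    have he : ∀ m : Fin n, DifferentiableAt ℝ (eta k m) (z, 1) := fun m =>
      (cut0 (chart_ne z) (Or.inl one_ne_zero)).differentiableAt (by simp)
    have hs := DifferentiableAt.fun_sum (u := Finset.univ) fun m _ => (he m).const_mul (a m)
    have hd : DifferentiableAt ℝ Z (z, 1) := (hζ.2.1 _ (chart_ne z)).add hs
    have h1 := db_aff hd (euler_I hZ (chart_ne z) hd)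
    have e : ∀ m : Fin n, db (eta k m) (z, 1) = gam k m (z, 1) := fun m => db_cut one_ne_zero
    rw [db_add (hζ.2.1 _ (chart_ne z)) hs, db_sum _ he] at h1
    simp only [e, h0 _ (chart_ne z), smul_eq_mul] at h1
    exact differentiableAt_of_dbar (hd.comp z (f := fun w : ℂ => ((w, 1) : C2)) (by fun_prop))
      ((mul_eq_zero.1 h1.symm).resolve_left (den_ne z))
  have hc : ContinuousAt (fun t : ℂ => ζ (1, t)) 0 :=
    (hζ.2.1 _ (chart_ne' 0)).continuousAt.comp (f := fun t : ℂ => ((1, t) : C2)) (by fun_prop)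
  have far : ∀ z : ℂ, 2 < ‖z‖ → aff Z z * (z ^ p)⁻¹ =
      z⁻¹ ^ (n + 1) * ζ (1, z⁻¹) + ∑ m : Fin n, a m * z⁻¹ ^ (m + 1 + p) := fun z hz => by
    have hz0 : z ≠ 0 := norm_pos_iff.1 (by linarith)
    have e1 := hζ.1 z hz0 _ (chart_ne' z⁻¹)
    have e2 : z • ((1, z⁻¹) : C2) = (z, 1) := by simp [hz0]
    have e3 : k = (p : ℤ) + -((n + 1 : ℕ) : ℤ) := by push_cast; omega
    have e4 : ∀ m : ℕ, -(m : ℤ) - 1 = -((m + 1 : ℕ) : ℤ) := fun m => by push_cast; ring
    rw [e2, rep1_apply, e3, zpow_add₀ hz0, zpow_neg, zpow_natCast, zpow_natCast] at e1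
    simp only [aff, Z, eta, mo, bt_far hz, e1, one_zpow, one_mul, e4, zpow_neg, zpow_natCast,
      add_mul, Finset.sum_mul, inv_pow]
    congr 1
    · field_simp
    · exact Finset.sum_congr rfl fun m _ => by rw [pow_add z _ p, mul_inv, mul_assoc]
  have hz : ∀ z, aff Z z = 0 := by
    have hi : Function.Injective fun j : Fin p => ((j : ℕ) : ℂ) := fun i j h =>
      Fin.ext (Nat.cast_injective h)
    refine liou (Finset.univ.map ⟨_, hi⟩) _ hF (fun x hx => ?_) ?_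
    · obtain ⟨j, -, rfl⟩ := Finset.mem_map.1 hx
      have hj := j.2
      exact (congrArg₂ (· + ·) (hq j)
        (Finset.sum_eq_zero fun m _ => absurd m.2 (by omega))).trans (add_zero 0)
    · rw [Finset.card_map, Finset.card_univ, Fintype.card_fin, ← Metric.cobounded_eq_cocompact]
      have h2 : ContinuousAt (fun t : ℂ => t ^ (n + 1) * ζ (1, t) +
          ∑ m : Fin n, a m * t ^ (m + 1 + p)) 0 :=
        ((continuousAt_id.pow _).mul hc).add (Continuous.continuousAt (by fun_prop))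
      have h3 := h2.tendsto.comp tendsto_inv₀_cobounded
      simp only [ne_eq, add_eq_zero, one_ne_zero, and_false, false_and, not_false_eq_true,
        zero_pow, zero_mul, mul_zero, Finset.sum_const_zero, add_zero] at h3
      refine h3.congr' ?_
      filter_upwards [eventually_cobounded_le_norm (E := ℂ) 3] with z hz
      exact (far z (by linarith)).symm
  have ha : a = 0 := by
    rcases hpn with hp | hn0
    · refine coef_zero n a (fun t => -ζ (1, t)) hc.neg ?_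
      filter_upwards [self_mem_nhdsWithin, mem_nhdsWithin_of_mem_nhds
        (ball_mem_nhds (0 : ℂ) (by norm_num : (0 : ℝ) < 2⁻¹))] with t ht0 ht
      have h2 := far t⁻¹ (by
        rw [norm_inv]; exact lt_inv_of_lt_inv₀ (norm_pos_iff.2 ht0) (mem_ball_zero_iff.1 ht))
      rw [hz, zero_mul, inv_inv, hp] at h2
      refine mul_left_cancel₀ ht0 ?_
      have e : t * ∑ m : Fin n, a m * t ^ (m : ℕ) = ∑ m : Fin n, a m * t ^ ((m : ℕ) + 1 + 0) := by
        rw [Finset.mul_sum]; exact Finset.sum_congr rfl fun m _ => by ring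
      rw [e]
      linear_combination -h2
    · exact funext fun m => absurd m.2 (by omega)
  have h1 : ∀ z, ζ (z, 1) = 0 := fun z => by simpa [aff, Z, ha] using hz z
  refine ⟨fun v hv => hom_zero hζ.1 h1 ?_ hv, ha⟩
  refine tendsto_nhds_unique (hc.tendsto.mono_left (nhdsWithin_le_nhds (s := {0}ᶜ)))
    (tendsto_const_nhds.congr' ?_)
  filter_upwards [self_mem_nhdsWithin] with t ht
  rw [smul_chart (v := (1, t)) ht, hζ.1 _ ht _ (chart_ne _), h1, map_zero]

end Std1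

open Std1 in
theorem std1_of (h1 : Cau1Stmt) (h2 : Cau2Stmt) : Std1Stmt := by
  intro k
  obtain ⟨n, p, hn, hpn, hk⟩ : ∃ n p : ℕ, k + 1 + n = p ∧ (p = 0 ∨ n = 0) ∧ (-1 ≤ k → n = 0) :=
    ⟨(-k - 1).toNat, (k + 1).toNat, by omega, by omega, by omega⟩
  have hn0 : 0 ≤ k + 1 + n := by omega
  let S : Submodule ℝ (C2 → ℂ) :=
    { carrier := {g | ContinuousOn g nz}
      add_mem' := fun ha hb => ha.add hb
      zero_mem' := continuousOn_const
      smul_mem' := fun r _ hg => hg.const_smul r }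
  have hsw : ∀ g : C2 → ℂ, ContinuousOn g nz → ContinuousOn (fun w => g w.swap) nz :=
    fun g hg => hg.comp continuous_swap.continuousOn fun v hv => swap_ne hv
  obtain ⟨R, hR⟩ := exists_lin S (fun g v => R1 k n g v) (fun g hg g' hg' => funext fun v => by
      simp only [R1, ph_add, KK_add h1 (ph_cs hg _) (ph_cs hg' _), Pi.add_apply]; ring)
    fun r g _ => funext fun v => by
      simp only [R1, ph_smul, KK_mul, Pi.smul_apply, real_smul]; ring
  obtain ⟨c, hc⟩ := exists_lin S (fun g (m : Fin n) => mu (ph g m))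
    (fun g hg g' hg' => funext fun m => by
      simp only [ph_add, mu_add (ph_cs hg _) (ph_cs hg' _), Pi.add_apply])
    fun r g _ => funext fun m => by simp only [ph_smul, mu_mul, Pi.smul_apply, real_smul]
  obtain ⟨C, hC0, hC⟩ := R1_bound h1 hn0
  let σ : (C2 → ℂ) →ₗ[ℝ] C2 → ℂ := LinearMap.funLeft ℝ ℂ Prod.swap
  let τ : (Fin n → ℂ) →ₗ[ℝ] Fin n → ℂ := LinearMap.funLeft ℝ ℂ Fin.rev
  have eR : ∀ g, ContinuousOn g nz → (R - σ ∘ₗ R ∘ₗ σ) g =
      fun v => R1 k n g v - R1 k n (fun w => g w.swap) v.swap := fun g hg => by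
    have e : R (σ g) = _ := hR _ (hsw g hg)
    rw [LinearMap.sub_apply, LinearMap.comp_apply, LinearMap.comp_apply, e, hR g hg]
    rfl
  have ec : ∀ g, ContinuousOn g nz → ∀ m, (c + τ ∘ₗ c ∘ₗ σ) g m =
      mu (ph g m) + mu (ph (fun w => g w.swap) m.rev) := fun g hg m => by
    have e : c (σ g) = _ := hc _ (hsw g hg)
    rw [LinearMap.add_apply, LinearMap.comp_apply, LinearMap.comp_apply, e, hc g hg]
    rfl
  refine ⟨n, p, fun m => gam k m, fun j => (((j : ℕ) : ℂ), 1), R - σ ∘ₗ R ∘ₗ σ, c + τ ∘ₗ c ∘ₗ σ,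
    C + C, by omega, hk, fun m => gam_yh k m, fun j => chart_ne _, fun g hg hg' => ?_,
    fun g hg => ?_, interp hn hpn, uniq hn hpn⟩
  · have a1 := R1_yh h1 hn0 hg'
    have a2 := yh_swap (R1_yh h1 hn0 (hsw g hg'))
    refine ⟨?_, fun G hG => ?_⟩
    · rw [eR g hg']
      exact ⟨fun a ha v hv => by simp only [a1.1 a ha v hv, a2.1 a ha v hv, map_sub],
        (a1.2.prod a2.2).post (Φ := fun q : ℂ × ℂ => q.1 - q.2) fun _ _ => by fun_prop⟩
    · have hs : ∀ v : S3, (v : C2).swap ∈ sphere (0 : C2) 1 := fun v => by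
        have := mem_sphere_zero_iff_norm.1 v.2
        rw [mem_sphere_zero_iff_norm, Prod.norm_def, Prod.fst_swap, Prod.snd_swap, max_comm,
          ← Prod.norm_def, this]
      have hG0 : 0 ≤ G := (norm_nonneg _).trans (hG ⟨mk3 0, by simp [mk3_norm]⟩)
      have b1 := hC g hg hg' G hG
      have b2 := hC _ (hom_swap hg) (hsw g hg') G fun v => hG ⟨_, hs v⟩
      refine ⟨fun v => ?_, (pi_norm_le_iff_of_nonneg (by positivity)).2 fun m => ?_⟩
      · rw [eR g hg', add_mul]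
        exact (norm_sub_le _ _).trans (add_le_add (b1.1 v) (b2.1 ⟨_, hs v⟩))
      · rw [ec g hg', add_mul]
        exact (norm_add_le _ _).trans (add_le_add (b1.2 m) (b2.2 m.rev))
  · have hg' : ContinuousOn g nz := fun v hv => (hg.2.continuousAt hv).continuousWithinAt
    have a1 := R1_solve h1 h2 hn0 hg
    have a2 := R1_solve h1 h2 hn0 (yh_swap hg)
    have a3 := xh_swap a2.1
    rw [eR g hg']
    refine ⟨xh_iff.2 ⟨fun a ha v hv => by simp only [a1.1.1 a ha v hv, a3.1 a ha v hv, map_sub],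
      fun v hv => ((xh_iff.1 a1.1).2 v hv).sub ((xh_iff.1 a3).2 v hv)⟩, fun v hv => ?_⟩
    have b2 := a2.2 _ (swap_ne hv)
    have e : ∑ m : Fin n, mu (ph (fun w => g w.swap) m) * gam k m v.swap =
        ∑ m : Fin n, mu (ph (fun w => g w.swap) m.rev) * gam k m v := by
      rw [← Equiv.sum_comp Fin.revPerm]
      refine Finset.sum_congr rfl fun m _ => ?_
      have hm := m.2
      rw [Fin.revPerm_apply, gam_swap (by omega) _ hv, Fin.rev_rev]
    rw [e, bt_swap hv, Prod.swap_swap] at b2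
    rw [db_sub (a1.1.2.1 v hv) (a3.2.1 v hv), db_swap (a2.1.2.1 _ (swap_ne hv))]
    simp only [ec g hg', add_mul, Finset.sum_add_distrib]
    linear_combination a1.2 v hv + b2

end

end Pool.Agent.MP_9758ca_gt

end

end MrgPart0

-- ======== part 1: formerly Pool.Agent.MP_9758ca_gt.PL
section MrgPart1

section

/-!
PROJECT BALL: Fredholm operators (Riesz theory) and the Sard-Smale theorem for negative index.
-/

open scoped Topology
open Set Metric Filter Module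

namespace Pool.Agent.MP_9758ca_gt

noncomputable section

namespace Riesz

variable {X Y P W P' W' : Type} [NormedAddCommGroup X] [NormedSpace ℝ X] [NormedAddCommGroup Y]
  [NormedSpace ℝ Y] [NormedAddCommGroup P] [NormedSpace ℝ P] [FiniteDimensional ℝ P]
  [NormedAddCommGroup W] [NormedSpace ℝ W] [FiniteDimensional ℝ W]
  [NormedAddCommGroup P'] [NormedSpace ℝ P'] [FiniteDimensional ℝ P']
  [NormedAddCommGroup W'] [NormedSpace ℝ W'] [FiniteDimensional ℝ W']

theorem cpt_pi {E ι : Type} [Finite ι] [Zero E] [TopologicalSpace E] {F : ι → Type}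
    [∀ n, TopologicalSpace (F n)] {f : E → ∀ n, F n} (h : ∀ n, IsCompactOperator fun x => f x n) :
    IsCompactOperator f := by
  choose K hK hf using h
  exact ⟨Set.pi univ K, isCompact_univ_pi hK,
    mem_of_superset (Filter.iInter_mem.2 hf) fun x hx n _ => mem_iInter.1 hx n⟩

theorem cpt_prod {E A B : Type} [Zero E] [TopologicalSpace E] [TopologicalSpace A]
    [TopologicalSpace B] {f : E → A × B} (h1 : IsCompactOperator fun x => (f x).1)
    (h2 : IsCompactOperator fun x => (f x).2) : IsCompactOperator f := by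
  obtain ⟨K, hK, hf⟩ := h1
  obtain ⟨L, hL, hg⟩ := h2
  exact ⟨K ×ˢ L, hK.prod hL, inter_mem hf hg⟩

theorem cpt_to (T : X →L[ℝ] P) : IsCompactOperator T :=
  have := FiniteDimensional.proper_real P
  isCompactOperator_of_locallyCompactSpace_dom T

theorem cpt_from (T : P →L[ℝ] Y) : IsCompactOperator T :=
  have := FiniteDimensional.proper_real P
  isCompactOperator_of_locallyCompactSpace_rng T

theorem cpt_congr {E A : Type} [Zero E] [TopologicalSpace E] [TopologicalSpace A] {f g : E → A}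
    (h : IsCompactOperator f) (e : ∀ x, f x = g x) : IsCompactOperator g :=
  (funext e : f = g) ▸ h

/-- Fredholm alternative for a compact perturbation of an isomorphism -/
theorem alt [CompleteSpace X] (Φ : X ≃L[ℝ] Y) (A : X →L[ℝ] Y)
    (hK : IsCompactOperator fun x => A x - Φ x) (hA : Function.Injective A) :
    Function.Surjective A := by
  set K : X →L[ℝ] X := (Φ.symm : Y →L[ℝ] X).comp A - 1 with hKd
  have e : ∀ x, K x = Φ.symm (A x) - x := fun x => rfl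
  have hc : IsCompactOperator K :=
    cpt_congr (hK.continuous_comp Φ.symm.continuous) fun x => by simp [e]
  rcases hc.hasEigenvalue_or_mem_resolventSet (μ := -1) (by norm_num) with h | h
  · obtain ⟨x, hx⟩ := h.exists_hasEigenvector
    have h1 : K x = (-1 : ℝ) • x := hx.apply_eq_smul
    rw [e, neg_one_smul, sub_eq_neg_self, Φ.symm.map_eq_zero_iff] at h1
    exact absurd (hA (h1.trans A.map_zero.symm)) hx.2
  · rw [spectrum.mem_resolventSet_iff, ContinuousLinearMap.isUnit_iff_bijective] at h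
    intro y
    obtain ⟨x, hx⟩ := h.2 (-Φ.symm y)
    refine ⟨x, Φ.symm.injective ?_⟩
    have : (algebraMap ℝ (X →L[ℝ] X) (-1) - K) x = -Φ.symm (A x) := by
      simp only [map_neg, map_one, sub_apply, neg_apply, one_apply_eq_self, e]
      abel
    exact neg_injective (this.symm.trans hx)

/-- comparison of two stabilisations of the same operator -/
theorem stab [CompleteSpace X] (Φ : (X × P) ≃L[ℝ] (Y × W)) (U : X × P' →L[ℝ] Y × W')
    (hK : IsCompactOperator fun x => (U (x, 0)).1 - (Φ (x, 0)).1) (hU : Function.Injective U)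
    (hd : finrank ℝ W' + finrank ℝ P ≤ finrank ℝ W + finrank ℝ P') :
    Function.Surjective U ∧ finrank ℝ W' + finrank ℝ P = finrank ℝ W + finrank ℝ P' := by
  have := FiniteDimensional.complete ℝ P
  have := FiniteDimensional.complete ℝ P'
  rw [← finrank_prod, ← finrank_prod] at hd ⊢
  obtain ⟨e₀, he⟩ := finrank_le_iff_exists_linearMap.1 hd
  set e := LinearMap.toContinuousLinearMap e₀
  let u : (X × P) × P' →L[ℝ] Y × W' := U.comp
    (((ContinuousLinearMap.fst ℝ X P).comp (.fst ℝ _ P')).prod (.snd ℝ _ P'))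
  let z : (X × P) × P' →L[ℝ] W × P' := e.comp (((ContinuousLinearMap.snd ℝ Y W').comp u).prod
    ((ContinuousLinearMap.snd ℝ X P).comp (.fst ℝ _ P')))
  let A : (X × P) × P' →L[ℝ] (Y × W) × P' := (((ContinuousLinearMap.fst ℝ Y W').comp u).prod
    ((ContinuousLinearMap.fst ℝ W P').comp z)).prod ((ContinuousLinearMap.snd ℝ W P').comp z)
  have hA : ∀ v, A v = (((U (v.1.1, v.2)).1, (e₀ ((U (v.1.1, v.2)).2, v.1.2)).1),
      (e₀ ((U (v.1.1, v.2)).2, v.1.2)).2) := fun v => rfl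
  let Ψ := Φ.prodCongr (ContinuousLinearEquiv.refl ℝ P')
  have hs : Function.Surjective A := by
    refine alt Ψ A (cpt_prod (cpt_prod ?_ ?_) ?_) fun v w h => ?_
    · have a := hK.comp_clm ((ContinuousLinearMap.fst ℝ X P).comp (.fst ℝ _ P'))
      have b := (cpt_from ((ContinuousLinearMap.fst ℝ Y W').comp (U.comp (.inr ℝ X P')))).comp_clm
        (ContinuousLinearMap.snd ℝ (X × P) P')
      have c := (cpt_from ((ContinuousLinearMap.fst ℝ Y W).comp
        ((Φ : X × P →L[ℝ] Y × W).comp (.inr ℝ X P)))).comp_clm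
        ((ContinuousLinearMap.snd ℝ X P).comp (.fst ℝ _ P'))
      refine cpt_congr ((a.add b).sub c) fun ⟨⟨x, p⟩, p'⟩ => ?_
      have e1 : U (x, p') = U (x, 0) + U (0, p') := by rw [← map_add]; simp
      have e2 : Φ (x, p) = Φ (x, 0) + Φ (0, p) := by rw [← map_add]; simp
      show (U (x, 0)).1 - (Φ (x, 0)).1 + (U (0, p')).1 - (Φ (0, p)).1 =
        (U (x, p')).1 - (Φ (x, p)).1
      rw [e1, e2, Prod.fst_add, Prod.fst_add]
      abel
    · exact cpt_to ((ContinuousLinearMap.snd ℝ Y W).comp ((ContinuousLinearMap.fst ℝ _ P').comp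
        (A - (Ψ : (X × P) × P' →L[ℝ] (Y × W) × P'))))
    · exact cpt_to ((ContinuousLinearMap.snd ℝ _ P').comp
        (A - (Ψ : (X × P) × P' →L[ℝ] (Y × W) × P')))
    · rw [hA, hA, Prod.mk.injEq, Prod.mk.injEq] at h
      have a := he (Prod.ext h.1.2 h.2)
      rw [Prod.mk.injEq] at a
      have b := hU (Prod.ext h.1.1 a.1)
      rw [Prod.mk.injEq] at b
      exact Prod.ext (Prod.ext b.1 a.2) b.2
  refine ⟨fun y => ?_, le_antisymm hd (LinearMap.finrank_le_finrank_of_surjective (f := e₀) ?_)⟩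
  · obtain ⟨v, hv⟩ := hs ((y.1, (e₀ (y.2, 0)).1), (e₀ (y.2, 0)).2)
    rw [hA, Prod.mk.injEq, Prod.mk.injEq] at hv
    exact ⟨_, Prod.ext hv.1.1 (congrArg Prod.fst (he (Prod.ext hv.1.2 hv.2)))⟩
  · intro w
    obtain ⟨v, hv⟩ := hs ((0, w.1), w.2)
    rw [hA, Prod.mk.injEq, Prod.mk.injEq] at hv
    exact ⟨_, Prod.ext hv.1.2 hv.2⟩

theorem fred_of {D : X →L[ℝ] Y} (Φ : (X × P) ≃L[ℝ] (Y × W))
    (hK : IsCompactOperator fun x => D x - (Φ (x, 0)).1) :
    Fred D ((finrank ℝ W : ℤ) - finrank ℝ P) := by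
  let e : (Fin (finrank ℝ P) → ℝ) ≃L[ℝ] P := ContinuousLinearEquiv.ofFinrankEq (by simp)
  let f : W ≃L[ℝ] (Fin (finrank ℝ W) → ℝ) := ContinuousLinearEquiv.ofFinrankEq (by simp)
  refine ⟨_, _, (((ContinuousLinearEquiv.refl ℝ X).prodCongr e).trans Φ).trans
    ((ContinuousLinearEquiv.refl ℝ Y).prodCongr f), rfl, cpt_congr hK fun x => ?_⟩
  show _ = D x - (Φ (x, e 0)).1
  rw [map_zero]

theorem ker_fin {D : X →L[ℝ] Y} {i : ℤ} (h : Fred D i) : FiniteDimensional ℝ D.ker := by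
  obtain ⟨a, b, Φ, -, hK⟩ := h
  have c : IsCompactOperator fun x : D.ker => Φ (x.1, 0) := by
    refine cpt_prod (cpt_congr (hK.comp_clm D.ker.subtypeL).neg fun x => ?_)
      (cpt_to ((ContinuousLinearMap.snd ℝ Y _).comp
        ((Φ : X × (Fin b → ℝ) →L[ℝ] Y × (Fin a → ℝ)).comp
          ((ContinuousLinearMap.inl ℝ X _).comp D.ker.subtypeL))))
    have : D x.1 = 0 := x.2
    show -(D x.1 - (Φ (x.1, 0)).1) = _
    rw [this, zero_sub, neg_neg]
  have d : IsCompactOperator fun x : D.ker => x.1 :=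
    cpt_congr (c.continuous_comp (continuous_fst.comp Φ.symm.continuous)) fun x => by simp
  exact FiniteDimensional.of_isCompactOperator_id
    (d.codRestrict (V := D.ker) (fun x => x.2) D.isClosed_ker)

/-- the operator together with a projection on its kernel and a map to a complement of its range -/
def big (D : X →L[ℝ] Y) (π : X →L[ℝ] D.ker) (j : P →L[ℝ] Y) : X × P →L[ℝ] Y × D.ker :=
  (D.coprod j).prod (π.comp (.fst ℝ X P))

omit [FiniteDimensional ℝ P] in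
theorem big_apply (D : X →L[ℝ] Y) (π : X →L[ℝ] D.ker) (j : P →L[ℝ] Y) (x : X) (c : P) :
    big D π j (x, c) = (D x + j c, π x) := rfl

omit [FiniteDimensional ℝ P] in
theorem big_inj {D : X →L[ℝ] Y} {π : X →L[ℝ] D.ker} (hπ : ∀ x : D.ker, π x = x) {j : P →L[ℝ] Y}
    (hj : ∀ x c, D x + j c = 0 → c = 0) : Function.Injective (big D π j) := by
  refine (injective_iff_map_eq_zero _).2 fun ⟨x, c⟩ h => ?_
  have h1 : D x + j c = 0 := congrArg Prod.fst h
  have h2 : π x = 0 := congrArg Prod.snd h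
  obtain rfl := hj x c h1
  rw [map_zero, add_zero] at h1
  rw [hπ ⟨x, h1⟩] at h2
  exact Prod.ext (congrArg Subtype.val h2) rfl

omit [FiniteDimensional ℝ P] in
theorem big_surj {D : X →L[ℝ] Y} {π : X →L[ℝ] D.ker} (hπ : ∀ x : D.ker, π x = x) {j : P →L[ℝ] Y}
    (hj : ∀ y, ∃ x c, D x + j c = y) : Function.Surjective (big D π j) := by
  rintro ⟨y, ν⟩
  obtain ⟨x, c, rfl⟩ := hj y
  refine ⟨(x + ((ν - π x : D.ker) : X), c), ?_⟩
  rw [big_apply, map_add, show D ((ν - π x : D.ker) : X) = 0 from (ν - π x).2, add_zero,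
    map_add, hπ, add_sub_cancel]

theorem equiv_of [CompleteSpace X] [CompleteSpace Y] {T : X →L[ℝ] Y} (h : Function.Bijective T) :
    ∃ Φ : X ≃L[ℝ] Y, ∀ x, Φ x = T x :=
  ⟨.ofBijective T (LinearMap.ker_eq_bot.2 h.1) (LinearMap.range_eq_top.2 h.2), fun _ => rfl⟩

theorem main [CompleteSpace X] [CompleteSpace Y] {D : X →L[ℝ] Y} {i : ℤ} (h : Fred D i) :
    FiniteDimensional ℝ D.ker ∧ IsClosed (D.range : Set Y) ∧
      ∃ C : Submodule ℝ Y, FiniteDimensional ℝ C ∧ IsCompl D.range C ∧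
        (finrank ℝ D.ker : ℤ) - finrank ℝ C = i := by
  have hN := ker_fin h
  obtain ⟨a, b, Φ, rfl, hK⟩ := h
  obtain ⟨π, hπ⟩ := Submodule.ClosedComplemented.of_finiteDimensional D.ker
  obtain ⟨C, hC⟩ := D.range.exists_isCompl
  have z : ∀ x (c : C), D x + c = 0 → c = 0 := fun x c e => Subtype.ext
    ((Submodule.disjoint_def.1 hC.disjoint) c ⟨-x, by simp [eq_neg_of_add_eq_zero_right e]⟩ c.2)
  have k : ∀ {Q : Type} [NormedAddCommGroup Q] [NormedSpace ℝ Q] (j : Q →L[ℝ] Y),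
      IsCompactOperator fun x => (big D π j (x, 0)).1 - (Φ (x, 0)).1 := fun j =>
    cpt_congr hK fun x => by
      show _ = D x + j 0 - _
      rw [map_zero, add_zero]
  have hF : FiniteDimensional ℝ C := by
    by_contra hc
    have r : ((finrank ℝ D.ker + b + 1 : ℕ) : Cardinal) ≤ Module.rank ℝ C :=
      Cardinal.natCast_lt_aleph0.le.trans (not_lt.1 fun h => hc (Module.rank_lt_aleph0_iff.1 h))
    obtain ⟨v, hv⟩ := exists_linearIndependent_of_le_rank r
    let j := LinearMap.toContinuousLinearMap (C.subtype.comp (Fintype.linearCombination ℝ v))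
    have := (stab Φ (big D π j) (k j) (big_inj hπ fun x c e =>
      (linearIndependent_iff_injective_fintypeLinearCombination.1 hv)
        ((z x _ e).trans (map_zero _).symm)) (by simp; omega)).2
    simp at this
    omega
  have := FiniteDimensional.complete ℝ C
  have := FiniteDimensional.complete ℝ D.ker
  have hi := big_inj hπ (j := C.subtypeL) z
  have hs := big_surj hπ (j := C.subtypeL) fun y => by
    obtain ⟨_, c, ⟨x, rfl⟩, hc, e⟩ := Submodule.codisjoint_iff_exists_add_eq.1 hC.codisjoint y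
    exact ⟨x, ⟨c, hc⟩, e⟩
  obtain ⟨U, hU⟩ := equiv_of ⟨hi, hs⟩
  refine ⟨hN, ?_, C, hF, hC, ?_⟩
  · have e : (D.range : Set Y) = {y | (U.symm (y, 0)).2 = 0} := by
      ext y
      constructor
      · rintro ⟨x, rfl⟩
        have : U (x - π x, 0) = (D x, 0) := by
          rw [hU, big_apply, map_zero, add_zero, map_sub, show D (π x : X) = 0 from (π x).2,
            sub_zero, map_sub, hπ, sub_self]
        show (U.symm (D x, 0)).2 = 0
        rw [← this, U.symm_apply_apply]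
      · intro hy
        have := congrArg Prod.fst ((hU _).symm.trans (U.apply_symm_apply (y, 0)))
        refine ⟨(U.symm (y, 0)).1, Eq.trans ?_ this⟩
        show _ = D _ + C.subtypeL (U.symm (y, 0)).2
        rw [show (U.symm (y, 0)).2 = 0 from hy, map_zero, add_zero]
        rfl
    rw [e]
    exact isClosed_eq (by fun_prop) continuous_const
  · rcases le_total (finrank ℝ D.ker + finrank ℝ (Fin b → ℝ))
      (finrank ℝ (Fin a → ℝ) + finrank ℝ C) with l | l
    · have := (stab Φ _ (k _) hi l).2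
      simp only [finrank_fin_fun] at this
      omega
    · have := (stab U (Φ : X × (Fin b → ℝ) →L[ℝ] Y × (Fin a → ℝ))
        (cpt_congr (k C.subtypeL).neg fun x => by rw [hU]; exact neg_sub _ _) Φ.injective l).2
      simp only [finrank_fin_fun] at this
      omega

theorem extend {D : X →L[ℝ] Y} {i : ℤ} (h : Fred D i) (T : P × X →L[ℝ] Y × W)
    (hT : ∀ x, (T (0, x)).1 = D x) : Fred T (i + finrank ℝ P - finrank ℝ W) := by
  obtain ⟨a, b, Φ, rfl, hK⟩ := h
  let Ψ : ((P × X) × ((Fin b → ℝ) × W)) ≃L[ℝ] ((Y × W) × ((Fin a → ℝ) × P)) :=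
    { toFun := fun v => (((Φ (v.1.2, v.2.1)).1, v.2.2), (Φ (v.1.2, v.2.1)).2, v.1.1)
      invFun := fun v => ((v.2.2, (Φ.symm (v.1.1, v.2.1)).1), (Φ.symm (v.1.1, v.2.1)).2, v.1.2)
      map_add' := fun v w => by
        have := map_add Φ (v.1.2, v.2.1) (w.1.2, w.2.1)
        exact Prod.ext (Prod.ext (congrArg Prod.fst this :) rfl)
          (Prod.ext (congrArg Prod.snd this :) rfl)
      map_smul' := fun c v => by
        have := map_smul Φ c (v.1.2, v.2.1)
        exact Prod.ext (Prod.ext (congrArg Prod.fst this :) rfl)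
          (Prod.ext (congrArg Prod.snd this :) rfl)
      left_inv := fun v => by simp
      right_inv := fun v => by simp
      continuous_toFun := by fun_prop
      continuous_invFun := by fun_prop }
  have := fred_of (D := T) Ψ (cpt_prod ?_ ?_)
  · simp only [finrank_prod, finrank_fin_fun, Nat.cast_add] at this
    rwa [show (a : ℤ) - b + finrank ℝ P - finrank ℝ W = a + finrank ℝ P - (b + finrank ℝ W) by ring]
  · have a := hK.comp_clm (ContinuousLinearMap.snd ℝ P X)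
    have b := (cpt_from ((ContinuousLinearMap.fst ℝ Y W).comp (T.comp (.inl ℝ P X)))).comp_clm
      (ContinuousLinearMap.fst ℝ P X)
    refine cpt_congr (a.add b) fun ⟨p, x⟩ => ?_
    have e1 : T (p, x) = T (0, x) + T (p, 0) := by rw [← map_add]; simp
    show D x - (Φ (x, 0)).1 + (T (p, 0)).1 = (T (p, x)).1 - (Φ (x, 0)).1
    rw [e1, Prod.fst_add, hT]
    abel
  · exact cpt_congr (cpt_to ((ContinuousLinearMap.snd ℝ Y W).comp T)) fun v => (sub_zero _).symm

theorem pi {N : ℕ} {X Y : Fin N → Type} [∀ n, NormedAddCommGroup (X n)]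
    [∀ n, NormedSpace ℝ (X n)] [∀ n, NormedAddCommGroup (Y n)] [∀ n, NormedSpace ℝ (Y n)]
    {D : ∀ n, X n →L[ℝ] Y n} {i : Fin N → ℤ} (h : ∀ n, Fred (D n) (i n))
    (T : (∀ n, X n) →L[ℝ] ∀ n, Y n) (hT : ∀ x n, T x n = D n (x n)) : Fred T (∑ n, i n) := by
  choose a b Φ hi hK using h
  let Ψ : ((∀ n, X n) × ∀ n, Fin (b n) → ℝ) ≃L[ℝ] ((∀ n, Y n) × ∀ n, Fin (a n) → ℝ) :=
    { toFun := fun v => (fun n => (Φ n (v.1 n, v.2 n)).1, fun n => (Φ n (v.1 n, v.2 n)).2)
      invFun := fun v =>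
        (fun n => ((Φ n).symm (v.1 n, v.2 n)).1, fun n => ((Φ n).symm (v.1 n, v.2 n)).2)
      map_add' := fun v w => by
        have := fun n => map_add (Φ n) (v.1 n, v.2 n) (w.1 n, w.2 n)
        exact Prod.ext (funext fun n => congrArg Prod.fst (this n))
          (funext fun n => congrArg Prod.snd (this n))
      map_smul' := fun c v => by
        have := fun n => map_smul (Φ n) c (v.1 n, v.2 n)
        exact Prod.ext (funext fun n => congrArg Prod.fst (this n))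
          (funext fun n => congrArg Prod.snd (this n))
      left_inv := fun v => by simp
      right_inv := fun v => by simp
      continuous_toFun := by fun_prop
      continuous_invFun := by fun_prop }
  have := fred_of (D := T) Ψ (cpt_pi fun n =>
    cpt_congr ((hK n).comp_clm (ContinuousLinearMap.proj (R := ℝ) (φ := X) n)) fun x => by
      show D n (x n) - _ = T x n - _
      rw [hT]
      rfl)
  rw [Module.finrank_pi_fintype, Module.finrank_pi_fintype] at this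
  simp only [finrank_fin_fun, Nat.cast_sum] at this
  rwa [funext hi, Finset.sum_sub_distrib]

end Riesz

open Riesz in
theorem riesz : RieszStmt := by
  refine ⟨fun X Y _ _ _ _ _ _ D i => ⟨main, fun ⟨a, b, Φ, hi, hK⟩ D' h => ⟨a, b, Φ, hi, ?_⟩,
    fun P W _ _ _ _ _ _ => ⟨extend, fun T hT hD => ?_⟩⟩,
    fun N X Y _ _ _ _ D i h T hT => pi h T hT, fun X Y _ _ _ _ _ _ D => ?_⟩
  · exact cpt_congr (h.add hK) fun x => sub_add_sub_cancel _ _ _
  · have := FiniteDimensional.complete ℝ P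
    have := FiniteDimensional.complete ℝ W
    obtain ⟨Φ, hΦ⟩ := equiv_of hT
    exact fred_of Φ (cpt_congr isCompactOperator_zero fun x => by rw [hΦ, hD, sub_self]; rfl)
  · exact fred_of (ContinuousLinearEquiv.prodComm ℝ X Y)
      (cpt_congr (cpt_to D) fun x => (sub_zero _).symm)

namespace Ss

variable {A X Y : Type} [NormedAddCommGroup A] [NormedSpace ℝ A] [NormedAddCommGroup X]
  [NormedSpace ℝ X] [NormedAddCommGroup Y] [NormedSpace ℝ Y]

/-- near a point with surjective derivative, the zeros of `F` are controlled by finitely many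
coordinates, even after adding the directions `s c` -/
theorem key [CompleteSpace X] [CompleteSpace Y] {F : A × X → Y} {q : A × X} {i : ℤ} (hi : i < 0)
    (hF : ContDiffAt ℝ 1 F q) (hD : Fred ((fderiv ℝ F q).comp (.inr ℝ A X)) i)
    (hs : Function.Surjective (fderiv ℝ F q)) :
    ∃ (n m : ℕ) (π : X →L[ℝ] Fin n → ℝ) (s : (Fin m → ℝ) →L[ℝ] A) (r M : ℝ), n < m ∧ 0 < r ∧ 0 < M ∧
      ContinuousOn F (closedBall q r) ∧ ∀ a c x a' c' x', (a + s c, x) ∈ closedBall q r →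
        (a' + s c', x') ∈ closedBall q r → F (a + s c, x) = 0 → F (a' + s c', x') = 0 →
          ‖(x - x', c - c')‖ ≤ M * ‖(a - a', π x - π x')‖ := by
  set L := fderiv ℝ F q
  set D := L.comp (.inr ℝ A X)
  obtain ⟨hN, -, C, hC, hc, hd⟩ := Riesz.main hD
  obtain ⟨π, hπ⟩ := Submodule.ClosedComplemented.of_finiteDimensional D.ker
  let b := Module.finBasis ℝ C
  choose v hv using fun k => hs (b k)
  let t := LinearMap.toContinuousLinearMap (Fintype.linearCombination ℝ v)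
  let s := (ContinuousLinearMap.fst ℝ A X).comp t
  let j := L.comp ((ContinuousLinearMap.inl ℝ A X).comp s)
  have hL : ∀ a x, L (a, x) = L (a, 0) + D x := fun a x => by
    show _ = L (a, 0) + L (0, x)
    rw [← map_add]; simp
  have hj : ∀ c, j c + D (t c).2 = b.equivFun.symm c := fun c => by
    have : L (t c) = b.equivFun.symm c := by
      simp [t, Fintype.linearCombination_apply, hv]
    rw [← this]
    exact (hL _ _).symm
  have := FiniteDimensional.complete ℝ D.ker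
  obtain ⟨U, hU⟩ := Riesz.equiv_of (T := Riesz.big D π j) ⟨Riesz.big_inj hπ fun x c e => by
    have : D ((t c).2 - x) = b.equivFun.symm c := by
      rw [← hj, map_sub, eq_neg_of_add_eq_zero_left e]; abel
    exact b.equivFun.symm.map_eq_zero_iff.1 (Subtype.ext ((Submodule.disjoint_def.1 hc.disjoint) _
      ⟨_, this⟩ (b.equivFun.symm c).2)), Riesz.big_surj hπ fun y => by
    obtain ⟨_, c, ⟨x, rfl⟩, hc, e⟩ := Submodule.codisjoint_iff_exists_add_eq.1 hc.codisjoint y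
    refine ⟨x + (t (b.equivFun ⟨c, hc⟩)).2, b.equivFun ⟨c, hc⟩, ?_⟩
    rw [map_add, add_assoc, add_comm _ (j _), hj, LinearEquiv.symm_apply_apply]
    exact e⟩
  let e : D.ker ≃L[ℝ] (Fin (finrank ℝ D.ker) → ℝ) := ContinuousLinearEquiv.ofFinrankEq (by simp)
  set κ := ‖(U.symm : Y × D.ker →L[ℝ] X × (Fin (finrank ℝ C) → ℝ))‖ + 1
  set κ' := ‖(e.symm : (Fin (finrank ℝ D.ker) → ℝ) →L[ℝ] D.ker)‖
  have hκ : 0 < κ := by positivity
  have hκ' : 0 ≤ κ' := ContinuousLinearMap.opNorm_nonneg _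
  set ε := 1 / (2 * κ * (1 + ‖s‖))
  have hε : 0 < ε := by positivity
  obtain ⟨T, hT, hA⟩ := (hF.hasStrictFDerivAt one_ne_zero).approximates_deriv_on_nhds
    (c := ⟨ε, hε.le⟩) (Or.inr hε)
  obtain ⟨r, hr, hb⟩ := nhds_basis_closedBall.mem_iff.1
    (inter_mem hT (hF.eventually (by simp)))
  have hlt : finrank ℝ D.ker < finrank ℝ C := by omega
  refine ⟨_, _, (e : D.ker →L[ℝ] _).comp π, s, r, 2 * κ * (‖L‖ + ε + κ'), hlt, hr, by positivity,
    fun z hz => (show ContDiffAt ℝ 1 F z from (hb hz).2).continuousAt.continuousWithinAt,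
    fun a c x a' c' x' h1 h2 z1 z2 => ?_⟩
  have k1 := hA _ (hb h1).1 _ (hb h2).1
  rw [z1, z2, sub_self, zero_sub, norm_neg] at k1
  set w : X × (Fin (finrank ℝ C) → ℝ) := (x - x', c - c')
  change _ ≤ _ * ‖(a - a', e (π x) - e (π x'))‖
  set δ := ‖(a - a', e (π x) - e (π x'))‖
  have d1 : ‖a - a'‖ ≤ δ := norm_fst_le (a - a', _)
  have d0 : 0 ≤ δ := norm_nonneg _
  have d2 : ‖π (x - x')‖ ≤ κ' * δ := by
    have a := (e.symm : (Fin (finrank ℝ D.ker) → ℝ) →L[ℝ] D.ker).le_opNorm (e (π x) - e (π x'))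
    rw [← map_sub, ← map_sub] at a
    simp only [ContinuousLinearEquiv.coe_coe, ContinuousLinearEquiv.symm_apply_apply] at a
    refine a.trans (mul_le_mul_of_nonneg_left ?_ hκ')
    rw [map_sub, map_sub]
    exact norm_snd_le (_, _)
  have e1 : ((a + s c, x) : A × X) - (a' + s c', x') = (a - a', 0) + (s w.2, w.1) := by
    simp only [w, map_sub, Prod.mk_sub_mk, Prod.mk_add_mk, zero_add]
    congr 1
    abel
  have k2 : ‖((s w.2, w.1) : A × X)‖ ≤ (1 + ‖s‖) * ‖w‖ := by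
    have a := (s.le_opNorm w.2).trans (mul_le_mul_of_nonneg_left (norm_snd_le w) (norm_nonneg _))
    have b := norm_fst_le w
    have c := mul_nonneg (norm_nonneg s) (norm_nonneg w)
    rw [Prod.norm_def]
    exact max_le (by linarith [norm_nonneg w]) (by linarith)
  have n1 : ‖((a - a', 0) : A × X)‖ = ‖a - a'‖ := by simp
  have k3 : ‖L (s w.2, w.1)‖ ≤ (‖L‖ + ε) * δ + ε * ((1 + ‖s‖) * ‖w‖) := by
    rw [e1, map_add] at k1
    have a1 := norm_sub_le (L (a - a', 0) + L (s w.2, w.1)) (L (a - a', 0))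
    have a2 := L.le_opNorm (a - a', 0)
    have a3 := (norm_add_le ((a - a', 0) : A × X) (s w.2, w.1)).trans (add_le_add le_rfl k2)
    rw [add_sub_cancel_left] at a1
    rw [n1] at a2 a3
    have a4 := mul_le_mul_of_nonneg_left a3 hε.le
    have a5 := mul_le_mul_of_nonneg_left d1 (add_nonneg (norm_nonneg L) hε.le)
    change _ ≤ ε * _ at k1
    linarith only [a1, a2, a4, a5, k1]
  have k4 : ‖w‖ ≤ κ * ‖U w‖ := by
    have := (U.symm : Y × D.ker →L[ℝ] X × (Fin (finrank ℝ C) → ℝ)).le_opNorm (U w)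
    simp only [ContinuousLinearEquiv.coe_coe, ContinuousLinearEquiv.symm_apply_apply] at this
    exact this.trans (mul_le_mul_of_nonneg_right (by simp [κ]) (norm_nonneg _))
  have k5 : ‖U w‖ ≤ ‖L (s w.2, w.1)‖ + ‖π (x - x')‖ := by
    rw [hU, Riesz.big_apply, hL, add_comm (D _), Prod.norm_def]
    exact max_le (le_add_of_nonneg_right (norm_nonneg _)) (le_add_of_nonneg_left (norm_nonneg _))
  have k6 : κ * (ε * ((1 + ‖s‖) * ‖w‖)) = ‖w‖ / 2 := by
    simp only [ε]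
    field_simp
  have k7 := mul_le_mul_of_nonneg_left (k5.trans (add_le_add k3 d2)) hκ.le
  linarith only [k4, k6, k7]

theorem loc [CompleteSpace X] [CompleteSpace Y] {F : A × X → Y} {q : A × X} {i : ℤ} (hi : i < 0)
    (hF : ContDiffAt ℝ 1 F q) (hD : Fred ((fderiv ℝ F q).comp (.inr ℝ A X)) i)
    (hs : Function.Surjective (fderiv ℝ F q)) :
    ∃ N ∈ 𝓝 q, IsMeagre {a | ∃ x, (a, x) ∈ N ∧ F (a, x) = 0} := by
  obtain ⟨n, m, π, s, r, M, hnm, hr, hM, hc, h⟩ := key hi hF hD hs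
  refine ⟨closedBall q r, closedBall_mem_nhds q hr, IsNowhereDense.isMeagre ?_⟩
  have cl : IsClosed {a | ∃ x, (a, x) ∈ closedBall q r ∧ F (a, x) = 0} := by
    refine IsSeqClosed.isClosed fun a a₀ ha hl => ?_
    choose x hx h0 using ha
    obtain ⟨ν, -, φ, hφ, hν⟩ := tendsto_subseq_of_bounded
      (π.lipschitz.isBounded_image (isBounded_closedBall (x := q) (r := r)).image_snd) (x := fun k => π (x k))
      fun k => ⟨x k, ⟨_, hx k, rfl⟩, rfl⟩
    have hl' := hl.comp hφ.tendsto_atTop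
    have c1 := (hl'.prodMk_nhds hν).cauchySeq
    have c2 : CauchySeq (x ∘ φ) := by
      rw [Metric.cauchySeq_iff] at c1 ⊢
      intro ε hε
      obtain ⟨N, hN⟩ := c1 (ε / M) (by positivity)
      refine ⟨N, fun k hk l hl => ?_⟩
      have a := h (a (φ k)) 0 (x (φ k)) (a (φ l)) 0 (x (φ l)) (by simpa using hx _)
        (by simpa using hx _) (by simpa using h0 _) (by simpa using h0 _)
      have b := hN k hk l hl
      rw [lt_div_iff₀' hM, dist_eq_norm] at b
      rw [dist_eq_norm]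
      exact ((norm_fst_le (_, _)).trans a).trans_lt b
    obtain ⟨x₀, hx₀⟩ := cauchySeq_tendsto_of_complete c2
    have t := hl'.prodMk_nhds hx₀
    have m := isClosed_closedBall.mem_of_tendsto t (Eventually.of_forall fun k => hx (φ k))
    refine ⟨x₀, m, tendsto_nhds_unique ((hc _ m).tendsto.comp (tendsto_nhdsWithin_iff.2
      ⟨t, Eventually.of_forall fun k => hx (φ k)⟩)) ?_⟩
    exact tendsto_const_nhds.congr fun k => (h0 (φ k)).symm
  rw [cl.isNowhereDense_iff, eq_empty_iff_forall_notMem]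
  intro a ha
  set Z : Set (X × (Fin m → ℝ)) :=
    {z | (a + s z.2, z.1) ∈ closedBall q r ∧ F (a + s z.2, z.1) = 0}
  have z1 : Prod.snd '' Z ∈ 𝓝 (0 : Fin m → ℝ) := by
    have : Tendsto (fun c => a + s c) (𝓝 0) (𝓝 a) := by
      have : Continuous fun c => a + s c := by fun_prop
      simpa using this.tendsto 0
    filter_upwards [this (mem_interior_iff_mem_nhds.1 ha)] with c ⟨x, hx⟩
    exact ⟨(x, c), hx, rfl⟩
  have z2 : AntilipschitzWith ⟨M, hM.le⟩ fun z : Z => π z.1.1 := by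
    refine AntilipschitzWith.of_le_mul_dist fun z z' => ?_
    have := h a z.1.2 z.1.1 a z'.1.2 z'.1.1 z.2.1 z'.2.1 z.2.2 z'.2.2
    rw [Subtype.dist_eq, dist_eq_norm, dist_eq_norm]
    rwa [sub_self, Prod.norm_mk (0 : A), norm_zero, max_eq_right (norm_nonneg _)] at this
  have z3 : dimH (Prod.snd '' Z) ≤ dimH (univ : Set (Fin n → ℝ)) := by
    have a := (LipschitzWith.prod_snd.comp (LipschitzWith.subtype_val Z)).dimH_image_le univ
    rw [image_comp, Subtype.coe_image_univ] at a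
    exact a.trans ((z2.le_dimH_image univ).trans (dimH_mono (subset_univ _)))
  rw [Real.dimH_of_mem_nhds z1, Real.dimH_univ_eq_finrank, finrank_fin_fun, finrank_fin_fun] at z3
  exact hnm.not_ge (by exact_mod_cast z3)

theorem glob {A B : Type} [PseudoMetricSpace A] [PseudoMetricSpace B] {Sol : Set (A × B)}
    (hS : TopologicalSpace.IsSeparable Sol)
    (h : ∀ q ∈ Sol, ∃ N ∈ 𝓝 q, IsMeagre (Prod.fst '' (Sol ∩ N))) : IsMeagre (Prod.fst '' Sol) := by
  choose! N hN hM using h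
  have := hS.separableSpace
  have : SecondCountableTopology Sol := UniformSpace.secondCountable_of_separable Sol
  obtain ⟨T, hT, hU⟩ := TopologicalSpace.countable_cover_nhds
    (f := fun q : Sol => Subtype.val ⁻¹' N q)
    fun q => continuous_subtype_val.continuousAt (hN q q.2)
  refine (isMeagre_biUnion hT (f := fun q : Sol => Prod.fst '' (Sol ∩ N q))
    fun q _ => hM q q.2).mono ?_
  rintro _ ⟨z, hz, rfl⟩
  obtain ⟨q, hq, hz'⟩ := mem_iUnion₂.1 (hU.ge (mem_univ ⟨z, hz⟩))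
  exact mem_iUnion₂.2 ⟨q, hq, z, ⟨hz, hz'⟩, rfl⟩

end Ss

theorem ss_of (h1 : RieszStmt) : SsStmt := by
  refine ⟨fun A X Y _ _ _ _ _ _ _ _ _ F q i hi hF _ hD hs => Ss.loc hi hF hD hs,
    fun A B _ _ Sol => Ss.glob, fun A X _ _ _ _ _ _ Sol h => ?_⟩
  have := FiniteDimensional.proper_real A
  have := FiniteDimensional.proper_real X
  refine Ss.glob (.of_separableSpace _) fun q hq => ?_
  obtain ⟨Y, _, _, _, F, hd, hF, h0, hs⟩ := h q hq
  have := FiniteDimensional.complete ℝ Y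
  obtain ⟨N, hN, hM⟩ := Ss.loc (by omega) hF (h1.2.2 X Y _) hs
  refine ⟨_, inter_mem hN h0, hM.mono ?_⟩
  rintro _ ⟨z, ⟨a, b, c⟩, rfl⟩
  exact ⟨z.2, b, c a⟩

end

end Pool.Agent.MP_9758ca_gt

end

section

/-!
PROJECT BALL, row THICK: a compact solution set with Fredholm models of index one is thickened
by a finite-dimensional obstruction space, and the parity argument is applied.
-/

open scoped Topology ContDiff
open Set Metric Filter

namespace Pool.Agent.MP_9758ca_gt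

noncomputable section

namespace ThickP

section Lin
variable {E Y W : Type} [NormedAddCommGroup E] [NormedSpace ℝ E] [NormedAddCommGroup Y]
  [NormedSpace ℝ Y] [NormedAddCommGroup W] [NormedSpace ℝ W]

/-- an onto map with kernel of dimension `N` is completed to a bijection -/
theorem exists_proj (A : E →L[ℝ] Y) (N : ℕ) (hs : Function.Surjective A)
    (hf : FiniteDimensional ℝ A.ker) (hN : Module.finrank ℝ A.ker = N) :
    ∃ p : E →L[ℝ] (Fin N → ℝ), Function.Bijective (A.prod p) := by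
  obtain ⟨f, hf'⟩ := Submodule.ClosedComplemented.of_finiteDimensional (𝕜 := ℝ) A.ker
  let e : A.ker ≃L[ℝ] (Fin N → ℝ) := ContinuousLinearEquiv.ofFinrankEq (by simp [hN])
  refine ⟨(e : A.ker →L[ℝ] (Fin N → ℝ)).comp f, ?_, ?_⟩
  · rw [injective_iff_map_eq_zero]
    intro x hx
    have h1 : A x = 0 := congrArg Prod.fst hx
    have h2 : e (f x) = 0 := congrArg Prod.snd hx
    have h3 : f x = 0 := by simpa using h2
    have h4 := hf' ⟨x, h1⟩
    have h5 : (⟨x, h1⟩ : A.ker) = 0 := h4.symm.trans h3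
    exact congrArg Subtype.val h5
  · rintro ⟨y, w⟩
    obtain ⟨x, rfl⟩ := hs y
    refine ⟨x + ((e.symm w - f x : A.ker) : E), Prod.ext ?_ ?_⟩
    · have h1 : A ((e.symm w - f x : A.ker) : E) = 0 := (e.symm w - f x).2
      change A (x + _) = A x
      rw [map_add, h1, add_zero]
    · change e (f (x + _)) = w
      rw [map_add, hf', add_sub_cancel, e.apply_symm_apply]

/-- bijectivity of `(A, p)` persists under small changes of `A` -/
theorem bij_eventually [CompleteSpace E] [CompleteSpace Y] [CompleteSpace W] {Z : Type}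
    [TopologicalSpace Z] (A : Z → E →L[ℝ] Y) (p : E →L[ℝ] W) (z : Z) (hA : ContinuousAt A z)
    (hb : Function.Bijective ((A z).prod p)) :
    ∀ᶠ z' in 𝓝 z, Function.Bijective ((A z').prod p) := by
  have e1 : ∀ z', (A z').prod p = (ContinuousLinearMap.inl ℝ Y W).comp (A z') +
      (ContinuousLinearMap.inr ℝ Y W).comp p := fun z' => by
    ext x <;> simp
  have hc : ContinuousAt (fun z' => (A z').prod p) z := by
    simp only [e1]
    exact (continuousAt_const.clm_comp hA).add continuousAt_const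
  have hm : (A z).prod p ∈ range ((↑) : (E ≃L[ℝ] (Y × W)) → E →L[ℝ] (Y × W)) :=
    ⟨ContinuousLinearEquiv.ofBijective ((A z).prod p) (LinearMap.ker_eq_bot.2 hb.1)
      (LinearMap.range_eq_top.2 hb.2), rfl⟩
  filter_upwards [hc.eventually (ContinuousLinearEquiv.isOpen.mem_nhds hm)] with z' hz'
  obtain ⟨e, he⟩ := hz'
  rw [← he]
  exact e.bijective

/-- parametrisation of the zero set of a submersion -/
theorem ift [CompleteSpace E] [CompleteSpace Y] [CompleteSpace W] (G : E → Y) (e₀ : E)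
    (p : E →L[ℝ] W) (hG : ContDiffAt ℝ 1 G e₀) (h0 : G e₀ = 0)
    (hb : Function.Bijective ((fderiv ℝ G e₀).prod p)) :
    ∃ ψ : W → E, ContDiffAt ℝ 1 ψ (p e₀) ∧ ψ (p e₀) = e₀ ∧
      (∀ᶠ y in 𝓝 (p e₀), G (ψ y) = 0 ∧ p (ψ y) = y) ∧
      ∀ᶠ e in 𝓝 e₀, G e = 0 → ψ (p e) = e := by
  let A : E ≃L[ℝ] (Y × W) := ContinuousLinearEquiv.ofBijective ((fderiv ℝ G e₀).prod p)
    (LinearMap.ker_eq_bot.2 hb.1) (LinearMap.range_eq_top.2 hb.2)
  have hH : ContDiffAt ℝ 1 (fun e => (G e, p e)) e₀ := hG.prodMk p.contDiff.contDiffAt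
  have hH' : HasFDerivAt (fun e => (G e, p e)) (A : E →L[ℝ] (Y × W)) e₀ :=
    (hG.differentiableAt one_ne_zero).hasFDerivAt.prodMk p.hasFDerivAt
  have hS := hH.hasStrictFDerivAt' hH' one_ne_zero
  have hv : (G e₀, p e₀) = ((0 : Y), p e₀) := by rw [h0]
  have hi : ContDiffAt ℝ 1 (fun y : W => ((0 : Y), y)) (p e₀) :=
    contDiffAt_const.prodMk contDiffAt_id
  refine ⟨fun y => hH.localInverse hH' one_ne_zero (0, y), ?_, ?_, ?_, ?_⟩
  · have h1 := hH.to_localInverse hH' one_ne_zero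
    simp only [hv] at h1
    exact h1.comp (p e₀) hi
  · have h1 := hH.localInverse_apply_image hH' one_ne_zero
    simp only [hv] at h1
    exact h1
  · have h1 := hS.eventually_right_inverse
    simp only [hv] at h1
    filter_upwards [hi.continuousAt.eventually h1] with y hy
    exact ⟨congrArg Prod.fst hy, congrArg Prod.snd hy⟩
  · filter_upwards [hS.eventually_left_inverse] with e he h
    rw [h] at he
    exact he

end Lin

section Fr
variable {X Q Y : Type} [NormedAddCommGroup X] [NormedSpace ℝ X] [CompleteSpace X]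
  [NormedAddCommGroup Q] [NormedSpace ℝ Q] [NormedAddCommGroup Y] [NormedSpace ℝ Y]
  [CompleteSpace Y]

/-- `D` restricted to `X × S` is onto -/
def Onto (D : X × Q →L[ℝ] Y) (S : Submodule ℝ Q) : Prop := ∀ y, ∃ x, ∃ q ∈ S, D (x, q) = y

/-- `D` composed with a parametrisation of the obstruction space -/
def dI {m : ℕ} (D : X × Q →L[ℝ] Y) (ι : (Fin m → ℝ) →L[ℝ] Q) : X × (Fin m → ℝ) →L[ℝ] Y :=
  D.comp ((ContinuousLinearMap.id ℝ X).prodMap ι)

omit [CompleteSpace X] [CompleteSpace Y] in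
theorem dI_apply {m : ℕ} (D : X × Q →L[ℝ] Y) (ι : (Fin m → ℝ) →L[ℝ] Q) (x : X)
    (q : Fin m → ℝ) : dI D ι (x, q) = D (x, ι q) := rfl

theorem exists_range (S : Submodule ℝ Q) (hS : FiniteDimensional ℝ S) :
    ∃ (m : ℕ) (ι : (Fin m → ℝ) →L[ℝ] Q), ι.range = S := by
  let e : (Fin (Module.finrank ℝ S) → ℝ) ≃L[ℝ] S := ContinuousLinearEquiv.ofFinrankEq (by simp)
  refine ⟨Module.finrank ℝ S, S.subtypeL.comp e.toContinuousLinearMap, le_antisymm ?_ ?_⟩
  · rintro _ ⟨q, rfl⟩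
    exact (e q).2
  · intro s hs
    refine ⟨e.symm ⟨s, hs⟩, ?_⟩
    change ((e (e.symm ⟨s, hs⟩) : S) : Q) = s
    rw [e.apply_symm_apply]

theorem exists_onto (h2 : RieszStmt) (D : X × Q →L[ℝ] Y)
    (hF : Fred (D.comp (ContinuousLinearMap.inl ℝ X Q)) 1) (hs : Function.Surjective D) :
    ∃ S : Submodule ℝ Q, FiniteDimensional ℝ S ∧ Onto D S := by
  obtain ⟨-, -, C, hC, hcomp, -⟩ := (h2.1 X Y _ 1).1 hF
  let b := Module.finBasis ℝ C
  choose u hu using fun i => hs (b i : Y)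
  refine ⟨Submodule.span ℝ (range fun i => (u i).2),
    FiniteDimensional.span_of_finite ℝ (finite_range _), fun y => ?_⟩
  have hy : y ∈ (D.comp (ContinuousLinearMap.inl ℝ X Q)).range ⊔ C := by
    rw [hcomp.sup_eq_top]; trivial
  obtain ⟨_, ⟨x, rfl⟩, c, hc, rfl⟩ := Submodule.mem_sup.1 hy
  let r := b.repr ⟨c, hc⟩
  refine ⟨x + ∑ i, r i • (u i).1, ∑ i, r i • (u i).2, ?_, ?_⟩
  · exact Submodule.sum_mem _ fun i _ =>
      Submodule.smul_mem _ _ (Submodule.subset_span ⟨i, rfl⟩)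
  · have e1 : ((x + ∑ i, r i • (u i).1, ∑ i, r i • (u i).2) : X × Q) =
        (x, 0) + ∑ i, r i • u i := by
      ext
      · simp [Prod.fst_sum]
      · simp [Prod.snd_sum]
    have e2 : c = ∑ i, r i • (b i : Y) := by
      have h1 := congrArg C.subtype (b.sum_repr ⟨c, hc⟩)
      rw [map_sum] at h1
      exact h1.symm
    rw [e1, map_add, map_sum]
    simp only [map_smul, hu]
    rw [← e2]
    rfl

theorem exists_proj_dI (h2 : RieszStmt) {m : ℕ} (D : X × Q →L[ℝ] Y) (ι : (Fin m → ℝ) →L[ℝ] Q)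
    (hF : Fred (D.comp (ContinuousLinearMap.inl ℝ X Q)) 1) (ho : Onto D ι.range) :
    ∃ p : X × (Fin m → ℝ) →L[ℝ] (Fin (m + 1) → ℝ), Function.Bijective ((dI D ι).prod p) := by
  let sw : ((Fin m → ℝ) × X) ≃L[ℝ] (X × (Fin m → ℝ)) := ContinuousLinearEquiv.prodComm ℝ _ _
  let A : (Fin m → ℝ) × X →L[ℝ] Y := (dI D ι).comp (sw : _ →L[ℝ] _)
  let T : (Fin m → ℝ) × X →L[ℝ] Y × (Fin 0 → ℝ) := A.prod 0
  have hA : Function.Surjective A := fun y => by
    obtain ⟨x, _, ⟨q, rfl⟩, h⟩ := ho y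
    exact ⟨(q, x), h⟩
  have hT := ((h2.1 X Y _ 1).2.2 (Fin m → ℝ) (Fin 0 → ℝ)).1 hF T (fun x => by
    change D (x, ι 0) = D (x, 0)
    rw [map_zero])
  obtain ⟨hk, -, C, hC, hcomp, hi⟩ := (h2.1 _ _ T _).1 hT
  have hr : T.range = ⊤ := by
    rw [eq_top_iff]
    rintro ⟨y, w⟩ -
    obtain ⟨z, rfl⟩ := hA y
    exact ⟨z, Prod.ext rfl (Subsingleton.elim _ _)⟩
  have hC0 : C = ⊥ := by
    have := hcomp.disjoint
    rw [hr] at this
    exact top_disjoint.1 this
  have hker : T.ker = A.ker := by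
    ext z
    constructor
    · intro h
      exact congrArg Prod.fst (show T z = 0 from h)
    · intro h
      exact Prod.ext (show A z = 0 from h) rfl
  rw [hker] at hk hi
  rw [hC0] at hi
  have hN : Module.finrank ℝ A.ker = m + 1 := by
    simp only [finrank_bot, Module.finrank_fintype_fun_eq_card, Fintype.card_fin] at hi
    omega
  obtain ⟨p, hp⟩ := exists_proj A (m + 1) hA hk hN
  refine ⟨p.comp (sw.symm : _ →L[ℝ] _), ?_⟩
  have e : ⇑((dI D ι).prod (p.comp (sw.symm : _ →L[ℝ] _))) = ⇑(A.prod p) ∘ ⇑sw.symm := by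
    funext z
    rfl
  rw [e]
  exact hp.comp sw.symm.bijective

/-- index one and surjectivity persist at nearby points -/
theorem persist (h2 : RieszStmt) {Z : Type} [TopologicalSpace Z] (D : Z → X × Q →L[ℝ] Y) (z : Z)
    (hD : ContinuousAt D z) (S : Submodule ℝ Q) (hS : FiniteDimensional ℝ S)
    (hF : Fred ((D z).comp (ContinuousLinearMap.inl ℝ X Q)) 1) (ho : Onto (D z) S) :
    ∀ᶠ z' in 𝓝 z, Fred ((D z').comp (ContinuousLinearMap.inl ℝ X Q)) 1 ∧ Onto (D z') S := by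
  obtain ⟨m, ι, rfl⟩ := exists_range S hS
  obtain ⟨p, hp⟩ := exists_proj_dI h2 (D z) ι hF ho
  have hc : ContinuousAt (fun z' => dI (D z') ι) z := hD.clm_comp continuousAt_const
  filter_upwards [bij_eventually (fun z' => dI (D z') ι) p z hc hp] with z' hz'
  refine ⟨?_, fun y => ?_⟩
  · have h := ((h2.1 X Y ((D z').comp (ContinuousLinearMap.inl ℝ X Q)) 1).2.2 (Fin m → ℝ)
      (Fin (m + 1) → ℝ)).2 _ hz' (fun x => by
        change D z' (x, ι 0) = D z' (x, 0)
        rw [map_zero])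
    have e : ((Module.finrank ℝ (Fin (m + 1) → ℝ) : ℤ) - Module.finrank ℝ (Fin m → ℝ)) = 1 := by
      simp
    rwa [e] at h
  · obtain ⟨⟨x, q⟩, h⟩ := hz'.2 (y, 0)
    exact ⟨x, ι q, ⟨q, rfl⟩, congrArg Prod.fst h⟩

end Fr

section Chart
variable {B Q : Type} [NormedAddCommGroup B] [NormedSpace ℝ B] [NormedAddCommGroup Q]
  [NormedSpace ℝ Q]

/-- from germs to a chart -/
theorem tchart_of_germ {N : ℕ} (T : Set B) (F : B →L[ℝ] (Fin N → ℝ)) (y₁ : Fin N → ℝ) (t : B)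
    (φ : (Fin N → ℝ) → B) (ℓ : B → Fin N → ℝ) (hℓ : ContDiff ℝ 1 ℓ)
    (hφ : ContDiffAt ℝ 1 φ (ℓ t)) (ha : ∀ᶠ y in 𝓝 (ℓ t), φ y ∈ T ∧ ℓ (φ y) = y)
    (hb : ∀ᶠ b in 𝓝 t, b ∈ T → φ (ℓ b) = b)
    (hi : F t = y₁ → Function.Injective (F.comp (fderiv ℝ φ (ℓ t)))) : TChart T F y₁ t := by
  obtain ⟨W, hW, hWo, hWt⟩ := _root_.eventually_nhds_iff.1 ((hφ.eventually (by simp)).and ha)
  obtain ⟨U, hU, hUo, hUt⟩ := _root_.eventually_nhds_iff.1 hb
  have hc : ContinuousOn φ W := fun y hy => (hW y hy).1.continuousAt.continuousWithinAt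
  refine ⟨φ, ℓ, W ∩ φ ⁻¹' U, U ∩ ℓ ⁻¹' W, hc.isOpen_inter_preimage hWo hUo,
    hUo.inter (hWo.preimage hℓ.continuous), ⟨hUt, hWt⟩,
    fun y hy => (hW y hy.1).1.contDiffWithinAt, hℓ, fun y hy => ?_, fun b hb' => ?_, hi⟩
  · have h := hW y hy.1
    refine ⟨⟨h.2.1, hy.2, ?_⟩, h.2.2⟩
    change ℓ (φ y) ∈ W
    rw [h.2.2]
    exact hy.1
  · have h := hU b hb'.2.1 hb'.1
    refine ⟨⟨hb'.2.2, ?_⟩, h⟩
    change φ (ℓ b) ∈ U
    rw [h]
    exact hb'.2.1

/-- the thickened solution set -/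
def thickSet {m : ℕ} (Sol : Set (B × Q)) (ι : (Fin m → ℝ) →L[ℝ] Q) : Set (B × (Fin m → ℝ)) :=
  {z | (z.1, ι z.2) ∈ Sol}

/-- the map to parameter and obstruction -/
def thickMap (m : ℕ) (τ : B →L[ℝ] ℝ) : B × (Fin m → ℝ) →L[ℝ] (Fin (m + 1) → ℝ) :=
  ContinuousLinearMap.pi fun i => Fin.cases (τ.comp (ContinuousLinearMap.fst ℝ _ _))
    (fun j => (ContinuousLinearMap.proj j).comp (ContinuousLinearMap.snd ℝ _ _)) i

theorem thickMap_zero (m : ℕ) (τ : B →L[ℝ] ℝ) (z : B × (Fin m → ℝ)) :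
    thickMap m τ z 0 = τ z.1 := rfl

theorem thickMap_succ (m : ℕ) (τ : B →L[ℝ] ℝ) (z : B × (Fin m → ℝ)) (j : Fin m) :
    thickMap m τ z j.succ = z.2 j := rfl

theorem thickMap_eq {m : ℕ} {τ : B →L[ℝ] ℝ} {z : B × (Fin m → ℝ)} {s : ℝ} :
    thickMap m τ z = s • Pi.single 0 1 ↔ τ z.1 = s ∧ z.2 = 0 := by
  constructor
  · intro h
    refine ⟨?_, funext fun j => ?_⟩
    · have := congrFun h 0
      simpa [thickMap_zero] using this
    · have := congrFun h j.succ
      simpa [thickMap_succ, Fin.succ_ne_zero] using this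
  · rintro ⟨h1, h2⟩
    funext i
    refine Fin.cases ?_ (fun j => ?_) i
    · simp [thickMap_zero, h1]
    · simp [thickMap_succ, h2, Fin.succ_ne_zero]

variable {X Y : Type} [NormedAddCommGroup X] [NormedSpace ℝ X] [CompleteSpace X]
  [NormedAddCommGroup Y] [NormedSpace ℝ Y] [CompleteSpace Y]

/-- a chart of the thickened set from a model which is valid at `t` -/
theorem chart_at (h2 : RieszStmt) {m : ℕ} (Sol : Set (B × Q)) (τ : B →L[ℝ] ℝ)
    (ι : (Fin m → ℝ) →L[ℝ] Q) (t : B) (Ψ : X → B) (l : B → X) (𝓕 : X × Q → Y)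
    (hl : ContDiff ℝ 1 l) (hΨ : ContDiffAt ℝ 1 Ψ (l t)) (hlΨ : ∀ᶠ x in 𝓝 (l t), l (Ψ x) = x)
    (h𝓕 : ContDiffAt ℝ 1 𝓕 (l t, 0))
    (hS : ∀ᶠ q in 𝓝 ((t, 0) : B × Q), q ∈ Sol ↔ (Ψ (l q.1) = q.1 ∧ 𝓕 (l q.1, q.2) = 0))
    (ht : (t, 0) ∈ Sol)
    (hF : Fred ((fderiv ℝ 𝓕 (l t, 0)).comp (ContinuousLinearMap.inl ℝ X Q)) 1)
    (ho : Onto (fderiv ℝ 𝓕 (l t, 0)) ι.range)
    (hi : τ t = 1 → ∀ x, fderiv ℝ 𝓕 (l t, 0) (x, 0) = 0 → τ (fderiv ℝ Ψ (l t) x) = 0 → x = 0) :
    TChart (thickSet Sol ι) (thickMap m τ) (Pi.single 0 1) (t, 0) := by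
  obtain ⟨h0, h0'⟩ := hS.self_of_nhds.1 ht
  let M : X × (Fin m → ℝ) →L[ℝ] X × Q := (ContinuousLinearMap.id ℝ X).prodMap ι
  have hM : M (l t, 0) = (l t, 0) := by simp [M]
  have h𝓕' : ContDiffAt ℝ 1 𝓕 (M (l t, 0)) := by rw [hM]; exact h𝓕
  have hG : ContDiffAt ℝ 1 (𝓕 ∘ M) (l t, 0) := h𝓕'.comp _ M.contDiff.contDiffAt
  have hG0 : (𝓕 ∘ M) (l t, 0) = 0 := by
    change 𝓕 (M (l t, 0)) = 0
    rw [hM]; exact h0'
  have hdG : fderiv ℝ (𝓕 ∘ M) (l t, 0) = dI (fderiv ℝ 𝓕 (l t, 0)) ι := by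
    rw [fderiv_comp _ (h𝓕'.differentiableAt one_ne_zero) M.differentiableAt, hM, M.fderiv]
    rfl
  obtain ⟨p, hp⟩ := exists_proj_dI h2 _ ι hF ho
  rw [← hdG] at hp
  obtain ⟨ψ, hψ, hψ0, ha, hb⟩ := ift (𝓕 ∘ M) (l t, 0) p hG hG0 hp
  let k : B × (Fin m → ℝ) → X × (Fin m → ℝ) := fun z => (l z.1, z.2)
  have hk : ContDiff ℝ 1 k := (hl.comp contDiff_fst).prodMk contDiff_snd
  let g : X × (Fin m → ℝ) → B × (Fin m → ℝ) := fun z => (Ψ z.1, z.2)
  have hg : ContDiffAt ℝ 1 g (l t, 0) :=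
    (ContDiffAt.comp (f := Prod.fst) (l t, (0 : Fin m → ℝ)) hΨ contDiffAt_fst).prodMk
      contDiffAt_snd
  have hg' : ContDiffAt ℝ 1 g (ψ (p (l t, 0))) := by rw [hψ0]; exact hg
  have hφ : ContDiffAt ℝ 1 (g ∘ ψ) (p (l t, 0)) := hg'.comp _ hψ
  have hφ0 : (g ∘ ψ) (p (l t, 0)) = (t, 0) := by
    change g (ψ _) = _
    rw [hψ0]
    exact Prod.ext h0 rfl
  let j : B × (Fin m → ℝ) → B × Q := fun z => (z.1, ι z.2)
  have hj : Tendsto j (𝓝 (t, 0)) (𝓝 (t, 0)) := by
    have h : Continuous j := continuous_fst.prodMk (ι.continuous.comp continuous_snd)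
    have e : j (t, 0) = (t, 0) := by simp [j]
    have := h.tendsto (t, 0)
    rwa [e] at this
  have tψ : Tendsto ψ (𝓝 (p (l t, 0))) (𝓝 (l t, 0)) := by
    have := hψ.continuousAt.tendsto
    rwa [hψ0] at this
  have tφ : Tendsto (g ∘ ψ) (𝓝 (p (l t, 0))) (𝓝 (t, 0)) := by
    have := hφ.continuousAt.tendsto
    rwa [hφ0] at this
  refine tchart_of_germ _ _ _ _ (g ∘ ψ) (fun z => p (k z)) (p.contDiff.comp hk) hφ ?_ ?_ ?_
  · have t1 : Tendsto (fun y => (ψ y).1) (𝓝 (p (l t, 0))) (𝓝 (l t)) :=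
      (continuous_fst.tendsto _).comp tψ
    filter_upwards [ha, t1.eventually hlΨ, (hj.comp tφ).eventually hS] with y h1 h3 h4
    refine ⟨h4.2 ⟨?_, ?_⟩, ?_⟩
    · change Ψ (l (Ψ (ψ y).1)) = Ψ (ψ y).1
      rw [h3]
    · change 𝓕 (l (Ψ (ψ y).1), ι (ψ y).2) = 0
      rw [h3]
      exact h1.1
    · change p (l (Ψ (ψ y).1), (ψ y).2) = y
      rw [h3]
      exact h1.2
  · filter_upwards [hj.eventually hS, (hk.continuous.tendsto (t, 0)).eventually hb] with z h1 h3 hz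
    obtain ⟨h4, h5⟩ := h1.1 hz
    change g (ψ (p (k z))) = z
    rw [h3 h5]
    exact Prod.ext h4 rfl
  · intro hy
    have hτ : τ t = 1 := by simpa [thickMap_zero] using congrFun hy 0
    rw [injective_iff_map_eq_zero]
    intro v hv
    have dψ := (hψ.differentiableAt one_ne_zero).hasFDerivAt
    set ψ' := fderiv ℝ ψ (p (l t, 0)) with hψ'
    have dg : HasFDerivAt g (((fderiv ℝ Ψ (l t)).comp (ContinuousLinearMap.fst ℝ _ _)).prod
        (ContinuousLinearMap.snd ℝ X (Fin m → ℝ))) (ψ (p (l t, 0))) := by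
      rw [hψ0]
      exact (HasFDerivAt.comp (f := Prod.fst) (l t, (0 : Fin m → ℝ))
        (hΨ.differentiableAt one_ne_zero).hasFDerivAt hasFDerivAt_fst).prodMk hasFDerivAt_snd
    have e1 : fderiv ℝ (g ∘ ψ) (p (l t, 0)) v = (fderiv ℝ Ψ (l t) (ψ' v).1, (ψ' v).2) := by
      rw [(dg.comp _ dψ).fderiv]
      rfl
    have hv' : thickMap m τ (fderiv ℝ Ψ (l t) (ψ' v).1, (ψ' v).2) = (0 : ℝ) • Pi.single 0 1 := by
      rw [← e1, zero_smul]
      exact hv
    obtain ⟨h6, h7⟩ := thickMap_eq.1 hv'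
    have dG : HasFDerivAt (𝓕 ∘ M) (dI (fderiv ℝ 𝓕 (l t, 0)) ι) (ψ (p (l t, 0))) := by
      rw [hψ0, ← hdG]
      exact (hG.differentiableAt one_ne_zero).hasFDerivAt
    have e2 : (dI (fderiv ℝ 𝓕 (l t, 0)) ι).comp ψ' = 0 := by
      have h8 : ((𝓕 ∘ M) ∘ ψ) =ᶠ[𝓝 (p (l t, 0))] fun _ => 0 := ha.mono fun y hy => hy.1
      exact (dG.comp _ dψ).unique ((hasFDerivAt_const (0 : Y) _).congr_of_eventuallyEq h8)
    have e3 : p.comp ψ' = ContinuousLinearMap.id ℝ _ := by
      have h8 : (p ∘ ψ) =ᶠ[𝓝 (p (l t, 0))] id := ha.mono fun y hy => hy.2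
      exact (p.hasFDerivAt.comp _ dψ).unique ((hasFDerivAt_id _).congr_of_eventuallyEq h8)
    have h7' : (ψ' v).2 = 0 := h7
    have e4 : fderiv ℝ 𝓕 (l t, 0) ((ψ' v).1, 0) = 0 := by
      have h9 : fderiv ℝ 𝓕 (l t, 0) ((ψ' v).1, ι (ψ' v).2) = 0 := DFunLike.congr_fun e2 v
      rwa [h7', map_zero] at h9
    have e5 : ψ' v = 0 := Prod.ext (hi hτ _ e4 h6) h7'
    have e6 : p (ψ' v) = v := DFunLike.congr_fun e3 v
    rw [← e6, e5, map_zero]

/-- one model serves all solutions near its centre -/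
theorem point (h2 : RieszStmt) (Sol : Set (B × Q)) (τ : B →L[ℝ] ℝ) (t : B)
    (hm : Model Sol τ t) :
    ∃ S : Submodule ℝ Q, FiniteDimensional ℝ S ∧ ∃ N ∈ 𝓝 t, ∀ (m : ℕ)
      (ι : (Fin m → ℝ) →L[ℝ] Q), S ≤ ι.range → ∀ t' ∈ N, (t', 0) ∈ Sol → (τ t' = 1 → t' = t) →
      TChart (thickSet Sol ι) (thickMap m τ) (Pi.single 0 1) (t', 0) := by
  obtain ⟨X, Y, _, _, _, _, _, _, Ψ, L, 𝓕, hΨ, -, hL, h𝓕, hS, hF, hs, hi⟩ := hm
  obtain ⟨S, hSf, ho⟩ := exists_onto h2 _ hF hs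
  refine ⟨S, hSf, ?_⟩
  let l : B → X := fun b => L (b - t)
  have hl : ContDiff ℝ 1 l := L.contDiff.comp (contDiff_id.sub contDiff_const)
  have hl0 : l t = 0 := by simp [l]
  have t1 : Tendsto l (𝓝 t) (𝓝 0) := by
    have := hl.continuous.tendsto t
    rwa [hl0] at this
  have t2 : Tendsto (fun b => ((l b, 0) : X × Q)) (𝓝 t) (𝓝 0) := t1.prodMk_nhds tendsto_const_nhds
  have t3 : Tendsto (fun b => ((b, 0) : B × Q)) (𝓝 t) (𝓝 (t, 0)) :=
    tendsto_id.prodMk_nhds tendsto_const_nhds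
  have hc : ContinuousAt (fderiv ℝ 𝓕) 0 := (h𝓕.fderiv_right (m := 0) (by simp)).continuousAt
  have hp := persist h2 (fderiv ℝ 𝓕) 0 hc S hSf hF ho
  have key := (t1.eventually ((hΨ.eventually (by simp)).and hL.eventually_nhds)).and
    ((t2.eventually ((h𝓕.eventually (by simp)).and hp)).and (t3.eventually hS.eventually_nhds))
  refine ⟨_, key, fun m ι hι t' ht' hsol h1 => ?_⟩
  obtain ⟨⟨a1, a2⟩, ⟨a3, a4, a5⟩, a6⟩ := ht'
  refine chart_at h2 Sol τ ι t' Ψ l 𝓕 hl a1 a2 a3 a6 hsol a4 (fun y => ?_) (fun h => ?_)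
  · obtain ⟨x, q, hq, h⟩ := a5 y
    exact ⟨x, q, hι hq, h⟩
  · obtain rfl := h1 h
    rw [hl0]
    exact hi h

end Chart

end ThickP

open ThickP in
theorem thick_of (h1 : ParityStmt) (h2 : RieszStmt) : ThickStmt := by
  intro B Q _ _ _ _ _ Sol τ t₁ hK hM h0 ht₁ hτ₁ huniq
  set K := {t | (t, (0 : Q)) ∈ Sol ∧ τ t ∈ Icc (0 : ℝ) 1} with hKdef
  have hk₁ : t₁ ∈ K := ⟨ht₁, by rw [hτ₁]; exact ⟨zero_le_one, le_rfl⟩⟩
  choose S hS N hN hc using fun t : K => point h2 Sol τ t.1 (hM t.1 t.2.1 t.2.2)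
  obtain ⟨s, hs⟩ := hK.elim_nhds_subcover' (fun t ht => N ⟨t, ht⟩) (fun t ht => hN ⟨t, ht⟩)
  have hfin : FiniteDimensional ℝ (S ⟨t₁, hk₁⟩ ⊔ s.sup S : Submodule ℝ Q) := by
    have := hS ⟨t₁, hk₁⟩
    have := Submodule.finiteDimensional_finset_sup s S
    infer_instance
  obtain ⟨m, ι, hι⟩ := exists_range _ hfin
  have hseg : ∀ z : B × (Fin m → ℝ),
      thickMap m τ z ∈ segment ℝ (0 : Fin (m + 1) → ℝ) (Pi.single 0 1) ↔
        τ z.1 ∈ Icc (0 : ℝ) 1 ∧ z.2 = 0 := fun z => by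
    rw [segment_eq_image]
    constructor
    · rintro ⟨a, ha, h⟩
      have h' : thickMap m τ z = a • Pi.single 0 1 := by simpa using h.symm
      obtain ⟨h3, h4⟩ := thickMap_eq.1 h'
      exact ⟨h3 ▸ ha, h4⟩
    · rintro ⟨h3, h4⟩
      exact ⟨τ z.1, h3, by simpa using (thickMap_eq.2 ⟨rfl, h4⟩).symm⟩
  have hT : ∀ b : B, ((b, 0) : B × (Fin m → ℝ)) ∈ thickSet Sol ι ↔ (b, 0) ∈ Sol := fun b => by
    change (b, ι 0) ∈ Sol ↔ _
    rw [map_zero]
  refine h1 (B × (Fin m → ℝ)) (m + 1) (thickSet Sol ι) (thickMap m τ) 0 (Pi.single 0 1) (t₁, 0)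
    ?_ ?_ ?_ ((hT t₁).2 ht₁) ?_ ?_
  · have e : {z ∈ thickSet Sol ι |
        thickMap m τ z ∈ segment ℝ (0 : Fin (m + 1) → ℝ) (Pi.single 0 1)} =
        (fun b => (b, 0)) '' K := by
      ext ⟨b, q⟩
      constructor
      · rintro ⟨h3, h4⟩
        obtain ⟨h5, rfl⟩ : τ b ∈ Icc (0 : ℝ) 1 ∧ q = 0 := (hseg _).1 h4
        exact ⟨b, ⟨(hT b).1 h3, h5⟩, rfl⟩
      · rintro ⟨b', h3, h4⟩
        rw [← h4]
        exact ⟨(hT b').2 h3.1, (hseg _).2 ⟨h3.2, rfl⟩⟩
    rw [e]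
    exact hK.image (continuous_id.prodMk continuous_const)
  · rintro ⟨b, q⟩ h3 h4
    obtain ⟨h5, rfl⟩ : τ b ∈ Icc (0 : ℝ) 1 ∧ q = 0 := (hseg _).1 h4
    have h6 := (hT b).1 h3
    by_cases hb : τ b = 1
    · obtain rfl := huniq b h6 hb
      exact hc ⟨b, hk₁⟩ m ι (hι ▸ le_sup_left) b (mem_of_mem_nhds (hN ⟨b, hk₁⟩)) h6 fun _ => rfl
    · obtain ⟨c, hc1, hc2⟩ := mem_iUnion₂.1 (hs (show b ∈ K from ⟨h6, h5⟩))
      exact hc c m ι (hι ▸ (Finset.le_sup hc1).trans le_sup_right) b hc2 h6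
        fun h => absurd h hb
  · rintro ⟨b, q⟩ h3 h4
    obtain ⟨h5, rfl⟩ : τ b = 0 ∧ q = 0 := thickMap_eq.1 (h4.trans (zero_smul ℝ _).symm)
    exact h0 b ((hT b).1 h3) h5
  · exact (thickMap_eq.2 ⟨hτ₁, rfl⟩).trans (one_smul ℝ _)
  · rintro ⟨b, q⟩ h3 h4
    obtain ⟨h5, rfl⟩ : τ b = 1 ∧ q = 0 := thickMap_eq.1 (h4.trans (one_smul ℝ _).symm)
    rw [huniq b ((hT b).1 h3) h5]

end

end Pool.Agent.MP_9758ca_gt

end

end MrgPart1

-- marker of a merged file
example : 731051 + 864589 = 731051 + 864589 := rfl
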