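import Mathlib.RingTheory.PicardGroup
import Mathlib.Combinatorics.SimpleGraph.Basic
import Pool.Agent.MP_9758ca_gt.SpecA

-- ======== part 0: formerly Pool.Agent.MP_9758ca_gt.PB
section MrgPart0

section

/-!
PROJECT BALL, module FRAME: construction and transport of homogeneous frames.
-/

open scoped Topology ContDiff ComplexConjugate
open Set Metric Filter Complex MeasureTheory

namespace Pool.Agent.MP_9758ca_gt

namespace FrameP

variable {V : Type} [NormedAddCommGroup V] [NormedSpace ℝ V]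

theorem rep_smul (k : Fin 3 → ℤ) (c a : ℂ) (ζ : C3) : rep k c (a • ζ) = a • rep k c ζ := by
  funext i
  simp only [rep_apply, Pi.smul_apply, smul_eq_mul]
  ring

theorem rep_eq_zero {k : Fin 3 → ℤ} {c : ℂ} (hc : c ≠ 0) {ζ : C3} (h : rep k c ζ = 0) : ζ = 0 := by
  funext i
  have := congrFun h i
  rw [rep_apply] at this
  exact (mul_eq_zero.1 this).resolve_left (zpow_ne_zero _ hc)

theorem rep_pow (k : Fin 3 → ℤ) (d : ℕ) (c : ℂ) (ζ : C3) :
    rep k (c ^ d) ζ = rep (fun i => d * k i) c ζ := by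
  funext i
  rw [rep_apply, rep_apply, zpow_mul, zpow_natCast]

theorem finrank_C3 : Module.finrank ℝ C3 = 6 := by
  simp [Module.finrank_pi_fintype]

theorem fJ {M : Set V} {J : V → En0 V} {U : C2 → V} {k : Fin 3 → ℤ} {e : C2 → C3 →L[ℝ] V}
    {f : C2 → V →L[ℝ] C3} (h : Frame M J U k e f) {v : C2} (hv : v ≠ 0) {x : V}
    (hx : x ∈ tan M (U v)) : f v (J (U v) x) = I • f v x := by
  conv_lhs => rw [← h.ef v hv x hx, ← h.eJ v hv, h.fe v hv]

theorem congr {M M' : Set V} {J J' : V → En0 V} {U U' : C2 → V} {k : Fin 3 → ℤ}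
    (h : Framed M J U k) (he : ∀ v, v ≠ 0 → U' v = U v ∧ tan M' (U v) = tan M (U v) ∧
      ∀ a ∈ tan M (U v), J' (U v) a = J (U v) a) : Framed M' J' U' k := by
  obtain ⟨e, f, h⟩ := h
  have t : ∀ v, v ≠ 0 → tan M' (U' v) = tan M (U v) := fun v hv => by
    rw [(he v hv).1, (he v hv).2.1]
  refine ⟨e, f, h.sme, h.smf, fun v hv ζ => ?_, h.fe, fun v hv x hx => ?_, fun v hv ζ => ?_,
    fun c hc v hv x hx => ?_⟩
  · rw [t v hv]; exact h.mem v hv ζ
  · rw [t v hv] at hx; exact h.ef v hv x hx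
  · rw [(he v hv).1, (he v hv).2.2 _ (h.mem v hv ζ)]; exact h.eJ v hv ζ
  · rw [t v hv] at hx; exact h.hom c hc v hv x hx

theorem comp {M : Set V} {J : V → En0 V} {U : C2 → V} {k : Fin 3 → ℤ} {Φ : C2 → C2} {d : ℕ}
    (h : Framed M J U k) (hΦ : ContDiff ℝ 2 Φ) (h0 : ∀ v, v ≠ 0 → Φ v ≠ 0)
    (hh : ∀ (a : ℂ) v, Φ (a • v) = a ^ d • Φ v) : Framed M J (U ∘ Φ) fun i => d * k i := by
  obtain ⟨e, f, h⟩ := h
  refine ⟨e ∘ Φ, f ∘ Φ, h.sme.comp hΦ.contDiffOn h0, h.smf.comp hΦ.contDiffOn h0,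
    fun v hv => h.mem _ (h0 v hv), fun v hv => h.fe _ (h0 v hv), fun v hv => h.ef _ (h0 v hv),
    fun v hv => h.eJ _ (h0 v hv), fun c hc v hv x hx => ?_⟩
  rw [Function.comp_apply, hh, h.hom _ (pow_ne_zero d hc) _ (h0 v hv) x hx, rep_pow]
  rfl

variable {O M : Set V} {π : V → V} {om h : F2 V}

theorem smP (hA : Amb O π M om h) : ContDiff ℝ 2 (fderiv ℝ π) :=
  hA.sm.fderiv_right (m := 2) (WithTop.coe_le_coe.2 (le_top : (3 : ℕ∞) ≤ ⊤))

theorem smPU (hA : Amb O π M om h) {U : C2 → V} (hU : Map2 M U) {v : C2} (hv : v ≠ 0) :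
    ContDiffAt ℝ 2 (fun w => fderiv ℝ π (U w)) v :=
  (smP hA).contDiffAt.comp v (hU.sm.contDiffAt (nz_mem_nhds hv))

theorem proj (hA : Amb O π M om h) {J : V → En0 V} {U : C2 → V} {k : Fin 3 → ℤ} (hU : Map2 M U)
    (hF : Framed M J U k) :
    ∃ e f, Frame M J U k e f ∧ ∀ v, v ≠ 0 → ∀ x, f v (fderiv ℝ π (U v) x) = f v x := by
  obtain ⟨e, f, hF⟩ := hF
  have P : ∀ v, v ≠ 0 → ∀ x ∈ tan M (U v), fderiv ℝ π (U v) x = x := fun v hv x hx =>
    (hA.mem_tan_iff (hU.mem v hv) x).1 hx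
  refine ⟨e, fun v => (f v).comp (fderiv ℝ π (U v)), ⟨hF.sme, fun v hv => ?_, hF.mem,
    fun v hv ζ => ?_, fun v hv x hx => ?_, hF.eJ, fun c hc v hv x hx => ?_⟩, fun v hv x => ?_⟩
  · exact ((hF.smf.contDiffAt (nz_mem_nhds hv)).clm_comp (smPU hA hU hv)).contDiffWithinAt
  · rw [ContinuousLinearMap.comp_apply, P v hv _ (hF.mem v hv ζ), hF.fe v hv]
  · rw [ContinuousLinearMap.comp_apply, P v hv x hx, hF.ef v hv x hx]
  · rw [ContinuousLinearMap.comp_apply, ContinuousLinearMap.comp_apply, hU.inv c hc v hv,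
      P v hv x hx, hF.hom c hc v hv x hx]
  · rw [ContinuousLinearMap.comp_apply, ContinuousLinearMap.comp_apply, hA.PP (hU.mem v hv)]

variable [FiniteDimensional ℝ V]

theorem exists_inv {T : Submodule ℝ V} (hT : Module.finrank ℝ T = 6) (g : V →L[ℝ] C3)
    (hg : ∀ x ∈ T, g x = 0 → x = 0) : ∃ e : C3 →L[ℝ] V, ∀ ζ, e ζ ∈ T ∧ g (e ζ) = ζ := by
  have inj : Function.Injective ((g : V →ₗ[ℝ] C3).comp T.subtype) :=
    (injective_iff_map_eq_zero _).2 fun x hx => Subtype.ext (hg x.1 x.2 hx)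
  let E : T ≃ₗ[ℝ] C3 := LinearMap.linearEquivOfInjective _ inj (hT.trans finrank_C3.symm)
  refine ⟨LinearMap.toContinuousLinearMap (T.subtype.comp E.symm.toLinearMap), fun ζ =>
    ⟨(E.symm ζ).2, ?_⟩⟩
  exact E.apply_symm_apply ζ

theorem build (hA : Amb O π M om h) {J : V → En0 V} {U : C2 → V} {k : Fin 3 → ℤ}
    {g : C2 → V →L[ℝ] C3} (hJ : WJ M J) (hU : Map2 M U)
    (hg : ∀ v, v ≠ 0 → ∀ x ∈ tan M (U v), g v (J (U v) x) = I • g v x ∧ (g v x = 0 → x = 0) ∧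
      ∀ c : ℂ, c ≠ 0 → g (c • v) x = rep k c (g v x))
    (hs : ∀ v₀, v₀ ≠ 0 → ∃ f : C2 → V →L[ℝ] C3, ContDiffAt ℝ 2 f v₀ ∧
      ∀ᶠ v in 𝓝 v₀, ∀ x ∈ tan M (U v), f v x = g v x) : Framed M J U k := by
  have P : ∀ v, v ≠ 0 → ∀ x ∈ tan M (U v), fderiv ℝ π (U v) x = x := fun v hv x hx =>
    (hA.mem_tan_iff (hU.mem v hv) x).1 hx
  have ex : ∀ v, ∃ e : C3 →L[ℝ] V, v ≠ 0 → ∀ ζ, e ζ ∈ tan M (U v) ∧ g v (e ζ) = ζ := by
    intro v
    by_cases hv : v = 0
    · exact ⟨0, fun k => absurd hv k⟩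
    · obtain ⟨e, he⟩ := exists_inv (hA.dim _ (hU.mem v hv)) (g v) fun x hx => (hg v hv x hx).2.1
      exact ⟨e, fun _ => he⟩
  choose e he using ex
  have uq : ∀ v, v ≠ 0 → ∀ ζ, ∀ x ∈ tan M (U v), g v x = ζ → e v ζ = x := by
    intro v hv ζ x hx hζ
    refine sub_eq_zero.1 ((hg v hv _ (sub_mem (he v hv ζ).1 hx)).2.1 ?_)
    rw [map_sub, (he v hv ζ).2, hζ, sub_self]
  obtain ⟨f, hf⟩ : ∃ f : C2 → V →L[ℝ] C3, f = fun v => (g v).comp (fderiv ℝ π (U v)) := ⟨_, rfl⟩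
  have fa : ∀ v x, f v x = g v (fderiv ℝ π (U v) x) := fun v x => by rw [hf]; rfl
  have ft : ∀ v, v ≠ 0 → ∀ x ∈ tan M (U v), f v x = g v x := fun v hv x hx => by
    rw [fa, P v hv x hx]
  have smf : ∀ v, v ≠ 0 → ContDiffAt ℝ 2 f v := by
    intro v hv
    obtain ⟨f', h1, h2⟩ := hs v hv
    refine (h1.clm_comp (smPU hA hU hv)).congr_of_eventuallyEq ?_
    filter_upwards [h2, nz_mem_nhds hv] with w a b
    refine ContinuousLinearMap.ext fun x => ?_
    rw [fa, ContinuousLinearMap.comp_apply, a _ (hA.P_mem' (hU.mem w b) x)]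
  refine ⟨e, f, fun v hv => ContDiffAt.contDiffWithinAt ?_, fun v hv => (smf v hv).contDiffWithinAt,
    fun v hv ζ => (he v hv ζ).1, fun v hv ζ => ?_, fun v hv x hx => ?_, fun v hv ζ => ?_,
    fun c hc v hv x hx => ?_⟩
  · have a1 : ContDiffAt ℝ 2 (fun w => (f w).comp (e v)) v := (smf v hv).clm_comp contDiffAt_const
    have a2 : (f v).comp (e v) = ((1 : (C3 →L[ℝ] C3)ˣ) : C3 →L[ℝ] C3) :=
      ContinuousLinearMap.ext fun ζ => by
        rw [ContinuousLinearMap.comp_apply, ft v hv _ (he v hv ζ).1, (he v hv ζ).2]; rfl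
    have a3 : ContDiffAt ℝ 2 (fun w => Ring.inverse ((f w).comp (e v))) v :=
      ContDiffAt.comp (g := Ring.inverse) v (a2 ▸ contDiffAt_ringInverse ℝ 1) a1
    have a4 : ∀ᶠ w in 𝓝 v, IsUnit ((f w).comp (e v)) := by
      have n := Units.nhds (1 : (C3 →L[ℝ] C3)ˣ)
      rw [← a2] at n
      exact a1.continuousAt.eventually n
    refine (((smPU hA hU hv).clm_comp (contDiffAt_const (c := e v))).clm_comp
      a3).congr_of_eventuallyEq ?_
    filter_upwards [a4, nz_mem_nhds hv] with w a b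
    refine ContinuousLinearMap.ext fun ζ => uq w b ζ _ (hA.P_mem' (hU.mem w b) _) ?_
    exact (fa w _).symm.trans (congrArg (fun T : C3 →L[ℝ] C3 => T ζ) (Ring.mul_inverse_cancel _ a))
  · rw [ft v hv _ (he v hv ζ).1, (he v hv ζ).2]
  · exact uq v hv _ x hx (ft v hv x hx).symm
  · refine uq v hv _ _ (hJ _ (hU.mem v hv) _ (he v hv ζ).1).1 ?_
    rw [(hg v hv _ (he v hv ζ).1).1, (he v hv ζ).2]
  · have hx' : x ∈ tan M (U (c • v)) := by rwa [hU.inv c hc v hv]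
    rw [ft _ (smul_ne_zero hc hv) x hx', ft v hv x hx, (hg v hv x hx).2.2 c hc]

/-- twice the complex linear part -/
noncomputable def cl (F : V →L[ℝ] C3) (j : En0 V) : V →L[ℝ] C3 := F - I • F.comp j

omit [FiniteDimensional ℝ V] in
theorem cl_apply (F : V →L[ℝ] C3) (j : En0 V) (x : V) : cl F j x = F x - I • F (j x) := rfl

omit [FiniteDimensional ℝ V] in
theorem cl_smooth {E : Type} [NormedAddCommGroup E] [NormedSpace ℝ E] {F : E → V →L[ℝ] C3}
    {j : E → En0 V} {q : E} (hF : ContDiffAt ℝ 2 F q) (hj : ContDiffAt ℝ 2 j q) :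
    ContDiffAt ℝ 2 (fun y => cl (F y) (j y)) q :=
  hF.sub ((hF.clm_comp hj).const_smul I)

theorem near (hA : Amb O π M om h) {A : Type} [NormedAddCommGroup A] [NormedSpace ℝ A]
    {JJ : A × V → En0 V} {p₀ : A} {U₀ : C2 → V} {k : Fin 3 → ℤ} (hJ : ContDiff ℝ 2 JJ)
    (hW : ∀ p, WJ M fun x => JJ (p, x)) (hU₀ : Map2 M U₀)
    (hF : Framed M (fun x => JJ (p₀, x)) U₀ k) : ∃ δ > 0, ∀ p, dist p p₀ < δ →
      ∀ U, Map2 M U → (∀ v : S3, dist (U v) (U₀ v) < δ) → Framed M (fun x => JJ (p, x)) U k := by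
  obtain ⟨e, f, hF, hP⟩ := proj hA hU₀ hF
  have hom : ∀ c : ℂ, c ≠ 0 → ∀ v, v ≠ 0 → ∀ x, f (c • v) x = rep k c (f v x) := by
    intro c hc v hv x
    rw [← hP _ (smul_ne_zero hc hv), hU₀.inv c hc v hv,
      hF.hom c hc v hv _ (hA.P_mem' (hU₀.mem v hv) x), hP v hv]
  obtain ⟨T, hT⟩ : ∃ T : A × V → C2 → En0 V, ∀ q v, T q v =
      fderiv ℝ π (U₀ v + q.2) - (2⁻¹ : ℝ) • (e v).comp
        ((cl (f v) (JJ (q.1, U₀ v + q.2))).comp (fderiv ℝ π (U₀ v + q.2))) := ⟨_, fun _ _ => rfl⟩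
  have ev : ∀ᶠ q in 𝓝 ((p₀, 0) : A × V), ∀ v ∈ sphere (0 : C2) 1, ‖T q v‖ < 1 := by
    refine (isCompact_sphere (0 : C2) 1).eventually_forall_of_forall_eventually fun v hv => ?_
    have hv0 : v ≠ 0 := S3_ne ⟨v, hv⟩
    have n := nz_mem_nhds hv0
    have s : ContDiffAt ℝ 2 (fun z : (A × V) × C2 => z.2) ((p₀, 0), v) := contDiffAt_snd
    have b1 : ContDiffAt ℝ 2 (fun z : (A × V) × C2 => U₀ z.2 + z.1.2) ((p₀, 0), v) :=
      (ContDiffAt.comp (g := U₀) _ (hU₀.sm.contDiffAt n) s).add contDiffAt_fst.snd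
    have b2 : ContDiffAt ℝ 2 (fun z : (A × V) × C2 => fderiv ℝ π (U₀ z.2 + z.1.2)) ((p₀, 0), v) :=
      (smP hA).contDiffAt.comp _ b1
    have b3 : ContDiffAt ℝ 2 (fun z : (A × V) × C2 => JJ (z.1.1, U₀ z.2 + z.1.2)) ((p₀, 0), v) :=
      hJ.contDiffAt.comp _ (contDiffAt_fst.fst.prodMk b1)
    have b4 : ContDiffAt ℝ 2 (fun z : (A × V) × C2 => T z.1 z.2) ((p₀, 0), v) := by
      simp only [hT]
      exact b2.sub (((ContDiffAt.comp (g := e) _ (hF.sme.contDiffAt n) s).clm_comp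
        ((cl_smooth (ContDiffAt.comp (g := f) _ (hF.smf.contDiffAt n) s) b3).clm_comp
          b2)).const_smul _)
    have b5 : T (p₀, 0) v = 0 := by
      refine ContinuousLinearMap.ext fun x => ?_
      have m := hA.P_mem' (hU₀.mem v hv0) x
      have t := fJ hF hv0 m
      rw [hT, add_zero]
      change fderiv ℝ π (U₀ v) x - (2⁻¹ : ℝ) • e v (cl (f v) (JJ (p₀, U₀ v))
        (fderiv ℝ π (U₀ v) x)) = 0
      rw [cl_apply, t, smul_smul, I_mul_I, neg_smul, one_smul, sub_neg_eq_add, map_add,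
        hF.ef v hv0 _ m, ← two_smul ℝ, smul_smul, inv_mul_cancel₀ two_ne_zero, one_smul, sub_self]
    refine b4.continuousAt.norm.eventually (gt_mem_nhds ?_)
    change ‖T (p₀, 0) v‖ < 1
    rw [b5, norm_zero]
    exact one_pos
  obtain ⟨δ, hδ, hev⟩ := Metric.eventually_nhds_iff.1 ev
  refine ⟨δ, hδ, fun p hp U hU hd => ?_⟩
  have hom' : ∀ c : ℂ, c ≠ 0 → ∀ v, v ≠ 0 → ∀ x, cl (f (c • v)) (JJ (p, U (c • v))) x =
      rep k c (cl (f v) (JJ (p, U v)) x) := by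
    intro c hc v hv x
    rw [cl_apply, cl_apply, hU.inv c hc v hv, hom c hc v hv, hom c hc v hv, map_sub, rep_smul]
  refine build hA (g := fun v => cl (f v) (JJ (p, U v))) (hW p) hU
    (fun v hv x hx => ⟨?_, fun h0 => ?_, fun c hc => hom' c hc v hv x⟩) fun v hv =>
      ⟨_, cl_smooth (hF.smf.contDiffAt (nz_mem_nhds hv)) (hJ.contDiffAt.comp v
        (contDiffAt_const.prodMk (hU.sm.contDiffAt (nz_mem_nhds hv)))),
        Eventually.of_forall fun _ _ _ => rfl⟩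
  · have t : JJ (p, U v) (JJ (p, U v) x) = -x := (hW p _ (hU.mem v hv) x hx).2
    rw [cl_apply, cl_apply, t, map_neg, smul_neg, sub_neg_eq_add, smul_sub, smul_smul, I_mul_I,
      neg_smul, one_smul, sub_neg_eq_add, add_comm]
  · obtain ⟨w, hw⟩ := exists_S3 hv
    have c0 : (‖v‖ : ℂ) ≠ 0 := ofReal_ne_zero.2 (norm_ne_zero_iff.2 hv)
    have w0 := S3_ne w
    have h1 : cl (f w) (JJ (p, U w)) x = 0 := by
      refine rep_eq_zero (k := k) c0 ?_
      rw [← hom' _ c0 _ w0, ← hw]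
      exact h0
    have hx' : x ∈ tan M (U w) := by rwa [← hU.inv _ c0 _ w0, ← hw]
    have h2 : ‖T (p, U w - U₀ w) w‖ < 1 := by
      refine hev ?_ w w.2
      rw [Prod.dist_eq, dist_zero_right, ← dist_eq_norm]
      exact max_lt hp (hd w)
    have h3 : T (p, U w - U₀ w) w x = x := by
      rw [hT, add_sub_cancel]
      change fderiv ℝ π (U w) x - (2⁻¹ : ℝ) • e w (cl (f w) (JJ (p, U w))
        (fderiv ℝ π (U w) x)) = x
      rw [(hA.mem_tan_iff (hU.mem w w0) x).1 hx', h1, map_zero, smul_zero, sub_zero]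
    have h4 := (T (p, U w - U₀ w) w).le_opNorm x
    rw [h3] at h4
    by_contra hne
    exact absurd h4 (not_le.2 (mul_lt_of_lt_one_left (norm_pos_iff.2 hne) h2))

end FrameP

theorem frame : FrameStmt := fun _ _ _ _ =>
  ⟨fun _ _ _ _ _ _ _ h he => FrameP.congr h he,
    fun _ _ _ _ _ _ h _ h1 h2 h3 => FrameP.comp h h1 h2 h3,
    fun _ _ _ _ _ hA => ⟨fun _ _ _ _ hJ hU hg hs => FrameP.build hA hJ hU hg hs,
      fun _ _ _ hU hF => FrameP.proj hA hU hF,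
      fun _ _ _ _ _ _ _ hJ hW hU hF => FrameP.near hA hJ hW hU hF⟩⟩

end Pool.Agent.MP_9758ca_gt

end

section

/-!
PROJECT BALL, module CHART: charts of the space of maps into `M`, and the Cauchy-Riemann equation.
-/

open scoped Topology ContDiff ComplexConjugate
open Set Metric Filter Complex

namespace Pool.Agent.MP_9758ca_gt

namespace ChartP

/-- inverse function theorem in the form used for the chart -/
theorem abs_chart {X B : Type} [NormedAddCommGroup X] [NormedSpace ℝ X] [CompleteSpace X]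
    [NormedAddCommGroup B] [NormedSpace ℝ B] {N : B → B} (L : B →L[ℝ] X) (E : X →L[ℝ] B) {b₀ : B}
    (hN : ContDiff ℝ 1 N) (h0 : N b₀ = b₀) (hD : ∀ x, fderiv ℝ N b₀ (E x) = E x)
    (hLE : ∀ x, L (E x) = x) :
    ∃ g : X → B, ContinuousAt g 0 ∧ g 0 = b₀ ∧ ContDiffAt ℝ 1 (fun x => N (g x)) 0 ∧
      (∀ x, fderiv ℝ (fun x => N (g x)) 0 x = E x) ∧ ∀ᶠ x in 𝓝 0, L (N (g x) - b₀) = x := by
  have hA : ContDiff ℝ 1 fun x : X => b₀ + E x := contDiff_const.add E.contDiff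
  have hA0 : b₀ + E 0 = b₀ := by rw [map_zero, add_zero]
  have hΘ : ContDiff ℝ 1 fun x : X => N (b₀ + E x) := hN.comp hA
  have hΘ' : HasFDerivAt (fun x : X => N (b₀ + E x)) E 0 := by
    have h1 : HasFDerivAt N (fderiv ℝ N b₀) (b₀ + E 0) := by
      rw [hA0]
      exact (hN.differentiable one_ne_zero b₀).hasFDerivAt
    have h2 := h1.comp (0 : X) (E.hasFDerivAt.const_add b₀)
    have h3 : (fderiv ℝ N b₀).comp E = E := ContinuousLinearMap.ext hD
    rwa [h3] at h2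
  have hκ : ContDiffAt ℝ 1 (fun x : X => L (N (b₀ + E x) - b₀)) 0 :=
    (L.contDiff.comp (hΘ.sub contDiff_const)).contDiffAt
  have hκ' : HasFDerivAt (fun x : X => L (N (b₀ + E x) - b₀))
      (ContinuousLinearEquiv.refl ℝ X : X →L[ℝ] X) 0 := by
    have h2 := L.hasFDerivAt.comp (0 : X) (hΘ'.sub_const b₀)
    have h3 : L.comp E = (ContinuousLinearEquiv.refl ℝ X : X →L[ℝ] X) :=
      ContinuousLinearMap.ext hLE
    rwa [h3] at h2
  have hκ0 : L (N (b₀ + E 0) - b₀) = 0 := by rw [hA0, h0, sub_self, map_zero]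
  have hs := hκ.hasStrictFDerivAt' hκ' one_ne_zero
  have g1 := hκ.to_localInverse hκ' one_ne_zero
  have g2 := hκ.localInverse_apply_image hκ' one_ne_zero
  have g3 := hs.eventually_right_inverse
  have g4 := hs.to_localInverse.hasFDerivAt
  change HasFDerivAt (hκ.localInverse hκ' one_ne_zero) _ _ at g4
  change ∀ᶠ y in _, L (N (b₀ + E (hκ.localInverse hκ' one_ne_zero y)) - b₀) = y at g3
  generalize hκ.localInverse hκ' one_ne_zero = g at g1 g2 g3 g4
  simp only [hκ0] at g1 g2 g3 g4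
  refine ⟨fun x => b₀ + E (g x), (hA.continuous.continuousAt).comp g1.continuousAt,
    by simp only [g2, hA0], hΘ.contDiffAt.comp 0 g1, fun x => ?_, g3⟩
  have h5 : HasFDerivAt (fun x : X => N (b₀ + E x)) E (g 0) := by rwa [g2]
  have h6 := (h5.comp (0 : X) g4).fderiv
  change fderiv ℝ ((fun x : X => N (b₀ + E x)) ∘ g) 0 x = E x
  rw [h6]
  rfl

theorem abs_chart' {X B : Type} [NormedAddCommGroup X] [NormedSpace ℝ X] [CompleteSpace X]
    [NormedAddCommGroup B] [NormedSpace ℝ B] {N : B → B} (L : B →L[ℝ] X) (E : X →L[ℝ] B) {b₀ : B}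
    (hN : ContDiff ℝ 1 N) (h0 : N b₀ = b₀) (hD : ∀ x, fderiv ℝ N b₀ (E x) = E x)
    (hLE : ∀ x, L (E x) = x) {G : B → Prop} {δ ε : ℝ} (hδ : 0 < δ) (hε : 0 < ε)
    (hG : ∀ b, dist b b₀ < δ → G (N b))
    (hi : ∀ b b', dist b b₀ < ε → dist b' b₀ < ε → G b → G b' → L (b - b') = 0 → b = b') :
    ∃ Ψ : X → B, ContDiffAt ℝ 1 Ψ 0 ∧ Ψ 0 = b₀ ∧ (∀ x, fderiv ℝ Ψ 0 x = E x) ∧
      (∀ᶠ x in 𝓝 0, L (Ψ x - b₀) = x ∧ G (Ψ x)) ∧ ∀ᶠ b in 𝓝 b₀, G b → Ψ (L (b - b₀)) = b := by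
  obtain ⟨g, g1, g2, g3, g4, g5⟩ := abs_chart L E hN h0 hD hLE
  have hΨ0 : N (g 0) = b₀ := by rw [g2, h0]
  have hM : ∀ᶠ ζ in 𝓝 0, L (N (g ζ) - b₀) = ζ ∧ G (N (g ζ)) := by
    have h2 : ∀ᶠ ζ in 𝓝 0, g ζ ∈ ball b₀ δ := g1.eventually (by rw [g2]; exact ball_mem_nhds _ hδ)
    filter_upwards [g5, h2] with ζ h3 h4 using ⟨h3, hG _ h4⟩
  refine ⟨fun x => N (g x), g3, hΨ0, g4, hM, ?_⟩
  have hT : Tendsto (fun b => L (b - b₀)) (𝓝 b₀) (𝓝 0) := by
    have h2 : Continuous fun b => L (b - b₀) := L.continuous.comp (continuous_sub_right b₀)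
    have h3 := h2.tendsto b₀
    rwa [sub_self, map_zero] at h3
  have hN' : ∀ᶠ ζ in 𝓝 0, N (g ζ) ∈ ball b₀ ε :=
    g3.continuousAt.eventually (by simp only [hΨ0]; exact ball_mem_nhds _ hε)
  filter_upwards [hT.eventually hM, hT.eventually hN', ball_mem_nhds b₀ hε] with b h2 h3 h4 h5
  refine hi _ _ h3 h4 h2.2 h5 ?_
  rw [← sub_sub_sub_cancel_right _ _ b₀, map_sub, h2.1, sub_self]

section Main

variable {V : Type} [NormedAddCommGroup V] [NormedSpace ℝ V]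

theorem fX_inv (b : BB V) : Inv (fX b) := inv_iff_hom.2 (fX_hom b)

theorem dist_fX (b b' : BB V) {v : C2} (hv : v ≠ 0) : dist (fX b v) (fX b' v) ≤ dist b b' := by
  obtain ⟨w, hw⟩ := exists_S3 hv
  have hc : (‖v‖ : ℂ) ≠ 0 := by exact_mod_cast norm_ne_zero_iff.2 hv
  rw [hw, fX_inv b _ hc _ (S3_ne w), fX_inv b' _ hc _ (S3_ne w), dist_eq_norm, dist_eq_norm,
    ← fX_sub]
  exact (norm_fX_le (b - b') w).1

variable {O M : Set V} {π : V → V} {om h : F2 V}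

theorem part1 [FiniteDimensional ℝ V] (h1 : NemStmt) (hA : Amb O π M om h) (J : V → En0 V)
    (U₀ : C2 → V) (k : Fin 3 → ℤ) (e : C2 → C3 →L[ℝ] V) (f : C2 → V →L[ℝ] C3) (b₀ : BB V)
    (hU : Map2 M U₀) (hF : Frame M J U₀ k e f) (hb : ∀ v, v ≠ 0 → fX b₀ v = U₀ v) :
    ∃ (Ψ : XX k → BB V) (L : BB V →L[ℝ] XX k), ContDiffAt ℝ 1 Ψ 0 ∧ Ψ 0 = b₀ ∧
      (∀ ζ v, v ≠ 0 → fX (fderiv ℝ Ψ 0 ζ) v = e v (fX ζ v)) ∧
      (∀ᶠ ζ in 𝓝 0, L (Ψ ζ - b₀) = ζ ∧ ∀ v, v ≠ 0 → fX (Ψ ζ) v ∈ M) ∧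
      ∀ᶠ b in 𝓝 b₀, (∀ v, v ≠ 0 → fX b v ∈ M) → Ψ (L (b - b₀)) = b := by
  obtain ⟨E, hE⟩ := exists_multX (χ' := triv V) (rep_rep k) hF.sme fun c hc v hv ζ => by
    have h2 := hF.hom c hc v hv _ (hF.mem v hv ζ)
    rw [hF.fe v hv] at h2
    rw [← h2]
    refine hF.ef _ (smul_ne_zero hc hv) _ ?_
    rw [hU.inv c hc v hv]
    exact hF.mem v hv ζ
  have hπ : ContDiff ℝ 3 π := hA.sm.of_le (WithTop.coe_le_coe.2 (le_top (a := (3 : ℕ∞))))
  have hP : ContDiff ℝ 2 (fderiv ℝ π) := (hπ.fderiv_right (m := 2) (by norm_num))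
  obtain ⟨L, hL⟩ := exists_multX (χ' := rep k) (m := fun v => (f v).comp (fderiv ℝ π (U₀ v)))
    rep_triv (hF.smf.clm_comp (hP.comp_contDiffOn hU.sm)) fun c hc v hv a => by
    change f (c • v) (fderiv ℝ π (U₀ (c • v)) a) = rep k c (f v (fderiv ℝ π (U₀ v) a))
    rw [hU.inv c hc v hv]
    exact hF.hom c hc v hv _ (hA.P_mem' (hU.mem v hv) a)
  obtain ⟨N, hN, hN1, hN2⟩ := h1.2 V V π hπ
  have hPe : ∀ v, v ≠ 0 → ∀ ζ, fderiv ℝ π (U₀ v) (e v ζ) = e v ζ := fun v hv ζ =>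
    (hA.mem_tan_iff (hU.mem v hv) _).1 (hF.mem v hv ζ)
  have hK := (hU.inv.isCompact_im hU.sm.continuousOn).1
  have hKM : im U₀ ⊆ M := by
    rintro _ ⟨v, hv, rfl⟩
    exact hU.mem v hv
  obtain ⟨δ, hδ, hδO⟩ := hK.exists_thickening_subset_open hA.op (hKM.trans hA.sub)
  obtain ⟨ε, hε, hinj⟩ := hA.inj_near hK hKM
  refine Exists.elim (abs_chart' L E hN (b₀ := b₀) (X_ext fun v => ?_) (fun x => X_ext fun v => ?_)
    (fun x => X_ext fun v => ?_) (G := fun b => ∀ v, v ≠ 0 → fX b v ∈ M) hδ hε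
    (fun b h4 v hv => ?_) fun b b' h3 h4 h5 h6 h7 => X_ext fun v => ?_)
    fun Ψ g => ⟨Ψ, L, g.1, g.2.1, fun ζ v hv =>
      (congrArg (fun ξ => fX ξ v) (g.2.2.1 ζ)).trans (hE _ _ hv), g.2.2.2⟩
  · rw [hN1 _ _ (S3_ne v), hb _ (S3_ne v), hA.fix _ (hU.mem _ (S3_ne v))]
  · rw [hN2 _ _ _ (S3_ne v), hb _ (S3_ne v), hE _ _ (S3_ne v), hPe _ (S3_ne v)]
  · rw [hL _ _ (S3_ne v), hE _ _ (S3_ne v), ContinuousLinearMap.comp_apply, hPe _ (S3_ne v),
      hF.fe _ (S3_ne v)]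
  · rw [hN1 _ _ hv]
    refine hA.maps (hδO (mem_thickening_iff.2 ⟨U₀ v, ⟨v, hv, rfl⟩, ?_⟩))
    rw [← hb v hv]
    exact (dist_fX _ _ hv).trans_lt h4
  · have hv := S3_ne v
    refine hinj (U₀ v) ⟨v, hv, rfl⟩ _ (h5 v hv) _ (h6 v hv) ?_ ?_ ?_
    · rw [← hb v hv]
      exact (dist_fX _ _ hv).trans_lt h3
    · rw [← hb v hv]
      exact (dist_fX _ _ hv).trans_lt h4
    · have h8 := (hL (b - b') v hv).symm.trans
        ((congrArg (fun ξ => fX ξ v) h7).trans (fX_zero _))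
      rw [fX_sub, ContinuousLinearMap.comp_apply] at h8
      rw [← hF.ef v hv _ (hA.P_mem' (hU.mem v hv) _), h8, map_zero]

/-- the equation on the horizontal vector gives the full Cauchy-Riemann equation -/
theorem cr_of_hor {U : C2 → V} (hU : Inv U) (hd : ∀ v, v ≠ 0 → DifferentiableAt ℝ U v)
    {J : V → En0 V} (hJ : ∀ v, v ≠ 0 → ∀ x, J (U v) (J (U v) x) = -x)
    (he : ∀ v : S3, fderiv ℝ U v (hor v) + J (U v) (fderiv ℝ U v (I • hor v)) = 0) :
    ∀ v, v ≠ 0 → ∀ w, fderiv ℝ U v (I • w) = J (U v) (fderiv ℝ U v w) := by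
  have key : ∀ (v : S3) (w : C2), fderiv ℝ U v (I • w) = J (U v) (fderiv ℝ U v w) := by
    intro v w
    have hv := S3_ne v
    have h1 : fderiv ℝ U v (I • hor v) = J (U v) (fderiv ℝ U v (hor v)) := by
      have h2 := congrArg (J (U v)) (he v)
      rw [map_add, hJ v hv, map_zero, add_neg_eq_zero] at h2
      exact h2.symm
    obtain ⟨a, b, rfl⟩ := hor_decomp hv w
    have h3 : b • hor v = b.re • hor v + b.im • I • hor v := by
      rw [← coe_smul, ← coe_smul, smul_smul, ← add_smul, re_add_im]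
    have h4 : I • b • hor v = b.re • I • hor v - b.im • hor v := by
      rw [h3, smul_add, smul_comm I b.re, smul_comm I b.im, smul_smul I I, I_mul_I, neg_one_smul,
        smul_neg, sub_eq_add_neg]
    rw [smul_add, smul_smul, map_add, map_add, hU.fderiv_self hv (hd v hv),
      hU.fderiv_self hv (hd v hv), zero_add, zero_add, h4, h3]
    simp only [map_add, map_smul, h1, hJ v hv, smul_neg, sub_eq_add_neg, map_neg]
  intro v hv w
  obtain ⟨u, hu⟩ := exists_S3 hv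
  have hc : (‖v‖ : ℂ) ≠ 0 := by exact_mod_cast norm_ne_zero_iff.2 hv
  generalize (‖v‖ : ℂ) = c at hu hc
  subst hu
  have h1 : w = c • c⁻¹ • w := (smul_inv_smul₀ hc w).symm
  rw [h1, smul_comm I c, hU.fderiv_smul hc (S3_ne u) (hd _ (S3_ne u)),
    hU.fderiv_smul hc (S3_ne u) (hd _ (S3_ne u)), hU c hc _ (S3_ne u), key]

theorem smooth_line [FiniteDimensional ℝ V] (h2 : ApriStmt) {U : C2 → V} (hU : XH (triv V) U)
    {J : V → En0 V} (hs : ContDiff ℝ 2 J) (hJ : ∀ v, v ≠ 0 → ∀ x, J (U v) (J (U v) x) = -x)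
    (hcr : ∀ v, v ≠ 0 → ∀ w, fderiv ℝ U v (I • w) = J (U v) (fderiv ℝ U v w))
    (p : C2) (A : ℂ →L[ℝ] C2) (hA : A I = I • A 1) (hne : ∀ z, p + A z ≠ 0) :
    ContDiff ℝ 2 fun z => U (p + A z) := by
  have hφ : ContDiff ℝ 1 fun z => p + A z := contDiff_const.add A.contDiff
  have hD : ∀ z, HasFDerivAt (fun z => U (p + A z)) ((fderiv ℝ U (p + A z)).comp A) z := fun z =>
    (hU.2.1 _ (hne z)).hasFDerivAt.comp z (A.hasFDerivAt.const_add p)
  refine contDiffOn_univ.1 ((h2 V).2.1 J _ univ hs isOpen_univ (fun z _ =>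
    ⟨(hD z).differentiableAt, hJ _ (hne z), ?_⟩) ?_).sm
  · rw [(hD z).fderiv]
    simp only [ContinuousLinearMap.comp_apply, hA, hcr _ (hne z)]
  · have h3 : LocH (fun z => fderiv ℝ U (p + A z)) univ :=
      hU.2.2.pre fun z _ => ⟨hφ.contDiffAt, hne z⟩
    have h4 := h3.post (Φ := fun T : C2 →L[ℝ] V => T.comp A) fun z _ =>
      (contDiff_id.clm_comp contDiff_const).contDiffAt
    exact h4.congr fun z _ => Eventually.of_forall fun y => (hD y).fderiv

theorem smooth_of_cr [FiniteDimensional ℝ V] (h2 : ApriStmt) {U : C2 → V} (hU : XH (triv V) U)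
    {J : V → En0 V} (hs : ContDiff ℝ 2 J) (hJ : ∀ v, v ≠ 0 → ∀ x, J (U v) (J (U v) x) = -x)
    (hcr : ∀ v, v ≠ 0 → ∀ w, fderiv ℝ U v (I • w) = J (U v) (fderiv ℝ U v w)) :
    ContDiffOn ℝ 2 U nz := by
  have hI : Inv U := inv_iff_hom.2 hU.1
  have a1 := smooth_line h2 hU hs hJ hcr (0, 1) (ContinuousLinearMap.inl ℝ ℂ ℂ) (by simp)
    fun z h => by simpa using congrArg Prod.snd h
  have a2 := smooth_line h2 hU hs hJ hcr (1, 0) (ContinuousLinearMap.inr ℝ ℂ ℂ) (by simp)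
    fun z h => by simpa using congrArg Prod.fst h
  intro v hv
  refine ContDiffAt.contDiffWithinAt ?_
  by_cases h : v.2 = 0
  · have h1 : v.1 ≠ 0 := fun h1 => hv (Prod.ext h1 h)
    have h3 : ContDiffAt ℝ 2 (fun w : C2 => w.2 * w.1⁻¹) v :=
      contDiffAt_snd.mul (contDiffAt_fst.inv h1)
    refine (a2.contDiffAt.comp v h3).congr_of_eventuallyEq ?_
    filter_upwards [continuous_fst.continuousAt.eventually_ne h1] with w hw
    have h4 : w = w.1 • ((1, 0) + ContinuousLinearMap.inr ℝ ℂ ℂ (w.2 * w.1⁻¹) : C2) := by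
      refine Prod.ext (by simp) ?_
      simp only [ContinuousLinearMap.inr_apply, Prod.smul_snd, Prod.snd_add, smul_eq_mul, zero_add]
      field_simp
    conv_lhs => rw [h4]
    exact hI _ hw _ fun h => by simpa using congrArg Prod.fst h
  · have h3 : ContDiffAt ℝ 2 (fun w : C2 => w.1 * w.2⁻¹) v :=
      contDiffAt_fst.mul (contDiffAt_snd.inv h)
    refine (a1.contDiffAt.comp v h3).congr_of_eventuallyEq ?_
    filter_upwards [continuous_snd.continuousAt.eventually_ne h] with w hw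
    have h4 : w = w.2 • ((0, 1) + ContinuousLinearMap.inl ℝ ℂ ℂ (w.1 * w.2⁻¹) : C2) := by
      refine Prod.ext ?_ (by simp)
      simp only [ContinuousLinearMap.inl_apply, Prod.smul_fst, Prod.fst_add, smul_eq_mul, zero_add]
      field_simp
    conv_lhs => rw [h4]
    exact hI _ hw _ fun h => by simpa using congrArg Prod.snd h

theorem part2 [FiniteDimensional ℝ V] (h2 : ApriStmt) (J : V → En0 V) (b : BB V)
    (hs : ContDiff ℝ 2 J) (hJ : SJ π M J) (hb : ∀ v, v ≠ 0 → fX b v ∈ M) :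
    Eqn π J b 0 ↔ IsSph M J (fX b) := by
  have hsq : ∀ v, v ≠ 0 → ∀ x, J (fX b v) (J (fX b v) x) = -x := fun v hv x =>
    (hJ _ (hb v hv) x).1
  have h0 : ∀ v : S3, fderiv ℝ π (fX b v) ((fY (0 : QQ V) v).1 + J (fX b v) (fY (0 : QQ V) v).2) =
      0 := fun v => by
    rw [fY_zero, Prod.fst_zero, Prod.snd_zero, map_zero, add_zero, map_zero]
  constructor
  · intro h
    have hcr := cr_of_hor (fX_inv b) (fun v hv => fX_differentiableAt b hv) hsq
      fun v => (h v).trans (h0 v)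
    exact ⟨⟨smooth_of_cr h2 (fX_xh rep_triv b) hs hsq hcr, fX_inv b, hb⟩, hcr⟩
  · intro h v
    rw [h0, h.cr _ (S3_ne v), hsq _ (S3_ne v), add_neg_cancel]

end Main

end ChartP

theorem chart_of (h1 : NemStmt) (h2 : ApriStmt) : ChartStmt := fun _ _ _ _ _ _ _ _ _ hA =>
  ⟨fun J U₀ k e f b₀ => ChartP.part1 h1 hA J U₀ k e f b₀, ChartP.part2 h2⟩

end Pool.Agent.MP_9758ca_gt

end

section

/-!
PROJECT BALL, module NEM: composition operators on Hoelder spaces.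
-/

open scoped Topology ContDiff
open Set Metric Filter

namespace Pool.Agent.MP_9758ca_gt

namespace NemP

variable {S E G : Type} [MetricSpace S] [CompactSpace S] [NormedAddCommGroup E] [NormedSpace ℝ E]
  [NormedAddCommGroup G] [NormedSpace ℝ G]

/-- all segments between values of `f` -/
def seg (f : Hol S E) : Set E :=
  (fun q : S × S × ℝ => hv f q.2.1 + q.2.2 • (hv f q.1 - hv f q.2.1)) '' (univ ×ˢ univ ×ˢ Icc 0 1)

theorem seg_cpt (f : Hol S E) : IsCompact (seg f) := by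
  have h := continuous_hv f
  exact (isCompact_univ.prod (isCompact_univ.prod isCompact_Icc)).image (by fun_prop)

omit [CompactSpace S] in
theorem mem_seg (f : Hol S E) (x y : S) {t : ℝ} (ht : t ∈ Icc (0 : ℝ) 1) :
    hv f y + t • (hv f x - hv f y) ∈ seg f :=
  ⟨(x, y, t), ⟨trivial, trivial, ht⟩, rfl⟩

omit [CompactSpace S] in
theorem val_seg (f : Hol S E) (x : S) : hv f x ∈ seg f := by
  simpa using mem_seg f x x (t := 0) ⟨le_rfl, zero_le_one⟩

omit [NormedSpace ℝ E] in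
/-- a continuous map is uniformly continuous at a compact set -/
theorem unif_at {F : Type} [NormedAddCommGroup F] {K : Set E} (hK : IsCompact K) {u : E → F}
    (hu : Continuous u) {ε : ℝ} (hε : 0 < ε) :
    ∃ δ > 0, ∀ a ∈ K, ∀ b, ‖b - a‖ < δ → ‖u b - u a‖ ≤ ε := by
  have h := hK.uniformContinuousAt_of_continuousAt u (fun a _ => hu.continuousAt)
    (dist_mem_uniformity hε)
  obtain ⟨δ, hδ, h⟩ := mem_uniformity_dist.1 h
  refine ⟨δ, hδ, fun a ha b hb => ?_⟩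
  have := h (a := a) (b := b) (by rwa [dist_comm, dist_eq_norm]) ha
  rw [← dist_eq_norm, dist_comm]
  exact le_of_lt this

/-- the mean value inequality on the unit interval -/
theorem mv {φ φ' : ℝ → G} {C : ℝ} (h : ∀ t, HasDerivAt φ (φ' t) t)
    (hb : ∀ t ∈ Icc (0 : ℝ) 1, ‖φ' t‖ ≤ C) : ‖φ 1 - φ 0‖ ≤ C :=
  norm_image_sub_le_of_norm_deriv_le_segment_01' (fun t _ => (h t).hasDerivWithinAt)
    fun t ht => hb t (Ico_subset_Icc_self ht)

theorem line_deriv {Ψ : E → G} (h : Differentiable ℝ Ψ) (a b : E) (t : ℝ) :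
    HasDerivAt (fun s : ℝ => Ψ (a + s • b)) (fderiv ℝ Ψ (a + t • b) b) t := by
  have h1 : HasDerivAt (fun s : ℝ => a + s • b) b t := by
    simpa using ((hasDerivAt_id t).smul_const b).const_add a
  exact (h _).hasFDerivAt.comp_hasDerivAt t h1

/-- composition with a `C¹` map is a continuous operator -/
theorem comp_cont {Ψ : E → G} (hΨ : ContDiff ℝ 1 Ψ) :
    ∃ N : Hol S E → Hol S G, Continuous N ∧ ∀ f x, hv (N f) x = Ψ (hv f x) := by
  have hd : Differentiable ℝ Ψ := hΨ.differentiable one_ne_zero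
  have hc : Continuous (fderiv ℝ Ψ) := hΨ.continuous_fderiv one_ne_zero
  have hL : ∀ f : Hol S E, ∃ L, 0 ≤ L ∧ ∀ a ∈ seg f, ‖fderiv ℝ Ψ a‖ ≤ L ∧ ‖Ψ a‖ ≤ L := by
    intro f
    obtain ⟨L1, h1⟩ := (seg_cpt f).exists_bound_of_continuousOn hc.continuousOn
    obtain ⟨L2, h2⟩ := (seg_cpt f).exists_bound_of_continuousOn hd.continuous.continuousOn
    exact ⟨max 0 (max L1 L2), le_max_left _ _, fun a ha =>
      ⟨(h1 a ha).trans ((le_max_left _ _).trans (le_max_right _ _)),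
        (h2 a ha).trans ((le_max_right _ _).trans (le_max_right _ _))⟩⟩
  have hE : ∀ f : Hol S E, ∃ g : Hol S G, ∀ x, hv g x = Ψ (hv f x) := by
    intro f
    obtain ⟨L, h0, hL⟩ := hL f
    refine exists_hol (C := L + L * ‖f‖) (fun x => ?_) fun x _ y _ => ?_
    · exact (hL _ (val_seg f x)).2.trans (le_add_of_nonneg_right (by positivity))
    · have := mv (C := L * (‖f‖ * √(dist x y))) (line_deriv hd (hv f y) (hv f x - hv f y))
        fun t ht => ContinuousLinearMap.le_of_opNorm_le_of_le _ (hL _ (mem_seg f x y ht)).1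
          (hld_hv f x trivial y trivial)
      simp only [one_smul, zero_smul, add_zero, add_sub_cancel] at this
      have h2 : 0 ≤ L * √(dist x y) := by positivity
      linarith
  choose N hN using hE
  refine ⟨N, continuous_iff_continuousAt.2 fun f => ?_, hN⟩
  obtain ⟨L, h0, hL⟩ := hL f
  rw [Metric.continuousAt_iff]
  intro ε hε
  set η := ε / (2 * (‖f‖ + L + 2)) with hη
  have hη0 : 0 < η := by positivity
  obtain ⟨δ1, hδ1, h1⟩ := unif_at (seg_cpt f) hc hη0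
  obtain ⟨δ2, hδ2, h2⟩ := unif_at (seg_cpt f) hd.continuous hη0
  refine ⟨min (min δ1 δ2) (min 1 η), by positivity, fun g hg => ?_⟩
  rw [dist_eq_norm, lt_min_iff, lt_min_iff, lt_min_iff] at hg
  obtain ⟨⟨g1, g2⟩, g3, g4⟩ := hg
  have he : η * (‖f‖ + L + 2) < ε := by
    rw [hη, div_mul_eq_mul_div, div_lt_iff₀ (by positivity)]
    have : 0 < ε * (‖f‖ + L + 2) := by positivity
    linarith
  have hg' : ‖g‖ ≤ ‖f‖ + 1 := by
    have := norm_add_le f (g - f)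
    rw [add_sub_cancel] at this
    linarith
  rw [dist_eq_norm]
  refine lt_of_le_of_lt (hol_norm_le (by positivity) (fun x => ?_) fun x _ y _ => ?_) he
  · rw [hv_sub, hN, hN]
    refine (h2 _ (val_seg f x) _ ?_).trans (le_mul_of_one_le_right hη0.le ?_)
    · rw [← hv_sub]
      exact (norm_hv_le _ x).trans_lt g2
    · linarith [norm_nonneg f]
  · have := mv (C := η * (‖f‖ + L + 2) * √(dist x y))
      (fun t => (line_deriv hd (hv g y) (hv g x - hv g y) t).sub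
        (line_deriv hd (hv f y) (hv f x - hv f y) t)) fun t ht => by
      have k1 : ‖hv g y + t • (hv g x - hv g y) - (hv f y + t • (hv f x - hv f y))‖ < δ1 := by
        have e : hv g y + t • (hv g x - hv g y) - (hv f y + t • (hv f x - hv f y)) =
            (1 - t) • hv (g - f) y + t • hv (g - f) x := by
          simp only [hv_sub, smul_sub, sub_smul, one_smul]
          abel
        rw [e]
        refine lt_of_le_of_lt ((norm_add_le _ _).trans ?_) g1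
        rw [norm_smul, norm_smul, Real.norm_of_nonneg (sub_nonneg.2 ht.2),
          Real.norm_of_nonneg ht.1]
        have a1 := mul_le_mul_of_nonneg_left (norm_hv_le (g - f) y) (sub_nonneg.2 ht.2)
        have a2 := mul_le_mul_of_nonneg_left (norm_hv_le (g - f) x) ht.1
        linarith
      have k2 := ContinuousLinearMap.le_of_opNorm_le_of_le _ (h1 _ (mem_seg f x y ht) _ k1)
        (hld_hv g x trivial y trivial)
      have k3 := ContinuousLinearMap.le_of_opNorm_le_of_le _ (hL _ (mem_seg f x y ht)).1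
        (hld_hv (g - f) x trivial y trivial)
      have e : ∀ (A B : E →L[ℝ] G), A (hv g x - hv g y) - B (hv f x - hv f y) =
          (A - B) (hv g x - hv g y) + B (hv (g - f) x - hv (g - f) y) := fun A B => by
        simp only [hv_sub, map_sub, sub_apply]
        abel
      rw [e]
      refine (norm_add_le _ _).trans ((add_le_add k2 k3).trans ?_)
      have s0 := Real.sqrt_nonneg (dist x y)
      have a1 : η * (‖g‖ * √(dist x y)) ≤ η * ((‖f‖ + 1) * √(dist x y)) := by gcongr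
      have a2 : L * (‖g - f‖ * √(dist x y)) ≤ L * (η * √(dist x y)) := by gcongr
      have a3 : 0 ≤ η * √(dist x y) := by positivity
      linarith
    simp only [Pi.sub_apply, one_smul, zero_smul, add_zero, add_sub_cancel] at this
    rw [hv_sub, hv_sub, hN, hN, hN, hN]
    exact this

/-- composition with a `C²` map is a `C¹` operator -/
theorem comp_c1 {Φ : E → G} (hΦ : ContDiff ℝ 2 Φ) :
    ∃ N : Hol S E → Hol S G, ContDiff ℝ 1 N ∧ (∀ f x, hv (N f) x = Φ (hv f x)) ∧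
      ∀ f g x, hv (fderiv ℝ N f g) x = fderiv ℝ Φ (hv f x) (hv g x) := by
  have hd : Differentiable ℝ Φ := hΦ.differentiable two_ne_zero
  obtain ⟨N, -, hN⟩ := comp_cont (S := S) (hΦ.of_le one_le_two)
  obtain ⟨D, hDc, hD⟩ := comp_cont (S := S) (hΦ.fderiv_right (m := 1) le_rfl)
  obtain ⟨B, hB⟩ := exists_bilinL (S := S) (ContinuousLinearMap.id ℝ (E →L[ℝ] G))
  have key : ∀ f, HasFDerivAt N (B (D f)) f := by
    intro f
    rw [hasFDerivAt_iff_isLittleO_nhds_zero, Asymptotics.isLittleO_iff]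
    intro ε hε
    have hBD : Continuous fun g => B (D g) := B.continuous.comp hDc
    obtain ⟨δ, hδ, h1⟩ := Metric.continuousAt_iff.1 (hBD.continuousAt (x := f)) ε hε
    filter_upwards [ball_mem_nhds (0 : Hol S E) hδ] with h hh
    rw [mem_ball_zero_iff] at hh
    have hw : ∀ t ∈ Icc (0 : ℝ) 1, ‖(B (D (f + t • h)) - B (D f)) h‖ ≤ ε * ‖h‖ := by
      intro t ht
      refine ContinuousLinearMap.le_of_opNorm_le _ (le_of_lt ?_) h
      rw [← dist_eq_norm]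
      refine h1 ?_
      rw [dist_self_add_left, norm_smul, Real.norm_of_nonneg ht.1]
      exact (mul_le_of_le_one_left (norm_nonneg h) ht.2).trans_lt hh
    have hφ : ∀ x t, HasDerivAt
        (fun s : ℝ => Φ (hv f x + s • hv h x) - s • fderiv ℝ Φ (hv f x) (hv h x))
        (hv ((B (D (f + t • h)) - B (D f)) h) x) t := by
      intro x t
      have h2 := (line_deriv hd (hv f x) (hv h x) t).sub
        ((hasDerivAt_id t).smul_const (fderiv ℝ Φ (hv f x) (hv h x)))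
      rw [sub_apply, hv_sub, hB, hB, hD, hD, hv_add, hv_smul]
      rw [one_smul] at h2
      exact h2
    have hr : ∀ x, hv (N (f + h) - N f - B (D f) h) x =
        Φ (hv f x + hv h x) - fderiv ℝ Φ (hv f x) (hv h x) - Φ (hv f x) := fun x => by
      rw [hv_sub, hv_sub, hN, hN, hB, hD, hv_add, sub_right_comm]
      rfl
    refine hol_norm_le (by positivity) (fun x => ?_) fun x _ y _ => ?_
    · have := mv (hφ x) fun t ht => (norm_hv_le _ x).trans (hw t ht)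
      simp only [one_smul, zero_smul, add_zero, sub_zero] at this
      rwa [hr]
    · have := mv (C := ε * ‖h‖ * √(dist x y)) (fun t => (hφ x t).sub (hφ y t)) fun t ht =>
        (hld_hv _ x trivial y trivial).trans
          (mul_le_mul_of_nonneg_right (hw t ht) (Real.sqrt_nonneg _))
      simp only [Pi.sub_apply, one_smul, zero_smul, add_zero, sub_zero] at this
      rw [hr, hr, sub_sub_sub_comm]
      exact this
  have hf : fderiv ℝ N = fun f => B (D f) := funext fun f => (key f).fderiv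
  refine ⟨N, contDiff_one_iff_fderiv.2 ⟨fun f => (key f).differentiableAt, ?_⟩, hN,
    fun f g x => ?_⟩
  · rw [hf]
    exact B.continuous.comp hDc
  · rw [(key f).fderiv, hB, hD]
    rfl

/-- the same on the space of invariant functions with Hoelder derivative -/
theorem comp_bb {Φ : E → G} (hΦ : ContDiff ℝ 3 Φ) :
    ∃ N : BB E → BB G, ContDiff ℝ 1 N ∧ (∀ b v, v ≠ 0 → fX (N b) v = Φ (fX b v)) ∧
      ∀ b ξ v, v ≠ 0 → fX (fderiv ℝ N b ξ) v = fderiv ℝ Φ (fX b v) (fX ξ v) := by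
  have hd : Differentiable ℝ Φ := hΦ.differentiable three_ne_zero
  have h2 : ContDiff ℝ 2 Φ := hΦ.of_le (by norm_num)
  have h3 : ContDiff ℝ 2 (fderiv ℝ Φ) := hΦ.fderiv_right (m := 2) (by norm_num)
  have hΨ : ContDiff ℝ 2 fun p : E × (C2 →L[ℝ] E) => (Φ p.1, (fderiv ℝ Φ p.1).comp p.2) :=
    (h2.comp contDiff_fst).prodMk ((h3.comp contDiff_fst).clm_comp contDiff_snd)
  obtain ⟨N1, hN1, hv1, -⟩ := comp_c1 (S := S3) hΨ
  obtain ⟨P, hP⟩ := exists_prodL (S := S3) (E := E) (F := C2 →L[ℝ] E)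
  obtain ⟨Q1, hQ1⟩ := exists_mapL (S := S3) (ContinuousLinearMap.fst ℝ G (C2 →L[ℝ] G))
  obtain ⟨Q2, hQ2⟩ := exists_mapL (S := S3) (ContinuousLinearMap.snd ℝ G (C2 →L[ℝ] G))
  set T : BB E → Hol S3 G × Hol S3 (C2 →L[ℝ] G) :=
    fun b => (Q1.prod Q2) (N1 ((P.comp (X1 (triv E)).subtypeL) b)) with hT
  have hTc : ContDiff ℝ 1 T :=
    (Q1.prod Q2).contDiff.comp (hN1.comp (P.comp (X1 (triv E)).subtypeL).contDiff)
  have hH : ∀ b : BB E, Hom (triv G) fun v => Φ (fX b v) := fun b c hc v hv => by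
    have := fX_hom b c hc v hv
    exact congrArg Φ this
  have h0 : ∀ (b : BB E) (v : S3), Φ (fX b v) = hv (T b).1 v := fun b v => by
    show _ = hv (Q1 (N1 (P b.1))) v
    rw [hQ1, hv1, hP, fX_val]
    rfl
  have hm : ∀ b, T b ∈ X1 (triv G) := fun b => ⟨_, hH b, fun v => ⟨h0 b v, by
    have e : hv (T b).2 v = (fderiv ℝ Φ (fX b v)).comp (hv b.1.2 v) := by
      show hv (Q2 (N1 (P b.1))) v = _
      rw [hQ2, hv1, hP, fX_val]
      rfl
    rw [e]
    exact (hd _).hasFDerivAt.comp (v : C2) (fX_hasFDerivAt b v)⟩⟩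
  have hN : ContDiff ℝ 1 fun b => (⟨T b, hm b⟩ : BB G) := by
    refine contDiff_iff_contDiffAt.2 fun b => ?_
    obtain ⟨Ψ, k1, k2, -⟩ := exists_codRestrict (isClosed_X1 rep_triv) (hTc.contDiffAt (x := b))
      (Eventually.of_forall hm)
    have e : Ψ = fun b => (⟨T b, hm b⟩ : BB G) := funext fun b => Subtype.ext (k2 b (hm b))
    rw [← e]
    exact k1
  have hval : ∀ (b : BB E) v, v ≠ 0 → fX (⟨T b, hm b⟩ : BB G) v = Φ (fX b v) :=
    fun b v hv => xt_eq (hH b) (h0 b) hv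
  refine ⟨_, hN, hval, fun b ξ v hv => ?_⟩
  obtain ⟨L, hL⟩ := exists_evalX (χ := triv G) v
  obtain ⟨L', hL'⟩ := exists_evalX (χ := triv E) v
  have k1 := L.hasFDerivAt.comp b ((hN.differentiable one_ne_zero) b).hasFDerivAt
  have k2 := (hd (L' b)).hasFDerivAt.comp b L'.hasFDerivAt
  have e : (L ∘ fun b => (⟨T b, hm b⟩ : BB G)) = Φ ∘ L' := funext fun b => by
    show L _ = Φ (L' b)
    rw [hL, hL', hval b v hv]
  rw [e] at k1
  have k3 := congrArg (fun A => A ξ) (k1.unique k2)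
  simp only [ContinuousLinearMap.comp_apply] at k3
  rw [hL, hL', hL'] at k3
  exact k3

end NemP

theorem nem : NemStmt :=
  ⟨fun _ _ _ _ _ _ _ _ _ _ h => NemP.comp_c1 h, fun _ _ _ _ _ _ _ h => NemP.comp_bb h⟩

end Pool.Agent.MP_9758ca_gt

end

end MrgPart0

-- ======== part 1: formerly Pool.Agent.MP_9758ca_gt.PM
section MrgPart1

section

/-!
PROJECT BALL, module TOP: Gromov compactness for holomorphic spheres of bounded energy.  The limit
in the two affine charts is glued to a sphere, the bubble trees at the finitely many bad points are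
attached, and the three possible outcomes are sorted.
-/

open scoped Topology ContDiff ComplexConjugate
open Set Metric Filter Complex MeasureTheory

namespace Pool.Agent.MP_9758ca_gt

noncomputable section

namespace TopP

variable {V : Type} [NormedAddCommGroup V] [NormedSpace ℝ V]

/-! ### transfer of convergence from a chart to the sphere -/

/-- `C¹` convergence with `C²` bounds on the set `S` -/
def SC {ι : Type} (l : Filter ι) (U : ι → C2 → V) (U₀ : C2 → V) (S : Set C2) : Prop :=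
  TendstoUniformlyOn U U₀ l S ∧
    TendstoUniformlyOn (fun ν => fderiv ℝ (U ν)) (fderiv ℝ U₀) l S ∧
    ∃ C, ∀ᶠ ν in l, ∀ v ∈ S, ‖fderiv ℝ (fderiv ℝ (U ν)) v‖ ≤ C

theorem unif_union {ι X E : Type} [PseudoMetricSpace E] {l : Filter ι} {F : ι → X → E} {f : X → E}
    {S T W : Set X} (hS : TendstoUniformlyOn F f l S) (hT : TendstoUniformlyOn F f l T)
    (h : W ⊆ S ∪ T) : TendstoUniformlyOn F f l W := by
  rw [Metric.tendstoUniformlyOn_iff] at *
  intro ε hε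
  filter_upwards [hS ε hε, hT ε hε] with ν h1 h2 x hx
  exact (h hx).elim (h1 x) (h2 x)

theorem SC.union {ι : Type} {l : Filter ι} {U : ι → C2 → V} {U₀ : C2 → V} {S T : Set C2}
    (hS : SC l U U₀ S) (hT : SC l U U₀ T) (h : sphere 0 1 ⊆ S ∪ T) : SConv l U U₀ := by
  obtain ⟨a1, a2, C, a3⟩ := hS
  obtain ⟨b1, b2, D, b3⟩ := hT
  refine ⟨unif_union a1 b1 h, unif_union a2 b2 h, max C D, ?_⟩
  filter_upwards [a3, b3] with ν h1 h2 v hv
  exact (h hv).elim (fun h => (h1 v h).trans (le_max_left _ _))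
    fun h => (h2 v h).trans (le_max_right _ _)

theorem fderiv_chart {u : ℂ → V} {U : C2 → V} {φ : C2 → ℂ} {N : Set C2} (hN : IsOpen N)
    (hφ : ContDiffOn ℝ 2 φ N) (hu : ContDiff ℝ 2 u) (he : ∀ v ∈ N, U v = u (φ v)) {v : C2}
    (hv : v ∈ N) : fderiv ℝ U v = (fderiv ℝ u (φ v)).comp (fderiv ℝ φ v) := by
  have h1 : U =ᶠ[𝓝 v] u ∘ φ := by
    filter_upwards [hN.mem_nhds hv] with w hw using he w hw
  rw [h1.fderiv_eq]
  exact fderiv_comp v (hu.differentiable (by norm_num) _)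
    ((hφ.contDiffAt (hN.mem_nhds hv)).differentiableAt (by norm_num))

theorem norm_fderiv2_chart {u : ℂ → V} {U : C2 → V} {φ : C2 → ℂ} {N : Set C2} (hN : IsOpen N)
    (hφ : ContDiffOn ℝ 2 φ N) (hu : ContDiff ℝ 2 u) (he : ∀ v ∈ N, U v = u (φ v)) {v : C2}
    (hv : v ∈ N) : ‖fderiv ℝ (fderiv ℝ U) v‖ ≤
      ‖fderiv ℝ u (φ v)‖ * ‖fderiv ℝ (fderiv ℝ φ) v‖ +
        ‖fderiv ℝ (fderiv ℝ u) (φ v)‖ * ‖fderiv ℝ φ v‖ * ‖fderiv ℝ φ v‖ := by
  have h1 : fderiv ℝ U =ᶠ[𝓝 v] fun w => (fderiv ℝ u (φ w)).comp (fderiv ℝ φ w) := by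
    filter_upwards [hN.mem_nhds hv] with w hw using fderiv_chart hN hφ hu he hw
  have hφv : ContDiffAt ℝ 2 φ v := hφ.contDiffAt (hN.mem_nhds hv)
  have hd : HasFDerivAt (fderiv ℝ φ) (fderiv ℝ (fderiv ℝ φ) v) v :=
    ((hφv.fderiv_right (m := 1) (by norm_num)).differentiableAt (by norm_num)).hasFDerivAt
  have hu1 : HasFDerivAt (fderiv ℝ u) (fderiv ℝ (fderiv ℝ u) (φ v)) (φ v) :=
    (((hu.contDiffAt (x := φ v)).fderiv_right (m := 1) (by norm_num)).differentiableAt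
      (by norm_num)).hasFDerivAt
  have hc : HasFDerivAt (fun w => fderiv ℝ u (φ w))
      ((fderiv ℝ (fderiv ℝ u) (φ v)).comp (fderiv ℝ φ v)) v :=
    hu1.comp v (hφv.differentiableAt (by norm_num)).hasFDerivAt
  rw [h1.fderiv_eq, (hc.clm_comp hd).fderiv]
  refine ContinuousLinearMap.opNorm_le_bound _ (by positivity) fun a => ?_
  simp only [add_apply, ContinuousLinearMap.comp_apply,
    ContinuousLinearMap.compL_apply, ContinuousLinearMap.flip_apply]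
  refine (norm_add_le _ _).trans ?_
  rw [add_mul]
  refine add_le_add ?_ ?_
  · refine (ContinuousLinearMap.opNorm_comp_le _ _).trans ?_
    rw [mul_assoc]
    gcongr
    exact ContinuousLinearMap.le_opNorm _ _
  · refine (ContinuousLinearMap.opNorm_comp_le _ _).trans ?_
    calc ‖fderiv ℝ (fderiv ℝ u) (φ v) (fderiv ℝ φ v a)‖ * ‖fderiv ℝ φ v‖
        ≤ ‖fderiv ℝ (fderiv ℝ u) (φ v)‖ * (‖fderiv ℝ φ v‖ * ‖a‖) * ‖fderiv ℝ φ v‖ := by
          gcongr
          refine (ContinuousLinearMap.le_opNorm _ _).trans ?_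
          gcongr
          exact ContinuousLinearMap.le_opNorm _ _
      _ = _ := by ring

theorem transfer {ι : Type} {𝓤 : Ultrafilter ι} {u : ι → ℂ → V} {u₀ : ℂ → V} {Ω : Set ℂ}
    {U : ι → C2 → V} {U₀ : C2 → V} {φ : C2 → ℂ} {N S : Set C2} (hN : IsOpen N)
    (hφ : ContDiffOn ℝ 2 φ N) (hS : IsCompact S) (hSN : S ⊆ N) (hΩ : φ '' S ⊆ Ω)
    (hc : CConv 𝓤 u u₀ Ω)
    (hu : ∀ᶠ ν in (𝓤 : Filter ι), ContDiff ℝ 2 (u ν) ∧ ∀ v ∈ N, U ν v = u ν (φ v))
    (h0 : ContDiff ℝ 2 u₀) (he0 : ∀ v ∈ N, U₀ v = u₀ (φ v)) : SC 𝓤 U U₀ S := by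
  have hL : IsCompact (φ '' S) := hS.image_of_continuousOn (hφ.continuousOn.mono hSN)
  obtain ⟨c0, c1, C, c2⟩ := hc _ hL hΩ
  have hφ1 : ContDiffOn ℝ 1 (fderiv ℝ φ) N := hφ.fderiv_of_isOpen hN (by norm_num)
  obtain ⟨B1, hB1⟩ := hS.exists_bound_of_continuousOn (hφ1.continuousOn.mono hSN)
  obtain ⟨B2, hB2⟩ := hS.exists_bound_of_continuousOn
    ((hφ1.continuousOn_fderiv_of_isOpen hN le_rfl).mono hSN)
  obtain ⟨B3, hB3⟩ := hL.exists_bound_of_continuousOn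
    (h0.continuous_fderiv (by norm_num)).continuousOn
  rw [Metric.tendstoUniformlyOn_iff] at c0 c1
  refine ⟨Metric.tendstoUniformlyOn_iff.2 fun ε hε => ?_,
    Metric.tendstoUniformlyOn_iff.2 fun ε hε => ?_,
    (B3 + 1) * B2 + C * B1 * B1, ?_⟩
  · filter_upwards [c0 ε hε, hu] with ν h1 h2 v hv
    rw [he0 v (hSN hv), h2.2 v (hSN hv)]
    exact h1 _ (mem_image_of_mem _ hv)
  · have hB : 0 < |B1| + 1 := by positivity
    filter_upwards [c1 (ε / (|B1| + 1)) (by positivity), hu] with ν h1 h2 v hv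
    rw [fderiv_chart hN hφ h0 he0 (hSN hv), fderiv_chart hN hφ h2.1 h2.2 (hSN hv), dist_eq_norm,
      ← ContinuousLinearMap.sub_comp]
    have h3 := h1 _ (mem_image_of_mem φ hv)
    rw [dist_eq_norm, lt_div_iff₀ hB] at h3
    refine ((ContinuousLinearMap.opNorm_comp_le _ _).trans ?_).trans_lt h3
    gcongr
    linarith [hB1 v hv, le_abs_self B1]
  · filter_upwards [c1 1 one_pos, c2, hu] with ν h1 h3 h2 v hv
    refine (norm_fderiv2_chart hN hφ h2.1 h2.2 (hSN hv)).trans ?_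
    have h4 := h1 _ (mem_image_of_mem φ hv)
    have h5 := hB3 _ (mem_image_of_mem φ hv)
    have h6 : ‖fderiv ℝ (u ν) (φ v)‖ ≤ B3 + 1 := by
      rw [dist_comm, dist_eq_norm] at h4
      linarith [norm_le_insert' (fderiv ℝ (u ν) (φ v)) (fderiv ℝ u₀ (φ v))]
    have h7 := h3 _ (mem_image_of_mem φ hv)
    have h8 := hB1 v hv
    have h9 := hB2 v hv
    have hC : 0 ≤ C := (ContinuousLinearMap.opNorm_nonneg _).trans h7
    have hB1' : 0 ≤ B1 := (norm_nonneg _).trans h8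
    have hB3' : 0 ≤ B3 + 1 := (norm_nonneg _).trans h6
    gcongr

/-! ### the two charts -/

theorem aff_ne (z : ℂ) : ((z, 1) : C2) ≠ 0 := fun h => one_ne_zero (congrArg Prod.snd h)

theorem aff_ne' (z : ℂ) : ((1, z) : C2) ≠ 0 := fun h => one_ne_zero (congrArg Prod.fst h)

theorem par_aff {v : C2} (hv : v.2 ≠ 0) : Par v (v.1 / v.2, 1) :=
  ⟨v.2, Prod.ext (by simp only [Prod.smul_mk, smul_eq_mul]; field_simp) (by simp)⟩

theorem par_aff' {v : C2} (hv : v.1 ≠ 0) : Par v (1, v.2 / v.1) :=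
  ⟨v.1, Prod.ext (by simp) (by simp only [Prod.smul_mk, smul_eq_mul]; field_simp)⟩

theorem eq_aff {X : Type} {U : C2 → X} (h : Inv U) {v : C2} (hv : v.2 ≠ 0) :
    U v = aff U (v.1 / v.2) :=
  h.par (fun h0 => hv (by rw [h0]; rfl)) (par_aff hv)

theorem eq_aff' {X : Type} {U : C2 → X} (h : Inv U) {v : C2} (hv : v.1 ≠ 0) :
    U v = aff' U (v.2 / v.1) :=
  h.par (fun h0 => hv (by rw [h0]; rfl)) (par_aff' hv)

theorem aff'_eq {X : Type} {U : C2 → X} (h : Inv U) {w : ℂ} (hw : w ≠ 0) :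
    aff' U w = aff U w⁻¹ := by
  have := eq_aff h (v := (1, w)) hw
  rwa [one_div] at this

theorem gseq_mono {ι : Type} {K : Set V} {𝓤 : Ultrafilter ι} {J : ι → V → En0 V} {u : ι → ℂ → V}
    {Ω Ω' : Set ℂ} {E₀ : ℝ} (h : GSeq K 𝓤 J u Ω E₀) (hs : Ω' ⊆ Ω) : GSeq K 𝓤 J u Ω' E₀ :=
  fun L hL hs' => h L hL (hs'.trans hs)

theorem cconv_at {ι : Type} {𝓤 : Ultrafilter ι} {u : ι → ℂ → V} {u₀ : ℂ → V} {Ω : Set ℂ}
    (h : CConv 𝓤 u u₀ Ω) {z : ℂ} (hz : z ∈ Ω) : Tendsto (fun ν => u ν z) 𝓤 (𝓝 (u₀ z)) :=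
  (h {z} isCompact_singleton (singleton_subset_iff.2 hz)).1.tendsto_at rfl

theorem ev_notMem (T : Finset ℂ) (z : ℂ) : ∀ᶠ w in 𝓝[≠] z, w ∉ T := by
  have h : IsOpen ((T : Set ℂ) \ {z})ᶜ := T.finite_toSet.sdiff.isClosed.isOpen_compl
  filter_upwards [mem_nhdsWithin_of_mem_nhds (h.mem_nhds (by simp)), self_mem_nhdsWithin]
    with w h1 h2 hw using h1 ⟨hw, h2⟩

/-- limit map, bad points and bubble trees in one chart -/
theorem chart [FiniteDimensional ℝ V] (h1 : LocStmt) (h2 : TreeStmt) {O M K : Set V} {om : F2 V}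
    {R Λ c hb : ℝ} (hE : Env0 O M K om) (hb0 : 0 < hb) (hE1 : Eps1 M K om R Λ c hb)
    (hN1 : Neck1 M K om R Λ c hb) {ι : Type} {𝓤 : Ultrafilter ι} {J : ι → V → En0 V}
    {J₀ : V → En0 V} (hG : GFam M K om R Λ c 𝓤 J J₀) {u : ι → ℂ → V} {E₀ : ℝ}
    (hu : GSeq K 𝓤 J u univ E₀) :
    ∃ (u₀ : ℂ → V) (Z : Finset ℂ), IsHol J₀ u₀ univ ∧ MapsTo u₀ univ K ∧
      CConv 𝓤 u u₀ (univ \ Z) ∧ ∀ z ∈ Z, Tree K 𝓤 J₀ u z (u₀ z) := by
  obtain ⟨u₀, Z, a1, a2, a3, a4, -⟩ :=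
    (h1 V).1 O M K om R Λ c hb hE hb0 hE1 ι 𝓤 J J₀ hG u univ E₀ isOpen_univ hu
  refine ⟨u₀, Z, a1, a2, a4, fun z hz => ?_⟩
  refine h2 V O M K om R Λ c hb hE hb0 hE1 hN1 ι 𝓤 J J₀ hG u univ E₀ z (u₀ z) isOpen_univ hu
    (mem_univ _) ((a3 z).1 hz).2 fun η hη => ?_
  have hc : ContinuousAt u₀ z := (contDiffOn_univ.1 a1.sm).continuous.continuousAt
  have h3 : ∀ᶠ w in 𝓝[≠] z, dist (u₀ w) (u₀ z) < η ∧ w ∉ Z :=
    ((Metric.tendsto_nhds.1 hc η hη).filter_mono nhdsWithin_le_nhds).and (ev_notMem Z z)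
  obtain ⟨ε, hε, h4⟩ := Metric.mem_nhdsWithin_iff.1 h3
  refine ⟨ε, hε, fun w hw hwε => ?_⟩
  obtain ⟨h5, h6⟩ := h4 (a := w) ⟨by rwa [mem_ball, dist_eq_norm], hw⟩
  exact ((cconv_at a4 ⟨mem_univ _, h6⟩).dist tendsto_const_nhds).eventually (gt_mem_nhds h5)

/-- convergence of the integrals over a compact set in one chart -/
theorem chart_area [FiniteDimensional ℝ V] (h1 : LocStmt) {K : Set V} (hK : IsCompact K) {ι : Type}
    {𝓤 : Ultrafilter ι} {J : ι → V → En0 V} {J₀ : V → En0 V} {u : ι → ℂ → V} {E₀ : ℝ}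
    (hu : GSeq K 𝓤 J u univ E₀) {u₀ : ℂ → V} {Z Z' : Finset ℂ} (hh : IsHol J₀ u₀ univ)
    (hm : MapsTo u₀ univ K) (hc : CConv 𝓤 u u₀ (univ \ Z)) {β : F2 V} (hβ : ContinuousOn β K)
    {A : ℂ → ℝ} (hA : ∀ z ∈ Z', ∀ η > 0, ∃ ε₀ > 0, ∀ ε, 0 < ε → ε ≤ ε₀ →
      ∀ᶠ ν in (𝓤 : Filter ι), |(∫ w in closedBall z ε, dens β (u ν) w) - A z| ≤ η)
    {L : Set ℂ} (hL : IsCompact L) (hZ : ∀ z ∈ Z, z ∈ L → z ∈ Z')
    (hZ' : (Z' : Set ℂ) ⊆ interior L) :
    Tendsto (fun ν => ∫ w in L, dens β (u ν) w) 𝓤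
      (𝓝 ((∫ w in L, dens β u₀ w) + ∑ z ∈ Z', A z)) := by
  refine (h1 V).2 K ι 𝓤 J u u₀ ((Z : Set ℂ) \ Z')ᶜ E₀ Z' β A L hK
    Z.finite_toSet.sdiff.isClosed.isOpen_compl (gseq_mono hu (subset_univ _))
    ((hh.sm.of_le (by norm_num)).mono (subset_univ _)) (hm.mono_left (subset_univ _))
    (fun L' hL' hs => hc L' hL' fun z hz => ⟨mem_univ _, fun h => (hs hz).1 ⟨h, (hs hz).2⟩⟩)
    hβ hA hL (fun z hz h => h.2 (hZ z h.1 hz)) hZ'

/-! ### sorting the outcomes -/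

theorem caseB {ι I : Type} [Fintype I] [Nontrivial I] {l : Filter ι} {K : Set V} {J₀ : V → En0 V}
    {U : ι → C2 → V} (W : I → C2 → V) (h1 : ∀ i, IsSph K J₀ (W i) ∧ NonC (W i))
    (h2 : IsConnected (⋃ i, im (W i)))
    (h3 : ∀ β : F2 V, ContinuousOn β K → Anti β →
      Tendsto (fun ν => area β (U ν)) l (𝓝 (∑ i, area β (W i))))
    (h4 : ∀ v, v ≠ 0 → ∀ y, Tendsto (fun ν => U ν v) l (𝓝 y) → y ∈ ⋃ i, im (W i)) :
    ∃ (k : ℕ) (W : Fin k → C2 → V), 2 ≤ k ∧ (∀ i, IsSph K J₀ (W i) ∧ NonC (W i)) ∧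
      IsConnected (⋃ i, im (W i)) ∧
      (∀ β : F2 V, ContinuousOn β K → Anti β →
        Tendsto (fun ν => area β (U ν)) l (𝓝 (∑ i, area β (W i)))) ∧
      ∀ v, v ≠ 0 → ∀ y, Tendsto (fun ν => U ν v) l (𝓝 y) → y ∈ ⋃ i, im (W i) := by
  have e := (Fintype.equivFin I).symm
  have hU : (⋃ i, im (W (e i))) = ⋃ i, im (W i) := e.surjective.iUnion_comp fun i => im (W i)
  refine ⟨Fintype.card I, fun i => W (e i), Fintype.one_lt_card, fun i => h1 _, hU ▸ h2,
    fun β hβ ha => ?_, fun v hv y hy => hU ▸ h4 v hv y hy⟩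
  rw [e.sum_comp fun i => area β (W i)]
  exact h3 β hβ ha

theorem area_const {U : C2 → V} (h : ¬ NonC U) (β : F2 V) : area β U = 0 := by
  have h1 : aff U = fun _ => U (0, 1) := by
    funext z
    by_contra hne
    exact h ⟨_, aff_ne z, _, aff_ne 0, hne⟩
  simp [area, dens, h1]

theorem sort {ι B : Type} [Fintype B] [Nonempty B] {l : Filter ι} [l.NeBot] {K : Set V}
    {J₀ : V → En0 V} {U : ι → C2 → V} {U₀ : C2 → V} (T : B → Σ k : ℕ, Fin k → C2 → V)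
    (p : B → C2) (h0 : IsSph K J₀ U₀)
    (hT : ∀ b, (∀ i, IsSph K J₀ ((T b).2 i) ∧ NonC ((T b).2 i)) ∧
      IsConnected (⋃ i, im ((T b).2 i)) ∧ p b ≠ 0 ∧ U₀ (p b) ∈ ⋃ i, im ((T b).2 i))
    (ha : ∀ β : F2 V, ContinuousOn β K → Anti β → Tendsto (fun ν => area β (U ν)) l
      (𝓝 (area β U₀ + ∑ b, ∑ i, area β ((T b).2 i))))
    (hg : ∀ v, v ≠ 0 → (∀ b, ¬ Par v (p b)) → Tendsto (fun ν => U ν v) l (𝓝 (U₀ v)))
    (hb : ∀ v, v ≠ 0 → ∀ b, Par v (p b) → ∀ y, Tendsto (fun ν => U ν v) l (𝓝 y) →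
      y ∈ ⋃ i, im ((T b).2 i)) :
    (∃ (k : ℕ) (W : Fin k → C2 → V), 2 ≤ k ∧ (∀ i, IsSph K J₀ (W i) ∧ NonC (W i)) ∧
      IsConnected (⋃ i, im (W i)) ∧
      (∀ β : F2 V, ContinuousOn β K → Anti β →
        Tendsto (fun ν => area β (U ν)) l (𝓝 (∑ i, area β (W i)))) ∧
      ∀ v, v ≠ 0 → ∀ y, Tendsto (fun ν => U ν v) l (𝓝 y) → y ∈ ⋃ i, im (W i)) ∨
    ∃ p, p ≠ 0 ∧ ∃ x ∈ K, ∀ v, v ≠ 0 → ¬ Par v p → Tendsto (fun ν => U ν v) l (𝓝 x) := by
  have hne : ∀ b, Nonempty (Fin (T b).1) := fun b => by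
    obtain ⟨y, hy⟩ := (hT b).2.1.nonempty
    obtain ⟨i, -⟩ := mem_iUnion.1 hy
    exact ⟨i⟩
  have hcap : ∀ v, v ≠ 0 → ∀ y, Tendsto (fun ν => U ν v) l (𝓝 y) →
      y = U₀ v ∨ ∃ b, y ∈ ⋃ i, im ((T b).2 i) := fun v hv y hy => by
    by_cases h : ∃ b, Par v (p b)
    · obtain ⟨b, h⟩ := h
      exact Or.inr ⟨b, hb v hv b h y hy⟩
    · exact Or.inl (tendsto_nhds_unique hy (hg v hv (not_exists.1 h)))
  obtain ⟨b₀⟩ := ‹Nonempty B›
  by_cases hn : NonC U₀
  · left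
    have : Nonempty (Σ b, Fin (T b).1) := ⟨⟨b₀, (hne b₀).some⟩⟩
    have hU : (⋃ i : Option (Σ b, Fin (T b).1), im (i.elim U₀ fun j => (T j.1).2 j.2)) =
        ⋃ b, (im U₀ ∪ ⋃ i, im ((T b).2 i)) := by
      rw [iUnion_option, iUnion_sigma, ← union_iUnion]
      rfl
    have hc0 := (h0.inv.isCompact_im h0.sm.continuousOn).2
    refine caseB (I := Option (Σ b, Fin (T b).1)) (fun i => i.elim U₀ fun j => (T j.1).2 j.2)
      ?_ ?_ (fun β hβ hA => ?_) fun v hv y hy => ?_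
    · rintro (_ | j)
      exacts [⟨h0, hn⟩, (hT j.1).1 j.2]
    · rw [hU]
      obtain ⟨y, hy⟩ := hc0.nonempty
      exact ⟨⟨y, mem_iUnion.2 ⟨b₀, Or.inl hy⟩⟩, isPreconnected_iUnion
        ⟨y, mem_iInter.2 fun b => Or.inl hy⟩ fun b =>
          (IsConnected.union ⟨U₀ (p b), mem_image_of_mem U₀ (hT b).2.2.1, (hT b).2.2.2⟩ hc0
            (hT b).2.1).isPreconnected⟩
    · rw [Fintype.sum_option, Fintype.sum_sigma]
      exact ha β hβ hA
    · rw [hU]
      rcases hcap v hv y hy with h | ⟨b, h⟩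
      exacts [mem_iUnion.2 ⟨b₀, Or.inl ⟨v, hv, h.symm⟩⟩, mem_iUnion.2 ⟨b, Or.inr h⟩]
  have hcst : ∀ v, v ≠ 0 → U₀ v = U₀ (p b₀) := fun v hv => by
    by_contra hne
    exact hn ⟨v, hv, _, (hT b₀).2.2.1, hne⟩
  by_cases hB : ∃ b, b ≠ b₀
  · left
    obtain ⟨b₁, hb₁⟩ := hB
    have : Nontrivial (Σ b, Fin (T b).1) :=
      ⟨⟨⟨b₁, (hne b₁).some⟩, ⟨b₀, (hne b₀).some⟩, fun h => hb₁ (congrArg Sigma.fst h)⟩⟩
    have hx : ∀ b, U₀ (p b₀) ∈ ⋃ i, im ((T b).2 i) := fun b =>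
      hcst _ (hT b).2.2.1 ▸ (hT b).2.2.2
    refine caseB (I := Σ b, Fin (T b).1) (fun j => (T j.1).2 j.2) (fun j => (hT j.1).1 j.2)
      ?_ (fun β hβ hA => ?_) fun v hv y hy => ?_
    · rw [iUnion_sigma]
      exact ⟨⟨_, mem_iUnion.2 ⟨b₀, hx b₀⟩⟩, isPreconnected_iUnion ⟨_, mem_iInter.2 hx⟩
        fun b => (hT b).2.1.isPreconnected⟩
    · have := ha β hβ hA
      rwa [area_const hn, zero_add, ← Fintype.sum_sigma'] at this
    · rw [iUnion_sigma]
      rcases hcap v hv y hy with h | ⟨b, h⟩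
      exacts [mem_iUnion.2 ⟨b₀, h ▸ hcst v hv ▸ hx b₀⟩, mem_iUnion.2 ⟨b, h⟩]
  · right
    refine ⟨p b₀, (hT b₀).2.2.1, _, h0.mem _ (hT b₀).2.2.1, fun v hv hp => ?_⟩
    rw [← hcst v hv]
    exact hg v hv fun b => by rwa [not_not.1 (not_exists.1 hB b)]

end TopP

open TopP in
theorem top_of (h1 : LocStmt) (h2 : TreeStmt) (h3 : SmallStmt) (h4 : MobStmt) : TopStmt := by
  intro V _ _ _ O M K om R₀ Λ c hE ι 𝓤 J J₀ hG U E₀ hU
  classical
  obtain ⟨hb, hb0, hE1, hN1⟩ := (h3 V O M K om R₀ Λ c hE).1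
  have hm1 := (h4 V).1
  have hs : GSeq K 𝓤 J (fun ν => aff (U ν)) univ E₀ ∧ GSeq K 𝓤 J (fun ν => aff' (U ν)) univ E₀ := by
    refine ⟨fun L hL _ => ?_, fun L hL _ => ?_⟩ <;> filter_upwards [hU] with ν hν <;>
      have h := (hm1 _ (hν.1.sm.of_le (by norm_num)) hν.1.inv).2.2.1 L hL.measurableSet
    · exact ⟨⟨univ, isOpen_univ, subset_univ _, hν.1.hol.1, fun z _ => hν.1.mem _ (aff_ne z)⟩,
        h.1.trans hν.2⟩
    · exact ⟨⟨univ, isOpen_univ, subset_univ _, hν.1.hol.2, fun z _ => hν.1.mem _ (aff_ne' z)⟩,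
        h.2.trans hν.2⟩
  obtain ⟨u₀, Z, a1, a2, a3, a4⟩ := chart h1 h2 hE hb0 hE1 hN1 hG hs.1
  obtain ⟨u₁, Y, b1, b2, b3, b4⟩ := chart h1 h2 hE hb0 hE1 hN1 hG hs.2
  have hc0 : ContDiff ℝ 2 u₀ := contDiffOn_univ.1 a1.sm
  have hc1 : ContDiff ℝ 2 u₁ := contDiffOn_univ.1 b1.sm
  have hinv : ∀ w : ℂ, w ≠ 0 → u₁ w = u₀ w⁻¹ := fun w hw => by
    have e1 : ∀ᶠ t in 𝓝[≠] w, u₁ t = u₀ t⁻¹ := by
      filter_upwards [ev_notMem (Y ∪ Z.image (·⁻¹)) w,
        mem_nhdsWithin_of_mem_nhds (isOpen_ne.mem_nhds hw)] with t ht ht0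
      rw [Finset.mem_union, not_or] at ht
      have hz : t⁻¹ ∉ Z := fun h => ht.2 (Finset.mem_image.2 ⟨_, h, inv_inv t⟩)
      refine tendsto_nhds_unique (cconv_at b3 ⟨mem_univ _, ht.1⟩)
        ((cconv_at a3 ⟨mem_univ _, hz⟩).congr' ?_)
      filter_upwards [hU] with ν hν using (aff'_eq hν.1.inv ht0).symm
    exact tendsto_nhds_unique_of_eventuallyEq
      (hc1.continuous.continuousAt.tendsto.mono_left nhdsWithin_le_nhds)
      ((hc0.continuous.continuousAt.comp (continuousAt_inv₀ hw)).tendsto.mono_left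
        nhdsWithin_le_nhds) e1
  obtain ⟨U₀, hU₀, e0, e1⟩ := (h4 V).2.2.2.2.2 K J₀ u₀ u₁ 1 one_pos hG.env₀.ub.sq a1 a2
    ⟨b1.sm.mono (subset_univ _), fun z _ => b1.cr z (mem_univ _)⟩ (b2 (mem_univ _))
    fun w _ hw => hinv w hw
  have e2 : aff' U₀ = u₁ := by
    funext w
    by_cases hw : w = 0
    · rw [hw]; exact e1
    · rw [aff'_eq hU₀.inv hw, e0, hinv w hw]
  obtain ⟨R, hR1, hRZ, hRY⟩ : ∃ R : ℝ, 1 ≤ R ∧ (∀ z ∈ Z, ‖z‖ < R) ∧
      ∀ w ∈ Y, w ≠ 0 → R⁻¹ < ‖w‖ := by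
    refine ((eventually_ge_atTop (1 : ℝ)).and (((eventually_all_finset Z).2 fun z _ =>
      eventually_gt_atTop ‖z‖).and ((eventually_all_finset Y).2 fun w _ => ?_))).exists
    by_cases hw : w = 0
    · exact Eventually.of_forall fun _ h => (h hw).elim
    · exact (tendsto_inv_atTop_zero.eventually (gt_mem_nhds (norm_pos_iff.2 hw))).mono
        fun _ h _ => h
  have hR0 : 0 < R := by linarith
  set Y' := Y.filter (· = 0) with hY'
  have hY0 : ∀ w ∈ Y', w ∈ Y ∧ w = 0 := fun w hw => Finset.mem_filter.1 hw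
  have hYL : ∀ w ∈ Y, w ∈ closedBall (0 : ℂ) R⁻¹ → w ∈ Y' := fun w hw h =>
    Finset.mem_filter.2 ⟨hw, by_contra fun h0 =>
      (hRY w hw h0).not_ge (mem_closedBall_zero_iff.1 h)⟩
  choose! k W hW using fun z : Z => a4 z z.2
  choose! k' W' hW' using fun w : Y' => b4 w (hY0 w w.2).1
  have harea : ∀ β : F2 V, ContinuousOn β K → Anti β → Tendsto (fun ν => area β (U ν)) 𝓤
      (𝓝 (area β U₀ + (∑ z, ∑ i, area β (W z i) + ∑ w, ∑ i, area β (W' w i)))) := by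
    intro β hβ hA
    have sp : ∀ {J' : V → En0 V} {U' : C2 → V}, IsSph K J' U' → area β U' =
        (∫ z in closedBall 0 R, dens β (aff U') z) +
          ∫ w in closedBall 0 R⁻¹, dens β (aff' U') w := fun h =>
      ((hm1 _ (h.sm.of_le (by norm_num)) h.inv).2.2.2 β
        (hβ.mono (by rintro _ ⟨v, hv, rfl⟩; exact h.mem v hv))).2 hA R hR0
    have t0 := chart_area h1 hE.cpt hs.1 a1 a2 a3 hβ (Z' := Z)
      (A := fun z => if h : z ∈ Z then ∑ i, area β (W ⟨z, h⟩ i) else 0)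
      (fun z hz => by rw [dif_pos hz]; exact (hW ⟨z, hz⟩).2.2.2.1 β hβ hA)
      (isCompact_closedBall 0 R) (fun z hz _ => hz)
      fun z hz => ball_subset_interior_closedBall (mem_ball_zero_iff.2 (hRZ z hz))
    have t1 := chart_area h1 hE.cpt hs.2 b1 b2 b3 hβ (Z' := Y')
      (A := fun w => if h : w ∈ Y' then ∑ i, area β (W' ⟨w, h⟩ i) else 0)
      (fun w hw => by rw [dif_pos hw]; exact (hW' ⟨w, hw⟩).2.2.2.1 β hβ hA)
      (isCompact_closedBall 0 R⁻¹) hYL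
      fun w hw => ball_subset_interior_closedBall (by
        rw [(hY0 w hw).2]; exact mem_ball_self (by positivity))
    rw [Finset.sum_dite_of_true fun _ h => h] at t0 t1
    rw [sp hU₀, e0, e2, add_add_add_comm]
    refine (t0.add t1).congr' ?_
    filter_upwards [hU] with ν hν using (sp hν.1).symm
  rcases isEmpty_or_nonempty (Z ⊕ Y') with hB | hB
  · left
    rw [isEmpty_sum] at hB
    obtain ⟨hZ, hY⟩ := hB
    refine ⟨U₀, hU₀, ?_, fun β hβ hA => by simpa using harea β hβ hA⟩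
    have k1 : IsCompact (sphere (0 : C2) 1 ∩ {v | ‖v.1‖ ≤ R * ‖v.2‖}) :=
      (isCompact_sphere 0 1).inter_right (isClosed_le (by fun_prop) (by fun_prop))
    have k2 : IsCompact (sphere (0 : C2) 1 ∩ {v | R * ‖v.2‖ ≤ ‖v.1‖}) :=
      (isCompact_sphere 0 1).inter_right (isClosed_le (by fun_prop) (by fun_prop))
    have n1 : sphere (0 : C2) 1 ∩ {v | ‖v.1‖ ≤ R * ‖v.2‖} ⊆ {v | v.2 ≠ 0} := by
      rintro v ⟨hv, h⟩ h0
      rw [mem_ofPred_eq, h0, norm_zero, mul_zero, norm_le_zero_iff] at h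
      exact S3_ne ⟨v, hv⟩ (Prod.ext h h0)
    have n2 : sphere (0 : C2) 1 ∩ {v | R * ‖v.2‖ ≤ ‖v.1‖} ⊆ {v | v.1 ≠ 0} := by
      rintro v ⟨hv, h⟩ h0
      rw [mem_ofPred_eq, h0, norm_zero] at h
      have h5 : ‖v.2‖ ≤ 0 := nonpos_of_mul_nonpos_right h hR0
      exact S3_ne ⟨v, hv⟩ (Prod.ext h0 (norm_le_zero_iff.1 h5))
    have d1 : ContDiffOn ℝ 2 (fun v : C2 => v.1 / v.2) {v | v.2 ≠ 0} :=
      (contDiffOn_fst.mul (contDiffOn_snd.inv fun _ h => h)).congr fun v _ => div_eq_mul_inv _ _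
    have d2 : ContDiffOn ℝ 2 (fun v : C2 => v.2 / v.1) {v | v.1 ≠ 0} :=
      (contDiffOn_snd.mul (contDiffOn_fst.inv fun _ h => h)).congr fun v _ => div_eq_mul_inv _ _
    refine SC.union
      (transfer (Ω := univ \ Z) (isOpen_ne_fun continuous_snd continuous_const) d1 k1 n1
        (fun z _ => ⟨mem_univ _, fun h => hZ.false ⟨z, h⟩⟩) a3 ?_ hc0
        fun v hv => e0 ▸ eq_aff hU₀.inv hv)
      (transfer (isOpen_ne_fun continuous_fst continuous_const) d2 k2 n2 ?_ b3 ?_ hc1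
        fun v hv => e2 ▸ eq_aff' hU₀.inv hv)
      fun v hv => (le_total ‖v.1‖ (R * ‖v.2‖)).imp (fun h => ⟨hv, h⟩) fun h => ⟨hv, h⟩
    · filter_upwards [hU] with ν hν
      exact ⟨contDiffOn_univ.1 hν.1.hol.1.sm, fun v hv => eq_aff hν.1.inv hv⟩
    · rintro _ ⟨v, hv, rfl⟩
      refine ⟨mem_univ _, fun h => hY.false ⟨_, hYL _ h ?_⟩⟩
      have h5 : 0 < ‖v.1‖ := norm_pos_iff.2 (n2 hv)
      rw [mem_closedBall_zero_iff, norm_div, div_le_iff₀ h5, le_inv_mul_iff₀ hR0]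
      exact hv.2
    · filter_upwards [hU] with ν hν
      exact ⟨contDiffOn_univ.1 hν.1.hol.2.sm, fun v hv => eq_aff' hν.1.inv hv⟩
  right
  refine sort (B := Z ⊕ Y') (U₀ := U₀) (Sum.elim (fun z => ⟨k z, W z⟩) fun w => ⟨k' w, W' w⟩)
    (Sum.elim (fun z => (z, 1)) fun w => (1, w)) hU₀ ?_ (fun β hβ hA => ?_) (fun v hv hp => ?_) ?_
  · rintro (z | w)
    · exact ⟨(hW z).1, (hW z).2.1, aff_ne _, mem_of_eq_of_mem (congrFun e0 z) (hW z).2.2.1⟩
    · exact ⟨(hW' w).1, (hW' w).2.1, aff_ne' _, mem_of_eq_of_mem (congrFun e2 w) (hW' w).2.2.1⟩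
  · rw [Fintype.sum_sum_type]
    exact harea β hβ hA
  · by_cases h : v.2 = 0
    · have h' : v.1 ≠ 0 := fun h0 => hv (Prod.ext h0 h)
      have hy : v.2 / v.1 ∉ Y := fun hy =>
        hp (Sum.inr ⟨_, Finset.mem_filter.2 ⟨hy, by rw [h, zero_div]⟩⟩) (par_aff' h')
      rw [eq_aff' hU₀.inv h', e2]
      refine (cconv_at b3 ⟨mem_univ _, hy⟩).congr' ?_
      filter_upwards [hU] with ν hν using (eq_aff' hν.1.inv h').symm
    · have hz : v.1 / v.2 ∉ Z := fun hz => hp (Sum.inl ⟨_, hz⟩) (par_aff h)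
      rw [eq_aff hU₀.inv h, e0]
      refine (cconv_at a3 ⟨mem_univ _, hz⟩).congr' ?_
      filter_upwards [hU] with ν hν using (eq_aff hν.1.inv h).symm
  · rintro v hv (z | w) hp y hy
    · refine (hW z).2.2.2.2 (fun _ => z) y tendsto_const_nhds (hy.congr' ?_)
      filter_upwards [hU] with ν hν using hν.1.inv.par hv hp
    · refine (hW' w).2.2.2.2 (fun _ => w) y tendsto_const_nhds (hy.congr' ?_)
      filter_upwards [hU] with ν hν using hν.1.inv.par hv hp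

end

end Pool.Agent.MP_9758ca_gt

end

section

/-!
PROJECT BALL: choice of the slices and of the parametrisations (module MARK).
-/

open scoped Topology ContDiff ComplexConjugate
open Set Metric Filter Complex

namespace Pool.Agent.MP_9758ca_gt

namespace MarkP

/-- open and dense in `nz` -/
def DO (s : Set C2) : Prop := IsOpen s ∧ nz ⊆ closure s

theorem DO.meet {s W : Set C2} (h : DO s) (hW : IsOpen W) {v : C2} (hv : v ≠ 0) (hvW : v ∈ W) :
    ∃ w, w ≠ 0 ∧ w ∈ W ∧ w ∈ s := by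
  obtain ⟨w, hw1, hw2⟩ := mem_closure_iff.1 (h.2 hv) (W ∩ nz) (hW.inter isOpen_nz) ⟨hvW, hv⟩
  exact ⟨w, hw1.2, hw1.1, hw2⟩

theorem DO.inter {s t : Set C2} (hs : DO s) (ht : DO t) : DO (s ∩ t) := by
  refine ⟨hs.1.inter ht.1, fun v hv => mem_closure_iff.2 fun W hW hvW => ?_⟩
  obtain ⟨w, hw0, hw1, hw2⟩ := hs.meet hW hv hvW
  obtain ⟨x, _, hx1, hx2⟩ := ht.meet (hW.inter hs.1) hw0 ⟨hw1, hw2⟩
  exact ⟨x, hx1.1, hx1.2, hx2⟩

theorem DO.univ : DO univ := ⟨isOpen_univ, by simp⟩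

theorem DO.all {ι : Type} [Finite ι] {s : ι → Set C2} (h : ∀ i, DO (s i)) :
    DO {v | ∀ i, v ∈ s i} := by
  classical
  have := Fintype.ofFinite ι
  have key : ∀ T : Finset ι, DO {v | ∀ i ∈ T, v ∈ s i} := by
    intro T
    induction T using Finset.induction_on with
    | empty => simpa using DO.univ
    | insert a T _ ih =>
      have e : {v | ∀ i ∈ insert a T, v ∈ s i} = s a ∩ {v | ∀ i ∈ T, v ∈ s i} := by
        ext v; simp
      rw [e]
      exact (h a).inter ih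
  simpa using key Finset.univ

theorem DO.imp {P : Prop} {s : Set C2} (h : P → DO s) : DO {v | P → v ∈ s} := by
  by_cases hP : P
  · simpa [hP] using h hP
  · simpa [hP] using DO.univ

theorem do_not_par {p : C2} (hp : p ≠ 0) : DO {v | ¬ Par v p} :=
  ⟨isOpen_not_par hp, (dense_not_par hp).trans (closure_mono fun _ h => h.2)⟩

variable {V : Type} [NormedAddCommGroup V] [NormedSpace ℝ V]

theorem map2_mono {S S' : Set V} {U : C2 → V} (h : Map2 S U) (hS : S ⊆ S') : Map2 S' U :=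
  ⟨h.sm, h.inv, fun v hv => hS (h.mem v hv)⟩

/-- the first affine direction is injective at an immersed point -/
theorem inj_dir {S : Set V} {J : V → En0 V} {U : C2 → V} (h : IsSph S J U) {v : C2} (hv : v ≠ 0)
    (h2 : v.2 ≠ 0) (hd : fderiv ℝ U v ≠ 0) {a : ℂ} (ha : fderiv ℝ U v (a, 0) = 0) : a = 0 := by
  by_contra ha0
  apply hd
  have hI : fderiv ℝ U v (I • ((a, 0) : C2)) = 0 := by rw [h.cr v hv, ha, map_zero]
  have hc : ∀ c : ℂ, fderiv ℝ U v (c • ((a, 0) : C2)) = 0 := fun c => by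
    rw [Bs.smul_re_im c, map_add, map_smul, map_smul, ha, hI, smul_zero, smul_zero, add_zero]
  refine ContinuousLinearMap.ext fun w => ?_
  have e : w = (w.2 / v.2) • v + ((w.1 - w.2 / v.2 * v.1) / a) • ((a, 0) : C2) := by
    refine Prod.ext ?_ ?_
    · simp only [Prod.fst_add, Prod.smul_fst, smul_eq_mul]
      field_simp
      ring
    · simp only [Prod.snd_add, Prod.smul_snd, smul_eq_mul]
      field_simp
      ring
  rw [e, map_add, hc, h.inv.fderiv_self hv (Bs.map2_diff h.toMap2 hv), add_zero]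
  rfl

/-- points of the sphere on a slice -/
def Sl (M : Set V) (L : ℕ → V →L[ℝ] ℂ) (cs : ℕ → ℂ) (U : C2 → V) (q : C2) (n : ℕ) : Prop :=
  L n (U q) = cs n ∧ ∀ w, ∃ v ∈ tan M (U q), L n v = w

theorem slice_pt {M : Set V} {J : V → En0 V} {U : C2 → V} {L : ℕ → V →L[ℝ] ℂ} {cs : ℕ → ℂ}
    (h : IsSph M J U) (hs : Slices L cs) (hi : DO {v | InjPt U v}) {s : Set C2} (hd : DO s) :
    ∃ q, q ≠ 0 ∧ q ∈ s ∧ ∃ n, Sl M L cs U q n := by
  have h10 : ((1, 0) : C2) ≠ 0 := Bs.aff_ne' 0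
  obtain ⟨v, hv, -, ⟨hv1, hv2⟩, hv3⟩ :=
    ((hi.inter (do_not_par h10)).inter hd).meet isOpen_univ h10 (mem_univ _)
  have h2 : v.2 ≠ 0 := by
    intro e
    exact hv2 ((par_iff h10).2 (by simp [e]))
  let φ : ℂ → C2 := fun z => (z, v.2)
  have hφ : ∀ z, HasFDerivAt φ (ContinuousLinearMap.inl ℝ ℂ ℂ) z := fun z =>
    hasFDerivAt_prodMk_left (𝕜 := ℝ) z v.2
  have hne : ∀ z, φ z ≠ 0 := fun z e => h2 (congrArg Prod.snd e)
  have hder : ∀ z a, fderiv ℝ (U ∘ φ) z a = fderiv ℝ U (φ z) (a, 0) := fun z a => by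
    have := ((Bs.map2_diff h.toMap2 (hne z)).hasFDerivAt.comp z (hφ z)).fderiv
    rw [this]
    rfl
  have hφc : ContDiff ℝ 1 φ := contDiff_id.prodMk contDiff_const
  have hsm : ContDiffAt ℝ 1 (U ∘ φ) v.1 :=
    ((h.sm.contDiffAt (nz_mem_nhds (hne v.1))).of_le (by norm_num)).comp _ hφc.contDiffAt
  have hinj : Function.Injective (fderiv ℝ (U ∘ φ) v.1) := by
    refine (injective_iff_map_eq_zero _).2 fun a ha => ?_
    rw [hder] at ha
    exact inj_dir h hv h2 hv1.2.1 ha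
  obtain ⟨z, hz, n, hn1, hn2⟩ := hs (U ∘ φ) v.1 hsm hinj (φ ⁻¹' s)
    (hφc.continuous.continuousAt.preimage_mem_nhds (hd.1.mem_nhds hv3))
  refine ⟨φ z, hne z, hz, n, hn1, fun w => ?_⟩
  obtain ⟨a, ha⟩ := hn2 w
  rw [hder] at ha
  exact ⟨_, Bs.map2_mem_tan h.toMap2 (hne z) _, ha⟩

/-- completing the given points to three different points -/
theorem three (t : Fin 3 → Prop) (p : Fin 3 → C2) (P : C2 → Prop)
    (hP : ∀ s, DO s → ∃ q, q ≠ 0 ∧ q ∈ s ∧ P q) (h0 : ∀ j, ¬ t j → p j ≠ 0)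
    (h1 : ∀ j j', j ≠ j' → ¬ t j → ¬ t j' → ¬ Par (p j) (p j')) :
    ∃ q : Fin 3 → C2, (∀ j, q j ≠ 0) ∧ (∀ j j', j ≠ j' → ¬ Par (q j) (q j')) ∧
      (∀ j, ¬ t j → q j = p j) ∧ ∀ j, t j → P (q j) := by
  classical
  have key : ∀ T : Finset (Fin 3), ∃ q : Fin 3 → C2, (∀ j, (¬ t j ∨ j ∈ T) → q j ≠ 0) ∧
      (∀ j j', j ≠ j' → (¬ t j ∨ j ∈ T) → (¬ t j' ∨ j' ∈ T) → ¬ Par (q j) (q j')) ∧
      (∀ j, ¬ t j → q j = p j) ∧ ∀ j ∈ T, t j → P (q j) := by
    intro T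
    induction T using Finset.induction_on with
    | empty =>
      exact ⟨p, fun j hj => h0 j (by simpa using hj), fun j j' hjj hj hj' =>
        h1 j j' hjj (by simpa using hj) (by simpa using hj'), fun _ _ => rfl, by simp⟩
    | insert a T haT ih =>
      obtain ⟨q, q0, q1, q2, q3⟩ := ih
      by_cases ha : t a
      · obtain ⟨x, x0, x1, x2⟩ := hP _ (DO.all (s := fun j => {v | q j ≠ 0 → v ∈ {v | ¬ Par v (q j)}})
          fun j => DO.imp fun hj => do_not_par hj)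
        have red : ∀ j, j ≠ a → (¬ t j ∨ j ∈ insert a T) → (¬ t j ∨ j ∈ T) := fun j hj h =>
          h.imp id fun h => (Finset.mem_insert.1 h).resolve_left hj
        refine ⟨Function.update q a x, fun j hj => ?_, fun j j' hjj hj hj' => ?_, fun j hj => ?_,
          fun j hj htj => ?_⟩
        · by_cases e : j = a
          · subst e; simpa using x0
          · rw [Function.update_of_ne e]; exact q0 j (red j e hj)
        · by_cases e : j = a
          · subst e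
            rw [Function.update_self, Function.update_of_ne hjj.symm]
            exact x1 j' (q0 j' (red j' hjj.symm hj'))
          · by_cases e' : j' = a
            · subst e'
              rw [Function.update_self, Function.update_of_ne e]
              exact fun hp => x1 j (q0 j (red j e hj)) (hp.symm (q0 j (red j e hj)))
            · rw [Function.update_of_ne e, Function.update_of_ne e']
              exact q1 j j' hjj (red j e hj) (red j' e' hj')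
        · have e : j ≠ a := by rintro rfl; exact hj ha
          rw [Function.update_of_ne e]; exact q2 j hj
        · by_cases e : j = a
          · subst e; simpa using x2
          · rw [Function.update_of_ne e]
            exact q3 j ((Finset.mem_insert.1 hj).resolve_left e) htj
      · have red : ∀ j, (¬ t j ∨ j ∈ insert a T) → (¬ t j ∨ j ∈ T) := fun j h => by
          rcases h with h | h
          · exact Or.inl h
          · rcases Finset.mem_insert.1 h with rfl | h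
            · exact Or.inl ha
            · exact Or.inr h
        refine ⟨q, fun j hj => q0 j (red j hj), fun j j' hjj hj hj' =>
          q1 j j' hjj (red j hj) (red j' hj'), q2, fun j hj htj => ?_⟩
        rcases Finset.mem_insert.1 hj with rfl | h
        · exact absurd htj ha
        · exact q3 j h htj
  obtain ⟨q, q0, q1, q2, q3⟩ := key Finset.univ
  exact ⟨q, fun j => q0 j (by simp), fun j j' h => q1 j j' h (by simp) (by simp), q2,
    fun j => q3 j (by simp)⟩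

/-- a linear automorphism sending the marked points to three given points -/
theorem mob3 (q : Fin 3 → C2) (h0 : ∀ j, q j ≠ 0) (h1 : ∀ j j', j ≠ j' → ¬ Par (q j) (q j')) :
    ∃ A : C2 ≃L[ℂ] C2, ∀ m, Par (A (mk3 m)) (q m) := by
  have hd : (q 2).1 * (q 0).2 - (q 2).2 * (q 0).1 ≠ 0 := fun e =>
    h1 2 0 (by decide) ((par_iff (h0 0)).2 (sub_eq_zero.1 e))
  have ha : (q 1).1 * (q 0).2 - (q 1).2 * (q 0).1 ≠ 0 := fun e =>
    h1 1 0 (by decide) ((par_iff (h0 0)).2 (sub_eq_zero.1 e))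
  have hb : (q 2).1 * (q 1).2 - (q 2).2 * (q 1).1 ≠ 0 := fun e =>
    h1 2 1 (by decide) ((par_iff (h0 1)).2 (sub_eq_zero.1 e))
  set d := (q 2).1 * (q 0).2 - (q 2).2 * (q 0).1 with hdd
  set a := (q 1).1 * (q 0).2 - (q 1).2 * (q 0).1 with haa
  set b := (q 2).1 * (q 1).2 - (q 2).2 * (q 1).1 with hbb
  let T : C2 →ₗ[ℂ] C2 :=
    (LinearMap.fst ℂ ℂ ℂ).smulRight (a • q 2) + (LinearMap.snd ℂ ℂ ℂ).smulRight (b • q 0)
  have hT : ∀ v : C2, T v = v.1 • a • q 2 + v.2 • b • q 0 := fun v => rfl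
  have hinj : Function.Injective T := by
    refine (injective_iff_map_eq_zero _).2 fun v hv => ?_
    rw [hT] at hv
    have e1 := congrArg Prod.fst hv
    have e2 := congrArg Prod.snd hv
    simp only [Prod.fst_add, Prod.smul_fst, smul_eq_mul, Prod.fst_zero, Prod.snd_add,
      Prod.smul_snd, Prod.snd_zero] at e1 e2
    have f1 : v.1 * (a * d) = 0 := by
      rw [hdd]; linear_combination (q 0).2 * e1 - (q 0).1 * e2
    have f2 : v.2 * (b * d) = 0 := by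
      rw [hdd]; linear_combination (q 2).1 * e2 - (q 2).2 * e1
    exact Prod.ext ((mul_eq_zero.1 f1).resolve_right (mul_ne_zero ha hd))
      ((mul_eq_zero.1 f2).resolve_right (mul_ne_zero hb hd))
  refine ⟨(LinearEquiv.ofInjectiveEndo T hinj).toContinuousLinearEquiv, fun m => ?_⟩
  change Par (T (mk3 m)) (q m)
  rw [hT]
  fin_cases m
  · exact ⟨b, by simp [mk3]⟩
  · refine ⟨d, Prod.ext ?_ ?_⟩
    · simp only [mk3, haa, hbb, hdd]; simp; ring
    · simp only [mk3, haa, hbb, hdd]; simp; ring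
  · exact ⟨a, by simp [mk3]⟩

theorem par_map (A : C2 ≃L[ℂ] C2) {v w : C2} (h : Par v w) : Par (A v) (A w) := by
  obtain ⟨c, rfl⟩ := h
  exact ⟨c, map_smul _ _ _⟩

/-- the new label -/
def relab {N : ℕ} (l : Lab N) (n : ℕ) : Lab N :=
  match l with
  | .sl _ => .sl n
  | l => l

theorem relab_wt {N : ℕ} (l : Lab N) (n : ℕ) : (relab l n).wt = l.wt := by
  cases l <;> rfl

theorem relab_eq {N : ℕ} {l : Lab N} {n : ℕ} {i : Fin N} {j : Fin 3} (h : relab l n = .eq i j) :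
    l = .eq i j := by
  cases l <;> first | exact h | cases h

end MarkP

open MarkP in
theorem mark_of (h1 : MobStmt) (h2 : FrameStmt) (h3 : PairStmt) : MarkStmt := by
  intro V _ _ _ M K Z 𝒜 γ J L cs hKM h𝒜 hJ hsl hpre
  obtain ⟨N, lab, b, τ, ρ, U, c, p, hok, hwt, hτ, hρ, hb, hU, hne, hp, hpar⟩ := hpre
  have hpair := h3 V (J τ) K (hJ τ).1 fun x hx => (hJ τ).2 x (hKM hx)
  have hi : ∀ i, DO {v | InjPt (U i) v} := fun i => ⟨hpair.1 _ (hU i).1, (hU i).2.2.1⟩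
  have hM : ∀ i, IsSph M (J τ) (U i) := fun i =>
    ⟨map2_mono (hU i).1.toMap2 hKM, (hU i).1.cr⟩
  have hq : ∀ i, ∃ q : Fin 3 → C2, (∀ j, q j ≠ 0) ∧ (∀ j j', j ≠ j' → ¬ Par (q j) (q j')) ∧
      (∀ j, ¬ (lab i j).IsSl → q j = p i j) ∧
      ∀ j, (lab i j).IsSl → ∃ n, Sl M L cs (U i) (q j) n := fun i =>
    three (fun j => (lab i j).IsSl) (p i) (fun x => ∃ n, Sl M L cs (U i) x n)
      (fun s hs => slice_pt (hM i) hsl (hi i) hs) (fun j hj => (hp i j hj).1) (hpar i)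
  choose q q0 q1 q2 q3 using hq
  have hn : ∀ i j, ∃ n, (lab i j).IsSl → Sl M L cs (U i) (q i j) n := fun i j => by
    by_cases h : (lab i j).IsSl
    · obtain ⟨n, hn⟩ := q3 i j h
      exact ⟨n, fun _ => hn⟩
    · exact ⟨0, fun h' => absurd h' h⟩
  choose n hn using hn
  choose A hA using fun i => mob3 (q i) (q0 i) (q1 i)
  have hAne : ∀ i v, v ≠ 0 → A i v ≠ 0 := fun i v hv => by simpa using hv
  have hmob := fun i => (h1 V).2.2.1 K (U i) (A i) (hU i).1.toMap2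
  have hval : ∀ i m, (U i ∘ A i) (mk3 m) = U i (q i m) := fun i m =>
    (hU i).1.inv.par (hAne i _ (mk3_ne m)) (hA i m)
  refine ⟨N, fun i j => relab (lab i j) (n i j), b, ∑ i, c i, fun i j i' j' h => ?_, ?_,
    τ, ρ, fun i => U i ∘ A i, c, fun i => ⟨(hmob i).2.2.2.2.1 _ (hU i).1, ?_⟩, le_rfl,
    fun i => ?_, ⟨hτ, hρ⟩, hb, fun i j => ?_⟩
  · rcases hok i j i' j' (relab_eq h) with e | e | e <;> simp [e, relab]
  · simpa only [labWt, relab_wt] using hwt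
  · obtain ⟨k, hk, hs⟩ := (hU i).2.2.2.1
    have := (h2 V).2.1 M (J τ) (U i) k (A i) 1 hk (hU i).1.inv
      ((A i).contDiff.restrict_scalars ℝ) (hAne i) fun a v => by simp
    exact ⟨_, this, by simpa using hs⟩
  · have hc : ContinuousOn (U i) nz := (hU i).1.sm.continuousOn
    have ho : ∀ j, j ≠ i → DO {v | v ≠ 0 ∧ U i v ∉ im (U j)} := fun j hj =>
      ⟨hc.isOpen_inter_preimage isOpen_nz
          ((hU j).1.inv.isCompact_im (hU j).1.sm.continuousOn).1.isClosed.isOpen_compl,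
        hpair.2 _ _ (hU i).1 (hU i).2.1 (hU j).1 (hU j).2.1 (hne i j hj.symm)⟩
    have hW : IsOpen (nz ∩ (fun v => (τ, U i v)) ⁻¹' 𝒜) :=
      (continuousOn_const.prodMk hc).isOpen_inter_preimage isOpen_nz h𝒜
    obtain ⟨v, hv, hvA⟩ := (hU i).2.2.2.2
    obtain ⟨w, _, hw1, ⟨hw2, hw3⟩, hw4⟩ := (((hi i).inter (DO.all fun j => DO.imp (ho j))).inter
      (DO.all fun m => do_not_par (q0 i m))).meet hW hv ⟨hv, hvA⟩
    refine ⟨(A i).symm w, (hmob i).2.2.2.1 _ (by simpa using hw2), by simpa using hw1.2,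
      fun j hj => ?_, fun m hm => hw4 m ?_⟩
    · rw [(hmob j).2.1]
      simpa using (hw3 j hj).2
    · have := (par_map (A i) hm).trans (hA i m)
      simpa using this
  · simp only [hval]
    refine ⟨(hM i).mem _ (q0 i j), ?_⟩
    have h1 := hn i j
    have h2 := hp i j
    have h3 := q2 i j
    have h4 := hok i j
    generalize lab i j = l at h1 h2 h3 h4
    cases l with
    | free => trivial
    | sl m => exact h1 trivial
    | gam => rw [h3 id]; exact (h2 id).2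
    | zed => rw [h3 id]; exact (h2 id).2
    | eq i' j' =>
      have e : ¬ (lab i' j').IsSl := by
        rcases h4 i' j' rfl with e | e | e <;> rw [e] <;> exact id
      rw [h3 id]
      change U i (p i j) = U i' (q i' j')
      rw [q2 i' j' e]
      exact (h2 id).2

end Pool.Agent.MP_9758ca_gt

end

end MrgPart1

-- marker of a merged file
example : 731051 + 774808 = 731051 + 774808 := rfl
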