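import Mathlib.Data.Int.Star
import Mathlib.RingTheory.PicardGroup
import Mathlib.Analysis.Calculus.Deriv.Prod
import Mathlib.Analysis.Calculus.Deriv.Star
import Mathlib.Analysis.Complex.RemovableSingularity
import Mathlib.Topology.Baire.LocallyCompactRegular
import Mathlib.Topology.UniformSpace.Uniformizable
import Pool.Agent.MP_9758ca_gt.Gn

section

/-!
PROJECT BALL, module CLASS: classification of the configurations near a wall.
-/

open scoped Topology ContDiff ComplexConjugate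
open Set Metric Filter Complex

namespace Pool.Agent.MP_9758ca_gt

noncomputable section

namespace ClassP

lemma diffAt {U : C2 → VV} (hU : Map2 SS U) {v : C2} (hv : v ≠ 0) : DifferentiableAt ℝ U v :=
  (hU.sm.contDiffAt (nz_mem_nhds hv)).differentiableAt two_ne_zero

/-- height and angle are constant if `al` vanishes along the sphere -/
lemma level (h2 : SliceStmt) {j : ℤ} {U : C2 → VV} (hU : Map2 SS U)
    (hB : ∀ v, v ≠ 0 → ∀ w, BaseRel (U v) (fderiv ℝ U v w) (fderiv ℝ U v (I • w)))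
    (hT : ∀ v, v ≠ 0 → |(U v).2 - j| ≤ 1 / 10)
    (hal : ∀ v, v ≠ 0 → ∀ k, (U v).1.1 k k ≠ 0 → ∀ w,
      al (colL k (U v)) (colL k (fderiv ℝ U v w)) = 0) :
    ∀ v, v ≠ 0 → ∀ v', v' ≠ 0 → (U v').2 = (U v).2 ∧ aL (U v') = aL (U v) := by
  intro v hv
  refine h2.1 (j - 1 / 2) (j + 1 / 2) U hU (fun v hv _ w => ?_) v hv ?_
  · obtain ⟨-, n, hn, hP⟩ := SS_base (hU.mem v hv)
    obtain ⟨k, hk⟩ := prj_ne_zero hn
    rw [← hP] at hk
    have := (hB v hv w k j hk ((hT v hv).trans_lt (by norm_num))).2.2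
    rw [et_apply, et_apply, hal v hv k hk, hal v hv k hk] at this
    rw [dw_apply, dw_apply]
    simpa using this
  · have := abs_le.1 (hT v hv)
    constructor <;> linarith [this.1, this.2]

lemma al_zero {U : C2 → VV} (hU : Map2 SS U) {P₀ : M3} (h : ∀ v, v ≠ 0 → (U v).1.1 = P₀)
    (v : C2) (hv : v ≠ 0) (k : Fin 3) (w : C2) :
    al (colL k (U v)) (colL k (fderiv ℝ U v w)) = 0 := by
  have e : (fun v => colL k (U v)) =ᶠ[𝓝 v] fun _ i => P₀ i k :=
    mem_of_superset (nz_mem_nhds hv) fun v' hv' => funext fun i =>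
      (colL_apply _ _ _).trans (by rw [h v' hv'])
  have h1 := ((colL k).hasFDerivAt.comp v (diffAt hU hv).hasFDerivAt).fderiv
  have h2 : fderiv ℝ (colL k ∘ U) v = 0 := e.fderiv_eq.trans (fderiv_const_apply _)
  have h3 : colL k (fderiv ℝ U v w) = 0 := congrArg (fun T => T w) (h1.symm.trans h2)
  rw [h3, map_zero]

lemma al_one {U : C2 → VV} (hU : Map2 SS U) {L : C2 →L[ℂ] C3}
    (h : ∀ v, v ≠ 0 → L v ≠ 0 ∧ (U v).1.1 = prj (L v))
    (hL : ∀ v w, L w 1 * L v 2 = L v 1 * L w 2) (v : C2) (hv : v ≠ 0) (k : Fin 3)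
    (hk : (U v).1.1 k k ≠ 0) (w : C2) : al (colL k (U v)) (colL k (fderiv ℝ U v w)) = 0 := by
  let c : C2 → ℂ := fun v => conj (L v k) / (nsq (L v) : ℂ)
  have e0 : ∀ v, v ≠ 0 → colL k (U v) = c v • L v := fun v' hv' => by
    rw [← prj_col, ← (h v' hv').2]; exact funext fun i => colL_apply _ _ _
  have e : (fun v => colL k (U v)) =ᶠ[𝓝 v] fun v => c v • L v :=
    mem_of_superset (nz_mem_nhds hv) e0
  have hn : (nsq (L v) : ℂ) ≠ 0 := ofReal_ne_zero.2 (nsq_pos (h v hv).1).ne'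
  have hLk : L v k ≠ 0 := by rw [(h v hv).2] at hk; exact prj_diag_ne.1 hk
  have dL : HasFDerivAt L (L.restrictScalars ℝ) v := (L.restrictScalars ℝ).hasFDerivAt
  have dc : DifferentiableAt ℝ c v := by
    have d1 : DifferentiableAt ℝ (fun v => conj (L v k)) v :=
      conjCLE.differentiableAt.comp v (differentiableAt_pi.1 dL.differentiableAt k)
    have d2 : DifferentiableAt ℝ (fun v => (nsq (L v) : ℂ)) v :=
      ofRealCLM.differentiableAt.comp v
        ((contDiff_nsq.differentiable (by simp) _).comp v dL.differentiableAt)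
    exact d1.mul (d2.inv hn)
  have h1 := ((colL k).hasFDerivAt.comp v (diffAt hU hv).hasFDerivAt).fderiv
  have h2 := e.fderiv_eq.trans (dc.hasFDerivAt.smul dL).fderiv
  have h3 : colL k (fderiv ℝ U v w) = fderiv ℝ c v w • L v + c v • L w :=
    (congrArg (fun T => T w) (h1.symm.trans h2)).trans (add_comm _ _)
  rw [h3, e0 v hv, al_scale (h v hv).1 (div_ne_zero (by simpa using hLk) hn)]
  by_cases h4 : L v 2 = 0
  · rw [al_of_zero h4]; rfl
  · rw [al_apply h4, hL v w]; simp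

lemma rho_of_exp {t : ℝ} (h : exp (2 * Real.pi * I * rho t) = -1) : rho t = 1 / 2 := by
  have hm : rho t ∈ Icc (0 : ℝ) 1 := stp_mem _ _ _
  rw [← exp_pi_mul_I, exp_eq_exp_iff_exists_int] at h
  obtain ⟨n, hn⟩ := h
  have h1 : (Real.pi * I : ℂ) ≠ 0 := mul_ne_zero (ofReal_ne_zero.2 Real.pi_ne_zero) I_ne_zero
  have h2 : ((2 * rho t : ℝ) : ℂ) = ((1 + 2 * n : ℝ) : ℂ) := by
    refine mul_left_cancel₀ h1 ?_
    push_cast
    linear_combination hn
  have h3 := ofReal_injective h2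
  have h4 : (-1 : ℝ) < n := by linarith [hm.1]
  have h5 : (n : ℝ) < 1 := by linarith [hm.2]
  have h6 : n = 0 := by
    have : (-1 : ℤ) < n := by exact_mod_cast h4
    have : n < 1 := by exact_mod_cast h5
    omega
  rw [h6] at h3
  push_cast at h3
  linarith

/-- the point of the positive oval where `aa = -1` -/
lemma oval {j : ℤ} {xs s t : ℝ} (hx : Root xs) (ht : 0 ≤ t) {a : ℂ}
    (hN : NN j ![s, t, 1] a j = 0) (ha : aa ![s, t, 1] = -1) : s = xs ∧ t = ys := by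
  have hn : (![s, t, 1] : C3) ≠ 0 := fun h => by simpa using congrFun h 2
  obtain ⟨h0, h1⟩ := (near_cubic hn (j := j) (a := a) (T := j)
    (by rw [hN, nsq_eq_zero.2 rfl]; norm_num)).2.2 (by rw [ha]; norm_num)
  have h2 := rho_half.1 (rho_of_exp (h1.symm.trans ha))
  have h3 : t = ys := by
    have : t ^ 2 = ys ^ 2 := by rw [ys_sq, ← h2]; simp [r1]
    exact (pow_left_inj₀ ht ys_pos.le two_ne_zero).1 this
  have h4 : s ^ 2 < 1 / 4 := by simpa [r0] using h0
  have h5 : cuf s t = 0 := by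
    have := cub_chart (n := ![s, t, 1]) (k := 2) (by simp)
    rw [((NN_eq_zero hn).1 hN).1] at this
    simpa [Fin.succAbove] using this.symm
  refine ⟨ofReal_injective (cuf_uniq (y := ys) ?_ ?_ ?_ (by rw [hx.2.2, ← h3, h5])), h3⟩
  · rw [norm_real, Real.norm_eq_abs, ← sq_le_one_iff_abs_le_one]; linarith
  · rw [norm_real, Real.norm_of_nonneg hx.1.le]; linarith [hx.2.1]
  · rw [norm_real, Real.norm_of_nonneg ys_pos.le]
    exact (pow_le_pow_iff_left₀ (by norm_num) ys_pos.le two_ne_zero).1 (by rw [ys_sq]; norm_num)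

lemma coef_ne {xs : ℝ} (hx : Root xs) : (1 + xs + ys : ℂ) ≠ 0 := by
  have : (0 : ℝ) < 1 + xs + ys := by linarith [hx.1, ys_pos]
  exact_mod_cast this.ne'

lemma Us_SO (h3 : Expl1Stmt) (j : ℤ) {xs : ℝ} (hx : Root xs) {v : C2} (hv : v.1 ≠ 0) :
    Us j xs v ∈ SO := by
  obtain ⟨k1, k2⟩ := (h3 j xs hx).1 v fun h => hv (by rw [h]; rfl)
  refine ⟨nl xs v, -1, j, k1, by simp, ?_, ?_⟩
  · rw [round_intCast]; exact fun h => hv (k2.1 h)
  · rw [lift, round_intCast, Us, if_neg hv]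

lemma e0_of {n : C3} (hn : n ≠ 0) (h : prj n = prj ![1, 0, 0]) : n 1 = 0 ∧ n 2 = 0 := by
  have h0 : (![1, 0, 0] : C3) ≠ 0 := fun h => by simpa using congrFun h 0
  obtain ⟨c, -, rfl⟩ := (prj_eq_iff h0 hn).1 h.symm
  simp

lemma part2 (h3 : Expl1Stmt) (j : ℤ) {xs : ℝ} (hx : Root xs) (A : C2 ≃L[ℂ] C2)
    (k0 : Us j xs (A (mk3 0)) ∈ ZZ j) (k1 : Us j xs (A (mk3 1)) ∈ DD)
    (k2 : Us j xs (A (mk3 2)) = vert j) (v : C2) (hv : v ≠ 0) : Us j xs (A v) = Us j xs v := by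
  have hA : ∀ m, A (mk3 m) ≠ 0 := fun m h => mk3_ne m (A.map_eq_zero_iff.1 h)
  have q0 : (A (0, 1)).1 = 0 := by
    by_contra h
    exact disjoint_left.1 disjoint_SO_EE (Us_SO h3 j hx h) ((ZZ_sub j).1 k0)
  have q2 : (A (1, 0)).2 = 0 :=
    (e0_of ((h3 j xs hx).1 _ (hA 2)).1 (congrArg (fun x : VV => x.1.1) k2)).2
  have q1 : (A (1, 1)).1 = (A (1, 1)).2 := by
    have := (mem_DD ((h3 j xs hx).1 _ (hA 1)).1 _ _ _).1 k1
    refine mul_left_cancel₀ (coef_ne hx) ?_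
    change -(1 + xs + ys) * (A (1, 1)).1 + xs * (A (1, 1)).2 + ys * (A (1, 1)).2 +
      (A (1, 1)).2 = (0 : ℂ) at this
    linear_combination -this
  have e : ∀ w : C2, A w = w.1 • A (1, 0) + w.2 • A (0, 1) := fun w => by
    rw [← map_smul, ← map_smul, ← map_add]; congr 1; ext <;> simp
  rw [e (1, 1)] at q1
  simp only [one_smul, Prod.fst_add, Prod.snd_add, q0, q2, add_zero, zero_add] at q1
  have e2 : ∀ w : C2, A w = (A (1, 0)).1 • w := fun w => by
    rw [e w]; ext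
    · simp [q0, mul_comm]
    · simp [q2, q1, mul_comm]
  have hc : (A (1, 0)).1 ≠ 0 := fun h => hA 2 (by rw [e2, h, zero_smul])
  rw [e2, (h3 j xs hx).2.2.2.1.inv _ hc v hv]

/-- the sphere of degree one is the explicit one -/
lemma main (h3 : Expl1Stmt) {j : ℤ} {xs : ℝ} (hx : Root xs) {U : C2 → VV} (hU : Map2 SS U)
    {L : C2 →L[ℂ] C3} (h : ∀ v, v ≠ 0 → L v ≠ 0 ∧ (U v).1.1 = prj (L v))
    (hL : ∀ v, L v 1 = ys * L v 2) (hT : ∀ v, v ≠ 0 → (U v).2 = j ∧ aL (U v) = -1) :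
    ∃ A : C2 ≃L[ℂ] C2, ∀ v, v ≠ 0 → U v = Us j xs (A v) := by
  let p : Fin 3 → C2 →ₗ[ℂ] ℂ := fun i => (LinearMap.proj i).comp L.toLinearMap
  let A₀ : C2 →ₗ[ℂ] C2 := ((1 + xs + ys : ℂ)⁻¹ • ((xs : ℂ) • p 2 - p 0)).prod (p 2)
  have e : ∀ v, nl xs (A₀ v) = L v := fun v => by
    have hc := coef_ne hx
    funext i
    fin_cases i
    · change -(1 + xs + ys : ℂ) * ((1 + xs + ys : ℂ)⁻¹ * (xs * L v 2 - L v 0)) + xs * L v 2 = L v 0
      field_simp
      ring
    · exact (hL v).symm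
    · rfl
  have hi : Function.Injective A₀ := (injective_iff_map_eq_zero _).2 fun v hv => by
    by_contra hne
    refine (h v hne).1 ?_
    rw [← e, hv]
    funext i
    fin_cases i <;> simp [nl]
  let A : C2 ≃L[ℂ] C2 := (LinearEquiv.ofInjectiveEndo A₀ hi).toContinuousLinearEquiv
  have eA : ∀ v, nl xs (A v) = L v := e
  have key : ∀ v, v ≠ 0 → (A v).1 ≠ 0 → U v = Us j xs (A v) := fun v hv h1 =>
    SO_ext (Us_SO h3 j hx h1) (hU.mem v hv) (by rw [(h v hv).2, ← eA]; rfl) (hT v hv).2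
      (hT v hv).1
  refine ⟨A, fun v hv => ?_⟩
  have hp : A.symm (0, 1) ≠ 0 := fun h0 => by simpa using A.symm.map_eq_zero_iff.1 h0
  have hAv : A v ≠ 0 := fun h0 => hv (A.map_eq_zero_iff.1 h0)
  refine tendsto_nhds_unique_of_frequently_eq (diffAt hU hv).continuousAt.tendsto
    (((h3 j xs hx).2.2.1 _ hAv).continuousAt.comp A.continuous.continuousAt).tendsto
    ((mem_closure_iff_frequently.1 (dense_not_par hp hv)).mono fun w hw =>
      key w hw.1 fun h0 => hw.2 ⟨(A w).2, ?_⟩)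
  rw [← map_smul, ContinuousLinearEquiv.eq_symm_apply]
  ext <;> simp [h0]

end ClassP

open ClassP in
theorem class_of (h1 : DegStmt) (h2 : SliceStmt) (h3 : Expl1Stmt) (h4 : Expl2Stmt)
    (h5 : MobStmt) (_h6 : GcompStmt) : ClassStmt := by
  intro j xs hx
  refine ⟨fun b₀ ε O M π om h J₀ hG hM T₀ k U hC hT => ?_, part2 h3 j hx⟩
  have hS : ∀ i, Map2 SS (U i) := fun i =>
    ⟨(hC.sph i).1.sm, (hC.sph i).1.inv, fun v hv => hG.real.sub ((hC.sph i).1.mem v hv)⟩
  have hB := fun i => (h1 b₀ ε O M π om h J₀ hG (U i) (hC.sph i).1).1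
  choose d hd hd0 hd1 using fun i => (h1 b₀ ε O M π om h J₀ hG (U i) (hC.sph i).1).2.1
  have hsum : ∑ i, d i = 1 := by
    have := hC.arh
    simp only [hd] at this
    exact_mod_cast this
  obtain ⟨i₀, hi₀, hz⟩ : ∃ i₀, d i₀ = 1 ∧ ∀ i, i ≠ i₀ → d i = 0 := by
    obtain ⟨i₀, -, h0⟩ := Finset.exists_ne_zero_of_sum_ne_zero (hsum.trans_ne one_ne_zero)
    refine ⟨i₀, ?_, fun i hi => ?_⟩
    · have := Finset.single_le_sum (f := d) (fun _ _ => Nat.zero_le _) (Finset.mem_univ i₀)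
      omega
    · have := Finset.sum_le_sum_of_subset (f := d) (Finset.subset_univ {i, i₀})
      rw [Finset.sum_pair hi] at this
      omega
  obtain ⟨L, hL⟩ := hd1 i₀ hi₀
  choose! P hP using fun i hi => hd0 i (hz i hi)
  have hE : ∀ i, i ≠ i₀ → ∀ v, v ≠ 0 → U i v ∈ EE := fun i hi v hv =>
    ((hS i).mem v hv).resolve_left fun hO => by
      have lv := level h2 (hS i) (hB i) (hT i) (fun v hv k _ => al_zero (hS i) (hP i hi) v hv k)
        v hv
      have : ∀ v', v' ≠ 0 → U i v' = U i v := fun v' hv' =>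
        SO_ext hO ((hS i).mem v' hv') (by rw [hP i hi v hv, hP i hi v' hv']) (lv v' hv').2
          (lv v' hv').1
      obtain ⟨a, ha, b, hb, hne⟩ := (hC.sph i).2
      exact hne (by rw [this a ha, this b hb])
  obtain ⟨v₁, hv₁, hp⟩ : ∃ v₁, v₁ ≠ 0 ∧ U i₀ v₁ = vert T₀ := by
    obtain ⟨i, v, hv, hp⟩ := hC.hitp
    rcases eq_or_ne i i₀ with rfl | hi
    · exact ⟨v, hv, hp⟩
    · exact (disjoint_left.1 disjoint_SO_EE (vert_mem T₀).1 (hp ▸ hE i hi v hv)).elim
  obtain ⟨z1, z2⟩ := e0_of (hL v₁ hv₁).1 (by rw [← (hL v₁ hv₁).2, hp]; rfl)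
  have hdet : ∀ v w, L w 1 * L v 2 = L v 1 * L w 2 := fun v w => by
    obtain ⟨a, b, rfl⟩ := hor_decomp hv₁ v
    obtain ⟨a', b', rfl⟩ := hor_decomp hv₁ w
    simp only [map_add, map_smul, Pi.add_apply, Pi.smul_apply, smul_eq_mul, z1, z2]
    ring
  have lv := level h2 (hS i₀) (hB i₀) (hT i₀) (al_one (hS i₀) hL hdet) v₁ hv₁
  rw [hp] at lv
  have hcl : ∀ i, IsClosed (im (U i)) := fun i =>
    ((hS i).inv.isCompact_im (hS i).sm.continuousOn).1.isClosed
  have hG' : ∀ i, i ≠ i₀ → ∃ v, v ≠ 0 ∧ U i₀ v ∈ EE ∧ (U i₀ v).1.1 = P i := by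
    let G : Fin k → Prop := fun i => i = i₀ ∨ ∃ v, v ≠ 0 ∧ U i₀ v ∈ EE ∧ (U i₀ v).1.1 = P i
    by_contra hn
    obtain ⟨i, hi⟩ : ∃ i, ¬ G i := by
      by_contra h0
      exact hn fun i hi => (not_not.1 (not_exists.1 h0 i)).resolve_left hi
    obtain ⟨x, -, hx1, hx2⟩ := isPreconnected_closed_iff.1 hC.conn.isPreconnected
      (⋃ i, ⋃ _ : G i, im (U i)) (⋃ i, ⋃ _ : ¬ G i, im (U i))
      (isClosed_iUnion_of_finite fun i => isClosed_iUnion_of_finite fun _ => hcl i)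
      (isClosed_iUnion_of_finite fun i => isClosed_iUnion_of_finite fun _ => hcl i)
      (iUnion_subset fun i x hx => (em (G i)).imp (fun h => mem_iUnion₂.2 ⟨i, h, hx⟩)
        fun h => mem_iUnion₂.2 ⟨i, h, hx⟩)
      ⟨_, mem_iUnion.2 ⟨i₀, v₁, hv₁, rfl⟩, mem_iUnion₂.2 ⟨i₀, Or.inl rfl, v₁, hv₁, rfl⟩⟩
      ⟨_, mem_iUnion.2 ⟨i, v₁, hv₁, rfl⟩, mem_iUnion₂.2 ⟨i, hi, v₁, hv₁, rfl⟩⟩
    obtain ⟨a, ha, v, hv, rfl⟩ := mem_iUnion₂.1 hx1
    obtain ⟨b, hb, w, hw, hvw⟩ := mem_iUnion₂.1 hx2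
    have hb0 : b ≠ i₀ := fun h => hb (Or.inl h)
    refine hb (Or.inr ?_)
    rcases eq_or_ne a i₀ with rfl | ha0
    · exact ⟨v, hv, hvw ▸ hE b hb0 w hw, by rw [← hvw, hP b hb0 w hw]⟩
    · rw [← hP b hb0 w hw, hvw, hP a ha0 v hv]
      exact ha.resolve_left ha0
  obtain ⟨i, v, hv, hZ⟩ := hC.hitZ
  obtain ⟨v₂, hv₂, hE₂, hP₂⟩ : ∃ v₂, v₂ ≠ 0 ∧ U i₀ v₂ ∈ EE ∧ (U i₀ v₂).1.1 = (U i v).1.1 := by
    rcases eq_or_ne i i₀ with rfl | hi
    · exact ⟨v, hv, (ZZ_sub j).1 hZ, rfl⟩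
    · rw [hP i hi v hv]; exact hG' i hi
  obtain ⟨s, t, a, p, q, -, ht, -, hN, -, hZe⟩ := hZ
  obtain ⟨n, a', j', p', q', hn, ha', hN', -, he⟩ := hE₂
  have hs0 : (![s, t, 1] : C3) ≠ 0 := fun h => by simpa using congrFun h 2
  have t1 : (j' : ℝ) = T₀ := by have := (lv v₂ hv₂).1; rw [he] at this; exact this
  have t2 : a' = -1 := by have := (lv v₂ hv₂).2; rw [he] at this; exact this
  have t3 : j' = j := by
    have := abs_le.1 (hT i₀ v₂ hv₂)
    rw [he] at this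
    have k1 : (j' : ℝ) - j < 1 := by have := this.2; change (j' : ℝ) - j ≤ _ at this; linarith
    have k2 : (-1 : ℝ) < j' - j := by have := this.1; change _ ≤ (j' : ℝ) - j at this; linarith
    have k3 : j' - j < 1 := by exact_mod_cast k1
    have k4 : -1 < j' - j := by exact_mod_cast k2
    omega
  rw [hZe] at hP₂
  have t4 : aa ![s, t, 1] = -1 := by
    have : prj n = prj ![s, t, 1] := by rw [he] at hP₂; exact hP₂
    obtain ⟨c, hc, e⟩ := (prj_eq_iff hn hs0).1 this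
    rw [e, aa_smul hc, ← (wall_of_NN hn ha' hN').2, t2]
  obtain ⟨-, rfl⟩ := oval hx ht hN t4
  obtain ⟨c, hc, e⟩ := (prj_eq_iff hs0 (hL v₂ hv₂).1).1 (by rw [← (hL v₂ hv₂).2, hP₂]; rfl)
  have hT₀ : T₀ = j := by rw [← t1, t3]
  obtain ⟨A, hA⟩ := main h3 (j := j) hx (hS i₀) hL (fun w => by
    have := hdet w v₂
    rw [e] at this
    refine mul_left_cancel₀ hc ?_
    change c * ys * L w 2 = L w 1 * (c * 1) at this
    linear_combination -this) fun w hw => ⟨(lv w hw).1.trans hT₀, (lv w hw).2⟩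
  have har : area om (U i₀) = 1 - ε := by
    have e1 : aff (U i₀) = aff (Us j xs ∘ A) := funext fun z => hA _ (by simp)
    rw [← (h4 j xs b₀ ε O M π om h J₀ hx hG hM).2,
      ← ((h5 VV).2.2.1 SS _ A (h3 j xs hx).2.2.2.1).2.2.2.2.2 om
        hG.amb.smo.continuous.continuousOn hG.amb.ano, area, area, e1]
  have hpos := fun i => (h5 VV).2.2.2.1 M om J₀ (U i) hG.amb.smo.continuous hG.tame (hC.sph i).1
  have all : ∀ i, i = i₀ := fun i => by
    by_contra hi
    have := Finset.sum_le_sum_of_subset_of_nonneg (f := fun i => area om (U i))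
      (Finset.subset_univ {i, i₀}) fun i _ _ => (hpos i).2.1
    rw [Finset.sum_pair hi, hC.aro, har] at this
    linarith [(hpos i).2.2 (hC.sph i).2]
  refine ⟨?_, hT₀, fun i => by rw [all i]; exact ⟨A, hA⟩⟩
  simpa using Fintype.card_eq_one_iff.2 ⟨i₀, all⟩

end

end Pool.Agent.MP_9758ca_gt

end

section

/-!
PROJECT BALL, module HOLLINE: a holomorphic map from the projective line to the projective plane
has a holomorphic homogeneous lift, whose degree is the area.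
-/

open scoped Topology ContDiff ComplexConjugate
open Set Metric Filter Complex MeasureTheory

namespace Pool.Agent.MP_9758ca_gt

namespace HollineP

noncomputable section

/-- homogeneity of degree `k` -/
def HomK (k : ℤ) (n : C2 → C3) : Prop := ∀ c : ℂ, c ≠ 0 → ∀ v, v ≠ 0 → n (c • v) = c ^ k • n v

theorem rep_const (k : ℤ) (c : ℂ) (a : C3) : rep (fun _ => k) c a = c ^ k • a :=
  funext fun i => by rw [rep_apply]; rfl

theorem repY_const (k : ℤ) (c : ℂ) (a : C3) :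
    repY (fun _ => k) c a = (c ^ k * (c / conj c)) • a :=
  funext fun i => by rw [repY_apply]; rfl

theorem HomK.hom {k : ℤ} {n : C2 → C3} (h : HomK k n) : Hom (rep fun _ => k) n :=
  fun c hc v hv => by rw [rep_const, h c hc v hv]

theorem HomK.euler {k : ℤ} {n : C2 → C3} (h : HomK k n) {v : C2} (hv : v ≠ 0)
    (hd : DifferentiableAt ℝ n v) (c : ℂ) : fderiv ℝ n v (c • v) = ((k : ℂ) * c) • n v :=
  funext fun i => by rw [h.hom.euler hv hd c i]; rfl

/-! ### the smooth lift -/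

/-- a matrix as a real-linear map -/
def mv (A : M3) : En0 C3 :=
  ContinuousLinearMap.pi fun i => ∑ k, (mulC (A i k)).comp (ContinuousLinearMap.proj k)

theorem mv_apply (A : M3) (x : C3) (i : Fin 3) : mv A x i = ∑ k, A i k * x k := by
  simp [mv, mulC_apply]

theorem mv_prj (n a : C3) : mv (prj n) a = (her n a / (nsq n : ℂ)) • n :=
  funext fun i => by rw [mv_apply, prj_mulVec]; rfl

theorem nsq_ne {n : C3} (hn : n ≠ 0) : (nsq n : ℂ) ≠ 0 := by
  exact_mod_cast (nsq_pos hn).ne'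

theorem mv_prj_smul {n : C3} (hn : n ≠ 0) (c : ℂ) : mv (prj n) (c • n) = c • n := by
  rw [mv_prj, her_smul_right, her_self, mul_div_assoc, div_self (nsq_ne hn), mul_one]

theorem rank_prj {n : C3} (hn : n ≠ 0) : Module.finrank ℝ (mv (prj n)).range = 2 := by
  let L : ℂ →ₗ[ℝ] C3 := (LinearMap.toSpanSingleton ℂ C3 n).restrictScalars ℝ
  have hL : ∀ c, L c = c • n := fun c => rfl
  have hi : Function.Injective L := fun a b h => smul_left_injective ℂ hn h
  have e : (mv (prj n)).range = L.range := by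
    ext x
    constructor
    · rintro ⟨a, rfl⟩
      exact ⟨_, (mv_prj n a).symm⟩
    · rintro ⟨c, rfl⟩
      exact ⟨c • n, mv_prj_smul hn c⟩
  rw [e, LinearMap.finrank_range_of_inj hi, Complex.finrank_real_complex]

theorem exists_lift (h1 : LineStmt) {P : C2 → M3} (hs : ContDiffOn ℝ 2 P nz) (hi : Inv P)
    (hp : ∀ v, v ≠ 0 → ∃ n : C3, n ≠ 0 ∧ P v = prj n) :
    ∃ (k : ℤ) (e : C2 → C3), ContDiffOn ℝ 2 e nz ∧ HomK k e ∧
      ∀ v, v ≠ 0 → e v ≠ 0 ∧ P v = prj (e v) := by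
  let J : En0 C3 := ContinuousLinearMap.lsmul ℝ ℂ I
  have hJ : ∀ x, J x = I • x := fun x => rfl
  have key := h1 C3 (fun v => mv (P v)) (fun _ => J) ?_ contDiffOn_const
    (fun c hc v hv => congrArg mv (hi c hc v hv)) (fun _ _ _ _ => rfl) ?_
  · obtain ⟨k, e, he, h⟩ := key
    refine ⟨k, e, he, fun c hc v hv => ?_, fun v hv => ⟨(h v hv).1, ?_⟩⟩
    · rw [(h v hv).2.2 c hc, hJ]
      ext i
      simp only [Pi.add_apply, Pi.smul_apply, real_smul, smul_eq_mul]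
      conv_rhs => rw [← re_add_im (c ^ k)]
      ring
    · obtain ⟨n, hn, hP⟩ := hp v hv
      have e1 := (h v hv).2.1
      simp only [hP, mv_prj] at e1
      rw [hP]
      refine (prj_eq_iff hn (h v hv).1).2 ⟨_, fun h0 => (h v hv).1 ?_, e1.symm⟩
      rw [← e1, h0, zero_smul]
  · refine contDiffOn_clm_apply.2 fun x => contDiffOn_pi.2 fun i => ?_
    simp only [mv_apply]
    exact ContDiffOn.sum fun k _ =>
      (contDiffOn_pi.1 (contDiffOn_pi.1 hs i) k).mul contDiffOn_const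
  · intro v hv
    obtain ⟨n, hn, hP⟩ := hp v hv
    rw [hP]
    refine ⟨fun x => ⟨?_, ?_, ?_⟩, rank_prj hn⟩
    · rw [hJ x, hJ, smul_smul, I_mul_I, neg_one_smul]
    · rw [mv_prj n x, mv_prj_smul hn]
    · rw [hJ x, mv_prj n x, mv_prj n (I • x), hJ, her_smul_right, smul_smul, mul_div_assoc]

/-! ### the holomorphic lift -/

theorem db_congr {F : Type} [NormedAddCommGroup F] [NormedSpace ℂ F] {f g : C2 → F} {v : C2}
    (h : f =ᶠ[𝓝 v] g) : db f v = db g v := by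
  rw [db, db, h.fderiv_eq]

theorem db_smul {φ : C2 → ℂ} {e : C2 → C3} {v : C2} (hφ : DifferentiableAt ℝ φ v)
    (he : DifferentiableAt ℝ e v) : db (fun w => φ w • e w) v = φ v • db e v + db φ v • e v := by
  rw [db, db, db, (hφ.hasFDerivAt.fun_smul he.hasFDerivAt).fderiv]
  simp only [add_apply, smul_apply, ContinuousLinearMap.smulRight_apply, smul_add, add_smul,
    smul_smul, smul_eq_mul, mul_comm I]
  abel

theorem db_exp {u : C2 → ℂ} {v : C2} (hu : DifferentiableAt ℝ u v) :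
    db (fun w => exp (-u w)) v = -(exp (-u v) * db u v) := by
  have h : HasFDerivAt (fun w => exp (-u w)) (exp (-u v) • -fderiv ℝ u v) v :=
    (Complex.hasDerivAt_exp (-u v)).comp_hasFDerivAt v hu.hasFDerivAt.fun_neg
  rw [db, db, h.fderiv]
  simp only [smul_apply, neg_apply, smul_eq_mul]
  ring

theorem db_par {P : C2 → M3} {e : C2 → C3} (he : ContDiffOn ℝ 2 e nz)
    (hP : ∀ v, v ≠ 0 → e v ≠ 0 ∧ P v = prj (e v))
    (hd : ∀ v, v ≠ 0 → ∀ i k, P v k k ≠ 0 → DifferentiableAt ℂ (fun w => P w i k / P w k k) v)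
    {v : C2} (hv : v ≠ 0) : ∃ s : ℂ, db e v = s • e v := by
  obtain ⟨k, hk⟩ := Function.ne_iff.1 (hP v hv).1
  replace hk : e v k ≠ 0 := hk
  have de : DifferentiableAt ℝ e v := (he.contDiffAt (nz_mem_nhds hv)).differentiableAt (by simp)
  have dk : DifferentiableAt ℝ (fun w => e w k) v := differentiableAt_pi.1 de k
  have dρ : DifferentiableAt ℂ (fun w i => P w i k / P w k k) v := differentiableAt_pi.2 fun i =>
    hd v hv i k (by rw [(hP v hv).2]; exact prj_diag_ne.2 hk)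
  have e1 : ∀ w, w ≠ 0 → e w k ≠ 0 → e w = e w k • fun i => P w i k / P w k k := by
    intro w hw h0
    ext i
    rw [Pi.smul_apply, (hP w hw).2, prj_ratio h0, smul_eq_mul, mul_div_cancel₀ _ h0]
  have e2 : e =ᶠ[𝓝 v] fun w => e w k • fun i => P w i k / P w k k := by
    filter_upwards [nz_mem_nhds hv, dk.continuousAt.eventually_ne hk] with w hw h0
    exact e1 w hw h0
  refine ⟨db (fun w => e w k) v / e v k, ?_⟩
  rw [db_congr e2, db_smul dk (dρ.restrictScalars ℝ), db_of_differentiableAt dρ, smul_zero,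
    zero_add]
  refine Eq.trans ?_ (congrArg (fun x => (db (fun w => e w k) v / e v k) • x) (e1 v hv hk)).symm
  rw [smul_smul, div_mul_cancel₀ _ hk]

theorem exists_g {k : ℤ} {e : C2 → C3} (he : ContDiffOn ℝ 2 e nz) (hk : HomK k e)
    (h0 : ∀ v, v ≠ 0 → e v ≠ 0) (hs : ∀ v, v ≠ 0 → ∃ s : ℂ, db e v = s • e v) :
    ∃ g : C2 → ℂ, YH (repY1 0) g ∧ ∀ v, v ≠ 0 → db e v = g v • e v := by
  choose! g hg using hs
  have hx := xh_of_contDiffOn hk.hom he
  refine ⟨g, ⟨fun c hc v hv => ?_, fun v hv => ?_⟩, hg⟩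
  · have h1 := hx.db3.1 c hc v hv
    rw [repY_const, hg _ (smul_ne_zero hc hv), hg v hv, hk c hc v hv, smul_smul, smul_smul] at h1
    have h2 := smul_left_injective ℂ (h0 v hv) h1
    rw [repY1_apply, zpow_zero, one_mul]
    refine mul_right_cancel₀ (zpow_ne_zero k hc) ?_
    rw [h2]; ring
  · obtain ⟨i, hi⟩ := Function.ne_iff.1 (h0 v hv)
    replace hi : e v i ≠ 0 := hi
    have hsub : ({v} : Set C2) ⊆ nz := singleton_subset_iff.2 hv
    have h1 : LocH (fun w => (fun q : C3 × C3 => q.2 i / q.1 i) (e w, db e w)) {v} :=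
      ((hx.yh.2.prod hx.db3.2).mono hsub).post fun w hw => by
        rw [mem_singleton_iff.1 hw]
        have a1 : ContDiffAt ℂ 1 (fun q : C3 × C3 => q.2 i) (e v, db e v) := by fun_prop
        have a2 : ContDiffAt ℂ 1 (fun q : C3 × C3 => q.1 i) (e v, db e v) := by fun_prop
        exact (a1.div a2 hi).restrict_scalars ℝ
    refine (h1.congr fun w hw => ?_) v rfl
    rw [mem_singleton_iff.1 hw]
    have hc : ContinuousAt (fun w => e w i) v :=
      (continuous_apply i).continuousAt.comp (he.continuousOn.continuousAt (nz_mem_nhds hv))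
    filter_upwards [nz_mem_nhds hv, hc.eventually_ne hi] with w hw h2
    rw [hg w hw, Pi.smul_apply, smul_eq_mul, mul_div_cancel_right₀ _ h2]

theorem exists_phi (h2 : Std1Stmt) {k : ℤ} {e : C2 → C3} (he : ContDiffOn ℝ 2 e nz)
    (hk : HomK k e) {g : C2 → ℂ} (hg : YH (repY1 0) g) (hs : ∀ v, v ≠ 0 → db e v = g v • e v) :
    ∃ φ : C2 → ℂ, (∀ v, φ v ≠ 0) ∧ HomK k (fun v => φ v • e v) ∧
      ∀ v, v ≠ 0 → DifferentiableAt ℂ (fun v => φ v • e v) v := by
  obtain ⟨n, p, γ, q, R, c, C, -, hn, -, -, -, hR, -⟩ := h2 0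
  obtain rfl : n = 0 := hn (by norm_num)
  obtain ⟨hx, hu⟩ := hR g hg
  have hh : HomK k fun v => exp (-R g v) • e v := fun a ha v hv => by
    have := hx.1 a ha v hv
    rw [rep1_apply, zpow_zero, one_mul] at this
    simp only [this, hk a ha v hv]
    exact smul_comm _ _ _
  refine ⟨fun v => exp (-R g v), fun v => exp_ne_zero _, hh, fun v hv => ?_⟩
  have de : DifferentiableAt ℝ e v := (he.contDiffAt (nz_mem_nhds hv)).differentiableAt (by simp)
  have du : DifferentiableAt ℝ (fun w => exp (-R g w)) v := (hx.2.1 v hv).fun_neg.cexp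
  have dn : DifferentiableAt ℝ (fun w => exp (-R g w) • e w) v := du.fun_smul de
  refine differentiableAt_of_db hv dn ?_ ?_
  · have h3 : db (R g) v = g v := by simpa using hu v hv
    rw [db_smul du de, db_exp (hx.2.1 v hv), h3, hs v hv, smul_smul, neg_smul, add_neg_cancel]
  · have h3 := hh.euler hv dn 1
    rw [one_smul] at h3
    rw [hh.euler hv dn I, h3, smul_smul I, mul_one, mul_comm]

/-! ### holomorphic homogeneous maps -/

section Hol
variable {k : ℤ} {n : C2 → C3}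

theorem HomK.chart (h : HomK k n) {v : C2} (hv : v.2 ≠ 0) :
    n v = v.2 ^ k • aff n (v.1 / v.2) := by
  rw [aff, ← h _ hv _ (by simp)]
  congr 1
  ext
  · simp [mul_div_cancel₀ _ hv]
  · simp

theorem HomK.chart' (h : HomK k n) {v : C2} (hv : v.1 ≠ 0) :
    n v = v.1 ^ k • aff' n (v.2 / v.1) := by
  rw [aff', ← h _ hv _ (by simp)]
  congr 1
  ext
  · simp
  · simp [mul_div_cancel₀ _ hv]

theorem diff_aff (hd : ∀ v, v ≠ 0 → DifferentiableAt ℂ n v) : Differentiable ℂ (aff n) :=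
  fun z => (hd (z, 1) (by simp)).comp z (f := fun z : ℂ => (z, (1 : ℂ))) (by fun_prop)

theorem diff_aff' (hd : ∀ v, v ≠ 0 → DifferentiableAt ℂ n v) : Differentiable ℂ (aff' n) :=
  fun z => (hd (1, z) (by simp)).comp z (f := fun z : ℂ => ((1 : ℂ), z)) (by fun_prop)

theorem HomK.analyticAt (h : HomK k n) (hd : ∀ v, v ≠ 0 → DifferentiableAt ℂ n v) {v : C2}
    (hv : v ≠ 0) : AnalyticAt ℂ n v := by
  by_cases h2 : v.2 = 0
  · have h1 : v.1 ≠ 0 := fun h1 => hv (Prod.ext h1 h2)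
    have a : AnalyticAt ℂ (fun w : C2 => w.1 ^ k • aff' n (w.2 / w.1)) v :=
      (analyticAt_fst.zpow h1).smul (((diff_aff' hd).analyticAt _).comp
        (f := fun w : C2 => w.2 / w.1) (analyticAt_snd.div analyticAt_fst h1))
    refine a.congr ?_
    filter_upwards [continuousAt_fst.eventually_ne h1] with w hw using (h.chart' hw).symm
  · have a : AnalyticAt ℂ (fun w : C2 => w.2 ^ k • aff n (w.1 / w.2)) v :=
      (analyticAt_snd.zpow h2).smul (((diff_aff hd).analyticAt _).comp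
        (f := fun w : C2 => w.1 / w.2) (analyticAt_fst.div analyticAt_snd h2))
    refine a.congr ?_
    filter_upwards [continuousAt_snd.eventually_ne h2] with w hw using (h.chart hw).symm

theorem ev_ne : ∀ᶠ z : ℂ in cocompact ℂ, z ≠ 0 :=
  (isCompact_singleton (x := (0 : ℂ))).compl_mem_cocompact

theorem tendsto_inv : Tendsto (fun z : ℂ => z⁻¹) (cocompact ℂ) (𝓝 0) := by
  rw [← Metric.cobounded_eq_cocompact]
  exact tendsto_inv₀_cobounded

theorem HomK.at_inf (h : HomK k n) : ∀ᶠ z : ℂ in cocompact ℂ, aff n z = z ^ k • aff' n z⁻¹ := by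
  filter_upwards [ev_ne] with z hz
  simpa [aff] using h.chart' (v := (z, 1)) hz

theorem tendsto_inf (hd : ∀ v, v ≠ 0 → DifferentiableAt ℂ n v) :
    Tendsto (fun z : ℂ => aff' n z⁻¹) (cocompact ℂ) (𝓝 (n (1, 0))) :=
  ((diff_aff' hd).continuous.tendsto 0).comp tendsto_inv

theorem HomK.nonneg (h : HomK k n) (hd : ∀ v, v ≠ 0 → DifferentiableAt ℂ n v)
    (h0 : n (0, 1) ≠ 0) : 0 ≤ k := by
  by_contra hk
  obtain ⟨m, rfl⟩ : ∃ m : ℕ, k = -((m + 1 : ℕ) : ℤ) := ⟨(-k - 1).toNat, by omega⟩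
  have t : Tendsto (fun z : ℂ => z⁻¹ ^ (m + 1) • aff' n z⁻¹) (cocompact ℂ)
      (𝓝 ((0 : ℂ) ^ (m + 1) • n (1, 0))) := (tendsto_inv.pow _).smul (tendsto_inf hd)
  rw [zero_pow (by omega), zero_smul] at t
  refine h0 ((diff_aff hd).apply_eq_of_tendsto_cocompact 0 (t.congr' ?_))
  filter_upwards [h.at_inf] with z hz
  rw [hz, zpow_neg, zpow_natCast, inv_pow]

theorem HomK.ext (h : HomK k n) {L : C2 → C3} (hL : HomK k L) (h1 : ∀ z, aff n z = L (z, 1))
    (h2 : n (1, 0) = L (1, 0)) {v : C2} (hv : v ≠ 0) : n v = L v := by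
  by_cases h0 : v.2 = 0
  · have h3 : v.1 ≠ 0 := fun h1 => hv (Prod.ext h1 h0)
    rw [h.chart' h3, hL.chart' h3, h0, zero_div, aff', aff', h2]
  · rw [h.chart h0, hL.chart h0, h1, aff]

theorem HomK.const (h : HomK 0 n) (hd : ∀ v, v ≠ 0 → DifferentiableAt ℂ n v) {v : C2}
    (hv : v ≠ 0) : n v = n (1, 0) := by
  refine h.ext (L := fun _ => n (1, 0)) (fun c _ v _ => by simp) (fun z => ?_) rfl hv
  refine (diff_aff hd).apply_eq_of_tendsto_cocompact z ((tendsto_inf hd).congr' ?_)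
  filter_upwards [h.at_inf] with z hz
  rw [hz, zpow_zero, one_smul]

theorem HomK.lin (h : HomK 1 n) (hd : ∀ v, v ≠ 0 → DifferentiableAt ℂ n v) :
    ∃ L : C2 →L[ℂ] C3, ∀ v, v ≠ 0 → n v = L v := by
  let L : C2 →L[ℂ] C3 := (ContinuousLinearMap.fst ℂ ℂ ℂ).smulRight (n (1, 0)) +
    (ContinuousLinearMap.snd ℂ ℂ ℂ).smulRight (aff n 0)
  have hL : ∀ v, L v = v.1 • n (1, 0) + v.2 • aff n 0 := fun v => rfl
  refine ⟨L, fun v hv => h.ext (fun c _ v _ => by simp) (fun z => ?_) (by simp [hL]) hv⟩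
  have hs : Differentiable ℂ (dslope (aff n) 0) := differentiableOn_univ.1
    ((Complex.differentiableOn_dslope univ_mem).2 (diff_aff hd).differentiableOn)
  have e : ∀ z, z • dslope (aff n) 0 z = aff n z - aff n 0 := fun z => by
    simpa using sub_smul_dslope (aff n) 0 z
  have t : Tendsto (fun z : ℂ => aff' n z⁻¹ - z⁻¹ • aff n 0) (cocompact ℂ)
      (𝓝 (n (1, 0) - (0 : ℂ) • aff n 0)) := (tendsto_inf hd).sub (tendsto_inv.smul_const _)
  rw [zero_smul, sub_zero] at t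
  have c : dslope (aff n) 0 z = n (1, 0) := by
    refine hs.apply_eq_of_tendsto_cocompact z (t.congr' ?_)
    filter_upwards [h.at_inf, ev_ne] with w hw h0
    refine smul_right_injective C3 h0 ?_
    simp only [e, hw, zpow_one, smul_sub, smul_inv_smul₀ h0]
  rw [hL, ← c, e, one_smul, sub_add_cancel]

theorem HomK.area (h3 : StokesStmt) (h : HomK k n) (hs : ContDiffOn ℝ 2 n nz)
    (h0 : ∀ v, v ≠ 0 → n v ≠ 0) :
    ∫ z : ℂ, dd th (n (z, 1)) (fderiv ℝ n (z, 1) (1, 0)) (fderiv ℝ n (z, 1) (I, 0)) = k := by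
  have sm : ∀ v, v ≠ 0 → ContDiffAt ℝ 2 n v := fun v hv => hs.contDiffAt (nz_mem_nhds hv)
  have dn : ∀ v, v ≠ 0 → DifferentiableAt ℝ n v := fun v hv =>
    (sm v hv).differentiableAt (by simp)
  have key := (h3.1 (pb n th) (k / (2 * Real.pi)) (fun v hv => ?_) (fun c hc v hv w => ?_)
    fun v hv => ?_).2
  · rw [mul_div_cancel₀ _ (by positivity)] at key
    rw [← key]
    refine integral_congr_ae (Eventually.of_forall fun z => ?_)
    exact (dd_pb (sm (z, 1) (by simp))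
      ((contDiffAt_th (h0 _ (by simp))).differentiableAt (by simp)) _ _).symm
  · exact (contDiffAt_pb (n := 1) (sm v hv)
      ((contDiffAt_th (h0 v hv)).of_le (by simp))).contDiffWithinAt
  · have h1 := th_scale (h0 v hv) (zpow_ne_zero k hc) 0 (fderiv ℝ n v w)
    simp only [pb, ContinuousLinearMap.comp_apply]
    rw [(h.hom.fderiv_smul hc hv (dn v hv)).2, rep_const, h c hc v hv]
    simpa using h1
  · have h1 := h.euler hv (dn v hv) 1
    rw [one_smul] at h1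
    simp only [pb, ContinuousLinearMap.comp_apply]
    rw [h.euler hv (dn v hv) I, h1, th_self (h0 v hv), th_self (h0 v hv)]
    simp

end Hol

end

end HollineP

open HollineP in
theorem holline_of (h1 : LineStmt) (h2 : Std1Stmt) (h3 : StokesStmt) : HollineStmt := by
  intro P hs hi hp hd
  obtain ⟨k, e, he, hk, hP⟩ := exists_lift h1 hs hi hp
  obtain ⟨g, hg, hge⟩ := exists_g he hk (fun v hv => (hP v hv).1) fun v hv => db_par he hP hd hv
  obtain ⟨φ, hφ, hh, hn⟩ := exists_phi h2 he hk hg hge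
  have h0 : ∀ v, v ≠ 0 → φ v • e v ≠ 0 := fun v hv => smul_ne_zero (hφ v) (hP v hv).1
  have sm : ContDiffOn ℝ 2 (fun v => φ v • e v) nz := fun v hv =>
    (((hh.analyticAt hn hv).contDiffAt (n := 2)).restrict_scalars ℝ).contDiffWithinAt
  obtain ⟨d, rfl⟩ := Int.eq_ofNat_of_zero_le (hh.nonneg hn (h0 _ (by simp)))
  refine ⟨d, fun v => φ v • e v, sm, fun v hv => ⟨h0 v hv, ?_⟩, ?_, ?_, ?_⟩
  · rw [prj_smul (hφ v), (hP v hv).2]
  · exact_mod_cast hh.area h3 sm h0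
  · rintro rfl
    exact ⟨_, fun v hv => HomK.const hh hn hv⟩
  · rintro rfl
    exact HomK.lin hh hn

end Pool.Agent.MP_9758ca_gt

end

section

/-!
PROJECT BALL: the two-parameter path from the height `-(L+1)` to a curve in `SO`.
-/

open scoped Topology ContDiff ComplexConjugate
open Set Metric Filter Complex

namespace Pool.Agent.MP_9758ca_gt

namespace PathQ

/-! ### lifting a curve on the circle -/

theorem exists_arg {a : ℝ → ℂ} (ha : ContDiff ℝ 1 a) (h1 : ∀ τ, ‖a τ‖ = 1) :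
    ∃ s : ℝ → ℝ, ContDiff ℝ 1 s ∧ ∀ τ, exp (2 * Real.pi * I * s τ) = a τ := by
  have hd : ∀ τ, HasDerivAt a (deriv a τ) τ := fun τ =>
    (ha.differentiable (by simp) τ).hasDerivAt
  have h0 : ∀ τ, a τ ≠ 0 := fun τ k => by simpa [k] using h1 τ
  have hm : ∀ τ, a τ * conj (a τ) = 1 := fun τ => by
    rw [mul_conj, normSq_eq_norm_sq, h1]; simp
  have hre : ∀ τ, (deriv a τ / a τ).re = 0 := fun τ => by
    have e1 : HasDerivAt (fun t => a t * star (a t))
        (deriv a τ * star (a τ) + a τ * star (deriv a τ)) τ := (hd τ).mul (hd τ).star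
    have e2 : (fun t => a t * star (a t)) = fun _ => (1 : ℂ) := funext hm
    rw [e2] at e1
    have e3 := congrArg re (e1.unique (hasDerivAt_const τ 1))
    rw [div_eq_mul_inv, inv_eq_of_mul_eq_one_right (hm τ)]
    simp only [add_re, mul_re, star_def, conj_re, conj_im, zero_re] at e3 ⊢
    linarith
  let k : ℝ → ℝ := fun t => (deriv a t / a t).im / (2 * Real.pi)
  have hk : Continuous k :=
    (continuous_im.comp ((ha.continuous_deriv le_rfl).div ha.continuous h0)).div_const _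
  let s : ℝ → ℝ := fun τ => arg (a 0) / (2 * Real.pi) + ∫ t in (0 : ℝ)..τ, k t
  have hs : ∀ τ, HasDerivAt s (k τ) τ := fun τ =>
    (hk.integral_hasStrictDerivAt 0 τ).hasDerivAt.const_add _
  have hp : (Real.pi : ℂ) ≠ 0 := ofReal_ne_zero.2 Real.pi_ne_zero
  have hw : ∀ τ, HasDerivAt (fun t => a t * exp (-(2 * Real.pi * I * s t))) 0 τ := fun τ => by
    have e1 := (hd τ).mul (((hs τ).ofReal_comp.const_mul (2 * Real.pi * I)).neg.cexp)
    refine e1.congr_deriv ?_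
    have e2 : deriv a τ = a τ * (((deriv a τ / a τ).im : ℂ) * I) := by
      have := re_add_im (deriv a τ / a τ)
      rw [hre, ofReal_zero, zero_add] at this
      rw [this, mul_div_cancel₀ _ (h0 τ)]
    have e3 : (2 * Real.pi * I * (k τ : ℂ)) = ((deriv a τ / a τ).im : ℂ) * I := by
      simp only [k]
      push_cast
      field_simp
    rw [e3]
    linear_combination (exp (-(2 * Real.pi * I * s τ))) * e2
  refine ⟨s, contDiff_one_iff_deriv.2 ⟨fun τ => (hs τ).differentiableAt, ?_⟩, fun τ => ?_⟩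
  · rw [show deriv s = k from funext fun τ => (hs τ).deriv]
    exact hk
  · have e := is_const_of_deriv_eq_zero (fun t => (hw t).differentiableAt)
      (fun t => (hw t).deriv) τ 0
    have e0 : exp (2 * Real.pi * I * s 0) = a 0 := by
      have := norm_mul_exp_arg_mul_I (a 0)
      rw [h1, ofReal_one, one_mul] at this
      rw [← this]
      congr 1
      simp only [s, intervalIntegral.integral_same, add_zero]
      push_cast
      field_simp
    rw [← e0, ← Complex.exp_add, add_neg_cancel, Complex.exp_zero, Complex.exp_neg,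
      mul_inv_eq_one₀ (Complex.exp_ne_zero _)] at e
    exact e.symm

/-! ### the normalised lift to `ℂ³` -/

noncomputable def nrmP (P : M3) : C3 := fun i => (∑ k, P i k) / ∑ i, ∑ k, P i k

theorem nrm_prj {m : C3} (hm : m ≠ 0) (h : m 0 + m 1 + m 2 ≠ 0) :
    nrmP (prj m) = (m 0 + m 1 + m 2)⁻¹ • m := by
  have h1 : (nsq m : ℂ) ≠ 0 := ofReal_ne_zero.2 (nsq_pos hm).ne'
  have h2 : conj (m 0) + conj (m 1) + conj (m 2) ≠ 0 := by
    rw [← map_add, ← map_add]
    exact (map_ne_zero _).2 h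
  have e : ∀ i, ∑ k, prj m i k = m i * ((conj (m 0) + conj (m 1) + conj (m 2)) / nsq m) := by
    intro i
    simp only [prj, Fin.sum_univ_three]
    ring
  funext i
  simp only [nrmP, e, Fin.sum_univ_three, Pi.smul_apply, smul_eq_mul]
  rw [← add_mul, ← add_mul, mul_div_mul_right _ _ (div_ne_zero h2 h1), div_eq_inv_mul]

theorem lift_smul {c : ℂ} (hc : c ≠ 0) (n : C3) (a : ℂ) (T : ℝ) :
    lift (c • n) a T = lift n a T := by
  simp only [lift, pt, RR, prj_smul hc, NN_smul hc]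

theorem so_nrm {x : VV} (hx : x ∈ SO) (hD : x ∉ DD) :
    nrmP x.1.1 0 + nrmP x.1.1 1 + nrmP x.1.1 2 = 1 ∧ ‖aL x‖ = 1 ∧
      NN (round x.2) (nrmP x.1.1) (aL x) x.2 ≠ 0 ∧ lift (nrmP x.1.1) (aL x) x.2 = x := by
  obtain ⟨m, a, T, hm, ha, hN, rfl⟩ := hx
  have h : m 0 + m 1 + m 2 ≠ 0 := fun k => hD ((mem_DD hm _ _ _).2 k)
  have e : nrmP (lift m a T).1.1 = (m 0 + m 1 + m 2)⁻¹ • m := nrm_prj hm h
  have e2 : aL (lift m a T) = a := aL_apply _
  have e3 : (lift m a T).2 = T := rfl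
  rw [e, e2, e3, NN_smul (inv_ne_zero h), lift_smul (inv_ne_zero h)]
  refine ⟨?_, ha, hN, rfl⟩
  simp only [Pi.smul_apply, smul_eq_mul]
  field_simp

theorem contDiff_nrm {c : ℝ → VV} (hc : ContDiff ℝ 1 c) (hD : ∀ τ, c τ ∉ DD) :
    ContDiff ℝ 1 fun τ => nrmP (c τ).1.1 := by
  have h : ∀ i k, ContDiff ℝ 1 fun τ => (c τ).1.1 i k := fun i k =>
    contDiff_pi.1 (contDiff_pi.1 hc.fst.fst i) k
  refine contDiff_pi.2 fun i => ?_
  simp only [nrmP, div_eq_mul_inv]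
  exact (ContDiff.sum fun k _ => h i k).mul
    ((ContDiff.sum fun i _ => ContDiff.sum fun k _ => h i k).inv hD)

/-! ### the cubic on the plane of sum one -/

theorem hasDerivAt_cub (n d : C3) : HasDerivAt (fun t : ℝ => cub (n + t • d))
    ((n 1 * n 2 - 3 * n 0 ^ 2 / 400) * d 0 + (n 0 * n 2 - 3 * n 1 ^ 2 / 400) * d 1 +
      (n 0 * n 1 - 3 * n 2 ^ 2 / 400) * d 2) 0 := by
  have h : ∀ i, HasDerivAt (fun t : ℝ => (n + t • d) i) (d i) 0 := fun i => by
    simpa using ((hasDerivAt_id (0 : ℝ)).smul_const (d i)).const_add (n i)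
  refine ((((h 0).mul (h 1)).mul (h 2)).sub
    (((((h 0).pow 3).add ((h 1).pow 3)).add ((h 2).pow 3)).div_const 400)).congr_deriv ?_
  simp only [zero_smul, add_zero, Pi.mul_apply]
  push_cast
  ring

theorem grad_ne {n : C3} (hs : n 0 + n 1 + n 2 = 1) (hc : cub n = 0) (w : ℂ) : ∃ u₁ u₂ : ℂ,
    (n 1 * n 2 - 3 * n 0 ^ 2 / 400) * u₁ + (n 0 * n 2 - 3 * n 1 ^ 2 / 400) * u₂ +
      (n 0 * n 1 - 3 * n 2 ^ 2 / 400) * (-u₁ - u₂) = w := by
  set g₀ := n 1 * n 2 - 3 * n 0 ^ 2 / 400 with e₀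
  set g₁ := n 0 * n 2 - 3 * n 1 ^ 2 / 400 with e₁
  set g₂ := n 0 * n 1 - 3 * n 2 ^ 2 / 400 with e₂
  by_cases k₀ : g₀ - g₂ = 0
  · by_cases k₁ : g₁ - g₂ = 0
    · exfalso
      unfold cub at hc
      have z₂ : g₂ = 0 := by
        linear_combination 3 * hc - g₂ * hs - n 0 * k₀ - n 1 * k₁ + n 0 * e₀ + n 1 * e₁ + n 2 * e₂
      have z₀ : n 1 * n 2 = 3 * n 0 ^ 2 / 400 := by linear_combination k₀ + z₂ - e₀
      have z₁ : n 0 * n 2 = 3 * n 1 ^ 2 / 400 := by linear_combination k₁ + z₂ - e₁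
      have z₃ : n 0 * n 1 = 3 * n 2 ^ 2 / 400 := by linear_combination z₂ - e₂
      have p : (n 0 * n 1 * n 2) ^ 2 = 0 := by
        have : n 1 * n 2 * (n 0 * n 2) * (n 0 * n 1) =
          3 * n 0 ^ 2 / 400 * (3 * n 1 ^ 2 / 400) * (3 * n 2 ^ 2 / 400) := by rw [z₀, z₁, z₃]
        linear_combination (64000000 / 63999973 : ℂ) * this
      have p' := pow_eq_zero_iff (two_ne_zero) |>.1 p
      have c₀ : n 0 ^ 3 = 0 := by linear_combination (400 / 3 : ℂ) * p' - (400 / 3 : ℂ) * n 0 * z₀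
      have c₁ : n 1 ^ 3 = 0 := by linear_combination (400 / 3 : ℂ) * p' - (400 / 3 : ℂ) * n 1 * z₁
      have c₂ : n 2 ^ 3 = 0 := by linear_combination (400 / 3 : ℂ) * p' - (400 / 3 : ℂ) * n 2 * z₃
      rw [pow_eq_zero_iff three_ne_zero] at c₀ c₁ c₂
      rw [c₀, c₁, c₂] at hs
      simp at hs
    · exact ⟨0, w / (g₁ - g₂), by field_simp; ring⟩
  · exact ⟨w / (g₀ - g₂), 0, by field_simp; ring⟩

theorem contDiff_cub : ContDiff ℝ 1 cub := by
  have h : ∀ i, ContDiff ℝ 1 fun n : C3 => n i := fun i => contDiff_apply ℝ ℂ i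
  exact (((h 0).mul (h 1)).mul (h 2)).sub
    (((((h 0).pow 3).add ((h 1).pow 3)).add ((h 2).pow 3)).div_const 400)

/-! ### the family of paths -/

abbrev AP : Type := ℝ × ℂ × ℂ

def ph (s : ℝ × ℝ) : ℝ := s.1 * (1 - s.1) * (s.2 * (1 - s.2))

def dir (u : AP) : C3 := ![u.2.1, u.2.2, -u.2.1 - u.2.2]

noncomputable def nn (n : ℝ → C3) (u : AP) (s : ℝ × ℝ) : C3 :=
  ![1, 0, 0] + (1 - stp (1 / 2) 1 s.2) • (n s.1 - ![1, 0, 0]) + ph s • dir u

noncomputable def ss (a : ℝ → ℝ) (s : ℝ × ℝ) : ℝ := 1 / 2 + (1 - stp (1 / 2) 1 s.2) * (a s.1 - 1 / 2)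

noncomputable def tt (L : ℝ) (T : ℝ → ℝ) (u : AP) (s : ℝ × ℝ) : ℝ :=
  -(L + 1) + (1 - stp 0 (1 / 2) s.2) * (T s.1 + L + 1) + ph s * u.1

theorem contDiff_ph : ContDiff ℝ 1 ph := by
  unfold ph
  fun_prop

theorem contDiff_dir : ContDiff ℝ 1 dir := by
  refine contDiff_pi.2 fun i => ?_
  fin_cases i <;> simp only [dir] <;> simp <;> fun_prop

theorem contDiff_stp1 (a b : ℝ) : ContDiff ℝ 1 (stp a b) := (contDiff_stp a b).of_le (by simp)

theorem contDiff_nn {n : ℝ → C3} (hn : ContDiff ℝ 1 n) :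
    ContDiff ℝ 1 fun q : AP × ℝ × ℝ => nn n q.1 q.2 :=
  (contDiff_const.add ((contDiff_const.sub ((contDiff_stp1 _ _).comp contDiff_snd.snd)).smul
    ((hn.comp contDiff_snd.fst).sub contDiff_const))).add
    ((contDiff_ph.comp contDiff_snd).smul (contDiff_dir.comp contDiff_fst))

theorem contDiff_ss {a : ℝ → ℝ} (ha : ContDiff ℝ 1 a) : ContDiff ℝ 1 (ss a) :=
  contDiff_const.add ((contDiff_const.sub ((contDiff_stp1 _ _).comp contDiff_snd)).mul
    ((ha.comp contDiff_fst).sub contDiff_const))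

theorem contDiff_tt (L : ℝ) {T : ℝ → ℝ} (hT : ContDiff ℝ 1 T) :
    ContDiff ℝ 1 fun q : AP × ℝ × ℝ => tt L T q.1 q.2 :=
  (contDiff_const.add ((contDiff_const.sub ((contDiff_stp1 _ _).comp contDiff_snd.snd)).mul
    (((hT.comp contDiff_snd.fst).add contDiff_const).add contDiff_const))).add
    ((contDiff_ph.comp contDiff_snd).mul contDiff_fst.fst)

theorem nn_sum {n : ℝ → C3} (hn : ∀ τ, n τ 0 + n τ 1 + n τ 2 = 1) (u : AP) (s : ℝ × ℝ) :
    nn n u s 0 + nn n u s 1 + nn n u s 2 = 1 := by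
  simp only [nn, dir, Pi.add_apply, Pi.smul_apply, Pi.sub_apply, Matrix.cons_val_zero,
    Matrix.cons_val_one, Matrix.cons_val, real_smul]
  linear_combination ((1 - stp (1 / 2) 1 s.2 : ℝ) : ℂ) * hn s.1

theorem ne_of_sum {m : C3} (h : m 0 + m 1 + m 2 = 1) : m ≠ 0 := by
  rintro rfl
  simp at h

theorem generic (h1 : SsStmt) (L : ℝ) {n : ℝ → C3} (hn : ContDiff ℝ 1 n)
    (hs : ∀ τ, n τ 0 + n τ 1 + n τ 2 = 1) {T : ℝ → ℝ} (hT : ContDiff ℝ 1 T) :
    ∃ u : AP, |u.1| < 1 ∧ ∀ s, ph s ≠ 0 → cub (nn n u s) = 0 → ∀ j : ℤ, tt L T u s ≠ j := by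
  have hM := h1.2.2 AP (ℝ × ℝ)
    {q | ph q.2 ≠ 0 ∧ cub (nn n q.1 q.2) = 0 ∧ ∃ j : ℤ, tt L T q.1 q.2 = j} (by
      rintro q ⟨q1, q2, j, q3⟩
      have hF : ContDiff ℝ 1 fun q : AP × ℝ × ℝ => (tt L T q.1 q.2 - j, cub (nn n q.1 q.2)) :=
        ((contDiff_tt L hT).sub contDiff_const).prodMk (contDiff_cub.comp (contDiff_nn hn))
      refine ⟨ℝ × ℂ, inferInstance, inferInstance, inferInstance, _, by simp, hF.contDiffAt, ?_,
        fun w => ?_⟩
      · have := (contDiff_tt L hT).continuous.continuousAt (x := q)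
          (ball_mem_nhds _ one_pos)
        filter_upwards [this] with q' k ⟨_, p2, j', p3⟩
        have k' : |tt L T q'.1 q'.2 - tt L T q.1 q.2| < 1 := k
        rw [p3, q3, ← Int.cast_sub, ← Int.cast_abs, ← Int.cast_one, Int.cast_lt,
          Int.abs_lt_one_iff, sub_eq_zero] at k'
        rw [p2, p3, k', sub_self]
        rfl
      · obtain ⟨u₁, u₂, hu⟩ := grad_ne (nn_sum hs q.1 q.2) q2 (w.2 / ph q.2)
        let v : AP × ℝ × ℝ := ((w.1 / ph q.2, u₁, u₂), 0)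
        refine ⟨v, ?_⟩
        have l1 : HasDerivAt (fun t : ℝ => q + t • v) v 0 := by
          simpa using ((hasDerivAt_id (0 : ℝ)).smul_const v).const_add q
        have l2 := HasFDerivAt.comp_hasDerivAt_of_eq (0 : ℝ)
          (hF.differentiable (by simp) q).hasFDerivAt l1 (by simp)
        refine l2.unique ?_
        have e : ((fun q : AP × ℝ × ℝ => (tt L T q.1 q.2 - j, cub (nn n q.1 q.2))) ∘
            fun t : ℝ => q + t • v) = fun t : ℝ => (tt L T q.1 q.2 - j + t * w.1,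
              cub (nn n q.1 q.2 + t • ph q.2 • dir v.1)) := by
          funext t
          refine Prod.ext ?_ (congrArg cub ?_)
          · simp only [tt, v, Function.comp, Prod.snd_add, Prod.smul_snd, smul_zero, add_zero,
              Prod.fst_add, Prod.smul_fst, smul_eq_mul]
            field_simp
            ring
          · funext i
            fin_cases i <;> simp [nn, v, dir] <;> ring
        rw [e]
        refine HasDerivAt.prodMk ?_ ((hasDerivAt_cub _ _).congr_deriv ?_)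
        · simpa using ((hasDerivAt_id (0 : ℝ)).mul_const w.1).const_add (tt L T q.1 q.2 - j)
        · have : (ph q.2 : ℂ) ≠ 0 := ofReal_ne_zero.2 q1
          rw [eq_div_iff this] at hu
          simp only [dir, v, Pi.smul_apply, Matrix.cons_val_zero, Matrix.cons_val_one,
            Matrix.cons_val, real_smul]
          linear_combination hu)
  obtain ⟨u, hu, k⟩ := (dense_of_mem_residual hM).inter_open_nonempty (ball 0 1) isOpen_ball
    ⟨0, mem_ball_self one_pos⟩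
  refine ⟨u, ?_, fun s a b j c => k ⟨(u, s), ⟨a, b, j, c⟩, rfl⟩⟩
  rw [mem_ball_zero_iff] at hu
  exact (norm_fst_le u).trans_lt hu

theorem ph_mem {s : ℝ × ℝ} (h : s ∈ Icc (0 : ℝ) 1 ×ˢ Icc (0 : ℝ) 1) : 0 ≤ ph s ∧ ph s ≤ 1 := by
  obtain ⟨⟨a, b⟩, c, d⟩ := h
  have p1 : 0 ≤ s.1 * (1 - s.1) := mul_nonneg a (by linarith)
  have p2 : 0 ≤ s.2 * (1 - s.2) := mul_nonneg c (by linarith)
  exact ⟨mul_nonneg p1 p2, mul_le_one₀ (by nlinarith) p2 (by nlinarith)⟩

theorem nn_low (n : ℝ → C3) (u : AP) {s : ℝ × ℝ} (h : ph s = 0) (h' : s.2 ≤ 1 / 2) :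
    nn n u s = ![1, 0, 0] := by
  rw [nn, stp_one (by norm_num) h', h]
  simp

theorem ss_low (a : ℝ → ℝ) {s : ℝ × ℝ} (h' : s.2 ≤ 1 / 2) :
    exp (2 * Real.pi * I * ss a s) = -1 := by
  rw [ss, stp_one (by norm_num) h', ← Complex.exp_pi_mul_I]
  congr 1
  push_cast
  ring

theorem tt_high (L : ℝ) (T : ℝ → ℝ) (u : AP) {s : ℝ × ℝ} (h : ph s = 0) (h' : 1 / 2 ≤ s.2) :
    tt L T u s = T s.1 := by
  rw [tt, stp_zero (by norm_num) h', h]
  ring

end PathQ

open PathQ in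
theorem path_of (h1 : SsStmt) : PathStmt := by
  intro c L q hc H hq hZ hlt
  have S := fun τ => so_nrm (H τ).1 (H τ).2.1
  have hn := contDiff_nrm hc fun τ => (H τ).2.1
  obtain ⟨a, ha, ea⟩ := exists_arg (aL.contDiff.comp hc) fun τ => (S τ).2.1
  set n : ℝ → C3 := fun τ => nrmP (c τ).1.1 with en
  set T : ℝ → ℝ := fun τ => (c τ).2 with eT
  have hT : ContDiff ℝ 1 T := hc.snd
  have hs : ∀ τ, n τ 0 + n τ 1 + n τ 2 = 1 := fun τ => (S τ).1
  obtain ⟨u, hu, gen⟩ := generic h1 L hn hs hT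
  let Q : ℝ × ℝ → C3 × ℝ × ℝ := fun s => (nn n u s, ss a s, tt L T u s)
  have hP : ContDiff ℝ 1 fun s : ℝ × ℝ => (u, s) := contDiff_const.prodMk contDiff_id
  have hQ1 := (contDiff_nn hn).comp hP
  have hQ2 := (contDiff_tt L hT).comp hP
  have hQ : ContDiff ℝ 1 Q := hQ1.prodMk ((contDiff_ss ha).prodMk hQ2)
  let γ : ℝ × ℝ → VV := fun s => lift (nn n u s) (exp (2 * Real.pi * I * ss a s)) (tt L T u s)
  have ht : ∀ s, (γ s).2 = tt L T u s := fun _ => rfl
  have n0 : ∀ s, nn n u s ≠ 0 := fun s => ne_of_sum (nn_sum hs u s)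
  have a1 : ∀ s, ‖exp (2 * Real.pi * I * ss a s)‖ = 1 := fun s => by
    rw [← norm_exp_ofReal_mul_I (2 * Real.pi * ss a s)]
    congr 2
    push_cast
    ring
  have top : ∀ τ, nn n u (τ, 1) = n τ ∧ exp (2 * Real.pi * I * ss a (τ, 1)) = aL (c τ) ∧
      tt L T u (τ, 1) = T τ := fun τ => by
    have z : ph (τ, 1) = 0 := by simp [ph]
    refine ⟨?_, ?_, tt_high L T u z (by norm_num)⟩
    · rw [nn, z, stp_zero (by norm_num) le_rfl, sub_zero, one_smul, zero_smul, add_zero,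
        add_sub_cancel]
    · rw [ss, stp_zero (by norm_num) le_rfl, ← show _ = aL (c τ) from ea τ]
      congr 2
      push_cast
      ring
  have hN : ∀ s ∈ Icc (0 : ℝ) 1 ×ˢ Icc (0 : ℝ) 1,
      NN (round (tt L T u s)) (nn n u s) (exp (2 * Real.pi * I * ss a s)) (tt L T u s) ≠ 0 := by
    rintro ⟨τ, ρ⟩ hm k
    have w := (wall_of_NN (n0 _) (a1 _) k).1
    by_cases z : ph (τ, ρ) = 0
    · rcases le_total ρ (1 / 2) with l | l
      · rw [nn_low n u z l] at k
        exact (NN_vert _ _ _).1 k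
      · have z' := z
        simp only [ph, mul_eq_zero, sub_eq_zero] at z'
        rcases z' with (rfl | rfl) | rfl | rfl
        · exact (hZ _).1 ((tt_high L T u z l).symm.trans w)
        · exact (hZ _).2 ((tt_high L T u z l).symm.trans w)
        · norm_num at l
        · rw [(top τ).1, (top τ).2.1, (top τ).2.2] at k
          exact (S τ).2.2.1 k
    · exact gen _ z ((NN_eq_zero (n0 _)).1 k).1 _ w
  have hc' : ∀ s ∈ Icc (0 : ℝ) 1 ×ˢ Icc (0 : ℝ) 1, ContDiffAt ℝ 1 γ s ∧ ∀ᶠ s' in 𝓝 s, γ s' ∈ SO :=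
    fun s hm => by
      obtain ⟨p1, p2⟩ := contDiffAt_lift (q := Q s) (n0 s) (hN s hm)
      exact ⟨(p1.of_le (by simp)).comp s hQ.contDiffAt, hQ.continuous.continuousAt p2⟩
  have hL := fun τ => abs_le.1 (H τ).2.2
  have hq' := abs_le.1 hq
  have z1 : ∀ ρ, ph (1, ρ) = 0 := fun ρ => by simp [ph]
  have t1 : ∀ ρ, tt L T u (1, ρ) = -(L + 1) + (1 - stp 0 (1 / 2) ρ) * (T 1 + L + 1) := fun ρ => by
    rw [tt, z1, zero_mul, add_zero]
  have pos : 0 < T 1 + L + 1 := by linarith [(hL 1).1]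
  have low : ∀ ρ, tt L T u (1, ρ) ≤ q + 1 / 10 → ρ < 1 / 2 := fun ρ k => lt_of_not_ge fun l => by
    rw [tt_high L T u (z1 ρ) l] at k
    exact absurd hlt (not_lt.2 k)
  have ver : ∀ ρ, ρ ≤ 1 / 2 → γ (1, ρ) = vert (tt L T u (1, ρ)) := fun ρ l => by
    simp only [γ]
    rw [nn_low n u (z1 ρ) l, ss_low a l, vert_eq]
  have anti : StrictAntiOn (stp 0 (1 / 2)) (Icc 0 (1 / 2)) :=
    strictAntiOn_of_deriv_neg (convex_Icc _ _) (contDiff_stp _ _).continuous.continuousOn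
      fun x hx => by
        rw [interior_Icc] at hx
        exact deriv_stp_neg hx.1 hx.2
  obtain ⟨ρs, r1, r2⟩ : ∃ ρ ∈ Icc (0 : ℝ) (1 / 2), tt L T u (1, ρ) = q := by
    refine intermediate_value_Icc (f := fun ρ => tt L T u (1, ρ)) (by norm_num)
      (hQ2.continuous.comp (Continuous.prodMk_right (1 : ℝ))).continuousOn ⟨?_, ?_⟩
    · rw [t1, stp_one (by norm_num) le_rfl]
      linarith [hq'.1]
    · rw [tt_high L T u (z1 _) le_rfl]
      change (q : ℝ) ≤ (c 1).2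
      linarith
  have r3 : ρs < 1 / 2 := low _ (by linarith)
  have r4 : 0 < ρs := lt_of_le_of_ne r1.1 fun k => by
    rw [← k, t1, stp_one (by norm_num) le_rfl] at r2
    linarith [hq'.1]
  have rm : ρs ∈ Icc (0 : ℝ) 1 := ⟨r1.1, by linarith⟩
  refine ⟨γ, ρs, fun s hm => ⟨(hc' s hm).1, (hc' s hm).2, fun k => ?_, ?_⟩, fun τ _ => ?_,
    fun τ _ => ?_, fun ρ _ => ?_, fun ρ _ k => ?_, fun ρ hρ k => ?_, rm, ?_, ?_⟩
  · have := (mem_DD (n0 s) _ _ _).1 k
    rw [nn_sum hs] at this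
    exact one_ne_zero this
  · obtain ⟨p1, p2⟩ := ph_mem hm
    obtain ⟨p3, p4⟩ := stp_mem 0 (1 / 2) s.2
    obtain ⟨p5, p6⟩ := abs_lt.1 hu
    obtain ⟨p7, p8⟩ := hL s.1
    have p9 : 0 ≤ T s.1 + L + 1 := by simp only [T]; linarith
    have p10 : T s.1 ≤ L := p8
    rw [ht, tt, abs_le]
    constructor <;> nlinarith
  · simp only [γ]
    rw [(top τ).1, (top τ).2.1, (top τ).2.2]
    exact (S τ).2.2.2
  · rw [ht, tt, stp_one (by norm_num) le_rfl]
    simp [ph]
  · obtain ⟨p3, p4⟩ := stp_mem 0 (1 / 2) ρ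
    have p9 : 0 ≤ T 0 + L + 1 := by simp only [T]; linarith [(hL 0).1]
    rw [ht, tt, show ph (0, ρ) = 0 by simp [ph]]
    change _ ≤ T 0
    nlinarith
  · exact ver ρ (low ρ (by linarith [(abs_le.1 k).2, ht (1, ρ)])).le
  · rw [ht] at k
    refine anti.injOn ⟨hρ.1, (low ρ (by linarith)).le⟩ r1 ?_
    rw [← r2, t1, t1, add_right_inj, mul_left_inj' pos.ne'] at k
    linarith
  · rw [ver ρs r3.le, r2]
  · refine ⟨-deriv (stp 0 (1 / 2)) ρs * (T 1 + L + 1),
      mul_ne_zero (neg_ne_zero.2 (deriv_stp_neg r4 r3).ne) pos.ne', ?_⟩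
    have l1 : HasDerivAt (fun ρ : ℝ => ((1 : ℝ), ρ)) (0, 1) ρs :=
      (hasDerivAt_const _ _).prodMk (hasDerivAt_id _)
    have l2 := HasFDerivAt.comp_hasDerivAt ρs
      ((hc' (1, ρs) ⟨⟨zero_le_one, le_rfl⟩, rm⟩).1.differentiableAt (by simp)).hasFDerivAt l1
    refine l2.unique ?_
    have l3 := ((((contDiff_stp1 0 (1 / 2)).differentiable (by simp) ρs).hasDerivAt.const_sub
      1).mul_const (T 1 + L + 1)).const_add (-(L + 1))
    refine ((hasDerivAt_const ρs (vert 0).1).prodMk l3).congr_of_eventuallyEq ?_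
    filter_upwards [Iio_mem_nhds r3] with ρ k
    rw [Function.comp_apply, ver ρ (le_of_lt k), t1]
    rfl

end Pool.Agent.MP_9758ca_gt

end
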