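import Mathlib.Analysis.Calculus.Deriv.Prod
import Mathlib.Analysis.Calculus.ParametricIntegral
import Mathlib.Analysis.Complex.ExponentialBounds
import Pool.Agent.MP_9758ca_gt.SpecA
import Pool.Agent.MP_9758ca_gt.Gn

-- ======== part 0: formerly Pool.Agent.MP_9758ca_gt.Neck
section MrgPart0

/-!
PROJECT BALL, module NECK: exponential decay of the derivative on long thin annuli.
-/

open scoped Topology ContDiff ComplexConjugate
open Set Metric Filter Complex MeasureTheory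

namespace Pool.Agent.MP_9758ca_gt

noncomputable section

namespace NeckP

/-! real analysis -/

theorem box_int {a b c d : ℝ} (hab : a ≤ b) (hcd : c ≤ d) {g : ℝ × ℝ → ℝ}
    (hg : ContinuousOn g (Icc a b ×ˢ Icc c d)) :
    ((∫ p in Icc a b ×ˢ Icc c d, g p) = ∫ s in a..b, ∫ t in c..d, g (s, t)) ∧
    ((∫ p in Icc a b ×ˢ Icc c d, g p) = ∫ t in c..d, ∫ s in a..b, g (s, t)) ∧
    IntegrableOn (fun s => ∫ t in c..d, g (s, t)) (Icc a b) := by
  have hi : IntegrableOn g (Icc a b ×ˢ Icc c d) :=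
    hg.integrableOn_compact (isCompact_Icc.prod isCompact_Icc)
  have hm : (volume : Measure (ℝ × ℝ)).restrict (Icc a b ×ˢ Icc c d) =
      (volume.restrict (Icc a b)).prod (volume.restrict (Icc c d)) := by
    rw [Measure.prod_restrict]; rfl
  have hi' : Integrable g ((volume.restrict (Icc a b)).prod (volume.restrict (Icc c d))) := by
    rw [← hm]; exact hi
  have e : ∀ {x y : ℝ}, x ≤ y → ∀ f : ℝ → ℝ, ∫ s in x..y, f s = ∫ s in Icc x y, f s := by
    intro x y h f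
    rw [intervalIntegral.integral_of_le h, integral_Icc_eq_integral_Ioc]
  refine ⟨?_, ?_, ?_⟩
  · rw [hm, integral_prod g hi', e hab]
    simp only [e hcd]
  · rw [hm, integral_prod_symm g hi', e hcd]
    simp only [e hab]
  · simp only [e hcd]
    exact hi'.integral_prod_left

theorem sq_int_le {T : ℝ} (hT : 0 < T) {f : ℝ → ℝ} (hf : Continuous f) :
    (∫ x in (0 : ℝ)..T, f x) ^ 2 ≤ T * ∫ x in (0 : ℝ)..T, f x ^ 2 := by
  set l := ∫ x in (0 : ℝ)..T, f x with hl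
  have h0 : 0 ≤ ∫ x in (0 : ℝ)..T, (f x - l / T) ^ 2 :=
    intervalIntegral.integral_nonneg hT.le fun x _ => sq_nonneg _
  have h1 : ∀ x, (f x - l / T) ^ 2 = f x ^ 2 - 2 * (l / T) * f x + (l / T) ^ 2 := fun x => by ring
  have i1 : IntervalIntegrable (fun x => f x ^ 2) volume 0 T := (hf.pow 2).intervalIntegrable _ _
  have i2 : IntervalIntegrable (fun x => 2 * (l / T) * f x) volume 0 T :=
    (continuous_const.mul hf).intervalIntegrable _ _
  simp only [h1] at h0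
  rw [intervalIntegral.integral_add (i1.sub i2) intervalIntegrable_const,
    intervalIntegral.integral_sub i1 i2, intervalIntegral.integral_const_mul,
    intervalIntegral.integral_const, ← hl, smul_eq_mul, sub_zero] at h0
  have h2 : T * ((∫ x in (0 : ℝ)..T, f x ^ 2) - 2 * (l / T) * l + T * (l / T) ^ 2) =
      T * (∫ x in (0 : ℝ)..T, f x ^ 2) - l ^ 2 := by
    field_simp
    ring
  have h3 := mul_nonneg hT.le h0
  rw [h2] at h3
  linarith

theorem mono_of_deriv {α β : ℝ} {f f' : ℝ → ℝ} (hd : ∀ t ∈ Ioo α β, HasDerivAt f (f' t) t)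
    (h0 : ∀ t ∈ Ioo α β, 0 ≤ f' t) {x y : ℝ} (hx : x ∈ Ioo α β) (hy : y ∈ Ioo α β)
    (hxy : x ≤ y) : f x ≤ f y := by
  have : MonotoneOn f (Ioo α β) := by
    refine monotoneOn_of_hasDerivWithinAt_nonneg (f' := f') (convex_Ioo α β)
      (fun t ht => (hd t ht).continuousAt.continuousWithinAt) (fun t ht => ?_) fun t ht => ?_
    · rw [interior_Ioo] at ht
      exact (hd t ht).hasDerivWithinAt
    · rw [interior_Ioo] at ht
      exact h0 t ht
  exact this hx hy hxy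

theorem decay {α β κ C : ℝ} {f e : ℝ → ℝ} (hd : ∀ t ∈ Ioo α β, HasDerivAt f (e t) t)
    (he : ∀ t ∈ Ioo α β, κ * |f t| ≤ e t) (hκ : 0 ≤ κ) (hC : ∀ t ∈ Ioo α β, |f t| ≤ C)
    {x y : ℝ} (hx : x ∈ Ioo α β) (hy : y ∈ Ioo α β) (hxy : x ≤ y) :
    f x ≤ C * Real.exp (-κ * (y - x)) ∧ -f y ≤ C * Real.exp (-κ * (y - x)) := by
  constructor
  · have h := mono_of_deriv (f := fun t => Real.exp (-κ * (t - x)) * f t)
      (f' := fun t => Real.exp (-κ * (t - x)) * (e t - κ * f t)) (α := α) (β := β)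
      (fun t ht => ?_) (fun t ht => ?_) hx hy hxy
    · simp only [sub_self, mul_zero, Real.exp_zero, one_mul] at h
      have := (abs_le.1 (hC y hy)).2
      have h2 := mul_le_mul_of_nonneg_left this (Real.exp_pos (-κ * (y - x))).le
      linarith
    · have h1 : HasDerivAt (fun t => -κ * (t - x)) (-κ) t := by
        simpa using ((hasDerivAt_id t).sub_const x).const_mul (-κ)
      refine (h1.exp.mul (hd t ht)).congr_deriv ?_
      ring
    · refine mul_nonneg (Real.exp_pos _).le ?_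
      have := he t ht
      have h2 := mul_le_mul_of_nonneg_left (le_abs_self (f t)) hκ
      linarith
  · have h := mono_of_deriv (f := fun t => Real.exp (-κ * (y - t)) * f t)
      (f' := fun t => Real.exp (-κ * (y - t)) * (e t + κ * f t)) (α := α) (β := β)
      (fun t ht => ?_) (fun t ht => ?_) hx hy hxy
    · simp only [sub_self, mul_zero, Real.exp_zero, one_mul] at h
      have := (abs_le.1 (hC x hx)).1
      have h2 := mul_le_mul_of_nonneg_left this (Real.exp_pos (-κ * (y - x))).le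
      linarith
    · have h1 : HasDerivAt (fun t => -κ * (y - t)) κ t := by
        simpa using ((hasDerivAt_id t).const_sub y).const_mul (-κ)
      refine (h1.exp.mul (hd t ht)).congr_deriv ?_
      ring
    · refine mul_nonneg (Real.exp_pos _).le ?_
      have := he t ht
      have h2 := mul_le_mul_of_nonneg_left (neg_abs_le (f t)) hκ
      linarith

/-! the action of a family of one-forms on a strip -/

/-- the open strip -/
def strip (α β : ℝ) : Set ℂ := {ζ | ζ.re ∈ Ioo α β}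

theorem isOpen_strip (α β : ℝ) : IsOpen (strip α β) := isOpen_Ioo.preimage continuous_re

theorem mem_strip {α β t : ℝ} (ht : t ∈ Ioo α β) (θ : ℝ) : (t + θ * I : ℂ) ∈ strip α β := by
  simpa [strip] using ht

theorem hasDerivAt_line_t (t θ : ℝ) : HasDerivAt (fun t : ℝ => (t + θ * I : ℂ)) 1 t := by
  simpa using (ofRealCLM.hasDerivAt (x := t)).add_const (θ * I : ℂ)

theorem hasDerivAt_line_θ (t θ : ℝ) : HasDerivAt (fun θ : ℝ => (t + θ * I : ℂ)) I θ := by
  simpa using ((ofRealCLM.hasDerivAt (x := θ)).mul_const I).const_add (t : ℂ)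

theorem action {α β T : ℝ} (hT : 0 ≤ T) {L : ℝ × ℂ → ℂ →L[ℝ] ℝ}
    (hL : ContDiffOn ℝ 1 L (univ ×ˢ strip α β)) {F : ℝ → ℂ → ℝ}
    (hF : ∀ t ∈ Ioo α β, ∀ θ ∈ Icc 0 T, ∀ s ∈ Icc (0 : ℝ) 1,
      HasDerivAt (fun s => F s (t + θ * I)) (dd (fun y => L (s, y)) (t + θ * I) 1 I) s)
    (h0 : ∀ t ∈ Ioo α β, ∀ s, L (s, t + (0 : ℝ) * I) 1 = 0 ∧ L (s, t + T * I) 1 = 0)
    {t : ℝ} (ht : t ∈ Ioo α β) :
    HasDerivAt (fun t : ℝ => ∫ p in Icc (0 : ℝ) 1 ×ˢ Icc 0 T, L (p.1, t + p.2 * I) I)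
      (∫ θ in (0 : ℝ)..T, (F 1 (t + θ * I) - F 0 (t + θ * I))) t := by
  have hW : IsOpen ((univ : Set ℝ) ×ˢ strip α β) := isOpen_univ.prod (isOpen_strip α β)
  have hDc : ContinuousOn (fderiv ℝ L) (univ ×ˢ strip α β) :=
    hL.continuousOn_fderiv_of_isOpen hW le_rfl
  have hdiff : ∀ q ∈ (univ : Set ℝ) ×ˢ strip α β, HasFDerivAt L (fderiv ℝ L q) q := fun q hq =>
    ((hL.contDiffAt (hW.mem_nhds hq)).differentiableAt one_ne_zero).hasFDerivAt
  have hmem : ∀ {t : ℝ}, t ∈ Ioo α β → ∀ s θ : ℝ,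
      (s, (t + θ * I : ℂ)) ∈ (univ : Set ℝ) ×ˢ strip α β :=
    fun ht s θ => ⟨mem_univ _, mem_strip ht θ⟩
  have hj : Continuous fun q : ℝ × ℝ × ℝ => (q.2.1, (q.1 + q.2.2 * I : ℂ)) := by fun_prop
  have hj' : ∀ t : ℝ, Continuous fun p : ℝ × ℝ => (p.1, (t + p.2 * I : ℂ)) := fun t => by fun_prop
  -- continuity of the integrands
  have cL : ∀ {t : ℝ}, t ∈ Ioo α β → Continuous fun p : ℝ × ℝ => L (p.1, t + p.2 * I) :=
    fun {t} ht => hL.continuousOn.comp_continuous (hj' t) fun p => hmem ht _ _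
  have cD : ∀ {t : ℝ}, t ∈ Ioo α β → Continuous fun p : ℝ × ℝ => fderiv ℝ L (p.1, t + p.2 * I) :=
    fun {t} ht => hDc.comp_continuous (hj' t) fun p => hmem ht _ _
  -- directional derivatives
  have dt : ∀ {t : ℝ}, t ∈ Ioo α β → ∀ s θ : ℝ, HasDerivAt (fun t : ℝ => L (s, t + θ * I) I)
      (fderiv ℝ L (s, t + θ * I) (0, 1) I) t := by
    intro t ht s θ
    have h1 := (hdiff _ (hmem ht s θ)).comp_hasDerivAt t
      ((hasDerivAt_const t s).prodMk (hasDerivAt_line_t t θ))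
    simpa using h1.clm_apply (hasDerivAt_const t I)
  have dθ : ∀ s θ : ℝ, HasDerivAt (fun θ : ℝ => L (s, t + θ * I) 1)
      (fderiv ℝ L (s, t + θ * I) (0, I) 1) θ := by
    intro s θ
    have h1 := (hdiff _ (hmem ht s θ)).comp_hasDerivAt θ
      ((hasDerivAt_const θ s).prodMk (hasDerivAt_line_θ t θ))
    simpa using h1.clm_apply (hasDerivAt_const θ (1 : ℂ))
  have hdd : ∀ s θ : ℝ, dd (fun y => L (s, y)) (t + θ * I) 1 I =
      fderiv ℝ L (s, t + θ * I) (0, 1) I - fderiv ℝ L (s, t + θ * I) (0, I) 1 := by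
    intro s θ
    have h1 := (hdiff _ (hmem ht s θ)).comp (t + θ * I : ℂ)
      (hasFDerivAt_prodMk_right (𝕜 := ℝ) s (t + θ * I : ℂ))
    have h2 : fderiv ℝ (fun y => L (s, y)) (t + θ * I) = _ := h1.fderiv
    simp only [dd, h2, ContinuousLinearMap.comp_apply, ContinuousLinearMap.inr_apply]
  -- a compact neighbourhood
  obtain ⟨ε, hε, hsub⟩ : ∃ ε > 0, closedBall t ε ⊆ Ioo α β :=
    nhds_basis_closedBall.mem_iff.1 (isOpen_Ioo.mem_nhds ht)
  have hB : IsCompact (Icc (0 : ℝ) 1 ×ˢ Icc 0 T) := isCompact_Icc.prod isCompact_Icc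
  have hBm : MeasurableSet (Icc (0 : ℝ) 1 ×ˢ Icc (0 : ℝ) T) :=
    measurableSet_Icc.prod measurableSet_Icc
  obtain ⟨C, hC⟩ := ((isCompact_closedBall t ε).prod hB).exists_bound_of_continuousOn
    (f := fun q : ℝ × ℝ × ℝ => fderiv ℝ L (q.2.1, q.1 + q.2.2 * I) (0, 1) I)
    (((hDc.comp hj.continuousOn fun q hq => hmem (hsub hq.1) _ _).clm_apply
      continuousOn_const).clm_apply continuousOn_const)
  have key := (hasDerivAt_integral_of_dominated_loc_of_deriv_le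
    (μ := volume.restrict (Icc (0 : ℝ) 1 ×ˢ Icc 0 T))
    (F := fun (t : ℝ) (p : ℝ × ℝ) => L (p.1, t + p.2 * I) I)
    (F' := fun (t : ℝ) (p : ℝ × ℝ) => fderiv ℝ L (p.1, t + p.2 * I) (0, 1) I)
    (bound := fun _ => C) (closedBall_mem_nhds t hε) ?_ ?_ ?_ ?_ ?_ ?_).2
  rotate_left
  · filter_upwards [isOpen_Ioo.mem_nhds ht] with x hx
    exact ((cL hx).clm_apply continuous_const).aestronglyMeasurable
  · exact ((cL ht).clm_apply continuous_const).continuousOn.integrableOn_compact hB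
  · exact (((cD ht).clm_apply continuous_const).clm_apply continuous_const).aestronglyMeasurable
  · refine (ae_restrict_iff' hBm).2 (Eventually.of_forall fun p hp x hx => ?_)
    exact hC (x, p) ⟨hx, hp⟩
  · exact continuousOn_const.integrableOn_compact hB
  · exact Eventually.of_forall fun p x hx => dt (hsub hx) _ _
  refine key.congr_deriv ?_
  have c1 : Continuous fun p : ℝ × ℝ => fderiv ℝ L (p.1, t + p.2 * I) (0, 1) I :=
    ((cD ht).clm_apply continuous_const).clm_apply continuous_const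
  have c2 : Continuous fun p : ℝ × ℝ => fderiv ℝ L (p.1, t + p.2 * I) (0, I) 1 :=
    ((cD ht).clm_apply continuous_const).clm_apply continuous_const
  have z2 : ∫ p in Icc (0 : ℝ) 1 ×ˢ Icc 0 T, fderiv ℝ L (p.1, t + p.2 * I) (0, I) 1 = 0 := by
    rw [(box_int zero_le_one hT c2.continuousOn).1]
    have : ∀ s : ℝ, ∫ θ in (0 : ℝ)..T, fderiv ℝ L (s, t + θ * I) (0, I) 1 = 0 := by
      intro s
      rw [intervalIntegral.integral_eq_sub_of_hasDerivAt (fun θ _ => dθ s θ)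
        ((c2.comp (Continuous.prodMk_right s)).intervalIntegrable _ _), (h0 t ht s).1,
        (h0 t ht s).2, sub_zero]
    simp only [this, intervalIntegral.integral_zero]
  have z1 : ∫ p in Icc (0 : ℝ) 1 ×ˢ Icc 0 T, (fderiv ℝ L (p.1, t + p.2 * I) (0, 1) I -
      fderiv ℝ L (p.1, t + p.2 * I) (0, I) 1) =
      ∫ θ in (0 : ℝ)..T, (F 1 (t + θ * I) - F 0 (t + θ * I)) := by
    have c3 : Continuous fun p : ℝ × ℝ => fderiv ℝ L (p.1, t + p.2 * I) (0, 1) I -
        fderiv ℝ L (p.1, t + p.2 * I) (0, I) 1 := c1.sub c2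
    rw [(box_int zero_le_one hT c3.continuousOn).2.1]
    refine intervalIntegral.integral_congr fun θ hθ => ?_
    rw [uIcc_of_le hT] at hθ
    refine intervalIntegral.integral_eq_sub_of_hasDerivAt (f := fun s => F s (t + θ * I))
      (fun s hs => ?_) ((c3.comp (Continuous.prodMk_left θ)).intervalIntegrable _ _)
    rw [uIcc_of_le zero_le_one] at hs
    have := hF t ht θ hθ s hs
    rw [hdd] at this
    exact this
  rw [← z1, integral_sub (c1.continuousOn.integrableOn_compact hB)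
    (c2.continuousOn.integrableOn_compact hB), z2, sub_zero]

/-! the estimate on a strip -/

section Strip
variable {V : Type} [NormedAddCommGroup V] [NormedSpace ℝ V]

/-- projection of the strip to the real axis -/
def pr : ℂ →L[ℝ] ℂ := ofRealCLM.comp reCLM

theorem pr_apply (ζ : ℂ) : pr ζ = (ζ.re : ℂ) := rfl

theorem pr_line (t θ : ℝ) : pr (t + θ * I) = (t + (0 : ℝ) * I : ℂ) := by
  simp [pr_apply]

theorem pr_mem {α β : ℝ} {ζ : ℂ} (h : ζ ∈ strip α β) : pr ζ ∈ strip α β := by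
  simpa [strip, pr_apply] using h

/-- the one-forms of the cone over the loops -/
def cone (om : F2 V) (v : ℂ → V) (q : ℝ × ℂ) : ℂ →L[ℝ] ℝ :=
  (om (v (pr q.2) + q.1 • (v q.2 - v (pr q.2))) (v q.2 - v (pr q.2))).comp
    (fderiv ℝ (fun y => v (pr y)) q.2 + q.1 • fderiv ℝ (fun y => v y - v (pr y)) q.2)

variable {α β : ℝ} {v : ℂ → V} {om : F2 V}

theorem at_v (hv : ContDiffOn ℝ 2 v (strip α β)) {ζ : ℂ} (h : ζ ∈ strip α β) :
    ContDiffAt ℝ 2 v ζ := hv.contDiffAt ((isOpen_strip α β).mem_nhds h)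

theorem at_A (hv : ContDiffOn ℝ 2 v (strip α β)) {ζ : ℂ} (h : ζ ∈ strip α β) :
    ContDiffAt ℝ 2 (fun y => v (pr y)) ζ :=
  (at_v hv (pr_mem h)).comp ζ pr.contDiff.contDiffAt

theorem at_B (hv : ContDiffOn ℝ 2 v (strip α β)) {ζ : ℂ} (h : ζ ∈ strip α β) :
    ContDiffAt ℝ 2 (fun y => v y - v (pr y)) ζ := (at_v hv h).sub (at_A hv h)

theorem fderiv_A (hv : ContDiffOn ℝ 2 v (strip α β)) {ζ : ℂ} (h : ζ ∈ strip α β) :
    fderiv ℝ (fun y => v (pr y)) ζ I = 0 := by
  have h1 := (((at_v hv (pr_mem h)).differentiableAt two_ne_zero).hasFDerivAt.comp ζ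
    pr.hasFDerivAt).fderiv
  have h2 : fderiv ℝ (fun y => v (pr y)) ζ = _ := h1
  rw [h2, ContinuousLinearMap.comp_apply, pr_apply I, I_re, ofReal_zero, map_zero]

theorem fderiv_B (hv : ContDiffOn ℝ 2 v (strip α β)) {ζ : ℂ} (h : ζ ∈ strip α β) :
    fderiv ℝ (fun y => v y - v (pr y)) ζ = fderiv ℝ v ζ - fderiv ℝ (fun y => v (pr y)) ζ :=
  fderiv_fun_sub ((at_v hv h).differentiableAt two_ne_zero)
    ((at_A hv h).differentiableAt two_ne_zero)

theorem cone_smooth (hv : ContDiffOn ℝ 2 v (strip α β)) (hom : ContDiff ℝ 1 om) :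
    ContDiffOn ℝ 1 (cone om v) (univ ×ˢ strip α β) := by
  intro q hq
  refine ContDiffAt.contDiffWithinAt ?_
  have h12 : (1 : WithTop ℕ∞) ≤ 2 := by norm_num
  have h112 : (1 : WithTop ℕ∞) + 1 ≤ 2 := by norm_num
  have a1 : ContDiffAt ℝ 1 (fun q : ℝ × ℂ => v (pr q.2)) q :=
    ((at_A hv hq.2).of_le h12).comp q contDiffAt_snd
  have b1 : ContDiffAt ℝ 1 (fun q : ℝ × ℂ => v q.2 - v (pr q.2)) q :=
    ((at_B hv hq.2).of_le h12).comp q contDiffAt_snd
  have a2 : ContDiffAt ℝ 1 (fun q : ℝ × ℂ => fderiv ℝ (fun y => v (pr y)) q.2) q :=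
    ((at_A hv hq.2).fderiv_right h112).comp q contDiffAt_snd
  have b2 : ContDiffAt ℝ 1 (fun q : ℝ × ℂ => fderiv ℝ (fun y => v y - v (pr y)) q.2) q :=
    ((at_B hv hq.2).fderiv_right h112).comp q contDiffAt_snd
  exact ((hom.contDiffAt.comp q (a1.add (contDiffAt_fst.smul b1))).clm_apply b1).clm_comp
    (a2.add (contDiffAt_fst.smul b2))

theorem cont_D (hv : ContDiffOn ℝ 2 v (strip α β)) :
    ContinuousOn (fderiv ℝ v) (strip α β) :=
  hv.continuousOn_fderiv_of_isOpen (isOpen_strip α β) (by norm_num)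

theorem cont_Dθ (hv : ContDiffOn ℝ 2 v (strip α β)) {t : ℝ} (ht : t ∈ Ioo α β) :
    Continuous fun θ : ℝ => fderiv ℝ v (t + θ * I) :=
  (cont_D hv).comp_continuous (by fun_prop) fun θ => mem_strip ht θ

/-- the oscillation along a loop is bounded by its length -/
theorem osc_le [CompleteSpace V] (hv : ContDiffOn ℝ 2 v (strip α β)) {t T θ : ℝ}
    (ht : t ∈ Ioo α β) (hθ : θ ∈ Icc 0 T) :
    ‖v (t + θ * I) - v (pr (t + θ * I))‖ ≤ ∫ φ in (0 : ℝ)..T, ‖fderiv ℝ v (t + φ * I)‖ := by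
  have hc := cont_Dθ hv ht
  have hd : ∀ φ : ℝ, HasDerivAt (fun φ : ℝ => v (t + φ * I)) (fderiv ℝ v (t + φ * I) I) φ :=
    fun φ => ((at_v hv (mem_strip ht φ)).differentiableAt two_ne_zero).hasFDerivAt.comp_hasDerivAt
      φ (hasDerivAt_line_θ t φ)
  rw [pr_line, ← intervalIntegral.integral_eq_sub_of_hasDerivAt (fun φ _ => hd φ)
    ((hc.clm_apply continuous_const).intervalIntegrable _ _)]
  refine (intervalIntegral.norm_integral_le_of_norm_le hθ.1
    (Eventually.of_forall fun φ _ => ?_) (hc.norm.intervalIntegrable _ _)).trans ?_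
  · simpa using (fderiv ℝ v (t + φ * I)).le_opNorm I
  · exact intervalIntegral.integral_mono_interval le_rfl hθ.1 hθ.2
      (Eventually.of_forall fun φ => norm_nonneg _) (hc.norm.intervalIntegrable _ _)

theorem strip_est [CompleteSpace V] (h1 : StokesStmt) {O K : Set V} {ρ Ω δ c T : ℝ} (hT : 0 < T)
    (hom : ContDiff ℝ 1 om) (han : Anti om) (hcl : ClosedOn om O) (hO : cthickening ρ K ⊆ O)
    (hΩ : ∀ x ∈ cthickening ρ K, ‖om x‖ ≤ Ω) (hΩ0 : 0 < Ω) (hc : 0 ≤ c) (hδ : T * δ ≤ ρ)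
    (hv : ContDiffOn ℝ 2 v (strip α β)) (hK : MapsTo v (strip α β) K)
    (hper : ∀ t : ℝ, v (t + T * I) = v (t + (0 : ℝ) * I))
    (hb : ∀ ζ ∈ strip α β, ‖fderiv ℝ v ζ‖ ≤ δ)
    (htm : ∀ ζ ∈ strip α β, c * ‖fderiv ℝ v ζ‖ ^ 2 ≤ dens om v ζ)
    {x₀ x y y₀ : ℝ} (hx₀ : α < x₀) (hx : x₀ ≤ x) (hxy : x ≤ y) (hy : y ≤ y₀) (hy₀ : y₀ < β) :
    c * ∫ p in Icc x y ×ˢ Icc 0 T, ‖fderiv ℝ v (p.1 + p.2 * I)‖ ^ 2 ≤ Ω * (T * δ) ^ 2 *
      (Real.exp (-(c / (Ω * T)) * (y₀ - y)) + Real.exp (-(c / (Ω * T)) * (x - x₀))) := by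
  set l : ℝ → ℝ := fun t => ∫ φ in (0 : ℝ)..T, ‖fderiv ℝ v (t + φ * I)‖ with hl
  set E : ℝ → ℝ := fun t => ∫ φ in (0 : ℝ)..T, ‖fderiv ℝ v (t + φ * I)‖ ^ 2 with hE
  set e : ℝ → ℝ := fun t => ∫ φ in (0 : ℝ)..T, dens om v (t + φ * I) with he
  set a : ℝ → ℝ := fun t => ∫ p in Icc (0 : ℝ) 1 ×ˢ Icc 0 T, cone om v (p.1, t + p.2 * I) I
    with ha
  have l0 : ∀ t, 0 ≤ l t := fun t =>
    intervalIntegral.integral_nonneg hT.le fun φ _ => norm_nonneg _
  have l1 : ∀ t ∈ Ioo α β, l t ≤ T * δ := by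
    intro t ht
    have := intervalIntegral.norm_integral_le_of_norm_le_const (a := 0) (b := T) (C := δ)
      (f := fun φ : ℝ => ‖fderiv ℝ v (t + φ * I)‖) fun φ _ => by
        simpa using hb _ (mem_strip ht φ)
    rw [sub_zero, abs_of_pos hT, mul_comm] at this
    exact (le_abs_self _).trans this
  have l2 : ∀ t ∈ Ioo α β, l t ^ 2 ≤ T * E t := fun t ht => sq_int_le hT (cont_Dθ hv ht).norm
  have hin : ∀ t ∈ Ioo α β, ∀ θ ∈ Icc 0 T, ∀ s ∈ Icc (0 : ℝ) 1,
      v (pr (t + θ * I)) + s • (v (t + θ * I) - v (pr (t + θ * I))) ∈ cthickening ρ K := by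
    intro t ht θ hθ s hs
    refine mem_cthickening_of_dist_le _ _ _ _ (hK (pr_mem (mem_strip ht θ))) ?_
    rw [dist_eq_norm, add_sub_cancel_left, norm_smul, Real.norm_of_nonneg hs.1]
    exact (mul_le_of_le_one_left (norm_nonneg _) hs.2).trans
      ((osc_le hv ht hθ).trans ((l1 t ht).trans hδ))
  -- the derivative of the action
  have hda : ∀ t ∈ Ioo α β, HasDerivAt a (e t) t := by
    intro t ht
    have := action hT.le (cone_smooth hv hom)
      (F := fun s ζ => om (v (pr ζ) + s • (v ζ - v (pr ζ)))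
        (fderiv ℝ (fun y => v (pr y)) ζ 1 + s • fderiv ℝ (fun y => v y - v (pr y)) ζ 1)
        (fderiv ℝ (fun y => v (pr y)) ζ I + s • fderiv ℝ (fun y => v y - v (pr y)) ζ I))
      (fun t ht θ hθ s hs => h1.2.1 V ℂ om (fun y => v (pr y)) (fun y => v y - v (pr y))
        (t + θ * I) 1 I s hom han
        (fun x hx => hcl x (by rw [mem_singleton_iff.1 hx]; exact hO (hin t ht θ hθ s hs)))
        (at_A hv (mem_strip ht θ)) (at_B hv (mem_strip ht θ)))
      (fun t _ s => by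
        constructor
        · simp only [cone, pr_line, sub_self, map_zero, ContinuousLinearMap.zero_comp,
            _root_.zero_apply]
        · simp only [cone, pr_line, hper, sub_self, map_zero, ContinuousLinearMap.zero_comp,
            _root_.zero_apply]) ht
    refine this.congr_deriv (intervalIntegral.integral_congr fun θ _ => ?_)
    have hm := mem_strip ht θ
    simp only [dens, fderiv_B hv hm, fderiv_A hv hm, one_smul, zero_smul, add_zero, map_zero,
      sub_zero, add_sub_cancel, _root_.sub_apply, zero_add]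
  -- the action is bounded by the square of the length
  have hab : ∀ t ∈ Ioo α β, |a t| ≤ Ω * l t ^ 2 := by
    intro t ht
    have hcL : Continuous fun p : ℝ × ℝ => cone om v (p.1, t + p.2 * I) I :=
      ((cone_smooth hv hom).continuousOn.comp_continuous (by fun_prop)
        fun p => ⟨mem_univ _, mem_strip ht p.2⟩).clm_apply continuous_const
    have h2 := intervalIntegral.norm_integral_le_of_norm_le_const (a := 0) (b := 1)
      (C := Ω * l t ^ 2) (f := fun s : ℝ => ∫ θ in (0 : ℝ)..T, cone om v (s, t + θ * I) I) ?_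
    · rw [sub_zero, abs_one, mul_one, Real.norm_eq_abs] at h2
      rw [ha]
      simp only
      rw [(box_int zero_le_one hT.le hcL.continuousOn).1]
      exact h2
    intro s hs
    rw [uIoc_of_le zero_le_one] at hs
    have h3 := intervalIntegral.norm_integral_le_of_norm_le (μ := volume) hT.le
      (f := fun θ : ℝ => cone om v (s, t + θ * I) I)
      (g := fun θ : ℝ => Ω * l t * ‖fderiv ℝ v (t + θ * I)‖)
      (Eventually.of_forall fun θ hθ => ?_)
      ((continuous_const.mul (cont_Dθ hv ht).norm).intervalIntegrable _ _)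
    · rw [intervalIntegral.integral_const_mul] at h3
      refine h3.trans (le_of_eq ?_)
      simp only [hl]
      ring
    have hm := mem_strip ht θ
    have hθ' : θ ∈ Icc 0 T := Ioc_subset_Icc_self hθ
    simp only [cone, fderiv_B hv hm, ContinuousLinearMap.comp_apply, _root_.add_apply,
      _root_.smul_apply, _root_.sub_apply, fderiv_A hv hm, sub_zero,
      zero_add]
    refine (ContinuousLinearMap.le_opNorm₂ _ _ _).trans ?_
    have n1 := hΩ _ (hin t ht θ hθ' s (Ioc_subset_Icc_self hs))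
    have n2 : ‖v (t + θ * I) - v (pr (t + θ * I))‖ ≤ l t := osc_le hv ht hθ'
    have n3 : ‖s • fderiv ℝ v (t + θ * I) I‖ ≤ ‖fderiv ℝ v (t + θ * I)‖ := by
      rw [norm_smul, Real.norm_of_nonneg hs.1.le]
      refine (mul_le_of_le_one_left (norm_nonneg _) hs.2).trans ?_
      simpa using (fderiv ℝ v (t + θ * I)).le_opNorm I
    exact mul_le_mul (mul_le_mul n1 n2 (norm_nonneg _) hΩ0.le) n3 (norm_nonneg _)
      (mul_nonneg hΩ0.le (l0 t))
  have hEe : ∀ t ∈ Ioo α β, c * E t ≤ e t := by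
    intro t ht
    have hcD := cont_Dθ hv ht
    have hcv : Continuous fun θ : ℝ => v (t + θ * I) :=
      hv.continuousOn.comp_continuous (by fun_prop) fun θ => mem_strip ht θ
    have hcd : Continuous fun θ : ℝ => dens om v (t + θ * I) :=
      ((hom.continuous.comp hcv).clm_apply (hcD.clm_apply continuous_const)).clm_apply
        (hcD.clm_apply continuous_const)
    rw [hE]
    simp only
    rw [← intervalIntegral.integral_const_mul]
    exact intervalIntegral.integral_mono_on hT.le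
      ((continuous_const.mul (hcD.norm.pow 2)).intervalIntegrable _ _)
      (hcd.intervalIntegrable _ _) fun θ _ => htm _ (mem_strip ht θ)
  have hκ : ∀ t ∈ Ioo α β, c / (Ω * T) * |a t| ≤ e t := by
    intro t ht
    refine le_trans ?_ (hEe t ht)
    have h2 : |a t| ≤ Ω * (T * E t) :=
      (hab t ht).trans (mul_le_mul_of_nonneg_left (l2 t ht) hΩ0.le)
    have h3 := mul_le_mul_of_nonneg_left h2 (div_nonneg hc (mul_pos hΩ0 hT).le)
    refine h3.trans (le_of_eq ?_)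
    field_simp
  have hC : ∀ t ∈ Ioo α β, |a t| ≤ Ω * (T * δ) ^ 2 := fun t ht =>
    (hab t ht).trans (mul_le_mul_of_nonneg_left (pow_le_pow_left₀ (l0 t) (l1 t ht) 2) hΩ0.le)
  have mx₀ : x₀ ∈ Ioo α β := ⟨hx₀, by linarith⟩
  have mx : x ∈ Ioo α β := ⟨by linarith, by linarith⟩
  have my : y ∈ Ioo α β := ⟨by linarith, by linarith⟩
  have my₀ : y₀ ∈ Ioo α β := ⟨by linarith, hy₀⟩
  have d1 := (decay hda hκ (div_nonneg hc (mul_pos hΩ0 hT).le) hC my my₀ hy).1
  have d2 := (decay hda hκ (div_nonneg hc (mul_pos hΩ0 hT).le) hC mx₀ mx hx).2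
  have hsub : Icc x y ⊆ Ioo α β := fun t ht => ⟨by linarith [ht.1], by linarith [ht.2]⟩
  have hcb : ContinuousOn (fun p : ℝ × ℝ => ‖fderiv ℝ v (p.1 + p.2 * I)‖ ^ 2)
      (Icc x y ×ˢ Icc 0 T) :=
    (((cont_D hv).comp (by fun_prop) fun p hp => mem_strip (hsub hp.1) p.2).norm).pow 2
  obtain ⟨b1, -, b3⟩ := box_int hxy hT.le hcb
  have h4 := intervalIntegral.integral_le_sub_of_hasDeriv_right_of_le (g := a) (g' := e)
    (φ := fun t => c * E t) hxy
    (fun t ht => (hda t (hsub ht)).continuousAt.continuousWithinAt)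
    (fun t ht => (hda t (hsub (Ioo_subset_Icc_self ht))).hasDerivWithinAt) (b3.const_mul c)
    fun t ht => hEe t (hsub (Ioo_subset_Icc_self ht))
  rw [intervalIntegral.integral_const_mul] at h4
  rw [b1, mul_add]
  exact h4.trans (by linarith)

end Strip

/-! from the annulus to the strip -/

section Ann
variable {V : Type} [NormedAddCommGroup V] [NormedSpace ℝ V]

theorem en_le_box {α β : ℝ} {v : ℂ → V} (hv : ContDiffOn ℝ 2 v (strip α β)) (hα : α < -(1 / 2))
    (hβ : 1 / 2 < β) : En v (closedBall (Real.pi * I) (1 / 2)) ≤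
      ∫ p in Icc (-(1 / 2) : ℝ) (1 / 2) ×ˢ Icc 0 (2 * Real.pi),
        ‖fderiv ℝ v (p.1 + p.2 * I)‖ ^ 2 := by
  have he : (fun p : ℝ × ℝ => (p.1 + p.2 * I : ℂ)) = measurableEquivRealProd.symm := by
    funext p
    rw [measurableEquivRealProd_symm_apply, mk_eq_add_mul_I]
  have hmp : MeasurePreserving (fun p : ℝ × ℝ => (p.1 + p.2 * I : ℂ)) volume volume := by
    rw [he]; exact volume_preserving_equiv_real_prod.symm _
  have hme : MeasurableEmbedding fun p : ℝ × ℝ => (p.1 + p.2 * I : ℂ) := by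
    rw [he]; exact measurableEquivRealProd.symm.measurableEmbedding
  rw [← hmp.setIntegral_image_emb hme (fun ζ => ‖fderiv ℝ v ζ‖ ^ 2)]
  have hcp : IsCompact ((fun p : ℝ × ℝ => (p.1 + p.2 * I : ℂ)) ''
      (Icc (-(1 / 2) : ℝ) (1 / 2) ×ˢ Icc 0 (2 * Real.pi))) :=
    (isCompact_Icc.prod isCompact_Icc).image (by fun_prop)
  refine setIntegral_mono_set (ContinuousOn.integrableOn_compact hcp
    ((((cont_D hv).mono ?_).norm).pow 2)) (Eventually.of_forall fun ζ => sq_nonneg _)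
    (LE.le.eventuallyLE fun ζ hζ => ?_)
  · rintro _ ⟨p, hp, rfl⟩
    exact mem_strip ⟨by linarith [hp.1.1], by linarith [hp.1.2]⟩ _
  · rw [mem_closedBall, dist_eq_norm] at hζ
    have h1 := abs_le.1 ((abs_re_le_norm _).trans hζ)
    have h2 := abs_le.1 ((abs_im_le_norm _).trans hζ)
    simp only [sub_re, mul_re, ofReal_re, I_re, mul_zero, ofReal_im, I_im, mul_one, sub_self,
      sub_zero, sub_im, mul_im, add_zero] at h1 h2
    have := Real.pi_gt_three
    exact ⟨(ζ.re, ζ.im), ⟨⟨h1.1, h1.2⟩, ⟨by linarith [h2.1], by linarith [h2.2]⟩⟩, re_add_im ζ⟩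

theorem ball_sub_strip {α β : ℝ} (hα : α < -(1 / 2)) (hβ : 1 / 2 < β) :
    closedBall (Real.pi * I : ℂ) (1 / 2) ⊆ strip α β := by
  intro ζ hζ
  rw [mem_closedBall, dist_eq_norm] at hζ
  have h1 := abs_le.1 ((abs_re_le_norm _).trans hζ)
  simp only [sub_re, mul_re, ofReal_re, I_re, mul_zero, ofReal_im, I_im, mul_one, sub_self,
    sub_zero] at h1
  exact ⟨by linarith [h1.1], by linarith [h1.2]⟩

/-- tameness bounds the energy density by the area density -/
theorem tame_dens {M K : Set V} {om : F2 V} {R Λ c : ℝ} {J : V → En0 V} (hKM : K ⊆ M)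
    (hJ : EnvJ M K om R Λ c J) {v : ℂ → V} {S : Set ℂ} (hS : IsOpen S) (hv : IsHol J v S)
    (hK : MapsTo v S K) {ζ : ℂ} (hζ : ζ ∈ S) :
    c / (1 + |Λ|) ^ 2 * ‖fderiv ℝ v ζ‖ ^ 2 ≤ dens om v ζ := by
  have hd : DifferentiableAt ℝ v ζ :=
    (hv.sm.contDiffAt (hS.mem_nhds hζ)).differentiableAt two_ne_zero
  have ht : fderiv ℝ v ζ 1 ∈ tan M (v ζ) :=
    fderiv_mem_tan hd (by filter_upwards [hS.mem_nhds hζ] with y hy using hKM (hK hy)) 1
  have h1 := hJ.tm _ (hK hζ) _ ht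
  have h2 : ‖J (v ζ)‖ ≤ |Λ| := (hJ.ub.bd _ (hJ.ub.sub (hK hζ))).1.trans (le_abs_self _)
  have h3 : ‖fderiv ℝ v ζ‖ ≤ (1 + |Λ|) * ‖fderiv ℝ v ζ 1‖ := by
    refine (norm_fderiv_le_two _).trans ?_
    rw [hv.cr ζ hζ]
    have := ((J (v ζ)).le_opNorm (fderiv ℝ v ζ 1)).trans
      (mul_le_mul_of_nonneg_right h2 (norm_nonneg _))
    linarith
  have h4 : 0 < 1 + |Λ| := by positivity
  have h5 := pow_le_pow_left₀ (norm_nonneg _) h3 2
  have h6 := mul_le_mul_of_nonneg_left h5 (div_nonneg hJ.pos.le (pow_pos h4 2).le)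
  have h7 : c / (1 + |Λ|) ^ 2 * ((1 + |Λ|) * ‖fderiv ℝ v ζ 1‖) ^ 2 = c * ‖fderiv ℝ v ζ 1‖ ^ 2 := by
    field_simp
  rw [dens, hv.cr ζ hζ]
  linarith

theorem fderiv_exp_comp {u : ℂ → V} {z q ζ : ℂ} (hu : DifferentiableAt ℝ u (z - q * exp ζ))
    (a : ℂ) : fderiv ℝ (u ∘ fun ζ => z - q * exp ζ) ζ a =
      fderiv ℝ u (z - q * exp ζ) (a * -(q * exp ζ)) := by
  have h1 : HasDerivAt (fun ζ => z - q * exp ζ) (-(q * exp ζ)) ζ :=
    ((hasDerivAt_exp ζ).const_mul q).const_sub z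
  rw [(hu.hasFDerivAt.comp ζ (h1.hasFDerivAt.restrictScalars ℝ)).fderiv]
  simp

theorem sixth_le {E D x y : ℝ} (hE : 0 ≤ E) (hD : 0 ≤ D) (hx : 0 ≤ x) (hy : 0 ≤ y)
    (h : E ≤ D ^ 6 * (x ^ 6 + y ^ 6)) : E ^ (6⁻¹ : ℝ) ≤ D * (x + y) := by
  have h1 : E ≤ (D * (x + y)) ^ 6 := by
    rw [mul_pow]
    exact h.trans (mul_le_mul_of_nonneg_left (pow_add_pow_le hx hy (by norm_num)) (by positivity))
  have h2 := Real.rpow_le_rpow hE h1 (z := 6⁻¹) (by norm_num)
  have h3 := Real.pow_rpow_inv_natCast (x := D * (x + y)) (n := 6) (by positivity) (by norm_num)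
  rw [Nat.cast_ofNat] at h3
  rwa [h3] at h2

omit [NormedSpace ℝ V] in
theorem exists_bd {E : Type} [NormedAddCommGroup E] {f : V → E} {s : Set V} (hs : IsCompact s)
    (hf : Continuous f) : ∃ C, ∀ x ∈ s, ‖f x‖ ≤ C :=
  hs.exists_bound_of_continuousOn hf.continuousOn

end Ann

end NeckP

open NeckP in
theorem neck_of (h1 : StokesStmt) (h2 : ApriStmt) : NeckStmt := by
  intro V _ _ _ O M K om R Λ c hE
  have : CompleteSpace V := FiniteDimensional.complete ℝ V
  have : ProperSpace V := FiniteDimensional.proper_real V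
  by_cases hc : 0 < c
  swap
  · exact ⟨1, one_pos, 1, one_pos, 0, fun J hJ => absurd hJ.pos hc⟩
  obtain ⟨ρ, hρ, hO⟩ := hE.cpt.exists_cthickening_subset_open hE.op hE.subO
  obtain ⟨Ω₀, hΩ₀⟩ : ∃ Ω₀, ∀ x ∈ cthickening ρ K, ‖om x‖ ≤ Ω₀ :=
    exists_bd (E := V →L[ℝ] V →L[ℝ] ℝ) hE.cpt.cthickening hE.sm.continuous
  obtain ⟨hb, hhb, C, hC⟩ := (h2 V).2.2 R Λ
  set Ω := |Ω₀| + 1 with hΩ
  have hΩ0 : 0 < Ω := by positivity
  set c' := c / (1 + |Λ|) ^ 2 with hc'
  have hc0 : 0 < c' := by positivity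
  have hT : 0 < 2 * Real.pi := Real.two_pi_pos
  set η := min ρ (min 1 (c' * min hb 1 / (2 * Ω))) with hη
  have hη0 : 0 < η := lt_min hρ (lt_min one_pos (by positivity))
  have hη1 : Ω * η ^ 2 ≤ c' * (min hb 1 / 2) := by
    have e1 : η ≤ 1 := (min_le_right _ _).trans (min_le_left _ _)
    have e2 : η ≤ c' * min hb 1 / (2 * Ω) := (min_le_right _ _).trans (min_le_right _ _)
    have e3 : η ^ 2 ≤ c' * min hb 1 / (2 * Ω) := by
      rw [sq]
      exact (mul_le_of_le_one_left hη0.le e1).trans e2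
    refine (mul_le_mul_of_nonneg_left e3 hΩ0.le).trans (le_of_eq ?_)
    field_simp
  set κ := c' / (Ω * (2 * Real.pi)) with hκ
  have hκ0 : 0 < κ := by positivity
  refine ⟨η / (2 * Real.pi), by positivity, κ / 6, by positivity, 2 * |C| * Real.exp (κ / 10),
    fun J hJ u z a b ha hu hb' w hw1 hw2 => ?_⟩
  obtain ⟨N, hN, hLN, hhol, hmap⟩ := hu
  set q := w - z with hq
  have hq0 : 0 < ‖q‖ := by linarith
  have hb0 : 0 < b := by linarith
  set α := Real.log (a / ‖q‖) with hα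
  set β := Real.log (b / ‖q‖) with hβ
  have hlog := Real.log_two_gt_d9
  have hα1 : α ≤ -Real.log 2 := by
    rw [← Real.log_inv]
    refine Real.log_le_log (by positivity) ?_
    rw [div_le_iff₀ hq0]
    linarith
  have hβ1 : Real.log 2 ≤ β := by
    refine Real.log_le_log two_pos ?_
    rw [le_div_iff₀ hq0]
    linarith
  have hnorm : ∀ ζ ∈ strip α β, a ≤ ‖z - q * exp ζ - z‖ ∧ ‖z - q * exp ζ - z‖ ≤ b := by
    intro ζ hζ
    rw [sub_sub_cancel_left, norm_neg, norm_mul, norm_exp]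
    have e1 := Real.exp_le_exp.2 hζ.1.le
    have e2 := Real.exp_le_exp.2 hζ.2.le
    rw [hα, Real.exp_log (by positivity), div_le_iff₀ hq0] at e1
    rw [hβ, Real.exp_log (by positivity), le_div_iff₀ hq0] at e2
    constructor <;> linarith
  have hmN : MapsTo (fun ζ => z - q * exp ζ) (strip α β) N := fun ζ hζ =>
    hLN ⟨by rw [mem_closedBall, dist_eq_norm]; exact (hnorm ζ hζ).2,
      by rw [mem_ball, dist_eq_norm, not_lt]; exact (hnorm ζ hζ).1⟩
  have hv : IsHol J (u ∘ fun ζ => z - q * exp ζ) (strip α β) :=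
    hhol.comp hN (isOpen_strip α β) (fun y hy => hJ.ub.sq _ (hmap hy)) (by fun_prop) hmN
  have hvK : MapsTo (u ∘ fun ζ => z - q * exp ζ) (strip α β) K := hmap.comp hmN
  have hdu : ∀ ζ ∈ strip α β, DifferentiableAt ℝ u (z - q * exp ζ) := fun ζ hζ =>
    (hhol.sm.contDiffAt (hN.mem_nhds (hmN hζ))).differentiableAt two_ne_zero
  have hTδ : 2 * Real.pi * (η / (2 * Real.pi)) = η := by field_simp
  have hα2 : α < -(1 / 2) := by linarith
  have hβ2 : 1 / 2 < β := by linarith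
  have est := strip_est h1 (O := O) (K := K) (ρ := ρ) (Ω := Ω) (δ := η / (2 * Real.pi)) (c := c')
    hT hE.sm hE.an hE.cl hO
    (fun x hx => (hΩ₀ x hx).trans (by linarith [le_abs_self Ω₀])) hΩ0 hc0.le
    (by rw [hTδ]; exact min_le_left _ _) hv.sm hvK
    (fun t => by
      have : exp (t + (2 * Real.pi : ℝ) * I) = exp (t + (0 : ℝ) * I) := by
        rw [exp_add, exp_add]
        push_cast
        rw [exp_two_pi_mul_I, zero_mul, exp_zero]
      simp only [Function.comp_apply, this])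
    (fun ζ hζ => by
      refine le_trans (ContinuousLinearMap.opNorm_le_bound _ (by positivity) fun y => ?_)
        (hb' _ (hnorm ζ hζ).1 (hnorm ζ hζ).2)
      rw [fderiv_exp_comp (hdu ζ hζ), sub_sub_cancel_left]
      refine (ContinuousLinearMap.le_opNorm _ _).trans (le_of_eq ?_)
      rw [norm_mul]
      ring)
    (fun ζ hζ => tame_dens hE.subM hJ (isOpen_strip α β) hv hvK hζ)
    (x₀ := α + 1 / 10) (x := -(1 / 2)) (y := 1 / 2) (y₀ := β - 1 / 10)
    (by linarith) (by linarith) (by norm_num) (by linarith) (by linarith)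
  rw [hTδ, ← hκ] at est
  have hen := en_le_box hv.sm hα2 hβ2
  set En0 := En (u ∘ fun ζ => z - q * exp ζ) (closedBall (Real.pi * I) (1 / 2)) with hEn
  have hEn0 : 0 ≤ En0 := integral_nonneg fun ζ => sq_nonneg _
  set E₁ := Real.exp (-κ * (β - 1 / 10 - 1 / 2)) with hE₁
  set E₂ := Real.exp (-κ * (-(1 / 2) - (α + 1 / 10))) with hE₂
  have hE₁0 : 0 < E₁ := Real.exp_pos _
  have hE₂0 : 0 < E₂ := Real.exp_pos _
  have hE₁1 : E₁ ≤ 1 := Real.exp_le_one_iff.2
    (mul_nonpos_of_nonpos_of_nonneg (neg_nonpos.2 hκ0.le) (by linarith only [hβ1, hlog]))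
  have hE₂1 : E₂ ≤ 1 := Real.exp_le_one_iff.2
    (mul_nonpos_of_nonpos_of_nonneg (neg_nonpos.2 hκ0.le) (by linarith only [hα1, hlog]))
  have hmin : 0 < min hb 1 := lt_min hhb one_pos
  have hEn1 : En0 ≤ min hb 1 / 2 * (E₁ + E₂) := by
    have e1 := (mul_le_mul_of_nonneg_left hen hc0.le).trans
      (est.trans (mul_le_mul_of_nonneg_right hη1 (add_pos hE₁0 hE₂0).le))
    rw [mul_assoc] at e1
    exact le_of_mul_le_mul_left e1 hc0
  have hEn2 : En0 ≤ hb := by
    have := mul_le_mul_of_nonneg_left (add_le_add hE₁1 hE₂1) (half_pos hmin).le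
    linarith only [this, hEn1, min_le_left hb 1]
  have hEn3 : En0 ≤ E₂ + E₁ := by
    have := mul_le_mul_of_nonneg_right (min_le_right hb 1) (add_pos hE₁0 hE₂0).le
    linarith only [this, hEn1, hE₁0, hE₂0]
  have hap := hC K J hJ.ub _ (Real.pi * I) (1 / 2) one_half_pos
    ⟨strip α β, isOpen_strip α β, ball_sub_strip hα2 hβ2, hv, hvK⟩ hEn2
  have hX : (a / ‖q‖) ^ (κ / 6) = Real.exp (α * (κ / 6)) :=
    Real.rpow_def_of_pos (by positivity) _
  have hY : (‖q‖ / b) ^ (κ / 6) = Real.exp (-β * (κ / 6)) := by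
    rw [Real.rpow_def_of_pos (by positivity), hβ, ← Real.log_inv, inv_div]
  have hsix : En0 ^ (6⁻¹ : ℝ) ≤
      Real.exp (κ / 10) * ((a / ‖q‖) ^ (κ / 6) + (‖q‖ / b) ^ (κ / 6)) := by
    refine sixth_le hEn0 (Real.exp_pos _).le (by positivity) (by positivity)
      (hEn3.trans (le_of_eq ?_))
    rw [hX, hY, mul_add, ← Real.exp_nat_mul, ← Real.exp_nat_mul, ← Real.exp_nat_mul,
      ← Real.exp_add, ← Real.exp_add, hE₁, hE₂]
    congr 2 <;> push_cast <;> ring
  have hπ : (Real.pi * I : ℂ) ∈ strip α β :=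
    ball_sub_strip hα2 hβ2 (mem_closedBall_self (by norm_num))
  have hlow : ‖fderiv ℝ u w‖ * ‖q‖ ≤ ‖fderiv ℝ (u ∘ fun ζ => z - q * exp ζ) (Real.pi * I)‖ := by
    rw [← le_div_iff₀ hq0]
    refine ContinuousLinearMap.opNorm_le_bound _ (by positivity) fun y => ?_
    have e1 := fderiv_exp_comp (hdu _ hπ) (y * q⁻¹)
    have hqne : q ≠ 0 := norm_pos_iff.1 hq0
    have e2 : z - q * -1 = w := by rw [hq]; ring
    have e3 : y * q⁻¹ * -(q * -1) = y := by field_simp
    rw [exp_pi_mul_I, e2, e3] at e1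
    rw [← e1]
    refine (ContinuousLinearMap.le_opNorm _ _).trans (le_of_eq ?_)
    rw [norm_mul, norm_inv]
    ring
  have hfin : C * En0 ^ (6⁻¹ : ℝ) ≤
      |C| * (Real.exp (κ / 10) * ((a / ‖q‖) ^ (κ / 6) + (‖q‖ / b) ^ (κ / 6))) :=
    mul_le_mul (le_abs_self C) hsix (Real.rpow_nonneg hEn0 _) (abs_nonneg C)
  linarith only [hap, hfin, hlow]

end

end Pool.Agent.MP_9758ca_gt

end MrgPart0

-- ======== part 1: formerly Pool.Agent.MP_9758ca_gt.QC
section MrgPart1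

section

/-!
PROJECT BALL, module EXPL2: the areas of the explicit sphere.
-/

open scoped Topology ContDiff ComplexConjugate
open Set Metric Filter Complex MeasureTheory

namespace Pool.Agent.MP_9758ca_gt

namespace Expl2P

theorem nl_smul (xs : ℝ) (c : ℂ) (v : C2) : nl xs (c • v) = c • nl xs v := by
  funext i
  fin_cases i <;> simp [nl] <;> ring

theorem nl_add (xs : ℝ) (v w : C2) : nl xs (v + w) = nl xs v + nl xs w := by
  funext i
  fin_cases i <;> simp [nl] <;> ring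

/-- the line as a continuous linear map -/
noncomputable def nL (xs : ℝ) : C2 →L[ℝ] C3 :=
  LinearMap.toContinuousLinearMap
    { toFun := nl xs
      map_add' := nl_add xs
      map_smul' := fun c v => nl_smul xs c v }

theorem nL_apply (xs : ℝ) (v : C2) : nL xs v = nl xs v := rfl

theorem smn (xs : ℝ) : ContDiff ℝ ∞ (nl xs) := (nL xs).contDiff

theorem one_le : (1 : WithTop ℕ∞) ≤ ∞ := WithTop.coe_le_coe.2 (le_top : (1 : ℕ∞) ≤ ⊤)
theorem two_le : (2 : WithTop ℕ∞) ≤ ∞ := WithTop.coe_le_coe.2 (le_top : (2 : ℕ∞) ≤ ⊤)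

theorem mem_tan_univ (v w : C2) : w ∈ tan (univ : Set C2) v := by
  have := fderiv_mem_tan (S := univ) (g := fun y : C2 => y) (y := v) differentiableAt_id
    (Eventually.of_forall fun _ => mem_univ _) w
  rwa [fderiv_fun_id] at this

theorem ext_cont {f g : C2 → ℝ} {v₀ : C2} (hf : ContinuousAt f v₀) (hg : ContinuousAt g v₀)
    (h : ∀ v : C2, v.1 ≠ 0 → f v = g v) : f v₀ = g v₀ := by
  have d : Dense (Prod.fst ⁻¹' ({0}ᶜ : Set ℂ) : Set C2) :=
    (dense_compl_singleton 0).preimage isOpenMap_fst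
  exact tendsto_nhds_unique_of_frequently_eq hf hg
    ((mem_closure_iff_frequently.1 (d v₀)).mono fun v hv => h v hv)

theorem ne_of_fst {v : C2} (h : v.1 ≠ 0) : v ≠ 0 := fun e => h (by rw [e]; rfl)
theorem ne_of_snd {v : C2} (h : v.2 ≠ 0) : v ≠ 0 := fun e => h (by rw [e]; rfl)

/-! ### the Fubini-Study part -/

noncomputable def lH (xs : ℝ) : F1 C2 := fun v => (th (nL xs v)).comp (nL xs)

theorem areaH (h2 : StokesStmt) {xs : ℝ} (hn : ∀ v, v ≠ 0 → nl xs v ≠ 0) :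
    Integrable (fun z : ℂ => dd (lH xs) (z, 1) (1, 0) (I, 0)) ∧
      ∫ z : ℂ, dd (lH xs) (z, 1) (1, 0) (I, 0) = 1 := by
  have h := h2.1 (lH xs) (1 / (2 * Real.pi)) (fun v hv => ?_) (fun c hc v hv w => ?_)
    fun v hv => ⟨?_, ?_⟩
  · refine ⟨h.1, h.2.trans ?_⟩
    have := Real.pi_pos
    field_simp
  · exact ((((contDiffAt_th (hn v hv)).of_le one_le).comp v
      (nL xs).contDiff.contDiffAt).clm_comp contDiffAt_const).contDiffWithinAt
  · have := th_scale (hn v hv) hc 0 (nl xs w)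
    rw [zero_smul, zero_add, zero_div, zero_im, zero_div, add_zero, ← nl_smul, ← nl_smul] at this
    exact this
  · have := th_self (hn v hv) 1
    rw [one_smul, one_im, zero_div] at this
    exact this
  · have := th_self (hn v hv) I
    rw [← nl_smul, I_im] at this
    exact this

/-! ### the exceptional part -/

noncomputable def NV (j : ℤ) (xs : ℝ) (v : C2) : C4 := NN j (nl xs v) (-1) j

noncomputable def QV (xs : ℝ) (v : C2) : ℂ :=
  -(1 + xs + ys) * (ys * v.2 ^ 2 - ((1 + xs + ys) ^ 2 * v.1 ^ 2 - 3 * (1 + xs + ys) * v.1 * xs * v.2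
    + 3 * xs ^ 2 * v.2 ^ 2) / 400)

noncomputable def NW (xs : ℝ) (v : C2) : C4 :=
  nu (nl xs v) (QV xs v / (nsq (nl xs v) : ℂ) ^ 3) 0

noncomputable def dl : F1 C2 := fun y =>
  imCLM.comp ((mulC (y.1)⁻¹).comp (fderiv ℝ (fun y : C2 => y.1) y))

noncomputable def lS (j : ℤ) (xs : ℝ) : F1 C2 := fun v =>
  cut (nsq (NV j xs v)) • pb (NV j xs) th v

noncomputable def lT (j : ℤ) (xs : ℝ) : F1 C2 := fun v =>
  lS j xs v + (-(2 * Real.pi)⁻¹ : ℝ) • dl v

open Classical in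
noncomputable def lE (j : ℤ) (xs : ℝ) : F1 C2 := fun v =>
  if v.1 = 0 then pb (NW xs) th v else lT j xs v

variable {j : ℤ} {xs : ℝ}

theorem dl_apply (v w : C2) : dl v w = (w.1 / v.1).im := by
  rw [dl, fderiv_fst, div_eq_inv_mul]
  rfl

theorem cub_nl (h : Root xs) (v : C2) : cub (nl xs v) = v.1 * QV xs v := by
  have e := h.2.2
  simp only [cub, nl, QV, cuf, Matrix.cons_val_zero, Matrix.cons_val_one, Matrix.cons_val] at e ⊢
  linear_combination v.2 ^ 3 * e

theorem QV_ne (h : Root xs) {v : C2} (hv : v ≠ 0) (h1 : v.1 = 0) : QV xs v ≠ 0 := by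
  have h2 : v.2 ≠ 0 := fun e => hv (Prod.ext h1 e)
  have a := h.1
  have b := h.2.1
  have c := ys_pos
  have d := ys_sq
  have e : QV xs v = ((-(1 + xs + ys) * (ys - 3 * xs ^ 2 / 400) : ℝ) : ℂ) * v.2 ^ 2 := by
    rw [QV, h1]; push_cast; ring
  have f : 1 / 100 < ys := by nlinarith
  have g : 0 < ys - 3 * xs ^ 2 / 400 := by nlinarith
  rw [e]
  exact mul_ne_zero (ofReal_ne_zero.2 (mul_ne_zero (by linarith) g.ne')) (pow_ne_zero 2 h2)

theorem smNV {v : C2} (h : nl xs v ≠ 0) : ContDiffAt ℝ ∞ (NV j xs) v :=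
  ContDiffAt.comp (g := fun q : C3 × ℂ × ℝ => NN j q.1 q.2.1 q.2.2)
    (f := fun v => (nl xs v, ((-1 : ℂ), (j : ℝ)))) v (contDiffAt_NN j h)
    ((smn xs).contDiffAt.prodMk contDiffAt_const)

theorem smNW {v : C2} (h : nl xs v ≠ 0) : ContDiffAt ℝ ∞ (NW xs) v := by
  have a : ContDiffAt ℝ ∞ (QV xs) v := by
    unfold QV
    fun_prop
  have b : ContDiffAt ℝ ∞ (fun v => (nsq (nl xs v) : ℂ)) v :=
    ofRealCLM.contDiff.contDiffAt.comp v (contDiff_nsq.comp (smn xs)).contDiffAt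
  have c : ContDiffAt ℝ ∞ (fun v => QV xs v / (nsq (nl xs v) : ℂ) ^ 3) v := by
    simp only [div_eq_mul_inv]
    exact a.mul ((b.pow 3).inv (pow_ne_zero 3 (ofReal_ne_zero.2 (nsq_pos h).ne')))
  have d : ∀ i, ContDiffAt ℝ ∞
      (fun v => QV xs v / (nsq (nl xs v) : ℂ) ^ 3 * conj (nl xs v i) ^ 3) v := fun i =>
    c.mul ((conjCLE.contDiff.contDiffAt.comp v (contDiffAt_pi.1 (smn xs).contDiffAt i)).pow 3)
  refine contDiffAt_pi.2 fun i => ?_
  fin_cases i
  · exact d 0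
  · exact d 1
  · exact d 2
  · exact contDiffAt_const

theorem inv_NV : Inv (NV j xs) := fun c hc v _ => by
  rw [NV, nl_smul, NN_smul hc]; rfl

theorem NV_eq (h : Root xs) {v : C2} (ha : aa (nl xs v) = -1) : NV j xs v = v.1 • NW xs v := by
  have e : Xi j (nl xs v) (-1) j = 0 := by simp [Xi, ha]
  rw [NV, NN, e, NW, smul_nu, cub_nl h, mul_zero, mul_div_assoc]

theorem smdl {v : C2} (h : v.1 ≠ 0) : ContDiffAt ℝ ∞ dl v := by
  have e : dl = fun y : C2 => imCLM.comp ((mulC (y.1)⁻¹).comp (ContinuousLinearMap.fst ℝ ℂ ℂ)) :=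
    funext fun y => by rw [dl, fderiv_fst]
  rw [e]
  exact contDiffAt_const.clm_comp ((((ContinuousLinearMap.mul ℝ ℂ).contDiff.contDiffAt.comp v
    (contDiffAt_fst.inv h))).clm_comp contDiffAt_const)

theorem smlS {v : C2} (h : nl xs v ≠ 0) (h' : NV j xs v ≠ 0) : ContDiffAt ℝ 1 (lS j xs) v :=
  (((contDiff_stp _ _).contDiffAt.comp v
    (contDiff_nsq.contDiffAt.comp v (smNV h))).of_le one_le).smul
    (contDiffAt_pb (n := 1) ((smNV h).of_le two_le) ((contDiffAt_th h').of_le one_le))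

theorem smlT {v : C2} (h : nl xs v ≠ 0) (h' : NV j xs v ≠ 0) (h1 : v.1 ≠ 0) :
    ContDiffAt ℝ 1 (lT j xs) v :=
  (smlS h h').add (((smdl h1).of_le one_le).const_smul _)

theorem lE_eq {v : C2} (h : v.1 ≠ 0) : lE j xs =ᶠ[𝓝 v] lT j xs :=
  (continuous_fst.continuousAt.eventually_ne h).mono fun _ hw => if_neg hw

theorem dd_lE {v : C2} (h : nl xs v ≠ 0) (h' : NV j xs v ≠ 0) (h1 : v.1 ≠ 0) (a b : C2) :
    dd (lE j xs) v a b = dd (lS j xs) v a b := by
  have d := (smdl h1).differentiableAt (by simp)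
  have e0 : dd dl v a b = 0 := dd_dlog (g := fun y : C2 => y.1) contDiffAt_fst h1 a b
  have e1 := dd_smul (φ := fun _ : C2 => (-(2 * Real.pi)⁻¹ : ℝ)) (differentiableAt_const _) d a b
  have e2 := dd_add ((smlS h h').differentiableAt one_ne_zero)
    (d.const_smul (-(2 * Real.pi)⁻¹ : ℝ)) a b
  rw [e0, fderiv_fun_const] at e1
  rw [dd_congr (lE_eq h1)]
  refine e2.trans ((congrArg (dd (lS j xs) v a b + ·) e1).trans ?_)
  simp

theorem smlE (h : Root xs) (hn : ∀ v, v ≠ 0 → nl xs v ≠ 0 ∧ (NV j xs v = 0 ↔ v.1 = 0))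
    (ha : ∀ v₀ : C2, v₀ ≠ 0 → v₀.1 = 0 → ∀ᶠ v in 𝓝 v₀, aa (nl xs v) = -1) {v : C2} (hv : v ≠ 0) :
    ContDiffAt ℝ 1 (lE j xs) v := by
  by_cases h1 : v.1 = 0
  swap
  · exact (smlT (hn v hv).1 (mt (hn v hv).2.1 h1) h1).congr_of_eventuallyEq (lE_eq h1)
  have w0 : NW xs v ≠ 0 := fun e => div_ne_zero (QV_ne h hv h1)
    (pow_ne_zero 3 (ofReal_ne_zero.2 (nsq_pos (hn v hv).1).ne')) ((nu_eq_zero (hn v hv).1).1 e).1
  refine (contDiffAt_pb (n := 1) ((smNW (hn v hv).1).of_le two_le)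
    ((contDiffAt_th w0).of_le one_le)).congr_of_eventuallyEq ?_
  have c1 : ∀ᶠ w in 𝓝 v, nsq (NV j xs w) < 1 / 200000000 := by
    refine (contDiff_nsq.continuous.continuousAt.comp
      (smNV (hn v hv).1).continuousAt).eventually (gt_mem_nhds ?_)
    rw [Function.comp_apply, (hn v hv).2.2 h1, nsq_eq_zero.2 rfl]
    norm_num
  filter_upwards [c1, (ha v hv h1).eventually_nhds, nz_mem_nhds hv,
    (smNW (hn v hv).1).continuousAt.eventually_ne w0] with w a1 a2 a3 a4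
  by_cases hw : w.1 = 0
  · exact if_pos hw
  refine (if_neg hw).trans (ContinuousLinearMap.ext fun u => ?_)
  have e : NV j xs =ᶠ[𝓝 w] fun y => y.1 • NW xs y := a2.mono fun y hy => NV_eq h hy
  have d := (smNW (hn w a3).1).differentiableAt (by simp)
  have e1 : fderiv ℝ (NV j xs) w u = u.1 • NW xs w + w.1 • fderiv ℝ (NW xs) w u := by
    rw [e.fderiv_eq, add_comm]
    exact congrArg (fun T : C2 →L[ℝ] C4 => T u) (hasFDerivAt_fst.smul d.hasFDerivAt).fderiv
  change cut (nsq (NV j xs w)) * th (NV j xs w) (fderiv ℝ (NV j xs) w u) +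
    -(2 * Real.pi)⁻¹ * dl w u = th (NW xs w) (fderiv ℝ (NW xs) w u)
  rw [cut_one a1, e1, e.eq_of_nhds, th_scale a4 hw, dl_apply]
  ring

theorem lE_apply {v : C2} (h : v.1 ≠ 0) (w : C2) : lE j xs v w =
    cut (nsq (NV j xs v)) * th (NV j xs v) (fderiv ℝ (NV j xs) v w) +
      -(2 * Real.pi)⁻¹ * (w.1 / v.1).im := by
  rw [(lE_eq h).eq_of_nhds, ← dl_apply]
  rfl

theorem areaE (h2 : StokesStmt) (h : Root xs)
    (hn : ∀ v, v ≠ 0 → nl xs v ≠ 0 ∧ (NV j xs v = 0 ↔ v.1 = 0))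
    (ha : ∀ v₀ : C2, v₀ ≠ 0 → v₀.1 = 0 → ∀ᶠ v in 𝓝 v₀, aa (nl xs v) = -1) :
    Integrable (fun z : ℂ => dd (lE j xs) (z, 1) (1, 0) (I, 0)) ∧
      ∫ z : ℂ, dd (lE j xs) (z, 1) (1, 0) (I, 0) = -1 := by
  have ct : ∀ v, v ≠ 0 → ContinuousAt (lE j xs) v := fun v hv => (smlE h hn ha hv).continuousAt
  have d : ∀ v : C2, v.1 ≠ 0 → DifferentiableAt ℝ (NV j xs) v := fun v hv =>
    (smNV (hn v (ne_of_fst hv)).1).differentiableAt (by simp)
  have eu : ∀ (c : ℂ) (v : C2), v ≠ 0 → lE j xs v (c • v) = -(2 * Real.pi)⁻¹ * c.im := by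
    intro c v hv
    refine ext_cont (f := fun v => lE j xs v (c • v)) (g := fun _ => -(2 * Real.pi)⁻¹ * c.im)
      ((ct v hv).clm_apply (continuousAt_id.const_smul c)) continuousAt_const fun w hw => ?_
    rw [lE_apply hw, inv_NV.fderiv_self (ne_of_fst hw) (d w hw), map_zero, mul_zero, zero_add,
      Prod.smul_fst, smul_eq_mul, mul_div_cancel_right₀ _ hw]
  have k := h2.1 (lE j xs) (-(2 * Real.pi)⁻¹) (fun v hv => (smlE h hn ha hv).contDiffWithinAt)
    (fun c hc v hv w => ?_) fun v hv => ⟨?_, ?_⟩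
  · refine ⟨k.1, k.2.trans ?_⟩
    have := Real.pi_pos
    field_simp
  · refine ext_cont (f := fun v => lE j xs (c • v) (c • w)) (g := fun v => lE j xs v w)
      ((ContinuousAt.comp (g := lE j xs) (ct _ (smul_ne_zero hc hv))
        (continuousAt_id.const_smul c)).clm_apply continuousAt_const)
      ((ct v hv).clm_apply continuousAt_const) fun u hu => ?_
    have hu' : (c • u).1 ≠ 0 := mul_ne_zero hc hu
    rw [lE_apply hu', lE_apply hu, inv_NV c hc u (ne_of_fst hu),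
      inv_NV.fderiv_smul hc (ne_of_fst hu) (d u hu), Prod.smul_fst, Prod.smul_fst, smul_eq_mul,
      smul_eq_mul, mul_div_mul_left _ _ hc]
  · have := eu 1 v hv
    rwa [one_smul, one_im, mul_zero] at this
  · have := eu I v hv
    rwa [I_im, mul_one] at this

/-! ### the pull-back of the primitives -/

theorem chart {v : C2} (h : v.2 ≠ 0) :
    (Us j xs v).1.1 2 2 ≠ 0 ∧
    colL 2 (Us j xs v) = (conj (nl xs v 2) / (nsq (nl xs v) : ℂ)) • nl xs v ∧
    NA 2 j (Us j xs v) = NV j xs v := by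
  have := pt_chart (n := nl xs v) (k := 2) h j (-1) j (Us j xs v).1.2.2
  exact ⟨this.1, this.2.1, this.2.2.2.2.2.2⟩

theorem mem_dom {v : C2} (h : v.2 ≠ 0) (h' : NV j xs v ≠ 0) : Us j xs v ∈ dom (0, 2, j) := by
  refine ⟨(chart h).1, ?_, ?_, (chart h).2.2 ▸ h'⟩
  · exact neg_ne_zero.2 one_ne_zero
  · change |(j : ℝ) - j| < 3 / 4
    norm_num

theorem ddH {v : C2} (h : v.2 ≠ 0) (hn : nl xs v ≠ 0) (hU : ContDiffAt ℝ ∞ (Us j xs) v)
    (a b : C2) : dd (lamH (0, 2, j)) (Us j xs v) (fderiv ℝ (Us j xs) v a) (fderiv ℝ (Us j xs) v b) =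
      dd (lH xs) v a b := by
  have d := hU.differentiableAt (by simp)
  have dn : DifferentiableAt ℝ (nl xs) v := (nL xs).differentiableAt
  have c0 : (nsq (nl xs v) : ℂ) ≠ 0 := ofReal_ne_zero.2 (nsq_pos hn).ne'
  have dc : DifferentiableAt ℝ (fun v => conj (nl xs v 2) / (nsq (nl xs v) : ℂ)) v := by
    simp only [div_eq_mul_inv]
    exact (conjCLE.differentiableAt.comp v (differentiableAt_pi.1 dn 2)).mul
      ((ofRealCLM.differentiableAt.comp v
        ((contDiff_nsq.differentiable (by simp) _).comp v dn)).inv c0)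
  have e := dd_th_lift (S := univ) (x := v) (mem_univ _) (g := nl xs)
    (g' := fun y => colL 2 (Us j xs y)) dn ((colL 2).differentiableAt.comp v d) dc hn
    (div_ne_zero ((map_ne_zero _).2 h) c0)
    ((continuous_snd.continuousAt.eventually_ne h).mono fun y hy _ => (chart hy).2.1)
    (mem_tan_univ v a) (mem_tan_univ v b)
  have e1 : fderiv ℝ (fun y => colL 2 (Us j xs y)) v = (colL 2).comp (fderiv ℝ (Us j xs) v) :=
    ((colL 2).hasFDerivAt.comp v d.hasFDerivAt).fderiv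
  have e2 : fderiv ℝ (nl xs) v = nL xs := (nL xs).fderiv
  rw [e1, e2] at e
  exact (dd_th_clm (colL 2) (colL_ne (chart h).1) _ _).trans
    (e.trans (dd_th_clm (nL xs) hn a b).symm)

theorem ddB (b₀ : ℝ) {v : C2} (hU : ContDiffAt ℝ ∞ (Us j xs) v) (a b : C2) :
    dd (lamB b₀ (0, 2, j)) (Us j xs v) (fderiv ℝ (Us j xs) v a) (fderiv ℝ (Us j xs) v b) = 0 := by
  have d := hU.differentiableAt (by simp)
  have e : ∀ a, (fderiv ℝ (Us j xs) v a).2 = 0 := fun a =>
    congrArg (fun T : C2 →L[ℝ] ℝ => T a)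
      (d.hasFDerivAt.snd.unique (hasFDerivAt_const (j : ℝ) v))
  rw [dd_lamB b₀ _ (neg_ne_zero.2 one_ne_zero), e, e]
  simp

theorem ddS {v : C2} (h : v.2 ≠ 0) (h' : NV j xs v ≠ 0)
    (hU : ∀ v, v ≠ 0 → ContDiffAt ℝ ∞ (Us j xs) v) (a b : C2) :
    dd (lamS (0, 2, j)) (Us j xs v) (fderiv ℝ (Us j xs) v a) (fderiv ℝ (Us j xs) v b) =
      dd (lS j xs) v a b := by
  have m := mem_dom h h'
  rw [← dd_pb ((hU v (ne_of_snd h)).of_le two_le)
    (((contDiffOn_lamS _).contDiffAt ((isOpen_dom _).mem_nhds m)).differentiableAt (by simp))]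
  refine dd_congr ?_ a b
  filter_upwards [continuous_snd.continuousAt.eventually_ne h] with w hw
  have e : NV j xs =ᶠ[𝓝 w] fun y => NA 2 j (Us j xs y) :=
    (continuous_snd.continuousAt.eventually_ne hw).mono fun y hy => (chart hy).2.2.symm
  have e1 : fderiv ℝ (NV j xs) w =
      (fderiv ℝ (NA 2 j) (Us j xs w)).comp (fderiv ℝ (Us j xs) w) := by
    rw [e.fderiv_eq]
    exact fderiv_comp w ((contDiffAt_XiA j (chart hw).1).2.differentiableAt (by simp))
      ((hU w (ne_of_snd hw)).differentiableAt (by simp))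
  refine ContinuousLinearMap.ext fun u => ?_
  change cut (nsq (NA 2 j (Us j xs w))) * th (NA 2 j (Us j xs w))
      (fderiv ℝ (NA 2 j) (Us j xs w) (fderiv ℝ (Us j xs) w u)) =
    cut (nsq (NV j xs w)) * th (NV j xs w) (fderiv ℝ (NV j xs) w u)
  rw [e1, (chart hw).2.2]
  rfl

end Expl2P

open Expl2P in
theorem expl2_of (h1 : Expl1Stmt) (h2 : StokesStmt) : Expl2Stmt := by
  intro j xs b₀ ε O M π om h J₀ hr hG hM
  obtain ⟨hn, ha, hU, hS, -⟩ := h1 j xs hr
  have kH := areaH h2 fun v hv => (hn v hv).1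
  have kE := areaE (j := j) h2 hr hn fun v hv e => (ha v hv e).mono fun _ k => k.1
  have key : ∀ z : ℂ, z ≠ 0 →
      dens h (aff (Us j xs)) z = dd (lH xs) (z, 1) (1, 0) (I, 0) ∧
      dens om (aff (Us j xs)) z =
        dd (lH xs) (z, 1) (1, 0) (I, 0) + ε * dd (lE j xs) (z, 1) (1, 0) (I, 0) := by
    intro z hz
    have v2 : ((z, 1) : C2).2 ≠ 0 := one_ne_zero
    have v0 := ne_of_snd v2
    have N0 : NV j xs (z, 1) ≠ 0 := mt (hn _ v0).2.1 hz
    have d := (hU _ v0).differentiableAt (by simp)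
    have t := fderiv_mem_tan (S := SS) d (mem_of_superset (nz_mem_nhds v0) fun w hw => hS.mem w hw)
    have m := mem_dom v2 N0
    have f := hG.real.form (0, 2, j) _ (hM _ (hS.mem _ v0) rfl) m _ (t (1, 0)) _ (t (I, 0))
    have eH := ddH v2 (hn _ v0).1 (hU _ v0) (1, 0) (I, 0)
    rw [dens, dens, fderiv_aff d, fderiv_aff d]
    refine ⟨f.2.trans eH, f.1.trans ((dd_atl b₀ ε true m _ _).trans ?_)⟩
    rw [eH, ddB b₀ (hU _ v0), add_zero, ddS v2 N0 hU, dd_lE (hn _ v0).1 N0 hz]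
  have h0 : ∀ᵐ w : ℂ, w ∈ ({0} : Set ℂ)ᶜ := compl_mem_ae_iff.2 (measure_singleton 0)
  refine ⟨(integral_congr_ae (h0.mono fun z hz => (key z hz).1)).trans kH.2,
    (integral_congr_ae (h0.mono fun z hz => (key z hz).2)).trans ?_⟩
  rw [integral_add kH.1 (kE.1.const_mul ε), integral_const_mul, kH.2, kE.2]
  ring

end Pool.Agent.MP_9758ca_gt

end

section

/-!
PROJECT BALL, module EXPLF: the normal data of the explicit sphere, a frame of degrees `2, 1, -1`.
-/

open scoped Topology ContDiff ComplexConjugate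
open Set Metric Filter Complex

namespace Pool.Agent.MP_9758ca_gt

namespace ExplFP

noncomputable section

/-- the entry `y ↦ a * y k` placed in the slot `i` -/
def ent (i k : Fin 3) (a : ℂ) : C3 →L[ℝ] C3 :=
  (ContinuousLinearMap.single ℝ (fun _ : Fin 3 => ℂ) i).comp
    ((mulC a).comp (ContinuousLinearMap.proj k))

/-- a two by two block and a scalar -/
def blk (a b c d e : ℂ) : C3 →L[ℝ] C3 :=
  ent 0 0 a + ent 0 1 b + ent 1 0 c + ent 1 1 d + ent 2 2 e

theorem blk_apply (a b c d e : ℂ) (y : C3) :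
    blk a b c d e y = ![a * y 0 + b * y 1, c * y 0 + d * y 1, e * y 2] := by
  funext i
  fin_cases i <;> simp [blk, ent, mulC_apply]

theorem contDiffAt_ent (i k : Fin 3) {a : C2 → ℂ} {v : C2} (h : ContDiffAt ℝ 2 a v) :
    ContDiffAt ℝ 2 (fun w => ent i k (a w)) v :=
  contDiffAt_const.clm_comp
    ((ContDiffAt.comp (g := ContinuousLinearMap.mul ℝ ℂ) v
      (ContinuousLinearMap.mul ℝ ℂ).contDiff.contDiffAt h).clm_comp contDiffAt_const)

theorem contDiffAt_blk {a b c d e : C2 → ℂ} {v : C2} (ha : ContDiffAt ℝ 2 a v)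
    (hb : ContDiffAt ℝ 2 b v) (hc : ContDiffAt ℝ 2 c v) (hd : ContDiffAt ℝ 2 d v)
    (he : ContDiffAt ℝ 2 e v) :
    ContDiffAt ℝ 2 (fun w => blk (a w) (b w) (c w) (d w) (e w)) v :=
  ((((contDiffAt_ent 0 0 ha).add (contDiffAt_ent 0 1 hb)).add (contDiffAt_ent 1 0 hc)).add
    (contDiffAt_ent 1 1 hd)).add (contDiffAt_ent 2 2 he)

theorem blk_I (a b c d e : ℂ) (y : C3) : blk a b c d e (I • y) = I • blk a b c d e y := by
  rw [blk_apply, blk_apply]
  funext i
  fin_cases i <;> simp <;> ring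

theorem blk_inj {a b c d e : ℂ} (h : a * d - b * c ≠ 0) (he : e ≠ 0) {y : C3}
    (hy : blk a b c d e y = 0) : y = 0 := by
  rw [blk_apply] at hy
  have h0 : a * y 0 + b * y 1 = 0 := congrFun hy 0
  have h1 : c * y 0 + d * y 1 = 0 := congrFun hy 1
  have h2 : e * y 2 = 0 := congrFun hy 2
  have k0 : (a * d - b * c) * y 0 = 0 := by linear_combination d * h0 - b * h1
  have k1 : (a * d - b * c) * y 1 = 0 := by linear_combination a * h1 - c * h0
  funext i
  fin_cases i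
  · exact (mul_eq_zero.1 k0).resolve_left h
  · exact (mul_eq_zero.1 k1).resolve_left h
  · exact (mul_eq_zero.1 h2).resolve_left he

theorem blk_rep (t a b c d e : ℂ) (y : C3) :
    blk (t ^ 2 * a) (t ^ 2 * b) (t * c) (t * d) (t⁻¹ * e) y =
      rep ![2, 1, -1] t (blk a b c d e y) := by
  funext i
  rw [rep_apply, blk_apply, blk_apply]
  fin_cases i
  · simp only [Fin.zero_eta, Matrix.cons_val_zero, zpow_ofNat]; ring
  · simp only [Fin.mk_one, Matrix.cons_val_one, Matrix.cons_val_zero, zpow_one]; ring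
  · simp only [Fin.reduceFinMk, Matrix.cons_val, zpow_neg, zpow_one]; ring

/-- the first coordinate of the line -/
def n0 (xs : ℝ) (v : C2) : ℂ := -(1 + xs + ys) * v.1 + xs * v.2

/-- the coefficient of the normal coordinate at the exceptional divisor -/
def ka (xs : ℝ) (v : C2) : ℂ :=
  -(1 + xs + ys) * (2 * Real.pi * I * v.2)⁻¹ *
    (ys - ((n0 xs v / v.2) ^ 2 + n0 xs v / v.2 * xs + xs ^ 2) / 400)

def gG (j : ℤ) (xs : ℝ) (v : C2) : VV →L[ℝ] C3 :=
  (blk (v.2 ^ 2) 0 0 v.2 v.1⁻¹).comp (cof (0, 2, j) (Us j xs v))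

def g0 (j : ℤ) (xs : ℝ) (v : C2) : VV →L[ℝ] C3 :=
  (blk 0 (-n0 xs v ^ 2) (n0 xs v) (-(ys * n0 xs v)) v.1⁻¹).comp (cof (0, 0, j) (Us j xs v))

def g1 (j : ℤ) (xs : ℝ) (v : C2) : VV →L[ℝ] C3 :=
  (blk (v.2 ^ 2) 0 0 v.2 (ka xs v)).comp (cof (1, 2, j) (Us j xs v))

open Classical in
/-- the coframe along the explicit sphere -/
def gg (j : ℤ) (xs : ℝ) (v : C2) : VV →L[ℝ] C3 :=
  if v.2 = 0 then g0 j xs v else if v.1 = 0 then g1 j xs v else gG j xs v

theorem n0_smul (xs : ℝ) (c : ℂ) (v : C2) : n0 xs (c • v) = c * n0 xs v := by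
  simp only [n0, Prod.smul_fst, Prod.smul_snd, smul_eq_mul]; ring

theorem ka_smul (xs : ℝ) {c : ℂ} (hc : c ≠ 0) (v : C2) : ka xs (c • v) = c⁻¹ * ka xs v := by
  simp only [ka, n0_smul, Prod.smul_snd, smul_eq_mul, mul_div_mul_left _ _ hc, mul_inv]; ring

theorem contDiff_n0 (xs : ℝ) : ContDiff ℝ 2 (n0 xs) := by
  unfold n0; fun_prop

theorem two_pi_I : (2 * Real.pi * I : ℂ) ≠ 0 := by
  simp [Real.pi_ne_zero]

theorem contDiffAt_ka (xs : ℝ) {v : C2} (h : v.2 ≠ 0) : ContDiffAt ℝ 2 (ka xs) v := by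
  have h1 : ContDiffAt ℝ 2 (fun w : C2 => n0 xs w / w.2) v := by
    simp only [div_eq_mul_inv]
    exact (contDiff_n0 xs).contDiffAt.mul (contDiffAt_snd.inv h)
  have h2 : ContDiffAt ℝ 2 (fun w : C2 => (2 * Real.pi * I * w.2)⁻¹) v :=
    (contDiffAt_const.mul contDiffAt_snd).inv (mul_ne_zero two_pi_I h)
  exact (contDiffAt_const.mul h2).mul (contDiffAt_const.sub
    ((((h1.pow 2).add (h1.mul contDiffAt_const)).add contDiffAt_const).div_const _))

theorem coef_ne {xs : ℝ} (h : Root xs) : (1 + xs + ys : ℂ) ≠ 0 := by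
  have : (1 + xs + ys : ℝ) ≠ 0 := by have := h.1; have := ys_pos; positivity
  exact_mod_cast this

theorem n0_ne {xs : ℝ} (h : Root xs) {v : C2} (h1 : v.1 ≠ 0) (h2 : v.2 = 0) : n0 xs v ≠ 0 := by
  simp only [n0, h2, mul_zero, add_zero]
  exact mul_ne_zero (neg_ne_zero.2 (coef_ne h)) h1

theorem ka_ne {xs : ℝ} (h : Root xs) {v : C2} (h1 : v.1 = 0) (h2 : v.2 ≠ 0) : ka xs v ≠ 0 := by
  have e : n0 xs v / v.2 = xs := by
    simp only [n0, h1, mul_zero, zero_add]; field_simp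
  have hy : (1 / 20 : ℝ) < ys := by
    have := ys_pos; have := ys_sq; nlinarith
  have k : (ys - (xs ^ 2 + xs * xs + xs ^ 2) / 400 : ℝ) ≠ 0 := by
    have := h.1; have := h.2.1; nlinarith
  rw [ka, e]
  refine mul_ne_zero (mul_ne_zero (neg_ne_zero.2 (coef_ne h))
    (inv_ne_zero (mul_ne_zero two_pi_I h2))) ?_
  exact_mod_cast k

/-- the cubic along the line -/
theorem cuf_line {xs : ℝ} (h : Root xs) {v : C2} (h2 : v.2 ≠ 0) :
    cuf (n0 xs v / v.2) ys = 2 * Real.pi * I * (v.1 * ka xs v) := by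
  have e : n0 xs v / v.2 - xs = -(1 + xs + ys) * v.1 * v.2⁻¹ := by
    simp only [n0]; field_simp; ring
  have h3 := h.2.2
  have h4 : (2 * Real.pi * I : ℂ) * (2 * Real.pi * I)⁻¹ = 1 := mul_inv_cancel₀ two_pi_I
  rw [ka, mul_inv (2 * Real.pi * I : ℂ)]
  generalize n0 xs v / v.2 = x at e ⊢
  simp only [cuf] at h3 ⊢
  linear_combination h3 + (ys - (x ^ 2 + x * xs + xs ^ 2) / 400) * e -
    (-(1 + xs + ys) * v.1 * v.2⁻¹ * (ys - (x ^ 2 + x * xs + xs ^ 2) / 400)) * h4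

/-- the chart change between the charts `0` and `2` -/
theorem chart_change {x : VV} (hx : x ∈ SS) (h0 : x.1.1 0 0 ≠ 0) (h2 : x.1.1 2 2 ≠ 0) {a : VV}
    (ha : a ∈ tan SS x) :
    xk 2 x * fderiv ℝ (yk 0) x a + yk 0 x * fderiv ℝ (xk 2) x a = 0 ∧
    yk 2 x * fderiv ℝ (yk 0) x a + yk 0 x * fderiv ℝ (yk 2) x a = fderiv ℝ (xk 0) x a := by
  have d1 := ((contDiffAt_xk h0).1.differentiableAt (by simp))
  have d2 := ((contDiffAt_xk h0).2.1.differentiableAt (by simp))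
  have d3 := ((contDiffAt_xk h2).1.differentiableAt (by simp))
  have d4 := ((contDiffAt_xk h2).2.1.differentiableAt (by simp))
  have c0 : ContinuousAt (fun y : VV => y.1.1 0 0) x := by fun_prop
  have c2 : ContinuousAt (fun y : VV => y.1.1 2 2) x := by fun_prop
  have key : ∀ᶠ y in 𝓝 x, y ∈ SS → xk 2 y * yk 0 y = 1 ∧ yk 2 y * yk 0 y = xk 0 y := by
    filter_upwards [c0.eventually_ne h0, c2.eventually_ne h2] with y k0 k2 hy
    obtain ⟨-, n, -, hn⟩ := SS_base hy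
    rw [hn, prj_diag_ne] at k0 k2
    simp only [xk, yk, hn, prj_ratio k0, prj_ratio k2]
    have e1 : (2 : Fin 3).succAbove 0 = 0 := rfl
    have e2 : (2 : Fin 3).succAbove 1 = 1 := rfl
    have e3 : (0 : Fin 3).succAbove 0 = 1 := rfl
    have e4 : (0 : Fin 3).succAbove 1 = 2 := rfl
    rw [e1, e2, e3, e4]
    constructor <;> field_simp
  have k1 := fderiv_eq_on_tan hx (d3.mul d2) (differentiableAt_const (1 : ℂ))
    (key.mono fun y hy hs => (hy hs).1) ha
  have k2 := fderiv_eq_on_tan hx (d4.mul d2) d1 (key.mono fun y hy hs => (hy hs).2) ha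
  rw [fderiv_mul d3 d2] at k1
  rw [fderiv_mul d4 d2] at k2
  simpa using And.intro k1 k2

/-- the normal coordinate in the chart of the first type -/
theorem et_mu {x : VV} (hx : x ∈ SS) {k : Fin 3} {j : ℤ} (h : x ∈ dom (1, k, j))
    (hm : mu1 k x = 0) {a : VV} (ha : a ∈ tan SS x) :
    2 * Real.pi * I * et k j x a = fk k x * fderiv ℝ (mu1 k) x a := by
  have h4 : nsq (NA k j x) < 1 / 200000000 ∧ x.1.2.2 k.castSucc k.castSucc ≠ 0 := h.2.2.2
  have h1 : x.1.1 k k ≠ 0 := h.1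
  have d1 := ((contDiffAt_XiA j h1).1.differentiableAt (by simp))
  have d2 := ((contDiffAt_mu1 h4.2).differentiableAt (by simp))
  have d3 := ((contDiffAt_xk h1).2.2.differentiableAt (by simp))
  have k1 := fderiv_eq_on_tan hx d1 (d2.mul d3)
    (mem_of_superset ((isOpen_dom _).mem_nhds h) fun y hy hs => mu1_rel hs hy) ha
  rw [fderiv_mul d2 d3, (fderiv_XiA hx h1 (h4.1.trans (by norm_num)) ha).1, mu1_rel hx h, hm] at k1
  simpa using k1

variable {j : ℤ} {xs : ℝ}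

theorem Us_eq (j : ℤ) (xs : ℝ) (v : C2) : ∃ R, Us j xs v = pt (nl xs v) (-1) j R := ⟨_, rfl⟩

theorem mem_dom0 {v : C2} {k : Fin 3} (hk : nl xs v k ≠ 0) (hN : NN j (nl xs v) (-1) j ≠ 0) :
    Us j xs v ∈ dom (0, k, j) := by
  obtain ⟨R, hR⟩ := Us_eq j xs v
  obtain ⟨k1, -, -, -, -, -, k2⟩ := pt_chart hk j (-1) j R
  rw [hR]
  refine ⟨k1, ?_, ?_, ?_⟩
  · rw [aL_apply]; exact neg_ne_zero.2 one_ne_zero
  · change |(j : ℝ) - j| < 3 / 4
    rw [sub_self, abs_zero]; norm_num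
  · change NA k j _ ≠ 0
    rw [k2]; exact hN

theorem agree0 (h1 : GcompStmt) {v : C2} (hS : Us j xs v ∈ SS) (h0 : n0 xs v ≠ 0) (h2 : v.2 ≠ 0)
    {a : VV} (ha : a ∈ tan SS (Us j xs v)) : g0 j xs v a = gG j xs v a := by
  obtain ⟨R, hR⟩ := Us_eq j xs v
  have h0' : nl xs v 0 ≠ 0 := h0
  have h2' : nl xs v 2 ≠ 0 := h2
  obtain ⟨k1, -, -, k2, -⟩ := pt_chart h0' j (-1) j R
  obtain ⟨k3, -, k4, k5, -⟩ := pt_chart h2' j (-1) j R
  rw [← hR] at k1 k2 k3 k4 k5
  obtain ⟨e1, e2⟩ := chart_change hS k1 k3 ha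
  have e3 := h1.2.2.1 _ hS 0 2 j k1 k3 a ha
  have k2' : yk 0 (Us j xs v) = v.2 / n0 xs v := k2
  have k4' : xk 2 (Us j xs v) = n0 xs v / v.2 := k4
  have k5' : yk 2 (Us j xs v) = ys * v.2 / v.2 := k5
  rw [k4', k2'] at e1
  rw [k5', k2', mul_div_cancel_right₀ _ h2] at e2
  field_simp at e1 e2
  simp only [g0, gG, ContinuousLinearMap.comp_apply, blk_apply]
  funext i
  fin_cases i
  · change 0 * fderiv ℝ (xk 0) _ a + -n0 xs v ^ 2 * fderiv ℝ (yk 0) _ a =
      v.2 ^ 2 * fderiv ℝ (xk 2) _ a + 0 * fderiv ℝ (yk 2) _ a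
    linear_combination -e1
  · change n0 xs v * fderiv ℝ (xk 0) _ a + -(ys * n0 xs v) * fderiv ℝ (yk 0) _ a =
      0 * fderiv ℝ (xk 2) _ a + v.2 * fderiv ℝ (yk 2) _ a
    linear_combination -e2
  · change v.1⁻¹ * et 0 j _ a = v.1⁻¹ * et 2 j _ a
    rw [e3]

theorem agree1 (hr : Root xs) {v : C2} (hS : Us j xs v ∈ SS) (h1 : v.1 ≠ 0) (h2 : v.2 ≠ 0)
    (hd : Us j xs v ∈ dom (1, 2, j))
    (he : Us j xs v = pt (nl xs v) (-1) j (prj (nu (nl xs v) 1 0)))
    {a : VV} (ha : a ∈ tan SS (Us j xs v)) : g1 j xs v a = gG j xs v a := by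
  have h2' : nl xs v 2 ≠ 0 := h2
  obtain ⟨-, -, k4, k5, -⟩ := pt_chart h2' j (-1) j (prj (nu (nl xs v) 1 0))
  rw [← he] at k4 k5
  have k4' : xk 2 (Us j xs v) = n0 xs v / v.2 := k4
  have k5' : yk 2 (Us j xs v) = ys * v.2 / v.2 := k5
  have hm : mu1 2 (Us j xs v) = 0 := by
    rw [he]
    simp [mu1, pt, prj, nu]
  have e := et_mu hS hd hm ha
  rw [fk, k4', k5', mul_div_cancel_right₀ _ h2, cuf_line hr h2, mul_assoc _ (v.1 * _),
    mul_right_inj' two_pi_I] at e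
  simp only [g1, gG, ContinuousLinearMap.comp_apply, blk_apply]
  funext i
  fin_cases i
  · rfl
  · rfl
  · change ka xs v * fderiv ℝ (mu1 2) _ a = v.1⁻¹ * et 2 j _ a
    rw [e]; field_simp

theorem smooth {i : Idx} {v : C2} (hU : ContDiffAt ℝ ∞ (Us j xs) v) (hd : Us j xs v ∈ dom i) :
    ContDiffAt ℝ 2 (fun w => cof i (Us j xs w)) v :=
  (ContDiffAt.comp (f := Us j xs) v
    ((contDiffOn_cof i).contDiffAt ((isOpen_dom i).mem_nhds hd)) hU).of_le (by norm_cast)

end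

end ExplFP

open ExplFP in
theorem explF_of (h1 : GcompStmt) (h2 : Expl1Stmt) (h3 : FrameStmt) : ExplFStmt := by
  intro j xs b₀ ε O M π om h J₀ hr hG hM
  obtain ⟨u1, u2, u3, u4, -, -, -, u5⟩ := h2 j xs hr
  have hS := u5 b₀ ε O M π om h J₀ hG hM
  have ht : ∀ v, v ≠ 0 → tan M (Us j xs v) = tan SS (Us j xs v) := fun v hv =>
    tan_congr ((hG.real.rel _ (hS.mem v hv)).mono fun y hy => ⟨fun h => hG.real.sub h, hy⟩)
  have hne : ∀ v : C2, v ≠ 0 → v.2 = 0 → v.1 ≠ 0 := fun v hv a b => hv (Prod.ext b a)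
  have d0 : ∀ v : C2, v ≠ 0 → v.2 = 0 → Us j xs v ∈ dom (0, 0, j) := fun v hv a =>
    mem_dom0 (n0_ne hr (hne v hv a) a) fun b => hne v hv a ((u1 v hv).2.1 b)
  have d1 : ∀ v : C2, v ≠ 0 → v.1 = 0 → Us j xs v ∈ dom (1, 2, j) := fun v hv a =>
    (u2 v hv a).self_of_nhds.2.1
  have dG : ∀ v : C2, v ≠ 0 → v.2 ≠ 0 → v.1 ≠ 0 → Us j xs v ∈ dom (0, 2, j) := fun v hv a b =>
    mem_dom0 (k := 2) a fun c => b ((u1 v hv).2.1 c)
  have good : ∀ v : C2, v ≠ 0 → ∀ i : Idx, Us j xs v ∈ dom i → ∀ a b c d e : ℂ,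
      a * d - b * c ≠ 0 → e ≠ 0 → ∀ x ∈ tan M (Us j xs v),
      (blk a b c d e).comp (cof i (Us j xs v)) (J₀ (Us j xs v) x) =
        I • (blk a b c d e).comp (cof i (Us j xs v)) x ∧
      ((blk a b c d e).comp (cof i (Us j xs v)) x = 0 → x = 0) := by
    intro v hv i hi a b c d e k1 k2 x hx
    rw [ht v hv] at hx
    have k3 : cof i (Us j xs v) (J₀ (Us j xs v) x) = I • cof i (Us j xs v) x :=
      (hG.real.cx i _ (hS.mem v hv) hi x hx).2
    refine ⟨?_, fun k4 => ?_⟩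
    · rw [ContinuousLinearMap.comp_apply, ContinuousLinearMap.comp_apply, k3, blk_I]
    · exact (h1.2.2.2.2 b₀ ε true).1.inj i _ (u4.mem v hv) hi x hx (blk_inj k1 k2 k4)
  refine (h3 VV).2.2 O M π om h hG.amb |>.1 J₀ (Us j xs) ![2, 1, -1] (gg j xs) hG.wj hS.toMap2
    (fun v hv x hx => ?_) fun v₀ hv₀ => ?_
  · have inv : ∀ c : ℂ, c ≠ 0 → Us j xs (c • v) = Us j xs v := fun c hc => u4.inv c hc v hv
    have z1 : ∀ c : ℂ, c ≠ 0 → ((c • v).1 = 0 ↔ v.1 = 0) := fun c hc => by simp [hc]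
    have z2 : ∀ c : ℂ, c ≠ 0 → ((c • v).2 = 0 ↔ v.2 = 0) := fun c hc => by simp [hc]
    rw [← and_assoc]
    by_cases a2 : v.2 = 0
    · have a0 := n0_ne hr (hne v hv a2) a2
      refine ⟨?_, fun c hc => ?_⟩
      · rw [gg, if_pos a2]
        exact good v hv _ (d0 v hv a2) _ _ _ _ _ (by simpa using a0) (inv_ne_zero (hne v hv a2)) x hx
      · rw [gg, gg, if_pos a2, if_pos ((z2 c hc).2 a2), g0, g0, inv c hc,
          ContinuousLinearMap.comp_apply, ContinuousLinearMap.comp_apply, ← blk_rep, n0_smul]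
        simp only [Prod.smul_fst, smul_eq_mul, mul_inv]
        congr 2 <;> ring
    by_cases a1 : v.1 = 0
    · refine ⟨?_, fun c hc => ?_⟩
      · rw [gg, if_neg a2, if_pos a1]
        exact good v hv _ (d1 v hv a1) _ _ _ _ _ (by simpa using a2) (ka_ne hr a1 a2) x hx
      · rw [gg, gg, if_neg a2, if_pos a1, if_neg fun h => a2 ((z2 c hc).1 h),
          if_pos ((z1 c hc).2 a1), g1, g1, inv c hc,
          ContinuousLinearMap.comp_apply, ContinuousLinearMap.comp_apply, ← blk_rep, ka_smul _ hc]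
        simp only [Prod.smul_snd, smul_eq_mul, mul_pow, mul_zero]
    · refine ⟨?_, fun c hc => ?_⟩
      · rw [gg, if_neg a2, if_neg a1]
        exact good v hv _ (dG v hv a2 a1) _ _ _ _ _ (by simpa using a2) (inv_ne_zero a1) x hx
      · rw [gg, gg, if_neg a2, if_neg a1, if_neg fun h => a2 ((z2 c hc).1 h),
          if_neg fun h => a1 ((z1 c hc).1 h), gG, gG, inv c hc,
          ContinuousLinearMap.comp_apply, ContinuousLinearMap.comp_apply, ← blk_rep]
        simp only [Prod.smul_snd, Prod.smul_fst, smul_eq_mul, mul_pow, mul_zero, mul_inv]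
  · have c1 : ContinuousAt (fun v : C2 => v.1) v₀ := continuousAt_fst
    have c2 : ContinuousAt (fun v : C2 => v.2) v₀ := continuousAt_snd
    have nz₀ : ∀ᶠ v in 𝓝 v₀, v ≠ 0 := continuousAt_id.eventually_ne hv₀
    have s0 : ContDiffAt ℝ 2 (n0 xs) v₀ := (contDiff_n0 xs).contDiffAt
    by_cases a2 : v₀.2 = 0
    · have a1 := hne v₀ hv₀ a2
      refine ⟨g0 j xs, (contDiffAt_blk contDiffAt_const (s0.pow 2).neg s0
        (contDiffAt_const.mul s0).neg (contDiffAt_fst.inv a1)).clm_comp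
        (smooth (u3 v₀ hv₀) (d0 v₀ hv₀ a2)), ?_⟩
      filter_upwards [nz₀, c1.eventually_ne a1, s0.continuousAt.eventually_ne (n0_ne hr a1 a2)]
        with v hv b1 b0 x hx
      by_cases b2 : v.2 = 0
      · rw [gg, if_pos b2]
      · rw [gg, if_neg b2, if_neg b1]
        exact agree0 h1 (u4.mem v hv) b0 b2 (ht v hv ▸ hx)
    by_cases a1 : v₀.1 = 0
    · refine ⟨g1 j xs, (contDiffAt_blk (contDiffAt_snd.pow 2) contDiffAt_const contDiffAt_const
        contDiffAt_snd (contDiffAt_ka xs a2)).clm_comp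
        (smooth (u3 v₀ hv₀) (d1 v₀ hv₀ a1)), ?_⟩
      filter_upwards [nz₀, c2.eventually_ne a2, u2 v₀ hv₀ a1] with v hv b2 b3 x hx
      by_cases b1 : v.1 = 0
      · rw [gg, if_neg b2, if_pos b1]
      · rw [gg, if_neg b2, if_neg b1]
        exact agree1 hr (u4.mem v hv) b1 b2 b3.2.1 b3.2.2 (ht v hv ▸ hx)
    · refine ⟨gG j xs, (contDiffAt_blk (contDiffAt_snd.pow 2) contDiffAt_const contDiffAt_const
        contDiffAt_snd (contDiffAt_fst.inv a1)).clm_comp
        (smooth (u3 v₀ hv₀) (dG v₀ hv₀ a2 a1)), ?_⟩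
      filter_upwards [c1.eventually_ne a1, c2.eventually_ne a2] with v b1 b2 x _
      rw [gg, if_neg b2, if_neg b1]

end Pool.Agent.MP_9758ca_gt

end

end MrgPart1

-- ======== part 2: formerly Pool.Agent.MP_9758ca_gt.QD
section MrgPart2

section

/-!
PROJECT BALL, module GBALL: the standard balls of the example.
-/

open scoped Topology ContDiff ComplexConjugate
open Set Metric Filter Complex

namespace Pool.Agent.MP_9758ca_gt

noncomputable section

namespace GballP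

/-- squared norm of the first four coordinates -/
def sq4 (y : E6) : ℝ := y 0 ^ 2 + y 1 ^ 2 + y 2 ^ 2 + y 3 ^ 2

/-- the unit vector over the ball -/
def nb (y : E6) : C3 :=
  ![(√(1 - Real.pi * sq4 y) : ℝ), (√Real.pi : ℝ) * cz y 0, (√Real.pi : ℝ) * cz y 1]

/-- the circle coordinate -/
def ab (y : E6) : ℂ := -exp (Real.pi * I * y 4)

/-- the height -/
def tb (l : ℤ) (y : E6) : ℝ := l + 2⁻¹ + y 5 / 2

theorem ball0_eq (l : ℤ) (y : E6) : ball0 l y = pt (nb y) (ab y) (tb l y) 0 := rfl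

/-- coordinate functional -/
def co (i : Fin 6) : E6 →L[ℝ] ℝ := EuclideanSpace.proj i

@[simp] theorem co_apply (i : Fin 6) (y : E6) : co i y = y i := rfl

theorem cd_co (i : Fin 6) : ContDiff ℝ ∞ fun y : E6 => y i :=
  (co i).contDiff

theorem hf_co (i : Fin 6) (y : E6) :
    HasFDerivAt (fun y : E6 => y i) (co i) y :=
  (co i).hasFDerivAt

theorem cd_sq4 : ContDiff ℝ ∞ sq4 :=
  ((((cd_co 0).pow 2).add ((cd_co 1).pow 2)).add ((cd_co 2).pow 2)).add ((cd_co 3).pow 2)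

theorem norm_sq6 (y : E6) : ‖y‖ ^ 2 = sq4 y + y 4 ^ 2 + y 5 ^ 2 := by
  rw [EuclideanSpace.real_norm_sq_eq, Fin.sum_univ_six, sq4]

theorem sq4_nonneg (y : E6) : 0 ≤ sq4 y := by unfold sq4; positivity

theorem bounds {r : ℝ} (hr : Real.pi * r ^ 2 < 1) {y : E6} (hy : y ∈ closedBall (0 : E6) r) :
    Real.pi * sq4 y < 1 ∧ |y 4| < 3 / 5 ∧ |y 5| < 3 / 5 := by
  rw [mem_closedBall_zero_iff] at hy
  have h1 : ‖y‖ ^ 2 ≤ r ^ 2 := pow_le_pow_left₀ (norm_nonneg _) hy 2
  have h2 := norm_sq6 y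
  have h3 := sq4_nonneg y
  have h4 := Real.pi_gt_three
  have h5 : r ^ 2 < 1 / 3 := by nlinarith [sq_nonneg r]
  refine ⟨?_, abs_lt_of_sq_lt_sq ?_ (by norm_num), abs_lt_of_sq_lt_sq ?_ (by norm_num)⟩
  · nlinarith [sq_nonneg (y 4), sq_nonneg (y 5)]
  · nlinarith [sq_nonneg (y 5)]
  · nlinarith [sq_nonneg (y 4)]

theorem nsq_nb {y : E6} (h : Real.pi * sq4 y < 1) : nsq (nb y) = 1 := by
  have h1 : √(1 - Real.pi * sq4 y) * √(1 - Real.pi * sq4 y) = 1 - Real.pi * sq4 y :=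
    Real.mul_self_sqrt (by linarith)
  have h2 : √Real.pi * √Real.pi = Real.pi := Real.mul_self_sqrt Real.pi_pos.le
  simp only [nsq, nb, Fin.sum_univ_three, Matrix.cons_val_zero, Matrix.cons_val_one,
    Matrix.cons_val_two, Matrix.head_cons, Matrix.tail_cons, cz, Complex.sq_norm, normSq_mul,
    normSq_ofReal, normSq_mk, h1, h2]
  unfold sq4
  ring

theorem nb_pos {y : E6} (h : Real.pi * sq4 y < 1) : 0 < √(1 - Real.pi * sq4 y) :=
  Real.sqrt_pos.2 (by linarith)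

theorem nb_ne {y : E6} (h : Real.pi * sq4 y < 1) : nb y ≠ 0 := fun h0 => by
  have := nsq_nb h
  rw [nsq_eq_zero.2 h0] at this
  exact zero_ne_one this

theorem cd_rt {y : E6} (h : Real.pi * sq4 y < 1) :
    ContDiffAt ℝ ∞ (fun y => √(1 - Real.pi * sq4 y)) y :=
  (contDiff_const.sub (contDiff_const.mul cd_sq4)).contDiffAt.sqrt (by linarith)

theorem cd_nb {y : E6} (h : Real.pi * sq4 y < 1) : ContDiffAt ℝ ∞ nb y := by
  obtain ⟨L, hL⟩ := exists_czL
  have h1 : ∀ i, ContDiff ℝ ∞ fun y => cz y i := fun i => by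
    simp only [← hL]
    exact contDiff_pi.1 L.contDiff i
  refine contDiffAt_pi.2 fun i => ?_
  fin_cases i
  · exact ofRealCLM.contDiff.contDiffAt.comp y (cd_rt h)
  · exact (contDiff_const.mul (h1 0)).contDiffAt
  · exact (contDiff_const.mul (h1 1)).contDiffAt

theorem fd_nb {y : E6} (h : Real.pi * sq4 y < 1) (a : E6) : ∃ t : ℝ,
    fderiv ℝ nb y a = ![(t : ℂ), (√Real.pi : ℝ) * cz a 0, (√Real.pi : ℝ) * cz a 1] := by
  obtain ⟨L, hL⟩ := exists_czL
  have hd := (cd_nb h).differentiableAt (by simp)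
  have h0 : ∀ i, fderiv ℝ nb y a i = fderiv ℝ (fun y => nb y i) y a := fun i => by
    rw [fderiv_pi fun i => differentiableAt_pi.1 hd i]; rfl
  have h1 : ∀ (i : Fin 3) (c : ℂ), fderiv ℝ (fun y => c * cz y i) y a = c * cz a i := by
    intro i c
    have : HasFDerivAt (fun y => c * cz y i)
        ((mulC c).comp ((ContinuousLinearMap.proj i).comp (L : E6 →L[ℝ] C3))) y := by
      simp only [← hL]
      exact ((mulC c).comp ((ContinuousLinearMap.proj i).comp (L : E6 →L[ℝ] C3))).hasFDerivAt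
    rw [this.fderiv, ← hL]; rfl
  refine ⟨fderiv ℝ (fun y => √(1 - Real.pi * sq4 y)) y a, funext fun i => ?_⟩
  rw [h0]
  fin_cases i
  · exact DFunLike.congr_fun (ofRealCLM.hasFDerivAt.comp y
      ((cd_rt h).differentiableAt (by simp)).hasFDerivAt).fderiv a
  · exact h1 0 _
  · exact h1 1 _

theorem good_nhds {y : E6} (h : Real.pi * sq4 y < 1) : ∀ᶠ z in 𝓝 y, Real.pi * sq4 z < 1 :=
  (continuous_const.mul cd_sq4.continuous).continuousAt.eventually_lt continuousAt_const h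

theorem her_re {y : E6} (h : Real.pi * sq4 y < 1) (a : E6) :
    (her (nb y) (fderiv ℝ nb y a)).re = 0 := by
  have h1 : (fun z => nsq (nb z)) =ᶠ[𝓝 y] fun _ => 1 := by
    filter_upwards [good_nhds h] with z hz using nsq_nb hz
  have h2 := h1.fderiv_eq (𝕜 := ℝ)
  rw [fderiv_fun_comp y (contDiff_nsq.differentiable (by simp) _)
    ((cd_nb h).differentiableAt (by simp)), fderiv_const_apply] at h2
  have h3 := DFunLike.congr_fun h2 a
  rw [ContinuousLinearMap.comp_apply, fderiv_nsq] at h3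
  simpa using h3

theorem dd_nb {y : E6} (h : Real.pi * sq4 y < 1) (a b : E6) :
    dd th (nb y) (fderiv ℝ nb y a) (fderiv ℝ nb y b) =
      a 0 * b 1 - a 1 * b 0 + (a 2 * b 3 - a 3 * b 2) := by
  rw [dd_th (nb_ne h), her_re h, her_re h, nsq_nb h]
  obtain ⟨t, ht⟩ := fd_nb h a
  obtain ⟨s, hs⟩ := fd_nb h b
  have h2 : √Real.pi * √Real.pi = Real.pi := Real.mul_self_sqrt Real.pi_pos.le
  have h3 : (her (fderiv ℝ nb y a) (fderiv ℝ nb y b)).im =
      √Real.pi * √Real.pi * (a 0 * b 1 - a 1 * b 0 + (a 2 * b 3 - a 3 * b 2)) := by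
    rw [ht, hs]
    simp [her, Fin.sum_univ_three, cz]
    ring
  rw [h3, h2]
  field_simp
  ring

theorem hf_ab (y : E6) : HasFDerivAt ab ((mulC (ab y * (Real.pi * I))).comp
    (ofRealCLM.comp (co 4))) y := by
  have h1 : HasFDerivAt (fun y : E6 => Real.pi * I * (y 4 : ℂ)) ((mulC (Real.pi * I)).comp
      (ofRealCLM.comp (co 4))) y :=
    ((mulC (Real.pi * I)).comp
      (ofRealCLM.comp (co 4))).hasFDerivAt
  refine h1.cexp.neg.congr_fderiv ?_
  ext v
  simp [ab, mulC_apply, mul_assoc]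

theorem cd_ab : ContDiff ℝ ∞ ab :=
  (contDiff_const.mul (ofRealCLM.contDiff.comp (cd_co 4))).cexp.neg

theorem norm_ab (y : E6) : ‖ab y‖ = 1 := by
  rw [ab, norm_neg, norm_exp]; simp

theorem ab_ne (y : E6) : ab y ≠ 0 := fun h => by simpa [h] using norm_ab y

theorem cd_tb (l : ℤ) : ContDiff ℝ ∞ (tb l) := contDiff_const.add ((cd_co 5).div_const 2)

theorem cd_ball (l : ℤ) {y : E6} (h : Real.pi * sq4 y < 1) : ContDiffAt ℝ ∞ (ball0 l) y :=
  (((contDiffAt_prj (nb_ne h)).comp y (cd_nb h)).prodMk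
    (cd_ab.contDiffAt.prodMk contDiffAt_const)).prodMk (cd_tb l).contDiffAt

theorem fd_clm {W : Type} [NormedAddCommGroup W] [NormedSpace ℝ W] (L : VV →L[ℝ] W) (l : ℤ)
    {y : E6} (h : Real.pi * sq4 y < 1) (a : E6) :
    L (fderiv ℝ (ball0 l) y a) = fderiv ℝ (fun z => L (ball0 l z)) y a :=
  (DFunLike.congr_fun (L.hasFDerivAt.comp y
    ((cd_ball l h).differentiableAt (by simp)).hasFDerivAt).fderiv a).symm

theorem fd_t (l : ℤ) {y : E6} (h : Real.pi * sq4 y < 1) (a : E6) :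
    (fderiv ℝ (ball0 l) y a).2 = a 5 / 2 := by
  have h1 : HasFDerivAt (tb l) _ y := ((hf_co 5 y).mul_const (2 : ℝ)⁻¹).const_add ((l : ℝ) + 2⁻¹)
  refine (fd_clm tL l h a).trans ((DFunLike.congr_fun h1.fderiv a).trans ?_)
  simp [div_eq_inv_mul]

theorem fd_s (l : ℤ) {y : E6} (h : Real.pi * sq4 y < 1) (a : E6) :
    ds (ball0 l y) (fderiv ℝ (ball0 l) y a) = a 4 / 2 := by
  have h1 : aL (fderiv ℝ (ball0 l) y a) = ab y * (Real.pi * I * a 4) :=
    (fd_clm aL l h a).trans ((DFunLike.congr_fun (hf_ab y).fderiv a).trans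
      (by simp [mulC_apply, mul_assoc]))
  have h2 : aL (ball0 l y) = ab y := rfl
  rw [ds_apply, h1, h2, mul_div_cancel_left₀ _ (ab_ne y)]
  have := Real.pi_pos
  simp
  field_simp

theorem far (l j : ℤ) {y : E6} (h : |y 5| < 3 / 5) : 1 / 5 ≤ |tb l y - j| := by
  rw [abs_lt] at h
  rw [le_abs, tb]
  rcases le_or_gt j l with hj | hj
  · have : (j : ℝ) ≤ l := by exact_mod_cast hj
    left; linarith
  · have : (l : ℝ) + 1 ≤ j := by exact_mod_cast hj
    right; linarith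

theorem pull (b₀ ε : ℝ) (t : Bool) (l : ℤ) {y : E6} (h : Real.pi * sq4 y < 1)
    (h5 : |y 5| < 3 / 5) (i : Idx) (hi : ball0 l y ∈ dom i) (a b : E6) :
    dd ((atl b₀ ε t).l i) (ball0 l y) (fderiv ℝ (ball0 l) y a) (fderiv ℝ (ball0 l) y b) =
      om0 a b := by
  rw [dd_atl b₀ ε t hi, dd_lamB b₀ i hi.2.1, fd_s l h, fd_s l h, fd_t l h, fd_t l h]
  obtain ⟨m, k, j⟩ := i
  have hk : (ball0 l y).1.1 k k ≠ 0 := hi.1
  have hk' : nb y k ≠ 0 := prj_diag_ne.1 hk
  have hN : NA k j (ball0 l y) = NN j (nb y) (ab y) (tb l y) :=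
    (pt_chart hk' j (ab y) (tb l y) 0).2.2.2.2.2.2
  have hbig : 1 / 10000000 ≤ nsq (NA k j (ball0 l y)) := by
    rw [hN]
    by_contra hlt
    have := near_wall (nb_ne h) (norm_ab y) (not_le.1 hlt)
    linarith [far l j h5]
  have hm : m = 0 := by
    have h4 := hi.2.2.2
    fin_cases m
    · rfl
    all_goals
      have := h4.1
      change nsq (NA k j (ball0 l y)) < _ at this
      linarith
  subst hm
  have hS : dd (lamS (0, k, j)) (ball0 l y) (fderiv ℝ (ball0 l) y a)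
      (fderiv ℝ (ball0 l) y b) = 0 := by
    have h1 : ∀ᶠ x in 𝓝 (ball0 l y), lamS (0, k, j) x = (fun _ => 0 : F1 VV) x := by
      have h2 : ContinuousAt (fun x => nsq (NA k j x)) (ball0 l y) :=
        contDiff_nsq.continuous.continuousAt.comp (contDiffAt_XiA j hk).2.continuousAt
      filter_upwards [continuousAt_const.eventually_lt h2
        (show (1 : ℝ) / 100000000 < _ by linarith)] with x hx
      have h3 : cut (nsq (NA k j x)) = 0 := stp_zero (by norm_num) hx.le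
      change cut (nsq (NA k j x)) • pb (NA k j) th x = 0
      rw [h3, zero_smul]
    rw [dd_congr h1]
    simp [dd]
  have hH : dd (lamH (0, k, j)) (ball0 l y) (fderiv ℝ (ball0 l) y a) (fderiv ℝ (ball0 l) y b) =
      a 0 * b 1 - a 1 * b 0 + (a 2 * b 3 - a 3 * b 2) := by
    refine (dd_th_clm (colL k) (colL_ne hk) _ _).trans ?_
    rw [fd_clm (colL k) l h, fd_clm (colL k) l h, ← dd_nb h]
    have hd := (cd_nb h).differentiableAt (by simp)
    have ht : ∀ w : E6, w ∈ tan univ y := fun w => by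
      simpa using fderiv_mem_tan (S := univ) (g := id) differentiableAt_id
        (Eventually.of_forall fun _ => mem_univ _) w
    refine dd_th_lift (S := univ) (mem_univ y) (c := fun z => conj (nb z k)) hd
      ((colL k).differentiableAt.comp y ((cd_ball l h).differentiableAt (by simp)))
      (conjCLE.differentiableAt.comp y (differentiableAt_pi.1 hd k)) (nb_ne h)
      (by simpa using hk') ?_ (ht a) (ht b)
    filter_upwards [good_nhds h] with z hz _
    have := prj_col (nb z) k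
    rw [nsq_nb hz, ofReal_one, div_one] at this
    exact this
  have h4 : bb b₀ ((ball0 l y).2 - (j : ℝ)) = 4 := bb_four (far l j h5)
  rw [hS, hH, h4, om0]
  ring

theorem mem (l : ℤ) {y : E6} (h : Real.pi * sq4 y < 1) (h5 : |y 5| < 3 / 5) : ball0 l y ∈ SS := by
  obtain ⟨h1, -, h2⟩ := RR_far (nb_ne h) (j := round (tb l y)) (norm_ab y) (T := tb l y)
    (le_trans (by norm_num) (far l _ h5))
  exact Or.inl ⟨nb y, ab y, tb l y, nb_ne h, norm_ab y, h1, by rw [lift, h2]; rfl⟩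

theorem inj (l : ℤ) {y z : E6} (hy : Real.pi * sq4 y < 1) (hz : Real.pi * sq4 z < 1)
    (hy4 : |y 4| < 3 / 5) (hz4 : |z 4| < 3 / 5) (e : ball0 l y = ball0 l z) : y = z := by
  have e1 : prj (nb y) = prj (nb z) := congrArg (fun x => x.1.1) e
  have e2 : ab y = ab z := congrArg (fun x => x.1.2.1) e
  have e3 : tb l y = tb l z := congrArg (fun x => x.2) e
  obtain ⟨c, -, hc⟩ := (prj_eq_iff (nb_ne hy) (nb_ne hz)).1 e1
  have h1 : ‖c‖ ^ 2 = 1 := by
    have := nsq_smul c (nb y)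
    rw [← hc, nsq_nb hy, nsq_nb hz, mul_one] at this
    exact this.symm
  have h2 : ((√(1 - Real.pi * sq4 z) : ℝ) : ℂ) = c * (√(1 - Real.pi * sq4 y) : ℝ) :=
    congrFun hc 0
  have h3 : c = ((√(1 - Real.pi * sq4 z) / √(1 - Real.pi * sq4 y) : ℝ) : ℂ) := by
    rw [ofReal_div, h2, mul_div_cancel_right₀ _ (ofReal_ne_zero.2 (nb_pos hy).ne')]
  have h4 : c = 1 := by
    have h5 := div_pos (nb_pos hz) (nb_pos hy)
    rw [h3, norm_real, Real.norm_eq_abs, sq_abs] at h1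
    rw [h3, (pow_eq_one_iff_of_nonneg h5.le two_ne_zero).1 h1, ofReal_one]
  rw [h4, one_smul] at hc
  have hp : ((√Real.pi : ℝ) : ℂ) ≠ 0 := ofReal_ne_zero.2 (Real.sqrt_pos.2 Real.pi_pos).ne'
  have c0 : cz z 0 = cz y 0 := mul_left_cancel₀ hp (congrFun hc 1)
  have c1 : cz z 1 = cz y 1 := mul_left_cancel₀ hp (congrFun hc 2)
  have c4 : y 4 = z 4 := by
    obtain ⟨n, hn⟩ := exp_eq_exp_iff_exists_int.1 (neg_injective e2)
    have h5 : Real.pi * y 4 = Real.pi * (z 4 + 2 * n) := by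
      have := congrArg Complex.im hn
      simp at this
      linarith
    have h6 := mul_left_cancel₀ Real.pi_pos.ne' h5
    rw [abs_lt] at hy4 hz4
    have h7 : (n : ℝ) < 1 := by linarith
    have h8 : (-1 : ℝ) < n := by linarith
    have h9 : n = 0 := by
      have : n < 1 := by exact_mod_cast h7
      have : -1 < n := by exact_mod_cast h8
      omega
    simpa [h9] using h6
  have c5 : y 5 = z 5 := by unfold tb at e3; linarith
  ext i
  fin_cases i
  · exact (congrArg re c0).symm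
  · exact (congrArg Complex.im c0).symm
  · exact (congrArg re c1).symm
  · exact (congrArg Complex.im c1).symm
  · exact c4
  · exact c5

theorem ball0_zero (l : ℤ) : ball0 l 0 = vert (l + 2⁻¹) := by
  have h1 : nb 0 = ![1, 0, 0] := by
    funext i
    fin_cases i
    · simp [nb, sq4]
    · simp [nb, cz, Complex.ext_iff]
    · simp [nb, cz, Complex.ext_iff]
  rw [ball0_eq, h1, vert]
  simp [ab, tb]

end GballP

open GballP in
theorem gball : GballStmt := by
  refine ⟨fun r l hr0 hr => ⟨fun b₀ ε t => ⟨fun y hy => ?_, fun y hy => ?_,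
    fun y hy z hz e => ?_, fun y hy i hi a b => ?_⟩, fun y hy => ⟨?_, ?_, fun a => ?_⟩⟩, ?_⟩
  · exact (cd_ball l (bounds hr hy).1).contDiffWithinAt
  · exact mem l (bounds hr hy).1 (bounds hr hy).2.2
  · exact inj l (bounds hr hy).1 (bounds hr hz).1 (bounds hr hy).2.1 (bounds hr hz).2.1 e
  · have hu : UniqueDiffWithinAt ℝ (closedBall (0 : E6) r) y :=
      uniqueDiffOn_convex (convex_closedBall 0 r)
        ⟨0, mem_interior_iff_mem_nhds.2 (closedBall_mem_nhds 0 hr0)⟩ y hy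
    rw [((cd_ball l (bounds hr hy).1).differentiableAt (by simp)).fderivWithin hu]
    exact pull b₀ ε t l (bounds hr hy).1 (bounds hr hy).2.2 i hi a b
  · exact cd_ball l (bounds hr hy).1
  · have h := abs_lt.1 (bounds hr hy).2.2
    change |tb l y - l - 1 / 2| < 3 / 10
    rw [abs_lt, tb]
    constructor <;> linarith
  · have h := (bounds hr hy).1
    rw [dw_apply, dw_apply, fd_s l h, fd_s l h, fd_t l h, fd_t l h]
    have h4 : j6 a 4 = -a 5 := rfl
    have h5 : j6 a 5 = a 4 := rfl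
    rw [h4, h5]
    push_cast
    linear_combination (-(a 5 : ℂ) / 2) * I_mul_I
  · rw [ball0_zero, ball0_zero]
    refine JoinedIn.ofLine (f := fun s => vert (2⁻¹ + s)) ?_ (by simp) (by simp [add_comm]) ?_
    · exact (continuous_const.prodMk (continuous_const.add continuous_id)).continuousOn
    · rintro _ ⟨s, -, rfl⟩
      exact Or.inl (vert_mem _).1

end

end Pool.Agent.MP_9758ca_gt

end

section

/-!
PROJECT BALL, module GCPT: slabs of `SS` are compact, `ZZ j` and `DD` are closed.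
-/

open scoped Topology ContDiff ComplexConjugate
open Set Metric Filter Complex

namespace Pool.Agent.MP_9758ca_gt

noncomputable section

namespace GcptP

/-- parameters `(n, a, T, (p, q))` -/
abbrev Pm : Type := C3 × ℂ × ℝ × C2

/-- the parametrisation of the slab around the wall `j` -/
def FF (j : ℤ) (z : Pm) : VV :=
  pt z.1 z.2.1 z.2.2.1
    (cut (nsq (NN j z.1 z.2.1 z.2.2.1)) • prj (nu z.1 z.2.2.2.1 z.2.2.2.2))

/-- the incidence equation -/
def gg (j : ℤ) (z : Pm) : ℂ :=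
  z.2.2.2.1 * Xi j z.1 z.2.1 z.2.2.1 - z.2.2.2.2 * (cub z.1 / (nsq z.1 : ℂ) ^ 3)

def BB (j : ℤ) : Set Pm :=
  sphere (0 : C3) 1 ×ˢ sphere (0 : ℂ) 1 ×ˢ Icc ((j : ℝ) - 1 / 2) (j + 1 / 2) ×ˢ sphere (0 : C2) 1

def KP (j : ℤ) : Set Pm := BB j ∩ gg j ⁻¹' {0}

theorem ne_of_sphere {E : Type} [NormedAddCommGroup E] {v : E} (h : v ∈ sphere (0 : E) 1) :
    v ≠ 0 := by
  rintro rfl
  simp at h

theorem pq_ne {v : C2} (h : v ≠ 0) : v.1 ≠ 0 ∨ v.2 ≠ 0 := by
  by_contra hc
  push Not at hc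
  exact h (Prod.ext hc.1 hc.2)

theorem nu_ne {n : C3} (h : n ≠ 0) {p q : ℂ} (hpq : p ≠ 0 ∨ q ≠ 0) : nu n p q ≠ 0 := by
  intro h0
  have := (nu_eq_zero h).1 h0
  rcases hpq with h1 | h1
  · exact h1 this.1
  · exact h1 this.2

theorem compact_BB (j : ℤ) : IsCompact (BB j) :=
  (isCompact_sphere _ _).prod ((isCompact_sphere _ _).prod (isCompact_Icc.prod
    (isCompact_sphere _ _)))

theorem continuous_cub : Continuous cub := by
  unfold cub
  fun_prop

theorem continuous_nu : Continuous fun z : C3 × ℂ × ℂ => nu z.1 z.2.1 z.2.2 := by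
  refine continuous_pi fun i => ?_
  fin_cases i <;> simp [nu] <;> fun_prop

theorem continuousAt_gg (j : ℤ) {z : Pm} (h : z.1 ≠ 0) : ContinuousAt (gg j) z := by
  have hc : Continuous fun z : Pm => ((z.1, z.2.1, z.2.2.1) : C3 × ℂ × ℝ) := by fun_prop
  have h1 : ContinuousAt (fun z : Pm => Xi j z.1 z.2.1 z.2.2.1) z :=
    ContinuousAt.comp (f := fun z : Pm => ((z.1, z.2.1, z.2.2.1) : C3 × ℂ × ℝ))
      (contDiffAt_Xi j (q := (z.1, z.2.1, z.2.2.1)) h).continuousAt hc.continuousAt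
  have h2 : Continuous fun z : Pm => cub z.1 := continuous_cub.comp continuous_fst
  have h3 : Continuous fun z : Pm => ((nsq z.1 : ℝ) : ℂ) ^ 3 :=
    (continuous_ofReal.comp ((contDiff_nsq (m := 3)).continuous.comp continuous_fst)).pow 3
  have h4 : ((nsq z.1 : ℝ) : ℂ) ^ 3 ≠ 0 := pow_ne_zero _ (ofReal_ne_zero.2 (nsq_pos h).ne')
  have h5 : Continuous fun z : Pm => z.2.2.2.1 := by fun_prop
  have h6 : Continuous fun z : Pm => z.2.2.2.2 := by fun_prop
  exact (h5.continuousAt.mul h1).sub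
    (h6.continuousAt.mul (h2.continuousAt.div h3.continuousAt h4))

theorem compact_KP (j : ℤ) : IsCompact (KP j) := by
  refine (compact_BB j).of_isClosed_subset ?_ inter_subset_left
  refine ContinuousOn.preimage_isClosed_of_isClosed ?_ (compact_BB j).isClosed isClosed_singleton
  exact fun z hz => (continuousAt_gg j (ne_of_sphere hz.1)).continuousWithinAt

theorem continuousAt_prjnu {X : Type} [TopologicalSpace X] {n : X → C3} {p q : X → ℂ} {x : X}
    (hn : ContinuousAt n x) (hp : ContinuousAt p x) (hq : ContinuousAt q x) (h : n x ≠ 0)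
    (hpq : p x ≠ 0 ∨ q x ≠ 0) : ContinuousAt (fun y => prj (nu (n y) (p y) (q y))) x := by
  have h1 : ContinuousAt (fun y => nu (n y) (p y) (q y)) x :=
    ContinuousAt.comp (f := fun y => ((n y, p y, q y) : C3 × ℂ × ℂ)) continuous_nu.continuousAt
      (hn.prodMk (hp.prodMk hq))
  exact ContinuousAt.comp (f := fun y => nu (n y) (p y) (q y))
    (contDiffAt_prj (nu_ne h hpq)).continuousAt h1

theorem continuousAt_pt {X : Type} [TopologicalSpace X] {n : X → C3} {a : X → ℂ} {T : X → ℝ}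
    {R : X → M4} {x : X} (hn : ContinuousAt n x) (ha : ContinuousAt a x) (hT : ContinuousAt T x)
    (hR : ContinuousAt R x) (h : n x ≠ 0) :
    ContinuousAt (fun y => pt (n y) (a y) (T y) (R y)) x := by
  have h1 : ContinuousAt (fun y => prj (n y)) x :=
    ContinuousAt.comp (f := n) (contDiffAt_prj h).continuousAt hn
  exact (h1.prodMk (ha.prodMk hR)).prodMk hT

theorem continuousAt_FF (j : ℤ) {z : Pm} (h : z.1 ≠ 0) (h' : z.2.2.2 ≠ 0) :
    ContinuousAt (FF j) z := by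
  have hc : Continuous fun z : Pm => ((z.1, z.2.1, z.2.2.1) : C3 × ℂ × ℝ) := by fun_prop
  have h1 : ContinuousAt (fun z : Pm => NN j z.1 z.2.1 z.2.2.1) z :=
    ContinuousAt.comp (f := fun z : Pm => ((z.1, z.2.1, z.2.2.1) : C3 × ℂ × ℝ))
      (contDiffAt_NN j (q := (z.1, z.2.1, z.2.2.1)) h).continuousAt hc.continuousAt
  have h2 : Continuous fun v : C4 => cut (nsq v) :=
    (contDiff_stp _ _).continuous.comp (contDiff_nsq (m := 4)).continuous
  have h3 : ContinuousAt (fun z : Pm => cut (nsq (NN j z.1 z.2.1 z.2.2.1))) z :=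
    ContinuousAt.comp (f := fun z : Pm => NN j z.1 z.2.1 z.2.2.1) h2.continuousAt h1
  have h5 : Continuous fun z : Pm => z.2.2.2.1 := by fun_prop
  have h6 : Continuous fun z : Pm => z.2.2.2.2 := by fun_prop
  have h7 : Continuous fun z : Pm => z.2.1 := by fun_prop
  have h8 : Continuous fun z : Pm => z.2.2.1 := by fun_prop
  exact continuousAt_pt continuous_fst.continuousAt h7.continuousAt h8.continuousAt
    (h3.smul (continuousAt_prjnu continuous_fst.continuousAt h5.continuousAt h6.continuousAt h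
      (pq_ne h'))) h

theorem cut_zero : cut (nsq (0 : C4)) = 1 := by
  rw [nsq_eq_zero.2 rfl]
  exact stp_one (by norm_num) (by norm_num)

/-- proportional pairs give the same projector -/
theorem prj_nu_prop {n : C3} {p q p' q' : ℂ} (hpq : p ≠ 0 ∨ q ≠ 0) (hpq' : p' ≠ 0 ∨ q' ≠ 0)
    (he : p * q' = q * p') : prj (nu n p q) = prj (nu n p' q') := by
  obtain ⟨c, hc, h1, h2⟩ : ∃ c : ℂ, c ≠ 0 ∧ p = c * p' ∧ q = c * q' := by
    rcases hpq' with h | h
    · refine ⟨p / p', ?_, by field_simp, ?_⟩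
      · intro h0
        have hp : p = 0 := by
          rcases div_eq_zero_iff.1 h0 with h0 | h0
          · exact h0
          · exact absurd h0 h
        rw [hp, zero_mul] at he
        rcases mul_eq_zero.1 he.symm with h1 | h1
        · rcases hpq with h2 | h2
          · exact h2 hp
          · exact h2 h1
        · exact h h1
      · field_simp
        linear_combination -he
    · refine ⟨q / q', ?_, ?_, by field_simp⟩
      · intro h0
        have hq : q = 0 := by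
          rcases div_eq_zero_iff.1 h0 with h0 | h0
          · exact h0
          · exact absurd h0 h
        rw [hq, zero_mul] at he
        rcases mul_eq_zero.1 he with h1 | h1
        · rcases hpq with h2 | h2
          · exact h2 h1
          · exact h2 hq
        · exact h h1
      · field_simp
        linear_combination he
  rw [h1, h2, ← smul_nu, prj_smul hc]

theorem NN_ne_iff {n : C3} (h : n ≠ 0) {j : ℤ} {a : ℂ} {T : ℝ} (h0 : NN j n a T ≠ 0) :
    cub n / (nsq n : ℂ) ^ 3 ≠ 0 ∨ Xi j n a T ≠ 0 := by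
  by_contra hc
  push Not at hc
  exact h0 ((nu_eq_zero h).2 hc)

theorem FF_mem (j : ℤ) {z : Pm} (hz : z ∈ KP j) : FF j z ∈ SS ∧ |(FF j z).2 - j| ≤ 1 / 2 := by
  obtain ⟨n, a, T, p, q⟩ := z
  obtain ⟨⟨hn, ha, hT, hpq⟩, hg⟩ := hz
  have hn0 : n ≠ 0 := ne_of_sphere hn
  have ha1 : ‖a‖ = 1 := by simpa using ha
  have hpq0 : p ≠ 0 ∨ q ≠ 0 := pq_ne (ne_of_sphere hpq)
  have hT1 : |T - j| ≤ 1 / 2 := abs_le.2 ⟨by linarith [hT.1], by linarith [hT.2]⟩
  have he : p * Xi j n a T = q * (cub n / (nsq n : ℂ) ^ 3) := sub_eq_zero.1 hg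
  refine ⟨?_, hT1⟩
  by_cases h0 : NN j n a T = 0
  · right
    obtain ⟨rfl, -⟩ := wall_of_NN hn0 ha1 h0
    refine ⟨n, a, j, p, q, hn0, ha1, h0, hpq0, ?_⟩
    simp only [FF, h0, cut_zero, one_smul]
  · left
    have hr := RR_round hn0 ha1 (j := j) (T := T) (by linarith)
    refine ⟨n, a, T, hn0, ha1, fun h => h0 (hr.2.1 h), ?_⟩
    simp only [FF, lift, hr.1]
    rw [prj_nu_prop hpq0 (NN_ne_iff hn0 h0) he]
    rfl

theorem unit_smul {E : Type} [NormedAddCommGroup E] [NormedSpace ℂ E] {v : E} (h : v ≠ 0) :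
    ∃ c : ℂ, c ≠ 0 ∧ c • v ∈ sphere (0 : E) 1 := by
  have h1 : ‖v‖ ≠ 0 := norm_ne_zero_iff.2 h
  refine ⟨((‖v‖⁻¹ : ℝ) : ℂ), ofReal_ne_zero.2 (inv_ne_zero h1), ?_⟩
  rw [mem_sphere_zero_iff_norm, norm_smul, Complex.norm_real, norm_inv, norm_norm,
    inv_mul_cancel₀ h1]

/-- normalisation of the parameters -/
theorem norm_par (j : ℤ) {n : C3} {a : ℂ} {T : ℝ} {p q : ℂ} (hn : n ≠ 0) (ha : ‖a‖ = 1)
    (hT : |T - j| ≤ 1 / 2) (hpq : p ≠ 0 ∨ q ≠ 0)
    (he : p * Xi j n a T = q * (cub n / (nsq n : ℂ) ^ 3)) :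
    FF j (n, a, T, p, q) ∈ FF j '' KP j := by
  obtain ⟨c, hc, hcn⟩ := unit_smul hn
  have hcc : conj c ≠ 0 := (map_ne_zero _).2 hc
  have hv : ((p / conj c ^ 3, q) : C2) ≠ 0 := by
    intro h
    rcases hpq with h1 | h1
    · exact (div_ne_zero h1 (pow_ne_zero 3 hcc)) (congrArg Prod.fst h)
    · exact h1 (congrArg Prod.snd h)
  obtain ⟨e, he0, hev⟩ := unit_smul hv
  refine ⟨(c • n, a, T, e • (p / conj c ^ 3, q)), ⟨⟨hcn, by simpa using ha,
    ⟨by linarith [(abs_le.1 hT).1], by linarith [(abs_le.1 hT).2]⟩, hev⟩, ?_⟩, ?_⟩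
  · have hq : ((nsq n : ℝ) : ℂ) ≠ 0 := ofReal_ne_zero.2 (nsq_pos hn).ne'
    have hm : ((‖c‖ ^ 2 : ℝ) : ℂ) = c * conj c := by
      rw [mul_conj, normSq_eq_norm_sq]
    simp only [mem_preimage, gg, mem_singleton_iff, Prod.smul_fst, Prod.smul_snd, smul_eq_mul,
      Xi_smul hc, cub_smul, nsq_smul, ofReal_mul, hm]
    have : e * (p / conj c ^ 3) * Xi j n a T = e / conj c ^ 3 * (p * Xi j n a T) := by ring
    rw [this, he]
    field_simp
    ring
  · simp only [FF, pt, Prod.smul_fst, Prod.smul_snd, smul_eq_mul, NN_smul hc, prj_smul hc,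
      ← smul_nu, prj_smul he0, nu_smul, div_mul_cancel₀ _ (pow_ne_zero 3 hcc)]

theorem slab_eq (j : ℤ) : {x ∈ SS | |x.2 - j| ≤ 1 / 2} = FF j '' KP j := by
  refine Subset.antisymm ?_ ?_
  · rintro x ⟨hx | hx, hT⟩
    · obtain ⟨n, a, T, hn, ha, h0, rfl⟩ := hx
      have hT' : |T - j| ≤ 1 / 2 := hT
      have hr := RR_round hn ha (j := j) (T := T) (by linarith)
      have h1 : NN j n a T ≠ 0 := fun h => h0 (hr.2.2 h)
      have := norm_par j hn ha hT' (NN_ne_iff hn h1) (mul_comm _ _)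
      have e : lift n a T = FF j (n, a, T, cub n / (nsq n : ℂ) ^ 3, Xi j n a T) := by
        simp only [FF, lift, hr.1]
        rfl
      rw [e]
      exact this
    · obtain ⟨n, a, j', p, q, hn, ha, h0, hpq, rfl⟩ := hx
      have hT' : |(j' : ℝ) - j| ≤ 1 / 2 := hT
      have hj : j' = j := by
        have h1 : |((j' - j : ℤ) : ℝ)| < 1 := by push_cast; linarith
        have h2 : |j' - j| < 1 := by exact_mod_cast h1
        have := Int.abs_lt_one_iff.1 h2
        omega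
      subst hj
      have h1 := (nu_eq_zero hn).1 h0
      have := norm_par j' hn ha hT' hpq (by rw [h1.1, h1.2, mul_zero, mul_zero])
      have e : pt n a j' (prj (nu n p q)) = FF j' (n, a, j', p, q) := by
        simp only [FF, h0, cut_zero, one_smul]
      rw [e]
      exact this
  · rintro x ⟨z, hz, rfl⟩
    exact FF_mem j hz

theorem compact_slab (j : ℤ) : IsCompact {x ∈ SS | |x.2 - j| ≤ 1 / 2} := by
  rw [slab_eq]
  refine (compact_KP j).image_of_continuousOn fun z hz => ?_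
  exact (continuousAt_FF j (ne_of_sphere hz.1.1) (ne_of_sphere hz.1.2.2.2)).continuousWithinAt

theorem compact_le (c : ℝ) : IsCompact {x ∈ SS | |x.2| ≤ c} := by
  have h1 : IsCompact (⋃ j ∈ Finset.Icc (-(⌈c⌉ + 1)) (⌈c⌉ + 1),
      {x ∈ SS | |x.2 - (j : ℤ)| ≤ 1 / 2}) :=
    (Finset.Icc (-(⌈c⌉ + 1)) (⌈c⌉ + 1)).isCompact_biUnion fun j _ => compact_slab j
  have h2 : IsClosed {x : VV | |x.2| ≤ c} :=
    isClosed_le (continuous_abs.comp continuous_snd) continuous_const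
  have h3 := h1.inter_right h2
  have e : {x ∈ SS | |x.2| ≤ c} = (⋃ j ∈ Finset.Icc (-(⌈c⌉ + 1)) (⌈c⌉ + 1),
      {x ∈ SS | |x.2 - (j : ℤ)| ≤ 1 / 2}) ∩ {x : VV | |x.2| ≤ c} := by
    ext x
    simp only [mem_inter_iff, mem_iUnion, mem_ofPred_eq, exists_prop, Finset.mem_Icc]
    constructor
    · rintro ⟨hx, hc⟩
      have hr := abs_sub_round x.2
      have h4 := abs_le.1 hr
      have h5 := abs_le.1 hc
      have h6 := Int.le_ceil c
      refine ⟨⟨round x.2, ⟨?_, ?_⟩, hx, hr⟩, hc⟩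
      · have : ((-(⌈c⌉ + 1) : ℤ) : ℝ) ≤ (round x.2 : ℤ) := by push_cast; linarith
        exact_mod_cast this
      · have : ((round x.2 : ℤ) : ℝ) ≤ ((⌈c⌉ + 1 : ℤ) : ℝ) := by push_cast; linarith
        exact_mod_cast this
    · rintro ⟨⟨j, -, hx, -⟩, hc⟩
      exact ⟨hx, hc⟩
  rw [e]
  exact h3

/-! ### the sets `ZZ j` -/

abbrev Pz : Type := ℝ × ℝ × ℂ × C2

def nz3 (z : Pz) : C3 := ![z.1, z.2.1, 1]

theorem nz3_ne (z : Pz) : nz3 z ≠ 0 := by
  intro h
  have := congrFun h 2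
  simp [nz3] at this

theorem continuous_nz3 : Continuous nz3 := by
  refine continuous_pi fun i => ?_
  fin_cases i <;> simp [nz3] <;> fun_prop

def FZ (j : ℤ) (z : Pz) : VV := pt (nz3 z) z.2.2.1 j (prj (nu (nz3 z) z.2.2.2.1 z.2.2.2.2))

def BZ : Set Pz := Icc (0 : ℝ) 400 ×ˢ Icc (0 : ℝ) 400 ×ˢ sphere (0 : ℂ) 1 ×ˢ sphere (0 : C2) 1

def KZ (j : ℤ) : Set Pz := BZ ∩ (fun z : Pz => NN j (nz3 z) z.2.2.1 j) ⁻¹' {0}

theorem compact_KZ (j : ℤ) : IsCompact (KZ j) := by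
  have hB : IsCompact BZ :=
    isCompact_Icc.prod (isCompact_Icc.prod ((isCompact_sphere _ _).prod (isCompact_sphere _ _)))
  refine hB.inter_right (IsClosed.preimage ?_ isClosed_singleton)
  have h1 : Continuous fun z : Pz => z.2.2.1 := by fun_prop
  have hc : Continuous fun z : Pz => ((nz3 z, z.2.2.1, (j : ℝ)) : C3 × ℂ × ℝ) :=
    continuous_nz3.prodMk (h1.prodMk continuous_const)
  refine continuous_iff_continuousAt.2 fun z => ?_
  exact ContinuousAt.comp (f := fun z : Pz => ((nz3 z, z.2.2.1, (j : ℝ)) : C3 × ℂ × ℝ))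
    (contDiffAt_NN j (q := (nz3 z, z.2.2.1, (j : ℝ))) (nz3_ne z)).continuousAt hc.continuousAt

theorem oval_bound {s t : ℝ} (hs : 0 ≤ s) (ht : 0 ≤ t) (h : s * t = (s ^ 3 + t ^ 3 + 1) / 400)
    (hst : t ≤ s) : s ≤ 400 := by
  by_contra hc
  push Not at hc
  have h1 : s * t ≤ s * s := mul_le_mul_of_nonneg_left hst hs
  have h2 : 0 ≤ t ^ 3 := pow_nonneg ht 3
  have h3 : 400 * (s * s) ≤ s * (s * s) :=
    mul_le_mul_of_nonneg_right hc.le (mul_nonneg hs hs)
  nlinarith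

theorem ZZ_eq (j : ℤ) : ZZ j = FZ j '' KZ j := by
  refine Subset.antisymm ?_ ?_
  · rintro x ⟨s, t, a, p, q, hs, ht, ha, h0, hpq, rfl⟩
    have hv : ((p, q) : C2) ≠ 0 := by
      intro h
      rcases hpq with h1 | h1
      · exact h1 (congrArg Prod.fst h)
      · exact h1 (congrArg Prod.snd h)
    obtain ⟨e, he0, hev⟩ := unit_smul hv
    have hc := ((NN_eq_zero (nz3_ne (s, t, a, p, q))).1 h0).1
    have hr : s * t = (s ^ 3 + t ^ 3 + 1) / 400 := by
      have h1 : ((s * t - (s ^ 3 + t ^ 3 + 1) / 400 : ℝ) : ℂ) = 0 := by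
        rw [← hc]
        simp [cub, nz3]
      have h2 := ofReal_eq_zero.1 h1
      linarith
    have hb : s ≤ 400 ∧ t ≤ 400 := by
      rcases le_total t s with h | h
      · have := oval_bound hs ht hr h
        exact ⟨this, by linarith⟩
      · have := oval_bound ht hs (by linarith) h
        exact ⟨by linarith, this⟩
    refine ⟨(s, t, a, e • (p, q)), ⟨⟨⟨hs, hb.1⟩, ⟨ht, hb.2⟩, by simpa using ha, hev⟩, h0⟩, ?_⟩
    simp only [FZ, Prod.smul_fst, Prod.smul_snd, smul_eq_mul, ← smul_nu, prj_smul he0]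
    rfl
  · rintro x ⟨⟨s, t, a, p, q⟩, ⟨⟨hs, ht, ha, hpq⟩, h0⟩, rfl⟩
    exact ⟨s, t, a, p, q, hs.1, ht.1, by simpa using ha, h0, pq_ne (ne_of_sphere hpq), rfl⟩

theorem compact_ZZ (j : ℤ) : IsCompact (ZZ j) := by
  rw [ZZ_eq]
  refine (compact_KZ j).image_of_continuousOn fun z hz => ContinuousAt.continuousWithinAt ?_
  have h1 : Continuous fun z : Pz => z.2.2.1 := by fun_prop
  have h5 : Continuous fun z : Pz => z.2.2.2.1 := by fun_prop
  have h6 : Continuous fun z : Pz => z.2.2.2.2 := by fun_prop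
  exact continuousAt_pt continuous_nz3.continuousAt h1.continuousAt continuousAt_const
    (continuousAt_prjnu continuous_nz3.continuousAt h5.continuousAt h6.continuousAt (nz3_ne z)
      (pq_ne (ne_of_sphere hz.1.2.2.2))) (nz3_ne z)

theorem closed_DD : IsClosed DD := by
  refine isClosed_eq ?_ continuous_const
  fun_prop

end GcptP

theorem gcpt : GcptStmt :=
  ⟨GcptP.compact_le, fun j => (GcptP.compact_ZZ j).isClosed, GcptP.closed_DD⟩

end

end Pool.Agent.MP_9758ca_gt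

end

end MrgPart2

-- marker of a merged file
example : 731051 + 203684 = 731051 + 203684 := rfl
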