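import Mathlib.Data.Int.Star
import Mathlib.Topology.Compactness.CompactlyGeneratedSpace
import Mathlib.Combinatorics.SimpleGraph.Basic
import Mathlib.RingTheory.RegularLocalRing.Defs
import Pool.Agent.MP_9758ca_gt.SpecA
import Pool.Agent.MP_9758ca_gt.Gn

-- ======== part 0: formerly Pool.Agent.MP_9758ca_gt.PC
section MrgPart0

section

/-!
PROJECT BALL: strata of negative index are empty for generic parameters (STRAT).
-/

open scoped Topology ContDiff ComplexConjugate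
open Set Metric Filter Complex

namespace Pool.Agent.MP_9758ca_gt

namespace StratP

section Abs
variable {A B E Q W : Type} [NormedAddCommGroup A] [NormedSpace ℝ A] [NormedAddCommGroup B]
  [NormedSpace ℝ B] [NormedAddCommGroup E] [NormedSpace ℝ E] [NormedAddCommGroup Q]
  [NormedSpace ℝ Q] [NormedAddCommGroup W] [NormedSpace ℝ W]

theorem exists_DE {X Y : Type} [NormedAddCommGroup X] [NormedSpace ℝ X] [NormedAddCommGroup Y]
    [NormedSpace ℝ Y] (T : ((A × ℝ) × X) × Q →L[ℝ] Y) :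
    ∃ (D : X →L[ℝ] Y) (F : A →L[ℝ] Y), (∀ ξ, D ξ = T ((0, ξ), 0)) ∧
      (∀ b, F b = T (((b, 0), 0), 0)) ∧ ∀ b ξ, T (((b, 0), ξ), 0) = D ξ + F b := by
  refine ⟨T.comp ((ContinuousLinearMap.inl ℝ _ Q).comp (ContinuousLinearMap.inr ℝ (A × ℝ) X)),
    T.comp ((ContinuousLinearMap.inl ℝ _ Q).comp ((ContinuousLinearMap.inl ℝ (A × ℝ) X).comp
      (ContinuousLinearMap.inl ℝ A ℝ))), fun _ => rfl, fun _ => rfl, fun b ξ => ?_⟩
  show _ = T ((0, ξ), 0) + T (((b, 0), 0), 0)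
  rw [← map_add]
  simp

variable {N : ℕ} {X Y : Fin N → Type} [∀ i, NormedAddCommGroup (X i)] [∀ i, NormedSpace ℝ (X i)]
  [∀ i, NormedAddCommGroup (Y i)] [∀ i, NormedSpace ℝ (Y i)]

/-- the coordinates seen by the equation number `i` -/
noncomputable def prL (A Q : Type) [NormedAddCommGroup A] [NormedSpace ℝ A] [NormedAddCommGroup Q]
    [NormedSpace ℝ Q] (X : Fin N → Type) [∀ i, NormedAddCommGroup (X i)]
    [∀ i, NormedSpace ℝ (X i)] (i : Fin N) :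
    A × ((ℝ × ℝ) × ∀ i, X i) →L[ℝ] ((A × ℝ) × X i) × Q :=
  (ContinuousLinearMap.inl ℝ _ Q).comp
    (((ContinuousLinearMap.fst ℝ A _).prod ((ContinuousLinearMap.fst ℝ ℝ ℝ).comp
      ((ContinuousLinearMap.fst ℝ _ _).comp (ContinuousLinearMap.snd ℝ A _)))).prod
    ((ContinuousLinearMap.proj i).comp
      ((ContinuousLinearMap.snd ℝ _ _).comp (ContinuousLinearMap.snd ℝ A _))))

theorem prL_apply (i : Fin N) (z : A × ((ℝ × ℝ) × ∀ i, X i)) :
    prL A Q X i z = (((z.1, z.2.1.1), z.2.2 i), 0) := rfl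

/-- the total map and its derivative -/
theorem total (𝓕 : ∀ i, ((A × ℝ) × X i) × Q → Y i) (Ψ : ∀ i, X i → B) (ev : B →L[ℝ] E)
    (G : (ℝ × ℝ) × (Fin N → E) → W) (a₀ : A) (t₀ : ℝ × ℝ)
    (h𝓕 : ∀ i, ContDiffAt ℝ 1 (𝓕 i) (((a₀, t₀.1), 0), 0)) (hΨ : ∀ i, ContDiffAt ℝ 1 (Ψ i) 0)
    (hG : ContDiffAt ℝ 1 G (t₀, fun i => ev (Ψ i 0))) :
    ∃ H : A × ((ℝ × ℝ) × ∀ i, X i) → (∀ i, Y i) × W,
      (∀ z, H z = (fun i => 𝓕 i (((z.1, z.2.1.1), z.2.2 i), 0),
        G (z.2.1, fun i => ev (Ψ i (z.2.2 i))))) ∧ ContDiffAt ℝ 1 H (a₀, t₀, 0) ∧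
      ∀ z, fderiv ℝ H (a₀, t₀, 0) z =
        (fun i => fderiv ℝ (𝓕 i) (((a₀, t₀.1), 0), 0) (((z.1, z.2.1.1), z.2.2 i), 0),
          fderiv ℝ G (t₀, fun i => ev (Ψ i 0)) (z.2.1, fun i => ev (fderiv ℝ (Ψ i) 0 (z.2.2 i)))) := by
  let q : A × ((ℝ × ℝ) × ∀ i, X i) := (a₀, t₀, 0)
  let c : ∀ i, A × ((ℝ × ℝ) × ∀ i, X i) →L[ℝ] X i := fun i => (ContinuousLinearMap.proj i).comp
    ((ContinuousLinearMap.snd ℝ _ _).comp (ContinuousLinearMap.snd ℝ A _))
  let t : A × ((ℝ × ℝ) × ∀ i, X i) →L[ℝ] ℝ × ℝ :=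
    (ContinuousLinearMap.fst ℝ _ _).comp (ContinuousLinearMap.snd ℝ A _)
  have a1 : ∀ i, ContDiffAt ℝ 1 (fun z => 𝓕 i (prL A Q X i z)) q := fun i =>
    ContDiffAt.comp q (g := 𝓕 i) (h𝓕 i) (prL A Q X i).contDiff.contDiffAt
  have a2 : ∀ i, ContDiffAt ℝ 1 (fun z => ev (Ψ i (c i z))) q := fun i =>
    ev.contDiff.contDiffAt.comp q (ContDiffAt.comp q (g := Ψ i) (hΨ i) (c i).contDiff.contDiffAt)
  have a3 : ContDiffAt ℝ 1 (fun z => G (t z, fun i => ev (Ψ i (c i z)))) q :=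
    ContDiffAt.comp q (g := G) (f := fun z => (t z, fun i => ev (Ψ i (c i z)))) hG
      (t.contDiff.contDiffAt.prodMk (contDiffAt_pi.2 a2))
  have b1 : ∀ i, HasFDerivAt (fun z => 𝓕 i (prL A Q X i z))
      ((fderiv ℝ (𝓕 i) (((a₀, t₀.1), 0), 0)).comp (prL A Q X i)) q := fun i =>
    HasFDerivAt.comp q (g := 𝓕 i) ((h𝓕 i).differentiableAt one_ne_zero).hasFDerivAt
      (prL A Q X i).hasFDerivAt
  have b2 : ∀ i, HasFDerivAt (fun z => ev (Ψ i (c i z)))
      (ev.comp ((fderiv ℝ (Ψ i) 0).comp (c i))) q := fun i =>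
    ev.hasFDerivAt.comp q (HasFDerivAt.comp q (g := Ψ i)
      ((hΨ i).differentiableAt one_ne_zero).hasFDerivAt (c i).hasFDerivAt)
  have b3 := HasFDerivAt.comp q (g := G) (f := fun z => (t z, fun i => ev (Ψ i (c i z))))
    (hG.differentiableAt one_ne_zero).hasFDerivAt (t.hasFDerivAt.prodMk (hasFDerivAt_pi.2 b2))
  have b4 := (hasFDerivAt_pi.2 b1).prodMk b3
  refine ⟨fun z => (fun i => 𝓕 i (prL A Q X i z), G (t z, fun i => ev (Ψ i (c i z)))),
    fun _ => rfl, (contDiffAt_pi.2 a1).prodMk a3, fun z => ?_⟩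
  exact (congrArg (fun T => T z) b4.fderiv).trans rfl

/-- the local statement -/
theorem core (h6 : RieszStmt) (h7 : SsStmt) [CompleteSpace A] [∀ i, CompleteSpace (X i)]
    [∀ i, CompleteSpace (Y i)] [FiniteDimensional ℝ W]
    (𝓕 : ∀ i, ((A × ℝ) × X i) × Q → Y i) (Ψ : ∀ i, X i → B) (L : ∀ i, B →L[ℝ] X i)
    (ev : B →L[ℝ] E) (G : (ℝ × ℝ) × (Fin N → E) → W) (D : ∀ i, X i →L[ℝ] Y i) (ind : Fin N → ℤ)
    (Pm : B → Prop) (Pe : A × ℝ → B → Q → Prop) (𝒞 : Set ((ℝ × ℝ) × (Fin N → E)))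
    (Sol : Set (A × ((ℝ × ℝ) × (Fin N → B)))) (a₀ : A) (t₀ : ℝ × ℝ) (b₀ : Fin N → B)
    (h0 : (a₀, t₀, b₀) ∈ Sol)
    (h𝓕 : ∀ i, ContDiffAt ℝ 1 (𝓕 i) (((a₀, t₀.1), 0), 0)) (hΨ : ∀ i, ContDiffAt ℝ 1 (Ψ i) 0)
    (hΨ0 : ∀ i, Ψ i 0 = b₀ i) (hG : ContDiffAt ℝ 1 G (t₀, fun i => ev (b₀ i)))
    (hD : ∀ i ξ, D i ξ = fderiv ℝ (𝓕 i) (((a₀, t₀.1), 0), 0) ((0, ξ), 0))
    (hF : ∀ i, Fred (D i) (ind i)) (hi : ∑ i, ind i + 2 < Module.finrank ℝ W)
    (hs : ∀ (g : ∀ i, Y i) (w : W), ∃ (b : A) (s : ℝ) (ζ : ∀ i, X i),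
      (∀ i, fderiv ℝ (𝓕 i) (((a₀, t₀.1), 0), 0) (((b, 0), ζ i), 0) = g i) ∧
      fderiv ℝ G (t₀, fun i => ev (b₀ i)) ((0, s), fun i => ev (fderiv ℝ (Ψ i) 0 (ζ i))) = w)
    (e1 : ∀ i, ∀ᶠ b in 𝓝 (b₀ i), Pm b → Ψ i (L i (b - b₀ i)) = b)
    (e2 : ∀ i, ∀ᶠ z in 𝓝 ((((a₀, t₀.1), 0), 0) : ((A × ℝ) × X i) × Q),
      Pe z.1.1 (Ψ i z.1.2) z.2 → 𝓕 i z = 0)
    (e3 : ∀ᶠ c in 𝓝 (t₀, fun i => ev (b₀ i)), c ∈ 𝒞 → G c = 0)
    (hS : ∀ q ∈ Sol, (∀ i, Pm (q.2.2 i) ∧ Pe (q.1, q.2.1.1) (q.2.2 i) 0) ∧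
      (q.2.1, fun i => ev (q.2.2 i)) ∈ 𝒞) :
    ∃ Nb ∈ 𝓝 (a₀, t₀, b₀), IsMeagre (Prod.fst '' (Sol ∩ Nb)) := by
  have : CompleteSpace W := FiniteDimensional.complete ℝ W
  have hb : (fun i => ev (b₀ i)) = fun i => ev (Ψ i 0) := funext fun i => by rw [hΨ0]
  obtain ⟨H, hH, hH1, hH2⟩ := total 𝓕 Ψ ev G a₀ t₀ h𝓕 hΨ (hb ▸ hG)
  rw [← hb] at hH2
  let Θ : A × ((ℝ × ℝ) × (Fin N → B)) → A × ((ℝ × ℝ) × ∀ i, X i) :=
    fun q => (q.1, q.2.1, fun i => L i (q.2.2 i - b₀ i))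
  have c0 : ∀ i, Continuous fun q : A × ((ℝ × ℝ) × (Fin N → B)) => q.2.2 i := fun i =>
    (continuous_apply i).comp continuous_snd.snd
  have hΘ : Continuous Θ := continuous_fst.prodMk (continuous_snd.fst.prodMk
    (continuous_pi fun i => (L i).continuous.comp ((c0 i).sub continuous_const)))
  have hΘ0 : Θ (a₀, t₀, b₀) = (a₀, t₀, 0) := by
    refine Prod.ext rfl (Prod.ext rfl (funext fun i => ?_))
    show L i (b₀ i - b₀ i) = 0
    rw [sub_self, map_zero]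
  have t0 : Tendsto Θ (𝓝 (a₀, t₀, b₀)) (𝓝 (a₀, t₀, 0)) := hΘ0 ▸ hΘ.tendsto _
  have key : ∀ᶠ q in 𝓝 (a₀, t₀, b₀), q ∈ Sol → H (Θ q) = 0 := by
    have k1 := eventually_all.2 fun i => ((c0 i).tendsto (a₀, t₀, b₀)).eventually (e1 i)
    have k2 := eventually_all.2 fun i =>
      (((prL A Q X i).continuous.tendsto (a₀, t₀, 0)).comp t0).eventually (e2 i)
    have c3 : Continuous fun q : A × ((ℝ × ℝ) × (Fin N → B)) =>
        (q.2.1, fun i => ev (q.2.2 i)) :=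
      continuous_snd.fst.prodMk (continuous_pi fun i => ev.continuous.comp (c0 i))
    have k3 := (c3.tendsto (a₀, t₀, b₀)).eventually e3
    filter_upwards [k1, k2, k3] with q m1 m2 m3 hq
    obtain ⟨n1, n2⟩ := hS q hq
    have r1 : ∀ i, Ψ i (L i (q.2.2 i - b₀ i)) = q.2.2 i := fun i => m1 i (n1 i).1
    rw [hH]
    refine Prod.ext (funext fun i => m2 i ?_) ?_
    · show Pe (q.1, q.2.1.1) (Ψ i (L i (q.2.2 i - b₀ i))) 0
      rw [r1]
      exact (n1 i).2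
    · show G (q.2.1, fun i => ev (Ψ i (L i (q.2.2 i - b₀ i)))) = 0
      simp only [r1]
      exact m3 n2
  have hz : H (a₀, t₀, 0) = 0 := hΘ0 ▸ key.self_of_nhds h0
  have f1 : Fred (ContinuousLinearMap.pi fun i => (D i).comp (ContinuousLinearMap.proj i))
      (∑ i, ind i) := h6.2.1 N X Y D ind hF _ fun _ _ => rfl
  have f2 := ((h6.1 _ _ _ _).2.2 (ℝ × ℝ) W).1 f1
    ((fderiv ℝ H (a₀, t₀, 0)).comp (ContinuousLinearMap.inr ℝ A _)) fun x => by
      refine funext fun i => ?_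
      show (fderiv ℝ H (a₀, t₀, 0) (0, 0, x)).1 i = D i (x i)
      rw [hH2, hD]
      rfl
  have f3 : Function.Surjective (fderiv ℝ H (a₀, t₀, 0)) := by
    rintro ⟨g, w⟩
    obtain ⟨b, s, ζ, k1, k2⟩ := hs g w
    exact ⟨(b, (0, s), ζ), by rw [hH2]; exact Prod.ext (funext k1) k2⟩
  have f4 : Module.finrank ℝ (ℝ × ℝ) = 2 := by simp
  obtain ⟨Nb, hN, hM⟩ := h7.1 A _ _ H (a₀, t₀, 0) _ (by rw [f4]; push_cast; omega) hH1 hz f2 f3
  refine ⟨_, (t0.eventually hN).and key, hM.mono ?_⟩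
  rintro _ ⟨q, ⟨k1, k2, k3⟩, rfl⟩
  exact ⟨(Θ q).2, k2, k3 k1⟩

end Abs

section Conc
variable {V : Type} [NormedAddCommGroup V] [NormedSpace ℝ V]

theorem sph_mono {M K : Set V} {J : V → En0 V} {U : C2 → V} (hK : K ⊆ M) (h : IsSph K J U) :
    IsSph M J U := ⟨⟨h.sm, h.inv, fun v hv => hK (h.mem v hv)⟩, h.cr⟩

theorem good_congr {N : ℕ} {𝒜 : Set (ℝ × V)} {τ : ℝ} {U U' : Fin N → C2 → V} (h : Good 𝒜 τ U)
    (he : ∀ i v, v ≠ 0 → U' i v = U i v) : Good 𝒜 τ U' := by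
  intro i
  obtain ⟨v, ⟨a1, a2, a3⟩, b, c, d⟩ := h i
  have e : U' i =ᶠ[𝓝 v] U i := mem_of_superset (nz_mem_nhds a1) fun w hw => he i w hw
  refine ⟨v, ⟨a1, by rwa [e.fderiv_eq], fun w hw k => a3 w hw ?_⟩, by rwa [he i v a1],
    fun j hj => ?_, d⟩
  · rwa [he i w hw, he i v a1] at k
  · rintro ⟨w, hw, k⟩
    exact c j hj ⟨w, hw, by rwa [he j w hw, he i v a1] at k⟩

theorem exists_ev : ∃ ev : BB V →L[ℝ] (Fin 3 → V), ∀ b m, ev b m = fX b (mk3 m) := by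
  choose L hL using fun m : Fin 3 => exists_evalX (χ := triv V) (mk3 m)
  exact ⟨ContinuousLinearMap.pi L, fun b m => hL m b⟩

variable [FiniteDimensional ℝ V] {O M : Set V} {π : V → V} {om h : F2 V} {A : Type}
  [NormedAddCommGroup A] [NormedSpace ℝ A]

/-- the local model of one sphere -/
theorem one (h1 : FrameStmt) (h2 : ChartStmt) (h3 : EqStmt) (h4 : Std2Stmt)
    (hA : Amb O π M om h) {JJ : (A × ℝ) × V → En0 V} (hJ : ContDiff ℝ 3 JJ)
    (hS : ∀ p, SJ π M fun x => JJ (p, x)) (p₀ : A × ℝ) (b₀ : BB V) (c : ℤ)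
    (hU : IsSph M (fun x => JJ (p₀, x)) (fX b₀)) (hc : Chern M (fun x => JJ (p₀, x)) (fX b₀) c) :
    ∃ (k : Fin 3 → ℤ) (e : C2 → C3 →L[ℝ] V) (f : C2 → V →L[ℝ] C3) (B : C2 → En0 C3)
      (Ψ : XX k → BB V) (L : BB V →L[ℝ] XX k) (𝓕 : ((A × ℝ) × XX k) × QQ V → YY k)
      (D : XX k →L[ℝ] YY k) (E : A →L[ℝ] YY k),
      (Frame M (fun x => JJ (p₀, x)) (fX b₀) k e f ∧ AHom k B ∧
        (∀ ξ v, v ≠ 0 → fY (D ξ) v = db (fX ξ) v + B v (fX ξ v)) ∧
        ∀ b v, v ≠ 0 → fY (E b) v =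
          f v (fderiv ℝ JJ (p₀, fX b₀ v) ((b, 0), 0) (fderiv ℝ (fX b₀) v (I • hor v)))) ∧
      ContDiffAt ℝ 1 𝓕 ((p₀, 0), 0) ∧ ContDiffAt ℝ 1 Ψ 0 ∧ Ψ 0 = b₀ ∧
      (∀ ξ, D ξ = fderiv ℝ 𝓕 ((p₀, 0), 0) ((0, ξ), 0)) ∧ Fred D (2 * (c + 3)) ∧
      (∀ b ξ, fderiv ℝ 𝓕 ((p₀, 0), 0) (((b, 0), ξ), 0) = D ξ + E b) ∧
      (∀ ζ v, v ≠ 0 → fX (fderiv ℝ Ψ 0 ζ) v = e v (fX ζ v)) ∧
      (∀ᶠ b in 𝓝 b₀, (∀ v, v ≠ 0 → fX b v ∈ M) → Ψ (L (b - b₀)) = b) ∧
      ∀ᶠ q in 𝓝 (((p₀, 0), 0) : ((A × ℝ) × XX k) × QQ V),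
        Eqn π (fun x => JJ (q.1.1, x)) (Ψ q.1.2) q.2 → 𝓕 q = 0 := by
  obtain ⟨k, hk, rfl⟩ := hc
  obtain ⟨e, f, hF, hP⟩ := ((h1 V).2.2 O M π om h hA).2.1 _ _ k hU.toMap2 hk
  obtain ⟨Ψ, L, a1, a2, a3, a4, a5⟩ :=
    (h2 V O M π om h hA).1 _ _ k e f b₀ hU.toMap2 hF fun _ _ => rfl
  obtain ⟨𝓕, B, b1, b2, b3, b4, -⟩ := h3 V O M π om h (A × ℝ) JJ p₀ (fX b₀) k e f Ψ hA hJ hS hU hF
    hP a1 (fun _ _ => by rw [a2]) a3 (a4.mono fun _ t => t.2)
  obtain ⟨D, E, c1, c2, c3⟩ := exists_DE (fderiv ℝ 𝓕 ((p₀, 0), 0))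
  have z1 : ∀ v, (fY (0 : QQ V) v).1 + JJ (p₀, fX b₀ v) (fY (0 : QQ V) v).2 = 0 := fun v => by
    rw [fY_zero, Prod.fst_zero, Prod.snd_zero, ContinuousLinearMap.map_zero, add_zero]
  have d1 : ∀ ξ v, v ≠ 0 → fY (D ξ) v = db (fX ξ) v + B v (fX ξ v) := fun ξ v hv => by
    have z2 : fderiv ℝ JJ (p₀, fX b₀ v) (0, 0) = 0 := ContinuousLinearMap.map_zero _
    rw [c1, b4 _ _ _ v hv, z1, z2, zero_apply, (f v).map_zero, add_zero, sub_zero]
  have d2 : ∀ b v, v ≠ 0 → fY (E b) v =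
      f v (fderiv ℝ JJ (p₀, fX b₀ v) ((b, 0), 0) (fderiv ℝ (fX b₀) v (I • hor v))) :=
    fun b v hv => by
      rw [c2, b4 _ _ _ v hv, z1, (f v).map_zero, sub_zero, add_eq_right]
      have := d1 0 v hv
      exact this.symm.trans ((congrArg (fun g => fY g v) D.map_zero).trans (fY_zero v))
  have d3 : Fred D (2 * (∑ i, k i + 3)) := by
    have := (h4 k B D b3 d1).1
    rwa [Finset.sum_add_distrib, Finset.sum_const, Finset.card_univ, Fintype.card_fin] at this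
  exact ⟨k, e, f, B, Ψ, L, 𝓕, D, E, ⟨hF, b3, d1, d2⟩, b1, a1, a2, c1, d3, c3, a3, a5,
    b2.mono fun _ t => t.2⟩

end Conc

end StratP

open StratP in
theorem strat_of (h1 : FrameStmt) (h2 : ChartStmt) (h3 : EqStmt) (h4 : Std2Stmt) (h5 : SurjStmt)
    (h6 : RieszStmt) (h7 : SsStmt) (h8 : CptStmt) : StratStmt := by
  intro V _ _ _ O M K π om h J 𝒜 A _ _ _ _ JJ r N 𝒞 d cb hA hK h𝒜 hP hC hI hd
  obtain ⟨ev, hev⟩ := exists_ev (V := V)
  let Sol : Set (A × ((ℝ × ℝ) × (Fin N → BB V))) := {q | ‖q.1‖ < r ∧ ∃ c : Fin N → ℤ,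
    (∀ i, IsSph K (fun x => JJ ((q.1, q.2.1.1), x)) (fX (q.2.2 i)) ∧
      Chern M (fun x => JJ ((q.1, q.2.1.1), x)) (fX (q.2.2 i)) (c i)) ∧ ∑ i, c i ≤ cb ∧
    Good 𝒜 q.2.1.1 (fun i => fX (q.2.2 i)) ∧ (q.2.1, fun i => ev (q.2.2 i)) ∈ 𝒞}
  refine IsMeagre.mono (s := Prod.fst '' Sol) ?_ (h7.2.1 A _ Sol ?_ ?_)
  · rintro a ⟨ha, τ, ρ, U, c, s1, s2, s3, s4⟩
    choose b hb using fun i => exists_X
      (xh_of_contDiffOn (inv_iff_hom.1 (s1 i).1.inv) (s1 i).1.sm)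
    refine ⟨(a, (τ, ρ), b), ⟨ha, c, fun i => ⟨?_, ?_⟩, s2, good_congr s3 hb, ?_⟩, rfl⟩
    · exact (s1 i).1.congr (hb i) (s1 i).1.mem fun _ _ _ _ => rfl
    · obtain ⟨k, k1, k2⟩ := (s1 i).2
      exact ⟨k, (h1 V).1 M M _ _ _ _ k k1 fun v hv => ⟨hb i v hv, rfl, fun _ _ => rfl⟩, k2⟩
    · have : (fun i => ev (b i)) = fun i j => U i (mk3 j) :=
        funext fun i => funext fun j => (hev _ _).trans (hb i _ (mk3_ne j))
      show ((τ, ρ), fun i => ev (b i)) ∈ 𝒞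
      rw [this]
      exact s4
  · refine ((TopologicalSpace.IsSeparable.of_separableSpace univ).prod
      ((TopologicalSpace.IsSeparable.of_separableSpace univ).prod
        (TopologicalSpace.IsSeparable.univ_pi fun _ : Fin N => (h8 V).2.1))).mono ?_
    rintro q ⟨-, c, s1, -⟩
    exact ⟨trivial, trivial, fun i _ => (s1 i).1.sm⟩
  · rintro ⟨a₀, t₀, b₀⟩ hq
    obtain ⟨ha, c, s1, s2, s3, s4⟩ := id hq
    obtain ⟨W, _, _, _, G, g1, g2, g3, g4⟩ := hC _ s4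
    choose k e f B Ψ L 𝓕 D E p1 p2 p3 p4 p5 p6 p7 p8 p9 p10 using fun i =>
      one h1 h2 h3 h4 hA hP.sm hP.sj (a₀, t₀.1) (b₀ i) (c i) (sph_mono hK (s1 i).1) (s1 i).2
    have hs := h5 V O M K π om h J 𝒜 A JJ r a₀ t₀.1 N (fun i => fX (b₀ i)) k e f B D E hA hK h𝒜 hP
      ha (hI _ s4) s3 fun i => ⟨(s1 i).1, p1 i⟩
    refine core h6 h7 𝓕 Ψ L ev G D (fun i => 2 * (c i + 3)) (fun b => ∀ v, v ≠ 0 → fX b v ∈ M)
      (fun p b n => Eqn π (fun x => JJ (p, x)) b n) 𝒞 Sol a₀ t₀ b₀ hq p2 p3 p4 g2 p5 p6 ?_ ?_ p9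
      p10 g3 ?_
    · rw [g1, ← Finset.mul_sum, Finset.sum_add_distrib, Finset.sum_const, Finset.card_univ,
        Fintype.card_fin, nsmul_eq_mul]
      linarith
    · intro g w
      obtain ⟨s, x, x1, x2⟩ := g4 w
      obtain ⟨b, ζ, y⟩ := hs g fun i m => f i (mk3 m) (x i m)
      refine ⟨b, s, ζ, fun i => (p7 i _ _).trans (y i).1, ?_⟩
      have : (fun i => ev (fderiv ℝ (Ψ i) 0 (ζ i))) = x := funext fun i => funext fun m => by
        rw [hev, p8 i _ _ (mk3_ne m), (y i).2 m]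
        exact (p1 i).1.ef _ (mk3_ne m) _ (hev (b₀ i) m ▸ x1 i m)
      rw [this]
      exact x2
    · rintro q ⟨-, c', u1, -, -, u4⟩
      refine ⟨fun i => ?_, u4⟩
      have m1 : ∀ v, v ≠ 0 → fX (q.2.2 i) v ∈ M := fun v hv => hK ((u1 i).1.mem v hv)
      refine ⟨m1, ((h2 V O M π om h hA).2 _ _ ?_ (hP.sj _) m1).2 (sph_mono hK (u1 i).1)⟩
      exact (hP.sm.of_le (by norm_num)).comp (contDiff_const.prodMk contDiff_id)

end Pool.Agent.MP_9758ca_gt

end

section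

/-!
PROJECT BALL: Cauchy-Riemann operators on a sum of three line bundles are Fredholm, and the
functionals that annihilate their range up to point evaluations are bounded in the sup norm.
-/

open scoped Topology ComplexConjugate
open Set Metric Filter Complex Module

namespace Pool.Agent.MP_9758ca_gt

noncomputable section

namespace Std2P

/-! ### components of sections -/

theorem yh_comp {k : Fin 3 → ℤ} {g : C2 → C3} (h : YH (repY k) g) (i : Fin 3) :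
    YH (repY1 (k i)) fun v => g v i :=
  ⟨fun c hc v hv => congrFun (h.1 c hc v hv) i, h.2.post (Φ := fun z : C3 => z i)
    fun _ _ => (ContinuousLinearMap.proj (R := ℝ) (φ := fun _ : Fin 3 => ℂ) i).contDiff.contDiffAt⟩

theorem yh_pi {k : Fin 3 → ℤ} {g : C2 → C3} (h : ∀ i, YH (repY1 (k i)) fun v => g v i) :
    YH (repY k) g :=
  ⟨fun c hc v hv => funext fun i => (h i).1 c hc v hv, LocH.pi fun i => (h i).2⟩

theorem fderiv_comp {ζ : C2 → C3} {v : C2} (h : DifferentiableAt ℝ ζ v) (i : Fin 3) :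
    fderiv ℝ (fun v => ζ v i) v = (ContinuousLinearMap.proj i).comp (fderiv ℝ ζ v) :=
  fderiv_apply h i

theorem db_comp {ζ : C2 → C3} {v : C2} (h : DifferentiableAt ℝ ζ v) (i : Fin 3) :
    db ζ v i = db (fun v => ζ v i) v := by
  rw [db, db, fderiv_comp h]
  rfl

theorem xh_comp {k : Fin 3 → ℤ} {ζ : C2 → C3} (h : XH (rep k) ζ) (i : Fin 3) :
    XH (rep1 (k i)) fun v => ζ v i := by
  refine ⟨fun c hc v hv => congrFun (h.1 c hc v hv) i,
    fun v hv => differentiableAt_pi.1 (h.2.1 v hv) i, ?_⟩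
  refine (h.2.2.post (Φ := fun L : C2 →L[ℝ] C3 => (ContinuousLinearMap.proj i).comp L)
    fun _ _ => contDiffAt_const.clm_comp contDiffAt_id).congr fun v hv => ?_
  filter_upwards [nz_mem_nhds hv] with w hw
  exact fderiv_comp (h.2.1 w hw) i

theorem xh_pi {k : Fin 3 → ℤ} {ζ : C2 → C3} (h : ∀ i, XH (rep1 (k i)) fun v => ζ v i) :
    XH (rep k) ζ := by
  refine ⟨fun c hc v hv => funext fun i => (h i).1 c hc v hv,
    fun v hv => differentiableAt_pi.2 fun i => (h i).2.1 v hv, ?_⟩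
  let e := ContinuousLinearMap.piEquivL ℝ C2 fun _ : Fin 3 => ℂ
  refine ((LocH.pi (f := fun v i => fderiv ℝ (fun v => ζ v i) v) fun i => (h i).2.2).post
    (Φ := e) fun _ _ => e.contDiff.contDiffAt).congr fun v hv => ?_
  filter_upwards [nz_mem_nhds hv] with w hw
  exact fderiv_pi fun i => (h i).2.1 w hw

theorem db_add {F : Type} [NormedAddCommGroup F] [NormedSpace ℂ F] {ζ ζ' : C2 → F} {v : C2}
    (h : DifferentiableAt ℝ ζ v) (h' : DifferentiableAt ℝ ζ' v) :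
    db (fun v => ζ v + ζ' v) v = db ζ v + db ζ' v := by
  simp only [db, fderiv_fun_add h h', add_apply, smul_add]
  abel

theorem db_congr {F : Type} [NormedAddCommGroup F] [NormedSpace ℂ F] {ζ ζ' : C2 → F} {v : C2}
    (hv : v ≠ 0) (h : ∀ w, w ≠ 0 → ζ w = ζ' w) : db ζ v = db ζ' v := by
  have : ζ =ᶠ[𝓝 v] ζ' := mem_of_superset (nz_mem_nhds hv) h
  rw [db, db, this.fderiv_eq]

theorem xh_add {k : ℤ} {ζ ζ' : C2 → ℂ} (h : XH (rep1 k) ζ) (h' : XH (rep1 k) ζ') :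
    XH (rep1 k) fun v => ζ v + ζ' v := by
  refine ⟨fun c hc v hv => ?_, fun v hv => (h.2.1 v hv).add (h'.2.1 v hv),
    (h.2.2.add h'.2.2).congr fun v hv => ?_⟩
  · show ζ _ + ζ' _ = _
    rw [h.1 c hc v hv, h'.1 c hc v hv, map_add]
  · filter_upwards [nz_mem_nhds hv] with w hw
    exact fderiv_fun_add (h.2.1 w hw) (h'.2.1 w hw)

theorem yh_sum {k : ℤ} {n : ℕ} {γ : Fin n → C2 → ℂ} (h : ∀ m, YH (repY1 k) (γ m))
    (a : Fin n → ℂ) : YH (repY1 k) fun v => ∑ m, a m * γ m v := by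
  refine ⟨fun c hc v hv => ?_, (LocH.pi (f := fun v m => γ m v) fun m => (h m).2).post
    (Φ := fun z : Fin n → ℂ => ∑ m, a m * z m) fun _ _ => by fun_prop⟩
  show ∑ m, a m * γ m (c • v) = _
  rw [repY1_apply, Finset.mul_sum]
  exact Finset.sum_congr rfl fun m _ => by rw [(h m).1 c hc v hv, repY1_apply]; ring

/-! ### the closed graph argument -/

section
variable {E : Type} [NormedAddCommGroup E] [NormedSpace ℝ E]

/-- homogeneous extension as a linear map -/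
def xtL (χ : ℂ → En0 E) : C(S3, E) →ₗ[ℝ] C2 → E where
  toFun f := xt χ f
  map_add' f g := funext fun v => by
    by_cases h : v = 0
    · simp [h, xt_zero]
    · simp [xt_of_ne _ h]
  map_smul' c f := funext fun v => by
    by_cases h : v = 0
    · simp [h, xt_zero]
    · simp [xt_of_ne _ h]

/-- continuous functions on the sphere that extend to homogeneous functions -/
def C0 (χ : ℂ → En0 E) : Submodule ℝ C(S3, E) where
  carrier := {f | Hom χ (xtL χ f) ∧ ∀ v : S3, xtL χ f v = f v}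
  add_mem' := fun {f g} hf hg => ⟨fun c hc v hv => by
    simp only [map_add, Pi.add_apply, hf.1 c hc v hv, hg.1 c hc v hv], fun v => by
    simp only [map_add, Pi.add_apply, hf.2, hg.2, ContinuousMap.add_apply]⟩
  zero_mem' := ⟨fun c _ v _ => by simp, fun v => by simp⟩
  smul_mem' := fun a f hf => ⟨fun c hc v hv => by
    simp only [map_smul, Pi.smul_apply, hf.1 c hc v hv], fun v => by
    simp only [map_smul, Pi.smul_apply, hf.2, ContinuousMap.smul_apply]⟩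

theorem isClosed_C0 (χ : ℂ → En0 E) : IsClosed (C0 χ : Set C(S3, E)) := by
  have hc : ∀ v, Continuous fun f : C(S3, E) => xtL χ f v := fun v => by
    by_cases h : v = 0
    · exact continuous_const.congr fun f => by rw [h]; exact (xt_zero _).symm
    · exact ((χ (‖v‖ : ℂ)).continuous.comp (continuous_eval_const (nrm v))).congr
        fun f => (xt_of_ne _ h).symm
  show IsClosed {f : C(S3, E) | Hom χ (xtL χ f) ∧ ∀ v : S3, xtL χ f v = f v}
  simp only [Hom, ofPred_and, ofPred_forall]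
  exact (isClosed_iInter fun c => isClosed_iInter fun _ => isClosed_iInter fun v =>
    isClosed_iInter fun _ => isClosed_eq (hc _) ((χ c).continuous.comp (hc _))).inter
    (isClosed_iInter fun v => isClosed_eq (hc _) (continuous_eval_const v))

theorem continuousOn_xt {χ : ℂ → En0 E} (hχ : Rep χ) (f : C(S3, E)) :
    ContinuousOn (xtL χ f) nz := by
  intro v hv
  have h1 : ContinuousAt nrm v := by
    rw [ContinuousAt, tendsto_subtype_rng, nrm_val hv]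
    refine (((continuous_norm.tendsto v).inv₀ (norm_ne_zero_iff.2 hv)).smul tendsto_id).congr' ?_
    filter_upwards [nz_mem_nhds hv] with w hw
    exact (nrm_val hw).symm
  refine (((hχ.locH.continuousAt hv).clm_apply (f.continuous.continuousAt.comp h1)).congr
    ?_).continuousWithinAt
  filter_upwards [nz_mem_nhds hv] with w hw
  exact (xt_of_ne _ hw).symm

/-- a linear operator from continuous sections to Hoelder functions that is bounded for the sup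
norms is bounded for the Hoelder norm -/
theorem hld_bound [CompleteSpace E] {χ : ℂ → En0 E} (hχ : Rep χ) (R : (C2 → E) →ₗ[ℝ] C2 → E)
    (C : ℝ) (h : ∀ g, Hom χ g → ContinuousOn g nz → LocH (R g) nz ∧
      ∀ G, (∀ v : S3, ‖g v‖ ≤ G) → ∀ v : S3, ‖R g v‖ ≤ C * G) :
    ∃ C', 0 ≤ C' ∧ ∀ g, Hom χ g → ContinuousOn g nz → g 0 = 0 → ∀ G, 0 ≤ G →
      (∀ v : S3, ‖g v‖ ≤ G) → Hld (C' * G) (fun v : S3 => R g v) univ := by
  have := (isClosed_C0 χ).completeSpace_coe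
  have a := fun f : C0 χ => h _ f.2.1 (continuousOn_xt hχ f.1)
  choose T hT using fun f => exists_hol_of_locH (a f).1
  let T' : C0 χ →ₗ[ℝ] Hol S3 E :=
    { toFun := T
      map_add' := fun f g => hol_ext fun v => by
        simp only [hv_add, hT, Submodule.coe_add, map_add, Pi.add_apply]
      map_smul' := fun c f => hol_ext fun v => by
        simp only [hv_smul, hT, Submodule.coe_smul, map_smul, Pi.smul_apply, RingHom.id_apply] }
  obtain ⟨L, hL⟩ := exists_clm_hol T' fun x => by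
    let l : C0 χ →ₗ[ℝ] E := (LinearMap.proj (x : C2)).comp (R.comp ((xtL χ).comp (C0 χ).subtype))
    exact (AddMonoidHomClass.continuous_of_bound l C fun f => (a f).2 _
      (fun v => (f.2.2 v).symm ▸ f.1.norm_coe_le_norm v) x).congr fun f => (hT f x).symm
  refine ⟨‖L‖, L.opNorm_nonneg, fun g h1 h2 h0 G hG hb => ?_⟩
  let f : C(S3, E) := ⟨fun v => g v, h2.comp_continuous continuous_subtype_val S3_ne⟩
  have e : xtL χ f = g := funext fun v => by
    by_cases hv : v = 0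
    · rw [hv, h0]; exact xt_zero _
    · exact xt_eq h1 (fun _ => rfl) hv
  have hf : f ∈ C0 χ := ⟨e ▸ h1, fun v => congrFun e v⟩
  have e2 : hv (L ⟨f, hf⟩) = fun v : S3 => R g v := funext fun v => by
    rw [hL, ← e]; exact hT _ v
  rw [← e2]
  exact (hld_hv _).mono (L.le_opNorm_of_le ((f.norm_le hG).2 hb)) subset_rfl

end

/-! ### the model operator -/

theorem exists_gam (k : Fin 3 → ℤ) {n : Fin 3 → ℕ} (γ : ∀ i, Fin (n i) → C2 → ℂ)
    (h : ∀ i m, YH (repY1 (k i)) (γ i m)) : ∃ Γ : (∀ i, Fin (n i) → ℂ) →L[ℝ] YY k,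
      ∀ a v, v ≠ 0 → ∀ i, fY (Γ a) v i = ∑ m, a i m * γ i m v := by
  choose T hT using fun a : ∀ i, Fin (n i) → ℂ =>
    exists_Y (yh_pi (g := fun v i => ∑ m, a i m * γ i m v) fun i => yh_sum (h i) (a i))
  let T' : (∀ i, Fin (n i) → ℂ) →ₗ[ℝ] YY k :=
    { toFun := T
      map_add' := fun a b => Y_ext fun v => funext fun i => by
        simp only [fY_add, hT _ _ (S3_ne v), Pi.add_apply, add_mul, Finset.sum_add_distrib]
      map_smul' := fun c a => Y_ext fun v => funext fun i => by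
        simp only [fY_smul, hT _ _ (S3_ne v), Pi.smul_apply, RingHom.id_apply, Finset.smul_sum,
          smul_mul_assoc] }
  exact ⟨LinearMap.toContinuousLinearMap T', fun a v hv i => congrFun (hT a v hv) i⟩

theorem exists_ev (k : Fin 3 → ℤ) {p : Fin 3 → ℕ} (q : ∀ i, Fin (p i) → C2) :
    ∃ L : XX k →L[ℝ] ∀ i, Fin (p i) → ℂ, ∀ ξ i j, L ξ i j = fX ξ (q i j) i := by
  choose L hL using exists_evalX (χ := rep k)
  exact ⟨.pi fun i => .pi fun j => (ContinuousLinearMap.proj i).comp (L (q i j)),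
    fun ξ i j => congrFun (hL _ ξ) i⟩

theorem fred_model (h3 : RieszStmt) {X Y Z P W : Type} [NormedAddCommGroup X] [NormedSpace ℝ X]
    [CompleteSpace X] [NormedAddCommGroup Y] [NormedSpace ℝ Y] [CompleteSpace Y]
    [NormedAddCommGroup Z] [NormedSpace ℝ Z]
    [NormedAddCommGroup P] [NormedSpace ℝ P] [FiniteDimensional ℝ P]
    [NormedAddCommGroup W] [NormedSpace ℝ W] [FiniteDimensional ℝ W] {D D₀ : X →L[ℝ] Y}
    (Γ : P →L[ℝ] Y) (ev : X →L[ℝ] W) {ι : X →L[ℝ] Z} {M : Z →L[ℝ] Y} (hι : IsCompactOperator ι)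
    (hD : ∀ x, D x = D₀ x + M (ι x))
    (hi : ∀ x a, D₀ x + Γ a = 0 → ev x = 0 → x = 0 ∧ a = 0)
    (hs : ∀ g b, ∃ x a, D₀ x + Γ a = g ∧ ev x = b) :
    Fred D ((finrank ℝ W : ℤ) - finrank ℝ P) := by
  obtain ⟨-, r1, r2⟩ := h3.1 X Y D₀ ((finrank ℝ W : ℤ) - finrank ℝ P)
  refine r1 ((r2 P W).2 ((D₀.coprod Γ).prod (ev.comp (.fst ℝ X P)))
    ⟨(injective_iff_map_eq_zero _).2 fun ⟨x, a⟩ h => ?_, fun ⟨g, b⟩ => ?_⟩ fun x => by simp) D ?_
  · obtain ⟨e1, e2⟩ := hi x a (congrArg Prod.fst h) (congrArg Prod.snd h)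
    exact Prod.ext e1 e2
  · obtain ⟨x, a, e1, e2⟩ := hs g b
    exact ⟨(x, a), Prod.ext e1 e2⟩
  · have := hι.continuous_comp M.continuous
    rwa [show (M ∘ ι) = fun x => D x - D₀ x from funext fun x => by simp [hD]] at this

theorem finrank_eq (n : Fin 3 → ℕ) : (finrank ℝ (∀ i, Fin (n i) → ℂ) : ℤ) = 2 * ∑ i, (n i : ℤ) := by
  rw [Module.finrank_pi_fintype]
  simp [Module.finrank_pi_fintype, Finset.mul_sum, mul_comm]

theorem hol_pi {k : Fin 3 → ℤ} {y : Y0 (rep k)} {C : Fin 3 → ℝ} (hC : ∀ i, 0 ≤ C i)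
    (h0 : ∀ i (v : S3), ‖fY y v i‖ ≤ C i) (h1 : ∀ i, Hld (C i) (fun v : S3 => fY y v i) univ) :
    ‖y‖ ≤ ∑ i, C i := by
  have s := Finset.sum_nonneg (s := Finset.univ) fun i _ => hC i
  have t := fun i => Finset.single_le_sum (fun i _ => hC i) (Finset.mem_univ i)
  refine hol_norm_le (f := y.1) s (fun v => ?_) fun v _ w _ => ?_
  · rw [← fY_val]
    exact (pi_norm_le_iff_of_nonneg s).2 fun i => (h0 i v).trans (t i)
  · rw [← fY_val, ← fY_val]
    exact (pi_norm_le_iff_of_nonneg (by positivity)).2 fun i =>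
      (h1 i).mono (t i) subset_rfl v trivial w trivial

end Std2P

open Std2P in
theorem std2_of (h1 : Std1Stmt) (h2 : CptStmt) (h3 : RieszStmt) : Std2Stmt := by
  intro k A D hA hD
  choose n p γ q R c C hpn _ hγ hq hR hS hI hU using fun i => h1 (k i)
  obtain ⟨D₀, hD₀⟩ := exists_dbL k
  obtain ⟨M, hM⟩ := exists_multY (χ' := repY k) (rep_rep k) hA.1 hA.2
  obtain ⟨ι, hι⟩ := exists_incl (χ := rep k)
  obtain ⟨Γ, hΓ⟩ := exists_gam k γ hγ
  obtain ⟨ev, hev⟩ := exists_ev k q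
  have eD : ∀ ξ, D ξ = D₀ ξ + M (ι ξ) := fun ξ => Y_ext fun v => by
    rw [hD _ _ (S3_ne v), fY_add, hD₀ _ _ (S3_ne v), hM _ _ (S3_ne v), hι]
  have dc : ∀ (ξ : XX k) v, v ≠ 0 → ∀ i, fY (D₀ ξ) v i = db (fun v => fX ξ v i) v :=
    fun ξ v hv i => by rw [hD₀ _ _ hv, db_comp (fX_differentiableAt ξ hv)]
  have yc := fun (g : YY k) i => yh_comp (fY_yh (rep_repY k) g) i
  have sol : ∀ (g : YY k) (ζ : Fin 3 → C2 → ℂ), (∀ i, XH (rep1 (k i)) (ζ i)) →
      (∀ i v, v ≠ 0 → db (ζ i) v = 0) → ∃ ξ : XX k,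
        (∀ v, v ≠ 0 → ∀ i, fX ξ v i = R i (fun v => fY g v i) v + ζ i v) ∧
          D₀ ξ + Γ (fun i => c i fun v => fY g v i) = g := fun g ζ z1 z2 => by
    obtain ⟨ξ, hξ⟩ := exists_X (xh_pi (ζ := fun v i => R i (fun v => fY g v i) v + ζ i v)
      fun i => xh_add (hS i _ (yc g i)).1 (z1 i))
    refine ⟨ξ, fun v hv i => congrFun (hξ v hv) i, Y_ext fun v => funext fun i => ?_⟩
    have hv := S3_ne v
    rw [fY_add, Pi.add_apply, dc _ _ hv, hΓ _ _ hv,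
      db_congr hv fun w hw => congrFun (hξ w hw) i,
      db_add ((hS i _ (yc g i)).1.2.1 v hv) ((z1 i).2.1 v hv), z2 i v hv, add_zero]
    exact (hS i _ (yc g i)).2 v hv
  constructor
  · have := fred_model h3 Γ ev ((h2 C3).1 _ ι (rep_rep k) fun ξ v _ => hι ξ v) eD
      (fun ξ a e1 e2 => ?_) fun g b => ?_
    · rwa [finrank_eq, finrank_eq, ← mul_sub, ← Finset.sum_sub_distrib, funext hpn] at this
    · have u := fun i => hU i _ (a i) (xh_comp (fX_xh (rep_rep k) ξ) i)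
        (fun v hv => by
          rw [← dc _ _ hv, ← hΓ _ _ hv, ← Pi.add_apply, ← fY_add, e1, fY_zero]
          rfl)
        fun j => (hev ξ i j).symm.trans (congrFun (congrFun e2 i) j)
      exact ⟨X_ext fun v => funext fun i => ((u i).1 v (S3_ne v)).trans
        (congrFun (fX_zero (χ := rep k) v) i).symm, funext fun i => (u i).2⟩
    · choose ζ z1 z2 z3 using fun i => hI i fun j => b i j - R i (fun v => fY g v i) (q i j)
      obtain ⟨ξ, s1, s2⟩ := sol g ζ z1 z2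
      refine ⟨ξ, _, s2, funext fun i => funext fun j => ?_⟩
      rw [hev, s1 _ (hq i j), z3, add_sub_cancel]
  · intro ℓ μ hℓ
    choose C' hC' hH using fun i => hld_bound (rep_repY1 (k i)) (R i) (C i)
      fun g a b => ⟨(hR i g a b).1.2, fun G hG => ((hR i g a b).2 G hG).1⟩
    set B := ∑ i, (|C i| + C' i)
    have hB : ∀ i, |C i| + C' i ≤ B := fun i => Finset.single_le_sum
      (f := fun i => |C i| + C' i) (fun i _ => add_nonneg (abs_nonneg _) (hC' i))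
      (Finset.mem_univ i)
    have hB0 : 0 ≤ B := (add_nonneg (abs_nonneg _) (hC' 0)).trans (hB 0)
    refine ⟨(∑ m, ‖μ m‖ + ‖ℓ.comp M‖ + ‖ℓ.comp Γ‖) * B, fun g G hG => ?_⟩
    have G0 : 0 ≤ G := (norm_nonneg _).trans (hG ⟨mk3 0, by simp [mk3_norm]⟩)
    have gi : ∀ i (v : S3), ‖fY g v i‖ ≤ G := fun i v => (norm_le_pi_norm _ i).trans (hG v)
    have gc : ∀ i, ContinuousOn (fun v => fY g v i) nz := fun i v hv =>
      ((yc g i).2.continuousAt hv).continuousWithinAt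
    have b1 := fun i => (hR i _ (yc g i).1 (gc i)).2 G (gi i)
    have b2 : ∀ i, C i * G ≤ (|C i| + C' i) * G := fun i =>
      mul_le_mul_of_nonneg_right (le_add_of_le_of_nonneg (le_abs_self _) (hC' i)) G0
    obtain ⟨ξ, s1, s2⟩ := sol g (fun _ _ => 0)
      (fun i => xh_of_contDiffOn (fun c _ v _ => (map_zero _).symm) contDiffOn_const)
      fun i v _ => by simp [db]
    simp only [add_zero] at s1
    have n1 : ‖ι ξ‖ ≤ B * G := by
      rw [Finset.sum_mul]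
      refine hol_pi (fun i => mul_nonneg (add_nonneg (abs_nonneg _) (hC' i)) G0)
        (fun i v => ?_) fun i => ?_
      · rw [hι, s1 _ (S3_ne v)]
        exact ((b1 i).1 v).trans (b2 i)
      · rw [show (fun v : S3 => fY (ι ξ) v i) = fun v : S3 => R i (fun v => fY g v i) v from
          funext fun v => by rw [hι, s1 _ (S3_ne v)]]
        exact (hH i _ (yc g i).1 (gc i) (congrFun (xt_zero _) i) G G0 (gi i)).mono
          (mul_le_mul_of_nonneg_right (le_add_of_nonneg_left (abs_nonneg _)) G0) subset_rfl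
    have n2 : ‖fun i => c i fun v => fY g v i‖ ≤ B * G :=
      (pi_norm_le_iff_of_nonneg (mul_nonneg hB0 G0)).2 fun i =>
        ((b1 i).2.trans (b2 i)).trans (mul_le_mul_of_nonneg_right (hB i) G0)
    have n3 : ‖∑ m, μ m (fX ξ (mk3 m))‖ ≤ (∑ m, ‖μ m‖) * (B * G) := by
      rw [Finset.sum_mul]
      refine norm_sum_le_of_le _ fun m _ => (μ m).le_opNorm_of_le (le_trans ?_ n1)
      rw [← hι]
      exact norm_fY_le (ι ξ) ⟨mk3 m, by simp [mk3_norm]⟩
    have n4 := (ℓ.comp M).le_opNorm_of_le n1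
    have n5 := (ℓ.comp Γ).le_opNorm_of_le n2
    have e := hℓ ξ
    have e' := congrArg ℓ s2
    rw [eD, ℓ.map_add] at e
    rw [ℓ.map_add] at e'
    simp only [ContinuousLinearMap.comp_apply, Real.norm_eq_abs, abs_le] at n3 n4 n5
    rw [abs_le]
    constructor <;> linarith [n3.1, n3.2, n4.1, n4.2, n5.1, n5.2]

end

end Pool.Agent.MP_9758ca_gt

end

section

/-!
PROJECT BALL, module LABEL: a countable family of slices, and the codimension of the constraint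
sets attached to labels.
-/

open scoped Topology ContDiff ComplexConjugate
open Set Metric Filter Complex MeasureTheory

namespace Pool.Agent.MP_9758ca_gt

noncomputable section

namespace LabelP

/-! ### slices -/

/-- a real linear map of the plane close to the identity is onto -/
theorem onto_of_close (T : ℂ →L[ℝ] ℂ) (hT : ‖T - ContinuousLinearMap.id ℝ ℂ‖ < 1) :
    Function.Surjective T := by
  have hinj : Function.Injective (T : ℂ →ₗ[ℝ] ℂ) := by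
    rw [← LinearMap.ker_eq_bot, LinearMap.ker_eq_bot']
    intro a ha
    have ha' : T a = 0 := ha
    by_contra h0
    have h1 : 0 < ‖a‖ := norm_pos_iff.2 h0
    have h2 := (T - ContinuousLinearMap.id ℝ ℂ).le_opNorm a
    have h3 : (T - ContinuousLinearMap.id ℝ ℂ) a = -a := by simp [ha']
    rw [h3, norm_neg] at h2
    nlinarith
  exact LinearMap.injective_iff_surjective.1 hinj

section Sl
variable {V : Type} [NormedAddCommGroup V] [NormedSpace ℝ V] [FiniteDimensional ℝ V]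

/-- an injective linear map has a continuous left inverse -/
theorem left_inv (D : ℂ →L[ℝ] V) (hD : Function.Injective D) :
    ∃ P : V →L[ℝ] ℂ, P.comp D = ContinuousLinearMap.id ℝ ℂ := by
  obtain ⟨g, hg⟩ := LinearMap.exists_leftInverse_of_injective (D : ℂ →ₗ[ℝ] V)
    (LinearMap.ker_eq_bot.2 hD)
  refine ⟨LinearMap.toContinuousLinearMap g, ?_⟩
  ext1 a
  have := LinearMap.congr_fun hg a
  simpa using this

omit [FiniteDimensional ℝ V] in
theorem cont_left (D : ℂ →L[ℝ] V) :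
    Continuous fun Q : V →L[ℝ] ℂ => ‖Q.comp D - ContinuousLinearMap.id ℝ ℂ‖ :=
  ((continuous_id.clm_comp continuous_const).sub continuous_const).norm

omit [FiniteDimensional ℝ V] in
theorem cont_right (Q : V →L[ℝ] ℂ) :
    Continuous fun D : ℂ →L[ℝ] V => ‖Q.comp D - ContinuousLinearMap.id ℝ ℂ‖ :=
  ((continuous_const.clm_comp continuous_id).sub continuous_const).norm

omit [FiniteDimensional ℝ V] in
/-- a functional that is a good coordinate at `z₀` takes one of the dense values nearby -/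
theorem slice_near {c : ℕ → ℂ} (hc : DenseRange c) (Q : V →L[ℝ] ℂ) {u : ℂ → V} {z₀ : ℂ}
    (hu : ContDiffAt ℝ 1 u z₀)
    (hk : ‖Q.comp (fderiv ℝ u z₀) - ContinuousLinearMap.id ℝ ℂ‖ < 1) {N : Set ℂ} (hN : N ∈ 𝓝 z₀) :
    ∃ z ∈ N, ∃ m, Q (u z) = c m ∧ ∀ w, ∃ a, Q (fderiv ℝ u z a) = w := by
  have hst : HasStrictFDerivAt (fun z => Q (u z)) (Q.comp (fderiv ℝ u z₀)) z₀ :=
    Q.hasStrictFDerivAt.comp z₀ (hu.hasStrictFDerivAt one_ne_zero)
  have hsu : Function.Surjective (Q.comp (fderiv ℝ u z₀)) := onto_of_close _ hk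
  have hmap : map (fun z => Q (u z)) (𝓝 z₀) = 𝓝 (Q (u z₀)) :=
    hst.map_nhds_eq_of_surj (LinearMap.range_eq_top.2 hsu)
  have hc1 : ContinuousAt (fderiv ℝ u) z₀ := hu.continuousAt_fderiv one_ne_zero
  have hcont : Tendsto (fun z => ‖Q.comp (fderiv ℝ u z) - ContinuousLinearMap.id ℝ ℂ‖)
      (𝓝 z₀) (𝓝 ‖Q.comp (fderiv ℝ u z₀) - ContinuousLinearMap.id ℝ ℂ‖) :=
    ((cont_right Q).tendsto _).comp hc1
  have hev : ∀ᶠ z in 𝓝 z₀, ‖Q.comp (fderiv ℝ u z) - ContinuousLinearMap.id ℝ ℂ‖ < 1 :=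
    hcont.eventually (gt_mem_nhds hk)
  have him : (fun z => Q (u z)) '' (N ∩ {z |
      ‖Q.comp (fderiv ℝ u z) - ContinuousLinearMap.id ℝ ℂ‖ < 1}) ∈ 𝓝 (Q (u z₀)) := by
    rw [← hmap]
    exact image_mem_map (inter_mem hN hev)
  obtain ⟨m, z, ⟨hzN, hz⟩, hm⟩ := hc.mem_nhds him
  exact ⟨z, hzN, m, hm, fun w => onto_of_close _ hz w⟩

theorem slices : ∃ (L : ℕ → V →L[ℝ] ℂ) (cs : ℕ → ℂ), Slices L cs := by
  have : ProperSpace (V →L[ℝ] ℂ) := FiniteDimensional.proper_real _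
  obtain ⟨A, hA⟩ := TopologicalSpace.exists_dense_seq (V →L[ℝ] ℂ)
  obtain ⟨c, hc⟩ := TopologicalSpace.exists_dense_seq ℂ
  refine ⟨fun n => A (Nat.unpair n).1, fun n => c (Nat.unpair n).2, ?_⟩
  intro u z₀ hu hinj N hN
  obtain ⟨P, hP⟩ := left_inv _ hinj
  have hop : IsOpen {Q : V →L[ℝ] ℂ |
      ‖Q.comp (fderiv ℝ u z₀) - ContinuousLinearMap.id ℝ ℂ‖ < 1} :=
    isOpen_lt (cont_left _) continuous_const
  have hne : {Q : V →L[ℝ] ℂ |
      ‖Q.comp (fderiv ℝ u z₀) - ContinuousLinearMap.id ℝ ℂ‖ < 1}.Nonempty := by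
    refine ⟨P, ?_⟩
    rw [Set.mem_ofPred_eq, hP, sub_self, norm_zero]
    exact one_pos
  obtain ⟨k, hk⟩ := hA.exists_mem_open hop hne
  obtain ⟨z, hz, m, h1, h2⟩ := slice_near hc (A k) hu hk hN
  refine ⟨z, hz, Nat.pair k m, ?_⟩
  simp only [Nat.unpair_pair]
  exact ⟨h1, h2⟩

end Sl

/-! ### one component of the defining map -/

section Pc
variable {V : Type} [NormedAddCommGroup V] [NormedSpace ℝ V] {N : ℕ}

/-- the parameter space of the constraints -/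
abbrev PX (V : Type) (N : ℕ) : Type := (ℝ × ℝ) × (Fin N → Fin 3 → V)

/-- `g` vanishes on `𝒞` near `c`, and its derivative is onto in the direction of the mark `(i, j)`
whatever the other relevant directions are -/
def Piece {W : Type} [NormedAddCommGroup W] [NormedSpace ℝ W] (M : Set V) (𝒞 : Set (PX V N))
    (c : PX V N) (l : Lab N) (i : Fin N) (j : Fin 3) (g : PX V N → W) : Prop :=
  ContDiffAt ℝ 1 g c ∧ (∀ᶠ c' in 𝓝 c, c' ∈ 𝒞 → g c' = 0) ∧
    ∀ (s : ℝ) (w : W) (y : Fin N → Fin 3 → V), ∃ v ∈ tan M (c.2 i j),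
      ∀ x : Fin N → Fin 3 → V, x i j = v → (∀ i' j', l = .eq i' j' → x i' j' = y i' j') →
        fderiv ℝ g c ((0, s), x) = w

theorem Piece.equiv {W W' : Type} [NormedAddCommGroup W] [NormedSpace ℝ W] [NormedAddCommGroup W']
    [NormedSpace ℝ W'] {M : Set V} {𝒞 : Set (PX V N)} {c : PX V N} {l : Lab N} {i : Fin N}
    {j : Fin 3} {g : PX V N → W} (hg : Piece M 𝒞 c l i j g) (e : W ≃L[ℝ] W') :
    Piece M 𝒞 c l i j fun q => e (g q) := by
  obtain ⟨h1, h2, h3⟩ := hg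
  refine ⟨e.contDiff.contDiffAt.comp c h1, h2.mono fun q hq hm => by simp [hq hm], ?_⟩
  intro s w y
  obtain ⟨v, hv, h4⟩ := h3 s (e.symm w) y
  refine ⟨v, hv, fun x hx hy => ?_⟩
  have hd : HasFDerivAt (fun q => e (g q)) ((e : W →L[ℝ] W').comp (fderiv ℝ g c)) c :=
    (e : W →L[ℝ] W').hasFDerivAt.comp c (h1.differentiableAt one_ne_zero).hasFDerivAt
  rw [hd.fderiv]
  simp [h4 x hx hy]

theorem Piece.fin {W : Type} [NormedAddCommGroup W] [NormedSpace ℝ W] [FiniteDimensional ℝ W]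
    {M : Set V} {𝒞 : Set (PX V N)} {c : PX V N} {l : Lab N} {i : Fin N}
    {j : Fin 3} {g : PX V N → W} (hg : Piece M 𝒞 c l i j g) {k : ℕ}
    (hk : Module.finrank ℝ W = k) : ∃ g' : PX V N → Fin k → ℝ, Piece M 𝒞 c l i j g' :=
  ⟨_, hg.equiv (ContinuousLinearEquiv.ofFinrankEq (by rw [hk, Module.finrank_fin_fun]))⟩

/-- evaluation at a mark -/
def ev (i : Fin N) (j : Fin 3) : PX V N →L[ℝ] V :=
  (ContinuousLinearMap.proj (R := ℝ) (φ := fun _ : Fin 3 => V) j).comp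
    ((ContinuousLinearMap.proj (R := ℝ) (φ := fun _ : Fin N => Fin 3 → V) i).comp
      (ContinuousLinearMap.snd ℝ (ℝ × ℝ) (Fin N → Fin 3 → V)))

@[simp] theorem ev_apply (i : Fin N) (j : Fin 3) (q : PX V N) : ev i j q = q.2 i j := rfl

theorem ev_has (i : Fin N) (j : Fin 3) (q : PX V N) :
    HasFDerivAt (fun q : PX V N => q.2 i j) (ev (V := V) i j) q :=
  (ev (V := V) i j).hasFDerivAt

variable {M Z : Set V} {γ : ℝ × ℝ → V} {L : ℕ → V →L[ℝ] ℂ} {cs : ℕ → ℂ}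
  {lab : Fin N → Fin 3 → Lab N} {b : Bool} {c : PX V N} {i : Fin N} {j : Fin 3}

theorem piece_free (𝒞 : Set (PX V N)) (l : Lab N) :
    Piece M 𝒞 c l i j fun _ => (0 : Fin 0 → ℝ) :=
  ⟨contDiffAt_const, Eventually.of_forall fun _ _ => rfl,
    fun _ _ _ => ⟨0, zero_mem _, fun _ _ _ => Subsingleton.elim _ _⟩⟩

theorem piece_sl {n : ℕ} (hc : c ∈ LabSet M Z γ L cs lab b) (hl : lab i j = .sl n) :
    Piece M (LabSet M Z γ L cs lab b) c (.sl n) i j fun q => L n (q.2 i j) - cs n := by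
  have hd : ∀ q : PX V N, HasFDerivAt (fun q : PX V N => L n (q.2 i j) - cs n)
      ((L n).comp (ev i j)) q := fun q => ((L n).comp (ev i j)).hasFDerivAt.sub_const _
  refine ⟨(((L n).comp (ev i j)).contDiff.sub contDiff_const).contDiffAt,
    Eventually.of_forall fun q hq => ?_, fun s w _ => ?_⟩
  · have h := (hq.2.2 i j).2
    rw [hl] at h
    exact sub_eq_zero.2 h.1
  · have h := (hc.2.2 i j).2
    rw [hl] at h
    obtain ⟨v, hv, hw⟩ := h.2 w
    refine ⟨v, hv, fun x hx _ => ?_⟩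
    rw [(hd c).fderiv]
    simp [hx, hw]

theorem piece_gam (hc : c ∈ LabSet M Z γ L cs lab b) (hl : lab i j = .gam)
    (hγ : ∀ q ∈ Ioo (0 : ℝ) 1 ×ˢ Ioo (0 : ℝ) 1, ContDiffAt ℝ 1 γ q) (f : V →L[ℝ] C3)
    (hf : ∀ w, ∃ v ∈ tan M (c.2 i j), f v = w) :
    Piece M (LabSet M Z γ L cs lab b) c .gam i j fun q => f (q.2 i j - γ q.1) := by
  have h0 : ContDiffAt ℝ 1 γ c.1 := hγ _ hc.1
  have h1 : ContDiffAt ℝ 1 (fun q : PX V N => γ q.1) c := h0.comp c contDiffAt_fst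
  have hd : HasFDerivAt (fun q : PX V N => f (q.2 i j - γ q.1))
      (f.comp (ev i j - (fderiv ℝ γ c.1).comp
        (ContinuousLinearMap.fst ℝ (ℝ × ℝ) (Fin N → Fin 3 → V)))) c :=
    f.hasFDerivAt.comp c ((ev i j).hasFDerivAt.sub
      ((h0.differentiableAt one_ne_zero).hasFDerivAt.comp c hasFDerivAt_fst))
  refine ⟨f.contDiff.contDiffAt.comp c ((ev i j).contDiff.contDiffAt.sub h1),
    Eventually.of_forall fun q hq => ?_, fun s w _ => ?_⟩
  · have h := (hq.2.2 i j).2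
    rw [hl] at h
    have h' : q.2 i j = γ q.1 := h
    simp [h']
  · obtain ⟨v, hv, hw⟩ := hf (w + f (fderiv ℝ γ c.1 (0, s)))
    refine ⟨v, hv, fun x hx _ => ?_⟩
    rw [hd.fderiv]
    simp [hx, hw]

theorem piece_zed (hc : c ∈ LabSet M Z γ L cs lab b) (hl : lab i j = .zed)
    {gZ : V → V → ℂ × ℝ} (hZ : Cut M Z gZ) :
    Piece M (LabSet M Z γ L cs lab b) c .zed i j fun q => gZ (c.2 i j) (q.2 i j) := by
  have h := (hc.2.2 i j).2
  rw [hl] at h
  obtain ⟨h1, h2, h3⟩ := hZ (c.2 i j) h (hc.2.2 i j).1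
  have hd : HasFDerivAt (fun q : PX V N => gZ (c.2 i j) (q.2 i j))
      ((fderiv ℝ (gZ (c.2 i j)) (c.2 i j)).comp (ev i j)) c :=
    HasFDerivAt.comp (g := gZ (c.2 i j)) (f := fun q : PX V N => q.2 i j) c
      (h1.differentiableAt one_ne_zero).hasFDerivAt (ev_has i j c)
  have ht : Tendsto (fun q : PX V N => q.2 i j) (𝓝 c) (𝓝 (c.2 i j)) :=
    (ev i j).continuous.continuousAt
  refine ⟨ContDiffAt.comp (g := gZ (c.2 i j)) (f := fun q : PX V N => q.2 i j) c h1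
    (ev (V := V) i j).contDiff.contDiffAt, (ht.eventually h2).mono fun q hq hm => ?_,
    fun s w _ => ?_⟩
  · have h4 := (hm.2.2 i j).2
    rw [hl] at h4
    exact (hq (hm.2.2 i j).1).1 h4
  · obtain ⟨v, hv, hw⟩ := h3 w
    refine ⟨v, hv, fun x hx _ => ?_⟩
    rw [hd.fderiv]
    simp [hx, hw]

theorem piece_eq {i' : Fin N} {j' : Fin 3} (hl : lab i j = .eq i' j') (f : V →L[ℝ] C3)
    (hf : ∀ w, ∃ v ∈ tan M (c.2 i j), f v = w) :
    Piece M (LabSet M Z γ L cs lab b) c (.eq i' j') i j fun q => f (q.2 i j - q.2 i' j') := by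
  have hd : HasFDerivAt (fun q : PX V N => f (q.2 i j - q.2 i' j'))
      (f.comp (ev i j - ev i' j')) c := (f.comp (ev i j - ev i' j')).hasFDerivAt
  refine ⟨(f.comp (ev i j - ev i' j')).contDiff.contDiffAt,
    Eventually.of_forall fun q hq => ?_, fun s w y => ?_⟩
  · have h := (hq.2.2 i j).2
    rw [hl] at h
    have h' : q.2 i j = q.2 i' j' := h
    simp [h']
  · obtain ⟨v, hv, hw⟩ := hf (w + f (y i' j'))
    refine ⟨v, hv, fun x hx hy => ?_⟩
    rw [hd.fderiv]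
    simp [hx, hw, hy i' j' rfl]

theorem rank_C3 : Module.finrank ℝ C3 = 6 := by
  rw [Module.finrank_pi_fintype]
  simp

theorem rank_CR : Module.finrank ℝ (ℂ × ℝ) = 3 := by
  rw [Module.finrank_prod]
  simp

/-- every mark has a component with values in a space of dimension the weight of its label -/
theorem exists_piece [FiniteDimensional ℝ V] {O : Set V} {π : V → V} {om h : F2 V}
    {gZ : V → V → ℂ × ℝ} (hA : Amb O π M om h) (hZ : Cut M Z gZ)
    (hγ : ∀ q ∈ Ioo (0 : ℝ) 1 ×ˢ Ioo (0 : ℝ) 1, ContDiffAt ℝ 1 γ q)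
    (hc : c ∈ LabSet M Z γ L cs lab b) (l : Lab N) (hl : lab i j = l) :
    ∃ g : PX V N → Fin l.wt → ℝ, Piece M (LabSet M Z γ L cs lab b) c l i j g := by
  obtain ⟨f, hf, -⟩ := hA.coord (hc.2.2 i j).1
  cases l with
  | free => exact ⟨_, piece_free _ _⟩
  | sl n => exact (piece_sl hc hl).fin Complex.finrank_real_complex
  | gam => exact (piece_gam hc hl hγ f hf).fin rank_C3
  | zed => exact (piece_zed hc hl hZ).fin rank_CR
  | eq i' j' => exact (piece_eq hl f hf).fin rank_C3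

/-- all components at the marks can be prescribed at once -/
theorem onto_marks {𝒞 : Set (PX V N)} (hok : LabOk lab)
    (g : ∀ i j, PX V N → Fin (lab i j).wt → ℝ)
    (hg : ∀ i j, Piece M 𝒞 c (lab i j) i j (g i j)) (s : ℝ)
    (w : ∀ i j, Fin (lab i j).wt → ℝ) :
    ∃ x : Fin N → Fin 3 → V, (∀ i j, x i j ∈ tan M (c.2 i j)) ∧
      ∀ i j, fderiv ℝ (g i j) c ((0, s), x) = w i j := by
  classical
  choose v₀ hv₀ h₀ using fun i j => (hg i j).2.2 s (w i j) 0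
  choose v₁ hv₁ h₁ using fun i j => (hg i j).2.2 s (w i j) v₀
  refine ⟨fun i j => if ∃ i' j', lab i j = .eq i' j' then v₁ i j else v₀ i j,
    fun i j => ?_, fun i j => ?_⟩
  · by_cases hp : ∃ i' j', lab i j = .eq i' j'
    · simp only [if_pos hp]
      exact hv₁ i j
    · simp only [if_neg hp]
      exact hv₀ i j
  · by_cases hp : ∃ i' j', lab i j = .eq i' j'
    · refine h₁ i j _ (if_pos hp) fun i' j' hl => if_neg ?_
      rintro ⟨i'', j'', h2⟩
      rcases hok i j i' j' hl with h3 | h3 | h3 <;> rw [h3] at h2 <;> cases h2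
    · exact h₀ i j _ (if_neg hp) fun i' j' hl => absurd ⟨i', j', hl⟩ hp

/-- the component that fixes the second parameter -/
def par2 (b : Bool) : PX V N →L[ℝ] (Fin (if b then 1 else 0) → ℝ) :=
  ContinuousLinearMap.pi fun _ => (ContinuousLinearMap.snd ℝ ℝ ℝ).comp
    (ContinuousLinearMap.fst ℝ (ℝ × ℝ) (Fin N → Fin 3 → V))

theorem par2_apply (b : Bool) (q : PX V N) : par2 b q = fun _ => q.1.2 := rfl

theorem par2_onto (b : Bool) (w : Fin (if b then 1 else 0) → ℝ) :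
    ∃ s : ℝ, (fun _ => s) = w := by
  cases b with
  | false => exact ⟨0, funext fun k => Fin.elim0 k⟩
  | true =>
    refine ⟨w (0 : Fin 1), funext fun k => ?_⟩
    have : k = (0 : Fin 1) := Subsingleton.elim (α := Fin 1) _ _
    rw [this]

theorem par2_zero (b : Bool) (t : ℝ) (ht : b = true → t = 2⁻¹) :
    ((fun _ => t) - fun _ => (2⁻¹ : ℝ) : Fin (if b then 1 else 0) → ℝ) = 0 := by
  cases b with
  | false => exact funext fun k => Fin.elim0 k
  | true =>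
    rw [ht rfl]
    exact sub_self _

theorem codim [FiniteDimensional ℝ V] {O : Set V} {π : V → V} {om h : F2 V}
    {gZ : V → V → ℂ × ℝ} (hA : Amb O π M om h) (hZ : Cut M Z gZ)
    (hγ : ∀ q ∈ Ioo (0 : ℝ) 1 ×ˢ Ioo (0 : ℝ) 1, ContDiffAt ℝ 1 γ q) (hok : LabOk lab) :
    Codim M (LabSet M Z γ L cs lab b) (labWt lab b) := by
  intro c hc
  choose g hg using fun i j => exists_piece hA hZ hγ hc (lab i j) rfl
  have hg1 : ContDiffAt ℝ 1 (fun q i j => g i j q) c :=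
    contDiffAt_pi.2 fun i => contDiffAt_pi.2 fun j => (hg i j).1
  have hd1 : HasFDerivAt (fun q i j => g i j q)
      (ContinuousLinearMap.pi fun i => ContinuousLinearMap.pi fun j => fderiv ℝ (g i j) c) c :=
    hasFDerivAt_pi.2 fun i => hasFDerivAt_pi.2 fun j =>
      ((hg i j).1.differentiableAt one_ne_zero).hasFDerivAt
  have hd2 : HasFDerivAt (fun q : PX V N => par2 b q - fun _ => (2⁻¹ : ℝ))
      (par2 (V := V) (N := N) b) c :=
    (par2 (V := V) (N := N) b).hasFDerivAt.sub_const _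
  refine ⟨(∀ i j, Fin (lab i j).wt → ℝ) × (Fin (if b then 1 else 0) → ℝ), inferInstance,
    inferInstance, inferInstance,
    fun q => (fun i j => g i j q, par2 b q - fun _ => (2⁻¹ : ℝ)), ?_,
    hg1.prodMk ((par2 (V := V) (N := N) b).contDiff.sub contDiff_const).contDiffAt, ?_,
    fun w => ?_⟩
  · simp only [Module.finrank_prod, Module.finrank_pi_fintype, Module.finrank_self, labWt,
      Finset.sum_const, Finset.card_univ, Fintype.card_fin, smul_eq_mul, mul_one]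
  · have he : ∀ᶠ q in 𝓝 c, ∀ i j, q ∈ LabSet M Z γ L cs lab b → g i j q = 0 :=
      eventually_all.2 fun i => eventually_all.2 fun j => (hg i j).2.1
    refine he.mono fun q hq hm => Prod.ext (funext fun i => funext fun j => hq i j hm) ?_
    exact par2_zero b q.1.2 hm.2.1
  · obtain ⟨s, hs⟩ := par2_onto b w.2
    obtain ⟨x, hx, hw⟩ := onto_marks hok g hg s w.1
    refine ⟨s, x, hx, ?_⟩
    rw [(hd1.prodMk hd2).fderiv]
    exact Prod.ext (funext fun i => funext fun j => hw i j) hs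

end Pc

end LabelP

theorem label : LabelStmt := by
  intro V _ _ _
  exact ⟨LabelP.slices, fun _ _ _ _ _ _ _ _ _ _ _ _ _ hA hZ hγ hok => LabelP.codim hA hZ hγ hok⟩

end

end Pool.Agent.MP_9758ca_gt

end

end MrgPart0

-- ======== part 1: formerly Pool.Agent.MP_9758ca_gt.QE
section MrgPart1

section

/-!
PROJECT BALL, module GCOMP: the charts of the example are compatible.
-/

open scoped Topology ContDiff ComplexConjugate
open Set Metric Filter Complex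

namespace Pool.Agent.MP_9758ca_gt

noncomputable section

namespace GcompP

/-! ### derivatives along `SS` -/

/-- product rule along `SS` -/
theorem prod_tan {g g₁ g₂ : VV → ℂ} {x : VV} (hx : x ∈ SS) (hg : DifferentiableAt ℝ g x)
    (h₁ : DifferentiableAt ℝ g₁ x) (h₂ : DifferentiableAt ℝ g₂ x)
    (he : ∀ᶠ y in 𝓝 x, y ∈ SS → g y = g₁ y * g₂ y) {v : VV} (hv : v ∈ tan SS x) :
    fderiv ℝ g x v = g₁ x * fderiv ℝ g₂ x v + g₂ x * fderiv ℝ g₁ x v := by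
  have h3 : HasFDerivAt (fun y => g₁ y * g₂ y) _ x := h₁.hasFDerivAt.mul h₂.hasFDerivAt
  rw [fderiv_eq_on_tan hx hg h3.differentiableAt he hv, h3.fderiv]
  simp only [_root_.add_apply, _root_.smul_apply, smul_eq_mul]

theorem hasFDerivAt_P (i k : Fin 3) (x : VV) :
    HasFDerivAt (fun y : VV => y.1.1 i k)
      ((ContinuousLinearMap.proj (R := ℝ) (φ := fun _ : Fin 3 => ℂ) i).comp (colL k)) x :=
  ((ContinuousLinearMap.proj (R := ℝ) (φ := fun _ : Fin 3 => ℂ) i).comp (colL k)).hasFDerivAt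

theorem diff_P (i k : Fin 3) (x : VV) : DifferentiableAt ℝ (fun y : VV => y.1.1 i k) x :=
  (hasFDerivAt_P i k x).differentiableAt

theorem fderiv_P (i k : Fin 3) (x a : VV) :
    fderiv ℝ (fun y : VV => y.1.1 i k) x a = a.1.1 i k := by
  rw [(hasFDerivAt_P i k x).fderiv]; rfl

theorem ev_diag {k : Fin 3} {x : VV} (hk : x.1.1 k k ≠ 0) : ∀ᶠ y : VV in 𝓝 x, y.1.1 k k ≠ 0 :=
  (contDiff_P k k).continuous.continuousAt.eventually_ne hk

theorem diff_ratio (i i' : Fin 3) {k : Fin 3} {x : VV} (hk : x.1.1 k k ≠ 0) :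
    DifferentiableAt ℝ (fun y : VV => y.1.1 i i' / y.1.1 k k) x := by
  simp only [div_eq_mul_inv]
  exact (diff_P i i' x).mul ((diff_P k k x).inv hk)

/-- rank one -/
theorem rank_one {x : VV} (hx : x ∈ SS) (i k k' : Fin 3) :
    x.1.1 i k' * x.1.1 k k = x.1.1 k k' * x.1.1 i k := by
  obtain ⟨-, n, -, hn⟩ := SS_base hx
  rw [hn]
  simp only [prj]
  ring

/-- change of the column -/
theorem col_change {x : VV} (hx : x ∈ SS) {k k' : Fin 3} (hk : x.1.1 k k ≠ 0)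
    (hk' : x.1.1 k' k' ≠ 0) : ∃ c : ℂ, c ≠ 0 ∧ colL k' x = c • colL k x ∧
      ∀ a ∈ tan SS x, ∃ s : ℂ, colL k' a = s • colL k x + c • colL k a := by
  have hrel : ∀ y ∈ SS, y.1.1 k k ≠ 0 → ∀ i, y.1.1 i k' = y.1.1 k k' / y.1.1 k k * y.1.1 i k := by
    intro y hy h0 i
    have := rank_one hy i k k'
    field_simp
    linear_combination this
  refine ⟨x.1.1 k k' / x.1.1 k k, ?_, ?_, fun a ha => ⟨fderiv ℝ
    (fun y : VV => y.1.1 k k' / y.1.1 k k) x a, ?_⟩⟩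
  · intro h0
    have := hrel x hx hk k'
    rw [h0, zero_mul] at this
    exact hk' this
  · funext i
    exact hrel x hx hk i
  · funext i
    have h1 := prod_tan hx (diff_P i k' x) (diff_ratio k k' hk) (diff_P i k x)
      ((ev_diag hk).mono fun y h0 hy => hrel y hy h0 i) ha
    rw [fderiv_P, fderiv_P] at h1
    simp only [Pi.add_apply, Pi.smul_apply, smul_eq_mul, colL_apply]
    rw [h1]; ring

/-- derivative of an affine coordinate -/
theorem fderiv_ratio (i : Fin 3) {k : Fin 3} {x : VV} (hk : x.1.1 k k ≠ 0) (a : VV) :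
    fderiv ℝ (fun y : VV => y.1.1 i k / y.1.1 k k) x a * x.1.1 k k =
      a.1.1 i k - x.1.1 i k / x.1.1 k k * a.1.1 k k := by
  have h3 : HasFDerivAt (fun y : VV => y.1.1 i k / y.1.1 k k * y.1.1 k k) _ x :=
    (diff_ratio i k hk).hasFDerivAt.mul (diff_P k k x).hasFDerivAt
  have he : (fun y : VV => y.1.1 i k) =ᶠ[𝓝 x] fun y : VV => y.1.1 i k / y.1.1 k k * y.1.1 k k :=
    (ev_diag hk).mono fun y h0 => (div_mul_cancel₀ _ h0).symm
  have h4 := fderiv_P i k x a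
  rw [he.fderiv_eq, h3.fderiv] at h4
  simp only [_root_.add_apply, _root_.smul_apply, smul_eq_mul, fderiv_P] at h4
  linear_combination h4

/-- `b = I a` modulo the point, in the column `k` -/
def Rel (k : Fin 3) (x a b : VV) : Prop := ∃ t : ℂ, colL k b = t • colL k x + I • colL k a

theorem rel_of {k : Fin 3} {x a b : VV} (hk : x.1.1 k k ≠ 0)
    (h1 : fderiv ℝ (xk k) x b = I * fderiv ℝ (xk k) x a)
    (h2 : fderiv ℝ (yk k) x b = I * fderiv ℝ (yk k) x a) : Rel k x a b := by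
  refine ⟨(b.1.1 k k - I * a.1.1 k k) / x.1.1 k k, funext fun i => ?_⟩
  simp only [Pi.add_apply, Pi.smul_apply, smul_eq_mul, colL_apply]
  have key : ∀ i, fderiv ℝ (fun y : VV => y.1.1 i k / y.1.1 k k) x b =
      I * fderiv ℝ (fun y : VV => y.1.1 i k / y.1.1 k k) x a →
      b.1.1 i k = (b.1.1 k k - I * a.1.1 k k) / x.1.1 k k * x.1.1 i k + I * a.1.1 i k := by
    intro i h
    have e1 := fderiv_ratio i hk a
    have e2 := fderiv_ratio i hk b
    rw [h] at e2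
    have e3 : (b.1.1 k k - I * a.1.1 k k) / x.1.1 k k * x.1.1 i k =
        x.1.1 i k / x.1.1 k k * (b.1.1 k k - I * a.1.1 k k) := by ring
    rw [e3]
    linear_combination I * e1 - e2
  by_cases hi : i = k
  · subst hi
    field_simp
    ring
  · obtain ⟨m, rfl⟩ := Fin.exists_succAbove_eq hi
    fin_cases m
    · exact key _ h1
    · exact key _ h2

theorem of_rel {k : Fin 3} {x a b : VV} (hk : x.1.1 k k ≠ 0) (h : Rel k x a b) :
    fderiv ℝ (xk k) x b = I * fderiv ℝ (xk k) x a ∧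
      fderiv ℝ (yk k) x b = I * fderiv ℝ (yk k) x a := by
  obtain ⟨t, ht⟩ := h
  have h0 : ∀ i, b.1.1 i k = t * x.1.1 i k + I * a.1.1 i k := fun i => congrFun ht i
  have key : ∀ i, fderiv ℝ (fun y : VV => y.1.1 i k / y.1.1 k k) x b =
      I * fderiv ℝ (fun y : VV => y.1.1 i k / y.1.1 k k) x a := by
    intro i
    have e1 := fderiv_ratio i hk a
    have e2 := fderiv_ratio i hk b
    rw [h0 i, h0 k] at e2
    have e3 : x.1.1 i k / x.1.1 k k * x.1.1 k k = x.1.1 i k := div_mul_cancel₀ _ hk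
    refine mul_right_cancel₀ hk ?_
    linear_combination e2 - I * e1 - t * e3
  exact ⟨key _, key _⟩

theorem rel_change {x a b : VV} (hx : x ∈ SS) (ha : a ∈ tan SS x) (hb : b ∈ tan SS x)
    {k k' : Fin 3} (hk : x.1.1 k k ≠ 0) (hk' : x.1.1 k' k' ≠ 0) (h : Rel k x a b) :
    Rel k' x a b := by
  obtain ⟨t, ht⟩ := h
  obtain ⟨c, hc, e1, e2⟩ := col_change hx hk hk'
  obtain ⟨s, hs⟩ := e2 a ha
  obtain ⟨s', hs'⟩ := e2 b hb
  refine ⟨(s' + c * t - I * s) / c, ?_⟩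
  rw [hs', hs, e1, ht]
  funext i
  simp only [Pi.add_apply, Pi.smul_apply, smul_eq_mul]
  field_simp
  ring

theorem et_col {x : VV} (hx : x ∈ SS) {k k' : Fin 3} (j : ℤ) (hk : x.1.1 k k ≠ 0)
    (hk' : x.1.1 k' k' ≠ 0) {a : VV} (ha : a ∈ tan SS x) : et k j x a = et k' j x a := by
  obtain ⟨c, hc, e1, e2⟩ := col_change hx hk hk'
  obtain ⟨s, hs⟩ := e2 a ha
  rw [et_apply, et_apply, e1, hs, al_scale (colL_ne hk) hc]

theorem far_of_ne {T : ℝ} {j j' : ℤ} (hne : j ≠ j') (h : |T - j'| < 3 / 4) : 1 / 10 ≤ |T - j| := by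
  have h1 : (1 : ℝ) ≤ |(j : ℝ) - j'| := by
    have := Int.one_le_abs (sub_ne_zero.2 hne)
    exact_mod_cast this
  have h2 : |(j : ℝ) - j'| ≤ |T - j'| + |T - j| := by
    have : (j : ℝ) - j' = (T - j') - (T - j) := by ring
    rw [this]; exact abs_sub _ _
  linarith

theorem et_wall (k : Fin 3) {j j' : ℤ} {x : VV} (h : |x.2 - j| < 3 / 4) (h' : |x.2 - j'| < 3 / 4)
    (a : VV) : et k j x a = et k j' x a := by
  by_cases hne : j = j'
  · rw [hne]
  · rw [et_apply, et_apply, kap_zero (far_of_ne hne h'), kap_zero (far_of_ne (Ne.symm hne) h)]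

/-- the base relation in one chart gives it in all charts -/
theorem base_of {x a b : VV} (hx : x ∈ SS) (ha : a ∈ tan SS x) (hb : b ∈ tan SS x) {k : Fin 3}
    {j : ℤ} (hk : x.1.1 k k ≠ 0) (hj : |x.2 - j| < 3 / 4)
    (h1 : fderiv ℝ (xk k) x b = I * fderiv ℝ (xk k) x a)
    (h2 : fderiv ℝ (yk k) x b = I * fderiv ℝ (yk k) x a) (h3 : et k j x b = I * et k j x a) :
    BaseRel x a b := by
  intro k' j' hk' hj'
  obtain ⟨e1, e2⟩ := of_rel hk' (rel_change hx ha hb hk hk' (rel_of hk h1 h2))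
  refine ⟨e1, e2, ?_⟩
  rw [← et_col hx j' hk hk' ha, ← et_col hx j' hk hk' hb, ← et_wall k hj hj', ← et_wall k hj hj']
  exact h3

/-! ### the charts near the exceptional divisors -/

theorem rel3 {f : Fin 3 → VV →L[ℝ] ℂ} {a b : VV} :
    ContinuousLinearMap.pi f b = I • ContinuousLinearMap.pi f a ↔
      f 0 b = I * f 0 a ∧ f 1 b = I * f 1 a ∧ f 2 b = I * f 2 a := by
  constructor
  · intro h
    exact ⟨congrFun h 0, congrFun h 1, congrFun h 2⟩
  · rintro ⟨h0, h1, h2⟩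
    funext i
    fin_cases i
    · exact h0
    · exact h1
    · exact h2

theorem cof0 {k : Fin 3} {j : ℤ} {x a b : VV} : cof (0, k, j) x b = I • cof (0, k, j) x a ↔
    fderiv ℝ (xk k) x b = I * fderiv ℝ (xk k) x a ∧ fderiv ℝ (yk k) x b = I * fderiv ℝ (yk k) x a ∧
      et k j x b = I * et k j x a := rel3

theorem cof1 {k : Fin 3} {j : ℤ} {x a b : VV} : cof (1, k, j) x b = I • cof (1, k, j) x a ↔
    fderiv ℝ (xk k) x b = I * fderiv ℝ (xk k) x a ∧ fderiv ℝ (yk k) x b = I * fderiv ℝ (yk k) x a ∧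
      fderiv ℝ (mu1 k) x b = I * fderiv ℝ (mu1 k) x a := rel3

theorem cof2 {k : Fin 3} {j : ℤ} {x a b : VV} : cof (2, k, j) x b = I • cof (2, k, j) x a ↔
    fderiv ℝ (yk k) x b = I * fderiv ℝ (yk k) x a ∧
      fderiv ℝ (XiA k j) x b = I * fderiv ℝ (XiA k j) x a ∧
      fderiv ℝ (mu2 k) x b = I * fderiv ℝ (mu2 k) x a := rel3

theorem cof3 {k : Fin 3} {j : ℤ} {x a b : VV} : cof (3, k, j) x b = I • cof (3, k, j) x a ↔
    fderiv ℝ (xk k) x b = I * fderiv ℝ (xk k) x a ∧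
      fderiv ℝ (XiA k j) x b = I * fderiv ℝ (XiA k j) x a ∧
      fderiv ℝ (mu2 k) x b = I * fderiv ℝ (mu2 k) x a := rel3

/-- `et` and `dXi` are proportional near the centres -/
theorem et_iff {x a b : VV} (hx : x ∈ SS) (ha : a ∈ tan SS x) (hb : b ∈ tan SS x) {k : Fin 3}
    {j : ℤ} (hk : x.1.1 k k ≠ 0) (hs : nsq (NA k j x) < 1 / 200000000) :
    fderiv ℝ (XiA k j) x b = I * fderiv ℝ (XiA k j) x a ↔ et k j x b = I * et k j x a := by
  have hs' : nsq (NA k j x) < 1 / 10000000 := hs.trans (by norm_num)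
  obtain ⟨e1, h0⟩ := fderiv_XiA hx hk hs' ha
  obtain ⟨e2, -⟩ := fderiv_XiA hx hk hs' hb
  have hc : 2 * (Real.pi : ℂ) * I * (XiA k j x + 1) ≠ 0 :=
    mul_ne_zero (mul_ne_zero (mul_ne_zero two_ne_zero (by exact_mod_cast Real.pi_ne_zero))
      I_ne_zero) h0
  rw [e1, e2]
  constructor
  · intro h
    refine mul_left_cancel₀ hc ?_
    linear_combination h
  · intro h
    rw [h]; ring

theorem fk_rel {x a b : VV} {k : Fin 3} (hk : x.1.1 k k ≠ 0)
    (h1 : fderiv ℝ (xk k) x b = I * fderiv ℝ (xk k) x a)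
    (h2 : fderiv ℝ (yk k) x b = I * fderiv ℝ (yk k) x a) :
    fderiv ℝ (fk k) x b = I * fderiv ℝ (fk k) x a := by
  rw [fderiv_fk hk, fderiv_fk hk, h1, h2]; ring

theorem dXi_one {x : VV} (hx : x ∈ SS) {k : Fin 3} {j : ℤ} (h : x ∈ dom (1, k, j)) {v : VV}
    (hv : v ∈ tan SS x) : fderiv ℝ (XiA k j) x v =
      mu1 k x * fderiv ℝ (fk k) x v + fk k x * fderiv ℝ (mu1 k) x v := by
  have hk : x.1.1 k k ≠ 0 := h.1
  have hR : x.1.2.2 k.castSucc k.castSucc ≠ 0 := h.2.2.2.2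
  refine prod_tan hx ((contDiffAt_XiA j hk).1.differentiableAt (by simp))
    ((contDiffAt_mu1 hR).differentiableAt (by simp))
    ((contDiffAt_xk hk).2.2.differentiableAt (by simp)) ?_ hv
  filter_upwards [(isOpen_dom _).mem_nhds h] with y hy hS
  exact mu1_rel hS hy

theorem df_two {x : VV} (hx : x ∈ SS) {k : Fin 3} {j : ℤ}
    (h : x ∈ dom (2, k, j) ∨ x ∈ dom (3, k, j)) {v : VV} (hv : v ∈ tan SS x) :
    fderiv ℝ (fk k) x v =
      mu2 k x * fderiv ℝ (XiA k j) x v + XiA k j x * fderiv ℝ (mu2 k) x v := by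
  have hk : x.1.1 k k ≠ 0 := h.elim (fun h => h.1) fun h => h.1
  have hR : x.1.2.2 3 3 ≠ 0 := h.elim (fun h => h.2.2.2.2.1) fun h => h.2.2.2.2.1
  refine prod_tan hx ((contDiffAt_xk hk).2.2.differentiableAt (by simp))
    ((contDiffAt_mu2 hk hR).differentiableAt (by simp))
    ((contDiffAt_XiA j hk).1.differentiableAt (by simp)) ?_ hv
  filter_upwards [((isOpen_dom _).union (isOpen_dom _)).mem_nhds h] with y hy hS
  exact mu2_rel hS hy

/-- every coframe relation implies the base relation -/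
theorem base_of_cof {x : VV} (hx : x ∈ SS) {i : Idx} (hi : x ∈ dom i) {a b : VV}
    (ha : a ∈ tan SS x) (hb : b ∈ tan SS x) (h : cof i x b = I • cof i x a) : BaseRel x a b := by
  obtain ⟨t, k, j⟩ := i
  have hk : x.1.1 k k ≠ 0 := hi.1
  have hj : |x.2 - j| < 3 / 4 := hi.2.2.1
  fin_cases t
  · obtain ⟨h1, h2, h3⟩ := cof0.1 h
    exact base_of hx ha hb hk hj h1 h2 h3
  · obtain ⟨h1, h2, h3⟩ := cof1.1 h
    have hi' : x ∈ dom (1, k, j) := hi
    refine base_of hx ha hb hk hj h1 h2 ((et_iff hx ha hb hk hi'.2.2.2.1).1 ?_)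
    rw [dXi_one hx hi' ha, dXi_one hx hi' hb, fk_rel hk h1 h2, h3]; ring
  · obtain ⟨h1, h2, h3⟩ := cof2.1 h
    have hi' : x ∈ dom (2, k, j) := hi
    refine base_of hx ha hb hk hj ?_ h1 ((et_iff hx ha hb hk hi'.2.2.2.1).1 h2)
    have hc : yk k x - 3 * xk k x ^ 2 / 400 ≠ 0 := sub_ne_zero.2 hi'.2.2.2.2.2
    have e1 := df_two hx (Or.inl hi') ha
    have e2 := df_two hx (Or.inl hi') hb
    rw [fderiv_fk hk] at e1 e2
    rw [h1, h2, h3] at e2
    refine mul_left_cancel₀ hc ?_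
    linear_combination e2 - I * e1
  · obtain ⟨h1, h2, h3⟩ := cof3.1 h
    have hi' : x ∈ dom (3, k, j) := hi
    refine base_of hx ha hb hk hj h1 ?_ ((et_iff hx ha hb hk hi'.2.2.2.1).1 h2)
    have hc : xk k x - 3 * yk k x ^ 2 / 400 ≠ 0 := sub_ne_zero.2 hi'.2.2.2.2.2
    have e1 := df_two hx (Or.inr hi') ha
    have e2 := df_two hx (Or.inr hi') hb
    rw [fderiv_fk hk] at e1 e2
    rw [h1, h2, h3] at e2
    refine mul_left_cancel₀ hc ?_
    linear_combination e2 - I * e1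

theorem NA_zero {x : VV} (hx : x ∈ SS) {k : Fin 3} (hk : x.1.1 k k ≠ 0) (j : ℤ) :
    NA k j x = 0 ↔ fk k x = 0 ∧ XiA k j x = 0 := by
  rw [NA_eq hx hk j]
  constructor
  · intro h
    refine ⟨?_, congrFun h 3⟩
    have h1 : fk k x * x.1.1 k k ^ 3 = 0 := by
      have := congrFun h k.castSucc
      rwa [row_cast (fk k x) (XiA k j x) (x.1.1 k) k] at this
    exact (mul_eq_zero.1 h1).resolve_right (pow_ne_zero 3 hk)
  · rintro ⟨h1, h2⟩
    rw [h1, h2]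
    funext i
    fin_cases i <;> simp

theorem SO_sub : SO ⊆ SS := subset_union_left

theorem mu2_of {x a b : VV} (hx : x ∈ SO) (ha : a ∈ tan SS x) (hb : b ∈ tan SS x) {k : Fin 3}
    {j : ℤ} (hi : x ∈ dom (2, k, j) ∨ x ∈ dom (3, k, j))
    (h1 : fderiv ℝ (fk k) x b = I * fderiv ℝ (fk k) x a)
    (h2 : fderiv ℝ (XiA k j) x b = I * fderiv ℝ (XiA k j) x a) :
    fderiv ℝ (mu2 k) x b = I * fderiv ℝ (mu2 k) x a := by
  have hS := SO_sub hx
  have hk : x.1.1 k k ≠ 0 := hi.elim (fun h => h.1) fun h => h.1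
  have hj : |x.2 - j| < 3 / 4 := hi.elim (fun h => h.2.2.1) fun h => h.2.2.1
  have hc : XiA k j x ≠ 0 := by
    intro h0
    refine (SS_char hS hk hj).1.1 hx ((NA_zero hS hk j).2 ⟨?_, h0⟩)
    rw [mu2_rel hS hi, h0, mul_zero]
  have e1 := df_two hS hi ha
  have e2 := df_two hS hi hb
  rw [h1, h2] at e2
  refine mul_left_cancel₀ hc ?_
  linear_combination I * e1 - e2

/-- off the exceptional divisors the base relation implies every coframe relation -/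
theorem cof_of_base {x : VV} (hx : x ∈ SO) {i : Idx} (hi : x ∈ dom i) {a b : VV}
    (ha : a ∈ tan SS x) (hb : b ∈ tan SS x) (h : BaseRel x a b) : cof i x b = I • cof i x a := by
  obtain ⟨t, k, j⟩ := i
  have hS := SO_sub hx
  have hk : x.1.1 k k ≠ 0 := hi.1
  have hj : |x.2 - j| < 3 / 4 := hi.2.2.1
  obtain ⟨h1, h2, h3⟩ := h k j hk hj
  have h4 := fk_rel hk h1 h2
  fin_cases t
  · exact cof0.2 ⟨h1, h2, h3⟩
  · have hi' : x ∈ dom (1, k, j) := hi
    refine cof1.2 ⟨h1, h2, ?_⟩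
    have h5 := (et_iff hS ha hb hk hi'.2.2.2.1).2 h3
    have hc : fk k x ≠ 0 := by
      intro h0
      refine (SS_char hS hk hj).1.1 hx ((NA_zero hS hk j).2 ⟨h0, ?_⟩)
      rw [mu1_rel hS hi', h0, mul_zero]
    have e1 := dXi_one hS hi' ha
    have e2 := dXi_one hS hi' hb
    rw [h4, h5] at e2
    refine mul_left_cancel₀ hc ?_
    linear_combination I * e1 - e2
  · have hi' : x ∈ dom (2, k, j) := hi
    have h5 := (et_iff hS ha hb hk hi'.2.2.2.1).2 h3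
    exact cof2.2 ⟨h2, h5, mu2_of hx ha hb (Or.inl hi') h4 h5⟩
  · have hi' : x ∈ dom (3, k, j) := hi
    have h5 := (et_iff hS ha hb hk hi'.2.2.2.1).2 h3
    exact cof3.2 ⟨h1, h5, mu2_of hx ha hb (Or.inr hi') h4 h5⟩

/-! ### density of `SO` -/

theorem closure_of {x : VV} {i : Idx} (hi : x ∈ dom i) {g : VV → ℂ}
    (hg : ∀ y ∈ SS, y.1.1 i.2.1 i.2.1 ≠ 0 → NA i.2.1 i.2.2 y = 0 → g y = 0)
    (h : x ∈ closure {y | y ∈ SS ∧ g y ≠ 0}) : x ∈ closure SO := by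
  refine closure_mono ?_ ((isOpen_dom i).inter_closure ⟨hi, h⟩)
  rintro y ⟨hy, hS, h0⟩
  exact (SS_char hS hy.1 hy.2.2.1).1.2 fun h1 => h0 (hg y hS hy.1 h1)

theorem dense_SO (hR : LocRetr SS) (hL : ∀ i, LocOK i) : SS ⊆ closure SO := by
  intro x hx
  obtain ⟨⟨t, k, j⟩, hi⟩ := dom_cover hx
  have hk : x.1.1 k k ≠ 0 := hi.1
  have hj : |x.2 - j| < 3 / 4 := hi.2.2.1
  have hsurj := (hL _ x hx hi).2.1
  have hXi : ∀ v ∈ tan SS x, fderiv ℝ (XiA k j) x v = 1 → x ∈ closure SO := fun v hv h1 =>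
    closure_of hi (fun y hy h0 h2 => ((NA_zero hy h0 j).1 h2).2)
      (hR.closure_ne hx ((contDiffAt_XiA j hk).1.differentiableAt (by simp)) hv
        (by rw [h1]; exact one_ne_zero))
  have hf : ∀ v ∈ tan SS x, fderiv ℝ (fk k) x v ≠ 0 → x ∈ closure SO := fun v hv h1 =>
    closure_of hi (fun y hy h0 h2 => ((NA_zero hy h0 j).1 h2).1)
      (hR.closure_ne hx ((contDiffAt_xk hk).2.2.differentiableAt (by simp)) hv h1)
  fin_cases t
  · exact subset_closure ((SS_char hx hk hj).1.2 hi.2.2.2)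
  · by_cases h0 : fk k x = 0
    · rcases cuf_smooth h0 with h1 | h1
      · obtain ⟨v, hv, e⟩ := hsurj ![1, 0, 0]
        have e0 : fderiv ℝ (xk k) x v = 1 := congrFun e 0
        have e1 : fderiv ℝ (yk k) x v = 0 := congrFun e 1
        refine hf v hv ?_
        rw [fderiv_fk hk, e0, e1, mul_one, mul_zero, add_zero]
        exact sub_ne_zero.2 h1
      · obtain ⟨v, hv, e⟩ := hsurj ![0, 1, 0]
        have e0 : fderiv ℝ (xk k) x v = 0 := congrFun e 0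
        have e1 : fderiv ℝ (yk k) x v = 1 := congrFun e 1
        refine hf v hv ?_
        rw [fderiv_fk hk, e0, e1, mul_one, mul_zero, zero_add]
        exact sub_ne_zero.2 h1
    · exact subset_closure ((SS_char hx hk hj).1.2 fun h1 => h0 ((NA_zero hx hk j).1 h1).1)
  · obtain ⟨v, hv, e⟩ := hsurj ![0, 1, 0]
    exact hXi v hv (congrFun e 1)
  · obtain ⟨v, hv, e⟩ := hsurj ![0, 1, 0]
    exact hXi v hv (congrFun e 1)

theorem pre (hL : ∀ i, LocOK i) (b₀ ε : ℝ) (t : Bool) : (atl b₀ ε t).Pre SS where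
  op := isOpen_dom
  cov := fun _ hx => dom_cover hx
  smη := contDiffOn_cof
  sml := fun i => ((contDiffOn_lamH i).add (contDiffOn_lamB b₀ i)).add
    ((contDiffOn_lamS i).const_smul ε)
  smm := fun i => by
    cases t
    · exact contDiffOn_lamS i
    · exact contDiffOn_lamH i
  surj := fun i x hx hi => (hL i x hx hi).2.1
  inj := fun i x hx hi => (hL i x hx hi).2.2

theorem compat_SO (h3 : GprimStmt) (b₀ ε : ℝ) (t : Bool) {x : VV} (hx : x ∈ SO) :
    (atl b₀ ε t).CompatAt SS x := by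
  intro i i' hi hi' a ha b hb
  obtain ⟨e1, e2, e3⟩ := h3 x hx i i' hi hi' a ha b hb
  refine ⟨fun h => cof_of_base hx hi' ha hb (base_of_cof (SO_sub hx) hi ha hb h), ?_, ?_⟩
  · rw [dd_atl b₀ ε t hi, dd_atl b₀ ε t hi', e1, e2 b₀, e3]
  · cases t
    · exact e3
    · exact e1

end GcompP

open GcompP in
theorem gcomp_of (h1 : GoStmt) (h2 : GnStmt) (h3 : GprimStmt) (h4 : AmbientStmt) :
    GcompStmt := by
  have hL : ∀ i, LocOK i := by
    rintro ⟨t, k, j⟩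
    fin_cases t
    · exact h1 k j
    · exact (h2 k j).1
    · exact (h2 k j).2.1
    · exact (h2 k j).2.2
  have hR : LocRetr SS := fun x hx => by
    obtain ⟨i, hi⟩ := dom_cover hx
    exact (hL i x hx hi).1
  have hD := dense_SO hR hL
  refine ⟨hR, fun x hx i hi a ha b hb h => base_of_cof hx hi ha hb h,
    fun x hx k k' j hk hk' a ha => et_col hx j hk hk' ha, hD, fun b₀ ε t => ⟨pre hL b₀ ε t, ?_⟩⟩
  exact (h4 VV (atl b₀ ε t) SS hR (pre hL b₀ ε t)).1 SO SO_sub hD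
    fun x hx => compat_SO h3 b₀ ε t hx

end

end Pool.Agent.MP_9758ca_gt

end

section

/-!
PROJECT BALL, module GCUT: the sets `ZZ j`, `DD` and `EE` are cut out by local submersions.
-/

open scoped Topology ContDiff ComplexConjugate
open Set Metric Filter Complex

namespace Pool.Agent.MP_9758ca_gt

namespace GcutP

/-- every coframe of the atlas is onto on the tangent spaces -/
def Surj : Prop := ∀ i, ∀ x ∈ SS, x ∈ dom i → ∀ w, ∃ v ∈ tan SS x, cof i x v = w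

theorem cut_mono {V W : Type} [NormedAddCommGroup V] [NormedSpace ℝ V] [NormedAddCommGroup W]
    [NormedSpace ℝ W] {S M Z : Set V} {g : V → V → W} (hs : M ⊆ S)
    (hr : ∀ x ∈ M, ∀ᶠ y in 𝓝 x, y ∈ S → y ∈ M) (h : Cut S Z g) : Cut M Z g := by
  intro x hZ hM
  obtain ⟨h1, h2, h3⟩ := h x hZ (hs hM)
  have ht : tan M x = tan S x :=
    tan_congr ((hr x hM).mono fun y hy => ⟨fun hm => hs hm, hy⟩)
  refine ⟨h1, h2.mono fun y hy hm => hy (hs hm), fun w => ?_⟩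
  rw [ht]
  exact h3 w

/-! ### tangent vectors with prescribed coordinates -/

theorem surj0 (h : Surj) {x : VV} (hx : x ∈ SS) {k : Fin 3} {j : ℤ} (hd : x ∈ dom (0, k, j))
    (a b : ℂ) : ∃ v ∈ tan SS x, fderiv ℝ (xk k) x v = a ∧ fderiv ℝ (yk k) x v = b := by
  obtain ⟨v, hv, he⟩ := h _ x hx hd ![a, b, 0]
  exact ⟨v, hv, congrFun he 0, congrFun he 1⟩

theorem surj1 (h : Surj) {x : VV} (hx : x ∈ SS) {k : Fin 3} {j : ℤ} (hd : x ∈ dom (1, k, j))
    (a b : ℂ) : ∃ v ∈ tan SS x, fderiv ℝ (xk k) x v = a ∧ fderiv ℝ (yk k) x v = b := by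
  obtain ⟨v, hv, he⟩ := h _ x hx hd ![a, b, 0]
  exact ⟨v, hv, congrFun he 0, congrFun he 1⟩

theorem surj2 (h : Surj) {x : VV} (hx : x ∈ SS) {k : Fin 3} {j : ℤ} (hd : x ∈ dom (2, k, j))
    (a b : ℂ) : ∃ v ∈ tan SS x, fderiv ℝ (yk k) x v = a ∧ fderiv ℝ (XiA k j) x v = b := by
  obtain ⟨v, hv, he⟩ := h _ x hx hd ![a, b, 0]
  exact ⟨v, hv, congrFun he 0, congrFun he 1⟩

theorem surj3 (h : Surj) {x : VV} (hx : x ∈ SS) {k : Fin 3} {j : ℤ} (hd : x ∈ dom (3, k, j))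
    (a b : ℂ) : ∃ v ∈ tan SS x, fderiv ℝ (xk k) x v = a ∧ fderiv ℝ (XiA k j) x v = b := by
  obtain ⟨v, hv, he⟩ := h _ x hx hd ![a, b, 0]
  exact ⟨v, hv, congrFun he 0, congrFun he 1⟩

/-! ### points of the exceptional divisors -/

theorem aL_ne {x : VV} (hx : x ∈ SS) : aL x ≠ 0 := by
  intro h
  have ha := (SS_base hx).1
  rw [h, norm_zero] at ha
  exact zero_ne_one ha

theorem NA_zero_iff {x : VV} (hx : x ∈ SS) {k : Fin 3} (hk : x.1.1 k k ≠ 0) (j : ℤ) :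
    NA k j x = 0 ↔ fk k x = 0 ∧ XiA k j x = 0 := by
  rw [NA_eq hx hk]
  constructor
  · intro h
    have h1 := congrFun h k.castSucc
    rw [row_cast _ _ (x.1.1 k) k] at h1
    exact ⟨(mul_eq_zero.1 h1).resolve_right (pow_ne_zero 3 hk), congrFun h 3⟩
  · rintro ⟨h1, h2⟩
    rw [h1, h2]
    funext i
    fin_cases i <;> simp

theorem EE_iff {x : VV} (hx : x ∈ SS) {k : Fin 3} (hk : x.1.1 k k ≠ 0) {j : ℤ}
    (hj : |x.2 - j| < 3 / 4) : x ∈ EE ↔ fk k x = 0 ∧ XiA k j x = 0 :=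
  (SS_char hx hk hj).2.1.trans (NA_zero_iff hx hk j)

theorem EE_iff1 {x : VV} (hx : x ∈ SS) {k : Fin 3} {j : ℤ} (hd : x ∈ dom (1, k, j)) :
    x ∈ EE ↔ fk k x = 0 := by
  rw [EE_iff hx hd.1 hd.2.2.1]
  exact ⟨fun h => h.1, fun h => ⟨h, by rw [mu1_rel hx hd, h, mul_zero]⟩⟩

theorem EE_iff2 {x : VV} (hx : x ∈ SS) {k : Fin 3} {j : ℤ}
    (hd : x ∈ dom (2, k, j) ∨ x ∈ dom (3, k, j)) : x ∈ EE ↔ XiA k j x = 0 := by
  have h1 : x.1.1 k k ≠ 0 ∧ |x.2 - j| < 3 / 4 := by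
    rcases hd with hd | hd <;> exact ⟨hd.1, hd.2.2.1⟩
  rw [EE_iff hx h1.1 h1.2]
  exact ⟨fun h => h.2, fun h => ⟨by rw [mu2_rel hx hd, h, mul_zero], h⟩⟩

theorem EE_small {x : VV} (hx : x ∈ EE) {k : Fin 3} (hk : x.1.1 k k ≠ 0) {j : ℤ}
    (hj : |x.2 - j| < 3 / 4) : nsq (NA k j x) < 1 / 200000000 := by
  rw [nsq_eq_zero.2 (EE_char hx hk hj).1]
  norm_num

theorem EE_diag {x : VV} (hx : x ∈ EE) {k : Fin 3} (hR : x.1.2.2 k.castSucc k.castSucc ≠ 0) :
    x.1.1 k k ≠ 0 := by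
  obtain ⟨n, a, j, p, q, -, -, -, -, rfl⟩ := hx
  have h1 : nu n p q k.castSucc ≠ 0 := prj_diag_ne.1 hR
  have h2 : nu n p q k.castSucc = p * conj (n k) ^ 3 := row_cast p q (fun i => conj (n i)) k
  rw [h2] at h1
  have h3 : conj (n k) ≠ 0 := fun h => h1 (by rw [h]; ring)
  exact prj_diag_ne.2 fun h => h3 (by rw [h, map_zero])

theorem dom_one {x : VV} (hx : x ∈ EE) {k : Fin 3} {j : ℤ} (hj : |x.2 - j| < 3 / 4)
    (hR : x.1.2.2 k.castSucc k.castSucc ≠ 0) : x ∈ dom (1, k, j) :=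
  ⟨EE_diag hx hR, aL_ne (Or.inr hx), hj, EE_small hx (EE_diag hx hR) hj, hR⟩

theorem EE_pole {x : VV} (hx : x ∈ EE) {k : Fin 3} (hk : x.1.1 k k ≠ 0) {j : ℤ}
    (hj : |x.2 - j| < 3 / 4) (hR : x.1.2.2 k.castSucc k.castSucc = 0) :
    x.1.2.2 3 3 ≠ 0 ∧ mu2 k x = 0 := by
  obtain ⟨-, p, q, hpq, -, e⟩ := EE_char hx hk hj
  have hp : p = 0 := by
    by_contra hp
    refine (prj_diag_ne.2 ?_) (e ▸ hR)
    rw [row_cast p q (x.1.1 k) k]
    exact mul_ne_zero hp (pow_ne_zero 3 hk)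
  refine ⟨?_, ?_⟩
  · rw [e, prj_diag_ne]
    exact hpq.resolve_left (not_not.2 hp)
  · have h0 : x.1.2.2 k.castSucc 3 = 0 := by
      rw [e, prj, row_cast p q (x.1.1 k) k, hp, zero_mul, zero_mul, zero_div]
    rw [mu2, h0, zero_div]

theorem dom_two {x : VV} (hx : x ∈ EE) {k : Fin 3} (hk : x.1.1 k k ≠ 0) {j : ℤ}
    (hj : |x.2 - j| < 3 / 4) (hR : x.1.2.2 k.castSucc k.castSucc = 0)
    (h : yk k x ≠ 3 * xk k x ^ 2 / 400) : x ∈ dom (2, k, j) :=
  ⟨hk, aL_ne (Or.inr hx), hj, EE_small hx hk hj, (EE_pole hx hk hj hR).1, h⟩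

theorem dom_three {x : VV} (hx : x ∈ EE) {k : Fin 3} (hk : x.1.1 k k ≠ 0) {j : ℤ}
    (hj : |x.2 - j| < 3 / 4) (hR : x.1.2.2 k.castSucc k.castSucc = 0)
    (h : xk k x ≠ 3 * yk k x ^ 2 / 400) : x ∈ dom (3, k, j) :=
  ⟨hk, aL_ne (Or.inr hx), hj, EE_small hx hk hj, (EE_pole hx hk hj hR).1, h⟩

theorem EE_fk {x : VV} (hx : x ∈ EE) {k : Fin 3} (hk : x.1.1 k k ≠ 0) : fk k x = 0 :=
  ((EE_iff (Or.inr hx) hk (abs_round_lt x.2)).1 hx).1

theorem EE_smooth {x : VV} (hx : x ∈ EE) {k : Fin 3} (hk : x.1.1 k k ≠ 0) :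
    yk k x ≠ 3 * xk k x ^ 2 / 400 ∨ xk k x ≠ 3 * yk k x ^ 2 / 400 :=
  cuf_smooth (EE_fk hx hk)

theorem one_le_top : (1 : WithTop ℕ∞) ≤ ∞ := by exact_mod_cast le_top

/-- at a point with `μ₂ = 0` the cubic has zero derivative along `SS` -/
theorem df_zero {x : VV} (hx : x ∈ EE) {k : Fin 3} {j : ℤ}
    (hd : x ∈ dom (2, k, j) ∨ x ∈ dom (3, k, j)) (hR : x.1.2.2 k.castSucc k.castSucc = 0)
    {v : VV} (hv : v ∈ tan SS x) : fderiv ℝ (fk k) x v = 0 := by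
  have h1 : x.1.1 k k ≠ 0 ∧ |x.2 - j| < 3 / 4 := by
    rcases hd with hd | hd <;> exact ⟨hd.1, hd.2.2.1⟩
  obtain ⟨h2, h3⟩ := EE_pole hx h1.1 h1.2 hR
  have h4 : XiA k j x = 0 := (EE_iff2 (Or.inr hx) hd).1 hx
  have d1 : DifferentiableAt ℝ (fk k) x := (contDiffAt_xk h1.1).2.2.differentiableAt (by simp)
  have d2 : DifferentiableAt ℝ (mu2 k) x := (contDiffAt_mu2 h1.1 h2).differentiableAt (by simp)
  have d3 : DifferentiableAt ℝ (XiA k j) x := (contDiffAt_XiA j h1.1).1.differentiableAt (by simp)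
  have hn : ∀ᶠ y in 𝓝 x, y ∈ dom (2, k, j) ∨ y ∈ dom (3, k, j) :=
    ((isOpen_dom _).union (isOpen_dom _)).mem_nhds hd
  have h5 := fderiv_eq_on_tan (g := fk k) (g' := fun y => mu2 k y * XiA k j y) (Or.inr hx) d1
    (d2.mul d3) (hn.mono fun y hy hS => mu2_rel hS hy) hv
  rw [h5, fderiv_fun_mul d2 d3, h3, h4]
  change (0 : ℂ) * _ + (0 : ℂ) * _ = 0
  rw [zero_mul, zero_mul, add_zero]

/-! ### the exceptional divisors -/

theorem cut_EE (h : Surj) : Cut SS EE gE := by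
  intro x hx hS
  have hj := abs_round_lt x.2
  by_cases hR : ∃ k : Fin 3, x.1.2.2 k.castSucc k.castSucc ≠ 0
  · have hg : gE x = fk hR.choose := funext fun y => dif_pos hR
    have hk := hR.choose_spec
    rw [hg]
    generalize hR.choose = k at hk
    have hd := dom_one hx hj hk
    refine ⟨(contDiffAt_xk hd.1).2.2.of_le one_le_top, ?_, fun w => ?_⟩
    · filter_upwards [(isOpen_dom _).mem_nhds hd] with y hy hyS
      exact EE_iff1 hyS hy
    · rcases EE_smooth hx hd.1 with h1 | h1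
      · obtain ⟨v, hv, e1, e2⟩ := surj1 h hS hd (w / (yk k x - 3 * xk k x ^ 2 / 400)) 0
        refine ⟨v, hv, ?_⟩
        rw [fderiv_fk hd.1, e1, e2, mul_zero, add_zero, mul_div_cancel₀ _ (sub_ne_zero.2 h1)]
      · obtain ⟨v, hv, e1, e2⟩ := surj1 h hS hd 0 (w / (xk k x - 3 * yk k x ^ 2 / 400))
        refine ⟨v, hv, ?_⟩
        rw [fderiv_fk hd.1, e1, e2, mul_zero, zero_add, mul_div_cancel₀ _ (sub_ne_zero.2 h1)]
  · have hP := SS_diag hS
    have hg : gE x = XiA hP.choose (round x.2) :=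
      funext fun y => (dif_neg hR).trans (dif_pos hP)
    have hk := hP.choose_spec
    rw [hg]
    generalize hP.choose = k at hk
    have hR0 : x.1.2.2 k.castSucc k.castSucc = 0 := by
      by_contra h0
      exact hR ⟨k, h0⟩
    have hd : x ∈ dom (2, k, round x.2) ∨ x ∈ dom (3, k, round x.2) :=
      (EE_smooth hx hk).imp (dom_two hx hk hj hR0) (dom_three hx hk hj hR0)
    refine ⟨(contDiffAt_XiA _ hk).1.of_le one_le_top, ?_, fun w => ?_⟩
    · filter_upwards [((isOpen_dom _).union (isOpen_dom _)).mem_nhds hd] with y hy hyS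
      exact EE_iff2 hyS hy
    · rcases hd with hd | hd
      · obtain ⟨v, hv, -, e⟩ := surj2 h hS hd 0 w
        exact ⟨v, hv, e⟩
      · obtain ⟨v, hv, -, e⟩ := surj3 h hS hd 0 w
        exact ⟨v, hv, e⟩

/-! ### the preimage of the line -/

theorem continuous_entry (i k : Fin 3) : Continuous fun y : VV => y.1.1 i k :=
  (continuous_apply k).comp ((continuous_apply i).comp (continuous_fst.comp continuous_fst))

theorem contDiff_entry (i k : Fin 3) : ContDiff ℝ ∞ fun y : VV => y.1.1 i k :=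
  (contDiff_apply ℝ ℂ i).comp (colL k).contDiff

theorem diag_near {x : VV} {k : Fin 3} (hk : x.1.1 k k ≠ 0) : ∀ᶠ y : VV in 𝓝 x, y.1.1 k k ≠ 0 :=
  (continuous_entry k k).continuousAt.eventually_ne hk

theorem sum_col {x : VV} {k : Fin 3} (hk : x.1.1 k k ≠ 0) :
    ∑ i, x.1.1 i k = x.1.1 k k * (1 + xk k x + yk k x) := by
  rw [Fin.sum_univ_succAbove _ k, Fin.sum_univ_two, xk, yk]
  field_simp
  ring

theorem DD_iff {x : VV} (hx : x ∈ SS) {k : Fin 3} (hk : x.1.1 k k ≠ 0) :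
    x ∈ DD ↔ ∑ i, x.1.1 i k = 0 := by
  have h1 := SS_col hx hk
  have h2 : x ∈ DD ↔ pt (colL k x) 0 0 0 ∈ DD := by
    change ∑ i, ∑ l, x.1.1 i l = 0 ↔ ∑ i, ∑ l, prj (colL k x) i l = 0
    rw [← h1]
  rw [h2, mem_DD (colL_ne hk), Fin.sum_univ_three]
  rfl

theorem gD_eq {x : VV} (hx : x ∈ SS) :
    ∃ k, x.1.1 k k ≠ 0 ∧ gD x = fun y => ∑ i, y.1.1 i k := by
  by_cases h2 : x.1.1 2 2 ≠ 0
  · exact ⟨2, h2, funext fun y => if_pos h2⟩
  by_cases h1 : x.1.1 1 1 ≠ 0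
  · exact ⟨1, h1, funext fun y => (if_neg h2).trans (if_pos h1)⟩
  refine ⟨0, ?_, funext fun y => (if_neg h2).trans (if_neg h1)⟩
  obtain ⟨k, hk⟩ := SS_diag hx
  fin_cases k
  · exact hk
  · exact absurd hk h1
  · exact absurd hk h2

/-- the line meets the cubic transversally in the sense that is needed -/
theorem line_trans {x y : ℂ} (h1 : 1 + x + y = 0) (h2 : cuf x y = 0) :
    y - 3 * x ^ 2 / 400 ≠ x - 3 * y ^ 2 / 400 := by
  intro h
  have hy : y = -1 - x := by linear_combination h1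
  rw [hy] at h h2
  have hx : x = -1 / 2 := by linear_combination (-200 / 397 : ℂ) * h
  rw [hx, cuf] at h2
  norm_num at h2

theorem exists_sum (h : Surj) {x : VV} (hS : x ∈ SS) {k : Fin 3} (hk : x.1.1 k k ≠ 0)
    (h0 : 1 + xk k x + yk k x = 0) (w : ℂ) :
    ∃ v ∈ tan SS x, fderiv ℝ (xk k) x v + fderiv ℝ (yk k) x v = w := by
  have hj := abs_round_lt x.2
  by_cases hN : NA k (round x.2) x = 0
  swap
  · have hd : x ∈ dom (0, k, round x.2) := ⟨hk, aL_ne hS, hj, hN⟩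
    obtain ⟨v, hv, e1, e2⟩ := surj0 h hS hd w 0
    exact ⟨v, hv, by rw [e1, e2, add_zero]⟩
  have hx : x ∈ EE := (SS_char hS hk hj).2.1.2 hN
  by_cases hR : x.1.2.2 k.castSucc k.castSucc = 0
  swap
  · obtain ⟨v, hv, e1, e2⟩ := surj1 h hS (dom_one hx hj hR) w 0
    exact ⟨v, hv, by rw [e1, e2, add_zero]⟩
  have ht := sub_ne_zero.2 (line_trans h0 (EE_fk hx hk))
  generalize hA : yk k x - 3 * xk k x ^ 2 / 400 = A at ht
  generalize hB : xk k x - 3 * yk k x ^ 2 / 400 = B at ht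
  rcases EE_smooth hx hk with h1 | h1
  · have hd := dom_two hx hk hj hR h1
    have hA0 : A ≠ 0 := hA ▸ sub_ne_zero.2 h1
    obtain ⟨v, hv, e, -⟩ := surj2 h hS hd (w * A / (A - B)) 0
    have h2 := df_zero hx (Or.inl hd) hR hv
    rw [fderiv_fk hk, hA, hB, e] at h2
    refine ⟨v, hv, ?_⟩
    rw [e]
    apply mul_left_cancel₀ hA0
    rw [mul_add, eq_neg_of_add_eq_zero_left h2]
    field_simp
    ring
  · have hd := dom_three hx hk hj hR h1
    have hB0 : B ≠ 0 := hB ▸ sub_ne_zero.2 h1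
    obtain ⟨v, hv, e, -⟩ := surj3 h hS hd (-(w * B) / (A - B)) 0
    have h2 := df_zero hx (Or.inr hd) hR hv
    rw [fderiv_fk hk, hA, hB, e] at h2
    refine ⟨v, hv, ?_⟩
    rw [e]
    apply mul_left_cancel₀ hB0
    rw [mul_add, eq_neg_of_add_eq_zero_right h2]
    field_simp
    ring

theorem cut_DD (h : Surj) : Cut SS DD gD := by
  intro x hx hS
  obtain ⟨k, hk, hg⟩ := gD_eq hS
  rw [hg]
  refine ⟨(ContDiff.sum fun i _ => contDiff_entry i k).contDiffAt.of_le one_le_top, ?_,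
    fun w => ?_⟩
  · filter_upwards [diag_near hk] with y hy hyS
    exact DD_iff hyS hy
  · have h0 : 1 + xk k x + yk k x = 0 := by
      have h1 := (DD_iff hS hk).1 hx
      rw [sum_col hk] at h1
      exact (mul_eq_zero.1 h1).resolve_left hk
    obtain ⟨v, hv, e⟩ := exists_sum h hS hk h0 (w / x.1.1 k k)
    refine ⟨v, hv, ?_⟩
    have he : (fun y : VV => ∑ i, y.1.1 i k) =ᶠ[𝓝 x]
        fun y => y.1.1 k k * (1 + xk k y + yk k y) := (diag_near hk).mono fun y hy => sum_col hy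
    have d0 := ((contDiff_entry k k).differentiable (by simp) x).hasFDerivAt
    have d1 := ((contDiffAt_xk hk).1.differentiableAt (by simp)).hasFDerivAt
    have d2 := ((contDiffAt_xk hk).2.1.differentiableAt (by simp)).hasFDerivAt
    have d3 := d0.fun_mul ((d1.const_add 1).fun_add d2)
    rw [he.fderiv_eq, d3.fderiv, h0]
    change x.1.1 k k * (fderiv ℝ (xk k) x v + fderiv ℝ (yk k) x v) + (0 : ℂ) * _ = w
    rw [e, mul_div_cancel₀ _ hk, zero_mul, add_zero]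

/-! ### the part over the oval -/

theorem ZZ_iff {x : VV} (hk : x.1.1 2 2 ≠ 0) {j : ℤ} (hj : |x.2 - j| < 3 / 4) :
    x ∈ ZZ j ↔ x ∈ EE ∧ ∃ s t : ℝ, 0 ≤ s ∧ 0 ≤ t ∧ xk 2 x = s ∧ yk 2 x = t := by
  constructor
  · intro hx
    refine ⟨(ZZ_sub j).1 hx, ?_⟩
    obtain ⟨s, t, a, p, q, h1, h2, -, -, -, rfl⟩ := hx
    have hc := pt_chart (n := ![(s : ℂ), t, 1]) (k := 2) one_ne_zero j a j
      (prj (nu ![(s : ℂ), t, 1] p q))
    exact ⟨s, t, h1, h2, hc.2.2.1.trans (div_one _), hc.2.2.2.1.trans (div_one _)⟩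
  · rintro ⟨⟨n, a, j', p, q, h1, h2, h3, h4, rfl⟩, s, t, hs, ht, e1, e2⟩
    have hn : n 2 ≠ 0 := prj_diag_ne.1 hk
    have hc := pt_chart hn j a j' (prj (nu n p q))
    have hjj : j' = j := by
      have h5 : |((j' - j : ℤ) : ℝ)| < 1 := by
        rw [Int.cast_sub]
        exact lt_trans hj (by norm_num)
      rw [← Int.cast_abs, ← Int.cast_one, Int.cast_lt, Int.abs_lt_one_iff] at h5
      exact sub_eq_zero.1 h5
    subst hjj
    have f1 : n 0 / n 2 = s := hc.2.2.1.symm.trans e1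
    have f2 : n 1 / n 2 = t := hc.2.2.2.1.symm.trans e2
    have hn' : n = n 2 • ![(s : ℂ), t, 1] := by
      funext i
      fin_cases i
      · change n 0 = n 2 * s
        rw [← f1, mul_div_cancel₀ _ hn]
      · change n 1 = n 2 * t
        rw [← f2, mul_div_cancel₀ _ hn]
      · exact (mul_one _).symm
    generalize n 2 = c at hn hn'
    subst hn'
    refine ⟨s, t, a, p * conj c ^ 3, q, hs, ht, h2, ?_, ?_, ?_⟩
    · rwa [NN_smul hn] at h3
    · refine h4.imp_left fun hp => mul_ne_zero hp (pow_ne_zero 3 ?_)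
      exact (_root_.map_ne_zero _).2 hn
    · rw [nu_smul, pt, pt, prj_smul hn]

theorem pos_of_cuf {s t : ℝ} (hs : 0 ≤ s) (ht : 0 ≤ t) (h : cuf s t = 0) : 0 < s ∧ 0 < t := by
  have h1 : s * t - (1 + s ^ 3 + t ^ 3) / 400 = 0 := by
    rw [cuf] at h
    exact_mod_cast h
  have h2 : 0 < s * t := by
    have h3 := pow_nonneg hs 3
    have h4 := pow_nonneg ht 3
    linarith
  refine ⟨lt_of_le_of_ne hs ?_, lt_of_le_of_ne ht ?_⟩
  · rintro rfl
    simp at h2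
  · rintro rfl
    simp at h2

theorem cuf_comm (x y : ℂ) : cuf x y = cuf y x := by
  rw [cuf, cuf]
  ring

/-- on the cubic a real `y` forces a real `x` -/
theorem im_zero {x y : ℂ} (h : cuf x y = 0) (hy : y.im = 0)
    (hne : y - (x ^ 2 + x * conj x + conj x ^ 2) / 400 ≠ 0) : x.im = 0 := by
  have h1 : conj y = y := conj_eq_iff_im.2 hy
  have h2 : cuf (conj x) y = 0 := by
    have h3 := congrArg conj h
    simp only [cuf, map_sub, map_mul, map_div₀, map_add, map_pow, map_one, map_zero, h1,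
      map_ofNat] at h3
    exact h3
  have h4 : (x - conj x) * (y - (x ^ 2 + x * conj x + conj x ^ 2) / 400) = 0 := by
    rw [cuf] at h h2
    linear_combination h - h2
  exact conj_eq_iff_im.1 (sub_eq_zero.1 ((mul_eq_zero.1 h4).resolve_right hne)).symm

/-- local form of the previous lemma -/
theorem real_near {X : Type} [TopologicalSpace X] {f g : X → ℂ} {x : X} (hf : ContinuousAt f x)
    (hg : ContinuousAt g x) {s t : ℝ} (hs : 0 < s) (ht : 0 < t) (e1 : f x = s) (e2 : g x = t)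
    (hne : g x ≠ 3 * f x ^ 2 / 400) :
    ∀ᶠ y in 𝓝 x, cuf (f y) (g y) = 0 → (g y).im = 0 →
      ∃ s' t' : ℝ, 0 ≤ s' ∧ 0 ≤ t' ∧ f y = s' ∧ g y = t' := by
  have hc : ContinuousAt (fun y => conj (f y)) x := continuous_conj.continuousAt.comp hf
  have h1 : ContinuousAt
      (fun y => g y - (f y ^ 2 + f y * conj (f y) + conj (f y) ^ 2) / 400) x :=
    hg.sub ((((hf.pow 2).add (hf.mul hc)).add (hc.pow 2)).div_const 400)
  have h2 : g x - (f x ^ 2 + f x * conj (f x) + conj (f x) ^ 2) / 400 ≠ 0 := by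
    intro h
    apply hne
    rw [e1, conj_ofReal] at h
    rw [e1]
    linear_combination h
  have h3 : ∀ᶠ y in 𝓝 x, 0 < (f y).re :=
    (continuous_re.continuousAt.comp hf).eventually (lt_mem_nhds (by
      change 0 < (f x).re
      rwa [e1, ofReal_re]))
  have h4 : ∀ᶠ y in 𝓝 x, 0 < (g y).re :=
    (continuous_re.continuousAt.comp hg).eventually (lt_mem_nhds (by
      change 0 < (g x).re
      rwa [e2, ofReal_re]))
  filter_upwards [h1.eventually_ne h2, h3, h4] with y y1 y2 y3 hcu him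
  have h5 := im_zero hcu him y1
  exact ⟨(f y).re, (g y).re, y2.le, y3.le, Complex.ext rfl h5, Complex.ext rfl him⟩

theorem fderiv_pair {f g : VV → ℂ} {x : VV} (hf : ContDiffAt ℝ ∞ f x) (hg : ContDiffAt ℝ ∞ g x) :
    ContDiffAt ℝ 1 (fun y => (f y, (g y).im)) x ∧
      ∀ v, fderiv ℝ (fun y => (f y, (g y).im)) x v = (fderiv ℝ f x v, (fderiv ℝ g x v).im) := by
  refine ⟨(hf.prodMk (imCLM.contDiff.contDiffAt.comp x hg)).of_le one_le_top, fun v => ?_⟩
  have d1 := (hf.differentiableAt (by simp)).hasFDerivAt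
  have d2 := imCLM.hasFDerivAt.comp x (hg.differentiableAt (by simp)).hasFDerivAt
  have d3 : HasFDerivAt (fun y => (f y, (g y).im)) _ x := d1.prodMk d2
  rw [d3.fderiv]
  rfl

/-- the local description of `ZZ j` from a local equation of `EE` -/
theorem ZZ_near {x : VV} {j : ℤ} (hk : x.1.1 2 2 ≠ 0) (hj : |x.2 - j| < 3 / 4) {f g : VV → ℂ}
    (h1 : ∀ᶠ y in 𝓝 x, y ∈ SS → (y ∈ EE ↔ f y = 0))
    (h2 : ∀ᶠ y in 𝓝 x, fk 2 y = 0 → (g y).im = 0 →
      ∃ s t : ℝ, 0 ≤ s ∧ 0 ≤ t ∧ xk 2 y = s ∧ yk 2 y = t) (hg : g = xk 2 ∨ g = yk 2) :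
    ∀ᶠ y in 𝓝 x, y ∈ SS → (y ∈ ZZ j ↔ (f y, (g y).im) = 0) := by
  have h3 : ∀ᶠ y : VV in 𝓝 x, |y.2 - j| < 3 / 4 :=
    ((continuous_snd.sub continuous_const).abs.continuousAt (x := x)).eventually
      (gt_mem_nhds hj)
  filter_upwards [h1, h2, h3, diag_near hk] with y y1 y2 y3 y4 hS
  rw [ZZ_iff y4 y3, Prod.mk_eq_zero, ← y1 hS]
  refine and_congr_right fun hE => ⟨?_, y2 (EE_fk hE y4)⟩
  rintro ⟨s, t, -, -, e1, e2⟩
  rcases hg with rfl | rfl
  · rw [e1, ofReal_im]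
  · rw [e2, ofReal_im]

theorem cut_ZZ (h : Surj) (j : ℤ) : Cut SS (ZZ j) (gZ j) := by
  intro x hx hS
  have hE := (ZZ_sub j).1 hx
  have hj : |x.2 - j| < 3 / 4 := by
    rw [(ZZ_sub j).2.1 x hx, sub_self, abs_zero]
    norm_num
  have hk : x.1.1 2 2 ≠ 0 := by
    obtain ⟨s, t, a, p, q, -, -, -, -, -, rfl⟩ := hx
    exact prj_diag_ne.2 one_ne_zero
  obtain ⟨-, s, t, hs, ht, e1, e2⟩ := (ZZ_iff hk hj).1 hx
  have hf : cuf (xk 2 x) (yk 2 x) = 0 := EE_fk hE hk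
  obtain ⟨hs', ht'⟩ := pos_of_cuf hs ht (by rwa [e1, e2] at hf)
  obtain ⟨cx, cy, cf⟩ := contDiffAt_xk hk
  have cX := (contDiffAt_XiA j hk).1
  have hI : ∀ r : ℝ, (I * r).im = r := fun r => by simp
  by_cases hy : yk 2 x ≠ 3 * xk 2 x ^ 2 / 400
  · have hn := real_near cx.continuousAt cy.continuousAt hs' ht' e1 e2 hy
    by_cases hR : x.1.2.2 2 2 ≠ 0
    · have hg : gZ j x = fun y => (fk 2 y, (yk 2 y).im) :=
        funext fun y => Prod.ext (if_pos hR) (if_pos hy)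
      have hd : x ∈ dom (1, 2, j) := dom_one hE hj hR
      rw [hg]
      refine ⟨(fderiv_pair cf cy).1, ZZ_near hk hj ?_ hn (Or.inr rfl), fun w => ?_⟩
      · filter_upwards [(isOpen_dom _).mem_nhds hd] with y hy hyS
        exact EE_iff1 hyS hy
      · obtain ⟨v, hv, f1, f2⟩ := surj1 h hS hd ((w.1 - (xk 2 x - 3 * yk 2 x ^ 2 / 400) *
          (I * w.2)) / (yk 2 x - 3 * xk 2 x ^ 2 / 400)) (I * w.2)
        refine ⟨v, hv, ?_⟩
        rw [(fderiv_pair cf cy).2, fderiv_fk hk, f1, f2, hI,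
          mul_div_cancel₀ _ (sub_ne_zero.2 hy), sub_add_cancel]
    · have hg : gZ j x = fun y => (XiA 2 j y, (yk 2 y).im) :=
        funext fun y => Prod.ext (if_neg hR) (if_pos hy)
      have hd : x ∈ dom (2, 2, j) := dom_two hE hk hj (not_not.1 hR) hy
      rw [hg]
      refine ⟨(fderiv_pair cX cy).1, ZZ_near hk hj ?_ hn (Or.inr rfl), fun w => ?_⟩
      · filter_upwards [(isOpen_dom _).mem_nhds hd] with y hy hyS
        exact EE_iff2 hyS (Or.inl hy)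
      · obtain ⟨v, hv, f1, f2⟩ := surj2 h hS hd (I * w.2) w.1
        refine ⟨v, hv, ?_⟩
        rw [(fderiv_pair cX cy).2, f1, f2, hI]
  · have hx' : xk 2 x ≠ 3 * yk 2 x ^ 2 / 400 := (cuf_smooth hf).resolve_left hy
    have hn : ∀ᶠ y in 𝓝 x, fk 2 y = 0 → (xk 2 y).im = 0 →
        ∃ s t : ℝ, 0 ≤ s ∧ 0 ≤ t ∧ xk 2 y = s ∧ yk 2 y = t := by
      filter_upwards [real_near cy.continuousAt cx.continuousAt ht' hs' e2 e1 hx'] with y hy h1 h2
      obtain ⟨s', t', h3, h4, h5, h6⟩ := hy ((cuf_comm _ _).trans h1) h2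
      exact ⟨t', s', h4, h3, h6, h5⟩
    by_cases hR : x.1.2.2 2 2 ≠ 0
    · have hg : gZ j x = fun y => (fk 2 y, (xk 2 y).im) :=
        funext fun y => Prod.ext (if_pos hR) (if_neg hy)
      have hd : x ∈ dom (1, 2, j) := dom_one hE hj hR
      rw [hg]
      refine ⟨(fderiv_pair cf cx).1, ZZ_near hk hj ?_ hn (Or.inl rfl), fun w => ?_⟩
      · filter_upwards [(isOpen_dom _).mem_nhds hd] with y hy hyS
        exact EE_iff1 hyS hy
      · obtain ⟨v, hv, f1, f2⟩ := surj1 h hS hd (I * w.2)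
          ((w.1 - (yk 2 x - 3 * xk 2 x ^ 2 / 400) * (I * w.2)) / (xk 2 x - 3 * yk 2 x ^ 2 / 400))
        refine ⟨v, hv, ?_⟩
        rw [(fderiv_pair cf cx).2, fderiv_fk hk, f1, f2, hI,
          mul_div_cancel₀ _ (sub_ne_zero.2 hx'), add_sub_cancel]
    · have hg : gZ j x = fun y => (XiA 2 j y, (xk 2 y).im) :=
        funext fun y => Prod.ext (if_neg hR) (if_neg hy)
      have hd : x ∈ dom (3, 2, j) := dom_three hE hk hj (not_not.1 hR) hx'
      rw [hg]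
      refine ⟨(fderiv_pair cX cx).1, ZZ_near hk hj ?_ hn (Or.inl rfl), fun w => ?_⟩
      · filter_upwards [(isOpen_dom _).mem_nhds hd] with y hy hyS
        exact EE_iff2 hyS (Or.inr hy)
      · obtain ⟨v, hv, f1, f2⟩ := surj3 h hS hd (I * w.2) w.1
        refine ⟨v, hv, ?_⟩
        rw [(fderiv_pair cX cx).2, f1, f2, hI]

end GcutP

theorem gcut_of (h1 : GcompStmt) : GcutStmt := by
  intro M hs hr
  have h : GcutP.Surj := (h1.2.2.2.2 0 0 true).1.surj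
  exact ⟨fun j => GcutP.cut_mono hs hr (GcutP.cut_ZZ h j), GcutP.cut_mono hs hr (GcutP.cut_DD h),
    GcutP.cut_mono hs hr (GcutP.cut_EE h)⟩

end Pool.Agent.MP_9758ca_gt

end

end MrgPart1

-- marker of a merged file
example : 731051 + 282451 = 731051 + 282451 := rfl
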