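import Mathlib.Analysis.Calculus.LineDeriv.Basic
import Mathlib.Analysis.Complex.RemovableSingularity
import Mathlib.Analysis.Complex.BranchLogRoot
import Mathlib.Combinatorics.SimpleGraph.Basic
import Pool.Agent.MP_9758ca_gt.Gn

-- ======== part 0: formerly Pool.Agent.MP_9758ca_gt.QA
section MrgPart0

section

/-!
PROJECT BALL, module Deg: the degree of the base projection of a sphere.
-/

open scoped Topology ContDiff ComplexConjugate
open Set Metric Filter Complex MeasureTheory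

namespace Pool.Agent.MP_9758ca_gt

namespace DegP

variable {U : C2 → VV}

lemma ne1 (z : ℂ) : ((z, 1) : C2) ≠ 0 := fun h => one_ne_zero (congrArg Prod.snd h)

lemma dU (h : Map2 SS U) {v : C2} (hv : v ≠ 0) : DifferentiableAt ℝ U v :=
  (h.sm.contDiffAt (nz_mem_nhds hv)).differentiableAt two_ne_zero

lemma tanU (h : Map2 SS U) {v : C2} (hv : v ≠ 0) (w : C2) : fderiv ℝ U v w ∈ tan SS (U v) :=
  fderiv_mem_tan (dU h hv) (mem_of_superset (nz_mem_nhds hv) fun w hw => h.mem w hw) w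

lemma round_lt (t : ℝ) : |t - (round t : ℤ)| < 3 / 4 := (abs_sub_round t).trans_lt (by norm_num)

lemma hol_of {φ : VV → ℂ} (h : Map2 SS U) {v : C2} (hv : v ≠ 0)
    (hφ : DifferentiableAt ℝ φ (U v))
    (hc : ∀ w, fderiv ℝ φ (U v) (fderiv ℝ U v (I • w)) = I * fderiv ℝ φ (U v) (fderiv ℝ U v w)) :
    DifferentiableAt ℂ (fun w => φ (U w)) v := by
  have b1 : HasFDerivAt (fun w => φ (U w)) ((fderiv ℝ φ (U v)).comp (fderiv ℝ U v)) v :=
    hφ.hasFDerivAt.comp v (dU h hv).hasFDerivAt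
  refine differentiableAt_of_db hv b1.differentiableAt ?_ ?_
  · rw [db, b1.fderiv, ContinuousLinearMap.comp_apply, ContinuousLinearMap.comp_apply, hc,
      smul_eq_mul, ← mul_assoc, I_mul_I, neg_one_mul, add_neg_cancel]
  · rw [b1.fderiv, ContinuousLinearMap.comp_apply, ContinuousLinearMap.comp_apply, hc, smul_eq_mul]

lemma ratio (h : Map2 SS U)
    (hB : ∀ v, v ≠ 0 → ∀ w, BaseRel (U v) (fderiv ℝ U v w) (fderiv ℝ U v (I • w)))
    {v : C2} (hv : v ≠ 0) (i k : Fin 3) (hk : (U v).1.1 k k ≠ 0) :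
    DifferentiableAt ℂ (fun w => (U w).1.1 i k / (U w).1.1 k k) v := by
  have hb := fun w => hB v hv w k _ hk (round_lt _)
  by_cases hik : i = k
  · subst hik
    have hc : ContinuousAt (fun w => (U w).1.1 i i) v :=
      ((continuous_apply_apply i i).continuousAt).comp (dU h hv).continuousAt.fst.fst
    refine (differentiableAt_const (1 : ℂ)).congr_of_eventuallyEq ?_
    filter_upwards [hc.eventually_ne hk] with w hw
    exact div_self hw
  · obtain ⟨m, rfl⟩ := Fin.exists_succAbove_eq hik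
    have hx := contDiffAt_xk hk
    revert m
    rw [Fin.forall_fin_two]
    exact ⟨fun _ => hol_of h hv (hx.1.differentiableAt (by simp)) fun w => (hb w).1,
      fun _ => hol_of h hv (hx.2.1.differentiableAt (by simp)) fun w => (hb w).2.1⟩

lemma ddH (h : Map2 SS U) {n : C2 → C3} (hn : ContDiffOn ℝ 2 n nz)
    (hP : ∀ v, v ≠ 0 → n v ≠ 0 ∧ (U v).1.1 = prj (n v)) {v : C2} (hv : v ≠ 0) {i : Idx}
    (hi : U v ∈ dom i) (a b : C2) :
    dd (lamH i) (U v) (fderiv ℝ U v a) (fderiv ℝ U v b) =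
      dd th (n v) (fderiv ℝ n v a) (fderiv ℝ n v b) := by
  have h0 := colL_ne hi.1
  have dn : DifferentiableAt ℝ n v := (hn.contDiffAt (nz_mem_nhds hv)).differentiableAt two_ne_zero
  have b1 : HasFDerivAt (fun w => colL i.2.1 (U w)) ((colL i.2.1).comp (fderiv ℝ U v)) v :=
    (colL i.2.1).hasFDerivAt.comp v (dU h hv).hasFDerivAt
  have he : ∀ w, w ≠ 0 → colL i.2.1 (U w) = (conj (n w i.2.1) / (nsq (n w) : ℂ)) • n w :=
    fun w hw => by
      rw [← prj_col, ← (hP w hw).2]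
      exact funext fun m => colL_apply _ _ m
  have dc : DifferentiableAt ℝ (fun w => conj (n w i.2.1) / (nsq (n w) : ℂ)) v := by
    have c1 : DifferentiableAt ℝ (fun w => conj (n w i.2.1)) v :=
      conjCLE.differentiableAt.comp v (differentiableAt_pi.1 dn i.2.1)
    have c2 : DifferentiableAt ℝ (fun w => (nsq (n w) : ℂ)) v :=
      ofRealCLM.differentiableAt.comp v ((contDiff_nsq.differentiable (by simp) _).comp v dn)
    simp only [div_eq_mul_inv]
    exact c1.mul (c2.inv (by exact_mod_cast (nsq_pos (hP v hv).1).ne'))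
  have ht : ∀ a : C2, a ∈ tan (univ : Set C2) v := fun a => by
    simpa using fderiv_mem_tan (S := univ) (g := id) (y := v) differentiableAt_id
      (Eventually.of_forall fun _ => mem_univ _) a
  have key := dd_th_lift (mem_univ v) dn b1.differentiableAt dc (hP v hv).1
    (fun h1 => h0 (by rw [he v hv, h1, zero_smul]))
    (mem_of_superset (nz_mem_nhds hv) fun w hw _ => he w hw) (ht a) (ht b)
  rw [← key, b1.fderiv]
  exact dd_th_clm _ h0 _ _

lemma far {x : VV} (hx : x ∈ SS) {k : Fin 3} (hk : x.1.1 k k ≠ 0) {j : ℤ}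
    (hj : 1 / 10 ≤ |x.2 - j|) : 1 / 10000000 ≤ nsq (NA k j x) := by
  by_contra hc
  have := near_wall (colL_ne hk) (SS_base hx).1 (not_le.1 hc)
  linarith

lemma ddS {x : VV} (hx : x ∈ SS) (hj : ∀ j : ℤ, 1 / 10 ≤ |x.2 - j|) {i : Idx} (hi : x ∈ dom i)
    (a b : VV) : dd (lamS i) x a b = 0 := by
  obtain ⟨t, k, j⟩ := i
  have h1 := far hx hi.1 (hj j)
  have h2 : ¬ nsq (NA k j x) < 1 / 200000000 := fun h => by linarith
  have h3 := hi.2.2.2
  obtain rfl : t = 0 := by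
    revert t
    rw [Fin.forall_fin_succ, Fin.forall_fin_succ, Fin.forall_fin_two]
    exact ⟨fun _ _ _ => rfl, fun _ _ h => absurd h.1 h2, fun _ _ h => absurd h.1 h2,
      fun _ _ h => absurd h.1 h2⟩
  have hc : ContinuousAt (fun y => nsq (NA k j y)) x :=
    contDiff_nsq.continuous.continuousAt.comp (contDiffAt_XiA j hi.1).2.continuousAt
  have he : ∀ᶠ y in 𝓝 x, lamS (0, k, j) y = (fun _ => (0 : VV →L[ℝ] ℝ)) y := by
    filter_upwards [hc.eventually (lt_mem_nhds (show 1 / 100000000 < nsq (NA k j x) by linarith))]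
      with y hy
    change cut (nsq (NA k j y)) • pb (NA k j) th y = 0
    rw [cut, stp_zero (by norm_num) hy.le, zero_smul]
  rw [dd_congr he, dd, fderiv_const_apply]
  simp

end DegP

open DegP in
theorem deg_of (h1 : HollineStmt) (h2 : GcompStmt) (h3 : SliceStmt) : DegStmt := by
  intro b₀ ε O M π om h J₀ hG U hU
  have hm : Map2 SS U := ⟨hU.sm, hU.inv, fun v hv => hG.real.sub (hU.mem v hv)⟩
  have hB : ∀ v, v ≠ 0 → ∀ w, BaseRel (U v) (fderiv ℝ U v w) (fderiv ℝ U v (I • w)) := by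
    intro v hv w
    obtain ⟨i, hi⟩ := dom_cover (hm.mem v hv)
    refine h2.2.1 _ (hm.mem v hv) i hi _ (tanU hm hv _) _ (tanU hm hv _) ?_
    rw [hU.cr v hv]
    exact (hG.real.cx i _ (hU.mem v hv) hi _ (tanU hm hv _)).2
  obtain ⟨d, n, n1, n2, n3, n4, n5⟩ := h1 (fun v => (U v).1.1) hU.sm.fst.fst
    (fun c hc v hv => by simp only [hU.inv c hc v hv]) (fun v hv => (SS_base (hm.mem v hv)).2)
    fun v hv => ratio hm hB hv
  have hden : ∀ (β : F2 VV) (z : ℂ), dens β (aff U) z =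
      β (U (z, 1)) (fderiv ℝ U (z, 1) (1, 0)) (fderiv ℝ U (z, 1) (I, 0)) := fun β z => by
    rw [dens, fderiv_aff (dU hm (ne1 z)), fderiv_aff (dU hm (ne1 z)), aff]
  have ha : area h U = d := by
    rw [← n3, area]
    refine integral_congr_ae (Eventually.of_forall fun z => ?_)
    obtain ⟨i, hi⟩ := dom_cover (hm.mem _ (ne1 z))
    beta_reduce
    rw [hden, (hG.real.form i _ (hU.mem _ (ne1 z)) hi _ (tanU hm (ne1 z) _) _
      (tanU hm (ne1 z) _)).2]
    exact ddH hm n1 n2 (ne1 z) hi _ _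
  have hd0 : d = 0 → ∃ P₀, ∀ v, v ≠ 0 → (U v).1.1 = P₀ := fun hd => by
    obtain ⟨n₀, hn⟩ := n4 hd
    exact ⟨prj n₀, fun v hv => by rw [← hn v hv]; exact (n2 v hv).2⟩
  refine ⟨hB, ⟨d, ha, hd0, fun hd => ?_⟩, fun c hN hc hj => ?_⟩
  · obtain ⟨L, hL⟩ := n5 hd
    exact ⟨L, fun v hv => hL v hv ▸ n2 v hv⟩
  have hj' : ∀ v, v ≠ 0 → ∀ j : ℤ, 1 / 10 ≤ |(U v).2 - j| := fun v hv j => hc v hv ▸ hj j
  have hT : ∀ v, v ≠ 0 → ∀ w, (fderiv ℝ U v w).2 = 0 := fun v hv w => by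
    have b1 : HasFDerivAt (fun w => (U w).2) (0 : C2 →L[ℝ] ℝ) v :=
      (hasFDerivAt_const c v).congr_of_eventuallyEq (mem_of_superset (nz_mem_nhds hv) hc)
    exact congrArg (fun L : C2 →L[ℝ] ℝ => L w) ((dU hm hv).hasFDerivAt.snd.unique b1)
  have hom : area om U = area h U := by
    refine integral_congr_ae (Eventually.of_forall fun z => ?_)
    obtain ⟨i, hi⟩ := dom_cover (hm.mem _ (ne1 z))
    have e := hG.real.form i _ (hU.mem _ (ne1 z)) hi _ (tanU hm (ne1 z) (1, 0)) _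
      (tanU hm (ne1 z) (I, 0))
    beta_reduce
    rw [hden, hden, e.1, e.2, dd_atl b₀ ε true hi, dd_lamB b₀ i hi.2.1, hT _ (ne1 z),
      hT _ (ne1 z), ddS (hm.mem _ (ne1 z)) (hj' _ (ne1 z)) hi]
    simp only [mul_zero, zero_mul, sub_zero, add_zero]
    rfl
  rw [hom, ha]
  refine Nat.one_le_cast.2 (Nat.pos_of_ne_zero fun hd => ?_)
  obtain ⟨P₀, hP⟩ := hd0 hd
  obtain ⟨v, hv, w, hw, hne⟩ := hN
  have hband : Band (c - 1) (c + 1) U := by
    intro v hv _ w
    obtain ⟨i, hi⟩ := dom_cover (hm.mem v hv)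
    have e := (hB v hv w i.2.1 i.2.2 hi.1 hi.2.2.1).2.2
    rw [et_apply, et_apply, kap_zero (hj' v hv _)] at e
    rw [dw_apply, dw_apply]
    simpa using e
  have hs := h3.1 _ _ U hm hband w hw (by rw [hc w hw]; constructor <;> linarith) v hv
  obtain ⟨i, hi⟩ := dom_cover (hm.mem w hw)
  have hO : U w ∈ SO := by
    refine (SS_char (hm.mem w hw) hi.1 hi.2.2.1).1.2 fun h0 => ?_
    have := far (hm.mem w hw) hi.1 (hj' w hw i.2.2)
    rw [h0, nsq_eq_zero.2 rfl] at this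
    norm_num at this
  exact hne (SO_ext hO (hm.mem v hv) ((hP v hv).trans (hP w hw).symm) hs.2 hs.1)

end Pool.Agent.MP_9758ca_gt

end

section

/-!
PROJECT BALL, row GPRIM: the local primitives have the same derivative on overlaps in `SO`.
-/

open scoped Topology ContDiff ComplexConjugate
open Set Metric Filter Complex

namespace Pool.Agent.MP_9758ca_gt

namespace GprimP

theorem base_ev {k : Fin 3} {x : VV} (h : x.1.1 k k ≠ 0) : ∀ᶠ y : VV in 𝓝 x, y.1.1 k k ≠ 0 :=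
  (by fun_prop : ContinuousAt (fun y : VV => y.1.1 k k) x).eventually_ne h

theorem ddiv {f g : VV → ℂ} {x : VV} (hf : DifferentiableAt ℝ f x) (hg : DifferentiableAt ℝ g x)
    (h : g x ≠ 0) : DifferentiableAt ℝ (fun y => f y / g y) x := by
  simp only [div_eq_mul_inv]
  exact hf.mul (hg.inv h)

theorem col_eq {y : VV} {n : C3} (h : y.1.1 = prj n) (k : Fin 3) :
    colL k y = (conj (n k) / (nsq n : ℂ)) • n := by
  rw [← prj_col, ← h]
  rfl

/-! ### the Fubini-Study part -/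

theorem primH {x : VV} (hx : x ∈ SS) {k k' : Fin 3} (hk : x.1.1 k k ≠ 0) (hk' : x.1.1 k' k' ≠ 0)
    {a b : VV} (ha : a ∈ tan SS x) (hb : b ∈ tan SS x) :
    dd th (colL k' x) (colL k' a) (colL k' b) = dd th (colL k x) (colL k a) (colL k b) := by
  have hc : DifferentiableAt ℝ (fun y : VV => y.1.1 k k' / y.1.1 k k) x :=
    ddiv (by fun_prop) (by fun_prop) hk
  have h0 : x.1.1 k k' / x.1.1 k k ≠ 0 := by
    refine div_ne_zero ?_ hk
    obtain ⟨-, n, hn, e⟩ := SS_base hx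
    rw [e] at hk hk' ⊢
    have h1 : (nsq n : ℂ) ≠ 0 := by exact_mod_cast (nsq_pos hn).ne'
    exact div_ne_zero (mul_ne_zero (prj_diag_ne.1 hk) ((map_ne_zero _).2 (prj_diag_ne.1 hk'))) h1
  have := dd_th_lift (S := SS) hx (g := colL k) (g' := colL k') (colL k).differentiableAt
    (colL k').differentiableAt hc (colL_ne hk) h0 (by
      filter_upwards [base_ev hk] with y hy hS
      obtain ⟨-, n, hn, e⟩ := SS_base hS
      rw [col_eq e, col_eq e, smul_smul]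
      rw [e] at hy ⊢
      have h1 : (nsq n : ℂ) ≠ 0 := by exact_mod_cast (nsq_pos hn).ne'
      have h2 := prj_diag_ne.1 hy
      have h3 : conj (n k) ≠ 0 := (map_ne_zero _).2 h2
      congr 1
      unfold prj
      field_simp) ha hb
  simpa only [ContinuousLinearMap.fderiv] using this

/-! ### walls -/

theorem wall_far {T : ℝ} {j j' : ℤ} (h' : |T - j'| < 3 / 4) (hne : j ≠ j') :
    1 / 4 ≤ |T - j| := by
  have h1 : (1 : ℝ) ≤ |(j : ℝ) - j'| := by
    exact_mod_cast Int.one_le_abs (sub_ne_zero.2 hne)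
  have h2 := abs_sub_le (j : ℝ) T j'
  rw [abs_sub_comm (j : ℝ) T] at h2
  linarith

/-! ### the exceptional part -/

/-- the cut-off connection form on `ℂ⁴` -/
noncomputable def lc : F1 C4 := fun N => cut (nsq N) • th N

theorem lc_diff {N : C4} (h : N ≠ 0) : DifferentiableAt ℝ lc N :=
  (((contDiff_stp _ _).comp contDiff_nsq).contDiffAt.smul (contDiffAt_th h)).differentiableAt
    (by simp)

theorem dd_lc_near {N : C4} (h : nsq N < 1 / 200000000) (A B : C4) :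
    dd lc N A B = dd th N A B := by
  refine dd_congr ?_ A B
  filter_upwards [contDiff_nsq.continuous.continuousAt.eventually (gt_mem_nhds h)] with y hy
  rw [lc, cut, stp_one (by norm_num) hy.le, one_smul]

theorem dd_lc_far {N : C4} (h : 1 / 100000000 < nsq N) (A B : C4) : dd lc N A B = 0 := by
  have : dd lc N A B = dd (fun _ => 0) N A B := by
    refine dd_congr ?_ A B
    filter_upwards [contDiff_nsq.continuous.continuousAt.eventually (lt_mem_nhds h)] with y hy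
    rw [lc, cut, stp_zero (by norm_num) hy.le, zero_smul]
  rw [this]
  simp [dd]

theorem NA_base {y : VV} {n : C3} (hn : n ≠ 0) (e : y.1.1 = prj n) {k : Fin 3}
    (hk : y.1.1 k k ≠ 0) (j : ℤ) : NA k j y = NN j n (aL y) y.2 := by
  have h1 : (nsq n : ℂ) ≠ 0 := by exact_mod_cast (nsq_pos hn).ne'
  rw [NA, col_eq e]
  rw [e] at hk
  exact NN_smul (div_ne_zero ((map_ne_zero _).2 (prj_diag_ne.1 hk)) h1) j n _ _

theorem NA_diff {k : Fin 3} (j : ℤ) {x : VV} (h : x.1.1 k k ≠ 0) :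
    DifferentiableAt ℝ (NA k j) x :=
  (contDiffAt_XiA j h).2.differentiableAt (by simp)

/-- the common value of the derivatives of the primitives -/
noncomputable def sg (k : Fin 3) (j : ℤ) (x a b : VV) : ℝ :=
  dd lc (NA k j x) (fderiv ℝ (NA k j) x a) (fderiv ℝ (NA k j) x b)

theorem sg_chart {x : VV} (hx : x ∈ SS) {k k' : Fin 3} (hk : x.1.1 k k ≠ 0)
    (hk' : x.1.1 k' k' ≠ 0) (j : ℤ) {a b : VV} (ha : a ∈ tan SS x) (hb : b ∈ tan SS x) :
    sg k j x a b = sg k' j x a b := by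
  have he : ∀ᶠ y in 𝓝 x, y ∈ SS → NA k j y = NA k' j y := by
    filter_upwards [base_ev hk, base_ev hk'] with y h1 h2 hS
    obtain ⟨-, n, hn, e⟩ := SS_base hS
    rw [NA_base hn e h1, NA_base hn e h2]
  rw [sg, sg, he.self_of_nhds hx, fderiv_eq_on_tan hx (NA_diff j hk) (NA_diff j hk') he ha,
    fderiv_eq_on_tan hx (NA_diff j hk) (NA_diff j hk') he hb]

theorem sg_far {x : VV} (hx : x ∈ SS) {k : Fin 3} (hk : x.1.1 k k ≠ 0) {j : ℤ}
    (hj : 1 / 4 ≤ |x.2 - j|) (a b : VV) : sg k j x a b = 0 := by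
  obtain ⟨h1, n, hn, e⟩ := SS_base hx
  refine dd_lc_far ?_ _ _
  by_contra hc
  rw [NA_base hn e hk] at hc
  have := near_wall hn h1 ((not_lt.1 hc).trans_lt (by norm_num))
  linarith

theorem prim_zero {x : VV} {k : Fin 3} {j : ℤ} (hk : x.1.1 k k ≠ 0) (h0 : NA k j x ≠ 0)
    (a b : VV) : dd (lamS (0, k, j)) x a b = sg k j x a b := by
  have e : lamS (0, k, j) = pb (NA k j) lc := by
    funext y
    simp only [lamS, pb, lc, Matrix.cons_val_zero, ContinuousLinearMap.smul_comp]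
  rw [e, sg]
  exact dd_pb ((contDiffAt_XiA j hk).2.of_le (by norm_cast)) (lc_diff h0) a b

theorem prim_col {x : VV} (hx : x ∈ SS) {k : Fin 3} {j : ℤ} (hk : x.1.1 k k ≠ 0)
    (hj : |x.2 - j| < 3 / 4) (h0 : NA k j x ≠ 0) (hs : nsq (NA k j x) < 1 / 200000000) {m : Fin 4}
    (hm : x.1.2.2 m m ≠ 0) {a b : VV} (ha : a ∈ tan SS x) (hb : b ∈ tan SS x) :
    dd (fun y => (th (colR m y)).comp (colR m)) x a b = sg k j x a b := by
  have hd := NA_diff j hk
  have he : ∀ᶠ y in 𝓝 x, y ∈ SS → y.1.2.2 = prj (NA k j y) := by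
    have h1 : ContinuousAt (fun y : VV => |y.2 - j|) x := by fun_prop
    filter_upwards [base_ev hk, h1.eventually (gt_mem_nhds hj), hd.continuousAt.eventually_ne h0,
      (contDiff_nsq.continuous.continuousAt.comp hd.continuousAt).eventually (gt_mem_nhds hs)]
      with y h2 h3 h4 h5 hS
    rw [(SS_char hS h2 h3).2.2.1 h4, cut, stp_one (t := nsq (NA k j y)) (by norm_num) (le_of_lt h5),
      one_smul]
  have h1 : (nsq (NA k j x) : ℂ) ≠ 0 := by exact_mod_cast (nsq_pos h0).ne'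
  have hc : DifferentiableAt ℝ (fun y => conj (NA k j y m) / (nsq (NA k j y) : ℂ)) x := by
    exact ddiv (conjCLE.differentiableAt.comp x (differentiableAt_pi.1 hd m))
      (ofRealCLM.differentiableAt.comp x
        ((contDiff_nsq.differentiable (by simp)).differentiableAt.comp x hd)) h1
  have h2 : NA k j x m ≠ 0 := by
    rw [he.self_of_nhds hx] at hm
    exact prj_diag_ne.1 hm
  have h3 : colR m x ≠ 0 := fun h => hm (congrFun h m)
  have key := dd_th_lift (S := SS) hx (g := NA k j) (g' := colR m) hd (colR m).differentiableAt hc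
    h0 (div_ne_zero ((map_ne_zero _).2 h2) h1) (by
      filter_upwards [he] with y h4 hS
      rw [← prj_col, ← h4 hS]
      rfl) ha hb
  rw [dd_th_clm (colR m) h3, sg, dd_lc_near hs, ← key, ContinuousLinearMap.fderiv]

theorem primS {x : VV} (hx : x ∈ SO) (i : Idx) (hi : x ∈ dom i) {a b : VV} (ha : a ∈ tan SS x)
    (hb : b ∈ tan SS x) : dd (lamS i) x a b = sg i.2.1 i.2.2 x a b := by
  obtain ⟨t, k, j⟩ := i
  obtain ⟨hk, -, hj, h⟩ := hi
  have hS : x ∈ SS := Or.inl hx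
  have h0 : NA k j x ≠ 0 := (SS_char hS hk hj).1.1 hx
  fin_cases t
  · exact prim_zero hk h0 a b
  · exact prim_col hS hk hj h0 h.1 h.2 ha hb
  · exact prim_col hS hk hj h0 h.1 h.2.1 ha hb
  · exact prim_col hS hk hj h0 h.1 h.2.1 ha hb

end GprimP

open GprimP in
theorem gprim : GprimStmt := by
  intro x hx i i' hi hi' a ha b hb
  have hS : x ∈ SS := Or.inl hx
  refine ⟨?_, fun b₀ => ?_, ?_⟩
  · exact ((dd_th_clm _ (colL_ne hi.1) a b).trans (primH hS hi'.1 hi.1 ha hb)).trans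
      (dd_th_clm _ (colL_ne hi'.1) a b).symm
  · rw [dd_lamB b₀ i hi.2.1, dd_lamB b₀ i' hi.2.1]
    by_cases h : i.2.2 = i'.2.2
    · rw [h]
    · rw [bb_four (le_trans (by norm_num) (wall_far hi'.2.2.1 h)),
        bb_four (le_trans (by norm_num) (wall_far hi.2.2.1 (Ne.symm h)))]
  · rw [primS hx i hi ha hb, primS hx i' hi' ha hb]
    by_cases h : i.2.2 = i'.2.2
    · rw [h]
      exact sg_chart hS hi.1 hi'.1 _ ha hb
    · rw [sg_far hS hi.1 (wall_far hi'.2.2.1 h),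
        sg_far hS hi'.1 (wall_far hi.2.2.1 (Ne.symm h))]

end Pool.Agent.MP_9758ca_gt

end

section

/-!
PROJECT BALL, module SLICE: spheres that enter a band have constant height.
-/

open scoped Topology ContDiff
open Set Metric Filter Complex

namespace Pool.Agent.MP_9758ca_gt

namespace SliceP

/-- A continuous function on the plane that is holomorphic over a vertical strip and whose real
part has a limit at infinity is constant as soon as it meets the strip. -/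
theorem const_of_strip {f : ℂ → ℂ} (hf : Continuous f) {a b t : ℝ}
    (hd : ∀ z, (f z).re ∈ Ioo a b → DifferentiableAt ℂ f z)
    (ht : Tendsto (fun z => (f z).re) (cocompact ℂ) (𝓝 t)) {z₀ : ℂ} (h0 : (f z₀).re ∈ Ioo a b)
    (z : ℂ) : f z = f z₀ := by
  have hre : Continuous fun z => (f z).re := continuous_re.comp hf
  have hΩ : IsOpen {z | (f z).re ∈ Ioo a b} := isOpen_Ioo.preimage hre
  have han : AnalyticOnNhd ℂ f {z | (f z).re ∈ Ioo a b} :=
    DifferentiableOn.analyticOnNhd (fun z hz => (hd z hz).differentiableWithinAt) hΩ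
  have hL : IsOpen {z | ∀ᶠ w in 𝓝 z, f w = f z} := isOpen_iff_mem_nhds.2 fun z hz => by
    filter_upwards [hz.eventually_nhds, hz] with w h1 h2
    show ∀ᶠ x in 𝓝 w, f x = f w
    rw [h2]
    exact h1
  have hN : ∀ z, (f z).re ∈ Ioo a b → (¬ ∀ᶠ w in 𝓝 z, f w = f z) →
      f '' {w | (f w).re ∈ Ioo a b ∧ ¬ ∀ᶠ x in 𝓝 w, f x = f w} ∈ 𝓝 (f z) := by
    intro z hz hn
    refine ((han z hz).eventually_constant_or_nhds_le_map_nhds.resolve_left hn) (image_mem_map ?_)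
    obtain ⟨r, hr, hb⟩ := Metric.isOpen_iff.1 hΩ z hz
    filter_upwards [ball_mem_nhds z hr] with w hw
    refine ⟨hb hw, fun hc => hn ?_⟩
    have h1 := (han.mono hb).eqOn_of_preconnected_of_eventuallyEq (g := fun _ => f w)
      analyticOnNhd_const (convex_ball z r).isPreconnected hw hc
    filter_upwards [ball_mem_nhds z hr] with x hx
    rw [h1 hx, h1 (mem_ball_self hr)]
  have hline : ∀ p q : ℂ, ∀ s ∈ 𝓝 p, ∃ ε : ℝ, 0 < ε ∧ p + ε * q ∈ s := by
    intro p q s hs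
    have h1 : Tendsto (fun ε : ℝ => p + ε * q) (𝓝[>] 0) (𝓝 (p + (0 : ℝ) * q)) :=
      (Continuous.tendsto (by fun_prop) 0).mono_left nhdsWithin_le_nhds
    rw [ofReal_zero, zero_mul, add_zero] at h1
    exact ((eventually_mem_nhdsWithin (a := (0 : ℝ)) (s := Ioi 0)).and (h1.eventually hs)).exists
  have key : ∀ z, (f z).re ∈ Ioo a b → ∀ᶠ w in 𝓝 z, f w = f z := by
    intro z₁ hz₁
    by_contra hn
    obtain ⟨z₂, h1, h2, h3⟩ : ∃ z, (f z).re ∈ Ioo a b ∧ (¬ ∀ᶠ w in 𝓝 z, f w = f z) ∧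
        (f z).re ≠ t := by
      by_cases e : (f z₁).re = t
      · obtain ⟨ε, hε, z, hz, h4⟩ := hline _ 1 _ (hN z₁ hz₁ hn)
        refine ⟨z, hz.1, hz.2, ?_⟩
        rw [h4, mul_one, add_re, ofReal_re, e]
        exact (lt_add_of_pos_right t hε).ne'
      · exact ⟨z₁, hz₁, hn, e⟩
    obtain ⟨K, hK, hK'⟩ := mem_cocompact.1 (ht.eventually_ne h3.symm)
    have hc : IsCompact ({z | (f z).re = (f z₂).re} ∩ {z | ∀ᶠ w in 𝓝 z, f w = f z}ᶜ) :=
      hK.of_isClosed_subset ((isClosed_eq hre continuous_const).inter hL.isClosed_compl)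
        fun z hz => by_contra fun k => hK' k hz.1
    obtain ⟨z₃, hz₃, hm⟩ := hc.exists_isMaxOn ⟨z₂, rfl, h2⟩
      (continuous_im.comp hf).continuousOn
    have e3 : (f z₃).re = (f z₂).re := hz₃.1
    obtain ⟨ε, hε, z, hz, h4⟩ := hline _ I _ (hN z₃ (e3 ▸ h1) hz₃.2)
    have h5 : (f z).im ≤ (f z₃).im := hm ⟨by
      show (f z).re = _
      rw [h4, ← e3]
      simp, hz.2⟩
    rw [h4] at h5
    simp only [add_im, mul_im, ofReal_re, I_im, mul_one, ofReal_im, I_re, mul_zero,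
      add_zero] at h5
    linarith
  have hS : IsClopen {z | f z = f z₀} := ⟨isClosed_eq hf continuous_const,
    isOpen_iff_mem_nhds.2 fun z hz => by
      have e : f z = f z₀ := hz
      filter_upwards [key z (e ▸ h0)] with w hw
      exact hw.trans e⟩
  exact (hS.eq_univ ⟨z₀, rfl⟩).ge (mem_univ z)

/-- a continuous logarithm of a holomorphic function is holomorphic -/
theorem diff_log {f g : ℂ → ℂ} (hf : Continuous f) (he : ∀ z, exp (f z) = g z) {z : ℂ}
    (hg : DifferentiableAt ℂ g z) : DifferentiableAt ℂ f z := by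
  have h0 : g z ≠ 0 := he z ▸ exp_ne_zero _
  have h1 : DifferentiableAt ℂ (fun w => f z + log (g w / g z)) z :=
    ((hg.div_const _).clog (by rw [div_self h0]; exact one_mem_slitPlane)).const_add _
  refine h1.congr_of_eventuallyEq ?_
  have h2 : Continuous fun w => (f w - f z).im := by fun_prop
  have h3 : ∀ᶠ w in 𝓝 z, (f w - f z).im ∈ Ioo (-Real.pi) Real.pi :=
    h2.continuousAt.eventually (isOpen_Ioo.mem_nhds (by simp [Real.pi_pos]))
  filter_upwards [h3] with w hw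
  rw [← he, ← he, ← exp_sub, log_exp hw.1 hw.2.le, add_sub_cancel]

theorem aff_lim {X : Type} [TopologicalSpace X] {U : C2 → X} (h : Inv U)
    (hc : ContinuousOn U nz) : Tendsto (aff U) (cocompact ℂ) (𝓝 (U (1, 0))) := by
  have h1 : ((1, 0) : C2) ≠ 0 := by simp
  have h2 : Tendsto (fun z : ℂ => ((1, z⁻¹) : C2)) (cocompact ℂ) (𝓝 (1, 0)) := by
    refine tendsto_const_nhds.prodMk_nhds ?_
    rw [← cobounded_eq_cocompact]
    exact tendsto_inv₀_cobounded
  refine ((hc.continuousAt (nz_mem_nhds h1)).tendsto.comp h2).congr' ?_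
  filter_upwards [isCompact_singleton.compl_mem_cocompact (s := {(0 : ℂ)})] with z hz
  have hz' : z ≠ 0 := hz
  have := h z hz' (1, z⁻¹) (by simp)
  simp only [Prod.smul_mk, smul_eq_mul, mul_one, mul_inv_cancel₀ hz'] at this
  exact this.symm

/-- the function `exp (2 π i w)` -/
noncomputable def ew (x : VV) : ℂ := aL x * exp (-(2 * Real.pi) * tL x)

theorem ew_deriv {x : VV} (hx : x ∈ SS) : DifferentiableAt ℝ ew x ∧
    ∀ v ∈ tan SS x, fderiv ℝ ew x v = 2 * Real.pi * I * dw x v * ew x := by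
  have h1 : HasFDerivAt (fun y : VV => -(2 * Real.pi) * ((tL y : ℝ) : ℂ))
      ((-(2 * Real.pi) : ℂ) • ofRealCLM.comp tL) x := (ofRealCLM.comp tL).hasFDerivAt.const_mul _
  have h2 : HasFDerivAt ew _ x := aL.hasFDerivAt.mul h1.cexp
  refine ⟨h2.differentiableAt, fun v hv => ?_⟩
  rw [h2.fderiv]
  simp only [_root_.add_apply, _root_.smul_apply, ContinuousLinearMap.comp_apply, smul_eq_mul,
    ofRealCLM_apply]
  rw [aL_tan hx hv, dw_apply, ew, tL_apply v]
  linear_combination (-2 * Real.pi * aL x * v.2 * exp (-(2 * Real.pi) * tL x)) * I_mul_I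

theorem norm_ew {x : VV} (hx : x ∈ SS) : ‖ew x‖ = Real.exp (-(2 * Real.pi) * x.2) := by
  rw [ew, norm_mul, (SS_base hx).1, one_mul, norm_exp, tL_apply]
  simp

theorem one {c₁ c₂ : ℝ} {U : C2 → VV} (hU : Map2 SS U) (hB : Band c₁ c₂ U) {v₀ : C2}
    (h0 : v₀ ≠ 0) (hb : (U v₀).2 ∈ Ioo c₁ c₂) (v : C2) (hv : v ≠ 0) :
    (U v).2 = (U v₀).2 ∧ aL (U v) = aL (U v₀) := by
  have hne : ∀ z : ℂ, ((z, 1) : C2) ≠ 0 := fun z => by simp
  have hdU : ∀ z : ℂ, DifferentiableAt ℝ U (z, 1) := fun z =>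
    (hU.sm.contDiffAt (nz_mem_nhds (hne z))).differentiableAt two_ne_zero
  have hdu : ∀ z, DifferentiableAt ℝ (aff U) z := fun z =>
    (hdU z).comp z (differentiableAt_id.prodMk (differentiableAt_const _))
  have hm : ∀ z, aff U z ∈ SS := fun z => hU.mem _ (hne z)
  have hg : ∀ z, DifferentiableAt ℝ (ew ∘ aff U) z := fun z =>
    (ew_deriv (hm z)).1.comp z (hdu z)
  have hsc : IsSimplyConnected (univ : Set ℂ) := by
    have := convex_univ.contractibleSpace (univ_nonempty (α := ℂ))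
    exact SimplyConnectedSpace.ofContractible _
  obtain ⟨f, hf, he⟩ := exists_continuousOn_eqOn_exp_comp hsc isOpen_univ
    (g := ew ∘ aff U) (fun z _ => (hg z).continuousAt.continuousWithinAt) (by
      rintro ⟨z, -, hz⟩
      have := norm_ew (hm z)
      rw [show ew (aff U z) = 0 from hz, norm_zero] at this
      exact (Real.exp_pos _).ne this)
  rw [continuousOn_univ] at hf
  have he' : ∀ z, exp (f z) = (ew ∘ aff U) z := fun z => he (mem_univ z)
  have hre : ∀ z, (f z).re = -(2 * Real.pi) * (aff U z).2 := fun z => by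
    have := norm_ew (hm z)
    rw [← Function.comp_apply (f := ew), ← he', norm_exp] at this
    exact Real.exp_injective this
  have hp : 0 < 2 * Real.pi := by positivity
  have hI : ∀ z, (f z).re ∈ Ioo (-(2 * Real.pi) * c₂) (-(2 * Real.pi) * c₁) ↔
      (aff U z).2 ∈ Ioo c₁ c₂ := fun z => by
    rw [hre, mem_Ioo, mem_Ioo, neg_mul, neg_mul, neg_mul, neg_lt_neg_iff, neg_lt_neg_iff,
      mul_lt_mul_iff_right₀ hp, mul_lt_mul_iff_right₀ hp, and_comm]
  have hlim := aff_lim hU.inv hU.sm.continuousOn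
  have hlT : Tendsto (fun z => (aff U z).2) (cocompact ℂ) (𝓝 (U (1, 0)).2) :=
    (continuous_snd.tendsto _).comp hlim
  have him : ∀ w, w ≠ 0 → U w = U (1, 0) ∨ ∃ z, aff U z = U w := fun w hw =>
    hU.inv.im_eq.2.le ⟨w, hw, rfl⟩
  obtain ⟨z₀, hz₀⟩ : ∃ z, (aff U z).2 ∈ Ioo c₁ c₂ := by
    rcases him v₀ h0 with e | ⟨z, e⟩
    · exact (hlT.eventually (isOpen_Ioo.mem_nhds (e ▸ hb))).exists
    · exact ⟨z, e ▸ hb⟩
  have hc := const_of_strip hf (t := -(2 * Real.pi) * (U (1, 0)).2) (fun z hz => by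
    refine diff_log hf he' (differentiableAt_of_dbar (hg z) ?_)
    have ht : ∀ a, fderiv ℝ (aff U) z a ∈ tan SS (aff U z) :=
      fderiv_mem_tan (hdu z) (Eventually.of_forall hm)
    have h1 := hB (z, 1) (hne z) ((hI z).1 hz) (1, 0)
    rw [show I • ((1, 0) : C2) = (I, 0) by simp, ← fderiv_aff (hdU z), ← fderiv_aff (hdU z)] at h1
    rw [dbar, fderiv_comp z (ew_deriv (hm z)).1 (hdu z), ContinuousLinearMap.comp_apply,
      ContinuousLinearMap.comp_apply, (ew_deriv (hm z)).2 _ (ht _), (ew_deriv (hm z)).2 _ (ht _),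
      show dw (aff U z) (fderiv ℝ (aff U) z I) = _ from h1]
    simp only [smul_eq_mul]
    show _ * (_ + I * (_ * (I * dw (aff U z) _) * _)) = 0
    linear_combination (Real.pi * I * dw (aff U z) (fderiv ℝ (aff U) z 1) * ew (aff U z)) * I_mul_I)
    (by simpa only [hre] using hlT.const_mul _) ((hI z₀).2 hz₀)
  have hT : ∀ z, (aff U z).2 = (aff U z₀).2 := fun z =>
    mul_left_cancel₀ (neg_ne_zero.2 hp.ne') (by rw [← hre, ← hre, hc z])
  have hA : ∀ z, aL (aff U z) = aL (aff U z₀) := fun z => by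
    have h1 : ew (aff U z) = ew (aff U z₀) := by
      rw [← Function.comp_apply (f := ew), ← he', hc z, he', Function.comp_apply]
    rw [ew, ew, tL_apply, tL_apply, hT z] at h1
    exact mul_right_cancel₀ (exp_ne_zero _) h1
  have hall : ∀ w, w ≠ 0 → (U w).2 = (aff U z₀).2 ∧ aL (U w) = aL (aff U z₀) := by
    intro w hw
    rcases him w hw with e | ⟨z, e⟩
    · rw [e]
      exact ⟨tendsto_nhds_unique hlT (tendsto_const_nhds.congr fun z => (hT z).symm),
        tendsto_nhds_unique ((aL.continuous.tendsto _).comp hlim)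
          (tendsto_const_nhds.congr fun z => (hA z).symm)⟩
    · rw [← e]
      exact ⟨hT z, hA z⟩
  exact ⟨(hall v hv).1.trans (hall v₀ h0).1.symm, (hall v hv).2.trans (hall v₀ h0).2.symm⟩

theorem two {c₁ c₂ : ℝ} {k : ℕ} {U : Fin k → C2 → VV}
    (hU : ∀ i, Map2 SS (U i) ∧ Band c₁ c₂ (U i)) (hc : IsConnected (⋃ i, im (U i))) {x y : VV}
    (hx : x ∈ ⋃ i, im (U i)) (hy : y ∈ ⋃ i, im (U i)) : ¬ max c₁ x.2 < min c₂ y.2 := by
  intro hlt
  refine Ioo_infinite hlt ((finite_range fun i => (U i (1, 0)).2).subset fun t ht => ?_)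
  have h1 := (hc.isPreconnected.image Prod.snd continuous_snd.continuousOn).Icc_subset
    (mem_image_of_mem _ hx) (mem_image_of_mem _ hy)
  rw [mem_Ioo, max_lt_iff, lt_min_iff] at ht
  obtain ⟨p, hp, rfl⟩ := h1 ⟨ht.1.2.le, ht.2.2.le⟩
  obtain ⟨i, v, hv, rfl⟩ := mem_iUnion.1 hp
  exact ⟨i, (one (hU i).1 (hU i).2 hv ⟨ht.1.1, ht.2.1⟩ (1, 0) (by simp)).1⟩

end SliceP

theorem slice : SliceStmt :=
  ⟨fun _ _ _ hU hB _ h0 hb => SliceP.one hU hB h0 hb, fun _ _ _ _ h hU hc _ hx _ hy =>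
    ⟨fun h1 => not_lt.1 fun h2 => SliceP.two hU hc hx hy (by
        rw [max_eq_left h1]
        exact lt_min h h2),
      fun h1 => not_lt.1 fun h2 => SliceP.two hU hc hy hx (by
        rw [min_eq_left h1]
        exact max_lt h h2)⟩⟩

end Pool.Agent.MP_9758ca_gt

end

section

/-!
PROJECT BALL: the charts of type 0 (GO).
-/

open scoped Topology ContDiff ComplexConjugate
open Set Metric Filter Complex

namespace Pool.Agent.MP_9758ca_gt

namespace GoP

noncomputable section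

/-- the affine chart -/
def nk (k : Fin 3) (x y : ℂ) : C3 :=
  Pi.single k 1 + x • Pi.single (k.succAbove 0) 1 + y • Pi.single (k.succAbove 1) 1

theorem nk_val (k : Fin 3) (x y : ℂ) :
    nk k x y k = 1 ∧ nk k x y (k.succAbove 0) = x ∧ nk k x y (k.succAbove 1) = y := by
  fin_cases k <;> simp [nk, Fin.succAbove, Fin.lt_def]

theorem nk_ne (k : Fin 3) (x y : ℂ) : nk k x y k ≠ 0 := by rw [(nk_val k x y).1]; exact one_ne_zero

theorem nk_ne' (k : Fin 3) (x y : ℂ) : nk k x y ≠ 0 := fun h => nk_ne k x y (congrFun h k)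

theorem contDiff_nk (k : Fin 3) : ContDiff ℝ ∞ fun q : ℂ × ℂ => nk k q.1 q.2 := by
  unfold nk; fun_prop

theorem P_eq {x : VV} (hx : x ∈ SS) {k : Fin 3} (hk : x.1.1 k k ≠ 0) :
    x.1.1 = prj (nk k (xk k x) (yk k x)) := by
  obtain ⟨n, a, T, R, h1, h2, rfl⟩ := SS_pt hx
  have h : n k ≠ 0 := prj_diag_ne.1 hk
  obtain ⟨-, -, e1, e2, -⟩ := pt_chart h 0 a T R
  have : n = n k • nk k (n (k.succAbove 0) / n k) (n (k.succAbove 1) / n k) := by
    ext i
    refine Fin.succAboveCases k ?_ (fun i => ?_) i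
    · simp [(nk_val k _ _).1]
    · fin_cases i
      · simp only [Fin.zero_eta, Pi.smul_apply, (nk_val k _ _).2.1, smul_eq_mul]; field_simp
      · simp only [Fin.mk_one, Pi.smul_apply, (nk_val k _ _).2.2, smul_eq_mul]; field_simp
  rw [e1, e2, ← prj_smul h, ← this]
  rfl

/-- the point over `(n, a, T)` -/
def pp (j : ℤ) (q : C3 × ℂ × ℝ) : VV := pt q.1 q.2.1 q.2.2 (RR j q.1 q.2.1 q.2.2)

theorem contDiffAt_pp (j : ℤ) {q : C3 × ℂ × ℝ} (h : q.1 ≠ 0) (h' : NN j q.1 q.2.1 q.2.2 ≠ 0) :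
    ContDiffAt ℝ ∞ (pp j) q :=
  ((ContDiffAt.comp (g := prj) q (contDiffAt_prj h) contDiffAt_fst).prodMk
    (contDiffAt_snd.fst.prodMk (contDiffAt_RR j h h'))).prodMk contDiffAt_snd.snd

theorem pp_mem {j : ℤ} {q : C3 × ℂ × ℝ} (h : q.1 ≠ 0) (ha : ‖q.2.1‖ = 1)
    (hT : |q.2.2 - j| < 3 / 4) (h' : NN j q.1 q.2.1 q.2.2 ≠ 0) : pp j q ∈ SS :=
  Or.inl ⟨q.1, q.2.1, q.2.2, h, ha, fun e => h' ((RR_round h ha hT).2.1 e), by
    rw [lift, (RR_round h ha hT).1]; rfl⟩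

theorem eq_pp {k : Fin 3} {j : ℤ} {x : VV} (hx : x ∈ SS) (hd : x ∈ dom (0, k, j)) :
    x = pp j (colL k x, aL x, x.2) :=
  Prod.ext (Prod.ext (SS_col hx hd.1) (Prod.ext rfl ((SS_char hx hd.1 hd.2.2.1).2.2.1 hd.2.2.2)))
    rfl

/-- the normalised base point -/
def bs (k : Fin 3) (x : VV) : C3 × ℂ × ℝ := (colL k x, (‖aL x‖⁻¹ : ℝ) • aL x, x.2)

theorem contDiffAt_bs (k : Fin 3) {x : VV} (h : aL x ≠ 0) : ContDiffAt ℝ ∞ (bs k) x :=
  (colL k).contDiff.contDiffAt.prodMk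
    ((((aL.contDiff.contDiffAt.norm ℝ h).inv (norm_ne_zero_iff.2 h)).smul
      aL.contDiff.contDiffAt).prodMk contDiffAt_snd)

theorem bs_eq (k : Fin 3) {x : VV} (hx : x ∈ SS) : bs k x = (colL k x, aL x, x.2) := by
  simp [bs, (SS_base hx).1]

theorem retr {k : Fin 3} {j : ℤ} {x : VV} (hx : x ∈ SS) (hd : x ∈ dom (0, k, j)) :
    ∃ (N : Set VV) (ρ : VV → VV), IsOpen N ∧ x ∈ N ∧ ContDiffOn ℝ ∞ ρ N ∧ MapsTo ρ N SS ∧
      ∀ y ∈ SS ∩ N, ρ y = y := by
  refine ⟨dom (0, k, j) ∩ (fun y => NN j (bs k y).1 (bs k y).2.1 (bs k y).2.2) ⁻¹' {0}ᶜ,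
    pp j ∘ bs k, ContinuousOn.isOpen_inter_preimage (fun y hy => ?_) (isOpen_dom _)
      isOpen_compl_singleton, ⟨hd, ?_⟩, fun y hy => ?_, fun y hy => ?_, fun y hy => ?_⟩
  · exact (ContDiffAt.comp (g := fun q : C3 × ℂ × ℝ => NN j q.1 q.2.1 q.2.2) y
      (contDiffAt_NN j (colL_ne hy.1))
      (contDiffAt_bs k hy.2.1)).continuousAt.continuousWithinAt
  · simp only [mem_preimage, bs_eq k hx]
    exact hd.2.2.2
  · exact ((contDiffAt_pp j (colL_ne hy.1.1) hy.2).comp y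
      (contDiffAt_bs k hy.1.2.1)).contDiffWithinAt
  · refine pp_mem (colL_ne hy.1.1) ?_ hy.1.2.2.1 hy.2
    simp only [bs, norm_smul, norm_inv, norm_norm]
    exact inv_mul_cancel₀ (norm_ne_zero_iff.2 hy.1.2.1)
  · rw [Function.comp_apply, bs_eq k hy.1, ← eq_pp hy.1 hy.2.1]

theorem cof0 (k : Fin 3) (j : ℤ) (x v : VV) :
    cof (0, k, j) x v = ![fderiv ℝ (xk k) x v, fderiv ℝ (yk k) x v, et k j x v] := by
  ext i; fin_cases i <;> rfl

theorem inj {k : Fin 3} {j : ℤ} {x : VV} (hx : x ∈ SS) (hd : x ∈ dom (0, k, j)) {v : VV}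
    (hv : v ∈ tan SS x) (h0 : cof (0, k, j) x v = 0) : v = 0 := by
  rw [cof0] at h0
  have h1 : fderiv ℝ (xk k) x v = 0 := congrFun h0 0
  have h2 : fderiv ℝ (yk k) x v = 0 := congrFun h0 1
  have h3 : et k j x v = 0 := congrFun h0 2
  have hn : dom (0, k, j) ∈ 𝓝 x := (isOpen_dom _).mem_nhds hd
  have d1 := ((contDiffAt_xk hd.1).1.differentiableAt (by simp)).hasFDerivAt.prodMk
    ((contDiffAt_xk hd.1).2.1.differentiableAt (by simp)).hasFDerivAt
  have d2 := ((ContDiffAt.comp (g := prj) (xk k x, yk k x) (contDiffAt_prj (nk_ne' k _ _))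
    (contDiff_nk k).contDiffAt).differentiableAt (by simp)).hasFDerivAt.comp x d1
  have d3 : HasFDerivAt (fun y : VV => y.1.1)
      ((ContinuousLinearMap.fst ℝ _ _).comp (ContinuousLinearMap.fst ℝ W0 ℝ)) x :=
    ((ContinuousLinearMap.fst ℝ _ _).comp (ContinuousLinearMap.fst ℝ W0 ℝ)).hasFDerivAt
  have e1 := fderiv_eq_on_tan hx d3.differentiableAt d2.differentiableAt
    (mem_of_superset hn fun y hy hS => P_eq hS hy.1) hv
  rw [d3.fderiv, d2.fderiv] at e1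
  simp only [ContinuousLinearMap.comp_apply, ContinuousLinearMap.prod_apply, h1, h2,
    Prod.mk_zero_zero, map_zero] at e1
  have e2 : colL k v = 0 := funext fun i => congrFun (congrFun e1 i) k
  rw [et_apply, e2, map_zero] at h3
  have e3 : ds x v = 0 := by simpa using congrArg Complex.re h3
  have e4 : v.2 = 0 := by simpa using congrArg Complex.im h3
  have e5 : aL v = 0 := by rw [aL_tan hx hv, e3]; simp
  have d4 := ((contDiffAt_pp j (q := (colL k x, aL x, x.2)) (colL_ne hd.1) hd.2.2.2).differentiableAt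
    (by simp)).hasFDerivAt.comp x ((colL k).prod (aL.prod tL)).hasFDerivAt
  have e6 := fderiv_eq_on_tan hx differentiableAt_id d4.differentiableAt
    (mem_of_superset hn fun y hy hS => eq_pp hS hy) hv
  rw [d4.fderiv, fderiv_id] at e6
  simpa [e2, e5, tL_apply, e4, Prod.mk_zero_zero] using e6

theorem surj {k : Fin 3} {j : ℤ} {x : VV} (hx : x ∈ SS) (hd : x ∈ dom (0, k, j)) (w : C3) :
    ∃ v ∈ tan SS x, cof (0, k, j) x v = w := by
  have ha := (SS_base hx).1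
  let c : ℂ × ℂ × ℝ × ℝ → C3 × ℂ × ℝ := fun q =>
    (nk k (xk k x + q.1) (yk k x + q.2.1), aL x * exp (2 * Real.pi * I * q.2.2.1), x.2 + q.2.2.2)
  have hc : ContDiff ℝ ∞ c :=
    ((contDiff_nk k).comp ((contDiff_const.add contDiff_fst).prodMk
      (contDiff_const.add contDiff_snd.fst))).prodMk ((contDiff_const.mul
      (contDiff_const.mul (ofRealCLM.contDiff.comp contDiff_snd.snd.fst)).cexp).prodMk
      (contDiff_const.add contDiff_snd.snd.snd))
  have c0 : c 0 = (nk k (xk k x) (yk k x), aL x, x.2) := by simp [c]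
  obtain ⟨s, hs, hcol⟩ : ∃ s : ℂ, s ≠ 0 ∧ colL k x = s • nk k (xk k x) (yk k x) := by
    obtain ⟨s, hs, e⟩ := (prj_eq_iff (nk_ne' k (xk k x) (yk k x)) (colL_ne hd.1)).1
      ((P_eq hx hd.1).symm.trans (SS_col hx hd.1))
    exact ⟨s, hs, e⟩
  have hN : NN j (c 0).1 (c 0).2.1 (c 0).2.2 ≠ 0 := by
    rw [c0, ← NN_smul hs, ← hcol]; exact hd.2.2.2
  have hp0 : pp j (c 0) = x := by
    rw [c0]
    conv_rhs => rw [eq_pp hx hd, hcol]
    simp only [pp, pt, RR, prj_smul hs, NN_smul hs]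
  have hd1 : DifferentiableAt ℝ (pp j ∘ c) 0 :=
    ((contDiffAt_pp j (nk_ne' k _ _) hN).comp 0 hc.contDiffAt).differentiableAt (by simp)
  have hm : ∀ᶠ q in 𝓝 0, (pp j ∘ c) q ∈ SS := by
    have a1 := (ContDiffAt.comp (g := fun q : C3 × ℂ × ℝ => NN j q.1 q.2.1 q.2.2) 0
      (contDiffAt_NN j (nk_ne' k _ _)) hc.contDiffAt).continuousAt.eventually_ne hN
    have a2 : ∀ᶠ q in 𝓝 0, |(c q).2.2 - j| < 3 / 4 :=
      ContinuousAt.eventually_lt ((hc.continuous.snd.snd.sub continuous_const).abs.continuousAt)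
        continuousAt_const (by rw [c0]; exact hd.2.2.1)
    filter_upwards [a1, a2] with q b1 b2
    refine pp_mem (nk_ne' k _ _) ?_ b2 b1
    simp only [c, norm_mul, ha, one_mul]
    rw [show (2 * Real.pi * I * q.2.2.1 : ℂ) = ((2 * Real.pi * q.2.2.1 : ℝ) : ℂ) * I by
      push_cast; ring]
    exact norm_exp_ofReal_mul_I _
  have key : ∀ {E : Type} [NormedAddCommGroup E] [NormedSpace ℝ E] {g : VV → E}
      {A : ℂ × ℂ × ℝ × ℝ →L[ℝ] E}, DifferentiableAt ℝ g x → HasFDerivAt (g ∘ pp j ∘ c) A 0 →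
      ∀ q, fderiv ℝ g x (fderiv ℝ (pp j ∘ c) 0 q) = A q := by
    intro E _ _ g A hg hA q
    rw [← hA.fderiv, fderiv_comp 0 (by rw [Function.comp_apply, hp0]; exact hg) hd1,
      Function.comp_apply, hp0]
    rfl
  have k1 := key ((contDiffAt_xk hd.1).1.differentiableAt (by simp))
    (A := ContinuousLinearMap.fst ℝ _ _) (by
      have : xk k ∘ pp j ∘ c = fun q => xk k x + q.1 := funext fun q => by
        simp only [Function.comp_apply, pp, c, (pt_chart (nk_ne k _ _) j _ _ _).2.2.1,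
          (nk_val k _ _).1, (nk_val k _ _).2.1, div_one]
      rw [this]; exact hasFDerivAt_fst.const_add _)
  have k2 := key ((contDiffAt_xk hd.1).2.1.differentiableAt (by simp))
    (A := (ContinuousLinearMap.fst ℝ _ _).comp (ContinuousLinearMap.snd ℝ _ _)) (by
      have : yk k ∘ pp j ∘ c = fun q => yk k x + q.2.1 := funext fun q => by
        simp only [Function.comp_apply, pp, c, (pt_chart (nk_ne k _ _) j _ _ _).2.2.2.1,
          (nk_val k _ _).1, (nk_val k _ _).2.2, div_one]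
      rw [this]; exact (hasFDerivAt_fst.comp _ hasFDerivAt_snd).const_add _)
  have k3 := key tL.differentiableAt (A := (ContinuousLinearMap.snd ℝ _ _).comp
      ((ContinuousLinearMap.snd ℝ _ _).comp (ContinuousLinearMap.snd ℝ _ _)))
    ((hasFDerivAt_snd.comp _ (hasFDerivAt_snd.comp _ hasFDerivAt_snd)).const_add x.2)
  have k4 := key aL.differentiableAt ((((ofRealCLM.comp ((ContinuousLinearMap.fst ℝ ℝ ℝ).comp
    ((ContinuousLinearMap.snd ℝ ℂ _).comp (ContinuousLinearMap.snd ℝ ℂ _)))).hasFDerivAt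
    (x := 0)).const_mul (2 * Real.pi * I)).cexp.const_mul (aL x))
  have d4 : ∀ q : ℂ × ℂ, DifferentiableAt ℝ (fun q : ℂ × ℂ => prj (nk k q.1 q.2)) q := fun q =>
    (ContDiffAt.comp (g := prj) q (contDiffAt_prj (nk_ne' k q.1 q.2))
      (contDiff_nk k).contDiffAt).differentiableAt (by simp)
  have d5 : DifferentiableAt ℝ (fun q : ℂ × ℂ => fun i => prj (nk k q.1 q.2) i k)
      (xk k x + (0 : ℂ × ℂ × ℝ × ℝ).1, yk k x + (0 : ℂ × ℂ × ℝ × ℝ).2.1) :=
    differentiableAt_pi.2 fun i => differentiableAt_pi.1 (differentiableAt_pi.1 (d4 _) i) k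
  have d6 : HasFDerivAt (fun q : ℂ × ℂ × ℝ × ℝ => (xk k x + q.1, yk k x + q.2.1))
      ((ContinuousLinearMap.fst ℝ _ _).prod ((ContinuousLinearMap.fst ℝ _ _).comp
        (ContinuousLinearMap.snd ℝ _ _))) 0 :=
    (hasFDerivAt_fst.const_add _).prodMk ((hasFDerivAt_fst.comp _ hasFDerivAt_snd).const_add _)
  have d7 := d5.hasFDerivAt.comp 0 d6
  have k5 := key (colL k).differentiableAt d7
  simp only [ContinuousLinearMap.fderiv] at k3 k4 k5
  set m := kap (x.2 - j) * al (colL k x) (colL k (fderiv ℝ (pp j ∘ c) 0 (w 0, w 1, 0, 0)))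
    with hm'
  refine ⟨fderiv ℝ (pp j ∘ c) 0 (w 0, w 1, (w 2).re + m, (w 2).im),
    hp0 ▸ fderiv_mem_tan hd1 hm _, ?_⟩
  have e1 : colL k (fderiv ℝ (pp j ∘ c) 0 (w 0, w 1, (w 2).re + m, (w 2).im)) =
      colL k (fderiv ℝ (pp j ∘ c) 0 (w 0, w 1, 0, 0)) := by rw [k5, k5]; rfl
  have e2 : ds x (fderiv ℝ (pp j ∘ c) 0 (w 0, w 1, (w 2).re + m, (w 2).im)) = (w 2).re + m := by
    rw [ds_apply, k4]
    have := Real.pi_pos
    simp [mul_div_cancel_left₀ _ hd.2.1]
  rw [cof0, k1, k2, et_apply, e1, e2, ← tL_apply (fderiv ℝ (pp j ∘ c) 0 _), k3]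
  ext i
  fin_cases i
  · rfl
  · rfl
  · apply Complex.ext <;> simp [hm']

end

end GoP

theorem go : GoStmt := fun _ _ _ hx hd =>
  ⟨GoP.retr hx hd, GoP.surj hx hd, fun _ hv h => GoP.inj hx hd hv h⟩

end Pool.Agent.MP_9758ca_gt

end

end MrgPart0

-- ======== part 1: formerly Pool.Agent.MP_9758ca_gt.QF
section MrgPart1

section

/-!
PROJECT BALL, module EXPL1: the explicit sphere is a smooth holomorphic sphere in the example.
-/

open scoped Topology ContDiff ComplexConjugate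
open Set Metric Filter Complex

namespace Pool.Agent.MP_9758ca_gt

namespace Expl1P

variable {j : ℤ} {xs : ℝ}

theorem nl0 (xs : ℝ) (v : C2) : nl xs v 0 = -(1 + xs + ys) * v.1 + xs * v.2 := rfl
theorem nl1 (xs : ℝ) (v : C2) : nl xs v 1 = ys * v.2 := rfl
theorem nl2 (xs : ℝ) (v : C2) : nl xs v 2 = v.2 := rfl

theorem coef_ne (h : Root xs) : (1 + xs + ys : ℂ) ≠ 0 := by
  have : (1 + xs + ys : ℝ) ≠ 0 := by have := h.1; have := ys_pos; positivity
  exact_mod_cast this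

theorem snd_ne {v : C2} (hv : v ≠ 0) (h1 : v.1 = 0) : v.2 ≠ 0 := fun h2 => hv (Prod.ext h1 h2)

theorem nl_ne (h : Root xs) {v : C2} (hv : v ≠ 0) : nl xs v ≠ 0 := by
  intro h0
  have h2 : v.2 = 0 := by rw [← nl2 xs v, h0]; rfl
  have h1 : nl xs v 0 = 0 := by rw [h0]; rfl
  rw [nl0, h2, mul_zero, add_zero] at h1
  exact hv (Prod.ext ((mul_eq_zero.1 h1).resolve_left (neg_ne_zero.2 (coef_ne h))) h2)

theorem nl_smul (xs : ℝ) (c : ℂ) (v : C2) : nl xs (c • v) = c • nl xs v := by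
  funext i
  fin_cases i
  · show -(1 + xs + ys) * (c * v.1) + xs * (c * v.2) = c * (-(1 + xs + ys) * v.1 + xs * v.2)
    ring
  · show ys * (c * v.2) = c * (ys * v.2)
    ring
  · rfl

/-- the line is a complex linear map -/
theorem exists_L (xs : ℝ) : ∃ L : C2 →L[ℂ] C3, ∀ v, L v = nl xs v := by
  refine ⟨ContinuousLinearMap.pi ![(-(1 + xs + ys) : ℂ) • ContinuousLinearMap.fst ℂ ℂ ℂ +
    (xs : ℂ) • ContinuousLinearMap.snd ℂ ℂ ℂ, (ys : ℂ) • ContinuousLinearMap.snd ℂ ℂ ℂ,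
    ContinuousLinearMap.snd ℂ ℂ ℂ], fun v => ?_⟩
  funext i
  fin_cases i <;> rfl

theorem nl_data (xs : ℝ) : ContDiff ℝ ∞ (nl xs) ∧ (∀ v w, fderiv ℝ (nl xs) v w = nl xs w) ∧
    ∀ i, Differentiable ℂ fun v => nl xs v i := by
  obtain ⟨L, hL⟩ := exists_L xs
  have e : nl xs = L.restrictScalars ℝ := funext fun v => (hL v).symm
  refine ⟨e ▸ (L.restrictScalars ℝ).contDiff, fun v w => ?_, fun i => ?_⟩
  · rw [e, ContinuousLinearMap.fderiv]
  · have e2 : (fun v => nl xs v i) = fun v => L v i := funext fun v => by rw [hL]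
    rw [e2]
    exact (differentiable_pi.1 L.differentiable) i

theorem r1_nl (xs : ℝ) {v : C2} (h : v.2 ≠ 0) : r1 (nl xs v) = 17 / 3200 := by
  have h2 : ‖v.2‖ ≠ 0 := norm_ne_zero_iff.2 h
  rw [r1, nl1, nl2, norm_mul, norm_real, Real.norm_eq_abs, mul_pow, sq_abs, ys_sq]
  field_simp

theorem aa_nl (xs : ℝ) {v : C2} (h : v.2 ≠ 0) (h0 : r0 (nl xs v) ≤ 1 / 4) :
    aa (nl xs v) = -1 := by
  have h1 : chi (r0 (nl xs v)) = 1 := stp_one (by norm_num) h0
  have h2 : rho (r1 (nl xs v)) = 1 / 2 := rho_half.2 (r1_nl xs h)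
  have h3 : (2 * Real.pi * I * ((1 / 2 : ℝ) : ℂ) : ℂ) = Real.pi * I := by push_cast; ring
  rw [aa, h1, h2, h3, exp_pi_mul_I]
  push_cast; ring

theorem Xi_nl {n : C3} (h : aa n = -1) (j : ℤ) : Xi j n (-1) j = 0 := by
  simp [Xi, h]

theorem cub_nl (xs : ℝ) {v : C2} (h : v.2 ≠ 0) :
    cub (nl xs v) = v.2 ^ 3 * cuf (nl xs v 0 / v.2) ys := by
  have h1 := cub_chart (n := nl xs v) (k := 2) h
  have e : nl xs v 1 / v.2 = ys := by rw [nl1]; field_simp
  rw [h1, ← e]; rfl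

theorem ratio0 (xs : ℝ) {v : C2} (h1 : v.1 = 0) (h : v.2 ≠ 0) : nl xs v 0 / v.2 = xs := by
  rw [nl0, h1]; field_simp; ring

theorem r0_eq (n : C3) : r0 n = ‖n 0 / n 2‖ ^ 2 := by rw [r0, norm_div, div_pow]

theorem r0_lt (h : Root xs) {v : C2} (h1 : v.1 = 0) (h2 : v.2 ≠ 0) : r0 (nl xs v) < 1 / 4 := by
  rw [r0_eq, nl2, ratio0 xs h1 h2, norm_real, Real.norm_eq_abs, sq_abs]
  have := h.1; have := h.2.1; nlinarith

theorem norm_neg_one : ‖(-1 : ℂ)‖ = 1 := by simp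

theorem NN_iff (h : Root xs) (j : ℤ) {v : C2} (hv : v ≠ 0) :
    NN j (nl xs v) (-1) j = 0 ↔ v.1 = 0 := by
  have hn := nl_ne h hv
  constructor
  · intro h0
    have ha : aa (nl xs v) ≠ 1 := by
      rw [← (wall_of_NN hn norm_neg_one h0).2]; norm_num
    have hs : nsq (NN j (nl xs v) (-1) j) < 1 / 10000000 := by
      rw [nsq_eq_zero.2 h0]; norm_num
    have hr := ((near_cubic hn hs).2.2 ha).1
    have h2 : v.2 ≠ 0 := (al_supp (Or.inr ha)).1
    have hc := ((NN_eq_zero hn).1 h0).1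
    rw [cub_nl xs h2] at hc
    have hc' := (mul_eq_zero.1 hc).resolve_left (pow_ne_zero _ h2)
    rw [r0_eq, nl2] at hr
    have k1 : ‖nl xs v 0 / v.2‖ ≤ 1 := by nlinarith [norm_nonneg (nl xs v 0 / v.2)]
    have k2 : ‖(xs : ℂ)‖ ≤ 1 := by
      rw [norm_real, Real.norm_eq_abs, abs_of_pos h.1]; linarith [h.2.1]
    have k3 : 1 / 40 ≤ ‖(ys : ℂ)‖ := by
      rw [norm_real, Real.norm_eq_abs, abs_of_pos ys_pos]
      have := ys_pos; have := ys_sq; nlinarith
    have k4 := cuf_uniq k1 k2 k3 (hc'.trans h.2.2.symm)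
    rw [div_eq_iff h2, nl0] at k4
    have k5 : -(1 + xs + ys : ℂ) * v.1 = 0 := by linear_combination k4
    exact (mul_eq_zero.1 k5).resolve_left (neg_ne_zero.2 (coef_ne h))
  · intro h1
    have h2 := snd_ne hv h1
    refine (NN_eq_zero hn).2 ⟨?_, Xi_nl (aa_nl xs h2 (r0_lt h h1 h2).le) j⟩
    rw [cub_nl xs h2, ratio0 xs h1 h2, h.2.2, mul_zero]

theorem contDiffAt_q (xs : ℝ) (j : ℤ) (v : C2) :
    ContDiffAt ℝ ∞ (fun w : C2 => ((nl xs w, -1, j) : C3 × ℂ × ℝ)) v :=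
  (nl_data xs).1.contDiffAt.prodMk contDiffAt_const

theorem near (h : Root xs) (j : ℤ) {v₀ : C2} (hv : v₀ ≠ 0) (h1 : v₀.1 = 0) :
    ∀ᶠ v in 𝓝 v₀, aa (nl xs v) = -1 ∧ Us j xs v ∈ dom (1, 2, j) ∧
      Us j xs v = pt (nl xs v) (-1) j (prj (nu (nl xs v) 1 0)) := by
  have h2 := snd_ne hv h1
  have c2 : ContinuousAt (fun v : C2 => v.2) v₀ := continuousAt_snd
  have c0 : ContinuousAt (fun v : C2 => r0 (nl xs v)) v₀ := by
    simp only [r0_eq, nl2]
    exact ((((nl_data xs).2.2 0).continuous.continuousAt.div c2 h2).norm).pow 2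
  have c1 : ContinuousAt (fun v : C2 => nsq (NN j (nl xs v) (-1) j)) v₀ :=
    contDiff_nsq.continuous.continuousAt.comp
      (ContDiffAt.comp (g := fun q : C3 × ℂ × ℝ => NN j q.1 q.2.1 q.2.2) v₀
        (contDiffAt_NN j (nl_ne h hv)) (contDiffAt_q xs j v₀)).continuousAt
  have e1 : nsq (NN j (nl xs v₀) (-1) j) < 1 / 200000000 := by
    rw [nsq_eq_zero.2 ((NN_iff h j hv).2 h1)]; norm_num
  filter_upwards [c2.eventually_ne h2, c0.eventually_lt continuousAt_const (r0_lt h h1 h2),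
    c1.eventually_lt continuousAt_const e1, nz_mem_nhds hv] with v k2 k0 k1 kv
  have ha := aa_nl xs k2 k0.le
  have hU : Us j xs v = pt (nl xs v) (-1) j (prj (nu (nl xs v) 1 0)) := by
    unfold Us
    split_ifs with hh
    · rfl
    · have hN : NN j (nl xs v) (-1) j ≠ 0 := fun e => hh ((NN_iff h j kv).1 e)
      have e2 : NN j (nl xs v) (-1) j =
          (cub (nl xs v) / (nsq (nl xs v) : ℂ) ^ 3) • nu (nl xs v) 1 0 := by
        rw [smul_nu, mul_one, mul_zero, NN, Xi_nl ha]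
      have e3 : cub (nl xs v) / (nsq (nl xs v) : ℂ) ^ 3 ≠ 0 := fun e => hN (by rw [e2, e, zero_smul])
      have e4 : cut (nsq (NN j (nl xs v) (-1) j)) = 1 := stp_one (by norm_num) k1.le
      rw [RR, e4, one_smul, e2, prj_smul e3]
  refine ⟨ha, ?_, hU⟩
  obtain ⟨m1, -, -, -, -, -, m2⟩ := pt_chart (n := nl xs v) (k := 2) k2 j (-1) j
    (prj (nu (nl xs v) 1 0))
  rw [hU]
  refine ⟨m1, ?_, ?_, ?_, ?_⟩
  · show (-1 : ℂ) ≠ 0
    norm_num
  · show |(j : ℝ) - j| < 3 / 4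
    norm_num
  · show nsq (NA 2 j _) < _
    rw [m2]; exact k1
  · show prj (nu (nl xs v) 1 0) 2 2 ≠ 0
    rw [prj_diag_ne]
    show 1 * conj (v.2) ^ 3 ≠ 0
    simpa using k2

theorem far {v : C2} (h1 : v.1 ≠ 0) :
    Us j xs v = pt (nl xs v) (-1) j (RR j (nl xs v) (-1) j) := by
  unfold Us; rw [if_neg h1]

theorem contDiffAt_pt (h : Root xs) {v : C2} (hv : v ≠ 0) {R : C2 → M4}
    (hR : ContDiffAt ℝ ∞ R v) : ContDiffAt ℝ ∞ (fun w => pt (nl xs w) (-1) j (R w)) v :=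
  (((contDiffAt_prj (nl_ne h hv)).comp v (nl_data xs).1.contDiffAt).prodMk
    (contDiffAt_const.prodMk hR)).prodMk contDiffAt_const

theorem contDiff_nu : ContDiff ℝ ∞ fun n : C3 => nu n 1 0 := by
  have hc : ∀ i : Fin 3, ContDiff ℝ ∞ fun n : C3 => 1 * conj (n i) ^ 3 := fun i =>
    contDiff_const.mul ((conjCLE.contDiff.comp (contDiff_apply ℝ ℂ i)).pow 3)
  refine contDiff_pi.2 fun i => ?_
  fin_cases i
  · exact hc 0
  · exact hc 1
  · exact hc 2
  · exact contDiff_const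

theorem smooth (h : Root xs) (j : ℤ) {v : C2} (hv : v ≠ 0) : ContDiffAt ℝ ∞ (Us j xs) v := by
  by_cases h1 : v.1 = 0
  · have hn : nu (nl xs v) 1 0 ≠ 0 := fun e => one_ne_zero ((nu_eq_zero (nl_ne h hv)).1 e).1
    have hR : ContDiffAt ℝ ∞ (fun w => prj (nu (nl xs w) 1 0)) v :=
      ContDiffAt.comp (g := prj) (f := fun w => nu (nl xs w) 1 0) v (contDiffAt_prj hn)
        (contDiff_nu.comp (nl_data xs).1).contDiffAt
    exact (contDiffAt_pt h hv hR).congr_of_eventuallyEq ((near h j hv h1).mono fun w hw => hw.2.2)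
  · have hR0 := (contDiffAt_RR j (q := (nl xs v, -1, j)) (nl_ne h hv)
      fun e => h1 ((NN_iff h j hv).1 e)).comp v (contDiffAt_q xs j v)
    have hR : ContDiffAt ℝ ∞ (fun w => RR j (nl xs w) (-1) j) v := by
      simpa only [Function.comp_def] using hR0
    refine (contDiffAt_pt (j := j) h hv hR).congr_of_eventuallyEq ?_
    filter_upwards [continuousAt_fst.eventually_ne h1] with w hw using far hw

theorem pt_smul {c : ℂ} (hc : c ≠ 0) (n : C3) (a : ℂ) (T : ℝ) (R : M4) :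
    pt (c • n) a T R = pt n a T R := by
  rw [pt, pt, prj_smul hc]

theorem RR_smul {c : ℂ} (hc : c ≠ 0) (j : ℤ) (n : C3) (a : ℂ) (T : ℝ) :
    RR j (c • n) a T = RR j n a T := by
  rw [RR, RR, NN_smul hc]

theorem inv_Us (j : ℤ) (xs : ℝ) : Inv (Us j xs) := by
  intro c hc v _
  have e : (c • v).1 = 0 ↔ v.1 = 0 := by
    rw [Prod.smul_fst, smul_eq_mul, mul_eq_zero, or_iff_right hc]
  have e2 : prj (nu (c • nl xs v) 1 0) = prj (nu (nl xs v) 1 0) := by
    have hc' : conj c ^ 3 ≠ 0 := pow_ne_zero _ ((map_ne_zero _).2 hc)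
    rw [← prj_smul hc' (nu (nl xs v) 1 0), smul_nu, nu_smul, mul_zero, mul_one, one_mul]
  unfold Us
  rw [nl_smul, pt_smul hc, e2, RR_smul hc]
  by_cases h1 : v.1 = 0
  · rw [if_pos h1, if_pos (e.2 h1)]
  · rw [if_neg h1, if_neg fun k => h1 (e.1 k)]

theorem mem_SS (h : Root xs) (j : ℤ) {v : C2} (hv : v ≠ 0) : Us j xs v ∈ SS := by
  by_cases h1 : v.1 = 0
  · refine Or.inr ⟨nl xs v, -1, j, 1, 0, nl_ne h hv, norm_neg_one, (NN_iff h j hv).2 h1,
      Or.inl one_ne_zero, ?_⟩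
    unfold Us; rw [if_pos h1]
  · refine Or.inl ⟨nl xs v, -1, j, nl_ne h hv, norm_neg_one, ?_, ?_⟩
    · rw [round_intCast]; exact fun e => h1 ((NN_iff h j hv).1 e)
    · rw [far h1, lift, round_intCast]

theorem map2 (h : Root xs) (j : ℤ) {M : Set VV} (hM : ∀ x ∈ SS, x.2 = j → x ∈ M) :
    Map2 M (Us j xs) :=
  ⟨fun _ hv => ((smooth h j hv).of_le (by norm_cast)).contDiffWithinAt, inv_Us j xs,
    fun _ hv => hM _ (mem_SS h j hv) rfl⟩

theorem mark0 (h : Root xs) (j : ℤ) : Us j xs (mk3 0) ∈ ZZ j := by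
  have e : nl xs (mk3 0) = ![(xs : ℂ), (ys : ℂ), 1] := by
    funext i
    fin_cases i
    · show -(1 + xs + ys : ℂ) * 0 + xs * 1 = xs
      ring
    · exact mul_one _
    · rfl
  have h1 : (mk3 0).1 = 0 := rfl
  refine ⟨xs, ys, -1, 1, 0, h.1.le, ys_pos.le, norm_neg_one, ?_, Or.inl one_ne_zero, ?_⟩
  · rw [← e]; exact (NN_iff h j (mk3_ne 0)).2 h1
  · unfold Us; rw [if_pos h1, e]

theorem mark1 (h : Root xs) (j : ℤ) : Us j xs (mk3 1) ∈ DD := by
  unfold Us
  rw [mem_DD (nl_ne h (mk3_ne 1))]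
  show -(1 + xs + ys : ℂ) * 1 + xs * 1 + ys * 1 + 1 = 0
  ring

theorem mark2 (h : Root xs) (j : ℤ) : Us j xs (mk3 2) = vert j := by
  have e : nl xs (mk3 2) = (-(1 + xs + ys : ℂ)) • ![1, 0, 0] := by
    funext i
    fin_cases i
    · show -(1 + xs + ys : ℂ) * 1 + xs * 0 = -(1 + xs + ys : ℂ) * 1
      ring
    · show (ys : ℂ) * 0 = -(1 + xs + ys : ℂ) * 0
      ring
    · show (0 : ℂ) = -(1 + xs + ys : ℂ) * 0
      ring
  have h1 : (mk3 2).1 ≠ 0 := one_ne_zero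
  have hc := neg_ne_zero.2 (coef_ne h)
  rw [far h1, e, pt_smul hc, RR_smul hc, (NN_vert j (-1) j).2, vert]

/-- a function that is holomorphic along `U` has a complex linear derivative along `U` -/
theorem cx_lin {U : C2 → VV} {v : C2} (hU : DifferentiableAt ℝ U v) {f : VV → ℂ}
    (hf : DifferentiableAt ℝ f (U v)) {g : C2 → ℂ} (hg : DifferentiableAt ℂ g v)
    (he : ∀ᶠ w in 𝓝 v, f (U w) = g w) (w : C2) :
    fderiv ℝ f (U v) (fderiv ℝ U v (I • w)) = I * fderiv ℝ f (U v) (fderiv ℝ U v w) := by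
  have h1 : fderiv ℝ (f ∘ U) v = fderiv ℝ g v := EventuallyEq.fderiv_eq he
  rw [fderiv_comp v hf hU, hg.fderiv_restrictScalars ℝ] at h1
  have h2 : ∀ u, fderiv ℝ f (U v) (fderiv ℝ U v u) = fderiv ℂ g v u := fun u =>
    congrArg (fun L : C2 →L[ℝ] ℂ => L u) h1
  rw [h2, h2, map_smul, smul_eq_mul]

theorem Us_eq (j : ℤ) (xs : ℝ) (v : C2) : ∃ R, Us j xs v = pt (nl xs v) (-1) j R := ⟨_, rfl⟩

theorem base_lin (h : Root xs) (j : ℤ) {v : C2} (hv : v ≠ 0) {k : Fin 3} (hk : nl xs v k ≠ 0)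
    (w : C2) :
    fderiv ℝ (xk k) (Us j xs v) (fderiv ℝ (Us j xs) v (I • w)) =
      I * fderiv ℝ (xk k) (Us j xs v) (fderiv ℝ (Us j xs) v w) ∧
    fderiv ℝ (yk k) (Us j xs v) (fderiv ℝ (Us j xs) v (I • w)) =
      I * fderiv ℝ (yk k) (Us j xs v) (fderiv ℝ (Us j xs) v w) := by
  have hd : DifferentiableAt ℝ (Us j xs) v := (smooth h j hv).differentiableAt (by simp)
  have hx : (Us j xs v).1.1 k k ≠ 0 := prj_diag_ne.2 hk
  have hD := (nl_data xs).2.2
  have hev : ∀ᶠ u in 𝓝 v, nl xs u k ≠ 0 := (hD k).continuous.continuousAt.eventually_ne hk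
  have hq : ∀ i, DifferentiableAt ℂ (fun u => nl xs u i / nl xs u k) v := fun i => by
    simp only [div_eq_mul_inv]
    exact (hD i v).mul ((hD k v).inv hk)
  constructor
  · refine cx_lin hd ((contDiffAt_xk hx).1.differentiableAt (by simp))
      (g := fun u => nl xs u (k.succAbove 0) / nl xs u k) (hq _) ?_ w
    filter_upwards [hev] with u hu using (pt_chart hu j (-1) j _).2.2.1
  · refine cx_lin hd ((contDiffAt_xk hx).2.1.differentiableAt (by simp))
      (g := fun u => nl xs u (k.succAbove 1) / nl xs u k) (hq _) ?_ w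
    filter_upwards [hev] with u hu using (pt_chart hu j (-1) j _).2.2.2.1

theorem al_nl (xs : ℝ) (v w : C2) : al (nl xs v) (nl xs w) = 0 := by
  by_cases h2 : nl xs v 2 = 0
  · rw [al_of_zero h2]; rfl
  · have e : nl xs w 1 * nl xs v 2 - nl xs v 1 * nl xs w 2 = 0 := by
      rw [nl1, nl1, nl2, nl2]; ring
    rw [al_apply h2, e]; simp

theorem et_zero (h : Root xs) (j : ℤ) {v : C2} (hv : v ≠ 0) {k : Fin 3} (hk : nl xs v k ≠ 0)
    (w : C2) : et k j (Us j xs v) (fderiv ℝ (Us j xs) v w) = 0 := by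
  have hd : DifferentiableAt ℝ (Us j xs) v := (smooth h j hv).differentiableAt (by simp)
  have hn := nl_ne h hv
  have dn : DifferentiableAt ℝ (nl xs) v := (nl_data xs).1.differentiable (by simp) v
  have e1 : aL (fderiv ℝ (Us j xs) v w) = 0 := by
    have k1 := (aL.hasFDerivAt.comp v hd.hasFDerivAt).unique (hasFDerivAt_const (-1 : ℂ) v)
    exact congrArg (fun L : C2 →L[ℝ] ℂ => L w) k1
  have e2 : (fderiv ℝ (Us j xs) v w).2 = 0 := by
    have k1 := (tL.hasFDerivAt.comp v hd.hasFDerivAt).unique (hasFDerivAt_const (j : ℝ) v)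
    exact congrArg (fun L : C2 →L[ℝ] ℝ => L w) k1
  let s : C2 → ℂ := fun u => conj (nl xs u k) / (nsq (nl xs u) : ℂ)
  have hq : (nsq (nl xs v) : ℂ) ≠ 0 := ofReal_ne_zero.2 (nsq_pos hn).ne'
  have ds' : DifferentiableAt ℝ s v := by
    have a1 : DifferentiableAt ℝ (fun u => conj (nl xs u k)) v :=
      conjCLE.differentiableAt.comp v (differentiableAt_pi.1 dn k)
    have a2 : DifferentiableAt ℝ (fun u => (nsq (nl xs u) : ℂ)) v :=
      ofRealCLM.differentiableAt.comp v ((contDiff_nsq.differentiable (by simp) _).comp v dn)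
    simp only [s, div_eq_mul_inv]
    exact a1.mul (a2.inv hq)
  have hs : s v ≠ 0 := div_ne_zero ((map_ne_zero _).2 hk) hq
  have e3 : ∀ u, colL k (Us j xs u) = s u • nl xs u := fun u => prj_col (nl xs u) k
  have e4 : colL k (fderiv ℝ (Us j xs) v w) = fderiv ℝ s v w • nl xs v + s v • nl xs w := by
    have k0 : (colL k) ∘ (Us j xs) = fun u => s u • nl xs u := funext e3
    have k1 := (colL k).hasFDerivAt.comp v hd.hasFDerivAt
    rw [k0] at k1
    have k2 := congrArg (fun L : C2 →L[ℝ] C3 => L w)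
      (k1.unique (ds'.hasFDerivAt.smul dn.hasFDerivAt))
    simp only [ContinuousLinearMap.comp_apply, add_apply, smul_apply,
      ContinuousLinearMap.smulRight_apply, (nl_data xs).2.1] at k2
    rw [k2, add_comm]
  rw [et_apply, ds_apply, e1, e2, e3, e4, al_scale hn hs, al_nl]
  simp

theorem mem_dom0 (h : Root xs) (j : ℤ) {v : C2} (hv : v ≠ 0) (h1 : v.1 ≠ 0) {k : Fin 3}
    (hk : nl xs v k ≠ 0) : Us j xs v ∈ dom (0, k, j) := by
  obtain ⟨R, hR⟩ := Us_eq j xs v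
  obtain ⟨k1, -, -, -, -, -, k2⟩ := pt_chart hk j (-1) j R
  rw [hR]
  refine ⟨k1, ?_, ?_, ?_⟩
  · show (-1 : ℂ) ≠ 0
    norm_num
  · show |(j : ℝ) - j| < 3 / 4
    norm_num
  · show NA k j _ ≠ 0
    rw [k2]; exact fun e => h1 ((NN_iff h j hv).1 e)

/-- the coframe of a suitable chart is complex linear along the sphere -/
theorem cof_lin (h : Root xs) (j : ℤ) {v : C2} (hv : v ≠ 0) :
    ∃ i, Us j xs v ∈ dom i ∧ ∀ w, cof i (Us j xs v) (fderiv ℝ (Us j xs) v (I • w)) =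
      I • cof i (Us j xs v) (fderiv ℝ (Us j xs) v w) := by
  have hd : DifferentiableAt ℝ (Us j xs) v := (smooth h j hv).differentiableAt (by simp)
  by_cases h1 : v.1 = 0
  · have hn := near h j hv h1
    have hm := hn.self_of_nhds.2.1
    have hk : nl xs v 2 ≠ 0 := snd_ne hv h1
    refine ⟨(1, 2, j), hm, fun w => ?_⟩
    have k3 : fderiv ℝ (mu1 2) (Us j xs v) (fderiv ℝ (Us j xs) v (I • w)) =
        I * fderiv ℝ (mu1 2) (Us j xs v) (fderiv ℝ (Us j xs) v w) := by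
      refine cx_lin hd ((contDiffAt_mu1 hm.2.2.2.2).differentiableAt (by simp))
        (g := fun _ => 0) (differentiableAt_const _) ?_ w
      filter_upwards [hn] with u hu
      rw [hu.2.2]
      have e : prj (nu (nl xs u) 1 0) 3 2 = 0 := by
        show (0 : ℂ) * _ / _ = 0
        rw [zero_mul, zero_div]
      show _ * prj (nu (nl xs u) 1 0) 3 2 / _ = 0
      rw [e, mul_zero, zero_div]
    funext m
    fin_cases m
    · exact (base_lin h j hv hk w).1
    · exact (base_lin h j hv hk w).2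
    · exact k3
  · obtain ⟨k, hk⟩ := Function.ne_iff.1 (nl_ne h hv)
    refine ⟨(0, k, j), mem_dom0 h j hv h1 hk, fun w => ?_⟩
    funext m
    fin_cases m
    · exact (base_lin h j hv hk w).1
    · exact (base_lin h j hv hk w).2
    · show et k j _ _ = I * et k j _ _
      rw [et_zero h j hv hk, et_zero h j hv hk, mul_zero]

end Expl1P

open Expl1P in
theorem expl1_of (h1 : GcompStmt) : Expl1Stmt := by
  intro j xs h
  refine ⟨fun v hv => ⟨nl_ne h hv, NN_iff h j hv⟩, fun v₀ hv h0 => near h j hv h0,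
    fun v hv => smooth h j hv, map2 h j fun x hx _ => hx, mark0 h j, mark1 h j, mark2 h j, ?_⟩
  intro b₀ ε O M π om hh J₀ hG hM
  refine ⟨map2 h j hM, fun v hv w => ?_⟩
  obtain ⟨i, hi, hc⟩ := cof_lin h j hv
  have hd : DifferentiableAt ℝ (Us j xs) v := (smooth h j hv).differentiableAt (by simp)
  have hS := mem_SS h j hv
  have ht : ∀ u, fderiv ℝ (Us j xs) v u ∈ tan SS (Us j xs v) := fun u =>
    fderiv_mem_tan hd (mem_of_superset (nz_mem_nhds hv) fun _ hu => mem_SS h j hu) u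
  obtain ⟨k1, k2⟩ := hG.real.cx i _ (hM _ hS rfl) hi _ (ht w)
  refine sub_eq_zero.1 ((h1.2.2.2.2 b₀ ε true).1.inj i _ hS hi _
    (Submodule.sub_mem _ (ht _) k1) ?_)
  rw [map_sub, k2]
  exact sub_eq_zero.2 (hc w)

end Pool.Agent.MP_9758ca_gt

end

section

/-!
PROJECT BALL, row EXPL3: the explicit sphere is regular.
-/

open scoped Topology ContDiff ComplexConjugate
open Set Metric Filter Complex

namespace Pool.Agent.MP_9758ca_gt

namespace Expl3P

section Abs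
variable {V : Type} [NormedAddCommGroup V] [NormedSpace ℝ V] {U ξ : C2 → V}
  {θ η L : V → V →L[ℝ] ℂ}

/-- differentiable with symmetric derivative -/
def Sym (θ : V → V →L[ℝ] ℂ) (x : V) : Prop :=
  DifferentiableAt ℝ θ x ∧ ∀ a b, fderiv ℝ θ x a b = fderiv ℝ θ x b a

/-- the conclusion of the push-forward statement -/
def Push (η : V → V →L[ℝ] ℂ) (U ξ : C2 → V) (v w : C2) : Prop :=
  fderiv ℝ η (U v) (ξ v) (fderiv ℝ U v w) + η (U v) (fderiv ℝ ξ v w) +
    I * (fderiv ℝ η (U v) (ξ v) (fderiv ℝ U v (I • w)) + η (U v) (fderiv ℝ ξ v (I • w))) = 0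

theorem sym_fderiv {f : V → ℂ} {x : V} (hf : ContDiffAt ℝ ∞ f x) : Sym (fderiv ℝ f) x :=
  ⟨(hf.fderiv_right (m := 1) (WithTop.coe_le_coe.2 (le_top : (2 : ℕ∞) ≤ ⊤))).differentiableAt
    one_ne_zero, (hf.isSymmSndFDerivAt (by
      rw [minSmoothness_of_isRCLikeNormedField]
      exact WithTop.coe_le_coe.2 (le_top : (2 : ℕ∞) ≤ ⊤))).eq⟩

theorem fd_app {v : C2} (hθ : DifferentiableAt ℝ θ (U v)) (hU : DifferentiableAt ℝ U v)
    (hξ : DifferentiableAt ℝ ξ v) : DifferentiableAt ℝ (fun v' => θ (U v') (ξ v')) v ∧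
    ∀ w, fderiv ℝ (fun v' => θ (U v') (ξ v')) v w =
      fderiv ℝ θ (U v) (fderiv ℝ U v w) (ξ v) + θ (U v) (fderiv ℝ ξ v w) := by
  have h := (hθ.hasFDerivAt.comp v hU.hasFDerivAt).clm_apply hξ.hasFDerivAt
  exact ⟨h.differentiableAt, fun w => (DFunLike.congr_fun h.fderiv w).trans (add_comm _ _)⟩

theorem push {v : C2} {c : V → ℝ} {K : ℂ} (hη : η =ᶠ[𝓝 (U v)] fun x => θ x - c x • L x)
    (hθ : Sym θ (U v)) (hL : Sym L (U v)) (hc : DifferentiableAt ℝ c (U v))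
    (hU : DifferentiableAt ℝ U v) (hξ : DifferentiableAt ℝ ξ v)
    (h1 : ∀ w, L (U v) (fderiv ℝ U v w) = 0) (h2 : ∀ᶠ v' in 𝓝 v, L (U v') (ξ v') = K) (w : C2) :
    fderiv ℝ η (U v) (ξ v) (fderiv ℝ U v w) + η (U v) (fderiv ℝ ξ v w) =
      fderiv ℝ (fun v' => θ (U v') (ξ v')) v w := by
  have h3 := (fd_app hL.1 hU hξ).2 w
  rw [Filter.EventuallyEq.fderiv_eq (f := fun _ => K) h2, fderiv_fun_const] at h3
  have h4 : fderiv ℝ (fun x => θ x - c x • L x) (U v) = _ :=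
    (hθ.1.hasFDerivAt.sub (hc.hasFDerivAt.smul hL.1.hasFDerivAt)).fderiv
  rw [hη.fderiv_eq, hη.eq_of_nhds, (fd_app hθ.1 hU hξ).2, h4, hθ.2 (fderiv ℝ U v w)]
  simp only [_root_.sub_apply, _root_.add_apply, _root_.smul_apply,
    ContinuousLinearMap.smulRight_apply, h1, hL.2 (ξ v), real_smul, Pi.zero_apply,
    _root_.zero_apply] at h3 ⊢
  linear_combination (c (U v) : ℂ) * h3

theorem hol {z : ℂ} {c : V → ℝ} {K : ℂ} (hη : η =ᶠ[𝓝 (U (z, 1))] fun x => θ x - c x • L x)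
    (hθ : Sym θ (U (z, 1))) (hL : Sym L (U (z, 1))) (hc : DifferentiableAt ℝ c (U (z, 1)))
    (hU : DifferentiableAt ℝ U (z, 1)) (hξ : DifferentiableAt ℝ ξ (z, 1))
    (h1 : ∀ w, L (U (z, 1)) (fderiv ℝ U (z, 1) w) = 0)
    (h2 : ∀ᶠ v' in 𝓝 ((z, 1) : C2), L (U v') (ξ v') = K) (hp : Push η U ξ (z, 1) (1, 0)) :
    DifferentiableAt ℂ (aff fun v => θ (U v) (ξ v)) z := by
  have hd := (fd_app hθ.1 hU hξ).1
  refine differentiableAt_of_dbar (hd.comp (f := fun z : ℂ => ((z, 1) : C2)) z (by fun_prop)) ?_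
  rw [Push, push hη hθ hL hc hU hξ h1 h2, push hη hθ hL hc hU hξ h1 h2] at hp
  rw [dbar, fderiv_aff hd, fderiv_aff hd, smul_eq_mul, smul_eq_mul,
    show ((I, 0) : C2) = I • (1, 0) by simp, hp, mul_zero]

theorem hol0 {z : ℂ} (hθ : Sym θ (U (z, 1))) (hU : DifferentiableAt ℝ U (z, 1))
    (hξ : DifferentiableAt ℝ ξ (z, 1)) (hp : Push θ U ξ (z, 1) (1, 0)) :
    DifferentiableAt ℂ (aff fun v => θ (U v) (ξ v)) z :=
  hol (L := fun _ => 0) (c := fun _ => 0) (K := 0) (Eventually.of_forall fun x => by ext; simp) hθ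
    ⟨differentiableAt_const _, fun a b => by simp⟩ (differentiableAt_const _) hU hξ (fun _ => rfl)
    (Eventually.of_forall fun _ => rfl) hp

theorem sym_ofReal {l : V → V →L[ℝ] ℝ} {x : V} (hl : DifferentiableAt ℝ l x)
    (h : ∀ a b, dd l x a b = 0) (A : V →L[ℝ] ℂ) : Sym (fun y => ofRealCLM.comp (l y) + A) x := by
  have h1 : HasFDerivAt (fun y => ofRealCLM.comp (l y) + A) _ x :=
    ((ContinuousLinearMap.compL ℝ V ℝ ℂ ofRealCLM).hasFDerivAt.comp x hl.hasFDerivAt).add_const A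
  refine ⟨h1.differentiableAt, fun a b => ?_⟩
  rw [h1.fderiv]
  exact congrArg ofReal (sub_eq_zero.1 (h a b))

omit [NormedSpace ℝ V] in
theorem tend {F : C2 → V} (hF : Inv F) (hc : ContinuousAt F (1, 0)) :
    Tendsto (aff F) (cocompact ℂ) (𝓝 (F (1, 0))) := by
  have h1 : Tendsto (fun z : ℂ => (((1 : ℂ), z⁻¹) : C2)) (cocompact ℂ) (𝓝 (1, 0)) :=
    tendsto_const_nhds.prodMk_nhds (cobounded_eq_cocompact (α := ℂ) ▸ tendsto_inv₀_cobounded)
  refine (hc.tendsto.comp h1).congr' ?_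
  filter_upwards [isCompact_singleton.compl_mem_cocompact (s := {(0 : ℂ)})] with z hz
  have hz : z ≠ 0 := hz
  have := hF z hz (1, z⁻¹) fun h => one_ne_zero (congrArg Prod.fst h)
  simpa [aff, hz] using this.symm

end Abs

theorem tinv : Tendsto (fun z : ℂ => z⁻¹) (cocompact ℂ) (𝓝 0) :=
  cobounded_eq_cocompact (α := ℂ) ▸ tendsto_inv₀_cobounded

theorem liou1 {f : ℂ → ℂ} (hf : Differentiable ℂ f)
    (h : Tendsto (fun z => f z * z⁻¹) (cocompact ℂ) (𝓝 0)) (z : ℂ) : f z = f 0 := by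
  have h1 : Differentiable ℂ (dslope f 0) := differentiableOn_univ.1
    ((differentiableOn_dslope univ_mem).2 hf.differentiableOn)
  have h2 : Tendsto (dslope f 0) (cocompact ℂ) (𝓝 (0 - f 0 * 0)) := by
    refine (h.sub (tinv.const_mul (f 0))).congr' ?_
    filter_upwards [isCompact_singleton.compl_mem_cocompact (s := {(0 : ℂ)})] with z hz
    rw [dslope_of_ne f hz, slope_def_field, sub_zero, sub_div, div_eq_mul_inv, div_eq_mul_inv]
  have h3 := sub_smul_dslope f 0 z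
  rw [h1.apply_eq_of_tendsto_cocompact z h2] at h3
  rw [← sub_eq_zero, ← h3]
  simp

theorem liou2 {f : ℂ → ℂ} (hf : Differentiable ℂ f)
    (h : Tendsto (fun z => f z * z⁻¹ * z⁻¹) (cocompact ℂ) (𝓝 0)) (h0 : f 0 = 0) (h1 : f 1 = 0)
    (z : ℂ) : f z = 0 := by
  have h2 : Differentiable ℂ (dslope f 0) := differentiableOn_univ.1
    ((differentiableOn_dslope univ_mem).2 hf.differentiableOn)
  have h3 := liou1 h2 (by
    refine h.congr' ?_
    filter_upwards [isCompact_singleton.compl_mem_cocompact (s := {(0 : ℂ)})] with z hz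
    rw [dslope_of_ne f hz, slope_def_field, sub_zero, h0, sub_zero, div_eq_mul_inv])
  have h4 := sub_smul_dslope f 0 z
  have h5 := sub_smul_dslope f 0 1
  rw [h3, h0, h1, sub_zero, one_smul, sub_zero] at h5
  rw [h3, h5, h0, smul_zero, sub_zero] at h4
  exact h4.symm

/-! ### ambient functions -/

theorem vert0 {f : VV → ℂ} {x : VV} (hf : DifferentiableAt ℝ f x)
    (h : ∀ y y' : VV, y.1 = y'.1 → f y = f y') (τ : ℝ) : fderiv ℝ f x (0, τ) = 0 := by
  rw [← hf.lineDeriv_eq_fderiv, lineDeriv,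
    show (fun t : ℝ => f (x + t • (0, τ))) = fun _ => f x from funext fun t => h _ _ (by simp),
    deriv_const]

theorem dA {f : VV → ℂ} {x : VV} (hf : ContDiffAt ℝ ∞ f x) : DifferentiableAt ℝ f x :=
  hf.differentiableAt (by simp)

theorem chart {x : VV} (hx : x ∈ SS) (h0 : x.1.1 0 0 ≠ 0) (h2 : x.1.1 2 2 ≠ 0) {a : VV}
    (ha : a ∈ tan SS x) :
    fderiv ℝ (xk 2) x a * yk 0 x + xk 2 x * fderiv ℝ (yk 0) x a = 0 ∧
    fderiv ℝ (yk 2) x a * yk 0 x + yk 2 x * fderiv ℝ (yk 0) x a = fderiv ℝ (xk 0) x a := by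
  have d1 := dA (contDiffAt_xk h2).1
  have d2 := dA (contDiffAt_xk h2).2.1
  have d3 := dA (contDiffAt_xk h0).1
  have d4 := dA (contDiffAt_xk h0).2.1
  have e : ∀ᶠ y : VV in 𝓝 x, y ∈ SS → xk 2 y * yk 0 y = 1 ∧ yk 2 y * yk 0 y = xk 0 y := by
    have c : ∀ k : Fin 3, Continuous fun y : VV => y.1.1 k k := fun k => by fun_prop
    filter_upwards [(c 0).continuousAt.eventually_ne h0, (c 2).continuousAt.eventually_ne h2]
      with y y0 y2 hy
    obtain ⟨-, n, -, hn⟩ := SS_base hy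
    rw [hn, prj_diag_ne] at y0 y2
    simp only [xk, yk, hn, prj_ratio y0, prj_ratio y2]
    change n 0 / n 2 * (n 2 / n 0) = 1 ∧ n 1 / n 2 * (n 2 / n 0) = n 1 / n 0
    constructor <;> field_simp
  have e1 := fderiv_eq_on_tan hx (d1.fun_mul d4) (differentiableAt_const 1)
    (e.mono fun y h hy => (h hy).1) ha
  have e2 := fderiv_eq_on_tan hx (d2.fun_mul d4) d3 (e.mono fun y h hy => (h hy).2) ha
  rw [fderiv_fun_mul d1 d4, fderiv_fun_const] at e1
  rw [fderiv_fun_mul d2 d4] at e2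
  simp only [_root_.add_apply, _root_.smul_apply, smul_eq_mul, Pi.zero_apply,
    _root_.zero_apply] at e1 e2
  exact ⟨by linear_combination e1, by linear_combination e2⟩

theorem gD_eq {x : VV} (h2 : x.1.1 2 2 ≠ 0) (h0 : xk 2 x + yk 2 x + 1 = 0) {a : VV}
    (h : fderiv ℝ (gD x) x a = 0) : fderiv ℝ (xk 2) x a + fderiv ℝ (yk 2) x a = 0 := by
  have d1 := dA (contDiffAt_xk h2).1
  have d2 := dA (contDiffAt_xk h2).2.1
  have d3 : DifferentiableAt ℝ (fun y : VV => y.1.1 2 2) x := by fun_prop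
  have e : gD x =ᶠ[𝓝 x] fun y => y.1.1 2 2 * (xk 2 y + yk 2 y + 1) := by
    filter_upwards [d3.continuousAt.eventually_ne h2] with y hy
    rw [gD, if_pos h2, Fin.sum_univ_three]
    change _ = y.1.1 2 2 * (y.1.1 0 2 / y.1.1 2 2 + y.1.1 1 2 / y.1.1 2 2 + 1)
    field_simp
  rw [e.fderiv_eq, fderiv_fun_mul d3 ((d1.fun_add d2).add_const 1), h0, _root_.add_apply,
    _root_.smul_apply, _root_.smul_apply, smul_eq_mul, smul_eq_mul, zero_mul, add_zero,
    fderiv_add_const, fderiv_fun_add d1 d2] at h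
  exact (mul_eq_zero.1 h).resolve_left h2

/-- the coefficient of the twisting form -/
noncomputable def cc (j : ℤ) (x : VV) : ℝ :=
  kap (x.2 - j) * (chi (r0 (colL 2 x)) * deriv rho (r1 (colL 2 x)))

/-- the differential of `|y|²` -/
noncomputable def LL (x : VV) : VV →L[ℝ] ℂ := fderiv ℝ (fun y => ((‖yk 2 y‖ ^ 2 : ℝ) : ℂ)) x

theorem r_col (x : VV) : r0 (colL 2 x) = ‖xk 2 x‖ ^ 2 ∧ r1 (colL 2 x) = ‖yk 2 x‖ ^ 2 := by
  simp only [r0, r1, xk, yk, norm_div, div_pow]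
  exact ⟨rfl, rfl⟩

theorem cc_diff (j : ℤ) {x : VV} (h : x.1.1 2 2 ≠ 0) : DifferentiableAt ℝ (cc j) x := by
  have h' : colL 2 x 2 ≠ 0 := h
  have hc := (colL 2).contDiff (n := ∞).contDiffAt (x := x)
  refine ContDiffAt.differentiableAt (n := ∞) ?_ (by simp)
  exact (contDiff_kap.comp (contDiff_snd.sub contDiff_const)).contDiffAt.mul
    (((contDiff_stp _ _).contDiffAt.comp x ((contDiffAt_r0 h').comp x hc)).mul
      (contDiff_deriv_rho.contDiffAt.comp x ((contDiffAt_r1 h').comp x hc)))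

theorem LL_sym {x : VV} (h : x.1.1 2 2 ≠ 0) : Sym LL x :=
  sym_fderiv (ofRealCLM.contDiff.contDiffAt.comp x ((contDiffAt_xk h).2.1.norm_sq ℝ))

theorem LL_apply {x : VV} (h : x.1.1 2 2 ≠ 0) (a : VV) :
    LL x a = ((2 * (fderiv ℝ (yk 2) x a * conj (yk 2 x)).re : ℝ) : ℂ) := by
  have h1 : HasFDerivAt (fun y => ((‖yk 2 y‖ ^ 2 : ℝ) : ℂ)) _ x := ofRealCLM.hasFDerivAt.comp x
    (dA (contDiffAt_xk h).2.1).hasFDerivAt.norm_sq
  rw [LL, h1.fderiv]
  simp [-mul_re]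

theorem et_eq (j : ℤ) {x : VV} (h : x.1.1 2 2 ≠ 0) : et 2 j x = dw x - cc j x • LL x := by
  have h' : colL 2 x 2 ≠ 0 := h
  have h1 : HasFDerivAt (fun y => ((r1 (colL 2 y) : ℝ) : ℂ)) _ x := ofRealCLM.hasFDerivAt.comp x
    (((contDiffAt_r1 h').differentiableAt (by simp)).hasFDerivAt.comp x (colL 2).hasFDerivAt)
  simp only [(r_col _).2] at h1
  rw [et, LL, h1.fderiv, cc, mul_smul, al, ContinuousLinearMap.smul_comp,
    ContinuousLinearMap.comp_smul]

theorem dw_sym {x : VV} (h : aL x ≠ 0) : Sym dw x :=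
  sym_ofReal ((contDiffAt_ds h).differentiableAt (by simp)) (dd_ds h) _

/-! ### the explicit sphere -/

theorem Us_chart (j : ℤ) (xs : ℝ) {v : C2} (h : v.2 ≠ 0) :
    (Us j xs v).1.1 2 2 ≠ 0 ∧ xk 2 (Us j xs v) = nl xs v 0 / v.2 ∧ yk 2 (Us j xs v) = ys ∧
    NA 2 j (Us j xs v) = NN j (nl xs v) (-1) j := by
  obtain ⟨h1, -, h2, h3, -, -, h4⟩ := pt_chart (n := nl xs v) (k := 2) h j (-1) j
    (Us j xs v).1.2.2
  refine ⟨h1, h2, h3.trans ?_, h4⟩
  change ys * v.2 / v.2 = ys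
  field_simp

theorem Us_chart0 (j : ℤ) (xs : ℝ) {v : C2} (h : nl xs v 0 ≠ 0) :
    (Us j xs v).1.1 0 0 ≠ 0 ∧ yk 0 (Us j xs v) = v.2 / nl xs v 0 := by
  obtain ⟨h1, -, -, h3, -⟩ := pt_chart (n := nl xs v) (k := 0) h j (-1) j (Us j xs v).1.2.2
  exact ⟨h1, h3⟩

theorem Us_a (j : ℤ) (xs : ℝ) (v : C2) : aL (Us j xs v) ≠ 0 := neg_ne_zero.2 one_ne_zero

theorem ne1 (z : ℂ) : ((z, 1) : C2) ≠ 0 := fun h => one_ne_zero (congrArg Prod.snd h)

theorem ys_ne {xs : ℝ} (h : Root xs) : (ys : ℂ) ≠ 3 * (xs : ℂ) ^ 2 / 400 := fun e => by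
  have e' : ys = 3 * xs ^ 2 / 400 := by exact_mod_cast e
  have h1 : ys < 1 / 100 := by nlinarith [h.1, h.2.1]
  nlinarith [ys_sq, ys_pos]

end Expl3P

open Expl3P in
theorem expl3_of (h1 : GcompStmt) (h2 : Expl1Stmt) (h3 : HolpushStmt) : Expl3Stmt := by
  intro j xs b₀ ε O M π om h J t hr hG hM ht ξ s sξ iξ mξ lξ cZ cD cp
  obtain ⟨e1, e2, e3, e4, -, -, -, e5⟩ := h2 j xs hr
  have sph := e5 b₀ ε O M π om h J hG hM
  set U := Us j xs with hU
  have tM : ∀ x ∈ M, tan M x = tan SS x := fun x hx =>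
    tan_congr ((hG.real.rel x hx).mono fun y hy => ⟨fun h => hG.real.sub h, hy⟩)
  have mS : ∀ v, v ≠ 0 → ξ v ∈ tan SS (U v) := fun v hv => tM _ (sph.mem v hv) ▸ mξ v hv
  have base : ∀ x ∈ M, ∀ a ∈ tan M x, BaseRel x a (J x a) := fun x hx a ha => by
    obtain ⟨i, hi⟩ := dom_cover (hG.real.sub hx)
    rw [tM x hx] at ha
    obtain ⟨q1, q2⟩ := hG.real.cx i x hx hi a ha
    exact h1.2.1 x (hG.real.sub hx) i hi a ha _ q1 q2
  have dU : ∀ v, v ≠ 0 → DifferentiableAt ℝ U v := fun v hv => (e3 v hv).differentiableAt (by simp)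
  have dξ : ∀ v, v ≠ 0 → DifferentiableAt ℝ ξ v := fun v hv =>
    (sξ.contDiffAt (nz_mem_nhds hv)).differentiableAt one_ne_zero
  have uc : ∀ z : ℂ, (U (z, 1)).1.1 2 2 ≠ 0 ∧ xk 2 (U (z, 1)) = nl xs (z, 1) 0 / 1 ∧
      yk 2 (U (z, 1)) = ys ∧ NA 2 j (U (z, 1)) = NN j (nl xs (z, 1)) (-1) j :=
    fun z => Us_chart j xs one_ne_zero
  have near : ∀ z : ℂ, ∀ᶠ x : VV in 𝓝 (U (z, 1)), x.1.1 2 2 ≠ 0 ∧ |x.2 - (j : ℝ)| < 3 / 4 :=
      fun z => by
    have c1 : Continuous fun y : VV => y.1.1 2 2 := by fun_prop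
    have c2 : Continuous fun y : VV => |y.2 - j| := by fun_prop
    refine (c1.continuousAt.eventually_ne (uc z).1).and
      (c2.continuousAt.eventually_lt continuousAt_const ?_)
    change |(j : ℝ) - j| < 3 / 4
    norm_num
  have hp : ∀ (η : VV → VV →L[ℝ] ℂ) (z : ℂ), DifferentiableAt ℝ η (U (z, 1)) →
      (∀ x a b : VV, x.1.1 2 2 ≠ 0 → |x.2 - j| < 3 / 4 → BaseRel x a b → η x b = I * η x a) →
      Push η U ξ (z, 1) (1, 0) := fun η z hη hb =>
    h3 VV O M π om h J U ξ η (z, 1) (1, 0) hG.amb hG.wj (hG.sm.differentiable (by simp) _)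
      (dU _ (ne1 z)) (dξ _ (ne1 z)) hη
      (mem_of_superset (nz_mem_nhds (ne1 z)) fun v hv => ⟨sph.mem v hv, mξ v hv⟩)
      (sph.cr _ (ne1 z) _) ((near z).mono fun x hx hxM a ha => hb x a _ hx.1 hx.2 (base x hxM a ha))
      (lξ _ (ne1 z) _)
  -- the horizontal components
  have sx := fun z => sym_fderiv (contDiffAt_xk (uc z).1).1
  have sy := fun z => sym_fderiv (contDiffAt_xk (uc z).1).2.1
  have hx : Differentiable ℂ (aff fun v => fderiv ℝ (xk 2) (U v) (ξ v)) := fun z =>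
    hol0 (sx z) (dU _ (ne1 z)) (dξ _ (ne1 z)) (hp _ z (sx z).1 fun x a b q1 q2 q => (q 2 j q1 q2).1)
  have hy : Differentiable ℂ (aff fun v => fderiv ℝ (yk 2) (U v) (ξ v)) := fun z =>
    hol0 (sy z) (dU _ (ne1 z)) (dξ _ (ne1 z))
      (hp _ z (sy z).1 fun x a b q1 q2 q => (q 2 j q1 q2).2.1)
  have p0 : ((1, 0) : C2) ≠ 0 := mk3_ne 2
  have cp' : ξ (1, 0) = (0, s * t) := cp.trans (by simp)
  have tn : ∀ θ : VV → VV →L[ℝ] ℂ, DifferentiableAt ℝ θ (U (1, 0)) →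
      Tendsto (aff fun v => θ (U v) (ξ v)) (cocompact ℂ) (𝓝 (θ (U (1, 0)) (0, s * t))) :=
    fun θ hθ => cp' ▸ tend (F := fun v => θ (U v) (ξ v))
      (fun c hc v hv => by simp only [e4.inv c hc v hv, iξ c hc v hv])
      (fd_app hθ (dU _ p0) (dξ _ p0)).1.continuousAt
  have c0 : (1 + xs + ys : ℂ) ≠ 0 := by
    have : (1 + xs + ys : ℝ) ≠ 0 := by linarith [hr.1, ys_pos]
    exact_mod_cast this
  have u0 : (U (1, 0)).1.1 0 0 ≠ 0 :=
    (Us_chart0 j xs (v := (1, 0)) (by simpa [nl] using neg_ne_zero.2 c0)).1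
  have t1 := tn _ (sym_fderiv (contDiffAt_xk u0).1).1
  have t2 := tn _ (sym_fderiv (contDiffAt_xk u0).2.1).1
  rw [vert0 (dA (contDiffAt_xk u0).1) fun y y' e => by simp only [xk, e]] at t1
  rw [vert0 (dA (contDiffAt_xk u0).2.1) fun y y' e => by simp only [yk, e]] at t2
  have t3 : Tendsto (fun z : ℂ => -(1 + xs + ys) + xs * z⁻¹) (cocompact ℂ)
      (𝓝 (-(1 + xs + ys) + xs * 0)) := (tinv.const_mul _).const_add _
  have ev : ∀ᶠ z in cocompact ℂ, aff (fun v => fderiv ℝ (xk 2) (U v) (ξ v)) z * z⁻¹ * z⁻¹ =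
      -((-(1 + xs + ys) + xs * z⁻¹) ^ 2 * aff (fun v => fderiv ℝ (yk 0) (U v) (ξ v)) z) ∧
      aff (fun v => fderiv ℝ (yk 2) (U v) (ξ v)) z * z⁻¹ = (-(1 + xs + ys) + xs * z⁻¹) *
        (aff (fun v => fderiv ℝ (xk 0) (U v) (ξ v)) z -
          ys * aff (fun v => fderiv ℝ (yk 0) (U v) (ξ v)) z) := by
    filter_upwards [isCompact_singleton.compl_mem_cocompact (s := {(0 : ℂ)}),
      t3.eventually_ne (b₂ := 0) (by simpa using neg_ne_zero.2 c0)] with z hz hz'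
    have hz : z ≠ 0 := hz
    have n0 : nl xs (z, 1) 0 = (-(1 + xs + ys) + xs * z⁻¹) * z := by
      change -(1 + xs + ys) * z + xs * 1 = _
      field_simp
    obtain ⟨q0, q1⟩ : (U (z, 1)).1.1 0 0 ≠ 0 ∧ yk 0 (U (z, 1)) = 1 / nl xs (z, 1) 0 :=
      Us_chart0 j xs (n0 ▸ mul_ne_zero hz' hz)
    obtain ⟨q2, q3⟩ := chart (e4.mem _ (ne1 z)) q0 (uc z).1 (mS _ (ne1 z))
    rw [q1, (uc z).2.1, n0] at q2
    rw [q1, (uc z).2.2.1, n0] at q3
    simp only [aff]
    generalize -(1 + xs + ys : ℂ) + xs * z⁻¹ = m at hz' q2 q3 ⊢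
    constructor
    · field_simp at q2 ⊢
      linear_combination q2
    · field_simp at q3 ⊢
      linear_combination q3
  obtain ⟨β, hβ⟩ : ∃ β, ∀ z : ℂ, fderiv ℝ (yk 2) (U (z, 1)) (ξ (z, 1)) = β :=
    ⟨_, liou1 hy (Tendsto.congr' (ev.mono fun z hz => hz.2.symm)
      (by simpa using t3.mul (t1.sub (t2.const_mul (ys : ℂ)))))⟩
  have hx0 := liou2 hx (Tendsto.congr' (ev.mono fun z hz => hz.1.symm)
    (by simpa using ((t3.pow 2).mul t2).neg))
  have scal : ∀ v : C2, v.2 ≠ 0 → U v = U (v.1 / v.2, 1) ∧ ξ v = ξ (v.1 / v.2, 1) := fun v hv => by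
    have : v = v.2 • (v.1 / v.2, 1) := by ext <;> simp [mul_div_cancel₀, hv]
    exact ⟨by rw [← e4.inv _ hv _ (ne1 _), ← this], by rw [← iξ _ hv _ (ne1 _), ← this]⟩
  have hL : ∀ v : C2, v.2 ≠ 0 → LL (U v) (ξ v) = ((2 * (β.re * ys) : ℝ) : ℂ) := fun v hv => by
    rw [(scal v hv).1, (scal v hv).2, LL_apply (uc _).1, hβ, (uc _).2.2.1]
    simp
  -- the vertical component
  have hw : Differentiable ℂ (aff fun v => dw (U v) (ξ v)) := fun z => by
    have o2 : ∀ᶠ v : C2 in 𝓝 (z, 1), v.2 ≠ 0 := continuousAt_snd.eventually_ne one_ne_zero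
    refine hol ((near z).mono fun x hx => et_eq j hx.1) (dw_sym (Us_a _ _ _)) (LL_sym (uc z).1)
      (cc_diff j (uc z).1) (dU _ (ne1 z)) (dξ _ (ne1 z)) (fun w => ?_) (o2.mono hL)
      (hp _ z ((contDiffAt_et j (uc z).1 (Us_a _ _ _)).differentiableAt (by simp))
        fun x a b q1 q2 q => (q 2 j q1 q2).2.2)
    have q1 : fderiv ℝ (yk 2 ∘ U) (z, 1) = 0 :=
      (Filter.EventuallyEq.fderiv_eq (f := fun _ => (ys : ℂ))
        (o2.mono fun v hv => (Us_chart j xs hv).2.2.1)).trans (fderiv_const_apply _)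
    rw [fderiv_comp _ (dA (contDiffAt_xk (uc z).1).2.1) (dU _ (ne1 z))] at q1
    rw [LL_apply (uc z).1, show fderiv ℝ (yk 2) (U (z, 1)) (fderiv ℝ U (z, 1) w) = 0 from
      DFunLike.congr_fun q1 w]
    simp
  have hw0 : ∀ z : ℂ, dw (U (z, 1)) (ξ (z, 1)) = I * (s * t : ℝ) := fun z => by
    refine (hw.apply_eq_of_tendsto_cocompact z (tn _ (dw_sym (Us_a _ _ _)).1)).trans ?_
    rw [dw_apply, ds_apply, show aL ((0 : W0), s * t) = 0 from rfl]
    simp
  -- the conditions at the first marked point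
  obtain ⟨-, dm, -⟩ := (e2 (0, 1) (ne1 0) rfl).self_of_nhds
  have x0 : xk 2 (U (0, 1)) = xs := (uc 0).2.1.trans (by simp [nl])
  have y0 : yk 2 (U (0, 1)) = ys := (uc 0).2.2.1
  have df := dA (contDiffAt_xk (uc 0).1).2.2
  have dy := dA (contDiffAt_xk (uc 0).1).2.1
  have gz : gZ j (U (0, 1)) = fun x => (fk 2 x, (yk 2 x).im) := funext fun x => by
    rw [gZ, if_pos (show (U (0, 1)).1.2.2 2 2 ≠ 0 from dm.2.2.2.2), x0, y0, if_pos (ys_ne hr)]
  have cZ' : fderiv ℝ (gZ j (U (0, 1))) (U (0, 1)) (ξ (0, 1)) = 0 := cZ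
  have gz' : HasFDerivAt (fun x => (fk 2 x, (yk 2 x).im)) _ (U (0, 1)) :=
    df.hasFDerivAt.prodMk (imCLM.hasFDerivAt.comp _ dy.hasFDerivAt)
  rw [gz, gz'.fderiv] at cZ'
  have z1 : fderiv ℝ (fk 2) (U (0, 1)) (ξ (0, 1)) = 0 := congrArg Prod.fst cZ'
  have z2 : β.im = 0 := hβ 0 ▸ congrArg Prod.snd cZ'
  have z3 : et 2 j (U (0, 1)) (ξ (0, 1)) = 0 := by
    have dm1 := dA (contDiffAt_mu1 dm.2.2.2.2)
    obtain ⟨q1, q2⟩ := fderiv_XiA (e4.mem _ (ne1 0)) (uc 0).1 (dm.2.2.2.1.trans (by norm_num))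
      (mS _ (ne1 0))
    rw [fderiv_eq_on_tan (e4.mem _ (ne1 0)) (dA (contDiffAt_XiA j (uc 0).1).1) (dm1.fun_mul df)
      (mem_of_superset ((isOpen_dom _).mem_nhds dm) fun y hy hy' => mu1_rel hy' hy) (mS _ (ne1 0)),
      fderiv_fun_mul dm1 df, fk, x0, y0, hr.2.2, _root_.add_apply, _root_.smul_apply,
      _root_.smul_apply, z1, smul_zero, smul_eq_mul, zero_mul, add_zero] at q1
    exact (mul_eq_zero.1 q1.symm).resolve_left (mul_ne_zero two_pi_I_ne_zero q2)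
  have z4 : cc j (U (0, 1)) ≠ 0 := by
    rw [cc, (r_col _).1, (r_col _).2, x0, y0, norm_real, norm_real, Real.norm_eq_abs,
      Real.norm_eq_abs, sq_abs, sq_abs, ys_sq, show (U (0, 1)).2 = j from rfl, sub_self,
      kap_one (by norm_num), chi, stp_one (by norm_num) (by nlinarith [hr.1, hr.2.1]), one_mul,
      one_mul]
    exact (deriv_stp_neg (by norm_num) (by norm_num)).ne
  have ew : ∀ z : ℂ, et 2 j (U (z, 1)) (ξ (z, 1)) =
      I * (s * t : ℝ) - cc j (U (z, 1)) • ((2 * (β.re * ys) : ℝ) : ℂ) := fun z => by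
    rw [et_eq j (uc z).1, ← hw0 z, ← hL (z, 1) one_ne_zero]
    rfl
  have z5 := (ew 0).symm.trans z3
  have st : s * t = 0 := by simpa using congrArg Complex.im z5
  have b0 : β = 0 := by
    have : cc j (U (0, 1)) * (2 * (β.re * ys)) = 0 := by simpa [st] using congrArg Complex.re z5
    refine Complex.ext ?_ z2
    simpa [z4, ys_pos.ne'] using this
  subst b0
  have z6 : fderiv ℝ (xk 2) (U (0, 1)) (ξ (0, 1)) = 0 := by
    rw [fderiv_fk (uc 0).1, hβ, mul_zero, add_zero, x0, y0] at z1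
    exact (mul_eq_zero.1 z1).resolve_left (sub_ne_zero.2 (ys_ne hr))
  have z7 := gD_eq (a := ξ (1, 1)) (uc 1).1 (by rw [(uc 1).2.1, (uc 1).2.2.1]; simp [nl]; ring) cD
  rw [hβ, add_zero] at z7
  have fin : ∀ z : ℂ, z ≠ 0 → ξ (z, 1) = 0 := fun z hz => by
    refine (h1.2.2.2.2 b₀ ε true).1.inj ((0 : Fin 4), (2 : Fin 3), j) _ (e4.mem _ (ne1 z))
      ⟨(uc z).1, Us_a _ _ _, (near z).self_of_nhds.2, ?_⟩ _ (mS _ (ne1 z)) ?_
    · change NA 2 j (U (z, 1)) ≠ 0
      rw [(uc z).2.2.2]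
      exact fun h => hz ((e1 _ (ne1 z)).2.1 h)
    · ext i
      fin_cases i
      · exact hx0 z6 z7 z
      · exact hβ z
      · exact (ew z).trans (by simp [st])
  have fin' : (fun z : ℂ => ξ (z, 1)) = fun _ => 0 :=
    Continuous.ext_on (dense_compl_singleton 0) (continuous_iff_continuousAt.2 fun z =>
      (dξ _ (ne1 z)).continuousAt.comp (f := fun z : ℂ => ((z, 1) : C2)) (by fun_prop))
      continuous_const fin
  refine ⟨fun v hv => ?_, (mul_eq_zero.1 st).resolve_right ht⟩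
  by_cases h2 : v.2 = 0
  · have h1 : v.1 ≠ 0 := fun h1 => hv (Prod.ext h1 h2)
    rw [show v = v.1 • ((1, 0) : C2) by ext <;> simp [h2], iξ _ h1 _ p0, cp', st]
    rfl
  · exact (scal v h2).2.trans (congrFun fin' _)

end Pool.Agent.MP_9758ca_gt

end

end MrgPart1

-- marker of a merged file
example : 731051 + 721378 = 731051 + 721378 := rfl
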