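import Mathlib.RingTheory.PicardGroup
import Mathlib.Analysis.Calculus.BumpFunction.FiniteDimension
import Mathlib.Combinatorics.SimpleGraph.Basic
import Mathlib.Topology.MetricSpace.Contracting
import Mathlib.MeasureTheory.Measure.Lebesgue.VolumeOfBalls
import Mathlib.Topology.UniformSpace.Uniformizable
import Pool.Agent.MP_9758ca_gt.SpecA

/-!
PROJECT BALL: solving a Cauchy-Riemann type equation off a disc with prescribed values.
-/

open scoped Topology ContDiff ComplexConjugate BoundedContinuousFunction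
open Set Metric Filter Complex MeasureTheory

namespace Pool.Agent.MP_9758ca_gt

noncomputable section

namespace RungeP

/-! ### functions with locally Hoelder derivative -/

section C1
variable {X Y Z : Type} [NormedAddCommGroup X] [NormedSpace ℝ X] [NormedAddCommGroup Y]
  [NormedSpace ℝ Y] [NormedAddCommGroup Z] [NormedSpace ℝ Z]

def C1H (f : X → Y) (s : Set X) : Prop :=
  (∀ x ∈ s, DifferentiableAt ℝ f x) ∧ LocH (fderiv ℝ f) s

theorem C1H.cd {f : X → Y} {s : Set X} (h : C1H f s) (hs : IsOpen s) {x : X} (hx : x ∈ s) :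
    ContDiffAt ℝ 1 f x :=
  contDiffAt_one_iff.2 ⟨fderiv ℝ f, s, hs.mem_nhds hx,
    fun _ hy => (h.2.continuousAt hy).continuousWithinAt, fun y hy => (h.1 y hy).hasFDerivAt⟩

theorem c1h_of {f : X → Y} {s : Set X} (h : ∀ x ∈ s, ContDiffAt ℝ 2 f x) : C1H f s :=
  ⟨fun x hx => (h x hx).differentiableAt two_ne_zero,
    locH_of_contDiffAt fun x hx => (h x hx).fderiv_right (m := 1) le_rfl⟩

theorem C1H.congr {f g : X → Y} {s : Set X} (h : C1H f s) (hs : IsOpen s)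
    (he : ∀ x ∈ s, g x = f x) : C1H g s := by
  have h1 : ∀ x ∈ s, g =ᶠ[𝓝 x] f := fun x hx => mem_of_superset (hs.mem_nhds hx) he
  exact ⟨fun x hx => (h.1 x hx).congr_of_eventuallyEq (h1 x hx), h.2.congr fun x hx =>
    mem_of_superset (hs.mem_nhds hx) fun y hy => (h1 y hy).fderiv_eq⟩

theorem C1H.comp {f : Y → Z} {φ : X → Y} {s : Set Y} {t : Set X} (hf : C1H f s) (hφ : C1H φ t)
    (ht : IsOpen t) (hm : MapsTo φ t s) : C1H (fun x => f (φ x)) t := by
  refine ⟨fun x hx => (hf.1 _ (hm hx)).comp x (hφ.1 x hx), ?_⟩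
  have h1 : LocH (fun x => fderiv ℝ f (φ x)) t := hf.2.pre fun x hx => ⟨hφ.cd ht hx, hm hx⟩
  have h2 := (h1.prod hφ.2).post (Φ := fun q : (Y →L[ℝ] Z) × (X →L[ℝ] Y) => q.1.comp q.2)
    fun _ _ => contDiffAt_fst.clm_comp contDiffAt_snd
  exact h2.congr fun x hx => mem_of_superset (ht.mem_nhds hx) fun y hy =>
    fderiv_comp y (hf.1 _ (hm hy)) (hφ.1 y hy)

theorem C1H.prod {f : X → Y} {g : X → Z} {s : Set X} (hf : C1H f s) (hg : C1H g s)
    (hs : IsOpen s) : C1H (fun x => (f x, g x)) s := by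
  refine ⟨fun x hx => (hf.1 x hx).prodMk (hg.1 x hx), ?_⟩
  have h2 := (hf.2.prod hg.2).post (Φ := fun q : (X →L[ℝ] Y) × (X →L[ℝ] Z) => q.1.prod q.2)
    fun _ _ => (ContinuousLinearMap.prodₗᵢ (𝕜 := ℝ) (E := X) (F := Y) (G := Z)
      ℝ).contDiff.contDiffAt
  exact h2.congr fun x hx => mem_of_superset (hs.mem_nhds hx) fun y hy =>
    (hf.1 y hy).fderiv_prodMk (hg.1 y hy)

theorem C1H.post {f : X → Y} {Φ : Y → Z} {s : Set X} (hf : C1H f s) (hs : IsOpen s)
    (hΦ : ∀ x ∈ s, ContDiffAt ℝ 2 Φ (f x)) : C1H (fun x => Φ (f x)) s :=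
  (c1h_of (s := f '' s) (by rintro _ ⟨x, hx, rfl⟩; exact hΦ x hx)).comp hf hs
    (mapsTo_image f s)

omit [NormedSpace ℝ X] in
theorem locH_sum {ι : Type} (T : Finset ι) {f : ι → X → Y} {s : Set X}
    (h : ∀ i, LocH (f i) s) : LocH (fun x => ∑ i ∈ T, f i x) s := by
  classical
  induction T using Finset.induction_on with
  | empty => exact fun x _ => ⟨0, univ, univ_mem, fun _ _ _ _ => by simp⟩
  | insert i T hi ih => simpa only [Finset.sum_insert hi] using (h i).add ih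

theorem hld_of_locH {G : ℂ → Y} {ρ : ℝ} (h : LocH G univ) (h0 : ∀ w, ρ < ‖w‖ → G w = 0) :
    ∃ C, Hld C G univ := by
  obtain ⟨C, hC, h1, h2⟩ := h.hld (isCompact_closedBall (0 : ℂ) (ρ + 1)) (subset_univ _)
  have key : ∀ x y, y ∉ closedBall (0 : ℂ) (ρ + 1) → ‖G x - G y‖ ≤ C * √(dist x y) := by
    intro x y hy
    have h3 : ρ + 1 < ‖y‖ := by simpa using hy
    rw [h0 y (by linarith), sub_zero]
    by_cases hx : ρ < ‖x‖
    · rw [h0 x hx, norm_zero]; positivity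
    · have h4 : 1 ≤ dist x y := by
        have := norm_sub_norm_le y x
        rw [dist_comm, dist_eq_norm]
        linarith
      exact (h1 x (by simp only [mem_closedBall, dist_zero_right]; linarith)).trans
        (le_mul_of_one_le_right hC (Real.one_le_sqrt.2 h4))
  refine ⟨C, fun x _ y _ => ?_⟩
  by_cases hy : y ∈ closedBall (0 : ℂ) (ρ + 1)
  · by_cases hx : x ∈ closedBall (0 : ℂ) (ρ + 1)
    · exact h2 x hx y hy
    · rw [norm_sub_rev, dist_comm]; exact key y x hx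
  · exact key x y hy

end C1

variable {F : Type} [NormedAddCommGroup F] [NormedSpace ℂ F]

theorem locH_smul {φ : ℂ → ℂ} {u : ℂ → F} {s : Set ℂ} (hφ : LocH φ s) (hu : LocH u s) :
    LocH (fun z => φ z • u z) s :=
  (hφ.prod hu).post (Φ := fun q : ℂ × F => q.1 • q.2) fun _ _ => contDiffAt_fst.smul contDiffAt_snd

/-- `f` is a regular solution of the equation with right side `G` -/
def Sol (f G : ℂ → F) : Prop := C1H f univ ∧ ∀ z, dbar f z = G z

theorem Sol.add {f g G H : ℂ → F} (hf : Sol f G) (hg : Sol g H) :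
    Sol (fun z => f z + g z) fun z => G z + H z := by
  refine ⟨(hf.1.prod hg.1 isOpen_univ).post (Φ := fun q : F × F => q.1 + q.2) isOpen_univ
    fun _ _ => contDiffAt_fst.add contDiffAt_snd, fun z => ?_⟩
  beta_reduce
  rw [← hf.2 z, ← hg.2 z, dbar, dbar, dbar, fderiv_fun_add (hf.1.1 z trivial) (hg.1.1 z trivial)]
  simp only [add_apply]
  module

theorem sol_const (c : F) : Sol (fun _ => c) fun _ => 0 :=
  ⟨c1h_of fun _ _ => contDiffAt_const, fun z => by simp [dbar]⟩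

theorem sol_sum {ι : Type} (T : Finset ι) {f G : ι → ℂ → F} (h : ∀ i, Sol (f i) (G i)) :
    Sol (fun z => ∑ i ∈ T, f i z) fun z => ∑ i ∈ T, G i z := by
  classical
  induction T using Finset.induction_on with
  | empty => simpa using sol_const (0 : F)
  | insert i T hi ih => simpa only [Finset.sum_insert hi] using (h i).add ih

theorem cd_of_entire {φ : ℂ → ℂ} (hφ : Differentiable ℂ φ) : ContDiff ℝ 2 φ :=
  hφ.contDiff.restrict_scalars ℝ

theorem Sol.smul {f G : ℂ → F} (hf : Sol f G) {φ : ℂ → ℂ} (hφ : Differentiable ℂ φ) :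
    Sol (fun z => φ z • f z) fun z => φ z • G z := by
  refine ⟨((c1h_of fun _ _ => (cd_of_entire hφ).contDiffAt).prod hf.1 isOpen_univ).post
    (Φ := fun q : ℂ × F => q.1 • q.2) isOpen_univ
    fun _ _ => contDiffAt_fst.smul contDiffAt_snd, fun z => ?_⟩
  have h1 := ((hφ z).hasDerivAt.hasFDerivAt.restrictScalars ℝ).fun_smul
    (hf.1.1 z trivial).hasFDerivAt
  beta_reduce
  rw [← hf.2 z, dbar, dbar, h1.fderiv]
  simp only [add_apply, smul_apply, ContinuousLinearMap.smulRight_apply,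
    ContinuousLinearMap.coe_restrictScalars', ContinuousLinearMap.toSpanSingleton_apply,
    smul_eq_mul]
  match_scalars
  · ring
  · linear_combination (2⁻¹ * deriv φ z) * Complex.I_mul_I
  · ring

/-! ### the weighted kernel -/

theorem radial {f Φ : ℝ → ℝ} {l : ℝ} (hc : ContinuousWithinAt Φ (Ici 0) 0)
    (hd : ∀ y ∈ Ioi (0 : ℝ), HasDerivAt Φ (y * f y) y) (hp : ∀ y ∈ Ioi (0 : ℝ), 0 ≤ y * f y)
    (hl : Tendsto Φ atTop (𝓝 l)) :
    Integrable (fun w : ℂ => f ‖w‖) ∧ ∫ w : ℂ, f ‖w‖ = 2 * Real.pi * (l - Φ 0) := by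
  constructor
  · rw [integrable_fun_norm_addHaar]
    simpa using integrableOn_Ioi_deriv_of_nonneg hc hd hp hl
  · rw [integral_fun_norm_addHaar, ← integral_Ioi_of_hasDerivAt_of_nonneg hc hd hp hl]
    simp [Measure.real, Complex.volume_ball, mul_assoc]

def mj (s y : ℝ) : ℝ := (Real.pi * y)⁻¹ * (2 / (1 + s * y) ^ 2)

theorem mj_int {s : ℝ} (hs : 0 < s) :
    Integrable (fun w : ℂ => mj s ‖w‖) ∧ ∫ w : ℂ, mj s ‖w‖ = 4 / s := by
  have hp := Real.pi_pos
  have h := radial (f := mj s) (Φ := fun y => -(2 / (Real.pi * s)) * (1 + s * y)⁻¹) (l := 0)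
    ?_ ?_ ?_ ?_
  · refine ⟨h.1, h.2.trans ?_⟩
    field_simp
    ring
  · refine ContinuousAt.continuousWithinAt ?_
    exact continuousAt_const.mul (ContinuousAt.inv₀ (by fun_prop) (by simp))
  · intro y hy
    have hy0 : 0 < y := hy
    have h1 := ((((hasDerivAt_id y).const_mul s).const_add 1).inv
      (by simp only [id]; positivity)).const_mul (-(2 / (Real.pi * s)))
    refine h1.congr_deriv ?_
    unfold mj
    simp only [id]
    field_simp
  · intro y hy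
    have hy0 : 0 < y := hy
    unfold mj
    positivity
  · have h1 : Tendsto (fun y : ℝ => (1 + s * y)⁻¹) atTop (𝓝 0) :=
      (tendsto_atTop_add_const_left _ _ (tendsto_id.const_mul_atTop hs)).inv_tendsto_atTop
    simpa using h1.const_mul (-(2 / (Real.pi * s)))

def nw (z : ℂ) : ℝ := 1 + ‖z‖ ^ 2

def EE (n : ℕ) (z w : ℂ) : ℂ := ((1 + conj w * z) / (nw w : ℂ)) ^ (2 * n)

def cf (n j : ℕ) (w : ℂ) : ℂ := conj w ^ j * ((2 * n).choose j : ℂ) / (nw w : ℂ) ^ (2 * n)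

theorem nw_pos (z : ℂ) : 0 < nw z := by unfold nw; positivity

theorem nw_ne (z : ℂ) : (nw z : ℂ) ≠ 0 := Complex.ofReal_ne_zero.2 (nw_pos z).ne'

theorem cd_nw : ContDiff ℝ 1 nw := contDiff_const.add (contDiff_norm_sq ℂ)

theorem cd_nw' : ContDiff ℝ 1 fun z => (nw z : ℂ) := Complex.ofRealCLM.contDiff.comp cd_nw

theorem cd_cf (n j : ℕ) : ContDiff ℝ 1 (cf n j) :=
  (((Complex.conjCLE.contDiff.pow j).mul contDiff_const).mul
    ((cd_nw'.pow (2 * n)).inv fun w => pow_ne_zero _ (nw_ne w)))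

theorem EE_sum (n : ℕ) (z w : ℂ) :
    EE n z w = ∑ j ∈ Finset.range (2 * n + 1), z ^ j * cf n j w := by
  rw [EE, div_pow, add_comm, add_pow, Finset.sum_div]
  refine Finset.sum_congr rfl fun j _ => ?_
  rw [cf]
  ring

theorem EE_self (n : ℕ) (z : ℂ) : EE n z z = 1 := by
  have : (nw z : ℂ) = 1 + conj z * z := by
    rw [nw, Complex.conj_mul']; push_cast; ring
  rw [EE, ← this, div_self (nw_ne z), one_pow]

theorem diff_EE (n : ℕ) (w : ℂ) : Differentiable ℂ fun z => EE n z w := by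
  unfold EE; fun_prop

theorem cont_EE (n : ℕ) (z : ℂ) : Continuous (EE n z) :=
  ((continuous_const.add (Complex.continuous_conj.mul continuous_const)).div cd_nw'.continuous
    nw_ne).pow _

theorem normsq_id (z w : ℂ) : ‖1 + conj w * z‖ ^ 2 = nw z * nw w - ‖z - w‖ ^ 2 := by
  simp only [nw, Complex.sq_norm, Complex.normSq_apply, add_re, add_im, one_re, one_im, mul_re,
    mul_im, conj_re, conj_im, sub_re, sub_im]
  ring

theorem norm_EE (n : ℕ) (z w : ℂ) :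
    ‖EE n z w‖ * nw w ^ n = nw z ^ n * (1 - ‖z - w‖ ^ 2 / (nw z * nw w)) ^ n := by
  have h1 := nw_pos z
  have h2 := nw_pos w
  rw [EE, norm_pow, pow_mul, norm_div, div_pow, normsq_id, Complex.norm_real,
    Real.norm_of_nonneg h2.le, ← mul_pow, ← mul_pow]
  congr 1
  field_simp

theorem frac_mem (z w : ℂ) :
    0 ≤ ‖z - w‖ ^ 2 / (nw z * nw w) ∧ ‖z - w‖ ^ 2 / (nw z * nw w) ≤ 1 := by
  have h1 := nw_pos z
  have h2 := nw_pos w
  refine ⟨by positivity, ?_⟩
  rw [div_le_one (by positivity)]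
  linarith [normsq_id z w, sq_nonneg ‖1 + conj w * z‖]

theorem norm_EE_le (n : ℕ) (z w : ℂ) : ‖EE n z w‖ * nw w ^ n ≤ nw z ^ n := by
  have h := frac_mem z w
  rw [norm_EE]
  exact mul_le_of_le_one_right (pow_pos (nw_pos z) n).le
    (pow_le_one₀ (by linarith [h.2]) (by linarith [h.1]))

theorem decay {x t : ℝ} {n : ℕ} (h0 : 0 ≤ x) (h1 : x ≤ 1) (ht : 0 ≤ t) (h : t ^ 2 ≤ n * x) :
    (1 - x) ^ n ≤ 2 / (1 + t) ^ 2 := by
  have h2 : 1 + n * x ≤ (1 + x) ^ n := one_add_mul_le_pow (by linarith) n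
  have h3 : (1 - x) ^ n * (1 + x) ^ n ≤ 1 := by
    rw [← mul_pow]
    exact pow_le_one₀ (mul_nonneg (by linarith) (by linarith)) (by nlinarith)
  have h4 : 0 ≤ (1 - x) ^ n := pow_nonneg (by linarith) n
  have h5 : (1 + t) ^ 2 ≤ 2 * (1 + x) ^ n := by nlinarith [sq_nonneg (t - 1)]
  rw [le_div_iff₀ (by positivity)]
  nlinarith [mul_le_mul_of_nonneg_left h5 h4]

theorem norm_EE_decay {n : ℕ} {ρ s : ℝ} (hs : 0 < s) (hn : s ^ 2 * (1 + ρ ^ 2) ^ 2 ≤ n) {z w : ℂ}
    (hz : ‖z‖ ≤ ρ) (hw : ‖w‖ ≤ ρ) :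
    ‖EE n z w‖ * nw w ^ n ≤ nw z ^ n * (2 / (1 + s * ‖z - w‖) ^ 2) := by
  have h := frac_mem z w
  have h1 := nw_pos z
  have h2 := nw_pos w
  rw [norm_EE]
  refine mul_le_mul_of_nonneg_left (decay h.1 h.2 (by positivity) ?_) (by positivity)
  have h3 : nw z ≤ 1 + ρ ^ 2 := by
    unfold nw; linarith [pow_le_pow_left₀ (norm_nonneg z) hz 2]
  have h4 : nw w ≤ 1 + ρ ^ 2 := by
    unfold nw; linarith [pow_le_pow_left₀ (norm_nonneg w) hw 2]
  have h5 : nw z * nw w ≤ (1 + ρ ^ 2) * (1 + ρ ^ 2) := mul_le_mul h3 h4 h2.le (by positivity)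
  have h6 : s ^ 2 * (nw z * nw w) ≤ n :=
    (mul_le_mul_of_nonneg_left h5 (sq_nonneg s)).trans (by linarith)
  rw [← mul_div_assoc, le_div_iff₀ (by positivity)]
  nlinarith [mul_le_mul_of_nonneg_left h6 (sq_nonneg ‖z - w‖)]

/-! ### the weighted Cauchy transform -/

/-- continuous and supported in a disc -/
def CS (ρ : ℝ) (G : ℂ → F) : Prop := Continuous G ∧ ∀ w, ρ < ‖w‖ → G w = 0

theorem CS.smul {ρ : ℝ} {G : ℂ → F} (h : CS ρ G) {φ : ℂ → ℂ} (hφ : Continuous φ) :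
    CS ρ fun w => φ w • G w :=
  ⟨hφ.smul h.1, fun w hw => by simp only [h.2 w hw, smul_zero]⟩

omit [NormedSpace ℂ F] in
theorem CS.bound {ρ : ℝ} {G : ℂ → F} (h : CS ρ G) : ∃ M, ∀ w, ‖G w‖ ≤ M :=
  h.1.bounded_above_of_compact_support
    (HasCompactSupport.intro (isCompact_closedBall (0 : ℂ) ρ) fun w hw => h.2 w (by simpa using hw))

def TT (n : ℕ) (G : ℂ → F) (z : ℂ) : F :=
  ∑ j ∈ Finset.range (2 * n + 1), z ^ j • Tc (fun w => cf n j w • G w) z

variable [CompleteSpace F]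

theorem CS.cau (h1 : Cau1Stmt) {ρ : ℝ} (hρ : 0 < ρ) {G : ℂ → F} (h : CS ρ G) :
    (∀ z, Integrable fun w => ((Real.pi : ℂ) * (z - w))⁻¹ • G w) ∧ LocH (Tc G) univ := by
  obtain ⟨⟨C, -, hC⟩, -⟩ := h1
  obtain ⟨M, hM⟩ := h.bound
  have := hC F G ρ M hρ h.1.aestronglyMeasurable hM h.2
  exact ⟨this.1, fun x _ => ⟨_, univ, univ_mem, this.2.2.1⟩⟩

theorem TT_eq (h1 : Cau1Stmt) {ρ : ℝ} (hρ : 0 < ρ) {G : ℂ → F} (h : CS ρ G) (n : ℕ) (z : ℂ) :
    TT n G z = Tc (fun w => EE n z w • G w) z := by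
  rw [TT, Tc]
  simp only [Tc, ← integral_smul]
  rw [← integral_finsetSum _ fun j _ =>
    (((h.smul (cd_cf n j).continuous).cau h1 hρ).1 z).fun_smul (z ^ j)]
  congr 1
  funext w
  rw [EE_sum, Finset.sum_smul, Finset.smul_sum]
  refine Finset.sum_congr rfl fun j _ => ?_
  rw [smul_comm, mul_smul]

theorem TT_locH (h1 : Cau1Stmt) {ρ : ℝ} (hρ : 0 < ρ) {G : ℂ → F} (h : CS ρ G) (n : ℕ) :
    LocH (TT n G) univ :=
  locH_sum _ fun j => locH_smul (locH_of_contDiffAt fun _ _ => contDiffAt_id.pow j)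
    ((h.smul (cd_cf n j).continuous).cau h1 hρ).2

theorem TT_sol (h2 : Cau2Stmt) {ρ : ℝ} (hρ : 0 < ρ) {G : ℂ → F} (h : LocH G univ)
    (h0 : ∀ w, ρ < ‖w‖ → G w = 0) (n : ℕ) : Sol (TT n G) G := by
  obtain ⟨C, -, hC⟩ := h2
  have key : ∀ j, Sol (Tc fun w => cf n j w • G w) fun w => cf n j w • G w := fun j => by
    have h3 : ∀ w, ρ < ‖w‖ → cf n j w • G w = 0 := fun w hw => by rw [h0 w hw, smul_zero]
    obtain ⟨K, hK⟩ := hld_of_locH
      (locH_smul (locH_of_contDiffAt fun _ _ => (cd_cf n j).contDiffAt) h) h3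
    have := hC F _ ρ K hρ hK h3
    exact ⟨⟨fun z _ => this.1.differentiable one_ne_zero z,
      fun x _ => ⟨_, univ, univ_mem, this.2.2.1⟩⟩, this.2.1⟩
  have h4 := sol_sum (Finset.range (2 * n + 1)) fun j => (key j).smul (differentiable_pow j)
  refine ⟨h4.1, fun z => (h4.2 z).trans ?_⟩
  simp only [smul_smul]
  rw [← Finset.sum_smul, ← EE_sum, EE_self, one_smul]

theorem TT_sub (h1 : Cau1Stmt) {ρ : ℝ} (hρ : 0 < ρ) {G G' : ℂ → F} (h : CS ρ G) (h' : CS ρ G')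
    {n : ℕ} {s M : ℝ} (hs : 0 < s) (hn : s ^ 2 * (1 + ρ ^ 2) ^ 2 ≤ n) (hM : 0 ≤ M)
    (hb : ∀ w, ‖G w - G' w‖ ≤ M * nw w ^ n) {z : ℂ} (hz : ‖z‖ ≤ ρ) :
    ‖TT n G z - TT n G' z‖ ≤ 4 / s * M * nw z ^ n := by
  have hp := Real.pi_pos
  have hz0 := nw_pos z
  rw [TT_eq h1 hρ h, TT_eq h1 hρ h', Tc, Tc, ← integral_sub
    (((h.smul (cont_EE n z)).cau h1 hρ).1 z) (((h'.smul (cont_EE n z)).cau h1 hρ).1 z),
    ← (mj_int hs).2, ← integral_sub_left_eq_self (fun w : ℂ => mj s ‖w‖) volume z, mul_assoc,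
    ← integral_mul_const]
  refine norm_integral_le_of_norm_le ((((mj_int hs).1.comp_sub_left z)).mul_const _)
    (Eventually.of_forall fun w => ?_)
  rw [← smul_sub, ← smul_sub, norm_smul, norm_smul, norm_inv, norm_mul, Complex.norm_real,
    Real.norm_of_nonneg hp.le, mj, mul_assoc]
  refine mul_le_mul_of_nonneg_left ?_ (by positivity)
  by_cases hw : ρ < ‖w‖
  · rw [h.2 w hw, h'.2 w hw, sub_zero, norm_zero, mul_zero]; positivity
  · have h3 := mul_le_mul_of_nonneg_left (norm_EE_decay hs hn hz (not_lt.1 hw)) hM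
    have h4 := mul_le_mul_of_nonneg_left (hb w) (norm_nonneg (EE n z w))
    linarith only [h3, h4]

/-! ### the equation in the plane -/

def LL (z : Fin 3 → ℂ) (m : Fin 3) (w : ℂ) : ℂ :=
  ∏ j ∈ Finset.univ.erase m, (w - z j) / (z m - z j)

theorem diff_LL (z : Fin 3 → ℂ) (m : Fin 3) : Differentiable ℂ (LL z m) := by
  unfold LL; fun_prop

theorem LL_apply {z : Fin 3 → ℂ} (hz : Function.Injective z) (m j : Fin 3) :
    LL z m (z j) = if m = j then 1 else 0 := by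
  split_ifs with h
  · subst h
    exact Finset.prod_eq_one fun i hi =>
      div_self (sub_ne_zero.2 fun e => (Finset.ne_of_mem_erase hi) (hz e).symm)
  · exact Finset.prod_eq_zero (Finset.mem_erase.2 ⟨Ne.symm h, Finset.mem_univ j⟩) (by simp)

/-- the solution operator with prescribed values -/
def UU (n : ℕ) (z : Fin 3 → ℂ) (c : Fin 3 → F) (G : ℂ → F) (w : ℂ) : F :=
  TT n G w + ∑ m, (LL z m w * EE n w (z m)) • (c m - TT n G (z m))

omit [CompleteSpace F] in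
theorem UU_apply (n : ℕ) {z : Fin 3 → ℂ} (hz : Function.Injective z) (c : Fin 3 → F) (G : ℂ → F)
    (j : Fin 3) : UU n z c G (z j) = c j := by
  simp [UU, LL_apply hz, EE_self, ite_smul]

omit [CompleteSpace F] in
theorem corr_sol (n : ℕ) (z : Fin 3 → ℂ) (c : Fin 3 → F) :
    Sol (fun w => ∑ m, (LL z m w * EE n w (z m)) • c m) fun _ => 0 := by
  simpa using sol_sum Finset.univ fun m =>
    (sol_const (c m)).smul ((diff_LL z m).fun_mul (diff_EE n (z m)))

theorem UU_locH (h1 : Cau1Stmt) {ρ : ℝ} (hρ : 0 < ρ) {G : ℂ → F} (h : CS ρ G) (n : ℕ)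
    (z : Fin 3 → ℂ) (c : Fin 3 → F) : LocH (UU n z c G) univ :=
  (TT_locH h1 hρ h n).add
    (locH_of_contDiffAt fun _ hx => (corr_sol n z _).1.cd isOpen_univ hx)

theorem UU_sub (h1 : Cau1Stmt) {ρ : ℝ} (hρ : 0 < ρ) {G G' : ℂ → F} (h : CS ρ G) (h' : CS ρ G')
    {n : ℕ} {s M L : ℝ} (hs : 0 < s) (hn : s ^ 2 * (1 + ρ ^ 2) ^ 2 ≤ n) (hM : 0 ≤ M)
    (hb : ∀ w, ‖G w - G' w‖ ≤ M * nw w ^ n) {z : Fin 3 → ℂ} (hz : ∀ m, ‖z m‖ ≤ ρ) (c : Fin 3 → F)
    {w : ℂ} (hw : ‖w‖ ≤ ρ) (hL : ∀ m, ‖LL z m w‖ ≤ L) :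
    ‖UU n z c G w - UU n z c G' w‖ ≤ (1 + 3 * L) * (4 / s * M * nw w ^ n) := by
  have e : UU n z c G w - UU n z c G' w = (TT n G w - TT n G' w) -
      ∑ m, (LL z m w * EE n w (z m)) • (TT n G (z m) - TT n G' (z m)) := by
    simp only [UU, smul_sub, Finset.sum_sub_distrib]
    abel
  have h3 : ∀ m, ‖(LL z m w * EE n w (z m)) • (TT n G (z m) - TT n G' (z m))‖ ≤
      L * (4 / s * M * nw w ^ n) := fun m => by
    rw [norm_smul, norm_mul, mul_assoc]
    refine mul_le_mul (hL m) ?_ (by positivity) ((norm_nonneg _).trans (hL m))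
    have h4 := mul_le_mul_of_nonneg_left (TT_sub h1 hρ h h' hs hn hM hb (hz m))
      (norm_nonneg (EE n w (z m)))
    have h5 := mul_le_mul_of_nonneg_left (norm_EE_le n w (z m)) (by positivity : 0 ≤ 4 / s * M)
    linarith only [h4, h5]
  have h4 := (norm_sum_le _ _).trans (Finset.sum_le_sum fun m (_ : m ∈ Finset.univ) => h3 m)
  rw [Finset.sum_const, Finset.card_univ, Fintype.card_fin, nsmul_eq_mul] at h4
  have h5 := TT_sub h1 hρ h h' hs hn hM hb hw
  rw [e]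
  refine (norm_sub_le _ _).trans ?_
  push_cast at h4
  linarith only [h4, h5]

theorem planar (h1 : Cau1Stmt) (h2 : Cau2Stmt) {ρ : ℝ} (hρ : 0 < ρ) {a : ℂ → F →L[ℝ] F}
    {h : ℂ → F} (ha : LocH a univ) (hh : LocH h univ) (ha0 : ∀ w, ρ < ‖w‖ → a w = 0)
    (hh0 : ∀ w, ρ < ‖w‖ → h w = 0) {z : Fin 3 → ℂ} (hz : Function.Injective z)
    (hzρ : ∀ m, ‖z m‖ ≤ ρ) (c : Fin 3 → F) :
    ∃ f, C1H f univ ∧ (∀ w, dbar f w + a w (f w) = h w) ∧ ∀ m, f (z m) = c m := by
  have hρ' : 0 < ρ + 1 := by linarith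
  have hac : Continuous a := continuous_iff_continuousAt.2 fun x => ha.continuousAt trivial
  have hhc : Continuous h := continuous_iff_continuousAt.2 fun x => hh.continuousAt trivial
  obtain ⟨A, hA⟩ := hac.bounded_above_of_compact_support
    (HasCompactSupport.intro (isCompact_closedBall (0 : ℂ) ρ) fun w hw => ha0 w (by simpa using hw))
  have hA0 : 0 ≤ A := (norm_nonneg _).trans (hA 0)
  obtain ⟨L, hL⟩ := (isCompact_closedBall (0 : ℂ) (ρ + 1)).exists_bound_of_continuousOn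
    (f := fun w m => LL z m w) (continuous_pi fun m => (diff_LL z m).continuous).continuousOn
  have hL0 : 0 ≤ L := (norm_nonneg _).trans (hL 0 (mem_closedBall_self hρ'.le))
  obtain ⟨s, hs, hs'⟩ : ∃ s : ℝ, 0 < s ∧ (1 + 3 * L) * (4 / s * A) ≤ 1 / 2 := by
    refine ⟨8 * (1 + 3 * L) * (A + 1), by positivity, ?_⟩
    rw [show (1 + 3 * L) * (4 / (8 * (1 + 3 * L) * (A + 1)) * A) = A / (2 * (A + 1)) by
      field_simp; ring, div_le_div_iff₀ (by positivity) (by positivity)]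
    linarith
  obtain ⟨n, hn⟩ := exists_nat_ge (s ^ 2 * (1 + (ρ + 1) ^ 2) ^ 2)
  let χ : ℂ → ℝ := fun w => max 0 (min 1 (ρ + 1 - ‖w‖))
  have hχc : Continuous χ := by fun_prop
  have hχ0 : ∀ w, 0 ≤ χ w := fun w => le_max_left _ _
  have hχ1 : ∀ w, χ w ≤ 1 := fun w => max_le zero_le_one (min_le_left _ _)
  let G : (ℂ →ᵇ F) → ℂ → F := fun u w => h w - a w (nw w ^ n • u w)
  have hG : ∀ u, CS (ρ + 1) (G u) := fun u =>
    ⟨hhc.sub (hac.clm_apply ((cd_nw.continuous.pow n).smul u.continuous)), fun w hw => by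
      simp only [G, hh0 w (by linarith), ha0 w (by linarith), zero_apply, sub_zero]⟩
  have hU : ∀ u, Continuous (UU n z c (G u)) := fun u =>
    continuous_iff_continuousAt.2 fun x => (UU_locH h1 hρ' (hG u) n z c).continuousAt trivial
  have hz0 : ∀ w, ρ + 1 < ‖w‖ → χ w = 0 := fun w hw =>
    max_eq_left ((min_le_right _ _).trans (by linarith))
  have hex : ∀ u, ∃ y : ℂ →ᵇ F, ∀ w, y w = (χ w / nw w ^ n) • UU n z c (G u) w := fun u => by
    have h3 : CS (ρ + 1) fun w => (χ w / nw w ^ n) • UU n z c (G u) w :=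
      ⟨(hχc.div (cd_nw.continuous.pow n) fun w => (pow_pos (nw_pos w) n).ne').smul (hU u),
        fun w hw => by simp only [hz0 w hw, zero_div, zero_smul]⟩
    obtain ⟨M, hM⟩ := h3.bound
    exact ⟨BoundedContinuousFunction.ofNormedAddCommGroup _ h3.1 M hM, fun _ => rfl⟩
  choose Φ hΦ using hex
  have hc : ContractingWith (1 / 2) Φ := by
    refine ⟨by norm_num, LipschitzWith.of_dist_le_mul fun u u' => ?_⟩
    refine (BoundedContinuousFunction.dist_le (by positivity)).2 fun w => ?_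
    rw [hΦ, hΦ, dist_eq_norm, ← smul_sub, norm_smul]
    have hw0 := pow_pos (nw_pos w) n
    by_cases hw : ρ + 1 < ‖w‖
    · rw [hz0 w hw, zero_div, norm_zero, zero_mul]; positivity
    have h3 := UU_sub h1 hρ' (hG u) (hG u') (M := A * dist u u') (L := L) hs hn (by positivity)
      (fun x => ?_) (fun m => (hzρ m).trans (by linarith)) c (not_lt.1 hw) fun m =>
        (norm_le_pi_norm (fun m => LL z m w) m).trans (hL w (by simpa using hw))
    · rw [Real.norm_of_nonneg (div_nonneg (hχ0 w) hw0.le), div_mul_eq_mul_div, div_le_iff₀ hw0]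
      have h4 := mul_le_mul_of_nonneg_right hs' (by positivity : 0 ≤ dist u u' * nw w ^ n)
      have h5 := mul_le_of_le_one_left (norm_nonneg (UU n z c (G u) w - UU n z c (G u') w)) (hχ1 w)
      push_cast
      linarith only [h3, h4, h5]
    · have hx0 := pow_pos (nw_pos x) n
      simp only [G]
      rw [sub_sub_sub_cancel_left, ← map_sub, ← smul_sub]
      refine ((a x).le_opNorm _).trans ?_
      rw [norm_smul, Real.norm_of_nonneg hx0.le, mul_assoc, mul_comm (dist u u'), ← dist_eq_norm,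
        dist_comm]
      exact mul_le_mul (hA x) (mul_le_mul_of_nonneg_left (u.dist_coe_le_dist x) hx0.le)
        (by positivity) hA0
  obtain ⟨u, hu⟩ : ∃ u, Φ u = u := ⟨_, hc.fixedPoint_isFixedPt⟩
  have e : ∀ w, G u w = h w - a w (UU n z c (G u) w) := fun w => by
    by_cases hw : ρ < ‖w‖
    · simp only [G, ha0 w hw, zero_apply]
    · have h3 : χ w = 1 := by
        simp only [χ]
        rw [min_eq_left (by linarith), max_eq_right zero_le_one]
      have h4 : nw w ^ n • u w = UU n z c (G u) w := by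
        conv_lhs => rw [← hu, hΦ, h3, smul_smul, mul_one_div_cancel (pow_pos (nw_pos w) n).ne',
          one_smul]
      rw [← h4]
  have hGl : LocH (G u) univ := by
    have h3 := hh.add ((ha.clm_apply (UU_locH h1 hρ' (hG u) n z c)).post (Φ := fun y : F => -y)
      fun _ _ => contDiffAt_id.neg)
    exact h3.congr fun x _ => Eventually.of_forall fun y => by rw [e y, sub_eq_add_neg]
  have hS := (TT_sol h2 hρ' hGl (hG u).2 n).add (corr_sol n z fun m => c m - TT n (G u) (z m))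
  refine ⟨UU n z c (G u), hS.1, fun w => ?_, UU_apply n hz c _⟩
  have h3 : dbar (UU n z c (G u)) w = G u w + 0 := hS.2 w
  rw [h3, add_zero]
  exact (eq_sub_iff_add_eq.1 (e w))

/-! ### transfer to homogeneous functions -/

theorem cd_zp (k : ℤ) {c : ℂ} (hc : c ≠ 0) : ContDiffAt ℝ 2 (fun c : ℂ => c ^ k) c := by
  have : DifferentiableOn ℂ (fun c : ℂ => c ^ k) {c | c ≠ 0} := fun c hc =>
    (differentiableAt_zpow.2 (Or.inl hc)).differentiableWithinAt
  exact ((this.contDiffOn isOpen_ne).contDiffAt (isOpen_ne.mem_nhds hc)).restrict_scalars ℝ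

theorem cd_rep (k : Fin 3 → ℤ) {q : ℂ × C3} (hq : q.1 ≠ 0) :
    ContDiffAt ℝ 2 (fun q : ℂ × C3 => rep k q.1 q.2) q :=
  contDiffAt_pi.2 fun i => ((cd_zp (k i) hq).comp q contDiffAt_fst).mul
    ((contDiffAt_apply ℝ ℂ i q.2).comp q contDiffAt_snd)

open Classical in
/-- the homogeneous function defined by a compactly supported function in the chart -/
def sec (k : Fin 3 → ℤ) (f : ℂ → C3) (v : C2) : C3 :=
  if v.2 = 0 then 0 else rep k v.2 (f (v.1 / v.2))

theorem sec_of_ne (k : Fin 3 → ℤ) (f : ℂ → C3) {v : C2} (hv : v.2 ≠ 0) :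
    sec k f v = rep k v.2 (f (v.1 / v.2)) := if_neg hv

theorem aff_sec (k : Fin 3 → ℤ) (f : ℂ → C3) : aff (sec k f) = f := by
  funext z i
  rw [aff, sec_of_ne k f one_ne_zero, rep_apply]
  simp

theorem xh_sec (k : Fin 3 → ℤ) {f : ℂ → C3} (hf : C1H f univ) {R : ℝ}
    (h0 : ∀ w, R < ‖w‖ → f w = 0) : XH (rep k) (sec k f) := by
  have o1 : IsOpen {v : C2 | v.2 ≠ 0} := isOpen_ne_fun continuous_snd continuous_const
  have o2 : IsOpen {v : C2 | R * ‖v.2‖ < ‖v.1‖} := isOpen_lt (by fun_prop) (by fun_prop)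
  have h1 : C1H (fun v : C2 => v.1 / v.2) {v | v.2 ≠ 0} :=
    c1h_of fun v hv => contDiffAt_fst.mul (contDiffAt_snd.inv hv)
  have h2 : C1H (sec k f) {v | v.2 ≠ 0} := by
    have h3 := ((c1h_of (f := fun v : C2 => v.2) fun _ _ => contDiffAt_snd).prod
      (hf.comp h1 o1 (mapsTo_univ _ _)) o1).post (Φ := fun q : ℂ × C3 => rep k q.1 q.2) o1
      fun v hv => cd_rep k (q := (v.2, f (v.1 / v.2))) hv
    exact h3.congr o1 fun v hv => sec_of_ne k f hv
  have h3 : C1H (sec k f) {v | R * ‖v.2‖ < ‖v.1‖} := by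
    refine (c1h_of (f := fun _ => (0 : C3)) fun _ _ => contDiffAt_const).congr o2 fun v hv => ?_
    by_cases h : v.2 = 0
    · exact if_pos h
    · rw [sec_of_ne k f h, h0 _ (by rwa [norm_div, lt_div_iff₀ (norm_pos_iff.2 h)]), map_zero]
  have h4 : ∀ v : C2, v ≠ 0 → v.2 = 0 → R * ‖v.2‖ < ‖v.1‖ := fun v hv h => by
    rw [h, norm_zero, mul_zero, norm_pos_iff]
    exact fun e => hv (Prod.ext e h)
  refine ⟨fun c hc v _ => ?_, fun v hv => ?_, fun v hv => ?_⟩
  · by_cases h : v.2 = 0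
    · rw [sec, sec, if_pos h, if_pos (by simp [h]), map_zero]
    · rw [sec_of_ne k f h, sec_of_ne k f (v := c • v) (mul_ne_zero hc h), Prod.smul_fst,
        Prod.smul_snd, smul_eq_mul, smul_eq_mul, mul_div_mul_left _ _ hc]
      funext i
      rw [rep_apply, rep_apply, rep_apply, mul_zpow, mul_assoc]
  · by_cases h : v.2 = 0
    · exact h3.1 v (h4 v hv h)
    · exact h2.1 v h
  · by_cases h : v.2 = 0
    · exact h3.2 v (h4 v hv h)
    · exact h2.2 v h

theorem db_sec {k : Fin 3 → ℤ} {f : ℂ → C3} (h : XH (rep k) (sec k f)) (z : ℂ) :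
    db (sec k f) (z, 1) = (-2 * (1 + ‖z‖ ^ 2) : ℂ) • dbar f z := by
  have hv : ((z, 1) : C2) ≠ 0 := fun e => one_ne_zero (congrArg Prod.snd e)
  have hd := h.2.1 _ hv
  have he : fderiv ℝ (sec k f) (z, 1) (I • (z, 1)) = I • fderiv ℝ (sec k f) (z, 1) (z, 1) := by
    funext i
    have h1 := h.1.euler hv hd 1 i
    rw [one_smul] at h1
    rw [h.1.euler hv hd I i, Pi.smul_apply, h1, smul_eq_mul]
    ring
  have := db_aff hd he
  rwa [aff_sec] at this

theorem core (h1 : Cau1Stmt) (h2 : Cau2Stmt) {k : Fin 3 → ℤ} {A : C2 → En0 C3} {g : C2 → C3}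
    (hA : AHom k A) (hg : YH (repY k) g) {q : Fin 3 → C2} (hq : ∀ m, (q m).2 ≠ 0)
    (hq' : ∀ m m', Par (q m) (q m') → m = m') (b : Fin 3 → C3) (ρ : ℝ) :
    ∃ ζ, XH (rep k) ζ ∧ (∀ m, ζ (q m) = b m) ∧
      ∀ v : C2, v ≠ 0 → ‖v.1‖ ≤ ρ * ‖v.2‖ → db ζ v + A v (ζ v) = g v := by
  let z : Fin 3 → ℂ := fun m => (q m).1 / (q m).2
  have hz : Function.Injective z := fun m m' e => hq' m m' (by
    rw [par_iff fun e' => hq m' (by rw [e']; rfl), mul_comm (q m).2]
    exact (div_eq_div_iff (hq m) (hq m')).1 e)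
  obtain ⟨R, hR, hρ, hzR⟩ : ∃ R : ℝ, 0 < R ∧ ρ < R ∧ ∀ m, ‖z m‖ < R :=
    ⟨|ρ| + ‖z‖ + 1, by positivity, by linarith [le_abs_self ρ, norm_nonneg z],
      fun m => by linarith [abs_nonneg ρ, norm_le_pi_norm z m]⟩
  let χ : ContDiffBump (0 : ℂ) := ⟨R, R + 1, hR, by linarith⟩
  have hχ0 : ∀ w, R + 1 < ‖w‖ → χ w = 0 := fun w hw =>
    χ.zero_of_le_dist (by rw [dist_zero_right]; exact hw.le)
  have hχ1 : ∀ w : ℂ, ‖w‖ < R → ∀ᶠ y in 𝓝 w, χ y = 1 := fun w hw =>
    χ.eventuallyEq_one_of_mem_ball (mem_ball_zero_iff.2 hw)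
  let r : ℂ → ℝ := fun w => χ w * (-2 * nw w)⁻¹
  have hr : LocH r univ := locH_of_contDiffAt fun w _ => χ.contDiffAt.mul
    ((contDiffAt_const.mul cd_nw.contDiffAt).inv (by linarith [nw_pos w]))
  have hφ : ∀ w ∈ (univ : Set ℂ), ContDiffAt ℝ 1 (fun w : ℂ => ((w, 1) : C2)) w ∧
      ((w, 1) : C2) ∈ nz := fun w _ => ⟨contDiffAt_id.prodMk contDiffAt_const,
        fun e => one_ne_zero (congrArg Prod.snd e)⟩
  have ha : LocH (fun w => r w • A (w, 1)) univ :=
    (hr.prod (hA.1.pre hφ)).post (Φ := fun q : ℝ × En0 C3 => q.1 • q.2)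
      fun _ _ => contDiffAt_fst.smul contDiffAt_snd
  have hh : LocH (fun w => r w • g (w, 1)) univ :=
    (hr.prod (hg.2.pre hφ)).post (Φ := fun q : ℝ × C3 => q.1 • q.2)
      fun _ _ => contDiffAt_fst.smul contDiffAt_snd
  obtain ⟨f, hf, he, hv⟩ := planar (F := C3) h1 h2 (ρ := R + 1) (by linarith) ha hh
    (fun w hw => by simp only [r, hχ0 w hw, zero_mul, zero_smul])
    (fun w hw => by simp only [r, hχ0 w hw, zero_mul, zero_smul]) hz
    (fun m => by linarith [hzR m]) fun m => rep k (q m).2⁻¹ (b m)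
  have hf' : C1H f univ := hf
  have hF : C1H (fun w => χ w • f w) univ :=
    ((c1h_of fun _ _ => χ.contDiffAt).prod hf' isOpen_univ).post
      (Φ := fun q : ℝ × C3 => q.1 • q.2) isOpen_univ fun _ _ => contDiffAt_fst.smul contDiffAt_snd
  have hX := xh_sec k hF (R := R + 1) fun w hw => by simp only [hχ0 w hw, zero_smul]
  refine ⟨_, hX, fun m => ?_, fun v hv0 hv => ?_⟩
  · rw [sec_of_ne _ _ (hq m)]
    change rep k (q m).2 (χ (z m) • f (z m)) = b m
    rw [(hχ1 _ (hzR m)).self_of_nhds, one_smul, hv]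
    funext i
    rw [rep_apply, rep_apply, ← mul_assoc, ← mul_zpow, mul_inv_cancel₀ (hq m), one_zpow, one_mul]
  · have h3 : v.2 ≠ 0 := fun e => hv0 (Prod.ext (by
      rw [e, norm_zero, mul_zero] at hv
      exact norm_le_zero_iff.1 hv) e)
    have h4 : ‖v.1 / v.2‖ < R := by
      rw [norm_div]
      exact ((div_le_iff₀ (norm_pos_iff.2 h3)).2 hv).trans_lt hρ
    have h5 : v = v.2 • ((v.1 / v.2, 1) : C2) := Prod.ext (by simp [mul_div_cancel₀ _ h3]) (by simp)
    generalize v.1 / v.2 = w at h4 h5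
    have h6 : ((w, 1) : C2) ≠ 0 := (hφ w trivial).2
    have h7 : (fun w => χ w • f w) =ᶠ[𝓝 w] f := (hχ1 w h4).mono fun y hy => by
      simp only [hy, one_smul]
    have h8 : dbar (fun w => χ w • f w) w = dbar f w := by
      have h9 : fderiv ℝ (fun w => χ w • f w) w = fderiv ℝ f w := h7.fderiv_eq
      exact congrArg (fun L : ℂ →L[ℝ] C3 => (2⁻¹ : ℂ) • (L 1 + I • L I)) h9
    have h9 : sec k (fun w => χ w • f w) (w, 1) = f w :=
      (congrFun (aff_sec k fun w => χ w • f w) w).trans h7.self_of_nhds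
    have h10 : dbar f w + r w • A (w, 1) (f w) = r w • g (w, 1) := he w
    have h11 : db (sec k fun w => χ w • f w) (w, 1) + A (w, 1) (f w) = g (w, 1) := by
      rw [db_sec hX, h8, eq_sub_of_add_eq h10, ← smul_sub, ← Complex.coe_smul, smul_smul]
      have h12 : (-2 * (1 + ‖w‖ ^ 2) : ℂ) * (r w : ℂ) = 1 := by
        have h13 := nw_ne w
        have h14 : (1 + ‖w‖ ^ 2 : ℂ) = nw w := by rw [nw]; push_cast; ring
        simp only [r, (hχ1 w h4).self_of_nhds, h14]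
        push_cast
        field_simp
      rw [h12, one_smul, sub_add_cancel]
    rw [h5, hX.db3.1 _ h3 _ h6, hX.1 _ h3 _ h6, hA.2 _ h3 _ h6, hg.1 _ h3 _ h6, ← map_add, h9, h11]

theorem exists_rot {p : C2} (hp : p ≠ 0) : ∃ B : C2 ≃L[ℂ] C2,
    (∀ x : ℂ, B (x, 0) = x • p) ∧ ∀ v, hor (B v) = B (hor v) := by
  let L : C2 →ₗ[ℂ] C2 :=
    (LinearMap.fst ℂ ℂ ℂ).smulRight p + (LinearMap.snd ℂ ℂ ℂ).smulRight (hor p)
  have hL : ∀ v, L v = v.1 • p + v.2 • hor p := fun _ => rfl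
  have hs : Function.Surjective L := fun w => by
    obtain ⟨a, b, h⟩ := hor_decomp hp w
    exact ⟨(a, b), h.symm⟩
  refine ⟨(LinearEquiv.ofBijective L
    ⟨LinearMap.injective_iff_surjective.2 hs, hs⟩).toContinuousLinearEquiv, fun x => ?_, fun v => ?_⟩
  · change L (x, 0) = _
    simp [hL]
  · change hor (L v) = L (hor v)
    simp only [hL, hor]
    ext
    · simp
    · simp; ring

end RungeP

open RungeP

theorem runge_of (h1 : Cau1Stmt) (h2 : Cau2Stmt) : RungeStmt := by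
  intro k A p Δ g b hA hp hpar hΔ hinv hpΔ hg
  obtain ⟨B, hB, hBh⟩ := exists_rot hp
  have hne : ∀ v, v ≠ 0 → B v ≠ 0 := fun v hv => B.map_ne_zero_iff.2 hv
  have hne' : ∀ v, v ≠ 0 → B.symm v ≠ 0 := fun v hv => B.symm.map_ne_zero_iff.2 hv
  have hφ : ∀ v ∈ nz, ContDiffAt ℝ 1 B v ∧ B v ∈ nz := fun v hv =>
    ⟨(B.contDiff.restrict_scalars ℝ).contDiffAt, hne v hv⟩
  obtain ⟨δ, hδ, hδ'⟩ : ∃ δ > 0, ∀ w : ℂ, ‖w‖ < δ → B (1, w) ∈ Δ := by
    have h3 : Continuous fun w : ℂ => B (1, w) := by fun_prop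
    obtain ⟨δ, hδ, h4⟩ := Metric.isOpen_iff.1 (hΔ.preimage h3) 0 (by
      rw [mem_preimage, hB, one_smul]; exact hpΔ)
    exact ⟨δ, hδ, fun w hw => h4 (mem_ball_zero_iff.2 hw)⟩
  obtain ⟨ζ, hζ, hv, he⟩ := core h1 h2 (k := k) (A := fun v => A (B v)) (g := fun v => g (B v))
    ⟨hA.1.pre hφ, fun c hc v hv ζ => by
      simp only [map_smul]; exact hA.2 c hc _ (hne v hv) ζ⟩
    ⟨fun c hc v hv => by simp only [map_smul]; exact hg.1 c hc _ (hne v hv), hg.2.pre hφ⟩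
    (q := fun m => B.symm (mk3 m))
    (fun m e => hpar m (Par.symm (mk3_ne m) ⟨(B.symm (mk3 m)).1, by
      rw [← hB, ← e]; exact (B.apply_symm_apply _).symm⟩))
    (fun m m' ⟨c, hc⟩ => mk3_par ⟨c, B.symm.injective (by rw [map_smul]; exact hc)⟩) b δ⁻¹
  let C : C2 →L[ℝ] C2 := (B.symm : C2 →L[ℂ] C2).restrictScalars ℝ
  have hC : ∀ v, C v = B.symm v := fun _ => rfl
  have hc1 : C1H (fun v => ζ (C v)) nz :=
    C1H.comp (s := nz) hζ.2 (c1h_of fun _ _ => C.contDiff.contDiffAt) isOpen_nz hne'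
  refine ⟨fun v => ζ (C v), ⟨fun c hc v hv => ?_, hc1⟩, hv, fun v hv hvΔ => ?_⟩
  · simp only [hC, map_smul]
    exact hζ.1 c hc _ (hne' v hv)
  · have h3 : ‖(B.symm v).1‖ ≤ δ⁻¹ * ‖(B.symm v).2‖ := by
      by_contra h4
      rw [not_le, inv_mul_lt_iff₀ hδ] at h4
      have h5 : (B.symm v).1 ≠ 0 := fun e => by
        rw [e, norm_zero, mul_zero] at h4
        exact absurd h4 (not_lt.2 (norm_nonneg _))
      have h6 := hinv _ h5 _ (hδ' ((B.symm v).2 / (B.symm v).1) (by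
        rwa [norm_div, div_lt_iff₀ (norm_pos_iff.2 h5)]))
      rw [← map_smul, show (B.symm v).1 • ((1, (B.symm v).2 / (B.symm v).1) : C2) = B.symm v from
        Prod.ext (by simp) (by simp [mul_div_cancel₀ _ h5]), B.apply_symm_apply] at h6
      exact hvΔ h6
    have h4 := he _ (hne' v hv) h3
    simp only [B.apply_symm_apply] at h4
    have h5 : fderiv ℝ (fun v => ζ (C v)) v = (fderiv ℝ ζ (C v)).comp C :=
      ((hζ.2.1 _ (hne' v hv)).hasFDerivAt.comp v C.hasFDerivAt).fderiv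
    have h6 : B.symm (hor v) = hor (B.symm v) :=
      B.injective (by rw [← hBh, B.apply_symm_apply, B.apply_symm_apply])
    have h7 : db (fun v => ζ (C v)) v = db ζ (B.symm v) := by
      have h8 : ∀ w, fderiv ℝ (fun v => ζ (C v)) v w = fderiv ℝ ζ (B.symm v) (B.symm w) :=
        fun w => by rw [h5]; rfl
      change fderiv ℝ (fun v => ζ (C v)) v (hor v) +
        I • fderiv ℝ (fun v => ζ (C v)) v (I • hor v) = _
      rw [h8, h8, map_smul, h6]
      rfl
    rw [h7]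
    exact h4

end

end Pool.Agent.MP_9758ca_gt
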