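import Mathlib.Analysis.Calculus.BumpFunction.FiniteDimension
import Mathlib.Analysis.Real.Pi.Bounds
import Mathlib.MeasureTheory.Measure.Lebesgue.VolumeOfBalls
import Mathlib.RingTheory.RegularLocalRing.Defs
import Pool.Agent.MP_9758ca_gt.SpecA

-- ======== part 0: formerly Pool.Agent.MP_9758ca_gt.PH
section MrgPart0

section

/-!
PROJECT BALL, module HW: zeros of solutions of a Cauchy-Riemann inequality are isolated.
-/

open scoped Topology ContDiff ComplexConjugate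
open Set Metric Filter Complex MeasureTheory

namespace Pool.Agent.MP_9758ca_gt

namespace HwP

variable {F : Type} [NormedAddCommGroup F] [NormedSpace ℂ F]

/-- division by `z ^ m` -/
noncomputable def ff (m : ℕ) (W : ℂ → F) (z : ℂ) : F := (z⁻¹ ^ m) • W z

theorem norm_ff (m : ℕ) (W : ℂ → F) (z : ℂ) : ‖ff m W z‖ = ‖z‖⁻¹ ^ m * ‖W z‖ := by
  rw [ff, norm_smul, norm_pow, norm_inv]

theorem ff_succ (m : ℕ) (W : ℂ → F) (z : ℂ) : ‖ff (m + 1) W z‖ = ‖z‖⁻¹ * ‖ff m W z‖ := by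
  rw [norm_ff, norm_ff]; ring

theorem dbar_smul {c : ℂ → ℂ} {W : ℂ → F} {z : ℂ} (hc : DifferentiableAt ℂ c z)
    (hW : DifferentiableAt ℝ W z) : dbar (fun y => c y • W y) z = c z • dbar W z := by
  have h := (hc.hasDerivAt.complexToReal_fderiv.smul hW.hasFDerivAt).fderiv
  have e : (fun y => c y • W y) = c • W := rfl
  rw [dbar, dbar, e, h]
  simp only [_root_.add_apply, _root_.smul_apply,
    ContinuousLinearMap.smulRight_apply, one_apply_eq_self, smul_eq_mul, mul_one,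
    smul_add, smul_smul]
  have k : 2⁻¹ * (I * (deriv c z * I)) = -(2⁻¹ * deriv c z) := by
    linear_combination (2⁻¹ * deriv c z) * I_mul_I
  rw [k, neg_smul, mul_comm (c z) 2⁻¹, show 2⁻¹ * (I * c z) = c z * (2⁻¹ * I) by ring]
  abel

theorem continuous_dbar {W : ℂ → F} (h : ContDiff ℝ 1 W) : Continuous (dbar W) := by
  have := h.continuous_fderiv one_ne_zero
  unfold dbar
  fun_prop

theorem dbar_congr {W W' : ℂ → F} {z : ℂ} (h : W =ᶠ[𝓝 z] W') : dbar W z = dbar W' z := by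
  rw [dbar, dbar, h.fderiv_eq]

theorem Tc_congr {g g' : ℂ → F} (h : ∀ w, w ≠ 0 → g w = g' w) (z : ℂ) : Tc g z = Tc g' z := by
  refine integral_congr_ae ?_
  have h0 : ∀ᵐ w : ℂ, w ∈ ({0} : Set ℂ)ᶜ := compl_mem_ae_iff.2 (measure_singleton 0)
  filter_upwards [h0] with w hw
  rw [h w hw]

/-- the data after cutting off -/
structure Dat (W : ℂ → F) (ρ r C K : ℝ) : Prop where
  sm : ContDiff ℝ 1 W
  r0 : 0 < r
  p0 : 0 < ρ
  p1 : ρ ≤ 1
  C0 : 0 ≤ C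
  out : ∀ z, ρ < ‖z‖ → W z = 0
  bd : ∀ z, ‖dbar W z‖ ≤ K
  inn : ∀ z, ‖z‖ < r → ‖dbar W z‖ ≤ C * ‖W z‖

theorem dbar_out {W : ℂ → F} {ρ : ℝ} (h : ∀ z, ρ < ‖z‖ → W z = 0) {z : ℂ} (hz : ρ < ‖z‖) :
    dbar W z = 0 := by
  have e : W =ᶠ[𝓝 z] fun _ => 0 :=
    (continuous_norm.continuousAt.eventually (lt_mem_nhds hz)).mono h
  rw [dbar_congr e]
  simp [dbar]

variable {W : ℂ → F} {ρ r C K : ℝ}

theorem Dat.K0 (h : Dat W ρ r C K) : 0 ≤ K := (norm_nonneg _).trans (h.bd 0)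

theorem Dat.E0 (h : Dat W ρ r C K) (m : ℕ) : 0 ≤ r⁻¹ ^ m * K :=
  mul_nonneg (pow_nonneg (inv_nonneg.2 h.r0.le) m) h.K0

theorem Dat.meas (h : Dat W ρ r C K) (m : ℕ) : AEStronglyMeasurable (ff m (dbar W)) volume :=
  (measurable_inv.pow_const m).aestronglyMeasurable.smul
    (continuous_dbar h.sm).aestronglyMeasurable

theorem Dat.gout (h : Dat W ρ r C K) (m : ℕ) (z : ℂ) (hz : ρ < ‖z‖) : ff m (dbar W) z = 0 := by
  rw [ff, dbar_out h.out hz, smul_zero]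

theorem Dat.fout (h : Dat W ρ r C K) (m : ℕ) (z : ℂ) (hz : ρ < ‖z‖) : ff m W z = 0 := by
  rw [ff, h.out z hz, smul_zero]

theorem Dat.gbd (h : Dat W ρ r C K) (m : ℕ) (z : ℂ) :
    ‖ff m (dbar W) z‖ ≤ C * ‖ff m W z‖ + r⁻¹ ^ m * K := by
  rcases lt_or_ge ‖z‖ r with hz | hz
  · refine le_add_of_le_of_nonneg ?_ (h.E0 m)
    rw [norm_ff, norm_ff, mul_left_comm]
    exact mul_le_mul_of_nonneg_left (h.inn z hz) (by positivity)
  · refine le_add_of_nonneg_of_le (mul_nonneg h.C0 (norm_nonneg _)) ?_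
    rw [norm_ff]
    exact mul_le_mul (pow_le_pow_left₀ (by positivity) (inv_anti₀ h.r0 hz) m) (h.bd z)
      (norm_nonneg _) (pow_nonneg (inv_nonneg.2 h.r0.le) m)

variable [CompleteSpace F]

theorem Dat.rep (h1 : Cau1Stmt) (h : Dat W ρ r C K) (m : ℕ) {β G G' : ℝ} (hβ : 0 ≤ β)
    (hβ' : β < 1) (hf : ∀ z, z ≠ 0 → ‖ff m W z‖ ≤ G * ‖z‖ ^ (-β))
    (hg : ∀ z, z ≠ 0 → ‖ff m (dbar W) z‖ ≤ G' * ‖z‖ ^ (-β)) {z : ℂ} (hz : z ≠ 0) :
    ff m W z = Tc (ff m (dbar W)) z := by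
  have e : ∀ w, w ≠ 0 → dbar (ff m W) w = ff m (dbar W) w := fun w hw =>
    dbar_smul ((differentiableAt_inv hw).pow m) (h.sm.differentiable one_ne_zero w)
  rw [← Tc_congr e]
  refine h1.2.2 F (ff m W) β (max G G') ρ hβ hβ' ?_ (h.fout m) (fun w hw => ⟨?_, ?_⟩) z hz
  · intro w hw
    have a : ContDiffAt ℂ 1 (fun y : ℂ => y⁻¹ ^ m) w := (contDiffAt_inv ℂ hw).pow m
    exact ((a.restrict_scalars ℝ).smul h.sm.contDiffAt).contDiffWithinAt
  · exact (hf w hw).trans (mul_le_mul_of_nonneg_right (le_max_left _ _) (by positivity))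
  · rw [e w hw]
    exact (hg w hw).trans (mul_le_mul_of_nonneg_right (le_max_right _ _) (by positivity))

theorem Dat.rep0 (h1 : Cau1Stmt) (h : Dat W ρ r C K) (m : ℕ) {M : ℝ} (hf : ∀ z, ‖ff m W z‖ ≤ M) :
    (∀ z, ‖ff m (dbar W) z‖ ≤ C * M + r⁻¹ ^ m * K) ∧
      ∀ z, z ≠ 0 → ff m W z = Tc (ff m (dbar W)) z := by
  have hg : ∀ z, ‖ff m (dbar W) z‖ ≤ C * M + r⁻¹ ^ m * K := fun z =>
    (h.gbd m z).trans (add_le_add (mul_le_mul_of_nonneg_left (hf z) h.C0) le_rfl)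
  refine ⟨hg, fun z hz => h.rep h1 m (β := 0) (G := M) (G' := C * M + r⁻¹ ^ m * K) le_rfl
    one_pos (fun w _ => ?_) (fun w _ => ?_) hz⟩
  · simpa using hf w
  · simpa using hg w

/-- a singularity of order one half is removable -/
theorem Dat.half (h1 : Cau1Stmt) (h : Dat W ρ r C K) (m : ℕ) {H : ℝ} (hH : 0 ≤ H)
    (hf : ∀ z, z ≠ 0 → ‖ff (m + 1) W z‖ ≤ H * ‖z‖ ^ (-(2⁻¹ : ℝ))) :
    ∃ M, ∀ z, ‖ff (m + 1) W z‖ ≤ M := by
  obtain ⟨C₂, hC₂, h2⟩ := h1.2.1 2⁻¹ (by norm_num) (by norm_num) (by norm_num)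
  have hg : ∀ z, z ≠ 0 →
      ‖ff (m + 1) (dbar W) z‖ ≤ (C * H + r⁻¹ ^ (m + 1) * K) * ‖z‖ ^ (-(2⁻¹ : ℝ)) := by
    intro z hz
    rcases lt_or_ge ρ ‖z‖ with hp | hp
    · rw [h.gout _ z hp, norm_zero]
      exact mul_nonneg (add_nonneg (mul_nonneg h.C0 hH) (h.E0 _)) (by positivity)
    · have a : 1 ≤ ‖z‖ ^ (-(2⁻¹ : ℝ)) :=
        Real.one_le_rpow_of_pos_of_le_one_of_nonpos (norm_pos_iff.2 hz) (hp.trans h.p1)
          (by norm_num)
      rw [add_mul, mul_assoc]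
      exact (h.gbd _ z).trans (add_le_add (mul_le_mul_of_nonneg_left (hf z hz) h.C0)
        (le_mul_of_one_le_right (h.E0 _) a))
  obtain ⟨G, hG⟩ : ∃ G, G = C * H + r⁻¹ ^ (m + 1) * K := ⟨_, rfl⟩
  have hG0 : 0 ≤ G := hG ▸ add_nonneg (mul_nonneg h.C0 hH) (h.E0 _)
  rw [← hG] at hg
  obtain ⟨-, b1, b2⟩ := h2 F _ G (h.meas (m + 1)) hg fun w hw => h.gout _ w (h.p1.trans_lt hw)
  have p : 0 ≤ C₂ * G := mul_nonneg hC₂.le hG0
  refine ⟨C₂ * G * 2 + C₂ * G, fun z => ?_⟩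
  rcases eq_or_ne z 0 with rfl | hz
  · simp only [ff, inv_zero, zero_pow (Nat.succ_ne_zero m), zero_smul, norm_zero]
    positivity
  rcases lt_or_ge 1 ‖z‖ with hp | hp
  · rw [h.fout _ z (h.p1.trans_lt hp), norm_zero]
    positivity
  rw [h.rep h1 (m + 1) (by norm_num) (by norm_num) hf hg hz]
  have a : ‖z‖ ^ (1 - 2⁻¹ : ℝ) ≤ 1 := Real.rpow_le_one (norm_nonneg _) hp (by norm_num)
  have b3 : C₂ * G * (‖z‖ + ‖z‖ ^ (1 - 2⁻¹ : ℝ)) ≤ C₂ * G * 2 :=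
    mul_le_mul_of_nonneg_left (by linarith) p
  exact (norm_le_norm_sub_add _ (Tc (ff (m + 1) (dbar W)) 0)).trans
    (add_le_add ((b2 z hp).trans b3) b1)

/-- either the order of vanishing is `m` or it is at least `m + 1` -/
theorem Dat.step (h1 : Cau1Stmt) (h : Dat W ρ r C K) (m : ℕ) {M : ℝ} (hf : ∀ z, ‖ff m W z‖ ≤ M) :
    (∀ᶠ z in 𝓝 (0 : ℂ), z ≠ 0 → W z ≠ 0) ∨ ∃ M', ∀ z, ‖ff (m + 1) W z‖ ≤ M' := by
  obtain ⟨C₁, hC₁, hc⟩ := h1.1
  obtain ⟨hg, e⟩ := h.rep0 h1 m hf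
  obtain ⟨-, -, hH, -⟩ := hc F _ ρ _ h.p0 (h.meas m) hg (h.gout m)
  by_cases ha : Tc (ff m (dbar W)) 0 = 0
  · right
    have hH0 : 0 ≤ C₁ * √ρ * (C * M + r⁻¹ ^ m * K) :=
      mul_nonneg (by positivity) ((norm_nonneg _).trans (hg 0))
    refine h.half h1 m hH0 fun z hz => ?_
    have a := hH z (mem_univ _) 0 (mem_univ _)
    rw [ha, sub_zero, ← e z hz, dist_zero_right] at a
    have hz' : 0 < ‖z‖ := norm_pos_iff.2 hz
    have b : ‖z‖ ^ (-(2⁻¹ : ℝ)) = ‖z‖⁻¹ * √‖z‖ := by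
      rw [Real.sqrt_eq_rpow, ← Real.rpow_neg_one ‖z‖, ← Real.rpow_add hz']
      norm_num
    rw [ff_succ, b, mul_left_comm]
    exact mul_le_mul_of_nonneg_left a (by positivity)
  · left
    have c : ContinuousAt (Tc (ff m (dbar W))) 0 :=
      (continuousOn_univ.1 hH.continuousOn).continuousAt
    filter_upwards [c.eventually_ne ha] with z hz hz0 hW
    rw [← e z hz0, ff, hW, smul_zero] at hz
    exact hz rfl

/-- vanishing to infinite order -/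
theorem Dat.flat (h1 : Cau1Stmt) (h : Dat W ρ r C K) {C₁ : ℝ} (hC₁ : 0 < C₁)
    (hc : ∀ (g : ℂ → F) (G : ℝ), AEStronglyMeasurable g volume → (∀ w, ‖g w‖ ≤ G) →
      (∀ w, ρ < ‖w‖ → g w = 0) → ∀ z, ‖Tc g z‖ ≤ C₁ * ρ * G) (hs : C₁ * ρ * C ≤ 1 / 2)
    (h0 : W 0 = 0) (hf : ∀ m, ∃ M, ∀ z, ‖ff m W z‖ ≤ M) {z : ℂ} (hz : ‖z‖ < r) : W z = 0 := by
  rcases eq_or_ne z 0 with rfl | hz0
  · exact h0
  have hp : 0 ≤ C₁ * ρ := mul_nonneg hC₁.le h.p0.le
  have key : ∀ m, ‖ff m W z‖ ≤ 2 * (C₁ * ρ * (r⁻¹ ^ m * K)) := by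
    intro m
    obtain ⟨M, hM⟩ := hf m
    have hb : BddAbove (range fun y => ‖ff m W y‖) := ⟨M, by rintro _ ⟨y, rfl⟩; exact hM y⟩
    obtain ⟨S, hS⟩ : ∃ S, S = ⨆ y, ‖ff m W y‖ := ⟨_, rfl⟩
    have s1 : ∀ y, ‖ff m W y‖ ≤ S := fun y => hS ▸ le_ciSup hb y
    have s0 : 0 ≤ S := (norm_nonneg _).trans (s1 0)
    obtain ⟨hg, e⟩ := h.rep0 h1 m s1
    have s2 : S ≤ C₁ * ρ * (C * S + r⁻¹ ^ m * K) := by
      refine hS.trans_le (ciSup_le fun y => ?_)
      rcases eq_or_ne y 0 with rfl | hy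
      · rw [ff, h0, smul_zero, norm_zero]
        exact mul_nonneg hp ((norm_nonneg _).trans (hg 0))
      · rw [e y hy]
        exact hc _ _ (h.meas m) hg (h.gout m) y
    have s3 := mul_le_mul_of_nonneg_right hs s0
    linarith [s1 z]
  have hz' : 0 < ‖z‖ := norm_pos_iff.2 hz0
  have lim : Tendsto (fun m : ℕ => 2 * (C₁ * ρ * K) * (‖z‖ / r) ^ m) atTop
      (𝓝 (2 * (C₁ * ρ * K) * 0)) :=
    (tendsto_pow_atTop_nhds_zero_of_lt_one (div_nonneg hz'.le h.r0.le)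
      ((div_lt_one h.r0).2 hz)).const_mul _
  rw [mul_zero] at lim
  refine norm_le_zero_iff.1 (ge_of_tendsto' lim fun m => ?_)
  have a := mul_le_mul_of_nonneg_left (key m) (pow_nonneg hz'.le m)
  rw [norm_ff, ← mul_assoc, ← mul_pow, mul_inv_cancel₀ hz'.ne', one_pow, one_mul] at a
  refine a.trans_eq ?_
  rw [div_eq_mul_inv, mul_pow]
  ring

/-- the complex linear case at the origin -/
theorem core0 (h1 : Cau1Stmt) {W : ℂ → F} {C : ℝ} (hC : 0 ≤ C) (hW : ContDiffAt ℝ 1 W 0)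
    (hb : ∀ᶠ z in 𝓝 (0 : ℂ), ‖dbar W z‖ ≤ C * ‖W z‖) :
    (∀ᶠ z in 𝓝 (0 : ℂ), W z = 0) ∨ ∀ᶠ z in 𝓝 (0 : ℂ), z ≠ 0 → W z ≠ 0 := by
  by_cases h0 : W 0 = 0
  swap
  · exact Or.inr ((hW.continuousAt.eventually_ne h0).mono fun z hz _ => hz)
  obtain ⟨C₁, hC₁, hc⟩ := h1.1
  obtain ⟨ε, hε, he⟩ := Metric.eventually_nhds_iff.1 ((hW.eventually (by simp)).and hb)
  obtain ⟨ρ, p0, p1, p2, p3⟩ : ∃ ρ : ℝ, 0 < ρ ∧ ρ ≤ 1 ∧ ρ < ε ∧ C₁ * ρ * C ≤ 1 / 2 := by
    refine ⟨min 1 (min (ε / 2) (1 / (2 * (C₁ * C) + 1))), by positivity, min_le_left _ _,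
      ((min_le_right _ _).trans (min_le_left _ _)).trans_lt (half_lt_self hε), ?_⟩
    have a : min 1 (min (ε / 2) (1 / (2 * (C₁ * C) + 1))) ≤ 1 / (2 * (C₁ * C) + 1) :=
      (min_le_right _ _).trans (min_le_right _ _)
    have b : 0 < min 1 (min (ε / 2) (1 / (2 * (C₁ * C) + 1))) := by positivity
    rw [le_div_iff₀ (by positivity)] at a
    linarith
  let χ : ContDiffBump (0 : ℂ) := ⟨ρ / 2, ρ, half_pos p0, half_lt_self p0⟩
  obtain ⟨U, hU⟩ : ∃ U : ℂ → F, U = fun z => χ z • W z := ⟨_, rfl⟩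
  have out : ∀ z, ρ < ‖z‖ → U z = 0 := fun z hz => by
    rw [hU]
    simp only [χ.zero_of_le_dist (x := z) (by rw [dist_zero_right]; exact hz.le), zero_smul]
  have sm : ContDiff ℝ 1 U := by
    refine contDiff_iff_contDiffAt.2 fun z => ?_
    rcases lt_or_ge ρ ‖z‖ with hz | hz
    · exact contDiffAt_const.congr_of_eventuallyEq
        ((continuous_norm.continuousAt.eventually (lt_mem_nhds hz)).mono out)
    · rw [hU]
      exact χ.contDiff.contDiffAt.smul (he (by rw [dist_zero_right]; exact hz.trans_lt p2)).1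
  have eq : ∀ z, ‖z‖ < ρ / 2 → U =ᶠ[𝓝 z] W := fun z hz => by
    filter_upwards [χ.eventuallyEq_one_of_mem_ball (x := z) (mem_ball_zero_iff.2 hz)] with y hy
    rw [hU]
    simp only [hy, Pi.one_apply, one_smul]
  have bdd : ∀ g : ℂ → F, Continuous g → (∀ z, ρ < ‖z‖ → g z = 0) → ∃ K, ∀ z, ‖g z‖ ≤ K := by
    intro g hg h
    obtain ⟨K, hK⟩ := (isCompact_closedBall (0 : ℂ) ρ).exists_bound_of_continuousOn hg.continuousOn
    refine ⟨K, fun z => ?_⟩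
    rcases lt_or_ge ρ ‖z‖ with hz | hz
    · rw [h z hz, norm_zero]
      exact (norm_nonneg _).trans (hK 0 (mem_closedBall_self p0.le))
    · exact hK z (mem_closedBall_zero_iff.2 hz)
  obtain ⟨K, hK⟩ := bdd _ (continuous_dbar sm) fun z hz => dbar_out out hz
  have hd : Dat U ρ (ρ / 2) C K := by
    refine ⟨sm, half_pos p0, p0, p1, hC, out, hK, fun z hz => ?_⟩
    rw [dbar_congr (eq z hz), (eq z hz).eq_of_nhds]
    exact (he (by rw [dist_zero_right]; linarith)).2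
  have e0 := eq 0 (by rw [norm_zero]; exact half_pos p0)
  refine or_iff_not_imp_right.2 fun hn => ?_
  have all : ∀ m, ∃ M, ∀ z, ‖ff m U z‖ ≤ M := by
    intro m
    induction m with
    | zero => simpa only [ff, pow_zero, one_smul] using bdd U sm.continuous out
    | succ m ih =>
      obtain ⟨M, hM⟩ := ih
      refine (hd.step h1 m hM).resolve_left fun k => hn ?_
      filter_upwards [k, e0] with z a b c
      exact b ▸ a c
  filter_upwards [e0, ball_mem_nhds (0 : ℂ) (half_pos p0)] with z a b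
  rw [← a]
  exact hd.flat h1 hC₁ (fun g G m1 m2 m3 => (hc F g ρ G p0 m1 m2 m3).2.1) p3
    (e0.eq_of_nhds.trans h0) all (mem_ball_zero_iff.1 b)

/-- the complex linear case -/
theorem core (h1 : Cau1Stmt) {W : ℂ → F} {C : ℝ} {z₀ : ℂ} (hC : 0 ≤ C) (hW : ContDiffAt ℝ 1 W z₀)
    (hb : ∀ᶠ z in 𝓝 z₀, ‖dbar W z‖ ≤ C * ‖W z‖) :
    (∀ᶠ z in 𝓝 z₀, W z = 0) ∨ ∀ᶠ z in 𝓝[≠] z₀, W z ≠ 0 := by
  have t1 : Tendsto (fun z : ℂ => z₀ + z) (𝓝 0) (𝓝 z₀) :=
    (continuous_const.add continuous_id).tendsto' 0 z₀ (add_zero z₀)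
  have t2 : Tendsto (fun z : ℂ => z - z₀) (𝓝 z₀) (𝓝 0) :=
    (continuous_id.sub continuous_const).tendsto' z₀ 0 (sub_self z₀)
  have hW' : ContDiffAt ℝ 1 (fun z => W (z₀ + z)) 0 :=
    ContDiffAt.comp (g := W) 0 (by rwa [add_zero]) (contDiffAt_const.add contDiffAt_id)
  have hb' : ∀ᶠ z in 𝓝 (0 : ℂ), ‖dbar (fun z => W (z₀ + z)) z‖ ≤ C * ‖W (z₀ + z)‖ := by
    filter_upwards [t1.eventually hb] with z hz
    rw [dbar, fderiv_comp_add_left]
    exact hz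
  refine (core0 h1 hC hW' hb').imp (fun k => ?_) fun k => ?_
  · filter_upwards [t2.eventually k] with z hz
    rwa [add_sub_cancel] at hz
  · rw [eventually_nhdsWithin_iff]
    filter_upwards [t2.eventually k] with z hz hne
    rw [add_sub_cancel] at hz
    exact hz (sub_ne_zero.2 hne)

variable {V : Type} [NormedAddCommGroup V] [NormedSpace ℝ V]

omit [CompleteSpace F] in
theorem dbar_cx (l : V →L[ℝ] F) {j : ℂ → En0 V} {w : ℂ → V} {z : ℂ} (hj : DifferentiableAt ℝ j z)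
    (hw : DifferentiableAt ℝ w z) (hsq : ∀ v, j z (j z v) = -v) :
    dbar (fun y => l (w y) - I • l (j y (w y))) z = (2⁻¹ : ℂ) •
      (l (fderiv ℝ w z 1 + j z (fderiv ℝ w z I)) -
        I • l (j z (fderiv ℝ w z 1 + j z (fderiv ℝ w z I))) +
        (l (fderiv ℝ j z I (w z)) - I • l (fderiv ℝ j z 1 (w z)))) := by
  have a := l.hasFDerivAt.comp z hw.hasFDerivAt
  have b := (l.hasFDerivAt.comp z (hj.hasFDerivAt.clm_apply hw.hasFDerivAt)).const_smul I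
  have h := (a.sub b).fderiv
  have e : (fun y => l (w y) - I • l (j y (w y))) =
      (l ∘ w) - I • (l ∘ fun y => j y (w y)) := rfl
  rw [dbar, e, h]
  simp only [_root_.sub_apply, _root_.smul_apply,
    ContinuousLinearMap.comp_apply, _root_.add_apply, ContinuousLinearMap.flip_apply,
    map_add, hsq, map_neg, smul_sub, smul_add, smul_smul, I_mul_I, neg_smul, one_smul, smul_neg]
  abel

theorem red (h1 : Cau1Stmt) (l : V →L[ℝ] F) (μ : F →L[ℝ] V) (hl : ∀ v, μ (l v) = v)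
    (hI : ∀ v, μ (I • l v) = 0) {j : ℂ → En0 V} {w : ℂ → V} {z₀ : ℂ} {C : ℝ}
    (hj : ContDiffAt ℝ 1 j z₀) (hw : ContDiffAt ℝ 1 w z₀)
    (h : ∀ᶠ z in 𝓝 z₀, (∀ v, j z (j z v) = -v) ∧
      ‖fderiv ℝ w z 1 + j z (fderiv ℝ w z I)‖ ≤ C * ‖w z‖) :
    (∀ᶠ z in 𝓝 z₀, w z = 0) ∨ ∀ᶠ z in 𝓝[≠] z₀, w z ≠ 0 := by
  obtain ⟨W, hW⟩ : ∃ W : ℂ → F, W = fun y => l (w y) - I • l (j y (w y)) := ⟨_, rfl⟩
  have inv : ∀ z, μ (W z) = w z := fun z => by rw [hW, map_sub, hl, hI, sub_zero]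
  have sm : ContDiffAt ℝ 1 W z₀ := by
    rw [hW]
    exact (l.contDiff.contDiffAt.comp z₀ hw).sub
      ((l.contDiff.contDiffAt.comp z₀ (hj.clm_apply hw)).const_smul I)
  obtain ⟨A, hA⟩ : ∃ A, A = ‖j z₀‖ + 1 := ⟨_, rfl⟩
  obtain ⟨B, hB⟩ : ∃ B, B = ‖fderiv ℝ j z₀‖ + 1 := ⟨_, rfl⟩
  have e1 : ∀ᶠ z in 𝓝 z₀, ‖j z‖ < A :=
    hj.continuousAt.norm.eventually (gt_mem_nhds (hA ▸ lt_add_one _))
  have e2 : ∀ᶠ z in 𝓝 z₀, ‖fderiv ℝ j z‖ < B :=
    (hj.continuousAt_fderiv one_ne_zero).norm.eventually (gt_mem_nhds (hB ▸ lt_add_one _))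
  have A0 : 0 ≤ A := by rw [hA]; positivity
  have B0 : 0 ≤ B := by rw [hB]; positivity
  have bd : ∀ᶠ z in 𝓝 z₀,
      ‖dbar W z‖ ≤ ‖l‖ * (|C| + A * |C| + (B + B)) * ‖μ‖ * ‖W z‖ := by
    filter_upwards [h, e1, e2, hj.eventually (by simp), hw.eventually (by simp)]
      with z ⟨hsq, he⟩ a1 a2 a3 a4
    have b0 : ‖w z‖ ≤ ‖μ‖ * ‖W z‖ := inv z ▸ μ.le_opNorm _
    have b1 := he.trans (mul_le_mul_of_nonneg_right (le_abs_self C) (norm_nonneg _))
    rw [hW, dbar_cx l (a3.differentiableAt one_ne_zero) (a4.differentiableAt one_ne_zero) hsq]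
    generalize fderiv ℝ w z 1 + j z (fderiv ℝ w z I) = e at b1 ⊢
    have b2 : ‖j z e‖ ≤ A * (|C| * ‖w z‖) :=
      ((j z).le_opNorm e).trans (mul_le_mul a1.le b1 (norm_nonneg _) A0)
    have b3 : ∀ a : ℂ, ‖a‖ = 1 → ‖fderiv ℝ j z a (w z)‖ ≤ B * ‖w z‖ := fun a ha => by
      refine ((fderiv ℝ j z a).le_opNorm _).trans (mul_le_mul_of_nonneg_right ?_ (norm_nonneg _))
      have := (fderiv ℝ j z).le_opNorm a
      rw [ha, mul_one] at this
      exact this.trans a2.le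
    have b4 : ∀ (v v' : V) (s s' : ℝ), ‖v‖ ≤ s → ‖v'‖ ≤ s' →
        ‖l v - I • l v'‖ ≤ ‖l‖ * s + ‖l‖ * s' := fun v v' s s' hv hv' => by
      refine (norm_sub_le _ _).trans (add_le_add (l.le_opNorm_of_le hv) ?_)
      rw [norm_smul, norm_I, one_mul]
      exact l.le_opNorm_of_le hv'
    have b5 := (norm_add_le _ _).trans
      (add_le_add (b4 _ _ _ _ b1 b2) (b4 _ _ _ _ (b3 I norm_I) (b3 1 norm_one)))
    have b6 : ‖(2⁻¹ : ℂ)‖ ≤ 1 := by norm_num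
    rw [norm_smul, ← hW, mul_assoc _ ‖μ‖]
    refine (mul_le_of_le_one_left (norm_nonneg _) b6).trans (b5.trans ?_)
    refine le_trans (le_of_eq ?_) (mul_le_mul_of_nonneg_left b0 (by positivity))
    ring
  refine (core h1 (by positivity) sm bd).imp (fun k => k.mono fun z hz => ?_)
    fun k => k.mono fun z hz h0 => hz ?_
  · rw [← inv z, hz, map_zero]
  · rw [hW]
    simp only [h0, map_zero, smul_zero, sub_zero]

end HwP

theorem hw_of (h1 : Cau1Stmt) : HwStmt := by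
  intro V _ _ _ j w z₀ C hj hw h
  let φ : V ≃L[ℝ] (Fin (Module.finrank ℝ V) → ℝ) := ContinuousLinearEquiv.ofFinrankEq (by simp)
  let l : V →L[ℝ] (Fin (Module.finrank ℝ V) → ℂ) :=
    (ContinuousLinearMap.pi fun i => ofRealCLM.comp (ContinuousLinearMap.proj i)).comp
      (φ : V →L[ℝ] (Fin (Module.finrank ℝ V) → ℝ))
  let μ : (Fin (Module.finrank ℝ V) → ℂ) →L[ℝ] V :=
    (φ.symm : (Fin (Module.finrank ℝ V) → ℝ) →L[ℝ] V).comp
      (ContinuousLinearMap.pi fun i => reCLM.comp (ContinuousLinearMap.proj i))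
  refine HwP.red h1 l μ (fun v => ?_) (fun v => ?_) hj hw h
  · exact φ.symm_apply_apply v
  · refine (congrArg φ.symm (funext fun i => ?_)).trans φ.symm.map_zero
    change (I * (φ v i : ℂ)).re = 0
    simp

end Pool.Agent.MP_9758ca_gt

end

section

/-!
PROJECT BALL, module LOC: local convergence of holomorphic maps of bounded energy away from
finitely many points, removal of the singular points, and convergence of areas.
-/

open scoped Topology ContDiff ComplexConjugate ENNReal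
open Set Metric Filter Complex MeasureTheory

namespace Pool.Agent.MP_9758ca_gt

namespace LocP

section General
variable {ι X E : Type} [PseudoMetricSpace X] [NormedAddCommGroup E]

lemma unif_of_lip {l : Filter ι} [l.NeBot] {f : ι → X → E} {g : X → E} {s : Set X}
    (hs : IsCompact s) {C : ℝ} (hC : 0 ≤ C)
    (hl : ∀ᶠ ν in l, ∀ x ∈ s, ∀ y ∈ s, ‖f ν x - f ν y‖ ≤ C * dist x y)
    (hp : ∀ x ∈ s, Tendsto (fun ν => f ν x) l (𝓝 (g x))) :
    TendstoUniformlyOn f g l s ∧ ∀ x ∈ s, ∀ y ∈ s, ‖g x - g y‖ ≤ C * dist x y := by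
  have hg : ∀ x ∈ s, ∀ y ∈ s, ‖g x - g y‖ ≤ C * dist x y := fun x hx y hy =>
    le_of_tendsto ((hp x hx).sub (hp y hy)).norm (hl.mono fun ν h => h x hx y hy)
  refine ⟨Metric.tendstoUniformlyOn_iff.2 fun ε hε => ?_, hg⟩
  have hδ : 0 < ε / 3 / (C + 1) := by positivity
  obtain ⟨t, hts, htf, hcov⟩ := Metric.finite_approx_of_totallyBounded hs.totallyBounded _ hδ
  have h1 : ∀ᶠ ν in l, ∀ y ∈ t, dist (f ν y) (g y) < ε / 3 :=
    (eventually_all_finite htf).2 fun y hy =>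
      Metric.tendsto_nhds.1 (hp y (hts hy)) _ (by positivity)
  filter_upwards [h1, hl] with ν h1 hl x hx
  obtain ⟨y, hy, hxy⟩ := mem_iUnion₂.1 (hcov hx)
  have h2 : C * dist x y ≤ ε / 3 := by
    calc C * dist x y ≤ (C + 1) * (ε / 3 / (C + 1)) := by
          gcongr
          exacts [by linarith, (mem_ball.1 hxy).le]
      _ = ε / 3 := by field_simp
  have h3 := hg x hx y (hts hy)
  have h4 := hl x hx y (hts hy)
  have h5 := h1 y hy
  have h6 := dist_triangle4 (g x) (g y) (f ν y) (f ν x)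
  rw [← dist_eq_norm] at h3 h4
  rw [dist_comm (g y), dist_comm (f ν y) (f ν x)] at h6
  linarith

lemma ex_lim (𝓤 : Ultrafilter ι) (f : ι → X → E) (W : Set X)
    (h : ∀ z ∈ W, ∃ S, IsCompact S ∧ ∀ᶠ ν in (𝓤 : Filter ι), f ν z ∈ S) :
    ∃ g : X → E, ∀ z ∈ W, Tendsto (fun ν => f ν z) 𝓤 (𝓝 (g z)) := by
  have : ∀ z, ∃ y, z ∈ W → Tendsto (fun ν => f ν z) 𝓤 (𝓝 y) := fun z => by
    by_cases hz : z ∈ W
    · obtain ⟨S, hS, h1⟩ := h z hz
      obtain ⟨y, -, hy⟩ := hS.ultrafilter_le_nhds (𝓤.map fun ν => f ν z) (by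
        rw [Ultrafilter.coe_map, le_principal_iff]; exact h1)
      exact ⟨y, fun _ => hy⟩
    · exact ⟨0, fun h => absurd h hz⟩
  choose g hg using this
  exact ⟨g, hg⟩

lemma int_unif {l : Filter ι} {f : ι → ℂ → ℝ} {g : ℂ → ℝ} {L A : Set ℂ} (hL : IsCompact L)
    (hA : A ⊆ L) (hf : ∀ᶠ ν in l, ContinuousOn (f ν) L) (hg : ContinuousOn g L)
    (h : TendstoUniformlyOn f g l L) :
    Tendsto (fun ν => ∫ w in A, f ν w) l (𝓝 (∫ w in A, g w)) := by
  have hv : volume A < ⊤ := (measure_mono hA).trans_lt hL.measure_lt_top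
  refine Metric.tendsto_nhds.2 fun ε hε => ?_
  have h0 : 0 ≤ volume.real A := measureReal_nonneg
  have hδ : 0 < ε / (volume.real A + 1) := by positivity
  filter_upwards [hf, Metric.tendstoUniformlyOn_iff.1 h _ hδ] with ν h1 h2
  rw [dist_eq_norm, ← integral_sub ((h1.integrableOn_compact hL).mono_set hA)
    ((hg.integrableOn_compact hL).mono_set hA)]
  refine (norm_setIntegral_le_of_norm_le_const hv (C := ε / (volume.real A + 1))
    fun x hx => ?_).trans_lt ?_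
  · rw [← dist_eq_norm, dist_comm]; exact (h2 x (hA hx)).le
  · rw [div_mul_eq_mul_div, div_lt_iff₀ (by positivity)]; nlinarith

lemma tend_U (Z : Finset ℂ) {f : ℂ → ℝ} {L : Set ℂ} (hf : IntegrableOn f L) :
    Tendsto (fun ε : ℝ => ∫ w in L ∩ ⋃ z ∈ Z, closedBall z ε, f w) (𝓝 0) (𝓝 0) := by
  have h1 := tendsto_measure_cthickening_of_isCompact (μ := volume) Z.finite_toSet.isCompact
  rw [Z.finite_toSet.measure_zero] at h1
  have h2 : Tendsto ((volume.restrict L) ∘ fun ε : ℝ => ⋃ z ∈ Z, closedBall z ε) (𝓝 0) (𝓝 0) :=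
    tendsto_of_tendsto_of_tendsto_of_le_of_le tendsto_const_nhds h1 (fun _ => zero_le)
      fun ε => (Measure.restrict_le_self _).trans (measure_mono (iUnion₂_subset fun z hz =>
        closedBall_subset_cthickening (Finset.mem_coe.2 hz) ε))
  refine (hf.tendsto_setIntegral_nhds_zero h2).congr fun ε => ?_
  rw [Measure.restrict_restrict (Z.measurableSet_biUnion fun _ _ => measurableSet_closedBall),
    inter_comm]

lemma ev_balls (Z : Finset ℂ) {Ω : Set ℂ} (h : ∀ z ∈ Z, Ω ∈ 𝓝 z) : ∀ᶠ ε in 𝓝 (0 : ℝ),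
    (∀ z ∈ Z, closedBall z ε ⊆ Ω) ∧ ∀ z ∈ Z, ∀ z' ∈ Z, z ≠ z' → ε + ε < dist z z' := by
  refine ((eventually_all_finset Z).2 fun z hz => eventually_closedBall_subset (h z hz)).and
    ((eventually_all_finset Z).2 fun z _ => (eventually_all_finset Z).2 fun z' _ => ?_)
  by_cases hz : z = z'
  · exact Eventually.of_forall fun _ h => absurd hz h
  · have h1 : Tendsto (fun ε : ℝ => ε + ε) (𝓝 0) (𝓝 (0 + 0)) := tendsto_id.add tendsto_id
    rw [add_zero] at h1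
    exact (h1.eventually (gt_mem_nhds (dist_pos.2 hz))).mono fun ε h _ => h

lemma ex_pos {p : ℝ → Prop} (h : ∀ᶠ ε in 𝓝 (0 : ℝ), p ε) : ∃ ε, 0 < ε ∧ p ε :=
  ((h.filter_mono nhdsWithin_le_nhds).and (self_mem_nhdsWithin (s := Ioi 0))).exists.imp
    fun _ h => ⟨h.2, h.1⟩

end General

variable {V : Type} [NormedAddCommGroup V] [NormedSpace ℝ V]

/-- continuity of a map and of its derivative on `L`, values in `K` -/
def G1 (K : Set V) (u : ℂ → V) (L : Set ℂ) : Prop :=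
  ContinuousOn u L ∧ ContinuousOn (fderiv ℝ u) L ∧ MapsTo u L K

lemma G1.mono {K : Set V} {u : ℂ → V} {L L' : Set ℂ} (h : G1 K u L) (hL : L' ⊆ L) : G1 K u L' :=
  ⟨h.1.mono hL, h.2.1.mono hL, h.2.2.mono_left hL⟩

lemma g1_of {K : Set V} {u : ℂ → V} {Ω : Set ℂ} (hΩ : IsOpen Ω) (h : ContDiffOn ℝ 1 u Ω)
    (hK : MapsTo u Ω K) : G1 K u Ω :=
  ⟨h.continuousOn, h.continuousOn_fderiv_of_isOpen hΩ le_rfl, hK⟩

lemma hn_mono {J : V → En0 V} {K : Set V} {u : ℂ → V} {L L' : Set ℂ} (h : HolNear J K u L)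
    (hL : L' ⊆ L) : HolNear J K u L' := by
  obtain ⟨N, h1, h2, h3⟩ := h
  exact ⟨N, h1, hL.trans h2, h3⟩

lemma hn_g1 {J : V → En0 V} {K : Set V} {u : ℂ → V} {L : Set ℂ} (h : HolNear J K u L) :
    G1 K u L := by
  obtain ⟨N, h1, h2, h3, h4⟩ := h
  exact (g1_of h1 (h3.sm.of_le (by norm_num)) h4).mono h2

lemma G1.comp {K : Set V} {u : ℂ → V} {L : Set ℂ} (h : G1 K u L) {Φ : V × (ℂ →L[ℝ] V) → ℝ}
    (hΦ : ContinuousOn Φ (K ×ˢ univ)) : ContinuousOn (fun w => Φ (u w, fderiv ℝ u w)) L :=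
  hΦ.comp (h.1.prodMk h.2.1) fun _ hw => ⟨h.2.2 hw, mem_univ _⟩

lemma phi_en (K : Set V) :
    ContinuousOn (fun q : V × (ℂ →L[ℝ] V) => ‖q.2‖ ^ 2) (K ×ˢ univ) := by fun_prop

lemma phi_dens {K : Set V} {β : F2 V} (hβ : ContinuousOn β K) :
    ContinuousOn (fun q : V × (ℂ →L[ℝ] V) => β q.1 (q.2 1) (q.2 I)) (K ×ˢ univ) :=
  ((hβ.comp continuousOn_fst fun _ h => h.1).clm_apply
    (continuousOn_snd.clm_apply continuousOn_const)).clm_apply
    (continuousOn_snd.clm_apply continuousOn_const)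

lemma G1.int_en {K : Set V} {u : ℂ → V} {L : Set ℂ} (h : G1 K u L) (hL : IsCompact L) :
    IntegrableOn (fun w => ‖fderiv ℝ u w‖ ^ 2) L :=
  (h.comp (phi_en K)).integrableOn_compact hL

lemma G1.en_mono {K : Set V} {u : ℂ → V} {L L' : Set ℂ} (h : G1 K u L) (hL : IsCompact L)
    (hs : L' ⊆ L) : En u L' ≤ En u L :=
  setIntegral_mono_set (h.int_en hL) (Eventually.of_forall fun _ => by positivity)
    hs.eventuallyLE

lemma en_nonneg (u : ℂ → V) (L : Set ℂ) : 0 ≤ En u L := integral_nonneg fun _ => by positivity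

lemma conv_int [FiniteDimensional ℝ V] {ι : Type} {l : Filter ι} {K : Set V} (hK : IsCompact K)
    {u : ι → ℂ → V} {u₀ : ℂ → V} {L A : Set ℂ} (hL : IsCompact L) (hA : A ⊆ L)
    (hu : ∀ᶠ ν in l, G1 K (u ν) L) (h₀ : G1 K u₀ L) (h1 : TendstoUniformlyOn u u₀ l L)
    (h2 : TendstoUniformlyOn (fun ν => fderiv ℝ (u ν)) (fderiv ℝ u₀) l L)
    {Φ : V × (ℂ →L[ℝ] V) → ℝ} (hΦ : ContinuousOn Φ (K ×ˢ univ)) :
    Tendsto (fun ν => ∫ w in A, Φ (u ν w, fderiv ℝ (u ν) w)) l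
      (𝓝 (∫ w in A, Φ (u₀ w, fderiv ℝ u₀ w))) := by
  have : ProperSpace (ℂ →L[ℝ] V) := FiniteDimensional.proper_real _
  obtain ⟨B, hB⟩ := hL.exists_bound_of_continuousOn h₀.2.1
  have h3 : TendstoUniformlyOn (fun ν w => (u ν w, fderiv ℝ (u ν) w))
      (fun w => (u₀ w, fderiv ℝ u₀ w)) l L := fun s hs => (h1.prodMk h2 s hs).diag_of_prod
  have hS : IsCompact (K ×ˢ closedBall (0 : ℂ →L[ℝ] V) (B + 1)) :=
    hK.prod (isCompact_closedBall _ _)
  refine int_unif hL hA (hu.mono fun ν h => h.comp hΦ) (h₀.comp hΦ)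
    (UniformContinuousOn.comp_tendstoUniformlyOn_eventually ?_ ?_
      (hS.uniformContinuousOn_of_continuous (hΦ.mono (prod_mono_right (subset_univ _)))) h3)
  · filter_upwards [hu, Metric.tendstoUniformlyOn_iff.1 h2 1 one_pos] with ν h4 h5 w hw
    refine ⟨h4.2.2 hw, mem_closedBall_zero_iff.2 ?_⟩
    have h6 := h5 w hw
    have h7 := norm_sub_norm_le (fderiv ℝ (u ν) w) (fderiv ℝ u₀ w)
    rw [dist_comm, dist_eq_norm] at h6
    linarith [hB w hw]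
  · exact fun w hw => ⟨h₀.2.2 hw, mem_closedBall_zero_iff.2 ((hB w hw).trans (by linarith))⟩

lemma en_le [FiniteDimensional ℝ V] {ι : Type} {𝓤 : Ultrafilter ι} {K : Set V} (hK : IsCompact K)
    {J : ι → V → En0 V} {u : ι → ℂ → V} {v : ℂ → V} {Ω W : Set ℂ} {E₀ : ℝ}
    (hu : GSeq K 𝓤 J u Ω E₀) (hW : W ⊆ Ω) (hc : CConv 𝓤 u v W) (hv : G1 K v W) (L : Set ℂ)
    (hL : IsCompact L) (hLW : L ⊆ W) : En v L ≤ E₀ := by
  have h1 := hu L hL (hLW.trans hW)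
  obtain ⟨h2, h3, -⟩ := hc L hL hLW
  exact le_of_tendsto (conv_int hK hL subset_rfl (h1.mono fun ν h => hn_g1 h.1) (hv.mono hLW)
    h2 h3 (phi_en K)) (h1.mono fun ν h => h.2)

lemma finite_bad {ι : Type} {𝓤 : Ultrafilter ι} {K : Set V} {J : ι → V → En0 V}
    {u : ι → ℂ → V} {Ω : Set ℂ} {E₀ hb : ℝ} (hb0 : 0 < hb) (hΩ : IsOpen Ω)
    (hu : GSeq K 𝓤 J u Ω E₀) : {z | z ∈ Ω ∧ ¬ MassLt 𝓤 u z hb}.Finite := by
  by_contra hinf
  obtain ⟨n, hn⟩ := exists_nat_gt (E₀ / hb)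
  obtain ⟨s, hs, hcard⟩ := Set.Infinite.exists_subset_card_eq hinf n
  obtain ⟨ε₀, h0, h1, h2⟩ := ex_pos (ev_balls s fun z hz => hΩ.mem_nhds (hs hz).1)
  have h3 : ∀ z, ∃ ε, z ∈ s → ε ≤ ε₀ ∧
      ∀ᶠ ν in (𝓤 : Filter ι), hb ≤ En (u ν) (closedBall z ε) := fun z => by
    by_cases hz : z ∈ s
    · have := (hs hz).2
      unfold MassLt at this
      push Not at this
      obtain ⟨ε, -, h4, h5⟩ := this ε₀ h0
      exact ⟨ε, fun _ => ⟨h4, h5⟩⟩
    · exact ⟨0, fun h => absurd h hz⟩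
  choose ε hε using h3
  have hL : IsCompact (⋃ z ∈ s, closedBall z (ε z)) :=
    s.isCompact_biUnion fun z _ => isCompact_closedBall _ _
  obtain ⟨ν, h4, h5⟩ := ((hu _ hL (iUnion₂_subset fun z hz =>
    (closedBall_subset_closedBall (hε z hz).1).trans (h1 z hz))).and
    ((eventually_all_finset s).2 fun z hz => (hε z hz).2)).exists
  have h6 : En (u ν) (⋃ z ∈ s, closedBall z (ε z)) = ∑ z ∈ s, En (u ν) (closedBall z (ε z)) :=
    integral_biUnion_finset s (fun _ _ => measurableSet_closedBall)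
      (fun z hz z' hz' hne => closedBall_disjoint_closedBall
        ((add_le_add (hε z hz).1 (hε z' hz').1).trans_lt (h2 z hz z' hz' hne)))
      fun z hz => ((hn_g1 h4.1).int_en hL).mono_set
        (subset_biUnion_of_mem (u := fun z => closedBall z (ε z)) hz)
  have h7 := Finset.card_nsmul_le_sum s _ hb h5
  rw [hcard, nsmul_eq_mul, ← h6] at h7
  rw [div_lt_iff₀ hb0] at hn
  linarith [h4.2]

/-- local bounds for the first two derivatives -/
def Bd2 {ι : Type} (K : Set V) (𝓤 : Ultrafilter ι) (J : ι → V → En0 V) (u : ι → ℂ → V)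
    (W : Set ℂ) (z : ℂ) : Prop :=
  ∃ δ > (0 : ℝ), ∃ C, 0 ≤ C ∧ closedBall z δ ⊆ W ∧ ∀ᶠ ν in (𝓤 : Filter ι),
    HolNear (J ν) K (u ν) (closedBall z δ) ∧ ∀ w ∈ closedBall z δ,
      ‖fderiv ℝ (u ν) w‖ ≤ C ∧ ‖fderiv ℝ (fderiv ℝ (u ν)) w‖ ≤ C

lemma loc_bd [FiniteDimensional ℝ V] (h1 : ApriStmt) {M K : Set V} {om : F2 V} {R Λ c hb : ℝ}
    (hE : Eps1 M K om R Λ c hb) {ι : Type} {𝓤 : Ultrafilter ι} {J : ι → V → En0 V}
    (hJ : ∀ ν, EnvJ M K om R Λ c (J ν)) {u : ι → ℂ → V} {Ω W : Set ℂ} {E₀ : ℝ}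
    (hu : GSeq K 𝓤 J u Ω E₀) (hW : W ⊆ Ω) {z : ℂ} (hz : W ∈ 𝓝 z) (hm : MassLt 𝓤 u z hb) :
    Bd2 K 𝓤 J u W z := by
  obtain ⟨C, hC⟩ := hE
  obtain ⟨ε₀, h0, hm⟩ := hm
  obtain ⟨ε, hε, h2, h3⟩ := ex_pos ((eventually_closedBall_subset hz).and (ge_mem_nhds h0))
  set L := |C| * hb ^ (6⁻¹ : ℝ) with hL
  obtain ⟨C', hC', h4⟩ := (h1 V).1 R Λ L
  refine ⟨ε / 4, by positivity, |L| / (ε / 4) + C' / (ε / 4) ^ 2, by positivity,
    (closedBall_subset_closedBall (by linarith)).trans h2, ?_⟩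
  filter_upwards [hu _ (isCompact_closedBall z ε) (h2.trans hW), hm ε hε h3] with ν h5 h6
  have h7 : ∀ w ∈ closedBall z (ε / 2), ε / 4 * ‖fderiv ℝ (u ν) w‖ ≤ L := fun w hw => by
    have hs : closedBall w (ε / 4) ⊆ closedBall z ε :=
      closedBall_subset_closedBall' (by linarith [mem_closedBall.1 hw])
    have h8 := ((hn_g1 h5.1).en_mono (isCompact_closedBall _ _) hs).trans h6.le
    refine (hC _ (hJ ν) _ w _ (by positivity) (hn_mono h5.1 hs) h8).trans ?_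
    have h9 := en_nonneg (u ν) (closedBall w (ε / 4))
    exact mul_le_mul (le_abs_self C) (Real.rpow_le_rpow h9 h8 (by norm_num)) (by positivity)
      (abs_nonneg C)
  refine ⟨hn_mono h5.1 (closedBall_subset_closedBall (by linarith)), fun w hw => ?_⟩
  have hs : closedBall w (ε / 4) ⊆ closedBall z (ε / 2) :=
    closedBall_subset_closedBall' (by linarith [mem_closedBall.1 hw])
  have h8 := (h4 K _ (hJ ν).ub _ w _ (by positivity) (hn_mono h5.1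
    (hs.trans (closedBall_subset_closedBall (by linarith)))) fun w' hw' => h7 w' (hs hw')).1
  have h9 := (h7 w (hs (mem_closedBall_self (by positivity)))).trans (le_abs_self L)
  rw [← le_div_iff₀' (by positivity)] at h8 h9
  have p1 : 0 ≤ |L| / (ε / 4) := by positivity
  have p2 : 0 ≤ C' / (ε / 4) ^ 2 := by positivity
  constructor <;> linarith

lemma tu_union {ι X E : Type} [UniformSpace E] {l : Filter ι} {f : ι → X → E} {g : X → E}
    {s t : Set X} (hs : TendstoUniformlyOn f g l s) (ht : TendstoUniformlyOn f g l t) :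
    TendstoUniformlyOn f g l (s ∪ t) := fun a ha => by
  filter_upwards [hs a ha, ht a ha] with ν h1 h2 x hx using hx.elim (h1 x) (h2 x)

lemma limit [FiniteDimensional ℝ V] (h1 : ApriStmt) {K : Set V} (hK : IsCompact K) {ι : Type}
    {𝓤 : Ultrafilter ι} {J : ι → V → En0 V} {J₀ : V → En0 V} (hJ : ContDiff ℝ 2 J₀)
    (hsq : ∀ x ∈ K, ∀ v, J₀ x (J₀ x v) = -v) (hlim : TendstoUniformlyOn J J₀ 𝓤 K)
    {u : ι → ℂ → V} {W : Set ℂ} (hW : IsOpen W) (hb : ∀ z ∈ W, Bd2 K 𝓤 J u W z) :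
    ∃ v, IsHol J₀ v W ∧ MapsTo v W K ∧ CConv 𝓤 u v W := by
  have : ProperSpace (ℂ →L[ℝ] V) := FiniteDimensional.proper_real _
  have hK' : ∀ z ∈ W, ∀ᶠ ν in (𝓤 : Filter ι), u ν z ∈ K := fun z hz => by
    obtain ⟨δ, hδ, C, -, -, h⟩ := hb z hz
    exact h.mono fun ν h => (hn_g1 h.1).2.2 (mem_closedBall_self hδ.le)
  obtain ⟨v, hv⟩ := ex_lim 𝓤 u W fun z hz => ⟨K, hK, hK' z hz⟩
  obtain ⟨D, hD⟩ := ex_lim 𝓤 (fun ν => fderiv ℝ (u ν)) W fun z hz => by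
    obtain ⟨δ, hδ, C, -, -, h⟩ := hb z hz
    exact ⟨closedBall 0 C, isCompact_closedBall _ _, h.mono fun ν h =>
      mem_closedBall_zero_iff.2 (h.2 z (mem_closedBall_self hδ.le)).1⟩
  have hvK : MapsTo v W K := fun z hz => hK.isClosed.mem_of_tendsto (hv z hz) (hK' z hz)
  have key : ∀ z ∈ W, HasFDerivAt v (D z) z ∧ D z I = J₀ (v z) (D z 1) ∧
      ∃ N ∈ 𝓝 z, (∃ C, Hld C D N) ∧ TendstoUniformlyOn u v 𝓤 N ∧
        TendstoUniformlyOn (fun ν => fderiv ℝ (u ν)) D 𝓤 N ∧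
        ∃ C, ∀ᶠ ν in (𝓤 : Filter ι), ∀ w ∈ N, ‖fderiv ℝ (fderiv ℝ (u ν)) w‖ ≤ C := by
    intro z hz
    obtain ⟨δ, hδ, C, hC, hs, h⟩ := hb z hz
    have hd : ∀ᶠ ν in (𝓤 : Filter ι), ∀ w ∈ closedBall z δ, ContDiffAt ℝ 2 (u ν) w :=
      h.mono fun ν h w hw => by
        obtain ⟨N, k1, k2, k3, -⟩ := h.1
        exact k3.sm.contDiffAt (k1.mem_nhds (k2 hw))
    obtain ⟨k1, -⟩ := unif_of_lip (l := 𝓤) (f := u) (isCompact_closedBall z δ) hC (by
      filter_upwards [h, hd] with ν h hd x hx y hy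
      rw [dist_eq_norm]
      exact (convex_closedBall z δ).norm_image_sub_le_of_norm_fderiv_le (𝕜 := ℝ)
        (fun w hw => (hd w hw).differentiableAt (by norm_num)) (fun w hw => (h.2 w hw).1) hy hx)
      fun w hw => hv w (hs hw)
    obtain ⟨k2, k3⟩ := unif_of_lip (l := 𝓤) (f := fun ν => fderiv ℝ (u ν))
      (isCompact_closedBall z δ) hC (by
      filter_upwards [h, hd] with ν h hd x hx y hy
      rw [dist_eq_norm]
      exact (convex_closedBall z δ).norm_image_sub_le_of_norm_fderiv_le (𝕜 := ℝ)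
        (fun w hw => ((hd w hw).fderiv_right (m := 1) le_rfl).differentiableAt (by norm_num))
        (fun w hw => (h.2 w hw).2) hy hx) fun w hw => hD w (hs hw)
    have hN := closedBall_mem_nhds z hδ
    refine ⟨hasFDerivAt_of_tendstoUniformlyOnFilter (l := (𝓤 : Filter ι)) (f := u) (g := v)
      (f' := fun ν => fderiv ℝ (u ν))
      (k2.tendstoUniformlyOnFilter.mono_right (le_principal_iff.2 hN)) ?_
      (mem_of_superset hN fun w hw => hv w (hs hw)), ?_, _, hN,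
      ⟨_, hld_of_lip hC (by positivity : 0 ≤ δ + δ) k3 fun x hx y hy =>
        (dist_triangle_right x y z).trans (add_le_add hx hy)⟩, k1, k2, C,
      h.mono fun ν h w hw => (h.2 w hw).2⟩
    · refine eventually_prod_iff.2 ⟨_, hd, _, hN, fun {ν} hν {w} hw => ?_⟩
      exact ((hν w hw).differentiableAt (by norm_num)).hasFDerivAt
    · have a1 : ∀ a : ℂ, Tendsto (fun ν => fderiv ℝ (u ν) z a) 𝓤 (𝓝 (D z a)) := fun a =>
        ((ContinuousLinearMap.apply ℝ V a).continuous.tendsto _).comp (hD z hz)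
      have a2 : Tendsto (fun ν => J ν (u ν z)) 𝓤 (𝓝 (J₀ (v z))) :=
        hlim.tendsto_comp hJ.continuous.continuousWithinAt
          (tendsto_nhdsWithin_iff.2 ⟨hv z hz, hK' z hz⟩)
      have a3 := (isBoundedBilinearMap_apply.continuous.tendsto _).comp (a2.prodMk_nhds (a1 1))
      refine tendsto_nhds_unique_of_eventuallyEq (a1 I) a3 (h.mono fun ν h => ?_)
      obtain ⟨N, -, k5, k6, -⟩ := h.1
      exact k6.cr z (k5 (mem_closedBall_self hδ.le))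
  have hfd : ∀ z ∈ W, fderiv ℝ v z = D z := fun z hz => (key z hz).1.fderiv
  refine ⟨v, (h1 V).2.1 J₀ v W hJ hW (fun z hz => ⟨(key z hz).1.differentiableAt,
    hsq _ (hvK hz), by rw [hfd z hz]; exact (key z hz).2.1⟩) (LocH.congr (f := D)
      (fun z hz => ?_) fun z hz => mem_of_superset (hW.mem_nhds hz) hfd), hvK, fun L hL hLW => ?_⟩
  · obtain ⟨N, hN, ⟨C, hC⟩, -⟩ := (key z hz).2.2
    exact ⟨C, N, hN, hC⟩
  · have : TendstoUniformlyOn u v 𝓤 L ∧ TendstoUniformlyOn (fun ν => fderiv ℝ (u ν)) D 𝓤 L ∧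
        ∃ C, ∀ᶠ ν in (𝓤 : Filter ι), ∀ w ∈ L, ‖fderiv ℝ (fderiv ℝ (u ν)) w‖ ≤ C := by
      refine hL.induction_on (p := fun s => TendstoUniformlyOn u v 𝓤 s ∧
        TendstoUniformlyOn (fun ν => fderiv ℝ (u ν)) D 𝓤 s ∧
        ∃ C, ∀ᶠ ν in (𝓤 : Filter ι), ∀ w ∈ s, ‖fderiv ℝ (fderiv ℝ (u ν)) w‖ ≤ C)
        ⟨tendstoUniformlyOn_empty, tendstoUniformlyOn_empty, 0, by simp⟩ ?_ ?_ fun z hz => ?_
      · rintro s t hst ⟨a1, a2, C, a3⟩
        exact ⟨a1.mono hst, a2.mono hst, C, a3.mono fun ν h w hw => h w (hst hw)⟩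
      · rintro s t ⟨a1, a2, C, a3⟩ ⟨b1, b2, C', b3⟩
        refine ⟨tu_union a1 b1, tu_union a2 b2, max C C', ?_⟩
        filter_upwards [a3, b3] with ν a3 b3 w hw
        exact hw.elim (fun h => (a3 w h).trans (le_max_left _ _))
          fun h => (b3 w h).trans (le_max_right _ _)
      · obtain ⟨N, hN, -, h⟩ := (key z (hLW hz)).2.2
        exact ⟨N, mem_nhdsWithin_of_mem_nhds hN, h⟩
    exact ⟨this.1, this.2.1.congr_right fun z hz => (hfd z (hLW hz)).symm, this.2.2⟩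

lemma hol_local {J : V → En0 V} {u : ℂ → V} {Ω : Set ℂ}
    (h : ∀ z ∈ Ω, ∃ N ∈ 𝓝 z, ∃ v, IsHol J v N ∧ u =ᶠ[𝓝 z] v) : IsHol J u Ω := by
  refine ⟨fun z hz => ?_, fun z hz => ?_⟩ <;> obtain ⟨N, hN, v, hv, he⟩ := h z hz
  · exact ((hv.sm.contDiffAt hN).congr_of_eventuallyEq he).contDiffWithinAt
  · rw [he.fderiv_eq, he.eq_of_nhds]; exact hv.cr z (mem_of_mem_nhds hN)

lemma off_balls {L Ω : Set ℂ} (hL : IsCompact L) (hLΩ : L ⊆ Ω) (Z : Finset ℂ) {ε : ℝ}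
    (hε : 0 < ε) : IsCompact (L \ ⋃ z ∈ Z, ball z ε) ∧ (L \ ⋃ z ∈ Z, ball z ε) ⊆ Ω \ Z ∧
      (L \ ⋃ z ∈ Z, closedBall z ε) ⊆ L \ ⋃ z ∈ Z, ball z ε :=
  ⟨hL.diff (isOpen_biUnion fun _ _ => isOpen_ball), fun w hw => ⟨hLΩ hw.1, fun h =>
    hw.2 (mem_biUnion h (mem_ball_self hε))⟩,
    sdiff_subset_sdiff_right (iUnion₂_mono fun _ _ => ball_subset_closedBall)⟩

end LocP

open LocP

theorem loc_of (h1 : ApriStmt) (h2 : SmallStmt) : LocStmt := by
  intro V _ _ _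
  refine ⟨?_, ?_⟩
  · intro O M K om R Λ c hb hE hb0 hEps ι 𝓤 J J₀ hF u Ω E₀ hΩ hu
    classical
    set Zb := (finite_bad hb0 hΩ hu).toFinset with hZb
    have hZ : ∀ z, z ∈ Zb ↔ z ∈ Ω ∧ ¬ MassLt 𝓤 u z hb := fun z => Set.Finite.mem_toFinset _
    have hW : IsOpen (Ω \ Zb) := hΩ.sdiff Zb.finite_toSet.isClosed
    obtain ⟨v, k1, k2, k3⟩ := limit h1 hE.cpt hF.env₀.ub.sm hF.env₀.ub.sq hF.lim hW
      fun z hz => loc_bd h1 hEps hF.env hu sdiff_subset (hW.mem_nhds hz)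
        (by_contra fun h => hz.2 ((hZ z).2 ⟨hz.1, h⟩))
    have k4 := en_le hE.cpt hu sdiff_subset k3 (g1_of hW (k1.sm.of_le (by norm_num)) k2)
    obtain ⟨r, hr, r1, r2⟩ := ex_pos (ev_balls Zb fun z hz => hΩ.mem_nhds ((hZ z).1 hz).1)
    have r3 : ∀ z ∈ Zb, ball z r \ {z} ⊆ Ω \ Zb := fun z hz w hw =>
      ⟨r1 z hz (ball_subset_closedBall hw.1), fun h => by
        have := r2 w h z hz hw.2
        linarith [mem_ball.1 hw.1]⟩
    have hx : ∀ z, ∃ x, z ∈ Zb → x ∈ K ∧ IsHol J₀ (Function.update v z x) (ball z r) := fun z => by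
      by_cases hz : z ∈ Zb
      · obtain ⟨x, hx⟩ := (h2 V O M K om R Λ c hE).2.1 J₀ hF.env₀ v z r E₀ hr
          ⟨k1.sm.mono (r3 z hz), fun w hw => k1.cr w (r3 z hz hw)⟩ (k2.mono_left (r3 z hz))
          fun L hL hs => k4 L hL (hs.trans (r3 z hz))
        exact ⟨x, fun _ => hx⟩
      · exact ⟨0, fun h => absurd h hz⟩
    choose x hx using hx
    let u₀ : ℂ → V := fun w => if w ∈ Zb then x w else v w
    have e1 : ∀ z ∈ Ω \ Zb, u₀ =ᶠ[𝓝 z] v := fun z hz =>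
      mem_of_superset (hW.mem_nhds hz) fun w hw => if_neg hw.2
    have hH : IsHol J₀ u₀ Ω := hol_local fun z hz => by
      by_cases h : z ∈ Zb
      · refine ⟨_, ball_mem_nhds z hr, _, (hx z h).2,
          mem_of_superset (ball_mem_nhds z hr) fun w hw => ?_⟩
        by_cases hwz : w = z
        · subst hwz; simp [u₀, h]
        · have : w ∉ Zb := (r3 z h ⟨hw, hwz⟩).2
          simp [u₀, this, hwz]
      · exact ⟨_, hW.mem_nhds ⟨hz, h⟩, v, k1, e1 z ⟨hz, h⟩⟩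
    have hM : MapsTo u₀ Ω K := fun z hz => by
      by_cases h : z ∈ Zb
      · simpa [u₀, h] using (hx z h).1
      · simpa [u₀, h] using k2 ⟨hz, h⟩
    have hC : CConv 𝓤 u u₀ (Ω \ Zb) := fun L hL hs => by
      obtain ⟨a1, a2, a3⟩ := k3 L hL hs
      exact ⟨a1.congr_right fun z hz => (e1 z (hs hz)).eq_of_nhds.symm,
        a2.congr_right fun z hz => (e1 z (hs hz)).fderiv_eq.symm, a3⟩
    refine ⟨u₀, Zb, hH, hM, hZ, hC, fun L hL hs => ?_⟩
    have hG := g1_of hΩ (hH.sm.of_le (by norm_num)) hM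
    have hi := (hG.mono hs).int_en hL
    have t1 := (tend_U Zb hi).const_add E₀
    rw [add_zero] at t1
    refine ge_of_tendsto (t1.mono_left (nhdsWithin_le_nhds (s := Ioi 0)))
      (mem_of_superset self_mem_nhdsWithin fun ε hε => ?_)
    obtain ⟨a1, a2, a3⟩ := off_balls hL hs Zb hε
    have a4 := ((hG.mono (a2.trans sdiff_subset)).en_mono a1 a3).trans
      (en_le hE.cpt hu sdiff_subset hC (hG.mono sdiff_subset) _ a1 a2)
    have a5 := integral_inter_add_sdiff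
      (Zb.measurableSet_biUnion fun z _ => measurableSet_closedBall (x := z) (ε := ε)) hi
    simp only [En, mem_ofPred_eq] at a4 ⊢
    linarith
  · intro K ι 𝓤 J u u₀ Ω E₀ Zb β A L hK hΩ hu h0 hM hC hβ hA hL hLΩ hZ
    have hG := g1_of hΩ h0 hM
    have hi : IntegrableOn (dens β u₀) L :=
      ((hG.mono hLΩ).comp (phi_dens hβ)).integrableOn_compact hL
    refine Metric.tendsto_nhds.2 fun η hη => ?_
    set θ := η / (Zb.card + 2) with hθ
    have hθ0 : 0 < θ := by positivity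
    have hA' : ∀ᶠ ε in 𝓝 (0 : ℝ), ∀ z ∈ Zb, 0 < ε → ∀ᶠ ν in (𝓤 : Filter ι),
        |(∫ w in closedBall z ε, dens β (u ν) w) - A z| ≤ θ :=
      (eventually_all_finset Zb).2 fun z hz => by
        obtain ⟨ε₀, b1, b2⟩ := hA z hz θ hθ0
        exact mem_of_superset (ge_mem_nhds b1) fun ε hε h => b2 ε h hε
    obtain ⟨ε, hε, ⟨b1, b2⟩, b3, b4⟩ := ex_pos ((ev_balls Zb fun z hz =>
      mem_interior_iff_mem_nhds.1 (hZ hz)).and
        (hA'.and (Metric.tendsto_nhds.1 (tend_U Zb hi) θ hθ0)))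
    obtain ⟨a1, a2, a3⟩ := off_balls hL hLΩ Zb hε
    obtain ⟨c1, c2, -⟩ := hC _ a1 a2
    have hm := Zb.measurableSet_biUnion fun z _ => measurableSet_closedBall (x := z) (ε := ε)
    have t1 := conv_int hK a1 a3 ((hu L hL hLΩ).mono fun ν h => (hn_g1 h.1).mono sdiff_subset)
      (hG.mono (a2.trans sdiff_subset)) c1 c2 (phi_dens hβ)
    filter_upwards [hu L hL hLΩ, Metric.tendsto_nhds.1 t1 θ hθ0,
      (eventually_all_finset Zb).2 fun z hz => b3 z hz hε] with ν d1 d2 d3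
    have hj : IntegrableOn (dens β (u ν)) L :=
      ((hn_g1 d1.1).comp (phi_dens hβ)).integrableOn_compact hL
    have d4 := integral_inter_add_sdiff hm hj
    have d5 := integral_inter_add_sdiff hm hi
    rw [inter_eq_right.2 (iUnion₂_subset b1), integral_biUnion_finset Zb
      (fun _ _ => measurableSet_closedBall) (fun z hz z' hz' hne =>
        closedBall_disjoint_closedBall (b2 z hz z' hz' hne))
      fun z hz => hj.mono_set (b1 z hz)] at d4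
    have d6 : |∑ z ∈ Zb, (∫ w in closedBall z ε, dens β (u ν) w) - ∑ z ∈ Zb, A z| ≤
        Zb.card * θ := by
      rw [← Finset.sum_sub_distrib, ← nsmul_eq_mul]
      exact (Finset.abs_sum_le_sum_abs _ _).trans (Finset.sum_le_card_nsmul _ _ _ d3)
    have d7 : η = Zb.card * θ + 2 * θ := by rw [hθ]; field_simp
    change dist (∫ w in _, dens β (u ν) w) (∫ w in _, dens β u₀ w) < θ at d2
    rw [Real.dist_eq, abs_lt] at d2 b4 ⊢
    rw [abs_le] at d6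
    constructor <;> linarith [d2.1, d2.2, b4.1, b4.2, d6.1, d6.2]

end Pool.Agent.MP_9758ca_gt

end

end MrgPart0

-- ======== part 1: formerly Pool.Agent.MP_9758ca_gt.Tree
section MrgPart1

/-!
PROJECT BALL, row TREE: the bubble tree at a point of energy concentration (energy bookkeeping,
neck lemma, selection of the bubble disc, induction on the mass).
-/

open scoped Topology ContDiff
open Set Metric Filter Complex MeasureTheory

namespace Pool.Agent.MP_9758ca_gt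

namespace TreeP

variable {V : Type} [NormedAddCommGroup V] [NormedSpace ℝ V]

/-! ### maps that are holomorphic near a set -/

theorem hn_mono {J : V → En0 V} {K : Set V} {u : ℂ → V} {L L' : Set ℂ} (h : HolNear J K u L)
    (hL : L' ⊆ L) : HolNear J K u L' := by
  obtain ⟨N, h1, h2, h3, h4⟩ := h
  exact ⟨N, h1, hL.trans h2, h3, h4⟩

theorem hn_at {J : V → En0 V} {K : Set V} {u : ℂ → V} {L : Set ℂ} (h : HolNear J K u L)
    {w : ℂ} (hw : w ∈ L) : ContDiffAt ℝ 2 u w ∧ u w ∈ K := by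
  obtain ⟨N, h1, h2, h3, h4⟩ := h
  exact ⟨h3.sm.contDiffAt (h1.mem_nhds (h2 hw)), h4 (h2 hw)⟩

theorem hn_diff {J : V → En0 V} {K : Set V} {u : ℂ → V} {L : Set ℂ} (h : HolNear J K u L)
    {w : ℂ} (hw : w ∈ L) : DifferentiableAt ℝ u w :=
  (hn_at h hw).1.differentiableAt two_ne_zero

theorem hn_cont {J : V → En0 V} {K : Set V} {u : ℂ → V} {L : Set ℂ} (h : HolNear J K u L) :
    ContinuousOn (fderiv ℝ u) L := fun _ hw =>
  ((hn_at h hw).1.fderiv_right (m := 1) (by norm_num)).continuousAt.continuousWithinAt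

theorem hn_int {J : V → En0 V} {K : Set V} {u : ℂ → V} {L : Set ℂ} (h : HolNear J K u L)
    (hL : IsCompact L) : IntegrableOn (fun z => ‖fderiv ℝ u z‖ ^ 2) L :=
  ((hn_cont h).norm.pow 2).integrableOn_compact hL

theorem hn_dens {J : V → En0 V} {K : Set V} {u : ℂ → V} {L : Set ℂ} (h : HolNear J K u L)
    (hL : IsCompact L) {β : F2 V} (hβ : ContinuousOn β K) : IntegrableOn (dens β u) L := by
  have h1 : ContinuousOn (fun z => β (u z)) L :=
    hβ.comp (fun w hw => (hn_diff h hw).continuousAt.continuousWithinAt) fun w hw => (hn_at h hw).2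
  exact ((h1.clm_apply ((hn_cont h).clm_apply continuousOn_const)).clm_apply
    ((hn_cont h).clm_apply continuousOn_const)).integrableOn_compact hL

/-! ### energy -/

theorem en_nonneg (u : ℂ → V) (A : Set ℂ) : 0 ≤ En u A :=
  integral_nonneg fun _ => sq_nonneg _

theorem en_mono {u : ℂ → V} {A B : Set ℂ} (hi : IntegrableOn (fun z => ‖fderiv ℝ u z‖ ^ 2) B)
    (hAB : A ⊆ B) : En u A ≤ En u B :=
  setIntegral_mono_set hi (Eventually.of_forall fun _ => sq_nonneg _) hAB.eventuallyLE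

theorem en_sdiff {u : ℂ → V} {A B : Set ℂ} (hi : IntegrableOn (fun z => ‖fderiv ℝ u z‖ ^ 2) B)
    (hA : MeasurableSet A) (hAB : A ⊆ B) : En u (B \ A) = En u B - En u A :=
  setIntegral_sdiff hA hi hAB

theorem en_add_le {u : ℂ → V} {A A' B : Set ℂ}
    (hi : IntegrableOn (fun z => ‖fderiv ℝ u z‖ ^ 2) B) (hA : MeasurableSet A) (hAB : A ⊆ B)
    (hAB' : A' ⊆ B) (hd : Disjoint A' A) : En u A + En u A' ≤ En u B := by
  have h1 := en_sdiff hi hA hAB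
  have h2 : En u A' ≤ En u (B \ A) :=
    en_mono (hi.mono_set sdiff_subset) (subset_sdiff.2 ⟨hAB', hd⟩)
  linarith

theorem en_le_disc {u : ℂ → V} {c : ℂ} {d B : ℝ} (hd : 0 ≤ d)
    (hB : ∀ w ∈ closedBall c d, ‖fderiv ℝ u w‖ ≤ B) :
    En u (closedBall c d) ≤ B ^ 2 * (d ^ 2 * Real.pi) := by
  have h := norm_setIntegral_le_of_norm_le_const (μ := volume) (s := closedBall c d)
    (f := fun z => ‖fderiv ℝ u z‖ ^ 2) (C := B ^ 2) measure_closedBall_lt_top fun w hw => by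
      rw [Real.norm_of_nonneg (sq_nonneg _)]
      exact pow_le_pow_left₀ (norm_nonneg _) (hB w hw) 2
  have e : volume.real (closedBall c d) = d ^ 2 * Real.pi := by
    rw [Measure.real, Complex.volume_closedBall]
    simp [ENNReal.toReal_ofReal hd]
  rw [e] at h
  exact (le_abs_self _).trans h

theorem dens_le {β : F2 V} {u : ℂ → V} {w : ℂ} {C : ℝ} (h : ‖β (u w)‖ ≤ C) :
    |dens β u w| ≤ C * ‖fderiv ℝ u w‖ ^ 2 := by
  have h1 : ‖fderiv ℝ u w 1‖ ≤ ‖fderiv ℝ u w‖ := by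
    simpa using (fderiv ℝ u w).le_opNorm 1
  have h2 : ‖fderiv ℝ u w I‖ ≤ ‖fderiv ℝ u w‖ := by
    simpa using (fderiv ℝ u w).le_opNorm I
  have h3 := (β (u w)).le_opNorm₂ (fderiv ℝ u w 1) (fderiv ℝ u w I)
  have h0 : 0 ≤ C := (β (u w)).opNorm_nonneg.trans h
  calc |dens β u w| ≤ _ := h3
    _ ≤ C * ‖fderiv ℝ u w‖ * ‖fderiv ℝ u w‖ := by gcongr
    _ = _ := by ring

theorem int_dens_le {J : V → En0 V} {K : Set V} {u : ℂ → V} {L A : Set ℂ} (h : HolNear J K u L)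
    (hL : IsCompact L) (hA : MeasurableSet A) (hAL : A ⊆ L) {β : F2 V} {C : ℝ}
    (hC : ∀ x ∈ K, ‖β x‖ ≤ C) : |∫ w in A, dens β u w| ≤ C * En u A := by
  rw [En, ← integral_const_mul]
  rw [← Real.norm_eq_abs]
  refine norm_integral_le_of_norm_le (((hn_int h hL).mono_set hAL).const_mul C) ?_
  filter_upwards [ae_restrict_mem hA] with w hw
  exact dens_le (hC _ (hn_at h (hAL hw)).2)

/-! ### selection of an almost smallest disc carrying the energy `t` -/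

theorem select {J : V → En0 V} {K : Set V} {u : ℂ → V} {z : ℂ} {e t : ℝ} (he : 0 < e)
    (ht : 0 < t) (h : HolNear J K u (closedBall z e)) (h1 : t ≤ En u (closedBall z e)) :
    ∃ p : ℂ × ℝ, 0 < p.2 ∧ closedBall p.1 p.2 ⊆ closedBall z e ∧ t ≤ En u (closedBall p.1 p.2) ∧
      ∀ c d, 0 < d → closedBall c d ⊆ closedBall z e → t ≤ En u (closedBall c d) → p.2 < 2 * d := by
  obtain ⟨B, hB⟩ := (isCompact_closedBall z e).exists_bound_of_continuousOn (hn_cont h)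
  set A : Set ℝ := {d | 0 < d ∧ ∃ c, closedBall c d ⊆ closedBall z e ∧ t ≤ En u (closedBall c d)}
  have hne : A.Nonempty := ⟨e, he, z, Subset.rfl, h1⟩
  have hq : 0 < B ^ 2 * Real.pi + 1 := by positivity
  have hlow : ∀ d ∈ A, √(t / (B ^ 2 * Real.pi + 1)) ≤ d := by
    rintro d ⟨hd, c, hc, hE⟩
    have h2 := en_le_disc hd.le fun w hw => hB w (hc hw)
    rw [Real.sqrt_le_left hd.le, div_le_iff₀ hq]
    nlinarith [sq_nonneg d]
  have hpos : 0 < sInf A := (Real.sqrt_pos.2 (div_pos ht hq)).trans_le (le_csInf hne hlow)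
  obtain ⟨r, ⟨hr, c, hc, hE⟩, hlt⟩ := exists_lt_of_csInf_lt hne (show sInf A < 2 * sInf A by linarith)
  refine ⟨(c, r), hr, hc, hE, fun c' d hd hc' hE' => ?_⟩
  have := csInf_le ⟨_, hlow⟩ (show d ∈ A from ⟨hd, c', hc', hE'⟩)
  change r < 2 * d
  linarith

/-! ### the neck lemma -/

/-- the bound of the neck estimate -/
noncomputable def ph (a b γ C s : ℝ) : ℝ := C * ((a / s) ^ γ + (s / b) ^ γ)

/-- a primitive of `ph s / s` -/
noncomputable def Ph (a b γ C s : ℝ) : ℝ := C * ((s / b) ^ γ - (a / s) ^ γ) / γ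

/-- the size of the neck -/
noncomputable def de (a b γ C ρ₁ ρ₂ : ℝ) : ℝ := C * ((a / ρ₁) ^ γ + (ρ₂ / b) ^ γ)

section Neck
variable {a b γ C ρ₁ ρ₂ : ℝ}

theorem Ph_deriv (ha : 0 < a) (hb : 0 < b) (hγ : 0 < γ) {s : ℝ} (hs : 0 < s) :
    HasDerivAt (Ph a b γ C) (ph a b γ C s / s) s := by
  have h1 : HasDerivAt (fun s : ℝ => s / b) (1 / b) s := (hasDerivAt_id s).div_const b
  have h2 : HasDerivAt (fun s : ℝ => a / s) (a * -(s ^ 2)⁻¹) s := by
    simpa only [div_eq_mul_inv] using (hasDerivAt_inv hs.ne').const_mul a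
  have h3 := (((h1.rpow_const (p := γ) (Or.inl (div_pos hs hb).ne')).sub
    (h2.rpow_const (p := γ) (Or.inl (div_pos ha hs).ne'))).const_mul C).div_const γ
  refine h3.congr_deriv ?_
  rw [Real.rpow_sub_one (div_pos hs hb).ne', Real.rpow_sub_one (div_pos ha hs).ne', ph]
  field_simp
  ring

theorem ph_le (ha : 0 < a) (hb : 0 < b) (hγ : 0 < γ) (hC : 0 ≤ C) (h1 : 0 < ρ₁) {s : ℝ}
    (hs : ρ₁ ≤ s) (hs' : s ≤ ρ₂) : ph a b γ C s ≤ de a b γ C ρ₁ ρ₂ := by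
  have h0 : 0 < s := h1.trans_le hs
  unfold ph de
  gcongr

theorem ph_nonneg (ha : 0 < a) (hb : 0 < b) (hC : 0 ≤ C) {s : ℝ} (hs : 0 < s) :
    0 ≤ ph a b γ C s := by
  unfold ph
  positivity

theorem Ph_le (ha : 0 < a) (hb : 0 < b) (hγ : 0 < γ) (hC : 0 ≤ C) (h1 : 0 < ρ₁) {s s' : ℝ}
    (hs : ρ₁ ≤ s) (hss : s ≤ s') (hs' : s' ≤ ρ₂) :
    Ph a b γ C s' - Ph a b γ C s ≤ de a b γ C ρ₁ ρ₂ / γ := by
  have h0 : 0 < s := h1.trans_le hs
  have h0' : 0 < s' := h0.trans_le hss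
  have e1 : (s' / b) ^ γ ≤ (ρ₂ / b) ^ γ := by gcongr
  have e2 : (a / s) ^ γ ≤ (a / ρ₁) ^ γ := by gcongr
  have e3 : 0 ≤ (s / b) ^ γ := by positivity
  have e4 : 0 ≤ (a / s') ^ γ := by positivity
  unfold Ph de
  rw [← sub_div, ← mul_sub]
  gcongr
  linarith

theorem neck_rad {u : ℂ → V} {c : ℂ} (ha : 0 < a) (hb : 0 < b) (hγ : 0 < γ) (hC : 0 ≤ C)
    (h1 : 0 < ρ₁) (hd : ∀ w, ρ₁ ≤ ‖w - c‖ → ‖w - c‖ ≤ ρ₂ → DifferentiableAt ℝ u w ∧
      ‖fderiv ℝ u w‖ * ‖w - c‖ ≤ ph a b γ C ‖w - c‖) {e : ℂ} (he : ‖e‖ = 1) {s s' : ℝ}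
    (hs : ρ₁ ≤ s) (hss : s ≤ s') (hs' : s' ≤ ρ₂) :
    ‖u (c + s' * e) - u (c + s * e)‖ ≤ de a b γ C ρ₁ ρ₂ / γ := by
  have hn : ∀ x : ℝ, 0 < x → ‖c + x * e - c‖ = x := fun x hx => by
    rw [add_sub_cancel_left, norm_mul, he, mul_one, norm_real, Real.norm_of_nonneg hx.le]
  have hp : ∀ x ∈ Icc s s', 0 < x := fun x hx => h1.trans_le (hs.trans hx.1)
  have hD : ∀ x ∈ Icc s s', DifferentiableAt ℝ u (c + x * e) ∧
      ‖fderiv ℝ u (c + x * e)‖ * x ≤ ph a b γ C x := fun x hx => by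
    have := hd (c + x * e) (by rw [hn x (hp x hx)]; exact hs.trans hx.1)
      (by rw [hn x (hp x hx)]; exact hx.2.trans hs')
    rwa [hn x (hp x hx)] at this
  have hf : ∀ x ∈ Icc s s', HasDerivAt (fun x : ℝ => u (c + x * e) - u (c + s * e))
      (fderiv ℝ u (c + x * e) e) x := fun x hx => by
    have h2 : HasDerivAt (fun x : ℝ => c + (x : ℂ) * e) e x := by
      simpa using ((ofRealCLM.hasDerivAt (x := x)).mul_const e).const_add c
    exact ((hD x hx).1.hasFDerivAt.comp_hasDerivAt x h2).sub_const _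
  have hB : ∀ x ∈ Icc s s', HasDerivAt (fun x => Ph a b γ C x - Ph a b γ C s)
      (ph a b γ C x / x) x := fun x hx => (Ph_deriv ha hb hγ (hp x hx)).sub_const _
  have key := image_norm_le_of_norm_deriv_right_le_deriv_boundary'
    (f := fun x : ℝ => u (c + x * e) - u (c + s * e)) (a := s) (b := s')
    (fun x hx => (hf x hx).continuousAt.continuousWithinAt)
    (fun x hx => (hf x (Ico_subset_Icc_self hx)).hasDerivWithinAt)
    (B := fun x => Ph a b γ C x - Ph a b γ C s) (by simp)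
    (fun x hx => (hB x hx).continuousAt.continuousWithinAt)
    (fun x hx => (hB x (Ico_subset_Icc_self hx)).hasDerivWithinAt)
    (fun x hx => by
      have hx' := Ico_subset_Icc_self hx
      rw [le_div_iff₀ (hp x hx')]
      refine le_trans ?_ (hD x hx').2
      gcongr
      · exact (hp x hx').le
      · simpa [he] using (fderiv ℝ u (c + x * e)).le_opNorm e)
    (right_mem_Icc.2 hss)
  exact key.trans (Ph_le ha hb hγ hC h1 hs hss hs')

theorem neck_circ {u : ℂ → V} {c : ℂ} (ha : 0 < a) (hb : 0 < b) (hγ : 0 < γ) (hC : 0 ≤ C)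
    (h1 : 0 < ρ₁) (hd : ∀ w, ρ₁ ≤ ‖w - c‖ → ‖w - c‖ ≤ ρ₂ → DifferentiableAt ℝ u w ∧
      ‖fderiv ℝ u w‖ * ‖w - c‖ ≤ ph a b γ C ‖w - c‖) {s : ℝ} (hs : ρ₁ ≤ s) (hs' : s ≤ ρ₂)
    (θ θ' : ℝ) : ‖u (c + s * exp (θ' * I)) - u (c + s * exp (θ * I))‖ ≤
      de a b γ C ρ₁ ρ₂ * ‖θ' - θ‖ := by
  have h0 : 0 < s := h1.trans_le hs
  have hn : ∀ x : ℝ, ‖c + s * exp (x * I) - c‖ = s := fun x => by
    rw [add_sub_cancel_left, norm_mul, norm_exp_ofReal_mul_I, mul_one, norm_real,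
      Real.norm_of_nonneg h0.le]
  have hD : ∀ x : ℝ, DifferentiableAt ℝ u (c + s * exp (x * I)) ∧
      ‖fderiv ℝ u (c + s * exp (x * I))‖ * s ≤ ph a b γ C s := fun x => by
    have := hd (c + s * exp (x * I)) (by rw [hn x]; exact hs) (by rw [hn x]; exact hs')
    rwa [hn x] at this
  have hf : ∀ x : ℝ, HasDerivAt (fun x : ℝ => u (c + s * exp (x * I)))
      (fderiv ℝ u (c + s * exp (x * I)) (s * (exp (x * I) * I))) x := fun x => by
    have h2 : HasDerivAt (fun x : ℝ => c + s * exp ((x : ℂ) * I)) (s * (exp (x * I) * I)) x := by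
      simpa using (((ofRealCLM.hasDerivAt (x := x)).mul_const I).cexp.const_mul (s : ℂ)).const_add c
    exact (hD x).1.hasFDerivAt.comp_hasDerivAt x h2
  refine convex_univ.norm_image_sub_le_of_norm_hasDerivWithin_le
    (f := fun x : ℝ => u (c + s * exp (x * I))) (fun x _ => (hf x).hasDerivWithinAt)
    (fun x _ => ?_) (mem_univ θ) (mem_univ θ')
  refine ((fderiv ℝ u _).le_opNorm _).trans ?_
  rw [norm_mul, norm_mul, norm_exp_ofReal_mul_I, norm_I, mul_one, mul_one, norm_real,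
    Real.norm_of_nonneg h0.le]
  exact (hD x).2.trans (ph_le ha hb hγ hC h1 hs hs')

theorem neck_osc {u : ℂ → V} {c : ℂ} (ha : 0 < a) (hb : 0 < b) (hγ : 0 < γ) (hC : 0 ≤ C)
    (h1 : 0 < ρ₁) (hd : ∀ w, ρ₁ ≤ ‖w - c‖ → ‖w - c‖ ≤ ρ₂ → DifferentiableAt ℝ u w ∧
      ‖fderiv ℝ u w‖ * ‖w - c‖ ≤ ph a b γ C ‖w - c‖) {w w' : ℂ} (hw : ρ₁ ≤ ‖w - c‖)
    (hw2 : ‖w - c‖ ≤ ρ₂) (hw' : ρ₁ ≤ ‖w' - c‖) (hw2' : ‖w' - c‖ ≤ ρ₂) :
    dist (u w') (u w) ≤ de a b γ C ρ₁ ρ₂ * (2 * Real.pi + γ⁻¹) := by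
  wlog hle : ‖w - c‖ ≤ ‖w' - c‖ generalizing w w'
  · rw [dist_comm]
    exact this hw' hw2' hw hw2 (not_le.1 hle).le
  have e : ∀ w : ℂ, w = c + (‖w - c‖ : ℝ) * exp (arg (w - c) * I) := fun w => by
    rw [norm_mul_exp_arg_mul_I, add_sub_cancel]
  have h2 := neck_rad ha hb hγ hC h1 hd (norm_exp_ofReal_mul_I (arg (w - c))) hw hle hw2'
  have h3 := neck_circ ha hb hγ hC h1 hd hw' hw2' (arg (w - c)) (arg (w' - c))
  rw [← e w] at h2
  rw [← e w'] at h3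
  have h4 : ‖arg (w' - c) - arg (w - c)‖ ≤ 2 * Real.pi := by
    have := abs_arg_le_pi (w' - c)
    have := abs_arg_le_pi (w - c)
    have := abs_sub (arg (w' - c)) (arg (w - c))
    rw [Real.norm_eq_abs]
    linarith
  have h5 : 0 ≤ de a b γ C ρ₁ ρ₂ :=
    (ph_nonneg ha hb hC (h1.trans_le hw)).trans (ph_le ha hb hγ hC h1 hw hw2)
  have h6 := norm_sub_le_norm_sub_add_norm_sub (u w')
    (u (c + (‖w' - c‖ : ℝ) * exp (arg (w - c) * I))) (u w)
  have h7 := mul_le_mul_of_nonneg_left h4 h5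
  rw [dist_eq_norm, mul_add, ← div_eq_mul_inv]
  linarith

theorem neck_en {u : ℂ → V} {c : ℂ} (ha : 0 < a) (hb : 0 < b) (hγ : 0 < γ) (hC : 0 ≤ C)
    (h1 : 0 < ρ₁) (h12 : ρ₁ ≤ ρ₂) (hd : ∀ w, ρ₁ ≤ ‖w - c‖ → ‖w - c‖ ≤ ρ₂ →
      ‖fderiv ℝ u w‖ * ‖w - c‖ ≤ ph a b γ C ‖w - c‖) :
    En u (closedBall c ρ₂ \ closedBall c ρ₁) ≤
      2 * Real.pi * (de a b γ C ρ₁ ρ₂ * (de a b γ C ρ₁ ρ₂ / γ)) := by
  set δ := de a b γ C ρ₁ ρ₂
  have hδ : 0 ≤ δ := (ph_nonneg ha hb hC h1).trans (ph_le ha hb hγ hC h1 le_rfl h12)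
  set F : ℝ → ℝ := fun s => δ * (ph a b γ C s / s) / s with hF
  have hFc : ContinuousOn (fun s => ph a b γ C s / s) (Ici ρ₁) := by
    intro s hs
    have h0 : 0 < s := h1.trans_le hs
    refine ContinuousAt.continuousWithinAt ?_
    unfold ph
    exact (continuousAt_const.mul
      (((continuousAt_const.div continuousAt_id h0.ne').rpow_const (Or.inr hγ.le)).add
        ((continuousAt_id.div_const b).rpow_const (Or.inr hγ.le)))).div continuousAt_id h0.ne'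
  have hA : ∀ w, w ∈ closedBall c ρ₂ \ closedBall c ρ₁ ↔ ‖w - c‖ ∈ Ioc ρ₁ ρ₂ := fun w => by
    simp only [Set.mem_sdiff, mem_closedBall, dist_eq_norm, not_le, mem_Ioc, and_comm]
  have hm : MeasurableSet (closedBall c ρ₂ \ closedBall c ρ₁) :=
    measurableSet_closedBall.diff measurableSet_closedBall
  have hi : IntegrableOn (fun w : ℂ => F ‖w - c‖) (closedBall c ρ₂ \ closedBall c ρ₁) := by
    refine IntegrableOn.mono_set (t := closedBall c ρ₂ \ ball c ρ₁) ?_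
      (sdiff_subset_sdiff_right ball_subset_closedBall)
    refine ContinuousOn.integrableOn_compact ((isCompact_closedBall c ρ₂).diff isOpen_ball) ?_
    have hmem : ∀ w ∈ closedBall c ρ₂ \ ball c ρ₁, ρ₁ ≤ ‖w - c‖ := fun w hw => by
      simpa [dist_eq_norm] using hw.2
    have hn : ContinuousOn (fun w : ℂ => ‖w - c‖) (closedBall c ρ₂ \ ball c ρ₁) := by fun_prop
    exact (continuousOn_const.mul (hFc.comp hn hmem)).div hn
      fun w hw => (h1.trans_le (hmem w hw)).ne'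
  have s1 : En u (closedBall c ρ₂ \ closedBall c ρ₁) ≤
      ∫ w in closedBall c ρ₂ \ closedBall c ρ₁, F ‖w - c‖ := by
    refine integral_mono_of_nonneg (Eventually.of_forall fun _ => sq_nonneg _) hi ?_
    filter_upwards [ae_restrict_mem hm] with w hw
    obtain ⟨h2, h3⟩ := (hA w).1 hw
    have h0 : 0 < ‖w - c‖ := h1.trans h2
    have h4 := hd w h2.le h3
    have h5 := ph_le ha hb hγ hC h1 h2.le h3
    have h6 : 0 ≤ ‖fderiv ℝ u w‖ * ‖w - c‖ := by positivity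
    simp only [hF]
    rw [le_div_iff₀ h0, ← mul_div_assoc, le_div_iff₀ h0]
    calc ‖fderiv ℝ u w‖ ^ 2 * ‖w - c‖ * ‖w - c‖
        = (‖fderiv ℝ u w‖ * ‖w - c‖) * (‖fderiv ℝ u w‖ * ‖w - c‖) := by ring
      _ ≤ δ * ph a b γ C ‖w - c‖ := mul_le_mul (h4.trans h5) h4 h6 hδ
  have s2 : ∫ w in closedBall c ρ₂ \ closedBall c ρ₁, F ‖w - c‖ =
      ∫ w : ℂ, indicator (Ioc ρ₁ ρ₂) F ‖w‖ := by
    rw [← integral_indicator hm,
      ← integral_sub_right_eq_self (fun w : ℂ => indicator (Ioc ρ₁ ρ₂) F ‖w‖) c]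
    congr 1
    funext w
    by_cases hw : w ∈ closedBall c ρ₂ \ closedBall c ρ₁
    · rw [indicator_of_mem hw, indicator_of_mem ((hA w).1 hw)]
    · rw [indicator_of_notMem hw, indicator_of_notMem (mt (hA w).2 hw)]
  have s3 : ∫ y in Ioi (0 : ℝ), y ^ (Module.finrank ℝ ℂ - 1) • indicator (Ioc ρ₁ ρ₂) F y =
      δ * (Ph a b γ C ρ₂ - Ph a b γ C ρ₁) := by
    have e1 : ∀ y ∈ Ioi (0 : ℝ), y ^ (Module.finrank ℝ ℂ - 1) • indicator (Ioc ρ₁ ρ₂) F y =
        indicator (Ioc ρ₁ ρ₂) (fun s => δ * (ph a b γ C s / s)) y := fun y hy => by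
      have h0 : y ≠ 0 := ne_of_gt hy
      by_cases h : y ∈ Ioc ρ₁ ρ₂
      · rw [indicator_of_mem h, indicator_of_mem h, finrank_real_complex, smul_eq_mul]
        simp only [hF, Nat.add_one_sub_one, pow_one]
        field_simp
      · rw [indicator_of_notMem h, indicator_of_notMem h, smul_zero]
    rw [setIntegral_congr_fun measurableSet_Ioi e1, setIntegral_indicator measurableSet_Ioc,
      inter_eq_self_of_subset_right (show Ioc ρ₁ ρ₂ ⊆ Ioi 0 from fun y hy => h1.trans hy.1),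
      integral_const_mul,
      ← intervalIntegral.integral_of_le h12,
      intervalIntegral.integral_eq_sub_of_hasDerivAt (f := Ph a b γ C)]
    · intro y hy
      rw [uIcc_of_le h12] at hy
      exact Ph_deriv ha hb hγ (h1.trans_le hy.1)
    · refine ContinuousOn.intervalIntegrable (hFc.mono ?_)
      rw [uIcc_of_le h12]
      exact Icc_subset_Ici_self
  have s4 : volume.real (ball (0 : ℂ) 1) = Real.pi := by
    rw [Measure.real, Complex.volume_ball]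
    simp
  rw [s2, integral_fun_norm_addHaar volume (indicator (Ioc ρ₁ ρ₂) F), s3, s4,
    finrank_real_complex, nsmul_eq_mul, smul_eq_mul, ← mul_assoc] at s1
  refine s1.trans ?_
  have := Ph_le (C := C) ha hb hγ hC h1 le_rfl h12 le_rfl
  push_cast
  gcongr

end Neck

variable {ι : Type} {𝓤 : Ultrafilter ι}

/-! ### masses and bubble discs -/

theorem massLt_mono {u : ι → ℂ → V} {z : ℂ} {m m' : ℝ} (h : MassLt 𝓤 u z m) (hm : m ≤ m') :
    MassLt 𝓤 u z m' := by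
  obtain ⟨ε₀, h0, h⟩ := h
  exact ⟨ε₀, h0, fun ε h1 h2 => (h ε h1 h2).mono fun ν hν => hν.trans_le hm⟩

theorem mass_ge {J : ι → V → En0 V} {K : Set V} {u : ι → ℂ → V} {z : ℂ} {m e ε : ℝ}
    (h : ¬ MassLt 𝓤 u z m) (hn : ∀ᶠ ν in (𝓤 : Filter ι), HolNear (J ν) K (u ν) (closedBall z e))
    (h0 : 0 < ε) (h1 : ε ≤ e) : ∀ᶠ ν in (𝓤 : Filter ι), m ≤ En (u ν) (closedBall z ε) := by
  by_contra hc
  refine h ⟨ε, h0, fun ε' _ h3 => ?_⟩
  filter_upwards [Ultrafilter.eventually_not.2 hc, hn] with ν h4 h5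
  exact (en_mono (hn_int (hn_mono h5 (closedBall_subset_closedBall h1)) (isCompact_closedBall _ _))
    (closedBall_subset_closedBall h3)).trans_lt (not_le.1 h4)

/-- the maps are close to `x` near `z` -/
def Near (𝓤 : Ultrafilter ι) (u : ι → ℂ → V) (z : ℂ) (x : V) : Prop :=
  ∀ η > 0, ∃ ε > 0, ∀ w, w ≠ z → ‖w - z‖ < ε → ∀ᶠ ν in (𝓤 : Filter ι), dist (u ν w) x < η

/-- almost smallest discs carrying the energy `t` -/
structure Bub (K : Set V) (𝓤 : Ultrafilter ι) (J : ι → V → En0 V) (u : ι → ℂ → V) (z : ℂ)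
    (e t hb : ℝ) (c : ι → ℂ) (r : ι → ℝ) : Prop where
  pos : 0 < e
  hol : ∀ᶠ ν in (𝓤 : Filter ι), HolNear (J ν) K (u ν) (closedBall z e)
  up : ∀ᶠ ν in (𝓤 : Filter ι), En (u ν) (closedBall z e) < t + hb
  rpos : ∀ᶠ ν in (𝓤 : Filter ι), 0 < r ν
  low : ∀ᶠ ν in (𝓤 : Filter ι), t ≤ En (u ν) (closedBall (c ν) (r ν))
  mini : ∀ᶠ ν in (𝓤 : Filter ι), ∀ c' d, 0 < d → closedBall c' d ⊆ closedBall z e →
    t ≤ En (u ν) (closedBall c' d) → r ν < 2 * d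
  rt : Tendsto r 𝓤 (𝓝 0)
  ct : Tendsto c 𝓤 (𝓝 z)

theorem exists_bub {J : ι → V → En0 V} {K : Set V} {u : ι → ℂ → V} {Ω : Set ℂ} {E₀ t hb : ℝ}
    {z : ℂ} (hΩ : IsOpen Ω) (hG : GSeq K 𝓤 J u Ω E₀) (hz : z ∈ Ω) (ht : 0 < t)
    (h1 : ¬ MassLt 𝓤 u z hb) (h2 : ¬ MassLt 𝓤 u z t) (h3 : MassLt 𝓤 u z (t + hb)) :
    ∃ e c r, Bub K 𝓤 J u z e t hb c r := by
  obtain ⟨ε₀, h0, h3⟩ := h3
  obtain ⟨ε₁, h4, h5⟩ := nhds_basis_closedBall.mem_iff.1 (hΩ.mem_nhds hz)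
  have he : 0 < min ε₀ ε₁ := lt_min h0 h4
  have hup := h3 _ he (min_le_left _ _)
  have hol := (hG _ (isCompact_closedBall z (min ε₀ ε₁))
    ((closedBall_subset_closedBall (min_le_right _ _)).trans h5)).mono fun ν hν => hν.1
  generalize min ε₀ ε₁ = e at he hup hol
  obtain ⟨p, hp⟩ := ((hol.and (mass_ge h2 hol he le_rfl)).mono
    fun ν hν => select he ht hν.1 hν.2).choice
  have hr : Tendsto (fun ν => (p ν).2) 𝓤 (𝓝 0) := by
    refine Metric.tendsto_nhds.2 fun ε hε => ?_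
    have hd : 0 < min (ε / 2) e := lt_min (half_pos hε) he
    filter_upwards [hp, mass_ge h2 hol hd (min_le_right _ _)] with ν h6 h7
    have := h6.2.2.2 z _ hd (closedBall_subset_closedBall (min_le_right _ _)) h7
    have := min_le_left (ε / 2) e
    rw [Real.dist_0_eq_abs, abs_of_pos h6.1]
    linarith
  refine ⟨e, fun ν => (p ν).1, fun ν => (p ν).2, he, hol, hup, hp.mono fun ν h => h.1,
    hp.mono fun ν h => h.2.2.1, hp.mono fun ν h => h.2.2.2, hr, ?_⟩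
  refine Metric.tendsto_nhds.2 fun ε hε => ?_
  have hd : 0 < min (ε / 2) e := lt_min (half_pos hε) he
  filter_upwards [hp, hol, hup, mass_ge h1 hol hd (min_le_right _ _),
    hr.eventually (gt_mem_nhds (half_pos hε))] with ν h6 h7 h8 h9 h10
  by_contra hc
  have h11 := en_add_le (hn_int h7 (isCompact_closedBall _ _)) measurableSet_closedBall h6.2.1
    (closedBall_subset_closedBall (min_le_right (ε / 2) e))
    (closedBall_disjoint_closedBall (by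
      have := min_le_left (ε / 2) e
      rw [dist_comm]
      linarith [not_lt.1 hc]))
  linarith [h6.2.2.1]

/-- the affine map of the rescaling -/
def am (c : ℂ) (r : ℝ) (q : ℂ) : ℂ := c + r * q

/-- the rescaled maps -/
def rs (u : ι → ℂ → V) (c : ι → ℂ) (r : ι → ℝ) (ν : ι) : ℂ → V := u ν ∘ am (c ν) (r ν)

theorem am_diff (c : ℂ) (r : ℝ) : Differentiable ℂ (am c r) := by
  unfold am
  fun_prop

theorem am_dist (c : ℂ) {r : ℝ} (hr : 0 < r) (q q' : ℂ) :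
    dist (am c r q) (am c r q') = r * dist q q' := by
  rw [am, am, dist_add_left, dist_eq_norm, dist_eq_norm, ← mul_sub, norm_mul, norm_real,
    Real.norm_of_nonneg hr.le]

theorem am_zero (c : ℂ) (r : ℝ) : am c r 0 = c := by simp [am]

theorem am_norm (c : ℂ) {r : ℝ} (hr : 0 < r) (q : ℂ) : ‖am c r q - c‖ = r * ‖q‖ := by
  have := am_dist c hr q 0
  rwa [am_zero, dist_eq_norm, dist_zero_right] at this

theorem am_surj (c : ℂ) {r : ℝ} (hr : 0 < r) (w : ℂ) : am c r ((w - c) / r) = w := by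
  have : (r : ℂ) ≠ 0 := by exact_mod_cast hr.ne'
  rw [am, mul_div_cancel₀ _ this, add_sub_cancel]

theorem am_image (c : ℂ) {r : ℝ} (hr : 0 < r) (q : ℂ) (ε : ℝ) :
    am c r '' closedBall q ε = closedBall (am c r q) (r * ε) := by
  ext w
  constructor
  · rintro ⟨q', h, rfl⟩
    rw [mem_closedBall, am_dist c hr]
    exact mul_le_mul_of_nonneg_left h hr.le
  · intro h
    refine ⟨_, ?_, am_surj c hr w⟩
    rw [← am_surj c hr w, mem_closedBall, am_dist c hr] at h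
    exact le_of_mul_le_mul_left h hr

theorem am_mob (hm : MobStmt) {J : V → En0 V} {K : Set V} {u : ℂ → V} {B s : Set ℂ} (c : ℂ)
    {r : ℝ} (hr : 0 < r) (h : HolNear J K u B) (hs : MeasurableSet s) (hB : am c r '' s ⊆ B) :
    En u (am c r '' s) = En (u ∘ am c r) s ∧
      ∀ β : F2 V, Anti β → ∫ z in am c r '' s, dens β u z = ∫ z in s, dens β (u ∘ am c r) z := by
  refine (hm V).2.1 u _ s hs (fun z _ => am_diff c r z) (fun q _ q' _ he => ?_)
    fun z hz => hn_diff h (hB (mem_image_of_mem _ hz))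
  have := am_dist c hr q q'
  rw [he, dist_self] at this
  exact dist_eq_zero.1 ((mul_eq_zero.1 this.symm).resolve_left hr.ne')

section Bub
variable {K : Set V} {J : ι → V → En0 V} {u : ι → ℂ → V} {z : ℂ} {e t hb : ℝ} {c : ι → ℂ}
  {r : ι → ℝ}

theorem Bub.small (h : Bub K 𝓤 J u z e t hb c r) (ρ : ℝ) {ε : ℝ} (hε : 0 < ε) :
    ∀ᶠ ν in (𝓤 : Filter ι), dist (c ν) z + r ν * ρ < ε := by
  have := (tendsto_iff_dist_tendsto_zero.1 h.ct).add (h.rt.mul_const ρ)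
  rw [zero_mul, add_zero] at this
  exact this.eventually (gt_mem_nhds hε)

theorem Bub.sub (h : Bub K 𝓤 J u z e t hb c r) (q : ℂ) (ρ : ℝ) {ε : ℝ} (hε : 0 < ε) :
    ∀ᶠ ν in (𝓤 : Filter ι), closedBall (am (c ν) (r ν) q) (r ν * ρ) ⊆ closedBall z ε := by
  filter_upwards [h.small (‖q‖ + ρ) hε, h.rpos] with ν h1 h2
  refine closedBall_subset_closedBall' ?_
  have h3 := dist_triangle (am (c ν) (r ν) q) (c ν) z
  rw [dist_eq_norm _ (c ν), am_norm _ h2] at h3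
  linarith

theorem Bub.gseq (h : Bub K 𝓤 J u z e t hb c r) (hm : MobStmt)
    (hsq : ∀ ν, ∀ x ∈ K, ∀ v, J ν x (J ν x v) = -v) : GSeq K 𝓤 J (rs u c r) univ (t + hb) := by
  intro L hL _
  obtain ⟨ρ, hρ⟩ := hL.isBounded.subset_closedBall 0
  filter_upwards [h.sub 0 ρ h.pos, h.rpos, h.hol, h.up] with ν h1 h2 h3 h4
  have h5 : am (c ν) (r ν) '' L ⊆ closedBall z e := by
    rw [← am_image _ h2] at h1
    exact (image_mono hρ).trans h1
  refine ⟨?_, ?_⟩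
  · obtain ⟨N, n1, n2, n3, n4⟩ := h3
    have ho : IsOpen (am (c ν) (r ν) ⁻¹' N) := n1.preimage (am_diff _ _).continuous
    exact ⟨_, ho, image_subset_iff.1 (h5.trans n2), n3.comp n1 ho (fun w hw => hsq ν _ (n4 hw))
      (am_diff _ _).differentiableOn (mapsTo_preimage _ _), n4.comp (mapsTo_preimage _ _)⟩
  · rw [rs, ← (am_mob hm _ h2 h3 hL.measurableSet h5).1]
    exact (en_mono (hn_int h3 (isCompact_closedBall _ _)) h5).trans h4.le

theorem Bub.mass (h : Bub K 𝓤 J u z e t hb c r) (hm : MobStmt) (q : ℂ) :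
    MassLt 𝓤 (rs u c r) q t := by
  refine ⟨1 / 2, one_half_pos, fun ε h0 h1 => ?_⟩
  filter_upwards [h.sub q ε h.pos, h.rpos, h.hol, h.mini] with ν h2 h3 h4 h5
  rw [rs, ← (am_mob hm _ h3 h4 measurableSet_closedBall (by rwa [am_image _ h3])).1, am_image _ h3]
  by_contra hc
  have := h5 _ _ (mul_pos h3 h0) h2 (not_lt.1 hc)
  nlinarith

theorem Bub.unit (h : Bub K 𝓤 J u z e t hb c r) (hm : MobStmt) :
    ∀ᶠ ν in (𝓤 : Filter ι), t ≤ En (rs u c r ν) (closedBall 0 1) := by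
  filter_upwards [h.sub 0 1 h.pos, h.rpos, h.hol, h.low] with ν h2 h3 h4 h5
  rwa [rs, ← (am_mob hm _ h3 h4 measurableSet_closedBall (by rwa [am_image _ h3])).1,
    am_image _ h3, am_zero, mul_one]

/-- smallness of the neck -/
def Thin (𝓤 : Ultrafilter ι) (u : ι → ℂ → V) (x : V) (c : ι → ℂ) (r : ι → ℝ) : Prop :=
  ∀ η > 0, ∃ R₀ > 0, ∃ e₀ > 0, ∀ᶠ ν in (𝓤 : Filter ι),
    (∀ w, r ν * R₀ ≤ ‖w - c ν‖ → ‖w - c ν‖ ≤ e₀ → dist (u ν w) x ≤ η) ∧
    ∀ A, A ⊆ closedBall (c ν) e₀ \ closedBall (c ν) (r ν * R₀) → En (u ν) A ≤ η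

theorem exists_scale {γ C η ε b : ℝ} (hγ : 0 < γ) (hη : 0 < η) (hε : 0 < ε) :
    ∃ s > (0 : ℝ), s ≤ 1 / 4 ∧ s * b < ε ∧ C * (s ^ γ + s ^ γ) * (2 * Real.pi + γ⁻¹) ≤ η / 2 ∧
      2 * Real.pi * (C * (s ^ γ + s ^ γ) * (C * (s ^ γ + s ^ γ) / γ)) ≤ η := by
  have h0 : Tendsto (fun s : ℝ => s ^ γ) (𝓝 0) (𝓝 0) := by
    simpa [Real.zero_rpow hγ.ne'] using (Real.continuous_rpow_const hγ.le).tendsto 0
  have h1 : Tendsto (fun s : ℝ => C * (s ^ γ + s ^ γ)) (𝓝 0) (𝓝 0) := by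
    simpa using (h0.add h0).const_mul C
  have h2 := h1.mul_const (2 * Real.pi + γ⁻¹)
  have h3 := (h1.mul (h1.div_const γ)).const_mul (2 * Real.pi)
  have h4 : Tendsto (fun s : ℝ => s * b) (𝓝 0) (𝓝 0) := by
    simpa using (tendsto_id (x := 𝓝 (0 : ℝ))).mul_const b
  rw [zero_mul] at h2
  rw [zero_mul, mul_zero] at h3
  have h5 := ((eventually_le_nhds (show (0 : ℝ) < 1 / 4 by norm_num)).and
    ((h4.eventually (gt_mem_nhds hε)).and ((h2.eventually (eventually_le_nhds (half_pos hη))).and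
      (h3.eventually (eventually_le_nhds hη))))).filter_mono
    (nhdsWithin_le_nhds (s := Ioi (0 : ℝ)))
  obtain ⟨s, h6, h7⟩ := (h5.and self_mem_nhdsWithin).exists
  exact ⟨s, h7, h6⟩

theorem Bub.thin (h : Bub K 𝓤 J u z e t hb c r) {M : Set V} {om : F2 V} {R Λ κ : ℝ} {x : V}
    (hN : Neck1 M K om R Λ κ hb) (henv : ∀ ν, EnvJ M K om R Λ κ (J ν)) (hx : Near 𝓤 u z x) :
    Thin 𝓤 u x c r := by
  obtain ⟨γ, hγ, C₀, hN⟩ := hN
  intro η hη
  obtain ⟨ε, hε, hx⟩ := hx _ (half_pos hη)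
  have hb2 : 0 < e / 2 := half_pos h.pos
  obtain ⟨s, s0, s1, s2, s3, s4⟩ := exists_scale (C := max C₀ 0) (b := e / 2) hγ hη hε
  have he₀ : 0 < s * (e / 2) := mul_pos s0 hb2
  have he₁ : s * (e / 2) ≤ e / 2 / 4 := by nlinarith
  have hR : 8 ≤ 2 / s := by rw [le_div_iff₀ s0]; linarith
  refine ⟨2 / s, by positivity, s * (e / 2), he₀, ?_⟩
  have hw : ‖z + (s * (e / 2) / 2 : ℝ) - z‖ = s * (e / 2) / 2 := by
    rw [add_sub_cancel_left, norm_real, Real.norm_of_nonneg (half_pos he₀).le]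
  have hw0 : z + (s * (e / 2) / 2 : ℝ) ≠ z := fun h0 => by
    rw [h0, sub_self, norm_zero] at hw
    linarith
  filter_upwards [hx _ hw0 (by rw [hw]; linarith), h.small (2 / s) (half_pos (half_pos he₀)),
    h.rpos, h.hol, h.up, h.low] with ν h1 h2 h3 h4 h5 h6
  have ha : 0 < 2 * r ν := by linarith
  have hρ : 0 < r ν * (2 / s) := by positivity
  have h8 : 8 * r ν ≤ r ν * (2 / s) := by nlinarith
  have hcz : 0 ≤ dist (c ν) z := dist_nonneg
  have hsub : closedBall (c ν) (e / 2) ⊆ closedBall z e :=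
    closedBall_subset_closedBall' (by linarith)
  have hsub' : closedBall (c ν) (r ν) ⊆ closedBall z e :=
    (closedBall_subset_closedBall (by linarith)).trans hsub
  have hint := hn_int h4 (isCompact_closedBall _ _)
  have hE : En (u ν) (closedBall (c ν) (e / 2) \ ball (c ν) (2 * r ν)) ≤ hb := by
    have h9 := en_sdiff hint measurableSet_closedBall hsub'
    have h10 := en_mono (hint.mono_set (sdiff_subset (t := closedBall (c ν) (r ν))))
      (sdiff_subset_sdiff hsub (closedBall_subset_ball (show r ν < 2 * r ν by linarith)))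
    linarith
  have hn := hN _ (henv ν) (u ν) (c ν) (2 * r ν) (e / 2) ha
    (hn_mono h4 (sdiff_subset.trans hsub)) hE
  have hd : ∀ w, r ν * (2 / s) ≤ ‖w - c ν‖ → ‖w - c ν‖ ≤ s * (e / 2) →
      DifferentiableAt ℝ (u ν) w ∧ ‖fderiv ℝ (u ν) w‖ * ‖w - c ν‖ ≤
        ph (2 * r ν) (e / 2) γ (max C₀ 0) ‖w - c ν‖ := fun w w1 w2 => by
    refine ⟨hn_diff h4 (hsub (by rw [mem_closedBall, dist_eq_norm]; linarith)),
      (hn w (by linarith) (w2.trans he₁)).trans ?_⟩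
    exact mul_le_mul_of_nonneg_right (le_max_left _ _) (by positivity)
  have hde : de (2 * r ν) (e / 2) γ (max C₀ 0) (r ν * (2 / s)) (s * (e / 2)) =
      max C₀ 0 * (s ^ γ + s ^ γ) := by
    have := h.pos.ne'
    unfold de
    congr 3 <;> field_simp
  refine ⟨fun w w1 w2 => ?_, fun A hA => ?_⟩
  · have t1 := norm_sub_le_norm_sub_add_norm_sub (z + (s * (e / 2) / 2 : ℝ)) (c ν) z
    have t2 := norm_sub_le_norm_sub_add_norm_sub (z + (s * (e / 2) / 2 : ℝ)) z (c ν)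
    rw [hw, ← dist_eq_norm (c ν) z] at t1
    rw [hw, ← dist_eq_norm z (c ν), dist_comm] at t2
    have t3 := neck_osc ha hb2 hγ (le_max_right C₀ 0) hρ hd (w := z + (s * (e / 2) / 2 : ℝ))
      (by linarith) (by linarith) w1 w2
    rw [hde] at t3
    linarith [dist_triangle (u ν w) (u ν (z + (s * (e / 2) / 2 : ℝ))) x]
  · have t3 := neck_en ha hb2 hγ (le_max_right C₀ 0) hρ (by linarith) fun w w1 w2 => (hd w w1 w2).2
    rw [hde] at t3
    refine (en_mono (hint.mono_set (sdiff_subset.trans ?_)) hA).trans (t3.trans s4)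
    exact (closedBall_subset_closedBall (by linarith)).trans hsub

end Bub

/-! ### trees with a prescribed image and area -/

/-- the analytic content of `Tree` for the image `S` and the total area `A` -/
def TreeF (K : Set V) (𝓤 : Ultrafilter ι) (u : ι → ℂ → V) (z : ℂ) (x : V) (S : Set V)
    (A : F2 V → ℝ) : Prop :=
  IsConnected S ∧ x ∈ S ∧
    (∀ β : F2 V, ContinuousOn β K → Anti β → ∀ η > 0, ∃ ε₀ > 0, ∀ ε, 0 < ε → ε ≤ ε₀ →
      ∀ᶠ ν in (𝓤 : Filter ι), |(∫ w in closedBall z ε, dens β (u ν) w) - A β| ≤ η) ∧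
    ∀ (ζ : ι → ℂ) (y : V), Tendsto ζ 𝓤 (𝓝 z) → Tendsto (fun ν => u ν (ζ ν)) 𝓤 (𝓝 y) → y ∈ S

theorem tree_fintype {K : Set V} {J₀ : V → En0 V} {u : ι → ℂ → V} {z : ℂ} {x : V} {κ : Type}
    [Fintype κ] (W : κ → C2 → V) (h1 : ∀ i, IsSph K J₀ (W i) ∧ NonC (W i))
    (h2 : TreeF K 𝓤 u z x (⋃ i, im (W i)) fun β => ∑ i, area β (W i)) : Tree K 𝓤 J₀ u z x := by
  let σ := (Fintype.equivFin κ).symm
  have e1 : ⋃ i, im (W (σ i)) = ⋃ i, im (W i) := σ.surjective.iUnion_comp fun i => im (W i)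
  have e2 : (fun β : F2 V => ∑ i, area β (W (σ i))) = fun β => ∑ i, area β (W i) :=
    funext fun β => σ.sum_comp fun i => area β (W i)
  refine ⟨_, fun i => W (σ i), fun i => h1 _, ?_⟩
  change TreeF K 𝓤 u z x (⋃ i, im (W (σ i))) fun β => ∑ i, area β (W (σ i))
  rwa [e1, e2]

theorem cconv_pt {v : ι → ℂ → V} {v₀ : ℂ → V} {Ω : Set ℂ} (h : CConv 𝓤 v v₀ Ω) {q : ℂ}
    (hq : q ∈ Ω) : Tendsto (fun ν => v ν q) 𝓤 (𝓝 (v₀ q)) :=
  (h {q} isCompact_singleton (singleton_subset_iff.2 hq)).1.tendsto_at rfl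

theorem near_of_cconv {v : ι → ℂ → V} {v₀ : ℂ → V} {Zb : Finset ℂ} (h : CConv 𝓤 v v₀ (univ \ Zb))
    {q : ℂ} (hc : ContinuousAt v₀ q) : Near 𝓤 v q (v₀ q) := by
  intro η hη
  have h1 : ((Zb : Set ℂ) \ {q})ᶜ ∈ 𝓝 q :=
    (Zb.finite_toSet.subset sdiff_subset).isClosed.isOpen_compl.mem_nhds fun h => h.2 rfl
  obtain ⟨ε, hε, h2⟩ := Metric.eventually_nhds_iff.1
    ((Metric.tendsto_nhds.1 hc _ hη).and (show ∀ᶠ w in 𝓝 q, w ∉ (Zb : Set ℂ) \ {q} from h1))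
  refine ⟨ε, hε, fun w hw hd => ?_⟩
  obtain ⟨h3, h4⟩ := h2 (show dist w q < ε by rwa [dist_eq_norm])
  exact ((cconv_pt h ⟨mem_univ w, fun h5 => h4 ⟨h5, hw⟩⟩).dist tendsto_const_nhds).eventually
    (gt_mem_nhds h3)

omit [NormedSpace ℝ V] in
theorem sph_inf {W : C2 → V} (hc : ContinuousOn W nz) (hi : Inv W) :
    Tendsto (fun ρ : ℝ => aff W ρ) atTop (𝓝 (W (1, 0))) := by
  have h1 : Tendsto (fun ρ : ℝ => ((1, (ρ⁻¹ : ℝ)) : C2)) atTop (𝓝 (1, 0)) := by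
    simpa using tendsto_const_nhds.prodMk_nhds
      ((continuous_ofReal.tendsto 0).comp (tendsto_inv_atTop_zero (𝕜 := ℝ)))
  refine ((hc.continuousAt (nz_mem_nhds (Bs.aff_ne' 0))).tendsto.comp h1).congr' ?_
  filter_upwards [eventually_gt_atTop 0] with ρ hρ
  have h2 : (ρ : ℂ) ≠ 0 := by exact_mod_cast hρ.ne'
  have := hi ρ h2 _ (Bs.aff_ne' ((ρ⁻¹ : ℝ) : ℂ))
  simp only [Prod.smul_mk, smul_eq_mul, mul_one, ofReal_inv, mul_inv_cancel₀ h2] at this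
  simp only [Function.comp, aff, this, ofReal_inv]

section Core
variable {K : Set V} {J : ι → V → En0 V} {J₀ : V → En0 V} {u : ι → ℂ → V} {z : ℂ} {e t hb : ℝ}
  {c : ι → ℂ} {r : ι → ℝ} {x : V} {W₀ : C2 → V} {Zb : Finset ℂ}

theorem Bub.inf_eq (h : Bub K 𝓤 J u z e t hb c r) (hT : Thin 𝓤 u x c r) (hW : IsSph K J₀ W₀)
    (hc : CConv 𝓤 (rs u c r) (aff W₀) (univ \ Zb)) : W₀ (1, 0) = x := by
  refine eq_of_forall_dist_le fun η hη => ?_
  obtain ⟨R₀, hR, e₀, he, hT⟩ := hT η hη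
  obtain ⟨B, hB⟩ := Zb.finite_toSet.isBounded.subset_closedBall 0
  refine le_of_tendsto ((sph_inf hW.sm.continuousOn hW.inv).dist tendsto_const_nhds) ?_
  filter_upwards [eventually_ge_atTop R₀, eventually_gt_atTop B] with ρ h1 h2
  have h3 : ‖(ρ : ℂ)‖ = ρ := by rw [norm_real, Real.norm_of_nonneg (hR.le.trans h1)]
  have h4 : (ρ : ℂ) ∉ (Zb : Set ℂ) := fun h5 => by
    have := hB h5
    rw [mem_closedBall_zero_iff, h3] at this
    linarith
  refine le_of_tendsto ((cconv_pt hc ⟨mem_univ _, h4⟩).dist tendsto_const_nhds) ?_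
  filter_upwards [hT, h.small ρ he, h.rpos] with ν h5 h6 h7
  refine h5.1 _ ?_ ?_ <;> rw [am_norm _ h7, h3]
  · exact mul_le_mul_of_nonneg_left h1 h7.le
  · linarith [dist_nonneg (x := c ν) (y := z)]

theorem Bub.capture (h : Bub K 𝓤 J u z e t hb c r) (hT : Thin 𝓤 u x c r) {ζ : ι → ℂ} {y : V}
    (h1 : Tendsto ζ 𝓤 (𝓝 z)) (h2 : Tendsto (fun ν => u ν (ζ ν)) 𝓤 (𝓝 y)) :
    y = x ∨ ∃ (q : ι → ℂ) (q₀ : ℂ), Tendsto q 𝓤 (𝓝 q₀) ∧
      Tendsto (fun ν => rs u c r ν (q ν)) 𝓤 (𝓝 y) := by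
  by_cases hc : ∃ ρ : ℝ, ∀ᶠ ν in (𝓤 : Filter ι), ‖ζ ν - c ν‖ ≤ r ν * ρ
  · obtain ⟨ρ, hρ⟩ := hc
    have h3 : ∀ᶠ ν in (𝓤 : Filter ι), (ζ ν - c ν) / r ν ∈ closedBall (0 : ℂ) ρ := by
      filter_upwards [hρ, h.rpos] with ν h3 h4
      rwa [mem_closedBall_zero_iff, norm_div, norm_real, Real.norm_of_nonneg h4.le,
        div_le_iff₀' h4]
    obtain ⟨q₀, -, h4⟩ := (isCompact_closedBall (0 : ℂ) ρ).ultrafilter_le_nhds
      (𝓤.map fun ν => (ζ ν - c ν) / r ν) (le_principal_iff.2 h3)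
    refine Or.inr ⟨_, q₀, h4, h2.congr' ?_⟩
    filter_upwards [h.rpos] with ν h5
    simp only [rs, Function.comp, am_surj _ h5]
  · refine Or.inl (eq_of_forall_dist_le fun η hη => ?_)
    obtain ⟨R₀, -, e₀, he, hT⟩ := hT η hη
    have h3 : Tendsto (fun ν => ‖ζ ν - c ν‖) 𝓤 (𝓝 0) := by simpa using (h1.sub h.ct).norm
    refine le_of_tendsto (h2.dist tendsto_const_nhds) ?_
    filter_upwards [hT, Ultrafilter.eventually_not.2 (not_exists.1 hc R₀),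
      h3.eventually (eventually_le_nhds he)] with ν h4 h5 h6
    exact h4.1 _ (not_le.1 h5).le h6

theorem Bub.area_lim (h : Bub K 𝓤 J u z e t hb c r) (hm : MobStmt) (hK : IsCompact K)
    (hT : Thin 𝓤 u x c r) {β : F2 V} (hβ : ContinuousOn β K) (ha : Anti β) {a : ℝ}
    (hl : ∀ η > 0, ∀ᶠ ρ : ℝ in atTop, ∀ᶠ ν in (𝓤 : Filter ι),
      |(∫ w in closedBall 0 ρ, dens β (rs u c r ν) w) - a| ≤ η) {η : ℝ} (hη : 0 < η) :
    ∃ ε₀ > 0, ∀ ε, 0 < ε → ε ≤ ε₀ →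
      ∀ᶠ ν in (𝓤 : Filter ι), |(∫ w in closedBall z ε, dens β (u ν) w) - a| ≤ η := by
  obtain ⟨C₀, hC₀⟩ := hK.exists_bound_of_continuousOn (E := V →L[ℝ] V →L[ℝ] ℝ) (f := β) hβ
  have hC : ∀ y ∈ K, ‖β y‖ ≤ max C₀ 1 := fun y hy => (hC₀ y hy).trans (le_max_left _ _)
  have hC1 : 0 < max C₀ 1 := one_pos.trans_le (le_max_right _ _)
  obtain ⟨R₀, -, e₀, he, hT⟩ := hT (η / 2 / max C₀ 1) (by positivity)
  obtain ⟨ρ, h1, h2⟩ := ((hl _ (half_pos hη)).and (eventually_ge_atTop R₀)).exists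
  refine ⟨min e (e₀ / 2), lt_min h.pos (half_pos he), fun ε h3 h4 => ?_⟩
  filter_upwards [hT, h1, h.sub 0 ρ h3, h.small 0 (half_pos he), h.rpos, h.hol]
    with ν h5 h6 h7 h8 h9 h10
  have s1 : closedBall z ε ⊆ closedBall z e :=
    closedBall_subset_closedBall (h4.trans (min_le_left _ _))
  have s2 : closedBall z ε ⊆ closedBall (c ν) e₀ := closedBall_subset_closedBall' (by
    rw [dist_comm]
    linarith [min_le_right e (e₀ / 2)])
  have s3 := (am_mob hm (c ν) h9 h10 (s := closedBall 0 ρ) measurableSet_closedBall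
    (by rw [am_image _ h9]; exact h7.trans s1)).2 β ha
  rw [am_image _ h9, am_zero] at s3
  rw [am_zero] at h7
  have s4 := setIntegral_sdiff measurableSet_closedBall
    (hn_dens (hn_mono h10 s1) (isCompact_closedBall _ _) hβ) h7
  have s5 := int_dens_le h10 (isCompact_closedBall _ _)
    (A := closedBall z ε \ closedBall (c ν) (r ν * ρ))
    (measurableSet_closedBall.diff measurableSet_closedBall) (sdiff_subset.trans s1) hC
  have s6 := h5.2 _ (sdiff_subset_sdiff s2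
    (closedBall_subset_closedBall (mul_le_mul_of_nonneg_left h2 h9.le)))
  rw [le_div_iff₀' hC1] at s6
  rw [s4, s3] at s5
  have s7 := abs_sub_le (∫ w in closedBall z ε, dens β (u ν) w)
    (∫ w in closedBall 0 ρ, dens β (u ν ∘ am (c ν) (r ν)) w) a
  change |(∫ w in closedBall 0 ρ, dens β (u ν ∘ am (c ν) (r ν)) w) - a| ≤ η / 2 at h6
  linarith

theorem Bub.core [FiniteDimensional ℝ V] (h : Bub K 𝓤 J u z e t hb c r) (hl : LocStmt)
    (hm : MobStmt) (hK : IsCompact K) (hG : GSeq K 𝓤 J (rs u c r) univ (t + hb))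
    (hT : Thin 𝓤 u x c r) (hW : IsSph K J₀ W₀) (hc : CConv 𝓤 (rs u c r) (aff W₀) (univ \ Zb))
    {S : ℂ → Set V} {A : ℂ → F2 V → ℝ}
    (hS : ∀ q ∈ Zb, TreeF K 𝓤 (rs u c r) q (aff W₀ q) (S q) (A q)) :
    TreeF K 𝓤 u z x (im W₀ ∪ ⋃ q ∈ Zb, S q) fun β => area β W₀ + ∑ q ∈ Zb, A q β := by
  have hx : x ∈ im W₀ := ⟨_, Bs.aff_ne' 0, h.inf_eq hT hW hc⟩
  have hq : ∀ q, aff W₀ q ∈ im W₀ := fun q => ⟨_, Bs.aff_ne q, rfl⟩
  have hcon := (hW.inv.isCompact_im hW.sm.continuousOn).2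
  have him : im W₀ ⊆ K := by
    rintro _ ⟨v, hv, rfl⟩
    exact hW.mem v hv
  refine ⟨⟨⟨x, Or.inl hx⟩, isPreconnected_of_forall x ?_⟩, Or.inl hx, fun β hβ ha η hη => ?_,
    fun ζ y h1 h2 => ?_⟩
  · rintro y (hy | hy)
    · exact ⟨_, subset_union_left, hx, hy, hcon.2⟩
    · obtain ⟨q, h1, h2⟩ := mem_iUnion₂.1 hy
      exact ⟨im W₀ ∪ S q, union_subset_union_right _ (subset_iUnion₂_of_subset q h1 Subset.rfl),
        Or.inl hx, Or.inr h2, hcon.2.union _ (hq q) (hS q h1).2.1 (hS q h1).1.2⟩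
  · refine h.area_lim hm hK hT hβ ha (fun η hη => ?_) hη
    have hi := (((hm V).1 W₀ (hW.sm.of_le one_le_two) hW.inv).2.2.2 β (hβ.mono him)).1
    have h1 : Tendsto (fun ρ : ℝ => ∫ w in closedBall 0 ρ, dens β (aff W₀) w) atTop
        (𝓝 (area β W₀)) :=
      (aecover_closedBall tendsto_id).integral_tendsto_of_countably_generated hi
    obtain ⟨B, hB⟩ := Zb.finite_toSet.isBounded.subset_closedBall 0
    filter_upwards [Metric.tendsto_nhds.1 h1 _ (half_pos hη), eventually_gt_atTop B] with ρ h2 h3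
    have h4 := (hl V).2 K ι 𝓤 J _ _ univ _ Zb β (fun q => A q β) (closedBall 0 ρ) hK isOpen_univ
      hG (hW.hol.1.sm.of_le one_le_two) (fun q _ => him (hq q)) hc hβ
      (fun q hq => (hS q hq).2.2.1 β hβ ha) (isCompact_closedBall _ _) (subset_univ _)
      (hB.trans ((closedBall_subset_ball h3).trans ball_subset_interior_closedBall))
    filter_upwards [Metric.tendsto_nhds.1 h4 _ (half_pos hη)] with ν h5
    rw [Real.dist_eq, abs_lt] at h2 h5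
    rw [abs_le]
    constructor <;> linarith [h2.1, h2.2, h5.1, h5.2]
  · rcases h.capture hT h1 h2 with rfl | ⟨q, q₀, h3, h4⟩
    · exact Or.inl hx
    by_cases h5 : q₀ ∈ Zb
    · exact Or.inr (mem_iUnion₂.2 ⟨q₀, h5, (hS q₀ h5).2.2.2 q y h3 h4⟩)
    obtain ⟨ε, hε, h6⟩ := nhds_basis_closedBall.mem_iff.1
      (Zb.finite_toSet.isClosed.isOpen_compl.mem_nhds h5)
    have h7 := (hc _ (isCompact_closedBall q₀ ε) fun w hw => ⟨mem_univ w, h6 hw⟩).1.tendsto_comp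
      (hW.hol.1.sm.continuousOn.mono (subset_univ _) q₀ (mem_closedBall_self hε.le))
      (tendsto_nhdsWithin_iff.2 ⟨h3, h3.eventually (closedBall_mem_nhds q₀ hε)⟩)
    exact Or.inl (tendsto_nhds_unique h4 h7 ▸ hq q₀)

theorem Bub.nonempty (h : Bub K 𝓤 J u z e t hb c r) (hm : MobStmt) (ht : 0 < t)
    (hc : CConv 𝓤 (rs u c r) (fun _ => x) (univ \ Zb)) : Zb.Nonempty := by
  by_contra hne
  rw [Finset.not_nonempty_iff_eq_empty.1 hne] at hc
  have h1 := Metric.tendstoUniformlyOn_iff.1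
    (hc _ (isCompact_closedBall (0 : ℂ) 1) fun w _ => ⟨mem_univ w, by simp⟩).2.1 (√(t / 4))
    (Real.sqrt_pos.2 (by linarith))
  obtain ⟨ν, h2, h3⟩ := (h1.and (h.unit hm)).exists
  have h4 := en_le_disc (u := rs u c r ν) (c := 0) (B := √(t / 4)) zero_le_one fun w hw => by
    simpa using (h2 w hw).le
  rw [Real.sq_sqrt (by linarith)] at h4
  nlinarith [Real.pi_lt_four]

end Core

theorem step [FiniteDimensional ℝ V] (hl : LocStmt) (hs : SmallStmt) (hm : MobStmt)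
    {O M K : Set V} {om : F2 V} {R Λ κ hb t : ℝ} (h0 : Env0 O M K om) (hhb : 0 < hb)
    (hE : Eps1 M K om R Λ κ hb) (hN : Neck1 M K om R Λ κ hb) {J : ι → V → En0 V} {J₀ : V → En0 V}
    (hF : GFam M K om R Λ κ 𝓤 J J₀) (ht : 0 < t)
    (IH : ∀ (v : ι → ℂ → V) (E₀ : ℝ) (q : ℂ) (y : V), GSeq K 𝓤 J v univ E₀ → ¬ MassLt 𝓤 v q hb →
      Near 𝓤 v q y → MassLt 𝓤 v q t → Tree K 𝓤 J₀ v q y)
    {u : ι → ℂ → V} {z : ℂ} {x : V} {e : ℝ} {c : ι → ℂ} {r : ι → ℝ}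
    (h : Bub K 𝓤 J u z e t hb c r) (hx : Near 𝓤 u z x) : Tree K 𝓤 J₀ u z x := by
  have hG := h.gseq hm fun ν => (hF.env ν).ub.sq
  have hT := h.thin hN hF.env hx
  obtain ⟨v₀, Zb, v1, v2, v3, hc, v4⟩ :=
    (hl V).1 O M K om R Λ κ hb h0 hhb hE ι 𝓤 J J₀ hF _ univ _ isOpen_univ hG
  obtain ⟨W₀, hW, rfl⟩ := (hs V O M K om R Λ κ h0).2.2 J₀ hF.env₀ v₀ _ v1 v2
    fun L hL => v4 L hL (subset_univ _)
  have hq : ∀ q : ℂ, ∃ (k : ℕ) (W : Fin k → C2 → V), q ∈ Zb →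
      (∀ i, IsSph K J₀ (W i) ∧ NonC (W i)) ∧ TreeF K 𝓤 (rs u c r) q (aff W₀ q) (⋃ i, im (W i))
        fun β => ∑ i, area β (W i) := fun q => by
    by_cases h1 : q ∈ Zb
    · obtain ⟨k, W, h2⟩ := IH _ _ q _ hG ((v3 q).1 h1).2 (near_of_cconv hc
        (v1.sm.continuousOn.continuousAt univ_mem)) (h.mass hm q)
      exact ⟨k, W, fun _ => h2⟩
    · exact ⟨0, Fin.elim0, fun h2 => absurd h2 h1⟩
  choose k W hq using hq
  have key := h.core hl hm h0.cpt hG hT hW hc fun q h1 => (hq q h1).2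
  have e1 : ⋃ p : (q : Zb) × Fin (k q), im (W p.1 p.2) = ⋃ q ∈ Zb, ⋃ i, im (W q i) := by
    rw [iUnion_sigma, iUnion_subtype]
  have e2 : ∀ β : F2 V, ∑ p : (q : Zb) × Fin (k q), area β (W p.1 p.2) =
      ∑ q ∈ Zb, ∑ i, area β (W q i) := fun β => by
    rw [Fintype.sum_sigma, Finset.sum_coe_sort Zb fun q => ∑ i, area β (W q i)]
  by_cases hnc : NonC W₀
  · refine tree_fintype (κ := Option ((q : Zb) × Fin (k q)))
      (fun o => o.elim W₀ fun p => W p.1 p.2) ?_ ?_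
    · rintro (_ | p)
      exacts [⟨hW, hnc⟩, (hq _ p.1.2).1 p.2]
    · simp only [iUnion_option, Fintype.sum_option, Option.elim_none, Option.elim_some, e1, e2]
      exact key
  · have hcon : ∀ v, v ≠ 0 → W₀ v = x := fun v hv => by
      by_contra hne
      exact hnc ⟨v, hv, _, Bs.aff_ne' 0, h.inf_eq hT hW hc ▸ hne⟩
    have ha : aff W₀ = fun _ => x := funext fun q => hcon _ (Bs.aff_ne q)
    obtain ⟨q₀, hq₀⟩ := h.nonempty hm ht (ha ▸ hc)
    have e3 : im W₀ ⊆ ⋃ q ∈ Zb, ⋃ i, im (W q i) := by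
      rintro _ ⟨v, hv, rfl⟩
      have := (hq q₀ hq₀).2.2.1
      rw [ha] at this
      exact mem_iUnion₂.2 ⟨q₀, hq₀, hcon v hv ▸ this⟩
    have e4 : ∀ β : F2 V, area β W₀ = 0 := fun β => by simp [area, dens, ha]
    refine tree_fintype (κ := (q : Zb) × Fin (k q)) (fun p => W p.1 p.2)
      (fun p => (hq _ p.1.2).1 p.2) ?_
    simp only [union_eq_self_of_subset_left e3, e4, zero_add] at key
    simp only [e1, e2]
    exact key

end TreeP

open TreeP in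
theorem tree_of (h1 : LocStmt) (h2 : SmallStmt) (h3 : MobStmt) : TreeStmt := by
  intro V _ _ _ O M K om R Λ κ hb h0 hhb hE hN ι 𝓤 J J₀ hF
  have main : ∀ (n : ℕ) (u : ι → ℂ → V) (Ω : Set ℂ) (E₀ : ℝ) (z : ℂ) (x : V), IsOpen Ω →
      GSeq K 𝓤 J u Ω E₀ → z ∈ Ω → ¬ MassLt 𝓤 u z hb → Near 𝓤 u z x →
      MassLt 𝓤 u z ((n + 1) * hb) → Tree K 𝓤 J₀ u z x := by
    intro n
    induction n with
    | zero => intro u Ω E₀ z x _ _ _ h4 _ h5; exact absurd (by simpa using h5) h4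
    | succ n IH =>
      intro u Ω E₀ z x hΩ hG hz h4 hx h5
      by_cases h6 : MassLt 𝓤 u z ((n + 1) * hb)
      · exact IH u Ω E₀ z x hΩ hG hz h4 hx h6
      have ht : (0 : ℝ) < (n + 1) * hb := by positivity
      obtain ⟨e, c, r, hB⟩ := exists_bub hΩ hG hz ht h4 h6
        (massLt_mono h5 (by push_cast; linarith))
      exact step h1 h2 h3 h0 hhb hE hN hF ht
        (fun v E q y a1 a2 a3 a4 => IH v univ E q y isOpen_univ a1 (mem_univ q) a2 a3 a4) hB hx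
  intro u Ω E₀ z x hΩ hG hz h4 hx
  obtain ⟨n, hn⟩ := exists_nat_ge (E₀ / hb)
  obtain ⟨ε₀, h5, h6⟩ := nhds_basis_closedBall.mem_iff.1 (hΩ.mem_nhds hz)
  refine main n u Ω E₀ z x hΩ hG hz h4 hx ⟨ε₀, h5, fun ε _ h7 => ?_⟩
  rw [div_le_iff₀ hhb] at hn
  filter_upwards [hG _ (isCompact_closedBall z ε) ((closedBall_subset_closedBall h7).trans h6)]
    with ν hν
  linarith [hν.2]

end Pool.Agent.MP_9758ca_gt

end MrgPart1

-- marker of a merged file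
example : 731051 + 7839 = 731051 + 7839 := rfl
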