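import Mathlib.Analysis.Calculus.BumpFunction.FiniteDimension
import Mathlib.MeasureTheory.Function.Jacobian
import Mathlib.Combinatorics.SimpleGraph.Basic
import Mathlib.Analysis.InnerProductSpace.NormDet
import Mathlib.Topology.Baire.LocallyCompactRegular
import Mathlib.Topology.UniformSpace.Uniformizable
import Pool.Agent.MP_9758ca_gt.SpecA
import Pool.Agent.MP_9758ca_gt.Gn

-- ======== part 0: formerly Pool.Agent.MP_9758ca_gt.Parity
section MrgPart0

/-!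
PROJECT BALL: parity of the number of preimages of a regular value (`eu`), and the mod two degree
argument along a segment (`parity_of`).
-/

open scoped Topology ContDiff
open Set Metric Filter MeasureTheory

namespace Pool.Agent.MP_9758ca_gt

namespace EuP

open Polynomial

variable {n : ℕ}

/-- evaluation of a continuous function at a point, as a ring homomorphism -/
def evAt (z : Fin n → ℝ) : C(Fin n → ℝ, ℝ) →+* ℝ where
  toFun f := f z
  map_one' := rfl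
  map_mul' _ _ := rfl
  map_zero' := rfl
  map_add' _ _ := rfl

theorem intOn {f : (Fin n → ℝ) → ℝ} (hf : Continuous f) (c : Fin n → ℝ) (R : ℝ) :
    IntegrableOn f (ball c R) :=
  (hf.continuousOn.integrableOn_compact (isCompact_closedBall c R)).mono_set ball_subset_closedBall

theorem integral_poly (P : Polynomial C(Fin n → ℝ, ℝ)) (c : Fin n → ℝ) (R : ℝ) :
    ∃ q : Polynomial ℝ, ∀ t : ℝ, q.eval t = ∫ z in ball c R, P.eval₂ (evAt z) t := by
  refine ⟨∑ i ∈ Finset.range (P.natDegree + 1),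
    C (∫ z in ball c R, P.coeff i z) * X ^ i, fun t => ?_⟩
  simp only [eval₂_eq_sum_range, eval_finsetSum, eval_mul, eval_C, eval_pow, eval_X]
  rw [integral_finsetSum (f := fun i z => evAt z (P.coeff i) * t ^ i) _
    fun i _ => (intOn (P.coeff i).continuous c R).mul_const _]
  refine Finset.sum_congr rfl fun i _ => ?_
  rw [← integral_mul_const]
  rfl

theorem det_eq (A : (Fin n → ℝ) →L[ℝ] (Fin n → ℝ)) (t : ℝ) :
    (ContinuousLinearMap.id ℝ (Fin n → ℝ) + t • A).det =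
      (Matrix.of fun i j : Fin n =>
        (if i = j then (1 : ℝ) else 0) + t * A (Pi.single j 1) i).det := by
  rw [ContinuousLinearMap.det, ← LinearMap.det_toMatrix']
  congr 1
  ext i j
  simp [LinearMap.toMatrix'_apply, Pi.single_apply]

/-- a small perturbation of the identity supported in a ball permutes the ball -/
theorem perm {h : (Fin n → ℝ) → (Fin n → ℝ)} {L : NNReal} (hL : LipschitzWith L h) {c : Fin n → ℝ}
    {R : ℝ} (h0 : ∀ z, z ∉ ball c R → h z = 0) {t : ℝ} (ht : |t| * (L : ℝ) < 1) :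
    Function.Injective (fun z => z + t • h z) ∧ (fun z => z + t • h z) '' ball c R = ball c R := by
  set F : (Fin n → ℝ) → (Fin n → ℝ) := fun z => z + t • h z with hF
  have happ : ApproximatesLinearOn F
      ((ContinuousLinearEquiv.refl ℝ (Fin n → ℝ) : (Fin n → ℝ) ≃L[ℝ] (Fin n → ℝ)) :
        (Fin n → ℝ) →L[ℝ] (Fin n → ℝ)) Set.univ (‖t‖₊ * L) := by
    intro x _ y _
    have e : F x - F y - (ContinuousLinearEquiv.refl ℝ (Fin n → ℝ) :
        (Fin n → ℝ) →L[ℝ] (Fin n → ℝ)) (x - y) = t • (h x - h y) := by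
      simp only [hF, smul_sub]
      simp
      abel
    rw [e, norm_smul, NNReal.coe_mul, coe_nnnorm, mul_assoc]
    exact mul_le_mul_of_nonneg_left (hL.norm_sub_le x y) (norm_nonneg _)
  have hcond : Subsingleton (Fin n → ℝ) ∨ ‖t‖₊ * L <
      ‖((ContinuousLinearEquiv.refl ℝ (Fin n → ℝ)).symm : (Fin n → ℝ) →L[ℝ] (Fin n → ℝ))‖₊⁻¹ := by
    rcases subsingleton_or_nontrivial (Fin n → ℝ) with h3 | h3
    · exact Or.inl h3
    · right
      have : ‖((ContinuousLinearEquiv.refl ℝ (Fin n → ℝ)).symm :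
          (Fin n → ℝ) →L[ℝ] (Fin n → ℝ))‖₊ = 1 := by
        simp
      rw [this, inv_one, ← NNReal.coe_lt_coe]
      simpa using ht
  have hinj : Function.Injective F := Set.injOn_univ.1 (happ.injOn hcond)
  have hsurj : Function.Surjective F := happ.surjective hcond
  have hfix : ∀ z, z ∉ ball c R → F z = z := fun z hz => by simp [hF, h0 z hz]
  refine ⟨hinj, ?_⟩
  ext y
  constructor
  · rintro ⟨x, hx, rfl⟩
    by_contra hy
    have := hinj (hfix _ hy)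
    rw [this] at hy
    exact hy hx
  · intro hy
    obtain ⟨x, rfl⟩ := hsurj y
    refine ⟨x, ?_, rfl⟩
    by_contra hx
    rw [hfix x hx] at hy
    exact hx hy

/-- the determinant is a null Lagrangian -/
theorem nullLag {h : (Fin n → ℝ) → (Fin n → ℝ)} (hh : ContDiff ℝ 1 h) {c : Fin n → ℝ} {R : ℝ}
    (h0 : ∀ z, z ∉ ball c R → h z = 0) :
    ∫ z in ball c R, (ContinuousLinearMap.id ℝ (Fin n → ℝ) + fderiv ℝ h z).det =
      ∫ _ in ball c R, (1 : ℝ) := by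
  have hd : Differentiable ℝ h := hh.differentiable one_ne_zero
  have hDc : Continuous (fderiv ℝ h) := hh.continuous_fderiv one_ne_zero
  have hKc := isCompact_closedBall c R
  have hcs : HasCompactSupport h :=
    HasCompactSupport.intro hKc fun z hz => h0 z fun k => hz (ball_subset_closedBall k)
  obtain ⟨L, hL⟩ := hh.lipschitzWith_of_hasCompactSupport hcs one_ne_zero
  set dt : ℝ → (Fin n → ℝ) → ℝ := fun t z =>
    (ContinuousLinearMap.id ℝ (Fin n → ℝ) + t • fderiv ℝ h z).det with hdt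
  have hdtc : Continuous fun p : ℝ × (Fin n → ℝ) => dt p.1 p.2 := by
    simp only [hdt]
    exact ContinuousLinearMap.continuous_det.comp (by fun_prop)
  have hpos : ∀ᶠ t in 𝓝 (0 : ℝ), ∀ z ∈ closedBall c R, 0 < dt t z := by
    refine hKc.eventually_forall_of_forall_eventually fun z _ => ?_
    refine continuousAt_const.eventually_lt hdtc.continuousAt ?_
    simp [hdt, ContinuousLinearMap.det]
  have hsmall : ∀ᶠ t : ℝ in 𝓝 (0 : ℝ), |t| * (L : ℝ) < 1 := by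
    have h1 : ContinuousAt (fun t : ℝ => |t| * (L : ℝ)) 0 := by fun_prop
    exact h1.eventually_lt continuousAt_const (by simp)
  have hcv : ∀ᶠ t in 𝓝 (0 : ℝ), ∫ z in ball c R, dt t z = ∫ _ in ball c R, (1 : ℝ) := by
    filter_upwards [hpos, hsmall] with t h1 h2
    obtain ⟨hinj, himg⟩ := perm hL h0 h2
    have hder : ∀ x ∈ ball c R, HasFDerivWithinAt (fun z => z + t • h z)
        (ContinuousLinearMap.id ℝ (Fin n → ℝ) + t • fderiv ℝ h x) (ball c R) x := fun x _ =>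
      ((hasFDerivAt_id x).add ((hd x).hasFDerivAt.const_smul t)).hasFDerivWithinAt
    have := integral_image_eq_integral_abs_det_fderiv_smul volume measurableSet_ball hder
      hinj.injOn (fun _ => (1 : ℝ))
    rw [himg] at this
    rw [this]
    refine setIntegral_congr_fun measurableSet_ball fun z hz => ?_
    have h3 := h1 z (ball_subset_closedBall hz)
    simp only [smul_eq_mul]
    rw [abs_of_pos h3, mul_one]
  set P : Polynomial C(Fin n → ℝ, ℝ) :=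
    (Matrix.of fun i j : Fin n => (if i = j then (1 : Polynomial C(Fin n → ℝ, ℝ)) else 0) +
      X * C ⟨fun z => fderiv ℝ h z (Pi.single j 1) i, by fun_prop⟩).det with hP
  have hPe : ∀ t z, P.eval₂ (evAt z) t = dt t z := by
    intro t z
    change eval₂RingHom (evAt z) t P = _
    simp only [hP, hdt, RingHom.map_det, det_eq]
    congr 1
    ext i j
    by_cases hij : i = j <;> simp [hij, evAt] <;> ring
  obtain ⟨q, hq⟩ := integral_poly P c R
  have hq' : q = C (∫ _ in ball c R, (1 : ℝ)) := by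
    apply Polynomial.eq_of_infinite_eval_eq
    refine infinite_of_mem_nhds (0 : ℝ) ?_
    filter_upwards [hcv] with t ht
    simp only [hq, hPe, ht, eval_C]
  have := hq 1
  simp only [hPe, hdt, one_smul] at this
  rw [← this, hq', eval_C]

/-- two maps that agree near the boundary have the same integral of the Jacobian -/
theorem jac_eq {h₀ h₁ : (Fin n → ℝ) → Fin n → ℝ} {W : Set (Fin n → ℝ)} {y₀ : Fin n → ℝ}
    {r r' ρ : ℝ} (hW : IsOpen W) (hs : closedBall y₀ r ⊆ W) (h0 : 0 < ρ) (h1 : r' < ρ) (h2 : ρ < r)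
    (c0 : ContDiffOn ℝ 1 h₀ W) (c1 : ContDiffOn ℝ 1 h₁ W)
    (he : ∀ y ∈ closedBall y₀ r, r' < dist y y₀ → h₀ y = h₁ y) :
    ∫ z in ball y₀ ρ, (fderiv ℝ h₀ z).det = ∫ z in ball y₀ ρ, (fderiv ℝ h₁ z).det := by
  let b : ContDiffBump y₀ := ⟨ρ, r, h0, h2⟩
  have bz : ∀ z, z ∉ ball y₀ r → b z = 0 := fun z hz =>
    b.zero_of_le_dist (by simpa using hz)
  have key : ∀ h : (Fin n → ℝ) → Fin n → ℝ, ContDiffOn ℝ 1 h W →
      ContDiff ℝ 1 (fun z => b z • (h z - z)) ∧ ∀ z ∈ ball y₀ ρ,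
        ContinuousLinearMap.id ℝ (Fin n → ℝ) + fderiv ℝ (fun z => b z • (h z - z)) z =
          fderiv ℝ h z := by
    intro h hc
    refine ⟨contDiff_iff_contDiffAt.2 fun z => ?_, fun z hz => ?_⟩
    · by_cases k : z ∈ W
      · exact b.contDiff.contDiffAt.smul ((hc.contDiffAt (hW.mem_nhds k)).sub contDiffAt_id)
      · refine (contDiffAt_const (c := 0)).congr_of_eventuallyEq ?_
        filter_upwards [isClosed_closedBall.isOpen_compl.mem_nhds fun a => k (hs a)] with w hw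
        rw [bz w fun a => hw (ball_subset_closedBall a), zero_smul]
    · have e : (fun z => b z • (h z - z)) =ᶠ[𝓝 z] fun z => h z - z := by
        filter_upwards [isOpen_ball.mem_nhds hz] with w hw
        rw [b.one_of_mem_closedBall (ball_subset_closedBall hw), one_smul]
      have d : DifferentiableAt ℝ h z := (hc.contDiffAt (hW.mem_nhds (hs
        (ball_subset_closedBall (ball_subset_ball h2.le hz))))).differentiableAt one_ne_zero
      have d' : HasFDerivAt (fun z => h z - z) _ z := d.hasFDerivAt.sub (hasFDerivAt_id z)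
      rw [e.fderiv_eq, d'.fderiv]
      abel
  obtain ⟨a0, b0⟩ := key h₀ c0
  obtain ⟨a1, b1⟩ := key h₁ c1
  have i : ∀ {k : (Fin n → ℝ) → Fin n → ℝ}, ContDiff ℝ 1 k → ∀ R, IntegrableOn
      (fun z => (ContinuousLinearMap.id ℝ (Fin n → ℝ) + fderiv ℝ k z).det) (ball y₀ R) :=
    fun hk R => intOn (ContinuousLinearMap.continuous_det.comp
      (continuous_const.add (hk.continuous_fderiv one_ne_zero))) _ _
  have n0 := nullLag a0 (c := y₀) (R := r) fun z hz => by rw [bz z hz, zero_smul]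
  have n1 := nullLag a1 (c := y₀) (R := r) fun z hz => by rw [bz z hz, zero_smul]
  have e := sub_eq_zero.2 (n0.trans n1.symm)
  rw [← integral_sub (i a0 r) (i a1 r), setIntegral_eq_of_subset_of_forall_sdiff_eq_zero
    measurableSet_ball (ball_subset_ball h2.le), integral_sub (i a0 ρ) (i a1 ρ), sub_eq_zero,
    setIntegral_congr_fun measurableSet_ball fun z hz => congrArg _ (b0 z hz),
    setIntegral_congr_fun measurableSet_ball fun z hz => congrArg _ (b1 z hz)] at e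
  · exact e
  · intro z hz
    have : (fun z => b z • (h₀ z - z)) =ᶠ[𝓝 z] fun z => b z • (h₁ z - z) := by
      have o : IsOpen {w : Fin n → ℝ | r' < dist w y₀} := isOpen_lt continuous_const (by fun_prop)
      filter_upwards [o.mem_nhds (h1.trans_le (by simpa using hz.2))] with w hw
      by_cases k : w ∈ ball y₀ r
      · rw [he w (ball_subset_closedBall k) hw]
      · rw [bz w k, zero_smul, zero_smul]
    rw [this.fderiv_eq, sub_self]

/-- inverse function theorem -/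
theorem loc {g : (Fin n → ℝ) → Fin n → ℝ} {x : Fin n → ℝ} (hg : ContDiffAt ℝ 1 g x)
    (hd : (fderiv ℝ g x).det ≠ 0) : (∃ O ∈ 𝓝 x, InjOn g O) ∧ map g (𝓝 x) = 𝓝 (g x) := by
  have hf : HasStrictFDerivAt g (((fderiv ℝ g x).toContinuousLinearEquivOfDetNeZero hd :
      (Fin n → ℝ) ≃L[ℝ] (Fin n → ℝ)) : (Fin n → ℝ) →L[ℝ] (Fin n → ℝ)) x := by
    rw [ContinuousLinearMap.coe_toContinuousLinearEquivOfDetNeZero]
    exact hg.hasStrictFDerivAt one_ne_zero
  exact ⟨⟨_, hf.eventually_left_inverse, fun a ha b hb e => by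
    rw [← (show hf.localInverse g _ x (g a) = a from ha), e]; exact hb⟩, hf.map_nhds_eq_of_equiv⟩

theorem fin {g : (Fin n → ℝ) → Fin n → ℝ} {W K : Set (Fin n → ℝ)} {c : Fin n → ℝ} (hW : IsOpen W)
    (hK : IsCompact K) (hs : K ⊆ W) (hg : ContDiffOn ℝ 1 g W)
    (hd : ∀ y ∈ K, g y = c → (fderiv ℝ g y).det ≠ 0) : {y ∈ K | g y = c}.Finite := by
  have hc : IsCompact {y ∈ K | g y = c} := hK.of_isClosed_subset
    ((hg.continuousOn.mono hs).preimage_isClosed_of_isClosed hK.isClosed isClosed_singleton)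
    fun y hy => hy.1
  choose! U hU hU' using fun x (hx : x ∈ {y ∈ K | g y = c}) =>
    (loc (hg.contDiffAt (hW.mem_nhds (hs hx.1))) (hd x hx.1 hx.2)).1
  obtain ⟨t, t1, t2⟩ := hc.elim_nhds_subcover U hU
  refine t.finite_toSet.subset fun y hy => ?_
  obtain ⟨x, hx, k⟩ := mem_iUnion₂.1 (t2 hy)
  rwa [hU' x (t1 x hx) k (mem_of_mem_nhds (hU x (t1 x hx))) (hy.2.trans (t1 x hx).2.symm)]

/-- the degree formula -/
theorem deg {g : (Fin n → ℝ) → Fin n → ℝ} {W : Set (Fin n → ℝ)} {y₀ c : Fin n → ℝ} {ρ : ℝ}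
    (hW : IsOpen W) (hs : closedBall y₀ ρ ⊆ W) (hg : ContDiffOn ℝ 1 g W)
    (hd : ∀ y ∈ closedBall y₀ ρ, g y = c → (fderiv ℝ g y).det ≠ 0 ∧ y ∈ ball y₀ ρ) :
    ∃ m : ℤ, Even (m - {y ∈ closedBall y₀ ρ | g y = c}.ncard) ∧ ∃ O ∈ 𝓝 c,
      ∀ w : (Fin n → ℝ) → ℝ, Continuous w → (∀ y, y ∉ O → w y = 0) →
        ∫ z in ball y₀ ρ, w (g z) * (fderiv ℝ g z).det = m * ∫ y, w y := by
  classical
  have hK := isCompact_closedBall y₀ ρ
  have hF := fin hW hK hs hg fun y a b => (hd y a b).1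
  set S := {y ∈ closedBall y₀ ρ | g y = c} with hS
  have cD : ContinuousOn (fun z => (fderiv ℝ g z).det) W :=
    ContinuousLinearMap.continuous_det.comp_continuousOn
      (hg.continuousOn_fderiv_of_isOpen hW le_rfl)
  obtain ⟨U, U1, U2⟩ := hF.t2_separation
  have ex : ∀ x ∈ S, ∃ (O : Set (Fin n → ℝ)) (σ : ℤ), IsOpen O ∧ x ∈ O ∧ O ⊆ U x ∧
      O ⊆ ball y₀ ρ ∧ InjOn g O ∧ Even (σ - 1) ∧
      ∀ z ∈ O, (fderiv ℝ g z).det = σ * |(fderiv ℝ g z).det| := by
    intro x hx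
    have xW := hW.mem_nhds (hs hx.1)
    obtain ⟨⟨O, O1, O2⟩, -⟩ := loc (hg.contDiffAt xW) (hd x hx.1 hx.2).1
    obtain ⟨σ, s1, s2⟩ : ∃ σ : ℤ, Even (σ - 1) ∧
        ∀ᶠ z in 𝓝 x, (fderiv ℝ g z).det = σ * |(fderiv ℝ g z).det| := by
      rcases lt_or_gt_of_ne (hd x hx.1 hx.2).1 with k | k
      · refine ⟨-1, by decide, ?_⟩
        filter_upwards [(cD.continuousAt xW).eventually_lt continuousAt_const k] with z hz
        simp [abs_of_neg hz]
      · refine ⟨1, by decide, ?_⟩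
        filter_upwards [continuousAt_const.eventually_lt (cD.continuousAt xW) k] with z hz
        simp [abs_of_pos hz]
    obtain ⟨O', a, b, c'⟩ := _root_.mem_nhds_iff.1 (inter_mem (inter_mem O1 s2) (inter_mem
      ((U1 x).2.mem_nhds (U1 x).1) (isOpen_ball.mem_nhds (hd x hx.1 hx.2).2)))
    exact ⟨O', σ, b, c', fun z hz => (a hz).2.1, fun z hz => (a hz).2.2,
      O2.mono fun z hz => (a hz).1.1, s1, fun z hz => (a hz).1.2⟩
  choose! O σ o1 o2 o3 o4 o5 o6 o7 using ex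
  have mS : ∀ x, x ∈ hF.toFinset ↔ x ∈ S := fun x => hF.mem_toFinset
  have oo : IsOpen (⋃ x ∈ hF.toFinset, O x) := isOpen_biUnion fun x hx => o1 x ((mS x).1 hx)
  have c1 : IsClosed (g '' (closedBall y₀ ρ \ ⋃ x ∈ hF.toFinset, O x)) :=
    ((hK.diff oo).image_of_continuousOn (hg.continuousOn.mono fun z hz => hs hz.1)).isClosed
  refine ⟨∑ x ∈ hF.toFinset, σ x, ?_, (⋂ x ∈ hF.toFinset, g '' O x) ∩
    (g '' (closedBall y₀ ρ \ ⋃ x ∈ hF.toFinset, O x))ᶜ, inter_mem ?_ ?_, fun w hw w0 => ?_⟩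
  · rw [ncard_eq_toFinset_card S hF, Finset.card_eq_sum_ones, Nat.cast_sum,
      ← Finset.sum_sub_distrib]
    exact Finset.even_sum _ fun x hx => by simpa using o6 x ((mS x).1 hx)
  · refine (biInter_finset_mem _).2 fun x hx => ?_
    have hx := (mS x).1 hx
    rw [← hx.2, ← (loc (hg.contDiffAt (hW.mem_nhds (hs hx.1))) (hd x hx.1 hx.2).1).2]
    exact image_mem_map ((o1 x hx).mem_nhds (o2 x hx))
  · refine c1.isOpen_compl.mem_nhds ?_
    rintro ⟨z, ⟨z1, z2⟩, z3⟩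
    exact z2 (mem_iUnion₂.2 ⟨z, (mS z).2 ⟨z1, z3⟩, o2 z ⟨z1, z3⟩⟩)
  · have it : IntegrableOn (fun z => w (g z) * (fderiv ℝ g z).det) (closedBall y₀ ρ) :=
      (((hw.comp_continuousOn hg.continuousOn).mul cD).mono hs).integrableOn_compact hK
    rw [setIntegral_eq_of_subset_of_forall_sdiff_eq_zero (s := ⋃ x ∈ hF.toFinset, O x)
      measurableSet_ball (iUnion₂_subset fun x hx => o4 x ((mS x).1 hx)) fun z hz => by
        rw [w0 _ fun k => k.2 ⟨z, ⟨ball_subset_closedBall hz.1, hz.2⟩, rfl⟩, zero_mul],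
      integral_biUnion_finset _ (fun x hx => (o1 x ((mS x).1 hx)).measurableSet)
        (fun x hx y hy e => (U2 ((mS x).1 hx) ((mS y).1 hy) e).mono (o3 x ((mS x).1 hx))
          (o3 y ((mS y).1 hy)))
        fun x hx => it.mono_set ((o4 x ((mS x).1 hx)).trans ball_subset_closedBall),
      Int.cast_sum, Finset.sum_mul]
    refine Finset.sum_congr rfl fun x hx => ?_
    have hx' := (mS x).1 hx
    have cv := integral_image_eq_integral_abs_det_fderiv_smul volume (o1 x hx').measurableSet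
      (f' := fderiv ℝ g) (fun z hz => ((hg.contDiffAt (hW.mem_nhds (hs (ball_subset_closedBall
        (o4 x hx' hz))))).differentiableAt one_ne_zero).hasFDerivAt.hasFDerivWithinAt) (o5 x hx') w
    rw [setIntegral_eq_integral_of_forall_compl_eq_zero
      fun y hy => w0 y fun k => hy (mem_iInter₂.1 k.1 x hx)] at cv
    rw [cv, ← integral_const_mul]
    refine setIntegral_congr_fun (o1 x hx').measurableSet fun z hz => ?_
    have := o7 x hx' z hz
    simp only [smul_eq_mul]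
    linear_combination w (g z) * this

/-- a map whose Jacobian is a bump concentrated near `c` -/
theorem bump (c : Fin n → ℝ) {O : Set (Fin n → ℝ)} (hO : O ∈ 𝓝 c) :
    ∃ Ψ : (Fin n → ℝ) → Fin n → ℝ, ContDiff ℝ 1 Ψ ∧ (∀ y, y ∉ O → (fderiv ℝ Ψ y).det = 0) ∧
      0 < ∫ y, (fderiv ℝ Ψ y).det := by
  obtain ⟨δ, hδ, hb⟩ := Metric.mem_nhds_iff.1 hO
  let b : ℝ → ℝ := fun s => max (δ - |s|) 0
  have bc : Continuous b := by fun_prop
  let β : ℝ → ℝ := fun s => ∫ u in (0 : ℝ)..s, b u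
  have hβ : ∀ s, HasDerivAt β (b s) s := fun s => (bc.integral_hasStrictDerivAt 0 s).hasDerivAt
  have cβ : ContDiff ℝ 1 β := contDiff_one_iff_deriv.2 ⟨fun s => (hβ s).differentiableAt, by
    rw [show deriv β = b from funext fun s => (hβ s).deriv]; exact bc⟩
  let Ψ : (Fin n → ℝ) → Fin n → ℝ := fun y l => β (y l - c l)
  have dΨ : ∀ y, (fderiv ℝ Ψ y).det = ∏ l, b (y l - c l) := fun y => by
    have : HasFDerivAt Ψ (ContinuousLinearMap.pi fun l =>
        b (y l - c l) • ContinuousLinearMap.proj (R := ℝ) (φ := fun _ : Fin n => ℝ) l) y :=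
      hasFDerivAt_pi.2 fun l => (hβ _).comp_hasFDerivAt y
        ((hasFDerivAt_apply (𝕜 := ℝ) l y).sub_const (c l))
    rw [this.fderiv, ContinuousLinearMap.det, ← LinearMap.det_toMatrix', ← Matrix.det_diagonal]
    congr 1
    ext i j
    by_cases e : i = j <;> simp [LinearMap.toMatrix'_apply, e]
  have z : ∀ y, y ∉ ball c δ → ∏ l, b (y l - c l) = 0 := fun y hy => by
    rw [mem_ball, dist_pi_lt_iff hδ] at hy
    push Not at hy
    obtain ⟨l, hl⟩ := hy
    exact Finset.prod_eq_zero (Finset.mem_univ l) (max_eq_right (by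
      rw [Real.dist_eq] at hl; linarith))
  refine ⟨Ψ, contDiff_pi.2 fun l => cβ.comp ((contDiff_apply ℝ ℝ l).sub contDiff_const),
    fun y hy => by rw [dΨ, z y fun k => hy (hb k)], ?_⟩
  simp only [dΨ]
  refine Continuous.integral_pos_of_hasCompactSupport_nonneg_nonzero (x := c) (by fun_prop)
    (HasCompactSupport.intro (isCompact_closedBall c δ) fun y hy =>
      z y fun k => hy (ball_subset_closedBall k))
    (fun y => Finset.prod_nonneg fun l _ => le_max_right _ _)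
    (Finset.prod_pos fun l _ => ?_).ne'
  simp [b, hδ]

end EuP

open EuP in
theorem eu : EuStmt := by
  intro N g₀ g₁ W y₀ c r r' hW hs hr c0 c1 he d0 d1
  have hK := isCompact_closedBall y₀ r
  have f0 := fin hW hK hs c0 d0
  have f1 := fin hW hK hs c1 d1
  refine ⟨f0, f1, ?_⟩
  rcases lt_or_ge r' 0 with k | k
  · congr 2
    ext y
    exact and_congr_right fun a => by rw [he y a (k.trans_le dist_nonneg)]
  obtain ⟨ρ, ⟨r1, r2⟩, r3⟩ := (Ioo_infinite hr).exists_notMem_finite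
    (f0.image fun y => dist y y₀)
  have sub : closedBall y₀ ρ ⊆ closedBall y₀ r := closedBall_subset_closedBall r2.le
  have inb : ∀ y ∈ closedBall y₀ ρ, g₀ y = c ∨ g₁ y = c → y ∈ ball y₀ ρ := fun y a b =>
    lt_of_le_of_ne a fun e => r3 ⟨y, ⟨sub a, b.elim id fun b =>
      (he y (sub a) (r1.trans_eq e.symm)).trans b⟩, e⟩
  obtain ⟨m₀, e0, O₀, o0, i0⟩ := deg hW (sub.trans hs) c0
    fun y a b => ⟨d0 y (sub a) b, inb y a (Or.inl b)⟩
  obtain ⟨m₁, e1, O₁, o1, i1⟩ := deg hW (sub.trans hs) c1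
    fun y a b => ⟨d1 y (sub a) b, inb y a (Or.inr b)⟩
  obtain ⟨Ψ, p1, p2, p3⟩ := bump c (inter_mem o0 o1)
  have wc : Continuous fun y => (fderiv ℝ Ψ y).det :=
    ContinuousLinearMap.continuous_det.comp (p1.continuous_fderiv one_ne_zero)
  have j := jac_eq hW hs (k.trans_lt r1) r1 r2 (p1.comp_contDiffOn c0) (p1.comp_contDiffOn c1)
    fun y a b => by simp only [Function.comp_apply, he y a b]
  have ch : ∀ g : (Fin N → ℝ) → Fin N → ℝ, ContDiffOn ℝ 1 g W →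
      ∫ z in ball y₀ ρ, (fderiv ℝ (Ψ ∘ g) z).det =
        ∫ z in ball y₀ ρ, (fderiv ℝ Ψ (g z)).det * (fderiv ℝ g z).det := fun g hg =>
    setIntegral_congr_fun measurableSet_ball fun z hz => by
      have d : DifferentiableAt ℝ g z := (hg.contDiffAt (hW.mem_nhds (hs (sub
        (ball_subset_closedBall hz))))).differentiableAt one_ne_zero
      rw [fderiv_comp z (p1.differentiable one_ne_zero _) d]
      exact LinearMap.det_comp _ _
  rw [ch g₀ c0, ch g₁ c1, i0 _ wc fun y hy => p2 y fun a => hy a.1,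
    i1 _ wc fun y hy => p2 y fun a => hy a.2] at j
  have hm : m₀ = m₁ := by exact_mod_cast mul_right_cancel₀ p3.ne' j
  have sp : ∀ g : (Fin N → ℝ) → Fin N → ℝ, {y ∈ closedBall y₀ r | g y = c}.Finite →
      {y ∈ closedBall y₀ r | g y = c}.ncard = {y ∈ closedBall y₀ ρ | g y = c}.ncard +
        {y ∈ closedBall y₀ r \ closedBall y₀ ρ | g y = c}.ncard := fun g hg => by
    rw [← ncard_union_eq (disjoint_left.2 fun y a b => b.1.2 a.1)
      (hg.subset fun y a => ⟨sub a.1, a.2⟩) (hg.subset fun y a => ⟨a.1.1, a.2⟩)]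
    congr 1
    ext y
    by_cases a : y ∈ closedBall y₀ ρ
    · simp only [mem_union, mem_ofPred_eq, a, sub a, Set.mem_sdiff, true_and, not_true, false_and,
        or_false]
    · simp only [mem_union, mem_ofPred_eq, a, Set.mem_sdiff, false_and, false_or, not_false_iff,
        and_true]
  have so : {y ∈ closedBall y₀ r \ closedBall y₀ ρ | g₀ y = c} =
      {y ∈ closedBall y₀ r \ closedBall y₀ ρ | g₁ y = c} := by
    ext y
    exact and_congr_right fun a => by rw [he y a.1 (r1.trans (by simpa using a.2))]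
  rw [sp g₀ f0, sp g₁ f1, so]
  obtain ⟨a, ha⟩ := e0
  obtain ⟨b, hb⟩ := e1
  omega

namespace ParityP

variable {B : Type} [NormedAddCommGroup B] [NormedSpace ℝ B] {N : ℕ}

/-- a chart of `T` together with a closed ball in its domain -/
structure Ch (T : Set B) (φ : (Fin N → ℝ) → B) (ℓ : B → Fin N → ℝ) (W : Set (Fin N → ℝ))
    (U : Set B) (c : Fin N → ℝ) (r : ℝ) : Prop where
  oW : IsOpen W
  oU : IsOpen U
  sφ : ContDiffOn ℝ 1 φ W
  sℓ : ContDiff ℝ 1 ℓ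
  mφ : ∀ y ∈ W, φ y ∈ T ∩ U ∧ ℓ (φ y) = y
  mℓ : ∀ b ∈ T ∩ U, ℓ b ∈ W ∧ φ (ℓ b) = b
  pos : 0 < r
  sub : closedBall c (3 * r) ⊆ W

/-- a cut-off function on `T` supported in a chart -/
theorem Ch.cut {T : Set B} {φ : (Fin N → ℝ) → B} {ℓ : B → Fin N → ℝ} {W : Set (Fin N → ℝ)}
    {U : Set B} {c : Fin N → ℝ} {r : ℝ} (h : Ch T φ ℓ W U c r) :
    ∃ χ : B → ℝ, (∀ t, 0 ≤ χ t ∧ χ t ≤ 1) ∧ (∀ t ∈ U, ℓ t ∈ ball c r → χ t = 1) ∧
      (∀ t ∈ T, t ∉ φ '' closedBall c (2 * r) → χ t = 0) ∧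
      ∀ (φ' : (Fin N → ℝ) → B) (W' : Set (Fin N → ℝ)), IsOpen W' → ContDiffOn ℝ 1 φ' W' →
        (∀ y ∈ W', φ' y ∈ T) → ContDiffOn ℝ 1 (fun y => χ (φ' y)) W' := by
  have hr := h.pos
  let b : ContDiffBump c := ⟨r, 2 * r, hr, by linarith⟩
  have s2 : closedBall c (2 * r) ⊆ W := (closedBall_subset_closedBall (by linarith)).trans h.sub
  have z : ∀ t ∈ T, t ∉ φ '' closedBall c (2 * r) → U.indicator (fun t => b (ℓ t)) t = 0 := by
    intro t ht k
    by_cases a : t ∈ U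
    · rw [indicator_of_mem a]
      refine b.zero_of_le_dist (not_lt.1 fun e => k ⟨ℓ t, e.le, (h.mℓ t ⟨ht, a⟩).2⟩)
    · exact indicator_of_notMem a _
  refine ⟨U.indicator fun t => b (ℓ t), fun t => ?_, fun t a e => ?_, z,
    fun φ' W' o s m y hy => ContDiffAt.contDiffWithinAt ?_⟩
  · by_cases a : t ∈ U
    · rw [indicator_of_mem a]
      exact ⟨b.nonneg, b.le_one⟩
    · rw [indicator_of_notMem a]
      exact ⟨le_rfl, zero_le_one⟩
  · rw [indicator_of_mem a]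
    exact b.one_of_mem_closedBall (ball_subset_closedBall e)
  · have d := s.contDiffAt (o.mem_nhds hy)
    by_cases a : φ' y ∈ U
    · refine (b.contDiff.contDiffAt.comp y (h.sℓ.contDiffAt.comp y d)).congr_of_eventuallyEq ?_
      filter_upwards [d.continuousAt.preimage_mem_nhds (h.oU.mem_nhds a)] with w hw
      exact indicator_of_mem (show φ' w ∈ U from hw) fun t => b (ℓ t)
    · have cl : IsClosed (φ '' closedBall c (2 * r)) :=
        ((isCompact_closedBall c _).image_of_continuousOn (h.sφ.continuousOn.mono s2)).isClosed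
      have nm : φ' y ∈ (φ '' closedBall c (2 * r))ᶜ := by
        rintro ⟨w, hw, e⟩
        exact a (e ▸ (h.mφ w (s2 hw)).1.2)
      refine (contDiffAt_const (c := (0 : ℝ))).congr_of_eventuallyEq ?_
      filter_upwards [d.continuousAt.preimage_mem_nhds (cl.isOpen_compl.mem_nhds nm),
        o.mem_nhds hy] with w hw hw'
      exact z _ (m w hw') hw

theorem sard {g : (Fin N → ℝ) → Fin N → ℝ} {W : Set (Fin N → ℝ)} (hW : IsOpen W)
    (hg : ContDiffOn ℝ 1 g W) : ∀ᵐ y, ∀ w ∈ W, g w = y → (fderiv ℝ g w).det ≠ 0 := by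
  have := addHaar_image_eq_zero_of_det_fderivWithin_eq_zero (μ := volume) (f := g)
    (s := {w ∈ W | (fderiv ℝ g w).det = 0}) (f' := fderiv ℝ g)
    (fun x hx => ((hg.contDiffAt (hW.mem_nhds hx.1)).differentiableAt
      one_ne_zero).hasFDerivAt.hasFDerivWithinAt) fun x hx => hx.2
  filter_upwards [measure_eq_zero_iff_ae_notMem.1 this] with y hy w a b k
  exact hy ⟨w, ⟨a, k⟩, b⟩

/-- moving the target value is the same as changing the map chart by chart -/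
theorem shift (h1 : EuStmt) {ι : Type} [Fintype ι] {T : Set B} (F : B →L[ℝ] (Fin N → ℝ))
    {φ : ι → (Fin N → ℝ) → B} {ℓ : ι → B → Fin N → ℝ} {W : ι → Set (Fin N → ℝ)} {U : ι → Set B}
    {c : ι → Fin N → ℝ} {r : ι → ℝ} (h : ∀ i, Ch T (φ i) (ℓ i) (W i) (U i) (c i) (r i)) :
    ∃ p : B → ℝ, (∀ t, |p t| ≤ 1) ∧ (∀ i, ∀ t ∈ U i, ℓ i t ∈ ball (c i) (r i) → p t = 0) ∧
      ∀ v, ∀ᵐ y, {t ∈ ⋃ i, φ i '' closedBall (c i) (3 * r i) | F t + p t • v = y}.ncard % 2 =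
        {t ∈ ⋃ i, φ i '' closedBall (c i) (3 * r i) | F t + v = y}.ncard % 2 := by
  classical
  choose χ x1 x2 x3 x4 using fun i => (h i).cut
  refine ⟨fun t => ∏ i, (1 - χ i t), fun t => ?_, fun i t a b => ?_, fun v => ?_⟩
  · rw [abs_of_nonneg (Finset.prod_nonneg fun i _ => sub_nonneg.2 (x1 i t).2)]
    exact Finset.prod_le_one (fun i _ => sub_nonneg.2 (x1 i t).2) fun i _ => by
      linarith [(x1 i t).1]
  · exact Finset.prod_eq_zero (Finset.mem_univ i) (by rw [x2 i t a b, sub_self])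
  set K := ⋃ i, φ i '' closedBall (c i) (3 * r i) with hK
  have KT : K ⊆ T := iUnion_subset fun i => by
    rintro _ ⟨w, hw, rfl⟩
    exact ((h i).mφ w ((h i).sub hw)).1.1
  let g : Finset ι → B → Fin N → ℝ := fun A t => F t + (∏ i ∈ A, (1 - χ i t)) • v
  have sm : ∀ A k, ContDiffOn ℝ 1 (fun w => g A (φ k w)) (W k) := fun A k =>
    (F.contDiff.comp_contDiffOn (h k).sφ).add ((contDiffOn_prod fun i _ => contDiffOn_const.sub
      (x4 i (φ k) (W k) (h k).oW (h k).sφ fun y hy => ((h k).mφ y hy).1.1)).smul contDiffOn_const)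
  filter_upwards [ae_all_iff.2 fun q : Finset ι × ι => sard (h q.2).oW (sm q.1 q.2)] with y hy
  have reg : ∀ A k, ∀ w ∈ closedBall (c k) (3 * r k), g A (φ k w) = y →
      (fderiv ℝ (fun w => g A (φ k w)) w).det ≠ 0 := fun A k w a b => hy (A, k) w ((h k).sub a) b
  have fi : ∀ A, {t ∈ K | g A t = y}.Finite := fun A => by
    refine (finite_iUnion fun k => (EuP.fin (h k).oW (isCompact_closedBall _ _) (h k).sub (sm A k)
      (reg A k)).image (φ k)).subset fun t ht => ?_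
    obtain ⟨k, w, hw, rfl⟩ := mem_iUnion.1 ht.1
    exact mem_iUnion.2 ⟨k, w, ⟨hw, ht.2⟩, rfl⟩
  have sp : ∀ A i, {t ∈ K | g A t = y}.ncard =
      {w ∈ closedBall (c i) (3 * r i) | g A (φ i w) = y}.ncard +
        {t ∈ K \ φ i '' closedBall (c i) (3 * r i) | g A t = y}.ncard := fun A i => by
    have inj : InjOn (φ i) {w ∈ closedBall (c i) (3 * r i) | g A (φ i w) = y} :=
      fun a ha b hb e => by
        rw [← ((h i).mφ a ((h i).sub ha.1)).2, e, ((h i).mφ b ((h i).sub hb.1)).2]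
    have s1 : φ i '' {w ∈ closedBall (c i) (3 * r i) | g A (φ i w) = y} ⊆ {t ∈ K | g A t = y} := by
      rintro _ ⟨w, hw, rfl⟩
      exact ⟨mem_iUnion.2 ⟨i, w, hw.1, rfl⟩, hw.2⟩
    rw [← inj.ncard_image, ← ncard_union_eq (disjoint_left.2 fun t a b => b.1.2
      (image_mono (fun w hw => hw.1) a)) ((fi A).subset s1)
      ((fi A).subset fun t a => ⟨a.1.1, a.2⟩)]
    congr 1
    refine Subset.antisymm (fun t ht => ?_) (union_subset s1 fun t a => ⟨a.1.1, a.2⟩)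
    by_cases a : t ∈ φ i '' closedBall (c i) (3 * r i)
    · obtain ⟨w, hw, rfl⟩ := a
      exact Or.inl ⟨w, ⟨hw, ht.2⟩, rfl⟩
    · exact Or.inr ⟨⟨ht.1, a⟩, ht.2⟩
  have key : ∀ A, {t ∈ K | g A t = y}.ncard % 2 = {t ∈ K | g ∅ t = y}.ncard % 2 := by
    intro A
    induction A using Finset.induction_on with
    | empty => rfl
    | insert i A hi ih =>
      have hr := (h i).pos
      have same : ∀ t ∈ T, t ∉ φ i '' closedBall (c i) (2 * r i) → g (insert i A) t = g A t :=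
        fun t a b => by simp only [g, Finset.prod_insert hi, x3 i t a b, sub_zero, one_mul]
      have e := (h1 N (fun w => g (insert i A) (φ i w)) (fun w => g A (φ i w)) (W i) (c i) y
        (3 * r i) (2 * r i) (h i).oW (h i).sub (by linarith) (sm _ i) (sm _ i)
        (fun w a b => same _ ((h i).mφ w ((h i).sub a)).1.1 (by
          rintro ⟨w', a', e⟩
          have := ((h i).mφ w' ((h i).sub (closedBall_subset_closedBall (by linarith) a'))).2
          rw [e, ((h i).mφ w ((h i).sub a)).2] at this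
          exact absurd (this ▸ a' : w ∈ closedBall (c i) (2 * r i)) (by simpa using b)))
        (reg _ i) (reg _ i)).2.2
      have e' : {t ∈ K \ φ i '' closedBall (c i) (3 * r i) | g (insert i A) t = y} =
          {t ∈ K \ φ i '' closedBall (c i) (3 * r i) | g A t = y} := by
        ext t
        exact and_congr_right fun a => by
          rw [same t (KT a.1) fun b =>
            a.2 (image_mono (closedBall_subset_closedBall (by linarith)) b)]
      rw [← ih, sp _ i, sp A i, e']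
      omega
  simpa only [g, Finset.prod_empty, one_smul] using key Finset.univ

end ParityP

open ParityP in
theorem parity_of (h1 : EuStmt) : ParityStmt := by
  intro B _ _ N T F y₀ y₁ t₁ hK hch h0 ht1 hF1 huniq
  set K₀ := {t ∈ T | F t ∈ segment ℝ y₀ y₁} with hK₀
  have ex : ∀ t : K₀, ∃ (φ : (Fin N → ℝ) → B) (ℓ : B → Fin N → ℝ) (W : Set (Fin N → ℝ))
      (U : Set B) (r : ℝ), Ch T φ ℓ W U (ℓ t) r ∧ (t : B) ∈ U ∧
        (F t = y₁ → Function.Injective (F.comp (fderiv ℝ φ (ℓ t)))) := by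
    rintro ⟨t, ht⟩
    obtain ⟨φ, ℓ, W, U, a1, a2, a3, a4, a5, a6, a7, a8⟩ := hch t ht.1 ht.2
    obtain ⟨ε, e1, e2⟩ := nhds_basis_closedBall.mem_iff.1 (a1.mem_nhds (a7 t ⟨ht.1, a3⟩).1)
    exact ⟨φ, ℓ, W, U, ε / 3, ⟨a1, a2, a4, a5, a6, a7, by positivity,
      by rwa [mul_div_cancel₀ _ three_ne_zero]⟩, a3, a8⟩
  choose φ ℓ W U r hC hU hI using ex
  let V : K₀ → Set B := fun i => U i ∩ ℓ i ⁻¹' ball (ℓ i i) (r i)
  have oV : ∀ i, IsOpen (V i) := fun i =>
    (hC i).oU.inter (isOpen_ball.preimage (hC i).sℓ.continuous)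
  obtain ⟨I, hcov⟩ := hK.elim_finite_subcover V oV fun t ht =>
    mem_iUnion.2 ⟨⟨t, ht⟩, hU ⟨t, ht⟩, mem_ball_self (hC _).pos⟩
  obtain ⟨p, p1, p2, p3⟩ := shift h1 (ι := I) F fun i => hC i
  set K := ⋃ i : I, φ i '' closedBall (ℓ i i) (3 * r i) with hKK
  have cK : IsCompact K := isCompact_iUnion fun i =>
    (isCompact_closedBall _ _).image_of_continuousOn ((hC i).sφ.continuousOn.mono (hC i).sub)
  have KT : K ⊆ T := iUnion_subset fun i => by
    rintro _ ⟨w, hw, rfl⟩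
    exact ((hC i).mφ w ((hC i).sub hw)).1.1
  have VK : ∀ i ∈ I, T ∩ V i ⊆ K := fun i hi t ht => mem_iUnion.2 ⟨⟨i, hi⟩, ℓ i t,
    closedBall_subset_closedBall (by linarith [(hC i).pos]) (ball_subset_closedBall ht.2.2),
    ((hC i).mℓ t ⟨ht.1, ht.2.1⟩).2⟩
  have cl : ∀ O, IsOpen O → IsOpen (F '' (K \ O))ᶜ := fun O o =>
    ((cK.diff o).image F.continuous).isClosed.isOpen_compl
  have cs : IsCompact (segment ℝ y₀ y₁) := by
    rw [segment_eq_image']
    exact isCompact_Icc.image (by fun_prop)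
  obtain ⟨δ, hδ, hth⟩ := cs.exists_thickening_subset_open
    (cl _ (isOpen_biUnion fun i (_ : i ∈ I) => oV i)) (by
      rintro z hz ⟨t, ht, rfl⟩
      exact ht.2 (hcov ⟨KT ht.1, hz⟩))
  let n : (Fin N → ℝ) → ℕ := fun y => {t ∈ K | F t = y}.ncard
  have mv : ∀ v, ‖v‖ < δ / 2 → ∀ᵐ y, (∃ z ∈ segment ℝ y₀ y₁, dist y z < δ / 2) →
      n y % 2 = n (y - v) % 2 := by
    intro v hv
    filter_upwards [p3 v] with y hy
    rintro ⟨z, z1, z2⟩
    have p0 : ∀ t ∈ K, dist (F t) y ≤ ‖v‖ → p t = 0 := fun t a b => by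
      by_contra k
      refine hth (mem_thickening_iff.2 ⟨z, z1, ?_⟩) ⟨t, ⟨a, fun e => ?_⟩, rfl⟩
      · linarith [dist_triangle (F t) y z]
      · obtain ⟨i, hi, e⟩ := mem_iUnion₂.1 e
        exact k (p2 ⟨i, hi⟩ t e.1 e.2)
    have e1 : {t ∈ K | F t + p t • v = y} = {t ∈ K | F t = y} := by
      ext t
      refine and_congr_right fun a => ⟨fun b => ?_, fun b => ?_⟩
      · rw [p0 t a ?_, zero_smul, add_zero] at b
        · exact b
        · rw [← b, dist_self_add_right, norm_smul]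
          exact mul_le_of_le_one_left (norm_nonneg _) (p1 t)
      · rw [p0 t a (by simp [b]), zero_smul, add_zero, b]
    have e2 : {t ∈ K | F t + v = y} = {t ∈ K | F t = y - v} := by
      simp only [eq_sub_iff_add_eq]
    rwa [e1, e2] at hy
  have n0 : ∀ᶠ y in 𝓝 y₀, n y = 0 := by
    filter_upwards [(cl ∅ isOpen_empty).mem_nhds (show y₀ ∈ _ from
      fun ⟨t, a, b⟩ => h0 t (KT a.1) b)] with y hy
    have : {t ∈ K | F t = y} = ∅ := eq_empty_of_forall_notMem fun t a =>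
      hy ⟨t, ⟨a.1, notMem_empty t⟩, a.2⟩
    simp only [n, this, ncard_empty]
  have n1 : ∀ᶠ y in 𝓝 y₁, n y = 1 := by
    have m1 : t₁ ∈ K₀ := ⟨ht1, hF1 ▸ right_mem_segment ℝ y₀ y₁⟩
    obtain ⟨j, hj, hj'⟩ := mem_iUnion₂.1 (hcov m1)
    have hc := hC ⟨t₁, m1⟩
    have hi := hI ⟨t₁, m1⟩ hF1
    have hu : t₁ ∈ U ⟨t₁, m1⟩ := hU ⟨t₁, m1⟩
    generalize φ ⟨t₁, m1⟩ = f, ℓ ⟨t₁, m1⟩ = l, W ⟨t₁, m1⟩ = W₁, U ⟨t₁, m1⟩ = U₁ at hc hi hu
    simp only at hc hi
    obtain ⟨w1, w2⟩ := hc.mℓ t₁ ⟨ht1, hu⟩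
    have d := hc.sφ.contDiffAt (hc.oW.mem_nhds w1)
    have df : fderiv ℝ (F ∘ f) (l t₁) = F.comp (fderiv ℝ f (l t₁)) :=
      (F.hasFDerivAt.comp _ (d.differentiableAt one_ne_zero).hasFDerivAt).fderiv
    obtain ⟨⟨O, O1, O2⟩, mp⟩ := EuP.loc (g := F ∘ f) (F.contDiff.contDiffAt.comp _ d) (by
      rw [df]
      exact fun k => LinearMap.det_eq_zero_iff_ker_ne_bot.1 k (LinearMap.ker_eq_bot.2 hi))
    have O3 : O ∩ (W₁ ∩ f ⁻¹' V j) ∈ 𝓝 (l t₁) := inter_mem O1 (inter_mem (hc.oW.mem_nhds w1)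
      (d.continuousAt.preimage_mem_nhds (by rw [w2]; exact (oV j).mem_nhds hj')))
    rw [Function.comp_apply, w2, hF1] at mp
    have o4 : IsOpen (U₁ ∩ l ⁻¹' interior O) := hc.oU.inter
      (isOpen_interior.preimage hc.sℓ.continuous)
    filter_upwards [mp ▸ image_mem_map O3, (cl _ o4).mem_nhds (show y₁ ∈ _ from
      fun ⟨t, a, b⟩ => a.2 (by
        rw [huniq t (KT a.1) b]; exact ⟨hu, mem_interior_iff_mem_nhds.2 O1⟩))] with y hy hy'
    obtain ⟨w, hw, rfl⟩ := hy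
    refine ncard_eq_one.2 ⟨f w, eq_singleton_iff_unique_mem.2
      ⟨⟨VK j hj ⟨(hc.mφ w hw.2.1).1.1, hw.2.2⟩, rfl⟩, fun t a => ?_⟩⟩
    have b : t ∈ U₁ ∩ l ⁻¹' interior O := by
      by_contra b
      exact hy' ⟨t, ⟨a.1, b⟩, a.2⟩
    have e := (hc.mℓ t ⟨KT a.1, b.1⟩).2
    rw [← e, O2 (interior_subset b.2) hw.1 (by rw [Function.comp_apply, e]; exact a.2)]
  obtain ⟨m, hm⟩ := exists_nat_gt (‖y₁ - y₀‖ / (δ / 2))
  have m0 : (0 : ℝ) < m := lt_of_le_of_lt (by positivity) hm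
  set v := (m : ℝ)⁻¹ • (y₁ - y₀) with hv
  have v1 : ‖v‖ < δ / 2 := by
    rw [hv, norm_smul, norm_inv, Real.norm_natCast, inv_mul_lt_iff₀ m0]
    rwa [div_lt_iff₀ (by positivity)] at hm
  have ae : ∀ᵐ h : Fin N → ℝ, ∀ k : ℕ,
      (∃ z ∈ segment ℝ y₀ y₁, dist (y₀ + (k : ℝ) • v + h) z < δ / 2) →
        n (y₀ + (k : ℝ) • v + h) % 2 = n (y₀ + (k : ℝ) • v + h - v) % 2 :=
    ae_all_iff.2 fun k =>
      (measurePreserving_add_left volume _).quasiMeasurePreserving.ae (mv v v1)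
  have c0 : ∀ y : Fin N → ℝ, Tendsto (fun h => y + h) (𝓝 0) (𝓝 y) := fun y =>
    (by fun_prop : Continuous fun h => y + h).tendsto' 0 y (add_zero y)
  obtain ⟨h, g4, g1, g2, g3⟩ := (Measure.dense_of_ae ae).inter_nhds_nonempty
    (inter_mem (ball_mem_nhds 0 (half_pos hδ))
      (inter_mem ((c0 y₀).eventually n0) ((c0 y₁).eventually n1)))
  have key : ∀ k : ℕ, k ≤ m → n (y₀ + (k : ℝ) • v + h) % 2 = 0 := by
    intro k
    induction k with
    | zero =>
      intro _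
      rw [Nat.cast_zero, zero_smul, add_zero, show n (y₀ + h) = 0 from g2]
    | succ k ih =>
      intro hk
      rw [g4 (k + 1) ⟨y₀ + ((k + 1 : ℕ) : ℝ) • v, ?_, by simpa using g1⟩, ← ih (by omega)]
      · congr 2
        rw [Nat.cast_succ, add_smul, one_smul]
        abel
      · rw [segment_eq_image', hv, smul_smul]
        refine ⟨_, ⟨by positivity, ?_⟩, rfl⟩
        rw [mul_inv_le_iff₀ m0, one_mul]
        exact_mod_cast hk
  have := key m le_rfl
  rw [hv, smul_smul, mul_inv_cancel₀ m0.ne', one_smul, add_sub_cancel,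
    show n (y₁ + h) = 1 from g3] at this
  omega

end Pool.Agent.MP_9758ca_gt

end MrgPart0

-- ======== part 1: formerly Pool.Agent.MP_9758ca_gt.Rem
section MrgPart1

/-!
PROJECT BALL: removal of singularities.
-/

open scoped Topology ContDiff ComplexConjugate
open Set Metric Filter Complex MeasureTheory

namespace Pool.Agent.MP_9758ca_gt

namespace RemP

/-! ### order of growth at the origin -/

section Ob
variable {E E' E'' : Type} [NormedAddCommGroup E] [NormedAddCommGroup E'] [NormedAddCommGroup E'']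

/-- `f = O(|w| ^ s)` at the origin -/
def Ob (s : ℝ) (f : ℂ → E) : Prop := ∃ C, 0 ≤ C ∧ ∀ᶠ w in 𝓝[≠] (0 : ℂ), ‖f w‖ ≤ C * ‖w‖ ^ s

theorem ev_small {r : ℝ} (hr : 0 < r) : ∀ᶠ w in 𝓝[≠] (0 : ℂ), w ≠ 0 ∧ ‖w‖ < r := by
  filter_upwards [self_mem_nhdsWithin, mem_nhdsWithin_of_mem_nhds (ball_mem_nhds (0 : ℂ) hr)]
    with w h1 h2
  exact ⟨h1, by simpa using h2⟩

theorem ex_rad {p : ℂ → Prop} (h : ∀ᶠ w in 𝓝[≠] (0 : ℂ), p w) :
    ∃ ε > 0, ∀ w, w ≠ 0 → ‖w‖ < ε → p w := by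
  obtain ⟨ε, hε, k⟩ := Metric.eventually_nhds_iff.1 (eventually_nhdsWithin_iff.1 h)
  exact ⟨ε, hε, fun w h1 h2 => k (by simpa using h2) h1⟩

theorem Ob.mono {s t : ℝ} {f : ℂ → E} (h : Ob s f) (hts : t ≤ s) : Ob t f := by
  obtain ⟨C, hC, k⟩ := h
  refine ⟨C, hC, ?_⟩
  filter_upwards [k, ev_small one_pos] with w h1 h2
  exact h1.trans (mul_le_mul_of_nonneg_left
    (Real.rpow_le_rpow_of_exponent_ge (norm_pos_iff.2 h2.1) h2.2.le hts) hC)

theorem Ob.of_le {s A : ℝ} {f : ℂ → E} {g : ℂ → E'} (h : Ob s f) (hA : 0 ≤ A)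
    (hg : ∀ᶠ w in 𝓝[≠] (0 : ℂ), ‖g w‖ ≤ A * ‖f w‖) : Ob s g := by
  obtain ⟨C, hC, k⟩ := h
  refine ⟨A * C, mul_nonneg hA hC, ?_⟩
  filter_upwards [k, hg] with w h1 h2
  rw [mul_assoc]
  exact h2.trans (mul_le_mul_of_nonneg_left h1 hA)

theorem Ob.congr {s : ℝ} {f g : ℂ → E} (h : Ob s f) (hg : ∀ᶠ w in 𝓝[≠] (0 : ℂ), g w = f w) :
    Ob s g := h.of_le zero_le_one (hg.mono fun w k => by rw [k, one_mul])

theorem Ob.mul {s t A : ℝ} {f : ℂ → E} {g : ℂ → E'} {k : ℂ → E''} (hf : Ob s f) (hg : Ob t g)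
    (hA : 0 ≤ A) (hk : ∀ᶠ w in 𝓝[≠] (0 : ℂ), ‖k w‖ ≤ A * (‖f w‖ * ‖g w‖)) : Ob (s + t) k := by
  obtain ⟨C, hC, a⟩ := hf
  obtain ⟨C', hC', b⟩ := hg
  refine ⟨A * (C * C'), by positivity, ?_⟩
  filter_upwards [a, b, hk, ev_small one_pos] with w h1 h2 h3 h4
  rw [Real.rpow_add (norm_pos_iff.2 h4.1)]
  calc ‖k w‖ ≤ A * ((C * ‖w‖ ^ s) * (C' * ‖w‖ ^ t)) := h3.trans (mul_le_mul_of_nonneg_left
        (mul_le_mul h1 h2 (norm_nonneg _) (by positivity)) hA)
    _ = _ := by ring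

theorem Ob.add {s : ℝ} {f : ℂ → E} {g : ℂ → E'} {k : ℂ → E''} (hf : Ob s f) (hg : Ob s g)
    (hk : ∀ᶠ w in 𝓝[≠] (0 : ℂ), ‖k w‖ ≤ ‖f w‖ + ‖g w‖) : Ob s k := by
  obtain ⟨C, hC, a⟩ := hf
  obtain ⟨C', hC', b⟩ := hg
  refine ⟨C + C', by positivity, ?_⟩
  filter_upwards [a, b, hk] with w h1 h2 h3
  linarith

theorem Ob.tendsto {s : ℝ} {f : ℂ → E} (h : Ob s f) (hs : 0 < s) :
    Tendsto f (𝓝[≠] (0 : ℂ)) (𝓝 0) := by
  obtain ⟨C, -, k⟩ := h
  refine squeeze_zero_norm' k ?_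
  have a : Continuous fun w : ℂ => C * ‖w‖ ^ s :=
    continuous_const.mul (continuous_norm.rpow_const fun _ => Or.inr hs.le)
  have b := (a.tendsto 0).mono_left (nhdsWithin_le_nhds (s := {0}ᶜ))
  simpa [Real.zero_rpow hs.ne'] using b

theorem Ob.glob {s : ℝ} {f : ℂ → E} (h : Ob s f) (hc : ∀ w, w ≠ 0 → ContinuousAt f w)
    (h0 : ∀ w, 1 < ‖w‖ → f w = 0) : ∃ G, 0 ≤ G ∧ ∀ w, w ≠ 0 → ‖f w‖ ≤ G * ‖w‖ ^ s := by
  obtain ⟨C, hC, k⟩ := h
  obtain ⟨ε, hε, k⟩ := ex_rad k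
  have hK : IsCompact (closedBall (0 : ℂ) 1 \ ball 0 ε) := (isCompact_closedBall _ _).diff isOpen_ball
  have hne : ∀ w ∈ closedBall (0 : ℂ) 1 \ ball 0 ε, w ≠ 0 := fun w hw e =>
    hw.2 (e ▸ mem_ball_self hε)
  obtain ⟨B, hB⟩ := hK.exists_bound_of_continuousOn (f := fun w => ‖f w‖ / ‖w‖ ^ s)
    fun w hw => ((hc w (hne w hw)).norm.div (continuous_norm.continuousAt.rpow_const
      (Or.inl (norm_ne_zero_iff.2 (hne w hw))))
      (Real.rpow_pos_of_pos (norm_pos_iff.2 (hne w hw)) s).ne').continuousWithinAt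
  refine ⟨max C B, le_max_of_le_left hC, fun w hw => ?_⟩
  have hp : 0 < ‖w‖ ^ s := Real.rpow_pos_of_pos (norm_pos_iff.2 hw) s
  rcases lt_or_ge ‖w‖ ε with a | a
  · exact (k w hw a).trans (mul_le_mul_of_nonneg_right (le_max_left _ _) hp.le)
  rcases lt_or_ge 1 ‖w‖ with b | b
  · rw [h0 w b, norm_zero]
    exact mul_nonneg (le_max_of_le_left hC) hp.le
  · have := (le_abs_self _).trans (hB w ⟨by simpa using b, by simpa using a⟩)
    rw [div_le_iff₀ hp] at this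
    exact this.trans (mul_le_mul_of_nonneg_right (le_max_right _ _) hp.le)

end Ob

/-! ### the Cauchy transform -/

section Cx
variable {F : Type} [NormedAddCommGroup F] [NormedSpace ℂ F]

theorem dbar_congr {W W' : ℂ → F} {z : ℂ} (h : W =ᶠ[𝓝 z] W') : dbar W z = dbar W' z := by
  rw [dbar, dbar, h.fderiv_eq]

theorem Tc_congr {g g' : ℂ → F} (h : ∀ w, w ≠ 0 → g w = g' w) : Tc g = Tc g' := by
  funext z
  refine integral_congr_ae ?_
  have h0 : ∀ᵐ w : ℂ, w ∈ ({0} : Set ℂ)ᶜ := compl_mem_ae_iff.2 (measure_singleton 0)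
  filter_upwards [h0] with w hw
  rw [h w hw]

theorem ev_out {E : Type} [Zero E] {W : ℂ → E} {ρ : ℝ} (h : ∀ z, ρ < ‖z‖ → W z = 0) {z : ℂ}
    (hz : ρ < ‖z‖) : W =ᶠ[𝓝 z] fun _ => 0 :=
  (continuous_norm.continuousAt.eventually (lt_mem_nhds hz)).mono h

theorem dbar_out {W : ℂ → F} {ρ : ℝ} (h : ∀ z, ρ < ‖z‖ → W z = 0) (z : ℂ) (hz : ρ < ‖z‖) :
    dbar W z = 0 := by
  rw [dbar_congr (ev_out h hz)]
  simp [dbar]

theorem contDiffAt_dbar {W : ℂ → F} {z : ℂ} {n m : WithTop ℕ∞} (h : ContDiffAt ℝ m W z)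
    (hn : n + 1 ≤ m) : ContDiffAt ℝ n (dbar W) z := by
  have a := h.fderiv_right hn
  exact ((a.clm_apply contDiffAt_const).add
    ((a.clm_apply contDiffAt_const).const_smul I)).const_smul (2⁻¹ : ℂ)

/-- a function with compact support that is `C²` away from the origin -/
structure Cs {E : Type} [NormedAddCommGroup E] [NormedSpace ℝ E] (W : ℂ → E) : Prop where
  sm : ∀ z, z ≠ 0 → ContDiffAt ℝ 2 W z
  out : ∀ z, 1 < ‖z‖ → W z = 0
  bd : Ob 0 W

theorem Cs.cont {W : ℂ → F} (h : Cs W) (z : ℂ) (hz : z ≠ 0) : ContDiffAt ℝ 1 (dbar W) z :=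
  contDiffAt_dbar (h.sm z hz) (by norm_num)

variable [CompleteSpace F]

theorem Cs.rep (h2 : Cau1Stmt) {W : ℂ → F} (h : Cs W) {γ : ℝ} (hγ : 0 < γ)
    (hd : Ob (γ - 1) (dbar W)) (z : ℂ) (hz : z ≠ 0) : W z = Tc (dbar W) z := by
  have b0 : 0 ≤ max (1 - γ) 0 := le_max_right _ _
  have b1 : 1 - γ ≤ max (1 - γ) 0 := le_max_left _ _
  obtain ⟨G, hG, a⟩ := (h.bd.mono (t := -max (1 - γ) 0) (by linarith)).glob
    (fun w hw => (h.sm w hw).continuousAt) h.out
  obtain ⟨G', hG', b⟩ := (hd.mono (t := -max (1 - γ) 0) (by linarith)).glob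
    (fun w hw => (h.cont w hw).continuousAt) (dbar_out h.out)
  refine h2.2.2 F W (max (1 - γ) 0) (G + G') 1 b0 (max_lt (by linarith) one_pos)
    (fun w hw => ((h.sm w hw).of_le (by norm_num)).contDiffWithinAt) h.out (fun w hw => ?_) z hz
  have hp : 0 ≤ ‖w‖ ^ (-max (1 - γ) 0) := Real.rpow_nonneg (norm_nonneg _) _
  exact ⟨(a w hw).trans (by nlinarith), (b w hw).trans (by nlinarith)⟩

theorem Cs.lim (h2 : Cau1Stmt) {W : ℂ → F} (h : Cs W) {γ s : ℝ} (hγ : 0 < γ) (hγ1 : γ ≠ 1)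
    (hγ2 : γ < 2) (hs : s ≤ 1) (hs' : s ≤ γ) (hd : Ob (γ - 1) (dbar W)) :
    ∃ y, Ob s fun w => W w - y := by
  obtain ⟨C, hC, k⟩ := h2.2.1 (1 - γ) (by linarith) (by linarith) (sub_ne_zero.2 hγ1.symm)
  obtain ⟨G, hG, b⟩ := hd.glob (fun w hw => (h.cont w hw).continuousAt) (dbar_out h.out)
  have hm : AEStronglyMeasurable (dbar W) volume := by
    have a : ContinuousOn (dbar W) {0}ᶜ := fun w hw => (h.cont w hw).continuousAt.continuousWithinAt
    have c := a.aestronglyMeasurable (μ := volume) (measurableSet_singleton 0).compl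
    rwa [restrict_compl_singleton] at c
  obtain ⟨-, -, e⟩ := k F (dbar W) G hm (fun w hw => by rw [neg_sub]; exact b w hw)
    (dbar_out h.out)
  refine ⟨Tc (dbar W) 0, C * G * 2, by positivity, ?_⟩
  filter_upwards [ev_small one_pos] with w hw
  have p := norm_pos_iff.2 hw.1
  rw [h.rep h2 hγ hd w hw.1, mul_assoc _ 2]
  refine (e w hw.2.le).trans (mul_le_mul_of_nonneg_left ?_ (by positivity))
  have a1 := Real.rpow_le_rpow_of_exponent_ge p hw.2.le hs
  have a2 := Real.rpow_le_rpow_of_exponent_ge p hw.2.le (show s ≤ 1 - (1 - γ) by linarith)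
  rw [Real.rpow_one] at a1
  linarith

omit [CompleteSpace F] in
theorem hld_glob {g : ℂ → F} {G : ℝ} (hG : 0 ≤ G) (hd : ∀ w, w ≠ 0 → DifferentiableAt ℝ g w)
    (h1 : ∀ w, ‖g w‖ ≤ G * ‖w‖) (h0 : ∀ w, 1 < ‖w‖ → g w = 0)
    (h2 : ∀ w, w ≠ 0 → ‖fderiv ℝ g w‖ ≤ G * ‖w‖⁻¹) : Hld (4 * G) g univ := by
  have hs : ∀ w, ‖g w‖ ≤ G * √‖w‖ := fun w => by
    rcases lt_or_ge 1 ‖w‖ with a | a
    · rw [h0 w a, norm_zero]
      positivity
    · refine (h1 w).trans (mul_le_mul_of_nonneg_left (Real.le_sqrt_of_sq_le ?_) hG)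
      nlinarith [norm_nonneg w]
  have key : ∀ w w' : ℂ, ‖w'‖ ≤ ‖w‖ → ‖g w - g w'‖ ≤ 4 * G * √(dist w w') := by
    intro w w' hw
    have d0 : 0 ≤ dist w w' := dist_nonneg
    rcases lt_or_ge (dist w w') (‖w‖ / 2) with a | a
    · have p : 0 < ‖w‖ := by linarith
      have lo : ∀ y ∈ ball w (‖w‖ / 2), ‖w‖ / 2 ≤ ‖y‖ := fun y hy => by
        have := norm_sub_norm_le w y
        rw [mem_ball, dist_comm, dist_eq_norm] at hy
        linarith
      have ne : ∀ y ∈ ball w (‖w‖ / 2), y ≠ 0 := fun y hy =>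
        norm_pos_iff.1 (lt_of_lt_of_le (by linarith) (lo y hy))
      have m := (convex_ball w (‖w‖ / 2)).norm_image_sub_le_of_norm_fderiv_le (𝕜 := ℝ)
        (C := G * (‖w‖ / 2)⁻¹) (fun y hy => hd y (ne y hy))
        (fun y hy => (h2 y (ne y hy)).trans (mul_le_mul_of_nonneg_left
          (inv_anti₀ (by linarith) (lo y hy)) hG))
        (mem_ball'.2 a) (mem_ball_self (by linarith))
      rw [← dist_eq_norm w w'] at m
      have m' : ‖g w - g w'‖ ≤ 2 * G * ‖w‖ := by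
        have := norm_sub_le (g w) (g w')
        nlinarith [h1 w, h1 w']
      have q : ‖g w - g w'‖ ^ 2 ≤ (2 * G * √(dist w w')) ^ 2 := by
        rw [mul_pow, Real.sq_sqrt d0, sq]
        refine (mul_le_mul m m' (norm_nonneg _) (by positivity)).trans_eq ?_
        field_simp
      have := (pow_le_pow_iff_left₀ (norm_nonneg _) (by positivity) two_ne_zero).1 q
      nlinarith [Real.sqrt_nonneg (dist w w')]
    · have s1 : √‖w‖ ≤ 2 * √(dist w w') := by
        rw [Real.sqrt_le_left (by positivity), mul_pow, Real.sq_sqrt d0]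
        linarith
      have s2 : √‖w'‖ ≤ √‖w‖ := Real.sqrt_le_sqrt hw
      have := norm_sub_le (g w) (g w')
      nlinarith [hs w, hs w']
  intro w _ w' _
  rcases le_total ‖w'‖ ‖w‖ with a | a
  · exact key w w' a
  · rw [norm_sub_rev, dist_comm]
    exact key w' w a

theorem Cs.ext (h2 : Cau1Stmt) (h3 : Cau2Stmt) {W : ℂ → F} (h : Cs W) (hd : Ob 1 (dbar W))
    (hd' : Ob (-1) (fderiv ℝ (dbar W))) :
    ∃ T : ℂ → F, ContDiff ℝ 1 T ∧ (∃ C, Hld C (fderiv ℝ T) univ) ∧ ∀ z, z ≠ 0 → W z = T z := by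
  classical
  obtain ⟨G, hG, a⟩ := hd.glob (fun w hw => (h.cont w hw).continuousAt) (dbar_out h.out)
  obtain ⟨G', hG', b⟩ := hd'.glob
    (fun w hw => ((h.cont w hw).fderiv_right (m := 0) (by norm_num)).continuousAt)
    (fun w hw => by rw [(ev_out (dbar_out h.out) hw).fderiv_eq]; simp)
  have e : ∀ w, w ≠ 0 → Function.update (dbar W) 0 0 =ᶠ[𝓝 w] dbar W := fun w hw =>
    (isOpen_ne.eventually_mem hw).mono fun y hy => Function.update_of_ne hy _ _
  have o : ∀ w, 1 < ‖w‖ → Function.update (dbar W) 0 0 w = 0 := fun w hw => by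
    rw [Function.update_of_ne (norm_pos_iff.1 (by linarith)), dbar_out h.out w hw]
  have hH : Hld (4 * (G + G')) (Function.update (dbar W) 0 0) univ := by
    refine hld_glob (by positivity) (fun w hw => ?_) (fun w => ?_) o fun w hw => ?_
    · exact ((h.cont w hw).differentiableAt one_ne_zero).congr_of_eventuallyEq (e w hw)
    · by_cases hw : w = 0
      · simp [hw]
      · have := a w hw
        rw [Real.rpow_one] at this
        rw [Function.update_of_ne hw]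
        nlinarith [norm_nonneg w]
    · have := b w hw
      rw [Real.rpow_neg_one] at this
      rw [(e w hw).fderiv_eq]
      nlinarith [inv_nonneg.2 (norm_nonneg w)]
  obtain ⟨C, -, k⟩ := h3
  obtain ⟨k1, -, k2, -⟩ := k F _ 1 _ one_pos hH o
  refine ⟨_, k1, ⟨_, k2⟩, fun z hz => ?_⟩
  rw [Tc_congr fun w hw => Function.update_of_ne hw _ _]
  exact h.rep h2 (γ := 2) two_pos (hd.mono (by norm_num)) z hz

end Cx

/-! ### holomorphic maps on a punctured disc -/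

section Hol
variable {V : Type} [NormedAddCommGroup V] [NormedSpace ℝ V]

theorem exists_ell [FiniteDimensional ℝ V] (A : En0 V) :
    ∃ (F : Type) (_ : NormedAddCommGroup F) (_ : NormedSpace ℂ F) (_ : CompleteSpace F)
      (l : V →L[ℝ] F) (p : F →L[ℝ] V), (∀ v, p (l v) = v) ∧
        ((∀ v, A (A v) = -v) → ∀ v, l (A v) = I • l v) := by
  let φ : V ≃L[ℝ] (Fin (Module.finrank ℝ V) → ℝ) := ContinuousLinearEquiv.ofFinrankEq (by simp)
  let l : V →L[ℝ] (Fin (Module.finrank ℝ V) → ℂ) :=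
    ContinuousLinearMap.pi fun i => (equivRealProdCLM.symm : ℝ × ℝ →L[ℝ] ℂ).comp
      (((ContinuousLinearMap.proj i).comp (φ : V →L[ℝ] (Fin (Module.finrank ℝ V) → ℝ))).prod
        (-((ContinuousLinearMap.proj i).comp
          (φ : V →L[ℝ] (Fin (Module.finrank ℝ V) → ℝ))).comp A))
  let p : (Fin (Module.finrank ℝ V) → ℂ) →L[ℝ] V :=
    (φ.symm : (Fin (Module.finrank ℝ V) → ℝ) →L[ℝ] V).comp
      (ContinuousLinearMap.pi fun i => reCLM.comp (ContinuousLinearMap.proj i))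
  refine ⟨Fin (Module.finrank ℝ V) → ℂ, inferInstance, inferInstance, inferInstance, l, p,
    fun v => φ.symm_apply_apply v, fun h v => funext fun i => ?_⟩
  change (⟨φ (A v) i, -φ (A (A v)) i⟩ : ℂ) = I * ⟨φ v i, -φ (A v) i⟩
  rw [h]
  apply Complex.ext <;> simp

theorem exists_cut {u : ℂ → V} {r : ℝ} (hr : 0 < r)
    (hu : ∀ w, w ≠ 0 → ‖w‖ < r → ContDiffAt ℝ 2 u w) (hb : Ob 0 u) :
    ∃ u' : ℂ → V, Cs u' ∧ u' =ᶠ[𝓝 0] u := by
  have m0 : 0 < min r 1 := lt_min hr one_pos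
  let χ : ContDiffBump (0 : ℂ) := ⟨min r 1 / 4, min r 1 / 2, by linarith, by linarith⟩
  have z0 : ∀ w : ℂ, min r 1 / 2 < ‖w‖ → χ w • u w = 0 := fun w hw => by
    rw [χ.zero_of_le_dist (by simpa using hw.le), zero_smul]
  have e : (fun w => χ w • u w) =ᶠ[𝓝 0] u :=
    χ.eventuallyEq_one.mono fun w hw => by simp [hw]
  refine ⟨fun w => χ w • u w, ⟨fun w hw => ?_, fun w hw => z0 w ?_,
    hb.congr (mem_nhdsWithin_of_mem_nhds e)⟩, e⟩
  · rcases lt_or_ge ‖w‖ r with a | a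
    · exact χ.contDiffAt.smul (hu w hw a)
    · exact contDiffAt_const.congr_of_eventuallyEq
        (ev_out z0 (by linarith [min_le_left r 1]))
  · linarith [min_le_right r 1]

theorem Cs.comp {F : Type} [NormedAddCommGroup F] [NormedSpace ℝ F] {u : ℂ → V} (h : Cs u)
    (l : V →L[ℝ] F) : Cs fun w => l (u w) :=
  ⟨fun z hz => l.contDiff.contDiffAt.comp z (h.sm z hz), fun z hz => by rw [h.out z hz, map_zero],
    h.bd.of_le (norm_nonneg l) (Eventually.of_forall fun w => l.le_opNorm _)⟩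

theorem dbar_comp {F : Type} [NormedAddCommGroup F] [NormedSpace ℂ F] (l : V →L[ℝ] F) {u : ℂ → V}
    {z : ℂ} (hu : DifferentiableAt ℝ u z) : dbar (fun w => l (u w)) z =
      (2⁻¹ : ℂ) • (l (fderiv ℝ u z 1) + I • l (fderiv ℝ u z I)) := by
  have : fderiv ℝ (fun w => l (u w)) z = l.comp (fderiv ℝ u z) :=
    (l.hasFDerivAt.comp z hu.hasFDerivAt).fderiv
  rw [dbar, this]
  rfl

/-- the standing assumptions -/
structure Dat (R Λ L r : ℝ) (K : Set V) (J : V → En0 V) (u u' : ℂ → V) : Prop where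
  ub : UB R Λ K J
  cl : IsClosed K
  pos : 0 < r
  hol : IsHol J u (ball 0 r \ {0})
  maps : MapsTo u (ball 0 r \ {0}) K
  bd : ∀ w ∈ ball (0 : ℂ) r \ {0}, ‖fderiv ℝ u w‖ * ‖w‖ ≤ L
  cs : Cs u'
  eq : u' =ᶠ[𝓝 0] u

variable {R Λ L r : ℝ} {K : Set V} {J : V → En0 V} {u u' : ℂ → V}

theorem isOpen_pd (r : ℝ) : IsOpen (ball (0 : ℂ) r \ {0}) := isOpen_ball.sdiff isClosed_singleton

theorem ev_pd (hr : 0 < r) : ∀ᶠ w in 𝓝[≠] (0 : ℂ), w ∈ ball (0 : ℂ) r \ {0} :=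
  (ev_small hr).mono fun w h => ⟨by simpa using h.2, h.1⟩

theorem Dat.sm (h : Dat R Λ L r K J u u') {w : ℂ} (hw : w ∈ ball (0 : ℂ) r \ {0}) :
    ContDiffAt ℝ 2 u w := h.hol.sm.contDiffAt ((isOpen_pd r).mem_nhds hw)

theorem Dat.lam (h : Dat R Λ L r K J u u') {x : V} (hx : x ∈ K) : 0 ≤ Λ :=
  (norm_nonneg _).trans (h.ub.bd x (h.ub.sub hx)).1

/-- the formula for `dbar` near the puncture -/
theorem Dat.ev_dbar (h : Dat R Λ L r K J u u') {F : Type} [NormedAddCommGroup F] [NormedSpace ℂ F]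
    (l : V →L[ℝ] F) : ∀ᶠ w in 𝓝[≠] (0 : ℂ), dbar (fun y => l (u' y)) w =
      (2⁻¹ : ℂ) • (l (fderiv ℝ u w 1) + I • l (fderiv ℝ u w I)) := by
  filter_upwards [ev_pd h.pos, mem_nhdsWithin_of_mem_nhds h.eq.eventuallyEq_nhds] with w a b
  rw [← dbar_comp l ((h.sm a).differentiableAt two_ne_zero)]
  exact dbar_congr (b.mono fun y hy => congrArg l hy)

theorem Dat.ev_dbar' (h : Dat R Λ L r K J u u') {F : Type} [NormedAddCommGroup F] [NormedSpace ℂ F]
    {x : V} (hx : x ∈ K) (l : V →L[ℝ] F) (hl : ∀ v, l (J x v) = I • l v) :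
    ∀ᶠ w in 𝓝[≠] (0 : ℂ), dbar (fun y => l (u' y)) w =
      ((2⁻¹ : ℝ) • l.comp (J x)) ((J (u w) - J x) (fderiv ℝ u w 1)) := by
  filter_upwards [ev_pd h.pos, h.ev_dbar l] with w a b
  rw [b, h.hol.cr w a, ← hl, smul_apply, ContinuousLinearMap.comp_apply,
    sub_apply, map_sub, h.ub.sq x hx, sub_neg_eq_add, map_add, add_comm,
    ← Complex.coe_smul]
  norm_num

theorem Dat.limit [FiniteDimensional ℝ V] (h2 : Cau1Stmt) (h : Dat R Λ L r K J u u') {γ : ℝ}
    (h0 : 0 < γ) (h1 : γ < 1) (hd : Ob (γ - 1) (fderiv ℝ u)) :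
    ∃ x ∈ K, Ob γ fun w => u w - x := by
  obtain ⟨F, _, _, _, l, p, hp, -⟩ := exists_ell (0 : En0 V)
  have a : Ob (γ - 1) (dbar fun y => l (u' y)) := by
    refine hd.of_le (norm_nonneg l) ((h.ev_dbar l).mono fun w e => ?_)
    have b : ∀ c : ℂ, ‖c‖ = 1 → ‖l (fderiv ℝ u w c)‖ ≤ ‖l‖ * ‖fderiv ℝ u w‖ := fun c hc =>
      (l.le_opNorm _).trans (mul_le_mul_of_nonneg_left
        (((fderiv ℝ u w).le_opNorm c).trans_eq (by rw [hc, mul_one])) (norm_nonneg l))
    have c := norm_add_le (l (fderiv ℝ u w 1)) (I • l (fderiv ℝ u w I))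
    rw [norm_smul, norm_I, one_mul] at c
    rw [e, norm_smul, norm_inv, Complex.norm_two]
    linarith [b 1 norm_one, b I norm_I]
  obtain ⟨y, hy⟩ := (h.cs.comp l).lim h2 h0 h1.ne (by linarith) h1.le le_rfl a
  have b : Ob γ fun w => u w - p y := by
    refine hy.of_le (norm_nonneg p) ?_
    filter_upwards [mem_nhdsWithin_of_mem_nhds h.eq] with w e
    refine le_of_eq_of_le ?_ (p.le_opNorm _)
    rw [map_sub, hp, show u' w = u w from e]
  refine ⟨p y, h.cl.mem_of_tendsto (tendsto_sub_nhds_zero_iff.1 (b.tendsto h0))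
    ((ev_pd h.pos).mono fun w hw => h.maps hw), b⟩

theorem Dat.lipJ (h : Dat R Λ L r K J u u') {x : V} (hx : x ∈ K) {γ : ℝ}
    (hu : Ob γ fun w => u w - x) : Ob γ fun w => J (u w) - J x :=
  hu.of_le (h.lam hx) ((ev_pd h.pos).mono fun _ hw =>
    (h.ub.lip _ (h.ub.sub (h.maps hw)) _ (h.ub.sub hx)).1)

theorem Dat.ob_dbar (h : Dat R Λ L r K J u u') {F : Type} [NormedAddCommGroup F] [NormedSpace ℂ F]
    {x : V} (hx : x ∈ K) (l : V →L[ℝ] F) (hl : ∀ v, l (J x v) = I • l v) {γ : ℝ}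
    (hu : Ob γ fun w => u w - x) (hd : Ob (γ - 1) (fderiv ℝ u)) :
    Ob (γ + (γ - 1)) (dbar fun y => l (u' y)) := by
  refine (h.lipJ hx hu).mul hd (norm_nonneg ((2⁻¹ : ℝ) • l.comp (J x)))
    ((h.ev_dbar' hx l hl).mono fun w e => ?_)
  rw [e]
  refine (ContinuousLinearMap.le_opNorm _ _).trans (mul_le_mul_of_nonneg_left ?_ (norm_nonneg _))
  refine (ContinuousLinearMap.le_opNorm _ _).trans (mul_le_mul_of_nonneg_left ?_ (norm_nonneg _))
  exact ((fderiv ℝ u w).le_opNorm 1).trans_eq (by rw [norm_one, mul_one])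

theorem Dat.double [FiniteDimensional ℝ V] (h2 : Cau1Stmt) (h : Dat R Λ L r K J u u') {x : V}
    (hx : x ∈ K) {γ s : ℝ} (h0 : 0 < γ) (h1 : γ < 1) (h1' : 2 * γ ≠ 1) (s0 : 0 < s) (s1 : s ≤ 1)
    (s2 : s ≤ 2 * γ) (hu : Ob γ fun w => u w - x) (hd : Ob (γ - 1) (fderiv ℝ u)) :
    Ob s fun w => u w - x := by
  obtain ⟨F, _, _, _, l, p, hp, hl⟩ := exists_ell (J x)
  obtain ⟨y, hy⟩ := (h.cs.comp l).lim h2 (γ := 2 * γ) (by linarith) h1' (by linarith) s1 s2
    ((h.ob_dbar hx l (hl (h.ub.sq x hx)) hu hd).mono (by linarith))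
  have b : Ob s fun w => u w - p y := by
    refine hy.of_le (norm_nonneg p) ?_
    filter_upwards [mem_nhdsWithin_of_mem_nhds h.eq] with w e
    refine le_of_eq_of_le ?_ (p.le_opNorm _)
    rw [map_sub, hp, show u' w = u w from e]
  rwa [tendsto_nhds_unique (tendsto_sub_nhds_zero_iff.1 (b.tendsto s0))
    (tendsto_sub_nhds_zero_iff.1 (hu.tendsto h0))] at b

theorem near {w y : ℂ} (hy : y ∈ closedBall w (‖w‖ / 2)) : ‖w‖ / 2 ≤ ‖y‖ ∧ ‖y‖ ≤ 2 * ‖w‖ := by
  have a := norm_sub_norm_le w y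
  have b := norm_sub_norm_le y w
  rw [norm_sub_rev] at b
  rw [mem_closedBall, dist_comm, dist_eq_norm] at hy
  constructor <;> linarith [norm_nonneg w]

theorem Dat.apri [FiniteDimensional ℝ V] (h4 : ApriStmt) (h : Dat R Λ L r K J u u') :
    ∃ C, 0 < C ∧ ∀ w, w ≠ 0 → ‖w‖ < r / 2 →
      (‖w‖ / 2) ^ 2 * ‖fderiv ℝ (fderiv ℝ u) w‖ ≤ C ∧
      ∀ W, (∀ y ∈ closedBall w (‖w‖ / 2), ‖u y - u w‖ ≤ W) →
        ‖w‖ / 2 * ‖fderiv ℝ u w‖ ≤ C * W := by
  obtain ⟨C, hC, k⟩ := (h4 V).1 R Λ L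
  refine ⟨C, hC, fun w hw hr => ?_⟩
  have p := norm_pos_iff.2 hw
  have s : closedBall w (‖w‖ / 2) ⊆ ball (0 : ℂ) r \ {0} := fun y hy =>
    ⟨by rw [mem_ball_zero_iff]; linarith [(near hy).2],
      norm_pos_iff.1 (by linarith [(near hy).1])⟩
  refine k K J h.ub u w _ (by linarith) ⟨_, isOpen_pd r, s, h.hol, h.maps⟩ fun y hy => ?_
  refine le_trans ?_ (h.bd y (s hy))
  rw [mul_comm]
  exact mul_le_mul_of_nonneg_left (near hy).1 (norm_nonneg _)

theorem Dat.second [FiniteDimensional ℝ V] (h4 : ApriStmt) (h : Dat R Λ L r K J u u') :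
    Ob (-2) (fderiv ℝ (fderiv ℝ u)) := by
  obtain ⟨C, hC, k⟩ := h.apri h4
  refine ⟨4 * C, by positivity, (ev_small (half_pos h.pos)).mono fun w hw => ?_⟩
  have p := norm_pos_iff.2 hw.1
  have a := (k w hw.1 hw.2).1
  rw [Real.rpow_neg p.le, Real.rpow_two, ← div_eq_mul_inv, le_div_iff₀ (by positivity)]
  linarith

theorem Dat.first [FiniteDimensional ℝ V] (h4 : ApriStmt) (h : Dat R Λ L r K J u u') {x : V}
    {γ : ℝ} (h0 : 0 ≤ γ) (hu : Ob γ fun w => u w - x) : Ob (γ - 1) (fderiv ℝ u) := by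
  obtain ⟨C, hC, k⟩ := h.apri h4
  obtain ⟨B, hB, a⟩ := hu
  obtain ⟨ε, hε, a⟩ := ex_rad a
  refine ⟨2 * (C * (B * 2 ^ γ + B)), by positivity, ?_⟩
  filter_upwards [ev_small (half_pos h.pos), ev_small (half_pos hε)] with w hw hw'
  have p := norm_pos_iff.2 hw.1
  have b := (k w hw.1 hw.2).2 ((B * 2 ^ γ + B) * ‖w‖ ^ γ) fun y hy => by
    have c := a y (norm_pos_iff.1 (by linarith [(near hy).1])) (by linarith [(near hy).2, hw'.2])
    have d := a w hw.1 (by linarith [hw'.2])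
    have e : ‖y‖ ^ γ ≤ 2 ^ γ * ‖w‖ ^ γ := by
      rw [← Real.mul_rpow zero_le_two p.le]
      exact Real.rpow_le_rpow (norm_nonneg y) (near hy).2 h0
    have f := norm_sub_le (u y - x) (u w - x)
    rw [sub_sub_sub_cancel_right] at f
    nlinarith
  rw [Real.rpow_sub_one p.ne', ← mul_div_assoc, le_div_iff₀ p]
  linarith

theorem Dat.boot [FiniteDimensional ℝ V] (h2 : Cau1Stmt) (h4 : ApriStmt)
    (h : Dat R Λ L r K J u u') {γ : ℝ} (h0 : 0 < γ) (hd : Ob (γ - 1) (fderiv ℝ u)) :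
    ∃ x ∈ K, Ob 1 fun w => u w - x := by
  obtain ⟨n, hn⟩ := exists_pow_lt_of_lt_one h0 (show (1 / 2 : ℝ) < 1 by norm_num)
  have pos : ∀ m : ℕ, (0 : ℝ) < (1 / 2) ^ m := fun m => by positivity
  have le : ∀ m : ℕ, ((1 / 2) ^ m : ℝ) ≤ 1 := fun m => pow_le_one₀ (by norm_num) (by norm_num)
  obtain ⟨x, hx, a⟩ := h.limit h2 (γ := 3 / 4 * (1 / 2) ^ n) (by linarith [pos n])
    (by linarith [le n]) (hd.mono (by linarith [pos n]))
  have step : ∀ m : ℕ, (Ob (3 / 4 * (1 / 2) ^ m) fun w => u w - x) → Ob (3 / 4) fun w => u w - x := by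
    intro m
    induction m with
    | zero => simp
    | succ m ih =>
      intro b
      rw [pow_succ] at b
      exact ih (h.double h2 hx (by linarith [pos m]) (by linarith [le m])
        (ne_of_lt (by linarith [le m])) (by linarith [pos m]) (by linarith [le m])
        (by linarith) b (h.first h4 (by linarith [pos m]) b))
  have c := step n a
  exact ⟨x, hx, h.double h2 hx (by norm_num) (by norm_num) (by norm_num) one_pos le_rfl
    (by norm_num) c (h.first h4 (by norm_num) c)⟩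

theorem Dat.ob_ddbar (h : Dat R Λ L r K J u u') {F : Type} [NormedAddCommGroup F]
    [NormedSpace ℂ F] {x : V} (hx : x ∈ K) (l : V →L[ℝ] F) (hl : ∀ v, l (J x v) = I • l v)
    (hu : Ob 1 fun w => u w - x) (hd : Ob 0 (fderiv ℝ u)) (hdd : Ob (-2) (fderiv ℝ (fderiv ℝ u))) :
    Ob (-1) (fderiv ℝ (dbar fun y => l (u' y))) := by
  have a : Ob (-1) fun w => ‖J (u w) - J x‖ * ‖fderiv ℝ (fderiv ℝ u) w‖ :=
    ((h.lipJ hx hu).mul hdd zero_le_one (Eventually.of_forall fun w => by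
      rw [one_mul, Real.norm_of_nonneg (by positivity)])).mono (by norm_num)
  have b : Ob (-1) fun w => Λ * (‖fderiv ℝ u w‖ * ‖fderiv ℝ u w‖) :=
    (hd.mul hd (abs_nonneg Λ) (Eventually.of_forall fun w => by simp)).mono (by norm_num)
  have c : Ob (-1) fun w => ‖J (u w) - J x‖ * ‖fderiv ℝ (fderiv ℝ u) w‖ +
      Λ * (‖fderiv ℝ u w‖ * ‖fderiv ℝ u w‖) :=
    a.add b (Eventually.of_forall fun w => norm_add_le _ _)
  refine c.of_le (norm_nonneg ((2⁻¹ : ℝ) • l.comp (J x))) ?_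
  filter_upwards [ev_pd h.pos, eventually_eventually_nhdsWithin.2 (h.ev_dbar' hx l hl)] with w hw e
  rw [nhdsWithin_eq_nhds.2 (isOpen_compl_singleton.mem_nhds hw.2)] at e
  have d1 : HasFDerivAt u (fderiv ℝ u w) w :=
    ((h.sm hw).differentiableAt two_ne_zero).hasFDerivAt
  have d2 : HasFDerivAt (fderiv ℝ u) (fderiv ℝ (fderiv ℝ u) w) w :=
    (((h.sm hw).fderiv_right (m := 1) (by norm_num)).differentiableAt one_ne_zero).hasFDerivAt
  have d3 : HasFDerivAt (fun y => J (u y) - J x) ((fderiv ℝ J (u w)).comp (fderiv ℝ u w)) w :=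
    (((h.ub.sm.differentiable two_ne_zero) (u w)).hasFDerivAt.comp w d1).sub_const _
  have d4 : HasFDerivAt (fun y => fderiv ℝ u y 1) ((fderiv ℝ (fderiv ℝ u) w).flip 1) w := by
    simpa using d2.clm_apply (hasFDerivAt_const (1 : ℂ) w)
  have d5 := ((2⁻¹ : ℝ) • l.comp (J x)).hasFDerivAt.comp w (d3.clm_apply d4)
  rw [(d5.congr_of_eventuallyEq e).fderiv]
  refine (ContinuousLinearMap.opNorm_comp_le _ _).trans
    (mul_le_mul_of_nonneg_left (le_trans ?_ (le_abs_self _)) (norm_nonneg _))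
  refine (norm_add_le _ _).trans (add_le_add ?_ ?_)
  · refine (ContinuousLinearMap.opNorm_comp_le _ _).trans
      (mul_le_mul_of_nonneg_left ?_ (norm_nonneg _))
    refine (ContinuousLinearMap.le_opNorm _ _).trans_eq ?_
    rw [ContinuousLinearMap.opNorm_flip, norm_one, mul_one]
  · refine (ContinuousLinearMap.le_opNorm _ _).trans ?_
    rw [ContinuousLinearMap.opNorm_flip, ← mul_assoc]
    refine mul_le_mul ((ContinuousLinearMap.opNorm_comp_le _ _).trans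
      (mul_le_mul_of_nonneg_right (h.ub.bd _ (h.ub.sub (h.maps hw))).2 (norm_nonneg _)))
      (((fderiv ℝ u w).le_opNorm 1).trans_eq (by rw [norm_one, mul_one])) (norm_nonneg _)
      (mul_nonneg (h.lam hx) (norm_nonneg _))

/-- the extension is `C¹` with Hoelder derivative -/
theorem Dat.ext [FiniteDimensional ℝ V] (h2 : Cau1Stmt) (h3 : Cau2Stmt) (h4 : ApriStmt)
    (h : Dat R Λ L r K J u u') {x : V} (hx : x ∈ K) (hu : Ob 1 fun w => u w - x) :
    ∃ T : ℂ → V, ContDiff ℝ 1 T ∧ LocH (fderiv ℝ T) univ ∧ Function.update u 0 x =ᶠ[𝓝 0] T := by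
  obtain ⟨F, _, _, _, l, p, hp, hl⟩ := exists_ell (J x)
  have hd := h.first h4 zero_le_one hu
  obtain ⟨T, t1, ⟨C, t2⟩, t3⟩ := (h.cs.comp l).ext h2 h3
    ((h.ob_dbar hx l (hl (h.ub.sq x hx)) hu hd).mono (by norm_num))
    (h.ob_ddbar hx l (hl (h.ub.sq x hx)) hu (hd.mono (by norm_num)) (h.second h4))
  have e : ∀ᶠ w in 𝓝[≠] (0 : ℂ), u w = p (T w) := by
    filter_upwards [mem_nhdsWithin_of_mem_nhds h.eq, self_mem_nhdsWithin] with w a b
    rw [← t3 w b, hp, show u' w = u w from a]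
  have c : ContDiff ℝ 1 fun w => p (T w) := p.contDiff.comp t1
  have e0 : x = p (T 0) := tendsto_nhds_unique (tendsto_sub_nhds_zero_iff.1 (hu.tendsto one_pos))
    (((c.continuous.tendsto 0).mono_left nhdsWithin_le_nhds).congr' (e.mono fun w hw => hw.symm))
  refine ⟨_, c, fun z _ => ⟨‖p‖ * C, univ, univ_mem, fun a _ b _ => ?_⟩, ?_⟩
  · have f : ∀ y, fderiv ℝ (fun w => p (T w)) y = p.comp (fderiv ℝ T y) := fun y =>
      (p.hasFDerivAt.comp y (t1.differentiable one_ne_zero y).hasFDerivAt).fderiv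
    rw [f, f, ← ContinuousLinearMap.comp_sub, mul_assoc]
    exact (ContinuousLinearMap.opNorm_comp_le _ _).trans
      (mul_le_mul_of_nonneg_left (t2 a trivial b trivial) (norm_nonneg p))
  · refine (eventually_nhdsWithin_iff.1 e).mono fun w hw => ?_
    by_cases k : w = 0
    · rw [k, Function.update_self, e0]
    · rw [Function.update_of_ne k, hw k]

theorem Dat.final [FiniteDimensional ℝ V] (h2 : Cau1Stmt) (h3 : Cau2Stmt) (h4 : ApriStmt)
    (h : Dat R Λ L r K J u u') {γ : ℝ} (h0 : 0 < γ) (hd : Ob (γ - 1) (fderiv ℝ u)) :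
    ∃ x ∈ K, IsHol J (Function.update u 0 x) (ball 0 r) := by
  obtain ⟨x, hx, hu⟩ := h.boot h2 h4 h0 hd
  obtain ⟨T, t1, t2, t3⟩ := h.ext h2 h3 h4 hx hu
  have e : ∀ w, w ≠ 0 → Function.update u 0 x =ᶠ[𝓝 w] u := fun w hw =>
    (isOpen_ne.eventually_mem hw).mono fun y hy => Function.update_of_ne hy _ _
  have off : ∀ w ∈ ball (0 : ℂ) r, w ≠ 0 → fderiv ℝ (Function.update u 0 x) w I =
      J (Function.update u 0 x w) (fderiv ℝ (Function.update u 0 x) w 1) := fun w hw k => by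
    rw [(e w k).fderiv_eq, Function.update_of_ne k, h.hol.cr w ⟨hw, k⟩]
  refine ⟨x, hx, (h4 V).2.1 J _ _ h.ub.sm isOpen_ball (fun w hw => ?_) fun w hw => ?_⟩
  · by_cases k : w = 0
    · subst k
      refine ⟨(t1.differentiable one_ne_zero 0).congr_of_eventuallyEq t3,
        by rw [Function.update_self]; exact h.ub.sq x hx, ?_⟩
      have c := t1.continuous_fderiv one_ne_zero
      have c1 : Continuous fun w => fderiv ℝ T w I := c.clm_apply continuous_const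
      have c2 : Continuous fun w => J (T w) (fderiv ℝ T w 1) :=
        (h.ub.sm.continuous.comp t1.continuous).clm_apply (c.clm_apply continuous_const)
      rw [t3.fderiv_eq, t3.eq_of_nhds]
      refine tendsto_nhds_unique ((c1.tendsto 0).mono_left (nhdsWithin_le_nhds (s := {0}ᶜ)))
        (((c2.tendsto 0).mono_left nhdsWithin_le_nhds).congr' ?_)
      filter_upwards [ev_pd h.pos, mem_nhdsWithin_of_mem_nhds t3.eventuallyEq_nhds] with w a b
      rw [← b.fderiv_eq, ← b.eq_of_nhds, off w a.1 a.2]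
    · refine ⟨((h.sm ⟨hw, k⟩).differentiableAt two_ne_zero).congr_of_eventuallyEq (e w k), ?_,
        off w hw k⟩
      rw [Function.update_of_ne k]
      exact h.ub.sq _ (h.maps ⟨hw, k⟩)
  · by_cases k : w = 0
    · subst k
      exact (t2.mono (subset_univ {0})).congr (fun y hy => by
        rw [mem_singleton_iff.1 hy]; exact t3.fderiv) 0 rfl
    · exact locH_of_contDiffAt (s := {w}) (fun y hy => by
        rw [mem_singleton_iff.1 hy]
        exact ((h.sm ⟨hw, k⟩).congr_of_eventuallyEq (e w k)).fderiv_right (by norm_num)) w rfl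

theorem hol_shift {Ω Ω' : Set ℂ} (h : IsHol J u Ω) (a : ℂ) (hs : ∀ w ∈ Ω', a + w ∈ Ω) :
    IsHol J (fun w => u (a + w)) Ω' :=
  ⟨h.sm.comp (contDiff_const.add contDiff_id).contDiffOn hs, fun w hw => by
    rw [fderiv_comp_add_left, h.cr _ (hs w hw)]⟩

theorem neck_lim {C γ b t y : ℝ} (hγ : 0 < γ) (ht : 0 < t)
    (h : ∀ a, 0 < a → 2 * a ≤ t → y ≤ C * ((a / t) ^ γ + b)) : y ≤ C * b := by
  have c : Continuous fun a : ℝ => C * ((a / t) ^ γ + b) :=
    continuous_const.mul (((continuous_id.div_const t).rpow_const fun _ => Or.inr hγ.le).add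
      continuous_const)
  have d := (c.tendsto 0).mono_left (nhdsWithin_le_nhds (s := Ioi 0))
  rw [zero_div, Real.zero_rpow hγ.ne', zero_add] at d
  refine ge_of_tendsto d ?_
  filter_upwards [Ioc_mem_nhdsGT (half_pos ht)] with a ha
  exact h a ha.1 (by linarith [ha.2])

end Hol

end RemP

open RemP in
theorem rem_of (h1 : NeckStmt) (h2 : Cau1Stmt) (h3 : Cau2Stmt) (h4 : ApriStmt) : RemStmt := by
  intro V _ _ _ O M K om R Λ c hE
  obtain ⟨δ, hδ, γ, hγ, C, hN⟩ := h1 V O M K om R Λ c hE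
  refine ⟨δ, hδ, fun J hJ u z r hr hu hK hb => ?_⟩
  have hs : ∀ w ∈ ball (0 : ℂ) r \ {0}, z + w ∈ ball z r \ {z} := fun w hw =>
    ⟨by simpa using hw.1, by simpa using hw.2⟩
  have hv := hol_shift hu z hs
  have hKv : MapsTo (fun w => u (z + w)) (ball 0 r \ {0}) K := fun w hw => hK (hs w hw)
  have hbv : ∀ w ∈ ball (0 : ℂ) r \ {0}, ‖fderiv ℝ (fun w => u (z + w)) w‖ * ‖w‖ ≤ δ :=
    fun w hw => by simpa [fderiv_comp_add_left] using hb _ (hs w hw)
  obtain ⟨u', c1, c2⟩ := exists_cut (u := fun w => u (z + w)) hr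
    (fun w a b => hv.sm.contDiffAt ((isOpen_pd r).mem_nhds ⟨by simpa using b, a⟩))
    ⟨|R|, abs_nonneg R, (ev_pd hr).mono fun w hw => by
      rw [Real.rpow_zero, mul_one]
      exact (mem_closedBall_zero_iff.1 (hJ.ub.sub (hKv hw))).trans (le_abs_self R)⟩
  have hd : Ob (γ - 1) (fderiv ℝ fun w => u (z + w)) := by
    refine ⟨|C| / (r / 2) ^ γ, by positivity, (ev_small (r := r / 4) (by linarith)).mono
      fun w hw => ?_⟩
    have p := norm_pos_iff.2 hw.1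
    have a := neck_lim (C := C) (b := (‖w‖ / (r / 2)) ^ γ)
      (y := ‖fderiv ℝ (fun w => u (z + w)) w‖ * ‖w‖) hγ p fun a a0 a1 => by
      have s : closedBall (0 : ℂ) (r / 2) \ ball 0 a ⊆ ball 0 r \ {0} := fun y hy =>
        ⟨closedBall_subset_ball (by linarith) hy.1, fun e => hy.2 (e ▸ mem_ball_self a0)⟩
      have := hN J hJ (fun w => u (z + w)) 0 a (r / 2) a0 ⟨_, isOpen_pd r, s, hv, hKv⟩
        (fun y y1 y2 => by
          rw [sub_zero] at *
          exact hbv y (s ⟨by simpa using y2, by simpa using y1⟩)) w (by simpa using a1)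
        (by rw [sub_zero]; linarith [hw.2])
      simpa only [sub_zero] using this
    rw [Real.div_rpow p.le (by linarith)] at a
    rw [Real.rpow_sub_one p.ne', ← mul_div_assoc, le_div_iff₀ p, div_mul_eq_mul_div, mul_div_assoc]
    exact a.trans (mul_le_mul_of_nonneg_right (le_abs_self C) (by positivity))
  obtain ⟨x, hx, k⟩ := Dat.final h2 h3 h4
    ⟨hJ.ub, hE.cpt.isClosed, hr, hv, hKv, hbv, c1, c2⟩ hγ hd
  refine ⟨x, hx, ?_⟩
  have e : Function.update u z x = fun w => Function.update (fun w => u (z + w)) 0 x (-z + w) := by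
    funext w
    by_cases a : w = z
    · rw [a, Function.update_self, neg_add_cancel, Function.update_self]
    · rw [Function.update_of_ne a, Function.update_of_ne fun e => a (neg_add_eq_zero.1 e).symm,
        add_neg_cancel_left]
  rw [e]
  exact hol_shift k (-z) fun w hw => by simpa [dist_eq_norm, neg_add_eq_sub] using hw

end Pool.Agent.MP_9758ca_gt

end MrgPart1

-- ======== part 2: formerly Pool.Agent.MP_9758ca_gt.V0
section MrgPart2

/-!
PROJECT BALL: generic families (GEN), the linearised equation read by a `(1,0)`-form (HOLPUSH),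
choice of the generic point of the ball (V0), the hypotheses of the main theorem
(HYP), the non-existence of an isotopy (NOISO) and the final assembly (FINAL);
confinement of configurations (CONF).
-/

open scoped Topology ContDiff ComplexConjugate
open Set Metric Filter Complex

namespace Pool.Agent.MP_9758ca_gt

namespace GenP

/-- a code for labels -/
def code {N : ℕ} : Lab N → ℕ × ℕ × ℕ
  | .free => (0, 0, 0)
  | .sl n => (1, n, 0)
  | .gam => (2, 0, 0)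
  | .zed => (3, 0, 0)
  | .eq i j => (4, i, j)

theorem code_inj {N : ℕ} : Function.Injective (code : Lab N → ℕ × ℕ × ℕ) := by
  intro a b h
  cases a <;> cases b <;> simp [code] at h ⊢
  · exact h
  · exact ⟨Fin.ext h.1, Fin.ext h.2⟩

instance labCountable {N : ℕ} : Countable (Lab N) := code_inj.countable

end GenP

theorem gen_of (h1 : PertStmt) (h2 : StratStmt) (h3 : LabelStmt) (h4 : MarkStmt)
    (h5 : CombStmt) : GenStmt := by
  intro V _ _ _ O M K Z D π om h J 𝒜 gZ gD γ a₀ Us ρs hA hS hH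
  obtain ⟨A, _, _, _, _, JJ, r, hP⟩ :=
    h1 V O M K π om h J 𝒜 hA hH.cpt hH.sub hH.smJ hS hH.tame hH.op hH.inA
  obtain ⟨⟨L, cs, hL⟩, hlab⟩ := h3 V
  have hI : Ioo (0 : ℝ) 1 ×ˢ Ioo (0 : ℝ) 1 ⊆ Icc (0 : ℝ) 1 ×ˢ Icc (0 : ℝ) 1 :=
    prod_mono Ioo_subset_Icc_self Ioo_subset_Icc_self
  let ι := Σ N : ℕ, (Fin N → Fin 3 → Lab N) × Bool × ℤ
  let B : ι → Set A := fun q => {a | (LabOk q.2.1 ∧
    2 + 6 * (q.1 : ℤ) + 2 * q.2.2.2 < labWt q.2.1 q.2.2.1) ∧ ‖a‖ < r ∧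
    Strat M K 𝒜 (LabSet M Z γ L cs q.2.1 q.2.2.1) q.2.2.2 fun τ x => JJ ((a, τ), x)}
  have hB : ∀ q, IsMeagre (B q) := by
    intro q
    by_cases hq : LabOk q.2.1 ∧ 2 + 6 * (q.1 : ℤ) + 2 * q.2.2.2 < labWt q.2.1 q.2.2.1
    · refine (h2 V O M K π om h J 𝒜 A JJ r q.1 _ _ q.2.2.2 hA hH.sub hH.op hP
        (hlab O M Z π om h gZ γ L cs q.1 q.2.1 q.2.2.1 hA hH.cutZ
          (fun s hs => (hH.path s (hI hs)).1) hq.1)
        (fun c hc => Ioo_subset_Icc_self hc.1.1) hq.2).mono fun a ha => ha.2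
    · have : B q = ∅ := eq_empty_of_forall_notMem fun a ha => hq ha.1
      rw [this]; exact IsMeagre.empty
  have hU : IsMeagre (⋃ q, B q) := isMeagre_iUnion hB
  have hd : Dense (⋃ q, B q)ᶜ := dense_of_mem_residual hU
  obtain ⟨a, ha1, ha2⟩ := hd.inter_open_nonempty (ball (0 : A) r) isOpen_ball
    ⟨0, mem_ball_self hP.pos⟩
  have har : ‖a‖ < r := mem_ball_zero_iff.1 ha1
  have hsm : ContDiff ℝ 3 fun q : ℝ × V => JJ ((a, q.1), q.2) :=
    hP.sm.comp ((contDiff_const.prodMk contDiff_fst).prodMk contDiff_snd)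
  refine ⟨fun τ x => JJ ((a, τ), x), ⟨hsm, fun τ => hP.sj (a, τ), fun τ hτ =>
    ⟨hA.wj (hP.sj (a, τ)), hP.tame a har τ hτ, fun x _ hx v _ => by rw [hP.out a τ x hx]⟩,
    funext fun x => hP.out a 1 x fun hx => lt_irrefl _ (hH.inA _ hx).1.2⟩, fun hN => ?_⟩
  have hC := h5 V O M K Z π om h 𝒜 γ _ hA hH.cpt hH.sub hsm (fun τ => hP.sj (a, τ))
    (hP.tame a har) (fun s hs => (hH.path s (hI hs)).2.2.1) hN
  obtain ⟨N, lab, b, cb, hok, hw, hst⟩ := h4 V M K Z 𝒜 γ _ L cs hH.sub hH.op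
    (fun τ => ⟨(hsm.comp (contDiff_const.prodMk contDiff_id)).of_le (by norm_num),
      fun x hx v => (hP.sj (a, τ) x hx v).1⟩) hL hC
  exact ha2 (mem_iUnion.2 ⟨⟨N, lab, b, cb⟩, ⟨hok, hw⟩, har, hst⟩)

theorem holpush : HolpushStmt := by
  intro V _ _ O M π om h J U ξ η v w hA hW hJ hU hξ hη hm hcr he hL
  have hx : U v ∈ M := hm.self_of_nhds.1
  have hξt : ξ v ∈ tan M (U v) := hm.self_of_nhds.2
  have ht : ∀ w, fderiv ℝ U v w ∈ tan M (U v) := fderiv_mem_tan hU (hm.mono fun _ h => h.1)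
  set a₀ := fderiv ℝ U v (I • w) with ha₀
  have hP : HasFDerivAt (fderiv ℝ π) (fderiv ℝ (fderiv ℝ π) (U v)) (U v) :=
    (hA.smP.differentiable (by simp) _).hasFDerivAt
  have hPa : fderiv ℝ π (U v) a₀ = a₀ := (hA.mem_tan_iff hx _).1 (ht _)
  have hJa : J (U v) a₀ = -fderiv ℝ U v w := by rw [hcr]; exact (hW _ hx _ (ht w)).2
  have d1 := hP.clm_apply (hasFDerivAt_const a₀ (U v))
  have d2 := hη.hasFDerivAt.clm_apply (hJ.hasFDerivAt.clm_apply d1)
  have d3 := (hη.hasFDerivAt.clm_apply d1).const_mul I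
  have e := fderiv_eq_on_tan hx d2.differentiableAt d3.differentiableAt
    (he.mono fun x hx hxM => hx hxM _ (hA.P_mem' hxM a₀)) hξt
  rw [d2.fderiv, d3.fderiv] at e
  have e2 := hA.deriv_tan hU hξ hm (I • w)
  have e3 := he.self_of_nhds hx _ (hA.P_mem' hx (fderiv ℝ ξ v (I • w)))
  have e4 := congrArg (η (U v)) hL
  simp only [Lin, map_add, map_zero] at e4
  rw [← ha₀] at e2 e4
  have e5 : η (U v) (J (U v) (fderiv ℝ ξ v (I • w))) =
      I * η (U v) (fderiv ℝ π (U v) (fderiv ℝ ξ v (I • w))) +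
      η (U v) (J (U v) (fderiv ℝ (fderiv ℝ π) (U v) (ξ v) a₀)) := by
    conv_lhs => rw [e2]
    rw [map_add, map_add, e3]
  have e6 : η (U v) (fderiv ℝ ξ v (I • w)) =
      η (U v) (fderiv ℝ π (U v) (fderiv ℝ ξ v (I • w))) +
      η (U v) (fderiv ℝ (fderiv ℝ π) (U v) (ξ v) a₀) := by
    conv_lhs => rw [e2]
    rw [map_add]
  simp [hPa, hJa] at e
  rw [e6]
  linear_combination e4 - e5 - e

namespace V0P

variable {V : Type} [NormedAddCommGroup V] [NormedSpace ℝ V]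

theorem fam_at {M : Set V} {om : F2 V} {r : ℝ} {ψ : ℝ × E6 → V} (h : BallFam M om r ψ) (τ : ℝ)
    {y : E6} (hy : y ∈ ball (0 : E6) r) :
    ContDiffAt ℝ ∞ ψ (τ, y) ∧ ∀ᶠ q in 𝓝 (τ, y), ψ q ∈ M := by
  have hn : univ ×ˢ closedBall (0 : E6) r ∈ 𝓝 (τ, y) :=
    prod_mem_nhds univ_mem (mem_of_superset (isOpen_ball.mem_nhds hy) ball_subset_closedBall)
  exact ⟨h.sm.contDiffAt hn, mem_of_superset hn fun q hq => h.mem q.1 q.2 hq.2⟩

/-- the derivative of a ball in the directions of the ball is onto the tangent space -/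
theorem fam_onto [FiniteDimensional ℝ V] {O M : Set V} {π : V → V} {om h : F2 V}
    (hA : Amb O π M om h) {r : ℝ} {ψ : ℝ × E6 → V} (hψ : BallFam M om r ψ) (τ : ℝ) {y : E6}
    (hy : y ∈ ball (0 : E6) r) {t : V} (ht : t ∈ tan M (ψ (τ, y))) :
    ∃ a, fderiv ℝ ψ (τ, y) (0, a) = t := by
  obtain ⟨h1, h2⟩ := fam_at hψ τ hy
  have hd : DifferentiableAt ℝ ψ (τ, y) := h1.differentiableAt (by simp)
  let D : E6 →ₗ[ℝ] tan M (ψ (τ, y)) := LinearMap.codRestrict _
    ((fderiv ℝ ψ (τ, y)).toLinearMap.comp (LinearMap.inr ℝ ℝ E6)) fun a => fderiv_mem_tan hd h2 _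
  have hi : Function.Injective D := by
    rw [injective_iff_map_eq_zero]
    intro a ha
    have h0 : fderiv ℝ ψ (τ, y) (0, a) = 0 := congrArg Subtype.val ha
    have := hψ.pull τ y hy a (j6 a)
    rw [h0, om0_j6] at this
    simp only [map_zero, zero_apply] at this
    exact norm_eq_zero.1 (pow_eq_zero_iff two_ne_zero |>.1 this.symm)
  have hs : Function.Surjective D := (LinearMap.injective_iff_surjective_of_finrank_eq_finrank
    (by rw [hA.dim _ h2.self_of_nhds]; simp)).1 hi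
  obtain ⟨a, ha⟩ := hs ⟨t, ht⟩
  exact ⟨a, congrArg Subtype.val ha⟩

theorem meagre (h1 : SsStmt) [FiniteDimensional ℝ V] {O M Z : Set V} {π : V → V} {om h : F2 V}
    (hA : Amb O π M om h) {r : ℝ} {ψ : ℝ × E6 → V} (hψ : BallFam M om r ψ) {g : V → V → ℂ}
    (hc : Cut M Z g) : IsMeagre {v : E6 | v ∈ ball (0 : E6) r ∧ ∃ τ, ψ (τ, v) ∈ Z} := by
  have := h1.2.2 E6 ℝ {q | q.1 ∈ ball (0 : E6) r ∧ ψ (q.2, q.1) ∈ Z} ?_
  · refine this.mono ?_
    rintro v ⟨hv, τ, hτ⟩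
    exact ⟨(v, τ), ⟨hv, hτ⟩, rfl⟩
  rintro ⟨v, τ⟩ ⟨hv, hZ⟩
  obtain ⟨h2, h3⟩ := fam_at hψ τ hv
  obtain ⟨h4, h5, h6⟩ := hc _ hZ h3.self_of_nhds
  have hsw : ContDiffAt ℝ 1 (fun q : E6 × ℝ => (q.2, q.1)) (v, τ) := by fun_prop
  have h7 : ContDiffAt ℝ 1 (fun q : E6 × ℝ => ψ (q.2, q.1)) (v, τ) :=
    ContDiffAt.comp (g := ψ) (v, τ) (h2.of_le (by simp)) hsw
  refine ⟨ℂ, inferInstance, inferInstance, inferInstance,
    fun q => g (ψ (τ, v)) (ψ (q.2, q.1)), by simp, ContDiffAt.comp (g := g _) (v, τ) h4 h7, ?_, ?_⟩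
  · filter_upwards [h7.continuousAt.eventually h5, hsw.continuousAt.eventually h3] with q h8 h9 hq
    exact (h8 h9).1 hq.2
  · intro w
    obtain ⟨t, ht, hw⟩ := h6 w
    obtain ⟨a, ha⟩ := fam_onto hA hψ τ hv ht
    refine ⟨(a, 0), ?_⟩
    have e1 : HasFDerivAt (fun q : E6 × ℝ => (q.2, q.1))
        ((ContinuousLinearMap.snd ℝ E6 ℝ).prod (ContinuousLinearMap.fst ℝ E6 ℝ)) (v, τ) :=
      hasFDerivAt_snd.prodMk hasFDerivAt_fst
    have e2 := (h4.differentiableAt (by simp)).hasFDerivAt.comp (v, τ)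
      (HasFDerivAt.comp (g := ψ) (v, τ) (h2.differentiableAt (by simp)).hasFDerivAt e1)
    have e3 : fderiv ℝ (fun q : E6 × ℝ => g (ψ (τ, v)) (ψ (q.2, q.1))) (v, τ) = _ := e2.fderiv
    rw [e3]
    simp [ha, hw]

theorem iso_symm {A : Atl V} {S : Set V} {r : ℝ} {ψ₀ ψ₁ : E6 → V} (h : A.Iso S r ψ₀ ψ₁) :
    A.Iso S r ψ₁ ψ₀ := by
  obtain ⟨Ψ, h1, h2, h3, h4⟩ := h
  refine ⟨fun q => Ψ (1 - q.1, q.2), h1.comp (by fun_prop) fun q hq =>
    ⟨⟨by linarith [hq.1.2], by linarith [hq.1.1]⟩, hq.2⟩, fun t ht =>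
    h2 (1 - t) ⟨by linarith [ht.2], by linarith [ht.1]⟩, fun y hy => by simpa using h4 y hy,
    fun y hy => by simpa using h3 y hy⟩

/-- an isotopy gives a family of balls indexed by the whole line -/
theorem fam_of_iso {A : Atl V} {S M : Set V} {om h : F2 V} {J : V → En0 V} {r : ℝ}
    {Ψ : ℝ × E6 → V} (hP : A.Pre S) (hR : A.Real S M om h J)
    (h1 : ContDiffOn ℝ ∞ Ψ (Icc 0 1 ×ˢ closedBall 0 r))
    (h2 : ∀ t ∈ Icc (0 : ℝ) 1, A.Ball S r fun y => Ψ (t, y))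
    (hM : ∀ t ∈ Icc (0 : ℝ) 1, ∀ y ∈ closedBall (0 : E6) r, Ψ (t, y) ∈ M) :
    BallFam M om r fun q => Ψ (Real.smoothTransition q.1, q.2) := by
  have hI : ∀ τ, Real.smoothTransition τ ∈ Icc (0 : ℝ) 1 := fun τ =>
    ⟨Real.smoothTransition.nonneg τ, Real.smoothTransition.le_one τ⟩
  have hs : ContDiffOn ℝ ∞ (fun q : ℝ × E6 => Ψ (Real.smoothTransition q.1, q.2))
      (univ ×ˢ closedBall 0 r) :=
    h1.comp ((Real.smoothTransition.contDiff.comp contDiff_fst).prodMk contDiff_snd).contDiffOn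
      fun q hq => ⟨hI _, hq.2⟩
  refine ⟨hs, fun τ y hy => hM _ (hI τ) y hy, fun τ => (h2 _ (hI τ)).inj, ?_, fun τ => ?_⟩
  · intro τ y hy a b
    have hy' : closedBall (0 : E6) r ∈ 𝓝 y :=
      mem_of_superset (isOpen_ball.mem_nhds hy) ball_subset_closedBall
    have hd : DifferentiableAt ℝ (fun q : ℝ × E6 => Ψ (Real.smoothTransition q.1, q.2)) (τ, y) :=
      (hs.contDiffAt (prod_mem_nhds univ_mem hy')).differentiableAt (by simp)
    have hB := h2 _ (hI τ)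
    have e1 := hd.hasFDerivAt.comp y (hasFDerivAt_prodMk_right (𝕜 := ℝ) τ y)
    have e2 : ∀ a, fderivWithin ℝ (fun y => Ψ (Real.smoothTransition τ, y)) (closedBall 0 r) y a =
        fderiv ℝ (fun q : ℝ × E6 => Ψ (Real.smoothTransition q.1, q.2)) (τ, y) (0, a) := by
      intro a
      rw [fderivWithin_of_mem_nhds hy']
      have e3 : fderiv ℝ (fun y => Ψ (Real.smoothTransition τ, y)) y = _ := e1.fderiv
      rw [e3]; rfl
    have ht : ∀ a, fderiv ℝ (fun q : ℝ × E6 => Ψ (Real.smoothTransition q.1, q.2)) (τ, y) a ∈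
        tan S (Ψ (Real.smoothTransition τ, y)) := fun a =>
      fderiv_mem_tan hd (mem_of_superset (prod_mem_nhds univ_mem hy')
        fun q hq => (h2 _ (hI q.1)).mem hq.2) a
    have hx := hM _ (hI τ) y (ball_subset_closedBall hy)
    obtain ⟨i, hi⟩ := hP.cov _ (hR.sub hx)
    rw [(hR.form i _ hx hi _ (ht _) _ (ht _)).1, ← e2, ← e2]
    exact hB.pull y (ball_subset_closedBall hy) i hi a b
  · refine ⟨max 0 (min τ 1), ⟨le_max_left _ _, max_le zero_le_one (min_le_right _ _)⟩,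
      fun y _ => ?_⟩
    have : Real.smoothTransition (max 0 (min τ 1)) = Real.smoothTransition τ := by
      rcases le_total τ 0 with h0 | h0
      · rw [Real.smoothTransition.zero_of_nonpos h0, min_eq_left (by linarith), max_eq_left h0,
          Real.smoothTransition.zero]
      rcases le_total τ 1 with h1 | h1
      · rw [min_eq_left h1, max_eq_right h0]
      · rw [min_eq_right h1, max_eq_right zero_le_one, Real.smoothTransition.one,
          Real.smoothTransition.one_of_one_le h1]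
    simp only [this]

theorem tame_of_real {A : Atl V} {S M : Set V} {om h : F2 V} {J : V → En0 V} (hP : A.Pre S)
    (hR : A.Real S M om h J) (hT : A.Tame S) : Tame M om J := by
  intro x hx v hv h0
  have e : tan M x = tan S x :=
    tan_congr ((hR.rel x hx).mono fun y hy => ⟨fun h => hR.sub h, hy⟩)
  rw [e] at hv
  obtain ⟨i, hi⟩ := hP.cov _ (hR.sub hx)
  obtain ⟨h1, h2⟩ := hR.cx i x hx hi v hv
  rw [(hR.form i x hx hi v hv _ h1).1]
  exact hT i x (hR.sub hx) hi v hv _ h1 h2 h0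

theorem isOpen_AA {M : Set VV} {om : F2 VV} {r r₁ : ℝ} {ψ : ℝ × E6 → VV} (h : BallFam M om r ψ)
    (hr : r₁ < r) (L : ℕ) : IsOpen (AA L r₁ ψ) := by
  have h1 : IsClosed {s : (ℝ × VV) × closedBall (0 : E6) r₁ | ψ (s.1.1, s.2) = s.1.2} := by
    refine isClosed_eq ?_ (by fun_prop)
    exact h.sm.continuousOn.comp_continuous (by fun_prop)
      fun s => ⟨mem_univ _, closedBall_subset_closedBall hr.le s.2.2⟩
  have h2 := (isClosedMap_fst_of_compactSpace _ h1).isOpen_compl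
  have h3 : AA L r₁ ψ = {s | s.1 ∈ Ioo (0 : ℝ) 1} ∩ ({s : ℝ × VV | |s.2.2| < (L : ℝ) + 1 / 2} ∩
      (Prod.fst '' {s : (ℝ × VV) × closedBall (0 : E6) r₁ | ψ (s.1.1, s.2) = s.1.2})ᶜ) := by
    ext s
    simp only [AA, mem_ofPred_eq, mem_inter_iff, mem_compl_iff, mem_image, not_exists, not_and]
    refine and_congr_right fun _ => and_congr_right fun _ => ⟨?_, fun hh y hy he => ?_⟩
    · rintro hh x hx rfl
      exact hh _ x.2.2 hx
    · exact hh (s, ⟨y, hy⟩) he rfl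
  rw [h3]
  exact (isOpen_Ioo.preimage continuous_fst).inter
    ((isOpen_lt (by fun_prop) continuous_const).inter h2)

end V0P

open V0P

theorem v0_of (h1 : SsStmt) (h2 : GcutStmt) : V0Stmt := by
  intro b₀ ε O M π om h J₀ r δ ψ hG hψ hδ hr
  obtain ⟨-, hD, hE⟩ := h2 M hG.real.sub hG.real.rel
  have hm := (meagre h1 hG.amb hψ hD).union (meagre h1 hG.amb hψ hE)
  obtain ⟨v, hv1, hv2⟩ := (dense_of_mem_residual hm).inter_open_nonempty (ball (0 : E6) δ)
    isOpen_ball ⟨0, mem_ball_self hδ⟩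
  have hv : v ∈ ball (0 : E6) r := ball_subset_ball hr.le hv1
  refine ⟨v, mem_ball_zero_iff.1 hv1, fun τ => ⟨?_, fun hh => hv2 (Or.inl ⟨hv, τ, hh⟩)⟩⟩
  exact (hG.real.sub (hψ.mem τ v (ball_subset_closedBall hv))).resolve_right
    fun hh => hv2 (Or.inr ⟨hv, τ, hh⟩)

theorem hyp_of (h1 : ConfStmt) (h2 : ClassStmt) (h3 : Expl1Stmt) (h4 : ExplFStmt)
    (h5 : Expl2Stmt) (h6 : Expl3Stmt) (h7 : GcutStmt) (h8 : GcptStmt) (h9 : FrameStmt)
    (h10 : GballStmt) : HypStmt := by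
  intro b₀ ε r r₁ L p q O M π om h J₀ ψ J v₀ γ ρs xs hS
  have hC := h1 b₀ ε r r₁ L p q O M π om h J₀ ψ J v₀ γ ρs xs hS
  have hG := hS.geo
  have hr : 0 < r := (norm_nonneg _).trans_lt (hS.cen.trans hS.lt)
  have hq : ∀ x ∈ SS, x.2 = q → x ∈ M := fun x hx he => hS.sub x hx (by
    rw [he]; linarith [hS.hq])
  obtain ⟨c1, c2, -⟩ := h7 M hG.real.sub hG.real.rel
  obtain ⟨-, -, -, e1, e2, e3, e4, e5⟩ := h3 q xs hS.root
  have e6 := e5 b₀ ε O M π om h J₀ hG hq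
  have hout : ∀ v, v ≠ 0 → ∀ᶠ x in 𝓝 (Us q xs v), J 1 x = J₀ x := by
    intro v hv
    refine hS.patch.out 1 _ (e6.mem v hv) fun y hy he => ?_
    have h11 := ((h10.1 r q hr hS.rad).2 y (ball_subset_closedBall hy)).2.1
    rw [← hS.e1 y (ball_subset_closedBall hy), he] at h11
    have : (Us q xs v).2 = q := rfl
    rw [this] at h11
    norm_num at h11
  have hZ : ∀ s ∈ Icc (0 : ℝ) 1 ×ˢ Icc (0 : ℝ) 1, γ s ∉ ZZ q := fun s hs hh =>
    disjoint_left.1 disjoint_SO_EE (hS.path.path s hs).2.1.self_of_nhds ((ZZ_sub q).1 hh)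
  have h11 : (1 : ℝ) ∈ Icc (0 : ℝ) 1 := ⟨zero_le_one, le_rfl⟩
  obtain ⟨t, ht, hder⟩ := hS.path.der
  refine ⟨hS.patch.sm, fun τ _ => hS.patch.tame τ, h8.1 _, fun x hx => hS.sub x hx.1 (by
    linarith [hx.2]), isOpen_AA hS.fam hS.lt L,
    fun s hs => ⟨hs.1, fun hM => ⟨hG.real.sub hM, hs.2.1.le⟩⟩, h8.2.1 q, h8.2.2, c1 q, c2,
    fun x _ hx => disjoint_left.1 (ZZ_sub q).2.2 hx, fun s hs => ?_, ?_, ?_, hS.path.rho, ?_, ?_,
    ?_⟩
  · obtain ⟨a1, a2, a3, a4⟩ := hS.path.path s hs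
    refine ⟨a1, ?_, hZ s hs, a3⟩
    have a5 : γ s ∈ M := hS.sub _ (Or.inl a2.self_of_nhds) a4
    filter_upwards [a1.continuousAt.eventually (hG.real.rel _ a5), a2] with s' b1 b2
    exact b1 (Or.inl b2)
  · intro τ hτ ρ hρ J' hJ k U hU
    obtain ⟨a1, a2, a3, a4, a5⟩ := hC τ hτ ρ hρ J' hJ k U hU
    exact ⟨a1, a2, a3, fun h => (a4 h).1, a5⟩
  · intro ρ hρ U hU
    have hc : Conf M om h (ZZ q) (1 - ε) (J 1) (γ (1, ρ)) 1 fun _ => U := by
      refine ⟨fun _ => ⟨hU.sph, mk3 0, mk3_ne 0, mk3 2, mk3_ne 2, fun he => ?_⟩, ?_,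
        ⟨0, mk3 0, mk3_ne 0, hU.mZ⟩, ⟨0, mk3 2, mk3_ne 2, hU.mp⟩, by simpa using hU.aro,
        by simpa using hU.arh⟩
      · exact hZ (1, ρ) ⟨h11, hρ⟩ (by rw [← hU.mp, ← he]; exact hU.mZ)
      · rw [iUnion_const]
        exact (hU.sph.inv.isCompact_im hU.sph.sm.continuousOn).2
    obtain ⟨-, -, -, a4, -⟩ := hC 1 h11 ρ hρ (J 1)
      ⟨hS.patch.wj 1, hS.patch.tame 1, fun _ _ _ _ _ => rfl⟩ 1 _ hc
    obtain ⟨-, a5, a6⟩ := a4 rfl
    obtain ⟨A, hA⟩ := a6 0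
    refine ⟨a5, fun v hv => ?_⟩
    rw [hA v hv]
    refine (h2 q xs hS.root).2 A ?_ ?_ ?_ v hv
    · rw [← hA _ (mk3_ne 0)]; exact hU.mZ
    · rw [← hA _ (mk3_ne 1)]; exact hU.mD
    · rw [← hA _ (mk3_ne 2), hU.mp, a5, hS.path.val]
  · obtain ⟨a1, a2⟩ := h5 q xs b₀ ε O M π om h J₀ hS.root hG hq
    exact ⟨e6.congr (fun _ _ => rfl) e6.mem fun v hv a _ => by rw [(hout v hv).self_of_nhds],
      e2, e3, by rw [e4, hS.path.val], a2, a1⟩
  · refine ⟨![2, 1, -1], (h9 VV).1 M M J₀ (J 1) _ _ _ (h4 q xs b₀ ε O M π om h J₀ hS.root hG hq)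
      fun v hv => ⟨rfl, rfl, fun a _ => by rw [(hout v hv).self_of_nhds]⟩, ?_⟩
    simp [Fin.sum_univ_three]
  · rw [hder]
    intro ξ s a1 a2 a3 a4
    refine h6 q xs b₀ ε O M π om h J₀ t hS.root hG hq ht ξ s a1 a2 a3 fun v hv w => ?_
    have := a4 v hv w
    rwa [Lin, (hout v hv).self_of_nhds, Filter.EventuallyEq.fderiv_eq (hout v hv)] at this

theorem noiso_of (h1 : MainWStmt) (h2 : HypStmt) (h3 : AmbientStmt) (h4 : GcompStmt)
    (h5 : GcptStmt) (h6 : GballStmt) (h7 : TamefamStmt) (h8 : V0Stmt) (h9 : PathStmt) :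
    NoisoStmt := by
  intro b₀ ε r p q hε hT hr hb hrad hpq ⟨Ψ, i1, i2, i3, i4⟩
  obtain ⟨hP, hcp⟩ := h4.2.2.2.2 b₀ ε true
  obtain ⟨C, hC⟩ := IsCompact.exists_bound_of_continuousOn
    (isCompact_Icc.prod (isCompact_closedBall (0 : E6) r))
    (continuous_snd.comp_continuousOn i1.continuousOn)
  obtain ⟨L, hL⟩ := exists_nat_ge (max C |(q : ℝ)|)
  have hL1 : ∀ t ∈ Icc (0 : ℝ) 1, ∀ y ∈ closedBall (0 : E6) r, |(Ψ (t, y)).2| ≤ L :=
    fun t ht y hy => (hC (t, y) ⟨ht, hy⟩).trans ((le_max_left _ _).trans hL)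
  obtain ⟨O, M, π, om, h, J₀, hA, hK, hJ, hW, hR⟩ :=
    (h3 VV _ SS h4.1 hP).2 hcp _ (h5.1 (L + 2)) fun x hx => hx.1
  have hG : GeoS b₀ ε O M π om h J₀ := ⟨hA, hR, hJ, hW, tame_of_real hP hR hT⟩
  have hF := fam_of_iso hP hR i1 i2 fun t ht y hy =>
    hK ⟨(i2 t ht).mem hy, by linarith [hL1 t ht y hy]⟩
  set ψ : ℝ × E6 → VV := fun q => Ψ (Real.smoothTransition q.1, q.2) with hψ
  have hht : ∀ τ, ∀ y ∈ closedBall (0 : E6) r, |(ψ (τ, y)).2| ≤ L := fun τ y hy =>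
    hL1 _ ⟨Real.smoothTransition.nonneg τ, Real.smoothTransition.le_one τ⟩ y hy
  have e0 : ∀ y ∈ closedBall (0 : E6) r, ψ (0, y) = ball0 p y := fun y hy => by
    simp only [hψ, Real.smoothTransition.zero, i3 y hy]
  have e1 : ∀ y ∈ closedBall (0 : E6) r, ψ (1, y) = ball0 q y := fun y hy => by
    simp only [hψ, Real.smoothTransition.one, i4 y hy]
  obtain ⟨r₂, hr2, hr3⟩ : ∃ r₂ ∈ Ioo 0 r, 1 - ε < Real.pi * r₂ ^ 2 := by
    have hc : ContinuousAt (fun s : ℝ => Real.pi * s ^ 2) r := by fun_prop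
    have h10 : ∀ᶠ s in 𝓝[<] r, 1 - ε < Real.pi * s ^ 2 :=
      nhdsWithin_le_nhds (hc.eventually (lt_mem_nhds hb))
    exact (Filter.Eventually.and (p := fun s => s ∈ Ioo 0 r) (Ioo_mem_nhdsLT hr) h10).exists
  obtain ⟨J, hJp⟩ := h7 VV O M π om h J₀ r ((r + r₂) / 2) ψ hA hJ hW hG.tame hF
    (by linarith [hr2.1]) (by linarith [hr2.2])
  obtain ⟨v₀, hv, hv2⟩ := h8 b₀ ε O M π om h J₀ r ((r - r₂) / 2) ψ hG hF (by linarith [hr2.2])
    (by linarith [hr2.1])
  have hv3 : v₀ ∈ ball (0 : E6) r := mem_ball_zero_iff.2 (by linarith [hr2.1])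
  have hv4 := ball_subset_closedBall hv3
  have g0 := abs_lt.1 ((h6.1 r p hr hrad).2 v₀ hv4).2.1
  have g1 := abs_lt.1 ((h6.1 r q hr hrad).2 v₀ hv4).2.1
  have hni : ∀ (l j : ℤ) (T : ℝ), -(3 / 10) < T - l - 1 / 2 → T - l - 1 / 2 < 3 / 10 → T ≠ j := by
    rintro l j T a1 a2 rfl
    have b1 : l < j := by exact_mod_cast (by linarith : (l : ℝ) < j)
    have b2 : j < l + 1 := by exact_mod_cast (by linarith : (j : ℝ) < l + 1)
    omega
  obtain ⟨γ, ρs, hγ⟩ := h9 (fun τ => ψ (τ, v₀)) L q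
    (contDiff_iff_contDiffAt.2 fun τ => ContDiffAt.comp (g := ψ) τ
      ((fam_at hF τ hv3).1.of_le (by simp)) (by fun_prop))
    (fun τ => ⟨(hv2 τ).1, (hv2 τ).2, hht τ v₀ hv4⟩) ((le_max_right _ _).trans hL)
    (fun j => by
      simp only [e0 v₀ hv4, e1 v₀ hv4]
      exact ⟨hni p j _ g0.1 g0.2, hni q j _ g1.1 g1.2⟩)
    (by simp only [e1 v₀ hv4]; linarith [g1.1])
  obtain ⟨xs, hxs⟩ := exists_root
  refine h1 VV O M _ _ _ π om h J _ _ _ γ _ _ ρs hA hJp.wj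
    (h2 b₀ ε r ((r + r₂) / 2) L p q O M π om h J₀ ψ J v₀ γ ρs xs
      ⟨hG, fun x hx hx' => hK ⟨hx, hx'⟩, hF, hJp, hε, by linarith [hr2.2], hrad,
        by linarith [hr2.1], hr3.trans_le ?_, hht, hpq, (le_max_right _ _).trans hL, e0, e1, hγ,
        hxs⟩)
  have := hr2.1
  gcongr
  linarith

theorem final_of (h1 : GtameStmt) (h2 : GcompStmt) (h3 : GcptStmt) (h4 : GballStmt)
    (h5 : NoisoStmt) (h6 : QuotStmt) : Final := by
  obtain ⟨b₀, ε₀, hε₀, hT⟩ := h1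
  have hε : 0 < min ε₀ (1 / 2) := lt_min hε₀ (by norm_num)
  have hε1 : min ε₀ (1 / 2) ≤ 1 / 2 := min_le_right _ _
  have hTa := hT _ hε (min_le_left _ _) true
  generalize min ε₀ (1 / 2) = ε at hε hε1 hTa
  have hp := Real.pi_pos
  have hq : 0 < (1 - ε / 2) / Real.pi := div_pos (by linarith) hp
  have hr : 0 < √((1 - ε / 2) / Real.pi) := Real.sqrt_pos.2 hq
  have hr2 : Real.pi * √((1 - ε / 2) / Real.pi) ^ 2 = 1 - ε / 2 := by
    rw [Real.sq_sqrt hq.le]; field_simp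
  generalize √((1 - ε / 2) / Real.pi) = r at hr hr2
  have hB := fun l => h4.1 r l hr (by linarith)
  refine h6 W0 (atl b₀ ε true) SS r (ball0 0) (ball0 1) h2.1 (h2.2.2.2.2 b₀ ε true).1
    (h2.2.2.2.2 b₀ ε true).2 hTa (fun n x hx => by exact_mod_cast SS_shift (2 * n) hx)
    (fun n i => ⟨(i.1, i.2.1, i.2.2 + 2 * n), fun x hx => ⟨?_, fun a b => ?_⟩⟩) (h3.1 1) hr
    ((hB 0).1 _ _ _) ((hB 1).1 _ _ _) ?_ h4.2 fun n hn => ?_
  · exact_mod_cast (dom_shift (2 * n) i x).2 hx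
  · exact_mod_cast lam_shift b₀ ε true (2 * n) i x a b
  · have key : ∀ l : ℤ, ∀ y ∈ closedBall (0 : E6) r, ∀ y' ∈ closedBall (0 : E6) r, ∀ n : ℤ,
        ball0 l y' = ((ball0 l y).1, (ball0 l y).2 + 2 * n) → y' = y := by
      intro l y hy y' hy' n he
      have e1 := abs_lt.1 ((hB l).2 y hy).2.1
      have e2 := abs_lt.1 ((hB l).2 y' hy').2.1
      have e3 : (ball0 l y').2 = (ball0 l y).2 + 2 * n := congrArg Prod.snd he
      have e4 : (n : ℝ) < 1 := by linarith [e1.1, e2.2]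
      have e5 : (-1 : ℝ) < n := by linarith [e1.2, e2.1]
      have e6 : n = 0 := by
        have : n < 1 := by exact_mod_cast e4
        have : -1 < n := by exact_mod_cast e5
        omega
      refine ((hB l).1 b₀ ε true).inj hy' hy ?_
      rw [he, e6]; simp
    rintro ψ (rfl | rfl)
    exacts [key 0, key 1]
  · have e : (fun y => ((ball0 1 y).1, (ball0 1 y).2 + 2 * n)) = ball0 (1 + 2 * n) :=
      funext fun y => by rw [ball0_shift]; simp
    rw [e] at hn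
    rcases lt_trichotomy 0 (1 + 2 * n) with hl | hl | hl
    · exact h5 b₀ ε r _ _ hε hTa hr (by linarith) (by linarith) hl hn
    · omega
    · exact h5 b₀ ε r _ _ hε hTa hr (by linarith) (by linarith) hl (iso_symm hn)

namespace ConfP

variable {b₀ ε : ℝ} {O M : Set VV} {π : VV → VV} {om h : F2 VV} {J₀ : VV → En0 VV}

theorem tanM (hG : GeoS b₀ ε O M π om h J₀) {x : VV} (hx : x ∈ M) : tan M x = tan SS x :=
  tan_congr ((hG.real.rel x hx).mono fun _ hy => ⟨fun h => hG.real.sub h, hy⟩)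

theorem far (m : ℤ) {T : ℝ} (h1 : m + 1 / 10 ≤ T) (h2 : T ≤ m + 9 / 10) (j : ℤ) :
    1 / 10 ≤ |T - j| := by
  rcases le_or_gt j m with h | h
  · have : (j : ℝ) ≤ m := by exact_mod_cast h
    exact le_abs.2 (Or.inl (by linarith))
  · have : (m : ℝ) + 1 ≤ j := by exact_mod_cast h
    exact le_abs.2 (Or.inr (by linarith))

theorem lemB (h6 : GcompStmt) (hG : GeoS b₀ ε O M π om h J₀) {x : VV} (hx : x ∈ M)
    (hT : ∀ j : ℤ, 1 / 10 ≤ |x.2 - j|) {v : VV} (hv : v ∈ tan M x) :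
    dw x (J₀ x v) = I * dw x v := by
  rw [tanM hG hx] at hv
  have hS := hG.real.sub hx
  obtain ⟨i, hi⟩ := dom_cover hS
  obtain ⟨a1, a2⟩ := hG.real.cx i x hx hi v hv
  obtain ⟨k, hk⟩ := SS_diag hS
  have := (h6.2.1 x hS i hi v hv _ a1 a2 k (round x.2) hk (abs_round_lt _)).2.2
  rw [et_apply, et_apply, kap_zero (hT _)] at this
  rw [dw_apply, dw_apply]
  simpa using this

theorem band (hM : M ⊆ SS) {J' : VV → En0 VV} {U : C2 → VV} (hU : IsSph M J' U) {c₁ c₂ : ℝ}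
    (hb : ∀ x ∈ M, c₁ < x.2 → x.2 < c₂ → ∀ v ∈ tan M x, dw x (J' x v) = I * dw x v) :
    Map2 SS U ∧ Band c₁ c₂ U :=
  ⟨⟨hU.sm, hU.inv, fun v hv => hM (hU.mem v hv)⟩, fun v hv hc w => by
    rw [hU.cr v hv]
    exact hb _ (hU.mem v hv) hc.1 hc.2 _ (Bs.map2_mem_tan hU.toMap2 hv w)⟩

/-- confinement of a configuration by two bands -/
theorem confine (h1 : SliceStmt) (hM : M ⊆ SS) {q : ℤ} {a : ℝ} {J' : VV → En0 VV} {p : VV} {k : ℕ}
    {U : Fin k → C2 → VV} (hC : Conf M om h (ZZ q) a J' p k U) {c₁ c₂ c₃ c₄ : ℝ} (h12 : c₁ < c₂)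
    (h2 : c₂ ≤ q) (h3 : q ≤ c₃) (h34 : c₃ < c₄)
    (hb : ∀ x ∈ M, (c₁ < x.2 ∧ x.2 < c₂) ∨ (c₃ < x.2 ∧ x.2 < c₄) → ∀ v ∈ tan M x,
      dw x (J' x v) = I * dw x v) (i : Fin k) {v : C2} (hv : v ≠ 0) :
    c₂ ≤ (U i v).2 ∧ (U i v).2 ≤ c₃ := by
  obtain ⟨i₀, v₀, hv₀, hZ⟩ := hC.hitZ
  have e := (ZZ_sub q).2.1 _ hZ
  have m0 : U i₀ v₀ ∈ ⋃ i, im (U i) := mem_iUnion.2 ⟨i₀, v₀, hv₀, rfl⟩
  have m1 : U i v ∈ ⋃ i, im (U i) := mem_iUnion.2 ⟨i, v, hv, rfl⟩
  exact ⟨(h1.2 c₁ c₂ k U h12 (fun i => band hM (hC.sph i).1 fun x hx a b => hb x hx (Or.inl ⟨a, b⟩))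
      hC.conn _ m0 _ m1).2 (by rw [e]; exact h2),
    (h1.2 c₃ c₄ k U h34 (fun i => band hM (hC.sph i).1 fun x hx a b => hb x hx (Or.inr ⟨a, b⟩))
      hC.conn _ m0 _ m1).1 (by rw [e]; exact h3)⟩

/-- at an end of the isotopy `dw` is complex linear away from the walls -/
theorem endB (h5 : GballStmt) (h6 : GcompStmt) (hG : GeoS b₀ ε O M π om h J₀) {r r₁ : ℝ}
    {ψ : ℝ × E6 → VV} {J : ℝ → VV → En0 VV} (hF : BallFam M om r ψ)
    (hP : Patch M om J₀ r r₁ ψ J) (hr : 0 < r) (hrad : Real.pi * r ^ 2 < 1) {τ : ℝ} {l : ℤ}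
    (he : ∀ y ∈ closedBall (0 : E6) r, ψ (τ, y) = ball0 l y) {x : VV} (hx : x ∈ M)
    (hT : ∀ j : ℤ, 1 / 10 ≤ |x.2 - j|) {v : VV} (hv : v ∈ tan M x) :
    dw x (J τ x v) = I * dw x v := by
  by_cases hb : ∃ y ∈ ball (0 : E6) r, ψ (τ, y) = x
  · obtain ⟨y, hy, rfl⟩ := hb
    have hy' : closedBall (0 : E6) r ∈ 𝓝 y :=
      mem_of_superset (isOpen_ball.mem_nhds hy) ball_subset_closedBall
    have e1 := ((fam_at hF τ hy).1.differentiableAt (by simp)).hasFDerivAt.comp y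
      (hasFDerivAt_prodMk_right (𝕜 := ℝ) τ y)
    have e2 : (ψ ∘ fun y => (τ, y)) =ᶠ[𝓝 y] ball0 l := mem_of_superset hy' he
    have e3 : ∀ a, fderiv ℝ ψ (τ, y) (0, a) = fderiv ℝ (ball0 l) y a := fun a => by
      rw [← e2.fderiv_eq, e1.fderiv]; rfl
    refine hP.common τ y hy _ (fun v hv => lemB h6 hG hx hT hv) (fun a => ?_) v hv
    rw [e3, e3, he y (ball_subset_closedBall hy)]
    exact ((h5.1 r l hr hrad).2 y (ball_subset_closedBall hy)).2.2 a
  · rw [(hP.out τ x hx fun y hy he => hb ⟨y, hy, he⟩).self_of_nhds]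
    exact lemB h6 hG hx hT hv

theorem area_le (h7 : MobStmt) (hc : Continuous om) {Z : Set VV} {a : ℝ} {J' : VV → En0 VV}
    (hT : Tame M om J') {p : VV} {k : ℕ} {U : Fin k → C2 → VV} (hC : Conf M om h Z a J' p k U)
    (i : Fin k) : area om (U i) ≤ a := by
  rw [← hC.aro]
  exact Finset.single_le_sum (f := fun i => area om (U i))
    (fun j _ => ((h7 VV).2.2.2.1 M om J' (U j) hc hT (hC.sph j).1).2.1) (Finset.mem_univ i)

end ConfP

open ConfP

theorem conf_of (h1 : SliceStmt) (h2 : DegStmt) (h3 : ClassStmt) (h4 : BalluseStmt)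
    (h5 : GballStmt) (h6 : GcompStmt) (h7 : MobStmt) : ConfStmt := by
  intro b₀ ε r r₁ L p q O M π om h J₀ ψ J v₀ γ ρs xs hS τ hτ ρ hρ J' hJ k U hC
  have hG := hS.geo
  have hM := hG.real.sub
  have hr : 0 < r := (norm_nonneg _).trans_lt (hS.cen.trans hS.lt)
  have hv₀ : v₀ ∈ closedBall (0 : E6) r := mem_closedBall_zero_iff.2 (hS.cen.trans hS.lt).le
  have hq := abs_le.1 hS.hq
  have hA := area_le h7 hG.amb.smo.continuous hJ.tame hC
  have hout : ∀ x ∈ M, (L : ℝ) + 1 / 2 ≤ |x.2| → ∀ v ∈ tan M x, J' x v = J₀ x v := by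
    intro x hx hT v hv
    rw [hJ.eq x hx (fun hh => absurd hh.2.1 (not_lt.2 hT)) v hv,
      (hS.patch.out τ x hx fun y hy he => ?_).self_of_nhds]
    have := hS.ht τ y (ball_subset_closedBall hy)
    rw [he] at this
    linarith
  have hK : ∀ i v, v ≠ 0 → |(U i v).2| ≤ L + 1 / 2 := by
    intro i v hv
    refine abs_le.2 (confine h1 hM hC (c₁ := -(L + 9 / 10)) (c₄ := L + 9 / 10) (by linarith)
      (by linarith [hq.1]) (by linarith [hq.2]) (by linarith) (fun x hx hb w hw => ?_) i hv)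
    rcases hb with hb | hb
    · rw [hout x hx (le_abs.2 (Or.inr (by linarith [hb.2]))) w hw]
      exact lemB h6 hG hx (far (-L - 1) (by push_cast; linarith [hb.1])
        (by push_cast; linarith [hb.2])) hw
    · rw [hout x hx (le_abs.2 (Or.inl hb.1.le)) w hw]
      exact lemB h6 hG hx (far L (by push_cast; linarith [hb.1])
        (by push_cast; linarith [hb.2])) hw
  have hB := fun i => h4 VV O M π om h J₀ r r₁ ψ J τ J' (U i) hG.amb hS.fam hS.lt hS.patch hJ.tame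
    (fun y hy v hv => hJ.eq _ (hS.fam.mem τ y (closedBall_subset_closedBall hS.lt.le hy))
      (fun hh => hh.2.2 y hy rfl) v hv) (hC.sph i).1 (hC.sph i).2
  obtain ⟨i₁, v₁, hv₁, hp⟩ := hC.hitp
  have hend : ∀ l : ℤ, τ ∉ Ioo (0 : ℝ) 1 → (∀ y ∈ closedBall (0 : E6) r, ψ (τ, y) = ball0 l y) →
      ∀ i v, v ≠ 0 → |(U i v).2 - q| ≤ 1 / 10 := by
    intro l hτ' he i v hv
    have := confine h1 hM hC (c₁ := q - 9 / 10) (c₂ := q - 1 / 10) (c₃ := q + 1 / 10)
      (c₄ := q + 9 / 10) (by linarith) (by linarith) (by linarith) (by linarith)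
      (fun x hx hb w hw => ?_) i hv
    · exact abs_le.2 ⟨by linarith [this.1], by linarith [this.2]⟩
    rw [hJ.eq x hx (fun hh => hτ' hh.1) w hw]
    refine endB h5 h6 hG hS.fam hS.patch hr hS.rad he hx ?_ hw
    rcases hb with hb | hb
    · exact far (q - 1) (by push_cast; linarith [hb.1]) (by push_cast; linarith [hb.2])
    · exact far q hb.1.le hb.2.le
  have hτ0 : τ ≠ 0 := by
    rintro rfl
    have a1 := abs_le.1 (hend p (fun hh => lt_irrefl _ hh.1) hS.e0 i₁ v₁ hv₁)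
    have a2 := hS.path.zero ρ hρ
    have a3 := abs_lt.1 ((h5.1 r p hr hS.rad).2 v₀ hv₀).2.1
    have a4 : (p : ℝ) + 1 ≤ q := by exact_mod_cast hS.pq
    simp only [hS.e0 v₀ hv₀] at a2
    rw [hp] at a1
    linarith [a1.1, a3.2]
  refine ⟨fun i x ⟨v, hv, hx⟩ => hx ▸ ⟨hM ((hC.sph i).1.mem v hv), hK i v hv⟩, ⟨?_, ?_⟩, hτ0,
    ?_, fun hτ1 i => ?_⟩
  · refine lt_of_le_of_ne hρ.1 ?_
    rintro rfl
    have a1 := abs_le.1 (hK i₁ v₁ hv₁)
    rw [hp, hS.path.bot τ hτ] at a1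
    linarith [a1.1]
  · refine lt_of_le_of_ne hρ.2 ?_
    rintro rfl
    have a1 := (hB i₁).1 v₀ hS.cen ⟨v₁, hv₁, by rw [hp, hS.path.top τ hτ]⟩
    linarith [hA i₁, hS.big]
  · rintro rfl
    have a1 := hend q (fun hh => lt_irrefl _ hh.2) hS.e1
    have a2 : γ (1, ρ) = vert (γ (1, ρ)).2 := hS.path.one ρ hρ (hp ▸ a1 i₁ v₁ hv₁)
    have a3 : Conf M om h (ZZ q) (1 - ε) J₀ (vert (γ (1, ρ)).2) k U := by
      refine ⟨fun i => ⟨(hC.sph i).1.congr (fun _ _ => rfl) (hC.sph i).1.mem fun v hv a ha => ?_,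
        (hC.sph i).2⟩, hC.conn, hC.hitZ, ⟨i₁, v₁, hv₁, hp.trans a2⟩, hC.aro, hC.arh⟩
      have hx := (hC.sph i).1.mem v hv
      rw [hJ.eq _ hx (fun hh => lt_irrefl _ hh.1.2) a ha,
        (hS.patch.out 1 _ hx fun y hy he => ?_).self_of_nhds]
      have a4 := abs_lt.1 ((h5.1 r q hr hS.rad).2 y (ball_subset_closedBall hy)).2.1
      rw [← hS.e1 y (ball_subset_closedBall hy), he] at a4
      linarith [a4.1, (abs_le.1 (a1 i v hv)).2]
    obtain ⟨b1, b2, b3⟩ := (h3 q xs hS.root).1 b₀ ε O M π om h J₀ hG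
      (fun x hx he => hS.sub x hx (by rw [he]; linarith [hS.hq])) _ k U a3 a1
    exact ⟨b1, hS.path.uniq ρ hρ b2, b3⟩
  · by_contra hn
    have hU := (hC.sph i).1
    have hc := (hU.inv.isCompact_im hU.sm.continuousOn).2
    have a1 : IsClosed ((fun y => ψ (τ, y)) '' closedBall (0 : E6) r₁) :=
      ((isCompact_closedBall _ _).image_of_continuousOn
        (hS.fam.sm.continuousOn.comp (by fun_prop) fun y hy =>
          ⟨mem_univ _, closedBall_subset_closedBall hS.lt.le hy⟩)).isClosed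
    have a2 : ∀ v, v ≠ 0 → U i v ∉ (fun y => ψ (τ, y)) '' closedBall (0 : E6) r₁ →
        |(U i v).2| = L + 1 / 2 := by
      intro v hv hb
      refine le_antisymm (hK i v hv) (not_lt.1 fun hl => hn ⟨v, hv,
        ⟨lt_of_le_of_ne hτ.1 hτ0.symm, hτ1⟩, hl, fun y hy he => hb ⟨y, hy, he⟩⟩)
    have a3 : ∀ x ∈ (fun y => ψ (τ, y)) '' closedBall (0 : E6) r₁, |x.2| ≤ L := by
      rintro _ ⟨y, hy, rfl⟩
      exact hS.ht τ y (closedBall_subset_closedBall hS.lt.le hy)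
    obtain ⟨w, hw, hw'⟩ := (hB i).2
    have a4 : ∀ v, v ≠ 0 → |(U i v).2| = L + 1 / 2 := by
      have a5 := isPreconnected_iff_subset_of_disjoint_closed.1 hc.isPreconnected _
        {x : VV | |x.2| = L + 1 / 2} a1 (isClosed_eq (by fun_prop) continuous_const)
        (by
          rintro _ ⟨v, hv, rfl⟩
          exact (em _).imp id (a2 v hv))
        (eq_empty_of_forall_notMem fun x hx => by
          have b1 := a3 x hx.2.1
          have b2 : |x.2| = L + 1 / 2 := hx.2.2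
          linarith)
      rcases a5 with a5 | a5
      · obtain ⟨y, hy, he⟩ := a5 ⟨w, hw, rfl⟩
        exact absurd he (hw' y hy)
      · exact fun v hv => a5 ⟨v, hv, rfl⟩
    have hL : (0 : ℝ) ≤ L := Nat.cast_nonneg L
    have a6 : ∃ m : ℤ, ∀ v, v ≠ 0 → (U i v).2 = m + 1 / 2 := by
      have a5 := isPreconnected_iff_subset_of_disjoint_closed.1 hc.isPreconnected
        {x : VV | x.2 = L + 1 / 2} {x : VV | x.2 = -(L + 1 / 2)}
        (isClosed_eq (by fun_prop) continuous_const) (isClosed_eq (by fun_prop) continuous_const)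
        (by
          rintro _ ⟨v, hv, rfl⟩
          exact (abs_eq (by linarith)).1 (a4 v hv))
        (eq_empty_of_forall_notMem fun x hx => by
          have b1 : x.2 = L + 1 / 2 := hx.2.1
          have b2 : x.2 = -(L + 1 / 2) := hx.2.2
          linarith)
      rcases a5 with a5 | a5
      · exact ⟨L, fun v hv => by simpa using a5 ⟨v, hv, rfl⟩⟩
      · exact ⟨-L - 1, fun v hv => by
          have : (U i v).2 = -(L + 1 / 2) := a5 ⟨v, hv, rfl⟩
          push_cast; linarith⟩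
    obtain ⟨m, hm⟩ := a6
    have a7 : IsSph M J₀ (U i) := hU.congr (fun _ _ => rfl) hU.mem fun v hv a ha =>
      (hout _ (hU.mem v hv) (a4 v hv).ge a ha).symm
    have a8 := (h2 b₀ ε O M π om h J₀ hG _ a7).2.2 _ (hC.sph i).2 hm
      (far m (by linarith) (by linarith))
    linarith [hA i, hS.eps]

end Pool.Agent.MP_9758ca_gt

end MrgPart2

-- marker of a merged file
example : 731051 + 34683 = 731051 + 34683 := rfl
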