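import Mathlib.Analysis.Normed.Module.HahnBanach
import Mathlib.Analysis.Calculus.BumpFunction.FiniteDimension
import Mathlib.Combinatorics.SimpleGraph.Basic
import Mathlib.Analysis.Real.Pi.Bounds
import Pool.Agent.MP_9758ca_gt.SpecA
import Pool.Agent.MP_9758ca_gt.h81.Ct

-- ======== part 0: formerly Pool.Agent.MP_9758ca_gt.Cau1
section MrgPart0

/-!
PROJECT BALL: the Cauchy transform of bounded and of weighted functions (`Cau1Stmt`, `Cau2Stmt`);
small energy estimates (`SmallStmt`).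
-/

open scoped Topology ContDiff ComplexConjugate
open Set Metric Filter Complex MeasureTheory

namespace Pool.Agent.MP_9758ca_gt

noncomputable section

namespace CT

variable {F : Type} [NormedAddCommGroup F] [NormedSpace ℂ F]

/-- a power of the norm, restricted to the radii in `t` -/
def rp (t : Set ℝ) (β : ℝ) (u : ℂ) : ℝ := t.indicator (fun y => y ^ (-β)) ‖u‖

theorem rp_nonneg (t : Set ℝ) (β : ℝ) (u : ℂ) : 0 ≤ rp t β u := by
  unfold rp
  by_cases h : ‖u‖ ∈ t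
  · rw [indicator_of_mem h]; positivity
  · rw [indicator_of_notMem h]

theorem rp_of_mem {t : Set ℝ} {β : ℝ} {u : ℂ} (h : ‖u‖ ∈ t) : rp t β u = ‖u‖ ^ (-β) :=
  indicator_of_mem h _

theorem rp_int {t : Set ℝ} (ht : MeasurableSet t) {β : ℝ}
    (h : IntegrableOn (fun y : ℝ => y ^ (1 - β)) (Ioi 0 ∩ t)) :
    Integrable (rp t β) ∧ ∫ u, rp t β u = 2 * Real.pi * ∫ y in Ioi 0 ∩ t, y ^ (1 - β) := by
  have e : EqOn (fun y : ℝ => y ^ (Module.finrank ℝ ℂ - 1) • t.indicator (fun y => y ^ (-β)) y)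
      (t.indicator fun y => y ^ (1 - β)) (Ioi 0) := fun y hy => by
    by_cases h : y ∈ t
    · simp [h, sub_eq_add_neg, Real.rpow_add hy]
    · simp [h]
  refine ⟨(integrable_fun_norm_addHaar volume).2 ?_, ?_⟩
  · rw [integrableOn_congr_fun e measurableSet_Ioi, integrableOn_indicator_iff ht, inter_comm]
    exact h
  · refine (integral_fun_norm_addHaar volume _).trans ?_
    rw [setIntegral_congr_fun measurableSet_Ioi e, setIntegral_indicator ht]
    simp [Measure.real, Complex.volume_ball, mul_assoc]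

theorem rp_in {β ρ : ℝ} (hβ : β < 2) (hρ : 0 < ρ) : Integrable (rp (Iic ρ) β) ∧
    ∫ u, rp (Iic ρ) β u = 2 * Real.pi / (2 - β) * ρ ^ (2 - β) := by
  have h1 : IntegrableOn (fun y : ℝ => y ^ (1 - β)) (Ioi 0 ∩ Iic ρ) :=
    (intervalIntegral.intervalIntegrable_rpow' (a := 0) (b := ρ) (by linarith)).1
  refine ⟨(rp_int measurableSet_Iic h1).1, (rp_int measurableSet_Iic h1).2.trans ?_⟩
  rw [Ioi_inter_Iic, ← intervalIntegral.integral_of_le hρ.le, integral_rpow (Or.inl (by linarith)),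
    Real.zero_rpow (by linarith), show 1 - β + 1 = 2 - β by ring]
  ring

theorem rp_out {β ρ : ℝ} (hβ : 2 < β) (hρ : 0 < ρ) : Integrable (rp (Ioi ρ) β) ∧
    ∫ u, rp (Ioi ρ) β u = 2 * Real.pi / (β - 2) * ρ ^ (2 - β) := by
  have e : Ioi 0 ∩ Ioi ρ = Ioi ρ := inter_eq_right.2 (Ioi_subset_Ioi hρ.le)
  have h1 : IntegrableOn (fun y : ℝ => y ^ (1 - β)) (Ioi 0 ∩ Ioi ρ) := by
    rw [e]; exact integrableOn_Ioi_rpow_of_lt (by linarith) hρ
  refine ⟨(rp_int measurableSet_Ioi h1).1, (rp_int measurableSet_Ioi h1).2.trans ?_⟩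
  rw [e, integral_Ioi_rpow_of_lt (by linarith) hρ, show 1 - β + 1 = 2 - β by ring]
  have : β - 2 ≠ 0 := by linarith
  have : 2 - β ≠ 0 := by linarith
  field_simp
  ring

/-- a majorant of `‖z - w‖ ^ (-β)` on the disc `‖w‖ ≤ R` -/
def ps (β R : ℝ) (z w : ℂ) : ℝ := rp (Iic R) β (z - w) + R ^ (-β) * rp (Iic R) 0 w

theorem ps_nonneg {β R : ℝ} (hR : 0 < R) (z w : ℂ) : 0 ≤ ps β R z w :=
  add_nonneg (rp_nonneg _ _ _) (mul_nonneg (by positivity) (rp_nonneg _ _ _))

theorem le_ps {β R : ℝ} (hβ : 0 ≤ β) (hR : 0 < R) (z : ℂ) {w : ℂ} (hw : ‖w‖ ≤ R) :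
    ‖z - w‖ ^ (-β) ≤ ps β R z w := by
  rw [ps, rp_of_mem (u := w) hw, neg_zero, Real.rpow_zero, mul_one]
  by_cases h : ‖z - w‖ ≤ R
  · rw [rp_of_mem h]; exact le_add_of_nonneg_right (by positivity)
  · exact (Real.rpow_le_rpow_of_nonpos hR (not_le.1 h).le (by linarith)).trans
      (le_add_of_nonneg_left (rp_nonneg _ _ _))

theorem ps_int {β R : ℝ} (hβ : β < 2) (hR : 0 < R) (z : ℂ) : Integrable (ps β R z) ∧
    ∫ w, ps β R z w = (2 * Real.pi / (2 - β) + Real.pi) * R ^ (2 - β) := by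
  have h1 := (rp_in hβ hR).1.comp_sub_left z
  have h2 := (rp_in two_pos hR).1.const_mul (R ^ (-β))
  refine ⟨h1.add h2, (integral_add h1 h2).trans ?_⟩
  rw [integral_sub_left_eq_self, integral_const_mul, (rp_in hβ hR).2, (rp_in two_pos hR).2,
    sub_eq_add_neg 2 β, Real.rpow_add hR, sub_zero]
  ring

theorem norm_ck (u : ℂ) : ‖ck u‖ ≤ ‖u‖ ^ (-1 : ℝ) := by
  rw [ck, norm_inv, norm_mul, mul_inv, Real.rpow_neg_one, norm_real,
    Real.norm_of_nonneg Real.pi_pos.le]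
  exact mul_le_of_le_one_left (by positivity) (inv_le_one_of_one_le₀ (by linarith [Real.pi_gt_three]))

theorem norm_ck_sub {u v : ℂ} (hu : u ≠ 0) (hv : v ≠ 0) :
    ‖ck u - ck v‖ ≤ ‖u - v‖ * ‖u‖⁻¹ * ‖v‖⁻¹ := by
  have hp : (Real.pi : ℂ) ≠ 0 := by simp [Real.pi_ne_zero]
  have e : ck u - ck v = (v - u) * ck u * v⁻¹ := by unfold ck; field_simp
  rw [e, norm_mul, norm_mul, norm_inv, norm_sub_rev, ← Real.rpow_neg_one ‖u‖]
  gcongr
  exact norm_ck u

theorem ae_ne2 (z z' : ℂ) : ∀ᵐ w : ℂ, w ≠ z ∧ w ≠ z' :=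
  (Measure.ae_ne volume z).and (Measure.ae_ne volume z')

theorem meas_ck {g : ℂ → F} (hg : AEStronglyMeasurable g) (z : ℂ) :
    AEStronglyMeasurable fun w => ck (z - w) • g w :=
  ((measurable_const.sub measurable_id).const_mul (Real.pi : ℂ)).inv.aestronglyMeasurable.smul hg

theorem rpow_mul_le {a b s t : ℝ} (ha : 0 < a) (hb : 0 < b) (hs : 0 ≤ s) (ht : 0 ≤ t) :
    a ^ (-s) * b ^ (-t) ≤ a ^ (-(s + t)) + b ^ (-(s + t)) := by
  rw [neg_add, Real.rpow_add ha, Real.rpow_add hb]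
  rcases le_total a b with h | h
  · have := Real.rpow_le_rpow_of_nonpos ha h (neg_nonpos.2 ht)
    exact le_add_of_le_of_nonneg (by gcongr) (by positivity)
  · have := Real.rpow_le_rpow_of_nonpos hb h (neg_nonpos.2 hs)
    exact le_add_of_nonneg_of_le (by positivity) (by gcongr)

/-- integrability for functions with a mild singularity at the origin -/
theorem int_w {g : ℂ → F} {β G R : ℝ} (h0 : 0 ≤ β) (h1 : β < 1) (hR : 0 < R) (hG : 0 ≤ G)
    (hg : AEStronglyMeasurable g) (hb : ∀ w, w ≠ 0 → ‖w‖ ≤ R → ‖g w‖ ≤ G * ‖w‖ ^ (-β))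
    (hz : ∀ w, R < ‖w‖ → g w = 0) (z : ℂ) : Integrable fun w => ck (z - w) • g w := by
  refine Integrable.mono' (((ps_int (β := 1 + β) (by linarith) hR z).1.add
    (rp_in (β := 1 + β) (by linarith) hR).1).const_mul G) (meas_ck hg z) ?_
  filter_upwards [ae_ne2 z 0] with w hw
  by_cases h : R < ‖w‖
  · rw [hz w h, smul_zero, norm_zero]
    exact mul_nonneg hG (add_nonneg (ps_nonneg hR _ _) (rp_nonneg _ _ _))
  push Not at h
  rw [norm_smul, Pi.add_apply, rp_of_mem h]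
  calc _ ≤ ‖z - w‖ ^ (-1 : ℝ) * (G * ‖w‖ ^ (-β)) :=
        mul_le_mul (norm_ck _) (hb w hw.2 h) (norm_nonneg _) (by positivity)
    _ = G * (‖z - w‖ ^ (-1 : ℝ) * ‖w‖ ^ (-β)) := by ring
    _ ≤ G * (‖z - w‖ ^ (-(1 + β)) + ‖w‖ ^ (-(1 + β))) := mul_le_mul_of_nonneg_left
        (rpow_mul_le (norm_pos_iff.2 (sub_ne_zero.2 hw.1.symm)) (norm_pos_iff.2 hw.2) zero_le_one
          h0) hG
    _ ≤ _ := by gcongr; exact le_ps (by linarith) hR z h

theorem hld_pt {a b d : ℝ} (ha : 0 < a) (hb : 0 < b) (hd : 0 ≤ d) (h : d ≤ a + b) :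
    d * a⁻¹ * b⁻¹ ≤ √d * (2 * (a ^ (-(3 / 2) : ℝ) + b ^ (-(3 / 2) : ℝ))) := by
  have h1 : √d ≤ √a + √b := by
    rw [Real.sqrt_le_left (by positivity), add_sq, Real.sq_sqrt ha.le, Real.sq_sqrt hb.le]
    have : 0 ≤ 2 * √a * √b := by positivity
    linarith
  have e : ∀ x : ℝ, 0 < x → √x * x⁻¹ = x ^ (-(1 / 2) : ℝ) := fun x hx => by
    rw [Real.sqrt_eq_rpow, ← Real.rpow_neg_one, ← Real.rpow_add hx]; norm_num
  have h2 := rpow_mul_le (s := 1 / 2) (t := 1) ha hb (by norm_num) zero_le_one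
  have h3 := rpow_mul_le (s := 1) (t := 1 / 2) ha hb zero_le_one (by norm_num)
  rw [← e a ha, Real.rpow_neg_one, show (1 / 2 + 1 : ℝ) = 3 / 2 by norm_num] at h2
  rw [← e b hb, Real.rpow_neg_one, show (1 + 1 / 2 : ℝ) = 3 / 2 by norm_num] at h3
  calc d * a⁻¹ * b⁻¹ = √d * (√d * (a⁻¹ * b⁻¹)) := by rw [← mul_assoc, Real.mul_self_sqrt hd]; ring
    _ ≤ √d * ((√a + √b) * (a⁻¹ * b⁻¹)) := by gcongr
    _ ≤ _ := mul_le_mul_of_nonneg_left (by linarith) (Real.sqrt_nonneg _)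

/-- bounded functions -/
theorem cau_bd [CompleteSpace F] {g : ℂ → F} {R G : ℝ} (hR : 0 < R) (hg : AEStronglyMeasurable g)
    (hb : ∀ w, ‖g w‖ ≤ G) (hz : ∀ w, R < ‖w‖ → g w = 0) :
    (∀ z, Integrable fun w => ck (z - w) • g w) ∧ (∀ z, ‖Tc g z‖ ≤ 80 * R * G) ∧
    Hld (80 * √R * G) (Tc g) univ ∧
    ∀ Ω, IsOpen Ω → (∀ w ∈ Ω, g w = 0) → DifferentiableOn ℂ (Tc g) Ω := by
  have hG : 0 ≤ G := (norm_nonneg _).trans (hb 0)
  have hi := int_w le_rfl one_pos hR hG hg (fun w _ _ => by simpa using hb w) hz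
  have hp := Real.pi_le_four
  refine ⟨hi, fun z => ?_, fun z _ z' _ => ?_, fun Ω hΩ h0 z hz' => ?_⟩
  · obtain ⟨h1, h2⟩ := ps_int (β := 1) one_lt_two hR z
    refine (norm_integral_le_of_norm_le (h1.mul_const G) (Eventually.of_forall fun w => ?_)).trans ?_
    · by_cases h : R < ‖w‖
      · rw [hz w h, smul_zero, norm_zero]; exact mul_nonneg (ps_nonneg hR _ _) hG
      · rw [norm_smul]
        exact mul_le_mul ((norm_ck _).trans (le_ps zero_le_one hR z (not_lt.1 h))) (hb w)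
          (norm_nonneg _) (ps_nonneg hR _ _)
    · rw [integral_mul_const, h2, show (2 - 1 : ℝ) = 1 by norm_num, Real.rpow_one]
      gcongr; linarith
  · obtain ⟨h1, h2⟩ := ps_int (β := 3 / 2) (by norm_num) hR z
    obtain ⟨h3, h4⟩ := ps_int (β := 3 / 2) (by norm_num) hR z'
    refine (congrArg _ (integral_sub (hi z) (hi z')).symm).trans_le ?_
    refine (norm_integral_le_of_norm_le ((((h1.add h3).const_mul 2).const_mul
      √(dist z z')).mul_const G) ?_).trans ?_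
    · filter_upwards [ae_ne2 z z'] with w hw
      have := add_nonneg (ps_nonneg (β := 3 / 2) hR z w) (ps_nonneg (β := 3 / 2) hR z' w)
      rw [← sub_smul, Pi.add_apply]
      by_cases h : R < ‖w‖
      · rw [hz w h, smul_zero, norm_zero]; positivity
      have ha := sub_ne_zero.2 hw.1.symm
      have ha' := sub_ne_zero.2 hw.2.symm
      rw [norm_smul]
      refine mul_le_mul ((norm_ck_sub ha ha').trans ((hld_pt (norm_pos_iff.2 ha)
        (norm_pos_iff.2 ha') (norm_nonneg _) (norm_sub_le _ _)).trans ?_)) (hb w) (norm_nonneg _)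
        (by positivity)
      rw [sub_sub_sub_cancel_right, dist_eq_norm]
      gcongr <;> exact le_ps (by norm_num) hR _ (not_lt.1 h)
    · rw [integral_mul_const, integral_const_mul, integral_const_mul, integral_add' h1 h3, h2, h4,
        show (2 - 3 / 2 : ℝ) = 1 / 2 by norm_num, ← Real.sqrt_eq_rpow]
      have : 0 ≤ √(dist z z') * √R * G := by positivity
      nlinarith
  · obtain ⟨δ, hδ, hs⟩ := Metric.isOpen_iff.1 hΩ z hz'
    have hp0 : (Real.pi : ℂ) ≠ 0 := by simp [Real.pi_ne_zero]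
    have far : ∀ w, g w ≠ 0 → ∀ y ∈ ball z (δ / 2), δ / 2 ≤ ‖y - w‖ := fun w hw y hy => by
      have h1 : δ ≤ dist w z := not_lt.1 fun h => hw (h0 w (hs h))
      have h2 := dist_triangle_left w z y
      rw [mem_ball] at hy
      rw [← dist_eq_norm]; linarith
    have hgi : Integrable g := Integrable.mono' ((rp_in two_pos hR).1.mul_const G) hg
      (Eventually.of_forall fun w => by
        by_cases h : R < ‖w‖
        · rw [hz w h, norm_zero]; exact mul_nonneg (rp_nonneg _ _ _) hG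
        · rw [rp_of_mem (t := Iic R) (not_lt.1 h)]; simpa using hb w)
    refine (hasDerivAt_integral_of_dominated_loc_of_deriv_le (μ := volume)
      (F := fun y w => ck (y - w) • g w) (F' := fun y w => (-Real.pi * ck (y - w) ^ 2) • g w)
      (bound := fun w => 4 * ((δ / 2) ^ (-1 : ℝ)) ^ 2 * ‖g w‖) (ball_mem_nhds z (half_pos hδ))
      (Eventually.of_forall fun y => meas_ck hg y) (hi z) ?_ (Eventually.of_forall fun w y hy => ?_)
      (hgi.norm.const_mul _) (Eventually.of_forall fun w y hy => ?_)).2.differentiableAt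
        |>.differentiableWithinAt
    · exact ((((measurable_const.sub measurable_id).const_mul (Real.pi : ℂ)).inv.pow_const
        2).const_mul _).aestronglyMeasurable.smul hg
    · by_cases hw : g w = 0
      · simp [hw]
      rw [norm_smul, norm_mul, norm_neg, norm_real, Real.norm_of_nonneg Real.pi_pos.le, norm_pow]
      gcongr
      exact (norm_ck _).trans
        (Real.rpow_le_rpow_of_nonpos (half_pos hδ) (far w hw y hy) (by norm_num))
    · by_cases hw : g w = 0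
      · simpa [hw] using hasDerivAt_const y (0 : F)
      have hy' : y - w ≠ 0 := norm_pos_iff.1 ((half_pos hδ).trans_le (far w hw y hy))
      refine HasDerivAt.smul_const (HasDerivAt.congr_deriv ((((hasDerivAt_id y).sub_const w).const_mul
        (Real.pi : ℂ)).inv (mul_ne_zero hp0 hy')) ?_) _
      simp only [ck, id]
      field_simp

/-- the tail of the weighted estimate -/
theorem exists_tail {β : ℝ} (h3 : β ≠ 0) : ∃ c, 0 < c ∧ ∀ d : ℝ, 0 < d →
    ∃ φ : ℂ → ℝ, Integrable φ ∧ (∀ w, 0 ≤ φ w) ∧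
      (∀ w, d < ‖w‖ → ‖w‖ ≤ 1 → ‖w‖ ^ (-(2 + β)) ≤ φ w) ∧ d * ∫ w, φ w ≤ c * (d + d ^ (1 - β)) := by
  have hp := Real.pi_pos
  rcases h3.lt_or_gt with h | h
  · have h4 : 0 < 2 - (2 + β) := by linarith
    refine ⟨2 * Real.pi / (2 - (2 + β)), by positivity, fun d hd => ⟨rp (Iic 1) (2 + β),
      (rp_in (by linarith) one_pos).1, rp_nonneg _ _, fun w _ hw => (rp_of_mem hw).ge, ?_⟩⟩
    rw [(rp_in (by linarith) one_pos).2, Real.one_rpow, mul_one, mul_comm]
    gcongr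
    exact le_add_of_nonneg_right (by positivity)
  · have h4 : 0 < 2 + β - 2 := by linarith
    refine ⟨2 * Real.pi / (2 + β - 2), by positivity, fun d hd => ⟨rp (Ioi d) (2 + β),
      (rp_out (by linarith) hd).1, rp_nonneg _ _, fun w hw _ => (rp_of_mem hw).ge, ?_⟩⟩
    rw [(rp_out (by linarith) hd).2, show 2 - (2 + β) = -β by ring, sub_eq_add_neg 1 β,
      Real.rpow_add hd, Real.rpow_one, mul_left_comm]
    gcongr
    exact le_add_of_nonneg_left hd.le

theorem wt_pt {a b d β : ℝ} (h1 : -1 < β) (ha : 0 < a) (hb : 0 < b) (hd : 0 < d) (t1 : d ≤ a + b)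
    (t2 : a ≤ d + b) (t3 : b ≤ a + d) :
    (b ≤ d ∧ d * a⁻¹ * b⁻¹ * b ^ (-β) ≤ 2 * b ^ (-(1 + β))) ∨
    (a ≤ 3 * d ∧ d * a⁻¹ * b⁻¹ * b ^ (-β) ≤ d * (d / 2) ^ (-(1 + β)) * a ^ (-1 : ℝ)) ∨
    (d < b ∧ d * a⁻¹ * b⁻¹ * b ^ (-β) ≤ 2 * d * b ^ (-(2 + β))) := by
  have e : d * a⁻¹ * b⁻¹ * b ^ (-β) = d * a⁻¹ * b ^ (-(1 + β)) := by
    rw [neg_add, Real.rpow_add hb, Real.rpow_neg_one]; ring
  rw [e]
  rcases le_total b (d / 2) with h | h
  · refine Or.inl ⟨by linarith, mul_le_mul_of_nonneg_right ?_ (by positivity)⟩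
    rw [← div_eq_mul_inv, div_le_iff₀ ha]; linarith
  rcases le_total b (2 * d) with h' | h'
  · refine Or.inr (Or.inl ⟨by linarith, ?_⟩)
    rw [Real.rpow_neg_one, mul_right_comm]
    have := Real.rpow_le_rpow_of_nonpos (by positivity) h (by linarith : -(1 + β) ≤ 0)
    gcongr
  · refine Or.inr (Or.inr ⟨by linarith, ?_⟩)
    rw [show -(2 + β) = -1 + -(1 + β) by ring, Real.rpow_add hb (-1), Real.rpow_neg_one,
      ← mul_assoc]
    gcongr ?_ * _
    rw [mul_right_comm, mul_comm d]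
    gcongr
    rw [← div_eq_mul_inv, inv_eq_one_div, div_le_div_iff₀ ha hb]; linarith

/-- functions with a weight -/
theorem cau_wt {β : ℝ} (h1 : -1 < β) (h2 : β < 1) (h3 : β ≠ 0) : ∃ C : ℝ, 0 < C ∧
    ∀ (F : Type) [NormedAddCommGroup F] [NormedSpace ℂ F] [CompleteSpace F] (g : ℂ → F) (G : ℝ),
    AEStronglyMeasurable g volume → (∀ w, w ≠ 0 → ‖g w‖ ≤ G * ‖w‖ ^ (-β)) →
    (∀ w, 1 < ‖w‖ → g w = 0) →
    (∀ z, Integrable fun w => ck (z - w) • g w) ∧ ‖Tc g 0‖ ≤ C * G ∧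
    ∀ z, ‖z‖ ≤ 1 → ‖Tc g z - Tc g 0‖ ≤ C * G * (‖z‖ + ‖z‖ ^ (1 - β)) := by
  obtain ⟨c, hc, hφ⟩ := exists_tail h3
  have hp := Real.pi_pos
  have h4 : 0 < 2 - (1 + β) := by linarith
  set A := 2 * Real.pi / (2 - (1 + β)) with hA
  have hA0 : 0 < A := by positivity
  refine ⟨2 * A + 96 + 2 * c, by positivity, fun F _ _ _ g G hg hb hz => ?_⟩
  have hG : 0 ≤ G := by simpa using (norm_nonneg _).trans (hb 1 one_ne_zero)
  have hi := int_w (abs_nonneg β) (abs_lt.2 ⟨h1, h2⟩) one_pos hG hg (fun w hw hw1 =>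
    (hb w hw).trans (mul_le_mul_of_nonneg_left (Real.rpow_le_rpow_of_exponent_ge
      (norm_pos_iff.2 hw) hw1 (neg_le_neg (le_abs_self β))) hG)) hz
  refine ⟨hi, ?_, fun z _ => ?_⟩
  · obtain ⟨e1, e2⟩ := rp_in (β := 1 + β) (by linarith) one_pos
    refine (norm_integral_le_of_norm_le (e1.mul_const G) ?_).trans ?_
    · filter_upwards [ae_ne2 0 0] with w hw
      by_cases h : 1 < ‖w‖
      · rw [hz w h, smul_zero, norm_zero]; exact mul_nonneg (rp_nonneg _ _ _) hG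
      rw [norm_smul, rp_of_mem (t := Iic 1) (not_lt.1 h), neg_add,
        Real.rpow_add (norm_pos_iff.2 hw.1), mul_assoc, mul_comm _ G]
      exact mul_le_mul ((norm_ck (0 - w)).trans (by rw [zero_sub, norm_neg])) (hb w hw.1) (norm_nonneg _) (by positivity)
    · rw [integral_mul_const, e2, Real.one_rpow, mul_one]
      gcongr; linarith
  by_cases hz0 : z = 0
  · rw [hz0, sub_self, norm_zero, norm_zero]; positivity
  have hd : 0 < ‖z‖ := norm_pos_iff.2 hz0
  obtain ⟨φ, p1, p2, p3, p4⟩ := hφ _ hd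
  obtain ⟨e1, e2⟩ := rp_in (β := 1 + β) (by linarith) hd
  obtain ⟨e3, e4⟩ := rp_in one_lt_two (by positivity : 0 < 3 * ‖z‖)
  have i1 := e1.const_mul 2
  have i2 := (e3.comp_sub_left z).const_mul (‖z‖ * (‖z‖ / 2) ^ (-(1 + β)))
  have i3 := p1.const_mul (2 * ‖z‖)
  refine (congrArg _ (integral_sub (hi z) (hi 0)).symm).trans_le ?_
  refine (norm_integral_le_of_norm_le (((i1.add i2).add i3).const_mul G) ?_).trans ?_
  · filter_upwards [ae_ne2 z 0] with w hw
    have n1 : 0 ≤ 2 * rp (Iic ‖z‖) (1 + β) w := mul_nonneg zero_le_two (rp_nonneg _ _ _)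
    have n2 : 0 ≤ ‖z‖ * (‖z‖ / 2) ^ (-(1 + β)) * rp (Iic (3 * ‖z‖)) 1 (z - w) :=
      mul_nonneg (by positivity) (rp_nonneg _ _ _)
    have n3 : 0 ≤ 2 * ‖z‖ * φ w := mul_nonneg (by positivity) (p2 w)
    rw [← sub_smul, Pi.add_apply, Pi.add_apply]
    by_cases h : 1 < ‖w‖
    · rw [hz w h, smul_zero, norm_zero]; positivity
    have ha := sub_ne_zero.2 hw.1.symm
    have := norm_ck_sub ha (sub_ne_zero.2 hw.2.symm)
    rw [sub_sub_sub_cancel_right, sub_zero, zero_sub, norm_neg] at this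
    rw [norm_smul, zero_sub]
    refine (mul_le_mul this (hb w hw.2) (norm_nonneg _) (by positivity)).trans ?_
    rw [mul_left_comm]
    refine mul_le_mul_of_nonneg_left ?_ hG
    rcases wt_pt h1 (norm_pos_iff.2 ha) (norm_pos_iff.2 hw.2) hd
      (by simpa using norm_add_le (z - w) w) (norm_sub_le _ _)
      (by simpa using norm_sub_le (z - w) z) with ⟨k1, k2⟩ | ⟨k1, k2⟩ | ⟨k1, k2⟩
    · rw [← rp_of_mem (t := Iic ‖z‖) (β := 1 + β) k1] at k2; linarith
    · rw [← rp_of_mem (t := Iic (3 * ‖z‖)) (β := 1) k1] at k2; linarith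
    · have := mul_le_mul_of_nonneg_left (p3 w k1 (not_lt.1 h)) (by positivity : 0 ≤ 2 * ‖z‖)
      linarith
  · rw [integral_const_mul, integral_add' (i1.add i2) i3, integral_add' i1 i2, integral_const_mul,
      integral_const_mul, integral_const_mul, integral_sub_left_eq_self, e2, e4, ← hA,
      show 2 - (1 + β) = 1 - β by ring, show (2 - 1 : ℝ) = 1 by norm_num, Real.rpow_one,
      mul_comm _ G, mul_assoc G]
    refine mul_le_mul_of_nonneg_left ?_ hG
    have k1 : (‖z‖ / 2) ^ (-(1 + β)) ≤ 4 * ‖z‖ ^ (-(1 + β)) := by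
      rw [Real.div_rpow hd.le zero_le_two, div_eq_mul_inv, ← Real.rpow_neg zero_le_two, neg_neg,
        mul_comm]
      gcongr
      exact (Real.rpow_le_rpow_of_exponent_le one_le_two (by linarith : 1 + β ≤ 2)).trans
        (by norm_num)
    have k2 : ‖z‖ * ‖z‖ ^ (-(1 + β)) * ‖z‖ = ‖z‖ ^ (1 - β) := by
      rw [show 1 - β = 1 + -(1 + β) + 1 by ring, Real.rpow_add hd, Real.rpow_add hd, Real.rpow_one]
    have k3 : ‖z‖ * (‖z‖ / 2) ^ (-(1 + β)) * (2 * Real.pi / 1 * (3 * ‖z‖)) ≤ 96 * ‖z‖ ^ (1 - β) := by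
      rw [← k2]
      calc _ ≤ ‖z‖ * (4 * ‖z‖ ^ (-(1 + β))) * (2 * 4 / 1 * (3 * ‖z‖)) := by
            gcongr; exact Real.pi_le_four
        _ = _ := by ring
    have k4 : 0 ≤ ‖z‖ ^ (1 - β) := by positivity
    nlinarith [mul_pos hA0 hd]

section Real
variable {V : Type} [NormedAddCommGroup V] [NormedSpace ℝ V]

theorem fderiv_out {w : ℂ → V} {c : ℂ} {ρ : ℝ} (h0 : ∀ z, ρ < ‖z - c‖ → w z = 0) {z : ℂ}
    (hz : ρ < ‖z - c‖) : fderiv ℝ w z = 0 := by
  have : w =ᶠ[𝓝 z] fun _ => 0 := by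
    filter_upwards [(isOpen_lt continuous_const (by fun_prop : Continuous fun z : ℂ => ‖z - c‖)).mem_nhds
      hz] with v hv using h0 v hv
  rw [this.fderiv_eq]; simp

omit [NormedSpace ℝ V] in
theorem norm_le_of_hld {f : ℂ → V} {c : ℂ} {ρ C : ℝ} (hρ : 0 < ρ) (hC : 0 ≤ C)
    (h0 : ∀ z, ρ < ‖z - c‖ → f z = 0) (hH : Hld C f univ) (z : ℂ) : ‖f z‖ ≤ C * (2 * √ρ) := by
  by_cases hz : ρ < ‖z - c‖
  · rw [h0 z hz, norm_zero]; positivity
  have h1 : ‖c + (2 * ρ : ℝ) - c‖ = 2 * ρ := by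
    rw [add_sub_cancel_left, norm_real, Real.norm_of_nonneg (by positivity)]
  have h2 := hH z trivial (c + (2 * ρ : ℝ)) trivial
  rw [h0 (c + (2 * ρ : ℝ)) (by linarith), sub_zero] at h2
  refine h2.trans (mul_le_mul_of_nonneg_left ?_ hC)
  rw [Real.sqrt_le_left (by positivity), mul_pow, Real.sq_sqrt hρ.le, dist_eq_norm]
  have := norm_sub_le_norm_sub_add_norm_sub z c (c + (2 * ρ : ℝ))
  rw [norm_sub_rev c, h1] at this
  linarith

end Real

/-- cut-off functions at the scale `1 / l` -/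
theorem exists_chi : ∃ M, 0 ≤ M ∧ ∀ l : ℝ, 0 < l → ∃ χ : ℂ → ℝ, ContDiff ℝ 1 χ ∧
    (χ =ᶠ[𝓝 0] fun _ => 0) ∧ (∀ u, 2 / l < ‖u‖ → χ =ᶠ[𝓝 u] fun _ => 1) ∧
    ∀ u, |χ u| ≤ 2 ∧ ‖fderiv ℝ χ u‖ ≤ l * M := by
  have hb : ContDiff ℝ 1 fun u : ℂ => ph (‖u‖ ^ 2) :=
    (contDiff_ph.of_le (by simp)).comp (contDiff_norm_sq ℝ)
  have hc : HasCompactSupport fun u : ℂ => ph (‖u‖ ^ 2) :=
    hcs_of (r := 2) fun u hu => ph_zero (by nlinarith)
  obtain ⟨M, hM⟩ := (hc.fderiv ℝ).exists_bound_of_continuous (hb.continuous_fderiv one_ne_zero)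
  have hn : ∀ (l : ℝ) (u : ℂ), ‖l • u‖ ^ 2 = l ^ 2 * ‖u‖ ^ 2 := fun l u => by
    rw [norm_smul, Real.norm_eq_abs, mul_pow, sq_abs]
  refine ⟨M, (norm_nonneg _).trans (hM 0), fun l hl => ⟨fun u => 1 - ph (‖l • u‖ ^ 2),
    contDiff_const.sub (hb.comp (contDiff_id.const_smul l)), ?_, fun u hu => ?_, fun u => ⟨?_, ?_⟩⟩⟩
  · filter_upwards [(isOpen_lt (by fun_prop : Continuous fun u : ℂ => ‖l • u‖ ^ 2)
      continuous_const).mem_nhds (by simp : (0 : ℂ) ∈ {u : ℂ | ‖l • u‖ ^ 2 < 1})] with u hu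
    rw [ph_one (le_of_lt hu), sub_self]
  · filter_upwards [(isOpen_lt continuous_const continuous_norm).mem_nhds hu] with v hv
    rw [hn, ph_zero (sq_big hl hv).le, sub_zero]
  · have := abs_ph (‖l • u‖ ^ 2)
    exact (abs_sub _ _).trans (by rw [abs_one]; linarith)
  · have h := (((hb.differentiable one_ne_zero (l • u)).hasFDerivAt.comp u
      ((hasFDerivAt_id u).const_smul l)).const_sub 1).fderiv
    refine (congrArg _ h).trans_le ?_
    rw [norm_neg, ContinuousLinearMap.comp_smul, ContinuousLinearMap.comp_id, norm_smul,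
      Real.norm_of_nonneg hl.le]
    exact mul_le_mul_of_nonneg_left (hM _) hl.le

/-- Cauchy-Pompeiu formula with a mild singularity at the origin -/
theorem cau_sing [CompleteSpace F] {w : ℂ → F} {β G R : ℝ} (h0 : 0 ≤ β) (h1 : β < 1)
    (hw : ContDiffOn ℝ 1 w {z | z ≠ 0}) (hz : ∀ z, R < ‖z‖ → w z = 0)
    (hb : ∀ z, z ≠ 0 → ‖w z‖ ≤ G * ‖z‖ ^ (-β) ∧ ‖dbar w z‖ ≤ G * ‖z‖ ^ (-β)) {z : ℂ}
    (hz0 : z ≠ 0) : w z = Tc (dbar w) z := by
  obtain ⟨M, hM, hχ⟩ := exists_chi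
  choose! χ c1 c2 c3 c4 using hχ
  have hG : 0 ≤ G := by simpa using (norm_nonneg _).trans (hb 1 one_ne_zero).1
  have hd : 0 < ‖z‖ := norm_pos_iff.2 hz0
  have hwa : ∀ u, u ≠ 0 → ContDiffAt ℝ 1 w u := fun u hu =>
    hw.contDiffAt (isOpen_ne.mem_nhds hu)
  have hm : AEStronglyMeasurable (dbar w) := by
    rw [← restrict_compl_singleton (μ := volume) (0 : ℂ)]
    refine ContinuousOn.aestronglyMeasurable (fun u hu => ContinuousAt.continuousWithinAt ?_)
      (measurableSet_singleton _).compl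
    have := (hwa u hu).continuousAt_fderiv one_ne_zero
    unfold dbar
    fun_prop
  have hi := int_w h0 h1 (by positivity : 0 < |R| + 1) hG hm (fun u hu _ => (hb u hu).2)
    (fun u hu => by
      simp [dbar, fderiv_out (c := 0) (ρ := R) (by simpa using hz) (z := u)
        (by rw [sub_zero]; linarith [le_abs_self R])]) z
  have hs : ∀ l, 0 < l → ContDiff ℝ 1 fun u => χ l u • w u := fun l hl =>
    contDiff_iff_contDiffAt.2 fun u => by
      by_cases hu : u = 0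
      · refine (contDiffAt_const (c := (0 : F))).congr_of_eventuallyEq ?_
        filter_upwards [hu ▸ c2 l hl] with v hv
        rw [hv, zero_smul]
      · exact (c1 l hl).contDiffAt.smul (hwa u hu)
  have he : ∀ u, u ≠ 0 → ∀ᶠ l in atTop, (fun v => χ l v • w v) =ᶠ[𝓝 u] w := fun u hu => by
    have hp := norm_pos_iff.2 hu
    filter_upwards [eventually_gt_atTop (2 / ‖u‖)] with l hl
    have hl0 : 0 < l := lt_trans (by positivity) hl
    filter_upwards [c3 l hl0 u (by rwa [div_lt_iff₀ hl0, mul_comm, ← div_lt_iff₀ hp])] with v hv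
    rw [hv, one_smul]
  have key := tendsto_integral_filter_of_dominated_convergence (μ := volume) (l := atTop)
    (F := fun (l : ℝ) u => ck (z - u) • dbar (fun v => χ l v • w v) u)
    (f := fun u => ck (z - u) • dbar w u)
    (fun u => 2 * ‖ck (z - u) • dbar w u‖ + 4 / ‖z‖ * M * G * rp (Iic ‖z‖) (1 + β) u) ?_ ?_
    ((hi.norm.const_mul 2).add ((rp_in (by linarith) hd).1.const_mul _)) ?_
  · refine tendsto_nhds_unique (tendsto_const_nhds.congr' ?_) key
    filter_upwards [eventually_gt_atTop 0, he z hz0] with l hl h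
    exact h.eq_of_nhds.symm.trans
      (Tc_dbar (hs l hl) (hcs_of (r := R) fun u hu => by rw [hz u hu, smul_zero]) z).symm
  · filter_upwards [eventually_gt_atTop 0] with l hl
    have := (hs l hl).continuous_fderiv one_ne_zero
    exact meas_ck (by unfold dbar; fun_prop : Continuous _).aestronglyMeasurable z
  · filter_upwards [eventually_ge_atTop (4 / ‖z‖)] with l hl
    have hl0 : 0 < l := lt_of_lt_of_le (by positivity) hl
    filter_upwards [ae_ne2 0 0] with u hu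
    have hp := norm_pos_iff.2 hu.1
    have hD := (((c1 l hl0).differentiable one_ne_zero u).hasFDerivAt.smul
      ((hwa u hu.1).differentiableAt one_ne_zero).hasFDerivAt).fderiv
    have e : dbar (fun v => χ l v • w v) u = χ l u • dbar w u +
        (2⁻¹ : ℂ) • (fderiv ℝ (χ l) u 1 • w u + I • fderiv ℝ (χ l) u I • w u) := by
      unfold dbar
      rw [show fderiv ℝ (fun v => χ l v • w v) u = _ from hD]
      simp only [add_apply, smul_apply, ContinuousLinearMap.smulRight_apply, smul_add,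
        smul_comm (χ l u)]
      abel
    rw [e, smul_add, smul_comm _ (χ l u)]
    refine (norm_add_le _ _).trans (add_le_add (by
      rw [norm_smul]; exact mul_le_mul_of_nonneg_right (c4 l hl0 u).1 (norm_nonneg _)) ?_)
    by_cases h : 2 / l < ‖u‖
    · have := rp_nonneg (Iic ‖z‖) (1 + β) u
      simp only [(c3 l hl0 u h).fderiv_eq, fderiv_fun_const, Pi.zero_apply, zero_apply, zero_smul,
        smul_zero, add_zero, norm_zero]
      positivity
    rw [not_lt, le_div_iff₀ hl0] at h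
    rw [div_le_iff₀ hd] at hl
    have h2 : ‖u‖ ≤ ‖z‖ / 2 := by nlinarith
    have h3 : ‖ck (z - u)‖ ≤ 2 / ‖z‖ := (norm_ck _).trans ((Real.rpow_le_rpow_of_nonpos
      (half_pos hd) (by linarith [norm_sub_norm_le z u]) (by norm_num)).trans
        (by rw [Real.rpow_neg_one, inv_div]))
    have h4 : ∀ a : ℂ, ‖a‖ = 1 → ‖fderiv ℝ (χ l) u a • w u‖ ≤ 2 * ‖u‖⁻¹ * M * (G * ‖u‖ ^ (-β)) :=
      fun a ha => by
        rw [norm_smul]
        refine mul_le_mul ((ContinuousLinearMap.le_opNorm _ _).trans ?_) (hb u hu.1).1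
          (norm_nonneg _) (by positivity)
        rw [ha, mul_one]
        refine (c4 l hl0 u).2.trans (mul_le_mul_of_nonneg_right ?_ hM)
        rwa [← div_eq_mul_inv, le_div_iff₀ hp, mul_comm]
    have h5 := (norm_add_le _ (I • fderiv ℝ (χ l) u I • w u)).trans (add_le_add (h4 1 norm_one)
      ((by rw [norm_smul, norm_I, one_mul] : _ = _).trans_le (h4 I norm_I)))
    rw [norm_smul, norm_smul, rp_of_mem (t := Iic ‖z‖) (by rw [mem_Iic]; linarith), neg_add,
      Real.rpow_add hp, Real.rpow_neg_one, show ‖(2⁻¹ : ℂ)‖ = 2⁻¹ by simp]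
    refine (mul_le_mul h3 (mul_le_mul_of_nonneg_left h5 (by norm_num)) (by positivity)
      (by positivity)).trans (le_of_eq (by ring))
  · filter_upwards [ae_ne2 0 0] with u hu
    refine tendsto_const_nhds.congr' ?_
    filter_upwards [he u hu.1] with l hl
    simp only [dbar, hl.fderiv_eq]

end CT

open CT

theorem cau1 : Cau1Stmt :=
  ⟨⟨80, by norm_num, fun _ _ _ _ _ _ _ hR hg hb hz => cau_bd hR hg hb hz⟩,
    fun _ h1 h2 h3 => cau_wt h1 h2 h3,
    fun _ _ _ _ _ _ _ _ h0 h1 hw hz hb _ hz0 => cau_sing h0 h1 hw hz hb hz0⟩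

theorem cau2 : Cau2Stmt := by
  obtain ⟨K, hK0, hK⟩ := exists_K'
  refine ⟨3 * K, by positivity, fun F _ _ _ g R G hR hH hz => ?_⟩
  have hG : 0 ≤ G := by simpa using (norm_nonneg _).trans (hH 0 trivial 1 trivial)
  have hz' : ∀ w, R < ‖w - 0‖ → g w = 0 := by simpa using hz
  obtain ⟨h1, h2⟩ := (hK F g 0 R _ hR (norm_le_of_hld hR hG hz' hH) hz').2 G hG hH
  exact ⟨contDiff_Tc hG hH (hcs_of hz), dbar_Tc hG hH (hcs_of hz),
    h1.mono (by nlinarith) Subset.rfl, fun z => (h2 z).trans (le_of_eq (by ring))⟩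

theorem cau2_of (_ : Cau1Stmt) : Cau2Stmt := cau2

end

/-! ### small energy estimates, removal of singularities for finite energy -/

namespace SmallP

variable {V : Type} [NormedAddCommGroup V] [NormedSpace ℝ V]

theorem near_mono {J : V → En0 V} {K : Set V} {u : ℂ → V} {L L' : Set ℂ} (h : HolNear J K u L)
    (hL : L' ⊆ L) : HolNear J K u L' :=
  let ⟨N, h1, h2, h3⟩ := h
  ⟨N, h1, hL.trans h2, h3⟩

theorem near_int {J : V → En0 V} {K : Set V} {u : ℂ → V} {L : Set ℂ} (h : HolNear J K u L)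
    (hL : IsCompact L) : IntegrableOn (fun z => ‖fderiv ℝ u z‖ ^ 2) L := by
  obtain ⟨N, h1, h2, h3, -⟩ := h
  exact (((h3.sm.continuousOn_fderiv_of_isOpen h1 one_le_two).mono h2).norm.pow 2).integrableOn_compact
    hL

theorem en_mono {J : V → En0 V} {K : Set V} {u : ℂ → V} {L L' : Set ℂ} (h : HolNear J K u L)
    (hL : IsCompact L) (hs : L' ⊆ L) : En u L' ≤ En u L :=
  setIntegral_mono_set (near_int h hL) (Eventually.of_forall fun _ => by positivity) hs.eventuallyLE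

/-- small energy gives a small gradient -/
theorem small_disc [FiniteDimensional ℝ V] (h1 : ApriStmt) (R Λ : ℝ) {δ : ℝ} (hδ : 0 < δ) :
    ∃ hb > (0 : ℝ), ∃ C : ℝ, ∀ (K : Set V) (J : V → En0 V), UB R Λ K J →
      ∀ (u : ℂ → V) (z : ℂ) (r : ℝ), 0 < r → HolNear J K u (closedBall z r) →
      En u (closedBall z r) ≤ hb →
      r * ‖fderiv ℝ u z‖ ≤ C * En u (closedBall z r) ^ (6⁻¹ : ℝ) ∧ r * ‖fderiv ℝ u z‖ ≤ δ := by
  obtain ⟨hb, h0, C, hC⟩ := (h1 V).2.2 R Λ
  have hp : 0 < δ / (|C| + 1) := by positivity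
  refine ⟨min hb ((δ / (|C| + 1)) ^ 6), by positivity, C, fun K J hJ u z r hr hu hE => ?_⟩
  have h2 := hC K J hJ u z r hr hu (hE.trans (min_le_left _ _))
  have hE0 : 0 ≤ En u (closedBall z r) := integral_nonneg fun _ => by positivity
  have h3 : En u (closedBall z r) ^ (6⁻¹ : ℝ) ≤ δ / (|C| + 1) := by
    rw [Real.rpow_inv_le_iff_of_pos hE0 hp.le (by norm_num)]
    exact_mod_cast hE.trans (min_le_right _ _)
  refine ⟨h2, h2.trans ?_⟩
  rw [le_div_iff₀ (by positivity)] at h3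
  nlinarith [le_abs_self C, Real.rpow_nonneg hE0 (6⁻¹ : ℝ)]

theorem half_disc {w z y : ℂ} (hy : y ∈ closedBall w (‖w - z‖ / 2)) :
    ‖w - z‖ / 2 ≤ dist y z ∧ dist y z ≤ 3 * ‖w - z‖ / 2 := by
  rw [← dist_eq_norm, mem_closedBall] at *
  constructor <;> linarith [dist_triangle y w z, dist_triangle_left w z y]

theorem part1 [FiniteDimensional ℝ V] (h1 : ApriStmt) (h2 : NeckStmt) {O M K : Set V} {om : F2 V}
    (R Λ c : ℝ) (h : Env0 O M K om) :
    ∃ hb > (0 : ℝ), Eps1 M K om R Λ c hb ∧ Neck1 M K om R Λ c hb := by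
  obtain ⟨δ, hδ, γ, hγ, C, hC⟩ := h2 V O M K om R Λ c h
  obtain ⟨hb, h0, C', hC'⟩ := small_disc (V := V) h1 R Λ (half_pos hδ)
  refine ⟨hb, h0, ⟨C', fun J hJ u z r hr hu hE => (hC' K J hJ.ub u z r hr hu hE).1⟩,
    γ, hγ, C * 2 ^ γ, fun J hJ u z a b ha hu hE w w1 w2 => ?_⟩
  have hb0 : 0 < b := by linarith
  have key := hC J hJ u z (2 * a) (b / 2) (by positivity)
    (near_mono hu (sdiff_subset_sdiff (closedBall_subset_closedBall (by linarith))
      (ball_subset_ball (by linarith)))) (fun y y1 y2 => by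
      have hs : closedBall y (‖y - z‖ / 2) ⊆ closedBall z b \ ball z a := fun x hx =>
        ⟨mem_closedBall.2 (by linarith [(half_disc hx).2]),
          fun h => by linarith [(half_disc hx).1, mem_ball.1 h]⟩
      have := (hC' K J hJ.ub u y _ (by linarith) (near_mono hu hs)
        ((en_mono hu ((isCompact_closedBall z b).diff isOpen_ball) hs).trans hE)).2
      linarith) w (by linarith) (by linarith)
  have hw : 0 < ‖w - z‖ := by linarith
  rw [mul_div_assoc, div_div_eq_mul_div, mul_comm ‖w - z‖ 2, mul_div_assoc,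
    Real.mul_rpow zero_le_two (by positivity), Real.mul_rpow zero_le_two (by positivity)] at key
  exact key.trans_eq (by ring)

theorem part2 [FiniteDimensional ℝ V] (h1 : ApriStmt) (h3 : RemStmt) {O M K : Set V} {om : F2 V}
    {R Λ c : ℝ} (h : Env0 O M K om) {J : V → En0 V} (hJ : EnvJ M K om R Λ c J) {u : ℂ → V} {z : ℂ}
    {r E₀ : ℝ} (hr : 0 < r) (hu : IsHol J u (ball z r \ {z})) (hm : MapsTo u (ball z r \ {z}) K)
    (hE : ∀ L, IsCompact L → L ⊆ ball z r \ {z} → En u L ≤ E₀) :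
    ∃ x ∈ K, IsHol J (Function.update u z x) (ball z r) := by
  obtain ⟨δ, hδ, hR⟩ := h3 V O M K om R Λ c h
  obtain ⟨hb, h0, C, hC⟩ := small_disc (V := V) h1 R Λ (half_pos hδ)
  have ho : IsOpen (ball z r \ {z}) := isOpen_ball.sdiff isClosed_singleton
  have hn : ∀ L, L ⊆ ball z r \ {z} → HolNear J K u L := fun L hL => ⟨_, ho, hL, hu, hm⟩
  set S := {e | ∃ L, IsCompact L ∧ L ⊆ ball z r \ {z} ∧ e = En u L}
  have hS : BddAbove S := ⟨E₀, fun e ⟨L, l1, l2, l3⟩ => l3 ▸ hE L l1 l2⟩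
  obtain ⟨_, ⟨L, l1, l2, rfl⟩, l3⟩ := exists_lt_of_lt_csSup (s := S)
    ⟨_, ∅, isCompact_empty, empty_subset _, rfl⟩ (sub_lt_self _ h0)
  obtain ⟨e, he, hs⟩ := Metric.mem_nhds_iff.1 (inter_mem (ball_mem_nhds z hr)
    (l1.isClosed.isOpen_compl.mem_nhds fun hz => (l2 hz).2 rfl))
  have s1 : ball z (e / 2) ⊆ ball z r := fun y hy => (hs (ball_subset_ball (by linarith) hy)).1
  have s2 : ball z (e / 2) \ {z} ⊆ ball z r \ {z} := sdiff_subset_sdiff_left s1
  obtain ⟨x, hx, hh⟩ := hR J hJ u z (e / 2) (half_pos he)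
    ⟨hu.sm.mono s2, fun y hy => hu.cr y (s2 hy)⟩ (hm.mono_left s2) fun w hw => by
      have w0 : 0 < ‖w - z‖ := norm_pos_iff.2 (sub_ne_zero.2 hw.2)
      have w1 := mem_ball_iff_norm.1 hw.1
      have d1 : closedBall w (‖w - z‖ / 2) ⊆ ball z r ∩ Lᶜ := fun y hy =>
        hs (mem_ball.2 (by linarith [(half_disc hy).2]))
      have d2 : closedBall w (‖w - z‖ / 2) ⊆ ball z r \ {z} := fun y hy => ⟨(d1 hy).1, fun h => by
        have := (half_disc hy).1
        rw [mem_singleton_iff.1 h, dist_self] at this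
        linarith⟩
      have e1 : En u (closedBall w (‖w - z‖ / 2) ∪ L) = En u (closedBall w (‖w - z‖ / 2)) + En u L :=
        setIntegral_union (disjoint_left.2 fun y hy => (d1 hy).2) l1.measurableSet
          (near_int (hn _ d2) (isCompact_closedBall _ _)) (near_int (hn _ l2) l1)
      have e2 := le_csSup hS ⟨_, (isCompact_closedBall _ _).union l1, union_subset d2 l2, rfl⟩
      have := (hC K J hJ.ub u w _ (half_pos w0) (hn _ d2) (by linarith)).2
      linarith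
  have ev : ∀ y, y ≠ z → Function.update u z x =ᶠ[𝓝 y] u := fun y hy =>
    (eventually_ne_nhds hy).mono fun v hv => Function.update_of_ne hv _ _
  refine ⟨x, hx, fun y hy => ContDiffAt.contDiffWithinAt ?_, fun y hy => ?_⟩
  · by_cases hz : y = z
    · exact hh.sm.contDiffAt (hz ▸ ball_mem_nhds _ (half_pos he))
    · exact (hu.sm.contDiffAt (ho.mem_nhds ⟨hy, hz⟩)).congr_of_eventuallyEq (ev y hz)
  · by_cases hz : y = z
    · exact hh.cr y (hz ▸ mem_ball_self (half_pos he))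
    · rw [(ev y hz).fderiv_eq, (ev y hz).eq_of_nhds]; exact hu.cr y ⟨hy, hz⟩

end SmallP

open SmallP

theorem small_of (h1 : ApriStmt) (h2 : NeckStmt) (h3 : RemStmt) (h4 : MobStmt) : SmallStmt := by
  intro V _ _ _ O M K om R Λ c h
  refine ⟨part1 h1 h2 R Λ c h, fun J hJ u z r E₀ => part2 h1 h3 h hJ, fun J hJ u E₀ hu hm hE => ?_⟩
  have ho : IsOpen (ball (0 : ℂ) 1 \ {0}) := isOpen_ball.sdiff isClosed_singleton
  obtain ⟨x, hx, hh⟩ := part2 h1 h3 h hJ (u := u ∘ fun w => w⁻¹) (E₀ := E₀) one_pos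
    (hu.comp isOpen_univ ho (fun z _ => hJ.ub.sq _ (hm trivial))
      (fun w hw => (differentiableAt_inv hw.2).differentiableWithinAt) (mapsTo_univ _ _))
    (fun w _ => hm trivial) fun L l1 l2 => by
      rw [← ((h4 V).2.1 u _ L l1.measurableSet (fun w hw => differentiableAt_inv (l2 hw).2)
        inv_injective.injOn fun w _ =>
          (hu.sm.contDiffAt univ_mem).differentiableAt two_ne_zero).1]
      exact hE _ (l1.image_of_continuousOn fun w hw =>
        (continuousAt_inv₀ (l2 hw).2).continuousWithinAt)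
  obtain ⟨U, h5, h6, -⟩ := (h4 V).2.2.2.2.2 K J u _ 1 one_pos hJ.ub.sq hu hm hh (by simpa using hx)
    fun w _ hw => Function.update_of_ne hw _ _
  exact ⟨U, h5, h6⟩

end Pool.Agent.MP_9758ca_gt

end MrgPart0

-- ======== part 1: formerly Pool.Agent.MP_9758ca_gt.Schl
section MrgPart1

/-!
PROJECT BALL: Schauder estimates for the Cauchy-Riemann operator with variable coefficients,
elliptic regularity and a priori estimates (`SchlStmt`, `RegStmt`, `ApriStmt`).
-/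

open scoped Topology ContDiff ComplexConjugate
open Set Metric Filter Complex MeasureTheory

namespace Pool.Agent.MP_9758ca_gt

namespace CT

noncomputable section

variable {V : Type} [NormedAddCommGroup V] [NormedSpace ℝ V]

/-- the Cauchy-Riemann operator with coefficients `A` -/
def cr (A : ℂ → En0 V) (w : ℂ → V) (z : ℂ) : V := fderiv ℝ w z 1 + A z (fderiv ℝ w z I)

theorem exists_L {J₀ : En0 V} (hJ : ∀ v, J₀ (J₀ v) = -v) (v : V) :
    ∃ L : V →L[ℝ] ℂ, (∀ x, ‖L x‖ ≤ (1 + ‖J₀‖) * ‖x‖) ∧ (∀ x, L (J₀ x) = I * L x) ∧ ‖v‖ ≤ ‖L v‖ := by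
  obtain ⟨l, h1, h2⟩ := exists_dual_vector'' ℝ v
  refine ⟨ofRealCLM.comp l - I • ofRealCLM.comp (l.comp J₀), fun x => ?_, fun x => ?_, ?_⟩
  · have a : ‖l x‖ ≤ ‖x‖ := (l.le_opNorm x).trans (mul_le_of_le_one_left (norm_nonneg _) h1)
    have b : ‖l (J₀ x)‖ ≤ ‖J₀‖ * ‖x‖ :=
      ((l.le_opNorm _).trans (mul_le_of_le_one_left (norm_nonneg _) h1)).trans (J₀.le_opNorm x)
    rw [sub_apply]
    refine (norm_sub_le _ _).trans ?_
    simp only [ContinuousLinearMap.comp_apply, ofRealCLM_apply, norm_real, smul_apply, norm_smul,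
      norm_I, one_mul]
    linarith
  · simp [hJ, mul_sub, ← mul_assoc]
    ring
  · refine le_trans ?_ (abs_re_le_norm _)
    simp only [RCLike.ofReal_real_eq_id, id] at h2
    simp [h2]

theorem hld_of_iter {X : Type} [PseudoMetricSpace X] {f : X → V} {s : Set X} {B C : ℝ}
    (hB : 0 ≤ B) (hC : 0 ≤ C) (h0 : Hld C f s) (h : ∀ C', 0 ≤ C' → Hld C' f s → Hld (C' / 2 + B) f s) :
    Hld (2 * B) f s := by
  have key : ∀ n : ℕ, Hld (C * 2⁻¹ ^ n + 2 * B) f s := fun n => by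
    induction n with
    | zero => exact h0.mono (by simpa using hB) Subset.rfl
    | succ n ih => exact (h _ (by positivity) ih).mono (le_of_eq (by ring)) Subset.rfl
  intro x hx y hy
  have := ((((tendsto_pow_atTop_nhds_zero_of_lt_one (r := 2⁻¹) (by norm_num)
    (by norm_num)).const_mul C).add_const (2 * B)).mul_const √(dist x y))
  rw [mul_zero, zero_add] at this
  exact ge_of_tendsto' this fun n => key n x hx y hy

/-- constant coefficients -/
theorem sch0 : ∃ K : ℝ, 0 < K ∧ ∀ (V : Type) [NormedAddCommGroup V] [NormedSpace ℝ V]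
    (J₀ : En0 V) (w : ℂ → V) (C : ℝ), (∀ v, J₀ (J₀ v) = -v) → ContDiff ℝ 1 w →
    HasCompactSupport w → 0 ≤ C → Hld C (cr (fun _ => J₀) w) univ →
    Hld (K * (1 + ‖J₀‖) * C) (fderiv ℝ w) univ := by
  obtain ⟨K, hK0, hK⟩ := exists_K
  refine ⟨K, hK0, fun V _ _ J₀ w C hJ hw hc hC hH z _ z' _ => ?_⟩
  refine ContinuousLinearMap.opNorm_le_bound _ (by positivity) fun a => ?_
  obtain ⟨L, h1, h2, h3⟩ := exists_L hJ ((fderiv ℝ w z - fderiv ℝ w z') a)
  have hd : ∀ y, fderiv ℝ (L ∘ w) y = L.comp (fderiv ℝ w y) := fun y =>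
    (L.hasFDerivAt.comp y (hw.differentiable one_ne_zero y).hasFDerivAt).fderiv
  have hb : dbar (L ∘ w) = fun y => (2⁻¹ : ℂ) • L (cr (fun _ => J₀) w y) := by
    funext y; simp [dbar, cr, hd, h2]
  have hc' : HasCompactSupport (L ∘ w) := hc.comp_left (map_zero L)
  have hH' : Hld ((1 + ‖J₀‖) * C) (dbar (L ∘ w)) univ := fun y _ y' _ => by
    rw [hb, ← smul_sub, ← map_sub, norm_smul]
    have := mul_le_mul_of_nonneg_left (hH y trivial y' trivial) (by positivity : 0 ≤ 1 + ‖J₀‖)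
    have h4 := (h1 _).trans this
    have h5 : ‖(2⁻¹ : ℂ)‖ ≤ 1 := by simp; norm_num
    calc _ ≤ 1 * ((1 + ‖J₀‖) * (C * √(dist y y'))) := mul_le_mul h5 h4 (norm_nonneg _) zero_le_one
      _ = _ := by ring
  have h6 := ((hK ℂ (dbar (L ∘ w)) ((hc'.fderiv ℝ).mono fun u hu h0 => hu (by simp [dbar, h0]))).2
    _ (by positivity) hH').1 z trivial z' trivial
  rw [show Tc (dbar (L ∘ w)) = L ∘ w from
    funext fun y => Tc_dbar (L.contDiff.comp hw) hc' y] at h6
  refine h3.trans ?_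
  have h7 : L ((fderiv ℝ w z - fderiv ℝ w z') a) = (fderiv ℝ (L ∘ w) z - fderiv ℝ (L ∘ w) z') a := by
    simp [hd]
  rw [h7]
  refine (ContinuousLinearMap.le_opNorm _ _).trans (mul_le_mul_of_nonneg_right (h6.trans ?_)
    (norm_nonneg _))
  exact le_of_eq (by ring)

/-- variable coefficients, small support -/
theorem sch1 : ∃ K : ℝ, 0 < K ∧ ∀ (V : Type) [NormedAddCommGroup V] [NormedSpace ℝ V]
    (A : ℂ → En0 V) (w : ℂ → V) (c : ℂ) (ρ a C C₀ : ℝ), (∀ v, A c (A c v) = -v) → 0 < ρ → 0 ≤ a →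
    Hld a A (closedBall c ρ) → K * (1 + ‖A c‖) * a * √ρ ≤ 1 → Differentiable ℝ w →
    (∀ z, ρ < ‖z - c‖ → w z = 0) → Hld C₀ (fderiv ℝ w) univ → 0 ≤ C → Hld C (cr A w) univ →
    Hld (K * (1 + ‖A c‖) * C) (fderiv ℝ w) univ := by
  obtain ⟨K, hK0, hK⟩ := sch0
  refine ⟨6 * K, by positivity, fun V _ _ A w c ρ a C C₀ hJ hρ ha hA hs hw h0 hw' hC hH => ?_⟩
  have hc : HasCompactSupport w := HasCompactSupport.intro (isCompact_closedBall c ρ) fun u hu =>
    h0 u (by simpa [dist_eq_norm] using hu)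
  have hw1 : ContDiff ℝ 1 w := contDiff_one_iff_fderiv.2 ⟨hw, continuousOn_univ.1 hw'.continuousOn⟩
  have hKC : 0 ≤ K * (1 + ‖A c‖) * C := by positivity
  refine (hld_of_iter hKC (le_max_right C₀ 0) (hw'.mono (le_max_left _ _) Subset.rfl)
    fun C' hC' h' => ?_).mono (by nlinarith) Subset.rfl
  have hout := fun z => fderiv_out h0 (z := z)
  have hI : ∀ y y', ‖fderiv ℝ w y I - fderiv ℝ w y' I‖ ≤ C' * √(dist y y') := fun y y' => by
    rw [← sub_apply]
    simpa using ((fderiv ℝ w y - fderiv ℝ w y').le_opNorm I).trans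
      (mul_le_mul_of_nonneg_right (h' y trivial y' trivial) (norm_nonneg _))
  have hI' : ∀ y, ‖fderiv ℝ w y I‖ ≤ C' * (2 * √ρ) := fun y => by
    simpa using ((fderiv ℝ w y).le_opNorm I).trans
      (mul_le_mul_of_nonneg_right (norm_le_of_hld hρ hC' hout h' y) (norm_nonneg _))
  have hA' : ∀ y, ‖y - c‖ ≤ ρ → ‖A c - A y‖ ≤ a * √ρ := fun y hy =>
    (hA c (mem_closedBall_self hρ.le) y (by rwa [mem_closedBall, dist_eq_norm])).trans
      (by rw [dist_comm, dist_eq_norm]; gcongr)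
  have hT1 : ∀ y y', ‖y - c‖ ≤ ρ → ‖(A c - A y) (fderiv ℝ w y I) - (A c - A y') (fderiv ℝ w y' I)‖ ≤
      3 * a * √ρ * C' * √(dist y y') := fun y y' hy => by
    have e1 : ‖(A c - A y) (fderiv ℝ w y I - fderiv ℝ w y' I)‖ ≤ a * √ρ * (C' * √(dist y y')) :=
      (ContinuousLinearMap.le_opNorm _ _).trans
        (mul_le_mul (hA' y hy) (hI y y') (norm_nonneg _) (by positivity))
    have e0 : 0 ≤ a * √ρ * (C' * √(dist y y')) := by positivity
    by_cases hy' : ρ < ‖y' - c‖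
    · simp only [hout y' hy', zero_apply, map_zero, sub_zero] at e1 ⊢
      linarith
    · have e2 : ‖(A y' - A y) (fderiv ℝ w y' I)‖ ≤ a * √(dist y y') * (C' * (2 * √ρ)) :=
        (ContinuousLinearMap.le_opNorm _ _).trans (mul_le_mul (by
          rw [dist_comm]
          exact hA y' (by simpa [dist_eq_norm] using hy') y (by rwa [mem_closedBall, dist_eq_norm]))
          (hI' y') (norm_nonneg _) (by positivity))
      have e3 : (A c - A y) (fderiv ℝ w y I) - (A c - A y') (fderiv ℝ w y' I) =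
          (A c - A y) (fderiv ℝ w y I - fderiv ℝ w y' I) + (A y' - A y) (fderiv ℝ w y' I) := by
        simp only [sub_apply, map_sub]; abel
      rw [e3]
      refine (norm_add_le _ _).trans (by linarith)
  have hT : ∀ y y', ‖(A c - A y) (fderiv ℝ w y I) - (A c - A y') (fderiv ℝ w y' I)‖ ≤
      3 * a * √ρ * C' * √(dist y y') := fun y y' => by
    by_cases hy : ‖y - c‖ ≤ ρ
    · exact hT1 y y' hy
    by_cases hy' : ‖y' - c‖ ≤ ρ
    · rw [norm_sub_rev, dist_comm]; exact hT1 y' y hy'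
    · simp only [hout y (not_le.1 hy), hout y' (not_le.1 hy'), zero_apply, map_zero, sub_zero,
        norm_zero]
      positivity
  have hg : Hld (C + 3 * a * √ρ * C') (cr (fun _ => A c) w) univ := fun y _ y' _ => by
    have e : cr (fun _ => A c) w y - cr (fun _ => A c) w y' = (cr A w y - cr A w y') +
        ((A c - A y) (fderiv ℝ w y I) - (A c - A y') (fderiv ℝ w y' I)) := by
      simp only [cr, sub_apply]; abel
    rw [e, add_mul]
    exact (norm_add_le _ _).trans (add_le_add (hH y trivial y' trivial) (hT y y'))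
  refine (hK V (A c) w _ hJ hw1 hc (by positivity) hg).mono ?_ Subset.rfl
  nlinarith [mul_le_mul_of_nonneg_right hs hC']

theorem hld_cut {X E₁ E₂ : Type} [PseudoMetricSpace X] [NormedAddCommGroup E₁] [NormedSpace ℝ E₁]
    [NormedAddCommGroup E₂] [NormedSpace ℝ E₂] (b : E₁ →L[ℝ] E₂ →L[ℝ] V) (hb : ‖b‖ ≤ 1)
    {φ : X → E₁} {ψ : X → E₂} {s : Set X} {M B : ℝ} (hM : 0 ≤ M) (hB : 0 ≤ B)
    (h0 : ∀ y, y ∉ s → φ y = 0) (h1 : ∀ y, ‖φ y‖ ≤ M) (h2 : Hld M φ univ)
    (h3 : ∀ y ∈ s, ‖ψ y‖ ≤ B) (h4 : Hld B ψ s) : Hld (2 * M * B) (fun y => b (φ y) (ψ y)) univ := by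
  have hb' : ∀ x y, ‖b x y‖ ≤ ‖x‖ * ‖y‖ := fun x y => (b.le_opNorm₂ x y).trans (by
    rw [mul_assoc]; exact mul_le_of_le_one_left (by positivity) hb)
  have key : ∀ y ∈ s, ∀ y', ‖b (φ y) (ψ y) - b (φ y') (ψ y')‖ ≤ 2 * M * B * √(dist y y') := by
    intro y hy y'
    have e1 : ‖b (φ y - φ y') (ψ y)‖ ≤ M * √(dist y y') * B :=
      (hb' _ _).trans (mul_le_mul (h2 y trivial y' trivial) (h3 y hy) (norm_nonneg _) (by positivity))
    have e0 : 0 ≤ M * √(dist y y') * B := by positivity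
    by_cases hy' : y' ∈ s
    · have e2 : ‖b (φ y') (ψ y - ψ y')‖ ≤ M * (B * √(dist y y')) :=
        (hb' _ _).trans (mul_le_mul (h1 y') (h4 y hy y' hy') (norm_nonneg _) hM)
      have e3 : b (φ y) (ψ y) - b (φ y') (ψ y') = b (φ y - φ y') (ψ y) + b (φ y') (ψ y - ψ y') := by
        simp only [map_sub, sub_apply]; abel
      rw [e3]
      exact (norm_add_le _ _).trans (by linarith)
    · simp only [h0 y' hy', sub_zero, map_zero, zero_apply] at e1 ⊢
      linarith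
  intro y _ y' _
  by_cases hy : y ∈ s
  · exact key y hy y'
  by_cases hy' : y' ∈ s
  · rw [norm_sub_rev, dist_comm]; exact key y' hy' y
  · simp only [h0 y hy, h0 y' hy', map_zero, zero_apply, sub_zero, norm_zero]
    positivity

omit [NormedSpace ℝ V] in
theorem hld_add {X : Type} [PseudoMetricSpace X] {f g : X → V} {s : Set X} {C C' : ℝ}
    (h : Hld C f s) (h' : Hld C' g s) : Hld (C + C') (fun x => f x + g x) s := fun x hx y hy => by
  rw [add_sub_add_comm, add_mul]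
  exact (norm_add_le _ _).trans (add_le_add (h x hx y hy) (h' x hx y hy))

theorem hld_of_cs {E : Type} [NormedAddCommGroup E] [NormedSpace ℝ E] {φ : ℂ → E}
    (hφ : ContDiff ℝ 1 φ) (hc : HasCompactSupport φ) :
    ∃ M, 0 ≤ M ∧ (∀ y, ‖φ y‖ ≤ M) ∧ Hld M φ univ := by
  obtain ⟨A, hA⟩ := hc.exists_bound_of_continuous hφ.continuous
  obtain ⟨D, hD⟩ := hφ.lipschitzWith_of_hasCompactSupport hc one_ne_zero
  have hA0 : 0 ≤ A := (norm_nonneg _).trans (hA 0)
  have hD0 : (0 : ℝ) ≤ D := D.2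
  refine ⟨2 * A + D, by positivity, fun y => by linarith [hA y], fun y _ y' _ => ?_⟩
  have h0 := Real.sqrt_nonneg (dist y y')
  have h1 := Real.mul_self_sqrt (dist_nonneg (x := y) (y := y'))
  rcases le_total (√(dist y y')) 1 with h | h
  · have := hD.norm_sub_le y y'
    rw [← dist_eq_norm y y', ← h1] at this
    nlinarith [mul_le_mul_of_nonneg_left h (mul_nonneg hD0 h0), mul_nonneg hA0 h0]
  · have := norm_sub_le (φ y) (φ y')
    nlinarith [hA y, hA y', mul_nonneg hD0 h0]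

/-- a cut-off function with bounds that do not depend on the centre -/
theorem exists_cut {σ : ℝ} (hσ : 0 < σ) : ∃ M, 0 ≤ M ∧ ∀ c : ℂ, ∃ χ : ℂ → ℝ, ContDiff ℝ ∞ χ ∧
    (∀ z, ‖z - c‖ ≤ σ / 2 → χ z = 1) ∧ (∀ z, σ ≤ ‖z - c‖ → χ z = 0) ∧
    (∀ z, ‖χ z‖ ≤ M ∧ ‖fderiv ℝ χ z‖ ≤ M) ∧ Hld M χ univ ∧ Hld M (fderiv ℝ χ) univ := by
  let b : ContDiffBump (0 : ℂ) := ⟨σ / 2, σ, by positivity, by linarith⟩
  have hb : ContDiff ℝ ∞ b := b.contDiff
  obtain ⟨M, hM, h1, h2⟩ := hld_of_cs (hb.of_le (by simp)) b.hasCompactSupport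
  obtain ⟨M', hM', h1', h2'⟩ := hld_of_cs (hb.fderiv_right (m := 1) (by norm_cast))
    (b.hasCompactSupport.fderiv ℝ)
  refine ⟨M + M', by positivity, fun c => ?_⟩
  have hd : ∀ z, fderiv ℝ (fun z => b (z - c)) z = fderiv ℝ b (z - c) := fun z =>
    fderiv_comp_sub c
  refine ⟨fun z => b (z - c), hb.comp (contDiff_id.sub contDiff_const),
    fun z hz => b.one_of_mem_closedBall (by simpa using hz),
    fun z hz => b.zero_of_le_dist (by simpa using hz),
    fun z => ⟨by linarith [h1 (z - c)], by rw [hd]; linarith [h1' (z - c)]⟩, fun y _ y' _ => ?_,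
    fun y _ y' _ => ?_⟩
  · have := h2 (y - c) trivial (y' - c) trivial
    rw [dist_sub_right] at this
    exact this.trans (by gcongr; linarith)
  · have := h2' (y - c) trivial (y' - c) trivial
    rw [dist_sub_right] at this
    rw [hd, hd]
    exact this.trans (by gcongr; linarith)

/-- interior Schauder estimate -/
theorem interior_sch {Λ a r : ℝ} (hΛ : 0 ≤ Λ) (ha : 0 ≤ a) (hr : 0 < r) :
    ∃ ρ, 0 < ρ ∧ ρ ≤ r ∧ ∃ K, 0 < K ∧ ∀ (V : Type) [NormedAddCommGroup V] [NormedSpace ℝ V]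
      (A : ℂ → En0 V) (ξ : ℂ → V) (c : ℂ) (B : ℝ), (∀ v, A c (A c v) = -v) →
      (∀ z ∈ ball c r, ‖A z‖ ≤ Λ) → Hld a A (ball c r) →
      (∀ z ∈ ball c r, DifferentiableAt ℝ ξ z) → LocH (fderiv ℝ ξ) (ball c r) →
      (∀ z ∈ ball c r, ‖ξ z‖ ≤ B ∧ ‖cr A ξ z‖ ≤ B) → Hld B ξ (ball c r) →
      Hld B (cr A ξ) (ball c r) →
      Hld (K * B) (fderiv ℝ ξ) (ball c ρ) ∧ ∀ z ∈ ball c ρ, ‖fderiv ℝ ξ z‖ ≤ K * B := by
  obtain ⟨K, hK0, hK⟩ := sch1
  obtain ⟨σ, hσ, hσr, hσ1, hσK⟩ : ∃ σ, 0 < σ ∧ σ < r ∧ √σ ≤ 1 / 2 ∧ K * (1 + Λ) * a * √σ ≤ 1 := by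
    have h1 : ∀ᶠ σ in 𝓝 (0 : ℝ), σ < r ∧ √σ ≤ 1 / 2 ∧ K * (1 + Λ) * a * √σ ≤ 1 :=
      (eventually_lt_nhds hr).and
        ((Real.continuous_sqrt.continuousAt.eventually_le_const (by simp)).and
          ((by fun_prop : ContinuousAt (fun σ : ℝ => K * (1 + Λ) * a * √σ) 0).eventually_le_const
            (by simp)))
    obtain ⟨σ, h2, h3⟩ := ((h1.filter_mono nhdsWithin_le_nhds).and
      (self_mem_nhdsWithin (s := Ioi (0 : ℝ)))).exists
    exact ⟨σ, h3, h2⟩
  obtain ⟨M, hM, hχ⟩ := exists_cut hσ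
  refine ⟨σ / 2, by positivity, by linarith, K * (1 + Λ) * (2 * M * (2 + (Λ + a)) + 1),
    by positivity, fun V _ _ A ξ c B hJ hA hA' hξ hξ' hB hB1 hB2 => ?_⟩
  obtain ⟨χ, c1, c2, c3, c4, c5, c6⟩ := hχ c
  have hB0 : 0 ≤ B := (norm_nonneg _).trans (hB c (mem_ball_self hr)).1
  have hsub : closedBall c σ ⊆ ball c r := closedBall_subset_ball hσr
  have hout : ∀ y, y ∉ closedBall c σ → σ < ‖y - c‖ := fun y hy => by
    simpa [dist_eq_norm] using hy
  have c3' : ∀ y, σ < ‖y - c‖ → χ y = 0 := fun y hy => c3 y hy.le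
  have hw0 : ∀ z, σ < ‖z - c‖ → χ z • ξ z = 0 := fun z hz => by rw [c3' z hz, zero_smul]
  have hw : ∀ z, HasFDerivAt (fun z => χ z • ξ z)
      (χ z • fderiv ℝ ξ z + (fderiv ℝ χ z).smulRight (ξ z)) z := fun z => by
    by_cases hz : z ∈ closedBall c σ
    · exact (c1.differentiable (by simp) z).hasFDerivAt.smul (hξ z (hsub hz)).hasFDerivAt
    · rw [c3' z (hout z hz), fderiv_out c3' (hout z hz)]
      refine (hasFDerivAt_const (0 : V) z).congr_fderiv (by ext; simp) |>.congr_of_eventuallyEq ?_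
      filter_upwards [isClosed_closedBall.isOpen_compl.mem_nhds hz] with v hv using
        hw0 v (hout v hv)
  have hD : fderiv ℝ (fun z => χ z • ξ z) = fun z =>
      χ z • fderiv ℝ ξ z + (fderiv ℝ χ z).smulRight (ξ z) := funext fun z => (hw z).fderiv
  obtain ⟨C₀, d0, d1, d2⟩ := hξ'.hld (isCompact_closedBall c σ) hsub
  have hz1 : ∀ y, y ∉ closedBall c σ → fderiv ℝ χ y = 0 := fun y hy => fderiv_out c3' (hout y hy)
  have hH0 : Hld (2 * M * C₀ + 2 * M * B) (fderiv ℝ fun z => χ z • ξ z) univ := by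
    rw [hD]
    exact hld_add (hld_cut (ContinuousLinearMap.lsmul ℝ ℝ) ContinuousLinearMap.opNorm_lsmul_le hM d0
      (fun y hy => c3' y (hout y hy)) (fun y => (c4 y).1) c5 d1 d2)
      (hld_cut (ContinuousLinearMap.smulRightL ℝ ℂ V) ContinuousLinearMap.norm_smulRightL_le hM hB0
        hz1 (fun y => (c4 y).2) c6 (fun y hy => (hB y (hsub hy)).1) (hB1.mono le_rfl hsub))
  have hv : ∀ v : ℂ, ‖v‖ = 1 → (∀ y, ‖fderiv ℝ χ y v‖ ≤ M) ∧
      Hld M (fun y => fderiv ℝ χ y v) univ := fun v hv =>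
    ⟨fun y => ((fderiv ℝ χ y).le_opNorm v).trans (by rw [hv, mul_one]; exact (c4 y).2),
      fun y _ y' _ => by
        rw [← sub_apply]
        exact (ContinuousLinearMap.le_opNorm _ v).trans
          (by rw [hv, mul_one]; exact c6 y trivial y' trivial)⟩
  have hAξ : Hld ((Λ + a) * B) (fun y => A y (ξ y)) (closedBall c σ) := fun y hy y' hy' => by
    have e : A y (ξ y) - A y' (ξ y') = A y (ξ y - ξ y') + (A y - A y') (ξ y') := by
      simp only [map_sub, sub_apply]; abel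
    have e1 : ‖A y (ξ y - ξ y')‖ ≤ Λ * (B * √(dist y y')) := ((A y).le_opNorm _).trans
      (mul_le_mul (hA y (hsub hy)) (hB1 y (hsub hy) y' (hsub hy')) (norm_nonneg _) hΛ)
    have e2 : ‖(A y - A y') (ξ y')‖ ≤ a * √(dist y y') * B := (ContinuousLinearMap.le_opNorm _ _).trans
      (mul_le_mul (hA' y (hsub hy) y' (hsub hy')) (hB y' (hsub hy')).1 (norm_nonneg _)
        (by positivity))
    rw [e]
    exact (norm_add_le _ _).trans (by linarith)
  have hH1 : Hld (2 * M * B + 2 * M * B + 2 * M * ((Λ + a) * B)) (cr A fun z => χ z • ξ z) univ := by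
    have e : (cr A fun z => χ z • ξ z) = fun z =>
        χ z • cr A ξ z + fderiv ℝ χ z 1 • ξ z + fderiv ℝ χ z I • A z (ξ z) := by
      funext z; simp only [cr, hD, add_apply, smul_apply, ContinuousLinearMap.smulRight_apply,
        map_add, map_smul, smul_add]; abel
    rw [e]
    refine hld_add (hld_add
      (hld_cut (ContinuousLinearMap.lsmul ℝ ℝ) ContinuousLinearMap.opNorm_lsmul_le hM hB0
        (fun y hy => c3' y (hout y hy)) (fun y => (c4 y).1) c5 (fun y hy => (hB y (hsub hy)).2)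
        (hB2.mono le_rfl hsub))
      (hld_cut (ContinuousLinearMap.lsmul ℝ ℝ) ContinuousLinearMap.opNorm_lsmul_le hM hB0
        (fun y hy => by simp [hz1 y hy]) (hv 1 norm_one).1 (hv 1 norm_one).2
        (fun y hy => (hB y (hsub hy)).1) (hB1.mono le_rfl hsub)))
      (hld_cut (ContinuousLinearMap.lsmul ℝ ℝ) ContinuousLinearMap.opNorm_lsmul_le hM
        (by positivity) (fun y hy => by simp [hz1 y hy]) (hv I norm_I).1 (hv I norm_I).2
        (fun y hy => ?_) hAξ)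
    exact ((A y).le_opNorm _).trans (mul_le_mul ((hA y (hsub hy)).trans (by linarith))
      (hB y (hsub hy)).1 (norm_nonneg _) (by positivity))
  have hAc := hA c (mem_ball_self hr)
  have key := (hK V A _ c σ a _ _ hJ hσ ha (hA'.mono le_rfl hsub) (le_trans (by gcongr) hσK)
    (fun z => (hw z).differentiableAt) hw0 hH0 (by positivity) hH1).mono
    (C' := K * (1 + Λ) * (2 * M * (2 + (Λ + a)) + 1) * B) (by
      calc _ ≤ K * (1 + Λ) * (2 * M * B + 2 * M * B + 2 * M * ((Λ + a) * B) + B) := by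
            exact mul_le_mul (by gcongr) (by linarith) (by positivity) (by positivity)
        _ = _ := by ring) Subset.rfl
  have he : ∀ z ∈ ball c (σ / 2), fderiv ℝ ξ z = fderiv ℝ (fun z => χ z • ξ z) z := fun z hz => by
    refine EventuallyEq.fderiv_eq ?_
    filter_upwards [isOpen_ball.mem_nhds hz] with v hv
    rw [c2 v (mem_ball_iff_norm.1 hv).le, one_smul]
  refine ⟨fun y hy y' hy' => by rw [he y hy, he y' hy']; exact key y trivial y' trivial,
    fun z hz => ?_⟩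
  rw [he z hz]
  exact (norm_le_of_hld hσ (by positivity) (fun z => fderiv_out hw0) key z).trans
    (mul_le_of_le_one_right (by positivity) (by linarith))

theorem hld_interp {f : ℂ → V} {s : Set ℂ} {W D t : ℝ} (hs : Convex ℝ s) (ht : 0 < t)
    (h : ∀ z ∈ s, DifferentiableAt ℝ f z ∧ ‖f z‖ ≤ W ∧ ‖fderiv ℝ f z‖ ≤ D) :
    Hld (2 * W * t + D / t) f s := fun x hx y hy => by
  have h1 := hs.norm_image_sub_le_of_norm_fderiv_le (fun z hz => (h z hz).1)
    (fun z hz => (h z hz).2.2) hy hx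
  have h2 := (norm_sub_le _ _).trans (add_le_add (h x hx).2.1 (h y hy).2.1)
  have hW : 0 ≤ W := (norm_nonneg _).trans (h x hx).2.1
  have hD : 0 ≤ D / t := div_nonneg ((norm_nonneg _).trans (h x hx).2.2) ht.le
  have h0 := Real.sqrt_nonneg (dist x y)
  rw [← dist_eq_norm x y, ← Real.mul_self_sqrt (dist_nonneg (x := x) (y := y)),
    ← div_mul_cancel₀ D ht.ne'] at h1
  rcases le_total (t * √(dist x y)) 1 with h3 | h3
  · nlinarith [mul_le_mul_of_nonneg_left h3 (mul_nonneg hD h0), mul_nonneg (mul_nonneg hW ht.le) h0]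
  · nlinarith [mul_le_mul_of_nonneg_left h3 hW, mul_nonneg hD h0]

theorem fderiv_sc (w : ℂ → V) (c : ℂ) (r : ℝ) :
    fderiv ℝ (fun y => w (c + r • y)) = fun y => r • fderiv ℝ w (c + r • y) := by
  funext y
  rw [fderiv_comp_smul (f := fun y => w (c + y)), fderiv_comp_add_left]

theorem norm_fderiv_sc (f : ℂ → V) (c : ℂ) {r : ℝ} (hr : 0 ≤ r) :
    ‖fderiv ℝ (fun y => r • f (c + r • y)) 0‖ = r ^ 2 * ‖fderiv ℝ f c‖ := by
  rw [show (fun y => r • f (c + r • y)) = r • fun y => f (c + r • y) from rfl,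
    fderiv_const_smul_field, fderiv_sc, Pi.smul_apply, norm_smul, norm_smul, smul_zero, add_zero,
    Real.norm_of_nonneg hr, sq, mul_assoc]

theorem sc_dist (c y y' : ℂ) {r : ℝ} (hr : 0 ≤ r) : dist (c + r • y) (c + r • y') = r * dist y y' := by
  rw [dist_add_left, dist_smul₀, Real.norm_of_nonneg hr]

theorem sc_mem {c y : ℂ} {r : ℝ} (hr : 0 < r) (hy : y ∈ ball (0 : ℂ) 1) : c + r • y ∈ ball c r := by
  simpa using (sc_dist c y 0 hr.le).trans_lt (mul_lt_of_lt_one_right hr hy)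

omit [NormedSpace ℝ V] in
theorem hld_sc {f : ℂ → V} {c : ℂ} {r C : ℝ} (hr : 0 < r) (hr1 : r ≤ 1) (hC : 0 ≤ C)
    (h : Hld C f (ball c r)) : Hld C (fun y => f (c + r • y)) (ball 0 1) := fun y hy y' hy' => by
  refine (h _ (sc_mem hr hy) _ (sc_mem hr hy')).trans ?_
  rw [sc_dist _ _ _ hr.le]
  gcongr
  exact mul_le_of_le_one_left dist_nonneg hr1

omit [NormedSpace ℝ V] in
theorem locH_of_hld {f : ℂ → V} {s : Set ℂ} {C : ℝ} (hs : IsOpen s) (h : Hld C f s) : LocH f s :=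
  fun _ hx => ⟨C, s, hs.mem_nhds hx, h⟩

/-- the hypotheses of the Schauder estimate on a set `s` -/
structure SH (Λ G W H : ℝ) (j : ℂ → En0 V) (w : ℂ → V) (s : Set ℂ) : Prop where
  bd : ∀ z ∈ s, ‖j z‖ ≤ Λ ∧ (∀ v, j z (j z v) = -v) ∧ DifferentiableAt ℝ w z ∧
    ‖cr j w z‖ ≤ G ∧ ‖w z‖ ≤ W
  hj : Hld Λ j s
  hw : Hld H (fderiv ℝ w) s
  hg : Hld G (cr j w) s

theorem SH.mono {Λ G W H : ℝ} {j : ℂ → En0 V} {w : ℂ → V} {s t : Set ℂ} (h : SH Λ G W H j w s)
    (ht : t ⊆ s) : SH Λ G W H j w t :=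
  ⟨fun z hz => h.bd z (ht hz), h.hj.mono le_rfl ht, h.hw.mono le_rfl ht, h.hg.mono le_rfl ht⟩

theorem grad0 (Λ : ℝ) : ∃ K, 0 < K ∧ ∀ (V : Type) [NormedAddCommGroup V] [NormedSpace ℝ V]
    (j : ℂ → En0 V) (w : ℂ → V) (c : ℂ) (ρ G W H D : ℝ), 0 < ρ → ρ ≤ 1 →
    SH Λ G W H j w (ball c ρ) → (∀ z ∈ ball c ρ, ρ * ‖fderiv ℝ w z‖ ≤ D) →
    ρ * ‖fderiv ℝ w c‖ ≤ K * (G + W) + D / 4 := by
  obtain ⟨σ, hσ, -, K, hK0, hK⟩ := interior_sch (abs_nonneg Λ) (abs_nonneg Λ) one_pos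
  refine ⟨K + 8 * K ^ 2, by positivity, fun V _ _ j w c ρ G W H D hρ hρ1 h hD => ?_⟩
  obtain ⟨b1, b2, -, b4, b5⟩ := h.bd c (mem_ball_self hρ)
  have hG : 0 ≤ G := (norm_nonneg _).trans b4
  have hW : 0 ≤ W := (norm_nonneg _).trans b5
  have hD0 : 0 ≤ D / (4 * K) :=
    div_nonneg (le_trans (by positivity) (hD c (mem_ball_self hρ))) (by positivity)
  have hc : ∀ y, cr (fun y => j (c + ρ • y)) (fun y => w (c + ρ • y)) y = ρ • cr j w (c + ρ • y) :=
    fun y => by simp only [cr, fderiv_sc, smul_apply, map_smul, smul_add]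
  have hd : ∀ y ∈ ball (0 : ℂ) 1, DifferentiableAt ℝ (fun y => w (c + ρ • y)) y := fun y hy =>
    (h.bd _ (sc_mem hρ hy)).2.2.1.comp y (by fun_prop)
  have hs : ∀ x : V, ‖ρ • x‖ ≤ ‖x‖ := fun x => by
    rw [norm_smul, Real.norm_of_nonneg hρ.le]; exact mul_le_of_le_one_left (norm_nonneg _) hρ1
  have h0 : 0 ≤ 2 * W * (4 * K) := by positivity
  have key := (hK V (fun y => j (c + ρ • y)) (fun y => w (c + ρ • y)) 0
    (G + W + (2 * W * (4 * K) + D / (4 * K))) (by simpa using b2)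
    (fun y hy => (h.bd _ (sc_mem hρ hy)).1.trans (le_abs_self _))
    (hld_sc hρ hρ1 (abs_nonneg _) (h.hj.mono (le_abs_self _) Subset.rfl)) hd
    (by
      rw [fderiv_sc]
      exact (locH_of_hld isOpen_ball (hld_sc hρ hρ1 (abs_nonneg _) (h.hw.mono (le_abs_self _)
        Subset.rfl))).post (Φ := fun A => ρ • A) fun _ _ => by fun_prop)
    (fun y hy => ⟨by linarith [(h.bd _ (sc_mem hρ hy)).2.2.2.2],
      by rw [hc]; linarith [(h.bd _ (sc_mem hρ hy)).2.2.2.1, hs (cr j w (c + ρ • y))]⟩)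
    ((hld_interp (convex_ball _ _) (by positivity : 0 < 4 * K) fun y hy =>
      ⟨hd y hy, (h.bd _ (sc_mem hρ hy)).2.2.2.2, by
        rw [fderiv_sc, norm_smul, Real.norm_of_nonneg hρ.le]; exact hD _ (sc_mem hρ hy)⟩).mono
      (by linarith) Subset.rfl)
    (fun y hy y' hy' => by
      rw [hc, hc, ← smul_sub]
      exact (hs _).trans ((hld_sc hρ hρ1 hG h.hg).mono (by linarith) Subset.rfl y hy y' hy'))).2 0
    (mem_ball_self hσ)
  rw [fderiv_sc, norm_smul, Real.norm_of_nonneg hρ.le, smul_zero, add_zero] at key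
  have e : K * (D / (4 * K)) = D / 4 := by field_simp
  nlinarith [mul_nonneg (sq_nonneg K) hG]

theorem schl2 (Λ : ℝ) {r₁ r₂ : ℝ} (h0 : 0 < r₂) (h1 : r₂ < r₁) (h2 : r₁ ≤ 1) :
    ∃ C, 0 < C ∧ ∀ (V : Type) [NormedAddCommGroup V] [NormedSpace ℝ V]
    (j : ℂ → En0 V) (w : ℂ → V) (c : ℂ) (G W H : ℝ), SH Λ G W H j w (ball c r₁) →
    (∀ z ∈ ball c r₂, ‖fderiv ℝ w z‖ ≤ C * (G + W)) ∧
      Hld (C * (G + W)) (fderiv ℝ w) (ball c r₂) := by
  obtain ⟨K, hK0, hK⟩ := grad0 Λ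
  obtain ⟨e, he, hee⟩ : ∃ e, 0 < e ∧ r₁ = r₂ + 2 * e := ⟨(r₁ - r₂) / 2, by linarith, by ring⟩
  obtain ⟨σ, hσ, -, K', hK0', hK'⟩ := interior_sch (abs_nonneg Λ) (abs_nonneg Λ) he
  have hσ' := Real.sqrt_pos.2 hσ
  refine ⟨K' * (3 + 4 * K / e) * (1 + 2 / √σ), by positivity, fun V _ _ j w c G W H h => ?_⟩
  have hc : c ∈ ball c r₁ := mem_ball_self (by linarith)
  have hG : 0 ≤ G := (norm_nonneg _).trans (h.bd c hc).2.2.2.1
  have hW : 0 ≤ W := (norm_nonneg _).trans (h.bd c hc).2.2.2.2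
  have sub : ∀ z ρ r, dist z c + ρ ≤ r → ball z ρ ⊆ ball c r := fun z ρ r hz =>
    ball_subset_ball' (by linarith)
  let f : ball c r₁ → ℝ := fun z => (r₁ - dist z.1 c) * ‖fderiv ℝ w z‖
  have hf : BddAbove (range f) := by
    refine ⟨‖fderiv ℝ w c‖ + |H|, forall_mem_range.2 fun z => ?_⟩
    have h3 := (h.hw.mono (le_abs_self _) Subset.rfl z z.2 c hc).trans (mul_le_of_le_one_right
      (abs_nonneg _) (Real.sqrt_le_one.2 ((mem_ball.1 z.2).le.trans h2)))
    exact (mul_le_of_le_one_left (norm_nonneg _) (by linarith [dist_nonneg (x := z.1) (y := c)])).trans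
      (by linarith [norm_sub_norm_le (fderiv ℝ w z) (fderiv ℝ w c)])
  have hP : ∀ y ρ, 0 < ρ → dist y c + ρ ≤ r₁ → ρ * ‖fderiv ℝ w y‖ ≤ ⨆ z, f z := fun y ρ hρ hy =>
    le_trans (mul_le_mul_of_nonneg_right (le_sub_iff_add_le'.2 hy) (norm_nonneg _))
      (le_ciSup hf ⟨y, mem_ball.2 (by linarith)⟩)
  have : Nonempty (ball c r₁) := ⟨⟨c, hc⟩⟩
  have hP' : ⨆ z, f z ≤ 2 * (K * (G + W) + (⨆ z, f z) / 4) := ciSup_le fun z => by
    have h3 := mem_ball.1 z.2
    have h4 := dist_nonneg (x := z.1) (y := c)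
    have := hK V j w z ((r₁ - dist z.1 c) / 2) G W H _ (by linarith) (by linarith)
      (h.mono (sub _ _ _ (by linarith))) fun y hy => hP y _ (by linarith)
        (by linarith [dist_triangle y z c, mem_ball.1 hy])
    simp only [f]
    linarith
  have hD : ∀ y, dist y c ≤ r₂ + e → ‖fderiv ℝ w y‖ ≤ 4 * K / e * (G + W) := fun y hy => by
    rw [div_mul_eq_mul_div, le_div_iff₀ he]
    linarith [hP y e he (by linarith)]
  have hB : 0 ≤ 4 * K / e * (G + W) := by positivity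
  have key := fun z (hz : z ∈ ball c r₂) => by
    have h3 := mem_ball.1 hz
    have h' := h.mono (sub z e r₁ (by linarith))
    exact hK' V j w z ((3 + 4 * K / e) * (G + W)) (h'.bd z (mem_ball_self he)).2.1
      (fun y hy => (h'.bd y hy).1.trans (le_abs_self _)) (h'.hj.mono (le_abs_self _) Subset.rfl)
      (fun y hy => (h'.bd y hy).2.2.1) (locH_of_hld isOpen_ball h'.hw)
      (fun y hy => ⟨by linarith [(h'.bd y hy).2.2.2.2], by linarith [(h'.bd y hy).2.2.2.1]⟩)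
      ((hld_interp (convex_ball _ _) one_pos fun y hy => ⟨(h'.bd y hy).2.2.1, (h'.bd y hy).2.2.2.2,
        hD y (by linarith [dist_triangle y z c, mem_ball.1 hy])⟩).mono (by linarith) Subset.rfl)
      (h'.hg.mono (by linarith) Subset.rfl)
  have hA : 0 ≤ K' * ((3 + 4 * K / e) * (G + W)) := by positivity
  have e1 : K' * (3 + 4 * K / e) * (1 + 2 / √σ) * (G + W) = K' * ((3 + 4 * K / e) * (G + W)) +
      K' * ((3 + 4 * K / e) * (G + W)) * (2 / √σ) := by ring
  rw [e1]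
  refine ⟨fun z hz => ((key z hz).2 z (mem_ball_self hσ)).trans
    (le_add_of_nonneg_right (by positivity)), fun z hz z' hz' => ?_⟩
  rw [add_mul]
  rcases lt_or_ge (dist z z') σ with h3 | h3
  · exact ((key z' hz').1 z h3 z' (mem_ball_self hσ)).trans (le_add_of_nonneg_right (by positivity))
  · refine ((norm_sub_le _ _).trans (add_le_add ((key z hz).2 z (mem_ball_self hσ))
      ((key z' hz').2 z' (mem_ball_self hσ)))).trans (le_add_of_nonneg_of_le (by positivity) ?_)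
    rw [mul_assoc _ (2 / √σ), ← mul_two]
    gcongr
    rw [div_mul_eq_mul_div, le_div_iff₀ hσ']
    gcongr

/-- an approximately additive map is differentiable at the origin -/
theorem hyers {X : Type} [NormedAddCommGroup X] [NormedSpace ℝ X] [CompleteSpace V] {g : X → V}
    {δ K : ℝ} (hδ : 0 < δ) (hK : 0 ≤ K) (h1 : ∀ v, ‖v‖ < δ → ‖g v‖ ≤ K * ‖v‖)
    (h2 : ∀ v w, ‖v‖ < δ → ‖w‖ < δ → ‖g (v + w) - g v - g w‖ ≤ K * ‖w‖ * √‖v‖) :
    DifferentiableAt ℝ g 0 := by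
  set a : X → ℕ → V := fun v n => (2 : ℝ) ^ n • g ((2⁻¹ : ℝ) ^ n • v) with ha
  have hn : ∀ (n : ℕ) (v : X), ‖(2⁻¹ : ℝ) ^ n • v‖ = 2⁻¹ ^ n * ‖v‖ := fun n v => by
    rw [norm_smul, Real.norm_of_nonneg (by positivity)]
  have hz : ∀ v : X, Tendsto (fun n : ℕ => ‖(2⁻¹ : ℝ) ^ n • v‖) atTop (𝓝 0) := fun v => by
    simpa only [hn, zero_mul] using
      (tendsto_pow_atTop_nhds_zero_of_lt_one (r := 2⁻¹) (by norm_num) (by norm_num)).mul_const ‖v‖
  have hs : ∀ v : X, ∀ᶠ n : ℕ in atTop, ‖(2⁻¹ : ℝ) ^ n • v‖ < δ := fun v =>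
    (hz v).eventually_lt_const hδ
  have hq : ∀ (n : ℕ) (v w : X), ‖(2⁻¹ : ℝ) ^ n • v‖ < δ → ‖(2⁻¹ : ℝ) ^ n • w‖ < δ →
      ‖a (v + w) n - a v n - a w n‖ ≤ K * ‖w‖ * √‖(2⁻¹ : ℝ) ^ n • v‖ := fun n v w hv hw => by
    simp only [ha]
    rw [← smul_sub, ← smul_sub, smul_add, norm_smul, Real.norm_of_nonneg (by positivity)]
    refine (mul_le_mul_of_nonneg_left (h2 _ _ hv hw) (by positivity)).trans (le_of_eq ?_)
    rw [hn n w, inv_pow]; field_simp
  have step : ∀ v, ‖v‖ < δ → ∀ n, dist (a v n) (a v (n + 1)) ≤ K * ‖v‖ * √‖v‖ * (3 / 4) ^ n :=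
    fun v hv n => by
      have h3 : (2⁻¹ : ℝ) ^ (n + 1) ≤ ((3 / 4) ^ n) ^ 2 := by
        rw [← pow_mul, mul_comm, pow_mul, pow_succ]
        exact (mul_le_of_le_one_right (by positivity) (by norm_num)).trans (by gcongr; norm_num)
      have h4 : ‖(2⁻¹ : ℝ) ^ (n + 1) • v‖ < δ := by
        rw [hn]
        exact (mul_le_of_le_one_left (norm_nonneg _) (pow_le_one₀ (by norm_num) (by norm_num))).trans_lt hv
      have h5 := hq (n + 1) v v h4 h4
      have e : a (v + v) (n + 1) - a v (n + 1) - a v (n + 1) = (2 : ℝ) • (a v n - a v (n + 1)) := by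
        have : (2⁻¹ : ℝ) ^ (n + 1) • (v + v) = (2⁻¹ : ℝ) ^ n • v := by rw [pow_succ]; module
        simp only [ha, this, pow_succ (2 : ℝ)]; module
      have h6 : √‖(2⁻¹ : ℝ) ^ (n + 1) • v‖ ≤ √‖v‖ * (3 / 4) ^ n := by
        rw [hn, Real.sqrt_mul (by positivity), mul_comm]
        gcongr
        exact Real.sqrt_le_iff.2 ⟨by positivity, h3⟩
      rw [e, norm_smul, Real.norm_two, ← dist_eq_norm] at h5
      have h7 := h5.trans (mul_le_mul_of_nonneg_left h6 (by positivity))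
      linarith [dist_nonneg (x := a v n) (y := a v (n + 1))]
  have hA : ∀ v, ∃ A, Tendsto (a v) atTop (𝓝 A) := fun v => by
    obtain ⟨N, hN⟩ := (hs v).exists
    obtain ⟨A, hA⟩ := cauchySeq_tendsto_of_complete
      (cauchySeq_of_le_geometric _ _ (by norm_num) (step _ hN))
    refine ⟨(2 : ℝ) ^ N • A, (tendsto_add_atTop_iff_nat N).1 ((hA.const_smul _).congr fun n => ?_)⟩
    simp only [ha, smul_smul, pow_add, mul_comm]
  choose A hA using hA
  have hadd : ∀ v w, A (v + w) = A v + A w := fun v w => by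
    have t2 : Tendsto (fun n => a (v + w) n - a v n - a w n) atTop (𝓝 0) := by
      refine squeeze_zero_norm' ?_ (by simpa using (hz v).sqrt.const_mul (K * ‖w‖))
      filter_upwards [hs v, hs w] with n h3 h4
      simpa using hq n v w h3 h4
    have := tendsto_nhds_unique (((hA _).sub (hA _)).sub (hA _)) t2
    rwa [sub_sub, sub_eq_zero] at this
  have hb : ∀ v, ‖A v‖ ≤ K * ‖v‖ := fun v => le_of_tendsto (hA v).norm ((hs v).mono fun n h3 => by
    simp only [ha]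
    rw [norm_smul, Real.norm_of_nonneg (by positivity)]
    refine (mul_le_mul_of_nonneg_left (h1 _ h3) (by positivity)).trans (le_of_eq ?_)
    rw [hn, inv_pow]; field_simp)
  let A' : X →+ V := AddMonoidHom.mk' A hadd
  refine HasFDerivAt.differentiableAt
    (f' := A'.toRealLinearMap (AddMonoidHomClass.continuous_of_bound A' K hb)) ?_
  rw [hasFDerivAt_iff_isLittleO_nhds_zero, Asymptotics.isLittleO_iff]
  intro ε hε
  have g0 : g 0 = 0 := by simpa using h1 0 (by simpa using hδ)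
  have hc : ContinuousAt (fun v : X => 4 * K * √‖v‖) 0 := by fun_prop
  filter_upwards [ball_mem_nhds 0 hδ, hc.eventually_le_const (by simpa using hε)] with v hv hv'
  have := dist_le_of_le_geometric_of_tendsto₀ _ _ (by norm_num) (step v (by simpa using hv)) (hA v)
  rw [dist_eq_norm] at this
  simp only [ha, pow_zero, one_smul] at this
  rw [zero_add, g0, sub_zero]
  exact this.trans (le_trans (le_of_eq (by ring)) (mul_le_mul_of_nonneg_right hv' (norm_nonneg v)))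

/-- difference quotients -/
theorem dq {X : Type} [NormedAddCommGroup X] [NormedSpace ℝ X] [CompleteSpace V] {f : X → V}
    {s : Set X} (hs : IsOpen s) {ε K : ℝ} (hε : 0 < ε) (hK : 0 ≤ K)
    (h : ∀ v, ‖v‖ < ε → (∀ z ∈ s, ‖f (z + v) - f z‖ ≤ K * ‖v‖) ∧
      Hld (K * ‖v‖) (fun z => f (z + v) - f z) s) :
    (∀ z ∈ s, DifferentiableAt ℝ f z ∧ ‖fderiv ℝ f z‖ ≤ K) ∧ Hld K (fderiv ℝ f) s := by
  have hd : ∀ z ∈ s, HasFDerivAt (fun v => f (z + v)) (fderiv ℝ f z) 0 := fun z hz => by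
    obtain ⟨δ, hδ, hb⟩ := Metric.isOpen_iff.1 hs z hz
    have := hyers (g := fun v => f (z + v) - f z) (lt_min hδ hε) hK
      (fun v hv => (h v (hv.trans_le (min_le_right _ _))).1 z hz) fun v w hv hw => by
        have := (h w (hw.trans_le (min_le_right _ _))).2 (z + v)
          (hb (by simpa using hv.trans_le (min_le_left _ _))) z hz
        simpa [add_assoc] using this
    have h2 := ((differentiableAt_add_const_iff _).1 (by simpa only [sub_eq_add_neg] using this) :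
      DifferentiableAt ℝ (fun v => f (z + v)) 0).hasFDerivAt
    rwa [fderiv_comp_add_left, add_zero] at h2
  have hb : ∀ᶠ v in 𝓝 (0 : X), ‖v‖ < ε := continuous_norm.continuousAt.eventually_lt_const (by simpa using hε)
  refine ⟨fun z hz => ⟨?_, (hd z hz).le_of_lip' hK (hb.mono fun v hv => ?_)⟩, fun z hz z' hz' =>
    ((hd z hz).sub (hd z' hz')).le_of_lip' (by positivity) (hb.mono fun v hv => ?_)⟩
  · simpa using (differentiableAt_comp_add_left z).1 (hd z hz).differentiableAt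
  · simpa using (h v hv).1 z hz
  · have := (h v hv).2 z hz z' hz'
    rw [sub_sub_sub_comm, mul_right_comm] at this
    simpa using this

theorem hld_apply {X E : Type} [PseudoMetricSpace X] [NormedAddCommGroup E] [NormedSpace ℝ E]
    {φ : X → E →L[ℝ] V} {ψ : X → E} {s : Set X} {a b a' b' : ℝ}
    (h1 : ∀ y ∈ s, ‖φ y‖ ≤ a) (h2 : Hld a' φ s) (h3 : ∀ y ∈ s, ‖ψ y‖ ≤ b) (h4 : Hld b' ψ s) :
    Hld (a * b' + a' * b) (fun y => φ y (ψ y)) s := fun y hy y' hy' => by
  have e : φ y (ψ y) - φ y' (ψ y') = φ y (ψ y - ψ y') + (φ y - φ y') (ψ y') := by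
    simp only [map_sub, sub_apply]; abel
  have e1 := ((φ y).le_opNorm _).trans (mul_le_mul (h1 y hy) (h4 y hy y' hy') (norm_nonneg _)
    ((norm_nonneg _).trans (h1 y hy)))
  have e2 := ((φ y - φ y').le_opNorm _).trans (mul_le_mul (h2 y hy y' hy') (h3 y' hy')
    (norm_nonneg _) ((norm_nonneg _).trans (h2 y hy y' hy')))
  rw [e]
  exact (norm_add_le _ _).trans (by linarith)

theorem cr_zero {J : V → En0 V} {u : ℂ → V} {z : ℂ} (h1 : ∀ v, J (u z) (J (u z) v) = -v)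
    (h2 : fderiv ℝ u z I = J (u z) (fderiv ℝ u z 1)) : cr (fun z => J (u z)) u z = 0 := by
  simp [cr, h1, h2]

/-- the coefficients `J ∘ u` -/
theorem UB.coef {R Λ L : ℝ} {K : Set V} {J : V → En0 V} (hJ : UB R Λ K J) {u : ℂ → V} {s : Set ℂ}
    (h : ∀ z ∈ s, DifferentiableAt ℝ u z ∧ u z ∈ K ∧ ‖fderiv ℝ u z‖ ≤ L) {z : ℂ} (hz : z ∈ s) :
    HasFDerivAt (fun z => J (u z)) ((fderiv ℝ J (u z)).comp (fderiv ℝ u z)) z ∧
    DifferentiableAt ℝ (fun z => J (u z)) z ∧ ‖J (u z)‖ ≤ Λ ∧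
      ‖fderiv ℝ (fun z => J (u z)) z‖ ≤ Λ * L := by
  have h1 := (hJ.sm.differentiable two_ne_zero (u z)).hasFDerivAt.comp z (h z hz).1.hasFDerivAt
  obtain ⟨h2, h3⟩ := hJ.bd _ (hJ.sub (h z hz).2.1)
  refine ⟨h1, h1.differentiableAt, h2, (congrArg _ h1.fderiv).trans_le ?_⟩
  exact (ContinuousLinearMap.opNorm_comp_le _ _).trans
    (mul_le_mul h3 (h z hz).2.2 (norm_nonneg _) ((norm_nonneg _).trans h2))

theorem reg2 (R Λ L : ℝ) {r : ℝ} (hr : 0 < r) (hr1 : r ≤ 1) : ∃ C : ℝ,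
    ∀ (V : Type) [NormedAddCommGroup V] [NormedSpace ℝ V] [CompleteSpace V] (K : Set V)
      (J : V → En0 V), UB R Λ K J → ∀ (u : ℂ → V) (c : ℂ),
      (∀ z ∈ ball c r, DifferentiableAt ℝ u z ∧ u z ∈ K ∧ ‖fderiv ℝ u z‖ ≤ L ∧
        fderiv ℝ u z I = J (u z) (fderiv ℝ u z 1)) → Hld L (fderiv ℝ u) (ball c r) →
      ContDiffOn ℝ 2 u (ball c (r / 2)) ∧
        ∀ z ∈ ball c (r / 2), ‖fderiv ℝ (fderiv ℝ u) z‖ ≤ C := by
  obtain ⟨C, hC0, hC⟩ := schl2 (2 * Λ * 1 + Λ * L / 1) (r₁ := 3 * r / 4) (r₂ := r / 2)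
    (by positivity) (by linarith) (by linarith)
  set M := Λ * L + Λ * (2 * R * 1 + L / 1) * L with hM
  refine ⟨C * ((Λ * L + M) * L + L), fun V _ _ _ K J hJ u c h hH => ?_⟩
  have h' := fun z hz => (⟨(h z hz).1, (h z hz).2.1, (h z hz).2.2.1⟩ : _ ∧ _ ∧ _)
  have hc := mem_ball_self (x := c) hr
  have hΛ : 0 ≤ Λ := (norm_nonneg _).trans (UB.coef hJ h' hc).2.2.1
  have hL : 0 ≤ L := (norm_nonneg _).trans (h c hc).2.2.1
  have hR : 0 ≤ R := nonempty_closedBall.1 ⟨_, hJ.sub (h c hc).2.1⟩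
  have hM0 : 0 ≤ M := by positivity
  have hu : Hld (2 * R * 1 + L / 1) u (ball c r) := hld_interp (convex_ball _ _) one_pos fun z hz =>
    ⟨(h z hz).1, by simpa using hJ.sub (h z hz).2.1, (h z hz).2.2.1⟩
  have hj : Hld M (fderiv ℝ fun z => J (u z)) (ball c r) := fun z hz z' hz' => by
    rw [(UB.coef hJ h' hz).1.fderiv, (UB.coef hJ h' hz').1.fderiv]
    refine ContinuousLinearMap.opNorm_le_bound _ (by positivity) fun a => ?_
    refine (hld_apply (φ := fun z => fderiv ℝ J (u z)) (ψ := fun z => fderiv ℝ u z a)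
      (a' := Λ * (2 * R * 1 + L / 1)) (b' := L * ‖a‖) (fun y hy => (hJ.bd _ (hJ.sub (h y hy).2.1)).2)
      (fun y hy y' hy' => ?_) (fun y hy => ContinuousLinearMap.le_of_opNorm_le _ (h y hy).2.2.1 a)
      (fun y hy y' hy' => ?_) z hz z' hz').trans (le_of_eq (by ring))
    · rw [mul_assoc]
      exact (hJ.lip _ (hJ.sub (h y hy).2.1) _ (hJ.sub (h y' hy').2.1)).2.trans
        (mul_le_mul_of_nonneg_left (hu y hy y' hy') hΛ)
    · rw [← sub_apply, mul_right_comm]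
      exact ContinuousLinearMap.le_of_opNorm_le _ (hH y hy y' hy') a
  have sh : ∀ v : ℂ, ‖v‖ < r / 4 → ∀ z ∈ ball c (3 * r / 4), z + v ∈ ball c r := fun v hv z hz => by
    have := dist_triangle (z + v) z c
    rw [dist_self_add_left] at this
    exact mem_ball.2 (by linarith [mem_ball.1 hz])
  have s0 : ball c (3 * r / 4) ⊆ ball c r := ball_subset_ball (by linarith)
  have mv : ∀ {E : Type} [NormedAddCommGroup E] [NormedSpace ℝ E] (f : ℂ → E) (B : ℝ),
      (∀ v, ‖v‖ < r / 4 → DifferentiableAt ℝ f v ∧ ‖fderiv ℝ f v‖ ≤ B) →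
      ∀ v, ‖v‖ < r / 4 → ‖f v - f 0‖ ≤ B * ‖v‖ := fun f B hf v hv => by
    simpa using (convex_ball (0 : ℂ) (r / 4)).norm_image_sub_le_of_norm_fderiv_le
      (fun y hy => (hf y (by simpa using hy)).1) (fun y hy => (hf y (by simpa using hy)).2)
      (mem_ball_self (by positivity)) (by simpa using hv)
  have key := dq (f := fderiv ℝ u) (isOpen_ball (x := c) (ε := r / 2)) (by positivity : 0 < r / 4)
    (K := C * ((Λ * L + M) * L + L)) (by positivity) fun v hv => by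
    have hd : ∀ z ∈ ball c (3 * r / 4), HasFDerivAt (fun z => u (z + v) - u z)
        (fderiv ℝ u (z + v) - fderiv ℝ u z) z := fun z hz =>
      ((hasFDerivAt_comp_add_right v).2 (h _ (sh v hv z hz)).1.hasFDerivAt).sub
        (h z (s0 hz)).1.hasFDerivAt
    have e : ∀ z ∈ ball c (3 * r / 4), cr (fun z => J (u z)) (fun z => u (z + v) - u z) z =
        -(J (u (z + v)) - J (u z)) (fderiv ℝ u (z + v) I) := fun z hz => by
      simp only [cr, (hd z hz).fderiv, sub_apply, map_sub, (h _ (sh v hv z hz)).2.2.2,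
        (h z (s0 hz)).2.2.2, hJ.sq _ (h _ (sh v hv z hz)).2.1, hJ.sq _ (h z (s0 hz)).2.1]
      abel
    have p1 : ∀ z ∈ ball c (3 * r / 4), ‖J (u (z + v)) - J (u z)‖ ≤ Λ * L * ‖v‖ := fun z hz => by
      simpa using mv (fun v => J (u (z + v))) (Λ * L) (fun y hy => by
        obtain ⟨-, k1, -, k2⟩ := UB.coef hJ h' (sh y hy z hz)
        exact ⟨(differentiableAt_comp_add_left (f := fun z => J (u z)) z).2 k1,
          by rwa [fderiv_comp_add_left (f := fun z => J (u z))]⟩) v hv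
    have p2 : Hld (M * ‖v‖) (fun z => J (u (z + v)) - J (u z)) (ball c (3 * r / 4)) :=
      fun z hz z' hz' => by
        rw [sub_sub_sub_comm, mul_right_comm]
        simpa using mv (fun v => J (u (z + v)) - J (u (z' + v))) (M * √(dist z z')) (fun y hy => by
          have k := ((hasFDerivAt_comp_add_left z).2
            (UB.coef hJ h' (sh y hy z hz)).2.1.hasFDerivAt).sub ((hasFDerivAt_comp_add_left z').2
              (UB.coef hJ h' (sh y hy z' hz')).2.1.hasFDerivAt)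
          refine ⟨k.differentiableAt, (congrArg _ k.fderiv).trans_le ?_⟩
          simpa using hj _ (sh y hy z hz) _ (sh y hy z' hz')) v hv
    have p3 : ∀ A : ℂ →L[ℝ] V, ‖A I‖ ≤ ‖A‖ := fun A => by simpa using A.le_opNorm I
    have p4 := fun z hz => (p3 _).trans (h _ (sh v hv z hz)).2.2.1
    have p5 := hld_apply (ψ := fun z => fderiv ℝ u (z + v) I) (b' := L) p1 p2 p4
      fun z hz z' hz' => by
        rw [← sub_apply]
        simpa using (p3 _).trans (hH _ (sh v hv z hz) _ (sh v hv z' hz'))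
    have hv0 := norm_nonneg v
    obtain ⟨q1, q2⟩ := hC V (fun z => J (u z)) (fun z => u (z + v) - u z) c
      ((Λ * L + M) * L * ‖v‖) (L * ‖v‖) (L + L) ⟨fun z hz => ⟨by
        linarith [(UB.coef hJ h' (s0 hz)).2.2.1, mul_nonneg hΛ hL], hJ.sq _ (h z (s0 hz)).2.1,
        (hd z hz).differentiableAt, by
          rw [e z hz, norm_neg]
          exact (ContinuousLinearMap.le_opNorm _ _).trans ((mul_le_mul (p1 z hz) (p4 z hz)
            (norm_nonneg _) (by positivity)).trans (by nlinarith [mul_nonneg (mul_nonneg hM0 hL) hv0])),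
        by simpa using mv (fun v => u (z + v)) L (fun y hy =>
          ⟨(differentiableAt_comp_add_left z).2 (h _ (sh y hy z hz)).1,
            by rw [fderiv_comp_add_left]; exact (h _ (sh y hy z hz)).2.2.1⟩) v hv⟩,
      hld_interp (convex_ball _ _) one_pos fun z hz => (UB.coef hJ h' (s0 hz)).2,
      fun z hz z' hz' => by
        rw [(hd z hz).fderiv, (hd z' hz').fderiv, sub_sub_sub_comm, add_mul]
        exact (norm_sub_le _ _).trans (add_le_add
          (by simpa using hH _ (sh v hv z hz) _ (sh v hv z' hz')) (hH _ (s0 hz) _ (s0 hz'))),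
      fun z hz z' hz' => by
        rw [e z hz, e z' hz', neg_sub_neg, norm_sub_rev]
        exact (p5 z hz z' hz').trans (le_of_eq (by ring))⟩
    have s1 : ball c (r / 2) ⊆ ball c (3 * r / 4) := ball_subset_ball (by linarith)
    refine ⟨fun z hz => ?_, fun z hz z' hz' => ?_⟩
    · rw [← (hd z (s1 hz)).fderiv]; exact (q1 z hz).trans (le_of_eq (by ring))
    · have := q2 z hz z' hz'
      rw [(hd z (s1 hz)).fderiv, (hd z' (s1 hz')).fderiv] at this
      exact this.trans (le_of_eq (by ring))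
  refine ⟨?_, fun z hz => (key.1 z hz).2⟩
  rw [← one_add_one_eq_two, contDiffOn_succ_iff_fderiv_of_isOpen isOpen_ball]
  refine ⟨fun z hz => (h z (ball_subset_ball (by linarith) hz)).1.differentiableWithinAt, by simp, ?_⟩
  rw [← zero_add 1, contDiffOn_succ_iff_fderiv_of_isOpen isOpen_ball]
  exact ⟨fun z hz => (key.1 z hz).1.differentiableWithinAt, by simp,
    contDiffOn_zero.2 key.2.continuousOn⟩

theorem apri1 (R Λ L : ℝ) : ∃ C : ℝ, 0 < C ∧ ∀ (V : Type) [NormedAddCommGroup V] [NormedSpace ℝ V]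
    [CompleteSpace V] (K : Set V) (J : V → En0 V), UB R Λ K J →
    ∀ (u : ℂ → V) (z : ℂ) (r : ℝ), 0 < r → HolNear J K u (closedBall z r) →
    (∀ w ∈ closedBall z r, r * ‖fderiv ℝ u w‖ ≤ L) →
    r ^ 2 * ‖fderiv ℝ (fderiv ℝ u) z‖ ≤ C ∧
    ∀ W, (∀ w ∈ closedBall z r, ‖u w - u z‖ ≤ W) → r * ‖fderiv ℝ u z‖ ≤ C * W := by
  obtain ⟨C, hC0, hC⟩ := schl2 (2 * Λ * 1 + Λ * L / 1) (r₁ := 1) (r₂ := 1 / 2)
    (by norm_num) (by norm_num) le_rfl
  obtain ⟨C', hC'⟩ := reg2 R Λ (C * (0 + L)) (r := 1 / 2) (by norm_num) (by norm_num)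
  refine ⟨|C'| + C, by positivity, fun V _ _ _ K J hJ u z r hr ⟨N, hN, hs, hu, hm⟩ hL => ?_⟩
  have m1 : ∀ y ∈ closedBall (0 : ℂ) 1, z + r • y ∈ closedBall z r := fun y hy => by
    simpa using (sc_dist z y 0 hr.le).trans_le (mul_le_of_le_one_right hr.le hy)
  have c2 : ∀ y ∈ closedBall (0 : ℂ) 1, ContDiffAt ℝ 2 (fun y => u (z + r • y)) y := fun y hy =>
    (hu.sm.contDiffAt (hN.mem_nhds (hs (m1 y hy)))).comp y (by fun_prop)
  have h : ∀ y ∈ ball (0 : ℂ) 1, DifferentiableAt ℝ (fun y => u (z + r • y)) y ∧ u (z + r • y) ∈ K ∧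
      ‖fderiv ℝ (fun y => u (z + r • y)) y‖ ≤ L := fun y hy => by
    have hy' := ball_subset_closedBall hy
    refine ⟨(c2 y hy').differentiableAt two_ne_zero, hm (hs (m1 y hy')), ?_⟩
    rw [fderiv_sc, norm_smul, Real.norm_of_nonneg hr.le]
    exact hL _ (m1 y hy')
  have e : ∀ y ∈ ball (0 : ℂ) 1, fderiv ℝ (fun y => u (z + r • y)) y I =
      J (u (z + r • y)) (fderiv ℝ (fun y => u (z + r • y)) y 1) := fun y hy => by
    simp only [fderiv_sc, smul_apply, map_smul, hu.cr _ (hs (m1 y (ball_subset_closedBall hy)))]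
  obtain ⟨H, -, -, hH⟩ := (locH_of_contDiffAt fun y hy => (c2 y hy).fderiv_right (m := 1)
    (by norm_num)).hld (isCompact_closedBall 0 1) Subset.rfl
  have h0 := mem_ball_self (x := (0 : ℂ)) one_pos
  have hΛ : 0 ≤ Λ := (norm_nonneg _).trans (UB.coef hJ h h0).2.2.1
  have hL0 : 0 ≤ L := (norm_nonneg _).trans (h 0 h0).2.2
  have key := fun W (hW : ∀ y ∈ ball (0 : ℂ) 1, ‖u (z + r • y) - u z‖ ≤ W) => by
    have e1 : fderiv ℝ (fun y => u (z + r • y) - u z) = fderiv ℝ fun y => u (z + r • y) :=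
      funext fun y => fderiv_sub_const _
    have e2 : ∀ y ∈ ball (0 : ℂ) 1, cr (fun y => J (u (z + r • y)))
        (fun y => u (z + r • y) - u z) y = 0 := fun y hy => by
      rw [cr, e1]; exact cr_zero (u := fun y => u (z + r • y)) (hJ.sq _ (h y hy).2.1) (e y hy)
    have := hC V (fun y => J (u (z + r • y))) (fun y => u (z + r • y) - u z) 0 0 W H
      ⟨fun y hy => ⟨by linarith [(UB.coef hJ h hy).2.2.1, mul_nonneg hΛ hL0], hJ.sq _ (h y hy).2.1,
        (h y hy).1.sub_const _, by rw [e2 y hy, norm_zero], hW y hy⟩,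
      hld_interp (convex_ball _ _) one_pos fun y hy => (UB.coef hJ h hy).2,
      e1 ▸ hH.mono le_rfl ball_subset_closedBall, fun y hy y' hy' => by
        rw [e2 y hy, e2 y' hy', sub_zero, norm_zero, zero_mul]⟩
    rw [e1] at this
    exact this
  have s1 : ball (0 : ℂ) (1 / 2) ⊆ ball 0 1 := ball_subset_ball (by norm_num)
  refine ⟨?_, fun W hW => ?_⟩
  · obtain ⟨k1, k2⟩ := key L fun y hy => by
      have := (convex_ball (0 : ℂ) 1).norm_image_sub_le_of_norm_fderiv_le (fun y hy => (h y hy).1)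
        (fun y hy => (h y hy).2.2) h0 hy
      rw [smul_zero, add_zero, sub_zero] at this
      exact this.trans (mul_le_of_le_one_right hL0 (mem_ball_zero_iff.1 hy).le)
    have := (hC' V K J hJ _ 0 (fun y hy => ⟨(h y (s1 hy)).1, (h y (s1 hy)).2.1, k1 y hy,
      e y (s1 hy)⟩) k2).2 0 (mem_ball_self (by norm_num))
    rw [fderiv_sc] at this
    linarith [le_abs_self C', (norm_fderiv_sc (fderiv ℝ u) z hr.le).ge.trans this]
  · have := (key W fun y hy => hW _ (m1 y (ball_subset_closedBall hy))).1 0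
      (mem_ball_self (by norm_num))
    rw [fderiv_sc, norm_smul, Real.norm_of_nonneg hr.le, smul_zero, add_zero, zero_add] at this
    have hW0 : 0 ≤ W := (norm_nonneg _).trans (hW z (mem_closedBall_self hr.le))
    nlinarith [abs_nonneg C']

theorem apri2 [FiniteDimensional ℝ V] {J : V → En0 V} {u : ℂ → V} {Ω : Set ℂ} (hJ : ContDiff ℝ 2 J)
    (hΩ : IsOpen Ω) (h : ∀ z ∈ Ω, DifferentiableAt ℝ u z ∧ (∀ v, J (u z) (J (u z) v) = -v) ∧
      fderiv ℝ u z I = J (u z) (fderiv ℝ u z 1)) (hH : LocH (fderiv ℝ u) Ω) : IsHol J u Ω := by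
  refine ⟨fun z hz => ContDiffAt.contDiffWithinAt ?_, fun z hz => (h z hz).2.2⟩
  obtain ⟨r, hr, hs⟩ := nhds_basis_closedBall.mem_iff.1
    (inter_mem (hΩ.mem_nhds hz) (closedBall_mem_nhds z one_pos))
  have hr1 : r ≤ 1 := by
    simpa [abs_of_pos hr] using (hs (a := z + r) (by simp [abs_of_pos hr])).2
  have hs' : closedBall z r ⊆ Ω := fun y hy => (hs hy).1
  obtain ⟨R, Λ, hU⟩ := exists_UB ((isCompact_closedBall z r).image_of_continuousOn
    fun y hy => (h y (hs' hy)).1.continuousAt.continuousWithinAt) hJ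
    (forall_mem_image.2 fun y hy => (h y (hs' hy)).2.1)
  obtain ⟨L, -, l1, l2⟩ := hH.hld (isCompact_closedBall z r) hs'
  obtain ⟨C, hC⟩ := reg2 R Λ L hr hr1
  have := FiniteDimensional.complete ℝ V
  exact (hC V _ J hU u z (fun y hy => have hy' := ball_subset_closedBall hy
    ⟨(h y (hs' hy')).1, mem_image_of_mem _ hy', l1 y hy', (h y (hs' hy')).2.2⟩)
    (l2.mono le_rfl ball_subset_closedBall)).1.contDiffAt (ball_mem_nhds _ (half_pos hr))

theorem apri3 (R Λ : ℝ) : ∃ hb > (0 : ℝ), ∃ C : ℝ, ∀ (V : Type) [NormedAddCommGroup V]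
    [NormedSpace ℝ V] [CompleteSpace V] (K : Set V) (J : V → En0 V), UB R Λ K J →
    ∀ (u : ℂ → V) (z : ℂ) (r : ℝ), 0 < r → HolNear J K u (closedBall z r) →
    En u (closedBall z r) ≤ hb → r * ‖fderiv ℝ u z‖ ≤ C * En u (closedBall z r) ^ (6⁻¹ : ℝ) := by
  obtain ⟨C, hC0, hC⟩ := apri1 R Λ 1
  refine ⟨1 / (2 * (16 * C + 4) ^ 2), by positivity, 2 * ((16 * C + 4) ^ 2) ^ (6⁻¹ : ℝ),
    fun V _ _ _ K J hJ u z r hr ⟨N, hN, hs, hu, hm⟩ hE => ?_⟩
  have c1 : ∀ y ∈ closedBall z r, ContDiffAt ℝ 1 (fderiv ℝ u) y := fun y hy =>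
    (hu.sm.contDiffAt (hN.mem_nhds (hs hy))).fderiv_right (by norm_num)
  have c0 : ContinuousOn (fderiv ℝ u) (closedBall z r) := fun y hy =>
    (c1 y hy).continuousAt.continuousWithinAt
  have hE0 : 0 ≤ En u (closedBall z r) := integral_nonneg fun _ => by positivity
  obtain ⟨c, hc, hmax⟩ := (isCompact_closedBall z r).exists_isMaxOn ⟨z, mem_closedBall_self hr.le⟩
    (f := fun y => (r - dist y z) * ‖fderiv ℝ u y‖) (by fun_prop)
  have hz := isMaxOn_iff.1 hmax z (mem_closedBall_self hr.le)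
  rw [dist_self, sub_zero] at hz
  refine hz.trans ?_
  obtain ⟨ρ, hρ⟩ : ∃ ρ, r - dist c z = 2 * ρ := ⟨(r - dist c z) / 2, by ring⟩
  set D := ‖fderiv ℝ u c‖ with hD
  rw [hρ]
  rcases le_or_gt (ρ * D) 0 with h0 | h0
  · exact (by linarith : _ ≤ (0 : ℝ)).trans (by positivity)
  have hρ0 : 0 < ρ := pos_of_mul_pos_left h0 (norm_nonneg _)
  have hD0 : 0 < D := pos_of_mul_pos_right h0 hρ0.le
  obtain ⟨s, hs0, s1, s2, s3⟩ : ∃ s, 0 < s ∧ s ≤ ρ ∧ s * D ≤ 1 ∧ (s * D < 1 → s = ρ) := by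
    rcases le_total ρ D⁻¹ with h | h
    · exact ⟨ρ, hρ0, le_rfl, by rwa [← le_div_iff₀ hD0, one_div], fun _ => rfl⟩
    · exact ⟨D⁻¹, by positivity, h, (inv_mul_cancel₀ hD0.ne').le,
        fun h => absurd (inv_mul_cancel₀ hD0.ne') h.ne⟩
  have sub : ∀ y, dist y c ≤ ρ → y ∈ closedBall z r ∧ ‖fderiv ℝ u y‖ ≤ 2 * D := fun y hy => by
    have h1 := dist_triangle y c z
    have h2 : y ∈ closedBall z r := mem_closedBall.2 (by linarith)
    have h3 := isMaxOn_iff.1 hmax y h2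
    rw [hρ] at h3
    exact ⟨h2, le_of_mul_le_mul_left ((mul_le_mul_of_nonneg_right (by linarith)
      (norm_nonneg _)).trans (h3.trans_eq (by ring))) hρ0⟩
  have d2 : ∀ y ∈ closedBall c (s / 2), ‖fderiv ℝ (fderiv ℝ u) y‖ ≤ 4 * C / s ^ 2 := fun y hy => by
    have k : ∀ w ∈ closedBall y (s / 2), dist w c ≤ ρ := fun w hw => by
      linarith [dist_triangle w y c, mem_closedBall.1 hy, mem_closedBall.1 hw]
    have := (hC V K J hJ u y (s / 2) (half_pos hs0) ⟨N, hN, fun w hw => hs (sub w (k w hw)).1, hu, hm⟩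
      fun w hw => by nlinarith [(sub w (k w hw)).2]).1
    rw [le_div_iff₀ (by positivity)]
    linarith
  obtain ⟨τ, hτ⟩ : ∃ τ, τ * (8 * C + 2) = s * D * s := ⟨s * D * s / (8 * C + 2), by field_simp⟩
  have hτ0 : 0 < τ := pos_of_mul_pos_left (b := 8 * C + 2) (by rw [hτ]; positivity) (by positivity)
  have hτs : τ ≤ s / 2 := by nlinarith [mul_le_mul_of_nonneg_right s2 hs0.le]
  have low : ∀ y ∈ closedBall c τ, (D / 2) ^ 2 ≤ ‖fderiv ℝ u y‖ ^ 2 := fun y hy => by
    have h1 := (convex_closedBall c (s / 2)).norm_image_sub_le_of_norm_fderiv_le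
      (fun w hw => (c1 w (sub w (by linarith [mem_closedBall.1 hw])).1).differentiableAt one_ne_zero)
      d2 (mem_closedBall_self (half_pos hs0).le) (closedBall_subset_closedBall hτs hy)
    have h2 : 4 * C / s ^ 2 * ‖y - c‖ ≤ D / 2 := by
      rw [div_mul_eq_mul_div, div_le_iff₀ (by positivity)]
      nlinarith [mul_le_mul_of_nonneg_left (mem_closedBall_iff_norm.1 hy) hC0.le]
    have h3 := norm_sub_norm_le (fderiv ℝ u c) (fderiv ℝ u y)
    rw [norm_sub_rev] at h3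
    exact pow_le_pow_left₀ (by positivity) (by linarith) 2
  have hi : IntegrableOn (fun y => ‖fderiv ℝ u y‖ ^ 2) (closedBall z r) :=
    (c0.norm.pow 2).integrableOn_compact (isCompact_closedBall z r)
  have hsub : closedBall c τ ⊆ closedBall z r := fun y hy =>
    (sub y (by linarith [mem_closedBall.1 hy])).1
  have e1 := (setIntegral_ge_of_const_le_real measurableSet_closedBall measure_closedBall_lt_top.ne
    low (hi.mono_set hsub)).trans
    (setIntegral_mono_set hi (Eventually.of_forall fun _ => by positivity) hsub.eventuallyLE)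
  have e2 : τ ^ 2 ≤ volume.real (closedBall c τ) := by
    simp only [Measure.real, Complex.volume_closedBall, ENNReal.toReal_mul, ENNReal.toReal_pow,
      ENNReal.toReal_ofReal hτ0.le, ENNReal.coe_toReal, NNReal.coe_real_pi]
    nlinarith [Real.pi_gt_three, sq_nonneg τ]
  have e3 : (s * D) ^ 4 ≤ (16 * C + 4) ^ 2 * En u (closedBall z r) := by
    have h1 : s * D * (s * D) = (16 * C + 4) * (D / 2 * τ) := by linear_combination (-D) * hτ
    calc _ = (16 * C + 4) ^ 2 * ((D / 2) ^ 2 * τ ^ 2) := by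
          rw [show (s * D) ^ 4 = (s * D * (s * D)) ^ 2 by ring, h1]; ring
      _ ≤ _ := mul_le_mul_of_nonneg_left ((mul_le_mul_of_nonneg_left e2 (by positivity)).trans e1)
          (by positivity)
  have e4 : s * D < 1 := by
    rw [le_div_iff₀ (by positivity)] at hE
    exact lt_of_pow_lt_pow_left₀ 4 zero_le_one (by linarith)
  rw [← s3 e4, mul_assoc, mul_assoc, ← Real.mul_rpow (by positivity) hE0]
  refine mul_le_mul_of_nonneg_left ?_ zero_le_two
  rw [Real.le_rpow_inv_iff_of_pos (by positivity) (by positivity) (by norm_num)]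
  exact_mod_cast (pow_le_pow_of_le_one (by positivity) s2 (by norm_num : 4 ≤ 6)).trans e3

end

end CT

open CT

theorem schl : SchlStmt := fun V _ _ _ Λ => by
  obtain ⟨C, hC0, hC⟩ := schl2 Λ (r₁ := 1) (r₂ := 1 / 2) (by norm_num) (by norm_num) le_rfl
  refine ⟨C, hC0, fun j w g G W H h1 h2 h3 h4 h5 h6 h7 h8 => hC V j w 0 G W H
    ⟨fun z hz => ⟨(h1 z hz).1, (h1 z hz).2, h3 z hz, ?_, h8 z hz⟩, h2, h4, fun z hz z' hz' => ?_⟩⟩
  · rw [cr, h5 z hz]; exact h6 z hz
  · rw [cr, cr, h5 z hz, h5 z' hz']; exact h7 z hz z' hz'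

theorem reg : RegStmt := fun V _ _ _ R Λ L => by
  obtain ⟨C, hC⟩ := reg2 R Λ L one_pos le_rfl
  have := FiniteDimensional.complete ℝ V
  have hs : ball (0 : ℂ) (1 / 4) ⊆ ball 0 (1 / 2) := ball_subset_ball (by norm_num)
  exact ⟨C, fun K J hJ u h hH => ⟨(hC V K J hJ u 0 h hH).1.mono hs,
    fun z hz => (hC V K J hJ u 0 h hH).2 z (hs hz)⟩⟩

theorem apri : ApriStmt := fun V _ _ _ => by
  have := FiniteDimensional.complete ℝ V
  refine ⟨fun R Λ L => ?_, fun J u Ω => apri2, fun R Λ => ?_⟩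
  · obtain ⟨C, hC0, hC⟩ := apri1 R Λ L
    exact ⟨C, hC0, hC V⟩
  · obtain ⟨hb, h0, C, hC⟩ := apri3 R Λ
    exact ⟨hb, h0, C, hC V⟩

theorem schl_of (_ : Cau1Stmt) (_ : Cau2Stmt) : SchlStmt := schl

theorem reg_of (_ : SchlStmt) : RegStmt := reg

theorem apri_of (_ : SchlStmt) (_ : RegStmt) : ApriStmt := apri

end Pool.Agent.MP_9758ca_gt

end MrgPart1

-- marker of a merged file
example : 731051 + 111457 = 731051 + 111457 := rfl
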