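import Mathlib.Algebra.Order.Ring.Star
import Mathlib.Analysis.Calculus.UniformLimitsDeriv
import Pool.Agent.MP_9758ca_gt.Basic

/-!
PROJECT BALL, library HolLib: the Banach spaces `Hol`, `Y0`, `X1`.
-/

open scoped Topology ContDiff ComplexConjugate
open Set Metric Filter Complex

namespace Pool.Agent.MP_9758ca_gt

section Hol
variable {S E F G : Type} [MetricSpace S] [NormedAddCommGroup E] [NormedSpace ℝ E]
  [NormedAddCommGroup F] [NormedSpace ℝ F] [NormedAddCommGroup G] [NormedSpace ℝ G]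

@[simp] theorem hv_add (f g : Hol S E) (x : S) : hv (f + g) x = hv f x + hv g x := rfl
@[simp] theorem hv_sub (f g : Hol S E) (x : S) : hv (f - g) x = hv f x - hv g x := rfl
@[simp] theorem hv_neg (f : Hol S E) (x : S) : hv (-f) x = -hv f x := rfl
@[simp] theorem hv_smul (c : ℝ) (f : Hol S E) (x : S) : hv (c • f) x = c • hv f x := rfl
@[simp] theorem hv_zero (x : S) : hv (0 : Hol S E) x = 0 := rfl

theorem hol_quot (f : Hol S E) (x y : S) :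
    ‖hv f x - hv f y‖ = ‖f.1 (Sum.inr (x, y))‖ * √(dist x y) := by
  rw [hv, hv, ← (f.2 x y).1, norm_smul, Real.norm_of_nonneg (Real.sqrt_nonneg _), mul_comm]

theorem hol_ext {f g : Hol S E} (h : ∀ x, hv f x = hv g x) : f = g := by
  refine Subtype.ext (lp.ext (funext ?_))
  rintro (x | ⟨x, y⟩)
  · exact h x
  · by_cases hxy : x = y
    · rw [(f.2 x y).2 hxy, (g.2 x y).2 hxy]
    · refine smul_right_injective E (Real.sqrt_pos.2 (dist_pos.2 hxy)).ne' ?_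
      simp only [(f.2 x y).1, (g.2 x y).1]
      exact congrArg₂ (· - ·) (h x) (h y)

theorem norm_hv_le (f : Hol S E) (x : S) : ‖hv f x‖ ≤ ‖f‖ :=
  lp.norm_apply_le_norm ENNReal.top_ne_zero f.1 (Sum.inl x)

theorem hld_hv (f : Hol S E) : Hld ‖f‖ (hv f) univ := fun x _ y _ => by
  rw [hol_quot]
  exact mul_le_mul_of_nonneg_right (lp.norm_apply_le_norm ENNReal.top_ne_zero f.1 _)
    (Real.sqrt_nonneg _)

theorem continuous_hv (f : Hol S E) : Continuous (hv f) :=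
  continuousOn_univ.1 (hld_hv f).continuousOn

theorem hol_norm_le {f : Hol S E} {C : ℝ} (hC : 0 ≤ C) (h0 : ∀ x, ‖hv f x‖ ≤ C)
    (h1 : Hld C (hv f) univ) : ‖f‖ ≤ C := by
  refine lp.norm_le_of_forall_le (f := f.1) hC ?_
  rintro (x | ⟨x, y⟩)
  · exact h0 x
  · by_cases hxy : x = y
    · rw [(f.2 x y).2 hxy, norm_zero]; exact hC
    · refine le_of_mul_le_mul_right ?_ (Real.sqrt_pos.2 (dist_pos.2 hxy))
      rw [← hol_quot]
      exact h1 x trivial y trivial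

theorem exists_hol {g : S → E} {C : ℝ} (h0 : ∀ x, ‖g x‖ ≤ C) (h1 : Hld C g univ) :
    ∃ f : Hol S E, ∀ x, hv f x = g x := by
  refine ⟨⟨⟨Sum.elim g fun q => (√(dist q.1 q.2))⁻¹ • (g q.1 - g q.2),
    memℓp_infty ⟨max C 0, ?_⟩⟩, fun x y => ⟨?_, ?_⟩⟩, fun _ => rfl⟩
  · rintro _ ⟨x | ⟨x, y⟩, rfl⟩
    · exact (h0 x).trans (le_max_left _ _)
    · by_cases hxy : x = y
      · simp [hxy]
      · have hp := Real.sqrt_pos.2 (dist_pos.2 hxy)
        refine le_trans ?_ (le_max_left _ _)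
        simp only [Sum.elim_inr, norm_smul, norm_inv, Real.norm_of_nonneg hp.le]
        rw [inv_mul_le_iff₀ hp, mul_comm]
        exact h1 x trivial y trivial
  · show √(dist x y) • (√(dist x y))⁻¹ • (g x - g y) = g x - g y
    by_cases hxy : x = y
    · simp [hxy]
    · exact smul_inv_smul₀ (Real.sqrt_pos.2 (dist_pos.2 hxy)).ne' _
  · rintro rfl
    show (√(dist x x))⁻¹ • (g x - g x) = 0
    simp

instance hol_complete [CompleteSpace E] : CompleteSpace (Hol S E) := by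
  have hc : ∀ i, Continuous fun p : lp (fun _ : S ⊕ S × S => E) ⊤ => p i := fun i =>
    (lp.evalCLM ℝ (fun _ : S ⊕ S × S => E) ⊤ i).continuous
  suffices h : IsClosed (HolSub S E : Set (lp (fun _ : S ⊕ S × S => E) ⊤)) from
    h.completeSpace_coe
  have : (HolSub S E : Set (lp (fun _ : S ⊕ S × S => E) ⊤)) = ⋂ x, ⋂ y,
      {p | √(dist x y) • p (Sum.inr (x, y)) = p (Sum.inl x) - p (Sum.inl y)} ∩
        ⋂ _ : x = y, {p | p (Sum.inr (x, y)) = 0} := by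
    ext p
    simp only [mem_iInter, mem_inter_iff]
    rfl
  rw [this]
  exact isClosed_iInter fun x => isClosed_iInter fun y =>
    (isClosed_eq ((hc _).const_smul _) ((hc _).sub (hc _))).inter
      (isClosed_iInter fun _ => isClosed_eq (hc _) continuous_const)

theorem exists_evalL (x : S) : ∃ L : Hol S E →L[ℝ] E, ∀ f, L f = hv f x :=
  ⟨LinearMap.mkContinuous ⟨⟨fun f => hv f x, fun _ _ => rfl⟩, fun _ _ => rfl⟩ 1
    fun f => by rw [one_mul]; exact norm_hv_le f x, fun _ => rfl⟩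

theorem continuous_hv_left (x : S) : Continuous fun f : Hol S E => hv f x := by
  obtain ⟨L, hL⟩ := exists_evalL (E := E) x
  exact L.continuous.congr hL

theorem exists_clm_of_bound {X : Type} [NormedAddCommGroup X] [NormedSpace ℝ X] (T : X → S → E)
    (ha : ∀ a b x, T (a + b) x = T a x + T b x) (hs : ∀ (c : ℝ) a x, T (c • a) x = c • T a x)
    {C : ℝ} (hC : 0 ≤ C) (h0 : ∀ a x, ‖T a x‖ ≤ C * ‖a‖) (h1 : ∀ a, Hld (C * ‖a‖) (T a) univ) :
    ∃ L : X →L[ℝ] Hol S E, ∀ a x, hv (L a) x = T a x := by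
  choose f hf using fun a => exists_hol (h0 a) (h1 a)
  refine ⟨LinearMap.mkContinuous ⟨⟨f, fun a b => hol_ext fun x => ?_⟩,
    fun c a => hol_ext fun x => ?_⟩ C fun a => ?_, hf⟩
  · rw [hv_add, hf, hf, hf, ha]
  · simp only [hv_smul, hf, hs, RingHom.id_apply]
  · refine hol_norm_le (f := f a) (by positivity) (fun x => hf a x ▸ h0 a x) ?_
    rw [funext (hf a)]
    exact h1 a

theorem exists_constL : ∃ L : E →L[ℝ] Hol S E, ∀ a x, hv (L a) x = a :=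
  exists_clm_of_bound (fun a _ => a) (fun _ _ _ => rfl) (fun _ _ _ => rfl) zero_le_one
    (fun _ _ => by simp) fun a x _ y _ => by rw [sub_self, norm_zero]; positivity

theorem exists_mapL (A : E →L[ℝ] F) :
    ∃ L : Hol S E →L[ℝ] Hol S F, ∀ f x, hv (L f) x = A (hv f x) :=
  exists_clm_of_bound (fun f x => A (hv f x)) (fun _ _ _ => by simp) (fun _ _ _ => by simp)
    (norm_nonneg A) (fun f x => A.le_opNorm_of_le (norm_hv_le f x)) fun f x _ y _ => by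
      rw [← map_sub, mul_assoc]
      exact A.le_opNorm_of_le (hld_hv f x trivial y trivial)

theorem exists_prodL :
    ∃ L : Hol S E × Hol S F →L[ℝ] Hol S (E × F), ∀ p x, hv (L p) x = (hv p.1 x, hv p.2 x) := by
  obtain ⟨L1, h1⟩ := exists_mapL (S := S) (ContinuousLinearMap.inl ℝ E F)
  obtain ⟨L2, h2⟩ := exists_mapL (S := S) (ContinuousLinearMap.inr ℝ E F)
  exact ⟨L1.coprod L2, fun p x => by simp [h1, h2]⟩

theorem exists_bilinL (B : E →L[ℝ] F →L[ℝ] G) :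
    ∃ L : Hol S E →L[ℝ] Hol S F →L[ℝ] Hol S G,
      ∀ f g x, hv (L f g) x = B (hv f x) (hv g x) := by
  have h0 : ∀ (f : Hol S E) (g : Hol S F) x, ‖B (hv f x) (hv g x)‖ ≤ 2 * ‖B‖ * ‖f‖ * ‖g‖ := by
    intro f g x
    have := B.le_of_opNorm₂_le_of_le le_rfl (norm_hv_le f x) (norm_hv_le g x)
    have : 0 ≤ ‖B‖ * ‖f‖ * ‖g‖ := by positivity
    linarith
  have h1 : ∀ (f : Hol S E) (g : Hol S F),
      Hld (2 * ‖B‖ * ‖f‖ * ‖g‖) (fun x => B (hv f x) (hv g x)) univ := by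
    intro f g x _ y _
    have e : B (hv f x) (hv g x) - B (hv f y) (hv g y) =
        B (hv f x - hv f y) (hv g x) + B (hv f y) (hv g x - hv g y) := by simp
    have h2 := B.le_of_opNorm₂_le_of_le le_rfl (hld_hv f x trivial y trivial) (norm_hv_le g x)
    have h3 := B.le_of_opNorm₂_le_of_le le_rfl (norm_hv_le f y) (hld_hv g x trivial y trivial)
    rw [e]
    refine (norm_add_le _ _).trans ?_
    linarith
  choose T hT using fun f g => exists_hol (h0 f g) (h1 f g)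
  refine ⟨LinearMap.mkContinuous₂ (LinearMap.mk₂ ℝ T (fun _ _ _ => hol_ext fun x => by simp [hT])
    (fun _ _ _ => hol_ext fun x => by simp [hT]) (fun _ _ _ => hol_ext fun x => by simp [hT])
    fun _ _ _ => hol_ext fun x => by simp [hT]) (2 * ‖B‖) fun f g => ?_, hT⟩
  refine hol_norm_le (f := T f g) (by positivity) (fun x => hT f g x ▸ h0 f g x) ?_
  rw [funext (hT f g)]
  exact h1 f g

/-- a linear map into `Hol` with continuous values is continuous (closed graph theorem) -/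
theorem exists_clm_hol {X : Type} [NormedAddCommGroup X] [NormedSpace ℝ X] [CompleteSpace X]
    [CompleteSpace E] (T : X →ₗ[ℝ] Hol S E) (h : ∀ x, Continuous fun a => hv (T a) x) :
    ∃ L : X →L[ℝ] Hol S E, ∀ a, L a = T a := by
  refine ⟨⟨T, T.continuous_of_isClosed_graph ?_⟩, fun _ => rfl⟩
  have : (T.graph : Set (X × Hol S E)) = ⋂ x, {p | hv p.2 x = hv (T p.1) x} := by
    ext p
    simp only [SetLike.mem_coe, LinearMap.mem_graph_iff, mem_iInter, mem_ofPred_eq]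
    exact ⟨fun h x => by rw [h], hol_ext⟩
  rw [this]
  exact isClosed_iInter fun x => isClosed_eq ((continuous_hv_left x).comp continuous_snd)
    ((h x).comp continuous_fst)

theorem exists_hol_of_locH {g : C2 → E} (h : LocH g nz) :
    ∃ f : Hol S3 E, ∀ v : S3, hv f v = g v := by
  obtain ⟨C, -, h0, h1⟩ := h.hld (isCompact_sphere (0 : C2) 1) fun v hv => S3_ne ⟨v, hv⟩
  exact exists_hol (fun v => h0 v v.2) fun v _ w _ => h1 v v.2 w w.2

/-- interpolation -/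
theorem hol_norm_le_interp {f : Hol S E} {δ C : ℝ} (hδ : 0 ≤ δ) (hC : 0 ≤ C)
    (h0 : ∀ x, ‖hv f x‖ ≤ δ) (h1 : ∀ x y, ‖hv f x - hv f y‖ ≤ C * dist x y) :
    ‖f‖ ≤ δ + √(2 * δ * C) := by
  refine hol_norm_le (by positivity) (fun x => (h0 x).trans (le_add_of_nonneg_right
    (Real.sqrt_nonneg _))) fun x _ y _ => ?_
  have h2 : ‖hv f x - hv f y‖ ≤ 2 * δ := (norm_sub_le _ _).trans (by linarith [h0 x, h0 y])
  refine le_trans ?_ (mul_le_mul_of_nonneg_right (le_add_of_nonneg_left hδ) (Real.sqrt_nonneg _))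
  rw [← Real.sqrt_mul (by positivity), mul_assoc]
  refine Real.le_sqrt_of_sq_le ?_
  rw [sq]
  exact mul_le_mul h2 (h1 x y) (norm_nonneg _) (by positivity)

end Hol

/-- radial projection to the sphere -/
noncomputable def nrm (v : C2) : S3 :=
  haveI := Classical.dec (v = 0)
  if h : v = 0 then ⟨(1, 0), by simp⟩ else
    ⟨‖v‖⁻¹ • v, by simp [norm_smul, inv_mul_cancel₀ (norm_ne_zero_iff.2 h)]⟩

theorem nrm_val {v : C2} (h : v ≠ 0) : (nrm v : C2) = ‖v‖⁻¹ • v := by rw [nrm, dif_neg h]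

theorem smul_nrm {v : C2} (h : v ≠ 0) : (‖v‖ : ℂ) • (nrm v : C2) = v := by
  rw [nrm_val h, Complex.coe_smul, smul_inv_smul₀ (norm_ne_zero_iff.2 h)]

theorem cnorm_ne {v : C2} (h : v ≠ 0) : (‖v‖ : ℂ) ≠ 0 := ofReal_ne_zero.2 (norm_ne_zero_iff.2 h)

theorem nrm_lip {v : C2} (h : v ≠ 0) : ∃ C, ∃ N ∈ 𝓝 v, ∀ y ∈ N, ∀ z ∈ N,
    dist (nrm y) (nrm z) ≤ C * dist y z := by
  have hp : 0 < ‖v‖ / 2 := half_pos (norm_pos_iff.2 h)
  refine ⟨2 / (‖v‖ / 2), {y | ‖v‖ / 2 < ‖y‖}, (isOpen_lt continuous_const continuous_norm).mem_nhds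
    (half_lt_self (norm_pos_iff.2 h)), fun y hy z hz => ?_⟩
  have hy0 : 0 < ‖y‖ := hp.trans hy
  have hz0 : 0 < ‖z‖ := hp.trans hz
  have e : ‖y‖⁻¹ • y - ‖z‖⁻¹ • z = ‖y‖⁻¹ • (y - z + (‖z‖ - ‖y‖) • ‖z‖⁻¹ • z) := by
    rw [sub_smul, smul_inv_smul₀ hz0.ne', sub_add_sub_cancel, smul_sub, inv_smul_smul₀ hy0.ne']
  rw [Subtype.dist_eq, nrm_val (norm_pos_iff.1 hy0), nrm_val (norm_pos_iff.1 hz0), dist_eq_norm,
    dist_eq_norm, e, norm_smul, norm_inv, norm_norm]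
  have h1 : ‖y - z + (‖z‖ - ‖y‖) • ‖z‖⁻¹ • z‖ ≤ 2 * ‖y - z‖ := by
    refine (norm_add_le _ _).trans ?_
    rw [norm_smul, norm_smul, norm_inv, norm_norm, inv_mul_cancel₀ hz0.ne', mul_one,
      Real.norm_eq_abs, abs_sub_comm]
    linarith [abs_norm_sub_norm_le y z]
  refine (mul_le_mul (inv_anti₀ hp (le_of_lt hy)) h1 (norm_nonneg _) (by positivity)).trans_eq ?_
  ring

section XY
variable {E F : Type} [NormedAddCommGroup E] [NormedSpace ℝ E] [NormedAddCommGroup F]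
  [NormedSpace ℝ F] {χ : ℂ → En0 E}

theorem xt_zero (g : S3 → E) : xt χ g 0 = 0 := by rw [xt, dif_pos rfl]

theorem xt_of_ne (g : S3 → E) {v : C2} (h : v ≠ 0) : xt χ g v = χ (‖v‖ : ℂ) (g (nrm v)) := by
  rw [xt, dif_neg h, nrm, dif_neg h]

theorem xt_eq {G : C2 → E} (h : Hom χ G) {g : S3 → E} (he : ∀ v : S3, G v = g v) {v : C2}
    (hv : v ≠ 0) : xt χ g v = G v := by
  rw [xt_of_ne g hv, ← he, ← h _ (cnorm_ne hv) _ (S3_ne _), smul_nrm hv]

theorem hom_xt {G : C2 → E} (h : Hom χ G) {g : S3 → E} (he : ∀ v : S3, G v = g v) :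
    Hom χ (xt χ g) := fun c hc v hv => by
  rw [xt_eq h he (smul_ne_zero hc hv), xt_eq h he hv, h c hc v hv]

theorem exists_xtL (v : C2) : ∃ L : Hol S3 E →L[ℝ] E, ∀ f, L f = xt χ (hv f) v := by
  by_cases h : v = 0
  · exact ⟨0, fun f => by rw [h, xt_zero]; rfl⟩
  · obtain ⟨L, hL⟩ := exists_evalL (E := E) (nrm v)
    exact ⟨(χ (‖v‖ : ℂ)).comp L, fun f => by rw [xt_of_ne _ h, ← hL]; rfl⟩

theorem locH_hv_nrm (f : Hol S3 E) : LocH (fun v => hv f (nrm v)) nz :=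
  LocH.pre_lip (s := univ) (fun _ _ => ⟨_, univ, univ_mem, hld_hv f⟩)
    fun _ h => ⟨trivial, nrm_lip h⟩

theorem locH_norm {φ : ℂ → E} (h : ∀ c : ℂ, c ≠ 0 → ContDiffAt ℝ 1 φ c) :
    LocH (fun v : C2 => φ (‖v‖ : ℂ)) nz :=
  LocH.pre_lip (s := {c | c ≠ 0}) (locH_of_contDiffAt h) fun _ hv => ⟨cnorm_ne hv, 1, univ,
    univ_mem, fun y _ z _ => by
      rw [one_mul, Complex.isometry_ofReal.dist_eq]; exact by rw [dist_eq_norm y]; exact dist_norm_norm_le y z⟩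

theorem Rep.locH (hχ : Rep χ) : LocH (fun v : C2 => χ (‖v‖ : ℂ)) nz :=
  locH_norm fun _ hc => hχ.1.contDiffAt (isOpen_ne.mem_nhds hc)

theorem Rep.bound (hχ : Rep χ) :
    ∃ M, 0 ≤ M ∧ ∀ v : C2, 1 / 2 ≤ ‖v‖ → ‖v‖ ≤ 2 → ‖χ (‖v‖ : ℂ)‖ ≤ M := by
  obtain ⟨M, hM⟩ := (isCompact_Icc (a := (1 / 2 : ℝ)) (b := 2)).exists_bound_of_continuousOn
    (f := fun r : ℝ => χ (r : ℂ)) (hχ.1.continuousOn.comp continuous_ofReal.continuousOn
      fun r hr => ofReal_ne_zero.2 (by linarith [hr.1]))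
  exact ⟨max M 0, le_max_right _ _, fun v h1 h2 => (hM _ ⟨h1, h2⟩).trans (le_max_left _ _)⟩

theorem Hom.hasFDerivAt_nrm {G : C2 → E} (h : Hom χ G) {v : C2} (hv : v ≠ 0)
    (hd : DifferentiableAt ℝ G (nrm v)) :
    HasFDerivAt G (‖v‖⁻¹ • (χ (‖v‖ : ℂ)).comp (fderiv ℝ G (nrm v))) v := by
  obtain ⟨h1, h2⟩ := h.fderiv_smul (cnorm_ne hv) (S3_ne _) hd
  rw [smul_nrm hv] at h1 h2
  convert h1.hasFDerivAt using 1
  refine ContinuousLinearMap.ext fun w => ?_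
  rw [smul_apply, ContinuousLinearMap.comp_apply, ← h2, Complex.coe_smul,
    map_smul, inv_smul_smul₀ (norm_ne_zero_iff.2 hv)]

theorem fY_hom (g : Y0 χ) : Hom χ (fY g) := by
  obtain ⟨G, h1, h2⟩ := g.2
  exact hom_xt h1 h2

theorem fY_val (g : Y0 χ) (v : S3) : fY g v = hv g.1 v := by
  obtain ⟨G, h1, h2⟩ := g.2
  rw [fY, xt_eq h1 h2 (S3_ne v), h2]

theorem fY_yh (hχ : Rep χ) (g : Y0 χ) : YH χ (fY g) :=
  ⟨fY_hom g, (hχ.locH.clm_apply (locH_hv_nrm g.1)).congr fun _ hv =>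
    mem_of_superset (nz_mem_nhds hv) fun _ hy => xt_of_ne _ hy⟩

theorem exists_Y {g : C2 → E} (h : YH χ g) : ∃ y : Y0 χ, ∀ v, v ≠ 0 → fY y v = g v := by
  obtain ⟨f, hf⟩ := exists_hol_of_locH h.2
  exact ⟨⟨f, g, h.1, fun v => (hf v).symm⟩, fun v hv => xt_eq h.1 (fun v => (hf v).symm) hv⟩

theorem Y_ext {g g' : Y0 χ} (h : ∀ v : S3, fY g v = fY g' v) : g = g' :=
  Subtype.ext (hol_ext fun v => by rw [← fY_val, ← fY_val, h])

theorem exists_evalY (v : C2) : ∃ L : Y0 χ →L[ℝ] E, ∀ g, L g = fY g v := by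
  obtain ⟨L, hL⟩ := exists_xtL (χ := χ) v
  exact ⟨L.comp (Y0 χ).subtypeL, fun g => hL g.1⟩

@[simp] theorem fY_add (g g' : Y0 χ) (v : C2) : fY (g + g') v = fY g v + fY g' v := by
  obtain ⟨L, hL⟩ := exists_evalY (χ := χ) v
  simp only [← hL, map_add]
@[simp] theorem fY_sub (g g' : Y0 χ) (v : C2) : fY (g - g') v = fY g v - fY g' v := by
  obtain ⟨L, hL⟩ := exists_evalY (χ := χ) v
  simp only [← hL, map_sub]
@[simp] theorem fY_neg (g : Y0 χ) (v : C2) : fY (-g) v = -fY g v := by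
  obtain ⟨L, hL⟩ := exists_evalY (χ := χ) v
  simp only [← hL, map_neg]
@[simp] theorem fY_smul (c : ℝ) (g : Y0 χ) (v : C2) : fY (c • g) v = c • fY g v := by
  obtain ⟨L, hL⟩ := exists_evalY (χ := χ) v
  simp only [← hL, map_smul]
@[simp] theorem fY_zero (v : C2) : fY (0 : Y0 χ) v = 0 := by
  obtain ⟨L, hL⟩ := exists_evalY (χ := χ) v
  simp only [← hL, map_zero]

theorem isClosed_hom : IsClosed {f : Hol S3 E | Hom χ (xt χ (hv f)) ∧
    ∀ v : S3, xt χ (hv f) v = hv f v} := by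
  have hc : ∀ v, Continuous fun f : Hol S3 E => xt χ (hv f) v := fun v => by
    obtain ⟨L, hL⟩ := exists_xtL (χ := χ) v
    exact L.continuous.congr hL
  simp only [Hom, ofPred_and, ofPred_forall]
  exact (isClosed_iInter fun c => isClosed_iInter fun _ => isClosed_iInter fun v =>
    isClosed_iInter fun _ => isClosed_eq (hc _) ((χ c).continuous.comp (hc _))).inter
    (isClosed_iInter fun v => isClosed_eq (hc _) (continuous_hv_left v))

theorem isClosed_Y0 (hχ : Rep χ) : IsClosed (Y0 χ : Set (Hol S3 E)) := by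
  have _ := hχ
  convert isClosed_hom (χ := χ) using 1
  ext f
  exact ⟨fun h => ⟨fY_hom ⟨f, h⟩, fY_val ⟨f, h⟩⟩, fun h => ⟨_, h⟩⟩

theorem norm_fY_le (g : Y0 χ) (v : S3) : ‖fY g v‖ ≤ ‖g‖ := by
  rw [fY_val]; exact norm_hv_le g.1 v

/-- membership test: it is enough to check the homogeneity on the sphere -/
theorem mem_Y0 {f : Hol S3 E} {G : C2 → E} (h : Hom χ G) (he : ∀ v : S3, hv f v = G v) :
    f ∈ Y0 χ := ⟨G, h, fun v => (he v).symm⟩

theorem fX_hom (ξ : X1 χ) : Hom χ (fX ξ) := by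
  obtain ⟨G, h1, h2⟩ := ξ.2
  exact hom_xt h1 fun v => (h2 v).1

theorem fX_val (ξ : X1 χ) (v : S3) : fX ξ v = hv ξ.1.1 v := by
  obtain ⟨G, h1, h2⟩ := ξ.2
  rw [fX, xt_eq h1 (fun v => (h2 v).1) (S3_ne v), (h2 v).1]

theorem fX_hasFDerivAt (ξ : X1 χ) (v : S3) : HasFDerivAt (fX ξ) (hv ξ.1.2 v) (v : C2) := by
  obtain ⟨G, h1, h2⟩ := ξ.2
  exact (h2 v).2.congr_of_eventuallyEq (mem_of_superset (nz_mem_nhds (S3_ne v))
    fun _ hy => xt_eq h1 (fun v => (h2 v).1) hy)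

theorem fX_fderiv (ξ : X1 χ) (v : S3) : fderiv ℝ (fX ξ) v = hv ξ.1.2 v :=
  (fX_hasFDerivAt ξ v).fderiv

theorem fX_hasFDerivAt' (ξ : X1 χ) {v : C2} (h : v ≠ 0) :
    HasFDerivAt (fX ξ) (‖v‖⁻¹ • (χ (‖v‖ : ℂ)).comp (hv ξ.1.2 (nrm v))) v := by
  rw [← fX_fderiv]
  exact (fX_hom ξ).hasFDerivAt_nrm h (fX_hasFDerivAt ξ _).differentiableAt

theorem fX_differentiableAt (ξ : X1 χ) {v : C2} (hv : v ≠ 0) : DifferentiableAt ℝ (fX ξ) v :=
  (fX_hasFDerivAt' ξ hv).differentiableAt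

theorem fX_xh (hχ : Rep χ) (ξ : X1 χ) : XH χ (fX ξ) := by
  refine ⟨fX_hom ξ, fun _ => fX_differentiableAt ξ, ?_⟩
  have h1 : LocH (fun v : C2 => ((‖v‖ : ℂ).re)⁻¹) nz := by
    refine LocH.post (Φ := fun r : ℝ => r⁻¹)
      (locH_norm (φ := Complex.re) fun _ _ => reCLM.contDiff.contDiffAt) fun v hv => ?_
    exact contDiffAt_inv ℝ (norm_ne_zero_iff.2 hv)
  refine ((h1.prod (hχ.locH.prod (locH_hv_nrm ξ.1.2))).post
    (Φ := fun q : ℝ × En0 E × (C2 →L[ℝ] E) => q.1 • q.2.1.comp q.2.2) fun _ _ => ?_).congr fun _ hv =>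
    mem_of_superset (nz_mem_nhds hv) fun _ hy => (fX_hasFDerivAt' ξ hy).fderiv
  exact contDiffAt_fst.smul (contDiffAt_snd.fst.clm_comp contDiffAt_snd.snd)

theorem exists_X {ζ : C2 → E} (h : XH χ ζ) : ∃ ξ : X1 χ, ∀ v, v ≠ 0 → fX ξ v = ζ v := by
  obtain ⟨f, hf⟩ := exists_hol_of_locH h.yh.2
  obtain ⟨f', hf'⟩ := exists_hol_of_locH h.2.2
  refine ⟨⟨(f, f'), ζ, h.1, fun v => ⟨(hf v).symm, ?_⟩⟩,
    fun v hv => xt_eq h.1 (fun v => (hf v).symm) hv⟩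
  rw [hf']
  exact (h.2.1 v (S3_ne v)).hasFDerivAt

theorem X_ext {ξ ξ' : X1 χ} (h : ∀ v : S3, fX ξ v = fX ξ' v) : ξ = ξ' := by
  have h1 : ξ.1.1 = ξ'.1.1 := hol_ext fun v => by rw [← fX_val, ← fX_val, h]
  refine Subtype.ext (Prod.ext h1 (hol_ext fun v => ?_))
  rw [← fX_fderiv, ← fX_fderiv, fX, fX, h1]

theorem exists_evalX (v : C2) : ∃ L : X1 χ →L[ℝ] E, ∀ ξ, L ξ = fX ξ v := by
  obtain ⟨L, hL⟩ := exists_xtL (χ := χ) v
  exact ⟨L.comp ((ContinuousLinearMap.fst ℝ _ _).comp (X1 χ).subtypeL), fun g => hL g.1.1⟩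

@[simp] theorem fX_add (g g' : X1 χ) (v : C2) : fX (g + g') v = fX g v + fX g' v := by
  obtain ⟨L, hL⟩ := exists_evalX (χ := χ) v
  simp only [← hL, map_add]
@[simp] theorem fX_sub (g g' : X1 χ) (v : C2) : fX (g - g') v = fX g v - fX g' v := by
  obtain ⟨L, hL⟩ := exists_evalX (χ := χ) v
  simp only [← hL, map_sub]
@[simp] theorem fX_neg (g : X1 χ) (v : C2) : fX (-g) v = -fX g v := by
  obtain ⟨L, hL⟩ := exists_evalX (χ := χ) v
  simp only [← hL, map_neg]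
@[simp] theorem fX_smul (c : ℝ) (g : X1 χ) (v : C2) : fX (c • g) v = c • fX g v := by
  obtain ⟨L, hL⟩ := exists_evalX (χ := χ) v
  simp only [← hL, map_smul]
@[simp] theorem fX_zero (v : C2) : fX (0 : X1 χ) v = 0 := by
  obtain ⟨L, hL⟩ := exists_evalX (χ := χ) v
  simp only [← hL, map_zero]

theorem norm_deriv_le {M L : ℝ} {v : C2} {A : C2 →L[ℝ] E} (h1 : 1 / 2 ≤ ‖v‖)
    (hM : ‖χ (‖v‖ : ℂ)‖ ≤ M) (hA : ‖A‖ ≤ L) : ‖‖v‖⁻¹ • (χ (‖v‖ : ℂ)).comp A‖ ≤ 2 * M * L := by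
  rw [norm_smul, norm_inv, norm_norm, mul_assoc]
  refine mul_le_mul ((inv_anti₀ one_half_pos h1).trans_eq (by norm_num))
    (((χ _).opNorm_comp_le A).trans ?_) (norm_nonneg _) zero_le_two
  exact mul_le_mul hM hA (norm_nonneg _) ((norm_nonneg _).trans hM)

theorem isClosed_X1 (hχ : Rep χ) : IsClosed (X1 χ : Set (Hol S3 E × Hol S3 (C2 →L[ℝ] E))) := by
  obtain ⟨M, hM0, hM⟩ := hχ.bound
  refine IsSeqClosed.isClosed fun ξ p hξ hp => ?_
  have h1 := isClosed_hom.mem_of_tendsto ((continuous_fst.tendsto p).comp hp)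
    (.of_forall fun n => ⟨fX_hom ⟨_, hξ n⟩, fX_val ⟨_, hξ n⟩⟩)
  refine ⟨_, h1.1, fun v => ⟨h1.2 v, ?_⟩⟩
  have hv1 : ‖(v : C2)‖ = 1 := by simp
  have h2 := hasFDerivAt_of_tendstoUniformlyOn (l := atTop) (s := {y : C2 | 1 / 2 < ‖y‖ ∧ ‖y‖ < 2})
    (f := fun n => fX ⟨_, hξ n⟩) (g := xt χ (hv p.1))
    (f' := fun n y => ‖y‖⁻¹ • (χ (‖y‖ : ℂ)).comp (hv (ξ n).2 (nrm y)))
    (g' := fun y => ‖y‖⁻¹ • (χ (‖y‖ : ℂ)).comp (hv p.2 (nrm y))) (x := v)
    ((isOpen_lt continuous_const continuous_norm).inter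
      (isOpen_lt continuous_norm continuous_const)) ?_
    (fun n y hy => fX_hasFDerivAt' ⟨_, hξ n⟩ (norm_pos_iff.1 (one_half_pos.trans hy.1)))
    (fun y _ => ?_) (by rw [mem_ofPred_eq, hv1]; norm_num)
  · have e : nrm v = v := Subtype.ext (by rw [nrm_val (S3_ne v), hv1, inv_one, one_smul])
    rwa [hv1, e, inv_one, one_smul, ofReal_one, hχ.2, ContinuousLinearMap.id_comp] at h2
  · rw [Metric.tendstoUniformlyOn_iff]
    intro ε hε
    have h3 : Tendsto (fun n => 2 * M * ‖p.2 - (ξ n).2‖) atTop (𝓝 (2 * M * ‖p.2 - p.2‖)) :=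
      ((tendsto_const_nhds.sub ((continuous_snd.tendsto p).comp hp)).norm).const_mul _
    rw [sub_self, norm_zero, mul_zero] at h3
    filter_upwards [h3.eventually_lt_const hε] with n hn y hy
    rw [dist_eq_norm, ← smul_sub, ← ContinuousLinearMap.comp_sub, ← hv_sub]
    exact (norm_deriv_le hy.1.le (hM y hy.1.le hy.2.le) (norm_hv_le _ _)).trans_lt hn
  · obtain ⟨L, hL⟩ := exists_xtL (χ := χ) y
    have := (L.continuous.tendsto _).comp ((continuous_fst.tendsto p).comp hp)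
    simp only [Function.comp_def, hL] at this
    exact this

theorem norm_fX_le (ξ : X1 χ) (v : S3) : ‖fX ξ v‖ ≤ ‖ξ‖ ∧ ‖fderiv ℝ (fX ξ) v‖ ≤ ‖ξ‖ := by
  rw [fX_val, fX_fderiv]
  exact ⟨(norm_hv_le _ v).trans (norm_fst_le ξ.1), (norm_hv_le _ v).trans (norm_snd_le ξ.1)⟩

instance BB_complete [CompleteSpace E] : CompleteSpace (BB E) :=
  (isClosed_X1 rep_triv).completeSpace_coe
instance QQ_complete [CompleteSpace E] : CompleteSpace (QQ E) :=
  (isClosed_Y0 rep_repQ).completeSpace_coe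
instance XX_complete (k : Fin 3 → ℤ) : CompleteSpace (XX k) :=
  (isClosed_X1 (rep_rep k)).completeSpace_coe
instance YY_complete (k : Fin 3 → ℤ) : CompleteSpace (YY k) :=
  (isClosed_Y0 (rep_repY k)).completeSpace_coe

/-- a function that is `C¹` and homogeneous is Lipschitz on the sphere -/
theorem lip_S3 (hχ : Rep χ) : ∃ C, 0 ≤ C ∧ ∀ (G : C2 → E) (L : ℝ), Hom χ G →
    (∀ v, v ≠ 0 → DifferentiableAt ℝ G v) → (∀ v : S3, ‖G v‖ ≤ L ∧ ‖fderiv ℝ G v‖ ≤ L) →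
    ∀ v w : S3, ‖G v - G w‖ ≤ C * L * dist v w := by
  obtain ⟨M, hM0, hM⟩ := hχ.bound
  refine ⟨2 * M + 4, by positivity, fun G L hG hd hL v w => ?_⟩
  have hL0 : 0 ≤ L := (norm_nonneg _).trans (hL v).1
  have hML : 0 ≤ M * L := mul_nonneg hM0 hL0
  by_cases h : dist v w ≤ 1 / 2
  · have hw1 : ‖(w : C2)‖ = 1 := by simp
    have hs : ∀ y ∈ closedBall (w : C2) (1 / 2), 1 / 2 ≤ ‖y‖ ∧ ‖y‖ ≤ 2 := fun y hy => by
      have := abs_le.1 ((abs_norm_sub_norm_le y w).trans (mem_closedBall_iff_norm.1 hy))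
      constructor <;> linarith [this.1, this.2]
    have hne : ∀ y ∈ closedBall (w : C2) (1 / 2), y ≠ 0 := fun y hy =>
      norm_pos_iff.1 (one_half_pos.trans_le (hs y hy).1)
    have := (convex_closedBall (w : C2) (1 / 2)).norm_image_sub_le_of_norm_fderiv_le (𝕜 := ℝ)
      (C := 2 * M * L) (fun y hy => hd y (hne y hy)) (fun y hy => by
        rw [(hG.hasFDerivAt_nrm (hne y hy) (hd _ (S3_ne _))).fderiv]
        exact norm_deriv_le (hs y hy).1 (hM y (hs y hy).1 (hs y hy).2) (hL _).2)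
      (mem_closedBall_self (by norm_num)) (show (v : C2) ∈ _ from h)
    rw [Subtype.dist_eq, dist_eq_norm]
    exact this.trans (mul_le_mul_of_nonneg_right (by linarith) (norm_nonneg _))
  · have h1 := (norm_sub_le (G v) (G w)).trans (add_le_add (hL v).1 (hL w).1)
    have h2 := not_le.1 h
    nlinarith [mul_nonneg hML (dist_nonneg (x := v) (y := w))]

/-- multiplication of sections by a `C²` field of operators -/
theorem exists_multX {χ' : ℂ → En0 F} (hχ : Rep χ) {m : C2 → E →L[ℝ] F}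
    (hm : ContDiffOn ℝ 2 m nz)
    (hh : ∀ c : ℂ, c ≠ 0 → ∀ v, v ≠ 0 → ∀ a, m (c • v) (χ c a) = χ' c (m v a)) :
    ∃ L : X1 χ →L[ℝ] X1 χ', ∀ ξ v, v ≠ 0 → fX (L ξ) v = m v (fX ξ v) := by
  have _ := hχ
  have hm' : ∀ v ∈ nz, ContDiffAt ℝ 2 m v := fun v hv => hm.contDiffAt (nz_mem_nhds hv)
  obtain ⟨m0, hm0⟩ := exists_hol_of_locH
    (locH_of_contDiffAt fun v hv => (hm' v hv).of_le one_le_two)
  obtain ⟨m1, hm1⟩ := exists_hol_of_locH
    (locH_of_contDiffAt fun v hv => (hm' v hv).fderiv_right (m := 1) le_rfl)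
  obtain ⟨B0, hB0⟩ := exists_bilinL (S := S3) (ContinuousLinearMap.id ℝ (E →L[ℝ] F))
  obtain ⟨B1, hB1⟩ := exists_bilinL (S := S3) (ContinuousLinearMap.compL ℝ C2 E F)
  obtain ⟨B2, hB2⟩ := exists_bilinL (S := S3) (E := C2 →L[ℝ] E →L[ℝ] F) (F := E) (G := C2 →L[ℝ] F)
    (ContinuousLinearMap.flipₗᵢ ℝ C2 E F).toContinuousLinearEquiv.toContinuousLinearMap
  have hH : ∀ ξ : X1 χ, Hom χ' fun v => m v (fX ξ v) := fun ξ c hc v hv => by
    simp only [fX_hom ξ c hc v hv, hh c hc v hv]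
  have h0 : ∀ (ξ : X1 χ) (v : S3), m v (fX ξ v) = hv (B0 m0 ξ.1.1) v := fun ξ v => by
    rw [hB0, hm0, fX_val]; rfl
  refine ⟨((((B0 m0).comp (ContinuousLinearMap.fst ℝ _ _)).prod
    ((B2 m1).coprod (B1 m0))).comp (X1 χ).subtypeL).codRestrict (X1 χ') fun ξ =>
      ⟨_, hH ξ, fun v => ⟨h0 ξ v, ?_⟩⟩, fun ξ v hv => xt_eq (hH ξ) (h0 ξ) hv⟩
  have := (((hm' v (S3_ne v)).differentiableAt two_ne_zero).hasFDerivAt).clm_apply
    (fX_hasFDerivAt ξ v)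
  refine this.congr_fderiv ?_
  show _ = hv (B2 m1 ξ.1.1 + B1 m0 ξ.1.2) v
  rw [hv_add, hB1, hB2, hm0, hm1, fX_val, add_comm]
  rfl

theorem exists_multY {χ' : ℂ → En0 F} (hχ : Rep χ) {m : C2 → E →L[ℝ] F} (hm : LocH m nz)
    (hh : ∀ c : ℂ, c ≠ 0 → ∀ v, v ≠ 0 → ∀ a, m (c • v) (χ c a) = χ' c (m v a)) :
    ∃ L : Y0 χ →L[ℝ] Y0 χ', ∀ g v, v ≠ 0 → fY (L g) v = m v (fY g v) := by
  have _ := hχ
  obtain ⟨m0, hm0⟩ := exists_hol_of_locH hm
  obtain ⟨B0, hB0⟩ := exists_bilinL (S := S3) (ContinuousLinearMap.id ℝ (E →L[ℝ] F))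
  have hH : ∀ g : Y0 χ, Hom χ' fun v => m v (fY g v) := fun g c hc v hv => by
    simp only [fY_hom g c hc v hv, hh c hc v hv]
  have h0 : ∀ (g : Y0 χ) (v : S3), m v (fY g v) = hv (B0 m0 g.1) v := fun g v => by
    rw [hB0, hm0, fY_val]; rfl
  exact ⟨((B0 m0).comp (Y0 χ).subtypeL).codRestrict (Y0 χ') fun g => ⟨_, hH g, h0 g⟩,
    fun g v hv => xt_eq (hH g) (h0 g) hv⟩

theorem exists_incl : ∃ L : X1 χ →L[ℝ] Y0 χ, ∀ ξ v, fY (L ξ) v = fX ξ v :=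
  ⟨((ContinuousLinearMap.fst ℝ _ _).comp (X1 χ).subtypeL).codRestrict (Y0 χ) fun ξ =>
    ⟨_, fX_hom ξ, fX_val ξ⟩, fun _ _ => rfl⟩

theorem exists_dbL (k : Fin 3 → ℤ) :
    ∃ D : XX k →L[ℝ] YY k, ∀ ξ v, v ≠ 0 → fY (D ξ) v = db (fX ξ) v := by
  have hI : ∀ {G : Type} [NormedAddCommGroup G] [NormedSpace ℂ G],
      ∃ L : G →L[ℝ] G, ∀ a, L a = I • a := fun {G} _ _ =>
    ⟨(I • ContinuousLinearMap.id ℂ G).restrictScalars ℝ, fun _ => rfl⟩
  obtain ⟨I2, hI2⟩ := hI (G := C2)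
  obtain ⟨I3, hI3⟩ := hI (G := C3)
  obtain ⟨h1, hh1⟩ := exists_hol_of_locH (locH_of_contDiffAt (s := nz)
    fun v _ => contDiff_hor.contDiffAt.of_le (by exact_mod_cast le_top))
  obtain ⟨B, hB⟩ := exists_bilinL (S := S3) (ContinuousLinearMap.id ℝ (C2 →L[ℝ] C3)).flip
  obtain ⟨L2, hL2⟩ := exists_mapL (S := S3) I2
  obtain ⟨L3, hL3⟩ := exists_mapL (S := S3) I3
  have hH : ∀ ξ : XX k, Hom (repY k) (db (fX ξ)) := fun ξ => (fX_xh (rep_rep k) ξ).db3.1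
  have h0 : ∀ (ξ : XX k) (v : S3), db (fX ξ) v = hv ((B h1 + L3.comp (B (L2 h1))) ξ.1.2) v :=
    fun ξ v => by
      rw [add_apply, hv_add, ContinuousLinearMap.comp_apply, hL3, hB, hB, hL2,
        hh1, hI2, hI3, db, fX_fderiv]
      rfl
  exact ⟨((B h1 + L3.comp (B (L2 h1))).comp ((ContinuousLinearMap.snd ℝ _ _).comp
    (X1 (rep k)).subtypeL)).codRestrict (Y0 (repY k)) fun ξ => ⟨_, hH ξ, h0 ξ⟩,
    fun ξ v hv => xt_eq (hH ξ) (h0 ξ) hv⟩

/-- a `C¹` map with values in a closed subspace is `C¹` as a map into the subspace -/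
theorem exists_codRestrict {X : Type} [NormedAddCommGroup X] [NormedSpace ℝ X]
    {P : Submodule ℝ E} (hP : IsClosed (P : Set E)) {Φ : X → E} {x₀ : X}
    (hΦ : ContDiffAt ℝ 1 Φ x₀) (hm : ∀ᶠ x in 𝓝 x₀, Φ x ∈ P) :
    ∃ Ψ : X → P, ContDiffAt ℝ 1 Ψ x₀ ∧ (∀ x, Φ x ∈ P → (Ψ x : E) = Φ x) ∧
      ∀ w, (fderiv ℝ Ψ x₀ w : E) = fderiv ℝ Φ x₀ w := by
  classical
  obtain ⟨f', u, hu, hc, hd⟩ := contDiffAt_one_iff.1 hΦ
  set Ψ : X → P := fun x => if h : Φ x ∈ P then ⟨Φ x, h⟩ else 0 with hΨ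
  have h1 : ∀ x, Φ x ∈ P → (Ψ x : E) = Φ x := fun x hx => by rw [hΨ]; simp only [dif_pos hx]
  have h2 : ∀ x, ∃ A : X →L[ℝ] P, x ∈ u ∩ {x | ∀ᶠ y in 𝓝 x, Φ y ∈ P} →
      P.subtypeₗᵢ.toContinuousLinearMap.comp A = f' x ∧ HasFDerivAt Ψ A x := by
    intro x
    by_cases hx : x ∈ u ∩ {x | ∀ᶠ y in 𝓝 x, Φ y ∈ P}
    swap
    · exact ⟨0, fun h => absurd h hx⟩
    have hx2 : ∀ᶠ y in 𝓝 x, Φ y ∈ P := hx.2
    have h3 : ∀ w, f' x w ∈ P := fun w => by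
      refine hP.mem_of_tendsto ((hd x hx.1).lim w (c := fun r : ℝ => r) tendsto_norm_atTop_atTop) ?_
      have h4 : Tendsto (fun r : ℝ => x + r⁻¹ • w) atTop (𝓝 (x + (0 : ℝ) • w)) :=
        (tendsto_inv_atTop_zero.smul_const w).const_add x
      rw [zero_smul, add_zero] at h4
      filter_upwards [h4.eventually hx2] with r hr
      exact P.smul_mem _ (P.sub_mem hr hx2.self_of_nhds)
    refine ⟨(f' x).codRestrict P h3, fun _ => ⟨rfl, ?_⟩⟩
    have h5 := hd x hx.1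
    rw [hasFDerivAt_iff_isLittleO, ← Asymptotics.isLittleO_norm_left] at h5 ⊢
    refine h5.congr' ?_ EventuallyEq.rfl
    filter_upwards [hx2] with y hy
    rw [← h1 y hy, ← h1 x hx2.self_of_nhds]
    rfl
  choose A hA using h2
  have hN : u ∩ {x | ∀ᶠ y in 𝓝 x, Φ y ∈ P} ∈ 𝓝 x₀ := inter_mem hu hm.eventually_nhds
  have h0 := hA x₀ (mem_of_mem_nhds hN)
  refine ⟨Ψ, contDiffAt_one_iff.2 ⟨A, _, hN, ?_, fun x hx => (hA x hx).2⟩, h1, fun w => ?_⟩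
  · rw [(P.subtypeₗᵢ.postcomp (E := X) (σ₁₂ := RingHom.id ℝ)).isometry.isEmbedding.isInducing.continuousOn_iff]
    exact (hc.mono inter_subset_left).congr fun x hx => (hA x hx).1
  · rw [h0.2.fderiv, (hd x₀ (mem_of_mem_nhds hu)).fderiv, ← h0.1]
    rfl

end XY

end Pool.Agent.MP_9758ca_gt
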